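import Pool.Agent.Lib.MP_2d211a_co.Three

open Finset

namespace Pool.Agent.Lib.MP_2d211a_co

variable {p : ℕ} [hp : Fact p.Prime]

theorem moms_all (hp2 : 2 < p) {ι : Type*} {R : Finset ι} {α β : ι → ℤ} {h : ℕ}
    (hh : 2 * h + 1 = p) (j : ℕ) (hn : ∀ s, ∃ x0, Lam p R α β (j + 1) s x0 ≠ 0) :
    (Tr p R α β (j + 1) (j + 2) → HD p R α β (j + 1) (h + (p - 1) * (j + 1)) →
      ∀ e ≤ h, ∀ s x y, mom p R α β (j + 1) e s x y = 0) ∧
    (Tr p R α β (j + 1) (j + 1) ∨ Tr p R α β j (j + 2) →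
      HD p R α β (j + 1) (0 + (p - 1) * (j + 1)) → ∀ s x y, mom p R α β (j + 1) 0 s x y = 0) := by
  by_cases h5 : 5 ≤ p
  · exact ⟨fun hT hD => moms h5 (by omega) j R α β hD (HT_full h5 hh hT),
      fun _ hD => moms h5 (by omega) j R α β hD (HT_zero h5 _) 0 le_rfl⟩
  · obtain rfl : p = 3 := by omega
    obtain rfl : h = 1 := by omega
    refine ⟨fun hT hD => moms3' locI j (by rwa [add_comm 1, add_comm 2]) hD hn, ?_⟩
    rintro (hT | hT) hD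
    · exact moms3' locII j (by rwa [add_comm 1]) hD hn 0 le_rfl
    · exact moms3' locIII j (by rwa [zero_add, add_comm 2]) hD hn 0 le_rfl

theorem core (hp2 : 2 < p) {ι : Type*} {R : Finset ι} {α β : ι → ℤ} {i l k : ℕ} (hil : i ≤ l)
    (hlk : l ≤ k) (hik : i < k) (h2 : 2 ≤ i + l) (hT : Tr p R α β i l)
    (hC : ∀ j < k, ∀ a b : ℤ, ¬ (p : ℤ) ^ (j + 1) ∣ a * (p : ℤ) ^ i →
      (∑ g ∈ R, ch (p ^ (j + 1)) ((a * α g + b * β g : ℤ) : ZMod (p ^ (j + 1)))) *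
      (∑ g ∈ R, ch (p ^ (j + 1)) (-((a * α g + b * β g : ℤ) : ZMod (p ^ (j + 1))))) =
        (p : Cy (p ^ (j + 1))) ^ (i + l)) : False := by
  have hnd : ∀ a b : ℕ, a < b → ¬ (p : ℤ) ^ b ∣ (p : ℤ) ^ a := fun a b hab h => by
    have h' : p ^ b ∣ p ^ a := by exact_mod_cast h
    have := (Nat.pow_dvd_pow_iff_le_right hp.out.one_lt).1 h'
    omega
  have hL : ∀ j < k, i ≤ j → ∀ s : ℤ, (∀ M, 2 * M ≤ (p - 1) * (i + l) → ∀ x0 : ℤ,
      (1 - rt p) ^ M ∣ Lam p R α β j s x0) ∧ ∃ x0 : ℤ, Lam p R α β j s x0 ≠ 0 := by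
    intro j hj hij s
    have := descent p j R (fun g => 1 * α g + (-s) * β g) (i + l)
      (hC j hj 1 (-s) (by rw [one_mul]; exact hnd _ _ (by omega)))
    simpa only [Lam, one_mul, neg_mul, ← sub_eq_add_neg] using this
  have hK : ∀ c, i + c < k → (∀ M, 2 * M ≤ (p - 1) * (i + l) → ∀ x0 : ℤ,
      (1 - rt p) ^ M ∣ ∑ g ∈ R, kap p (i + c) ((p : ℤ) ^ c * α g + β g - x0)) ∧
      ∃ x0 : ℤ, ∑ g ∈ R, kap p (i + c) ((p : ℤ) ^ c * α g + β g - x0) ≠ 0 := by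
    intro c hc
    have := descent p (i + c) R (fun g => (p : ℤ) ^ c * α g + 1 * β g) (i + l)
      (hC (i + c) hc _ 1 (by rw [← pow_add]; exact hnd _ _ (by omega)))
    simpa only [one_mul] using this
  obtain ⟨d, rfl⟩ := Nat.exists_eq_add_of_le hil
  obtain ⟨h, hh⟩ := hp.out.odd_of_ne_two (by omega)
  have hp1 : p - 1 = 2 * h := by omega
  match d with
  | 0 =>
    obtain ⟨j, rfl⟩ : ∃ j, i = j + 1 := ⟨i - 1, by omega⟩
    exact caseII hT ((moms_all hp2 hh.symm j fun s => (hL (j + 1) hik le_rfl s).2).2 (Or.inl hT)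
      fun s x0 => (hL (j + 1) hik le_rfl s).1 _ (le_of_eq (by ring)) x0)
  | 1 =>
    obtain ⟨j, rfl⟩ : ∃ j, i = j + 1 := ⟨i - 1, by omega⟩
    have hD : HD p R α β (j + 1) (h + (p - 1) * (j + 1)) :=
      fun s x0 => (hL (j + 1) hik le_rfl s).1 _ (le_of_eq (by rw [hp1]; ring)) x0
    exact caseI hp2 hh.symm hT hD
      ((moms_all hp2 hh.symm j fun s => (hL (j + 1) hik le_rfl s).2).1 hT hD)
      (hL (j + 1) hik le_rfl 0).2 (hL (j + 1) hik le_rfl 1).2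
  | 2 =>
    obtain ⟨x0, hx0⟩ := (hK 1 (by omega)).2
    rw [pow_one] at hx0
    exact hx0 (caseIII hT
      ((moms_all hp2 hh.symm i fun s => (hL (i + 1) (by omega) (by omega) s).2).2 (Or.inr hT)
      fun s x0 => (hL (i + 1) (by omega) (by omega) s).1 _ (le_of_eq (by ring)) x0) x0)
  | c + 3 =>
    obtain ⟨h1, x0, hx0⟩ := hK (c + 2) (by omega)
    refine hx0 (caseIV hp2 hT x0 (h1 _ ?_ x0))
    rw [hp1]
    have : 1 ≤ h := by omega
    nlinarith [Nat.zero_le (h * c)]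

theorem Tr.card {ι : Type*} {R : Finset ι} {α β : ι → ℤ} {i l : ℕ} (hT : Tr p R α β i l) :
    R.card = p ^ (i + l) := by
  have hq : ∀ i, (0 : ℤ) < (p : ℤ) ^ i := fun i => by have := hp.out.pos; positivity
  have := card_bij (s := R) (t := Ico (0 : ℤ) ((p : ℤ) ^ i) ×ˢ Ico (0 : ℤ) ((p : ℤ) ^ l))
    (fun g _ => (α g % (p : ℤ) ^ i, β g % (p : ℤ) ^ l))
    (fun g _ => by
      simp only [mem_product, mem_Ico]
      exact ⟨⟨Int.emod_nonneg _ (hq i).ne', Int.emod_lt_of_pos _ (hq i)⟩,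
        Int.emod_nonneg _ (hq l).ne', Int.emod_lt_of_pos _ (hq l)⟩)
    (fun g hg g' hg' h => by
      obtain ⟨h1, h2⟩ := Prod.mk.inj h
      exact hT.eq hg hg' (emod_iff.1 h1) (emod_iff.1 h2))
    (fun a ha => by
      obtain ⟨x, y⟩ := a
      simp only [mem_product, mem_Ico] at ha
      obtain ⟨g, ⟨h1, h2, h3⟩, -⟩ := hT x y
      refine ⟨g, h1, ?_⟩
      rw [emod_iff.2 h2, emod_iff.2 h3, Int.emod_eq_of_lt ha.1.1 ha.1.2,
        Int.emod_eq_of_lt ha.2.1 ha.2.2])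
  rw [this, card_product, Int.card_Ico, Int.card_Ico, sub_zero, sub_zero, ← Nat.cast_pow,
    ← Nat.cast_pow, Int.toNat_natCast, Int.toNat_natCast, pow_add]

section lattice

theorem sub_int (k : ℕ) (I : AddSubgroup ℤ) (h : (p : ℤ) ^ k ∈ I) :
    ∃ e ≤ k, ∀ z, z ∈ I ↔ (p : ℤ) ^ e ∣ z := by
  obtain ⟨d, rfl⟩ := Int.subgroup_cyclic I
  rw [← AddSubgroup.zmultiples_eq_closure] at h ⊢
  rw [Int.mem_zmultiples_iff, ← Int.natAbs_dvd, ← Nat.cast_pow, Int.natCast_dvd_natCast,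
    Nat.dvd_prime_pow hp.out] at h
  obtain ⟨e, he, hd⟩ := h
  refine ⟨e, he, fun z => ?_⟩
  rw [Int.mem_zmultiples_iff, ← Int.natAbs_dvd, hd, Nat.cast_pow]

theorem struct_aux (k : ℕ) (M : AddSubgroup (ℤ × ℤ)) (h2 : ((0 : ℤ), (p : ℤ) ^ k) ∈ M) (e : ℕ)
    (he : ∃ y, ((p : ℤ) ^ e, y) ∈ M)
    (he2 : ∀ x y, (x, y) ∈ M → (p : ℤ) ^ e ∣ x ∧ (p : ℤ) ^ e ∣ y) :
    ∃ (l : ℕ) (w : ℤ), e ≤ l ∧ l ≤ k ∧
      ∀ x y, (x, y) ∈ M ↔ (p : ℤ) ^ e ∣ x ∧ (p : ℤ) ^ l ∣ y - w * x := by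
  obtain ⟨y0, hy0⟩ := he
  obtain ⟨w, rfl⟩ := (he2 _ _ hy0).2
  obtain ⟨l, hl, hl2⟩ := sub_int (p := p) k (M.comap (AddMonoidHom.inr ℤ ℤ)) h2
  simp only [AddSubgroup.mem_comap, AddMonoidHom.inr_apply] at hl2
  refine ⟨l, w, ?_, hl, fun x y => ⟨fun h => ⟨(he2 _ _ h).1, ?_⟩, ?_⟩⟩
  · have h' : p ^ e ∣ p ^ l := by exact_mod_cast (he2 _ _ ((hl2 _).2 dvd_rfl)).2
    exact (Nat.pow_dvd_pow_iff_le_right hp.out.one_lt).1 h'
  · obtain ⟨c, rfl⟩ := (he2 _ _ h).1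
    rw [← hl2]
    convert M.sub_mem h (M.zsmul_mem hy0 c) using 1
    ext <;> simp <;> ring
  · rintro ⟨⟨c, rfl⟩, h⟩
    rw [← hl2] at h
    convert M.add_mem h (M.zsmul_mem hy0 c) using 1
    ext <;> simp <;> ring

theorem struct (k : ℕ) (M : AddSubgroup (ℤ × ℤ)) (h1 : ((p : ℤ) ^ k, (0 : ℤ)) ∈ M)
    (h2 : ((0 : ℤ), (p : ℤ) ^ k) ∈ M) :
    ∃ (i l : ℕ) (w : ℤ), i ≤ l ∧ l ≤ k ∧
      ((∀ x y, (x, y) ∈ M ↔ (p : ℤ) ^ i ∣ x ∧ (p : ℤ) ^ l ∣ y - w * x) ∨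
       (∀ x y, (y, x) ∈ M ↔ (p : ℤ) ^ i ∣ x ∧ (p : ℤ) ^ l ∣ y - w * x)) := by
  obtain ⟨a, -, ha⟩ := sub_int (p := p) k (M.map (AddMonoidHom.fst ℤ ℤ)) ⟨_, h1, rfl⟩
  obtain ⟨b, -, hb⟩ := sub_int (p := p) k (M.map (AddMonoidHom.snd ℤ ℤ)) ⟨_, h2, rfl⟩
  rcases le_total a b with hab | hab
  · obtain ⟨⟨x0, y0⟩, h3, h4⟩ := (ha _).2 dvd_rfl
    obtain ⟨l, w, h5, h6, h7⟩ := struct_aux (p := p) k M h2 a ⟨y0, by rw [← h4]; exact h3⟩
      (fun x y h => ⟨(ha _).1 ⟨_, h, rfl⟩, (pow_dvd_pow _ hab).trans ((hb _).1 ⟨_, h, rfl⟩)⟩)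
    exact ⟨a, l, w, h5, h6, Or.inl h7⟩
  · obtain ⟨⟨x0, y0⟩, h3, h4⟩ := (hb _).2 dvd_rfl
    obtain ⟨l, w, h5, h6, h7⟩ := struct_aux (p := p) k
      (M.comap (AddEquiv.prodComm : ℤ × ℤ ≃+ ℤ × ℤ).toAddMonoidHom) h1 b
      ⟨x0, by rw [← h4]; exact h3⟩
      (fun x y h => ⟨(hb _).1 ⟨_, h, rfl⟩, (pow_dvd_pow _ hab).trans ((ha _).1 ⟨_, h, rfl⟩)⟩)
    exact ⟨b, l, w, h5, h6, Or.inr h7⟩

end lattice

/-- Additive form of the definition. -/
structure ARDS {G : Type*} [AddCommGroup G] [DecidableEq G] (N : AddSubgroup G) (R : Finset G) :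
    Prop where
  one_lt : 1 < Nat.card N
  lt : Nat.card N < Nat.card G
  card : R.card * Nat.card N = Nat.card G
  out : ∀ g, g ∉ N → ((R ×ˢ R).filter fun q => q.1 - q.2 = g).card * Nat.card N = R.card
  inn : ∀ a ∈ R, ∀ b ∈ R, a - b ∈ N → a = b

section general

variable {G : Type*} [AddCommGroup G] [DecidableEq G] [Fintype G] {N : AddSubgroup G}
  {R : Finset G}

theorem ARDS.trans (h : ARDS N R) (g : G) : ∃! r, r ∈ R ∧ r - g ∈ N := by
  classical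
  have inj : Set.InjOn (QuotientAddGroup.mk : G → G ⧸ N) R := fun a ha b hb hab =>
    h.inn a ha b hb (QuotientAddGroup.eq_iff_sub_mem.1 hab)
  have hc : R.card = Fintype.card (G ⧸ N) := by
    have h1 := h.card
    rw [AddSubgroup.card_eq_card_quotient_mul_card_addSubgroup N] at h1
    rw [Nat.eq_of_mul_eq_mul_right (by have := h.one_lt; omega) h1, Nat.card_eq_fintype_card]
  have him : R.image (QuotientAddGroup.mk : G → G ⧸ N) = univ :=
    eq_univ_of_card _ (by rw [card_image_of_injOn inj, hc])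
  obtain ⟨r, hr, hr2⟩ := mem_image.1 (him ▸ mem_univ (QuotientAddGroup.mk g : G ⧸ N))
  refine ⟨r, ⟨hr, QuotientAddGroup.eq_iff_sub_mem.1 hr2⟩, fun r' hr' => ?_⟩
  refine h.inn _ hr'.1 _ hr ?_
  simpa using N.sub_mem hr'.2 (QuotientAddGroup.eq_iff_sub_mem.1 hr2)

theorem ARDS.le (h : ARDS N R) : Nat.card N ≤ R.card := by
  obtain ⟨g, hg⟩ : ∃ g, g ∉ N := by
    by_contra hne
    push Not at hne
    have := h.lt
    rw [(AddSubgroup.eq_top_iff' N).2 hne] at this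
    simp at this
  have h1 := h.out g hg
  have h2 : 0 < R.card := by
    obtain ⟨r, hr, -⟩ := h.trans 0
    exact card_pos.2 ⟨r, hr.1⟩
  exact Nat.le_of_dvd h2 ⟨_, by rw [← h1, mul_comm]⟩

theorem ARDS.char (h : ARDS N R) {T : Type*} [CommRing T] [IsDomain T] (χ : AddChar G T)
    {n : G} (hn : n ∈ N) (hχ : χ n ≠ 1) :
    (∑ g ∈ R, χ g) * (∑ g ∈ R, χ (-g)) = R.card := by
  classical
  have h1 : ∑ g, χ g = 0 := AddChar.sum_eq_zero_of_ne_one (AddChar.ne_one_iff.2 ⟨n, hχ⟩)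
  have h2 : ∑ g with g ∈ N, χ g = 0 := by
    refine eq_zero_of_mul_eq_self_left hχ ?_
    rw [mul_sum]
    refine sum_bij' (fun g _ => n + g) (fun g _ => g - n) ?_ ?_ ?_ ?_ ?_
    · intro g hg; simpa using N.add_mem hn (by simpa using hg)
    · intro g hg; simpa using N.sub_mem (by simpa using hg) hn
    · intro g _; simp
    · intro g _; simp
    · intro g _; rw [AddChar.map_add_eq_mul]
  have h3 : ∑ g with g ∉ N, χ g = 0 := by
    have := sum_filter_add_sum_filter_not univ (fun g => g ∈ N) χ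
    rwa [h1, h2, zero_add] at this
  have h4 : (∑ g ∈ R, χ g) * (∑ g ∈ R, χ (-g)) =
      ∑ g, (((R ×ˢ R).filter fun q => q.1 - q.2 = g).card : T) * χ g := by
    rw [sum_mul_sum, ← sum_product', ← sum_fiberwise_of_maps_to (g := fun q : G × G => q.1 - q.2)
      (t := univ) (fun _ _ => mem_univ _)]
    refine sum_congr rfl fun g _ => ?_
    rw [sum_congr rfl (g := fun _ => χ g) (fun q hq => by
      rw [← (mem_filter.1 hq).2, ← AddChar.map_add_eq_mul, sub_eq_add_neg])]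
    simp
  rw [h4, ← sum_filter_add_sum_filter_not univ (fun g => g ∈ N)]
  have h5 : ∑ g with g ∉ N, (((R ×ˢ R).filter fun q => q.1 - q.2 = g).card : T) * χ g = 0 := by
    rw [sum_congr rfl (g := fun g => ((R.card / Nat.card N : ℕ) : T) * χ g), ← mul_sum, h3,
      mul_zero]
    intro g hg
    rw [← h.out g (mem_filter.1 hg).2, Nat.mul_div_cancel _ (by have := h.one_lt; omega)]
  rw [h5, add_zero, sum_eq_single 0]
  · rw [AddChar.map_zero_eq_one, mul_one]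
    congr 1
    refine card_bij' (fun q _ => q.1) (fun g _ => (g, g)) ?_ ?_ ?_ ?_
    · intro q hq; exact (mem_product.1 (mem_filter.1 hq).1).1
    · intro g hg; simp [hg]
    · intro q hq
      have := sub_eq_zero.1 (mem_filter.1 hq).2
      ext <;> simp [this]
    · intro g _; rfl
  · intro g hg hg0
    rw [filter_eq_empty_iff.2, card_empty, Nat.cast_zero, zero_mul]
    intro q hq hqg
    obtain ⟨q1, q2⟩ := mem_product.1 hq
    apply hg0
    rw [← hqg, h.inn _ q1 _ q2 (hqg ▸ (mem_filter.1 hg).2), sub_self]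
  · intro h0; exact absurd (mem_filter.2 ⟨mem_univ _, N.zero_mem⟩) h0

theorem ARDS.false_of_coord (h : ARDS N R) (hp2 : 2 < p) {k : ℕ} (hk : 2 ≤ k)
    (φ : G ≃+ ZMod (p ^ k) × ZMod (p ^ k)) {i l : ℕ} {w : ℤ} (hil : i ≤ l) (hlk : l ≤ k)
    (hM : ∀ x y : ℤ, φ.symm ((x : ZMod (p ^ k)), (y : ZMod (p ^ k))) ∈ N ↔
      (p : ℤ) ^ i ∣ x ∧ (p : ℤ) ^ l ∣ y - w * x) : False := by
  set α : G → ℤ := fun g => (φ g).1.val with hα
  set β : G → ℤ := fun g => (φ g).2.val - w * (φ g).1.val with hβ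
  have hT : Tr p R α β i l := by
    intro x y
    refine (existsUnique_congr fun r => and_congr_right fun _ => ?_).1
      (h.trans (φ.symm ((x : ZMod (p ^ k)), ((y + w * x : ℤ) : ZMod (p ^ k)))))
    have e1 : r - φ.symm ((x : ZMod (p ^ k)), ((y + w * x : ℤ) : ZMod (p ^ k))) =
        φ.symm (((α r - x : ℤ) : ZMod (p ^ k)),
          (((φ r).2.val - (y + w * x) : ℤ) : ZMod (p ^ k))) := by
      apply φ.injective
      ext <;> simp [hα]
    rw [e1, hM, show ((φ r).2.val - (y + w * x) : ℤ) - w * (α r - x) = β r - y by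
      simp only [hα, hβ]; ring]
  have hv := hT.card
  have hG : Nat.card G = p ^ (k + k) := by
    rw [Nat.card_congr φ.toEquiv, Nat.card_prod, Nat.card_zmod, pow_add]
  have c1 := h.card
  have c2 := h.le
  have c3 := h.one_lt
  rw [hv] at c1 c2
  rw [hG] at c1
  have c4 : i + l < k + k := by
    rw [← Nat.pow_lt_pow_iff_right hp.out.one_lt, ← c1]
    exact lt_mul_of_one_lt_right (pow_pos hp.out.pos _) c3
  have c5 : k + k ≤ (i + l) + (i + l) := by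
    rw [← Nat.pow_le_pow_iff_right hp.out.one_lt, ← c1, pow_add p (i + l)]
    exact Nat.mul_le_mul_left _ c2
  refine core hp2 hil hlk (by omega) (by omega) hT fun j hj a b hab => ?_
  have hd : p ^ (j + 1) ∣ p ^ k := pow_dvd_pow _ hj
  set c : ZMod (p ^ k) →+* ZMod (p ^ (j + 1)) := ZMod.castHom hd _ with hc
  set f : G →+ ZMod (p ^ (j + 1)) := AddMonoidHom.mk'
    (fun g => a * c (φ g).1 + b * (c (φ g).2 - w * c (φ g).1)) (fun g g' => by simp; ring) with hf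
  have hf2 : ∀ g, ((a * α g + b * β g : ℤ) : ZMod (p ^ (j + 1))) = f g := fun g => by
    simp [hα, hβ, hf, hc]
  have := h.char ((ch (p ^ (j + 1))).compAddMonoidHom f)
    (n := φ.symm ((((p : ℤ) ^ i : ℤ) : ZMod (p ^ k)), ((w * (p : ℤ) ^ i : ℤ) : ZMod (p ^ k))))
    ((hM _ _).2 ⟨dvd_rfl, by simp⟩) (by
      rw [AddChar.compAddMonoidHom_apply, Ne, ch_eq_one]
      intro h0
      apply hab
      rw [← Nat.cast_pow, ← ZMod.intCast_zmod_eq_zero_iff_dvd, ← h0]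
      simp only [hf, AddMonoidHom.mk'_apply, AddEquiv.apply_symm_apply, map_intCast]
      push_cast; ring)
  simp only [AddChar.compAddMonoidHom_apply, map_neg] at this
  simp_rw [hf2]
  rw [this, hv, Nat.cast_pow]

end general

theorem no_ards (hp2 : 2 < p) {k : ℕ} (hk : 2 ≤ k) (N : AddSubgroup (ZMod (p ^ k) × ZMod (p ^ k)))
    (R : Finset (ZMod (p ^ k) × ZMod (p ^ k))) : ¬ ARDS N R := by
  intro h
  set π : ℤ × ℤ →+ ZMod (p ^ k) × ZMod (p ^ k) :=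
    (Int.castAddHom (ZMod (p ^ k))).prodMap (Int.castAddHom (ZMod (p ^ k))) with hπ
  have hz : (((p : ℤ) ^ k : ℤ) : ZMod (p ^ k)) = 0 := by
    rw [ZMod.intCast_zmod_eq_zero_iff_dvd, Nat.cast_pow]
  obtain ⟨i, l, w, hil, hlk, hM | hM⟩ := struct (p := p) k (N.comap π)
    (by rw [AddSubgroup.mem_comap]; convert N.zero_mem; ext <;> simp [hπ, ← hz])
    (by rw [AddSubgroup.mem_comap]; convert N.zero_mem; ext <;> simp [hπ, ← hz])
  · exact h.false_of_coord hp2 hk (AddEquiv.refl _) hil hlk hM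
  · exact h.false_of_coord hp2 hk AddEquiv.prodComm hil hlk hM

end Pool.Agent.Lib.MP_2d211a_co
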