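import Pool.Agent.Lib.MP_2d211a_co.Defs
import Pool.Agent.Lib.MP_2d211a_co.Core

open Finset

namespace Pool.Agent.Lib.MP_2d211a_co

theorem contains_iff (G : Type*) [AddCommGroup G] [DecidableEq G] [Fintype G] :
    ContainsSemiregularRDS (Multiplicative G) ↔ ∃ (N : AddSubgroup G) (R : Finset G), ARDS N R := by
  have key : ∀ (R : Finset G) (g : G),
      {q : Multiplicative G × Multiplicative G | q.1 ∈ (Multiplicative.toAdd ⁻¹' (R : Set G)) ∧
        q.2 ∈ (Multiplicative.toAdd ⁻¹' (R : Set G)) ∧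
        q.1 * q.2⁻¹ = Multiplicative.ofAdd g}.ncard =
      ((R ×ˢ R).filter fun q => q.1 - q.2 = g).card := by
    intro R g
    rw [← Set.ncard_coe_finset]
    refine Set.ncard_congr (fun q _ => (q.1.toAdd, q.2.toAdd)) ?_ ?_ ?_
    · rintro ⟨a, b⟩ ⟨h1, h2, h3⟩
      simp only [coe_filter, mem_product, Set.mem_ofPred_eq]
      refine ⟨⟨h1, h2⟩, ?_⟩
      have := congrArg Multiplicative.toAdd h3
      simpa [sub_eq_add_neg] using this
    · rintro ⟨a, b⟩ ⟨c, d⟩ _ _ h
      simpa using h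
    · rintro ⟨a, b⟩ h
      simp only [coe_filter, mem_product, Set.mem_ofPred_eq] at h
      refine ⟨(Multiplicative.ofAdd a, Multiplicative.ofAdd b), ⟨h.1.1, h.1.2, ?_⟩, rfl⟩
      rw [← h.2, sub_eq_add_neg]; rfl
  have key2 : ∀ R : Finset G, (Multiplicative.toAdd ⁻¹' (R : Set G)).ncard = R.card := by
    intro R
    rw [← Set.ncard_coe_finset]
    exact Set.ncard_preimage_of_injective_subset_range Multiplicative.toAdd.injective (by simp)
  have key3 : ∀ N : AddSubgroup G, Nat.card (AddSubgroup.toSubgroup N) = Nat.card N :=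
    fun N => rfl
  have key4 : Nat.card (Multiplicative G) = Nat.card G := rfl
  constructor
  · rintro ⟨N, R, -, h1, h2, h3, h4, h5⟩
    obtain ⟨N, rfl⟩ := AddSubgroup.toSubgroup.surjective N
    obtain ⟨R, rfl⟩ : ∃ R' : Finset G, R = Multiplicative.toAdd ⁻¹' (R' : Set G) :=
      ⟨(Set.toFinite (Multiplicative.ofAdd ⁻¹' R)).toFinset, by ext; simp⟩
    rw [key3] at h1 h2 h3 h4
    rw [key2] at h3 h4
    refine ⟨N, R, h1, h2, h3, fun g hg => ?_, fun a ha b hb hab => ?_⟩
    · rw [← key]; exact h4 _ hg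
    · by_contra hne
      refine h5 (Multiplicative.ofAdd (a - b)) hab ?_ (Multiplicative.ofAdd a) ha
        (Multiplicative.ofAdd b) hb (by rw [sub_eq_add_neg]; rfl)
      intro h; exact hne (sub_eq_zero.1 h)
  · rintro ⟨N, R, h⟩
    refine ⟨AddSubgroup.toSubgroup N, Multiplicative.toAdd ⁻¹' (R : Set G), inferInstance,
      h.one_lt, h.lt, by rw [key2]; exact h.card, fun g hg => ?_, fun g hg hg1 a ha b hb hab => ?_⟩
    · rw [key2, key3]
      have := key R g.toAdd
      rw [ofAdd_toAdd] at this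
      rw [this]; exact h.out _ hg
    · apply hg1
      have : a.toAdd = b.toAdd := h.inn _ ha _ hb (by
        rw [← hab] at hg
        rw [sub_eq_add_neg]; exact hg)
      rw [← hab, Multiplicative.toAdd.injective this, mul_inv_cancel]

theorem ards_parabola {F : Type*} [Field F] [DecidableEq F] [Fintype F] (h2 : (2 : F) ≠ 0) :
    ARDS (AddMonoidHom.fst F F).ker (univ.image fun x : F => (x, x ^ 2)) := by
  have inj : Function.Injective fun x : F => (x, x ^ 2) := fun a b h => (Prod.mk.inj h).1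
  have hN : Nat.card (AddMonoidHom.fst F F).ker = Fintype.card F := by
    rw [← Nat.card_eq_fintype_card]
    exact Nat.card_congr ⟨fun a => a.1.2, fun y => ⟨(0, y), rfl⟩,
      fun a => Subtype.ext (Prod.ext a.2.symm rfl), fun _ => rfl⟩
  have hR : (univ.image fun x : F => (x, x ^ 2)).card = Fintype.card F := by
    rw [card_image_of_injective _ inj, card_univ]
  have h1 : 1 < Fintype.card F := Fintype.one_lt_card
  refine ⟨by rwa [hN], ?_, ?_, fun g hg => ?_, fun a ha b hb hab => ?_⟩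
  · rw [hN, Nat.card_prod, Nat.card_eq_fintype_card]; nlinarith
  · rw [hN, hR, Nat.card_prod, Nat.card_eq_fintype_card]
  · obtain ⟨u, v⟩ := g
    have hu : u ≠ 0 := hg
    rw [hN, hR]
    have : ((univ.image fun x : F => (x, x ^ 2)) ×ˢ (univ.image fun x : F => (x, x ^ 2))).filter
        (fun q => q.1 - q.2 = (u, v)) =
        {(((v / u + u) / 2, ((v / u + u) / 2) ^ 2), ((v / u - u) / 2, ((v / u - u) / 2) ^ 2))} := by
      refine eq_singleton_iff_unique_mem.2 ⟨?_, ?_⟩
      · simp only [mem_filter, mem_product, mem_image, mem_univ, true_and, Prod.mk_sub_mk,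
          Prod.mk.injEq]
        refine ⟨⟨⟨_, rfl, rfl⟩, ⟨_, rfl, rfl⟩⟩, ?_, ?_⟩ <;> field_simp <;> ring
      · rintro ⟨a, b⟩ hq
        simp only [mem_filter, mem_product, mem_image, mem_univ, true_and] at hq
        obtain ⟨⟨⟨x, rfl⟩, ⟨y, rfl⟩⟩, h⟩ := hq
        simp only [Prod.mk_sub_mk, Prod.mk.injEq] at h
        obtain ⟨rfl, rfl⟩ := h
        have e1 : ((x ^ 2 - y ^ 2) / (x - y) + (x - y)) / 2 = x := by field_simp; ring
        have e2 : ((x ^ 2 - y ^ 2) / (x - y) - (x - y)) / 2 = y := by field_simp; ring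
        rw [e1, e2]
    rw [this, card_singleton, one_mul]
  · simp only [mem_image, mem_univ, true_and] at ha hb
    obtain ⟨x, rfl⟩ := ha
    obtain ⟨y, rfl⟩ := hb
    have : x - y = 0 := hab
    rw [sub_eq_zero.1 this]

end Pool.Agent.Lib.MP_2d211a_co
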