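import Mathlib

open Finset Polynomial

namespace Pool.Agent.Lib.MP_2d211a_co

variable {p : ℕ} [hp : Fact p.Prime]

/-- A family of `p` residues whose power sums vanish up to `(p-1)/2` is injective or constant. -/
theorem redei (u : ZMod p → ZMod p) (h : ℕ) (hh : 2 * h + 1 = p)
    (hm : ∀ i, 1 ≤ i → i ≤ h → ∑ t, u t ^ i = 0) :
    Function.Injective u ∨ ∀ t t', u t = u t' := by
  classical
  have hp2 := hp.out.two_le
  set R : (ZMod p)[X] := ∏ t, (X - C (u t)) with hR
  set Q : ZMod p → (ZMod p)[X] := fun t => ∏ t' ∈ univ.erase t, (X - C (u t')) with hQ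
  have hRQ : ∀ t, R = (X - C (u t)) * Q t := fun t =>
    (mul_prod_erase univ (fun t' => X - C (u t')) (mem_univ t)).symm
  have hD : derivative R = ∑ t, Q t := by
    rw [hR, derivative_prod_finset]; simp [hQ]
  have hRm : R.Monic := monic_prod_of_monic _ _ fun t _ => monic_X_sub_C _
  have hRd : R.natDegree = p := by
    rw [hR, natDegree_prod_of_monic _ _ fun t _ => monic_X_sub_C _]; simp
  have hQd : ∀ t, (Q t).natDegree = p - 1 := fun t => by
    simp only [hQ]
    rw [natDegree_prod_of_monic _ _ fun t _ => monic_X_sub_C _]; simp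
  have e1 : X ^ (h + 1) * derivative R = ∑ t, C (u t ^ (h + 1)) * Q t := by
    have e0 : ∀ t, X ^ (h + 1) * Q t = C (u t ^ (h + 1)) * Q t +
        R * ∑ i ∈ range (h + 1), C (u t ^ i) * X ^ (h - i) := fun t => by
      have g := geom_sum₂_mul (C (u t)) (X : (ZMod p)[X]) (h + 1)
      simp only [add_tsub_cancel_right] at g
      simp only [map_pow]
      rw [hRQ t]
      linear_combination (Q t) * g
    rw [hD, mul_sum, sum_congr rfl fun t _ => e0 t, sum_add_distrib, ← mul_sum, sum_comm]
    rw [sum_eq_zero (s := range (h + 1)), mul_zero, add_zero]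
    intro i hi
    rw [← sum_mul, ← map_sum]
    rcases Nat.eq_zero_or_pos i with rfl | hi0
    · simp
    · rw [hm i hi0 (by have := mem_range.1 hi; omega)]; simp
  have hDc : ∀ i, h ≤ i → (derivative R).coeff i = 0 := by
    intro i hi
    have h1 := congrArg (fun P => coeff P (i + (h + 1))) e1
    simp only [coeff_X_pow_mul] at h1
    rw [h1, finsetSum_coeff]
    refine sum_eq_zero fun t _ => ?_
    rw [coeff_C_mul, coeff_eq_zero_of_natDegree_lt (by rw [hQd]; omega), mul_zero]
  set g : (ZMod p)[X] := R - X ^ p with hg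
  have hgD : derivative g = derivative R := by
    rw [hg, derivative_sub, derivative_X_pow]; simp
  have hgc : ∀ i, h < i → g.coeff i = 0 := by
    intro i hi
    rcases lt_trichotomy i p with h1 | h1 | h1
    · obtain ⟨i, rfl⟩ : ∃ k, i = k + 1 := ⟨i - 1, by omega⟩
      have h2 := hDc i (by omega)
      rw [← hgD, coeff_derivative] at h2
      refine (mul_eq_zero.1 h2).resolve_right ?_
      rw [← Nat.cast_succ, ZMod.natCast_eq_zero_iff]
      exact Nat.not_dvd_of_pos_of_lt (by omega) h1
    · rw [hg, coeff_sub, coeff_X_pow, if_pos h1, h1]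
      have := hRm.coeff_natDegree
      rw [hRd] at this
      rw [this, sub_self]
    · rw [hg, coeff_sub, coeff_X_pow, if_neg h1.ne', coeff_eq_zero_of_natDegree_lt (by omega),
        sub_zero]
  have hdvd : R ∣ (g + X) * derivative R := by
    have h1 : R ∣ (X ^ p - X) * derivative R := by
      rw [hD, mul_sum]
      refine dvd_sum fun t _ => ?_
      rw [hRQ t]
      refine mul_dvd_mul_right ?_ _
      rw [dvd_iff_isRoot]; simp
    have h2 : (g + X) * derivative R = R * derivative R - (X ^ p - X) * derivative R := by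
      rw [hg]; ring
    rw [h2]; exact dvd_sub (Dvd.intro _ rfl) h1
  have hdeg : ((g + X) * derivative R).natDegree < R.natDegree := by
    have h1 : (g + X).natDegree ≤ h := by
      refine (natDegree_add_le _ _).trans (max_le ?_ ?_)
      · exact natDegree_le_iff_coeff_eq_zero.2 hgc
      · rw [natDegree_X]; omega
    have h2 : (derivative R).natDegree ≤ h - 1 :=
      natDegree_le_iff_coeff_eq_zero.2 fun i hi => hDc i (by omega)
    have := natDegree_mul_le (p := g + X) (q := derivative R)
    omega
  have h0 : (g + X) * derivative R = 0 := eq_zero_of_dvd_of_natDegree_lt hdvd hdeg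
  rcases mul_eq_zero.1 h0 with h1 | h1
  · left
    intro t t' htt
    by_contra hne
    have h2 : derivative R = -1 := by
      rw [← hgD, eq_neg_of_add_eq_zero_left h1]; simp
    have h3 : (derivative R).eval (u t) = 0 := by
      rw [hD, eval_finsetSum]
      refine sum_eq_zero fun a _ => ?_
      simp only [hQ, eval_prod]
      by_cases ha : a = t
      · exact prod_eq_zero (i := t') (mem_erase.2 ⟨by rw [ha]; exact Ne.symm hne, mem_univ _⟩)
          (by simp [htt])
      · exact prod_eq_zero (i := t) (mem_erase.2 ⟨Ne.symm ha, mem_univ _⟩) (by simp)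
    rw [h2] at h3
    simp at h3
  · right
    have h2 : g = C (g.coeff 0) := by
      refine eq_C_of_natDegree_eq_zero (Nat.le_zero.1 (natDegree_le_iff_coeff_eq_zero.2 ?_))
      intro i hi
      by_cases hi2 : h < i
      · exact hgc i hi2
      · obtain ⟨i, rfl⟩ : ∃ k, i = k + 1 := ⟨i - 1, by omega⟩
        have h2 : (derivative g).coeff i = 0 := by rw [hgD, h1, coeff_zero]
        rw [coeff_derivative] at h2
        refine (mul_eq_zero.1 h2).resolve_right ?_
        rw [← Nat.cast_succ, ZMod.natCast_eq_zero_iff]
        exact Nat.not_dvd_of_pos_of_lt (by omega) (by omega)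
    have h3 : ∀ t, u t = -g.coeff 0 := fun t => by
      have h4 : g.eval (u t) = g.coeff 0 := by rw [h2]; simp
      rw [hg, eval_sub, hRQ t] at h4
      simp only [eval_mul, eval_sub, eval_X, eval_C, sub_self, zero_mul, eval_pow,
        ZMod.pow_card, zero_sub] at h4
      rw [← hRQ t, ← hg] at h4
      rw [← h4, neg_neg]
    intro t t'
    rw [h3 t, h3 t']

end Pool.Agent.Lib.MP_2d211a_co
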