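import Pool.Agent.Lib.MP_2d211a_co.Moments
import Pool.Agent.Lib.MP_2d211a_co.Redei

open Finset

namespace Pool.Agent.Lib.MP_2d211a_co

variable (p : ℕ) [hp : Fact p.Prime] {ι : Type*} (R : Finset ι) (α β : ι → ℤ)

/-- The points form a transversal of `p^i ℤ × p^l ℤ`. -/
def Tr (i l : ℕ) : Prop :=
  ∀ x y : ℤ, ∃! g, g ∈ R ∧ (p : ℤ) ^ i ∣ α g - x ∧ (p : ℤ) ^ l ∣ β g - y

variable {p R α β}

omit hp in
theorem Tr.eq {i l : ℕ} (h : Tr p R α β i l) {g g' : ι} (hg : g ∈ R) (hg' : g' ∈ R)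
    (h1 : (p : ℤ) ^ i ∣ α g - α g') (h2 : (p : ℤ) ^ l ∣ β g - β g') : g = g' :=
  (h (α g') (β g')).unique ⟨hg, h1, h2⟩ ⟨hg', by simp, by simp⟩

theorem emod_iff {a b n : ℤ} : a % n = b % n ↔ n ∣ a - b := by
  rw [← Int.modEq_iff_dvd, Int.ModEq, eq_comm]

theorem dg_inj {j : ℕ} {a b : ℤ} (ha : (p : ℤ) ^ j ∣ a) (hb : (p : ℤ) ^ j ∣ b)
    (h : dg p j a = dg p j b) : (p : ℤ) ^ (j + 1) ∣ a - b := by
  obtain ⟨a, rfl⟩ := ha
  obtain ⟨b, rfl⟩ := hb
  rw [dg_mul, dg_mul, eq_comm, ZMod.intCast_eq_intCast_iff_dvd_sub] at h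
  rw [← mul_sub, pow_succ]
  exact mul_dvd_mul_left _ h

theorem kap_of_dvd {j : ℕ} {a : ℤ} (ha : (p : ℤ) ^ j ∣ a) : kap p j a = ch p (dg p j a) := by
  rw [kap, if_pos ha, dg]

theorem sum_kap (j : ℕ) (u : ι → ℤ) : ∑ g ∈ R, kap p j (u g) =
    ∑ g ∈ R.filter (fun g => (p : ℤ) ^ j ∣ u g), ch p (dg p j (u g)) := by
  rw [sum_filter]; rfl

theorem Lam_split (j : ℕ) (s x0 : ℤ) : Lam p R α β j s x0 = ∑ y ∈ range (p ^ j),
    ∑ g ∈ seg p R α β j (x0 + s * y) y,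
      ch p (dg p j (α g - (x0 + s * y)) - s * dg p j (β g - y)) := by
  have hq : (0 : ℤ) < (p : ℤ) ^ j := by have := hp.out.pos; positivity
  rw [Lam, sum_kap, ← sum_fiberwise_of_maps_to (g := fun g => (β g % (p : ℤ) ^ j).toNat)
    (t := range (p ^ j))]
  · refine sum_congr rfl fun y hy => ?_
    have hy' : (y : ℤ) < (p : ℤ) ^ j := by exact_mod_cast mem_range.1 hy
    have e1 : ∀ g, (β g % (p : ℤ) ^ j).toNat = y ↔ (p : ℤ) ^ j ∣ β g - y := fun g => by
      rw [← emod_iff, Int.emod_eq_of_lt (Int.natCast_nonneg y) hy']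
      have := Int.emod_nonneg (β g) hq.ne'
      omega
    have e2 : ∀ g, α g - s * β g - x0 = (α g - (x0 + s * y)) - s * (β g - y) := fun g => by ring
    rw [filter_filter, seg]
    refine sum_congr (filter_congr fun g _ => ?_) fun g hg => ?_
    · rw [e1, e2]
      constructor
      · rintro ⟨h1, h2⟩
        exact ⟨by simpa using dvd_add h1 (h2.mul_left s), h2⟩
      · rintro ⟨h1, h2⟩
        exact ⟨dvd_sub h1 (h2.mul_left s), h2⟩
    · obtain ⟨h1, h2⟩ := (mem_filter.1 hg).2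
      rw [e2, dg_line p s h1 h2]
  · intro g _
    rw [mem_range, Int.toNat_lt (Int.emod_nonneg _ hq.ne')]
    exact_mod_cast Int.emod_lt_of_pos _ hq

theorem seg_param {j : ℕ} (hT : Tr p R α β j (j + 1)) (x y : ℤ) :
    ∃ G : ZMod p → ι, (∀ t, G t ∈ seg p R α β j x y ∧ dg p j (β (G t) - y) = t) ∧
      ∀ g ∈ seg p R α β j x y, G (dg p j (β g - y)) = g := by
  choose G hG hG' using fun t : ZMod p => hT x (y + (p : ℤ) ^ j * t.val)
  have h1 : ∀ t, G t ∈ seg p R α β j x y ∧ dg p j (β (G t) - y) = t := fun t => by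
    obtain ⟨h1, h2, c, h3⟩ := hG t
    have e : β (G t) - y = (p : ℤ) ^ j * (t.val + p * c) := by linear_combination h3
    refine ⟨mem_filter.2 ⟨h1, h2, e ▸ Dvd.intro _ rfl⟩, ?_⟩
    rw [e, dg_mul]; simp
  refine ⟨G, h1, fun g hg => ?_⟩
  obtain ⟨h2, h3⟩ := h1 (dg p j (β g - y))
  obtain ⟨a1, a2, a3⟩ := mem_filter.1 h2
  obtain ⟨b1, b2, b3⟩ := mem_filter.1 hg
  exact hT.eq a1 b1 (by simpa using dvd_sub a2 b2) (by simpa using dg_inj a3 b3 h3)

theorem seg_sum {A : Type*} [AddCommMonoid A] {j : ℕ} {x y : ℤ} {G : ZMod p → ι}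
    (h1 : ∀ t, G t ∈ seg p R α β j x y ∧ dg p j (β (G t) - y) = t)
    (h2 : ∀ g ∈ seg p R α β j x y, G (dg p j (β g - y)) = g) (f : ι → A) :
    ∑ g ∈ seg p R α β j x y, f g = ∑ t, f (G t) :=
  sum_bij' (fun g _ => dg p j (β g - y)) (fun t _ => G t) (fun _ _ => mem_univ _)
    (fun t _ => (h1 t).1) (fun g hg => h2 g hg) (fun t _ => (h1 t).2)
    (fun g hg => by rw [h2 g hg])

theorem HT_full (h5 : 5 ≤ p) {j h : ℕ} (hh : 2 * h + 1 = p) (hT : Tr p R α β j (j + 1)) :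
    HT p R α β j h := by
  intro x y n hn
  right
  obtain ⟨G, g1, g2⟩ := seg_param hT x y
  rw [seg_sum g1 g2]
  simp_rw [fun t => (g1 t).2]
  exact FiniteField.sum_pow_lt_card_sub_one (ZMod p) n (by rw [ZMod.card]; omega)

theorem caseI (hp2 : 2 < p) {j h : ℕ} (hh : 2 * h + 1 = p) (hT : Tr p R α β (j + 1) (j + 2))
    (hD : HD p R α β (j + 1) (h + (p - 1) * (j + 1)))
    (hM : ∀ e ≤ h, ∀ s x y, mom p R α β (j + 1) e s x y = 0)
    (h0 : ∃ x0, Lam p R α β (j + 1) 0 x0 ≠ 0) (h1 : ∃ x0, Lam p R α β (j + 1) 1 x0 ≠ 0) :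
    False := by
  classical
  have hq : (0 : ℤ) < (p : ℤ) ^ (j + 1) := by have := hp.out.pos; positivity
  set C : ℤ → ℤ → ℤ → Prop := fun s x y => ∀ g ∈ seg p R α β (j + 1) x y,
    ∀ g' ∈ seg p R α β (j + 1) x y, dg p (j + 1) (α g - x) - s * dg p (j + 1) (β g - y) =
      dg p (j + 1) (α g' - x) - s * dg p (j + 1) (β g' - y) with hC
  have dich : ∀ s x y : ℤ, ∃ U : ZMod p, ∑ g ∈ seg p R α β (j + 1) x y,
      ch p (dg p (j + 1) (α g - x) - s * dg p (j + 1) (β g - y)) =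
        if C s x y then (p : Cy p) * ch p U else 0 := by
    intro s x y
    obtain ⟨G, g1, g2⟩ := seg_param hT x y
    set u : ZMod p → ZMod p := fun t =>
      dg p (j + 1) (α (G t) - x) - s * dg p (j + 1) (β (G t) - y) with hu
    refine ⟨u 0, ?_⟩
    rw [seg_sum g1 g2]
    change ∑ t, ch p (u t) = _
    split_ifs with hc
    · rw [sum_congr rfl (g := fun _ => ch p (u 0))
        (fun t _ => congrArg _ (hc _ (g1 t).1 _ (g1 0).1))]
      simp
    · rcases redei u h hh (fun i _ hi => by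
        have := hM i hi s x y
        rwa [mom, seg_sum g1 g2] at this) with hinj | hconst
      · rw [← sum_ch]
        exact Fintype.sum_bijective u (Finite.injective_iff_bijective.1 hinj) _ _ (fun _ => rfl)
      · exfalso
        apply hc
        intro g hg g' hg'
        have := hconst (dg p (j + 1) (β g - y)) (dg p (j + 1) (β g' - y))
        simp only [hu] at this
        rwa [g2 g hg, g2 g' hg'] at this
  have full : ∀ s x0 : ℤ, Lam p R α β (j + 1) s x0 ≠ 0 →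
      ∀ y ∈ range (p ^ (j + 1)), C s (x0 + s * y) y := by
    intro s x0 hne
    by_contra hall
    apply hne
    choose U hU using fun y : ℕ => dich s (x0 + s * y) y
    have e1 : Lam p R α β (j + 1) s x0 =
        p * ∑ y ∈ (range (p ^ (j + 1))).filter (fun y : ℕ => C s (x0 + s * y) y), ch p (U y) := by
      rw [Lam_split, sum_filter, mul_sum]
      refine sum_congr rfl fun y _ => ?_
      rw [hU]; split_ifs <;> simp
    have e2 := hD s x0
    rw [e1] at e2 ⊢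
    rw [lemmaZ _ _ j (by omega), mul_zero]
    · calc _ < (range (p ^ (j + 1))).card := card_lt_card (filter_ssubset.2 (by
            push Not at hall; exact hall))
        _ = _ := card_range _
    · have h2 : (p : Cy p) * (1 - rt p) ^ ((p - 1) * j + 1) ∣
          (1 - rt p) ^ (h + (p - 1) * (j + 1)) := by
        refine Dvd.dvd.trans ?_ (pow_dvd_pow _
          (show (p - 1) + ((p - 1) * j + 1) ≤ h + (p - 1) * (j + 1) by rw [mul_add_one]; omega))
        rw [pow_add _ (p - 1)]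
        exact mul_dvd_mul_right (assoc_p1 p).symm.dvd _
      exact (mul_dvd_mul_iff_left (Nat.cast_ne_zero.2 hp.out.ne_zero)).1 (h2.trans e2)
  obtain ⟨x0, h0⟩ := h0
  obtain ⟨x1, h1⟩ := h1
  obtain ⟨y, hy⟩ := Int.eq_ofNat_of_zero_le (Int.emod_nonneg (x0 - x1) hq.ne')
  have hyr : y ∈ range (p ^ (j + 1)) := by
    rw [mem_range]
    have := Int.emod_lt_of_pos (x0 - x1) hq
    rw [hy] at this
    exact_mod_cast this
  have c0 := full 0 x0 h0 y hyr
  have c1 := full 1 x1 h1 y hyr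
  simp only [zero_mul, add_zero, one_mul] at c0 c1
  obtain ⟨c, hc⟩ : ∃ c, x0 = x1 + y + (p : ℤ) ^ (j + 1) * c :=
    ⟨(x0 - x1) / (p : ℤ) ^ (j + 1), by
      have := Int.emod_add_mul_ediv (x0 - x1) ((p : ℤ) ^ (j + 1)); linarith⟩
  have e1 : ∀ g, α g - (x1 + y) = α g - x0 + (p : ℤ) ^ (j + 1) * c := fun g => by linarith
  have e2 : seg p R α β (j + 1) (x1 + y) y = seg p R α β (j + 1) x0 y := by
    refine filter_congr fun g _ => ?_
    rw [e1, dvd_add_left (Dvd.intro _ rfl)]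
  obtain ⟨G, g1, -⟩ := seg_param hT x0 y
  have d0 := c0 _ (g1 0).1 _ (g1 1).1
  have d1 := c1 _ (e2 ▸ (g1 0).1) _ (e2 ▸ (g1 1).1)
  rw [e1, e1, dg_add, dg_add, (g1 0).2, (g1 1).2] at d1
  simp only [Int.cast_zero, zero_mul, sub_zero] at d0
  rw [d0, Int.cast_one] at d1
  exact one_ne_zero (α := ZMod p) (by linear_combination d1)

theorem HT_zero (h5 : 5 ≤ p) (j : ℕ) : HT p R α β j 0 := fun _ _ n hn => Or.inl (by omega)

theorem seg_card {j : ℕ} (hM : ∀ s x y, mom p R α β j 0 s x y = 0) (x y : ℤ) :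
    p ∣ (seg p R α β j x y).card := by
  rw [← ZMod.natCast_eq_zero_iff]
  simpa [mom] using hM 0 x y

theorem caseII {j : ℕ} (hT : Tr p R α β j j) (hM : ∀ s x y, mom p R α β j 0 s x y = 0) :
    False := by
  have h1 := seg_card hM 0 0
  obtain ⟨g, hg, hg'⟩ := hT 0 0
  have : seg p R α β j 0 0 = {g} :=
    eq_singleton_iff_unique_mem.2 ⟨mem_filter.2 hg, fun g' h => hg' g' (mem_filter.1 h)⟩
  rw [this, card_singleton, Nat.dvd_one] at h1
  exact hp.out.one_lt.ne' h1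

theorem caseIII {j : ℕ} (hT : Tr p R α β j (j + 2))
    (hM : ∀ s x y, mom p R α β (j + 1) 0 s x y = 0) (x0 : ℤ) :
    ∑ g ∈ R, kap p (j + 1) (p * α g + β g - x0) = 0 := by
  classical
  rw [← sum_fiberwise_of_maps_to
    (g := fun g => (α g % (p : ℤ) ^ (j + 1), β g % (p : ℤ) ^ (j + 1))) (t := R.image _)
    (fun g hg => mem_image_of_mem _ hg)]
  refine sum_eq_zero fun a ha => ?_
  obtain ⟨g0, hg0, rfl⟩ := mem_image.1 ha
  have e1 : R.filter (fun g => (α g % (p : ℤ) ^ (j + 1), β g % (p : ℤ) ^ (j + 1)) =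
      (α g0 % (p : ℤ) ^ (j + 1), β g0 % (p : ℤ) ^ (j + 1))) =
      seg p R α β (j + 1) (α g0) (β g0) := by
    refine filter_congr fun g _ => ?_
    rw [Prod.mk.injEq, emod_iff, emod_iff]
  rw [e1]
  have inj : Set.InjOn (fun g => dg p (j + 1) (β g - β g0)) (seg p R α β (j + 1) (α g0) (β g0)) := by
    intro g hg g' hg' h
    obtain ⟨a1, a2, a3⟩ := mem_filter.1 hg
    obtain ⟨b1, b2, b3⟩ := mem_filter.1 hg'
    refine hT.eq a1 b1 ((pow_dvd_pow _ (Nat.le_succ j)).trans ?_) (by simpa using dg_inj a3 b3 h)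
    simpa using dvd_sub a2 b2
  have hc : (seg p R α β (j + 1) (α g0) (β g0)).card = p := by
    refine le_antisymm ?_ (Nat.le_of_dvd (card_pos.2 ⟨g0, mem_filter.2 ⟨hg0, by simp, by simp⟩⟩)
      (seg_card hM _ _))
    rw [← card_image_of_injOn inj]
    exact (card_le_univ _).trans (ZMod.card p).le
  have him : (seg p R α β (j + 1) (α g0) (β g0)).image (fun g => dg p (j + 1) (β g - β g0)) =
      univ := eq_univ_of_card _ (by rw [card_image_of_injOn inj, hc, ZMod.card])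
  have e2 : ∀ g ∈ seg p R α β (j + 1) (α g0) (β g0), kap p (j + 1) (p * α g + β g - x0) =
      kap p (j + 1) (p * α g0 + β g0 - x0) * ch p (dg p (j + 1) (β g - β g0)) := by
    intro g hg
    obtain ⟨-, ⟨a, ha⟩, ⟨b, hb⟩⟩ := mem_filter.1 hg
    rw [show p * α g + β g - x0 = p * α g0 + β g0 - x0 + (p : ℤ) ^ (j + 1) * (p * a + b) by
      linear_combination p * ha + hb, kap_add, hb, dg_mul]
    simp
  rw [sum_congr rfl e2, ← mul_sum, ← sum_image (f := fun t => ch p t) inj, him, sum_ch, mul_zero]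

theorem caseIV (hp2 : 2 < p) {i c : ℕ} (hT : Tr p R α β i (i + c + 1)) (x0 : ℤ)
    (hD : (1 - rt p) ^ ((p - 1) * (i + 1) + 1) ∣
      ∑ g ∈ R, kap p (i + c) ((p : ℤ) ^ c * α g + β g - x0)) :
    ∑ g ∈ R, kap p (i + c) ((p : ℤ) ^ c * α g + β g - x0) = 0 := by
  classical
  have hq : (0 : ℤ) < (p : ℤ) ^ i := by have := hp.out.pos; positivity
  rw [sum_kap] at hD ⊢
  refine lemmaZ _ _ (i + 1) hp2 ?_ hD
  have key : ∀ g, (p : ℤ) ^ (i + c) ∣ (p : ℤ) ^ c * α g + β g - x0 →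
      (p : ℤ) ^ (i + c) ∣ β g - (x0 - (p : ℤ) ^ c * (α g % (p : ℤ) ^ i)) := by
    rintro g ⟨a, ha⟩
    have := Int.emod_add_mul_ediv (α g) ((p : ℤ) ^ i)
    exact ⟨a - α g / (p : ℤ) ^ i, by linear_combination ha + (p : ℤ) ^ c * this⟩
  have hle := card_le_card_of_injOn
    (s := R.filter fun g => (p : ℤ) ^ (i + c) ∣ (p : ℤ) ^ c * α g + β g - x0)
    (t := (Ico (0 : ℤ) ((p : ℤ) ^ i)) ×ˢ (univ : Finset (ZMod p)))
    (fun g => (α g % (p : ℤ) ^ i, dg p (i + c) (β g - (x0 - (p : ℤ) ^ c * (α g % (p : ℤ) ^ i)))))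
    (fun g _ => by
      simp only [coe_product, Set.mem_prod, mem_coe, mem_Ico, mem_univ, and_true]
      exact ⟨Int.emod_nonneg _ hq.ne', Int.emod_lt_of_pos _ hq⟩)
    (fun g hg g' hg' h => by
      obtain ⟨a1, a2⟩ := mem_filter.1 hg
      obtain ⟨b1, b2⟩ := mem_filter.1 hg'
      obtain ⟨h1, h2⟩ := Prod.mk.inj h
      have k1 := key g a2
      have k2 := key g' b2
      rw [h1] at k1 h2
      exact hT.eq a1 b1 (emod_iff.1 h1) (by simpa using dg_inj k1 k2 h2))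
  refine hle.trans_lt ?_
  rw [card_product, Int.card_Ico, card_univ, ZMod.card, sub_zero, ← Nat.cast_pow, Int.toNat_natCast,
    ← pow_succ]
  exact Nat.pow_lt_pow_right hp.out.one_lt (by omega)

end Pool.Agent.Lib.MP_2d211a_co
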