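import Pool.Agent.Lib.MP_2d211a_co.PGrp
import Pool.Agent.Lib.MP_2d211a_co.Core

open Finset

namespace Pool.Agent.Lib.MP_2d211a_co

universe u

variable {p : ℕ} [hp : Fact p.Prime]

/-- `R` is a transversal of the line `φ`. -/
def Tv {G : Type*} [AddCommGroup G] (φ : ZMod p →+ G) (R : Finset G) : Prop :=
  ∀ x, ∃! r, r ∈ R ∧ r - x ∈ φ.range

/-- Character form of the definition, forbidden subgroup of order `p`. -/
structure FR {G : Type*} [AddCommGroup G] (φ : ZMod p →+ G) (R : Finset G) : Prop where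
  tr : Tv φ R
  chr : ∀ χ : AddChar G ℂ, χ (φ 1) ≠ 1 → (∑ r ∈ R, χ r) * (∑ r ∈ R, χ (-r)) = R.card

section basic

variable {G : Type*} [AddCommGroup G]

theorem exists_line (u : G) (hu : p • u = 0) : ∃ φ : ZMod p →+ G, φ 1 = u :=
  ⟨ZMod.lift p ⟨zmultiplesHom G u, by simpa using hu⟩, by
    have := ZMod.lift_coe p ⟨zmultiplesHom G u, by simpa using hu⟩ 1
    simpa using this⟩

theorem line_apply (φ : ZMod p →+ G) (a : ZMod p) : φ a = a.val • φ 1 := by
  rw [← map_nsmul]; simp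

theorem line_inj (φ : ZMod p →+ G) (h : φ 1 ≠ 0) : Function.Injective φ := by
  rw [injective_iff_map_eq_zero]
  intro a ha
  by_contra h0
  apply h
  have := line_apply (φ.comp (AddMonoidHom.mulLeft a)) a⁻¹
  simpa [h0, ha] using this

theorem char_line {A : Type*} [CommMonoid A] (ψ : AddChar (ZMod p) A) (h : ψ 1 = 1) (a : ZMod p) :
    ψ a = 1 := by
  rw [← ZMod.natCast_zmod_val a, ← nsmul_one, AddChar.map_nsmul_eq_pow, h, one_pow]

theorem sum_line (φ : ZMod p →+ G) (χ : AddChar G ℂ) :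
    ∑ a, χ (φ a) = if χ (φ 1) = 1 then (p : ℂ) else 0 := by
  split_ifs with h
  · have : ∀ a, χ (φ a) = 1 := char_line (χ.compAddMonoidHom φ) h
    simp [this]
  · exact AddChar.sum_eq_zero_of_ne_one (ψ := χ.compAddMonoidHom φ) (AddChar.ne_one_iff.2 ⟨1, h⟩)

variable [Fintype G]

theorem Tv.sum {φ : ZMod p →+ G} {R : Finset G} (h : Tv φ R) (hφ : φ 1 ≠ 0) {A : Type*}
    [AddCommMonoid A] (F : G → A) : ∑ x, F x = ∑ r ∈ R, ∑ a, F (r + φ a) := by
  rw [← sum_product']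
  symm
  refine sum_bij (fun q _ => q.1 + φ q.2) (fun _ _ => mem_univ _) ?_ ?_ (fun _ _ => rfl)
  · rintro ⟨r, a⟩ h1 ⟨r', a'⟩ h2 h3
    simp only at h3
    have e : r = r' := (h (r + φ a)).unique ⟨(mem_product.1 h1).1, -a, by simp⟩
      ⟨(mem_product.1 h2).1, -a', by simp [h3]⟩
    subst e
    rw [line_inj φ hφ (add_left_cancel h3)]
  · intro x _
    obtain ⟨r, ⟨h1, a, h2⟩, -⟩ := h x
    exact ⟨(r, -a), mem_product.2 ⟨h1, mem_univ _⟩, by simp [h2]⟩

theorem Tv.card {φ : ZMod p →+ G} {R : Finset G} (h : Tv φ R) (hφ : φ 1 ≠ 0) :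
    R.card * p = Nat.card G := by
  have := h.sum hφ (fun _ => (1 : ℕ))
  simpa using this.symm

theorem FR.ards [DecidableEq G] {φ : ZMod p →+ G} {R : Finset G} (h : FR φ R) (hφ : φ 1 ≠ 0)
    (hG : p < Nat.card G) : ARDS φ.range R := by
  have hN : Nat.card φ.range = p := by
    rw [← Nat.card_congr (φ.ofInjective (line_inj φ hφ)).toEquiv, Nat.card_zmod]
  refine ⟨by rw [hN]; exact hp.out.one_lt, by rwa [hN], by rw [hN]; exact h.tr.card hφ,
    fun g hg => ?_,
    fun a ha b hb hab => (h.tr b).unique ⟨ha, hab⟩ ⟨hb, by simp⟩⟩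
  rw [hN]
  have hv : (R.card : ℂ) * p = Fintype.card G := by
    rw [← Nat.card_eq_fintype_card, ← h.tr.card hφ]; simp
  have e1 : ∀ χ : AddChar G ℂ, (p : ℂ) * ((∑ r ∈ R, χ r) * (∑ r ∈ R, χ (-r))) =
      R.card * (p - ∑ a, χ (φ a) + ∑ x, χ x) := by
    intro χ
    have e2 : ∑ x, χ x = (∑ r ∈ R, χ r) * ∑ a, χ (φ a) := by
      rw [h.tr.sum hφ, sum_mul_sum]; simp_rw [AddChar.map_add_eq_mul]
    rw [sum_line] at e2 ⊢
    split_ifs at e2 ⊢ with h1
    · by_cases h0 : χ = 0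
      · subst h0; simp [← hv]; ring
      · rw [AddChar.sum_eq_zero_iff_ne_zero.2 h0] at e2 ⊢
        rw [← mul_assoc, mul_comm (p : ℂ), ← e2]; simp
    · rw [h.chr χ h1, e2]; ring
  have e3 : ∑ χ : AddChar G ℂ, (∑ r ∈ R, χ r) * (∑ r ∈ R, χ (-r)) * χ (-g) =
      ((R ×ˢ R).filter fun q => q.1 - q.2 = g).card * (Fintype.card G : ℂ) := by
    simp_rw [sum_mul_sum, ← sum_product', sum_mul, ← AddChar.map_add_eq_mul]
    rw [sum_comm]
    simp_rw [AddChar.sum_apply_eq_ite]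
    rw [← sum_filter, sum_const, nsmul_eq_mul]
    congr 3
    refine filter_congr fun q _ => ?_
    rw [← sub_eq_add_neg, ← sub_eq_add_neg, sub_eq_zero]
  have e4 : ∑ χ : AddChar G ℂ, (p - ∑ a, χ (φ a) + ∑ x, χ x) * χ (-g) = Fintype.card G := by
    simp_rw [add_mul, sub_mul, sum_mul, ← AddChar.map_add_eq_mul]
    rw [sum_add_distrib, sum_sub_distrib, ← mul_sum, sum_comm, sum_comm (s := univ) (t := univ)
      (f := fun (χ : AddChar G ℂ) x => χ (x + -g))]
    simp_rw [AddChar.sum_apply_eq_ite]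
    rw [if_neg (fun h0 => hg (by rw [neg_eq_zero.1 h0]; exact zero_mem _)), sum_eq_zero
      (fun a _ => if_neg fun h0 => hg ⟨a, add_neg_eq_zero.1 h0⟩)]
    simp [add_neg_eq_zero]
  have e5 : (p : ℂ) * (((R ×ˢ R).filter fun q => q.1 - q.2 = g).card * (Fintype.card G : ℂ)) =
      R.card * Fintype.card G := by
    rw [← e3, ← e4, mul_sum, mul_sum]
    refine sum_congr rfl fun χ _ => ?_
    rw [← mul_assoc, e1, mul_assoc]
  have hne : (Fintype.card G : ℂ) ≠ 0 := Nat.cast_ne_zero.2 Fintype.card_ne_zero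
  rw [← mul_assoc, mul_left_inj' hne, mul_comm] at e5
  exact_mod_cast e5

theorem pull {G' : Type*} [AddCommGroup G'] (ρ : G →+ G') (hρ : Function.Surjective ρ)
    (η φ : ZMod p →+ G) (hη : η 1 ≠ 0) (hk : ρ.ker = η.range) (hφ : ρ (φ 1) ≠ 0) (R : Finset G')
    (h : FR (ρ.comp φ) R) : ∃ S : Finset G, Tv φ S ∧
      (∀ χ : AddChar G ℂ, χ (η 1) ≠ 1 → ∑ s ∈ S, χ s = 0) ∧
      (∀ χ : AddChar G ℂ, χ (η 1) = 1 → χ (φ 1) ≠ 1 →
        (∑ s ∈ S, χ s) * (∑ s ∈ S, χ (-s)) = p * S.card) := by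
  classical
  have hη0 : ∀ a, ρ (η a) = 0 := fun a => by
    have : η a ∈ ρ.ker := hk ▸ ⟨a, rfl⟩
    exact this
  set σ := Function.surjInv hρ
  have hσ : ∀ y, ρ (σ y) = y := Function.surjInv_eq hρ
  have hs : ∀ {A : Type} [AddCommMonoid A] (F : G → A),
      ∑ s ∈ univ.filter (fun s => ρ s ∈ R), F s = ∑ r ∈ R, ∑ a, F (σ r + η a) := by
    intro A _ F
    rw [← sum_product']
    symm
    refine sum_bij (fun q _ => σ q.1 + η q.2) ?_ ?_ ?_ (fun _ _ => rfl)
    · intro q hq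
      simpa [hσ, hη0] using (mem_product.1 hq).1
    · rintro ⟨r, a⟩ _ ⟨r', a'⟩ _ h3
      simp only at h3
      have e : r = r' := by simpa [hσ, hη0] using congrArg ρ h3
      subst e
      rw [line_inj η hη (add_left_cancel h3)]
    · intro x hx
      obtain ⟨a, ha⟩ : x - σ (ρ x) ∈ η.range := by
        rw [← hk, AddMonoidHom.mem_ker, map_sub, hσ, sub_self]
      exact ⟨(ρ x, a), mem_product.2 ⟨(mem_filter.1 hx).2, mem_univ _⟩, by simp [ha]⟩
  refine ⟨univ.filter (fun s => ρ s ∈ R), fun x => ?_, fun χ hχ => ?_, fun χ h1 h2 => ?_⟩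
  · obtain ⟨r, ⟨h1, a, h2⟩, h3⟩ := h.tr (ρ x)
    refine ⟨x + φ a, ⟨?_, a, by simp⟩, ?_⟩
    · rw [AddMonoidHom.comp_apply, eq_sub_iff_add_eq'] at h2
      simp [h2, h1]
    · rintro s ⟨h4, b, h5⟩
      have e1 := h3 (ρ s) ⟨(mem_filter.1 h4).2, b, by simp [h5]⟩
      have e2 : (ρ.comp φ) b = (ρ.comp φ) a := by rw [h2, ← e1]; simp [h5]
      rw [← line_inj (ρ.comp φ) hφ e2, h5]; simp
  · rw [hs]
    refine sum_eq_zero fun r _ => ?_
    simp_rw [AddChar.map_add_eq_mul]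
    rw [← mul_sum, sum_line, if_neg hχ, mul_zero]
  · have hη1 : ∀ a, χ (η a) = 1 := char_line (χ.compAddMonoidHom η) h1
    have hfac : ∀ x, χ (σ (ρ x)) = χ x := fun x => by
      obtain ⟨a, ha⟩ : σ (ρ x) - x ∈ η.range := by
        rw [← hk, AddMonoidHom.mem_ker, map_sub, hσ, sub_self]
      rw [eq_sub_iff_add_eq] at ha
      rw [← ha, AddChar.map_add_eq_mul, hη1, one_mul]
    let χ' : AddChar G' ℂ := ⟨fun y => χ (σ y), by
      have := hfac 0
      rwa [map_zero, AddChar.map_zero_eq_one] at this, fun a b => by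
      have := hfac (σ a + σ b)
      rwa [map_add, hσ, hσ, AddChar.map_add_eq_mul] at this⟩
    have e1 := h.chr χ' (by change χ (σ (ρ (φ 1))) ≠ 1; rwa [hfac])
    have e2 : ∀ r, χ' (-r) = χ (-σ r) := fun r => by
      have := hfac (-σ r)
      rwa [map_neg, hσ] at this
    have e3 : ∀ r, χ' r = χ (σ r) := fun _ => rfl
    simp_rw [e2, e3] at e1
    rw [hs, hs, card_eq_sum_ones, hs]
    simp_rw [neg_add, ← map_neg, AddChar.map_add_eq_mul, hη1]
    simp only [mul_one, sum_const, card_univ, ZMod.card, nsmul_eq_mul, ← mul_sum, smul_eq_mul]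
    push_cast
    linear_combination (p : ℂ) ^ 2 * e1

theorem glue (c : G →+ ZMod p) (z : G) (hz : c z = 1) (φ : ZMod p →+ c.ker)
    (S : ZMod p → Finset c.ker) (hS : ∀ i, Tv φ (S i)) : ∃ R : Finset G,
      Tv (c.ker.subtype.comp φ) R ∧ ∀ {A : Type} [AddCommMonoid A] (F : G → A),
        ∑ r ∈ R, F r = ∑ i : ZMod p, ∑ s ∈ S i, F (i.val • z + s) := by
  classical
  let e : G ≃ ZMod p × c.ker :=
    ⟨fun x => (c x, ⟨x - (c x).val • z, by simp [AddMonoidHom.mem_ker, hz]⟩),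
      fun q => q.1.val • z + q.2, fun x => by simp, fun q => by
        have : c q.2 = 0 := q.2.2
        ext <;> simp [hz, this]⟩
  have he : ∀ i (s : c.ker), e (i.val • z + s) = (i, s) := fun i s => e.apply_symm_apply (i, s)
  refine ⟨univ.filter fun x => (e x).2 ∈ S (e x).1, fun x => ?_, fun F => ?_⟩
  · obtain ⟨⟨i, k⟩, rfl⟩ := e.symm.surjective x
    obtain ⟨s, ⟨h1, a, h2⟩, h3⟩ := hS i k
    refine ⟨i.val • z + s, ⟨by simp [he, h1], a, ?_⟩, ?_⟩
    · change ((φ a : c.ker) : G) = i.val • z + s - (i.val • z + k)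
      rw [h2]; simp
    · rintro y ⟨h4, b, h5⟩
      change ((φ b : c.ker) : G) = y - (i.val • z + k) at h5
      have h6 : y = i.val • z + ((k + φ b : c.ker) : G) := by
        rw [AddSubgroup.coe_add, h5]; abel
      rw [h6, mem_filter, he] at h4
      rw [h6, h3 (k + φ b) ⟨h4.2, b, by simp⟩]
  · rw [sum_filter, ← e.symm.sum_comp, Fintype.sum_prod_type]
    refine sum_congr rfl fun i _ => ?_
    simp only [Equiv.apply_symm_apply]
    rw [← sum_filter, filter_mem_eq_inter, univ_inter]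
    rfl

theorem gauss (hp2 : 2 < p) (ψ₁ ψ₂ : AddChar (ZMod p) ℂ) (h : ψ₂ 1 ≠ 1) :
    (∑ i, ψ₁ i * ψ₂ (i ^ 2)) * (∑ i, ψ₁ (-i) * ψ₂ (-i ^ 2)) = p := by
  have hpr : ψ₂.IsPrimitive := AddChar.IsPrimitive.of_ne_one (AddChar.ne_one_iff.2 ⟨1, h⟩)
  have h2 : (2 : ZMod p) ≠ 0 := by
    have : ((2 : ℕ) : ZMod p) ≠ 0 := by
      rw [Ne, ZMod.natCast_eq_zero_iff]
      exact Nat.not_dvd_of_pos_of_lt (by omega) hp2
    exact_mod_cast this
  rw [sum_mul_sum, sum_comm]
  have e1 : ∀ j, ∑ i, ψ₁ i * ψ₂ (i ^ 2) * (ψ₁ (-j) * ψ₂ (-j ^ 2)) =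
      ∑ d, ψ₁ d * ψ₂ (d ^ 2) * ψ₂ (j * (2 * d)) := fun j => by
    refine (Fintype.sum_equiv (Equiv.addRight j) _ _ fun d => ?_).symm
    simp only [Equiv.coe_addRight]
    rw [mul_mul_mul_comm, ← AddChar.map_add_eq_mul, ← AddChar.map_add_eq_mul, mul_assoc,
      ← AddChar.map_add_eq_mul]
    congr 2 <;> ring
  simp_rw [e1]
  rw [sum_comm]
  simp_rw [← mul_sum, AddChar.sum_mulShift _ hpr]
  rw [sum_eq_single 0] <;> simp +contextual [h2]

theorem prod_step (hp2 : 2 < p) (c : G →+ ZMod p) (z : G) (hz : c z = 1) (hpz : p • z = 0)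
    (φ : ZMod p →+ c.ker) (R : Finset c.ker) (h : FR φ R) :
    ∃ R' : Finset G, FR (c.ker.subtype.comp φ) R' := by
  classical
  obtain ⟨ζ, hζ⟩ := exists_line z hpz
  obtain ⟨R', h1, h2⟩ := glue c z hz φ (fun i => R.map (Equiv.addRight (φ (i ^ 2))).toEmbedding)
    (fun i x => by
      obtain ⟨r, ⟨a1, a, a2⟩, a3⟩ := h.tr x
      refine ⟨r + φ (i ^ 2), ⟨mem_map.2 ⟨r, a1, rfl⟩, a + i ^ 2, by rw [map_add, a2]; abel⟩, ?_⟩
      rintro _ ⟨b1, b, b2⟩
      obtain ⟨r', b3, rfl⟩ := mem_map.1 b1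
      rw [← a3 r' ⟨b3, b - i ^ 2, by rw [map_sub, b2]; simp; abel⟩]; rfl)
  refine ⟨R', h1, fun χ hχ => ?_⟩
  have e1 := h.chr (χ.compAddMonoidHom c.ker.subtype) hχ
  have e2 := gauss hp2 (χ.compAddMonoidHom ζ) (χ.compAddMonoidHom (c.ker.subtype.comp φ)) hχ
  rw [h2, h2, card_eq_sum_ones, h2]
  simp only [sum_map, Equiv.coe_toEmbedding, Equiv.coe_addRight, AddSubgroup.coe_add, neg_add,
    AddChar.map_add_eq_mul, ← hζ, ← line_apply, sum_const, card_map, card_univ, ZMod.card,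
    smul_eq_mul, mul_one]
  simp only [AddChar.compAddMonoidHom_apply, AddSubgroup.coe_subtype, map_neg,
    AddMonoidHom.comp_apply] at e1 e2
  push_cast
  rw [← e1, ← e2, mul_mul_mul_comm]
  congr 1 <;> rw [sum_mul_sum] <;>
    exact sum_congr rfl fun i _ => sum_congr rfl fun r _ => by ring

theorem rec_step (c : G →+ ZMod p) (z : G) (hz : c z = 1) (φ η : ZMod p →+ c.ker)
    (hφ : φ 1 ≠ 0) (hη : η 1 ∉ φ.range)
    (h : ∀ θ : ZMod p →+ c.ker, θ 1 - η 1 ∈ φ.range → θ 1 ≠ 0 →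
      ((QuotientAddGroup.mk' θ.range).comp φ) 1 ≠ 0 →
      ∃ R, FR ((QuotientAddGroup.mk' θ.range).comp φ) R) :
    ∃ R' : Finset G, FR (c.ker.subtype.comp φ) R' := by
  classical
  set θ : ZMod p → ZMod p →+ c.ker := fun i => η + φ.comp (AddMonoidHom.mulLeft i) with hθ
  have hθ1 : ∀ i, θ i 1 = η 1 + φ i := fun i => by simp [hθ]
  have t1 : ∀ i, θ i 1 ≠ 0 := fun i h0 => hη ⟨-i, by
    rw [hθ1] at h0; rw [map_neg]; exact (eq_neg_of_add_eq_zero_left h0).symm⟩
  have t2 : ∀ i, ((QuotientAddGroup.mk' (θ i).range).comp φ) 1 ≠ 0 := fun i h0 => by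
    obtain ⟨a, ha⟩ := (QuotientAddGroup.eq_zero_iff _).1 h0
    by_cases ha0 : a = 0
    · rw [ha0, map_zero] at ha; exact hφ ha.symm
    · apply hη
      have e1 : θ i 1 = φ a⁻¹ := by
        have := line_apply ((θ i).comp (AddMonoidHom.mulLeft a)) a⁻¹
        rw [line_apply φ, ← ha]
        simpa [ha0] using this
      exact ⟨a⁻¹ - i, by rw [map_sub, ← e1, hθ1]; abel⟩
  choose R hR using fun i => h (θ i) ⟨i, by rw [hθ1]; abel⟩ (t1 i) (t2 i)
  choose S s1 s2 s3 using fun i => pull (QuotientAddGroup.mk' (θ i).range)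
    (QuotientAddGroup.mk'_surjective _) (θ i) φ (t1 i) (QuotientAddGroup.ker_mk' _) (t2 i) _ (hR i)
  obtain ⟨R', h1, h2⟩ := glue c z hz φ S s1
  refine ⟨R', h1, fun χ hχ => ?_⟩
  set χ' := χ.compAddMonoidHom c.ker.subtype with hχ'
  have hinj : Function.Injective (χ'.compAddMonoidHom φ) :=
    AddChar.injective_iff.2 fun a ha => ((AddChar.IsPrimitive.of_ne_one
      (ψ := χ'.compAddMonoidHom φ) (AddChar.ne_one_iff.2 ⟨1, hχ⟩)).zmod_char_eq_one_iff p a).1 ha
  have hprim : IsPrimitiveRoot (χ' (φ 1)) p :=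
    isPrimitiveRoot_of_mem_nthRootsFinset hp.out ((Polynomial.mem_nthRootsFinset hp.out.pos 1).2 (by
      rw [← AddChar.map_nsmul_eq_pow, ← map_nsmul]; simp)) hχ
  obtain ⟨j, -, hj⟩ := hprim.eq_pow_of_pow_eq_one (ξ := χ' (-η 1)) (by
    rw [← AddChar.map_nsmul_eq_pow, ← map_neg, ← map_nsmul]; simp)
  rw [← AddChar.map_nsmul_eq_pow, ← map_nsmul, nsmul_one] at hj
  have u0 : χ' (θ j 1) = 1 := by
    rw [hθ1, AddChar.map_add_eq_mul, hj, ← AddChar.map_add_eq_mul]; simp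
  have u1 : ∀ i, i ≠ (j : ZMod p) → χ' (θ i 1) ≠ 1 := fun i hi h0 => hi (hinj (by
    change χ' (φ i) = χ' (φ j)
    rw [hj, show φ i = -η 1 + θ i 1 by rw [hθ1]; abel, AddChar.map_add_eq_mul, h0, mul_one]))
  have hc : ∀ i, (S i).card = (S j).card := fun i =>
    Nat.eq_of_mul_eq_mul_right hp.out.pos (((s1 i).card hφ).trans ((s1 j).card hφ).symm)
  rw [h2, h2, card_eq_sum_ones, h2]
  simp only [neg_add, AddChar.map_add_eq_mul, ← mul_sum, sum_const, hc, card_univ, ZMod.card,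
    smul_eq_mul, mul_one]
  rw [sum_eq_single (j : ZMod p), sum_eq_single (j : ZMod p), mul_mul_mul_comm,
    ← AddChar.map_add_eq_mul, add_neg_cancel, AddChar.map_zero_eq_one, one_mul]
  · push_cast
    exact s3 j χ' u0 hχ
  · intro i _ hi
    have := s2 i χ'⁻¹ (by
      rw [AddChar.inv_apply, AddChar.map_neg_eq_inv]; simpa using u1 i hi)
    simp only [AddChar.inv_apply] at this
    exact mul_eq_zero_of_right _ this
  · simp
  · intro i _ hi
    exact mul_eq_zero_of_right _ (s2 i χ' (u1 i hi))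
  · simp

end basic

theorem card_quot {G : Type*} [AddCommGroup G] (θ : ZMod p →+ G) (h : θ 1 ≠ 0) :
    Nat.card (G ⧸ θ.range) * p = Nat.card G := by
  rw [AddSubgroup.card_eq_card_quotient_mul_card_addSubgroup θ.range,
    ← Nat.card_congr (θ.ofInjective (line_inj θ h)).toEquiv, Nat.card_zmod]

theorem line_kr {G : Type*} [AddCommGroup G] (φ : ZMod p →+ G) (a : ZMod p) : p • φ a = 0 := by
  rw [← map_nsmul]; simp

theorem exists_second {G : Type*} [AddCommGroup G] [Finite G] (φ : ZMod p →+ G)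
    (h : p < Nat.card (kr G p)) : ∃ y, p • y = 0 ∧ y ∉ φ.range := by
  by_contra hne
  push Not at hne
  have h1 : Nat.card (kr G p) ≤ Nat.card φ.range := AddSubgroup.card_le_of_le hne
  have h2 := Nat.card_le_card_of_surjective _ φ.rangeRestrict_surjective
  rw [Nat.card_zmod] at h2
  omega

theorem exist_odd (k : ℕ) : ∀ (G : Type u) [AddCommGroup G] [Finite G],
    Nat.card G = p ^ (2 * k + 1) → (∀ x : G, p ^ (k + 1) • x = 0) →
    ∀ φ : ZMod p →+ G, φ 1 ≠ 0 → ∃ R, FR φ R := by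
  induction k with
  | zero =>
    intro G _ _ hG _ φ hφ
    have hs : Function.Surjective φ :=
      ((Nat.bijective_iff_injective_and_card φ).2 ⟨line_inj φ hφ, by simp [hG]⟩).2
    exact ⟨{0}, fun x => ⟨0, ⟨mem_singleton_self _, hs _⟩, fun y hy => mem_singleton.1 hy.1⟩,
      fun χ _ => by simp⟩
  | succ k ih =>
    intro G _ _ hG he φ hφ
    have := Fintype.ofFinite G
    have h1 := hp.out.one_lt
    obtain ⟨y, hy, hy2⟩ := exists_second φ (by
      by_contra hle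
      have h2 := (card_le_pow p _ he).trans (Nat.pow_le_pow_left (not_lt.1 hle) _)
      rw [hG, Nat.pow_le_pow_iff_right h1] at h2
      omega)
    obtain ⟨c, z, c1, c2, c3⟩ := hom_step hG he (by
      by_contra hle
      have h2 := (Nat.pow_le_pow_left (not_lt.1 hle) _).trans
        (pow_le_card_rg p (k + 1) he (k + 2) 0 (by omega))
      rw [pow_zero, rg_one, AddSubgroup.card_top, hG, ← pow_mul, Nat.pow_le_pow_iff_right h1] at h2
      omega) _ (two_ne_top p p (φ 1) y (line_kr φ 1) hy (by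
        rw [hG, ← sq]; exact Nat.pow_lt_pow_right h1 (by omega))) (by
      refine sup_le ?_ ?_ <;> rw [AddSubgroup.zmultiples_le, mem_kr, pow_succ, mul_smul]
      · rw [line_kr, smul_zero]
      · rw [hy, smul_zero])
    have cφ : ∀ a, φ a ∈ c.ker := fun a => by
      rw [line_apply]
      exact c.ker.nsmul_mem (c1 _ (AddSubgroup.mem_sup_left (AddSubgroup.mem_zmultiples _))) _
    obtain ⟨η, hη⟩ := exists_line
      (⟨y, c1 _ (AddSubgroup.mem_sup_right (AddSubgroup.mem_zmultiples _))⟩ : c.ker)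
      (Subtype.ext hy)
    refine rec_step c z c2 (φ.codRestrict _ cφ) η (fun h => hφ (congrArg Subtype.val h)) ?_ ?_
    · rintro ⟨a, ha⟩
      exact hy2 ⟨a, by rw [hη] at ha; exact congrArg Subtype.val ha⟩
    · intro θ _ t1 t2
      refine ih _ ?_ ?_ _ t2
      · have e1 := card_quot θ t1
        have e2 := card_ker_hom c c2
        rw [← e1, hG, show 2 * (k + 1) + 1 = 2 * k + 1 + 1 + 1 by ring, pow_succ, pow_succ] at e2
        exact Nat.eq_of_mul_eq_mul_right hp.out.pos (Nat.eq_of_mul_eq_mul_right hp.out.pos e2)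
      · intro x
        obtain ⟨x, rfl⟩ := QuotientAddGroup.mk_surjective x
        rw [← QuotientAddGroup.mk_nsmul, show p ^ (k + 1) • x = 0 from Subtype.ext (c3 x x.2)]
        rfl

theorem exist_prod (hp2 : 2 < p) {k : ℕ} {G : Type u} [AddCommGroup G] [Finite G]
    (hG : Nat.card G = p ^ (2 * k + 2)) (he : ∀ x : G, p ^ (k + 1) • x = 0)
    (c : G →+ ZMod p) (z : G) (hz : c z = 1) (hpz : p • z = 0) (φ : ZMod p →+ G) (hφ : φ 1 ≠ 0)
    (hc : c (φ 1) = 0) : ∃ R, FR φ R := by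
  have := Fintype.ofFinite G
  have cφ : ∀ a, φ a ∈ c.ker := fun a => by
    rw [line_apply]; exact c.ker.nsmul_mem hc _
  obtain ⟨R, hR⟩ := exist_odd k c.ker (by
    have e2 := card_ker_hom c hz
    rw [hG, pow_succ] at e2
    exact Nat.eq_of_mul_eq_mul_right hp.out.pos e2) (fun x => Subtype.ext (he x))
    (φ.codRestrict _ cφ) (fun h => hφ (congrArg Subtype.val h))
  exact prod_step hp2 c z hz hpz _ R hR

theorem exist_even (hp2 : 2 < p) (k : ℕ) : ∀ (G : Type u) [AddCommGroup G] [Finite G],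
    Nat.card G = p ^ (2 * k + 2) → (∀ x : G, p ^ (k + 1) • x = 0) → p ^ 3 ≤ Nat.card (kr G p) →
    ∀ φ : ZMod p →+ G, φ 1 ≠ 0 → φ 1 ∈ rg G p → ∃ R, FR φ R := by
  induction k with
  | zero =>
    intro G _ _ hG _ hr
    have := hr.trans (AddSubgroup.card_le_card_addGroup _)
    rw [hG, Nat.pow_le_pow_iff_right hp.out.one_lt] at this
    omega
  | succ k ih =>
    intro G _ _ hG he hr φ hφ hφ2
    have := Fintype.ofFinite G
    have h1 := hp.out.one_lt
    by_cases hle : kr G p ≤ rg G p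
    swap
    · obtain ⟨z, hz1, hz2⟩ := SetLike.not_le_iff_exists.1 hle
      obtain ⟨c, c1, c2⟩ := exists_hom (rg G p) z (by rwa [sup_idem])
      exact exist_prod hp2 hG he c z c2 hz1 φ hφ (c1 _ hφ2)
    have hk : 1 ≤ k := by
      have h2 := Nat.mul_le_mul hr (hr.trans (AddSubgroup.card_le_of_le hle))
      rw [card_kr_rg, hG, ← pow_add, Nat.pow_le_pow_iff_right h1] at h2
      omega
    obtain ⟨y, hy, hy2⟩ := exists_second φ
      (lt_of_lt_of_le (by simpa using Nat.pow_lt_pow_right h1 (show 1 < 3 by omega)) hr)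
    obtain ⟨x, hx⟩ := mem_rg.1 hφ2
    obtain ⟨w, hw⟩ := mem_rg.1 (hle hy)
    have hx2 : p ^ 2 • x = 0 := by rw [sq, mul_smul, hx, line_kr]
    have hw2 : p ^ 2 • w = 0 := by rw [sq, mul_smul, hw, hy]
    obtain ⟨c, z, c1, c2, c3⟩ := hom_step hG he (by
      by_contra hle
      have h2 := Nat.mul_le_mul hr ((Nat.pow_le_pow_left (not_lt.1 hle) _).trans
        (pow_le_card_rg p (k + 1) he (k + 1) 1 (by omega)))
      rw [pow_one, card_kr_rg, hG, ← pow_mul, ← pow_add, Nat.pow_le_pow_iff_right h1] at h2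
      omega) _ (two_ne_top (p ^ 2) (p ^ 2) x w hx2 hw2 (by
        rw [hG, ← pow_add]; exact Nat.pow_lt_pow_right h1 (by omega))) (by
      obtain ⟨k, rfl⟩ : ∃ j, k = j + 1 := ⟨k - 1, by omega⟩
      refine sup_le ?_ ?_ <;> rw [AddSubgroup.zmultiples_le, mem_kr, add_assoc,
        pow_add, mul_smul]
      · rw [hx2, smul_zero]
      · rw [hw2, smul_zero])
    have cx : x ∈ c.ker := c1 _ (AddSubgroup.mem_sup_left (AddSubgroup.mem_zmultiples _))
    have cw : w ∈ c.ker := c1 _ (AddSubgroup.mem_sup_right (AddSubgroup.mem_zmultiples _))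
    have cp : ∀ g : G, p • g ∈ c.ker := fun g => by simp [AddMonoidHom.mem_ker]
    have cφ : ∀ a, φ a ∈ c.ker := fun a => by
      rw [line_apply, ← hx]; exact c.ker.nsmul_mem (cp _) _
    obtain ⟨η, hη⟩ := exists_line (⟨y, hw ▸ cp w⟩ : c.ker) (Subtype.ext hy)
    have r1 : φ.codRestrict _ cφ 1 ∈ rg c.ker p := ⟨⟨x, cx⟩, Subtype.ext hx⟩
    refine rec_step c z c2 (φ.codRestrict _ cφ) η (fun h => hφ (congrArg Subtype.val h)) ?_ ?_
    · rintro ⟨a, ha⟩
      exact hy2 ⟨a, by rw [hη] at ha; exact congrArg Subtype.val ha⟩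
    · intro θ t0 t1 t2
      have e1 := card_quot θ t1
      refine ih _ ?_ ?_ ?_ _ t2 ?_
      · have e2 := card_ker_hom c c2
        rw [← e1, hG, show 2 * (k + 1) + 2 = 2 * k + 2 + 1 + 1 by ring, pow_succ, pow_succ] at e2
        exact Nat.eq_of_mul_eq_mul_right hp.out.pos (Nat.eq_of_mul_eq_mul_right hp.out.pos e2)
      · intro x
        obtain ⟨x, rfl⟩ := QuotientAddGroup.mk_surjective x
        rw [← QuotientAddGroup.mk_nsmul, show p ^ (k + 1) • x = 0 from Subtype.ext (c3 x x.2)]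
        rfl
      · have r2 : θ.range ≤ rg c.ker p := by
          rintro _ ⟨a, rfl⟩
          obtain ⟨b, hb⟩ := t0
          rw [line_apply, ← sub_add_cancel (θ 1) (η 1), ← hb, line_apply _ b, hη]
          exact AddSubgroup.nsmul_mem _ (AddSubgroup.add_mem _ (AddSubgroup.nsmul_mem _ r1 _)
            (mem_rg.2 ⟨⟨w, cw⟩, Subtype.ext hw⟩)) _
        have e3 := card_map_mul (QuotientAddGroup.mk' θ.range) (rg c.ker p)
        have e4 : (rg c.ker p).map (QuotientAddGroup.mk' θ.range) = rg (c.ker ⧸ θ.range) p := by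
          ext g
          constructor
          · rintro ⟨_, ⟨a, rfl⟩, rfl⟩
            exact ⟨QuotientAddGroup.mk a, by simp⟩
          · rintro ⟨a, rfl⟩
            obtain ⟨a, rfl⟩ := QuotientAddGroup.mk_surjective a
            exact ⟨_, ⟨a, rfl⟩, by simp⟩
        rw [e4, QuotientAddGroup.ker_mk', inf_eq_right.2 r2,
          ← Nat.card_congr (θ.ofInjective (line_inj θ t1)).toEquiv, Nat.card_zmod] at e3
        have e5 := card_kr_rg (G := c.ker) p
        have e6 := card_kr_rg (G := c.ker ⧸ θ.range) p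
        have e7 : Nat.card (kr G p) ≤ Nat.card (kr c.ker p) :=
          Nat.card_le_card_of_injective
            (fun a => (⟨⟨a.1, by obtain ⟨g, hg⟩ := mem_rg.1 (hle a.2); exact hg ▸ cp g⟩,
              Subtype.ext a.2⟩ : kr c.ker p))
            (fun a b h => Subtype.ext (congrArg (fun t => t.1.1) h))
        have hpos : 0 < Nat.card (rg (c.ker ⧸ θ.range) p) * p := Nat.mul_pos Nat.card_pos hp.out.pos
        have e8 : Nat.card (kr c.ker p) = Nat.card (kr (c.ker ⧸ θ.range) p) := by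
          refine Nat.eq_of_mul_eq_mul_right hpos ?_
          rw [← mul_assoc (Nat.card (kr (c.ker ⧸ θ.range) p)), e6, e1, ← e5, ← e3]; ring
        omega
      · exact ⟨QuotientAddGroup.mk ⟨x, cx⟩, by
          rw [nsmulAddMonoidHom_apply, ← QuotientAddGroup.mk_nsmul]
          exact congrArg QuotientAddGroup.mk (Subtype.ext hx)⟩

/-- Existence half of the classification. -/
theorem exist_main (hp2 : 2 < p) {n : ℕ} {G : Type u} [AddCommGroup G] [Fintype G] [DecidableEq G]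
    (hG : Nat.card G = p ^ n) (hn : 2 ≤ n) (he : ∀ x : G, p ^ ((n + 1) / 2) • x = 0)
    (hx : ∀ k, 2 ≤ k → ¬ Nonempty (G ≃+ ZMod (p ^ k) × ZMod (p ^ k))) :
    ∃ (N : AddSubgroup G) (R : Finset G), ARDS N R := by
  have h1 := hp.out.one_lt
  have line : ∀ (A : AddSubgroup G), p ∣ Nat.card A → ∃ φ : ZMod p →+ G, φ 1 ≠ 0 ∧ φ 1 ∈ A := by
    intro A hA
    obtain ⟨u, hu⟩ := exists_prime_addOrderOf_dvd_card' p hA
    obtain ⟨φ, hφ⟩ := exists_line (p := p) (u : G) (by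
      rw [← hu, ← AddSubgroup.coe_nsmul, addOrderOf_nsmul_eq_zero]; rfl)
    refine ⟨φ, fun h => ?_, hφ ▸ u.2⟩
    rw [hφ, ZeroMemClass.coe_eq_zero] at h
    rw [h, addOrderOf_zero] at hu
    omega
  suffices ∃ (φ : ZMod p →+ G) (R : Finset G), φ 1 ≠ 0 ∧ FR φ R by
    obtain ⟨φ, R, h2, h3⟩ := this
    exact ⟨_, R, h3.ards h2 (by
      rw [hG]; simpa using Nat.pow_lt_pow_right h1 (show 1 < n by omega))⟩
  rcases Nat.even_or_odd' n with ⟨k, rfl | rfl⟩
  · obtain ⟨k, rfl⟩ : ∃ j, k = j + 1 := ⟨k - 1, by omega⟩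
    rw [show (2 * (k + 1) + 1) / 2 = k + 1 by omega] at he
    by_cases hle : kr G p ≤ rg G p
    · have hr : p ^ 3 ≤ Nat.card (kr G p) := by
        by_contra hlt
        refine hx (k + 1) ?_ (equiv_of_rank_two hG he (not_le.1 hlt))
        by_contra hk
        obtain rfl : k = 0 := by omega
        have e1 : kr G p = ⊤ := (AddSubgroup.eq_top_iff' _).2 fun x => mem_kr.2 (by simpa using he x)
        have e2 := card_kr_rg (G := G) p
        rw [e1, top_le_iff] at hle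
        rw [e1, hle, AddSubgroup.card_top, hG, ← pow_add, Nat.pow_right_inj h1] at e2
        omega
      obtain ⟨φ, h2, h3⟩ := line (kr G p) (by
        obtain ⟨i, -, hi⟩ := card_sub_pow hp.out hG (kr G p)
        rw [hi, Nat.pow_le_pow_iff_right h1] at hr
        rw [hi]; exact dvd_pow_self _ (by omega))
      obtain ⟨R, hR⟩ := exist_even hp2 k G hG he hr φ h2 (hle h3)
      exact ⟨φ, R, h2, hR⟩
    · obtain ⟨z, hz1, hz2⟩ := SetLike.not_le_iff_exists.1 hle
      obtain ⟨c, c1, c2⟩ := exists_hom (rg G p) z (by rwa [sup_idem])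
      obtain ⟨φ, h2, h3⟩ := line c.ker (by
        have e2 := card_ker_hom c c2
        rw [hG, show 2 * (k + 1) = 2 * k + 1 + 1 by ring, pow_succ] at e2
        rw [Nat.eq_of_mul_eq_mul_right hp.out.pos e2]
        exact dvd_pow_self _ (by omega))
      obtain ⟨R, hR⟩ := exist_prod hp2 hG he c z c2 hz1 φ h2 h3
      exact ⟨φ, R, h2, hR⟩
  · rw [show (2 * k + 1 + 1) / 2 = k + 1 by omega] at he
    obtain ⟨φ, h2, -⟩ := line ⊤ (by
      rw [AddSubgroup.card_top, hG]; exact dvd_pow_self _ (by omega))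
    obtain ⟨R, hR⟩ := exist_odd k G hG he φ h2
    exact ⟨φ, R, h2, hR⟩

end Pool.Agent.Lib.MP_2d211a_co
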