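import Pool.Agent.Lib.MP_2d211a_co.Expo2
import Pool.Agent.Lib.MP_2d211a_co.Exist
import Pool.Agent.Lib.MP_2d211a_co.Bridge

open Finset

namespace Pool.Agent.Lib.MP_2d211a_co

variable {p : ℕ} [hp : Fact p.Prime]

theorem no_ards_equiv (hp2 : 2 < p) {k : ℕ} (hk : 2 ≤ k) {G : Type*} [AddCommGroup G]
    [DecidableEq G] [Fintype G] (φ : G ≃+ ZMod (p ^ k) × ZMod (p ^ k)) (N : AddSubgroup G)
    (R : Finset G) : ¬ ARDS N R := by
  intro h
  set π : ℤ × ℤ →+ G := φ.symm.toAddMonoidHom.comp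
    ((Int.castAddHom (ZMod (p ^ k))).prodMap (Int.castAddHom (ZMod (p ^ k)))) with hπ
  have hz : (((p : ℤ) ^ k : ℤ) : ZMod (p ^ k)) = 0 := by
    rw [ZMod.intCast_zmod_eq_zero_iff_dvd, Nat.cast_pow]
  obtain ⟨i, l, w, hil, hlk, hM | hM⟩ := struct (p := p) k (N.comap π)
    (by
      rw [AddSubgroup.mem_comap]; convert N.zero_mem
      rw [hπ, AddMonoidHom.comp_apply, ← map_zero φ.symm.toAddMonoidHom]
      congr 1; ext <;> simp [← hz])
    (by
      rw [AddSubgroup.mem_comap]; convert N.zero_mem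
      rw [hπ, AddMonoidHom.comp_apply, ← map_zero φ.symm.toAddMonoidHom]
      congr 1; ext <;> simp [← hz])
  · exact h.false_of_coord hp2 hk φ hil hlk hM
  · exact h.false_of_coord hp2 hk (φ.trans AddEquiv.prodComm) hil hlk hM

theorem classify_add (hp2 : 2 < p) {n : ℕ} {G : Type*} [AddCommGroup G] [DecidableEq G] [Fintype G]
    (hG : Nat.card G = p ^ n) : (∃ (N : AddSubgroup G) (R : Finset G), ARDS N R) ↔
      2 ≤ n ∧ (∀ x : G, p ^ ((n + 1) / 2) • x = 0) ∧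
        ∀ k, 2 ≤ k → ¬ Nonempty (G ≃+ ZMod (p ^ k) × ZMod (p ^ k)) := by
  constructor
  · rintro ⟨N, R, h⟩
    refine ⟨?_, h.expo (by omega) hG, fun k hk ⟨φ⟩ => no_ards_equiv hp2 hk φ N R h⟩
    obtain ⟨b, -, hb⟩ := card_sub_pow hp.out hG N
    have h1 := h.one_lt
    have h2 := h.lt
    rw [hb, ← pow_zero p, Nat.pow_lt_pow_iff_right hp.out.one_lt] at h1
    rw [hb, hG, Nat.pow_lt_pow_iff_right hp.out.one_lt] at h2
    omega
  · rintro ⟨h1, h2, h3⟩
    exact exist_main (by omega) hG h1 h2 h3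

end Pool.Agent.Lib.MP_2d211a_co
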