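import Mathlib

open Polynomial Finset

namespace Pool.Agent.Lib.MP_2d211a_co

/-- The ring of cyclotomic integers of level `n`. -/
abbrev Cy (n : ℕ) : Type := AdjoinRoot (cyclotomic n ℤ)

/-- The distinguished root of unity. -/
noncomputable def rt (n : ℕ) : Cy n := AdjoinRoot.root _

instance cyDomain (n : ℕ) [NeZero n] : IsDomain (Cy n) :=
  AdjoinRoot.isDomain_of_prime ((cyclotomic.irreducible (NeZero.pos n)).prime)

instance cyCharZero (n : ℕ) [NeZero n] : CharZero (Cy n) := by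
  have h : (cyclotomic n ℤ).degree ≠ 0 := (degree_cyclotomic_pos n ℤ (NeZero.pos n)).ne'
  exact charZero_of_injective_ringHom (AdjoinRoot.of.injective_of_degree_ne_zero h)

theorem rt_prim (n : ℕ) [NeZero n] : IsPrimitiveRoot (rt n) n := by
  have : NeZero (n : Cy n) := ⟨Nat.cast_ne_zero.2 (NeZero.ne n)⟩
  rw [← isRoot_cyclotomic_iff, ← map_cyclotomic n (AdjoinRoot.of (cyclotomic n ℤ))]
  exact AdjoinRoot.isRoot_root _

/-- The standard additive character. -/
noncomputable def ch (n : ℕ) [NeZero n] : AddChar (ZMod n) (Cy n) :=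
  AddChar.zmodChar n (rt_prim n).pow_eq_one

theorem ch_apply (n : ℕ) [NeZero n] (a : ZMod n) : ch n a = rt n ^ a.val := rfl

theorem ch_nat (n : ℕ) [NeZero n] (a : ℕ) : ch n (a : ZMod n) = rt n ^ a :=
  AddChar.zmodChar_apply' _ a

theorem ch_prim (n : ℕ) [NeZero n] : (ch n).IsPrimitive :=
  AddChar.zmodChar_primitive_of_primitive_root n (rt_prim n)

theorem ch_eq_one (n : ℕ) [NeZero n] (a : ZMod n) : ch n a = 1 ↔ a = 0 :=
  (ch_prim n).zmod_char_eq_one_iff n a

theorem mk_X_pow (n a : ℕ) : AdjoinRoot.mk (cyclotomic n ℤ) (X ^ a) = rt n ^ a := by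
  simp [rt]

/-- `(1 - ζ)^φ` is associated to `p`. -/
theorem assoc_p (p j : ℕ) [hp : Fact p.Prime] :
    Associated ((1 - rt (p ^ (j + 1))) ^ (p ^ j * (p - 1))) (p : Cy (p ^ (j + 1))) := by
  have hz := rt_prim (p ^ (j + 1))
  have h1 : (p : Cy (p ^ (j + 1))) = ∏ μ ∈ primitiveRoots (p ^ (j + 1)) (Cy (p ^ (j + 1))), (1 - μ) := by
    rw [← eval_one_cyclotomic_prime_pow (R := Cy (p ^ (j + 1))) j,
      cyclotomic_eq_prod_X_sub_primitiveRoots hz, eval_prod]
    simp
  have h2 : (1 - rt (p ^ (j + 1))) ^ (p ^ j * (p - 1)) =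
      ∏ _μ ∈ primitiveRoots (p ^ (j + 1)) (Cy (p ^ (j + 1))), (1 - rt (p ^ (j + 1))) := by
    rw [prod_const, hz.card_primitiveRoots, Nat.totient_prime_pow_succ hp.out]
  rw [h1, h2]
  refine Associated.prod _ _ _ fun μ hμ => ?_
  have hμ' : IsPrimitiveRoot μ (p ^ (j + 1)) := (mem_primitiveRoots (NeZero.pos _)).1 hμ
  obtain ⟨i, -, hi, rfl⟩ := (hz.isPrimitiveRoot_iff).1 hμ'
  have := hz.associated_sub_one_pow_sub_one_of_coprime hi
  simpa using this.neg_neg

theorem assoc_p1 (p : ℕ) [hp : Fact p.Prime] :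
    Associated ((1 - rt p) ^ (p - 1)) (p : Cy p) := by
  have hz := rt_prim p
  have h1 : (p : Cy p) = ∏ μ ∈ primitiveRoots p (Cy p), (1 - μ) := by
    rw [← eval_one_cyclotomic_prime (R := Cy p),
      cyclotomic_eq_prod_X_sub_primitiveRoots hz, eval_prod]
    simp
  have h2 : (1 - rt p) ^ (p - 1) = ∏ _μ ∈ primitiveRoots p (Cy p), (1 - rt p) := by
    rw [prod_const, hz.card_primitiveRoots, Nat.totient_prime hp.out]
  rw [h1, h2]
  refine Associated.prod _ _ _ fun μ hμ => ?_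
  have hμ' : IsPrimitiveRoot μ p := (mem_primitiveRoots (NeZero.pos _)).1 hμ
  obtain ⟨i, -, hi, rfl⟩ := (hz.isPrimitiveRoot_iff).1 hμ'
  have := hz.associated_sub_one_pow_sub_one_of_coprime hi
  simpa using this.neg_neg

section functional

variable {p : ℕ} [hp : Fact p.Prime] {A : Type*} [AddCommGroup A]

/-- Linear functional on integer polynomials sending `X^n` to `g n`. -/
noncomputable def Lf (g : ZMod p → A) : ℤ[X] →ₗ[ℤ] A :=
  Polynomial.lsum fun n => LinearMap.toSpanSingleton ℤ A (g (n : ZMod p))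

theorem Lf_monomial (g : ZMod p → A) (n : ℕ) (a : ℤ) :
    Lf g (monomial n a) = a • g (n : ZMod p) := by
  simp [Lf, Polynomial.lsum, sum_monomial_index]

theorem Lf_X_pow_mul (g : ZMod p → A) (i : ℕ) (B : ℤ[X]) :
    Lf g (X ^ i * B) = Lf (fun a => g (a + (i : ZMod p))) B := by
  induction B using Polynomial.induction_on' with
  | add P Q hP hQ => rw [mul_add, map_add, map_add, hP, hQ]
  | monomial n a => rw [X_pow_mul_monomial, Lf_monomial, Lf_monomial]; push_cast; rfl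

theorem Lf_sub (g g' : ZMod p → A) (B : ℤ[X]) :
    Lf (fun a => g a - g' a) B = Lf g B - Lf g' B := by
  induction B using Polynomial.induction_on' with
  | add P Q hP hQ => rw [map_add, map_add, map_add, hP, hQ]; abel
  | monomial n a => rw [Lf_monomial, Lf_monomial, Lf_monomial, smul_sub]

theorem sum_range_zmod {M : Type*} [AddCommMonoid M] (f : ZMod p → M) :
    ∑ i ∈ range p, f (i : ZMod p) = ∑ a, f a := by
  symm
  refine Finset.sum_bij' (fun a _ => a.val) (fun i _ => (i : ZMod p)) ?_ ?_ ?_ ?_ ?_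
  · intro a _; exact mem_range.2 (ZMod.val_lt a)
  · intro i _; exact mem_univ _
  · intro a _; simp
  · intro i hi; exact ZMod.val_cast_of_lt (mem_range.1 hi)
  · intro a _; simp

theorem Lf_cyc (g : ZMod p → A) (hg : ∑ a, g a = 0) (B : ℤ[X]) :
    Lf g (cyclotomic p ℤ * B) = 0 := by
  induction B using Polynomial.induction_on' with
  | add P Q hP hQ => rw [mul_add, map_add, hP, hQ, add_zero]
  | monomial n a =>
    rw [cyclotomic_prime, sum_mul, map_sum]
    simp_rw [Lf_X_pow_mul, Lf_monomial]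
    rw [← Finset.smul_sum, sum_range_zmod (fun b => g ((n : ZMod p) + b)),
      Fintype.sum_equiv (Equiv.addLeft (n : ZMod p)) (fun b => g ((n : ZMod p) + b)) g
        (fun _ => rfl), hg, smul_zero]

/-- The functional on cyclotomic integers. -/
noncomputable def lf (g : ZMod p → A) : Cy p →ₗ[ℤ] A :=
  Lf g ∘ₗ AdjoinRoot.modByMonicHom (cyclotomic.monic p ℤ)

theorem lf_mk (g : ZMod p → A) (hg : ∑ a, g a = 0) (B : ℤ[X]) :
    lf g (AdjoinRoot.mk _ B) = Lf g B := by
  rw [lf, LinearMap.comp_apply, AdjoinRoot.modByMonicHom_mk]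
  conv_rhs => rw [← modByMonic_add_div B (cyclotomic p ℤ), map_add, Lf_cyc g hg, add_zero]

theorem lf_ch (g : ZMod p → A) (hg : ∑ a, g a = 0) (a : ZMod p) : lf g (ch p a) = g a := by
  rw [ch_apply, ← mk_X_pow, lf_mk g hg, ← monomial_one_right_eq_X_pow, Lf_monomial]
  simp

theorem sum_fwd (g : ZMod p → A) : ∑ a, fwdDiff (1 : ZMod p) g a = 0 := by
  simp only [fwdDiff, sum_sub_distrib]
  rw [Fintype.sum_equiv (Equiv.addRight (1 : ZMod p)) (fun x => g (x + 1)) g (fun _ => rfl),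
    sub_self]

theorem lf_pi (g : ZMod p → A) (hg : ∑ a, g a = 0) (z : Cy p) :
    lf g ((1 - rt p) * z) = - lf (fwdDiff (1 : ZMod p) g) z := by
  obtain ⟨B, rfl⟩ := AdjoinRoot.mk_surjective z
  have : (1 - rt p) * AdjoinRoot.mk (cyclotomic p ℤ) B =
      AdjoinRoot.mk (cyclotomic p ℤ) (B - X ^ 1 * B) := by
    rw [map_sub, map_mul, mk_X_pow]; ring
  rw [this, lf_mk g hg, lf_mk _ (sum_fwd g), map_sub, Lf_X_pow_mul]
  have h2 := Lf_sub (fun a => g (a + 1)) g B
  have h3 : fwdDiff (1 : ZMod p) g = fun a => g (a + 1) - g a := rfl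
  rw [h3, h2]; simp

theorem lf_pi_pow (j : ℕ) : ∀ (g : ZMod p → A), ∑ a, g a = 0 →
    (fwdDiff (1 : ZMod p))^[j] g = 0 → ∀ z : Cy p, lf g ((1 - rt p) ^ j * z) = 0 := by
  induction j with
  | zero =>
    intro g _ h z
    have : g = 0 := h
    subst this
    have h0 : ∀ B : ℤ[X], Lf (0 : ZMod p → A) B = 0 := by
      intro B
      have := Lf_sub (0 : ZMod p → A) 0 B
      simp only [sub_self] at this
      exact this
    rw [lf, LinearMap.comp_apply, h0]
  | succ j ih =>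
    intro g hg h z
    rw [pow_succ', mul_assoc, lf_pi g hg, ih _ (sum_fwd g) h, neg_zero]

/-- Moments vanish for a sum of roots of unity divisible by a power of `1 - ω`. -/
theorem moment {ι : Type*} (s : Finset ι) (c : ι → ℤ) (u : ι → ZMod p) (i j : ℕ) (hij : i < j)
    (hi : i < p - 1) (h : (1 - rt p) ^ j ∣ ∑ a ∈ s, (c a : Cy p) * ch p (u a)) :
    ∑ a ∈ s, (c a : ZMod p) * u a ^ i = 0 := by
  obtain ⟨z, hz⟩ := h
  have hg : ∑ a : ZMod p, a ^ i = 0 :=
    FiniteField.sum_pow_lt_card_sub_one (ZMod p) i (by rwa [ZMod.card])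
  have h1 := lf_pi_pow j (fun a : ZMod p => a ^ i) hg (fwdDiff_iter_pow_eq_zero_of_lt hij) z
  rw [← hz, map_sum] at h1
  rw [← h1]
  refine sum_congr rfl fun a _ => ?_
  rw [← zsmul_eq_mul (ch p (u a)), map_zsmul, lf_ch _ hg, zsmul_eq_mul]

theorem sum_ch : ∑ a, ch p a = 0 :=
  AddChar.sum_eq_zero_of_ne_one (by
    rw [AddChar.zmod_char_ne_one_iff, Ne, ch_eq_one]; exact one_ne_zero)

theorem coeff_dvd (c : ZMod p → ℤ) (m : ℤ) (h : (m : Cy p) ∣ ∑ a, (c a : Cy p) * ch p a)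
    (a b : ZMod p) : m ∣ c a - c b := by
  classical
  obtain ⟨z, hz⟩ := h
  set g : ZMod p → ℤ := fun x => (if x = a then 1 else 0) - (if x = b then 1 else 0) with hgdef
  have hg : ∑ x, g x = 0 := by simp [hgdef, sum_sub_distrib]
  have h1 : lf g (∑ a, (c a : Cy p) * ch p a) = c a - c b := by
    rw [map_sum]
    have : ∀ x, lf g ((c x : Cy p) * ch p x) = c x * g x := fun x => by
      rw [← zsmul_eq_mul (ch p x), map_zsmul, lf_ch _ hg, smul_eq_mul]
    simp_rw [this, hgdef, mul_sub, sum_sub_distrib]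
    simp
  rw [hz, ← zsmul_eq_mul z, map_zsmul] at h1
  exact ⟨_, h1.symm⟩

/-- A short sum of `p`-th roots of unity with high divisibility vanishes. -/
theorem lemmaZ {ι : Type*} (s : Finset ι) (u : ι → ZMod p) (m : ℕ) (hp2 : 2 < p)
    (hs : s.card < p ^ (m + 1))
    (h : (1 - rt p) ^ ((p - 1) * m + 1) ∣ ∑ a ∈ s, ch p (u a)) : ∑ a ∈ s, ch p (u a) = 0 := by
  classical
  set c : ZMod p → ℕ := fun x => (s.filter (fun a => u a = x)).card with hc
  have hsum : ∑ a ∈ s, ch p (u a) = ∑ x, ((c x : ℤ) : Cy p) * ch p x := by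
    rw [← sum_fiberwise_of_maps_to (g := u) (t := univ) (fun _ _ => mem_univ _)]
    refine sum_congr rfl fun x _ => ?_
    rw [sum_congr rfl (g := fun _ => ch p x) (fun a ha => by rw [(mem_filter.1 ha).2])]
    simp [hc]
  have hcard : ∑ x, c x = s.card :=
    (card_eq_sum_card_fiberwise (f := u) (t := univ) (fun _ _ => mem_univ _)).symm
  obtain ⟨b, -, hb⟩ := exists_min_image univ c univ_nonempty
  have hpm : ((p ^ m : ℤ) : Cy p) * (1 - rt p) ∣ ∑ a ∈ s, ch p (u a) := by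
    refine Dvd.dvd.trans ?_ h
    rw [pow_succ, pow_mul]
    push_cast
    exact mul_dvd_mul_right (pow_dvd_pow_of_dvd (assoc_p1 p).symm.dvd m) _
  have hd : ∀ x, (p ^ m : ℤ) ∣ (c x : ℤ) - c b := fun x =>
    coeff_dvd (fun x => (c x : ℤ)) _ (by rw [← hsum]; exact (Dvd.intro _ rfl).trans hpm) x b
  choose d hd using hd
  have hsum2 : ∑ a ∈ s, ch p (u a) = ((p ^ m : ℤ) : Cy p) * ∑ x, (d x : Cy p) * ch p x := by
    rw [hsum, mul_sum]
    have : ∀ x, ((c x : ℤ) : Cy p) * ch p x =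
        ((p ^ m : ℤ) : Cy p) * ((d x : Cy p) * ch p x) + ((c b : ℤ) : Cy p) * ch p x := fun x => by
      rw [← mul_assoc, ← Int.cast_mul, ← hd x]; push_cast; ring
    simp_rw [this]
    rw [sum_add_distrib, ← mul_sum (a := ((c b : ℤ) : Cy p)), sum_ch, mul_zero, add_zero]
  have hpne : ((p ^ m : ℤ) : Cy p) ≠ 0 := by
    have := hp.out.ne_zero
    push_cast
    exact pow_ne_zero _ (Nat.cast_ne_zero.2 this)
  rw [hsum2, mul_dvd_mul_iff_left hpne] at hpm
  have hm := moment univ d id 0 1 zero_lt_one (by omega) (by simpa using hpm)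
  simp only [pow_zero, mul_one] at hm
  rw [← Int.cast_sum, ZMod.intCast_zmod_eq_zero_iff_dvd] at hm
  have hpos : (0 : ℤ) < p ^ m := by have := hp.out.pos; positivity
  have hd0 : ∀ x, 0 ≤ d x := fun x => by
    have h1 : (0 : ℤ) ≤ (c x : ℤ) - c b := by have := hb x (mem_univ _); omega
    rw [hd x] at h1
    exact nonneg_of_mul_nonneg_right h1 hpos |> fun h => h
  have hlt : ∑ x, d x < p := by
    have h1 : (p ^ m : ℤ) * ∑ x, d x ≤ s.card := by
      rw [mul_sum, ← hcard]; push_cast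
      refine sum_le_sum fun x _ => ?_
      rw [← hd x]; omega
    have h2 : (s.card : ℤ) < p ^ m * p := by rw [← pow_succ]; exact_mod_cast hs
    exact lt_of_mul_lt_mul_left (h1.trans_lt h2) hpos.le
  have h0 : ∑ x, d x = 0 :=
    Int.eq_zero_of_dvd_of_nonneg_of_lt (sum_nonneg fun x _ => hd0 x) hlt hm
  rw [sum_eq_zero_iff_of_nonneg (fun x _ => hd0 x)] at h0
  rw [hsum2, sum_eq_zero (fun x hx => by rw [h0 x hx]; simp), mul_zero]

theorem lemmaY {ι : Type*} (s : Finset ι) (u : ι → ZMod p) (m : ℕ) (hs : s.card < p ^ m)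
    (h : (1 - rt p) ^ ((p - 1) * m) ∣ ∑ a ∈ s, ch p (u a)) : ∑ a ∈ s, ch p (u a) = 0 := by
  classical
  set c : ZMod p → ℕ := fun x => (s.filter (fun a => u a = x)).card with hc
  have hsum : ∑ a ∈ s, ch p (u a) = ∑ x, ((c x : ℤ) : Cy p) * ch p x := by
    rw [← sum_fiberwise_of_maps_to (g := u) (t := univ) (fun _ _ => mem_univ _)]
    refine sum_congr rfl fun x _ => ?_
    rw [sum_congr rfl (g := fun _ => ch p x) (fun a ha => by rw [(mem_filter.1 ha).2])]
    simp [hc]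
  have hpm : ((p ^ m : ℤ) : Cy p) ∣ ∑ a ∈ s, ch p (u a) := by
    refine Dvd.dvd.trans ?_ h
    rw [pow_mul]
    push_cast
    exact pow_dvd_pow_of_dvd (assoc_p1 p).symm.dvd m
  have hd : ∀ x, (c x : ℤ) = c 0 := fun x => by
    have h1 := coeff_dvd (fun x => (c x : ℤ)) _ (hsum ▸ hpm) x 0
    have h2 : ∀ y, (c y : ℤ) < (p : ℤ) ^ m := fun y => by
      exact_mod_cast (card_filter_le _ _).trans_lt hs
    have := Int.eq_zero_of_abs_lt_dvd h1 (by
      have := h2 x
      have := h2 0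
      rw [abs_lt]; constructor <;> omega)
    omega
  simp_rw [hsum, hd]
  rw [← mul_sum, sum_ch, mul_zero]

end functional

end Pool.Agent.Lib.MP_2d211a_co
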