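import Mathlib

namespace Pool.Agent.Lib.MP_2d211a_co

/-- `R` is a semiregular relative difference set in `E` relative to the normal subgroup `N`:
with `w = |N|`, `v = |R|`, one has `|E| = v w`, `1 < w < |E|`, every element outside `N` is a
quotient in exactly `v / w` ways and no non-identity element of `N` is a quotient. -/
def IsSemiregularRDS {E : Type*} [Group E] (N : Subgroup E) (R : Set E) : Prop :=
  N.Normal ∧ 1 < Nat.card N ∧ Nat.card N < Nat.card E ∧ R.ncard * Nat.card N = Nat.card E ∧
    (∀ g : E, g ∉ N →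
      {q : E × E | q.1 ∈ R ∧ q.2 ∈ R ∧ q.1 * q.2⁻¹ = g}.ncard * Nat.card N = R.ncard) ∧
    (∀ g : E, g ∈ N → g ≠ 1 → ∀ a ∈ R, ∀ b ∈ R, a * b⁻¹ ≠ g)

/-- `E` contains a semiregular relative difference set relative to some normal subgroup. -/
def ContainsSemiregularRDS (E : Type*) [Group E] : Prop :=
  ∃ (N : Subgroup E) (R : Set E), IsSemiregularRDS N R

end Pool.Agent.Lib.MP_2d211a_co
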