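import Pool.Agent.Lib.MP_2d211a_co.Cyc

open Polynomial Finset

namespace Pool.Agent.Lib.MP_2d211a_co

variable (p : ℕ) [hp : Fact p.Prime]

/-- `kap p j z` is `ω^(z / p^j)` if `p^j ∣ z` and `0` otherwise. -/
noncomputable def kap (j : ℕ) (z : ℤ) : Cy p :=
  if (p : ℤ) ^ j ∣ z then ch p ((z / (p : ℤ) ^ j : ℤ) : ZMod p) else 0

theorem pj_ne (j : ℕ) : (p : ℤ) ^ j ≠ 0 := pow_ne_zero _ (Nat.cast_ne_zero.2 hp.out.ne_zero)

theorem kap_add (j : ℕ) (z a : ℤ) :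
    kap p j (z + (p : ℤ) ^ j * a) = kap p j z * ch p (a : ZMod p) := by
  unfold kap
  by_cases h : (p : ℤ) ^ j ∣ z
  · rw [if_pos h, if_pos (dvd_add h (Dvd.intro _ rfl)), Int.add_mul_ediv_left _ _ (pj_ne p j),
      Int.cast_add, AddChar.map_add_eq_mul]
  · rw [if_neg h, if_neg, zero_mul]
    intro h'
    exact h ((dvd_add_left (Dvd.intro _ rfl)).1 h')

theorem kap_mul (j : ℕ) (z : ℤ) : kap p (j + 1) (p * z) = kap p j z := by
  have hp0 : (p : ℤ) ≠ 0 := Nat.cast_ne_zero.2 hp.out.ne_zero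
  unfold kap
  by_cases h : (p : ℤ) ^ j ∣ z
  · obtain ⟨c, rfl⟩ := h
    rw [if_pos (Dvd.intro _ rfl), if_pos ⟨c, by ring⟩, Int.mul_ediv_cancel_left _ (pj_ne p j),
      show (p : ℤ) * ((p : ℤ) ^ j * c) = (p : ℤ) ^ (j + 1) * c by ring,
      Int.mul_ediv_cancel_left _ (pj_ne p (j + 1))]
  · rw [if_neg h, if_neg]
    rw [pow_succ']
    intro h'
    exact h ((mul_dvd_mul_iff_left hp0).1 h')

section comp

variable {A : Type*} [AddCommGroup A]

/-- Linear functional on integer polynomials sending `X^n` to `g n`. -/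
noncomputable def Lg (g : ℕ → A) : ℤ[X] →ₗ[ℤ] A :=
  Polynomial.lsum fun n => LinearMap.toSpanSingleton ℤ A (g n)

theorem Lg_monomial (g : ℕ → A) (n : ℕ) (a : ℤ) : Lg g (monomial n a) = a • g n := by
  simp [Lg, Polynomial.lsum, sum_monomial_index]

theorem Lg_shift (j : ℕ) (x0 : ℤ) (B : ℤ[X]) :
    Lg (fun n => kap p j (n - x0)) (X ^ p ^ j * B) = rt p * Lg (fun n => kap p j (n - x0)) B := by
  induction B using Polynomial.induction_on' with
  | add P Q hP hQ => rw [mul_add, map_add, map_add, hP, hQ, mul_add]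
  | monomial n a =>
    rw [X_pow_mul_monomial, Lg_monomial, Lg_monomial]
    have : (((n + p ^ j : ℕ) : ℤ) - x0) = (n - x0) + (p : ℤ) ^ j * 1 := by push_cast; ring
    rw [this, kap_add, Int.cast_one, ← Nat.cast_one (R := ZMod p), ch_nat]
    simp only [zsmul_eq_mul]; ring

theorem Lg_shift_pow (j : ℕ) (x0 : ℤ) (i : ℕ) (B : ℤ[X]) :
    Lg (fun n => kap p j (n - x0)) ((X ^ p ^ j) ^ i * B) =
      rt p ^ i * Lg (fun n => kap p j (n - x0)) B := by
  induction i with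
  | zero => simp
  | succ i ih => rw [pow_succ', mul_assoc, Lg_shift, ih]; ring

theorem Lg_cyc (j : ℕ) (x0 : ℤ) (B : ℤ[X]) :
    Lg (fun n => kap p j (n - x0)) (cyclotomic (p ^ (j + 1)) ℤ * B) = 0 := by
  rw [cyclotomic_prime_pow_eq_geom_sum hp.out, sum_mul, map_sum]
  simp_rw [Lg_shift_pow]
  rw [← sum_mul, (rt_prim p).geom_sum_eq_zero hp.out.one_lt, zero_mul]

/-- The component map. -/
noncomputable def cp (j : ℕ) (x0 : ℤ) : Cy (p ^ (j + 1)) →ₗ[ℤ] Cy p :=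
  Lg (fun n => kap p j (n - x0)) ∘ₗ AdjoinRoot.modByMonicHom (cyclotomic.monic _ ℤ)

theorem cp_mk (j : ℕ) (x0 : ℤ) (B : ℤ[X]) :
    cp p j x0 (AdjoinRoot.mk _ B) = Lg (fun n => kap p j (n - x0)) B := by
  rw [cp, LinearMap.comp_apply, AdjoinRoot.modByMonicHom_mk]
  conv_rhs => rw [← modByMonic_add_div B (cyclotomic (p ^ (j + 1)) ℤ), map_add, Lg_cyc, add_zero]

theorem cp_ch (j : ℕ) (x0 u : ℤ) :
    cp p j x0 (ch (p ^ (j + 1)) (u : ZMod (p ^ (j + 1)))) = kap p j (u - x0) := by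
  rw [ch_apply, ← mk_X_pow, cp_mk, ← monomial_one_right_eq_X_pow, Lg_monomial, one_smul]
  have h : ((p ^ (j + 1) : ℕ) : ℤ) ∣ u - ((u : ZMod (p ^ (j + 1))).val : ℤ) := by
    rw [← ZMod.intCast_zmod_eq_zero_iff_dvd]; simp
  obtain ⟨c, hc⟩ := h
  have : u - x0 = (((u : ZMod (p ^ (j + 1))).val : ℤ) - x0) + (p : ℤ) ^ j * (p * c) := by
    push_cast at hc; linear_combination hc
  rw [this, kap_add]
  simp

theorem cp_pi (j : ℕ) (x0 : ℤ) (M : ℕ) (w : Cy (p ^ (j + 1))) :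
    cp p j x0 ((1 - rt (p ^ (j + 1)) ^ p ^ j) ^ M * w) = (1 - rt p) ^ M * cp p j x0 w := by
  induction M with
  | zero => simp
  | succ M ih =>
    obtain ⟨B, hB⟩ := AdjoinRoot.mk_surjective ((1 - rt (p ^ (j + 1)) ^ p ^ j) ^ M * w)
    have : (1 - rt (p ^ (j + 1)) ^ p ^ j) ^ (M + 1) * w =
        AdjoinRoot.mk (cyclotomic (p ^ (j + 1)) ℤ) (B - X ^ p ^ j * B) := by
      rw [map_sub, map_mul, mk_X_pow, hB]; ring
    rw [this, cp_mk, map_sub, Lg_shift, ← cp_mk, hB, ih]; ring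

end comp

section val

variable (j : ℕ)

/-- Reduction modulo the prime above `p`. -/
noncomputable def ev : Cy (p ^ (j + 1)) →+* ZMod p :=
  AdjoinRoot.lift (Int.castRingHom (ZMod p)) 1 (by simp)

theorem ev_rt : ev p j (rt _) = 1 := by simp [ev, rt]

theorem lam_dvd_iff (w : Cy (p ^ (j + 1))) : (1 - rt (p ^ (j + 1))) ∣ w ↔ ev p j w = 0 := by
  constructor
  · rintro ⟨c, rfl⟩
    rw [map_mul, map_sub, ev_rt, map_one, sub_self, zero_mul]
  · intro h
    obtain ⟨B, rfl⟩ := AdjoinRoot.mk_surjective w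
    rw [ev, AdjoinRoot.lift_mk, eval₂_at_one, eq_intCast, ZMod.intCast_zmod_eq_zero_iff_dvd] at h
    obtain ⟨c, hc⟩ := h
    obtain ⟨D, hD⟩ := X_sub_C_dvd_sub_C_eval (p := B) (a := 1)
    have hB : B = (X - C 1) * D + C (p * c : ℤ) := by rw [← hc, ← hD]; ring
    have hl : (1 - rt (p ^ (j + 1))) ∣ (p : Cy (p ^ (j + 1))) := by
      refine Dvd.dvd.trans (dvd_pow_self _ ?_) (assoc_p p j).dvd
      have := hp.out.two_le
      exact Nat.mul_ne_zero (pow_ne_zero _ (by omega)) (by omega)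
    rw [hB, map_add, map_mul, map_sub]
    refine dvd_add (Dvd.dvd.mul_right ?_ _) ?_
    · rw [← dvd_neg]; simp [rt]
    · simp only [map_mul, map_natCast, eq_intCast, map_intCast]
      exact hl.mul_right _

theorem lam_prime : Prime (1 - rt (p ^ (j + 1))) := by
  refine ⟨?_, ?_, ?_⟩
  · have h1 : 1 < p ^ (j + 1) := Nat.one_lt_pow (by omega) hp.out.one_lt
    exact sub_ne_zero.2 ((rt_prim _).ne_one h1).symm
  · intro h
    have := (lam_dvd_iff p j 1).1 h.dvd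
    simp at this
  · intro a b h
    rw [lam_dvd_iff, map_mul, mul_eq_zero] at h
    rw [lam_dvd_iff, lam_dvd_iff]; exact h

theorem cop_pred : (p ^ (j + 1) - 1).Coprime (p ^ (j + 1)) := by
  have h1 : 1 ≤ p ^ (j + 1) := Nat.one_le_pow _ _ hp.out.pos
  exact (Nat.coprime_self_sub_left h1).2 (Nat.coprime_one_left _)

/-- Complex conjugation. -/
noncomputable def cj : Cy (p ^ (j + 1)) →+* Cy (p ^ (j + 1)) :=
  AdjoinRoot.lift (Int.castRingHom _) (rt (p ^ (j + 1)) ^ (p ^ (j + 1) - 1)) (by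
    rw [← eval_map, map_cyclotomic]
    exact ((rt_prim _).pow_of_coprime _ (cop_pred p j)).isRoot_cyclotomic (NeZero.pos _))

theorem cj_rt : cj p j (rt _) = rt (p ^ (j + 1)) ^ (p ^ (j + 1) - 1) := by simp [cj, rt]

theorem cj_ch (a : ZMod (p ^ (j + 1))) : cj p j (ch _ a) = ch _ (-a) := by
  have h1 : 1 ≤ p ^ (j + 1) := Nat.one_le_pow _ _ hp.out.pos
  rw [ch_apply, map_pow, cj_rt, ← pow_mul, ← ch_nat]
  congr 1
  rw [Nat.cast_mul, Nat.cast_sub h1, ZMod.natCast_self]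
  simp

theorem ev_cj (w : Cy (p ^ (j + 1))) : ev p j (cj p j w) = ev p j w := by
  obtain ⟨B, rfl⟩ := AdjoinRoot.mk_surjective w
  induction B using Polynomial.induction_on' with
  | add P Q hP hQ => simp only [map_add, hP, hQ]
  | monomial n a =>
    rw [← C_mul_X_pow_eq_monomial, map_mul, mk_X_pow]
    simp only [eq_intCast, map_intCast, map_mul, map_pow, cj_rt, ev_rt, one_pow]

theorem lam_pow_dvd (a : Cy (p ^ (j + 1))) (n : ℕ) (h : a * cj p j a = (p : Cy (p ^ (j + 1))) ^ n)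
    (i : ℕ) (hi : 2 * i ≤ p ^ j * (p - 1) * n) : (1 - rt (p ^ (j + 1))) ^ i ∣ a := by
  induction i with
  | zero => simp
  | succ i ih =>
    obtain ⟨b, rfl⟩ := ih (by omega)
    have has : Associated (1 - rt (p ^ (j + 1))) (cj p j (1 - rt (p ^ (j + 1)))) := by
      rw [map_sub, map_one, cj_rt]
      simpa using ((rt_prim _).associated_sub_one_pow_sub_one_of_coprime (cop_pred p j)).neg_neg
    obtain ⟨v, hv⟩ := has
    have h1 : (1 - rt (p ^ (j + 1))) ^ (2 * i + 1) ∣ (p : Cy (p ^ (j + 1))) ^ n := by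
      refine Dvd.dvd.trans (pow_dvd_pow _ (by omega : 2 * i + 1 ≤ p ^ j * (p - 1) * n)) ?_
      rw [pow_mul]
      exact pow_dvd_pow_of_dvd (assoc_p p j).dvd n
    rw [← h, map_mul, map_pow, ← hv] at h1
    have h2 : (1 - rt (p ^ (j + 1))) ^ i * b *
        (((1 - rt (p ^ (j + 1))) * (v : Cy (p ^ (j + 1)))) ^ i * cj p j b) =
        (1 - rt (p ^ (j + 1))) ^ (2 * i) * ((v : Cy (p ^ (j + 1))) ^ i * (b * cj p j b)) := by
      generalize (1 - rt (p ^ (j + 1))) = l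
      rw [mul_pow]; ring
    rw [h2, pow_succ (1 - rt (p ^ (j + 1))) (2 * i), mul_dvd_mul_iff_left (pow_ne_zero _ (lam_prime p j).ne_zero),
      ← Units.val_pow_eq_pow_val, Units.dvd_mul_left] at h1
    have h3 : (1 - rt (p ^ (j + 1))) ∣ b := by
      rcases (lam_prime p j).dvd_or_dvd h1 with h | h
      · exact h
      · rwa [lam_dvd_iff, ev_cj, ← lam_dvd_iff] at h
    rw [pow_succ (1 - rt (p ^ (j + 1))) i]
    exact mul_dvd_mul_left _ h3

theorem rt_pow_prim : IsPrimitiveRoot (rt (p ^ (j + 1)) ^ p ^ j) p :=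
  (rt_prim (p ^ (j + 1))).pow (NeZero.pos _) (pow_succ p j)

theorem pi_dvd_lam : (1 - rt (p ^ (j + 1)) ^ p ^ j) ∣ (1 - rt (p ^ (j + 1))) ^ p ^ j := by
  by_cases h2 : p = 2
  · subst h2
    rw [(rt_pow_prim 2 j).eq_neg_one_of_two_right]
    simpa [one_add_one_eq_two] using (assoc_p 2 j).symm.dvd
  obtain ⟨r, hr⟩ := exists_add_pow_prime_pow_eq hp.out (1 : Cy (p ^ (j + 1)))
    (-rt (p ^ (j + 1))) j
  have hodd : Odd (p ^ j) := (hp.out.odd_of_ne_two h2).pow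
  rw [one_pow, hodd.neg_pow, ← sub_eq_add_neg, ← sub_eq_add_neg] at hr
  rw [hr]
  refine dvd_add dvd_rfl (Dvd.dvd.mul_right (Dvd.dvd.mul_right (Dvd.dvd.mul_right ?_ _) _) _)
  rw [← neg_dvd, neg_sub]
  exact (rt_pow_prim p j).sub_one_dvd_natCast hp.out.one_lt

/-- The embedding of level `p` into level `p^(j+1)`. -/
noncomputable def emb : Cy p →+* Cy (p ^ (j + 1)) :=
  AdjoinRoot.lift (Int.castRingHom _) (rt (p ^ (j + 1)) ^ p ^ j) (by
    rw [← eval_map, map_cyclotomic]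
    exact (rt_pow_prim p j).isRoot_cyclotomic hp.out.pos)

theorem emb_ch (a : ℤ) :
    emb p j (ch p (a : ZMod p)) = ch (p ^ (j + 1)) (((p : ℤ) ^ j * a : ℤ) : ZMod (p ^ (j + 1))) := by
  have h1 : emb p j (rt p) = rt (p ^ (j + 1)) ^ p ^ j := by simp [emb, rt]
  rw [ch_apply, map_pow, h1, ← pow_mul, ← ch_nat]
  congr 1
  rw [← Int.cast_natCast, ZMod.intCast_eq_intCast_iff_dvd_sub]
  have h : (p : ℤ) ∣ a - ((a : ZMod p).val : ℤ) := by
    rw [← ZMod.intCast_zmod_eq_zero_iff_dvd]; simp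
  obtain ⟨c, hc⟩ := h
  exact ⟨c, by push_cast at hc ⊢; linear_combination (p : ℤ) ^ j * hc⟩

theorem ch_decomp (u : ℤ) : ch (p ^ (j + 1)) (u : ZMod (p ^ (j + 1))) =
    ∑ x ∈ range (p ^ j), rt (p ^ (j + 1)) ^ x * emb p j (kap p j (u - x)) := by
  have hq : (0 : ℤ) < (p : ℤ) ^ j := by have := hp.out.pos; positivity
  have h0 := Int.emod_nonneg u hq.ne'
  have h1 := Int.emod_lt_of_pos u hq
  obtain ⟨x, hx⟩ := Int.eq_ofNat_of_zero_le h0
  have hu : u - x = 0 + (p : ℤ) ^ j * (u / (p : ℤ) ^ j) := by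
    rw [← hx]; have := Int.emod_add_mul_ediv u ((p : ℤ) ^ j); linarith
  rw [sum_eq_single x]
  · rw [hu, kap_add, map_mul, emb_ch, ← ch_nat]
    have : kap p j 0 = 1 := by simp [kap]
    rw [this, map_one, one_mul, ← AddChar.map_add_eq_mul]
    congr 1
    rw [← Int.cast_natCast, ← Int.cast_add]
    congr 1
    linarith
  · intro y hy hne
    rw [kap, if_neg, map_zero, mul_zero]
    intro hd
    apply hne
    have hy' : (y : ℤ) < (p : ℤ) ^ j := by exact_mod_cast mem_range.1 hy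
    have h2 : (p : ℤ) ^ j ∣ (x : ℤ) - y := by
      have : (x : ℤ) - y = (u - y) - (p : ℤ) ^ j * (u / (p : ℤ) ^ j) := by linarith
      rw [this]; exact dvd_sub hd (Dvd.intro _ rfl)
    have h3 := Int.eq_zero_of_abs_lt_dvd h2 (by rw [abs_lt]; constructor <;> omega)
    omega
  · intro hx'
    exfalso; apply hx'
    rw [mem_range]
    have : (x : ℤ) < (p : ℤ) ^ j := hx ▸ h1
    exact_mod_cast this

/-- Descent of divisibility from a character sum to its components. -/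
theorem descent {ι : Type*} (s : Finset ι) (u : ι → ℤ) (n : ℕ)
    (h : (∑ g ∈ s, ch (p ^ (j + 1)) (u g : ZMod (p ^ (j + 1)))) *
      (∑ g ∈ s, ch (p ^ (j + 1)) (-(u g : ZMod (p ^ (j + 1))))) = (p : Cy (p ^ (j + 1))) ^ n) :
    (∀ M, 2 * M ≤ (p - 1) * n → ∀ x0 : ℤ, (1 - rt p) ^ M ∣ ∑ g ∈ s, kap p j (u g - x0)) ∧
      ∃ x0 : ℤ, ∑ g ∈ s, kap p j (u g - x0) ≠ 0 := by
  constructor
  · intro M hM x0
    have h1 : cj p j (∑ g ∈ s, ch (p ^ (j + 1)) (u g : ZMod (p ^ (j + 1)))) =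
        ∑ g ∈ s, ch (p ^ (j + 1)) (-(u g : ZMod (p ^ (j + 1)))) := by
      rw [map_sum]; exact sum_congr rfl fun g _ => cj_ch p j _
    rw [← h1] at h
    have h2 := lam_pow_dvd p j _ n h (p ^ j * M) (by
      calc 2 * (p ^ j * M) = p ^ j * (2 * M) := by ring
        _ ≤ p ^ j * ((p - 1) * n) := Nat.mul_le_mul_left _ hM
        _ = _ := by ring)
    rw [pow_mul] at h2
    obtain ⟨w, hw⟩ := (pow_dvd_pow_of_dvd (pi_dvd_lam p j) M).trans h2
    have h3 := congrArg (cp p j x0) hw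
    rw [cp_pi, map_sum] at h3
    simp_rw [cp_ch] at h3
    exact ⟨_, h3⟩
  · by_contra hne
    push Not at hne
    have h0 : ∑ g ∈ s, ch (p ^ (j + 1)) (u g : ZMod (p ^ (j + 1))) = 0 := by
      simp_rw [ch_decomp]
      rw [sum_comm]
      refine sum_eq_zero fun x _ => ?_
      rw [← mul_sum, ← map_sum, hne, map_zero, mul_zero]
    rw [h0, zero_mul] at h
    exact pow_ne_zero n (Nat.cast_ne_zero.2 hp.out.ne_zero) h.symm

end val

end Pool.Agent.Lib.MP_2d211a_co
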