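import Pool.Agent.Lib.MP_2d211a_co.PGrp
import Pool.Agent.Lib.MP_2d211a_co.Core

open Finset

namespace Pool.Agent.Lib.MP_2d211a_co

section count

variable {G : Type*} [AddCommGroup G] [DecidableEq G] [Fintype G] {N : AddSubgroup G}
  {R : Finset G}

open Classical in
/-- Number of points of `R` in the coset `x + H`. -/
noncomputable def cnt (R : Finset G) (H : AddSubgroup G) (x : G) : ℕ :=
  (R.filter fun r => r - x ∈ H).card

omit [DecidableEq G] [Fintype G] in
theorem cnt_mono (R : Finset G) {H H' : AddSubgroup G} (h : H ≤ H') (x : G) :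
    cnt R H x ≤ cnt R H' x := by
  classical
  exact card_le_card (monotone_filter_right _ fun r _ hr => h hr)

omit [DecidableEq G] [Fintype G] in
theorem cnt_congr (R : Finset G) {H : AddSubgroup G} {x y : G} (h : x - y ∈ H) :
    cnt R H x = cnt R H y := by
  classical
  unfold cnt
  congr 1
  refine filter_congr fun r _ => ⟨fun h' => ?_, fun h' => ?_⟩
  · simpa using H.add_mem h' h
  · simpa using H.sub_mem h' h

theorem ARDS.cnt_le (h : ARDS N R) (H : AddSubgroup G) (x : G) :
    cnt R H x ≤ Nat.card (H.map (QuotientAddGroup.mk' N)) := by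
  classical
  rw [cnt, ← Fintype.card_coe, ← Nat.card_eq_fintype_card]
  refine Nat.card_le_card_of_injective
    (fun r => ⟨QuotientAddGroup.mk (r.1 - x), _, (mem_filter.1 r.2).2, rfl⟩) fun r r' hr => ?_
  have h1 := QuotientAddGroup.eq_iff_sub_mem.1 (congrArg Subtype.val hr)
  exact Subtype.ext (h.inn _ (mem_filter.1 r.2).1 _ (mem_filter.1 r'.2).1 (by simpa using h1))

theorem ARDS.pairs (h : ARDS N R) (H : AddSubgroup G) :
    H.index * ∑ r ∈ R, cnt R H r ≤ H.index * R.card + R.card ^ 2 := by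
  classical
  have hw : 0 < Nat.card N := by have := h.one_lt; omega
  have e1 : ∑ r ∈ R, cnt R H r =
      ∑ g with g ∈ H, ((R ×ˢ R).filter fun q => q.1 - q.2 = g).card := by
    have a1 := card_eq_sum_card_fiberwise (s := (R ×ˢ R).filter fun q => q.1 - q.2 ∈ H)
      (t := univ.filter fun g => g ∈ H) (f := fun q => q.1 - q.2)
      (fun q hq => by simpa using (mem_filter.1 hq).2)
    have a2 := card_eq_sum_card_fiberwise (s := (R ×ˢ R).filter fun q => q.1 - q.2 ∈ H)
      (t := R) (f := fun q => q.2) (fun q hq => (mem_product.1 (mem_filter.1 hq).1).2)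
    refine Eq.trans (Eq.trans ?_ (a2.symm.trans a1)) ?_
    · refine sum_congr rfl fun r hr => ?_
      refine card_bij' (fun x _ => (x, r)) (fun q _ => q.1) ?_ ?_ ?_ ?_
      · intro x hx; simpa [hr] using hx
      · intro q hq
        simp only [mem_filter, mem_product] at hq ⊢
        exact ⟨hq.1.1.1, hq.2 ▸ hq.1.2⟩
      · intro _ _; rfl
      · intro q hq; exact Prod.ext rfl (mem_filter.1 hq).2.symm
    · refine sum_congr rfl fun g hg => ?_
      rw [filter_filter]
      congr 1
      exact filter_congr fun q _ => ⟨fun h => h.2, fun h => ⟨h ▸ (mem_filter.1 hg).2, h⟩⟩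
  have e2 : ∀ g, ((R ×ˢ R).filter fun q => q.1 - q.2 = g).card * Nat.card N ≤
      (if g = 0 then R.card * Nat.card N else 0) + R.card := by
    intro g
    by_cases hg : g ∈ N
    · by_cases h0 : g = 0
      · rw [if_pos h0]
        refine le_add_right (Nat.mul_le_mul_right _ (card_le_card_of_injOn (fun q => q.1)
          (fun q hq => (mem_product.1 (mem_filter.1 hq).1).1) fun q hq q' hq' hqq => ?_))
        have a1 := sub_eq_zero.1 ((mem_filter.1 hq).2.trans h0)
        have a2 := sub_eq_zero.1 ((mem_filter.1 hq').2.trans h0)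
        exact Prod.ext hqq (by rw [← a1, ← a2]; exact hqq)
      · rw [filter_eq_empty_iff.2, card_empty, zero_mul]
        · exact Nat.zero_le _
        · intro q hq hqg
          obtain ⟨q1, q2⟩ := mem_product.1 hq
          exact h0 (by rw [← hqg, h.inn _ q1 _ q2 (hqg ▸ hg), sub_self])
    · rw [h.out g hg]; exact le_add_self
  have e3 : (∑ r ∈ R, cnt R H r) * Nat.card N ≤ R.card * Nat.card N + Nat.card H * R.card := by
    rw [e1, sum_mul]
    refine (sum_le_sum fun g _ => e2 g).trans (le_of_eq ?_)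
    rw [sum_add_distrib, sum_ite_eq', if_pos (by simp), sum_const, smul_eq_mul,
      Nat.card_eq_fintype_card (α := H), Fintype.card_subtype]
  refine Nat.le_of_mul_le_mul_right ?_ hw
  have e4 := H.card_mul_index
  rw [← h.card] at e4
  calc H.index * (∑ r ∈ R, cnt R H r) * Nat.card N
      ≤ H.index * (R.card * Nat.card N + Nat.card H * R.card) := by
        rw [mul_assoc]; exact Nat.mul_le_mul_left _ e3
    _ = H.index * R.card * Nat.card N + (Nat.card H * H.index) * R.card := by ring
    _ = _ := by rw [e4]; ring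

theorem ARDS.energy (h : ARDS N R) (H : AddSubgroup G) :
    ∃ c : G ⧸ H → ℕ, (∀ x : G, c (QuotientAddGroup.mk x) = cnt R H x) ∧
      ∀ T : Finset (G ⧸ H), ∑ q ∈ T, ((H.index : ℤ) * c q - R.card) ^ 2 ≤ H.index ^ 2 * R.card := by
  classical
  have := Fintype.ofFinite (G ⧸ H)
  set c : G ⧸ H → ℕ := fun q => (R.filter fun r => QuotientAddGroup.mk r = q).card with hc
  have hc1 : ∀ x : G, c (QuotientAddGroup.mk x) = cnt R H x := fun x => by
    simp only [hc, cnt, QuotientAddGroup.eq_iff_sub_mem]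
  refine ⟨c, hc1, fun T => ?_⟩
  have e1 : ∑ q, c q = R.card := (card_eq_sum_card_fiberwise fun _ _ => mem_univ _).symm
  have e2 : ∑ q, c q ^ 2 = ∑ r ∈ R, cnt R H r := by
    rw [← sum_fiberwise_of_maps_to (s := R) (t := univ) (g := (QuotientAddGroup.mk : G → G ⧸ H))
      (fun _ _ => mem_univ _)]
    refine sum_congr rfl fun q _ => ?_
    rw [sum_congr rfl (g := fun _ => c q) fun r hr => by rw [← hc1, (mem_filter.1 hr).2]]
    simp [hc, sq]
  have e3 := h.pairs H
  rw [← e2] at e3
  have e4 : (Fintype.card (G ⧸ H) : ℤ) = H.index := by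
    rw [AddSubgroup.index_eq_card, Nat.card_eq_fintype_card]
  refine (sum_le_sum_of_subset_of_nonneg (subset_univ T) fun _ _ _ => sq_nonneg _).trans ?_
  have e5 : ∑ q, ((H.index : ℤ) * c q - R.card) ^ 2 =
      H.index * (H.index * ∑ q, (c q : ℤ) ^ 2) - 2 * H.index * R.card * ∑ q, (c q : ℤ) +
        H.index * R.card ^ 2 := by
    simp_rw [sub_sq, sum_add_distrib, sum_sub_distrib, mul_sum]
    rw [sum_const, card_univ, nsmul_eq_mul, e4]
    congr 2 <;> exact sum_congr rfl fun _ _ => by ring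
  have e6 : (H.index : ℤ) * ∑ q, (c q : ℤ) ^ 2 ≤ H.index * R.card + R.card ^ 2 := by
    exact_mod_cast e3
  have e7 : ∑ q, (c q : ℤ) = R.card := by exact_mod_cast e1
  rw [e5, e7]
  nlinarith [Int.natCast_nonneg H.index]

theorem ARDS.heavy_le (h : ARDS N R) (H : AddSubgroup G) (B t : ℕ)
    (hB : (t + 1) * R.card ≤ H.index * B) :
    t ^ 2 * B * (R.filter fun r => B ≤ cnt R H r).card ≤ (t + 1) ^ 2 * R.card := by
  classical
  have := Fintype.ofFinite (G ⧸ H)
  obtain ⟨c, c1, c2⟩ := h.energy H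
  have hm : (0 : ℤ) < H.index := by exact_mod_cast Nat.pos_of_ne_zero H.index_ne_zero_of_finite
  have e1 : (R.filter fun r => B ≤ cnt R H r).card ≤ ∑ q with B ≤ c q, c q := by
    rw [card_eq_sum_card_fiberwise (f := QuotientAddGroup.mk) (t := univ.filter fun q => B ≤ c q)
      (fun r hr => by simpa [c1] using (mem_filter.1 hr).2)]
    refine sum_le_sum fun q _ => ?_
    obtain ⟨x, rfl⟩ := QuotientAddGroup.mk_surjective q
    rw [c1, cnt]
    refine card_le_card fun r hr => ?_
    obtain ⟨a1, a2⟩ := mem_filter.1 hr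
    exact mem_filter.2 ⟨(mem_filter.1 a1).1, QuotientAddGroup.eq_iff_sub_mem.1 a2⟩
  have e2 : (H.index : ℤ) ^ 2 * (t ^ 2 * B * ∑ q with B ≤ c q, (c q : ℤ)) ≤
      H.index ^ 2 * ((t + 1) ^ 2 * R.card) := by
    have := c2 (univ.filter fun q => B ≤ c q)
    rw [mul_left_comm _ (((t : ℤ) + 1) ^ 2)]
    refine le_trans ?_ (mul_le_mul_of_nonneg_left this (by positivity))
    rw [mul_sum, mul_sum, mul_sum]
    refine sum_le_sum fun q hq => ?_
    have a1 : (B : ℤ) ≤ c q := by exact_mod_cast (mem_filter.1 hq).2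
    have a2 : ((t + 1) * R.card : ℤ) ≤ H.index * B := by exact_mod_cast hB
    have a3 : (0 : ℤ) ≤ H.index * B := by positivity
    have a4 : (H.index : ℤ) * B ≤ H.index * c q := mul_le_mul_of_nonneg_left a1 hm.le
    have a5 : (0 : ℤ) ≤ R.card := by positivity
    generalize (R.card : ℤ) = v at *
    have a6 : (H.index : ℤ) ^ 2 * (t ^ 2 * B * c q) = t ^ 2 * (H.index * B) * (H.index * c q) := by
      ring
    rw [a6]
    generalize (H.index : ℤ) * B = X at *
    generalize (H.index : ℤ) * c q = Y at *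
    have a7 : (0 : ℤ) ≤ t * Y := mul_nonneg (Int.natCast_nonneg t) (a3.trans a4)
    calc (t : ℤ) ^ 2 * X * Y ≤ t ^ 2 * Y * Y :=
          mul_le_mul_of_nonneg_right (mul_le_mul_of_nonneg_left a4 (sq_nonneg _)) (a3.trans a4)
      _ = (t * Y) ^ 2 := by ring
      _ ≤ ((t + 1) * (Y - v)) ^ 2 := pow_le_pow_left₀ a7 (by linarith) 2
      _ = _ := by ring
  have e3 := le_of_mul_le_mul_left e2 (by positivity)
  have e4 : t ^ 2 * B * ∑ q with B ≤ c q, c q ≤ (t + 1) ^ 2 * R.card := by exact_mod_cast e3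
  exact (Nat.mul_le_mul_left _ e1).trans e4

end count

end Pool.Agent.Lib.MP_2d211a_co
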