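import Pool.Agent.Lib.MP_2d211a_co.Expo

open Finset Polynomial

namespace Pool.Agent.Lib.MP_2d211a_co

variable {p : ℕ} [hp : Fact p.Prime]

theorem zmod_kill {e s t : ℕ} (h : s + t = e) (z : ℤ) :
    p ^ t • (z : ZMod (p ^ e)) = 0 ↔ (p : ℤ) ^ s ∣ z := by
  rw [nsmul_eq_mul, ← Int.cast_natCast, ← Int.cast_mul, ZMod.intCast_zmod_eq_zero_iff_dvd, ← h]
  push_cast
  rw [pow_add, mul_comm, mul_dvd_mul_iff_left (pj_ne p t)]

theorem zmod_kill' {e s t : ℕ} (h : s + t = e) (a : ZMod (p ^ e)) (ha : p ^ t • a = 0) :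
    ∃ m : ℤ, a = m • (p : ZMod (p ^ e)) ^ s := by
  obtain ⟨z, rfl⟩ := ZMod.intCast_surjective a
  obtain ⟨m, rfl⟩ := (zmod_kill h z).1 ha
  exact ⟨m, by simp [mul_comm]⟩

omit hp in
theorem zmod_nil (e : ℕ) : (p : ZMod (p ^ e)) ^ e = 0 := by
  rw [← Nat.cast_pow, ZMod.natCast_self]

theorem card_rg_zmod {e s t : ℕ} (h : s + t = e) : Nat.card (rg (ZMod (p ^ e)) (p ^ t)) = p ^ s := by
  have : rg (ZMod (p ^ e)) (p ^ t) = AddSubgroup.zmultiples ((p ^ t : ℕ) : ZMod (p ^ e)) := by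
    ext x
    constructor
    · rintro ⟨y, rfl⟩
      obtain ⟨z, rfl⟩ := ZMod.intCast_surjective y
      exact ⟨z, by simp [mul_comm]⟩
    · rintro ⟨z, rfl⟩
      exact ⟨z, by simp [mul_comm]⟩
  rw [this, Nat.card_zmultiples, ZMod.addOrderOf_coe _ (NeZero.ne _), ← h,
    Nat.gcd_eq_right (pow_dvd_pow _ (by omega)), pow_add, Nat.mul_div_cancel _ (pow_pos hp.out.pos _)]

/-- Embedding into the complex numbers. -/
noncomputable def toC (n : ℕ) [NeZero n] : Cy n →+* ℂ :=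
  AdjoinRoot.lift (Int.castRingHom _) (ZMod.stdAddChar (1 : ZMod n)) (by
    rw [← eval_map, map_cyclotomic]
    exact (std_prim n).isRoot_cyclotomic (NeZero.pos _))

theorem toC_ch (n : ℕ) [NeZero n] (a : ZMod n) : toC n (ch n a) = ZMod.stdAddChar a := by
  have : toC n (rt n) = ZMod.stdAddChar (1 : ZMod n) := by simp [toC, rt]
  rw [ch_apply, map_pow, this, ← std_nat, ZMod.natCast_zmod_val]

section

variable {G : Type*} [AddCommGroup G]

/-- Preimage of the subgroup of order `p^t`. -/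
def Ht {e : ℕ} (f : G →+ ZMod (p ^ e)) (t : ℕ) : AddSubgroup G :=
  (kr (ZMod (p ^ e)) (p ^ t)).comap f

omit hp in
theorem mem_Ht {e : ℕ} {f : G →+ ZMod (p ^ e)} {t : ℕ} {x : G} : x ∈ Ht f t ↔ p ^ t • f x = 0 :=
  Iff.rfl

theorem index_Ht {e s t : ℕ} (h : s + t = e) {f : G →+ ZMod (p ^ e)}
    (hf : Function.Surjective f) : (Ht f t).index = p ^ s := by
  rw [Ht, AddSubgroup.index_comap_of_surjective _ hf, kr, AddSubgroup.index_ker]
  exact card_rg_zmod h

theorem surj_of {j : ℕ} {f : G →+ ZMod (p ^ (j + 1))} {g : G} (h : p ^ j • f g ≠ 0) :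
    ∃ g1, f g1 = 1 := by
  obtain ⟨z, hz⟩ := ZMod.intCast_surjective (f g)
  rw [← hz, Ne, zmod_kill (s := 1) (by omega), pow_one] at h
  have hc : IsCoprime z ((p : ℤ) ^ (j + 1)) :=
    (((Nat.prime_iff_prime_int.1 hp.out).coprime_iff_not_dvd.2 h).symm).pow_right
  obtain ⟨a, b, hab⟩ := hc
  refine ⟨a • g, ?_⟩
  have := congrArg (Int.cast : ℤ → ZMod (p ^ (j + 1))) hab
  push_cast at this
  rw [zmod_nil, mul_zero, add_zero] at this
  rw [map_zsmul, ← hz, zsmul_eq_mul, this]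

theorem card_rg_le [Finite G] {n : ℕ} (hG : Nat.card G = p ^ n) (t : ℕ) :
    Nat.card (rg G (p ^ t)) = 1 ∨ p ^ t * Nat.card (rg G (p ^ t)) ≤ Nat.card G := by
  induction t with
  | zero => right; simp [rg_one]
  | succ t ih =>
    by_cases h : rg G (p ^ (t + 1)) = rg G (p ^ t)
    · left
      have h1 : ∀ k, rg G (p ^ (t + k)) = rg G (p ^ t) := by
        intro k
        induction k with
        | zero => rfl
        | succ k ih2 => rw [← add_assoc, ← rg_succ, ih2, rg_succ, h]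
      have h2 : rg G (p ^ (t + n)) = ⊥ := by
        rw [eq_bot_iff]
        rintro _ ⟨y, rfl⟩
        rw [nsmulAddMonoidHom_apply, pow_add, mul_smul, ← hG, card_nsmul_eq_zero', smul_zero]
        rfl
      rw [h, ← h1 n, h2, AddSubgroup.card_bot]
    · have h1 := card_mul_le_of_lt hp.out hG (lt_of_le_of_ne (rg_anti p (Nat.le_succ t)) h)
      have h2 : 0 < Nat.card (rg G (p ^ (t + 1))) := Nat.card_pos
      right
      rcases ih with ih | ih
      · have := hp.out.two_le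
        rw [ih] at h1
        nlinarith
      · rw [pow_succ, mul_assoc]
        exact (Nat.mul_le_mul_left _ h1).trans ih

variable [DecidableEq G] [Fintype G] {N : AddSubgroup G} {R : Finset G}

theorem ARDS.comp (h : ARDS N R) {a j m M : ℕ} (hv : R.card = p ^ a) (hm : 2 * M ≤ (p - 1) * a)
    (hZ : ∀ (s : Finset G) (u : G → ZMod p), s.card < p ^ (m + 1) →
      (1 - rt p) ^ M ∣ ∑ a ∈ s, ch p (u a) → ∑ a ∈ s, ch p (u a) = 0) (f : G →+ ZMod (p ^ (j + 1))) {ν : G} (hν : ν ∈ N)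
    (hf : f ν ≠ 0) :
    (∑ r ∈ R, ch _ (f r)) * (∑ r ∈ R, ch _ (-f r)) = (p : Cy (p ^ (j + 1))) ^ a ∧
    (∀ (x0 : ℤ) (r1 : G), (p : ℤ) ^ j ∣ (f r1).val - x0 → cnt R (Ht f 1) r1 < p ^ (m + 1) →
      ∑ r ∈ R, kap p j ((f r).val - x0) = 0) ∧ ∃ r1, p ^ (m + 1) ≤ cnt R (Ht f 1) r1 := by
  classical
  have e0 := h.char ((ch (p ^ (j + 1))).compAddMonoidHom f) hν (by
    rwa [AddChar.compAddMonoidHom_apply, Ne, ch_eq_one])
  simp only [AddChar.compAddMonoidHom_apply, map_neg, hv, Nat.cast_pow] at e0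
  obtain ⟨d1, x1, d2⟩ := descent p j R (fun r => ((f r).val : ℤ)) a (by simpa using e0)
  have key : ∀ (x0 : ℤ) (r1 : G), (p : ℤ) ^ j ∣ (f r1).val - x0 → cnt R (Ht f 1) r1 < p ^ (m + 1) →
      ∑ r ∈ R, kap p j ((f r).val - x0) = 0 := by
    intro x0 r1 h1 h2
    have := d1 _ hm x0
    rw [sum_kap] at this ⊢
    refine hZ _ _ (lt_of_le_of_lt (card_le_card fun r hr => ?_) h2) this
    obtain ⟨a1, a2⟩ := mem_filter.1 hr
    refine mem_filter.2 ⟨a1, ?_⟩
    have := (zmod_kill (e := j + 1) (t := 1) rfl _).2 (dvd_sub a2 h1)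
    rw [mem_Ht, map_sub]
    simpa using this
  refine ⟨e0, key, ?_⟩
  obtain ⟨r1, -, hr1⟩ := exists_ne_zero_of_sum_ne_zero d2
  refine ⟨r1, not_lt.1 fun hlt => d2 (key x1 r1 ?_ hlt)⟩
  by_contra hn
  exact hr1 (by rw [kap, if_neg hn])

theorem ARDS.localise (h : ARDS N R) {a j m M : ℕ} (hv : R.card = p ^ a) (hm : 2 * M ≤ (p - 1) * a)
    (hZ : ∀ (s : Finset G) (u : G → ZMod p), s.card < p ^ (m + 1) →
      (1 - rt p) ^ M ∣ ∑ a ∈ s, ch p (u a) → ∑ a ∈ s, ch p (u a) = 0) (f : G →+ ZMod (p ^ (j + 1))) {ν : G} (hν : ν ∈ N)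
    (hf : f ν ≠ 0) (H : AddSubgroup G) (hH : Ht f 1 ≤ H) :
    (∑ r ∈ R with p ^ (m + 1) ≤ cnt R H r, ZMod.stdAddChar (f r)) *
      (∑ r ∈ R with p ^ (m + 1) ≤ cnt R H r, ZMod.stdAddChar (-f r)) = (p : ℂ) ^ a := by
  obtain ⟨e0, key, -⟩ := h.comp hv hm hZ f hν hf
  have e1 : ∑ r ∈ R with ¬ p ^ (m + 1) ≤ cnt R H r, ch _ (f r) = 0 := by
    have : ∀ r, ch _ (f r) = ch _ ((((f r).val : ℤ)) : ZMod (p ^ (j + 1))) := fun r => by simp
    simp_rw [this, ch_decomp]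
    rw [sum_comm]
    refine sum_eq_zero fun x _ => ?_
    rw [← mul_sum, ← map_sum]
    suffices ∑ r ∈ R with ¬ p ^ (m + 1) ≤ cnt R H r, kap p j ((f r).val - x) = 0 by
      rw [this, map_zero, mul_zero]
    by_contra hne
    obtain ⟨r1, hr1, hr2⟩ := exists_ne_zero_of_sum_ne_zero hne
    have d1 : (p : ℤ) ^ j ∣ (f r1).val - x := by
      by_contra hn
      exact hr2 (by rw [kap, if_neg hn])
    have hlt := not_le.1 (mem_filter.1 hr1).2
    apply hne
    rw [← key x r1 d1 ((cnt_mono R hH r1).trans_lt hlt)]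
    refine sum_subset (filter_subset _ _) fun r hr hr3 => ?_
    rw [kap, if_neg]
    intro d2
    apply hr3
    refine mem_filter.2 ⟨hr, ?_⟩
    rw [cnt_congr R (y := r1) (hH ?_)]
    · exact not_le.2 hlt
    · have := (zmod_kill (e := j + 1) (t := 1) rfl _).2 (dvd_sub d2 d1)
      rw [mem_Ht, map_sub]
      simpa using this
  have e2 := congrArg (cj p j) e1
  rw [map_sum, map_zero] at e2
  simp_rw [cj_ch] at e2
  rw [← sum_filter_add_sum_filter_not R (fun r => p ^ (m + 1) ≤ cnt R H r), e1, add_zero,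
    ← sum_filter_add_sum_filter_not R (fun r => p ^ (m + 1) ≤ cnt R H r), e2, add_zero] at e0
  have e3 := congrArg (toC _) e0
  simpa only [map_mul, map_sum, toC_ch, map_pow, map_natCast] using e3

omit [DecidableEq G] in
theorem parseval_le (W : AddSubgroup G) (S : Finset G) (χ : AddChar G ℂ) (v : ℕ)
    (h : ∀ ψ : AddChar (G ⧸ W) ℂ, (∑ s ∈ S, χ s * ψ (QuotientAddGroup.mk s)) *
      (∑ s ∈ S, χ (-s) * ψ (-QuotientAddGroup.mk s)) = v) : v ≤ ∑ s ∈ S, cnt S W s := by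
  classical
  have := Fintype.ofFinite (G ⧸ W)
  have e1 : (Fintype.card (G ⧸ W) : ℂ) * v = Fintype.card (G ⧸ W) *
      ∑ s ∈ S, ∑ r ∈ S with r - s ∈ W, χ (r - s) := by
    rw [← AddChar.card_eq, ← card_univ, ← nsmul_eq_mul, ← sum_const,
      ← sum_congr rfl fun ψ _ => h ψ, card_univ, AddChar.card_eq]
    simp_rw [sum_mul_sum]
    rw [sum_comm, sum_congr rfl fun _ _ => sum_comm, sum_comm, mul_sum]
    refine sum_congr rfl fun s _ => ?_
    rw [sum_filter, mul_sum]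
    refine sum_congr rfl fun r _ => ?_
    simp_rw [mul_mul_mul_comm (χ r), ← AddChar.map_add_eq_mul]
    rw [← mul_sum, AddChar.sum_apply_eq_ite, ← sub_eq_add_neg, ← sub_eq_add_neg]
    simp only [sub_eq_zero, QuotientAddGroup.eq_iff_sub_mem]
    split_ifs <;> simp [mul_comm]
  have e2 := mul_left_cancel₀ (Nat.cast_ne_zero.2 Fintype.card_ne_zero) e1
  have e3 : (v : ℝ) ≤ ∑ s ∈ S, (cnt S W s : ℝ) := by
    rw [← Complex.norm_natCast, e2]
    refine (norm_sum_le _ _).trans (sum_le_sum fun s _ => (norm_sum_le _ _).trans ?_)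
    simp [cnt]
  exact_mod_cast e3

theorem ARDS.expo_odd (h : ARDS N R) (hp2 : 2 < p) {c j : ℕ} (hv : R.card = p ^ (2 * c + 1))
    (hj : c + 1 ≤ j) (f : G →+ ZMod (p ^ (j + 1))) (hs : Function.Surjective f) {ν : G}
    (hν : ν ∈ N) (hf : f ν ≠ 0) : False := by
  classical
  obtain ⟨-, -, r1, hr⟩ := h.comp hv (M := (p - 1) * c + 1) (by
    obtain ⟨q, rfl⟩ : ∃ q, p = q + 3 := ⟨p - 3, by omega⟩
    rw [show q + 3 - 1 = q + 2 by omega]; nlinarith) (fun s u => lemmaZ s u c hp2) f hν hf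
  obtain ⟨C, c1, c2⟩ := h.energy (Ht f 1)
  have e1 := c2 {QuotientAddGroup.mk r1}
  rw [sum_singleton, c1, index_Ht (s := j) rfl hs, hv] at e1
  obtain ⟨d, rfl⟩ := Nat.exists_eq_add_of_le hj
  push_cast at e1
  have e2 : (p : ℤ) ^ (c + 1) ≤ cnt R (Ht f 1) r1 := by exact_mod_cast hr
  have h3 : (3 : ℤ) ≤ p := by exact_mod_cast hp2
  generalize (cnt R (Ht f 1) r1 : ℤ) = Y at *
  have a1 : (1 : ℤ) ≤ p ^ d := one_le_pow₀ (by omega)
  have a2 : (0 : ℤ) < p ^ c := by positivity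
  have e3 : (p : ℤ) ^ (c + 1 + d) * (p ^ c * (p - 1)) ≤ p ^ (c + 1 + d) * Y - p ^ (2 * c + 1) := by
    have b1 : (p : ℤ) ^ (2 * c + 1) ≤ p ^ (c + 1 + d) * p ^ c := by
      rw [← pow_add]; exact pow_le_pow_right₀ (by omega) (by omega)
    have b2 : (p : ℤ) ^ (c + 1 + d) * p ^ (c + 1) ≤ p ^ (c + 1 + d) * Y :=
      mul_le_mul_of_nonneg_left e2 (by positivity)
    rw [pow_succ (p : ℤ) c] at b2
    linarith
  have e4 := (pow_le_pow_left₀ (by have : (0 : ℤ) ≤ p - 1 := by omega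
                                   positivity) e3 2).trans e1
  rw [mul_pow] at e4
  have e5 := le_of_mul_le_mul_left e4 (by positivity)
  rw [mul_pow, pow_succ (p : ℤ) (2 * c), mul_comm 2 c, pow_mul] at e5
  have e6 := le_of_mul_le_mul_left e5 (by positivity)
  nlinarith

theorem ARDS.expo_even (h : ARDS N R) {c j b : ℕ} (hv : R.card = p ^ (2 * (c + 1)))
    (hN : Nat.card N = p ^ b) (hj : 2 * (c + 1) + b ≤ 2 * j)
    (hp2 : 2 < p ∨ 2 * (c + 1) + b + 1 ≤ 2 * j) (he : ∀ x : G, p ^ (j + 1) • x = 0)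
    (f : G →+ ZMod (p ^ (j + 1))) {g1 : G} (hg : f g1 = 1) {ν : G}
    (hν : ν ∈ N) (hf : f ν ≠ 0) : False := by
  classical
  have h1 := hp.out.one_lt
  have hm : 2 * ((p - 1) * (c + 1)) ≤ (p - 1) * (2 * (c + 1)) := le_of_eq (by ring)
  have hZ := fun (s : Finset G) (u : G → ZMod p) => lemmaY s u (c + 1)
  have hs : Function.Surjective f := fun a => ⟨a.val • g1, by simp [hg]⟩
  have hG : Nat.card G = p ^ (2 * (c + 1) + b) := by rw [← h.card, hv, hN, pow_add]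
  obtain ⟨l, hl, hl2⟩ := sub_int (p := p) (j + 1) ((N.map f).comap (Int.castAddHom _))
    ⟨0, N.zero_mem, by simp [zmod_nil]⟩
  obtain ⟨i, hi⟩ := Nat.exists_eq_add_of_le hl
  obtain ⟨ν0, hν0, hν1⟩ := (hl2 _).2 dvd_rfl
  replace hν1 : f ν0 = (p : ZMod (p ^ (j + 1))) ^ l := by simpa using hν1
  have hmap : N.map f = rg (ZMod (p ^ (j + 1))) (p ^ l) := by
    ext x
    obtain ⟨z, rfl⟩ := ZMod.intCast_surjective x
    refine (hl2 z).trans ⟨?_, ?_⟩
    · rintro ⟨m, rfl⟩; exact ⟨m, by simp⟩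
    · rintro ⟨y, hy⟩
      rw [← zmod_kill hi.symm, ← hy, nsmulAddMonoidHom_apply, ← mul_smul, ← pow_add, add_comm i l,
        ← hi, nsmul_eq_mul, Nat.cast_pow, zmod_nil, zero_mul]
  have hNK : Nat.card (N ⊓ f.ker : AddSubgroup G) * p ^ i = p ^ b := by
    rw [← hN, ← card_map_mul f N, hmap, card_rg_zmod (s := i) (by omega)]
  obtain ⟨κ, -, hκ⟩ := card_sub_pow hp.out hG (N ⊓ f.ker)
  rw [hκ, ← pow_add, Nat.pow_right_inj h1] at hNK
  have hi1 : 1 ≤ i := by
    by_contra h0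
    have : f ν ∈ rg (ZMod (p ^ (j + 1))) (p ^ l) := hmap ▸ ⟨ν, hν, rfl⟩
    obtain ⟨y, hy⟩ := this
    apply hf
    rw [← hy, nsmulAddMonoidHom_apply, show l = j + 1 by omega, nsmul_eq_mul, Nat.cast_pow,
      zmod_nil, zero_mul]
  have hK : Nat.card f.ker * p ^ (j + 1) = p ^ (2 * (c + 1) + b) := by
    rw [← hG, ← card_ker_range f, AddMonoidHom.range_eq_top.2 hs]; simp
  obtain ⟨k, hk⟩ : ∃ k, Nat.card (f.ker.map (QuotientAddGroup.mk' N)) = p ^ k ∧
      k + j + 1 = 2 * (c + 1) + i := by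
    have e1 := card_map_mul (QuotientAddGroup.mk' N) f.ker
    rw [QuotientAddGroup.ker_mk', inf_comm, hκ] at e1
    obtain ⟨k, -, hk⟩ := card_sub_pow hp.out hG f.ker
    obtain ⟨k', -, hk'⟩ := (Nat.dvd_prime_pow hp.out).1 (hk ▸ Dvd.intro_left _ e1)
    rw [hk, ← pow_add, Nat.pow_right_inj h1] at hK
    rw [hk', hk, ← pow_add, Nat.pow_right_inj h1] at e1
    exact ⟨k', hk', by omega⟩
  have red : ∀ t s, t + s = i → ∀ w ∈ Ht f t, ∃ m : ℤ, w - m • p ^ s • ν0 ∈ f.ker := by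
    intro t s hts w hw
    obtain ⟨m, hm⟩ := zmod_kill' (s := l + s) (by omega) _ (mem_Ht.1 hw)
    refine ⟨m, ?_⟩
    rw [AddMonoidHom.mem_ker, map_sub, map_zsmul, map_nsmul, hν1, hm]
    simp only [zsmul_eq_mul, nsmul_eq_mul, Nat.cast_pow]
    ring
  have hi2 : 2 ≤ i := by
    obtain ⟨-, -, r1, hr⟩ := h.comp hv hm hZ f hν hf
    have e1 : (Ht f 1).map (QuotientAddGroup.mk' N) ≤ f.ker.map (QuotientAddGroup.mk' N) := by
      rintro _ ⟨w, hw, rfl⟩
      obtain ⟨m, hm⟩ := red 1 (i - 1) (by omega) w hw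
      refine ⟨_, hm, ?_⟩
      rw [QuotientAddGroup.mk'_apply, QuotientAddGroup.mk'_apply, QuotientAddGroup.eq_iff_sub_mem]
      simpa using N.zsmul_mem (N.nsmul_mem hν0 _) m
    have e2 := hr.trans ((h.cnt_le _ r1).trans (AddSubgroup.card_le_of_le e1))
    rw [hk.1, Nat.pow_le_pow_iff_right h1] at e2
    have := h.one_lt
    rw [hN, ← pow_zero p, Nat.pow_lt_pow_iff_right h1] at this
    omega
  obtain ⟨β, hβ1, hβ2⟩ : ∃ β, 2 * β ≤ i ∧ i ≤ 2 * β + 1 := ⟨i / 2, by omega, by omega⟩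
  set W := Ht f β ⊓ rg G (p ^ β) with hW
  set S := R.filter fun r => p ^ (c + 1) ≤ cnt R (Ht f β) r with hS
  have hSc : S.card < p ^ (c + 1) * p := by
    have hq := pow_pos hp.out.pos (c + 1)
    have key : ∀ t, (t + 1) * p ^ (c + 1) ≤ p ^ (j + 1 - β) →
        t ^ 2 * S.card ≤ (t + 1) ^ 2 * p ^ (c + 1) := fun t ht => by
      have := h.heavy_le (Ht f β) (p ^ (c + 1)) t (by
        rw [index_Ht (s := j + 1 - β) (by omega) hs, hv, two_mul, pow_add p (c + 1), ← mul_assoc]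
        exact Nat.mul_le_mul_right _ ht)
      rw [hv, two_mul, pow_add p (c + 1), ← hS] at this
      refine Nat.le_of_mul_le_mul_left (c := p ^ (c + 1)) ?_ hq
      linarith
    rcases hp2 with hp2 | hj2
    · have := key 2 ((Nat.mul_le_mul_right _ hp2).trans (by
        rw [← pow_succ']; exact Nat.pow_le_pow_right hp.out.pos (by omega)))
      nlinarith
    · have := key 3 ((Nat.mul_le_mul_right _ (show 4 ≤ p ^ 2 by nlinarith)).trans (by
        rw [← pow_add]; exact Nat.pow_le_pow_right hp.out.pos (by omega)))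
      nlinarith
  have hWc : Nat.card (W.map (QuotientAddGroup.mk' N)) ≤ p ^ c := by
    have e1 : W.map (QuotientAddGroup.mk' N) ≤
        (rg (f.ker.map (QuotientAddGroup.mk' N)) (p ^ β)).map (AddSubgroup.subtype _) := by
      rintro _ ⟨w, ⟨hw, x, hx⟩, rfl⟩
      obtain ⟨m, hm⟩ := red β (i - β) (by omega) w hw
      set y := x - m • p ^ (i - β - β) • ν0 with hy
      have e2 : p ^ β • y = w - m • p ^ (i - β) • ν0 := by
        rw [hy, smul_sub, ← hx, smul_comm, ← mul_smul (p ^ β), ← pow_add,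
          show β + (i - β - β) = i - β by omega]; rfl
      have e3 : p ^ β • (f y).val • g1 = 0 := by
        have : p ^ β • (((f y).val : ℤ) : ZMod (p ^ (j + 1))) = 0 := by
          rw [Int.cast_natCast, ZMod.natCast_zmod_val, ← map_nsmul, e2]; exact hm
        rw [zmod_kill (s := j + 1 - β) (by omega), ← Nat.cast_pow, Int.natCast_dvd_natCast] at this
        obtain ⟨t, ht⟩ := this
        rw [ht, ← mul_smul, ← mul_assoc, ← pow_add, show β + (j + 1 - β) = j + 1 by omega,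
          mul_smul, he]
      refine ⟨_, ⟨⟨_, y - (f y).val • g1, by simp [hg], rfl⟩, rfl⟩, ?_⟩
      change p ^ β • QuotientAddGroup.mk' N (y - (f y).val • g1) = _
      rw [← map_nsmul, smul_sub, e3, sub_zero, e2, QuotientAddGroup.mk'_apply,
        QuotientAddGroup.mk'_apply, QuotientAddGroup.eq_iff_sub_mem]
      simpa using N.zsmul_mem (N.nsmul_mem hν0 _) m
    refine (AddSubgroup.card_le_of_le e1).trans ?_
    rw [AddSubgroup.card_map_of_injective (AddSubgroup.subtype_injective _)]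
    rcases card_rg_le hk.1 β with e2 | e2
    · rw [e2]; exact Nat.one_le_pow _ _ hp.out.pos
    · refine Nat.le_of_mul_le_mul_left (e2.trans ?_) (pow_pos hp.out.pos _)
      rw [hk.1, ← pow_add]
      exact Nat.pow_le_pow_right hp.out.pos (by omega)
  have hpar := parseval_le W S (ZMod.stdAddChar.compAddMonoidHom f) (p ^ (2 * (c + 1))) (by
    intro ψ
    obtain ⟨φ, hφ⟩ := char_log (p ^ (j + 1)) (ψ.compAddMonoidHom (QuotientAddGroup.mk' W))
      (fun x => by rw [← AddChar.map_nsmul_eq_pow, he, AddChar.map_zero_eq_one])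
    have φW : ∀ w ∈ W, φ w = 0 := fun w hw => by
      have := hφ w
      rw [AddChar.compAddMonoidHom_apply, QuotientAddGroup.mk'_apply,
        (QuotientAddGroup.eq_zero_iff _).2 hw, AddChar.map_zero_eq_one,
        ← (ZMod.stdAddChar (N := p ^ (j + 1))).map_zero_eq_one] at this
      exact (ZMod.injective_stdAddChar this).symm
    have fν : f (p ^ (i - 1) • ν0) = (((p : ℤ) ^ j : ℤ) : ZMod (p ^ (j + 1))) := by
      rw [map_nsmul, hν1, nsmul_eq_mul, Nat.cast_pow, ← pow_add, show i - 1 + l = j by omega]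
      simp
    have := h.localise hv hm hZ (f + φ) (N.nsmul_mem hν0 (p ^ (i - 1))) (by
      rw [AddMonoidHom.add_apply, φW, add_zero, fν, Ne, ZMod.intCast_zmod_eq_zero_iff_dvd,
        ← Nat.cast_pow, Int.natCast_dvd_natCast, Nat.pow_dvd_pow_iff_le_right h1]
      · omega
      · refine AddSubgroup.mem_inf.2 ⟨?_, p ^ (i - 1 - β) • ν0, ?_⟩
        · rw [mem_Ht, fν, zmod_kill (s := j + 1 - β) (by omega)]
          exact pow_dvd_pow _ (by omega)
        · rw [nsmulAddMonoidHom_apply, ← mul_smul, ← pow_add, show β + (i - 1 - β) = i - 1 by omega])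
      (Ht f β) (by
      intro x hx
      rw [mem_Ht, pow_one, AddMonoidHom.add_apply] at hx
      obtain ⟨m, hm⟩ := zmod_kill' (s := β) (t := j + 1 - β) (by omega) (φ g1) (by
        rw [← map_nsmul]
        refine φW _ (AddSubgroup.mem_inf.2 ⟨?_, p ^ (j + 1 - β - β) • g1, ?_⟩)
        · rw [mem_Ht, ← map_nsmul, ← mul_smul, ← pow_add,
            show β + (j + 1 - β) = j + 1 by omega, he, map_zero]
        · rw [nsmulAddMonoidHom_apply, ← mul_smul, ← pow_add,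
            show β + (j + 1 - β - β) = j + 1 - β by omega])
      have e1 : φ (p ^ β • (x - (f x).val • g1)) = 0 := φW _ (AddSubgroup.mem_inf.2 ⟨by
        rw [mem_Ht]; simp [hg], _, rfl⟩)
      have e2 : p ^ β • (f x + φ x) = 0 := by
        obtain ⟨t, rfl⟩ : ∃ t, β = t + 1 := ⟨β - 1, by omega⟩
        rw [pow_succ p t, mul_smul, hx, smul_zero]
      have e3 : IsUnit (1 + m • (p : ZMod (p ^ (j + 1))) ^ β) := by
        refine IsNilpotent.isUnit_one_add ⟨j + 1, ?_⟩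
        obtain ⟨t, rfl⟩ : ∃ t, β = t + 1 := ⟨β - 1, by omega⟩
        rw [_root_.smul_pow, ← pow_mul, mul_comm, pow_mul, zmod_nil]; simp
      rw [mem_Ht, ← e3.mul_left_eq_zero]
      rw [map_nsmul, map_sub, map_nsmul, hm] at e1
      simp only [nsmul_eq_mul, ZMod.natCast_val, ZMod.cast_id', id_eq] at e1 e2 ⊢
      linear_combination e2 - e1)
    simp only [AddMonoidHom.add_apply, neg_add, AddChar.map_add_eq_mul, ← map_neg φ, ← hφ] at this
    simpa using this)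
  have e9 : ∑ s ∈ S, cnt S W s ≤ S.card * p ^ c := by
    refine (sum_le_card_nsmul _ _ _ fun s _ => ?_).trans (le_of_eq (smul_eq_mul _ _))
    exact le_trans (card_le_card (filter_subset_filter _ (filter_subset _ _)))
      ((h.cnt_le W s).trans hWc)
  have e10 := hpar.trans e9
  rw [two_mul, pow_add, pow_succ] at e10
  rw [pow_succ] at hSc
  have : 0 < p ^ c := pow_pos hp.out.pos _
  have e11 : p ^ c * p * p ≤ S.card := Nat.le_of_mul_le_mul_right (by linarith) this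
  omega

theorem ARDS.setup (h : ARDS N R) {n t : ℕ} (hG : Nat.card G = p ^ n) {x : G} (hx : p ^ t • x ≠ 0) :
    ∃ (j a b : ℕ) (f : G →+ ZMod (p ^ (j + 1))) (g1 ν : G), t < j + 1 ∧ R.card = p ^ a ∧
      Nat.card N = p ^ b ∧ a + b = n ∧ b ≤ a ∧ 0 < b ∧ (∀ y : G, p ^ (j + 1) • y = 0) ∧
      f g1 = 1 ∧ ν ∈ N ∧ f ν ≠ 0 := by
  classical
  have h1 := hp.out.one_lt
  have hex : ∃ e, ∀ y : G, p ^ e • y = 0 := ⟨n, fun y => by rw [← hG, card_nsmul_eq_zero']⟩
  have he := Nat.find_spec hex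
  have hlt : t < Nat.find hex := by
    by_contra hle
    obtain ⟨d, hd⟩ := Nat.exists_eq_add_of_le (not_lt.1 hle)
    exact hx (by rw [hd, add_comm, pow_add, mul_smul, he, smul_zero])
  obtain ⟨j, hj⟩ : ∃ j, Nat.find hex = j + 1 := ⟨Nat.find hex - 1, by omega⟩
  obtain ⟨g, hg⟩ := not_forall.1 (Nat.find_min hex (show j < Nat.find hex by omega))
  rw [hj] at he hlt
  obtain ⟨ν, hν, hν0⟩ : ∃ ν ∈ N, ν ≠ 0 := by
    by_contra hne
    push Not at hne
    have := h.one_lt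
    rw [(AddSubgroup.eq_bot_iff_forall N).2 hne] at this
    simp at this
  have lg : ∀ y : G, y ≠ 0 → ∃ f : G →+ ZMod (p ^ (j + 1)), f y ≠ 0 := fun y hy => by
    obtain ⟨ψ, hψ⟩ := AddChar.exists_apply_ne_zero.2 hy
    obtain ⟨f, hf⟩ := char_log (p ^ (j + 1)) ψ
      (fun x => by rw [← AddChar.map_nsmul_eq_pow, he, AddChar.map_zero_eq_one])
    exact ⟨f, fun h0 => hψ (by rw [hf, h0, AddChar.map_zero_eq_one])⟩
  obtain ⟨f, f1, f2⟩ : ∃ f : G →+ ZMod (p ^ (j + 1)), f (p ^ j • g) ≠ 0 ∧ f ν ≠ 0 := by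
    obtain ⟨f1, a1⟩ := lg _ hg
    obtain ⟨f2, a2⟩ := lg _ hν0
    by_cases b1 : f1 ν = 0
    · by_cases b2 : f2 (p ^ j • g) = 0
      · exact ⟨f1 + f2, by rwa [AddMonoidHom.add_apply, b2, add_zero],
          by rwa [AddMonoidHom.add_apply, b1, zero_add]⟩
      · exact ⟨f2, b2, a2⟩
    · exact ⟨f1, a1, b1⟩
  rw [map_nsmul] at f1
  obtain ⟨g1, hg1⟩ := surj_of f1
  obtain ⟨b, -, hb⟩ := card_sub_pow hp.out hG N
  have c1 := h.card
  obtain ⟨a, -, ha⟩ := (Nat.dvd_prime_pow hp.out).1 (hG ▸ Dvd.intro _ c1)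
  have c2 := h.le
  have c3 := h.one_lt
  rw [ha, hb, hG, ← pow_add, Nat.pow_right_inj h1] at c1
  rw [ha, hb, Nat.pow_le_pow_iff_right h1] at c2
  rw [hb, ← pow_zero p, Nat.pow_lt_pow_iff_right h1] at c3
  exact ⟨j, a, b, f, g1, ν, hlt, ha, hb, c1, c2, c3, he, hg1, hν, f2⟩

/-- The exponent bound. -/
theorem ARDS.expo (h : ARDS N R) (hp2 : 2 < p) {n : ℕ} (hG : Nat.card G = p ^ n) (x : G) :
    p ^ ((n + 1) / 2) • x = 0 := by
  by_contra hx
  obtain ⟨j, a, b, f, g1, ν, hlt, ha, hb, c1, c2, c3, he, hg1, hν, f2⟩ := h.setup hG hx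
  rcases Nat.even_or_odd' a with ⟨c, rfl | rfl⟩
  · obtain ⟨c, rfl⟩ : ∃ d, c = d + 1 := ⟨c - 1, by omega⟩
    exact h.expo_even ha hb (by omega) (Or.inl hp2) he f hg1 hν f2
  · exact h.expo_odd hp2 ha (by omega) f (fun a => ⟨a.val • g1, by simp [hg1]⟩) hν f2

theorem ARDS.two_odd (h : ARDS N R) {c j b : ℕ} (hv : R.card = 2 ^ (2 * c + 1))
    (hN : Nat.card N = 2 ^ b) (hb : 0 < b) (hj : 2 * c + b ≤ 2 * j)
    (f : G →+ ZMod (2 ^ (j + 1 + 1))) (hs : Function.Surjective f) {ν : G}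
    (hν : ν ∈ N) (hf : f ν ≠ 0) : False := by
  classical
  have e0 := h.char ((ch (2 ^ (j + 1 + 1))).compAddMonoidHom f) hν (by
    rwa [AddChar.compAddMonoidHom_apply, Ne, ch_eq_one])
  simp only [AddChar.compAddMonoidHom_apply, map_neg, hv, Nat.cast_pow] at e0
  set ι : ZMod (2 ^ (j + 1 + 1)) := 2 ^ j with hι
  have e1 : (1 + ch _ ι) * (1 + ch _ (-ι)) = 2 := by
    have a1 : ch _ ι * ch _ ι = -1 := by
      rw [← AddChar.map_add_eq_mul, ← (rt_pow_prim 2 (j + 1)).eq_neg_one_of_two_right, ← ch_nat]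
      congr 1; rw [hι]; push_cast; ring
    have a2 : ch _ ι * ch _ (-ι) = 1 := by rw [← AddChar.map_add_eq_mul]; simp
    linear_combination (1 - ch _ ι) * a2 + ch _ (-ι) * a1
  obtain ⟨d1, x0, d2⟩ := descent 2 (j + 1) (R ×ˢ range 2)
    (fun q => ((f q.1).val : ℤ) + q.2 * 2 ^ j) (2 * (c + 1)) (by
      simp only [sum_product, sum_range_succ, sum_range_zero]
      push_cast
      simp only [ZMod.natCast_val, ZMod.cast_id', id_eq, zero_mul, one_mul, add_zero, zero_add,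
        neg_add, AddChar.map_add_eq_mul, ← hι, ← mul_one_add, ← sum_mul]
      rw [mul_mul_mul_comm, e0, e1]; push_cast; ring)
  have d3 := d1 ((2 - 1) * (c + 1)) (by omega) x0
  rw [sum_kap] at d2 d3
  have d4 := not_lt.1 fun hlt => d2 (lemmaY _ _ (c + 1) hlt d3)
  obtain ⟨q0, hq0⟩ := card_pos.1 ((pow_pos two_pos _).trans_le d4)
  have key : ∀ q ∈ (R ×ˢ range 2).filter fun q : G × ℕ =>
      ((2 : ℕ) : ℤ) ^ (j + 1) ∣ ((f q.1).val : ℤ) + q.2 * 2 ^ j - x0,
      (2 : ℤ) ^ j ∣ (f q.1).val - x0 := fun q hq => by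
    obtain ⟨w, hw⟩ := (mem_filter.1 hq).2
    exact ⟨2 * w - q.2, by push_cast at hw; linear_combination hw⟩
  have d5 : 2 ^ (c + 1) ≤ cnt R (Ht f 2) q0.1 := by
    refine d4.trans (card_le_card_of_injOn (fun q => q.1) (fun q hq => ?_) fun q hq q' hq' hqq => ?_)
    · refine mem_filter.2 ⟨(mem_product.1 (mem_filter.1 hq).1).1, ?_⟩
      have := (zmod_kill (p := 2) (e := j + 1 + 1) (t := 2) rfl _).2
        (dvd_sub (key q hq) (key q0 hq0))
      rw [mem_Ht, map_sub]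
      simpa using this
    · obtain ⟨a1, a2⟩ := mem_filter.1 hq
      obtain ⟨b1, b2⟩ := mem_filter.1 hq'
      have a3 := mem_range.1 (mem_product.1 a1).2
      have b3 := mem_range.1 (mem_product.1 b1).2
      have := dvd_sub a2 b2
      simp only at hqq
      rw [hqq, show ∀ u a b c : ℤ, u + a * 2 ^ j - c - (u + b * 2 ^ j - c) = 2 ^ j * (a - b) from
        fun _ _ _ _ => by ring, pow_succ, Nat.cast_ofNat,
        mul_dvd_mul_iff_left (by positivity)] at this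
      exact Prod.ext hqq (by omega)
  have hi := index_Ht (s := j) (t := 2) rfl hs
  by_cases hc : c + 2 ≤ j
  · have a1 := h.heavy_le (Ht f 2) (2 ^ (c + 1)) 3 (by
      rw [hi, hv, ← pow_add, show (3 + 1) * 2 ^ (2 * c + 1) = 2 ^ (2 * c + 3) by ring]
      exact Nat.pow_le_pow_right two_pos (by omega))
    have a2 : 2 ^ (c + 1) ≤ (R.filter fun r => 2 ^ (c + 1) ≤ cnt R (Ht f 2) r).card :=
      d5.trans (card_le_card fun r hr => mem_filter.2 ⟨(mem_filter.1 hr).1, by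
        rwa [cnt_congr R (mem_filter.1 hr).2]⟩)
    have a3 := (Nat.mul_le_mul_left _ a2).trans a1
    rw [hv, pow_succ 2 c, pow_succ 2 (2 * c), two_mul, pow_add] at a3
    nlinarith [Nat.two_pow_pos c]
  · obtain rfl : j = c + 1 := by omega
    have a1 : N ≤ Ht f 2 := fun x hx => by
      have : 2 ^ b • x = 0 := by
        rw [← hN]; exact congrArg Subtype.val (card_nsmul_eq_zero' (x := (⟨x, hx⟩ : N)))
      rw [mem_Ht, ← map_nsmul, show 2 ^ 2 = 2 ^ (2 - b) * 2 ^ b by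
        rw [← pow_add]; congr 1; omega, mul_smul, this, smul_zero, map_zero]
    have a2 := card_map_mul (QuotientAddGroup.mk' N) (Ht f 2)
    rw [QuotientAddGroup.ker_mk', inf_eq_right.2 a1] at a2
    have a3 := (Ht f 2).card_mul_index
    rw [← a2, ← h.card, hi, hv, mul_assoc, mul_comm, mul_left_inj' (by have := h.one_lt; omega)]
      at a3
    have a4 := Nat.mul_le_mul_right (2 ^ (c + 1)) (d5.trans (h.cnt_le _ _))
    rw [a3, ← pow_add, Nat.pow_le_pow_iff_right one_lt_two] at a4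
    omega

/-- The exponent bound for `p = 2`. -/
theorem ARDS.expo_two (h : ARDS N R) {n : ℕ} (hG : Nat.card G = 2 ^ n) (x : G) :
    2 ^ (n / 2 + 1) • x = 0 := by
  by_contra hx
  obtain ⟨j, a, b, f, g1, ν, hlt, ha, hb, c1, c2, c3, he, hg1, hν, f2⟩ := h.setup hG hx
  rcases Nat.even_or_odd' a with ⟨c, rfl | rfl⟩
  · obtain ⟨c, rfl⟩ : ∃ d, c = d + 1 := ⟨c - 1, by omega⟩
    exact h.expo_even ha hb (by omega) (Or.inr (by omega)) he f hg1 hν f2
  · obtain ⟨j, rfl⟩ : ∃ d, j = d + 1 := ⟨j - 1, by omega⟩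
    exact h.two_odd ha hb c3 (by omega) f (fun a => ⟨a.val • g1, by simp [hg1]⟩) hν f2

end

end Pool.Agent.Lib.MP_2d211a_co
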