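import Pool.Agent.Lib.MP_2d211a_co.H1Dat

/-!
A ternary bent function on `Z_3 × F × F`, `F` the field with `p ^ 2` elements, `p = 2 mod 3` a prime power.
-/

open Finset

set_option linter.unusedSectionVars false

namespace Pool.Agent.Lib.MP_2d211a_co.H1

variable {K F : Type*} [Field K] [Fintype K] [DecidableEq K] [Field F] [Fintype F] [DecidableEq F]
  [Algebra K F]

/-- the data taken from the field -/
structure Setup (p m : ℕ) (T : F →ₗ[K] K) (ind : F → ZMod 3) (c : ZMod 3 → F)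
    (A : ZMod 3 → K → ZMod 3) : Prop where
  hK : Fintype.card K = p
  hm : p = 3 * m + 2
  dat : Dat m A
  mul : ∀ x y, x ≠ 0 → y ≠ 0 → ind (x * y) = ind x + ind y
  ker : ∀ x, x ≠ 0 → T x = 0 → ind x = 0
  smul : ∀ (κ : K) x, κ ≠ 0 → x ≠ 0 → ind (κ • x) = ind x
  fib : ∀ h : K → ℂ, ∑ z, h (T z) = p * ∑ r, h r
  one : T 1 = 0
  c_ne : ∀ k, c k ≠ 0
  c_ind : ∀ k, ind (c k) = k
  c_sum : c 0 + c 1 + c 2 = 0

/-- additive character of the small field -/
noncomputable def ac (K : Type*) [Field K] [Fintype K] : AddChar K ℂ :=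
  AddChar.FiniteField.primitiveChar_to_Complex K

theorem ac_prim : (ac K).IsPrimitive := AddChar.FiniteField.primitiveChar_to_Complex_isPrimitive K

/-- additive character of the field -/
noncomputable def chi (T : F →ₗ[K] K) : AddChar F ℂ := (ac K).compAddMonoidHom T.toAddMonoidHom

theorem chi_apply (T : F →ₗ[K] K) (x : F) : chi T x = ac K (T x) := rfl

theorem chi_ne_one {T : F →ₗ[K] K} {x : F} (hx : T x ≠ 0) : ∃ κ : K, chi T (κ • x) ≠ 1 := by
  obtain ⟨κ, hκ⟩ := AddChar.ne_one_iff.1 (ac_prim hx)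
  exact ⟨κ, by rwa [chi_apply, map_smul, smul_eq_mul, mul_comm]⟩

/-- a function of the class, extended by zero -/
def ext0 (ind : F → ZMod 3) (φ : ZMod 3 → ℂ) (x : F) : ℂ := if x = 0 then 0 else φ (ind x)

/-- the three ridge functions -/
def G (T : F →ₗ[K] K) (c : ZMod 3 → F) (A : ZMod 3 → K → ZMod 3) (z : F) (k : ZMod 3) : ZMod 3 :=
  A k (T (c k * z))

/-- the bent function -/
def bf (T : F →ₗ[K] K) (ind : F → ZMod 3) (c : ZMod 3 → F) (A : ZMod 3 → K → ZMod 3) (s : ZMod 3)
    (x y : F) : ZMod 3 :=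
  if x = 0 then (if y = 0 then s ^ 2 else if ind y = -s then s ^ 2 + 1 else s ^ 2 + 2)
  else G T c A (y / x) (ind x + s) + s * (ind x + s) + if Cst s (G T c A (y / x)) then 2 else 0

namespace Setup

variable {p m : ℕ} {T : F →ₗ[K] K} {ind : F → ZMod 3} {c : ZMod 3 → F} {A : ZMod 3 → K → ZMod 3}
  (h : Setup p m T ind c A)
include h

theorem pC : (p : ℂ) = 3 * m + 2 := by rw [h.hm]; push_cast; ring

theorem card : (Fintype.card F : ℂ) = p ^ 2 := by
  have := h.fib fun _ => 1
  simpa [sq, h.hK] using this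

theorem orth (u : F) : ∑ x, chi T (x * u) = if u = 0 then (p : ℂ) ^ 2 else 0 := by
  obtain ⟨κ, h1⟩ := chi_ne_one (T := T) (x := c 1) fun e => by
    have := h.ker _ (h.c_ne 1) e
    rw [h.c_ind] at this
    exact absurd this (by decide)
  rw [AddChar.sum_mulShift u (AddChar.IsPrimitive.of_ne_one (AddChar.ne_one_iff.2 ⟨_, h1⟩))]
  split_ifs
  · exact h.card
  · simp

theorem fib' {u : F} (hu : u ≠ 0) (φ : K → ℂ) : ∑ z, φ (T (u * z)) = p * ∑ r, φ r :=
  (Equiv.sum_comp (Equiv.mulLeft₀ u hu) fun z => φ (T z)).trans (h.fib φ)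

theorem ridge {w : F} (hw : w ≠ 0) {k : ZMod 3} (hk : ind w ≠ k) (φ : K → ℂ) :
    ∑ z, φ (T (c k * z)) * chi T (w * z) = 0 := by
  have hc := h.c_ne k
  obtain ⟨κ, h1⟩ := chi_ne_one (T := T) (x := w * (c k)⁻¹) fun e => hk (by
    have h0 := mul_ne_zero hw (inv_ne_zero hc)
    have := h.mul _ _ h0 hc
    rwa [inv_mul_cancel_right₀ hc, h.ker _ h0 e, h.c_ind, zero_add] at this)
  have h2 := Equiv.sum_comp (Equiv.addRight (κ • (c k)⁻¹)) fun z => φ (T (c k * z)) * chi T (w * z)
  rw [← mul_smul_comm] at h1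
  simp only [Equiv.coe_addRight, mul_add, mul_smul_comm κ (c k), mul_inv_cancel₀ hc, map_add,
    map_smul, h.one, smul_zero, add_zero, AddChar.map_add_eq_mul, ← mul_assoc, ← sum_mul] at h2
  by_contra hne
  exact h1 (mul_left_cancel₀ hne (h2.trans (mul_one _).symm))

theorem cls0 (φ : ZMod 3 → ℂ) : 3 * ∑ x, ext0 ind φ x = (p ^ 2 - 1) * ∑ i, φ i := by
  have h1 : ∀ k, ∑ x, ext0 ind φ x = ∑ x, ext0 ind (fun i => φ (k + i)) x := fun k => by
    rw [← Equiv.sum_comp (Equiv.mulLeft₀ (c k) (h.c_ne k))]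
    refine sum_congr rfl fun x _ => ?_
    by_cases hx : x = 0
    · simp [ext0, hx]
    · simp [ext0, hx, h.c_ne k, h.mul _ _ (h.c_ne k) hx, h.c_ind]
  have h2 : ∑ k : ZMod 3, ∑ x, ext0 ind φ x = ∑ x : F, if x = 0 then 0 else ∑ i, φ i := by
    rw [sum_congr rfl fun k _ => h1 k, sum_comm]
    refine sum_congr rfl fun x _ => ?_
    unfold ext0
    split_ifs
    · simp
    · exact Equiv.sum_comp (Equiv.addRight (ind x)) φ
  have h3 : ∀ x : F, (if x = 0 then 0 else ∑ i, φ i) = ∑ i, φ i - if x = 0 then ∑ i, φ i else 0 :=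
    fun x => by split_ifs <;> simp
  rw [sum_congr rfl fun x _ => h3 x, sum_sub_distrib, sum_ite_eq', if_pos (mem_univ _), sum_const,
    sum_const, nsmul_eq_mul, nsmul_eq_mul, card_univ, card_univ, h.card, ZMod.card] at h2
  push_cast at h2
  linear_combination h2

theorem cls {a : F} (ha : a ≠ 0) (φ : ZMod 3 → ℂ) :
    ∑ x, ext0 ind φ x * chi T (x * a) = p * φ (-ind a) - (m + 1) * ∑ i, φ i := by
  have h1 : ∀ κ : K, ∑ x, ext0 ind φ x * ac K (κ * T (x * a))
      = ∑ x, ext0 ind φ x * chi T (x * a)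
        + if κ = 0 then ∑ x, ext0 ind φ x - ∑ x, ext0 ind φ x * chi T (x * a) else 0 := by
    intro κ
    split_ifs with hκ
    · simp [hκ]
    · rw [add_zero, ← Equiv.sum_comp (MulAction.toPerm (Units.mk0 κ hκ))
        fun x => ext0 ind φ x * chi T (x * a)]
      refine sum_congr rfl fun x _ => ?_
      change _ = ext0 ind φ (κ • x) * chi T ((κ • x) * a)
      rw [smul_mul_assoc, chi_apply, map_smul, smul_eq_mul]
      by_cases hx : x = 0
      · simp [ext0, hx]
      · simp [ext0, hx, hκ, h.smul κ x hκ hx]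
  have h2 := sum_congr (s₁ := univ) rfl fun κ _ => h1 κ
  rw [sum_comm, sum_add_distrib, sum_ite_eq', if_pos (mem_univ _), sum_const, card_univ, h.hK,
    nsmul_eq_mul] at h2
  have h3 : ∀ x, ∑ κ : K, ext0 ind φ x * ac K (κ * T (x * a))
      = p * φ (-ind a) * ((if T (a * x) = 0 then 1 else 0) - if x = 0 then 1 else 0) := by
    intro x
    rw [← mul_sum, AddChar.sum_mulShift _ ac_prim, h.hK, mul_comm a x]
    by_cases hx : x = 0
    · simp [ext0, hx]
    by_cases ht : T (x * a) = 0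
    · have := h.ker _ (mul_ne_zero hx ha) ht
      rw [h.mul _ _ hx ha, add_eq_zero_iff_eq_neg] at this
      simp [ext0, hx, this, mul_comm]
    · simp [ht, hx]
  rw [sum_congr rfl fun x _ => h3 x, ← mul_sum, sum_sub_distrib,
    h.fib' ha fun r => if r = 0 then 1 else 0] at h2
  simp only [sum_ite_eq', mem_univ, if_true] at h2
  have h4 := h.cls0 φ
  have h5 := h.pC
  have h6 : (3 : ℂ) * (p - 1) ≠ 0 := mul_ne_zero (by norm_num) (by
    rw [sub_ne_zero]; exact_mod_cast (show p ≠ 1 by have := h.hm; omega))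
  refine mul_left_cancel₀ h6 ?_
  linear_combination (-3) * h2 - h4 - (p - 1) * (∑ i, φ i) * h5

theorem sumG (s k : ZMod 3) : ∑ z, W (G T c A z k + s * k) = -(p * W (s * k - k ^ 2)) := by
  refine (h.fib' (h.c_ne k) fun r => W (A k r + s * k)).trans ?_
  simp only [sub_eq_neg_add, W_add, ← sum_mul, h.dat.one]
  ring

theorem sumD (s : ZMod 3) : ∑ z, Dl s (G T c A z)
    = W (s ^ 2) + m * W (s ^ 2 + 2) - (m + 1) * W (s ^ 2 + 1) := by
  rw [← h.dat.two, ← Fintype.sum_prod_type']
  have inj : Function.Injective fun z : F => (T (c 0 * z), T (c 1 * z)) := by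
    intro z z' e
    by_contra hne
    have h0 : z - z' ≠ 0 := sub_ne_zero.2 hne
    have e1 := h.ker (c 0 * (z - z')) (mul_ne_zero (h.c_ne 0) h0) (by
      rw [mul_sub, map_sub, sub_eq_zero]; exact congrArg Prod.fst e)
    have e2 := h.ker (c 1 * (z - z')) (mul_ne_zero (h.c_ne 1) h0) (by
      rw [mul_sub, map_sub, sub_eq_zero]; exact congrArg Prod.snd e)
    rw [h.mul _ _ (h.c_ne _) h0, h.c_ind] at e1 e2
    exact absurd (add_right_cancel (e1.trans e2.symm)) (by decide)
  have bij := (Fintype.bijective_iff_injective_and_card _).2 ⟨inj, by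
    have : Fintype.card F = p ^ 2 := by exact_mod_cast h.card
    simp [this, sq, h.hK]⟩
  refine Fintype.sum_bijective _ bij _ _ fun z => ?_
  congr 1
  funext k
  rcases cases3 k with rfl | rfl | rfl
  · rfl
  · rfl
  · change A 2 (T (c 2 * z)) = A 2 (-T (c 0 * z) - T (c 1 * z))
    rw [← map_neg, ← map_sub, show c 2 = -c 0 - c 1 by linear_combination h.c_sum]
    congr 2
    ring

/-- the transform splits into three parts -/
theorem split (s : ZMod 3) (a b : F) : ∑ x, ∑ y, W (bf T ind c A s x y) * chi T (x * a + y * b)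
    = ∑ x, (if x = 0 then 0 else chi T (x * a) *
        ∑ z, W (G T c A z (ind x + s) + s * (ind x + s)) * chi T (x * b * z))
      + (∑ z, (if a + z * b = 0 then p ^ 2 * Dl s (G T c A z) else 0) - ∑ z, Dl s (G T c A z))
      + (W (s ^ 2) + ∑ y, ext0 ind (fun j => W (s ^ 2 + 2)
          + if j = -s then W (s ^ 2 + 1) - W (s ^ 2 + 2) else 0) y * chi T (y * b)) := by
  have h1 : ∀ x, ∑ y, W (bf T ind c A s x y) * chi T (x * a + y * b)
      = (if x = 0 then 0 else chi T (x * a) *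
          ∑ z, W (G T c A z (ind x + s) + s * (ind x + s)) * chi T (x * b * z))
        + (∑ z, Dl s (G T c A z) * chi T (x * (a + z * b))
          - if x = 0 then ∑ z, Dl s (G T c A z) else 0)
        + if x = 0 then (W (s ^ 2) + ∑ y, ext0 ind (fun j => W (s ^ 2 + 2)
          + if j = -s then W (s ^ 2 + 1) - W (s ^ 2 + 2) else 0) y * chi T (y * b)) else 0 := by
    intro x
    by_cases hx : x = 0
    · have e : ∀ y, W (bf T ind c A s x y) * chi T (x * a + y * b)
          = (if y = 0 then W (s ^ 2) else 0) + ext0 ind (fun j => W (s ^ 2 + 2)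
          + if j = -s then W (s ^ 2 + 1) - W (s ^ 2 + 2) else 0) y * chi T (y * b) := by
        intro y
        by_cases hy : y = 0
        · simp [bf, ext0, hx, hy]
        · by_cases hj : ind y = -s <;> simp [bf, ext0, hx, hy, hj]
      rw [sum_congr rfl fun y _ => e y, sum_add_distrib]
      simp [hx]
    · rw [if_neg hx, if_neg hx, if_neg hx, sub_zero, add_zero, mul_sum, ← sum_add_distrib,
        ← Equiv.sum_comp (Equiv.mulLeft₀ x hx)]
      refine sum_congr rfl fun z _ => ?_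
      change W (bf T ind c A s x (x * z)) * chi T (x * a + x * z * b) = _
      rw [bf, if_neg hx, mul_div_cancel_left₀ z hx, W_mod, mul_add x, ← mul_assoc x z,
        (chi T).map_add_eq_mul, mul_right_comm x b z]
      ring
  rw [sum_congr rfl fun x _ => h1 x, sum_add_distrib, sum_add_distrib, sum_sub_distrib,
    sum_ite_eq', sum_ite_eq', if_pos (mem_univ _), if_pos (mem_univ _),
    sum_comm (f := fun x z => Dl s (G T c A z) * chi T (x * (a + z * b)))]
  congr 3
  refine sum_congr rfl fun z _ => ?_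
  rw [← mul_sum, h.orth]
  split_ifs <;> ring

theorem axis (s : ZMod 3) : ∑ j : ZMod 3, (W (s ^ 2 + 2)
    + if j = -s then W (s ^ 2 + 1) - W (s ^ 2 + 2) else 0) = 2 * W (s ^ 2 + 2) + W (s ^ 2 + 1) := by
  rw [sum_add_distrib, sum_ite_eq', if_pos (mem_univ _), sum3]; ring

theorem ft1 (s : ZMod 3) (a : F) {b : F} (hb : b ≠ 0) :
    ∑ x, ∑ y, W (bf T ind c A s x y) * chi T (x * a + y * b) = p ^ 2 *
      ((if ind b = s then ∑ k, W (G T c A (-a / b) k + s * k) else 0) + Dl s (G T c A (-a / b))) := by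
  have hz : ∀ z, a + z * b = 0 ↔ z = -a / b := fun z => by
    rw [eq_div_iff hb, add_comm, add_eq_zero_iff_eq_neg]
  have rg : ∀ x, x ≠ 0 → ∀ k, ind x + ind b ≠ k →
      ∑ z, W (G T c A z k + s * k) * chi T (x * b * z) = 0 := fun x hx k hk => by
    exact h.ridge (mul_ne_zero hx hb) (by rwa [h.mul _ _ hx hb]) fun r => W (A k r + s * k)
  rw [h.split, h.cls hb, h.axis, h.sumD]
  simp only [hz, sum_ite_eq', mem_univ, if_true, neg_inj]
  have h5 := h.pC
  have h6 := W_sum (s ^ 2)
  split_ifs with hs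
  · have e : ∀ x : F, (if x = 0 then 0 else chi T (x * a) *
        ∑ z, W (G T c A z (ind x + s) + s * (ind x + s)) * chi T (x * b * z))
        = ∑ k, ∑ z, W (G T c A z k + s * k) * chi T (x * (a + z * b))
          - if x = 0 then ∑ k, ∑ z, W (G T c A z k + s * k) else 0 := by
      intro x
      split_ifs with hx
      · simp [hx]
      · rw [sub_zero, ← sum_eq_single_of_mem (ind x + s) (mem_univ _)
          (f := fun k => ∑ z, W (G T c A z k + s * k) * chi T (x * b * z))
          fun k _ hk => rg x hx k (by rw [hs]; exact hk.symm), mul_sum]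
        refine sum_congr rfl fun k _ => ?_
        rw [mul_sum]
        refine sum_congr rfl fun z _ => ?_
        rw [mul_add x, ← mul_assoc x z, (chi T).map_add_eq_mul, mul_right_comm x b z]
        ring
    have e2 : ∀ k, ∑ x : F, ∑ z, W (G T c A z k + s * k) * chi T (x * (a + z * b))
        = p ^ 2 * W (G T c A (-a / b) k + s * k) := fun k => by
      rw [sum_comm]
      simp only [← mul_sum, h.orth, hz, mul_ite, mul_zero, sum_ite_eq', mem_univ, if_true]
      ring
    have e3 := tau_sum s 0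
    simp only [add_zero] at e3
    rw [sum_congr rfl fun x _ => e x, sum_sub_distrib, sum_ite_eq', if_pos (mem_univ _), sum_comm]
    simp only [e2, h.sumG, sum_neg_distrib, ← mul_sum, e3]
    linear_combination (p : ℂ) * h6 + W (s ^ 2 + 2) * h5
  · rw [sum_eq_zero fun x _ => by
      split_ifs with hx
      · rfl
      · rw [rg x hx _ fun e => hs (add_left_cancel e), mul_zero]]
    linear_combination W (s ^ 2 + 2) * h5

theorem ft_aux (s : ZMod 3) (a x : F) : (if x = 0 then 0 else chi T (x * a) *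
    ∑ z, W (G T c A z (ind x + s) + s * (ind x + s)) * chi T (x * 0 * z))
    = ext0 ind (fun i => -(p * W (s * (i + s) - (i + s) ^ 2))) x * chi T (x * a) := by
  unfold ext0
  split_ifs
  · simp
  · simp only [mul_zero, zero_mul, AddChar.map_zero_eq_one, mul_one, h.sumG]
    ring

theorem ft2 (s : ZMod 3) {a : F} (ha : a ≠ 0) :
    ∑ x, ∑ y, W (bf T ind c A s x y) * chi T (x * a + y * 0) = p ^ 2 *
      (W (s ^ 2 + 2) - W (s * (-ind a + s) - (-ind a + s) ^ 2)) := by
  have h4 := h.cls0 fun j => W (s ^ 2 + 2) + if j = -s then W (s ^ 2 + 1) - W (s ^ 2 + 2) else 0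
  rw [h.axis] at h4
  rw [h.split, h.sumD, sum_congr rfl fun x _ => h.ft_aux s a x, h.cls ha]
  simp only [mul_zero, add_zero, ha, if_false, sum_const_zero, AddChar.map_zero_eq_one, mul_one,
    sum_neg_distrib, ← mul_sum, tau_sum]
  have h5 := h.pC
  have h6 := W_sum (s ^ 2)
  generalize ∑ y, ext0 ind _ y = Y at h4 ⊢
  rw [h5] at h4 ⊢
  linear_combination (1 / 3 : ℂ) * h4 + (m + 1) * (3 * m + 2) * h6

theorem ft3 (s : ZMod 3) :
    ∑ x, ∑ y, W (bf T ind c A s x y) * chi T (x * 0 + y * 0) = p ^ 2 * W (s ^ 2) := by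
  have h4 := h.cls0 fun j => W (s ^ 2 + 2) + if j = -s then W (s ^ 2 + 1) - W (s ^ 2 + 2) else 0
  have h3 := h.cls0 fun i => -(p * W (s * (i + s) - (i + s) ^ 2))
  rw [h.axis] at h4
  rw [h.split, sum_congr rfl fun x _ => h.ft_aux s 0 x]
  simp only [mul_zero, add_zero, if_true, AddChar.map_zero_eq_one, mul_one,
    sum_neg_distrib, ← mul_sum, tau_sum, h.sumD] at h3 ⊢
  have h5 := h.pC
  have h6 := W_sum (s ^ 2)
  generalize ∑ y, ext0 ind _ y = Y at h4 ⊢
  generalize ∑ y, ext0 ind _ y = B at h3 ⊢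
  rw [h5] at h3 h4 ⊢
  linear_combination (1 / 3 : ℂ) * h4 + (1 / 3 : ℂ) * h3 - (9 * m ^ 3 + 18 * m ^ 2 + 11 * m + 2) * h6

theorem bent (t : ZMod 3) (a b : F) {X : ℂ}
    (hX : X = ∑ s, W (t * s) * ∑ x, ∑ y, W (bf T ind c A s x y) * chi T (x * a + y * b)) :
    X * (starRingEnd ℂ) X = 3 * p ^ 4 := by
  have key : ∀ V : ZMod 3 → ℂ, (∀ Y, Y = ∑ s, W (t * s) * V s → Y * (starRingEnd ℂ) Y = 3) →
      (∀ s, ∑ x, ∑ y, W (bf T ind c A s x y) * chi T (x * a + y * b) = p ^ 2 * V s) →
      X * (starRingEnd ℂ) X = 3 * p ^ 4 := by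
    intro V h1 h2
    have e : X = p ^ 2 * ∑ s, W (t * s) * V s := by
      rw [hX, mul_sum]
      exact sum_congr rfl fun s _ => by rw [h2]; ring
    rw [e, map_mul, map_pow, map_natCast]
    linear_combination (p : ℂ) ^ 4 * h1 _ rfl
  by_cases hb : b = 0
  · subst hb
    by_cases ha : a = 0
    · subst ha
      exact key _ (fun _ => norm3 t) h.ft3
    · exact key _ (fun _ => norm2 t (ind a)) fun s => h.ft2 s ha
  · exact key _ (fun _ => norm1 t (ind b) (G T c A (-a / b))) fun s => h.ft1 s a hb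

end Setup

theorem exists_setup.{u} (K : Type u) [Field K] [Fintype K] [DecidableEq K]
    (h3 : Fintype.card K % 3 = 2) : ∃ (F : Type u) (_ : Field F) (_ : Fintype F)
    (_ : DecidableEq F) (_ : Algebra K F) (m : ℕ) (T : F →ₗ[K] K) (ind : F → ZMod 3)
    (c : ZMod 3 → F) (A : ZMod 3 → K → ZMod 3),
    Setup (Fintype.card K) m T ind c A ∧ Module.finrank K F = 2 := by
  classical
  obtain ⟨m, hm⟩ : ∃ m, Fintype.card K = 3 * m + 2 := ⟨Fintype.card K / 3, by omega⟩
  obtain ⟨A, hA⟩ := exists_dat K hm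
  have hpow : ∀ κ : K, κ ≠ 0 → κ ^ (3 * m + 1) = 1 := fun κ hκ => by
    have := FiniteField.pow_card_sub_one_eq_one κ hκ
    rwa [show Fintype.card K - 1 = 3 * m + 1 by omega] at this
  have : Fact (∀ r : K, r ^ 2 ≠ -1 + -1 * r) := ⟨fun r hr => by
    have h0 : r ≠ 0 := by rintro rfl; simp at hr
    have h1 : r ^ 3 = 1 := by linear_combination (r - 1) * hr
    have h2 := hpow r h0
    rw [pow_succ, pow_mul, h1, one_pow, one_mul] at h2
    subst h2
    have h4 := FiniteField.cast_card_eq_zero K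
    rw [hm] at h4
    push_cast at h4
    exact one_ne_zero (α := K) (by linear_combination (m + 1 : K) * hr - h4)⟩
  let E := QuadraticAlgebra K (-1) (-1)
  let _ : Fintype E := Fintype.ofEquiv _ (QuadraticAlgebra.equivProd (-1 : K) (-1)).symm
  have hK : Fintype.card E = 3 * (3 * m ^ 2 + 4 * m + 1) + 1 := by
    rw [Fintype.ofEquiv_card, Fintype.card_prod, hm]; ring
  obtain ⟨ind, g, hg, hg1, hmul⟩ := exists_ind hK
  have h1 : ind 1 = 0 := by simpa using hmul 1 1 one_ne_zero one_ne_zero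
  have hp' : ∀ (x : E) (n : ℕ), x ≠ 0 → ind (x ^ n) = n * ind x := fun x n hx => by
    induction n with
    | zero => simpa using h1
    | succ n ih => rw [pow_succ, hmul _ _ (pow_ne_zero n hx) hx, ih]; push_cast; ring
  have hal : ∀ κ : K, κ ≠ 0 → algebraMap K E κ ≠ 0 ∧
      ind (algebraMap K E κ) = 0 := fun κ hκ => by
    have h0 : algebraMap K E κ ≠ 0 := (map_ne_zero _).2 hκ
    have := hp' _ (3 * m + 1) h0
    rw [← map_pow, hpow κ hκ, map_one, h1] at this
    push_cast at this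
    rw [show (3 : ZMod 3) = 0 from rfl, zero_mul, zero_add, one_mul] at this
    exact ⟨h0, this.symm⟩
  have hsm : ∀ (κ : K) (x : E), κ ≠ 0 → x ≠ 0 → ind (κ • x) = ind x := fun κ x hκ hx => by
    rw [Algebra.smul_def, hmul _ _ (hal κ hκ).1 hx, (hal κ hκ).2, zero_add]
  have hker : ∀ x : E, x ≠ 0 → x.im = 0 → ind x = 0 := fun x hx h0 => by
    have e : x = algebraMap K E x.re := QuadraticAlgebra.ext rfl h0
    rw [e]
    exact (hal _ fun e' => hx (by rw [e, e', map_zero])).2
  have hg2 : ind (g * g) = 2 := by rw [hmul _ _ hg hg, hg1]; rfl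
  have i1 : g.im ≠ 0 := fun e => absurd ((hker g hg e).symm.trans hg1) (by decide)
  have i2 : (g * g).im ≠ 0 := fun e =>
    absurd ((hker _ (mul_ne_zero hg hg) e).symm.trans hg2) (by decide)
  have hβ : -((g * g).im / g.im) ≠ 0 := neg_ne_zero.2 (div_ne_zero i2 i1)
  have j1 := hsm _ g hβ hg
  have j0 : -((-((g * g).im / g.im)) • g + g * g) ≠ 0 := fun e => by
    rw [neg_eq_zero, add_eq_zero_iff_eq_neg, ← neg_one_smul K (g * g)] at e
    rw [e, hsm _ _ (neg_ne_zero.2 one_ne_zero) (mul_ne_zero hg hg), hg1, hg2] at j1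
    exact absurd j1 (by decide)
  refine ⟨E, inferInstance, inferInstance, inferInstance, inferInstance, m,
    QuadraticAlgebra.imₗ (-1) (-1), ind, fun k => if k = 0 then -((-((g * g).im / g.im)) • g + g * g)
      else if k = 1 then (-((g * g).im / g.im)) • g else g * g, A,
    ⟨rfl, hm, hA, hmul, hker, hsm, fun φ => ?_, rfl, fun k => ?_, fun k => ?_, ?_⟩,
    QuadraticAlgebra.finrank_eq_two _ _⟩
  · rw [← Equiv.sum_comp (QuadraticAlgebra.equivProd (-1 : K) (-1)).symm, Fintype.sum_prod_type]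
    change ∑ _x : K, ∑ y, φ y = _
    rw [sum_const, card_univ, nsmul_eq_mul]
  · rcases cases3 k with rfl | rfl | rfl
    · exact j0
    · exact smul_ne_zero hβ hg
    · exact mul_ne_zero hg hg
  · rcases cases3 k with rfl | rfl | rfl
    · refine hker _ j0 ?_
      rw [if_pos rfl, QuadraticAlgebra.im_neg, QuadraticAlgebra.im_add, QuadraticAlgebra.im_smul, smul_eq_mul,
        neg_mul, div_mul_cancel₀ _ i1, neg_add_cancel, neg_zero]
    · exact j1.trans hg1
    · exact hg2
  · change -((-((g * g).im / g.im)) • g + g * g) + (-((g * g).im / g.im)) • g + g * g = 0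
    abel

end Pool.Agent.Lib.MP_2d211a_co.H1
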