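import Pool.Agent.Lib.MP_2d211a_co.H1Tri

/-!
Three functions on the additive group of a field of order `2 mod 3`.
-/

open Finset

namespace Pool.Agent.Lib.MP_2d211a_co.H1

/-- the three coordinates of a point of the plane `r + s + t = 0` -/
def co {K : Type*} [AddCommGroup K] (r r' : K) (k : ZMod 3) : K :=
  if k = 0 then r else if k = 1 then r' else -r - r'

/-- what is needed of the three functions -/
structure Dat {K : Type*} [AddCommGroup K] [Fintype K] (m : ℕ) (A : ZMod 3 → K → ZMod 3) :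
    Prop where
  one : ∀ k, ∑ r, W (A k r) = -W (-k ^ 2)
  two : ∀ s, ∑ r, ∑ r', Dl s (fun k => A k (co r r' k))
    = W (s ^ 2) + m * W (s ^ 2 + 2) - (m + 1) * W (s ^ 2 + 1)

theorem Dat.comp {K K' : Type*} [AddCommGroup K] [Fintype K] [AddCommGroup K'] [Fintype K'] {m : ℕ}
    {A : ZMod 3 → K → ZMod 3} (h : Dat m A) (e : K' ≃+ K) : Dat m fun k r => A k (e r) := by
  refine ⟨fun k => (Equiv.sum_comp e.toEquiv fun r => W (A k r)).trans (h.one k), fun s => ?_⟩
  rw [← h.two s, ← Equiv.sum_comp e.toEquiv]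
  refine sum_congr rfl fun r _ => ?_
  rw [← Equiv.sum_comp e.toEquiv]
  refine sum_congr rfl fun r' _ => ?_
  congr 1
  funext k
  unfold co
  split_ifs <;> simp

theorem sum_val {p : ℕ} [NeZero p] (φ : ℕ → ℂ) : ∑ r : ZMod p, φ r.val = ∑ r ∈ range p, φ r :=
  sum_bij (fun r _ => r.val) (fun r _ => mem_range.2 r.val_lt)
    (fun _ _ _ _ e => ZMod.val_injective p e)
    (fun r hr => ⟨r, mem_univ _, ZMod.val_cast_of_lt (mem_range.1 hr)⟩) fun _ _ => rfl

theorem dat_zmod (m : ℕ) :
    Dat m fun k (r : ZMod (3 * m + 2)) => (r.val : ZMod 3) + (1 - k ^ 2) := by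
  refine ⟨fun k => ?_, fun s => ?_⟩
  · have h1 := sum_range_W (m + 1) (1 - k ^ 2)
    rw [show 3 * (m + 1) = 3 * m + 2 + 1 by ring, sum_range_succ] at h1
    have h2 : ((3 * m + 2 : ℕ) : ZMod 3) + (1 - k ^ 2) = -k ^ 2 := by
      push_cast
      have : (3 : ZMod 3) = 0 := rfl
      linear_combination (m + 1 : ZMod 3) * this
    rw [h2] at h1
    rw [sum_val fun r => W ((r : ZMod 3) + (1 - k ^ 2))]
    linear_combination h1
  · rw [← tri_sq, ← sum_val]
    refine sum_congr rfl fun r _ => ?_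
    rw [← sum_val]
    refine sum_congr rfl fun r' _ => ?_
    rw [← Dl_gv s r.val_lt r'.val_lt (-r - r').val_lt (by
      rw [← ZMod.natCast_eq_zero_iff]
      push_cast
      simp only [ZMod.natCast_val, ZMod.cast_id', id]
      ring)]
    congr 1
    funext k
    rcases cases3 k with rfl | rfl | rfl
    · simp [gv, co]
    · simp [gv, co]
    · rw [show (1 - 2 ^ 2 : ZMod 3) = 0 by decide, add_zero]; rfl

theorem exists_ind {F : Type*} [Field F] [Fintype F] {m : ℕ} (hF : Fintype.card F = 3 * m + 1) :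
    ∃ (ind : F → ZMod 3) (g : F),
      g ≠ 0 ∧ ind g = 1 ∧ ∀ x y, x ≠ 0 → y ≠ 0 → ind (x * y) = ind x + ind y := by
  classical
  have hc : Nat.card Fˣ = 3 * m := by
    rw [Nat.card_units, Nat.card_eq_fintype_card, hF]; rfl
  let e := (zmodCyclicMulEquiv (G := Fˣ) inferInstance).symm
  let π : ZMod (Nat.card Fˣ) →+* ZMod 3 := ZMod.castHom ⟨m, hc⟩ (ZMod 3)
  refine ⟨fun x => if hx : x = 0 then 0 else π (e (Units.mk0 x hx)).toAdd,
    (e.symm (Multiplicative.ofAdd 1) : Fˣ), Units.ne_zero _, ?_, fun x y hx hy => ?_⟩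
  · simp
  · simp only [dif_neg hx, dif_neg hy, dif_neg (mul_ne_zero hx hy)]
    rw [Units.mk0_mul, map_mul, toAdd_mul, map_add]

/-- integer form of the correction -/
def dl (s x y z : ZMod 3) : ℤ × ℤ := if x = y + s ∧ x = z + 2 * s then w3 (x + 2) - w3 x else 0

theorem Dl_eq (s : ZMod 3) (g : ZMod 3 → ZMod 3) : Dl s g = ev (dl s (g 0) (g 1) (g 2)) := by
  unfold Dl dl
  split_ifs
  · rw [map_sub, ev_w3, ev_w3]
  · simp

theorem avg3 : ∀ s x y z : ZMod 3,
    dl s x y z + dl s (1 + x) (1 + y) (1 + z) + dl s (2 + x) (2 + y) (2 + z) = 0 ∧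
    dl s x y (y + 1) + dl s x (1 + y) (1 + y + 1) + dl s x (2 + y) (2 + y + 1)
      = (if s = 2 then w3 (x + 2) - w3 x else 0) ∧
    dl s y x (y + 1) + dl s (1 + y) x (1 + y + 1) + dl s (2 + y) x (2 + y + 1)
      = (if s = 1 then w3 x - w3 (x + 1) else 0) ∧
    dl s y y x + dl s (1 + y) (1 + y) x + dl s (2 + y) (2 + y) x
      = (if s = 0 then w3 (x + 2) - w3 x else 0) := by decide +kernel

theorem sum_co {K : Type*} [AddCommGroup K] [Fintype K] (k : ZMod 3) (φ : K → ℂ) :
    ∑ r, ∑ r', φ (co r r' k) = Fintype.card K * ∑ r, φ r := by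
  unfold co
  split_ifs
  · simp [mul_sum]
  · simp
  · refine (sum_congr rfl fun r _ => Equiv.sum_comp (Equiv.subLeft (-r)) φ).trans ?_
    simp

theorem Dat.ext {K V : Type*} [AddCommGroup K] [Fintype K] [Field V] [Fintype V] {m n : ℕ}
    {A : ZMod 3 → K → ZMod 3} (h : Dat m A) (hK : Fintype.card K = 3 * m + 2)
    (hV : Fintype.card V = 3 * n + 1) :
    ∃ A' : ZMod 3 → K × V → ZMod 3, Dat (m + (3 * m + 2) * n) A' := by
  classical
  obtain ⟨ind, g, hg, hg1, hmul⟩ := exists_ind hV
  have h1 : ind 1 = 0 := by simpa using hmul 1 1 one_ne_zero one_ne_zero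
  have hneg : ∀ v, v ≠ 0 → ind (-v) = ind v := fun v hv => by
    have a := hmul (-1) (-1) (by simp) (by simp)
    have b : ∀ x : ZMod 3, 0 = x + x → x = 0 := by decide
    rw [neg_mul_neg, one_mul, h1] at a
    rw [← neg_one_mul, hmul _ _ (by simp) hv, b _ a, zero_add]
  let c : ZMod 3 → V := fun j => if j = 0 then 1 else if j = 1 then g else g * g
  have c0 : ∀ j, c j ≠ 0 := fun j => by
    rcases cases3 j with rfl | rfl | rfl
    exacts [one_ne_zero, hg, mul_ne_zero hg hg]
  have c1 : ∀ j v, v ≠ 0 → ind (c j * v) = j + ind v := fun j v hv => by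
    rw [hmul _ _ (c0 j) hv]
    rcases cases3 j with rfl | rfl | rfl
    · exact congrArg (· + ind v) h1
    · exact congrArg (· + ind v) hg1
    · exact congrArg (· + ind v) ((hmul g g hg hg).trans (by rw [hg1]; rfl))
  have hVC : (Fintype.card V : ℂ) = 3 * n + 1 := by rw [hV]; push_cast; ring
  have hKC : (Fintype.card K : ℂ) = 3 * m + 2 := by rw [hK]; push_cast; ring
  let a : ZMod 3 → K → V → ZMod 3 := fun k r v => if v = 0 then A k r else ind v + (k - k ^ 2)
  have a0 : ∀ k r, a k r 0 = A k r := fun k r => if_pos rfl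
  have a1 : ∀ k r j v, v ≠ 0 → a k r (c j * v) = j + ind v + (k - k ^ 2) := fun k r j v hv => by
    simp only [a, if_neg (mul_ne_zero (c0 j) hv), c1 j v hv]
  refine ⟨fun k q => a k q.1 q.2, fun k => ?_, fun s => ?_⟩
  · have e1 : ∀ r, ∑ j : ZMod 3, ∑ v, W (a k r v) = 3 * W (A k r) := fun r => by
      rw [sum_congr rfl fun j _ => (Equiv.sum_comp (Equiv.mulLeft₀ (c j) (c0 j))
        fun v => W (a k r v)).symm, sum_comm, sum_eq_single_of_mem 0 (mem_univ _) fun v _ hv => ?_]
      · simp [a0]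
      · simp only [Equiv.mulLeft₀_apply, a1 k r _ v hv, add_assoc, sum3]
        have := W_sum (ind v + (k - k ^ 2))
        rw [zero_add, add_comm 1, add_comm 2]
        linear_combination this
    rw [Fintype.sum_prod_type, ← h.one k]
    refine sum_congr rfl fun r _ => ?_
    have := e1 r
    rw [sum3] at this
    linear_combination (1 / 3 : ℂ) * this
  · let Ψ : V → V → ℂ := fun v v' => ∑ r, ∑ r', Dl s fun k => a k (co r r' k) (co v v' k)
    have e0 : ∑ q : K × V, ∑ q' : K × V, Dl s (fun k => a k (co q q' k).1 (co q q' k).2)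
        = ∑ v, ∑ v', Ψ v v' := by
      rw [Fintype.sum_prod_type_right]
      refine sum_congr rfl fun v _ => ?_
      simp only [Fintype.sum_prod_type_right, Ψ]
      rw [sum_comm]
      refine sum_congr rfl fun v' _ => sum_congr rfl fun r _ => sum_congr rfl fun r' _ => ?_
      congr 1
      funext k
      unfold co
      split_ifs <;> rfl
    have sW : ∀ k e : ZMod 3, ∑ r, ∑ r', W (A k (co r r' k) + e) = -((3 * m + 2) * W (-k ^ 2 + e)) :=
      fun k e => by
        rw [sum_co k fun r => W (A k r + e), hKC]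
        simp only [W_add, ← sum_mul, h.one]
        ring
    let X : ℂ := (3 * m + 2) * (W (s ^ 2 + 2) - W (s ^ 2 + 1))
    have e1 : ∀ v v', ∑ j, Ψ (c j * v) (c j * v') = (if v' = 0 then if v = 0 then 3 * Ψ 0 0 - X
        else 0 else 0) + ((if s = 2 then if v = 0 then X else 0 else 0)
        + (if s = 1 then if v' = 0 then X else 0 else 0)
        + if s = 0 then if v' = -v then X else 0 else 0) := by
      intro v v'
      have ec : ∀ j, -(c j * v) - c j * v' = c j * (-v - v') := fun j => by ring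
      have ex : ∑ j, Ψ (c j * v) (c j * v') = ∑ r, ∑ r', ev (
          dl s (a 0 r (c 0 * v)) (a 1 r' (c 0 * v')) (a 2 (-r - r') (c 0 * (-v - v')))
          + dl s (a 0 r (c 1 * v)) (a 1 r' (c 1 * v')) (a 2 (-r - r') (c 1 * (-v - v')))
          + dl s (a 0 r (c 2 * v)) (a 1 r' (c 2 * v')) (a 2 (-r - r') (c 2 * (-v - v')))) := by
        simp only [sum3, Ψ, Dl_eq, map_add, sum_add_distrib, ← ec]
        rfl
      have z0 : (0 - 0 ^ 2 : ZMod 3) = 0 := rfl
      have z1 : (1 - 1 ^ 2 : ZMod 3) = 0 := rfl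
      have z2 : (2 - 2 ^ 2 : ZMod 3) = 1 := rfl
      by_cases hv : v = 0
      · by_cases hv' : v' = 0
        · subst hv hv'
          simp only [mul_zero, sum3, if_true, neg_zero]
          rcases cases3 s with rfl | rfl | rfl <;> simp +decide <;> ring
        · have hv'' : v' ≠ -v := by simpa [hv] using hv'
          rw [ex, hv]
          simp only [mul_zero, a0, neg_zero, zero_sub, a1 _ _ _ _ hv', hneg _ hv', z1, z2, add_zero,
            a1 _ _ _ _ (neg_ne_zero.2 hv'), (avg3 s _ _ 0).2.1, hv', if_false, if_true, ite_self,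
            zero_add]
          split_ifs with hs
          · have b1 := sW 0 2
            have b2 := sW 0 0
            simp only [co, if_true, add_zero] at b1 b2
            simp only [map_sub, ev_w3, sum_sub_distrib, b1, b2, X, hs]
            rw [show (-0 ^ 2 + 2 : ZMod 3) = 2 ^ 2 + 1 from rfl,
              show (-0 ^ 2 : ZMod 3) = 2 ^ 2 + 2 from rfl]
            ring
          · simp
      · by_cases hv' : v' = 0
        · have hv'' : ¬ (0 : V) = -v := by simpa using hv
          rw [ex, hv']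
          simp only [mul_zero, a0, sub_zero, a1 _ _ _ _ hv, hneg _ hv, z0, z2, add_zero,
            a1 _ _ _ _ (neg_ne_zero.2 hv), (avg3 s _ _ 0).2.2.1, hv, hv'', if_false, if_true,
            ite_self, zero_add]
          split_ifs with hs
          · have b1 := sW 1 0
            have b2 := sW 1 1
            simp only [show ∀ r r' : K, co r r' 1 = r' from fun _ _ => rfl, add_zero] at b1 b2
            simp only [map_sub, ev_w3, sum_sub_distrib, b1, b2, X, hs]
            rw [show (-1 ^ 2 + 1 : ZMod 3) = 1 ^ 2 + 2 from rfl,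
              show (-1 ^ 2 : ZMod 3) = 1 ^ 2 + 1 from rfl]
            ring
          · simp
        · by_cases hs0 : v' = -v
          · rw [ex, hs0]
            simp only [sub_self, mul_zero, a0, a1 _ _ _ _ hv, hneg _ hv, z0, z1, add_zero,
              a1 _ _ _ _ (neg_ne_zero.2 hv), (avg3 s _ _ 0).2.2.2, hv, neg_eq_zero, if_false,
              if_true, ite_self, zero_add]
            split_ifs with hs
            · have b1 := sW 2 2
              have b2 := sW 2 0
              simp only [show ∀ r r' : K, co r r' 2 = -r - r' from fun _ _ => rfl, add_zero] at b1 b2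
              simp only [map_sub, ev_w3, sum_sub_distrib, b1, b2, X, hs]
              rw [show (-2 ^ 2 + 2 : ZMod 3) = 0 ^ 2 + 1 from rfl,
                show (-2 ^ 2 : ZMod 3) = 0 ^ 2 + 2 from rfl]
              ring
            · simp
          · have h3 : -v - v' ≠ 0 := fun e => hs0 (sub_eq_zero.1 e).symm
            rw [ex]
            simp only [a1 _ _ _ _ hv, a1 _ _ _ _ hv', a1 _ _ _ _ h3, add_assoc _ (ind _), zero_add,
              (avg3 s _ _ _).1]
            simp [hv, hv', hs0]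
    have e2 : ∀ j, ∑ v, ∑ v', Ψ (c j * v) (c j * v') = ∑ v, ∑ v', Ψ v v' := fun j => by
      rw [← Equiv.sum_comp (Equiv.mulLeft₀ (c j) (c0 j)) fun v => ∑ v', Ψ v v']
      exact sum_congr rfl fun v _ => Equiv.sum_comp (Equiv.mulLeft₀ (c j) (c0 j)) (Ψ (c j * v))
    have e3 : ∑ j : ZMod 3, ∑ v, ∑ v', Ψ v v' = 3 * Ψ 0 0 - X + Fintype.card V * X := by
      rw [← sum_congr rfl fun j _ => e2 j, sum_comm, sum_congr rfl fun v _ => sum_comm,
        sum_congr rfl fun v _ => sum_congr rfl fun v' _ => e1 v v']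
      rcases cases3 s with rfl | rfl | rfl <;> simp +decide [sum_add_distrib]
    have e4 : Ψ 0 0 = W (s ^ 2) + m * W (s ^ 2 + 2) - (m + 1) * W (s ^ 2 + 1) := by
      rw [← h.two s]
      refine sum_congr rfl fun r _ => sum_congr rfl fun r' _ => ?_
      congr 1
      funext k
      rw [show co (0 : V) 0 k = 0 by unfold co; split_ifs <;> simp, a0]
    rw [sum3, hVC, e4] at e3
    rw [e0]
    push_cast
    linear_combination (1 / 3 : ℂ) * e3

theorem exists_dat (K : Type*) [Field K] [Fintype K] {m : ℕ} (hK : Fintype.card K = 3 * m + 2) :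
    ∃ A : ZMod 3 → K → ZMod 3, Dat m A := by
  classical
  obtain ⟨p, hch, n, hp, hn⟩ := FiniteField.card' K
  have := Fact.mk hp
  let _ := ZMod.algebra K p
  have hr : Module.finrank (ZMod p) K = n := by
    have := Module.card_eq_pow_finrank (K := ZMod p) (V := K)
    rw [hn, ZMod.card] at this
    exact (Nat.pow_right_injective hp.two_le this).symm
  obtain ⟨j, hj⟩ : ∃ j, (n : ℕ) = j + 1 := ⟨n - 1, by have := n.pos; omega⟩
  rw [hj, pow_succ] at hn
  have h3 : p % 3 = 2 ∧ p ^ j % 3 = 1 := by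
    have a1 : (p ^ j * p) % 3 = 2 := by omega
    have a2 : p % 3 = 1 → p ^ j % 3 = 1 := fun e => by rw [Nat.pow_mod, e, one_pow]; rfl
    rw [Nat.mul_mod] at a1
    have : p % 3 < 3 := Nat.mod_lt _ (by norm_num)
    have : p ^ j % 3 < 3 := Nat.mod_lt _ (by norm_num)
    generalize p ^ j % 3 = y at *
    generalize p % 3 = x at *
    interval_cases x <;> interval_cases y <;> simp_all
  obtain ⟨m₀, rfl⟩ : ∃ m₀, p = 3 * m₀ + 2 := ⟨p / 3, by omega⟩
  rcases Nat.eq_zero_or_pos j with rfl | hj0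
  · obtain rfl : m = m₀ := by rw [pow_zero] at hn; omega
    exact ⟨_, (dat_zmod m).comp (LinearEquiv.ofFinrankEq (R := ZMod (3 * m + 2)) K _
      (by simp [hr, hj])).toAddEquiv⟩
  · let _ := Fintype.ofFinite (GaloisField (3 * m₀ + 2) j)
    obtain ⟨n₀, hn₀⟩ : ∃ n₀, (3 * m₀ + 2) ^ j = 3 * n₀ + 1 := ⟨(3 * m₀ + 2) ^ j / 3, by omega⟩
    obtain ⟨A, hA⟩ := (dat_zmod m₀).ext (V := GaloisField (3 * m₀ + 2) j) (n := n₀) (ZMod.card _)
      (by rw [← hn₀, ← Nat.card_eq_fintype_card, GaloisField.card _ _ hj0.ne'])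
    obtain rfl : m = m₀ + (3 * m₀ + 2) * n₀ := by
      rw [hn₀, hK] at hn
      nlinarith
    exact ⟨_, hA.comp (LinearEquiv.ofFinrankEq (R := ZMod (3 * m₀ + 2)) K _
      (by simp [hr, hj, GaloisField.finrank _ hj0.ne', add_comm])).toAddEquiv⟩

end Pool.Agent.Lib.MP_2d211a_co.H1
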