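import Pool.Agent.Lib.MP_2d211a_co.Defs
import Pool.Agent.Lib.MP_2d211a_co.H1Bent

/-!
From the bent function to relative difference sets.
-/

open Finset

namespace Pool.Agent.Lib.MP_2d211a_co.H1

/-- all differences are balanced -/
def PN {A : Type*} [AddCommGroup A] [Fintype A] (B : A → ZMod 3) : Prop :=
  ∀ d, d ≠ 0 → ∑ g, W (B (g + d) - B g) = 0

section
variable {A : Type*} [AddCommGroup A] [Fintype A] {B : A → ZMod 3}

theorem pn_of_bent [DecidableEq A] {I : Type*} [Fintype I] (e : I → A → ℂ) {n c : ℂ} (hn : n ≠ 0)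
    (h1 : ∀ i g g', e i (g + g') = e i g * e i g')
    (h2 : ∀ i g, (starRingEnd ℂ) (e i g) = e i (-g))
    (h3 : ∀ d, ∑ i, e i d = if d = 0 then n else 0)
    (h4 : ∀ i, (∑ g, W (B g) * e i g) * (starRingEnd ℂ) (∑ g, W (B g) * e i g) = c) : PN B := by
  intro d hd
  have a1 : ∑ i, (∑ g, W (B g) * e i g) * (starRingEnd ℂ) (∑ g, W (B g) * e i g) * e i (-d) = 0 := by
    simp only [h4, ← mul_sum, h3, neg_eq_zero, hd, if_false, mul_zero]
  have a2 : ∀ i, (∑ g, W (B g) * e i g) * (starRingEnd ℂ) (∑ g, W (B g) * e i g) * e i (-d)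
      = ∑ g', ∑ g, W (B g - B g') * e i (g - (g' + d)) := fun i => by
    rw [map_sum, mul_sum, sum_mul]
    refine sum_congr rfl fun g' _ => ?_
    rw [sum_mul, sum_mul]
    refine sum_congr rfl fun g _ => ?_
    rw [map_mul, W_conj, h2, sub_eq_add_neg, W_add, sub_eq_add_neg, neg_add, h1, h1]
    ring
  rw [sum_congr rfl fun i _ => a2 i, sum_comm, sum_congr rfl (g := fun g' =>
    W (B (g' + d) - B g') * n) fun g' _ => by
      rw [sum_comm]
      simp only [← mul_sum, h3, sub_eq_zero, mul_ite, mul_zero, sum_ite_eq', mem_univ, if_true],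
    ← sum_mul] at a1
  exact (mul_eq_zero.1 a1).resolve_right hn

theorem PN.comp {A' : Type*} [AddCommGroup A'] [Fintype A'] (h : PN B) (e : A' ≃+ A) :
    PN (B ∘ e) := fun d hd => by
  rw [← h (e d) (by simpa using hd), ← Equiv.sum_comp e.toEquiv]
  simp

theorem PN.unif (h : PN B) {d : A} (hd : d ≠ 0) (φ : ZMod 3 → ℕ) :
    (∑ g, φ (B (g + d) - B g)) * 3 = Fintype.card A * ∑ j, φ j := by
  have h1 := h d hd
  have h2 : ∑ g, W (-(B (g + d) - B g)) = 0 := by
    simp only [← W_conj, ← map_sum, h1, map_zero]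
  have h3 : ∀ D : ZMod 3, (φ D : ℂ) * 3 = (φ 0 + φ 1 + φ 2)
      + (φ 0 + φ 1 * W 2 + φ 2 * W 1) * W D + (φ 0 + φ 1 * W 1 + φ 2 * W 2) * W (-D) := by
    intro D
    have h2 : W 1 * W 1 = -1 - W 1 := by rw [← W_add, ← W_rel]; rfl
    rcases cases3 D with rfl | rfl | rfl
    · rw [neg_zero, AddChar.map_zero_eq_one, W_rel]; ring
    · rw [show (-1 : ZMod 3) = 2 from rfl, W_rel]
      linear_combination (2 * φ 1 - 2 * φ 2 : ℂ) * h2
    · rw [show (-2 : ZMod 3) = 1 from rfl, W_rel]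
      linear_combination (2 * φ 2 - 2 * φ 1 : ℂ) * h2
  have h4 : ((∑ g, φ (B (g + d) - B g) : ℕ) : ℂ) * 3 = Fintype.card A * (φ 0 + φ 1 + φ 2) := by
    rw [Nat.cast_sum, sum_mul, sum_congr rfl fun g _ => h3 _, sum_add_distrib, sum_add_distrib,
      ← mul_sum, ← mul_sum, h1, h2, sum_const, card_univ, nsmul_eq_mul]
    ring
  rw [sum3]
  exact_mod_cast h4

end

theorem exists_pn (K : Type*) [Field K] [Fintype K] (h3 : Fintype.card K % 3 = 2) :
    ∃ B : ZMod 3 × (Fin 4 → K) → ZMod 3, PN B := by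
  classical
  obtain ⟨F, _, _, _, _, m, T, ind, c, A, h, hr⟩ := exists_setup K h3
  generalize Fintype.card K = p at h h3
  have hp0 : (p : ℂ) ≠ 0 := Nat.cast_ne_zero.2 (by omega)
  have h1 : PN fun g : ZMod 3 × F × F => bf T ind c A g.1 g.2.1 g.2.2 := by
    refine pn_of_bent (fun (i g : ZMod 3 × F × F) =>
      W (i.1 * g.1) * chi T (g.2.1 * i.2.1 + g.2.2 * i.2.2)) (n := 3 * (p ^ 2 * p ^ 2))
      (c := 3 * p ^ 4) (by simp [hp0]) (fun i g g' => ?_) (fun i g => ?_) (fun d => ?_) fun i => ?_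
    · simp only [Prod.fst_add, Prod.snd_add, mul_add, add_mul, AddChar.map_add_eq_mul]
      ring
    · simp only [map_mul, ← AddChar.map_neg_eq_conj, Prod.fst_neg, Prod.snd_neg, mul_neg, neg_mul,
        neg_add]
    · obtain ⟨s, x, y⟩ := d
      simp only [Fintype.sum_prod_type, AddChar.map_add_eq_mul, ← mul_sum, ← sum_mul, mul_comm x,
        mul_comm y, h.orth, AddChar.sum_mulShift s W_prim, Prod.mk_eq_zero]
      by_cases h1 : s = 0 <;> by_cases h2 : x = 0 <;> by_cases h3 : y = 0 <;> simp [h1, h2, h3]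
    · refine h.bent i.1 i.2.1 i.2.2 ?_
      simp only [Fintype.sum_prod_type, mul_sum]
      refine sum_congr rfl fun _ _ => sum_congr rfl fun _ _ => sum_congr rfl fun _ _ => ?_
      ring
  have : Module.Finite K F := Module.Finite.of_finite
  let e : (Fin 4 → K) ≃ₗ[K] F × F := LinearEquiv.ofFinrankEq _ _ (by simp [hr])
  exact ⟨_, h1.comp ((AddEquiv.refl _).prodCongr e.toAddEquiv)⟩

theorem prod_rds {P : Type*} [Group P] [Fintype P] [DecidableEq P] {N : Subgroup P}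
    (hN : N ≤ Subgroup.center P) (hc : Nat.card N = 3) (R : Finset P)
    (hT : ∀ e : P, ∃! r, r ∈ R ∧ r * e⁻¹ ∈ N) (hR : R.card * 3 = Nat.card P)
    (hU : ∀ e, e ∉ N → ((R ×ˢ R).filter fun q => q.1 * q.2⁻¹ = e).card * 3 = R.card)
    {A : Type*} [AddCommGroup A] [Fintype A] [DecidableEq A] [Nontrivial A] {B : A → ZMod 3}
    (hB : PN B) : ∃ S, IsSemiregularRDS (N.prod ⊥ : Subgroup (P × Multiplicative A)) S := by
  have : Fact (Nat.Prime 3) := ⟨Nat.prime_three⟩
  let ι0 : Multiplicative (ZMod 3) ≃* N := mulEquivOfPrimeCardEq (p := 3) (by simp) hc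
  let ι : ZMod 3 → P := fun j => ι0 (Multiplicative.ofAdd j)
  have i1 : ∀ j, ι j ∈ N := fun j => (ι0 _).2
  have i2 : ∀ i j, ι (i - j) = ι i * (ι j)⁻¹ := fun i j => by
    simp only [ι, ofAdd_sub, div_eq_mul_inv, map_mul, map_inv, Subgroup.coe_mul,
      Subgroup.coe_inv]
  have i3 : ∀ n ∈ N, ∃! j, ι j = n := fun n hn =>
    ⟨(ι0.symm ⟨n, hn⟩).toAdd, by simp [ι], fun j hj => by
      rw [← toAdd_ofAdd j, ← ι0.symm_apply_apply (Multiplicative.ofAdd j)]
      congr 2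
      exact Subtype.ext hj⟩
  have i4 : ∀ j g, g * ι j = ι j * g := fun j => Subgroup.mem_center_iff.1 (hN (i1 j))
  have i5 : ∀ i j r r', ι i * r * (ι j * r')⁻¹ = ι (i - j) * (r * r'⁻¹) := fun i j r r' => by
    rw [i2, ← i4 j r', mul_inv_rev, mul_assoc (ι i), mul_assoc (ι i), ← mul_assoc r, ← mul_assoc _ r]
    congr 2
    rw [eq_inv_mul_iff_mul_eq, ← mul_assoc, ← i4, mul_inv_cancel_right]
  have inn : ∀ r ∈ R, ∀ r' ∈ R, r * r'⁻¹ ∈ N → r = r' := fun r hr r' hr' e =>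
    (hT r').unique ⟨hr, e⟩ ⟨hr', by simp⟩
  let f : P × A → P × Multiplicative A := fun q => (ι (B q.2) * q.1, Multiplicative.ofAdd q.2)
  have hf : Function.Injective f := fun q q' e => by
    obtain ⟨e1, e2⟩ := Prod.mk.inj e
    replace e2 : q.2 = q'.2 := Multiplicative.ofAdd.injective e2
    rw [e2] at e1
    exact Prod.ext (mul_left_cancel e1) e2
  have hcN : Nat.card (N.prod ⊥ : Subgroup (P × Multiplicative A)) = 3 := by
    rw [Nat.card_congr (Subgroup.prodEquiv N ⊥).toEquiv, Nat.card_prod, hc, Subgroup.card_bot]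
  have hcE : Nat.card (P × Multiplicative A) = Nat.card P * Fintype.card A := by
    rw [Nat.card_prod, Nat.card_eq_fintype_card (α := Multiplicative A), Fintype.card_multiplicative]
  have hS : (((R ×ˢ univ).image f : Finset _) : Set (P × Multiplicative A)).ncard
      = R.card * Fintype.card A := by
    rw [Set.ncard_coe_finset, card_image_of_injective _ hf, card_product, card_univ]
  have hnorm : N.Normal := ⟨fun n hn g => by
    rwa [Subgroup.mem_center_iff.1 (hN hn) g, mul_inv_cancel_right]⟩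
  let cnt : P → ℕ := fun e => ((R ×ˢ R).filter fun q => q.1 * q.2⁻¹ = e).card
  refine ⟨((R ×ˢ univ).image f : Finset _), inferInstance, by rw [hcN]; norm_num, ?_, ?_,
    fun g hg => ?_, fun g hg hg1 a ha b hb e => ?_⟩
  · have a1 := Subgroup.card_le_card_group N
    have a2 : 1 < Fintype.card A := Fintype.one_lt_card
    rw [hcN, hcE]
    nlinarith
  · rw [hS, hcN, hcE, ← hR]; ring
  · obtain ⟨e, d⟩ := g
    have key : {q : (P × Multiplicative A) × (P × Multiplicative A) |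
        q.1 ∈ (((R ×ˢ univ).image f : Finset _) : Set _) ∧
        q.2 ∈ (((R ×ˢ univ).image f : Finset _) : Set _) ∧ q.1 * q.2⁻¹ = (e, d)}.ncard
        = ∑ g : A, cnt ((ι (B (g + d.toAdd) - B g))⁻¹ * e) := by
      rw [← card_sigma, ← Set.ncard_coe_finset]
      symm
      refine Set.ncard_congr (fun x _ => (f (x.2.1, x.1 + d.toAdd), f (x.2.2, x.1))) ?_ ?_ ?_
      · rintro ⟨g, r, r'⟩ hx
        simp only [coe_sigma, coe_univ, coe_filter, mem_product, Set.mem_sigma_iff, Set.mem_univ,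
          Set.mem_ofPred_eq, true_and] at hx
        refine ⟨mem_coe.2 (mem_image_of_mem f (mem_product.2 ⟨hx.1.1, mem_univ _⟩)),
          mem_coe.2 (mem_image_of_mem f (mem_product.2 ⟨hx.1.2, mem_univ _⟩)), Prod.ext ?_ ?_⟩
        · change ι _ * r * (ι _ * r')⁻¹ = e
          rw [i5, hx.2, mul_inv_cancel_left]
        · change Multiplicative.ofAdd (g + d.toAdd) * (Multiplicative.ofAdd g)⁻¹ = d
          rw [ofAdd_add, mul_inv_cancel_comm, ofAdd_toAdd]
      · rintro ⟨g, r, r'⟩ ⟨g1, r1, r1'⟩ _ _ e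
        obtain ⟨e1, e2⟩ := Prod.mk.inj e
        obtain ⟨rfl, -⟩ := Prod.mk.inj (hf e1)
        obtain ⟨rfl, rfl⟩ := Prod.mk.inj (hf e2)
        rfl
      · rintro ⟨a, b⟩ ⟨ha, hb, hab⟩
        obtain ⟨⟨r, g1⟩, h1, rfl⟩ := mem_image.1 (mem_coe.1 ha)
        obtain ⟨⟨r', g⟩, h2, rfl⟩ := mem_image.1 (mem_coe.1 hb)
        have e1 : ι (B g1) * r * (ι (B g) * r')⁻¹ = e := congrArg Prod.fst hab
        have e2 : Multiplicative.ofAdd g1 * (Multiplicative.ofAdd g)⁻¹ = d := congrArg Prod.snd hab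
        obtain rfl : g1 = g + d.toAdd := by rw [← e2]; simp
        refine ⟨⟨g, r, r'⟩, ?_, rfl⟩
        simp only [coe_sigma, coe_univ, coe_filter, mem_product, Set.mem_sigma_iff, Set.mem_univ,
          Set.mem_ofPred_eq, true_and]
        exact ⟨⟨(mem_product.1 h1).1, (mem_product.1 h2).1⟩, by
          rw [← e1, i5, inv_mul_cancel_left]⟩
    rw [key, hcN, hS]
    by_cases hd : d.toAdd = 0
    · have he : e ∉ N := fun he => hg ⟨he, hd⟩
      have i0 : ι 0 = 1 := by simp [ι]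
      simp only [hd, add_zero, sub_self, i0, inv_one, one_mul, sum_const, card_univ, smul_eq_mul]
      rw [mul_assoc, hU e he, mul_comm]
    · rw [hB.unif hd fun j => cnt ((ι j)⁻¹ * e), mul_comm, ← card_sigma]
      congr 1
      refine card_bij (fun x _ => x.2.2) (fun x hx => ?_) ?_ fun r' hr' => ?_
      · exact (mem_product.1 (mem_filter.1 (mem_sigma.1 hx).2).1).2
      · rintro ⟨j, r, r'⟩ h1 ⟨j1, r1, r1'⟩ h2 (rfl : r' = r1')
        obtain ⟨a1, a2⟩ := mem_filter.1 (mem_sigma.1 h1).2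
        obtain ⟨b1, b2⟩ := mem_filter.1 (mem_sigma.1 h2).2
        dsimp only at a2 b2
        obtain rfl : r = r1 := inn r (mem_product.1 a1).1 r1 (mem_product.1 b1).1 (by
          rw [show r * r1⁻¹ = (r * r'⁻¹) * (r1 * r'⁻¹)⁻¹ by group, a2, b2,
            show (ι j)⁻¹ * e * ((ι j1)⁻¹ * e)⁻¹ = (ι j)⁻¹ * ι j1 by group]
          exact N.mul_mem (N.inv_mem (i1 j)) (i1 j1))
        obtain rfl : j = j1 := (i3 _ (i1 j)).unique rfl
          (inv_injective (mul_right_cancel (b2.symm.trans a2)))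
        rfl
      · obtain ⟨r, ⟨h1, h2⟩, -⟩ := hT (e * r')
        obtain ⟨j, hj, -⟩ := i3 _ (N.inv_mem h2)
        exact ⟨⟨j, r, r'⟩, mem_sigma.2 ⟨mem_univ _, mem_filter.2 ⟨mem_product.2 ⟨h1, hr'⟩, by
          rw [hj]; group⟩⟩, rfl⟩
  · obtain ⟨⟨r, g1⟩, h1, rfl⟩ := mem_image.1 (mem_coe.1 ha)
    obtain ⟨⟨r', g2⟩, h2, rfl⟩ := mem_image.1 (mem_coe.1 hb)
    subst e
    have e2 : Multiplicative.ofAdd g1 * (Multiplicative.ofAdd g2)⁻¹ = 1 := hg.2
    obtain rfl : g1 = g2 := Multiplicative.ofAdd.injective (mul_inv_eq_one.1 e2)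
    have e1 : ι (B g1) * r * (ι (B g1) * r')⁻¹ ∈ N := hg.1
    rw [i5, N.mul_mem_cancel_left (i1 _)] at e1
    obtain rfl := inn r (mem_product.1 h1).1 r' (mem_product.1 h2).1 e1
    exact hg1 (mul_inv_cancel _)

end Pool.Agent.Lib.MP_2d211a_co.H1
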