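import Mathlib

/-!
Cube roots of unity, finite checks and a lattice point count.
-/

open Finset

namespace Pool.Agent.Lib.MP_2d211a_co.H1

/-- the character of order three -/
noncomputable def W : AddChar (ZMod 3) ℂ := ZMod.stdAddChar

theorem W_add (a b : ZMod 3) : W (a + b) = W a * W b := AddChar.map_add_eq_mul _ _ _

theorem W_prim : W.IsPrimitive := ZMod.isPrimitive_stdAddChar 3

theorem sum3 {A : Type*} [AddCommMonoid A] (φ : ZMod 3 → A) : ∑ i, φ i = φ 0 + φ 1 + φ 2 :=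
  Fin.sum_univ_three φ

theorem W_sum (a : ZMod 3) : W a + W (a + 1) + W (a + 2) = 0 := by
  have h := AddChar.sum_eq_zero_of_ne_one (ψ := W) (by
    have := W_prim (a := 1) (by decide)
    rwa [AddChar.mulShift_one] at this)
  rw [sum3, AddChar.map_zero_eq_one] at h
  rw [W_add, W_add]
  linear_combination W a * h

theorem W_rel : W 2 = -1 - W 1 := by
  have h := W_sum 0
  rw [zero_add, zero_add, AddChar.map_zero_eq_one] at h
  linear_combination h

theorem W_conj (a : ZMod 3) : (starRingEnd ℂ) (W a) = W (-a) :=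
  (AddChar.map_neg_eq_conj W a).symm

/-- coordinates of a cube root of unity -/
def w3 (j : ZMod 3) : ℤ × ℤ := if j = 0 then (1, 0) else if j = 1 then (0, 1) else (-1, -1)

/-- the Eisenstein integer with given coordinates -/
noncomputable def ev : ℤ × ℤ →+ ℂ where
  toFun z := z.1 + z.2 * W 1
  map_zero' := by simp
  map_add' a b := by simp only [Prod.fst_add, Prod.snd_add, Int.cast_add]; ring

theorem ev_apply (z : ℤ × ℤ) : ev z = z.1 + z.2 * W 1 := rfl

theorem cases3 (j : ZMod 3) : j = 0 ∨ j = 1 ∨ j = 2 := by revert j; decide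

theorem ev_w3 (j : ZMod 3) : ev (w3 j) = W j := by
  rcases cases3 j with rfl | rfl | rfl
  · simp [ev_apply, w3]
  · rw [ev_apply, show w3 1 = (0, 1) by decide]; simp
  · rw [ev_apply, show w3 2 = (-1, -1) by decide, W_rel]; simp; ring

/-- the norm form -/
def nrm (z : ℤ × ℤ) : ℤ := z.1 ^ 2 - z.1 * z.2 + z.2 ^ 2

theorem ev_norm {z : ℤ × ℤ} {X : ℂ} (h : nrm z = 3) (e : ev z = X) :
    X * (starRingEnd ℂ) X = 3 := by
  subst e
  have h1 : ((nrm z : ℤ) : ℂ) = 3 := by rw [h]; norm_num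
  have h2 : W 1 * W 1 = -1 - W 1 := by rw [← W_add, ← W_rel]; rfl
  rw [ev_apply, map_add, map_mul, W_conj, show (-1 : ZMod 3) = 2 from rfl, W_rel, ← h1, nrm]
  simp only [map_intCast]
  push_cast
  linear_combination (-(z.2 : ℂ) ^ 2) * h2

/-- the three values agree -/
abbrev Cst (s : ZMod 3) (g : ZMod 3 → ZMod 3) : Prop := g 0 = g 1 + s ∧ g 0 = g 2 + 2 * s

/-- the correction on a line -/
noncomputable def Dl (s : ZMod 3) (g : ZMod 3 → ZMod 3) : ℂ :=
  if Cst s g then W (g 0 + 2) - W (g 0) else 0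

theorem W_mod (s k : ZMod 3) (g : ZMod 3 → ZMod 3) :
    W (g k + s * k + if Cst s g then 2 else 0) = W (g k + s * k) + Dl s g := by
  unfold Dl
  split_ifs with h
  · have : g k + s * k = g 0 := by
      rcases cases3 k with rfl | rfl | rfl
      · simp
      · rw [h.1, mul_one]
      · rw [h.2, mul_comm]
    rw [this]; ring
  · simp

theorem chk1 : ∀ t β g0 g1 g2 : ZMod 3, nrm (w3 (t * β + g0) + w3 (t * β + (g1 + β))
    + w3 (t * β + (g2 + β * 2))
    + ((if g0 = g1 + 0 ∧ g0 = g2 + 2 * 0 then w3 (t * 0 + (g0 + 2)) - w3 (t * 0 + g0) else 0)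
      + (if g0 = g1 + 1 ∧ g0 = g2 + 2 * 1 then w3 (t * 1 + (g0 + 2)) - w3 (t * 1 + g0) else 0)
      + (if g0 = g1 + 2 ∧ g0 = g2 + 2 * 2 then w3 (t * 2 + (g0 + 2)) - w3 (t * 2 + g0) else 0)))
    = 3 := by decide +kernel

theorem norm1 (t β : ZMod 3) (g : ZMod 3 → ZMod 3) {X : ℂ}
    (hX : X = ∑ s, W (t * s) * ((if β = s then ∑ k, W (g k + s * k) else 0) + Dl s g)) :
    X * (starRingEnd ℂ) X = 3 := by
  refine ev_norm (chk1 t β (g 0) (g 1) (g 2)) ?_
  have e : ∀ s, ev (if g 0 = g 1 + s ∧ g 0 = g 2 + 2 * s then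
      w3 (t * s + (g 0 + 2)) - w3 (t * s + g 0) else 0) = W (t * s) * Dl s g := by
    intro s
    unfold Dl Cst
    split_ifs
    · rw [map_sub, ev_w3, ev_w3, W_add (t * s), W_add (t * s)]; ring
    · simp
  have e2 : X = W (t * β) * ∑ k, W (g k + β * k) + ∑ s, W (t * s) * Dl s g := by
    rw [hX]
    simp only [mul_add, sum_add_distrib, mul_ite, mul_zero, sum_ite_eq, mem_univ, if_true]
  simp only [map_add, e, ev_w3]
  rw [e2]
  simp only [sum3, W_add (t * β), mul_zero, add_zero, mul_one]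
  ring

theorem chk2 : ∀ t α : ZMod 3, nrm
    (w3 (t * 0 + (0 ^ 2 + 2)) - w3 (t * 0 + (0 * (-α + 0) - (-α + 0) ^ 2))
      + (w3 (t * 1 + (1 ^ 2 + 2)) - w3 (t * 1 + (1 * (-α + 1) - (-α + 1) ^ 2)))
      + (w3 (t * 2 + (2 ^ 2 + 2)) - w3 (t * 2 + (2 * (-α + 2) - (-α + 2) ^ 2)))) = 3 := by
  decide +kernel

theorem norm2 (t α : ZMod 3) {X : ℂ}
    (hX : X = ∑ s, W (t * s) * (W (s ^ 2 + 2) - W (s * (-α + s) - (-α + s) ^ 2))) :
    X * (starRingEnd ℂ) X = 3 := by
  refine ev_norm (chk2 t α) ?_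
  rw [hX]
  simp only [map_add, map_sub, ev_w3, sum3, mul_sub (W _), ← W_add]

theorem chk3 : ∀ t : ZMod 3,
    nrm (w3 (t * 0 + 0 ^ 2) + w3 (t * 1 + 1 ^ 2) + w3 (t * 2 + 2 ^ 2)) = 3 := by decide +kernel

theorem norm3 (t : ZMod 3) {X : ℂ} (hX : X = ∑ s, W (t * s) * W (s ^ 2)) :
    X * (starRingEnd ℂ) X = 3 := by
  refine ev_norm (chk3 t) ?_
  rw [hX]
  simp only [map_add, ev_w3, sum3, ← W_add]

theorem tau_sum (s j : ZMod 3) : ∑ i, W (s * (i + j) - (i + j) ^ 2)
    = 2 * W (s ^ 2 + 2) + W (s ^ 2) := by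
  have : ∀ s j : ZMod 3, w3 (s * (0 + j) - (0 + j) ^ 2) + w3 (s * (1 + j) - (1 + j) ^ 2)
      + w3 (s * (2 + j) - (2 + j) ^ 2) = w3 (s ^ 2 + 2) + w3 (s ^ 2 + 2) + w3 (s ^ 2) := by
    decide +kernel
  have h := congrArg ev (this s j)
  simp only [map_add, ev_w3] at h
  rw [sum3, h]; ring

theorem sum_range_W (m : ℕ) (e : ZMod 3) : ∑ r ∈ range (3 * m), W (r + e) = 0 := by
  induction m with
  | zero => simp
  | succ m ih =>
    rw [mul_add, mul_one, sum_range_succ, sum_range_succ, sum_range_succ, ih]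
    push_cast
    rw [show (3 : ZMod 3) = 0 from rfl]
    have := W_sum e
    simp only [zero_mul, zero_add, add_zero, add_comm _ e, add_assoc] at this ⊢
    exact this

/-- weight of a lattice point -/
noncomputable def pt (s x y : ZMod 3) : ℂ := if x + 1 = y + s then W (x + 1) else 0

theorem pt_three (s x : ZMod 3) (n : ℕ) :
    ∑ y ∈ range (n + 3), pt s x y = ∑ y ∈ range n, pt s x y + W (x + 1) := by
  rw [sum_range_succ, sum_range_succ, sum_range_succ, add_assoc, add_assoc]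
  congr 1
  push_cast
  generalize (n : ZMod 3) = y
  have : ∀ s x y : ZMod 3, (x + 1 = y + s ∧ x + 1 ≠ y + 1 + s ∧ x + 1 ≠ y + 2 + s) ∨
      (x + 1 ≠ y + s ∧ x + 1 = y + 1 + s ∧ x + 1 ≠ y + 2 + s) ∨
      (x + 1 ≠ y + s ∧ x + 1 ≠ y + 1 + s ∧ x + 1 = y + 2 + s) := by decide +kernel
  unfold pt
  rcases this s x y with ⟨a, b, c⟩ | ⟨a, b, c⟩ | ⟨a, b, c⟩
  · rw [if_pos a, if_neg b, if_neg c]; ring
  · rw [if_neg a, if_pos b, if_neg c]; ring
  · rw [if_neg a, if_neg b, if_pos c]; ring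

theorem tri (s : ZMod 3) (m : ℕ) : ∑ x ∈ range (3 * m), ∑ y ∈ range (3 * m - x), pt s x y
    = m * (pt s 0 0 + pt s 0 1 + pt s 0 2 + pt s 1 0 + pt s 1 1 + pt s 2 0) := by
  induction m with
  | zero => simp
  | succ m ih =>
    rw [mul_add, mul_one, sum_range_succ, sum_range_succ, sum_range_succ,
      sum_congr rfl (g := fun x => ∑ y ∈ range (3 * m - x), pt s x y + W (x + 1)) fun x hx => by
        rw [show 3 * m + 3 - x = 3 * m - x + 3 by have := mem_range.1 hx; omega, pt_three],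
      sum_add_distrib, ih, sum_range_W, show 3 * m + 3 - 3 * m = 3 by omega,
      show 3 * m + 3 - (3 * m + 1) = 2 by omega, show 3 * m + 3 - (3 * m + 2) = 1 by omega]
    simp only [sum_range_succ, sum_range_zero]
    push_cast
    rw [show (3 : ZMod 3) = 0 from rfl]
    simp only [zero_mul, zero_add]
    ring

theorem pt_val (s : ZMod 3) (m : ℂ) :
    (W 2 - 1) * ((m + 1) * (pt s 0 0 + pt s 0 1 + pt s 0 2 + pt s 1 0 + pt s 1 1 + pt s 2 0)
      - pt s 0 0 - pt s 0 2 - pt s 2 0)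
      = W (s ^ 2) + m * W (s ^ 2 + 2) - (m + 1) * W (s ^ 2 + 1) := by
  have h2 : W 1 * W 1 = -1 - W 1 := by rw [← W_add, ← W_rel]; rfl
  have e : ∀ s x y : ZMod 3, pt s x y = ev (if x + 1 = y + s then w3 (x + 1) else 0) := by
    intro s x y
    unfold pt
    split_ifs
    · rw [ev_w3]
    · simp
  simp only [e, ← map_add]
  rw [W_rel, ← ev_w3 (s ^ 2), ← ev_w3 (s ^ 2 + 2), ← ev_w3 (s ^ 2 + 1)]
  rcases cases3 s with rfl | rfl | rfl
  · simp +decide only [ev_apply, w3, if_true, if_false, Prod.fst_add, Prod.snd_add, Prod.fst_zero,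
      Prod.snd_zero]
    push_cast
    linear_combination (-(m + 1)) * h2
  · simp +decide only [ev_apply, w3, if_true, if_false, Prod.fst_add, Prod.snd_add, Prod.fst_zero,
      Prod.snd_zero]
    push_cast
    linear_combination (1 : ℂ) * h2
  · simp +decide only [ev_apply, w3, if_true, if_false, Prod.fst_add, Prod.snd_add, Prod.fst_zero,
      Prod.snd_zero]
    push_cast
    linear_combination (1 : ℂ) * h2

/-- the three values at a point of the plane -/
def gv (a b c : ℕ) : ZMod 3 → ZMod 3 := fun k => if k = 0 then a + 1 else if k = 1 then b else c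

theorem Dl_gv (s : ZMod 3) {m a b c : ℕ} (ha : a < 3 * m + 2) (hb : b < 3 * m + 2)
    (hc : c < 3 * m + 2) (h : 3 * m + 2 ∣ a + b + c) :
    Dl s (gv a b c) = (W 2 - 1) * ((if a + b ≤ 3 * m + 2 then pt s a b else 0)
      - if a = 0 ∧ b = 0 then pt s 0 0 else 0) := by
  obtain ⟨d, hd⟩ := h
  have hd3 : d < 3 := by
    by_contra hn
    have := Nat.mul_le_mul_left (3 * m + 2) (not_lt.1 hn)
    omega
  have hz : (a : ZMod 3) + b + c = 2 * d := by
    have := congrArg (Nat.cast : ℕ → ZMod 3) hd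
    push_cast at this
    rw [this, show (3 : ZMod 3) = 0 from rfl]; ring
  have g0 : gv a b c 0 = a + 1 := rfl
  have g1 : gv a b c 1 = b := rfl
  have g2 : gv a b c 2 = c := rfl
  simp only [Dl, Cst, pt, g0, g1, g2]
  have k1 : ∀ x y z s : ZMod 3, x + y + z = 2 * ((1 : ℕ) : ZMod 3) →
      ((x + 1 = y + s ∧ x + 1 = z + 2 * s) ↔ x + 1 = y + s) := by decide +kernel
  have k2 : ∀ x y z s : ZMod 3, x + y + z = 2 * ((0 : ℕ) : ZMod 3) ∨
      x + y + z = 2 * ((2 : ℕ) : ZMod 3) → ¬ (x + 1 = y + s ∧ x + 1 = z + 2 * s) := by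
    decide +kernel
  interval_cases d
  · obtain ⟨rfl, rfl⟩ : a = 0 ∧ b = 0 := by omega
    rw [if_neg (k2 _ _ _ _ (Or.inl hz))]
    simp
  · rw [if_pos (show a + b ≤ 3 * m + 2 by omega), if_neg (show ¬ (a = 0 ∧ b = 0) by omega)]
    simp only [k1 _ _ _ _ hz]
    split_ifs
    · rw [W_add _ 2]; ring
    · simp
  · rw [if_neg (k2 _ _ _ _ (Or.inr hz)), if_neg (by omega), if_neg (by omega)]
    simp

theorem tri_sq (s : ZMod 3) (m : ℕ) : ∑ a ∈ range (3 * m + 2), ∑ b ∈ range (3 * m + 2),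
    (W 2 - 1) * ((if a + b ≤ 3 * m + 2 then pt s a b else 0)
      - if a = 0 ∧ b = 0 then pt s 0 0 else 0)
      = W (s ^ 2) + m * W (s ^ 2 + 2) - (m + 1) * W (s ^ 2 + 1) := by
  have h1 := tri s (m + 1)
  have h2 : ∀ x ∈ range (3 * m + 2), ∑ y ∈ range (3 * (m + 1) - x), pt s x y
      = ∑ y ∈ range (3 * m + 2), (if x + y ≤ 3 * m + 2 then pt s x y else 0)
        + if x = 0 then pt s 0 2 else 0 := by
    intro x hx
    have e : ∑ y ∈ range (3 * (m + 1) - x), pt s x y
        = ∑ y ∈ range (3 * m + 2 + 1), if x + y ≤ 3 * m + 2 then pt s x y else 0 := by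
      rw [← sum_filter]
      refine sum_congr ?_ fun _ _ => rfl
      ext y
      simp only [mem_range, mem_filter]
      omega
    rw [e, sum_range_succ]
    congr 1
    by_cases h0 : x = 0
    · subst h0
      rw [if_pos (by omega), if_pos rfl]
      push_cast
      rw [show (3 : ZMod 3) = 0 from rfl, zero_mul, zero_add]
    · rw [if_neg (by omega), if_neg h0]
  rw [show 3 * (m + 1) = 3 * m + 2 + 1 from rfl, sum_range_succ,
    show 3 * m + 2 + 1 - (3 * m + 2) = 1 by omega, sum_range_one] at h1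
  rw [show 3 * (m + 1) = 3 * m + 2 + 1 from rfl] at h2
  rw [sum_congr rfl h2, sum_add_distrib, sum_ite_eq', if_pos (by simp)] at h1
  push_cast at h1
  rw [show (3 : ZMod 3) = 0 from rfl, zero_mul, zero_add] at h1
  simp only [← mul_sum, sum_sub_distrib, ite_and, sum_ite_irrel, sum_ite_eq', sum_const_zero,
    mem_range, show 0 < 3 * m + 2 by omega, if_true]
  rw [← pt_val s m, ← h1]
  ring

end Pool.Agent.Lib.MP_2d211a_co.H1
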