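import Pool.Agent.Lib.MP_2d211a_co.H30Inn

/-! Characters of a normal elementary abelian subgroup that are non-trivial on `z`. -/

namespace Pool.Agent.Lib.MP_2d211a_co.H30

open MonoidAlgebra Finset H62 Subgroup

variable {E : Type} [Group E] [Finite E] {z : E} {C P D M : Subgroup E} {a : ℕ} {hz : Cen 2 z}

/-- The characters of `M` with value `-1` at `z`. -/
@[ext] structure Om (hz : Cen 2 z) (M : Subgroup E) : Type where
  val : M →* ℤˣ
  prop : ∀ h : z ∈ M, val ⟨z, h⟩ = -1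

instance : Finite (Om hz M) :=
  Finite.of_injective (fun χ => (χ.1 : M → ℤˣ)) fun _ _ h => Om.ext (DFunLike.coe_injective h)

instance [M.Normal] : MulAction E (Om hz M) where
  smul g χ := ⟨χ.1.comp (MulAut.conjNormal g⁻¹).toMonoidHom, fun h => by
    rw [← χ.2 h]
    exact congrArg χ.1 (Subtype.ext (by simp [hz.comm g⁻¹]))⟩
  one_smul χ := Om.ext (MonoidHom.ext fun x => congrArg χ.1 (Subtype.ext (by simp)))
  mul_smul g g' χ :=
    Om.ext (MonoidHom.ext fun x => congrArg χ.1 (Subtype.ext (by simp [mul_assoc])))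

omit [Finite E] in
theorem smul_app [M.Normal] (g : E) (χ : Om hz M) (x y : M) (h : (y : E) = g⁻¹ * x * g) :
    (g • χ).1 x = χ.1 y := congrArg χ.1 (Subtype.ext (by simp [h]))

omit [Finite E] in
theorem fix_of_cent [M.Normal] {g : E} (h : g ∈ centralizer (M : Set E)) (χ : Om hz M) :
    g • χ = χ := Om.ext (MonoidHom.ext fun x => smul_app g χ x x (by
      rw [mul_assoc, h x x.2, inv_mul_cancel_left]))

open Classical in
/-- The element `∑ χ(x) x`. -/
noncomputable def ech (χ : Om hz M) : MonoidAlgebra ℤ E :=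
  .ofCoeff (Finsupp.equivFunOnFinite.symm fun g => if h : g ∈ M then (χ.1 ⟨g, h⟩ : ℤ) else 0)

theorem ech_in (χ : Om hz M) {g : E} (h : g ∈ M) : (ech χ).coeff g = χ.1 ⟨g, h⟩ := dif_pos h

theorem ech_out (χ : Om hz M) (g : E) (h : g ∉ M) : (ech χ).coeff g = 0 := dif_neg h

theorem ech_conj [hM : M.Normal] (g : E) (χ : Om hz M) :
    s g * ech χ * s g⁻¹ = ech (g • χ) := by
  ext y
  simp only [s, coeff_mul_single_apply, coeff_single_mul_apply, mul_one, one_mul, inv_inv]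
  by_cases h : y ∈ M
  · rw [ech_in _ h, ech_in χ (mul_assoc g⁻¹ y g ▸ hM.conj_mem' y h g),
      smul_app g χ _ ⟨_, mul_assoc g⁻¹ y g ▸ hM.conj_mem' y h g⟩ (mul_assoc _ _ _).symm]
  · rw [ech_out _ _ h, ech_out _ _ fun e => h (by simpa [mul_assoc] using hM.conj_mem _ e g)]

/-- `X x = χ(x) X` for all `x` in `M`. -/
def Eig (χ : Om hz M) (X : MonoidAlgebra ℤ E) : Prop := ∀ x : M, X * s (x : E) = (χ.1 x : ℤ) • X

omit [Finite E] in
theorem Eig.orth {χ ψ : Om hz M} {X Y : MonoidAlgebra ℤ E} (hX : Eig χ X) (hY : Eig ψ Y)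
    (h : χ ≠ ψ) : X * star Y = 0 := by
  obtain ⟨x, hx⟩ := DFunLike.ne_iff.1 fun e => h (Om.ext e)
  have e : X * s (x : E) * star (Y * s (x : E)) = X * star Y := by
    rw [star_mul, star_s, mul_assoc, ← mul_assoc (s _), s_mul, mul_inv_cancel, s_one, one_mul]
  rw [hX, hY, Int.units_ne_iff_eq_neg.1 hx, star_zsmul, smul_mul_assoc, mul_smul_comm, smul_smul,
    Units.val_neg, neg_mul, Int.units_coe_mul_self, neg_one_smul] at e
  exact two_cancel (by rw [two_mul, mul_zero]; exact (congrArg (· + _) e.symm).trans (by simp))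

theorem eig_ech (χ : Om hz M) : Eig χ (ech χ) := fun x => by
  ext y
  simp only [s, coeff_mul_single_apply, mul_one, coeff_smul, Finsupp.smul_apply, smul_eq_mul]
  by_cases h : y ∈ M
  · rw [ech_in _ h, ech_in χ (M.mul_mem h (M.inv_mem x.2)), ← Units.val_mul, mul_comm,
      ← Int.units_inv_eq_self (χ.1 x), ← map_inv, ← map_mul]
    rfl
  · rw [ech_out _ _ h, ech_out _ _ (by rwa [M.mul_mem_cancel_right (M.inv_mem x.2)]), mul_zero]

theorem exists_char (h1 : M ≤ centralizer M) (h2 : ∀ x ∈ M, x * x = 1) {x : M} (hx : x ≠ 1) :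
    ∃ φ : M →* ℤˣ, φ x = -1 := by
  let : CommGroup M := { (inferInstance : Group M) with
    mul_comm := fun x y => Subtype.ext (h1 y.2 x x.2) }
  have : HasEnoughRootsOfUnity ℤ 2 := ⟨⟨-1, IsPrimitiveRoot.neg_one 0 (by norm_num)⟩, inferInstance⟩
  have := HasEnoughRootsOfUnity.of_dvd ℤ (Monoid.exponent_dvd_of_forall_pow_eq_one (n := 2)
    fun x : M => Subtype.ext ((sq _).trans (h2 x x.2)))
  exact (CommGroup.exists_apply_ne_one_of_hasEnoughRootsOfUnity M ℤ hx).imp fun φ h =>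
    Int.units_ne_iff_eq_neg.1 h

theorem sum_ech [Fintype (Om hz M)] (zM : z ∈ M) (h1 : M ≤ centralizer M)
    (h2 : ∀ x ∈ M, x * x = 1) :
    ∑ χ : Om hz M, ech χ = (Fintype.card (Om hz M) : ℤ) • (1 - s z) := by
  classical
  ext g
  simp only [coeff_sum, Finsupp.finsetSum_apply, coeff_smul, Finsupp.smul_apply, smul_eq_mul,
    coeff_sub, Finsupp.sub_apply, s, one_def, coeff_single, Finsupp.single_apply]
  by_cases e1 : 1 = g
  · subst e1
    simp [ech_in _ M.one_mem, hz.ne, show (⟨1, M.one_mem⟩ : M) = 1 from rfl]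
  by_cases e2 : z = g
  · subst e2
    simp [ech_in _ zM, e1, fun χ : Om hz M => χ.2 zM]
  rw [if_neg e1, if_neg e2, sub_zero, mul_zero]
  by_cases h : g ∈ M
  · obtain ⟨ψ, a1, a2⟩ : ∃ ψ : M →* ℤˣ, ψ ⟨z, zM⟩ = 1 ∧ ψ ⟨g, h⟩ = -1 := by
      obtain ⟨φ, b1⟩ := exists_char h1 h2 (x := ⟨g, h⟩) fun e => e1 (congrArg Subtype.val e).symm
      obtain ⟨φ', b2⟩ := exists_char h1 h2 (x := ⟨z, zM⟩ * ⟨g, h⟩) fun e =>
        e2 (mul_left_cancel ((h2 z zM).trans (congrArg Subtype.val e).symm))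
      rw [map_mul] at b2
      rcases Int.units_eq_one_or (φ ⟨z, zM⟩) with c | c
      · exact ⟨φ, c, b1⟩
      rcases Int.units_eq_one_or (φ' ⟨z, zM⟩) with c' | c'
      · exact ⟨φ', c', by simpa [c'] using b2⟩
      · exact ⟨φ * φ', by simp [c, c'], by simpa [c', b1] using b2⟩
    let τ : Om hz M → Om hz M := fun χ => ⟨χ.1 * ψ, fun h => by simp [a1, χ.2 h]⟩
    have := Fintype.sum_bijective τ (Finite.injective_iff_bijective.1 fun χ χ' e =>
      Om.ext (mul_right_cancel (congrArg Om.val e)))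
      (fun χ => -(ech χ).coeff g) (fun χ => (ech χ).coeff g) fun χ => by simp [ech_in _ h, τ, a2]
    rw [sum_neg_distrib] at this
    omega
  · simp [ech_out _ _ h]

theorem card_om [Fintype (Om hz M)] (zM : z ∈ M) (h1 : M ≤ centralizer M)
    (h2 : ∀ x ∈ M, x * x = 1) : Nat.card M = 2 * Fintype.card (Om hz M) := by
  classical
  have := Fintype.ofFinite E
  obtain ⟨φ, hφ⟩ := exists_char h1 h2 (x := ⟨z, zM⟩) fun e => hz.ne (congrArg Subtype.val e)
  let ψ : Om hz M := ⟨φ, fun _ => hφ⟩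
  have e := congrArg (fun X => (X * star (ech ψ)).coeff 1) (sum_ech (hz := hz) zM h1 h2)
  simp only [sum_mul] at e
  rw [sum_eq_single ψ (fun χ _ h => (eig_ech χ).orth (eig_ech ψ) h) (by simp), coeff_mul_fin] at e
  have e2 : ∀ g, (ech ψ).coeff g * (ech ψ).coeff g = if g ∈ M then 1 else 0 := fun g => by
    split_ifs with h
    exacts [by rw [ech_in _ h, Int.units_coe_mul_self], by rw [ech_out _ _ h, mul_zero]]
  simp only [star_eq, st_coeff, mul_one, inv_inv, e2, smul_mul_assoc, sub_mul, one_mul, coeff_smul,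
    coeff_sub, Finsupp.smul_apply, Finsupp.sub_apply, s, coeff_single_mul_apply, inv_one,
    ech_in _ M.one_mem, ech_in _ zM, ψ.2 zM, show (⟨1, M.one_mem⟩ : M) = 1 from rfl, map_one] at e
  simp only [sum_boole, smul_eq_mul] at e
  rw [Nat.card_eq_fintype_card, Fintype.card_subtype]
  simp at e
  omega

theorem Sy.block (h : Sy z C P a) [M.Normal] (zM : z ∈ M) (χ : Om hz M)
    {A : Subgroup E} (hA : ∀ g ∈ A, g • χ = χ) (hM : M ≤ A) (hC : C ≤ A) {u v : E}
    (hu : u ∈ A ⊓ P) (hv : v ∈ A ⊓ P) (huv : u * v ≠ v * u) {b k o : ℕ}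
    (hb : 2 ^ (a * (a * a) + 1) * Nat.card C ≤ b)
    (hP : Nat.card M * (16 * b) ≤ Nat.card (A ⊓ P : Subgroup E)) (ho : o ≠ 0)
    (hk : (a * (b * b) * o) ^ 8 ≤ 2 ^ (k + 5)) (ι : Type) [Fintype ι] [DecidableEq ι]
    (hι : Fintype.card ι = 2 ^ k * o) : ∃ (c : ℤ) (β : ι → ι → MonoidAlgebra ℤ E),
      (∀ i j, Flat (hat A) (β i j)) ∧ (∀ i j, Eig χ (β i j)) ∧
      ∀ i i', ∑ j, β i j * star (β i' j) = if i = i' then c • ech χ else 0 := by
  classical
  have := h.nC
  have := h.nP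
  let K := (χ.1.ker.map M.subtype).subgroupOf A
  have k1 : ∀ x : A, x ∈ K ↔ ∃ e : x.1 ∈ M, χ.1 ⟨x, e⟩ = 1 := fun x => by
    simp [K, mem_subgroupOf, MonoidHom.mem_ker]
  have : K.Normal := ⟨fun x hx g => by
    obtain ⟨e, e'⟩ := (k1 x).1 hx
    refine (k1 _).2 ⟨Normal.conj_mem inferInstance _ e _, ?_⟩
    rw [← hA g g.2, smul_app g.1 χ _ ⟨x, e⟩ (by simp [mul_assoc]), e']⟩
  let f := QuotientGroup.mk' K
  have f1 : Function.Surjective f := QuotientGroup.mk'_surjective K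
  have f2 : f.ker = K := QuotientGroup.ker_mk' K
  let y : A := ⟨z, hM zM⟩
  have f3 : f y ≠ 1 := fun e => by
    obtain ⟨e, e'⟩ := (k1 y).1 (f2 ▸ e)
    exact absurd ((χ.2 e).symm.trans e') (by decide)
  have hy := hz.sub (hM zM)
  have hS : Sy (f y) ((C.subgroupOf A).map f) ((P.subgroupOf A).map f) a := by
    refine ⟨⟨fun g => ?_, f3, by rw [← map_pow, hy.pow, map_one]⟩, .map inferInstance f f1,
      .map inferInstance f f1, mem_map_of_mem f h.zC, mem_map_of_mem f h.zP, ?_, ?_, ?_⟩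
    · obtain ⟨g, rfl⟩ := f1 g
      rw [← map_mul, hy.comm, map_mul]
    · rintro _ ⟨x, hx, rfl⟩
      rcases inv2 hz.pow (h.sq x hx) with e | e
      · rw [← map_pow, show x ^ 2 = 1 from Subtype.ext e, map_one]; exact one_mem _
      · rw [← map_pow, show x ^ 2 = y from Subtype.ext e]; exact mem_zpowers _
    · rintro _ ⟨c, hc, rfl⟩ _ ⟨p, hp, rfl⟩
      rw [← map_mul, ← map_mul, show c * p = p * c from Subtype.ext (h.cm c hc p hp)]
    · refine le_trans (Nat.le_of_dvd (Nat.pos_of_ne_zero index_ne_zero_of_finite)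
        ((index_dvd_of_le ?_).trans (((C ⊔ P).subgroupOf A).index_map_dvd f1)))
        ((relIndex_le_of_le_right le_top (by
          rw [relIndex_top_right]; exact index_ne_zero_of_finite)).trans
            (by rw [relIndex_top_right]; exact h.ix))
      rintro _ ⟨x, hx, rfl⟩
      obtain ⟨c, hc, p, hp, e⟩ := mem_sup_of_normal_right.1 (mem_subgroupOf.1 hx)
      have pA : p ∈ A := (A.mul_mem_cancel_left (hC hc)).1 (e ▸ x.2)
      rw [show x = ⟨c, hC hc⟩ * ⟨p, pA⟩ from Subtype.ext e.symm, map_mul]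
      exact mul_mem_sup (mem_map_of_mem f hc) (mem_map_of_mem f hp)
  have c1 : Nat.card ((C.subgroupOf A).map f) ≤ Nat.card C := by
    rw [← Nat.card_congr (subgroupOfEquivOfLe hC).toEquiv]
    exact Nat.le_of_dvd Nat.card_pos (card_map_dvd _ f)
  have c2 : 16 * b ≤ Nat.card ((P.subgroupOf A).map f) := by
    have e1 := (f.ker.subgroupOf (P.subgroupOf A)).card_mul_index
    have e2 : Nat.card (f.ker.subgroupOf (P.subgroupOf A)) ≤ Nat.card M :=
      Nat.card_le_card_of_injective (fun x => (⟨x.1.1.1, ((k1 _).1 (f2.le x.2)).1⟩ : M))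
        fun x y e => Subtype.ext (Subtype.ext (Subtype.ext (Subtype.mk.inj e)))
    rw [← inf_subgroupOf_left, Nat.card_congr (subgroupOfEquivOfLe inf_le_left).toEquiv,
      inf_subgroupOf_left] at e1
    rw [← relIndex_ker, relIndex]
    exact Nat.le_of_mul_le_mul_left (hP.trans (e1 ▸ Nat.mul_le_mul_right _ e2)) Nat.card_pos
  obtain ⟨c, β, b1, b2, b3⟩ := hS.inner (mem_map_of_mem f (x := ⟨u, hu.1⟩) hu.2)
    (mem_map_of_mem f (x := ⟨v, hv.1⟩) hv.2) (fun e => f3 (by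
      rw [← map_mul, ← map_mul, show (⟨u, hu.1⟩ * ⟨v, hv.1⟩ : A) = y * (⟨v, hv.1⟩ * ⟨u, hu.1⟩) from
        Subtype.ext (dich hz h.sq hu.2 hv.2 huv), map_mul] at e
      exact mul_eq_right.1 e)) ((Nat.mul_le_mul_left _ c1).trans hb) c2 ho hk ι hι
  have e1 : ∀ X (x : A), mapDomainRingHom ℤ A.subtype (pb f X) * s (x : E) =
      mapDomainRingHom ℤ A.subtype (pb f (X * s (f x))) := fun X x => by
    rw [← pb_s, map_mul, map_s]; rfl
  have e2 : ∀ x : M, χ.1 x = -1 → (⟨x, hM x.2⟩ : A)⁻¹ * y ∈ K := fun x hx =>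
    (k1 _).2 ⟨M.mul_mem (M.inv_mem x.2) zM, by
      change χ.1 (x⁻¹ * ⟨z, zM⟩) = 1
      rw [map_mul, map_inv, hx, χ.2 zM]; simp⟩
  refine ⟨Nat.card f.ker * c, fun i j => mapDomainRingHom ℤ A.subtype (pb f (β i j)),
    fun i j => map_hat_top A ▸ (pb_flat f (b1 i j)).map _, fun i j x => ?_, fun i i' => ?_⟩
  · rw [e1 _ ⟨x, hM x.2⟩]
    rcases Int.units_eq_one_or (χ.1 x) with e | e
    · rw [show f ⟨x, hM x.2⟩ = 1 from (QuotientGroup.eq_one_iff _).2 ((k1 _).2 ⟨x.2, e⟩), e, s_one]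
      simp
    · rw [show f ⟨x, hM x.2⟩ = f y from QuotientGroup.eq.2 (e2 x e), b2, e,
        map_neg, map_neg]
      simp
  · simp only [star_eq, ← map_st, ← map_mul, ← map_sum]
    simp only [← star_eq, pb_mul f f1, ← smul_sum, ← map_sum, b3]
    split_ifs
    · rw [map_zsmul, map_zsmul, map_zsmul, smul_smul, map_sub, map_sub, ← one_mul (s (f y)), ← e1,
        pb_one, f2, map_hat _ _ ((map_subtype_le _).trans hM)]
      congr 1
      ext g
      simp only [s, coeff_sub, Finsupp.sub_apply, coeff_mul_single_apply, mul_one, hat_coeff]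
      have k2 : ∀ x : M, (x : E) ∈ χ.1.ker.map M.subtype ↔ χ.1 x = 1 := fun x => by
        simp [MonoidHom.mem_ker]
      by_cases e : g ∈ M
      · have : g * (y : E)⁻¹ ∈ _ ↔ _ := k2 (⟨g, e⟩ * (⟨z, zM⟩ : M)⁻¹)
        rw [map_mul, map_inv, χ.2 zM] at this
        rw [ech_in _ e, if_congr (k2 ⟨g, e⟩) rfl rfl, if_congr this rfl rfl]
        rcases Int.units_eq_one_or (χ.1 ⟨g, e⟩) with e | e <;> simp [e]
      · rw [ech_out _ _ e, if_neg fun e' => e (map_subtype_le _ e'), if_neg fun e' => e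
          ((M.mul_mem_cancel_right (M.inv_mem zM)).1 (map_subtype_le _ e')), sub_zero]
    · simp

end Pool.Agent.Lib.MP_2d211a_co.H30
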