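import Pool.Agent.Lib.MP_2d211a_co.H30Out

/-! Groups with a large normal subgroup of symplectic type. -/

namespace Pool.Agent.Lib.MP_2d211a_co.H30

open MonoidAlgebra Finset H62 Subgroup

variable {E : Type} [Group E] [Finite E] {z : E} {C P D M Q : Subgroup E} {a : ℕ}

theorem parts (hz : Cen 2 z) (hP : ∀ x : E, x ^ 2 ∈ zpowers z) {y : E} (hy : y ^ 2 = z)
    (ι : Type) [Fintype ι] {j : ℕ} (hι : Fintype.card ι = 2 ^ j) (hc : 2 ^ (j + 4) ≤ Nat.card E) :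
    ∃ (m : ℤ) (W : ι → MonoidAlgebra ℤ E), (∀ i, Nn (W i)) ∧ (∑ i, W i) * (1 + s z) = hat ⊤ ∧
      ∀ i, (1 - s z) * (W i * star (W i)) = (1 - s z) * m := by
  classical
  have e4 : ∀ x : E, x ^ 2 ^ 2 = 1 := fun x => by
    rw [sq 2, pow_mul]
    rcases inv2 hz.pow (hP x) with e | e <;> simp [e, hz.pow]
  obtain ⟨n, hn⟩ := (show IsPGroup 2 E from fun x => ⟨2, e4 x⟩).exists_card_eq
  have h4 : j + 4 ≤ n := (Nat.pow_le_pow_iff_right one_lt_two).1 (hn ▸ hc)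
  obtain ⟨n, rfl⟩ := Nat.exists_eq_add_of_le (show j ≤ n by omega)
  obtain ⟨K, k1, k2⟩ := Sylow.exists_subgroup_card_pow_prime_le 2 (m := n) (n := 2)
    (by rw [hn, pow_add]; exact dvd_mul_left _ _) (zpowers y) (by
      rw [Nat.card_zpowers]
      exact orderOf_eq_prime_pow (n := 1) (by rw [pow_one, hy]; exact hz.ne) (e4 y)) (by omega)
  obtain ⟨m, Y, y1, -, y2, y3⟩ := good_sym hz (fun x _ => hP x) (k2 (mem_zpowers y)) hy
    (k1 ▸ Nat.pow_le_pow_right two_pos (show 4 ≤ n by omega))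
  have := Fintype.ofFinite (E ⧸ K)
  have e : ι ≃ E ⧸ K := Fintype.equivOfCardEq (by
    have := K.index_mul_card
    rw [k1, hn, pow_add] at this
    rw [hι, ← Nat.card_eq_fintype_card]
    exact (Nat.eq_of_mul_eq_mul_right (by positivity) this).symm)
  refine ⟨m, fun i => s (e i).out * Y, fun i => (Nn.s _).mul y1, ?_, fun i => ?_⟩
  · simp only [sum_mul, mul_assoc, y2]
    exact sum_s_hat _ le_top (fun _ => mem_top _)
      (fun i j h => e.injective (by simpa using QuotientGroup.eq.2 h))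
      fun g _ => ⟨e.symm g, QuotientGroup.eq.1 (by simp)⟩
  · rw [star_mul, star_s, mul_assoc, ← mul_assoc Y, ← mul_assoc (s _), hz.mid, y3, ← hz.mid,
      mul_assoc (s _), Int.cast_comm, ← mul_assoc (s _), s_mul, mul_inv_cancel, s_one, one_mul]

theorem glue (hz : Cen 2 z) [Fintype (Om hz M)] [DecidableEq (Om hz M)] (zM : z ∈ M)
    (h1 : M ≤ centralizer M) (h2 : ∀ x ∈ M, x * x = 1) (zD : z ∈ D)
    {Z : Om hz M → MonoidAlgebra ℤ E} (z1 : ∀ χ, Flat (hat D) (Z χ)) (z2 : ∀ χ, Z χ * s z = -Z χ)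
    (z3 : ∀ χ ψ, Z χ * star (Z ψ) = if χ = ψ then (Nat.card D : ℤ) • ech χ else 0)
    (hQ : ∀ x ∈ Q, x ^ 2 ∈ zpowers z) (q1 : Q ≤ centralizer M) (q2 : Q ⊓ D = zpowers z)
    (q3 : ∀ g, ∃ q ∈ Q, ∃ d ∈ D, g = q * d) {y : E} (y1 : y ∈ Q) (y2 : y ^ 2 = z) {j : ℕ}
    (hj : Fintype.card (Om hz M) = 2 ^ j) (hc : 2 ^ (j + 4) ≤ Nat.card Q) :
    ∃ m X, Good z m X := by
  have zQ : z ∈ Q := y2 ▸ Q.pow_mem y1 2
  obtain ⟨m, W, w1, w2, w3⟩ := parts (hz.sub zQ) (y := ⟨y, y1⟩) (fun x => by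
    rcases inv2 hz.pow (hQ x x.2) with e | e
    · rw [show x ^ 2 = 1 from Subtype.ext e]; exact one_mem _
    · rw [show x ^ 2 = ⟨z, zQ⟩ from Subtype.ext e]; exact mem_zpowers _) (Subtype.ext y2) _ hj hc
  obtain ⟨d, hd⟩ := card_dvd_of_le (zpowers_le.2 zD)
  rw [card_zp hz.ne hz.pow] at hd
  set f := mapDomainRingHom ℤ Q.subtype
  have f1 : f (s ⟨z, zQ⟩) = s z := map_s _ _
  refine ⟨d * m * Fintype.card (Om hz M), good_of_odd hz (X := ∑ χ, f (W χ) * Z χ) ?_ ?_ ?_⟩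
  · convert Flat.sum univ fun χ => (show Flat (f (W χ)) (f (W χ)) from
      ⟨_, 0, (w1 χ).map Q.subtype, nn_zero, (add_zero _).symm, (sub_zero _).symm⟩).mul (z1 χ) using 1
    have := congrArg f w2
    rw [map_mul, map_add, map_one, f1, map_hat_top, map_sum] at this
    refine two_cancel ?_
    rw [← hat_mul_hat hz q3 q2, ← this, mul_assoc, add_mul, one_mul, s_mul_hat zD, mul_add, two_mul,
      sum_mul]
  · simp only [sum_mul, mul_assoc, z2, mul_neg, sum_neg_distrib]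
  · have e : ∀ χ, f (W χ) * ech χ * star (f (W χ)) = m • ech χ := fun χ => two_cancel (by
      have e1 : 2 * ech χ = ech χ * (1 - s z) := by
        have := eig_ech χ ⟨z, zM⟩
        rw [χ.2 zM] at this
        rw [mul_sub, this, two_mul]; simp
      have e2 := congrArg f (w3 χ)
      rw [map_mul, map_mul, map_mul, map_sub, map_one, f1, star_eq, map_st, map_intCast] at e2
      rw [(comm_of_supp (ech_out χ) fun q hq =>
        comm_map Q.subtype (fun g => (q1 g.2 q hq).symm) _).eq, mul_assoc, ← mul_assoc 2, e1,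
        mul_assoc, star_eq, e2, ← mul_assoc, ← e1, mul_assoc, zsmul_eq_mul, Int.cast_comm])
    rw [star_sum, sum_mul_sum]
    simp only [star_mul, mul_assoc, ← mul_assoc (Z _), z3, ite_mul, zero_mul, mul_ite, mul_zero,
      sum_ite_eq, mem_univ, if_true, smul_mul_assoc, mul_smul_comm]
    simp only [← mul_assoc, e, ← smul_sum, sum_ech zM h1 h2, smul_smul, hd]
    congr 1

theorem Sy.good (h : Sy z C P a) {b k : ℕ} (hb : 2 ^ (a * (a * a) + 1) * Nat.card C ≤ b)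
    (hk : (a * (b * b) * a) ^ 8 ≤ 2 ^ (k + 5))
    (hB : Big P (4 ^ (a * k + a * (a * k) + a * (a * a)) * (4 ^ (a * (a * k + 4)) *
      (4 ^ (a * a) * 8 * (2 ^ (a * k + 1) * (16 * b)))))) : ∃ m X, Good z m X := by
  classical
  have := h.nC
  have := h.nP
  have hz := h.hz
  have b0 : 0 < b := lt_of_lt_of_le (Nat.mul_pos (by positivity) Nat.card_pos) hb
  have b1 : 4 ^ (a * a) * 8 ≤ 4 ^ (a * a) * 8 * (2 ^ (a * k + 1) * (16 * b)) :=
    Nat.le_mul_of_pos_right _ (by positivity)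
  have b2 : 2 ^ (a * k + 1) * (16 * b) ≤ 4 ^ (a * a) * 8 * (2 ^ (a * k + 1) * (16 * b)) :=
    Nat.le_mul_of_pos_left _ (by positivity)
  generalize 4 ^ (a * a) * 8 * (2 ^ (a * k + 1) * (16 * b)) = N at *
  obtain ⟨M, -, m1, m2, m3, m4⟩ := h.elem le_rfl h.zP k (hB.mono (Nat.mul_le_mul
    (Nat.pow_le_pow_right (by norm_num) (by omega))
    (b1.trans (Nat.le_mul_of_pos_left _ (by positivity)))))
  have := m1.nm
  obtain ⟨T0, t1, t2, t3⟩ := h.cover (Q := P ⊓ centralizer M) inf_le_left (a * k) M _ m1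
    ((h.cut m1 le_rfl).1.trans (Nat.mul_le_mul_left _ (card_le_of_le le_sup_right)))
  obtain ⟨T, t4, t5, t6⟩ := h.supp t2
  have := t5.nm
  have := t2.nm
  have c1 := (h.cut t5 le_rfl).2 _ hB
  obtain ⟨M', n1, n2, -, -, n3⟩ := h.elem (K := P ⊓ centralizer T) inf_le_left
    ⟨h.zP, fun g _ => hz.comm g⟩ (a * k + 4) (c1.mono (by gcongr))
  have := n2.nm
  have c2 := (h.cut n2 inf_le_left).2 _ c1
  have l1 : T ≤ P ⊓ centralizer M' :=
    le_inf t5.le (le_centralizer_iff.1 (n1.trans inf_le_right))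
  obtain ⟨D, d1, d2, d3, -⟩ := t6 (P ⊓ centralizer M') inferInstance l1 inf_le_left
    fun c hc => ⟨hc.2, fun x hx => (h.cm c hc.1 x (n2.le hx)).symm⟩
  have l2 : T ≤ D := l1.trans (d2.ge.trans inf_le_left)
  have l3 : P ⊓ centralizer T ≤ P ⊓ centralizer M := inf_le_inf_left _ (centralizer_le (t1.trans t4))
  have l4 : D ⊓ centralizer M ⊓ P = centralizer M' ⊓ (P ⊓ centralizer M) := by
    rw [inf_right_comm, d2, inf_comm P, inf_assoc]
  have l5 : P ⊓ centralizer T ⊓ centralizer M' ≤ D ⊓ centralizer M ⊓ P := by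
    rw [l4, inf_comm]; exact inf_le_inf_left _ l3
  have l6 : 2 ^ (a * k + 4) * Nat.card (D ⊓ centralizer M ⊓ P : Subgroup E) ≤
      Nat.card (P ⊓ centralizer M : Subgroup E) := by
    rw [← card_rel (centralizer M') (P ⊓ centralizer T), inf_comm, mul_comm] at n3
    rw [l4, ← card_rel (centralizer M') (P ⊓ centralizer M), mul_comm]
    exact Nat.mul_le_mul_left _ ((Nat.le_of_mul_le_mul_left n3 Nat.card_pos).trans
      (relIndex_le_of_le_right l3 index_ne_zero_of_finite))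
  obtain ⟨u, hu, v, hv, huv⟩ := (c2.mono (le_trans (by
    have := Nat.one_le_pow (a * a) 4 (by norm_num); omega) b1)).ne
  have zU : z ∈ D ⊓ centralizer M ⊓ P := ⟨⟨d1 h.zC, fun g _ => hz.comm g⟩, h.zP⟩
  have l7 : D ⊓ centralizer M ⊓ P ≤ P ⊓ centralizer M := l4 ▸ inf_le_right
  have p0 := Nat.card_pos (α := (D ⊓ centralizer M ⊓ P : Subgroup E))
  obtain ⟨Q, q1, q2, q3, y, y1, y2⟩ := exists_comp (P := P ⊓ centralizer M) hz
    (fun x hx => h.sq x hx.1) zU l7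
    (lt_of_lt_of_le (Nat.mul_lt_mul_of_pos_right (Nat.pow_lt_pow_right one_lt_two
      (show 1 < a * k + 4 by omega)) p0) l6) (l3 hu.1) (l3 hv.1) huv
  have q4 : ∀ g, ∃ q ∈ Q, ∃ d ∈ D, g = q * d := fun g => by
    obtain ⟨p, hp, d, hd, rfl⟩ := d3 g
    obtain ⟨x, hx, t, ht, rfl⟩ := mem_sup_of_normal_right.1 (sup_comm T0 _ ▸ t3 hp)
    obtain ⟨q, hq, w, hw, rfl⟩ := q3 x hx
    exact ⟨q, hq, _, D.mul_mem (D.mul_mem hw.1.1 (l2 (t4 ht))) hd, by simp only [mul_assoc]⟩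
  obtain ⟨k', hk'⟩ : ∃ k', 2 ^ k' * Nat.card (P ⊓ centralizer M : Subgroup E) = Nat.card P := by
    obtain ⟨t, ht⟩ := h.pg.exists_card_eq
    obtain ⟨c, hc⟩ := card_dvd_of_le (inf_le_left : P ⊓ centralizer M ≤ P)
    obtain ⟨k', -, rfl⟩ := (Nat.dvd_prime_pow Nat.prime_two).1 (ht ▸ Dvd.intro_left _ hc.symm)
    exact ⟨k', by rw [hc, mul_comm]⟩
  have k1 : 2 ^ k ≤ 2 ^ k' := Nat.le_of_mul_le_mul_right (hk' ▸ m4) Nat.card_pos
  obtain ⟨Z, z1, z2, z3⟩ := h.rows (hz := hz) m1.zT m1.le m2 (t1.trans (t4.trans l2)) d1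
    (fun g => (q4 g).imp fun q e => ⟨(q1 e.1).2, e.2⟩) (l5 hu) (l5 hv) huv hb
    ((Nat.mul_le_mul_right _ m1.cd).trans (b2.trans ((Nat.le_mul_of_pos_left _ Nat.card_pos).trans
      (le_trans c2 (card_le_of_le l5))))) hk' (hk.trans (by rw [pow_add, pow_add]; gcongr))
  have := Fintype.ofFinite (Om hz M)
  have o1 := card_om (hz := hz) m1.zT m2 m3
  obtain ⟨t, ht⟩ := h.pg.exists_card_eq
  obtain ⟨j, -, hj⟩ := (Nat.dvd_prime_pow Nat.prime_two).1
    (ht ▸ (Dvd.intro_left _ o1.symm).trans (card_dvd_of_le m1.le))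
  refine glue hz m1.zT m2 m3 (d1 h.zC) z1 z2 z3 (fun x hx => h.sq x (q1 hx).1)
    (q1.trans inf_le_right) (le_antisymm (fun x hx => q2.le ⟨hx.1, ⟨hx.2, (q1 hx.1).2⟩,
      (q1 hx.1).1⟩) (q2.ge.trans (inf_le_inf_left _ (inf_le_left.trans inf_le_left)))) q4 y1 y2 hj ?_
  have : (D ⊓ centralizer M ⊓ P).Normal := l4 ▸ inferInstance
  have l8 : Nat.card (P ⊓ centralizer M : Subgroup E) ≤ _ := le_trans (card_le_of_le fun g hg => by
    obtain ⟨q, hq, x, hx, rfl⟩ := q3 g hg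
    exact mul_mem_sup hq hx) (card_sup_le Q _)
  have o2 := m1.cd
  rw [o1, hj, pow_succ'] at o2
  refine le_trans ?_ (Nat.le_of_mul_le_mul_right (l6.trans l8) p0)
  rw [pow_add, pow_add]
  omega

theorem Sy.good' (h : Sy z C P a) (ha : 1 ≤ a) (hB : Big P (Nat.card C ^ (600 * a ^ 5))) :
    2 < Nat.card P ∧ ∃ m X, Good z m X := by
  have h2 : 2 ≤ Nat.card C := card_zp h.hz.ne h.hz.pow ▸ card_le_of_le (zpowers_le.2 h.zC)
  have l1 := Nat.pow_log_le_self 2 (show Nat.card C ≠ 0 by omega)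
  have l2 := Nat.lt_pow_succ_log_self one_lt_two (Nat.card C)
  have l3 : 1 ≤ Nat.log 2 (Nat.card C) := Nat.le_log_of_pow_le one_lt_two h2
  generalize Nat.log 2 (Nat.card C) = l at *
  have a1 : a ≤ a ^ 2 := Nat.le_self_pow two_ne_zero a
  have a2 : a ^ 2 ≤ a ^ 3 := Nat.pow_le_pow_right ha (by norm_num)
  have a3 : a ^ 3 ≤ a ^ 3 * l := Nat.le_mul_of_pos_right _ l3
  have a4 : l ≤ a ^ 3 * l := Nat.le_mul_of_pos_left _ (by positivity)
  have a5 : a ^ 3 * l ≤ a ^ 4 * l := Nat.mul_le_mul_right _ (Nat.pow_le_pow_right ha (by norm_num))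
  have a6 : a ^ 4 * l ≤ a ^ 5 * l := Nat.mul_le_mul_right _ (Nat.pow_le_pow_right ha (by norm_num))
  have hB' := hB.mono (Nat.pow_le_pow_left l1 _)
  rw [← pow_mul] at hB'
  refine ⟨lt_of_lt_of_le (Nat.pow_lt_pow_right one_lt_two (show 1 < _ by nlinarith))
    ((Nat.le_mul_of_pos_left _ Nat.card_pos).trans hB'),
    h.good (b := 2 ^ (4 * (a ^ 3 * l))) (k := 80 * (a ^ 3 * l)) ?_ ?_ (hB'.mono ?_)⟩
  · refine (Nat.mul_le_mul_left _ l2.le).trans ?_
    rw [← pow_add]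
    exact Nat.pow_le_pow_right two_pos (by nlinarith)
  · refine le_trans (Nat.pow_le_pow_left (Nat.mul_le_mul (Nat.mul_le_mul_right _
      Nat.lt_two_pow_self.le) Nat.lt_two_pow_self.le) 8) ?_
    simp only [← pow_add, ← pow_mul]
    exact Nat.pow_le_pow_right two_pos (by omega)
  · rw [show 4 = 2 ^ 2 from rfl, show 8 = 2 ^ 3 from rfl, show 16 = 2 ^ 4 from rfl]
    simp only [← pow_add, ← pow_mul]
    exact Nat.pow_le_pow_right two_pos (by nlinarith)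

end Pool.Agent.Lib.MP_2d211a_co.H30
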