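import Pool.Agent.Lib.MP_2d211a_co.H30Tile

/-! The 2-groups `P` and the orthogonal cocycle on `C / z × F_2^n`. -/

namespace Pool.Agent.Lib.MP_2d211a_co.H30

open MonoidAlgebra Finset H62

/-- The sign `(-1) ^ x`. -/
def sg (x : ZMod 2) : ℤ := if x = 0 then 1 else -1

theorem sg_add (x y : ZMod 2) : sg (x + y) = sg x * sg y := by revert x y; decide

theorem sum_sg {k : ℕ} (c : Fin k → ZMod 2) :
    ∑ w, sg (c ⬝ᵥ w) = if c = 0 then 2 ^ k else 0 := by
  split_ifs with h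
  · simp [h, sg]
  · obtain ⟨i, hi⟩ := Function.ne_iff.1 h
    have e := Equiv.sum_comp (Equiv.addRight (Pi.single i (1 : ZMod 2) : Fin k → ZMod 2))
      fun w => sg (c ⬝ᵥ w)
    have h1 : sg (c i) = -1 := if_neg hi
    simp only [Equiv.coe_addRight, dotProduct_add, sg_add, dotProduct_single, mul_one, h1, mul_neg,
      sum_neg_distrib] at e
    omega

/-- The index space `F_2^(3k+j)` with coordinates `(u, a, w, t)`. -/
abbrev V (k j : ℕ) := (Fin k → ZMod 2) × (Fin k → ZMod 2) × (Fin k → ZMod 2) × (Fin j → ZMod 2)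

/-- The bilinear cocycle `a ⬝ w' + t ⬝ t'`. -/
def bt {k j : ℕ} (x y : V k j) : ZMod 2 := x.2.1 ⬝ᵥ y.2.2.1 + x.2.2.2 ⬝ᵥ y.2.2.2

theorem V.add_self {k j : ℕ} (x : V k j) : x + x = 0 := by
  ext <;> exact CharTwo.add_self_eq_zero _

theorem key {R : Type*} [Ring R] [StarRing R] {k j : ℕ} (B : (Fin k → ZMod 2) → (Fin k → ZMod 2) → R)
    (c : R) (hB : ∀ a a', ∑ b, B a b * star (B a' b) = if a = a' then c else 0) (d : V k j) :
    ∑ v : V k j, sg (bt d v) • ((sg ((d + v).2.2.1 ⬝ᵥ (d + v).1) • B (d + v).1 ((d + v).2.1 +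
      (d + v).1)) * star (sg (v.2.2.1 ⬝ᵥ v.1) • B v.1 (v.2.1 + v.1))) =
      if d = 0 then (2 ^ k * 2 ^ k * 2 ^ j : ℤ) • c else 0 := by
  obtain ⟨u0, a0, w0, t0⟩ := d
  have e : ∀ (u w : Fin k → ZMod 2) (t : Fin j → ZMod 2), sg (a0 ⬝ᵥ w + t0 ⬝ᵥ t) *
      (sg (w ⬝ᵥ u) * sg ((w0 + w) ⬝ᵥ (u0 + u))) =
      sg (w0 ⬝ᵥ u0) * sg (w0 ⬝ᵥ u) * (sg ((a0 + u0) ⬝ᵥ w) * sg (t0 ⬝ᵥ t)) := fun u w t => by
    simp only [← sg_add, add_dotProduct, dotProduct_add, dotProduct_comm w u0]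
    congr 1
    linear_combination CharTwo.add_self_eq_zero (w ⬝ᵥ u)
  simp only [Fintype.sum_prod_type, bt, Prod.mk_add_mk, star_zsmul, smul_mul_assoc, mul_smul_comm,
    smul_smul, e, ← sum_smul, ← mul_sum, ← sum_mul, sum_sg, ← smul_sum]
  by_cases h1 : a0 + u0 = 0
  · have e2 : ∀ u, ∑ a, B (u0 + u) (a0 + a + (u0 + u)) * star (B u (a + u)) =
        if u0 = 0 then c else 0 := fun u => by
      have := Equiv.sum_comp (Equiv.addRight u) fun b => B (u0 + u) b * star (B u b)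
      simp only [hB, add_eq_right, Equiv.coe_addRight] at this
      rw [← this]
      refine sum_congr rfl fun a _ => ?_
      rw [add_add_add_comm, h1, zero_add]
    simp only [e2, ← sum_smul, ← mul_sum, ← sum_mul, sum_sg]
    by_cases h2 : u0 = 0
    · obtain rfl : a0 = 0 := by simpa [h2] using h1
      by_cases h3 : w0 = 0 <;> by_cases h4 : t0 = 0 <;> simp [h2, h3, h4, sg, mul_assoc]
    · simp [h2]
  · have : ¬(u0 = 0 ∧ a0 = 0 ∧ w0 = 0 ∧ t0 = 0) := fun h => h1 (by simp [h.1, h.2.1])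
    simp [h1, this]

/-- The central extension of `F_2^(3k+j)` by `F_2` with cocycle `bt`. -/
@[ext] structure PG (k j : ℕ) where
  v : V k j
  e : ZMod 2

namespace PG

variable {k j : ℕ}

instance : Mul (PG k j) := ⟨fun x y => ⟨x.v + y.v, x.e + y.e + bt x.v y.v⟩⟩
instance : One (PG k j) := ⟨⟨0, 0⟩⟩
instance : Inv (PG k j) := ⟨fun x => ⟨x.v, x.e + bt x.v x.v⟩⟩

theorem mul_def (x y : PG k j) : x * y = ⟨x.v + y.v, x.e + y.e + bt x.v y.v⟩ := rfl
theorem one_def : (1 : PG k j) = ⟨0, 0⟩ := rfl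
theorem inv_def (x : PG k j) : x⁻¹ = ⟨x.v, x.e + bt x.v x.v⟩ := rfl

instance : Group (PG k j) := Group.ofLeftAxioms
  (fun x y z => by
    simp only [mul_def, bt, Prod.snd_add, Prod.fst_add, add_dotProduct, dotProduct_add, mk.injEq]
    exact ⟨add_assoc _ _ _, by ring⟩)
  (fun x => by simp [mul_def, one_def, bt])
  (fun x => by
    simp only [mul_def, one_def, inv_def, mk.injEq, V.add_self, true_and]
    linear_combination CharTwo.add_self_eq_zero (x.e + bt x.v x.v))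

/-- The central involution. -/
def y : PG k j := ⟨0, 1⟩

theorem card : Nat.card (PG k j) = 2 ^ (3 * k + j + 1) := by
  rw [Nat.card_congr (⟨fun x => (x.v, x.e), fun x => ⟨x.1, x.2⟩, fun _ => rfl, fun _ => rfl⟩ :
    PG k j ≃ V k j × ZMod 2)]
  simp only [Nat.card_eq_fintype_card, Fintype.card_prod, Fintype.card_fun, ZMod.card,
    Fintype.card_fin]
  ring

theorem y_ne : (y : PG k j) ≠ 1 := fun h => by simpa [y, one_def] using congrArg e h

theorem y_mul : (y : PG k j) * y = 1 := by simp [y, mul_def, one_def, bt]; decide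

theorem y_comm (x : PG k j) : x * y = y * x := by simp [y, mul_def, bt, add_comm]

theorem split (v : V k j) (e : ZMod 2) : (⟨v, e⟩ : PG k j) = ⟨v, 0⟩ * if e = 0 then 1 else y := by
  split_ifs with h
  · rw [h, mul_one]
  · obtain rfl : e = 1 := by revert e; decide
    simp [y, mul_def, bt]

theorem mem_y (x : PG k j) : x ∈ Subgroup.zpowers (y : PG k j) ↔ x.v = 0 := by
  constructor
  · rintro ⟨n, rfl⟩
    induction n using Int.induction_on with
    | zero => rfl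
    | succ n ih => simp only [zpow_add_one, mul_def] at ih ⊢; simpa [y] using ih
    | pred n ih => simp only [zpow_sub_one, mul_def, inv_def] at ih ⊢; simpa [y] using ih
  · obtain ⟨v, e⟩ := x
    rintro rfl
    rw [split, ← one_def, one_mul]
    split_ifs
    exacts [one_mem _, Subgroup.mem_zpowers _]

end PG

variable {E : Type*} [Group E] [Finite E]

theorem hat_zpowers {z : E} (h1 : z ≠ 1) (h2 : z * z = 1) :
    hat (Subgroup.zpowers z) = 1 + s z := by
  have hf : ∀ i : Bool, (if i then z else 1) ∈ Subgroup.zpowers z := fun i => by cases i <;> simp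
  have inj : ∀ i j : Bool, (if i then z else 1)⁻¹ * (if j then z else 1) ∈ (⊥ : Subgroup E) →
      i = j := fun i j => by cases i <;> cases j <;> simp [h1]
  rw [← sum_s_hat _ bot_le hf inj (sur_of_card _ bot_le hf inj (by
    simp [orderOf_eq_prime (p := 2) (by rw [sq, h2]) h1]))]
  simp [hat_bot, s_one, add_comm]

theorem good_of_flat {z : E} (h1 : z ≠ 1) (h2 : z * z = 1) (hc : ∀ g, g * z = z * g)
    {n Y : MonoidAlgebra ℤ E} {m : ℤ} (hf : Flat n Y) (ht : n * (1 + s z) = hat ⊤)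
    (hu : (1 - s z) * (Y * star Y) = (1 - s z) * m) : ∃ X, Good z m X := by
  obtain ⟨a, b, ha, hb, rfl, rfl⟩ := hf
  have hz : s z * s z = 1 := by rw [s_mul, h2, s_one]
  have hs : star (s z) = s z := by rw [star_s, inv_eq_of_mul_eq_one_right h2]
  have c : ∀ X, X * s z = s z * X := fun X => (comm_s hc X).eq
  refine ⟨a + s z * b, nn_add ha ((Nn.s z).mul hb), ?_, ?_⟩
  · rw [hat_zpowers h1 h2, ← ht, add_mul, add_mul, ← c b, mul_assoc, mul_add (s z), hz, mul_one,
      add_comm (s z)]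
  · rw [← hu, ← star_eq, star_add, star_mul, hs, star_sub]
    have : ∀ X, s z * (s z * X) = X := fun X => by rw [← mul_assoc, hz, one_mul]
    have c' : ∀ X Y, X * (s z * Y) = s z * (X * Y) := fun X Y => by rw [← mul_assoc, c, mul_assoc]
    simp only [mul_add, add_mul, mul_sub, sub_mul, one_mul, c (star b), mul_assoc, c' a, c' b, this]
    abel

theorem exists_good {k j : ℕ} (C : Subgroup E) (ψ : PG k j →* E) (hψ : Function.Injective ψ)
    (hc : ∀ c ∈ C, ∀ x, c * ψ x = ψ x * c) (hs : ∀ g, ∃ c ∈ C, ∃ x, g = c * ψ x)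
    (hi : C ⊓ ψ.range = Subgroup.zpowers (ψ PG.y)) (hk : Nat.card C ^ 8 ≤ 2 ^ (k + 1)) :
    (∀ g, g * ψ PG.y = ψ PG.y * g) ∧ ∃ m X, Good (ψ PG.y) m X := by
  have h1 : ψ PG.y ≠ 1 := fun h => PG.y_ne (hψ (h.trans ψ.map_one.symm))
  have h2 : ψ PG.y * ψ PG.y = 1 := by rw [← map_mul, PG.y_mul, map_one]
  have h3 : ∀ g, g * ψ PG.y = ψ PG.y * g := fun g => by
    obtain ⟨c, h, x, rfl⟩ := hs g
    rw [mul_assoc, ← map_mul, PG.y_comm, map_mul, ← mul_assoc, hc c h, mul_assoc]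
  have h4 : ψ PG.y ∈ C := (hi.ge (Subgroup.mem_zpowers _)).1
  obtain ⟨c, B, b1, b2⟩ := exists_matrix (z := (⟨_, h4⟩ : C)) (fun h => h1 (congrArg Subtype.val h))
    (Subtype.ext h2) (fun g => Subtype.ext (h3 g))
    (k := k) (hk.trans (Nat.pow_le_pow_right two_pos (by omega))) (Fin k → ZMod 2) (by simp)
  choose n n1 n2 using b1
  let φ := mapDomainRingHom ℤ C.subtype
  have cm : ∀ X x, φ X * s (ψ x) = s (ψ x) * φ X := fun X x =>
    (comm_map C.subtype (fun g => hc g g.2 x) X).eq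
  have hs' : ∀ X, star (φ X) = φ (star X) := fun X => (map_st _ X).symm
  let F : V k j → MonoidAlgebra ℤ C := fun v => sg (v.2.2.1 ⬝ᵥ v.1) • B v.1 (v.2.1 + v.1)
  refine ⟨h3, (2 ^ k * 2 ^ k * 2 ^ j) * c, good_of_flat h1 h2 h3
    (n := ∑ v : V k j, φ (n v.1 (v.2.1 + v.1)) * s (ψ ⟨v, 0⟩))
    (Y := ∑ v : V k j, φ (F v) * s (ψ ⟨v, 0⟩))
    (Flat.sum _ fun v => (Flat.map _ ?_).mul (Flat.s _)) ?_ ?_⟩
  · simp only [F, sg]
    split_ifs
    exacts [by simpa using n1 _ _, by simpa using (n1 _ _).neg]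
  · have e : ∀ a b, φ (n a b) * (1 + s (ψ PG.y)) = hat C := fun a b => by
      have := congrArg φ (n2 a b)
      rwa [map_mul, map_add, map_one, map_s, ← Subgroup.subgroupOf_self, map_hat C C le_rfl] at this
    simp only [cm, sum_mul, mul_assoc, e]
    refine sum_s_hat _ le_top (by simp) (fun v v' h => ?_) fun g _ => ?_
    · rw [← map_inv, ← map_mul] at h
      obtain ⟨x, hx, hx'⟩ : _ ∈ (Subgroup.zpowers PG.y).map ψ := by
        rw [MonoidHom.map_zpowers]; exact hi.le ⟨h, _, rfl⟩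
      have := (PG.mem_y _).1 (hψ hx' ▸ hx)
      rw [← add_zero v', ← this, PG.mul_def, PG.inv_def, add_comm v, ← add_assoc, V.add_self,
        zero_add]
    · obtain ⟨c, h, ⟨v, e⟩, rfl⟩ := hs g
      refine ⟨v, ?_⟩
      rw [hc c h, PG.split v e, map_mul, mul_assoc, inv_mul_cancel_left]
      refine C.mul_mem ?_ h
      split_ifs
      exacts [ψ.map_one ▸ C.one_mem, h4]
  · have e : ∀ d v : V k j, (1 - s (ψ PG.y)) * (φ (F (d + v)) * s (ψ ⟨d + v, 0⟩) *
        star (φ (F v) * s (ψ ⟨v, 0⟩))) =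
        (1 - s (ψ PG.y)) * (s (ψ ⟨d, 0⟩) * φ (sg (bt d v) • (F (d + v) * star (F v)))) := by
      intro d v
      have e1 : (⟨d + v, 0⟩ : PG k j) * (⟨v, 0⟩ : PG k j)⁻¹ =
          (if bt d v = 0 then 1 else PG.y) * ⟨d, 0⟩ := by
        rw [mul_inv_eq_iff_eq_mul, mul_assoc, PG.mul_def ⟨d, 0⟩]
        split_ifs with h
        · simp [h]
        · have : ∀ e : ZMod 2, e ≠ 0 → 0 = 1 + e := by decide
          simpa [PG.mul_def, PG.y, show ∀ x : V k j, bt 0 x = 0 by simp [bt]] using this _ h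
      rw [star_mul, star_s, hs', mul_assoc, ← mul_assoc (s _), s_mul, ← map_inv, ← map_mul, e1,
        ← mul_assoc (φ _), cm, mul_assoc, ← map_mul φ, sg]
      split_ifs
      · rw [one_mul, one_smul]
      · rw [map_mul, ← s_mul, mul_assoc, ← mul_assoc _ (s (ψ PG.y)), sub_mul, s_mul, h2, s_one,
          neg_smul, one_smul, map_neg]
        noncomm_ring
    rw [star_sum, sum_mul_sum, sum_comm, mul_sum]
    have e2 : ∀ v : V k j, ∑ v' : V k j, φ (F v') * s (ψ ⟨v', 0⟩) * star (φ (F v) * s (ψ ⟨v, 0⟩)) =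
        ∑ d : V k j, φ (F (d + v)) * s (ψ ⟨d + v, 0⟩) * star (φ (F v) * s (ψ ⟨v, 0⟩)) := fun v =>
      (Equiv.sum_comp (Equiv.addRight v) _).symm
    simp only [e2, mul_sum, e]
    rw [sum_comm]
    simp only [← mul_sum, ← map_sum, F, key B c b2]
    rw [sum_eq_single 0 (fun d _ hd => by simp [hd]) (by simp), if_pos rfl, ← PG.one_def, map_one,
      s_one, one_mul, map_zsmul, map_natCast]
    simp

end Pool.Agent.Lib.MP_2d211a_co.H30
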