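import Pool.Agent.Lib.MP_2d211a_co.H62Alg

/-! Hadamard-type matrices over an integral group ring: products, unions, images. -/

namespace Pool.Agent.Lib.MP_2d211a_co.H30

open MonoidAlgebra Finset H62 Matrix

variable {E : Type*} [Group E]

noncomputable scoped instance starRing : StarRing (MonoidAlgebra ℤ E) where
  star := st
  star_involutive X := by
    ext g
    change (st (st X)).coeff g = _
    rw [st_coeff, st_coeff, inv_inv]
  star_mul := st_mul
  star_add := st.map_add

theorem star_eq (X : MonoidAlgebra ℤ E) : star X = st X := rfl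

theorem star_s (g : E) : star (s g) = s g⁻¹ := st_s g

theorem nn_zero : Nn (0 : MonoidAlgebra ℤ E) := fun g => by simp

theorem nn_add {X Y : MonoidAlgebra ℤ E} (hX : Nn X) (hY : Nn Y) : Nn (X + Y) := fun g => by
  simpa using add_nonneg (hX g) (hY g)

/-- `x` arises from the non-negative element `n` by putting signs on its terms. -/
def Flat (n x : MonoidAlgebra ℤ E) : Prop := ∃ a b, Nn a ∧ Nn b ∧ n = a + b ∧ x = a - b

namespace Flat

variable {n n' x x' : MonoidAlgebra ℤ E}

theorem zero : Flat (0 : MonoidAlgebra ℤ E) 0 := ⟨0, 0, nn_zero, nn_zero, by simp, by simp⟩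

theorem s (g : E) : Flat (s g) (s g) := ⟨_, 0, Nn.s g, nn_zero, by simp, by simp⟩

theorem one : Flat (1 : MonoidAlgebra ℤ E) 1 := s 1

theorem neg : Flat n x → Flat n (-x)
  | ⟨a, b, ha, hb, e, e'⟩ => ⟨b, a, hb, ha, by rw [e, add_comm], by rw [e', neg_sub]⟩

theorem add : Flat n x → Flat n' x' → Flat (n + n') (x + x')
  | ⟨a, b, ha, hb, e, e'⟩, ⟨c, d, hc, hd, f, f'⟩ =>
    ⟨a + c, b + d, nn_add ha hc, nn_add hb hd, by rw [e, f]; abel, by rw [e', f']; abel⟩

theorem sub (h : Flat n x) (h' : Flat n' x') : Flat (n + n') (x - x') := by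
  rw [sub_eq_add_neg]; exact h.add h'.neg

theorem mul : Flat n x → Flat n' x' → Flat (n * n') (x * x')
  | ⟨a, b, ha, hb, e, e'⟩, ⟨c, d, hc, hd, f, f'⟩ =>
    ⟨a * c + b * d, a * d + b * c, nn_add (ha.mul hc) (hb.mul hd), nn_add (ha.mul hd) (hb.mul hc),
      by rw [e, f]; noncomm_ring, by rw [e', f']; noncomm_ring⟩

theorem star : Flat n x → Flat (star n) (star x)
  | ⟨a, b, ha, hb, e, e'⟩ =>
    ⟨st a, st b, fun g => by rw [st_coeff]; exact ha _, fun g => by rw [st_coeff]; exact hb _,
      by rw [e, star_add]; rfl, by rw [e', star_sub]; rfl⟩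

theorem map {G : Type*} [Group G] (f : E →* G) :
    Flat n x → Flat (mapDomainRingHom ℤ f n) (mapDomainRingHom ℤ f x)
  | ⟨a, b, ha, hb, e, e'⟩ => ⟨_, _, ha.map f, hb.map f, by rw [e, map_add], by rw [e', map_sub]⟩

theorem sum {ι : Type*} (t : Finset ι) {n x : ι → MonoidAlgebra ℤ E} (h : ∀ i, Flat (n i) (x i)) :
    Flat (∑ i ∈ t, n i) (∑ i ∈ t, x i) := by
  classical
  induction t using Finset.induction_on with
  | empty => simpa using zero
  | insert i t hi ih => rw [sum_insert hi, sum_insert hi]; exact (h i).add ih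

end Flat

/-- A square matrix of order `2 ^ k` with orthogonal rows whose entries are signed forms of `n`. -/
def Gk (n : MonoidAlgebra ℤ E) (m k : ℕ) : Prop :=
  ∃ (ι : Type) (_ : Fintype ι) (_ : DecidableEq ι) (B : ι → ι → MonoidAlgebra ℤ E),
    Fintype.card ι = 2 ^ k ∧ (∀ a b, Flat n (B a b)) ∧
      ∀ a a', ∑ b, B a b * star (B a' b) = if a = a' then ((2 ^ k * m : ℕ) : MonoidAlgebra ℤ E) else 0

namespace Gk

variable {n n' : MonoidAlgebra ℤ E} {m m' k k' : ℕ}

theorem get (h : Gk n m k) (κ : Type) [Fintype κ] [DecidableEq κ] (hκ : Fintype.card κ = 2 ^ k) :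
    ∃ B : κ → κ → MonoidAlgebra ℤ E, (∀ a b, Flat n (B a b)) ∧
      ∀ a a', ∑ b, B a b * star (B a' b) = if a = a' then ((2 ^ k * m : ℕ) : MonoidAlgebra ℤ E) else 0 := by
  obtain ⟨ι, _, _, B, hι, h1, h2⟩ := h
  have e := Fintype.equivOfCardEq (hκ.trans hι.symm)
  refine ⟨fun a b => B (e a) (e b), fun _ _ => h1 _ _, fun a a' => ?_⟩
  rw [e.sum_comp fun b => B (e a) b * star (B (e a') b), h2]
  simp

theorem s (g : E) : Gk (s g) 1 0 :=
  ⟨Unit, inferInstance, inferInstance, fun _ _ => H62.s g, rfl, fun _ _ => Flat.s g, fun _ _ => by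
    simp [star_s, s_mul, s_one]⟩

theorem mul (h : Gk n m k) (h' : Gk n' m' k') : Gk (n * n') (m * m') (k + k') := by
  obtain ⟨ι, _, _, B, hι, h1, h2⟩ := h
  obtain ⟨κ, _, _, D, hκ, h3, h4⟩ := h'
  refine ⟨ι × κ, inferInstance, inferInstance, fun a b => B a.1 b.1 * D a.2 b.2,
    by rw [Fintype.card_prod, hι, hκ, pow_add], fun _ _ => (h1 _ _).mul (h3 _ _), ?_⟩
  rintro ⟨a, c⟩ ⟨a', c'⟩
  have : ∀ b, ∑ d, B a b * D c d * star (B a' b * D c' d) =
      B a b * (∑ d, D c d * star (D c' d)) * star (B a' b) := fun b => by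
    simp only [star_mul, mul_sum, sum_mul, mul_assoc]
  have e : ∀ (p q : MonoidAlgebra ℤ E) (c : ℕ), p * c * q = p * q * c := fun p q c => by
    rw [mul_assoc, Nat.cast_comm, mul_assoc]
  simp only [Fintype.sum_prod_type, this, h4, Prod.mk.injEq]
  by_cases hc : c = c'
  · simp only [hc, if_true, and_true, e, ← sum_mul, h2]
    split_ifs
    · rw [← Nat.cast_mul]; congr 1; ring
    · simp
  · simp [hc]

theorem add (h : Gk n m k) (h' : Gk n' m k) : Gk (n + n') (2 * m) (k + 1) := by
  obtain ⟨ι, _, _, B, hι, h1, h2⟩ := h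
  obtain ⟨D, h3, h4⟩ := h'.get ι hι
  refine ⟨Bool × ι, inferInstance, inferInstance,
    fun a b => if a.1 = b.1 then B a.2 b.2 + D a.2 b.2 else B a.2 b.2 - D a.2 b.2,
    by rw [Fintype.card_prod, hι, pow_succ']; rfl, fun a b => ?_, ?_⟩
  · dsimp only
    split_ifs
    exacts [(h1 _ _).add (h3 _ _), (h1 _ _).sub (h3 _ _)]
  · rintro ⟨x, a⟩ ⟨y, a'⟩
    have e1 : ∀ p q r t : MonoidAlgebra ℤ E, (p + q) * star (r + t) + (p - q) * star (r - t) =
        2 * (p * star r) + 2 * (q * star t) := fun p q r t => by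
      rw [star_add, star_sub]; noncomm_ring
    have e2 : ∀ p q r t : MonoidAlgebra ℤ E, (p + q) * star (r - t) + (p - q) * star (r + t) =
        2 * (p * star r) - 2 * (q * star t) := fun p q r t => by
      rw [star_add, star_sub]; noncomm_ring
    rw [Fintype.sum_prod_type_right]
    cases x <;> cases y <;>
      simp only [Fintype.sum_bool, if_true, Bool.true_eq_false, Bool.false_eq_true, if_false, e1, e2,
        add_comm ((_ - _) * _), sum_add_distrib, sum_sub_distrib, ← mul_sum, h2, h4, sub_self,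
        Prod.mk.injEq, true_and, false_and] <;>
      split_ifs <;> push_cast <;> noncomm_ring

theorem two : Gk (1 : MonoidAlgebra ℤ E) 1 1 :=
  ⟨Bool, inferInstance, inferInstance, fun a b => if a ∧ b then -1 else 1, rfl,
    fun a b => by dsimp only; split_ifs; exacts [Flat.one.neg, Flat.one],
    fun a b => by cases a <;> cases b <;> simp [one_add_one_eq_two]⟩

theorem mono (h : Gk n m k) (hk : k ≤ k') : Gk n m k' := by
  induction hk with
  | refl => exact h
  | step _ ih => simpa using ih.mul two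

theorem map {G : Type*} [Group G] (f : E →* G) (h : Gk n m k) :
    Gk (mapDomainRingHom ℤ f n) m k := by
  obtain ⟨ι, _, _, B, hι, h1, h2⟩ := h
  refine ⟨ι, inferInstance, inferInstance, fun a b => mapDomainRingHom ℤ f (B a b), hι,
    fun _ _ => (h1 _ _).map f, fun a a' => ?_⟩
  simp only [star_eq, ← map_st, ← map_mul, ← map_sum]
  simp only [← star_eq, h2]
  split_ifs
  exacts [map_natCast _ _, map_zero _]

theorem sum (j : ℕ) : ∀ l : List (MonoidAlgebra ℤ E), l.length = 2 ^ j → (∀ x ∈ l, Gk x m k) →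
    Gk l.sum (2 ^ j * m) (k + j) := by
  induction j with
  | zero =>
    intro l hl h
    obtain ⟨x, rfl⟩ := List.length_eq_one_iff.1 hl
    simpa using h x (by simp)
  | succ j ih =>
    intro l hl h
    rw [← List.take_append_drop (2 ^ j) l, List.sum_append, pow_succ', mul_assoc]
    exact (ih _ (by simp [hl, pow_succ]) fun x hx => h x (List.mem_of_mem_take hx)).add
      (ih _ (by simp [hl, pow_succ]; omega) fun x hx => h x (List.mem_of_mem_drop hx))

end Gk

end Pool.Agent.Lib.MP_2d211a_co.H30
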