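import Pool.Agent.Lib.MP_2d211a_co.H42TwoE

/-! The sharp exponent bound for the prime `2`. -/

namespace Pool.Agent.Lib.MP_2d211a_co.H62

open Subgroup
open scoped commutatorElement

set_option linter.unusedSectionVars false

universe u

variable {E : Type u} [Group E] [Finite E] {n e : ℕ}

theorem exp_pow {p : ℕ} (he : Monoid.exponent E = p ^ e) {k : ℕ} (h : e ≤ k) (x : E) :
    x ^ p ^ k = 1 :=
  Monoid.exponent_dvd_iff_forall_pow_eq_one.1 (he ▸ pow_dvd_pow p h) x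

theorem ord_top (he : Monoid.exponent E = 2 ^ (e + 1)) {x : E} :
    orderOf x = 2 ^ (e + 1) ↔ x ^ 2 ^ e ≠ 1 :=
  ⟨fun h => pow_ne_one_of_lt_orderOf (by positivity)
    (h ▸ Nat.pow_lt_pow_right one_lt_two e.lt_succ_self),
      fun h => orderOf_eq_prime_pow h (exp_pow he le_rfl x)⟩

theorem exp_top (he : Monoid.exponent E = 2 ^ (e + 1)) : ∃ x : E, x ^ 2 ^ e ≠ 1 := by
  by_contra hne
  push Not at hne
  have := Monoid.exponent_dvd_iff_forall_pow_eq_one.2 hne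
  rw [he, Nat.pow_dvd_pow_iff_le_right one_lt_two] at this
  omega

theorem two_odd' (hE : Nat.card E = 2 ^ n) (he : Monoid.exponent E = 2 ^ e) (hn : 2 ≤ n)
    (ho : Odd n) (h1 : 2 * e ≤ n + 2) (h2 : n < 2 * e → ¬∃ t : E, orderOf t = 4 ∧ t ∉ center E ∧
      ∀ x : E, orderOf x = 2 ^ e → t ∈ zpowers x) {z : E} (hz : Cen 2 z) : ∃ m X, Good z m X := by
  have hP : IsPGroup 2 E := .of_card hE
  obtain ⟨k, rfl⟩ := ho
  obtain ⟨j, rfl⟩ : ∃ j, k = j + 1 := ⟨k - 1, by omega⟩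
  have h3 := exp_pow he (k := j + 2) (by omega)
  refine odd2 j E hE h3 ?_ z hz
  rintro ⟨x, x1, x2, x3⟩
  obtain rfl : e = j + 2 := by_contra fun h => x1 (exp_pow he (by omega) x)
  have c4 : ∀ y : E, y ^ 2 ^ (j + 1) ≠ 1 → Nat.card (zpowers (y ^ 2 ^ j)) = 4 := fun y hy =>
    card_x hP (m := 1) (by rw [← pow_mul, ← pow_add, h3]) (by rwa [pow_one, pow_sq])
  refine h2 (by omega) ⟨_, (Nat.card_zpowers _).symm.trans (c4 x x1), x2, fun y hy => ?_⟩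
  have y1 := (ord_top he).1 hy
  exact zpowers_le.2 (npow_mem_zpowers y _) ((eq_of_le_of_card_ge (zpowers_le.2 (x3 y y1))
    (by rw [c4 x x1, c4 y y1])).ge (mem_zpowers _))

theorem two_even (hE : Nat.card E = 2 ^ n) (he : Monoid.exponent E = 2 ^ e) (hn : 2 ≤ n)
    (ho : Even n) (h1 : 2 * e ≤ n) {g : E} (hz : Cen 2 (g ^ 2)) : ∃ m X, Good (g ^ 2) m X := by
  obtain ⟨k, rfl⟩ := ho
  rcases k with _ | _ | j
  · omega
  · exact absurd (exp_pow he (k := 1) (by omega) g) hz.ne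
  exact even2 j E (hE.trans (by congr 1; omega)) _ g hz rfl (.inl (exp_pow he (by omega)))

theorem two_even' (hE : Nat.card E = 2 ^ n) (he : Monoid.exponent E = 2 ^ (e + 2)) (hn : 2 ≤ n)
    (ho : Even n) (h1 : 2 * (e + 2) ≤ n + 2) (h0 : ¬(n = 4 ∧ e + 2 = 3))
    (h2 : n < 2 * (e + 2) → ¬∃ t : E, orderOf t = 4 ∧ t ∉ center E ∧
      ∀ x : E, orderOf x = 2 ^ (e + 2) → t ∈ zpowers x) : ∃ z : E, Cen 2 z ∧ ∃ m X, Good z m X := by
  have hP : IsPGroup 2 E := .of_card hE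
  obtain ⟨b, hb⟩ := exp_top he
  have h3 := exp_pow he le_rfl
  obtain h | rfl | h : n = 2 * e + 2 ∨ n = 2 * (e + 1) + 2 ∨ 2 * (e + 2) < n := by
    obtain ⟨k, rfl⟩ := ho
    omega
  · have hc : b ^ 2 ^ e ∈ center E := by_contra fun hc => h2 (by omega) ⟨_, orderOf_eq_prime_pow
      (p := 2) (n := 1) (by rwa [pow_one, pow_sq]) (by rw [← pow_mul, ← pow_add, h3]), hc,
        fun x hx => pow_mem_idx hP le_top (by
          rw [card_top, Nat.card_zpowers, hx, hE, h]; ring_nf; rfl) trivial⟩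
    have hz : Cen 2 ((b ^ 2 ^ e) ^ 2) := ⟨mem_center_iff.1 (pow_mem hc 2), by rwa [pow_sq],
      by rw [pow_sq, pow_sq, h3]⟩
    refine ⟨_, hz, ?_⟩
    rcases e with _ | j
    · exact good_four hz (by rw [hE, h]; rfl) rfl
    exact even2 j E (by rw [hE, h]; rfl) _ _ hz rfl
      (.inr ⟨h3, b, (pow_sq b _).symm, hc, fun e => by omega⟩)
  · have hz := top_cen hE (h3 b) hb
    rw [← pow_sq] at hz
    exact ⟨_, hz, two_even hE he hn ho (by omega) hz⟩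
  obtain ⟨B, b1, b2, b3⟩ := exists_selfcent hP
  by_cases h4 : ∀ a ∈ B, a ^ 2 = 1
  · obtain ⟨w, w1, w2, w3⟩ := second_of_normal hP B h4 fun h => hb (by
      rw [← sq_pow, h4 b (b3 b fun a ha => (mem_center_iff.1 (h ha) b).symm), one_pow])
    refine good_noncentral hE w1 w2 w3 fun V _ hV _ hq => ?_
    obtain ⟨k, rfl⟩ := exp_le hE hV
    obtain ⟨c, hc⟩ := hq.exists_ofOrder_eq_natCard
    obtain ⟨c, rfl⟩ := QuotientGroup.mk_surjective c
    have e := orderOf_le_of_pow_eq_one (x := (c : E ⧸ V)) (n := 2 ^ (e + 2)) (by positivity)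
      (by rw [← QuotientGroup.mk_pow, h3]; rfl)
    rw [hc, card_quot hE hV, Nat.pow_le_pow_iff_right one_lt_two] at e
    obtain ⟨l, hl⟩ := ho
    omega
  push Not at h4
  obtain ⟨a, a1, a2⟩ := h4
  obtain ⟨_, ⟨k, rfl⟩, a3, a4⟩ := exists_ord hP a2
  let S : Subgroup E :=
    { carrier := {y | ∃ b ∈ B, y = b ^ 2 ∧ y ^ 2 = 1}
      one_mem' := ⟨1, B.one_mem, by simp⟩
      mul_mem' := by
        rintro _ _ ⟨x, x1, rfl, x2⟩ ⟨y, y1, rfl, y2⟩
        exact ⟨_, B.mul_mem x1 y1, (Commute.mul_pow (b2 x x1 y y1) 2).symm, by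
          rw [Commute.mul_pow (b2 _ (B.pow_mem x1 2) _ (B.pow_mem y1 2)), x2, y2, one_mul]⟩
      inv_mem' := by
        rintro _ ⟨x, x1, rfl, x2⟩
        exact ⟨_, B.inv_mem x1, (inv_pow x 2).symm, by rw [inv_pow, x2, inv_one]⟩ }
  have : S.Normal := ⟨by
    rintro _ ⟨x, x1, rfl, x2⟩ g
    exact ⟨_, b1.conj_mem x x1 g, _root_.conj_pow.symm, by
      rw [_root_.conj_pow, x2, mul_one, mul_inv_cancel]⟩⟩
  obtain ⟨_, ⟨g, -, rfl, g1⟩, g2, g3⟩ := normal_cen hP S fun h => a3 (mem_bot.1 (h ▸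
    ⟨a ^ k, B.zpow_mem a1 k, by
      beta_reduce
      rw [← zpow_natCast, ← zpow_natCast, ← zpow_mul, ← zpow_mul, mul_comm], a4⟩))
  exact ⟨_, ⟨g3, g2, g1⟩, two_even hE he hn ho h.le ⟨g3, g2, g1⟩⟩

end Pool.Agent.Lib.MP_2d211a_co.H62
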