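import Pool.Agent.Lib.MP_2d211a_co.H30Sym
import Pool.Agent.Lib.MP_2d211a_co.H42TwoF

/-! Small normal subgroups inside a normal subgroup all of whose squares lie in `⟨z⟩`. -/

namespace Pool.Agent.Lib.MP_2d211a_co.H30

open Finset H62 Subgroup

variable {E : Type*} [Group E] [Finite E] {z : E} {C P K H T : Subgroup E} {a s : ℕ}

theorem cj (hz : Cen 2 z) (hP : ∀ x ∈ P, x ^ 2 ∈ zpowers z) {h u : E} (hh : h ∈ P) (hu : u ∈ P) :
    u * h * u⁻¹ = h ∨ u * h * u⁻¹ = z * h := by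
  by_cases e : u * h = h * u
  · exact .inl (by rw [e, mul_inv_cancel_right])
  · exact .inr (by rw [dich hz hP hu hh e, ← mul_assoc, mul_inv_cancel_right])

theorem card_le_two {u : E} (h : ∀ g ∈ K, g ∈ H ∨ u⁻¹ * g ∈ H) : Nat.card K ≤ 2 * Nat.card H := by
  have e : (K : Set E) ⊆ (H : Set E) ∪ (u * ·) '' H := fun g hg =>
    (h g hg).imp id fun e => ⟨_, e, mul_inv_cancel_left u g⟩
  have := (Set.ncard_le_ncard e).trans (Set.ncard_union_le _ _)
  rwa [Set.ncard_image_of_injective _ (mul_right_injective u), ← two_mul] at this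

theorem exists_ext (hz : Cen 2 z) (hP : ∀ x ∈ P, x ^ 2 ∈ zpowers z) (zH : z ∈ H) (hH : H ≤ P)
    {u : E} (hu : u ∈ P) : ∃ H' : Subgroup E, ∀ g, g ∈ H' ↔ g ∈ H ∨ u⁻¹ * g ∈ H := by
  have c : ∀ h ∈ H, u⁻¹ * h * u ∈ H := fun h hh => by
    rcases cj hz hP (hH hh) (P.inv_mem hu) with e | e <;> rw [inv_inv] at e <;> rw [e]
    exacts [hh, H.mul_mem zH hh]
  have c2 : u ^ 2 ∈ H := zpowers_le.2 zH (hP u hu)
  refine ⟨⟨⟨⟨{g | g ∈ H ∨ u⁻¹ * g ∈ H}, ?_⟩, .inl H.one_mem⟩, ?_⟩, fun _ => Iff.rfl⟩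
  · rintro x y (hx | hx) (hy | hy)
    · exact .inl (H.mul_mem hx hy)
    · exact .inr (by convert H.mul_mem (c x hx) hy using 1; group)
    · exact .inr (by convert H.mul_mem hx hy using 1; group)
    · exact .inl (by convert H.mul_mem c2 (H.mul_mem (c _ hx) hy) using 1; rw [sq]; group)
  · rintro x (hx | hx)
    · exact .inl (H.inv_mem hx)
    · exact .inr (by convert H.mul_mem (c _ (H.inv_mem hx)) (H.inv_mem c2) using 1; rw [sq]; group)

theorem exists_extS (hz : Cen 2 z) (hP : ∀ x ∈ P, x ^ 2 ∈ zpowers z) (zH : z ∈ H) (hH : H ≤ P)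
    (S : Finset E) (hS : ∀ u ∈ S, u ∈ P) : ∃ H' : Subgroup E, H ≤ H' ∧ H' ≤ P ∧ (∀ u ∈ S, u ∈ H') ∧
      Nat.card H' ≤ 2 ^ S.card * Nat.card H := by
  classical
  induction S using Finset.induction_on with
  | empty => exact ⟨H, le_rfl, hH, by simp, by simp⟩
  | insert u S hu ih =>
    obtain ⟨H1, a1, a2, a3, a4⟩ := ih fun v hv => hS v (mem_insert_of_mem hv)
    have uP := hS u (mem_insert_self _ _)
    obtain ⟨H2, h⟩ := exists_ext hz hP (a1 zH) a2 uP
    refine ⟨H2, fun g hg => (h g).2 (.inl (a1 hg)), fun g hg => ((h g).1 hg).elim (fun e => a2 e)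
      fun e => (P.mul_mem_cancel_left (P.inv_mem uP)).1 (a2 e), fun v hv => (h v).2 ?_, ?_⟩
    · rcases mem_insert.1 hv with rfl | hv
      exacts [.inr (by simp), .inl (a3 v hv)]
    · have := card_le_two fun g hg => (h g).1 hg
      rw [card_insert_of_notMem hu, pow_succ]
      nlinarith

theorem cutS (hz : Cen 2 z) (hP : ∀ x ∈ P, x ^ 2 ∈ zpowers z) (hK : K ≤ P) (S : Finset E)
    (hS : ∀ u ∈ S, u ∈ P) : Nat.card K ≤ 2 ^ S.card * Nat.card (K ⊓ centralizer S : Subgroup E) ∧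
      ∀ N, Big K (4 ^ S.card * N) → Big (K ⊓ centralizer S) N := by
  classical
  induction S using Finset.induction_on with
  | empty =>
    have : K ⊓ centralizer ((∅ : Finset E) : Set E) = K :=
      inf_eq_left.2 fun g _ => mem_centralizer_iff.2 (by simp)
    simp only [this]
    simp
  | insert u S hu ih =>
    obtain ⟨a1, a2⟩ := ih fun v hv => hS v (mem_insert_of_mem hv)
    have uP := hS u (mem_insert_self _ _)
    have e : K ⊓ centralizer ((insert u S : Finset E) : Set E) =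
        K ⊓ centralizer S ⊓ centralizer {u} := by
      ext g
      simp only [Subgroup.mem_inf, mem_centralizer_iff, coe_insert, Set.forall_mem_insert,
        Set.mem_singleton_iff, forall_eq]
      tauto
    rw [e, card_insert_of_notMem hu, pow_succ, pow_succ]
    by_cases h : ∀ y ∈ K ⊓ centralizer S, y * u = u * y
    · rw [(inf_eq_left (b := centralizer {u})).2 fun c hc =>
        mem_centralizer_singleton_iff.2 (h c hc)]
      exact ⟨by nlinarith, fun N hN => a2 N (hN.mono (by nlinarith [Nat.zero_le (4 ^ S.card * N)]))⟩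
    · push Not at h
      obtain ⟨y, hy, h⟩ := h
      exact ⟨by rw [mul_assoc, ← (half hz hP (inf_le_left.trans hK) uP hy h).2]; exact a1,
        fun N hN => (a2 _ (by rwa [← mul_assoc])).half hz hP (inf_le_left.trans hK) uP hy h⟩

/-- The standing hypotheses. -/
structure Sy (z : E) (C P : Subgroup E) (a : ℕ) : Prop where
  hz : Cen 2 z
  nC : C.Normal
  nP : P.Normal
  zC : z ∈ C
  zP : z ∈ P
  sq : ∀ x ∈ P, x ^ 2 ∈ zpowers z
  cm : ∀ c ∈ C, ∀ p ∈ P, c * p = p * c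
  ix : (C ⊔ P).index ≤ a

theorem Sy.tr (h : Sy z C P a) : ∃ F : Finset E, F.card ≤ a ∧ ∀ u ∈ P, ∀ g, ∃ t ∈ F,
    g * u * g⁻¹ = t * u * t⁻¹ ∨ g * u * g⁻¹ = z * (t * u * t⁻¹) := by
  classical
  have := Fintype.ofFinite (E ⧸ (C ⊔ P))
  have := h.nP
  refine ⟨univ.image fun q : E ⧸ (C ⊔ P) => q.out, card_image_le.trans ?_, fun u hu g => ?_⟩
  · rw [card_univ, ← Nat.card_eq_fintype_card]; exact h.ix
  obtain ⟨⟨x, hx⟩, e⟩ := QuotientGroup.mk_out_eq_mul (C ⊔ P) g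
  obtain ⟨c, hc, p, hp, e'⟩ := mem_sup_of_normal_right.1 ((C ⊔ P).inv_mem hx)
  refine ⟨_, mem_image_of_mem _ (mem_univ (g : E ⧸ (C ⊔ P))), ?_⟩
  have e1 : g * u * g⁻¹ = (g * x) * (c * (p * u * p⁻¹) * c⁻¹) * (g * x)⁻¹ := by
    rw [eq_mul_inv_of_mul_eq e']; group
  rw [e, e1, h.cm c hc _ (h.nP.conj_mem u hu p), mul_inv_cancel_right]
  refine (cj h.hz h.sq hu hp).imp (fun e => by rw [e]) fun e => ?_
  rw [e, ← mul_assoc, h.hz.comm]; simp only [mul_assoc]

/-- A normal subgroup with at most `s` generators besides `z`. -/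
structure Sm (z : E) (P T : Subgroup E) (s : ℕ) : Prop where
  nm : T.Normal
  zT : z ∈ T
  le : T ≤ P
  cd : Nat.card T ≤ 2 ^ (s + 1)
  gen : ∃ S : Finset E, S.card ≤ s ∧ (∀ u ∈ S, u ∈ T) ∧ centralizer (S : Set E) ≤ centralizer T

theorem Sy.base (h : Sy z C P a) : Sm z P (zpowers z) 0 :=
  ⟨h.hz.normal, mem_zpowers z, zpowers_le.2 h.zP, (card_zp h.hz.ne h.hz.pow).le, ∅, le_rfl, by simp,
    le_centralizer_iff.1 (zpowers_le.2 (mem_centralizer_iff.2 fun g _ => h.hz.comm g))⟩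

omit [Finite E] in
theorem Sm.mono {s' : ℕ} (h : Sm z P T s) (h' : s ≤ s') : Sm z P T s' :=
  ⟨h.nm, h.zT, h.le, h.cd.trans (Nat.pow_le_pow_right two_pos (by omega)),
    h.gen.imp fun _ e => ⟨e.1.trans h', e.2⟩⟩

theorem Sy.ext (h : Sy z C P a) (hT : Sm z P T s) {u : E} (hu : u ∈ P) :
    Sm z P (T ⊔ normalClosure {u}) (s + a) := by
  classical
  obtain ⟨F, f1, f2⟩ := h.tr
  obtain ⟨S, s1, s2, s3⟩ := hT.gen
  have := hT.nm
  have := h.nP
  have key : ∀ H : Subgroup E, z ∈ H → (∀ t ∈ F, t * u * t⁻¹ ∈ H) → normalClosure {u} ≤ H :=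
    fun H h1 h2 => (closure_le _).2 fun x hx => by
      obtain ⟨_, rfl, hx'⟩ := Group.mem_conjugatesOfSet_iff.1 hx
      obtain ⟨g, rfl⟩ := isConj_iff.1 hx'
      obtain ⟨t, ht, e | e⟩ := f2 _ hu g <;> rw [e]
      exacts [h2 t ht, H.mul_mem h1 (h2 t ht)]
  obtain ⟨H, a1, -, a3, a4⟩ := exists_extS h.hz h.sq hT.zT hT.le (F.image fun t => t * u * t⁻¹)
    (by simp only [mem_image]; rintro _ ⟨t, -, rfl⟩; exact h.nP.conj_mem u hu t)
  have c1 : (F.image fun t => t * u * t⁻¹).card ≤ a := card_image_le.trans f1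
  refine ⟨inferInstance, mem_sup_left hT.zT, sup_le hT.le (normalClosure_le_normal (by simpa)),
    (card_le_of_le (sup_le a1 (key H (a1 hT.zT) fun t ht => a3 _ (mem_image_of_mem _ ht)))).trans
      (a4.trans ?_), S ∪ F.image fun t => t * u * t⁻¹, (card_union_le _ _).trans (by omega),
    fun v hv => ?_, le_centralizer_iff.1 (sup_le ?_ (key _ ?_ fun t ht => ?_))⟩
  · rw [show s + a + 1 = a + (s + 1) by ring, pow_add]
    exact Nat.mul_le_mul (Nat.pow_le_pow_right two_pos c1) hT.cd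
  · rcases mem_union.1 hv with hv | hv
    · exact mem_sup_left (s2 v hv)
    · obtain ⟨t, -, rfl⟩ := mem_image.1 hv
      exact mem_sup_right (normalClosure_normal.conj_mem u (subset_normalClosure (Set.mem_singleton _)) t)
  · exact le_centralizer_iff.1 ((centralizer_le (by simp)).trans s3)
  · exact mem_centralizer_iff.2 fun g _ => h.hz.comm g
  · exact mem_centralizer_iff.2 fun g hg =>
      (hg _ (mem_coe.2 (mem_union_right _ (mem_image_of_mem _ ht)))).symm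

theorem Sy.cut (h : Sy z C P a) (hT : Sm z P T s) (hK : K ≤ P) :
    Nat.card K ≤ 2 ^ s * Nat.card (K ⊓ centralizer T : Subgroup E) ∧
      ∀ N, Big K (4 ^ s * N) → Big (K ⊓ centralizer T) N := by
  obtain ⟨S, s1, s2, s3⟩ := hT.gen
  obtain ⟨a1, a2⟩ := cutS h.hz h.sq hK S fun u hu => hT.le (s2 u hu)
  rw [le_antisymm s3 (centralizer_le s2)] at a1 a2
  exact ⟨a1.trans (by gcongr; norm_num), fun N hN => a2 N (hN.mono (by gcongr; norm_num))⟩

theorem Sy.invol (h : Sy z C P a) (F : Finset E) : ∀ K : Subgroup E, K ≤ P →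
    Big K (4 ^ (a * F.card) * 8) → ∃ w ∈ K, w * w = 1 ∧ (∃ x ∈ K, x * w ≠ w * x) ∧
      ∀ t ∈ F, Commute w (t * w * t⁻¹) := by
  classical
  induction F using Finset.induction_on with
  | empty =>
    intro K hK hB
    obtain ⟨w, hw, x, hx, e⟩ := exists_invol h.hz (fun x hx => h.sq x (hK hx)) (by simpa using hB)
    exact ⟨w, hw, e.1, ⟨x, hx, e.2⟩, by simp⟩
  | insert t F ht ih =>
    intro K hK hB
    rw [card_insert_of_notMem ht, mul_add, mul_one, add_comm, pow_add, mul_assoc] at hB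
    obtain ⟨w, w1, w2, w3, w4⟩ := ih K hK (hB.mono (Nat.le_mul_of_pos_left _ (by positivity)))
    have hT := h.ext h.base (hK w1)
    rw [zero_add] at hT
    obtain ⟨v, v1, v2, ⟨x, x1, x2⟩, v4⟩ := ih _ (inf_le_left.trans hK) ((h.cut hT hK).2 _ hB)
    by_cases e1 : Commute w (t * w * t⁻¹)
    · exact ⟨w, w1, w2, w3, by simpa [e1] using w4⟩
    by_cases e2 : Commute v (t * v * t⁻¹)
    · exact ⟨v, v1.1, v2, ⟨x, x1.1, x2⟩, by simpa [e2] using v4⟩
    have c : ∀ {y : E}, y ∈ centralizer (zpowers z ⊔ normalClosure {w} : Subgroup E) → ∀ g,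
        Commute (g * w * g⁻¹) y := fun hy g =>
      hy _ (mem_sup_right (normalClosure_normal.conj_mem w (subset_normalClosure (Set.mem_singleton _)) g))
    have c1 : ∀ {y : E}, y ∈ centralizer (zpowers z ⊔ normalClosure {w} : Subgroup E) →
        Commute w y := fun hy => by simpa using c hy 1
    have c2 : ∀ g, Commute w (g * v * g⁻¹) := fun g => by
      simpa [mul_assoc] using (c v1.2 g⁻¹).map (MulAut.conj g)
    have e : ∀ g, g * (w * v) * g⁻¹ = g * w * g⁻¹ * (g * v * g⁻¹) := fun g => by group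
    refine ⟨w * v, K.mul_mem w1 v1.1, ?_, ⟨x, x1.1, fun e => x2 ?_⟩, fun g hg => ?_⟩
    · rw [mul_assoc, ← mul_assoc v, ← (c1 v1.2).eq, mul_assoc, v2, mul_one, w2]
    · rw [← mul_assoc, ← (c1 x1.2).eq, mul_assoc, mul_assoc] at e
      exact mul_left_cancel e
    rw [e]
    rcases mem_insert.1 hg with rfl | hg
    · have d1 := dich h.hz h.sq (hK w1) (h.nP.conj_mem w (hK w1) g) e1
      have d2 := dich h.hz h.sq (hK v1.1) (h.nP.conj_mem v (hK v1.1) g) e2
      have d3 := (c v1.2 g).eq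
      have d4 := (c2 g).eq
      generalize g * w * g⁻¹ = w' at *
      generalize g * v * g⁻¹ = v' at *
      calc w * v * (w' * v') = w * w' * (v * v') := by
            rw [mul_assoc, ← mul_assoc v, ← d3]; simp only [mul_assoc]
        _ = z * z * (w' * (w * v') * v) := by
            rw [d1, d2, mul_assoc z, ← mul_assoc _ z, h.hz.comm]; simp only [mul_assoc]
        _ = _ := by rw [← _root_.sq, h.hz.pow, d4]; simp only [mul_assoc, one_mul]
    · exact ((w4 g hg).mul_right (c2 g)).mul_left ((c v1.2 g).symm.mul_right (v4 g hg))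

theorem Sy.elem (h : Sy z C P a) [K.Normal] (hK : K ≤ P) (zK : z ∈ K) (i : ℕ)
    (hB : Big K (4 ^ (a * i) * (4 ^ (a * a) * 8))) : ∃ M : Subgroup E, M ≤ K ∧ Sm z P M (a * i) ∧
      M ≤ centralizer M ∧ (∀ x ∈ M, x * x = 1) ∧
      2 ^ i * Nat.card (K ⊓ centralizer M : Subgroup E) ≤ Nat.card K := by
  induction i with
  | zero =>
    refine ⟨zpowers z, zpowers_le.2 zK, h.base, zpowers_le.2 (mem_centralizer_iff.2 fun g _ =>
      h.hz.comm g), fun x hx => ?_, by simpa using card_le_of_le inf_le_left⟩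
    rcases inv2 h.hz.pow hx with rfl | rfl
    exacts [one_mul 1, by rw [← _root_.sq, h.hz.pow]]
  | succ i ih =>
    have hB' : Big K (4 ^ (a * i) * (4 ^ (a * a) * 8)) := hB.mono (by gcongr <;> norm_num)
    obtain ⟨M, m1, m2, m3, m4, m5⟩ := ih hB'
    obtain ⟨F, f1, f2⟩ := h.tr
    obtain ⟨w, w1, w2, ⟨x, x1, x2⟩, w4⟩ := h.invol F _ (inf_le_left.trans hK)
      (((h.cut m2 hK).2 _ hB').mono (by gcongr; norm_num))
    have := m2.nm
    have wN : w ∈ normalClosure {w} := subset_normalClosure rfl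
    have c1 : normalClosure {w} ≤ centralizer M := normalClosure_le_normal (by simpa using w1.2)
    have c2 : normalClosure {w} ≤ centralizer (normalClosure {w} : Subgroup E) := by
      refine normalClosure_le_normal (Set.singleton_subset_iff.2 ?_)
      rw [normalClosure, centralizer_closure]
      intro y hy
      obtain ⟨_, rfl, hy'⟩ := Group.mem_conjugatesOfSet_iff.1 hy
      obtain ⟨g, rfl⟩ := isConj_iff.1 hy'
      obtain ⟨t, ht, e | e⟩ := f2 _ (hK w1.1) g <;> rw [e]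
      exacts [(w4 t ht).symm, (Commute.mul_left (h.hz.comm _).symm (w4 t ht).symm :)]
    have c3 : M ⊔ normalClosure {w} ≤ centralizer (M ⊔ normalClosure {w} : Subgroup E) :=
      sup_le (le_centralizer_iff.1 (sup_le m3 c1))
        (le_centralizer_iff.1 (sup_le (le_centralizer_iff.1 c1) c2))
    let L : Subgroup E := ⟨⟨⟨{x | x ∈ M ⊔ normalClosure {w} ∧ x * x = 1}, fun {x y} hx hy =>
      ⟨mul_mem hx.1 hy.1, by
        rw [mul_assoc, ← mul_assoc y, c3 hx.1 y hy.1, mul_assoc, hy.2, mul_one, hx.2]⟩⟩,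
      ⟨one_mem _, one_mul 1⟩⟩, fun hx => ⟨inv_mem hx.1, by rw [← mul_inv_rev, hx.2, inv_one]⟩⟩
    have : L.Normal := ⟨fun x hx g => ⟨Normal.conj_mem inferInstance x hx.1 g, by
      rw [conj_mul, hx.2, mul_one, mul_inv_cancel]⟩⟩
    refine ⟨_, sup_le m1 (normalClosure_le_normal (by simpa using w1.1)), h.ext m2 (hK w1.1), c3,
      fun y hy => ((sup_le (fun y hy => ⟨mem_sup_left hy, m4 y hy⟩) (normalClosure_le_normal
        (Set.singleton_subset_iff.2 ⟨mem_sup_right wN, w2⟩)) : _ ≤ L) hy).2, le_trans ?_ m5⟩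
    rw [(half h.hz h.sq (inf_le_left.trans hK) (hK w1.1) x1 x2).2, pow_succ, mul_assoc]
    gcongr
    exact card_le_of_le fun y hy => ⟨⟨hy.1, fun g hg => hy.2 g (mem_sup_left hg)⟩,
      mem_centralizer_singleton_iff.2 (hy.2 w (mem_sup_right wN)).symm⟩

theorem Sy.pg (h : Sy z C P a) : IsPGroup 2 P := fun x => ⟨2, Subtype.ext (by
  rw [_root_.sq 2, pow_mul]
  rcases inv2 h.hz.pow (h.sq x x.2) with e | e <;> simp [e, h.hz.pow])⟩

theorem two_le (hHK : H ≤ K) {u : E} (h1 : u ∈ K) (h2 : u ∉ H) : 2 * Nat.card H ≤ Nat.card K := by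
  obtain ⟨c, hc⟩ := card_dvd_of_le hHK
  have := Nat.card_pos (α := K)
  have : c ≠ 1 := fun e => h2 (eq_of_le_of_card_ge hHK (by simp [hc, e]) ▸ h1)
  have : c ≠ 0 := fun e => by simp [e] at hc; omega
  rw [hc, mul_comm]
  exact Nat.mul_le_mul_left _ (by omega)

theorem Sy.cover (h : Sy z C P a) {Q : Subgroup E} (hQ : Q ≤ P) (i : ℕ) : ∀ (T : Subgroup E)
    (s : ℕ), Sm z P T s → Nat.card P ≤ 2 ^ i * Nat.card (T ⊔ Q : Subgroup E) →
    ∃ T', T ≤ T' ∧ Sm z P T' (s + a * i) ∧ P ≤ T' ⊔ Q := by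
  induction i with
  | zero => exact fun T s hT hc =>
      ⟨T, le_rfl, hT, (eq_of_le_of_card_ge (sup_le hT.le hQ) (by simpa using hc)).ge⟩
  | succ i ih =>
    intro T s hT hc
    by_cases e : P ≤ T ⊔ Q
    · exact ⟨T, le_rfl, hT.mono (by omega), e⟩
    obtain ⟨u, u1, u2⟩ := SetLike.not_le_iff_exists.1 e
    obtain ⟨T', a1, a2, a3⟩ := ih _ _ (h.ext hT u1) (hc.trans (by
      rw [pow_succ, mul_assoc]
      exact Nat.mul_le_mul_left _ (two_le (sup_le_sup_right le_sup_left Q)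
        (mem_sup_left (mem_sup_right (subset_normalClosure (Set.mem_singleton _)))) u2)))
    exact ⟨T', le_sup_left.trans a1, a2.mono (by rw [mul_add]; omega), a3⟩

theorem Sy.extS (h : Sy z C P a) (hT : Sm z P T s) (S : Finset E) (hS : ∀ u ∈ S, u ∈ P) :
    ∃ T', T ≤ T' ∧ Sm z P T' (s + a * S.card) ∧ ∀ u ∈ S, u ∈ T' := by
  classical
  induction S using Finset.induction_on with
  | empty => exact ⟨T, le_rfl, hT, by simp⟩
  | insert u S hu ih =>
    obtain ⟨T', a1, a2, a3⟩ := ih fun v hv => hS v (mem_insert_of_mem hv)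
    refine ⟨_, a1.trans le_sup_left, (h.ext a2 (hS u (mem_insert_self _ _))).mono (by
      rw [card_insert_of_notMem hu, mul_add]; omega), fun v hv => ?_⟩
    rcases mem_insert.1 hv with rfl | hv
    exacts [mem_sup_right (subset_normalClosure (Set.mem_singleton _)), mem_sup_left (a3 v hv)]

theorem Sy.supp (h : Sy z C P a) (hT : Sm z P T s) : ∃ T', T ≤ T' ∧ Sm z P T' (s + a * (a * a)) ∧
    ∀ U : Subgroup E, U.Normal → T' ≤ U → U ≤ P → C ⊓ P ≤ U → ∃ D : Subgroup E,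
      C ≤ D ∧ D ⊓ P = U ∧ (∀ g, ∃ p ∈ P, ∃ d ∈ D, g = p * d) ∧
      Nat.card D ≤ a * (Nat.card C * Nat.card U) := by
  classical
  have := h.nC
  have := h.nP
  have := Fintype.ofFinite (E ⧸ (C ⊔ P))
  have e : ∀ q : (E ⧸ (C ⊔ P)) × (E ⧸ (C ⊔ P)), ∃ c ∈ C, ∃ p ∈ P,
      c * p = ((q.1 * q.2).out)⁻¹ * (q.1.out * q.2.out) := fun q =>
    mem_sup_of_normal_right.1 (QuotientGroup.eq.1 (by simp))
  choose c c1 p p1 e using e
  obtain ⟨T', a1, a2, a3⟩ := h.extS hT (univ.image p)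
    (by simp only [mem_image]; rintro _ ⟨q, -, rfl⟩; exact p1 q)
  have hi : Fintype.card (E ⧸ (C ⊔ P)) ≤ a := by rw [← Nat.card_eq_fintype_card]; exact h.ix
  refine ⟨T', a1, a2.mono ?_, fun U _ u1 u2 u3 => ?_⟩
  · gcongr
    exact card_image_le.trans (by rw [card_univ, Fintype.card_prod]; gcongr)
  let σ : E ⧸ (C ⊔ P) →* E ⧸ (C ⊔ U) := MonoidHom.mk' (fun q => q.out) fun q q' => by
    rw [← QuotientGroup.mk_mul, QuotientGroup.eq, ← e (q, q')]
    exact mul_mem_sup (c1 _) (u1 (a3 _ (mem_image_of_mem _ (mem_univ _))))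
  let D := (QuotientGroup.mk' (C ⊔ U)).eqLocus (σ.comp (QuotientGroup.mk' (C ⊔ P)))
  have d1 : ∀ g ∈ C ⊔ P, g ∈ D ↔ g ∈ C ⊔ U := fun g hg => by
    change ((g : E ⧸ (C ⊔ U)) = σ (g : E ⧸ (C ⊔ P))) ↔ _
    rw [(QuotientGroup.eq_one_iff g).2 hg, map_one, QuotientGroup.eq_one_iff]
  have d2 : C ≤ D := fun g hg => (d1 g (mem_sup_left hg)).2 (mem_sup_left hg)
  refine ⟨D, d2, le_antisymm (fun g hg => ?_) fun g hg => ⟨(d1 g (mem_sup_right (u2 hg))).2
    (mem_sup_right hg), u2 hg⟩, fun g => ?_, ?_⟩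
  · obtain ⟨x, hx, y, hy, rfl⟩ := mem_sup_of_normal_right.1 ((d1 g (mem_sup_right hg.2)).1 hg.1)
    exact U.mul_mem (u3 ⟨hx, (P.mul_mem_cancel_right (u2 hy)).1 hg.2⟩) hy
  · obtain ⟨⟨x, hx⟩, e⟩ := QuotientGroup.mk_out_eq_mul (C ⊔ P) g
    obtain ⟨x', hx', y, hy, e'⟩ := mem_sup_of_normal_right.1 ((C ⊔ P).inv_mem hx)
    refine ⟨_, h.nP.conj_mem y hy (g * x * x'), g * x * x', D.mul_mem ?_ (d2 hx'), by
      rw [inv_mul_cancel_right, mul_assoc, e', mul_inv_cancel_right]⟩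
    rw [← e]
    change _ = σ _
    simp [σ]
  · have e1 := ((C ⊔ P).subgroupOf D).card_mul_index
    have e2 : (C ⊔ P).relIndex D ≤ a := (relIndex_le_of_le_right le_top
      (by rw [relIndex_top_right]; exact index_ne_zero_of_finite)).trans
        (by rw [relIndex_top_right]; exact h.ix)
    have e3 : Nat.card ((C ⊔ P).subgroupOf D) ≤ Nat.card C * Nat.card U :=
      le_trans (Nat.card_le_card_of_injective (fun x => (⟨x.1.1, (d1 _ x.2).1 x.1.2⟩ : ↥(C ⊔ U)))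
        fun x y e => Subtype.ext (Subtype.ext (Subtype.mk.inj e))) (card_sup_le C U)
    rw [← e1, mul_comm]
    exact Nat.mul_le_mul e2 e3

theorem exists_comp (hz : Cen 2 z) (hP : ∀ x ∈ P, x ^ 2 ∈ zpowers z) (zH : z ∈ H) (hH : H ≤ P)
    (hc : 2 * Nat.card H < Nat.card P) {u v : E} (hu : u ∈ P) (hv : v ∈ P) (huv : u * v ≠ v * u) :
    ∃ Q : Subgroup E, Q ≤ P ∧ Q ⊓ H = zpowers z ∧ (∀ g ∈ P, ∃ q ∈ Q, ∃ x ∈ H, g = q * x) ∧
      ∃ y ∈ Q, y ^ 2 = z := by
  have zP := hH zH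
  obtain ⟨y, y1, y2, y3⟩ : ∃ y ∈ P, y ∉ H ∧ y ^ 2 = z := by
    by_contra hn
    push Not at hn
    have k : ∀ y ∈ P, y ∉ H → y * y = 1 := fun y h1 h2 =>
      sq y ▸ (inv2 hz.pow (hP y h1)).resolve_right (hn y h1 h2)
    obtain ⟨y, y1, y2⟩ := SetLike.not_le_iff_exists.1 fun e : P ≤ H => by
      have := card_le_of_le e; omega
    obtain ⟨y', y3, y4⟩ : ∃ y' ∈ P, ¬(y' ∈ H ∨ y⁻¹ * y' ∈ H) := by
      by_contra hn
      push Not at hn
      exact (card_le_two hn).not_gt hc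
    push Not at y4
    have k2 : ∀ y ∈ P, y ∉ H → ∀ x ∈ H, y * x * y⁻¹ = x⁻¹ := fun y h1 h2 x hx => by
      have := k _ (P.mul_mem h1 (hH hx)) (by rwa [H.mul_mem_cancel_right hx])
      rw [inv_eq_of_mul_eq_one_right (k y h1 h2), eq_inv_iff_mul_eq_one, mul_assoc, this]
    have k3 : ∀ x ∈ P, x * x = 1 := fun x hx => by
      by_cases e : x ∈ H
      · have e1 := k2 _ (P.mul_mem (P.inv_mem y1) y3) y4.2 x e
        have e2 := k2 y y1 y2 x e
        rw [mul_inv_rev, inv_inv, mul_assoc y⁻¹, mul_assoc y⁻¹, ← mul_assoc _ y'⁻¹, k2 y' y3 y4.1 x e,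
          ← e2] at e1
        rw [← eq_inv_iff_mul_eq_one, ← e2, ← e1]; group
      · exact k x hx e
    refine huv ?_
    rw [← inv_eq_of_mul_eq_one_right (k3 _ (P.mul_mem hu hv)), mul_inv_rev,
      inv_eq_of_mul_eq_one_right (k3 u hu), inv_eq_of_mul_eq_one_right (k3 v hv)]
  have step : ∀ Q : Subgroup E, Q ≤ P → Q ⊓ H = zpowers z → ∀ g ∈ P,
      (¬∃ q ∈ Q, ∃ x ∈ H, g = q * x) → ∃ Q' : Subgroup E, Q ≤ Q' ∧ g ∈ Q' ∧ g ∉ Q ∧ Q' ≤ P ∧
        Q' ⊓ H = zpowers z := fun Q q1 q2 g g1 g2 => by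
    obtain ⟨Q', h⟩ := exists_ext hz hP (q2.ge (mem_zpowers z)).1 q1 g1
    have a1 : Q ≤ Q' := fun x hx => (h x).2 (.inl hx)
    refine ⟨Q', a1, (h g).2 (.inr (by simp)), fun e => g2 ⟨g, e, 1, H.one_mem, by simp⟩,
      fun x hx => ((h x).1 hx).elim (fun e => q1 e) fun e =>
        (P.mul_mem_cancel_left (P.inv_mem g1)).1 (q1 e), le_antisymm (fun x hx => ?_)
      (q2.ge.trans (inf_le_inf_right _ a1))⟩
    rcases (h x).1 hx.1 with e | e
    · exact q2.le ⟨e, hx.2⟩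
    · rcases cj hz hP (q1 (Q.inv_mem e)) (hH hx.2) with e' | e'
      · exact (g2 ⟨_, Q.inv_mem e, x, hx.2, by rw [← e']; group⟩).elim
      · exact (g2 ⟨_, Q.mul_mem (q2.ge (mem_zpowers z)).1 (Q.inv_mem e), x, hx.2, by
          rw [← e']; group⟩).elim
  obtain ⟨Q0, -, b1, -, b2, b3⟩ := step (zpowers z) (zpowers_le.2 zP)
    (inf_eq_left.2 (zpowers_le.2 zH)) y y1 fun ⟨q, hq, x, hx, e⟩ =>
      y2 (e ▸ H.mul_mem (zpowers_le.2 zH hq) hx)
  obtain ⟨Q, -, ⟨q1, q2, q3⟩, hm⟩ := Finite.exists_le_maximal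
    (p := fun Q : Subgroup E => Q ≤ P ∧ Q ⊓ H = zpowers z ∧ y ∈ Q) (a := Q0) ⟨b2, b3, b1⟩
  refine ⟨Q, q1, q2, fun g hg => by_contra fun hn => ?_, y, q3, y3⟩
  obtain ⟨Q', c1, c2, c3, c4, c5⟩ := step Q q1 q2 g hg hn
  exact c3 (hm ⟨c4, c5, c1 q3⟩ c1 c2)

end Pool.Agent.Lib.MP_2d211a_co.H30
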