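import Pool.Agent.Lib.MP_2d211a_co.H30Grp

/-! Orthogonal matrices over a group with a large normal subgroup of symplectic type. -/

namespace Pool.Agent.Lib.MP_2d211a_co.H30

open MonoidAlgebra Finset H62 Subgroup

variable {E : Type} [Group E] [Finite E] {z : E} {C P Q : Subgroup E} {a : ℕ}

omit [Finite E] in
theorem two_cancel {X Y : MonoidAlgebra ℤ E} (h : 2 * X = 2 * Y) : X = Y := by
  refine MonoidAlgebra.ext (Finsupp.ext fun g => ?_)
  have := congrArg (fun X => X.coeff g) h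
  simp only [two_mul, coeff_add, Finsupp.add_apply] at this
  omega

theorem good_sym (hz : Cen 2 z) (hQ : ∀ x ∈ Q, x ^ 2 ∈ zpowers z) {y : E} (hy : y ∈ Q)
    (hyz : y ^ 2 = z) (hc : 16 ≤ Nat.card Q) : ∃ (m : ℤ) (Y : MonoidAlgebra ℤ E), Nn Y ∧
      (∀ g ∉ Q, Y.coeff g = 0) ∧ Y * (1 + s z) = hat Q ∧
      (1 - s z) * (Y * star Y) = (1 - s z) * m := by
  have zQ : z ∈ Q := hyz ▸ Q.pow_mem hy 2
  have e : ∀ x : Q, x ^ 2 = 1 ∨ x ^ 2 = ⟨z, zQ⟩ := fun x =>
    (inv2 hz.pow (hQ x x.2)).imp Subtype.ext Subtype.ext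
  have e4 : ∀ x : Q, (x ^ 2) ^ 2 = 1 := fun x => by
    rcases e x with e | e <;> rw [e]
    exacts [one_pow _, (hz.sub zQ).pow]
  obtain ⟨n, hn⟩ := (show IsPGroup 2 Q from fun x => ⟨2, by rw [sq 2, pow_mul, e4]⟩).exists_card_eq
  have h4 : 4 ≤ n := (Nat.pow_le_pow_iff_right one_lt_two).1 (hn ▸ hc)
  obtain ⟨m, X, hX⟩ : ∃ m X, Good (⟨z, zQ⟩ : Q) m X := by
    rcases n.even_or_odd with h | ⟨j, rfl⟩
    · obtain ⟨e, e1, e2⟩ := (Nat.dvd_prime_pow Nat.prime_two).1
        (Monoid.exponent_dvd_of_forall_pow_eq_one (n := 2 ^ 2) fun x : Q => by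
          rw [sq 2, pow_mul, e4])
      have e3 : (⟨y, hy⟩ : Q) ^ 2 = ⟨z, zQ⟩ := Subtype.ext hyz
      exact e3 ▸ two_even hn e2 (by omega) h (by omega) (e3 ▸ hz.sub zQ)
    · exact two_odd j Q hn (fun x => by
        rcases e x with e | e <;> rw [e]
        exacts [one_mem _, mem_center_iff.2 (hz.sub zQ).comm]) e4 (.inr (by omega)) _ (hz.sub zQ)
  obtain ⟨Y, y1, y2, y3, y4⟩ := hX.map hz zQ
  exact ⟨m, Y, y1, y2, hat_zpowers hz ▸ y3, y4⟩

theorem exists_matrix' (hz : Cen 2 z) {k o : ℕ} (ho : o ≠ 0)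
    (hk : (Nat.card E * o) ^ 8 ≤ 2 ^ (k + 5)) (ι : Type) [Fintype ι] [DecidableEq ι]
    (hι : Fintype.card ι = 2 ^ k * o) : ∃ (v : ℕ) (B : ι → ι → MonoidAlgebra ℤ E),
      (∀ a b, ∃ n, Flat n (B a b) ∧ n * (1 + s z) = hat ⊤) ∧
      ∀ a a', ∑ b, B a b * star (B a' b) = if a = a' then (v : MonoidAlgebra ℤ E) else 0 := by
  classical
  have := NeZero.mk ho
  obtain ⟨v, B, b1, b2⟩ := exists_matrix (C := E × Multiplicative (ZMod o)) (z := (z, 1))
    (by simp [hz.ne]) (by simp [← sq, hz.pow]) (by simp [hz.comm]) (by simpa using hk) (Fin (2 ^ k))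
    (Fintype.card_fin _)
  have e : ι ≃ Fin (2 ^ k) × Multiplicative (ZMod o) := Fintype.equivOfCardEq (by simp [hι])
  refine ⟨v, fun x y => pr ((e x).2⁻¹ * (e y).2) (B (e x).1 (e y).1), fun x y => ?_,
    fun x x' => ?_⟩
  · obtain ⟨n, ⟨c, d, hc, hd, e1, e2⟩, a4⟩ := b1 (e x).1 (e y).1
    refine ⟨pr ((e x).2⁻¹ * (e y).2) n, ⟨_, _, fun g => hc _, fun g => hd _, by rw [e1, map_add],
      by simp only [e2, map_sub]⟩, ?_⟩
    ext c
    have := congrArg (fun X => X.coeff (c, (e x).2⁻¹ * (e y).2)) a4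
    simpa [mul_add, s, pr_coeff, hat_coeff] using this
  · rw [e.sum_comp fun y => pr ((e x).2⁻¹ * y.2) (B (e x).1 y.1) *
      star (pr ((e x').2⁻¹ * y.2) (B (e x').1 y.1)), Fintype.sum_prod_type]
    simp only [pr_mul, ← map_sum, b2]
    ext c
    simp only [pr_coeff, ← e.injective.eq_iff (a := x), Prod.ext_iff,
      ← inv_mul_eq_one (a := (e x).2)]
    by_cases c1 : (e x).1 = (e x').1 <;> by_cases c2 : (e x).2⁻¹ * (e x').2 = 1 <;>
      simp [c1, c2, natCast_def, Finsupp.single_apply, Prod.ext_iff]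

theorem Sy.inner (h : Sy z C P a) {u v : E} (hu : u ∈ P) (hv : v ∈ P) (huv : u * v ≠ v * u)
    {b k o : ℕ} (hb : 2 ^ (a * (a * a) + 1) * Nat.card C ≤ b) (hP : 16 * b ≤ Nat.card P)
    (ho : o ≠ 0) (hk : (a * (b * b) * o) ^ 8 ≤ 2 ^ (k + 5)) (ι : Type) [Fintype ι] [DecidableEq ι]
    (hι : Fintype.card ι = 2 ^ k * o) : ∃ (c : ℤ) (β : ι → ι → MonoidAlgebra ℤ E),
      (∀ i j, Flat (hat ⊤) (β i j)) ∧ (∀ i j, β i j * s z = -β i j) ∧
      ∀ i i', ∑ j, β i j * star (β i' j) = if i = i' then c • (1 - s z) else 0 := by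
  have := h.nC
  have := h.nP
  have hz := h.hz
  obtain ⟨T, -, t1, t2⟩ := h.supp h.base
  have := t1.nm
  have l1 : T ⊔ C ⊓ P ≤ P := sup_le t1.le inf_le_right
  have l0 : Nat.card C ≤ b := le_trans (Nat.le_mul_of_pos_left _ (by positivity)) hb
  have l2 : Nat.card (T ⊔ C ⊓ P : Subgroup E) ≤ b := (card_sup_le _ _).trans
    (le_trans (Nat.mul_le_mul (by simpa using t1.cd) (card_le_of_le inf_le_left)) hb)
  obtain ⟨D, d1, d2, d3, d4⟩ := t2 _ inferInstance le_sup_left l1 le_sup_right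
  have : (T ⊔ C ⊓ P).Normal := inferInstance
  have zL : z ∈ T ⊔ C ⊓ P := mem_sup_left t1.zT
  generalize T ⊔ C ⊓ P = L at *
  have l3 := Nat.card_pos (α := L)
  obtain ⟨Q, q1, q2, q3, y, y1, y2⟩ := exists_comp hz h.sq zL l1 (by omega) hu hv huv
  have l4 : Nat.card P ≤ Nat.card Q * Nat.card L := le_trans (card_le_of_le fun g hg => by
    obtain ⟨q, hq, x, hx, rfl⟩ := q3 g hg
    exact mul_mem_sup hq hx) (card_sup_le Q L)
  obtain ⟨m, Y, y3, -, y4, y5⟩ := good_sym hz (fun x hx => h.sq x (q1 hx)) y1 y2 (by nlinarith)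
  have zD := d1 h.zC
  obtain ⟨w, B, b1, b2⟩ := exists_matrix' (hz.sub zD) ho (le_trans (by
    gcongr; exact d4.trans (by gcongr)) hk) ι hι
  have e0 : hat D * hat Q = 2 * hat ⊤ := hat_mul_hat hz (fun g => by
    obtain ⟨p, hp, d, hd, e⟩ := d3 g⁻¹
    obtain ⟨q, hq, x, hx, rfl⟩ := q3 p hp
    exact ⟨_, D.inv_mem (D.mul_mem (d2.ge hx).1 hd), _, Q.inv_mem hq, by
      rw [← mul_inv_rev, ← mul_assoc, ← e, inv_inv]⟩)
    (by rw [← q2, ← d2, inf_comm, ← inf_assoc, inf_right_comm, inf_eq_left.2 q1])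
  have cz : ∀ X, X * s z = s z * X := fun X => (comm_s hz.comm X).eq
  have hzz : s z * s z = 1 := by rw [s_mul, ← _root_.sq, hz.pow, s_one]
  have c1 : ∀ X, X * (1 + s z) = (1 + s z) * X := fun X => by rw [mul_add, add_mul, cz]; simp
  have c2 : ∀ X, X * (1 - s z) = (1 - s z) * X := fun X => by rw [mul_sub, sub_mul, cz]; simp
  refine ⟨2 * w * m, fun i j => (1 - s z) * (mapDomainRingHom ℤ D.subtype (B i j) * Y),
    fun i j => ?_, fun i j => ?_, fun i i' => ?_⟩
  · obtain ⟨n, n1, n2⟩ := b1 i j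
    have := congrArg (mapDomainRingHom ℤ D.subtype) n2
    rw [map_mul, map_add, map_one, map_s, map_hat_top, subtype_apply] at this
    have e2 : mapDomainRingHom ℤ D.subtype n * (1 + s z) = hat D := this
    have e1 : hat D * (1 + s z) = 2 * hat D := by rw [mul_add, mul_one, hat_mul_s zD, two_mul]
    convert (Flat.one.sub (Flat.s z)).mul ((n1.map D.subtype).mul
      (show Flat Y Y from ⟨Y, 0, y3, nn_zero, by simp, by simp⟩)) using 1
    refine two_cancel ?_
    rw [← e0, ← y4, ← mul_assoc (1 + s z), ← c1 (mapDomainRingHom ℤ D.subtype n), e2, c1 Y,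
      ← mul_assoc (hat D), e1, mul_assoc]
  · rw [cz, ← mul_assoc, mul_sub, hzz, ← neg_mul]; simp
  · have e : ∀ p q : MonoidAlgebra ℤ E, (1 - s z) * (p * Y) * star ((1 - s z) * (q * Y)) =
        (1 - s z) * (1 - s z) * (p * star q) * m := fun p q => by
      rw [star_mul, star_mul, star_sub, star_one, star_s,
        inv_eq_of_mul_eq_one_right (show z * z = 1 by rw [← _root_.sq, hz.pow]), c2,
        mul_assoc (1 - s z), ← hz.left, mul_assoc p, ← mul_assoc Y, ← mul_assoc p, hz.mid, y5,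
        ← hz.mid, mul_assoc p, Int.cast_comm]
      simp only [mul_assoc]
    simp only [e]
    simp only [← sum_mul, ← mul_sum, star_eq, ← map_st, ← map_mul, ← map_sum]
    simp only [← star_eq, b2]
    split_ifs
    · have : (1 - s z) * (1 - s z) = 2 * (1 - s z) := by
        rw [two_mul]; simp only [mul_sub, sub_mul, hzz, one_mul, mul_one]; abel
      rw [this, map_natCast, zsmul_eq_mul, mul_assoc, mul_assoc, ← c2]
      push_cast
      simp only [mul_assoc]
    · simp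

section pull

variable {A B : Type} [Group A] [Finite A] [Group B] [Finite B] (f : A →* B)

/-- Pull back of coefficients along a homomorphism. -/
noncomputable def pb : MonoidAlgebra ℤ B →+ MonoidAlgebra ℤ A where
  toFun x := .ofCoeff (Finsupp.equivFunOnFinite.symm fun c => x.coeff (f c))
  map_zero' := by ext c; rfl
  map_add' x y := by ext c; rfl

omit [Finite B] in
theorem pb_coeff (x : MonoidAlgebra ℤ B) (c : A) : (pb f x).coeff c = x.coeff (f c) := rfl

omit [Finite B] in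
theorem pb_s (x : MonoidAlgebra ℤ B) (g : A) : pb f x * s g = pb f (x * s (f g)) := by
  ext c
  simp [s, pb_coeff]

theorem pb_mul (hf : Function.Surjective f) (x y : MonoidAlgebra ℤ B) :
    pb f x * star (pb f y) = (Nat.card f.ker : ℤ) • pb f (x * star y) := by
  classical
  have := Fintype.ofFinite A
  have := Fintype.ofFinite B
  ext c
  simp only [coeff_mul_fin, pb_coeff, star_eq, st_coeff, coeff_smul, Finsupp.smul_apply, map_inv,
    map_mul, smul_eq_mul, mul_sum]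
  rw [← sum_fiberwise univ f]
  refine sum_congr rfl fun q _ => ?_
  rw [sum_congr rfl fun g hg => by rw [(mem_filter.1 hg).2], sum_const, nsmul_eq_mul,
    MonoidHom.card_fiber_eq_of_mem_range f (hf q) ⟨1, f.map_one⟩, Nat.card_eq_fintype_card,
    Fintype.card_subtype]
  simp [MonoidHom.mem_ker]

theorem pb_flat {x : MonoidAlgebra ℤ B} : Flat (hat ⊤) x → Flat (hat ⊤) (pb f x)
  | ⟨c, d, hc, hd, e1, e2⟩ => ⟨pb f c, pb f d, fun _ => hc _, fun _ => hd _, by
      rw [← map_add, ← e1]; ext g; simp [pb_coeff, hat_coeff], by rw [e2, map_sub]⟩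

omit [Finite B] in
theorem pb_one : pb f 1 = hat f.ker := by
  classical
  ext g
  simp [pb_coeff, hat_coeff, one_def, Finsupp.single_apply, MonoidHom.mem_ker, eq_comm]

end pull

theorem flat_sq {D : Subgroup E} {X : MonoidAlgebra ℤ E} (h : Flat (hat D) X) :
    (X * star X).coeff 1 = Nat.card D := by
  classical
  have := Fintype.ofFinite E
  obtain ⟨c, d, hc, hd, e1, rfl⟩ := h
  have e : ∀ g, (c - d).coeff g * (c - d).coeff g = if g ∈ D then 1 else 0 := fun g => by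
    have a1 := congrArg (fun X => X.coeff g) e1
    have a2 := hc g
    have a3 := hd g
    simp only [hat_coeff, coeff_add, Finsupp.add_apply, coeff_sub, Finsupp.sub_apply] at a1 ⊢
    split_ifs at a1 ⊢
    · obtain e | e : c.coeff g - d.coeff g = 1 ∨ c.coeff g - d.coeff g = -1 := by omega
      all_goals simp [e]
    · simp [show c.coeff g - d.coeff g = 0 by omega]
  simp only [coeff_mul_fin, star_eq, st_coeff, mul_one, inv_inv, e]
  simp [Fintype.card_subtype]

end Pool.Agent.Lib.MP_2d211a_co.H30
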