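import Pool.Agent.Lib.MP_2d211a_co.H30Good

/-! Intervals of odd length are good (Golay pairs and signed block steps). -/

namespace Pool.Agent.Lib.MP_2d211a_co.H30

open MonoidAlgebra Finset H62 Matrix

/-- The sum `1 + g + ... + g ^ (l - 1)`. -/
noncomputable def I {E : Type*} [Group E] (g : E) (l : ℕ) : MonoidAlgebra ℤ E :=
  ∑ j ∈ range l, s (g ^ j)

theorem I_add {E : Type*} [Group E] (g : E) (l l' : ℕ) :
    I g (l + l') = I g l + s (g ^ l) * I g l' := by
  simp only [I, sum_range_add, mul_sum, s_mul, pow_add]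

theorem map_I {E G : Type*} [Group E] [Group G] (f : E →* G) (g : E) (l : ℕ) :
    mapDomainRingHom ℤ f (I g l) = I (f g) l := by
  simp only [I, map_sum, map_s, map_pow]

variable {A : Type*} [CommGroup A]

theorem s_star (g : A) : s g * star (s g) = 1 := by rw [star_s, s_mul, mul_inv_cancel, s_one]

/-- The state of the block recursion. -/
def St (n : MonoidAlgebra ℤ A) (c : MonoidAlgebra ℤ A) (k : ℕ) : Prop :=
  ∃ (ι : Type) (_ : Fintype ι) (_ : DecidableEq ι) (H P Q : Matrix ι ι (MonoidAlgebra ℤ A)),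
    Fintype.card ι = 2 ^ k ∧ (∀ a b, Flat 1 (H a b)) ∧ (∀ a b, Flat n (P a b)) ∧
      (∀ a b, Flat (1 + n) (Q a b)) ∧ H * Hᴴ = (2 ^ k : MonoidAlgebra ℤ A) • 1 ∧
      H * Pᴴ = -(P * Hᴴ) ∧ H * Qᴴ = -(Q * Hᴴ) ∧ Q * Pᴴ = -(P * Qᴴ) ∧
      Q * Qᴴ = (2 ^ k * (1 + 4 * c) : MonoidAlgebra ℤ A) • 1 - P * Pᴴ

theorem St.zero : St (0 : MonoidAlgebra ℤ A) 0 1 := by
  refine ⟨Fin 2, inferInstance, inferInstance, !![1, 1; 1, -1], 0, !![1, -1; -1, -1], rfl,
    fun a b => ?_, fun _ _ => Flat.zero, fun a b => ?_, ?_, by simp, ?_, by simp, ?_⟩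
  · fin_cases a <;> fin_cases b <;> simp [Flat.one, Flat.one.neg]
  · fin_cases a <;> fin_cases b <;> simp [Flat.one, Flat.one.neg]
  all_goals
    refine Matrix.ext fun a b => ?_
    simp only [Matrix.neg_apply, Matrix.mul_apply]
    fin_cases a <;> fin_cases b <;> simp [one_add_one_eq_two, ← neg_add]

theorem St.step {n c n' a : MonoidAlgebra ℤ A} {k : ℕ} (h : St n c k) (ha : Flat n' a) :
    St (n + (n' + star n')) (c + a * star a) (k + 1) := by
  obtain ⟨ι, _, _, H, P, Q, hι, fH, fP, fQ, e1, e2, e3, e4, e5⟩ := h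
  have f1 : ∀ i j, Flat (n' + star n') (((a + star a) • H) i j) := fun i j => by
    simpa using (ha.add ha.star).mul (fH i j)
  have f2 : ∀ i j, Flat (n' + star n') (((a - star a) • H) i j) := fun i j => by
    simpa using (ha.sub ha.star).mul (fH i j)
  refine ⟨ι ⊕ ι, inferInstance, inferInstance, fromBlocks H H H (-H),
    fromBlocks (P + (a + star a) • H) (P - (a + star a) • H) (-P - (a + star a) • H)
      (P - (a + star a) • H),
    fromBlocks (Q + (a - star a) • H) (Q - (a - star a) • H) (-Q + (a - star a) • H)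
      (Q + (a - star a) • H), by rw [Fintype.card_sum, hι, pow_succ, mul_two], ?_, ?_, ?_,
    ?_, ?_, ?_, ?_, ?_⟩
  · rintro (i | i) (j | j)
    exacts [fH i j, fH i j, fH i j, (fH i j).neg]
  · rintro (i | i) (j | j)
    exacts [(fP i j).add (f1 i j), (fP i j).sub (f1 i j), (fP i j).neg.sub (f1 i j),
      (fP i j).sub (f1 i j)]
  · rw [← add_assoc]
    rintro (i | i) (j | j)
    exacts [(fQ i j).add (f2 i j), (fQ i j).sub (f2 i j), (fQ i j).neg.add (f2 i j),
      (fQ i j).add (f2 i j)]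
  all_goals
    simp only [fromBlocks_conjTranspose, fromBlocks_multiply, ← fromBlocks_one, fromBlocks_smul,
      fromBlocks_neg, sub_eq_add_neg, fromBlocks_add, fromBlocks_inj, conjTranspose_add,
      conjTranspose_neg, conjTranspose_smul, star_add, star_neg, star_star, Matrix.add_mul,
      Matrix.mul_add, Matrix.neg_mul, Matrix.mul_neg, Matrix.smul_mul, Matrix.mul_smul,
      e1, e2, e3, e4, e5]
    refine ⟨?_, ?_, ?_, ?_⟩ <;> module

theorem St.gk {n : MonoidAlgebra ℤ A} {r k : ℕ} (h : St n r k) : Gk (1 + n) (2 * r + 1) (k + 1) := by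
  obtain ⟨ι, _, _, H, P, Q, hι, fH, fP, fQ, e1, e2, e3, e4, e5⟩ := h
  refine ⟨ι ⊕ ι, inferInstance, inferInstance, fromBlocks (H + P) Q Q (H + P),
    by rw [Fintype.card_sum, hι, pow_succ, mul_two], ?_, fun a a' => ?_⟩
  · rintro (i | i) (j | j)
    exacts [(fH i j).add (fP i j), fQ i j, fQ i j, (fH i j).add (fP i j)]
  · have e6 : P * Hᴴ * 1 = P * Hᴴ := Matrix.mul_one _
    have : fromBlocks (H + P) Q Q (H + P) * (fromBlocks (H + P) Q Q (H + P))ᴴ =
        ((2 ^ (k + 1) * (2 * r + 1) : ℕ) : MonoidAlgebra ℤ A) • 1 := by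
      simp only [fromBlocks_conjTranspose, fromBlocks_multiply, ← fromBlocks_one, fromBlocks_smul,
        fromBlocks_inj, conjTranspose_add, Matrix.add_mul, Matrix.mul_add, e1, e2, e3, e4, e5]
      push_cast
      refine ⟨?_, ?_, ?_, ?_⟩ <;> module
    simpa [Matrix.mul_apply, Matrix.one_apply] using congrFun (congrFun this a) a'

theorem golay (g : A) (t : ℕ) : ∃ n n' a b, Flat n a ∧ Flat n' b ∧ n + n' = I g (2 ^ t) ∧
    a * star a + b * star b = 2 ^ t := by
  induction t with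
  | zero => exact ⟨1, 0, 1, 0, Flat.one, Flat.zero, by simp [I, s_one], by simp⟩
  | succ t ih =>
    obtain ⟨n, n', a, b, ha, hb, e, e'⟩ := ih
    refine ⟨_, _, _, _, ha.add hb, (Flat.s (g ^ 2 ^ t)).mul (ha.sub hb), ?_, ?_⟩
    · rw [pow_succ, mul_two, I_add, e]
    · rw [star_mul', star_add, star_sub]
      linear_combination (a - b) * (star a - star b) * s_star (g ^ 2 ^ t) + 2 * e'

theorem st_interval (g : A) (t : ℕ) : ∀ r < 2 ^ t,
    St (s g * I g r + star (s g * I g r)) r (2 * t + 1) := by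
  induction t with
  | zero =>
    intro r hr
    obtain rfl : r = 0 := by omega
    simpa [I] using St.zero
  | succ t ih =>
    intro r hr
    rw [show 2 * (t + 1) + 1 = 2 * t + 1 + 1 + 1 by ring]
    rcases lt_or_ge r (2 ^ t) with h | h
    · simpa using ((ih r h).step Flat.zero).step Flat.zero
    · obtain ⟨r, rfl⟩ := Nat.exists_eq_add_of_le' h
      obtain ⟨n, n', a, b, ha, hb, e, e'⟩ := golay g t
      have := ((ih r (by omega)).step ((Flat.s (g ^ (r + 1))).mul ha)).step
        ((Flat.s (g ^ (r + 1))).mul hb)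
      convert this using 1
      · rw [I_add, ← e, pow_succ', ← s_mul]
        simp only [mul_add, star_add, mul_assoc]
        abel
      · rw [star_mul', star_mul']
        push_cast
        linear_combination (-(a * star a + b * star b)) * s_star (g ^ (r + 1)) - e'

theorem I_sym (g : A) (r : ℕ) :
    s (g ^ r) * (1 + (s g * I g r + star (s g * I g r))) = I g (2 * r + 1) := by
  induction r with
  | zero => simp [I, s_one]
  | succ r ih =>
    have e1 : I g (r + 1) = I g r + s (g ^ r) := by simp [I, sum_range_succ]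
    have e2 : I g (2 * (r + 1) + 1) = 1 + s g * (I g (2 * r + 1) + s (g ^ r) * s (g ^ r) * s g) := by
      rw [show 2 * (r + 1) + 1 = 1 + ((2 * r + 1) + 1) by ring, I_add g 1, I_add g (2 * r + 1) 1]
      simp [I, s_one, s_mul, pow_succ, two_mul, pow_add]
    rw [e2, ← ih, e1, pow_succ, ← s_mul, mul_add (s g), star_add, s_mul g (g ^ r)]
    have := s_star (g * g ^ r)
    rw [← s_mul] at this ⊢
    linear_combination this

/-- In any group, `1 + g + ... + g ^ (l - 1)` with `l` odd is good at a size at most `l ^ 4`. -/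
theorem gk_interval {E : Type*} [Group E] (g : E) {l : ℕ} (hl : Odd l) :
    ∃ k, 2 ^ k ≤ l ^ 4 ∧ Gk (I g l) l k := by
  obtain ⟨r, rfl⟩ := hl
  rcases r.eq_zero_or_pos with rfl | hr
  · exact ⟨0, by simp, by simpa [I] using Gk.s (1 : E)⟩
  set T : Multiplicative ℤ := .ofAdd 1
  have h := ((Gk.s (T ^ r)).mul
    (st_interval T _ r (Nat.lt_pow_succ_log_self one_lt_two r)).gk).map (zpowersHom E g)
  rw [I_sym, map_I, one_mul] at h
  refine ⟨_, ?_, by simpa [T] using h⟩
  have h1 := Nat.pow_log_le_self 2 hr.ne'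
  calc 2 ^ (2 * (Nat.log 2 r + 1) + 1 + 1) = 16 * (2 ^ Nat.log 2 r) ^ 2 := by ring
    _ ≤ 16 * r ^ 2 := by gcongr
    _ ≤ (2 * r + 1) ^ 4 := by nlinarith [sq_nonneg r, pow_pos hr 3, pow_pos hr 4]

end Pool.Agent.Lib.MP_2d211a_co.H30
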