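import Pool.Agent.Lib.MP_2d211a_co.H30Chr

/-! Assembly of the relative difference set from the blocks of the characters. -/

namespace Pool.Agent.Lib.MP_2d211a_co.H30

open MonoidAlgebra Finset H62 Subgroup MulAction

variable {E : Type} [Group E] [Finite E] {z : E} {C P D M : Subgroup E} {a : ℕ} {hz : Cen 2 z}

omit [Finite E] in
theorem card_rel (H K : Subgroup E) :
    Nat.card (H ⊓ K : Subgroup E) * H.relIndex K = Nat.card K := by
  rw [← Nat.card_congr (subgroupOfEquivOfLe inf_le_right).toEquiv, inf_subgroupOf_right]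
  exact (H.subgroupOf K).card_mul_index

theorem Sy.stab (h : Sy z C P a) [M.Normal] (zM : z ∈ M) (hM : M ≤ P) (χ : Om hz M) {k : ℕ}
    (hk : 2 ^ k * Nat.card (P ⊓ centralizer M : Subgroup E) = Nat.card P) :
    ∃ o, o ≠ 0 ∧ o ≤ a ∧ (stabilizer E χ).index = 2 ^ k * o := by
  have := h.nP
  have e : P ⊓ stabilizer E χ = P ⊓ centralizer M := by
    refine le_antisymm (fun p hp => ⟨hp.1, fun x hx => ?_⟩) fun p hp => ⟨hp.1, fix_of_cent hp.2 χ⟩
    rcases cj hz h.sq (hM hx) (P.inv_mem hp.1) with e | e <;> rw [inv_inv] at e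
    · rw [← mul_inv_cancel_left p (x * p), ← mul_assoc p⁻¹, e]
    · have := smul_app p χ ⟨x, hx⟩ (⟨z, zM⟩ * ⟨x, hx⟩) e.symm
      rw [show p • χ = χ from hp.2, map_mul, χ.2 zM, right_eq_mul] at this
      exact absurd this (by decide)
  refine ⟨(stabilizer E χ ⊔ P).index, index_ne_zero_of_finite, le_trans (Nat.le_of_dvd
    (Nat.pos_of_ne_zero index_ne_zero_of_finite) (index_dvd_of_le (sup_le_sup_right
      (fun c hc => fix_of_cent (fun x hx => (h.cm c hc x (hM hx)).symm) χ) P))) h.ix, ?_⟩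
  have a1 := card_rel (stabilizer E χ) (stabilizer E χ ⊔ P)
  have a2 := card_rel P (stabilizer E χ ⊔ P)
  have a3 := card_rel P (stabilizer E χ)
  rw [inf_eq_left.2 le_sup_left] at a1
  rw [inf_eq_left.2 le_sup_right, relIndex_sup_right, ← hk, mul_assoc, ← e, a3, ← a1,
    mul_comm] at a2
  rw [← relIndex_mul_index (le_sup_left (b := P)), Nat.eq_of_mul_eq_mul_left Nat.card_pos a2]

theorem Sy.rows (h : Sy z C P a) [hN : M.Normal] [DecidableEq (Om hz M)] (zM : z ∈ M) (hM : M ≤ P)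
    (h1 : M ≤ centralizer M) (hMD : M ≤ D) (hCD : C ≤ D)
    (hD : ∀ g, ∃ q ∈ centralizer (M : Set E), ∃ d ∈ D, g = q * d) {u v : E}
    (hu : u ∈ D ⊓ centralizer M ⊓ P) (hv : v ∈ D ⊓ centralizer M ⊓ P) (huv : u * v ≠ v * u)
    {b k : ℕ} (hb : 2 ^ (a * (a * a) + 1) * Nat.card C ≤ b)
    (hP : Nat.card M * (16 * b) ≤ Nat.card (D ⊓ centralizer M ⊓ P : Subgroup E))
    (hk : 2 ^ k * Nat.card (P ⊓ centralizer M : Subgroup E) = Nat.card P)
    (hk' : (a * (b * b) * a) ^ 8 ≤ 2 ^ (k + 5)) :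
    ∃ Z : Om hz M → MonoidAlgebra ℤ E, (∀ χ, Flat (hat D) (Z χ)) ∧ (∀ χ, Z χ * s z = -Z χ) ∧
      ∀ χ ψ, Z χ * star (Z ψ) = if χ = ψ then (Nat.card D : ℤ) • ech χ else 0 := by
  classical
  have := Fintype.ofFinite (Om hz M)
  let mk : Om hz M → orbitRel.Quotient E (Om hz M) := Quotient.mk _
  have tr : ∀ g, ∃ d ∈ D, ∀ χ : Om hz M, d • χ = g • χ := fun g => by
    obtain ⟨q, hq, d, hd, e⟩ := hD g⁻¹
    exact ⟨d⁻¹, D.inv_mem hd, fun χ => by
      rw [← inv_inv g, e, mul_inv_rev, mul_smul, fix_of_cent (inv_mem hq)]⟩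
  have ex : ∀ χ, ∃ x ∈ D, x • χ = (mk χ).out := fun χ => by
    obtain ⟨g, hg⟩ : (mk χ).out ∈ orbit E χ := Quotient.mk_out (s := orbitRel E _) χ
    obtain ⟨d, hd, e⟩ := tr g
    exact ⟨d, hd, (e χ).trans hg⟩
  choose x x1 x2 using ex
  have hle : ∀ χ : Om hz M, D ⊓ centralizer M ≤ D ⊓ stabilizer E χ := fun χ =>
    inf_le_inf_left _ fun g hg => fix_of_cent hg χ
  choose o o1 o2 o3 using fun ω : orbitRel.Quotient E (Om hz M) => h.stab zM hM ω.out hk
  have bl := fun ω : orbitRel.Quotient E (Om hz M) =>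
    h.block zM ω.out (A := D ⊓ stabilizer E ω.out) (fun g hg => hg.2)
      ((le_inf hMD h1).trans (hle _))
      ((le_inf hCD (show C ≤ centralizer M from
        fun c hc x hx => (h.cm c hc x (hM hx)).symm)).trans (hle _))
      ⟨hle _ hu.1, hu.2⟩ ⟨hle _ hv.1, hv.2⟩ huv hb
      (hP.trans (card_le_of_le (inf_le_inf_right _ (hle _)))) (o1 ω)
      (le_trans (by gcongr; exact o2 ω) hk')
      {χ // mk χ = ω} (by
        rw [← o3, index_stabilizer, ← Nat.card_eq_fintype_card, ← Nat.card_coe_set_eq]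
        exact Nat.card_congr (Equiv.subtypeEquivRight fun χ =>
          Quotient.mk_eq_iff_out (s := orbitRel E _)))
  choose c β b1 b2 b3 using bl
  have x3 : ∀ ω (j : {χ // mk χ = ω}), x j.1 • j.1 = ω.out := fun ω j =>
    (x2 _).trans (congrArg Quotient.out j.2)
  let T := fun ω (i j : {χ // mk χ = ω}) => s (x i.1)⁻¹ * β ω i j * s (x j.1)
  have t1 : ∀ ω i j, Eig j.1 (T ω i j) := fun ω i j y => by
    have e := b2 ω i j ⟨_, hN.conj_mem _ y.2 (x j.1)⟩
    rw [show ω.out.1 _ = j.1.1 y from x3 ω j ▸ smul_app _ _ _ y (by simp [mul_assoc])] at e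
    simp only [T]
    rw [mul_assoc, s_mul, ← inv_mul_cancel_right (x j.1 * y) (x j.1), ← s_mul, ← mul_assoc,
      mul_assoc (s _), e, mul_smul_comm, smul_mul_assoc]
  have t2 : ∀ ω i, Flat (hat D) (∑ j, T ω i j) := fun ω i => by
    have e : ∑ j : {χ // mk χ = ω}, s (x j.1)⁻¹ * hat (D ⊓ stabilizer E ω.out) = hat D :=
      sum_s_hat _ inf_le_left (fun j => D.inv_mem (x1 _)) (fun j j' e => Subtype.ext (by
        have := mem_stabilizer_iff.1 e.2
        rw [inv_inv, mul_smul, inv_smul_eq_iff.2 (x3 ω j').symm] at this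
        exact (smul_left_cancel _ (this.trans (x3 ω j).symm)).symm)) fun y hy => by
          have e : mk (y • ω.out) = ω := Quotient.mk_eq_iff_out.2 (mem_orbit _ y)
          refine ⟨⟨_, e⟩, D.mul_mem (by simpa using x1 _) hy, mem_stabilizer_iff.2 ?_⟩
          rw [inv_inv, mul_smul]
          exact x3 ω ⟨_, e⟩
    have e' := congrArg star e
    simp only [star_sum, star_mul, star_s, inv_inv, star_eq (hat _), st_hat] at e'
    convert Flat.sum univ fun j => ((Flat.s (x i.1)⁻¹).mul (b1 ω i j)).mul (Flat.s (x j.1)) using 1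
    simp only [mul_assoc, ← mul_sum, e', s_mul_hat (D.inv_mem (x1 _))]
  have t3 : ∀ ω i i', (∑ j, T ω i j) * star (∑ j, T ω i' j) =
      if i = i' then c ω • ech i.1 else 0 := fun ω i i' => by
    have e : ∀ j, T ω i j * star (T ω i' j) =
        s (x i.1)⁻¹ * (β ω i j * star (β ω i' j)) * s (x i'.1) := fun j => by
      simp only [T, star_mul, star_s, inv_inv, mul_assoc]
      rw [← mul_assoc (s (x j.1)), s_mul, mul_inv_cancel, s_one, one_mul]
    rw [star_sum, sum_mul_sum, sum_congr rfl fun j _ => sum_eq_single j (fun j' _ e =>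
      (t1 ω i j).orth (t1 ω i' j') fun e' => e (Subtype.ext e'.symm)) (by simp)]
    simp only [e, ← sum_mul, ← mul_sum, b3]
    split_ifs with e
    · have := ech_conj (x i.1)⁻¹ ω.out
      rw [inv_inv, inv_smul_eq_iff.2 (x3 ω i).symm] at this
      rw [← e, mul_smul_comm, smul_mul_assoc, this]
    · simp
  refine ⟨fun χ => ∑ j, T (mk χ) ⟨χ, rfl⟩ j, fun χ => t2 _ _, fun χ => ?_, fun χ ψ => ?_⟩
  · rw [sum_mul, ← sum_neg_distrib]
    exact sum_congr rfl fun j _ => by simpa [j.1.2 zM] using t1 _ _ j ⟨z, zM⟩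
  by_cases e : mk ψ = mk χ
  · have e1 : ∀ ω (e : mk ψ = ω), ∑ j, T (mk ψ) ⟨ψ, rfl⟩ j = ∑ j, T ω ⟨ψ, e⟩ j := by
      rintro _ rfl; rfl
    have e2 := flat_sq (t2 (mk χ) ⟨χ, rfl⟩)
    rw [t3, if_pos rfl, coeff_smul, Finsupp.smul_apply, ech_in _ M.one_mem,
      show (⟨1, M.one_mem⟩ : M) = 1 from rfl, map_one] at e2
    simp only [e1 _ e, t3, Subtype.mk.injEq, ← e2]
    simp
  · rw [if_neg fun e' => e (by rw [e']), star_sum, sum_mul_sum]
    exact sum_eq_zero fun j _ => sum_eq_zero fun j' _ => (t1 _ _ j).orth (t1 _ _ j')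
      fun e' => e (j'.2.symm.trans (e' ▸ j.2))

theorem comm_of_supp {Q : Subgroup E} {X Y : MonoidAlgebra ℤ E} (hY : ∀ g ∉ Q, Y.coeff g = 0)
    (hX : ∀ q ∈ Q, Commute X (s q)) : Commute X Y := by
  classical
  have := Fintype.ofFinite E
  have e : Y = ∑ g, Y.coeff g • s g := by
    ext g
    simp [s]
  rw [e]
  refine Commute.sum_right _ _ _ fun g _ => ?_
  by_cases h : g ∈ Q
  exacts [(hX g h).smul_right _, by simp [hY g h]]

theorem good_of_odd (hz : Cen 2 z) {X : MonoidAlgebra ℤ E} {m : ℤ} (h1 : Flat (hat ⊤) X)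
    (h2 : X * s z = -X) (h3 : X * star X = (2 * m) • (1 - s z)) : ∃ Y, Good z m Y := by
  obtain ⟨c, d, hc, -, e, rfl⟩ := h1
  have hzz : z * z = 1 := by rw [← sq, hz.pow]
  have e1 : c * s z = d := two_cancel (by
    have := hat_mul_s (mem_top z)
    rw [e, add_mul] at this
    rw [sub_mul] at h2
    rw [two_mul, two_mul]
    linear_combination (norm := abel) this + h2)
  refine ⟨c, hc, by rw [hat_zpowers hz, mul_add, mul_one, e1, e], two_cancel ?_⟩
  have e2 : c - d = (1 - s z) * c := by rw [← e1, sub_mul, one_mul, (comm_s hz.comm c).eq]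
  have e3 : (1 - s z) * (1 - s z) = 2 * (1 - s z) := by
    rw [two_mul]; simp only [mul_sub, sub_mul, s_mul, hzz, s_one, one_mul, mul_one]; abel
  rw [e2, star_mul, star_sub, star_one, star_s, inv_eq_of_mul_eq_one_right hzz, mul_assoc,
    ← mul_assoc c, ← ((Commute.one_left _).sub_left (comm_s hz.comm _).symm).eq, ← mul_assoc,
    e3] at h3
  rw [← mul_assoc, ← star_eq, h3, ← Int.cast_comm, zsmul_eq_mul, ← mul_assoc]
  simp

end Pool.Agent.Lib.MP_2d211a_co.H30
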