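import Pool.Agent.Lib.MP_2d211a_co.H62NC

/-! Groups of exponent dividing `p ^ 2`. -/

namespace Pool.Agent.Lib.MP_2d211a_co.H62

open Subgroup
open scoped commutatorElement

set_option linter.unusedSectionVars false

universe u

variable {p : ℕ} [hp : Fact p.Prime]

section

variable {E : Type*} [Group E] [Finite E]

theorem card_sup_le (H N : Subgroup E) [N.Normal] :
    Nat.card (H ⊔ N : Subgroup E) ≤ Nat.card H * Nat.card N := by
  have e := Set.natCard_mul_le (s := (H : Set E)) (t := (N : Set E))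
  rw [← mul_normal] at e
  exact e

theorem card_zp_le {x : E} {k : ℕ} (hk : 0 < k) (h : x ^ k = 1) : Nat.card (zpowers x) ≤ k := by
  rw [Nat.card_zpowers]
  exact orderOf_le_of_pow_eq_one hk h

theorem exists_out {M : Subgroup E} (h : Nat.card E = p * Nat.card M) : ∃ g, g ∉ M := by
  by_contra hne
  push Not at hne
  rw [(eq_top_iff (a := M)).2 fun y _ => hne y, card_top] at h
  have h1 := Nat.card_pos (α := E)
  have h2 := hp.out.one_lt
  nlinarith

theorem lt_card (hE : IsPGroup p E) {H L : Subgroup E} (h : H ≤ L) {g : E} (hg : g ∈ L)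
    (hH : g ∉ H) : p * Nat.card H ≤ Nat.card L := by
  obtain ⟨a, ha⟩ := (hE.to_subgroup H).exists_card_eq
  obtain ⟨b, hb⟩ := (hE.to_subgroup L).exists_card_eq
  have h1 : Nat.card H ≠ Nat.card L := fun e => hH (eq_of_le_of_card_ge h e.ge ▸ hg)
  have h2 := card_le_of_le h
  rw [ha, hb] at h1 h2 ⊢
  rw [Nat.pow_le_pow_iff_right hp.out.one_lt] at h2
  rw [← pow_succ', Nat.pow_le_pow_iff_right hp.out.one_lt]
  have : a ≠ b := fun e => h1 (by rw [e])
  omega

theorem card_adj (hE : IsPGroup p E) {V : Subgroup E} [V.Normal] {x : E} (hx : x ∉ V)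
    (hxp : x ^ p ∈ V) : Nat.card (zpowers x ⊔ V : Subgroup E) = p * Nat.card V := by
  rw [card_coset (fun i : ZMod p => pw x i) (H := V) le_sup_right
    (fun i => mem_sup_left (pw_mem x i)) (pw_inj (hE x) hx), ZMod.card]
  intro y hy
  obtain ⟨a, ha, v, hv, rfl⟩ := mem_sup_of_normal_right.1 hy
  obtain ⟨k, rfl⟩ := mem_powers_iff_mem_zpowers.2 ha
  refine ⟨(k : ZMod p), ?_⟩
  have e : x ^ k = x ^ (k % p) * (x ^ p) ^ (k / p) := by
    rw [← pow_mul, ← pow_add, Nat.mod_add_div]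
  beta_reduce
  rw [pw, ZMod.val_natCast, ← mul_assoc]
  conv => enter [2, 1, 2]; rw [e]
  rw [inv_mul_cancel_left]
  exact V.mul_mem (V.pow_mem hxp _) hv

theorem comm_sq (x y : E) : ⁅x, y⁆ = x ^ 2 * (x⁻¹ * y) ^ 2 * y⁻¹ ^ 2 := by
  simp only [commutatorElement_def, sq]; group

theorem comm_pow (h1 : ∀ x : E, x ^ p ∈ center E) (h2 : ∀ x y : E, ⁅x, y⁆ ∈ center E) (x y : E) :
    ⁅x, y⁆ ^ p = 1 := by
  rw [← kap_apply (fun g => h2 g y), ← map_pow, kap_cen _ (h1 x)]

/-- Either an element of order `p` lies in the second centre and not in the centre, or powers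
and commutators are central. -/
theorem frat (hE : IsPGroup p E) (he : ∀ x : E, (x ^ p) ^ p = 1) :
    (∃ w : E, w ^ p = 1 ∧ w ∉ center E ∧ ∀ g : E, ⁅g, w⁆ ∈ center E) ∨
      ((∀ x : E, x ^ p ∈ center E) ∧ ∀ x y : E, ⁅x, y⁆ ∈ center E) := by
  obtain ⟨B, hB, h2, h3⟩ := exists_selfcent hE
  by_cases hA : ∀ b ∈ B, b ^ p = 1 → b ∈ center E
  swap
  · let X : Subgroup E :=
      { carrier := {b | b ∈ B ∧ b ^ p = 1}
        one_mem' := ⟨B.one_mem, one_pow p⟩
        mul_mem' := fun {a b} ha hb => ⟨B.mul_mem ha.1 hb.1, by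
          rw [Commute.mul_pow (h2 a ha.1 b hb.1), ha.2, hb.2, one_mul]⟩
        inv_mem' := fun {a} ha => ⟨B.inv_mem ha.1, by rw [inv_pow, ha.2, inv_one]⟩ }
    have : X.Normal := ⟨fun a ha g => ⟨hB.conj_mem a ha.1 g, by
      rw [_root_.conj_pow, ha.2, mul_one, mul_inv_cancel]⟩⟩
    exact .inl (second_of_normal hE X (fun a ha => ha.2) fun h => hA fun b h1 h2 => h ⟨h1, h2⟩)
  have m1 : ∀ y b, b ∈ B → ⁅y, b⁆ ∈ B := fun y b hb =>
    B.mul_mem (hB.conj_mem b hb y) (B.inv_mem hb)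
  have c1 : ∀ y, ∀ b ∈ B, ⁅y, b⁆ ^ p = 1 := fun y b hb => by
    have e := mem_center_iff.1 (hA _ (B.pow_mem hb p) (he b)) y
    rw [commutatorElement_def, Commute.mul_pow (h2 _ (hB.conj_mem b hb y) _ (B.inv_mem hb)),
      _root_.conj_pow, e, mul_inv_cancel_right, inv_pow, mul_inv_cancel]
  have c2 : ∀ b ∈ B, ∀ y, ⁅y, b⁆ ∈ center E := fun b hb y => hA _ (m1 y b hb) (c1 y b hb)
  have c3 : ∀ x : E, x ^ p ∈ center E := fun x => hA _ (h3 _ fun b hb => by
    have : ⁅x ^ p, b⁆ = 1 := by rw [← kap_apply (c2 b hb), map_pow, kap_apply, c1 x b hb]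
    exact (commutatorElement_eq_one_iff_mul_comm.1 this).symm) (he x)
  refine .inr ⟨c3, fun y x => ?_⟩
  rcases hp.out.two_le.eq_or_lt with rfl | hp2
  · rw [comm_sq]
    exact mul_mem (mul_mem (c3 _) (c3 _)) (c3 _)
  have c4 : ⁅y, x⁆ ∈ B := h3 _ fun b hb => by
    have : ⁅⁅y, x⁆, b⁆ = 1 := by
      rw [← kap_apply (c2 b hb), map_commutatorElement, commutatorElement_eq_one_iff_mul_comm]
      exact mem_center_iff.1 (c2 b hb x) _
    exact (commutatorElement_eq_one_iff_mul_comm.1 this).symm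
  have e := mul_pow_of_cen hp2 (a := ⁅y, x⁆) (b := x)
    (by rw [← commutatorElement_inv]; exact inv_mem (c2 _ c4 x))
    (by rw [← commutatorElement_inv, inv_pow, c1 x _ c4, inv_one])
  rw [commutatorElement_def y x, inv_mul_cancel_right, _root_.conj_pow,
    mem_center_iff.1 (c3 x) y, mul_inv_cancel_right, eq_comm, mul_eq_right] at e
  exact hA _ c4 e

end

theorem two_chain (n : ℕ) : ∀ (E : Type u) [Group E] [Finite E], Nat.card E = 2 ^ n →
    ∀ z : E, Cen 2 z → (∀ g, g ∉ zpowers z → g ^ 2 = z) → ∃ m X, Good z m X := by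
  induction n with
  | zero =>
    intro E _ _ hE z hz _
    have := (Nat.card_eq_one_iff_unique.1 (by simpa using hE)).1
    exact absurd (Subsingleton.elim _ _) hz.ne
  | succ n ih =>
    intro E _ _ hE z hz hs
    by_cases h : zpowers z = ⊤
    · refine ⟨1, 1, Nn.s 1, by rw [one_mul, h], ?_⟩
      rw [← s_one, st_s]; simp [s_one]
    obtain ⟨M, h1, -, h2⟩ := exists_max hE h
    have hzM := zpowers_le.1 h1
    obtain ⟨g, hg⟩ := exists_out h2
    refine good_step2 hz h2 hzM hg (hs g fun e => hg (h1 e)) (ih M (by omega) _ (hz.sub hzM)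
      fun y hy => Subtype.ext (hs y fun ⟨k, hk⟩ => hy ⟨k, Subtype.ext hk⟩))

theorem abelian_16 {E : Type*} [Group E] [Finite E] (hE : Nat.card E = 2 ^ 5)
    (h1 : ∀ x : E, x ^ 2 ∈ center E) (he : ∀ x : E, (x ^ 2) ^ 2 = 1) {z w : E} (hz : Cen 2 z)
    (hw : Cen 2 w) (hwz : w ∉ zpowers z) (hna : ¬∀ a b : E, a * b = b * a) :
    ∃ K : Subgroup E, Nat.card E = 2 * Nat.card K ∧ w ∈ K ∧ z ∈ K ∧ ∀ a b : K, a * b = b * a := by
  have hP : IsPGroup 2 E := .of_card hE
  have h2 : ∀ x y : E, ⁅x, y⁆ ∈ center E := fun x y => by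
    rw [comm_sq]
    exact mul_mem (mul_mem (h1 _) (h1 _)) (h1 _)
  have h3 := comm_pow h1 h2
  have hVc : zpowers w ⊔ zpowers z ≤ center E := by
    simp only [sup_le_iff, zpowers_le]
    exact ⟨mem_center_iff.2 hw.comm, mem_center_iff.2 hz.comm⟩
  have hV := plane_card hz hwz hw.pow
  have hp := fun v => plane_pow (v := v) hz hw.pow
  have hwV : w ∈ zpowers w ⊔ zpowers z := mem_sup_left (mem_zpowers w)
  have hzV : z ∈ zpowers w ⊔ zpowers z := mem_sup_right (mem_zpowers z)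
  have hVn : (zpowers w ⊔ zpowers z).Normal :=
    ⟨fun n hn g => by rwa [mem_center_iff.1 (hVc hn) g, mul_inv_cancel_right]⟩
  obtain ⟨u, v, huv, hu, hv⟩ : ∃ u v : E, u * v = v * u ∧ u ∉ zpowers w ⊔ zpowers z ∧
      v ∉ zpowers u ⊔ (zpowers w ⊔ zpowers z) := by
    by_contra hno
    push Not at hno
    have a1 : ∀ t ∈ center E, t ^ 2 = 1 → t ∈ zpowers w ⊔ zpowers z := fun t ht ht2 =>
      by_contra fun h => by
        have e := card_adj hP h (ht2 ▸ one_mem _)
        have e1 : zpowers t ⊔ (zpowers w ⊔ zpowers z) = ⊤ :=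
          eq_top_iff.2 fun v _ => hno t v (mem_center_iff.1 ht v).symm h
        rw [e1, card_top, hE, hV] at e
        omega
    obtain ⟨x, hx⟩ : ∃ x, x ∉ zpowers w ⊔ zpowers z := by
      by_contra hne
      push Not at hne
      exact hna fun a b => mem_center_iff.1 (hVc (hne b)) a
    have a2 : (kap fun g => h2 g x).range = zpowers w ⊔ zpowers z := by
      refine eq_of_le_of_card_ge (by rintro _ ⟨g, rfl⟩; exact a1 _ (h2 g x) (h3 g x)) ?_
      have e1 := card_le_of_le (H := (kap fun g => h2 g x).ker) fun g hg =>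
        hno x g (commutatorElement_eq_one_iff_mul_comm.1 hg).symm hx
      have e2 := (kap fun g => h2 g x).ker.index_mul_card
      rw [card_adj hP hx (a1 _ (h1 x) (he x)), hV] at e1
      rw [index_ker, hE] at e2
      rw [hV]
      nlinarith
    obtain ⟨a, ha⟩ : w ∈ (kap fun g => h2 g x).range := a2 ▸ hwV
    obtain ⟨b, hb⟩ : z ∈ (kap fun g => h2 g x).range := a2 ▸ hzV
    obtain ⟨i, j, hij⟩ := hp _ (a1 _ (h2 a b) (h3 a b))
    have k0 : kap (fun g => h2 g x) x = 1 := commutatorElement_self x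
    have k1 : kap (fun g => h2 g x) (a * x ^ j.val) = w := by
      rw [map_mul, map_pow, k0, ha, one_pow, mul_one]
    have k2 : kap (fun g => h2 g x) (b * x ^ i.val) = z := by
      rw [map_mul, map_pow, k0, hb, one_pow, mul_one]
    have sy : ∀ c d : E, ⁅c, d⁆ = ⁅d, c⁆ := fun c d => by
      rw [← commutatorElement_inv, inv_eq_iff_mul_eq_one, ← sq, h3]
    have k3 : ⁅a * x ^ j.val, b * x ^ i.val⁆ = 1 := by
      rw [← kap_apply fun g => h2 g _, map_mul, map_pow, kap_apply, kap_apply, sy a, sy x,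
        ← kap_apply fun g => h2 g x, k2, ← kap_apply fun g => h2 g a, map_mul, map_pow, kap_apply,
        kap_apply, sy b, sy x, ← kap_apply fun g => h2 g x, ha, hij]
      change pw w i * pw z j * pw w i * pw z j = 1
      rw [mul_assoc (pw w i * _), ← sq, Commute.mul_pow (pw_comm hz.comm j _), pw_pow_p hw.pow,
        pw_pow_p hz.pow, one_mul]
    have k4 := hno _ _ (commutatorElement_eq_one_iff_mul_comm.1 k3) fun h =>
      hw.ne (k1.symm.trans (kap_cen _ (hVc h)))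
    obtain ⟨_, ⟨l, rfl⟩, t, ht, e⟩ := mem_sup_of_normal_right.1 k4
    rw [← e, map_mul, map_zpow, k1, kap_cen _ (hVc ht), mul_one] at k2
    exact hwz (zp_eq hz.ne hz.pow hw.ne hw.pow ⟨l, k2⟩)
  set V := zpowers w ⊔ zpowers z
  set K := zpowers v ⊔ (zpowers u ⊔ V) with hK
  have b1 : ∀ y : E, y * u = u * y → y * v = v * y → K ≤ centralizer {y} := fun y e1 e2 => by
    simp only [hK, sup_le_iff, zpowers_le, cent_iff]
    exact ⟨e2.symm, e1.symm, fun t ht => cent_iff.2 (mem_center_iff.1 (hVc ht) y).symm⟩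
  have b2 : ∀ a b : K, a * b = b * a := fun a b => Subtype.ext (cent_iff.1
    (b1 b (cent_iff.1 (b1 u rfl huv b.2)) (cent_iff.1 (b1 v huv.symm rfl b.2)) a.2))
  have b3 := lt_card hP (H := V) le_sup_right (mem_sup_left (mem_zpowers u)) hu
  have b4 := lt_card hP (L := K) le_sup_right (mem_sup_left (mem_zpowers v)) hv
  obtain ⟨g, hg⟩ : ∃ g, g ∉ K := by
    by_contra hne
    push Not at hne
    exact hna fun a b => congrArg Subtype.val (b2 ⟨a, hne a⟩ ⟨b, hne b⟩)
  have b5 := lt_card hP le_top (mem_top g) hg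
  rw [card_top] at b5
  exact ⟨K, by omega, mem_sup_right (mem_sup_right hwV), mem_sup_right (mem_sup_right hzV), b2⟩

theorem two_odd (k : ℕ) : ∀ (E : Type u) [Group E] [Finite E], Nat.card E = 2 ^ (2 * k + 1) →
    (∀ x : E, x ^ 2 ∈ center E) → (∀ x : E, (x ^ 2) ^ 2 = 1) →
    ((∀ a b : E, a * b = b * a) ∨ 2 ≤ k) → ∀ z : E, Cen 2 z → ∃ m X, Good z m X := by
  induction k with
  | zero =>
    intro E _ _ hE _ _ _ z hz
    refine two_chain _ E hE z hz fun g hg => absurd ?_ hg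
    rw [eq_top_of_card_eq _ ((card_zp hz.ne hz.pow).trans (by simpa using hE.symm))]
    trivial
  | succ k ih =>
    intro E _ _ hE h1 he hk z hz
    have hP : IsPGroup 2 E := .of_card hE
    have h2 : ∀ x y : E, ⁅x, y⁆ ∈ center E := fun x y => by
      rw [comm_sq]
      exact mul_mem (mul_mem (h1 _) (h1 _)) (h1 _)
    by_cases h : ∃ w ∈ center E, w ^ 2 = 1 ∧ w ∉ zpowers z
    · obtain ⟨w, hc, hw, hwz⟩ := h
      obtain ⟨K, k1, k2, k3, k4⟩ : ∃ K : Subgroup E, Nat.card E = 2 * Nat.card K ∧ w ∈ K ∧ z ∈ K ∧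
          ((∀ a b : K, a * b = b * a) ∨ 2 ≤ k) := by
        by_cases hh : (∀ a b : E, a * b = b * a) ∨ 2 ≤ k
        · obtain ⟨M, m1, -, m2⟩ := exists_max hE (H := zpowers w ⊔ zpowers z) fun h => by
            have := plane_card hz hwz hw
            rw [h, card_top, hE, Nat.pow_right_inj one_lt_two] at this
            omega
          simp only [sup_le_iff, zpowers_le] at m1
          exact ⟨M, m2, m1.1, m1.2, hh.imp_left fun h a b => Subtype.ext (h a b)⟩
        · rw [not_or] at hh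
          obtain rfl : k = 1 := by have := hk.resolve_left hh.1; omega
          obtain ⟨K, a, b, c, d⟩ := abelian_16 hE h1 he hz
            ⟨mem_center_iff.1 hc, fun e => hwz (e ▸ one_mem _), hw⟩ hwz hh.1
          exact ⟨K, a, b, c, .inl d⟩
      have e : 2 ^ (2 * (k + 1) + 1) = 2 * (2 * 2 ^ (2 * k + 1)) := by ring
      refine rec_cen hP hz hc hw hwz k1 k2 k3 fun Q _ _ f i hf _ hQ hz' =>
        ih Q (by omega) (fun x => ?_) (fun x => ?_) (k4.imp_left fun h a b => ?_) _ hz'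
      · obtain ⟨x, rfl⟩ := hf x
        rw [← map_pow]
        exact map_cen f hf (h1 x)
      · obtain ⟨x, rfl⟩ := hf x
        rw [← map_pow, ← map_pow, ← f.map_one]
        exact congrArg f (Subtype.ext (he x))
      · obtain ⟨a, rfl⟩ := hf a
        obtain ⟨b, rfl⟩ := hf b
        rw [← map_mul, h, map_mul]
    push Not at h
    by_cases hw : ∃ w : E, w ^ 2 = 1 ∧ w ∉ center E
    · obtain ⟨w, hw, hc⟩ := hw
      have hu := up_of_mem hz fun g => h _ (h2 g w) (comm_pow h1 h2 g w)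
      have := plane_normal hz hu
      have hwz : w ∉ zpowers z := fun e => hc (zpowers_le.2 (mem_center_iff.2 hz.comm) e)
      obtain ⟨x, hx⟩ : ∃ x, x ∉ centralizer {w} := by
        by_contra hne
        push Not at hne
        exact hc (mem_center_iff.2 fun g => cent_iff.1 (hne g))
      refine good_plane hP hz hwz hw hu hx fun e => ?_
      have e1 := card_sup_le (zpowers x) (zpowers w ⊔ zpowers z)
      have e2 := card_zp_le (x := x) (k := 2 * 2) (by norm_num) (by rw [pow_mul, he])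
      have e3 : 2 ≤ k + 1 := hk.resolve_left fun h => hx (cent_iff.2 (h _ _))
      have e4 : 2 ^ 5 ≤ 2 ^ (2 * (k + 1) + 1) := Nat.pow_le_pow_right two_pos (by omega)
      rw [e, card_top, hE, plane_card hz hwz hw] at e1
      omega
    push Not at hw
    refine two_chain _ E hE z hz fun g hg => ?_
    exact (inv2 hz.pow (h _ (h1 g) (he g))).resolve_left fun e => hg (h g (hw g e) e)

theorem max_card {E : Type*} [Group E] {M : Subgroup E} {n : ℕ} (hE : Nat.card E = p ^ (n + 1))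
    (hM : Nat.card E = p * Nat.card M) : Nat.card M = p ^ n := by
  rw [hE, pow_succ'] at hM
  exact (Nat.eq_of_mul_eq_mul_left hp.out.pos hM).symm

theorem even_step (hp2 : 2 < p) {E : Type u} [Group E] [Finite E] {k : ℕ}
    (hE : Nat.card E = p ^ (2 * (k + 1) + 1 + 1)) (he : ∀ x : E, (x ^ p) ^ p = 1) {z g : E}
    (hz : Cen p z) {M : Subgroup E} (hM : Nat.card E = p * Nat.card M) (hzM : z ∈ M) (hg : g ∉ M)
    (hgp : g ^ p = 1) : ∃ m X, Good z m X := by
  obtain ⟨X, hX⟩ := odd_good hp2 (k + 1) M (max_card hE hM) (fun y => Subtype.ext (by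
    change (y : E) ^ p ^ (k + 1 + 1) = 1
    rw [pow_succ', pow_succ', pow_mul, pow_mul, he, one_pow])) _ (hz.sub hzM)
  exact good_step hp2 hz hM hzM hg hgp hX

theorem two_step (hp2 : 2 < p) {E : Type u} [Group E] [Finite E] {k : ℕ}
    (hE : Nat.card E = p ^ (2 * (k + 1) + 1 + 1 + 1 + 1)) (he : ∀ x : E, (x ^ p) ^ p = 1) {z w : E}
    (hz : Cen p z) (hc : w ∈ center E) (hw : w ^ p = 1) (hwz : w ∉ zpowers z) {K : Subgroup E}
    (hK : Nat.card E = p * Nat.card K) (hwK : w ∈ K) (hzK : z ∈ K) {M : Subgroup K}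
    (hM : Nat.card K = p * Nat.card M) (hwM : ⟨w, hwK⟩ ∈ M) (hzM : ⟨z, hzK⟩ ∈ M)
    (hy : ∀ i : ZMod p, ∃ y : K, y ∉ M ∧ (y : E) ^ p ∈ zpowers (w * pw z i)) :
    ∃ m X, Good z m X := by
  refine rec_cen (.of_card hE) hz hc hw hwz hK hwK hzK fun Q _ _ f i hf hk hQ hz' => ?_
  obtain ⟨y, h1, h2⟩ := hy i
  have h3 : f.ker ≤ M := fun g hg => by
    obtain ⟨l, hl⟩ := (hk g).1 hg
    have : g = (⟨w, hwK⟩ * ⟨z, hzK⟩ ^ i.val) ^ l := Subtype.ext hl.symm
    exact this ▸ M.zpow_mem (M.mul_mem hwM (M.pow_mem hzM _)) l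
  have h4 : Nat.card Q = p ^ (2 * (k + 1) + 1 + 1) := by
    rw [max_card hE hK, pow_succ'] at hQ
    exact (Nat.eq_of_mul_eq_mul_left hp.out.pos hQ).symm
  refine even_step hp2 h4 (fun x => ?_) hz' (M := M.map f) (g := f y) ?_ (mem_map_of_mem f hzM)
    (fun h => h1 ?_) ?_
  · obtain ⟨x, rfl⟩ := hf x
    rw [← map_pow, ← map_pow, ← f.map_one]
    exact congrArg f (Subtype.ext (he x))
  · have e := M.index_mul_card
    rw [hM] at e
    rw [← (M.map f).index_mul_card, index_map_eq _ hf h3, Nat.eq_of_mul_eq_mul_right Nat.card_pos e]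
  · rwa [← mem_comap, comap_map_eq_self h3] at h
  · rw [← map_pow]
    exact (hk _).2 h2

theorem odd_even' (hp2 : 2 < p) {E : Type u} [Group E] [Finite E] {k : ℕ}
    (hE : Nat.card E = p ^ (2 * (k + 1) + 1 + 1 + 1 + 1)) (he : ∀ x : E, (x ^ p) ^ p = 1)
    (h1 : ∀ x : E, x ^ p ∈ center E) (h2 : ∀ x y : E, ⁅x, y⁆ ∈ center E) {a : E}
    (hz : Cen p (a ^ p)) : ∃ m X, Good (a ^ p) m X := by
  have hP : IsPGroup p E := .of_card hE
  have h1p := hp.out.one_lt
  let φ : E →* E := MonoidHom.mk' (fun a => a ^ p) fun a b =>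
    mul_pow_of_cen hp2 (h2 a b) (comm_pow h1 h2 a b)
  have hφ : ∀ a, φ a = a ^ p := fun _ => rfl
  have ca := card_zp_le (x := a) (k := p * p) (by positivity) (by rw [pow_mul, he])
  by_cases hL : zpowers a ⊔ φ.ker = ⊤
  · obtain ⟨M, m1, -, m2⟩ := exists_max hE (H := zpowers a) fun h => by
      rw [h, card_top, hE, ← sq, Nat.pow_le_pow_iff_right h1p] at ca
      omega
    obtain ⟨g, hg⟩ := exists_out m2
    obtain ⟨y, hy, hyM⟩ := SetLike.not_le_iff_exists.1 fun h : φ.ker ≤ M =>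
      hg (sup_le m1 h (hL ▸ mem_top g))
    exact even_step hp2 (k := k + 1) hE he hz m2 (m1 (npow_mem_zpowers a p)) hyM hy
  obtain ⟨K, k1, -, k2⟩ := exists_max hE hL
  have hK := max_card hE k2
  have key : ∀ c, c ∉ zpowers a ⊔ φ.ker → c ^ p ∉ zpowers (a ^ p) := by
    rintro c hc ⟨l, hl⟩
    refine hc (mem_sup_of_normal_right.2 ⟨a ^ l, zpow_mem_zpowers a l, (a ^ l)⁻¹ * c, ?_, by simp⟩)
    rw [MonoidHom.mem_ker, map_mul, map_inv, map_zpow, hφ, hφ, ← hl, inv_mul_cancel]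
  have haK : a ∈ K := k1 (mem_sup_left (mem_zpowers a))
  have hpK : ∀ c : E, c ^ p ∈ K := fun c => k1 (mem_sup_right (he c))
  by_cases hKL : (zpowers a ⊔ φ.ker).subgroupOf K = ⊤
  · obtain ⟨c, hc⟩ := exists_out k2
    have hw : Cen p (c ^ p) := ⟨mem_center_iff.1 (h1 c), fun e => hc (k1 (mem_sup_right e)), he c⟩
    have := (hw.sub (hpK c)).normal
    obtain ⟨M, m1, -, m2⟩ := exists_max hK
      (H := zpowers (⟨a, haK⟩ : K) ⊔ zpowers ⟨c ^ p, hpK c⟩) fun h => by
        have e := card_sup_le (zpowers (⟨a, haK⟩ : K)) (zpowers ⟨c ^ p, hpK c⟩)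
        have e1 := card_zp_le (x := (⟨a, haK⟩ : K)) (k := p * p) (by positivity)
          (Subtype.ext (by change a ^ (p * p) = 1; rw [pow_mul, he]))
        rw [h, card_top, hK, card_zp (hw.sub _).ne (hw.sub _).pow] at e
        have e2 := e.trans (Nat.mul_le_mul_right p e1)
        rw [← sq, ← pow_succ, Nat.pow_le_pow_iff_right h1p] at e2
        omega
    simp only [sup_le_iff, zpowers_le] at m1
    obtain ⟨g, hg⟩ := exists_out m2
    obtain ⟨_, ⟨l, rfl⟩, y, hy, e⟩ := mem_sup_of_normal_right.1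
      (mem_subgroupOf.1 (hKL ▸ mem_top g))
    have hyK : y ∈ K := k1 (mem_sup_right hy)
    refine two_step hp2 hE he hz (h1 c) (he c) (key c fun e => hc (k1 e)) k2 (hpK c) (hpK a) m2 m1.2
      (M.pow_mem m1.1 p) fun i => ⟨⟨y, hyK⟩, fun h => hg ?_, ?_⟩
    · have : g = ⟨a, haK⟩ ^ l * ⟨y, hyK⟩ := Subtype.ext e.symm
      exact this ▸ M.mul_mem (M.zpow_mem m1.1 l) h
    · rw [show y ^ p = 1 from hy]
      exact one_mem _
  obtain ⟨M, m1, -, m2⟩ := exists_max hK hKL
  obtain ⟨b, hb⟩ := exists_out m2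
  have haM : (⟨a, haK⟩ : K) ∈ M := m1 (mem_sup_left (mem_zpowers a))
  refine two_step hp2 hE he hz (h1 b) (he b) (key b fun e => hb (m1 e)) k2 (hpK b) (hpK a) m2
    (m1 (mem_sup_right (he b))) (M.pow_mem haM p) fun i => ⟨b * ⟨a, haK⟩ ^ i.val,
      fun h => hb ((M.mul_mem_cancel_right (M.pow_mem haM _)).1 h), ?_⟩
  change φ (b * a ^ i.val) ∈ _
  rw [map_mul, map_pow]
  exact mem_zpowers _

theorem odd_even (hp2 : 2 < p) {E : Type u} [Group E] [Finite E] {k : ℕ}
    (hE : Nat.card E = p ^ (2 * (k + 1) + 1 + 1 + 1 + 1)) (he : ∀ x : E, (x ^ p) ^ p = 1)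
    (h1 : ∀ x : E, x ^ p ∈ center E) (h2 : ∀ x y : E, ⁅x, y⁆ ∈ center E) :
    ∃ z : E, Cen p z ∧ ∃ m X, Good z m X := by
  by_cases h : ∀ x : E, x ^ p = 1
  · have : Nontrivial E :=
      Finite.one_lt_card_iff_nontrivial.1 (hE ▸ Nat.one_lt_pow (by omega) hp.out.one_lt)
    obtain ⟨z, hz⟩ := exists_cen (p := p) (.of_card hE)
    exact ⟨z, hz, exp_good hp2 _ E hE h z hz⟩
  push Not at h
  obtain ⟨a, ha⟩ := h
  have hz : Cen p (a ^ p) := ⟨mem_center_iff.1 (h1 a), ha, he a⟩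
  exact ⟨_, hz, odd_even' hp2 hE he h1 h2 hz⟩

theorem good_sq {E : Type u} [Group E] [Finite E] {n : ℕ} (hE : Nat.card E = p ^ n) (hn : 5 ≤ n)
    (he : ∀ x : E, (x ^ p) ^ p = 1) (h2 : ¬∀ x : E, x ^ 2 = 1) :
    ∃ z : E, Cen p z ∧ ∃ m X, Good z m X := by
  have hP : IsPGroup p E := .of_card hE
  have h1p := hp.out.one_lt
  have : Nontrivial E := Finite.one_lt_card_iff_nontrivial.1 (hE ▸ Nat.one_lt_pow (by omega) h1p)
  have hA : (∃ w : E, w ^ p = 1 ∧ w ∉ center E ∧ ∀ g : E, ⁅g, w⁆ ∈ center E) →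
      ∃ z : E, Cen p z ∧ ∃ m X, Good z m X := by
    rintro ⟨w, w1, w2, w3⟩
    refine good_noncentral hE w1 w2 w3 fun V _ hV _ hq => ?_
    obtain ⟨k, rfl⟩ := exp_le hE hV
    obtain ⟨c, hc⟩ := hq.exists_ofOrder_eq_natCard
    obtain ⟨c, rfl⟩ := QuotientGroup.mk_surjective c
    have e := orderOf_le_of_pow_eq_one (x := (c : E ⧸ V)) (n := p * p) (by positivity)
      (by rw [← QuotientGroup.mk_pow, pow_mul, he]; rfl)
    rw [hc, card_quot hE hV, ← sq, Nat.pow_le_pow_iff_right h1p] at e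
    omega
  rcases frat hP he with h | ⟨c1, c2⟩
  · exact hA h
  obtain ⟨k, rfl | rfl⟩ := Nat.even_or_odd' n
  · obtain ⟨k, rfl⟩ : ∃ l, k = l + 3 := ⟨k - 3, by omega⟩
    rcases hp.out.two_le.eq_or_lt with rfl | hp2
    swap
    · exact odd_even hp2 (k := k) hE he c1 c2
    by_cases h : ∃ w : E, w ^ 2 = 1 ∧ w ∉ center E
    · obtain ⟨w, w1, w2⟩ := h
      exact hA ⟨w, w1, w2, fun g => c2 g w⟩
    push Not at h
    let X : Subgroup E :=
      { carrier := {a | a ^ 2 = 1}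
        one_mem' := one_pow 2
        mul_mem' := fun {a b} ha hb => by
          rw [Set.mem_ofPred_eq, Commute.mul_pow (mem_center_iff.1 (h b hb) a), ha, hb, one_mul]
        inv_mem' := fun {a} ha => by rw [Set.mem_ofPred_eq, inv_pow, ha, inv_one] }
    obtain ⟨M, m1, -, m2⟩ := exists_max hE (H := X) fun e => h2 fun x => (e ▸ mem_top x : x ∈ X)
    obtain ⟨g, hg⟩ := exists_out m2
    have hz : Cen 2 (g ^ 2) := ⟨mem_center_iff.1 (c1 g), fun e => hg (m1 e), he g⟩
    exact ⟨_, hz, good_step2 hz m2 (m1 (he g)) hg rfl (two_odd (k + 2) M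
      (max_card (n := 2 * (k + 2) + 1) hE m2)
      (fun x => mem_center_iff.2 fun y => Subtype.ext (mem_center_iff.1 (c1 x) y))
      (fun x => Subtype.ext (he x)) (.inr (by omega)) _ (hz.sub _))⟩
  obtain ⟨z, hz⟩ := exists_cen hP
  refine ⟨z, hz, ?_⟩
  rcases hp.out.two_le.eq_or_lt with rfl | hp2
  · exact two_odd k E hE c1 he (.inr (by omega)) z hz
  obtain ⟨k, rfl⟩ : ∃ l, k = l + 1 := ⟨k - 1, by omega⟩
  exact ⟨_, odd_good hp2 _ E hE (fun y => by
    rw [pow_succ', pow_succ', pow_mul, pow_mul, he, one_pow]) z hz⟩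

end Pool.Agent.Lib.MP_2d211a_co.H62
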