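import Pool.Agent.Lib.MP_2d211a_co.H30Tile
import Pool.Agent.Lib.MP_2d211a_co.H42Exp

/-! From orthogonal matrices over `C` to a relative difference set in `C ∘ P`. -/

namespace Pool.Agent.Lib.MP_2d211a_co.H30

open MonoidAlgebra Finset H62 Subgroup

section ring

variable {R : Type*} [Ring R] [StarRing R] {Z W X : R}

theorem row (hZ : ∀ a, a * Z = Z * a) (hZZ : Z * Z = 1) (hW : star W = W) (hWW : W * W = 1)
    (hX : X * star X = 1) (hX' : star X * X = 1) (hXW : X * W = Z * (W * X)) {p q r t : R}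
    (hp : Commute p W) (hq : Commute q W) (hr : Commute r W) (ht : Commute t W) :
    (1 - Z) * ((1 + W) * (p + q * X) * star ((1 + W) * (r + t * X))) =
      (1 + W) * ((1 - Z) * (p * star r + q * star t)) * (1 + W) := by
  have c : ∀ {a : R}, Commute a W → Commute (star a) W := fun h => by
    simpa only [hW] using h.star_star
  have c1 : ∀ {a : R}, Commute a W → ∀ b, (1 + W) * (a * b) = a * ((1 + W) * b) := fun h b => by
    rw [← mul_assoc, ← mul_assoc, ((Commute.one_right _).add_right h).eq]
  have c2 : ∀ {a : R}, Commute a W → a * (1 + W) = (1 + W) * a := fun h =>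
    ((Commute.one_right _).add_right h).eq
  have cz : ∀ a b : R, (1 - Z) * (a * b) = a * ((1 - Z) * b) := fun a b => by
    rw [← mul_assoc, ← mul_assoc, mul_sub, sub_mul, hZ, mul_one, one_mul]
  have z0 : (1 - Z) * ((1 + W) * (1 + Z * W)) = 0 := by
    have : W * (Z * W) = Z := by rw [← mul_assoc, hZ, mul_assoc, hWW, mul_one]
    simp only [mul_add, add_mul, sub_mul, one_mul, mul_one, this, ← mul_assoc Z Z, hZZ]
    abel
  have f1 : ∀ b, (1 - Z) * ((1 + W) * (X * ((1 + W) * b))) = 0 := fun b => by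
    have : X * (1 + W) = (1 + Z * W) * X := by rw [mul_add, add_mul, hXW, mul_assoc]; simp
    rw [← mul_assoc X, this, mul_assoc, ← mul_assoc (1 + W), ← mul_assoc, z0, zero_mul]
  have f2 : ∀ b, (1 - Z) * ((1 + W) * (star X * ((1 + W) * b))) = 0 := fun b => by
    have e : star X * W = Z * W * star X := by
      have e1 : W * X = Z * (X * W) := by rw [hXW, ← mul_assoc, hZZ, one_mul]
      calc star X * W = star X * (W * X) * star X := by rw [mul_assoc, mul_assoc, hX, mul_one]
        _ = _ := by rw [e1, ← mul_assoc, hZ, mul_assoc Z, ← mul_assoc _ X, hX', one_mul]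
    have : star X * (1 + W) = (1 + Z * W) * star X := by rw [mul_add, add_mul, e]; simp
    rw [← mul_assoc (star X), this, mul_assoc, ← mul_assoc (1 + W), ← mul_assoc, z0, zero_mul]
  have g1 : (1 - Z) * ((1 + W) * (p * (star X * (star t * (1 + W))))) = 0 := by
    rw [c1 hp, cz p, c2 (c ht), f2, mul_zero]
  have g2 : (1 - Z) * ((1 + W) * (q * (X * (star r * (1 + W))))) = 0 := by
    rw [c1 hq, cz q, c2 (c hr), f1, mul_zero]
  have g3 : ∀ b, X * (star X * b) = b := fun b => by rw [← mul_assoc, hX, one_mul]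
  rw [star_mul, star_add, star_add, star_one, hW, star_mul, mul_assoc, mul_assoc, mul_assoc, ← cz]
  generalize 1 + W = V at *
  generalize 1 - Z = e at *
  simp only [mul_add, add_mul, mul_assoc, g1, g2, g3, add_zero, zero_add]

end ring

variable {E : Type*} [Group E] [Finite E] {z : E}

theorem hat_zpowers (hz : Cen 2 z) : hat (zpowers z) = 1 + s z := by
  have hf : ∀ i : Bool, (if i then z else 1) ∈ zpowers z := fun i => by cases i <;> simp
  have inj : ∀ i j : Bool, (if i then z else 1)⁻¹ * (if j then z else 1) ∈ (⊥ : Subgroup E) →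
      i = j := fun i j => by cases i <;> cases j <;> simp [hz.ne]
  rw [← sum_s_hat _ bot_le hf inj (sur_of_card _ bot_le hf inj (by
    simp [orderOf_eq_prime hz.pow hz.ne]))]
  simp [hat_bot, s_one, add_comm]

theorem good_of_flat (hz : Cen 2 z) {n Y : MonoidAlgebra ℤ E} {m : ℤ} (hf : Flat n Y)
    (ht : n * (1 + s z) = hat ⊤) (hu : (1 - s z) * (Y * star Y) = (1 - s z) * m) :
    ∃ X, Good z m X := by
  obtain ⟨a, b, ha, hb, rfl, rfl⟩ := hf
  have h2 : z * z = 1 := by rw [← sq, hz.pow]
  have hz' : s z * s z = 1 := by rw [s_mul, h2, s_one]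
  have hs : star (s z) = s z := by rw [star_s, inv_eq_of_mul_eq_one_right h2]
  have c : ∀ X, X * s z = s z * X := fun X => (comm_s hz.comm X).eq
  refine ⟨a + s z * b, nn_add ha ((Nn.s z).mul hb), ?_, ?_⟩
  · rw [hat_zpowers hz, ← ht, add_mul, add_mul, ← c b, mul_assoc, mul_add (s z), hz', mul_one,
      add_comm (s z)]
  · rw [← hu, ← star_eq, star_add, star_mul, hs, star_sub]
    have : ∀ X, s z * (s z * X) = X := fun X => by rw [← mul_assoc, hz', one_mul]
    have c' : ∀ X Y, X * (s z * Y) = s z * (X * Y) := fun X Y => by rw [← mul_assoc, c, mul_assoc]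
    simp only [mul_add, add_mul, mul_sub, sub_mul, one_mul, c (star b), mul_assoc, c' a, c' b, this]
    abel

omit [Finite E] in
theorem comm_supp {K : Subgroup E} {Y : MonoidAlgebra ℤ E} (hY : ∀ a ∉ K, Y.coeff a = 0) {w : E}
    (hw : ∀ p ∈ K, p * w = w * p) : Commute Y (s w) := by
  refine MonoidAlgebra.ext (Finsupp.ext fun y => ?_)
  simp only [s, coeff_mul_single_apply, coeff_single_mul_apply, mul_one, one_mul]
  by_cases h : y * w⁻¹ ∈ K
  · rw [eq_inv_mul_iff_mul_eq.2 ((hw _ h).symm.trans (inv_mul_cancel_right y w))]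
  · by_cases h' : w⁻¹ * y ∈ K
    · rw [← eq_mul_inv_iff_mul_eq.2 ((hw _ h').trans (mul_inv_cancel_left w y))]
    · rw [hY _ h, hY _ h']

theorem comm_hat {K : Subgroup E} {w : E} (hw : ∀ p ∈ K, p * w = w * p) : Commute (hat K) (s w) :=
  comm_supp (fun a ha => by rw [hat_coeff, if_neg ha]) hw

/-- A matrix of order `2 ^ k`, orthogonal modulo `1 + z`, whose entries are signed transversals of
`⟨z⟩` in `C P`. -/
def Mat (z : E) (C P : Subgroup E) (k : ℕ) : Prop :=
  ∀ (ι : Type) [Fintype ι] [DecidableEq ι], Fintype.card ι = 2 ^ k →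
    ∃ (c : ℤ) (B : ι → ι → MonoidAlgebra ℤ E),
      (∀ a b, ∃ n, Flat n (B a b) ∧ 2 * (n * (1 + s z)) = hat C * hat P) ∧
      (∀ w, (∀ c ∈ C, c * w = w * c) → (∀ p ∈ P, p * w = w * p) → ∀ a b, Commute (B a b) (s w)) ∧
      ∀ a a', (1 - s z) * ∑ b, B a b * star (B a' b) =
        (1 - s z) * if a = a' then (c : MonoidAlgebra ℤ E) else 0

theorem Mat.step (hz : Cen 2 z) {C P Q : Subgroup E} {k : ℕ} (h : Mat z C Q (k + 1)) (hQ : Q ≤ P)
    (hc : ∀ c ∈ C, ∀ p ∈ P, c * p = p * c) (hzQ : z ∈ Q) {w x g : E} (hw : w ∈ P) (hx : x ∈ P)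
    (hg : g ∈ P) (hww : w * w = 1) (hxx : x * x ∈ Q) (hxw : x * w = z * (w * x))
    (hgw : g * w = w * g) (hgx : g * x = x * g) (hQw : ∀ q ∈ Q, q * w = w * q)
    (hQx : ∀ q ∈ Q, q * x = x * q) (hP : hat P = (1 + s x) * ((1 + s w) * ((1 + s g) * hat Q))) :
    Mat z C P k := by
  intro ι _ _ hι
  obtain ⟨c, B, b1, b2, b3⟩ := h (Bool × ι) (by rw [Fintype.card_prod, hι, pow_succ']; rfl)
  choose n n1 n2 using b1
  have cz : ∀ X, X * s z = s z * X := fun X => (comm_s hz.comm X).eq
  have hzz : s z * s z = 1 := by rw [s_mul, ← sq, hz.pow, s_one]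
  have hW : s w * s w = 1 := by rw [s_mul, hww, s_one]
  have hXW : s x * s w = s z * (s w * s x) := by simp only [s_mul, hxw]
  have cs : ∀ {a b : E}, a * b = b * a → Commute (s a) (s b) := fun h => by
    simp only [Commute, SemiconjBy, s_mul, h]
  let L : Bool → E := fun u => if u then x else 1
  let M : Bool → E := fun u => if u then g else 1
  refine ⟨4 * c, fun i j => ∑ u, s (L u) * ((1 + s w) *
    (s (M u) * B (u, i) (false, j) + s (M u) * B (u, i) (true, j) * s x)), fun i j => ⟨_,
      Flat.sum _ fun u => (Flat.s _).mul ((Flat.one.add (Flat.s w)).mul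
        (((Flat.s _).mul (n1 _ _)).add (((Flat.s _).mul (n1 _ _)).mul (Flat.s x)))), ?_⟩,
    fun v h1 h2 i j => Commute.sum_left _ _ _ fun u _ => ?_, fun i i' => ?_⟩
  · have e : ∀ (l v m a b : MonoidAlgebra ℤ E), 2 * (l * (v * (m * a + m * b * s x)) * (1 + s z)) =
        l * (v * (m * (2 * (a * (1 + s z)) + 2 * (b * (1 + s z)) * s x))) := fun l v m a b => by
      have := cz (s x)
      simp only [two_mul, mul_add, add_mul, mul_assoc, mul_one, this]
      abel
    have c1 : ∀ {p : E}, p ∈ P → ∀ Y, hat C * (s p * Y) = s p * (hat C * Y) := fun hp Y => by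
      rw [← mul_assoc, (comm_hat fun c h => hc c h _ hp).eq, mul_assoc]
    have c2 : hat Q * s x = s x * hat Q := (comm_hat hQx).eq
    have c3 : ∀ Y, s g * (s x * Y) = s x * (s g * Y) := fun Y => by
      rw [← mul_assoc, (cs hgx).eq, mul_assoc]
    have c4 : ∀ Y, s z * (Y * hat Q) = Y * hat Q := fun Y => by
      rw [← mul_assoc, ← cz, mul_assoc, s_mul_hat hzQ]
    have c5 : s x * (s x * (hat C * hat Q)) = hat C * hat Q := by
      rw [← mul_assoc, s_mul, ← c1 (hQ hxx), s_mul_hat hxx]
    have c6 : ∀ Y, s x * (s w * (Y * hat Q)) = s w * (s x * (Y * hat Q)) := fun Y => by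
      rw [← mul_assoc, hXW, mul_assoc, ← mul_assoc _ Y, c4, mul_assoc, mul_assoc]
    have c7 : s x * (s w * (s x * (s g * (hat C * hat Q)))) = s w * (s g * (hat C * hat Q)) := by
      rw [← mul_assoc (s g), ← mul_assoc (s x) (s g * _), c6, mul_assoc, mul_assoc, ← c3, ← c3, c5]
    have c8 : s x * (s x * (s g * (hat C * hat Q))) = s g * (hat C * hat Q) := by
      rw [← c3, ← c3, c5]
    simp only [sum_mul, mul_sum, e, n2]
    simp only [hP, Fintype.sum_bool, L, M, if_true, Bool.false_eq_true, if_false, s_one]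
    simp only [mul_add, add_mul, one_mul, mul_assoc, c1 hx, c1 hw, c1 hg, c2, c3, c7, c8,
      c6 (hat C)]
    abel
  · have hL : Commute (s (L u)) (s v) := cs (by cases u <;> simp [L, h2 x hx])
    have hM : Commute (s (M u)) (s v) := cs (by cases u <;> simp [M, h2 g hg])
    have hB := b2 v h1 fun q hq => h2 q (hQ hq)
    exact hL.mul_left (((Commute.one_left _).add_left (cs (h2 w hw))).mul_left
      ((hM.mul_left (hB _ _)).add_left ((hM.mul_left (hB _ _)).mul_left (cs (h2 x hx)))))
  · have hB := b2 w (fun c h => hc c h w hw) hQw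
    have hM : ∀ u, Commute (s (M u)) (s w) := fun u => cs (by cases u <;> simp [M, hgw])
    have ss : ∀ a : E, s a * star (s a) = 1 := fun a => by rw [star_s, s_mul, mul_inv_cancel, s_one]
    have e : ∀ l l' a a' : MonoidAlgebra ℤ E, (1 - s z) * (l * a * star (l' * a')) =
        l * ((1 - s z) * (a * star a')) * star l' := fun l l' a a' => by
      rw [star_mul, ← hz.mid]; simp only [mul_assoc]
    have e2 : ∀ u u', ∑ j, (1 - s z) * (s (M u) * B (u, i) (false, j) *
        star (s (M u') * B (u', i') (false, j)) + s (M u) * B (u, i) (true, j) *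
        star (s (M u') * B (u', i') (true, j))) =
        if u = u' ∧ i = i' then (1 - s z) * c else 0 := fun u u' => by
      have := b3 (u, i) (u', i')
      rw [Fintype.sum_prod_type_right] at this
      simp only [Fintype.sum_bool, add_comm (B _ (true, _) * _)] at this
      simp only [mul_add, e]
      simp only [← mul_add, ← add_mul, ← mul_sum, ← sum_mul, this, Prod.mk.injEq]
      split_ifs with h
      · rw [← hz.mid, ← Int.cast_comm, mul_assoc, h.1, ss, mul_one]
      · simp
    have e5 := fun u u' j => row cz hzz (by rw [star_s, inv_eq_of_mul_eq_one_right hww]) hW (ss x)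
      (by rw [star_s, s_mul, inv_mul_cancel, s_one]) hXW ((hM u).mul_left (hB (u, i) (false, j)))
      ((hM u).mul_left (hB (u, i) (true, j))) ((hM u').mul_left (hB (u', i') (false, j)))
      ((hM u').mul_left (hB (u', i') (true, j)))
    simp only [star_sum, sum_mul_sum]
    simp only [mul_sum, fun u u' => e (s (L u)) (s (L u')), e5]
    rw [sum_comm]
    simp only [sum_comm (s := (univ : Finset ι)) (t := (univ : Finset Bool)), ← sum_mul, ← mul_sum,
      e2]
    by_cases h : i = i'
    · have e3 : (1 + s w) * ((1 - s z) * (c : MonoidAlgebra ℤ E)) * (1 + s w) =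
          (1 - s z) * ((2 + 2 * s w) * c) := by
        rw [← hz.mid, ← Int.cast_comm, mul_assoc, Int.cast_comm]
        simp only [mul_add, add_mul, hW, one_mul, mul_one, two_mul]
        abel_nf
      have e4 : s x * ((2 + 2 * s w) * c) * star (s x) = (2 + 2 * (s z * s w)) * c := by
        rw [mul_assoc, mul_assoc, Int.cast_comm, ← mul_assoc, ← mul_assoc]
        simp only [← one_add_one_eq_two, mul_add, add_mul, hXW, mul_assoc, ss, mul_one, one_mul]
      simp only [h, Fintype.sum_bool, L, if_true, Bool.false_eq_true, Bool.true_eq_false, if_false,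
        s_one, and_true, mul_zero, zero_mul, add_zero, zero_add, e3, ← hz.mid, e4, star_one, one_mul,
        mul_one]
      push_cast
      simp only [two_mul, mul_add, add_mul, sub_mul, one_mul, mul_assoc, ← mul_assoc (s z) (s z), hzz,
        show (4 : MonoidAlgebra ℤ E) = 2 + 2 by norm_num]
      abel
    · simp [h]

end Pool.Agent.Lib.MP_2d211a_co.H30
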