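import Pool.Agent.Lib.MP_2d211a_co.H30Step

/-! Descent along a 2-group all of whose squares lie in `⟨z⟩`. -/

namespace Pool.Agent.Lib.MP_2d211a_co.H30

open MonoidAlgebra Finset H62 Subgroup

variable {E : Type*} [Group E] [Finite E] {z : E} {C P K : Subgroup E}

theorem dich (hz : Cen 2 z) (hP : ∀ x ∈ P, x ^ 2 ∈ zpowers z) {a b : E} (ha : a ∈ P) (hb : b ∈ P)
    (h : a * b ≠ b * a) : a * b = z * (b * a) := by
  have := (zpowers z).mul_mem ((zpowers z).mul_mem (hP a ha) (hP _ (P.mul_mem (P.inv_mem ha) hb)))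
    (hP _ (P.inv_mem hb))
  rw [← comm_sq, commutatorElement_def] at this
  rcases inv2 hz.pow this with e | e
  · exact (h (by rw [← one_mul (b * a), ← e]; group)).elim
  · rw [← e]; group

theorem cov (hz : Cen 2 z) (hP : ∀ x ∈ P, x ^ 2 ∈ zpowers z) (hK : K ≤ P) {v y : E} (hv : v ∈ P)
    (hy : y ∈ K) (h : y * v ≠ v * y) (a : E) (ha : a ∈ K) :
    a ∈ K ⊓ centralizer {v} ∨ y⁻¹ * a ∈ K ⊓ centralizer {v} := by
  by_cases e : a * v = v * a
  · exact .inl ⟨ha, mem_centralizer_singleton_iff.2 e⟩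
  · refine .inr ⟨K.mul_mem (K.inv_mem hy) ha, mem_centralizer_singleton_iff.2 ?_⟩
    rw [mul_assoc, dich hz hP (hK ha) hv e, inv_mul_eq_iff_eq_mul, ← mul_assoc y,
      dich hz hP (hK hy) hv h]
    group

theorem half (hz : Cen 2 z) (hP : ∀ x ∈ P, x ^ 2 ∈ zpowers z) (hK : K ≤ P) {v y : E} (hv : v ∈ P)
    (hy : y ∈ K) (h : y * v ≠ v * y) : hat K = (1 + s y) * hat (K ⊓ centralizer {v}) ∧
      Nat.card K = 2 * Nat.card (K ⊓ centralizer {v} : Subgroup E) := by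
  have h' : y ∉ K ⊓ centralizer {v} := fun e => h (mem_centralizer_singleton_iff.1 e.2)
  have e : ∑ i : Bool, s (if i then y else 1) * hat (K ⊓ centralizer {v}) = hat K :=
    sum_s_hat _ inf_le_left (fun i => by cases i; exacts [K.one_mem, hy])
      (fun i j => by cases i <;> cases j <;> simp [-Subgroup.mem_inf, h']) fun a ha => by
        rcases cov hz hP hK hv hy h a ha with e | e
        exacts [⟨false, by simpa using e⟩, ⟨true, e⟩]
  exact ⟨by rw [← e]; simp [s_one, add_mul, add_comm], (card_of_sum _ e).symm⟩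

/-- The centre of `K` has index at least `N`. -/
def Big (K : Subgroup E) (N : ℕ) : Prop :=
  Nat.card (K ⊓ centralizer (K : Set E) : Subgroup E) * N ≤ Nat.card K

omit [Finite E] in
theorem Big.mono {N N' : ℕ} (h : Big K N) (h' : N' ≤ N) : Big K N' :=
  (Nat.mul_le_mul_left _ h').trans h

theorem Big.ne (h : Big K 2) : ∃ a ∈ K, ∃ b ∈ K, a * b ≠ b * a := by
  by_contra hn
  push Not at hn
  rw [Big, inf_eq_left.2 fun a ha => mem_centralizer_iff.2 fun b hb => hn b hb a ha] at h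
  have := Nat.card_pos (α := K)
  omega

theorem Big.half (hz : Cen 2 z) (hP : ∀ x ∈ P, x ^ 2 ∈ zpowers z) (hK : K ≤ P) {v y : E}
    (hv : v ∈ P) (hy : y ∈ K) (h : y * v ≠ v * y) {N : ℕ} (hB : Big K (4 * N)) :
    Big (K ⊓ centralizer {v}) N := by
  have e1 := (H30.half hz hP hK hv hy h).2
  have e0 := cov hz hP hK hv hy h
  unfold Big at hB ⊢
  have hH : K ⊓ centralizer {v} ≤ K := inf_le_left
  generalize K ⊓ centralizer {v} = H at *
  have e2 : (H ⊓ centralizer (H : Set E)) ⊓ centralizer {y} ≤ K ⊓ centralizer (K : Set E) := by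
    rintro c ⟨⟨c1, c2⟩, c3⟩
    refine ⟨hH c1, mem_centralizer_iff.2 fun a ha => ?_⟩
    rcases e0 a ha with e | e
    · exact c2 a e
    · rw [← mul_inv_cancel_left y a, mul_assoc, c2 _ e, ← mul_assoc,
        ← mem_centralizer_singleton_iff.1 c3, mul_assoc]
  have e3 := card_le_of_le e2
  have e4 : Nat.card (H ⊓ centralizer (H : Set E) : Subgroup E) ≤
      2 * Nat.card ((H ⊓ centralizer (H : Set E)) ⊓ centralizer {y} : Subgroup E) := by
    by_cases e : ∀ c ∈ H ⊓ centralizer (H : Set E), c * y = y * c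
    · rw [(inf_eq_left (b := centralizer {y})).2 fun c hc =>
        mem_centralizer_singleton_iff.2 (e c hc)]
      omega
    · push Not at e
      obtain ⟨c, hc, e⟩ := e
      exact (H30.half hz hP (inf_le_left.trans (hH.trans hK)) (hK hy) hc e).2.le
  nlinarith

theorem Big.two (hz : Cen 2 z) (hP : ∀ x ∈ P, x ^ 2 ∈ zpowers z) {w x : E} (hw : w ∈ P)
    (hx : x ∈ P) (h : x * w ≠ w * x) {N : ℕ} (hB : Big P (4 * N)) :
    Big (P ⊓ centralizer {w} ⊓ centralizer {x}) N := by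
  have hw' : w ∈ P ⊓ centralizer {w} := ⟨hw, mem_centralizer_singleton_iff.2 rfl⟩
  have e1 := (H30.half hz hP le_rfl hw hx h).2
  have e2 := (H30.half hz hP inf_le_left hx hw' h.symm).2
  have e3 : (P ⊓ centralizer {w} ⊓ centralizer {x}) ⊓
      centralizer (P ⊓ centralizer {w} ⊓ centralizer {x} : Subgroup E) ≤
      P ⊓ centralizer (P : Set E) := by
    rintro c ⟨⟨⟨c1, c2⟩, c3⟩, c4⟩
    have f : ∀ {y a : E}, c ∈ centralizer {y} → y⁻¹ * a * c = c * (y⁻¹ * a) → a * c = c * a :=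
      fun {y a} h1 h2 => by
        rw [← mul_inv_cancel_left y a, mul_assoc, h2, ← mul_assoc,
          ← mem_centralizer_singleton_iff.1 h1, mul_assoc]
    have f2 : ∀ a ∈ P ⊓ centralizer {w}, a * c = c * a := fun a ha =>
      (cov hz hP inf_le_left hx hw' h.symm a ha).elim (c4 a) fun e => f c2 (c4 _ e)
    exact ⟨c1, mem_centralizer_iff.2 fun a ha =>
      (cov hz hP le_rfl hw hx h a ha).elim (f2 a) fun e => f c3 (f2 _ e)⟩
  have e4 := card_le_of_le e3
  unfold Big at hB ⊢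
  nlinarith

theorem exists_invol (hz : Cen 2 z) (hP : ∀ x ∈ P, x ^ 2 ∈ zpowers z) (hB : Big P 8) :
    ∃ w ∈ P, ∃ x ∈ P, w * w = 1 ∧ x * w ≠ w * x := by
  obtain ⟨a, ha, b, hb, h⟩ := (hB.mono (by norm_num)).ne
  obtain ⟨c, ⟨⟨hc, c1⟩, c2⟩, d, ⟨⟨hd, -⟩, -⟩, h'⟩ := (Big.two (N := 2) hz hP hb ha h hB).ne
  rcases inv2 hz.pow (hP a ha) with e | e
  · exact ⟨a, ha, b, hb, by rw [← sq, e], h.symm⟩
  rcases inv2 hz.pow (hP c hc) with e' | e'
  · exact ⟨c, hc, d, hd, by rw [← sq, e'], h'.symm⟩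
  have c1 := mem_centralizer_singleton_iff.1 c1
  have c2 := mem_centralizer_singleton_iff.1 c2
  refine ⟨a * c, P.mul_mem ha hc, b, hb, ?_, fun e => h ?_⟩
  · rw [mul_assoc, ← mul_assoc c, c2, mul_assoc, ← mul_assoc, ← sq, ← sq, e, e', ← sq, hz.pow]
  · rw [mul_assoc, c1, ← mul_assoc, ← mul_assoc] at e
    exact (mul_right_cancel e).symm

theorem Mat.base (hz : Cen 2 z) (hzP : z ∈ P) {m : ℤ} {X : MonoidAlgebra ℤ P}
    (hX : Good (⟨z, hzP⟩ : P) m X) {r : ℕ} (h : Mat z C (zpowers z) r) : Mat z C P r := by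
  intro ι _ _ hι
  obtain ⟨c, B, b1, b2, b3⟩ := h ι hι
  obtain ⟨Y, y1, y2, y3, y4⟩ := hX.map hz hzP
  have cY : Y * (1 + s z) = (1 + s z) * Y := ((Commute.one_right _).add_right (comm_s hz.comm Y)).eq
  rw [hat_zpowers hz] at y3 b1
  refine ⟨c * m, fun a b => B a b * Y, fun a b => ?_, fun w h1 h2 a b =>
    (b2 w h1 (fun p hp => h2 p (zpowers_le.2 hzP hp)) a b).mul_left (comm_supp y2 h2),
    fun a a' => ?_⟩
  · obtain ⟨n, n1, n2⟩ := b1 a b
    refine ⟨n * Y, n1.mul ⟨Y, 0, y1, nn_zero, by simp, by simp⟩, ?_⟩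
    rw [mul_assoc, cY, ← mul_assoc n, ← mul_assoc, n2, mul_assoc, ← cY, y3]
  · have e : ∀ p q : MonoidAlgebra ℤ E, (1 - s z) * (p * Y * star (q * Y)) =
        (1 - s z) * (p * star q) * m := fun p q => by
      rw [star_mul, mul_assoc p, ← mul_assoc Y, ← mul_assoc p, hz.mid, star_eq Y, y4, ← hz.mid,
        mul_assoc p, Int.cast_comm, ← mul_assoc p, mul_assoc (1 - s z)]
    simp only [mul_sum, e]
    rw [← sum_mul, ← mul_sum, b3, mul_assoc]
    split_ifs <;> simp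

theorem Mat.descend (hz : Cen 2 z) {j : ℕ} (hj : 2 ≤ j) (k : ℕ) : ∀ P : Subgroup E, z ∈ P →
    (∀ x ∈ P, x ^ 2 ∈ zpowers z) → (∀ c ∈ C, ∀ p ∈ P, c * p = p * c) →
    Nat.card P = 2 ^ (2 * j + 1 + 3 * k) → Big P (16 ^ k) →
    ∀ r, Mat z C (zpowers z) (r + k) → Mat z C P r := by
  induction k with
  | zero =>
    intro P hzP hP _ hc _ r h
    have e : ∀ x : P, x ^ 2 = 1 ∨ x ^ 2 = ⟨z, hzP⟩ := fun x =>
      (inv2 hz.pow (hP x x.2)).imp Subtype.ext Subtype.ext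
    obtain ⟨m, X, hX⟩ := two_odd j P hc
      (fun x => by
        rcases e x with e | e <;> rw [e]
        exacts [one_mem _, mem_center_iff.2 (hz.sub hzP).comm])
      (fun x => by
        rcases e x with e | e <;> rw [e]
        exacts [one_pow _, (hz.sub hzP).pow]) (.inr hj) _ (hz.sub hzP)
    exact h.base hz hzP hX
  | succ k ih =>
    intro P hzP hP hC hc hB r h
    have k1 : 1 ≤ 16 ^ k := Nat.one_le_pow _ _ (by norm_num)
    obtain ⟨w, hw, x, hx, hww, hxw⟩ := exists_invol hz hP (hB.mono (by rw [pow_succ]; omega))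
    have hw' : w ∈ P ⊓ centralizer {w} := ⟨hw, mem_centralizer_singleton_iff.2 rfl⟩
    obtain ⟨a1, a2⟩ := half hz hP le_rfl hw hx hxw
    obtain ⟨b1, b2⟩ := half hz hP inf_le_left hx hw' hxw.symm
    have b3 := Big.two (N := 4 * 16 ^ k) hz hP hw hx hxw (hB.mono (by rw [pow_succ]; omega))
    obtain ⟨g, hg, v, hv, hgv⟩ := (b3.mono (by omega)).ne
    have hle : P ⊓ centralizer {w} ⊓ centralizer {x} ≤ P := inf_le_left.trans inf_le_left
    obtain ⟨c1, c2⟩ := half hz hP hle (hle hv) hg hgv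
    have c3 := b3.half hz hP hle (hle hv) hg hgv
    have hQ : P ⊓ centralizer {w} ⊓ centralizer {x} ⊓ centralizer {v} ≤ P := inf_le_left.trans hle
    have zc : ∀ y : E, z ∈ centralizer {y} := fun y =>
      mem_centralizer_singleton_iff.2 (hz.comm y).symm
    have hzQ : z ∈ P ⊓ centralizer {w} ⊓ centralizer {x} ⊓ centralizer {v} :=
      ⟨⟨⟨hzP, zc w⟩, zc x⟩, zc v⟩
    refine (ih _ hzQ (fun y hy => hP y (hQ hy)) (fun c hc p hp => hC c hc p (hQ hp)) ?_ c3 (r + 1)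
      (by rwa [add_right_comm])).step hz hQ hC hzQ hw hx (hle hg) hww
      (zpowers_le.2 hzQ (sq x ▸ hP x hx)) (dich hz hP hx hw hxw)
      (mem_centralizer_singleton_iff.1 hg.1.2) (mem_centralizer_singleton_iff.1 hg.2)
      (fun q hq => mem_centralizer_singleton_iff.1 hq.1.1.2)
      (fun q hq => mem_centralizer_singleton_iff.1 hq.1.2) (by rw [a1, b1, c1])
    rw [a2, b2, c2, show 2 * j + 1 + 3 * (k + 1) = 2 * j + 1 + 3 * k + 3 by ring, pow_add] at hc
    omega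

theorem Mat.init (hz : Cen 2 z) (hzC : z ∈ C) {k : ℕ} (hk : Nat.card C ^ 8 ≤ 2 ^ (k + 5)) :
    Mat z C (zpowers z) k := by
  intro ι _ _ hι
  obtain ⟨c, B, b1, b2⟩ := exists_matrix (hz.sub hzC).ne (by rw [← sq, (hz.sub hzC).pow])
    (hz.sub hzC).comm hk ι hι
  refine ⟨c, fun a b => mapDomainRingHom ℤ C.subtype (B a b), fun a b => ?_,
    fun w h1 _ a b => comm_map C.subtype (fun g => h1 g g.2) _, fun a a' => ?_⟩
  · obtain ⟨n, n1, n2⟩ := b1 a b
    refine ⟨_, n1.map C.subtype, ?_⟩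
    have := congrArg (mapDomainRingHom ℤ C.subtype) n2
    rw [map_mul, map_add, map_one, map_s, map_hat_top] at this
    rw [hat_zpowers hz, mul_add (hat C), hat_mul_s hzC, mul_one, ← two_mul, ← this]
    rfl
  · simp only [star_eq, ← map_st, ← map_mul, ← map_sum]
    simp only [← star_eq, b2]
    split_ifs <;> simp

theorem hat_mul_hat (hz : Cen 2 z) (hs : ∀ g, ∃ c ∈ C, ∃ p ∈ P, g = c * p)
    (hi : C ⊓ P = zpowers z) : hat C * hat P = 2 * hat ⊤ := by
  classical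
  have := Fintype.ofFinite E
  refine MonoidAlgebra.ext (Finsupp.ext fun g => ?_)
  obtain ⟨c, hc, p, hp, rfl⟩ := hs g
  have e : (hat ⊤ * hat (zpowers z)).coeff c = (2 * hat (⊤ : Subgroup E)).coeff (c * p) := by
    rw [hat_zpowers hz, mul_add, hat_mul_s (mem_top z), mul_one, two_mul]
    simp [hat_coeff]
  rw [← e, coeff_mul_fin, coeff_mul_fin, ← hi]
  refine sum_congr rfl fun a _ => ?_
  simp only [hat_coeff, Subgroup.mem_inf, C.mul_mem_cancel_right hc, ← mul_assoc,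
    P.mul_mem_cancel_right hp, C.inv_mem_iff, mem_top, if_true, one_mul]
  by_cases h1 : a ∈ C <;> simp [h1]

theorem exists_good (hz : Cen 2 z) (hP : ∀ x ∈ P, x ^ 2 ∈ zpowers z)
    (hc : ∀ c ∈ C, ∀ p ∈ P, c * p = p * c) (hs : ∀ g, ∃ c ∈ C, ∃ p ∈ P, g = c * p)
    (hi : C ⊓ P = zpowers z) (hB : Big P (Nat.card C ^ 32)) :
    2 < Nat.card P ∧ ∃ m X, Good z m X := by
  have hz' := hi.ge (mem_zpowers z)
  have h2 : 2 ≤ Nat.card C := card_zp hz.ne hz.pow ▸ card_le_of_le (zpowers_le.2 hz'.1)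
  obtain ⟨t, ht⟩ := (show IsPGroup 2 P from fun x => ⟨2, Subtype.ext (by
    rw [sq 2, pow_mul]
    rcases inv2 hz.pow (hP x x.2) with e | e <;> simp [e, hz.pow])⟩).exists_card_eq
  have l1 := Nat.pow_log_le_self 2 (show Nat.card C ^ 8 ≠ 0 by positivity)
  have l2 := Nat.lt_pow_succ_log_self one_lt_two (Nat.card C ^ 8)
  have l3 : 8 ≤ Nat.log 2 (Nat.card C ^ 8) :=
    Nat.le_log_of_pow_le one_lt_two (Nat.pow_le_pow_left h2 8)
  generalize Nat.log 2 (Nat.card C ^ 8) = l at *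
  have l4 : 2 ^ (l * 4) ≤ Nat.card C ^ 32 := by
    rw [pow_mul, show 32 = 8 * 4 from rfl, pow_mul]; gcongr
  have l5 : l * 4 ≤ t := by
    refine (Nat.pow_le_pow_iff_right one_lt_two).1 (l4.trans (ht ▸ le_trans ?_ hB))
    exact Nat.le_mul_of_pos_left _ Nat.card_pos
  obtain ⟨k, j, k1, k2, k3, rfl⟩ : ∃ k j, l ≤ k + 4 ∧ k ≤ l ∧ 2 ≤ j ∧ t = 2 * j + 1 + 3 * k := by
    rcases Nat.mod_two_eq_zero_or_one (t + l) with h | h
    exacts [⟨l - 1, (t - 1 - 3 * (l - 1)) / 2, by omega⟩, ⟨l, (t - 1 - 3 * l) / 2, by omega⟩]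
  obtain ⟨c, B, b1, -, b3⟩ := Mat.descend hz k3 k P hz'.2 hP hc ht
    (hB.mono (le_trans (by
      rw [mul_comm, pow_mul]; exact Nat.pow_le_pow_right (by norm_num) k2) l4)) 0 (Mat.init hz hz'.1 (l2.le.trans
      (Nat.pow_le_pow_right two_pos (by omega)))) Unit rfl
  obtain ⟨n, n1, n2⟩ := b1 () ()
  refine ⟨ht ▸ Nat.pow_lt_pow_right one_lt_two (show 1 < _ by omega), c,
    good_of_flat hz n1 ?_ (by simpa using b3 () ())⟩
  rw [hat_mul_hat hz hs hi, two_mul, two_mul] at n2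
  refine MonoidAlgebra.ext (Finsupp.ext fun g => ?_)
  have := congrArg (fun X => X.coeff g) n2
  simp only [coeff_add, Finsupp.add_apply] at this
  omega

end Pool.Agent.Lib.MP_2d211a_co.H30
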