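import Pool.Agent.Lib.MP_2d211a_co.H30Int

/-! Odd `p`-subgroups are good; tiling of `(C / z) × Z_(2^f)`; descent to `C`. -/

namespace Pool.Agent.Lib.MP_2d211a_co.H30

open MonoidAlgebra Finset H62

variable {C : Type*} [Group C] [Finite C]

theorem gk_pgroup {p : ℕ} (hp : p.Prime) (e : ℕ) (ho : Odd (p ^ e)) (hd : p ^ e ∣ Nat.card C) :
    ∃ (H : Subgroup C) (k : ℕ), Nat.card H = p ^ e ∧ 2 ^ k ≤ (p ^ e) ^ 4 ∧ Gk (hat H) (p ^ e) k := by
  induction e with
  | zero => exact ⟨⊥, 0, by simp, by simp, by rw [hat_bot]; exact Gk.s 1⟩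
  | succ e ih =>
    have := Fact.mk hp
    rw [pow_succ, Nat.odd_mul] at ho
    obtain ⟨H, k, hH, hk, h⟩ := ih ho.1 ((pow_dvd_pow p e.le_succ).trans hd)
    obtain ⟨K, hK, hHK⟩ := Sylow.exists_subgroup_card_pow_succ hd hH
    obtain ⟨t, htK, htH⟩ := SetLike.exists_of_lt (hHK.lt_of_ne fun e' => by
      rw [← e', hH] at hK
      exact e.lt_succ_self.ne (Nat.pow_right_injective hp.two_le hK))
    have key : ∀ i j : Fin p, i < j → (t ^ (i : ℕ))⁻¹ * t ^ (j : ℕ) ∉ H := fun i j hij hm => by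
      obtain ⟨d, hd⟩ := Nat.exists_eq_add_of_lt (Fin.lt_def.1 hij)
      rw [hd, add_assoc, pow_add, inv_mul_cancel_left] at hm
      refine htH ((Subgroup.zpowers_le.2 hm) (mem_zpowers_pow_iff.2 ?_))
      refine Nat.Coprime.coprime_dvd_right (hK ▸ K.orderOf_dvd_natCard htK) (Nat.Coprime.pow_right _ ?_)
      exact (Nat.coprime_of_lt_prime (by omega) (by omega) hp).symm
    have inj : ∀ i j : Fin p, (t ^ (i : ℕ))⁻¹ * t ^ (j : ℕ) ∈ H → i = j := fun i j hm => by
      rcases lt_trichotomy i j with h | h | h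
      exacts [(key i j h hm).elim, h, (key j i h (by simpa using H.inv_mem hm)).elim]
    have hf : ∀ i : Fin p, t ^ (i : ℕ) ∈ K := fun i => K.pow_mem htK _
    have e1 := sum_s_hat _ hHK hf inj (sur_of_card _ hHK hf inj (by simp [hK, hH, pow_succ']))
    obtain ⟨k', hk', h'⟩ := gk_interval t ho.2
    refine ⟨K, k' + k, hK, ?_, ?_⟩
    · rw [pow_add, pow_succ' p, mul_pow]; exact Nat.mul_le_mul hk' hk
    · rw [← e1, ← sum_mul, Fin.sum_univ_eq_sum_range (fun i => s (t ^ i)), pow_succ']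
      exact h'.mul h

theorem hat_top [Fintype C] : hat (⊤ : Subgroup C) = ∑ g, s g := by
  simpa [hat_bot] using (sum_s_hat (fun g : C => g) (H := ⊥) (L := ⊤) bot_le (by simp)
    (fun i j h => inv_mul_eq_one.1 h) fun y _ => ⟨y, by simp⟩).symm

theorem card_of_sum {ι : Type*} [Fintype ι] (f : ι → C) {H L : Subgroup C}
    (h : ∑ i, s (f i) * hat H = hat L) : Fintype.card ι * Nat.card H = Nat.card L := by
  classical
  have := Fintype.ofFinite C
  have e : ∀ (x : C) (H : Subgroup C), ∑ g, (s x * hat H).coeff g = Nat.card H := fun x H => by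
    simp only [s, coeff_single_mul_apply, one_mul, hat_coeff]
    rw [Fintype.sum_equiv (Equiv.mulLeft x⁻¹) (fun g => if x⁻¹ * g ∈ H then (1 : ℤ) else 0)
      (fun g => if g ∈ H then (1 : ℤ) else 0) fun _ => rfl]
    simp [Fintype.card_subtype]
  have e2 := e 1 L
  rw [s_one, one_mul, ← h] at e2
  simp only [coeff_sum, Finsupp.finsetSum_apply] at e2
  rw [sum_comm] at e2
  simp only [e, sum_const, card_univ, nsmul_eq_mul] at e2
  exact_mod_cast e2

theorem exists_trans {z : C} (h1 : z ≠ 1) (h2 : z * z = 1) (hc : ∀ g, g * z = z * g)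
    (H : Subgroup C) (ho : Odd (Nat.card H)) : ∃ l : List C,
      l.length * (2 * Nat.card H) = Nat.card C ∧ (l.map s).sum * hat H * (1 + s z) = hat ⊤ := by
  classical
  have hz : z ∉ H := fun h => by
    have := H.orderOf_dvd_natCard h
    rw [orderOf_eq_prime (p := 2) (by rw [sq, h2]) h1] at this
    exact (Nat.not_even_iff_odd.2 ho) (even_iff_two_dvd.2 this)
  have hi : z⁻¹ = z := inv_eq_of_mul_eq_one_right h2
  let L : Subgroup C :=
    { carrier := {g | g ∈ H ∨ z * g ∈ H}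
      one_mem' := .inl H.one_mem
      inv_mem' := by
        rintro g (h | h)
        · exact .inl (H.inv_mem h)
        · exact .inr (by simpa [hi, hc] using H.inv_mem h)
      mul_mem' := by
        rintro a b (h | h) (h' | h')
        · exact .inl (H.mul_mem h h')
        · exact .inr (by rw [← mul_assoc, ← hc, mul_assoc]; exact H.mul_mem h h')
        · exact .inr (by rw [← mul_assoc]; exact H.mul_mem h h')
        · refine .inl ?_
          have := H.mul_mem h h'
          rwa [← hc a, mul_assoc, ← mul_assoc z, h2, one_mul] at this }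
  have e1 : ∑ i : Bool, s (if i then z else 1) * hat H = hat L :=
    sum_s_hat _ (fun _ h => .inl h)
      (fun i => by cases i; exacts [.inl H.one_mem, .inr (by simp [h2])])
      (fun i j => by cases i <;> cases j <;> simp [hz]) fun y hy => by
        rcases hy with h | h
        exacts [⟨false, by simpa using h⟩, ⟨true, by simpa [hi] using h⟩]
  have := Fintype.ofFinite (C ⧸ L)
  have e2 : ∑ x : C ⧸ L, s x.out * hat L = hat ⊤ :=
    sum_s_hat _ le_top (by simp) (fun i j h => by simpa using QuotientGroup.eq.2 h)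
      fun y _ => ⟨y, QuotientGroup.eq.1 (by simp)⟩
  refine ⟨(univ : Finset (C ⧸ L)).toList.map fun x : C ⧸ L => x.out, ?_, ?_⟩
  · have a1 := card_of_sum _ e1
    have a2 := card_of_sum _ e2
    rw [← a1, Subgroup.card_top] at a2
    simpa using a2
  · rw [List.map_map, sum_map_toList, ← e2, ← e1, ← sum_mul, mul_assoc, mul_add, mul_one,
      (comm_s hc _).eq]
    simp [s_one, add_comm]

/-- `N` copies of `C / z` are cut into good blocks of size `m`. -/
def tile {D : Type*} [Group D] (φ : C →* D) (T : D) (z : C) (m K : ℕ) : AddSubmonoid ℕ where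
  carrier := {N | ∃ l : List (MonoidAlgebra ℤ D), (∀ x ∈ l, Gk x m K) ∧
    l.length * (2 * m) = Nat.card C * N ∧
    l.sum * (1 + s (φ z)) = I T N * mapDomainRingHom ℤ φ (hat ⊤)}
  zero_mem' := ⟨[], by simp, by simp, by simp [I]⟩
  add_mem' := by
    rintro N N' ⟨l, a1, a2, a3⟩ ⟨l', b1, b2, b3⟩
    refine ⟨l ++ l'.map (s (T ^ N) * ·), fun x hx => ?_, ?_, ?_⟩
    · rcases List.mem_append.1 hx with h | h
      · exact a1 x h
      · obtain ⟨y, hy, rfl⟩ := List.mem_map.1 h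
        simpa using (Gk.s (T ^ N)).mul (b1 y hy)
    · rw [List.length_append, List.length_map, add_mul, a2, b2, mul_add]
    · rw [List.sum_append, List.sum_map_mul_left, List.map_id', add_mul, a3, mul_assoc, b3, I_add,
        add_mul, mul_assoc]

theorem mem_tile {D : Type*} [Group D] (φ : C →* D) (T : D) {z : C} (h1 : z ≠ 1) (h2 : z * z = 1)
    (hc : ∀ g, g * z = z * g) {m : ℕ} (ho : Odd m) (hm : m ∣ Nat.card C) {p e m' : ℕ}
    (hp : p.Prime) (he : p ^ e * m' = m) : m' ∈ tile φ T z m (Nat.log 2 (m ^ 4)) := by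
  subst he
  rw [Nat.odd_mul] at ho
  obtain ⟨H, k, hH, hk, h⟩ := gk_pgroup hp e ho.1 (dvd_of_mul_right_dvd hm)
  obtain ⟨k', hk', h'⟩ := gk_interval T ho.2
  obtain ⟨l, a1, a2⟩ := exists_trans h1 h2 hc H (hH ▸ ho.1)
  refine ⟨l.map fun x => I T m' * mapDomainRingHom ℤ φ (s x * hat H), fun x hx => ?_, ?_, ?_⟩
  · obtain ⟨y, -, rfl⟩ := List.mem_map.1 hx
    have := h'.mul (((Gk.s y).mul h).map φ)
    rw [one_mul, zero_add, mul_comm m'] at this
    refine this.mono (Nat.le_log_of_pow_le one_lt_two ?_)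
    rw [pow_add, mul_pow, mul_comm]
    exact Nat.mul_le_mul hk hk'
  · rw [List.length_map, ← a1, hH]; ring
  · have : (l.map s).sum * hat H = (l.map fun x => s x * hat H).sum :=
      (List.sum_map_mul_right _ _ _).symm
    rw [List.sum_map_mul_left, mul_assoc, ← a2, map_mul, map_add, map_one, map_s, this,
      map_list_sum, List.map_map]
    rfl

theorem mem_of_ge (m : ℕ) : m ≠ 0 → ∀ S : AddSubmonoid ℕ,
    (∀ p e m' : ℕ, p.Prime → p ^ e * m' = m → m' ∈ S) → ∀ N, m * m ≤ N → N ∈ S := by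
  induction m using Nat.strong_induction_on with | _ m ih => ?_
  intro hm S hS N hN
  by_cases h1 : m = 1
  · simpa using S.nsmul_mem (hS 2 0 1 Nat.prime_two (by simp [h1])) N
  obtain ⟨p, hp, hd⟩ := Nat.exists_prime_and_dvd h1
  obtain ⟨e, m', hn, rfl⟩ := Nat.exists_eq_pow_mul_and_not_dvd hm p hp.ne_one
  have hq : 2 ≤ p ^ e := Nat.one_lt_pow (by rintro rfl; exact hn (by simpa using hd)) hp.one_lt
  have hm' : 0 < m' := Nat.pos_of_ne_zero (right_ne_zero_of_mul hm)
  have hco : m'.Coprime (p ^ e) := ((hp.coprime_iff_not_dvd.2 hn).pow_left e).symm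
  have h0 := hS p e m' hp rfl
  generalize p ^ e = q at *
  obtain ⟨n, hnq, hn'⟩ := Nat.exists_mul_mod_eq_of_coprime N hco (by omega)
  have a1 : m' * n ≤ m' * q := Nat.mul_le_mul_left _ hnq.le
  have a2 : q * (m' * m') + m' * q ≤ N := by
    refine le_trans ?_ hN
    have : q * m' * (m' + 1) ≤ q * m' * (q * m') := Nat.mul_le_mul_left _ (by nlinarith)
    nlinarith
  obtain ⟨N', hN'⟩ := (Nat.modEq_iff_dvd' (by omega)).1 (show m' * n ≡ N [MOD q] from hn')
  have h2 : N' ∈ S.comap (AddMonoidHom.mulLeft q) :=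
    ih m' (by nlinarith) hm'.ne' (S.comap (AddMonoidHom.mulLeft q))
      (fun p' e' m'' hp' h => hS p' e' (q * m'') hp' (by rw [← h]; ring)) N'
      (Nat.le_of_mul_le_mul_left (c := q) (by omega) (by omega))
  rw [show N = n • m' + q * N' by rw [smul_eq_mul, mul_comm n]; omega]
  exact S.add_mem (S.nsmul_mem h0 n) h2

section descent

variable {Γ : Type*} [Group Γ] [Fintype Γ]

/-- The component at `δ` of an element of the group ring of `C × Γ`. -/
noncomputable def pr (δ : Γ) : MonoidAlgebra ℤ (C × Γ) →+ MonoidAlgebra ℤ C where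
  toFun x := .ofCoeff (Finsupp.equivFunOnFinite.symm fun c => x.coeff (c, δ))
  map_zero' := by ext c; rfl
  map_add' x y := by ext c; rfl

omit [Group C] [Group Γ] [Fintype Γ] in
theorem pr_coeff (δ : Γ) (x : MonoidAlgebra ℤ (C × Γ)) (c : C) :
    (pr δ x).coeff c = x.coeff (c, δ) := rfl

theorem pr_mul (γ γ' : Γ) (x y : MonoidAlgebra ℤ (C × Γ)) :
    ∑ δ, pr (γ⁻¹ * δ) x * star (pr (γ'⁻¹ * δ) y) = pr (γ⁻¹ * γ') (x * star y) := by
  have := Fintype.ofFinite C
  ext c
  simp only [coeff_sum, Finsupp.finsetSum_apply, coeff_mul_fin, pr_coeff, star_eq, st_coeff,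
    Fintype.sum_prod_type_right]
  exact Fintype.sum_equiv (Equiv.mulLeft γ⁻¹) _ _ fun δ => by simp [mul_assoc]

end descent

theorem I_mul_hat (N : ℕ) [NeZero N] : I ((1, .ofAdd 1) : C × Multiplicative (ZMod N)) N *
    mapDomainRingHom ℤ (MonoidHom.inl C (Multiplicative (ZMod N))) (hat ⊤) = hat ⊤ := by
  have := Fintype.ofFinite C
  rw [hat_top, hat_top, map_sum, I, Fintype.sum_prod_type_right, sum_mul]
  refine sum_nbij' (fun j => .ofAdd (j : ZMod N)) (fun δ => δ.toAdd.val) (by simp)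
    (fun δ _ => mem_range.2 (ZMod.val_lt _)) (fun j hj => ZMod.val_cast_of_lt (mem_range.1 hj))
    (by simp) fun j _ => ?_
  simp only [mul_sum, map_s, s_mul]
  simp [← ofAdd_nsmul]

/-- Every finite group with a central involution `z` carries a matrix with orthogonal rows whose
entries are signed transversals of `⟨z⟩`. -/
theorem exists_matrix {z : C} (h1 : z ≠ 1) (h2 : z * z = 1) (hc : ∀ g, g * z = z * g) {k : ℕ}
    (hk : Nat.card C ^ 8 ≤ 2 ^ (k + 5)) (ι : Type) [Fintype ι] [DecidableEq ι]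
    (hι : Fintype.card ι = 2 ^ k) : ∃ (v : ℕ) (B : ι → ι → MonoidAlgebra ℤ C),
      (∀ a b, ∃ n, Flat n (B a b) ∧ n * (1 + s z) = hat ⊤) ∧
      ∀ a a', ∑ b, B a b * star (B a' b) = if a = a' then (v : MonoidAlgebra ℤ C) else 0 := by
  classical
  have := Fintype.ofFinite C
  have h0 : 2 ∣ Nat.card C := orderOf_eq_prime (p := 2) (by rw [sq, h2]) h1 ▸ orderOf_dvd_natCard z
  obtain ⟨v, hv⟩ := h0
  obtain ⟨a, m, ho, rfl⟩ := Nat.exists_eq_two_pow_mul_odd (n := v)
    (right_ne_zero_of_mul (hv ▸ Nat.card_pos.ne'))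
  have hm : m ≠ 0 := ho.pos.ne'
  obtain ⟨f, f1, f2⟩ : ∃ f, m * m ≤ 2 ^ f ∧ 2 ^ f ≤ 2 * (m * m) :=
    ⟨Nat.log 2 (m * m) + 1, (Nat.lt_pow_succ_log_self one_lt_two _).le, by
      rw [pow_succ']; exact Nat.mul_le_mul_left _ (Nat.pow_log_le_self 2 (mul_ne_zero hm hm))⟩
  let Γ := Multiplicative (ZMod (2 ^ f))
  obtain ⟨l, a1, a2, a3⟩ := mem_of_ge m hm
    (tile (MonoidHom.inl C Γ) (1, .ofAdd 1) z m (Nat.log 2 (m ^ 4)))
    (fun p e m' hp h => mem_tile _ _ h1 h2 hc ho ⟨2 * 2 ^ a, by rw [hv]; ring⟩ hp h) _ f1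
  have hl : l.length = 2 ^ (a + f) :=
    Nat.eq_of_mul_eq_mul_right (m := 2 * m) (by omega) (by rw [a2, hv]; ring)
  have hK : Nat.log 2 (m ^ 4) + (a + f) + f ≤ k := by
    refine Nat.le_of_add_le_add_right ((Nat.pow_le_pow_iff_right one_lt_two).1 (le_trans ?_ hk))
    have b1 := Nat.pow_log_le_self 2 (pow_ne_zero 4 hm)
    have b2 : 2 ^ a ≤ (2 ^ a) ^ 8 := Nat.le_self_pow (by norm_num) _
    calc _ = 2 ^ Nat.log 2 (m ^ 4) * 2 ^ a * 2 ^ f * 2 ^ f * 32 := by ring
      _ ≤ m ^ 4 * (2 ^ a) ^ 8 * (2 * (m * m)) * (2 * (m * m)) * 32 := by gcongr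
      _ = 128 * (2 ^ a * m) ^ 8 := by ring
      _ ≤ _ := by rw [hv, mul_pow 2]; gcongr; norm_num
  obtain ⟨k, rfl⟩ := Nat.exists_eq_add_of_le' ((Nat.le_add_left _ _).trans hK)
  obtain ⟨B, b1, b2⟩ := ((Gk.sum _ l hl a1).mono (Nat.le_of_add_le_add_right hK)).get (Fin (2 ^ k))
    (Fintype.card_fin _)
  have e : ι ≃ Fin (2 ^ k) × Γ := Fintype.equivOfCardEq (by simp [hι, Γ, pow_add])
  have a4 : l.sum * (1 + s (z, 1)) = hat ⊤ := a3.trans (I_mul_hat _)
  refine ⟨2 ^ k * (2 ^ (a + f) * m), fun x y => pr ((e x).2⁻¹ * (e y).2) (B (e x).1 (e y).1),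
    fun x y => ⟨pr ((e x).2⁻¹ * (e y).2) l.sum, ?_, ?_⟩, fun x x' => ?_⟩
  · obtain ⟨c, d, hc, hd, e1, e2⟩ := b1 (e x).1 (e y).1
    exact ⟨_, _, fun g => hc _, fun g => hd _, by rw [e1, map_add], by simp only [e2, map_sub]⟩
  · ext c
    have := congrArg (fun X => X.coeff (c, (e x).2⁻¹ * (e y).2)) a4
    simpa [mul_add, s, pr_coeff, hat_coeff] using this
  · rw [e.sum_comp fun y => pr ((e x).2⁻¹ * y.2) (B (e x).1 y.1) *
      star (pr ((e x').2⁻¹ * y.2) (B (e x').1 y.1)), Fintype.sum_prod_type]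
    simp only [pr_mul, ← map_sum, b2]
    ext c
    simp only [pr_coeff, ← e.injective.eq_iff (a := x), Prod.ext_iff,
      ← inv_mul_eq_one (a := (e x).2)]
    generalize (2 ^ k * (2 ^ (a + f) * m)) = w
    by_cases c1 : (e x).1 = (e x').1 <;> by_cases c2 : (e x).2⁻¹ * (e x').2 = 1 <;>
      simp [c1, c2, natCast_def, Finsupp.single_apply, Prod.ext_iff]

end Pool.Agent.Lib.MP_2d211a_co.H30
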