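import Pool.Agent.Lib.MP_2d211a_co.H31Syl

/-! The case of a cyclic Sylow subgroup. -/

namespace Pool.Agent.Lib.MP_2d211a_co.H31

open Finset

variable {E : Type} [Group E] [Finite E] {N : Subgroup E} [N.Normal] (D : Data N)
  {p : ℕ} [hp : Fact p.Prime]

omit [Finite E] in
include D in
theorem Data.dvd_index : Nat.card N ∣ N.index := Dvd.intro_left _ D.hl

theorem not_mul_dvd (P : Sylow p E) : ¬ Nat.card P * p ∣ Nat.card E := fun h => by
  rw [← P.1.card_mul_index] at h
  exact P.not_dvd_index (Nat.dvd_of_mul_dvd_mul_left Nat.card_pos h)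

omit [N.Normal] in
theorem not_card_dvd_index (hN : p ∣ Nat.card N) (P : Sylow p E) : ¬ Nat.card P ∣ N.index :=
  fun h => not_mul_dvd P (N.index_mul_card ▸ Nat.mul_dvd_mul h hN)

include D in
theorem Data.not_card_dvd_card (hN : p ∣ Nat.card N) (P : Sylow p E) :
    ¬ Nat.card P ∣ Nat.card N :=
  fun h => not_card_dvd_index hN P (h.trans D.dvd_index)

include D in
theorem Data.mul_mem (hN : p ∣ Nat.card N) (P : Sylow p E) {x₀ : E} (hx : x₀ ∈ P)
    (ho : orderOf x₀ = Nat.card P) (hx₀ : x₀ ∉ N) {G : Subgroup E} (hG : N ≤ G) (hxG : x₀ ∈ G)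
    (hc : ¬ p ∣ Nat.card (commutator G)) (x y : G) (hx' : x.1 ∉ N) (hy' : y.1 ∉ N) :
    x.1 * y.1 ∈ N := by
  by_contra hxy
  obtain ⟨c₀, h⟩ := D.pow_eq hG (Abelianization.of (G := G))
  have h1 : c₀ = 1 := by
    have := h (x * y) hxy
    rw [map_mul, mul_pow, h x hx', h y hy'] at this
    exact mul_eq_left.1 this
  have h2 := h ⟨x₀, hxG⟩ hx₀
  rw [h1, ← map_pow, ← MonoidHom.mem_ker, Abelianization.ker_of] at h2
  have h3 : x₀ ^ N.index ≠ 1 := fun e =>
    not_card_dvd_index hN P (ho ▸ orderOf_dvd_of_pow_eq_one e)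
  have h4 : p ∣ orderOf (x₀ ^ N.index) := by
    have := P.2.dvd_orderOf (g := ⟨x₀ ^ N.index, P.1.pow_mem hx _⟩)
      (fun e => h3 (congrArg Subtype.val e))
    rwa [Subgroup.orderOf_mk] at this
  refine hc (h4.trans ?_)
  have := Subgroup.orderOf_dvd_natCard _ h2
  rwa [← Subgroup.orderOf_coe] at this

include D in
theorem Data.cyclic (hN : p ∣ Nat.card N) (P : Sylow p E)
    (hc : IsCyclic P) : Nonempty (E ≃* Multiplicative (ZMod 4)) := by
  obtain ⟨⟨x₀, hx⟩, hg⟩ := IsCyclic.exists_generator (α := P)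
  have ho : orderOf x₀ = Nat.card P := by
    rw [← orderOf_eq_card_of_forall_mem_zpowers hg, Subgroup.orderOf_mk]
  have hx₀ : x₀ ∉ N := fun h =>
    D.not_card_dvd_card hN P (ho ▸ Subgroup.orderOf_dvd_natCard _ h)
  have hle : ∀ G : Subgroup E, x₀ ∈ G → P.1 ≤ G := fun G hG y hy => by
    obtain ⟨k, hk⟩ := hg ⟨y, hy⟩
    have : y = x₀ ^ k := (congrArg Subtype.val hk).symm
    exact this ▸ G.zpow_mem hG k
  have hcy : ∀ (G : Subgroup E) (h : P.1 ≤ G), IsCyclic (P.subtype h) := fun G h =>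
    isCyclic_of_surjective _ (Subgroup.subgroupOfEquivOfLe h).symm.surjective
  have hsq : x₀ * x₀ ∈ N := by
    let G := (Subgroup.zpowers (x₀ : E ⧸ N)).comap (QuotientGroup.mk' N)
    have hxG : x₀ ∈ G := Subgroup.mem_zpowers _
    have hG : N ≤ G := fun n hn => by
      change (n : E ⧸ N) ∈ Subgroup.zpowers _
      rw [(QuotientGroup.eq_one_iff n).2 hn]
      exact Subgroup.one_mem _
    have := hcy G (hle G hxG)
    refine D.mul_mem hN P hx ho hx₀ hG hxG ?_ ⟨x₀, hxG⟩ ⟨x₀, hxG⟩ hx₀ hx₀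
    refine (Sylow.normalizer_le_centralizer_or_le_commutator (P.subtype (hle G hxG))).elim
      (fun h hd => (MonoidHom.not_dvd_card_ker_transferSylow _ h) (hd.trans ?_)) fun h => ?_
    · open scoped IsMulCommutative in
      exact Subgroup.card_dvd_of_le (Abelianization.commutator_subset_ker _)
    · exfalso
      have h2 : commutator G ≤ N.subgroupOf G := by
        rw [commutator_def, Subgroup.commutator_le]
        rintro ⟨a, i, ha⟩ - ⟨b, j, hb⟩ -
        rw [Subgroup.mem_subgroupOf, ← QuotientGroup.eq_one_iff]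
        change QuotientGroup.mk' N (a * b * a⁻¹ * b⁻¹) = 1
        simp only [map_mul, map_inv, ← ha, ← hb]
        group
      exact hx₀ (h2 (h (show (⟨x₀, hxG⟩ : G) ∈ P.subtype (hle G hxG) from hx)))
  have hp2 : p = 2 := by
    have h2 : orderOf (x₀ : E ⧸ N) = 2 := by
      refine orderOf_eq_prime ?_ fun e => hx₀ ((QuotientGroup.eq_one_iff _).1 e)
      rw [sq, ← QuotientGroup.mk_mul, QuotientGroup.eq_one_iff]
      exact hsq
    obtain ⟨k, hk⟩ := P.2.exists_card_eq
    have h3 : 2 ∣ p ^ k := by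
      rw [← h2, ← hk, ← ho]
      exact orderOf_map_dvd (QuotientGroup.mk' N) x₀
    exact ((Nat.prime_dvd_prime_iff_eq Nat.prime_two hp.out).1
      (Nat.prime_two.dvd_of_dvd_pow h3)).symm
  subst hp2
  have hi : N.index = 2 := by
    refine Subgroup.index_eq_two_iff_exists_notMem_and.2 ⟨x₀, hx₀, fun b => ?_⟩
    by_cases hb : b ∈ N
    · exact Or.inr hb
    have := hcy ⊤ le_top
    have hm : (Nat.card (⊤ : Subgroup E)).minFac = 2 := by
      rw [Nat.minFac_eq_two_iff]
      exact hN.trans (Subgroup.card_dvd_of_le le_top)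
    refine Or.inl (D.mul_mem hN P hx ho hx₀ le_top (Subgroup.mem_top _) (fun hd => ?_)
      ⟨b, trivial⟩ ⟨x₀, trivial⟩ hb hx₀)
    refine MonoidHom.not_dvd_card_ker_transferSylow _
      (IsCyclic.normalizer_le_centralizer hm this) (hd.trans ?_)
    open scoped IsMulCommutative in
    exact Subgroup.card_dvd_of_le (Abelianization.commutator_subset_ker _)
  have hw : Nat.card N = 2 := Nat.dvd_antisymm (hi ▸ D.dvd_index) hN
  have hE : Nat.card E = 4 := by rw [← N.index_mul_card, hi, hw]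
  have h4 : orderOf x₀ = Nat.card E := by
    rw [ho]
    refine Nat.dvd_antisymm P.1.card_subgroup_dvd_card ?_
    rw [hE]
    exact P.pow_dvd_card_of_pow_dvd_card (n := 2) (by rw [hE]; norm_num)
  have : IsCyclic E := isCyclic_of_orderOf_eq_card x₀ h4
  exact ⟨mulEquivOfCyclicCardEq (by simp [hE])⟩

end Pool.Agent.Lib.MP_2d211a_co.H31
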