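import Pool.Agent.Lib.MP_2d211a_co.H31Cyc

/-! The case of a dihedral Sylow subgroup. -/

namespace Pool.Agent.Lib.MP_2d211a_co.H31

open Finset DihedralGroup

variable {E : Type} [Group E] [Finite E] {N : Subgroup E} [N.Normal] (D : Data N)

/-- The coordinate on the dihedral group on which rotations act by translation. -/
def crd {m : ℕ} : DihedralGroup m → ZMod m
  | r i => i
  | sr i => -i

/-- Being a rotation. -/
def rot {m : ℕ} : DihedralGroup m → Bool
  | r _ => true
  | sr _ => false

theorem crd_eq {m : ℕ} {i : ZMod m} {a b c : DihedralGroup m} (hc : rot c = true)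
    (h : sr i * a = c * b) : crd c = -i - crd a - crd b ∧ rot b = !rot a := by
  rcases c with c | c
  · rcases a with a | a <;> rcases b with b | b <;>
      simp only [sr_mul_r, sr_mul_sr, r_mul_r, r_mul_sr, reduceCtorEq, r.injEq, sr.injEq] at h
    · exact ⟨by simp only [crd]; linear_combination h, rfl⟩
    · exact ⟨by simp only [crd]; linear_combination -h, rfl⟩
  · simp [rot] at hc

include D in
/-- The second identity. -/
theorem Data.dihedral {m : ℕ} {G : Subgroup E} (hG : N ≤ G) (Φ : G →* DihedralGroup m)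
    (hN : ∀ n : G, n.1 ∈ N → rot (Φ n) = true) (t : ZMod m → G) (ht : ∀ i, Φ (t i) = sr i)
    (ht2 : ∀ i, (t i).1 * (t i).1 ∈ N) : 2 * m ∣ N.index := by
  classical
  have := Fintype.ofFinite (E ⧸ N)
  have := Fintype.ofFinite N
  obtain ⟨ψ, hψ⟩ := exists_equi G Φ
  let g : N → ZMod m := fun n => crd (Φ ⟨n.1, hG n.2⟩)
  let f : E ⧸ N → ZMod m := fun q => crd (ψ (D.s q))
  let X := univ.filter fun q : E ⧸ N => rot (ψ (D.s q)) = true
  have htN : ∀ i, (t i).1 ∉ N := fun i h => by simpa [ht, rot] using hN _ h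
  have key : ∀ i q, g (D.c (t i) q) = -i - f q - f ((t i).1 • q) ∧
      rot (ψ (D.s ((t i).1 • q))) = !rot (ψ (D.s q)) := fun i q => by
    refine crd_eq (hN _ (D.c (t i) q).2) ?_
    rw [← ht, ← hψ, ← hψ, D.mul_s]
  have inv : ∀ i (q : E ⧸ N), (t i).1 • (t i).1 • q = q := fun i q => by
    rw [smul_smul]
    induction q using QuotientGroup.induction_on with | H z =>
    change ((_ * z : E) : E ⧸ N) = z
    rw [QuotientGroup.mk_mul, (QuotientGroup.eq_one_iff _).2 (ht2 i), one_mul]
  have half : ∀ {A : Type} [AddCommMonoid A] (i : ZMod m) (u : E ⧸ N → A),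
      ∑ q ∈ X, u ((t i).1 • q) = ∑ q ∈ Xᶜ, u q := by
    intro A _ i u
    refine sum_nbij' (fun q => (t i).1 • q) (fun q => (t i).1 • q) (fun q hq => ?_)
      (fun q hq => ?_) (fun q _ => inv i q) (fun q _ => inv i q) fun q _ => rfl
    · simp only [X, mem_filter, mem_univ, true_and, mem_compl] at hq ⊢
      simp [(key i q).2, hq]
    · simp only [X, mem_filter, mem_univ, true_and, mem_compl] at hq ⊢
      simp [(key i q).2, hq]
  have mul : ∀ i, 2 • ∑ q ∈ X, ({g (D.c (t i) q)} : Multiset (ZMod m)) =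
      ∑ n, D.l • ({g n} : Multiset (ZMod m)) := fun i => by
    have h1 := D.prod_c (A := Multiplicative (Multiset (ZMod m))) (htN i)
      fun n => Multiplicative.ofAdd {g n}
    have h2 := congrArg Multiplicative.toAdd h1
    simp only [toAdd_prod, toAdd_pow, toAdd_ofAdd] at h2
    rw [← h2, ← sum_add_sum_compl X, ← half i, two_nsmul]
    congr 1
    refine sum_congr rfl fun q _ => ?_
    rw [(key i q).1, (key i _).1, inv]
    congr 1
    ring
  have sm : ∀ i, (∑ q ∈ X, ({g (D.c (t i) q)} : Multiset (ZMod m))).sum =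
      -(X.card • i) - ∑ q, f q := fun i => by
    rw [Multiset.sum_sum]
    simp only [Multiset.sum_singleton, (key i _).1, sum_sub_distrib, half i f, sum_const]
    rw [← sum_add_sum_compl X f]
    simp only [smul_neg]
    ring
  have e : ∑ q ∈ X, ({g (D.c (t 0) q)} : Multiset (ZMod m)) =
      ∑ q ∈ X, ({g (D.c (t 1) q)} : Multiset (ZMod m)) := by
    have h := (mul 0).trans (mul 1).symm
    ext a
    have := congrArg (Multiset.count a) h
    simp only [Multiset.count_nsmul] at this
    omega
  have h1 := (sm 0).symm.trans ((congrArg Multiset.sum e).trans (sm 1))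
  have h2 : ((X.card : ℕ) : ZMod m) = 0 := by
    simp only [smul_zero, neg_zero, nsmul_eq_mul, mul_one] at h1
    linear_combination h1
  have h3 := half 0 fun _ => (1 : ℕ)
  simp only [sum_const, smul_eq_mul, mul_one] at h3
  have h4 : N.index = 2 * X.card := by
    rw [Subgroup.index, Nat.card_eq_fintype_card, ← card_add_card_compl X]
    omega
  rw [h4]
  exact Nat.mul_dvd_mul_left 2 ((ZMod.natCast_eq_zero_iff _ _).1 h2)

end Pool.Agent.Lib.MP_2d211a_co.H31
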