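import Pool.Agent.Lib.MP_2d211a_co.H31Dih

/-! The normal complement and the dihedral quotient. -/

namespace Pool.Agent.Lib.MP_2d211a_co.H31

open Finset DihedralGroup

variable {E : Type} [Group E] [Finite E] {N : Subgroup E} [N.Normal] (D : Data N)

/-- An automorphism of the four-group exchanging a reflection with the rotation. -/
def swp (i : ZMod 2) : DihedralGroup 2 ≃* DihedralGroup 2 where
  toEquiv := Equiv.swap (r 1) (sr i)
  map_mul' := by revert i; decide

include D in
theorem Data.exists_rot {m : ℕ} (hm : m ≠ 1) (P : Sylow 2 E) (e : P ≃* DihedralGroup m) :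
    ∃ e' : P ≃* DihedralGroup m, ∀ x : P, x.1 ∈ N → rot (e' x) = true := by
  by_contra hc
  push Not at hc
  obtain ⟨x, hx, hr⟩ := hc e
  obtain ⟨i, hi⟩ : ∃ i, e x = sr i := by
    rcases h : e x with i | i
    · simp [h, rot] at hr
    · exact ⟨i, rfl⟩
  let M := (N.subgroupOf P).map e.toMonoidHom
  have hM : M.Normal := Subgroup.Normal.map inferInstance _ e.surjective
  have hmem : ∀ y : P, y.1 ∈ N → e y ∈ M := fun y hy => ⟨y, hy, rfl⟩
  have hcP : Nat.card P = 2 * m := (Nat.card_congr e.toEquiv).trans nat_card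
  have hm0 : m ≠ 0 := by
    rintro rfl
    exact Nat.card_pos.ne' hcP
  have : NeZero m := ⟨hm0⟩
  have hMN : Nat.card M ∣ Nat.card N := by
    rw [Subgroup.card_map_of_injective e.injective,
      ← Subgroup.card_map_of_injective (P : Subgroup E).subtype_injective]
    exact Subgroup.card_dvd_of_le (by rintro _ ⟨y, hy, rfl⟩; exact hy)
  have hMM : Nat.card M * Nat.card M ∣ 2 * m := by
    obtain ⟨k, hk⟩ := ((P.2.to_subgroup (N.subgroupOf P)).map e.toMonoidHom).exists_card_eq
    rw [← hcP, show Nat.card M = 2 ^ k from hk, ← pow_add]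
    refine P.pow_dvd_card_of_pow_dvd_card ?_
    rw [pow_add, ← show Nat.card M = 2 ^ k from hk, ← N.index_mul_card]
    exact Nat.mul_dvd_mul (hMN.trans D.dvd_index) hMN
  have hs : sr i ∈ M := hi ▸ hmem x hx
  have h2 : r 2 ∈ M := by
    have := M.mul_mem (hM.conj_mem _ hs (r 1)) hs
    simp only [r_mul_sr, inv_r, sr_mul_r, sr_mul_sr] at this
    convert this using 2
    ring
  have hr2 : ∀ j : ZMod m, r j * r 1 ∈ M ∨ r j ∈ M := fun j => by
    obtain ⟨k, hk | hk⟩ := Nat.even_or_odd' j.val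
    · refine Or.inr ?_
      have := M.pow_mem h2 k
      rwa [r_pow, ← Nat.cast_ofNat, ← Nat.cast_mul, ← hk, ZMod.natCast_zmod_val] at this
    · refine Or.inl ?_
      have := M.pow_mem h2 (k + 1)
      rw [r_pow] at this
      rw [r_mul_r, ← ZMod.natCast_zmod_val j, hk]
      convert this using 2
      push_cast
      ring
  have hind : M.index ∣ 2 := by
    refine Subgroup.index_dvd_two_iff.2 ⟨r 1, fun b => ?_⟩
    rcases b with j | j
    · exact hr2 j
    · have hj : sr j = sr i * r (j - i) := by simp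
      rw [hj, mul_assoc]
      exact (hr2 (j - i)).imp (M.mul_mem hs) (M.mul_mem hs)
  have hc2 : 2 * m ∣ 2 * Nat.card M := by
    rw [← nat_card, ← M.index_mul_card]
    exact Nat.mul_dvd_mul_right hind _
  have hM2 : Nat.card M ∣ 2 := Nat.dvd_of_mul_dvd_mul_right Nat.card_pos (hMM.trans hc2)
  have hm2 : m ∣ 2 := (Nat.dvd_of_mul_dvd_mul_left two_pos hc2).trans hM2
  obtain rfl : m = 2 := ((Nat.dvd_prime Nat.prime_two).1 hm2).resolve_left hm
  obtain ⟨y, hy, hry⟩ := hc (e.trans (swp i))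
  have hall : ∀ (i : ZMod 2) (y : DihedralGroup 2), rot (swp i y) ≠ true →
      ∀ z, z = 1 ∨ z = sr i ∨ z = y ∨ z = y * sr i := by decide
  have : M = ⊤ := by
    refine (Subgroup.eq_top_iff' M).2 fun z => ?_
    rcases hall i (e y) hry z with rfl | rfl | rfl | rfl
    exacts [M.one_mem, hs, hmem y hy, M.mul_mem (hmem y hy) hs]
  rw [this, Subgroup.card_top, nat_card] at hM2
  omega

include D in
theorem Data.not_dihedral {m : ℕ} (hm : m ≠ 1) (hN : 2 ∣ Nat.card N) (P₀ : Sylow 2 E)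
    (e₀ : P₀ ≃* DihedralGroup m) : False := by
  obtain ⟨Q⟩ : Nonempty (Sylow 2 N) := inferInstance
  obtain ⟨P, hP⟩ := Q.exists_comap_subtype_eq
  obtain ⟨e, he⟩ := D.exists_rot hm P ((Sylow.equiv P P₀).trans e₀)
  have hcP : Nat.card P = 2 * m := (Nat.card_congr e.toEquiv).trans nat_card
  have hm0 : m ≠ 0 := by
    rintro rfl
    exact Nat.card_pos.ne' hcP
  have : NeZero m := ⟨hm0⟩
  have hQP : ∀ x : N, x ∈ Q ↔ x.1 ∈ P := fun x => by
    change x ∈ (Q : Subgroup N) ↔ _
    rw [← hP]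
    rfl
  have hQ : IsCyclic Q := by
    let j : Q →* P := (N.subtype.comp Q.1.subtype).codRestrict P.1 fun x => (hQP x).1 x.2
    refine isCyclic_of_injective (G' := Subgroup.zpowers (r 1 : DihedralGroup m))
      ((e.toMonoidHom.comp j).codRestrict _ fun x => ?_) fun a b h => ?_
    · have := he (j x) x.1.2
      change e (j x) ∈ _
      rcases h : e (j x) with i | i
      · exact ⟨(i.val : ℤ), by simp⟩
      · simp [h, rot] at this
    · have h1 : j a = j b := e.injective (congrArg Subtype.val h)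
      exact Subtype.ext (Subtype.ext (congrArg (fun z : P => z.1) h1))
  have hmin : (Nat.card N).minFac = 2 := (Nat.minFac_eq_two_iff _).2 hN
  let φ := MonoidHom.transferSylow Q (IsCyclic.normalizer_le_centralizer hmin hQ)
  have hodd : ¬ 2 ∣ Nat.card φ.ker := MonoidHom.not_dvd_card_ker_transferSylow _ _
  have hker : ∀ x : N, x ∈ φ.ker ↔ x ^ Nat.card φ.ker = 1 := fun x => by
    refine ⟨fun h => orderOf_dvd_iff_pow_eq_one.1 (Subgroup.orderOf_dvd_natCard _ h), fun h => ?_⟩
    by_contra hne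
    refine hodd ((Q.2.dvd_orderOf (g := φ x) hne).trans (orderOf_dvd_of_pow_eq_one ?_))
    rw [← map_pow, h, map_one]
  let K := φ.ker.map N.subtype
  have hK : K.Normal := ⟨by
    rintro _ ⟨x, hx, rfl⟩ g
    refine ⟨⟨g * x * g⁻¹, ‹N.Normal›.conj_mem _ x.2 g⟩, (hker _).2 (Subtype.ext ?_), rfl⟩
    have := congrArg Subtype.val ((hker x).1 hx)
    simp only [SubgroupClass.coe_pow, OneMemClass.coe_one] at this ⊢
    rw [conj_pow, this]
    simp⟩
  let π := QuotientGroup.mk' K
  let f : P →* E ⧸ K := π.comp P.1.subtype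
  have hf : Function.Injective f := by
    rw [injective_iff_map_eq_one]
    intro a ha
    obtain ⟨x, hx, hxa⟩ : a.1 ∈ K := (QuotientGroup.eq_one_iff _).1 ha
    by_contra hne
    refine hodd ((P.2.dvd_orderOf hne).trans ?_)
    rw [← Subgroup.orderOf_coe, ← hxa]
    exact (Subgroup.orderOf_coe x).symm ▸ Subgroup.orderOf_dvd_natCard _ hx
  let G := f.range.comap π
  have hG : N ≤ G := by
    have h1 : IsPGroup 2 (N.map π) := by
      rintro ⟨_, n, hn, rfl⟩
      obtain ⟨k, hk⟩ := Q.2 (φ ⟨n, hn⟩)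
      refine ⟨k, Subtype.ext ?_⟩
      change π n ^ 2 ^ k = 1
      rw [← map_pow]
      refine (QuotientGroup.eq_one_iff _).2 ⟨⟨n, hn⟩ ^ 2 ^ k, ?_, rfl⟩
      change φ _ = 1
      rw [map_pow, hk]
    have : (N.map π).Normal := Subgroup.Normal.map inferInstance _ (QuotientGroup.mk'_surjective K)
    intro n hn
    obtain ⟨x, hx, hxn⟩ := h1.le_sylow_of_normal
      (P.mapSurjective (QuotientGroup.mk'_surjective K)) ⟨n, hn, rfl⟩
    exact ⟨⟨x, hx⟩, hxn⟩
  let Φ : G →* DihedralGroup m := e.toMonoidHom.comp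
    ((MonoidHom.ofInjective hf).symm.toMonoidHom.comp
      ((π.comp G.subtype).codRestrict f.range fun x => x.2))
  have hΦ : ∀ (g : G) (x : P), f x = π g → Φ g = e x := fun g x h => by
    change e ((MonoidHom.ofInjective hf).symm ⟨π g, g.2⟩) = e x
    congr 1
    rw [MulEquiv.symm_apply_eq]
    exact Subtype.ext h.symm
  refine not_card_dvd_index hN P (hcP ▸ D.dihedral hG Φ (fun n hn => ?_)
    (fun i => ⟨e.symm (sr i), e.symm (sr i), rfl⟩) (fun i => ?_) fun i => ?_)
  · obtain ⟨x, hx⟩ := n.2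
    rw [hΦ n x hx]
    refine he x ?_
    obtain ⟨y, -, hy⟩ : x.1⁻¹ * n.1 ∈ K := QuotientGroup.eq.1 hx
    have : x.1 = n.1 * (y.1)⁻¹ := by rw [show y.1 = x.1⁻¹ * n.1 from hy]; group
    exact this ▸ N.mul_mem hn (N.inv_mem y.2)
  · rw [hΦ _ (e.symm (sr i)) rfl, e.apply_symm_apply]
  · change ((e.symm (sr i) * e.symm (sr i) : P) : E) ∈ N
    rw [← map_mul, sr_mul_self, map_one]
    exact N.one_mem

theorem main {R : Set E} {N : Subgroup E} (h : IsSemiregularRDS N R) {p : ℕ} (hp : p.Prime)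
    (hN : p ∣ Nat.card N) (P : Sylow p E)
    (hP : IsCyclic P ∨ ∃ m, Nonempty (P ≃* DihedralGroup m)) :
    Nonempty (E ≃* Multiplicative (ZMod 4)) := by
  have := h.1
  have := Fact.mk hp
  obtain ⟨D⟩ := exists_data h
  rcases hP with hc | ⟨m, ⟨e⟩⟩
  · exact D.cyclic hN P hc
  by_cases hm : m = 1
  · have : IsCyclic (DihedralGroup m) := isCyclic_iff.2 hm
    exact D.cyclic hN P (isCyclic_of_surjective e.symm e.symm.surjective)
  obtain rfl : p = 2 := by
    obtain ⟨k, hk⟩ := P.2.exists_card_eq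
    have h3 : 2 ∣ p ^ k := by
      rw [← hk, (Nat.card_congr e.toEquiv).trans nat_card]
      exact Dvd.intro _ rfl
    exact ((Nat.prime_dvd_prime_iff_eq Nat.prime_two hp).1
      (Nat.prime_two.dvd_of_dvd_pow h3)).symm
  exact (D.not_dihedral hm hN P e).elim

end Pool.Agent.Lib.MP_2d211a_co.H31
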