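import Pool.Agent.Lib.MP_2d211a_co.H31Cyc

/-! The power identity with a transfer to a central quotient. -/

namespace Pool.Agent.Lib.MP_2d211a_co.H31

open Finset

variable {E : Type} [Group E] [Finite E] {N : Subgroup E} [N.Normal] (D : Data N)

open scoped IsMulCommutative in
include D in
theorem Data.pow_eq' {B : Type} [Group B] (P : Subgroup E) (θ : P →* B)
    (hθ : ∀ x : P, x.1 ∈ N → θ x ∈ Subgroup.center B) :
    ∃ c₀ : B, ∀ x : P, x.1 ∉ N → θ x ^ ((P.subgroupOf N).index * N.index) = c₀ := by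
  classical
  have := Fintype.ofFinite (E ⧸ N)
  have := Fintype.ofFinite N
  have := Fintype.ofFinite (N ⧸ P.subgroupOf N)
  have hm : ∀ u : N, (u⁻¹ * (u : N ⧸ P.subgroupOf N).out).1 ∈ P := fun u =>
    Subgroup.mem_subgroupOf.1 (QuotientGroup.eq.1 (QuotientGroup.out_eq' _).symm)
  let ζ : N → Subgroup.center B := fun u => 
    ⟨θ ⟨_, hm u⟩, hθ _ (u⁻¹ * (u : N ⧸ P.subgroupOf N).out).2⟩
  have hζ : ∀ u, ζ u ^ N.index = 1 := fun u => by
    obtain ⟨k, hk⟩ := D.dvd_index
    refine Subtype.ext ?_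
    change θ _ ^ N.index = 1
    rw [← map_pow, ← map_one θ]
    refine congrArg θ (Subtype.ext ?_)
    change ((u⁻¹ * (u : N ⧸ P.subgroupOf N).out) ^ N.index).1 = 1
    rw [hk, pow_mul, pow_card_eq_one', one_pow]
    rfl
  let V : N → Subgroup.center B := fun n => ∏ i : N ⧸ P.subgroupOf N, ζ (n⁻¹ * i.out)
  refine ⟨(∏ n, V n ^ D.l : Subgroup.center B), fun x hx => ?_⟩
  let A := Subgroup.closure ({θ x} ∪ (Subgroup.center B : Set B))
  have : IsMulCommutative A := by
    refine Subgroup.isMulCommutative_closure ?_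
    rintro a (rfl | ha) b (rfl | hb)
    · rfl
    · exact Subgroup.mem_center_iff.1 hb _
    · exact (Subgroup.mem_center_iff.1 ha _).symm
    · exact Subgroup.mem_center_iff.1 hb _
  have hA : Subgroup.center B ≤ A := fun b hb => Subgroup.subset_closure (Or.inr hb)
  let j : Subgroup.center B →* A := Subgroup.inclusion hA
  let a : A := ⟨θ x, Subgroup.subset_closure (Or.inl rfl)⟩
  obtain ⟨ψ₀, hψ₀⟩ := exists_equi P θ
  obtain ⟨ψ₁, hψ₁⟩ := exists_equi A (MonoidHom.id A)
  have hψ : ∀ (y : P) (b : A), θ y = b → ∀ e, ψ₁ (ψ₀ (y * e)) = b * ψ₁ (ψ₀ e) := fun y b h e => by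
    rw [hψ₀, h, hψ₁]
    rfl
  let Ψ : E → A := fun e => ∏ i : N ⧸ P.subgroupOf N, ψ₁ (ψ₀ ((i.out).1⁻¹ * e))
  have gen : ∀ u : N ⧸ P.subgroupOf N → N,
      (Function.Injective fun i => (u i : N ⧸ P.subgroupOf N)) → ∀ e,
      ∏ i, ψ₁ (ψ₀ ((u i).1⁻¹ * e)) = j (∏ i, ζ (u i)) * Ψ e := fun u hu e => by
    simp only [Ψ]
    rw [map_prod, ← (Finite.injective_iff_bijective.1 hu).prod_comp
      fun i => ψ₁ (ψ₀ ((i.out).1⁻¹ * e)), ← prod_mul_distrib]
    refine prod_congr rfl fun i _ => ?_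
    rw [← hψ ⟨_, hm (u i)⟩ (j (ζ (u i))) rfl]
    simp [mul_assoc]
  have h1 : ∀ (n : N) e, Ψ (n * e) = j (V n) * Ψ e := fun n e => by
    rw [← gen _ fun i i' h => ?_]
    · exact prod_congr rfl fun i _ => by simp [mul_assoc]
    · have := QuotientGroup.eq.1 h
      rw [← QuotientGroup.out_eq' i, ← QuotientGroup.out_eq' i', QuotientGroup.eq]
      simpa [mul_assoc] using this
  let u : N ⧸ P.subgroupOf N → N := fun i =>
    ⟨x.1⁻¹ * i.out * x.1, ‹N.Normal›.conj_mem' _ i.out.2 _⟩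
  have h2 : ∀ e, Ψ (x * e) = (a ^ (P.subgroupOf N).index * j (∏ i, ζ (u i))) * Ψ e := fun e => by
    rw [mul_assoc, ← gen u fun i i' h => ?_]
    · rw [Subgroup.index, Nat.card_eq_fintype_card, ← card_univ, ← prod_const, ← prod_mul_distrib]
      refine prod_congr rfl fun i _ => ?_
      rw [← hψ x a rfl]
      simp [u, mul_assoc]
    · have h3 := Subgroup.mem_subgroupOf.1 (QuotientGroup.eq.1 h)
      rw [← QuotientGroup.out_eq' i, ← QuotientGroup.out_eq' i', QuotientGroup.eq,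
        Subgroup.mem_subgroupOf]
      have := P.mul_mem (P.mul_mem x.2 h3) (P.inv_mem x.2)
      simpa [u, mul_assoc] using this
  have h3 := prod_congr (s₁ := univ) rfl fun q _ =>
    (h2 (D.s q)).symm.trans ((congrArg Ψ (D.mul_s x q)).trans (h1 _ _))
  have h4 : ∏ q : E ⧸ N, Ψ (D.s (x.1 • q)) = ∏ q, Ψ (D.s q) :=
    Equiv.prod_comp (MulAction.toPerm x.1) fun q => Ψ (D.s q)
  rw [prod_mul_distrib, prod_const, prod_mul_distrib, card_univ, h4, ← Nat.card_eq_fintype_card,
    ← Subgroup.index, D.prod_c hx fun n => j (V n), mul_pow, ← map_pow, ← prod_pow,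
    prod_eq_one fun i _ => hζ _, map_one, mul_one, ← pow_mul] at h3
  have h5 := mul_right_cancel h3
  simp only [← map_pow, ← map_prod] at h5
  exact congrArg Subtype.val h5

theorem pow_four {B : Type} [Group B] {a b : B} (ha : a * a ∈ Subgroup.center B)
    (hb : b * b ∈ Subgroup.center B) (hab : a * b * (a * b) ∈ Subgroup.center B) (k : ℕ) :
    (a * b) ^ (4 * k) = a ^ (4 * k) * b ^ (4 * k) := by
  have c1 := Subgroup.mem_center_iff.1 ha
  have c2 := Subgroup.mem_center_iff.1 hb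
  have c3 := Subgroup.mem_center_iff.1 hab
  have h1 : a * b * (a * b) * (a * b * (a * b)) = a * a * (a * a) * (b * b * (b * b)) := by
    have e1 : b * a * (b * a) = a * b * (a * b) := by
      have := c3 a
      apply mul_left_cancel (a := a)
      rw [this]
      simp only [mul_assoc]
    calc a * b * (a * b) * (a * b * (a * b)) = a * b * (a * b) * (b * a * (b * a)) := by rw [e1]
      _ = a * b * (a * (b * b)) * (a * (b * a)) := by simp only [mul_assoc]
      _ = a * (b * (b * b)) * (a * a) * (b * a) := by rw [c2 a]; simp only [mul_assoc]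
      _ = a * (a * a) * (b * b * (b * b) * a) := by
        rw [mul_assoc a (b * (b * b)), c1]; simp only [mul_assoc]
      _ = a * a * (a * a) * (b * b * (b * b)) := by
        rw [mul_assoc (b * b), ← c2 a, ← mul_assoc (b * b), ← c2 a]; simp only [mul_assoc]
  have h2 : ∀ c : B, c ^ (4 * k) = (c * c * (c * c)) ^ k := fun c => by
    rw [pow_mul]
    congr 1
    simp only [pow_succ, pow_zero, one_mul, mul_assoc]
  rw [h2, h2, h2, h1]
  refine Commute.mul_pow ?_ k
  exact Subgroup.mem_center_iff.1 (Subgroup.mul_mem _ hb hb) _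

include D in
theorem Data.sylow_pow {p : ℕ} [hp : Fact p.Prime] (P : Sylow p E) (x : P)
    (hx : x ^ N.index ∉ ⁅N.subgroupOf P, (⊤ : Subgroup P)⁆) :
    Nonempty (E ≃* Multiplicative (ZMod 4)) := by
  let C := ⁅N.subgroupOf P, (⊤ : Subgroup P)⁆
  let θ := QuotientGroup.mk' C
  have hθ : ∀ y : P, y.1 ∈ N → θ y ∈ Subgroup.center (P ⧸ C) := fun y hy => by
    rw [Subgroup.mem_center_iff]
    intro g
    obtain ⟨g, rfl⟩ := QuotientGroup.mk'_surjective C g
    symm
    rw [← commutatorElement_eq_one_iff_mul_comm, ← map_commutatorElement]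
    exact (QuotientGroup.eq_one_iff _).2 (Subgroup.commutator_mem_commutator hy trivial)
  obtain ⟨c₀, h⟩ := D.pow_eq' P θ hθ
  have hx1 : x ^ N.index ≠ 1 := fun e => hx (e ▸ C.one_mem)
  have hxN : x.1 ∉ N := fun hn => hx1 (Subtype.ext (orderOf_dvd_iff_pow_eq_one.1
    ((Subgroup.orderOf_dvd_natCard _ hn).trans D.dvd_index)))
  have hr : (N.subgroupOf P).index ∣ N.index := N.relIndex_dvd_index_of_normal P
  have hq : Nat.card (N.subgroupOf P) = Nat.card (P.1.subgroupOf N) := by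
    rw [← Subgroup.card_map_of_injective (P : Subgroup E).subtype_injective,
      ← Subgroup.card_map_of_injective N.subtype_injective, Subgroup.subgroupOf_map_subtype,
      Subgroup.subgroupOf_map_subtype, inf_comm]
  have hm : ¬ p ∣ (P.1.subgroupOf N).index := fun hd => by
    refine not_mul_dvd P ?_
    rw [← N.index_mul_card, ← (N.subgroupOf P).index_mul_card, ← (P.1.subgroupOf N).index_mul_card,
      hq, mul_assoc, mul_comm _ p]
    exact Nat.mul_dvd_mul hr (Nat.mul_dvd_mul_right hd _)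
  have hc : c₀ ≠ 1 := fun e => by
    have h1 := h x hxN
    rw [e, mul_comm, pow_mul] at h1
    have h2 : θ x ^ N.index ≠ 1 := fun e' =>
      hx ((QuotientGroup.eq_one_iff (N := C) (x ^ N.index)).1 e')
    exact hm (((P.2.to_quotient C).dvd_orderOf h2).trans (orderOf_dvd_of_pow_eq_one h1))
  have hsq : ∀ y : P, y.1 ∉ N → (y * y).1 ∈ N := fun y hy => by
    by_contra hyy
    have := h _ hyy
    rw [map_mul, (Commute.refl _).mul_pow, h y hy] at this
    exact hc (mul_eq_left.1 this)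
  have h2 : orderOf (x.1 : E ⧸ N) = 2 := by
    refine orderOf_eq_prime ?_ fun e => hxN ((QuotientGroup.eq_one_iff _).1 e)
    rw [sq, ← QuotientGroup.mk_mul, QuotientGroup.eq_one_iff]
    exact hsq x hxN
  have h2v : 2 ∣ N.index := h2 ▸ orderOf_dvd_natCard _
  obtain rfl : p = 2 := by
    obtain ⟨k, hk⟩ := P.2.exists_card_eq
    have h3 : 2 ∣ p ^ k := by
      rw [← h2, ← hk]
      exact (orderOf_map_dvd ((QuotientGroup.mk' N).comp P.1.subtype) x).trans
        (orderOf_dvd_natCard x)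
    exact ((Nat.prime_dvd_prime_iff_eq Nat.prime_two hp.out).1
      (Nat.prime_two.dvd_of_dvd_pow h3)).symm
  have hi : (N.subgroupOf P).index ∣ 2 := by
    by_contra hi
    have h4 : 4 ∣ N.index := by
      obtain ⟨k, hk⟩ := P.2.index (N.subgroupOf P)
      refine Dvd.dvd.trans ?_ hr
      rw [hk] at hi ⊢
      refine pow_dvd_pow 2 (m := 2) ?_
      by_contra hk2
      exact hi (by simpa using pow_dvd_pow 2 (show k ≤ 1 by omega))
    obtain ⟨k, hk⟩ := h4.trans (Dvd.intro_left (P.1.subgroupOf N).index rfl)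
    refine hi (Subgroup.index_dvd_two_iff.2 ⟨x, fun b => ?_⟩)
    by_contra hb
    rw [not_or] at hb
    have := pow_four (a := θ b) (b := θ x) (map_mul θ _ _ ▸ hθ _ (hsq b hb.2))
      (map_mul θ _ _ ▸ hθ _ (hsq x hxN))
      (by rw [← map_mul, ← map_mul]; exact hθ _ (hsq _ hb.1)) k
    rw [← hk, ← map_mul, h (b * x) hb.1, h b hb.2, h _ hxN] at this
    exact hc (left_eq_mul.1 this)
  have hMN : Nat.card (N.subgroupOf P) ∣ Nat.card N := hq ▸ Subgroup.card_subgroup_dvd_card _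
  have hMM : Nat.card (N.subgroupOf P) * Nat.card (N.subgroupOf P) ∣ Nat.card P := by
    obtain ⟨k, hk⟩ := (P.2.to_subgroup (N.subgroupOf P)).exists_card_eq
    rw [hk, ← pow_add]
    refine P.pow_dvd_card_of_pow_dvd_card ?_
    rw [pow_add, ← hk, ← N.index_mul_card]
    exact Nat.mul_dvd_mul (hMN.trans D.dvd_index) hMN
  have hP2 : Nat.card P ∣ 2 * Nat.card (N.subgroupOf P) :=
    (N.subgroupOf P).index_mul_card ▸ Nat.mul_dvd_mul_right hi _
  have hM2 : Nat.card (N.subgroupOf P) ∣ 2 :=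
    Nat.dvd_of_mul_dvd_mul_right Nat.card_pos (hMM.trans hP2)
  have hP4 : Nat.card P ∣ 2 ^ 2 := hP2.trans (Nat.mul_dvd_mul_left 2 hM2)
  have hx2 : x ^ 2 ≠ 1 := fun e => hx1 (by
    obtain ⟨k, hk⟩ := h2v
    rw [hk, pow_mul, e, one_pow])
  have hx4 : orderOf x = 2 ^ (1 + 1) :=
    orderOf_eq_prime_pow (by simpa using hx2)
      (orderOf_dvd_iff_pow_eq_one.1 ((orderOf_dvd_natCard x).trans hP4))
  refine D.cyclic ?_ P (isCyclic_of_orderOf_eq_card x
    (Nat.dvd_antisymm (orderOf_dvd_natCard x) (hx4 ▸ hP4)))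
  refine ((P.2.dvd_orderOf hx2).trans ?_).trans hMN
  exact Subgroup.orderOf_dvd_natCard _ (sq x ▸ hsq x hxN)

end Pool.Agent.Lib.MP_2d211a_co.H31
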