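import Pool.Agent.Lib.MP_2d211a_co.Defs

/-! Product identities for semiregular relative difference sets in arbitrary finite groups. -/

namespace Pool.Agent.Lib.MP_2d211a_co.H31

open Finset

variable {E : Type} [Group E]

/-- A function that transforms under a subgroup by a given homomorphism. -/
theorem exists_equi {A : Type} [Group A] (G : Subgroup E) (φ : G →* A) :
    ∃ ψ : E → A, ∀ (g : G) e, ψ (g * e) = φ g * ψ e := by
  let t : E → E := fun e => (Quotient.mk (QuotientGroup.rightRel G) e).out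
  have ht : ∀ e, e * (t e)⁻¹ ∈ G := fun e =>
    QuotientGroup.rightRel_apply.1 (Quotient.mk_out (s := QuotientGroup.rightRel G) e)
  refine ⟨fun e => φ ⟨e * (t e)⁻¹, ht e⟩, fun g e => ?_⟩
  have : t (g * e) = t e := by
    refine congrArg Quotient.out (Quotient.sound ?_)
    exact QuotientGroup.rightRel_apply.2 (by simp)
  rw [← map_mul]
  exact congrArg φ (Subtype.ext (by simp [this, mul_assoc]))

/-- The data of a semiregular relative difference set as a section of the quotient map. -/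
structure Data (N : Subgroup E) [N.Normal] where
  s : E ⧸ N → E
  hs : ∀ q, (s q : E ⧸ N) = q
  l : ℕ
  hl : l * Nat.card N = N.index
  unif : ∀ x, x ∉ N → ∀ n ∈ N, Nat.card {q : E ⧸ N // x * s q * (s (x • q))⁻¹ = n} = l

theorem exists_data [Finite E] {N : Subgroup E} [N.Normal] {R : Set E}
    (h : IsSemiregularRDS N R) : Nonempty (Data N) := by
  obtain ⟨-, h1, h2, h3, h4, h5⟩ := h
  have hR : R.ncard = N.index := by
    have := N.index_mul_card
    exact Nat.eq_of_mul_eq_mul_right (by omega) (h3.trans this.symm)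
  have inj : Function.Injective fun r : R => (r.1 : E ⧸ N) := by
    intro a b hab
    by_contra hne
    have hm : a.1 * b.1⁻¹ ∈ N := by
      rw [← QuotientGroup.eq_one_iff, QuotientGroup.mk_mul, QuotientGroup.mk_inv, mul_inv_eq_one]
      exact hab
    exact h5 _ hm (fun e => hne (Subtype.ext (mul_inv_eq_one.1 e))) _ a.2 _ b.2 rfl
  have bij : Function.Bijective fun r : R => (r.1 : E ⧸ N) :=
    (Nat.bijective_iff_injective_and_card _).2 ⟨inj, hR⟩
  let e := Equiv.ofBijective _ bij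
  have hs : ∀ q, ((e.symm q).1 : E ⧸ N) = q := fun q => e.apply_symm_apply q
  obtain ⟨x₀, hx₀⟩ : ∃ x, x ∉ N := by
    by_contra hc
    push Not at hc
    rw [(Subgroup.eq_top_iff' N).2 hc, Subgroup.card_top] at h2
    exact lt_irrefl _ h2
  refine ⟨⟨fun q => (e.symm q).1, hs, _, (h4 x₀ hx₀).trans hR, fun x hx n hn => ?_⟩⟩
  have hx' : n⁻¹ * x ∉ N := fun hm => hx (by simpa using N.mul_mem hn hm)
  refine Nat.eq_of_mul_eq_mul_right (m := Nat.card N) (by omega) ?_
  rw [h4 x₀ hx₀, ← h4 _ hx']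
  congr 1
  refine Nat.card_congr (Equiv.ofBijective
    (fun q => ⟨((e.symm (x • q.1)).1, (e.symm q.1).1), (e.symm _).2, (e.symm _).2, ?_⟩) ⟨?_, ?_⟩)
  · have h := q.2
    change ((e.symm (x • q.1)).1 : E) * ((e.symm q.1).1)⁻¹ = n⁻¹ * x
    generalize ((e.symm (x • q.1)).1 : E) = a at h ⊢
    generalize ((e.symm q.1).1 : E) = b at h ⊢
    rw [← h]; group
  · intro a b hab
    have : (e.symm a.1).1 = (e.symm b.1).1 := congrArg (fun z => z.1.2) hab
    exact Subtype.ext (e.symm.injective (Subtype.ext this))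
  · rintro ⟨⟨a, b⟩, ha, hb, hab⟩
    have e1 : e.symm (b : E ⧸ N) = ⟨b, hb⟩ := e.symm_apply_apply ⟨b, hb⟩
    have e2 : e.symm (x • (b : E ⧸ N)) = ⟨a, ha⟩ := by
      rw [Equiv.symm_apply_eq]
      change ((x * b : E) : E ⧸ N) = a
      have : x * b = n * a := by
        rw [mul_inv_eq_iff_eq_mul.1 (show a * b⁻¹ = n⁻¹ * x from hab)]; group
      rw [this, QuotientGroup.mk_mul, (QuotientGroup.eq_one_iff n).2 hn, one_mul]
    refine ⟨⟨(b : E ⧸ N), ?_⟩, Subtype.ext (Prod.ext ?_ ?_)⟩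
    · rw [e1, e2]
      have : a = n⁻¹ * x * b := by rw [← (show a * b⁻¹ = n⁻¹ * x from hab)]; group
      simp only [this]; group
    · simp only [e2]
    · simp only [e1]

variable {N : Subgroup E} [N.Normal] (D : Data N)

theorem Data.mem (x : E) (q : E ⧸ N) : x * D.s q * (D.s (x • q))⁻¹ ∈ N := by
  rw [← QuotientGroup.eq_one_iff, QuotientGroup.mk_mul, QuotientGroup.mk_inv, mul_inv_eq_one, D.hs]
  conv_rhs => rw [← D.hs q]
  rfl

/-- The factor in `N` of the left translation by `x`. -/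
def Data.c (x : E) (q : E ⧸ N) : N := ⟨_, D.mem x q⟩

theorem Data.mul_s (x : E) (q : E ⧸ N) : x * D.s q = D.c x q * D.s (x • q) := by
  simp [Data.c]

theorem Data.fib [Fintype (E ⧸ N)] [DecidableEq N] {x : E} (hx : x ∉ N) (n : N) :
    (univ.filter fun q => D.c x q = n).card = D.l := by
  classical
  rw [← D.unif x hx n n.2, Nat.card_eq_fintype_card, Fintype.card_subtype]
  congr 1
  ext q
  simp [Data.c, Subtype.ext_iff]

theorem Data.prod_c {A : Type} [CommMonoid A] [Fintype (E ⧸ N)] [Fintype N] {x : E} (hx : x ∉ N)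
    (f : N → A) : ∏ q, f (D.c x q) = ∏ n, f n ^ D.l := by
  classical
  rw [← prod_fiberwise univ (D.c x)]
  refine prod_congr rfl fun n _ => ?_
  rw [prod_congr rfl fun q hq => congrArg f (mem_filter.1 hq).2, prod_const, D.fib hx]

include D in
/-- The first identity. -/
theorem Data.pow_eq {A : Type} [CommGroup A] [Finite E] {G : Subgroup E} (hG : N ≤ G)
    (φ : G →* A) : ∃ c₀ : A, ∀ x : G, x.1 ∉ N → φ x ^ N.index = c₀ := by
  classical
  have := Fintype.ofFinite (E ⧸ N)
  have := Fintype.ofFinite N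
  obtain ⟨ψ, hψ⟩ := exists_equi G φ
  refine ⟨∏ n : N, φ ⟨n.1, hG n.2⟩ ^ D.l, fun x hx => ?_⟩
  rw [← D.prod_c hx fun n => φ ⟨n.1, hG n.2⟩]
  have h1 : ∀ q, φ x * ψ (D.s q) = φ ⟨(D.c x q).1, hG (D.c x q).2⟩ * ψ (D.s (x.1 • q)) :=
    fun q => by rw [← hψ, ← hψ, D.mul_s]
  have h2 := prod_congr (s₁ := univ) rfl fun q _ => h1 q
  have h3 : ∏ q : E ⧸ N, ψ (D.s (x.1 • q)) = ∏ q, ψ (D.s q) :=
    Equiv.prod_comp (MulAction.toPerm x.1) fun q => ψ (D.s q)
  rw [prod_mul_distrib, prod_mul_distrib, prod_const, card_univ, h3] at h2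
  rw [Subgroup.index, Nat.card_eq_fintype_card]
  exact mul_right_cancel h2

end Pool.Agent.Lib.MP_2d211a_co.H31
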