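import Pool.Agent.Lib.MP_2d211a_co.H42Str

/-! Large `p`-groups of bounded exponent. -/

namespace Pool.Agent.Lib.MP_2d211a_co.H62

open Subgroup
open scoped commutatorElement

set_option linter.unusedSectionVars false

universe u

section

variable {p : ℕ} [hp : Fact p.Prime]

theorem exp_sec {E Q : Type*} [Group E] [Group Q] {K : Subgroup E} {f : K →* Q}
    (hf : Function.Surjective f) {n : ℕ} (he : ∀ x : E, x ^ n = 1) (x : Q) : x ^ n = 1 := by
  obtain ⟨x, rfl⟩ := hf x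
  rw [← map_pow, ← f.map_one]
  exact congrArg f (Subtype.ext (he x))

theorem ker_le {E Q : Type*} [Group E] [Group Q] {K A : Subgroup E} {f : K →* Q} {w z : E}
    {i : ZMod p} (hk : ∀ g : K, f g = 1 ↔ (g : E) ∈ zpowers (w * pw z i)) (hw : w ∈ A)
    (hz : z ∈ A) : f.ker ≤ A.subgroupOf K := fun g hg =>
  zpowers_le.2 (A.mul_mem hw (A.pow_mem hz _)) ((hk g).1 hg)

theorem idx_sec {E Q : Type*} [Group E] [Finite E] [Group Q] {K A : Subgroup E} {f : K →* Q}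
    (hf : Function.Surjective f) (hk : f.ker ≤ A.subgroupOf K) (hA : A ≤ K)
    (hK : Nat.card E = p * Nat.card K) : p * ((A.subgroupOf K).map f).index = A.index := by
  have e := K.index_mul_card
  rw [hK] at e
  rw [index_map_eq _ hf hk, ← relIndex_mul_index hA, Nat.eq_of_mul_eq_mul_right Nat.card_pos e,
    mul_comm]
  rfl

theorem card_sec {E Q : Type*} [Group E] [Finite E] [Group Q] [Finite Q] {K A : Subgroup E}
    {f : K →* Q} (hf : Function.Surjective f) (hk : f.ker ≤ A.subgroupOf K)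
    (hQ : Nat.card K = p * Nat.card Q) :
    p * Nat.card ((A.subgroupOf K).map f) ≤ Nat.card A := by
  have e1 := ((A.subgroupOf K).map f).index_mul_card
  have e2 := (A.subgroupOf K).index_mul_card
  rw [index_map_eq _ hf hk] at e1
  rw [hQ, ← e1, mul_left_comm] at e2
  rw [← Nat.eq_of_mul_eq_mul_left (Nat.pos_of_ne_zero index_ne_zero_of_finite) e2]
  exact Nat.card_le_card_of_injective (fun x : A.subgroupOf K => (⟨x.1, x.2⟩ : A))
    fun a b h => Subtype.ext (Subtype.ext (congrArg (fun y : A => (y : E)) h))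

theorem sq_step {c a b m n : ℕ} (h : c * a ^ 2 ≤ n) (hb : p * b ≤ a) (hn : n = p * (p * m)) :
    c * b ^ 2 ≤ m := by
  refine Nat.le_of_mul_le_mul_left (c := p * p) ?_ (Nat.mul_pos hp.out.pos hp.out.pos)
  calc p * p * (c * b ^ 2) = c * (p * b) ^ 2 := by ring
    _ ≤ c * a ^ 2 := Nat.mul_le_mul_left c (Nat.pow_le_pow_left hb 2)
    _ ≤ p * p * m := by rw [mul_assoc, ← hn]; exact h

theorem lt_step {m n : ℕ} (hm : 0 < m) (hn : n = p * (p * m)) : m < n := by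
  have := hp.out.two_le
  rw [hn]
  nlinarith [Nat.mul_le_mul this this]

theorem big {E : Type*} [Finite E] {c d a : ℕ} (ha : a ≠ 0) (h : p ^ c * a ^ 2 ≤ Nat.card E)
    (hd : d < c) : p ^ d < Nat.card E :=
  lt_of_lt_of_le (Nat.pow_lt_pow_right hp.out.one_lt hd)
    ((Nat.le_mul_of_pos_right _ (by positivity)).trans h)

theorem desc (e N : ℕ) : ∀ (E : Type u) [Group E] [Finite E], Nat.card E = N → IsPGroup p E →
    (∀ x : E, x ^ p ^ e = 1) → ∀ (g : E) (A : Subgroup E), Cen p (g ^ p) → g ∈ A →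
    (∀ x ∈ A, x ^ p ∈ center E ∧ (x ^ p) ^ p = 1 ∧ ∀ y ∈ A, ⁅x, y⁆ ∈ center E) →
    p ^ (e * e + e + 5) * A.index ^ 2 ≤ Nat.card E → ∃ m X, Good (g ^ p) m X := by
  induction N using Nat.strong_induction_on with
  | _ N ih =>
  intro E _ _ hN hP he g A hz hg hA hc
  obtain ⟨n, hE⟩ := hP.exists_card_eq
  rcases exists_second_cen hP he (big index_ne_zero_of_finite hc (by omega)) hz with
    h | ⟨w, w1, w2, w3⟩
  · exact h
  have hw : Cen p w := ⟨mem_center_iff.1 w1, fun e => w3 (e ▸ one_mem _), w2⟩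
  have := hw.normal
  have hA' : ∀ x ∈ A ⊔ zpowers w, x ^ p ∈ center E ∧ (x ^ p) ^ p = 1 ∧
      ∀ y ∈ A ⊔ zpowers w, ⁅x, y⁆ ∈ center E := fun x hx => by
    obtain ⟨a, ha, c, hc, rfl⟩ := mem_sup_of_normal_right.1 hx
    have c1 := zpowers_le.2 w1 hc
    have c2 : (a * c) ^ p = a ^ p := by
      obtain ⟨j, rfl⟩ := exists_pw w2 hc
      rw [Commute.mul_pow (mem_center_iff.1 c1 a), pw_pow_p w2, mul_one]
    refine ⟨c2 ▸ (hA a ha).1, c2 ▸ (hA a ha).2.1, fun y hy => ?_⟩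
    obtain ⟨b, hb, d, hd, rfl⟩ := mem_sup_of_normal_right.1 hy
    rw [comm_cen (zpowers_le.2 w1 hd), ← commutatorElement_inv, comm_cen c1]
    exact inv_mem ((hA b hb).2.2 a ha)
  by_cases ht : A ⊔ zpowers w = ⊤
  · rw [ht] at hA'
    have := big (d := 4) index_ne_zero_of_finite hc (by omega)
    rw [hE, Nat.pow_lt_pow_iff_right hp.out.one_lt] at this
    exact good_frat hE this (fun x => (hA' x trivial).2.1) (fun x => (hA' x trivial).1)
      (fun x y => (hA' x trivial).2.2 y trivial) hz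
  obtain ⟨K, k1, -, k2⟩ := exists_max hE ht
  have hgA : g ∈ A ⊔ zpowers w := mem_sup_left hg
  have hwA : w ∈ A ⊔ zpowers w := mem_sup_right (mem_zpowers w)
  refine rec_cen hP hz w1 w2 w3 k2 (k1 hwA) (K.pow_mem (k1 hgA) p) fun Q _ _ f i hf hk hQ hz' => ?_
  have e1 : f ⟨g ^ p, K.pow_mem (k1 hgA) p⟩ = f ⟨g, k1 hgA⟩ ^ p := map_pow f ⟨g, k1 hgA⟩ p
  rw [e1] at hz' ⊢
  have e2 := k2.trans (congrArg (p * ·) hQ)
  refine ih _ (hN ▸ lt_step Nat.card_pos e2) Q rfl ((hP.to_subgroup K).of_surjective f hf)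
    (exp_sec hf he) _ (((A ⊔ zpowers w).subgroupOf K).map f) hz' (mem_map_of_mem f hgA) ?_
    (sq_step hc ((idx_sec hf (ker_le hk hwA (pow_mem hgA p)) k1 k2).le.trans
      (index_antitone le_sup_left)) e2)
  rintro _ ⟨x, hx, rfl⟩
  refine ⟨map_pow f x p ▸ map_cen f hf (hA' x hx).1, ?_, ?_⟩
  · rw [← map_pow, ← map_pow, ← f.map_one]
    exact congrArg f (Subtype.ext (hA' x hx).2.1)
  · rintro _ ⟨y, hy, rfl⟩
    exact map_commutatorElement f x y ▸ map_cen f hf ((hA' x hx).2.2 y hy)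

end

theorem final (e c : ℕ) : ∃ F : ℕ, ∀ (p : ℕ) [Fact p.Prime] (E : Type u) [Group E] [Finite E],
    IsPGroup p E → (∀ x : E, x ^ p ^ e = 1) → ∀ (g : E) (W : Subgroup E), Cen p (g ^ p) →
    g ^ p ∈ W → (∀ y : E, ⁅y, g⁆ ∈ W) → (∀ x ∈ W, x ∈ center E ∧ x ^ p = 1) →
    Nat.card E ≤ p ^ c * Nat.card W ^ 2 → p ^ F ≤ Nat.card E → ∃ m X, Good (g ^ p) m X := by
  set d := e * e + e + 5 with hd
  set m := (c + d) * e with hm
  refine ⟨d + 2 * (m * m + m), fun p hp E _ _ hP he g W hz hg hgW hW h1 h2 => ?_⟩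
  have : W.Normal := nrm_of_comm fun x hx y => by
    rw [commutatorElement_eq_one_iff_mul_comm.2 (mem_center_iff.1 (hW x hx).1 y)]
    exact one_mem _
  have hG := hP.to_quotient W
  have he' : ∀ x : E ⧸ W, x ^ p ^ e = 1 := fun x => by
    obtain ⟨x, rfl⟩ := QuotientGroup.mk_surjective x
    rw [← QuotientGroup.mk_pow, he]; rfl
  obtain ⟨B, b1, b2, b3⟩ := exists_selfcent hG
  have hi := index_comap_of_surjective (Om B b2 p) (QuotientGroup.mk'_surjective W)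
  refine desc e _ E rfl hP he g ((Om B b2 p).comap (QuotientGroup.mk' W)) hz
    ⟨b3 _ fun b _ => ?_, (QuotientGroup.eq_one_iff _).2 hg⟩ (fun x hx => ?_) ?_
  · obtain ⟨b, rfl⟩ := QuotientGroup.mk_surjective b
    exact commutatorElement_eq_one_iff_mul_comm.1 ((QuotientGroup.eq_one_iff _).2 (hgW b))
  · have := hW _ ((QuotientGroup.eq_one_iff (x ^ p)).1 hx.2)
    exact ⟨this.1, this.2, fun y hy => (hW _ ((QuotientGroup.eq_one_iff ⁅x, y⁆).1
      (commutatorElement_eq_one_iff_mul_comm.2 (b2 _ hx.1 _ hy.1)))).1⟩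
  rw [hi, ← hd]
  have e1 := (Om B b2 p).index_mul_card
  have e2 := W.card_eq_card_quotient_mul_card_subgroup
  have hp0 := hp.out.pos
  by_cases hS : p ^ (c + d) ≤ Nat.card (Om B b2 p)
  · have e3 : Nat.card (E ⧸ W) ≤ p ^ c * Nat.card W := by
      refine Nat.le_of_mul_le_mul_right (c := Nat.card W) ?_ Nat.card_pos
      rw [← e2, mul_assoc, ← sq]
      exact h1
    refine Nat.le_of_mul_le_mul_left (c := p ^ c) ?_ (by positivity)
    have e4 : 1 ≤ Nat.card (Om B b2 p) := Nat.card_pos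
    calc p ^ c * (p ^ d * (Om B b2 p).index ^ 2) = p ^ (c + d) * 1 * (Om B b2 p).index ^ 2 := by ring
      _ ≤ Nat.card (Om B b2 p) * Nat.card (Om B b2 p) * (Om B b2 p).index ^ 2 := by gcongr
      _ = Nat.card (E ⧸ W) * Nat.card (E ⧸ W) := by rw [← e1]; ring
      _ ≤ Nat.card (E ⧸ W) * (p ^ c * Nat.card W) := by gcongr
      _ = _ := by rw [e2]; ring
  · have e3 : Nat.card B ≤ p ^ m := (card_Om b2 he').trans
      ((Nat.pow_le_pow_left (not_le.1 hS).le e).trans_eq (pow_mul _ _ _).symm)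
    have e4 := Nat.mul_le_mul ((index_antitone (H := centralizer (B : Set (E ⧸ W))) (K := B)
      fun x hx => b3 x hx).trans (idx hG b1 e3)) e3
    rw [index_mul_card, ← pow_add, ← e1] at e4
    have e5 := (Nat.le_mul_of_pos_right _ Nat.card_pos).trans e4
    calc p ^ d * (Om B b2 p).index ^ 2 ≤ p ^ d * (p ^ (m * m + m)) ^ 2 := by gcongr
      _ = p ^ (d + 2 * (m * m + m)) := by ring
      _ ≤ _ := h2

/-- The statement for a central subgroup with one subgroup of order `p`. -/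
def PC (e l F : ℕ) : Prop := ∀ (p : ℕ) [Fact p.Prime] (E : Type u) [Group E] [Finite E],
  IsPGroup p E → (∀ x : E, x ^ p ^ e = 1) → ∀ (g : E) (D : Subgroup E), Cen p (g ^ p) → g ∈ D →
  D ≤ center E → (∀ b ∈ D, b ^ p = 1 → b ∈ zpowers (g ^ p)) → Ht p l D → p ^ F ≤ Nat.card E →
  ∃ m X, Good (g ^ p) m X

/-- The statement for a normal subgroup of small order. -/
def PM (e l F : ℕ) : Prop := ∀ (p : ℕ) [Fact p.Prime] (E : Type u) [Group E] [Finite E],
  IsPGroup p E → (∀ x : E, x ^ p ^ e = 1) → ∀ (g : E) (Q : Subgroup E), Cen p (g ^ p) → g ∈ Q →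
  Q.Normal → (∀ y : E, ⁅y, g⁆ ∈ center E ∧ ⁅y, g⁆ ^ p = 1) → Ht p l Q →
  p ^ F * Nat.card Q ^ 2 ≤ Nat.card E → ∃ m X, Good (g ^ p) m X

theorem PC.desc {e l F : ℕ} (h : PC.{u} e l F) (hF : e * e + e + 2 < F) {p : ℕ}
    [hp : Fact p.Prime] (N : ℕ) : ∀ (E : Type u) [Group E] [Finite E], Nat.card E = N →
    IsPGroup p E → (∀ x : E, x ^ p ^ e = 1) → ∀ (g : E) (D Q : Subgroup E), Cen p (g ^ p) → g ∈ D →
    D.Normal → (∀ a ∈ D, ∀ b ∈ D, a * b = b * a) → (∀ b ∈ D, b ^ p = 1 → b ∈ zpowers (g ^ p)) →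
    Q ⊓ centralizer D ≤ D → Ht p l Q →
    p ^ F * (centralizer (D : Set E)).index ^ 2 ≤ Nat.card E → ∃ m X, Good (g ^ p) m X := by
  induction N using Nat.strong_induction_on with
  | _ N ih =>
  intro E _ _ hN hP he g D Q hz hg d1 d2 d3 d4 hH hc
  obtain ⟨n, hE⟩ := hP.exists_card_eq
  by_cases ht : centralizer (D : Set E) = ⊤
  · rw [ht, index_top] at hc
    rw [ht, inf_top_eq] at d4
    exact h p E hP he g D hz hg (fun b hb => mem_center_iff.2 fun y =>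
      ((ht ▸ mem_top y : y ∈ centralizer (D : Set E)) b hb).symm) d3 (hH.mono d4) (by simpa using hc)
  rcases exists_second_cen hP he (big index_ne_zero_of_finite hc hF) hz with h | ⟨w, w1, w2, w3⟩
  · exact h
  obtain ⟨K, k1, -, k2⟩ := exists_max hE ht
  have hDC : D ≤ centralizer D := fun a ha b hb => d2 b hb a ha
  have hwC : w ∈ centralizer (D : Set E) := fun b _ => mem_center_iff.1 w1 b
  have hgK : g ∈ K := k1 (hDC hg)
  refine rec_cen hP hz w1 w2 w3 k2 (k1 hwC) (K.pow_mem hgK p) fun R _ _ f i hf hk hR hz' => ?_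
  have inj : ∀ x : K, (x : E) ∈ D → f x = 1 → x = 1 := fun x hx h1 => by
    obtain ⟨j, hj⟩ := exists_pw (wz_pow hz w2 i) ((hk x).1 h1)
    obtain ⟨a, ha⟩ := exists_pw hz.pow (d3 x hx (hj ▸ pw_pow_p (wz_pow hz w2 i) j))
    have e1 : x = pw ⟨g ^ p, K.pow_mem hgK p⟩ a := Subtype.ext ha
    have e2 : pw (f ⟨g ^ p, K.pow_mem hgK p⟩) a = 1 := by rw [pw, ← map_pow, ← h1, e1]; rfl
    obtain rfl := pw_inj (H := ⊥) ⟨1, by simpa using hz'.pow⟩ (by simpa using hz'.ne) 0 a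
      (by simp [e2, pw_zero])
    rw [e1, pw_zero]
  have e1 : f ⟨g ^ p, K.pow_mem hgK p⟩ = f ⟨g, hgK⟩ ^ p := map_pow f ⟨g, hgK⟩ p
  have e2 := k2.trans (congrArg (p * ·) hR)
  have e3 : ((centralizer (D : Set E)).subgroupOf K).map f ≤
      centralizer ((D.subgroupOf K).map f : Set R) := by
    rintro _ ⟨x, hx, rfl⟩ _ ⟨b, hb, rfl⟩
    rw [← map_mul, ← map_mul]
    exact congrArg f (Subtype.ext (hx b hb))
  rw [e1] at hz' ⊢
  refine ih _ (hN ▸ lt_step Nat.card_pos e2) R rfl ((hP.to_subgroup K).of_surjective f hf)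
    (exp_sec hf he) _ ((D.subgroupOf K).map f) ((Q.subgroupOf K).map f) hz' (mem_map_of_mem f hg)
    ((d1.subgroupOf K).map f hf) ?_ ?_ ?_ ((hH.comap K.subtype).map hf)
    (sq_step hc ((Nat.mul_le_mul_left p (index_antitone e3)).trans
      (idx_sec hf (ker_le hk hwC (hDC (pow_mem hg p))) k1 k2).le) e2)
  · rintro _ ⟨a, ha, rfl⟩ _ ⟨b, hb, rfl⟩
    rw [← map_mul, ← map_mul]
    exact congrArg f (Subtype.ext (d2 a ha b hb))
  · rintro _ ⟨b, hb, rfl⟩ h1
    obtain ⟨j, hj⟩ := d3 b hb (congrArg Subtype.val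
      (inj (b ^ p) (D.pow_mem hb p) (by rw [map_pow, h1])))
    exact ⟨j, by beta_reduce; rw [← e1, ← map_zpow]; exact congrArg f (Subtype.ext hj)⟩
  · rintro _ ⟨⟨x, hx, rfl⟩, hC⟩
    refine mem_map_of_mem f (d4 ⟨hx, fun b hb => ?_⟩)
    have := inj ⁅x, ⟨b, k1 (hDC hb)⟩⁆ (comm_mem d1 hb x) (by
      rw [map_commutatorElement, commutatorElement_eq_one_iff_mul_comm]
      exact (hC _ (mem_map_of_mem f hb)).symm)
    exact (congrArg Subtype.val (commutatorElement_eq_one_iff_mul_comm.1 this)).symm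

theorem PC.main {e l F : ℕ} (h : PC.{u} e l F) (hF : e * e + e + 2 < F) :
    PM.{u} e l (F + 2 * (e * e)) := by
  intro p hp E
  generalize hN : Nat.card E = N
  induction N using Nat.strong_induction_on generalizing E with
  | _ N ih =>
  intro _ _ hP he g Q hz hg hQ hc hH hn
  rw [← hN] at hn
  obtain ⟨n, hE⟩ := hP.exists_card_eq
  have hb := big (d := e + 2) Nat.card_pos.ne' hn (by omega)
  by_cases hw : ∀ w ∈ Q, w ∈ center E → w ^ p = 1 → w ∈ zpowers (g ^ p)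
  · have h1 : zpowers (g ^ p) ≤ zpowers g := zpowers_le.2 (npow_mem_zpowers g p)
    have h2 : (zpowers g).Normal := ⟨by
      rintro _ ⟨k, rfl⟩ y
      rw [← conj_zpow]
      have := mul_mem (h1 (hw _ (comm_mem hQ hg y) (hc y).1 (hc y).2)) (mem_zpowers g)
      rw [commutatorElement_def, inv_mul_cancel_right] at this
      exact zpow_mem this k⟩
    rcases tri hP he hb hz hQ h2 (by
      rintro _ ⟨a, rfl⟩ _ ⟨b, rfl⟩
      exact (Commute.refl g).zpow_zpow a b) (zpowers_le.2 hg) hw with h3 | ⟨B, b1, b2, b3, b4, b5⟩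
    · exact h3
    refine h.desc hF _ E rfl hP he g B Q hz (b2 (mem_zpowers g)) b1 b3 b5 b4 hH
      (le_trans ?_ ((Nat.le_mul_of_pos_right _ (pow_pos Nat.card_pos 2)).trans hn))
    rw [pow_add, mul_comm 2, pow_mul p (e * e)]
    exact Nat.mul_le_mul_left _ (Nat.pow_le_pow_left (idx hP b1 (small hz he b3 b5)) 2)
  push Not at hw
  obtain ⟨w, w0, w1, w2, w3⟩ := hw
  have hw : Cen p w := ⟨mem_center_iff.1 w1, fun e => w3 (e ▸ one_mem _), w2⟩
  have := hw.normal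
  obtain ⟨K, k1, -, k2⟩ := exists_max hE (H := zpowers g ⊔ zpowers w) fun e0 => by
    have e1 := card_sup_le (zpowers g) (zpowers w)
    rw [e0, card_top, card_zp hw.ne w2] at e1
    have e2 := e1.trans (Nat.mul_le_mul_right p (card_zp_le (pow_pos hp.out.pos e) (he g)))
    rw [← pow_succ] at e2
    exact absurd (hb.trans_le e2) (by rw [Nat.pow_lt_pow_iff_right hp.out.one_lt]; omega)
  simp only [sup_le_iff, zpowers_le] at k1
  refine rec_cen hP hz w1 w2 w3 k2 k1.2 (K.pow_mem k1.1 p) fun R _ _ f i hf hk hR hz' => ?_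
  have e1 : f ⟨g ^ p, K.pow_mem k1.1 p⟩ = f ⟨g, k1.1⟩ ^ p := map_pow f ⟨g, k1.1⟩ p
  have e2 := k2.trans (congrArg (p * ·) hR)
  rw [e1] at hz' ⊢
  refine ih _ (hN ▸ lt_step Nat.card_pos e2) R rfl ((hP.to_subgroup K).of_surjective f hf)
    (exp_sec hf he) _ ((Q.subgroupOf K).map f) hz' (mem_map_of_mem f hg)
    ((hQ.subgroupOf K).map f hf) (fun y => ?_) ((hH.comap K.subtype).map hf)
    (sq_step hn (card_sec hf (ker_le hk w0 (pow_mem hg p)) hR) e2)
  obtain ⟨y, rfl⟩ := hf y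
  rw [← map_commutatorElement]
  refine ⟨map_cen f hf (hc y).1, ?_⟩
  rw [← map_pow, ← f.map_one]
  exact congrArg f (Subtype.ext (hc y).2)

theorem layer {p : ℕ} [hp : Fact p.Prime] {E : Type*} [Group E] [Finite E] (hP : IsPGroup p E)
    {z : E} (hz : Cen p z) {D L W : Subgroup E} (hD : D ≤ center E)
    (d1 : ∀ b ∈ D, b ^ p = 1 → b ∈ zpowers z) (h1 : ∀ x ∈ L, x ^ p ∈ D)
    (h2 : ∀ x ∈ L, ∀ y : E, ⁅y, x⁆ ∈ zpowers z) (hW : ∀ x, x ∈ W ↔ x ∈ L ∧ x ^ p = 1)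
    (hWc : W ≤ center E) (hzW : z ∈ W) : Nat.card L ≤ Nat.card D * p ^ 2 * Nat.card W := by
  have hzc : zpowers z ≤ center E := zpowers_le.2 (mem_center_iff.2 hz.comm)
  have hzp : ∀ c ∈ zpowers z, c ^ p = 1 := fun c hc => by
    obtain ⟨j, rfl⟩ := exists_pw hz.pow hc
    exact pw_pow_p hz.pow j
  have ker : ∀ (φ : L →* E) (T : Subgroup E), φ.range ≤ D → (∀ x : L, φ x = 1 → (x : E) ∈ T) →
      Nat.card L ≤ Nat.card D * Nat.card T := fun φ T a1 a2 => by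
    rw [← φ.ker.index_mul_card, index_ker]
    exact Nat.mul_le_mul (card_le_of_le a1) (Nat.card_le_card_of_injective
      (fun x : φ.ker => (⟨x.1, a2 x.1 x.2⟩ : T))
      fun a b h => Subtype.ext (Subtype.ext (congrArg (fun y : T => (y : E)) h)))
  rcases hp.out.two_le.eq_or_lt with rfl | hp2
  swap
  · refine (ker (MonoidHom.mk' (fun a : L => (a : E) ^ p) fun a b => mul_pow_of_cen hp2
      (hzc (h2 b b.2 a)) (hzp _ (h2 b b.2 a))) W (by rintro _ ⟨a, rfl⟩; exact h1 a a.2)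
      fun x hx => (hW x).2 ⟨x.2, hx⟩).trans ?_
    exact Nat.mul_le_mul_right _ (Nat.le_mul_of_pos_right _ (by positivity))
  have sq2 : ∀ a b : E, (a * b) ^ 2 = a ^ 2 * (⁅a⁻¹, b⁆ * b ^ 2) := fun a b => by
    rw [commutatorElement_def, sq, sq, sq]; group
  let φ : L →* E := MonoidHom.mk' (fun a : L => ((a : E) ^ 2) ^ 2) fun a b => by
    rw [Subgroup.coe_mul, sq2, Commute.mul_pow (mem_center_iff.1 (hD (h1 a a.2)) _).symm,
      Commute.mul_pow (mem_center_iff.1 (hD (h1 b b.2)) _), hzp _ (h2 _ b.2 _), one_mul]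
  have : W.Normal := ⟨fun n hn g => by rwa [mem_center_iff.1 (hWc hn) g, mul_inv_cancel_right]⟩
  have s1 : ∀ x ∈ φ.ker.map L.subtype, x ∉ W → x ^ 2 = z := by
    rintro _ ⟨x, hx, rfl⟩ hxW
    exact (inv2 hz.pow (d1 _ (h1 x x.2) hx)).resolve_left fun e => hxW ((hW x).2 ⟨x.2, e⟩)
  refine (ker φ (φ.ker.map L.subtype) (by rintro _ ⟨a, rfl⟩; exact D.pow_mem (h1 a a.2) 2)
    fun x hx => mem_map_of_mem _ hx).trans ?_
  rw [mul_assoc]
  refine Nat.mul_le_mul_left _ ?_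
  set T := φ.ker.map L.subtype with hT
  have hTL : T ≤ L := map_subtype_le _
  by_cases h : T ≤ W
  · exact (card_le_of_le h).trans (Nat.le_mul_of_pos_left _ (by positivity))
  obtain ⟨x, hx, hxW⟩ := SetLike.not_le_iff_exists.1 h
  let κ : T →* E := (kap fun y => hzc (h2 x (hTL hx) y)).comp T.subtype
  have e1 : Nat.card κ.range ≤ 2 := (card_le_of_le (K := zpowers z) (by
    rintro _ ⟨a, rfl⟩; exact h2 x (hTL hx) a)).trans_eq (card_zp hz.ne hz.pow)
  have e2 : ∀ y : T, κ y = 1 → (y : E) ∈ zpowers x ⊔ W := fun y hy => by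
    by_cases hyW : (y : E) ∈ W
    · exact mem_sup_right hyW
    have c : Commute (y : E) x := commutatorElement_eq_one_iff_mul_comm.1 hy
    have : x * y ∈ W := (hW _).2 ⟨L.mul_mem (hTL hx) (hTL y.2), by
      rw [c.symm.mul_pow, s1 x hx hxW, s1 y y.2 hyW, ← sq, hz.pow]⟩
    simpa using mul_mem (mem_sup_left (inv_mem (mem_zpowers x))) (mem_sup_right (S := zpowers x) this)
  have e3 : Nat.card κ.ker ≤ 2 * Nat.card W := (Nat.card_le_card_of_injective
    (fun y : κ.ker => (⟨y.1, e2 y.1 y.2⟩ : (zpowers x ⊔ W : Subgroup E)))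
    fun a b h => Subtype.ext (Subtype.ext
      (congrArg (fun y : (zpowers x ⊔ W : Subgroup E) => (y : E)) h))).trans_eq
      (card_adj hP hxW (s1 x hx hxW ▸ hzW))
  rw [← κ.ker.index_mul_card, index_ker, sq, mul_assoc]
  exact Nat.mul_le_mul e1 e3

theorem PM.succ {e l F : ℕ} (h : PM.{u} e l F) : ∃ F', e * e + e + 2 < F' ∧ PC.{u} e (l + 1) F' := by
  obtain ⟨F', hF⟩ := final.{u} e (F + 2 * (e + 2))
  refine ⟨F' + (e * e + e + 3), by omega, fun p hp E _ _ hP he g D hz hg hD d1 hH hn => ?_⟩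
  obtain ⟨L, l1, l2⟩ := hH
  have hp0 := hp.out.pos
  have : D.Normal := ⟨fun n hn g => by rwa [mem_center_iff.1 (hD hn) g, mul_inv_cancel_right]⟩
  have a1 : ∀ x ∈ L ⊔ D, x ^ p ∈ D ∧ ∀ y : E, ⁅y, x⁆ ∈ D := fun x hx => by
    obtain ⟨a, ha, c, hc, rfl⟩ := mem_sup_of_normal_right.1 hx
    refine ⟨?_, fun y => comm_cen (hD hc) y a ▸ (l1 a ha).2 y⟩
    rw [Commute.mul_pow (mem_center_iff.1 (hD hc) a)]
    exact D.mul_mem (l1 a ha).1 (D.pow_mem hc p)
  have a2 : ∀ x ∈ L ⊔ D, ∀ y : E, ⁅y, x⁆ ∈ zpowers (g ^ p) := fun x hx y =>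
    d1 _ ((a1 x hx).2 y) (by
      have e1 : (⁅y, x⁆ * x) ^ p = x ^ p := by
        rw [commutatorElement_def, inv_mul_cancel_right, _root_.conj_pow,
          mem_center_iff.1 (hD (a1 x hx).1) y, mul_inv_cancel_right]
      rwa [Commute.mul_pow (mem_center_iff.1 (hD ((a1 x hx).2 y)) x).symm, mul_eq_right] at e1)
  by_cases hw : ∀ w ∈ L ⊔ D, w ^ p = 1 → w ∈ center E
  swap
  · push Not at hw
    obtain ⟨w, w1, w2, w3⟩ := hw
    exact gol hP he (lt_of_lt_of_le (Nat.pow_lt_pow_right hp.out.one_lt (by omega)) hn) hz w2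
      (up_of_mem hz (a2 w w1)) w3
  have hc : ∀ y : E, ⁅y, g⁆ = 1 := fun y =>
    commutatorElement_eq_one_iff_mul_comm.2 (mem_center_iff.1 (hD hg) y)
  by_cases hs : p ^ F * Nat.card (L ⊔ D : Subgroup E) ^ 2 ≤ Nat.card E
  · exact h p E hP he g (L ⊔ D) hz (mem_sup_right hg)
      (nrm_of_comm fun x hx y => mem_sup_right ((a1 x hx).2 y))
      (fun y => by simp [hc y]) (l2.mono le_sup_left) hs
  set W := Om ((L ⊔ D) ⊓ center E) (fun a _ b hb => mem_center_iff.1 hb.2 a) p with hW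
  have hzW : g ^ p ∈ W :=
    ⟨⟨mem_sup_right (D.pow_mem hg p), mem_center_iff.2 hz.comm⟩, hz.pow⟩
  have e1 := layer hP hz hD d1 (fun x hx => (a1 x hx).1) a2 (W := W)
    (fun x => ⟨fun hx => ⟨hx.1.1, hx.2⟩, fun hx => ⟨⟨hx.1, hw x hx.1 hx.2⟩, hx.2⟩⟩)
    (fun x hx => hx.1.2) hzW
  have e2 := small hz he (B := D) (fun a _ b hb => mem_center_iff.1 (hD hb) a) d1
  refine hF p E hP he g W hz hzW (fun y => hc y ▸ W.one_mem) (fun x hx => ⟨hx.1.2, hx.2⟩) ?_
    ((Nat.pow_le_pow_right hp0 (by omega)).trans hn)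
  calc Nat.card E ≤ p ^ F * Nat.card (L ⊔ D : Subgroup E) ^ 2 := (not_le.1 hs).le
    _ ≤ p ^ F * (p ^ e * p ^ 2 * Nat.card W) ^ 2 := by
      gcongr
      exact e1.trans (by gcongr)
    _ = _ := by ring

theorem exists_PM (e l : ℕ) : ∃ F, PM.{u} e l F := by
  induction l with
  | zero =>
    refine ⟨_, PC.main (F := e * e + e + 3) (fun p hp E _ _ hP he g D hz hg hD d1 hH hn => ?_)
      (by omega)⟩
    have e1 := small hz he (B := D) (fun a _ b hb => mem_center_iff.1 (hD hb) a) d1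
    rw [show D = ⊤ from hH, card_top] at e1
    exact absurd (hn.trans e1) (by rw [Nat.pow_le_pow_iff_right hp.out.one_lt]; omega)
  | succ l ih =>
    obtain ⟨F, h⟩ := ih
    obtain ⟨F', h1, h2⟩ := h.succ
    exact ⟨_, h2.main h1⟩

theorem good_big (e : ℕ) : ∃ F : ℕ, ∀ (p : ℕ) [Fact p.Prime] (E : Type u) [Group E] [Finite E]
    (n : ℕ), Nat.card E = p ^ n → F ≤ n → (∀ x : E, x ^ p ^ e = 1) → (¬∀ x : E, (x ^ p) ^ p = 1) →
    ∃ z : E, Cen p z ∧ ∃ m X, Good z m X := by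
  obtain ⟨F, hF⟩ := exists_PM.{u} e (e + e)
  obtain ⟨F', hF'⟩ := final.{u} e (F + 2)
  refine ⟨F' + e + 3, fun p hp E _ _ n hE hn he h2 => ?_⟩
  have hP : IsPGroup p E := .of_card hE
  have h1p := hp.out.one_lt
  obtain ⟨B, hB, b2, b3⟩ := exists_selfcent hP
  have := Om_normal hB b2 p
  by_cases hA : Om B b2 p ≤ center E
  swap
  · obtain ⟨w, w1, w2, w3⟩ := second_of_normal hP (Om B b2 p) (fun a ha => ha.2) hA
    refine good_noncentral hE w1 w2 w3 fun V _ hV _ hq => ?_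
    obtain ⟨k, rfl⟩ := exp_le hE hV
    obtain ⟨c, hc⟩ := hq.exists_ofOrder_eq_natCard
    obtain ⟨c, rfl⟩ := QuotientGroup.mk_surjective c
    have e1 := orderOf_le_of_pow_eq_one (x := (c : E ⧸ V)) (n := p ^ e) (by positivity)
      (by rw [← QuotientGroup.mk_pow, he]; rfl)
    rw [hc, card_quot hE hV, Nat.pow_le_pow_iff_right h1p] at e1
    omega
  obtain ⟨b, hb, hbp⟩ : ∃ b ∈ B, b ^ p ≠ 1 := by
    by_contra hne
    push Not at hne
    exact h2 fun x => by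
      rw [hne x (b3 x fun b hb => (mem_center_iff.1 (hA ⟨hb, hne b hb⟩) x).symm), one_pow]
  obtain ⟨_, ⟨k, rfl⟩, u1, u2⟩ := exists_ord hP hbp
  have e0 : (b ^ p) ^ k = (b ^ k) ^ p := by
    rw [← zpow_natCast, ← zpow_natCast, ← zpow_mul, ← zpow_mul, mul_comm]
  beta_reduce at u1 u2
  rw [e0] at u1 u2
  have hg := B.zpow_mem hb k
  generalize b ^ k = g at u1 u2 hg
  have hzW : g ^ p ∈ Om B b2 p := ⟨B.pow_mem hg p, u2⟩
  have hz : Cen p (g ^ p) := ⟨mem_center_iff.1 (hA hzW), u1, u2⟩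
  have hc : ∀ y : E, ⁅y, g⁆ ∈ Om B b2 p := fun y => ⟨comm_mem hB hg y, by
    rw [commutatorElement_def, Commute.mul_pow (b2 _ (hB.conj_mem g hg y) _ (B.inv_mem hg)),
      _root_.conj_pow, hz.comm y, mul_inv_cancel_right, inv_pow, mul_inv_cancel]⟩
  refine ⟨_, hz, ?_⟩
  have e1 := card_adj hP (V := Om B b2 p) (fun h => u1 h.2) hzW
  by_cases hs : p ^ F * Nat.card (zpowers g ⊔ Om B b2 p : Subgroup E) ^ 2 ≤ Nat.card E
  · refine hF p E hP he g _ hz (mem_sup_left (mem_zpowers g)) (nrm_of_comm fun x hx y => ?_)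
      (fun y => ⟨hA (hc y), (hc y).2⟩)
      ((ht_top hB b2 b3 (fun b h1 h2 => hA ⟨h1, h2⟩) he).mono bot_le) hs
    obtain ⟨_, ⟨j, rfl⟩, c, h3, rfl⟩ := mem_sup_of_normal_right.1 hx
    rw [comm_cen (hA h3), ← commutatorElement_inv]
    refine inv_mem (mem_sup_right ((QuotientGroup.eq_one_iff _).1 ?_))
    exact commutatorElement_eq_one_iff_commute.2 (Commute.zpow_left (a := (g : E ⧸ Om B b2 p))
      ((commutatorElement_eq_one_iff_commute (g₁ := (y : E ⧸ Om B b2 p)) (g₂ := g)).1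
        ((QuotientGroup.eq_one_iff ⁅y, g⁆).2 (hc y))).symm j)
  refine hF' p E hP he g _ hz hzW hc (fun x hx => ⟨hA hx, hx.2⟩) ?_
    (hE ▸ Nat.pow_le_pow_right hp.out.pos (by omega))
  calc Nat.card E ≤ p ^ F * Nat.card (zpowers g ⊔ Om B b2 p : Subgroup E) ^ 2 := (not_le.1 hs).le
    _ = _ := by rw [e1]; ring

end Pool.Agent.Lib.MP_2d211a_co.H62
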