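import Pool.Agent.Lib.MP_2d211a_co.H42Exp

/-! The sharp exponent bound for odd primes. -/

namespace Pool.Agent.Lib.MP_2d211a_co.H62

open Subgroup
open scoped commutatorElement

set_option linter.unusedSectionVars false

universe u

variable {p : ℕ} [hp : Fact p.Prime] {E : Type u} [Group E] [Finite E]

theorem max_index {M : Subgroup E} (h : Nat.card E = p * Nat.card M) : M.index = p := by
  have := M.index_mul_card
  rw [h] at this
  exact Nat.eq_of_mul_eq_mul_right Nat.card_pos this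

theorem max_normal {n : ℕ} (hE : Nat.card E = p ^ (n + 1)) {M : Subgroup E}
    (h : Nat.card E = p * Nat.card M) : M.Normal := by
  refine normal_of_index_eq_minFac_card ?_
  rw [hE, Nat.pow_minFac (by omega), hp.out.minFac_eq, max_index h]

theorem ord_ge (hP : IsPGroup p E) {x : E} {j : ℕ} (h : x ^ p ^ j ≠ 1) :
    p ^ (j + 1) ≤ Nat.card (zpowers x) := by
  obtain ⟨m, hm⟩ := IsPGroup.iff_orderOf.1 hP x
  rw [Nat.card_zpowers, hm]
  refine Nat.pow_le_pow_right hp.out.pos (by_contra fun e => h ?_)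
  exact orderOf_dvd_iff_pow_eq_one.1 (hm ▸ pow_dvd_pow p (by omega))

theorem card_disj {A B K : Subgroup E} (hA : A ≤ K) (hB : B ≤ K) (h : Disjoint A B) :
    Nat.card A * Nat.card B ≤ Nat.card K := by
  rw [← Nat.card_prod]
  exact Nat.card_le_card_of_injective
    (fun g : A × B => (⟨g.1 * g.2, K.mul_mem (hA g.1.2) (hB g.2.2)⟩ : K))
    fun a b e => mul_injective_of_disjoint h (congrArg Subtype.val e)

theorem plane_cen (hP : IsPGroup p E) {z : E} (hz : Cen p z) (V : Subgroup E) [V.Normal]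
    (hc : Nat.card V = p ^ 2) (he : ∀ v ∈ V, v ^ p = 1) (hzV : z ∈ V) :
    ∃ w, w ∉ zpowers z ∧ w ^ p = 1 ∧ w ∈ Up hz ∧ zpowers w ⊔ zpowers z = V := by
  have h1p := hp.out.one_lt
  have := hz.normal
  obtain ⟨y, ⟨w, hwV, rfl⟩, hw1, hw2⟩ := normal_cen (hP.to_quotient (zpowers z))
    (V.map (QuotientGroup.mk' (zpowers z))) (hV := fun h => by
      rw [Subgroup.map_eq_bot_iff, QuotientGroup.ker_mk'] at h
      have := card_le_of_le h
      rw [hc, card_zp hz.ne hz.pow] at this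
      nlinarith)
  have hw : w ∉ zpowers z := fun h => hw1 ((QuotientGroup.eq_one_iff _).2 h)
  exact ⟨w, hw, he w hwV, up_of_comm hz hw2, eq_of_le_of_card_ge
    (by simp only [sup_le_iff, zpowers_le]; exact ⟨hwV, hzV⟩)
    (by rw [hc, plane_card hz hw (he w hwV)])⟩

theorem exists_S (hp2 : 2 < p) {j : ℕ} {L V : Subgroup E} (hL : Nat.card L = p ^ (2 * j + 1 + 2))
    (hV : Nat.card V = p ^ 2) (hVL : V ≤ L) (hc : ∀ g ∈ L, ∀ v ∈ V, g * v = v * g)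
    (he : ∀ g ∈ L, (g ^ p ^ j) ^ p ∈ V) :
    ∃ S : Subgroup E, (∀ g, g ∈ S ↔ g ∈ L ∧ g ^ p ^ j ∈ V) ∧
      (∀ x ∈ L, x ^ p ^ j ∉ V → ∀ a ∈ L, ∃ i : ℤ, (x ^ i)⁻¹ * a ∈ S) ∧
      ∀ a ∈ L, ∀ s ∈ S, s * a ^ p ^ j = a ^ p ^ j * s := by
  have : (V.subgroupOf L).Normal := ⟨fun v hv g => mem_subgroupOf.2 (by
    rw [Subgroup.coe_mul, Subgroup.coe_mul, hc g g.2 v hv, Subgroup.coe_inv, mul_inv_cancel_right]
    exact hv)⟩
  obtain ⟨c, -, h2, h3⟩ := power_hom hp2 j (L ⧸ V.subgroupOf L) _ (card_quot hL (m := 2)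
    ((Nat.card_congr (subgroupOfEquivOfLe hVL).toEquiv).trans hV)) le_rfl
  let φ : L →* L ⧸ V.subgroupOf L :=
    (MonoidHom.mk' (fun a => a ^ p ^ j) h3).comp (QuotientGroup.mk' _)
  have hφ : ∀ g : L, φ g = 1 ↔ (g : E) ^ p ^ j ∈ V := fun g =>
    (QuotientGroup.eq_one_iff (g ^ p ^ j)).trans mem_subgroupOf
  have hφp : ∀ g : L, φ g ^ p = 1 := fun g =>
    (QuotientGroup.eq_one_iff ((g ^ p ^ j) ^ p)).2 (he g g.2)
  refine ⟨φ.ker.map L.subtype, fun g => ⟨?_, fun h => ⟨⟨g, h.1⟩, (hφ _).2 h.2, rfl⟩⟩,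
    fun x hx hxV a ha => ?_, ?_⟩
  · rintro ⟨g, hg, rfl⟩
    exact ⟨g.2, (hφ g).1 hg⟩
  · obtain ⟨i, hi⟩ := mem_of_cyc (x := c) (a := φ ⟨x, hx⟩) (b := φ ⟨a, ha⟩) (h2 _) (h2 _)
      (fun e => hxV ((hφ _).1 e)) (hφp _) (hφp _)
    refine ⟨i, (⟨x, hx⟩ ^ i)⁻¹ * ⟨a, ha⟩, ?_, rfl⟩
    rw [SetLike.mem_coe, MonoidHom.mem_ker, map_mul, map_inv, map_zpow, ← hi, inv_mul_cancel]
  · rintro a ha _ ⟨s, hs, rfl⟩
    have e1 : φ (⟨a, ha⟩ * s) = φ ⟨a, ha⟩ := by rw [map_mul, show φ s = 1 from hs, mul_one]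
    have e2 : (a ^ p ^ j)⁻¹ * (a * s) ^ p ^ j ∈ V :=
      mem_subgroupOf.1 (QuotientGroup.eq.1 (show (((⟨a, ha⟩ : L) ^ p ^ j : L) : L ⧸ V.subgroupOf L) =
        ((⟨a, ha⟩ * s) ^ p ^ j : L) from e1.symm))
    have e3 : Commute (a * s) ((a * s) ^ p ^ j * ((a ^ p ^ j)⁻¹ * (a * s) ^ p ^ j)⁻¹) :=
      ((Commute.refl _).pow_right _).mul_right
        (Commute.inv_right (hc _ (L.mul_mem ha s.2) _ e2))
    rw [mul_inv_rev, mul_inv_cancel_left, inv_inv] at e3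
    simpa using (((Commute.refl a).pow_right (p ^ j)).inv_left.mul_left e3).eq

theorem lemQ (hp2 : 2 < p) {j : ℕ} (hE : Nat.card E = p ^ (2 * j + 1 + 2 + 1)) {L V : Subgroup E}
    (hL : Nat.card E = p * Nat.card L) (hV : Nat.card V = p ^ 2) (hVL : V ≤ L)
    (hc : V ≤ center E) (he : ∀ g : E, (g ^ p ^ j) ^ p ∈ V) {x a : E} (hx : x ∈ L)
    (hxV : x ^ p ^ j ∉ V) (ha : a ∉ L) : ∃ K : Subgroup E, Nat.card E = p * Nat.card K ∧ a ∈ K ∧
      (∀ s ∈ L, s ^ p ^ j ∈ V → s ∈ K) ∧ (a ^ p ^ j ∈ V → ∀ g ∈ K, g ^ p ^ j ∈ V) := by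
  have hP : IsPGroup p E := .of_card hE
  have hLn := max_normal hE hL
  have hcc : ∀ (g : E), ∀ v ∈ V, g * v = v * g := fun g v hv => mem_center_iff.1 (hc hv) g
  obtain ⟨S, s1, s2, -⟩ := exists_S hp2 (max_card hE hL) hV hVL (fun g _ => hcc g) fun g _ => he g
  have : S.Normal := ⟨fun s hs g => (s1 _).2 ⟨hLn.conj_mem s ((s1 s).1 hs).1 g, by
    rw [_root_.conj_pow, hcc g _ ((s1 s).1 hs).2, mul_inv_cancel_right]
    exact ((s1 s).1 hs).2⟩⟩
  have e0 : ∀ g : E, g ^ p ∈ S := fun g => (s1 _).2 ⟨max_index hL ▸ L.pow_index_mem g, by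
    rw [← pow_mul, mul_comm, pow_mul]; exact he g⟩
  have e1 : zpowers x ⊔ S = L := le_antisymm (sup_le (zpowers_le.2 hx) fun s hs => ((s1 s).1 hs).1)
    fun g hg => by
      obtain ⟨i, hi⟩ := s2 x hx hxV g hg
      simpa using mul_mem (mem_sup_left (zpow_mem_zpowers x i)) (mem_sup_right (S := zpowers x) hi)
  have e2 := card_adj hP (fun h => hxV ((s1 x).1 h).2) (e0 x)
  have e3 := card_adj hP (fun h => ha ((s1 a).1 h).1) (e0 a)
  rw [e1, ← e3] at e2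
  rw [e2] at hL
  have e4 : ∀ s ∈ L, s ^ p ^ j ∈ V → s ∈ zpowers a ⊔ S := fun s h1 h2 =>
    mem_sup_right ((s1 s).2 ⟨h1, h2⟩)
  refine ⟨_, hL, mem_sup_left (mem_zpowers a), e4, fun h => ?_⟩
  obtain ⟨T, t1, -⟩ := exists_S hp2 (max_card hE hL) hV
    (fun v hv => e4 v (hVL hv) (V.pow_mem hv _)) (fun g _ => hcc g) fun g _ => he g
  have e5 : zpowers a ⊔ S ≤ T := sup_le
    (zpowers_le.2 ((t1 a).2 ⟨mem_sup_left (mem_zpowers a), h⟩))
    fun s hs => (t1 s).2 ⟨mem_sup_right hs, ((s1 s).1 hs).2⟩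
  exact fun g hg => ((t1 g).1 (e5 hg)).2

theorem find_pair (hp2 : 2 < p) {j : ℕ} (hE : Nat.card E = p ^ (2 * (j + 1) + 1 + 2 + 1))
    {z c : E} (hz : Cen p z) (he : ∀ g : E, (g ^ p ^ (j + 1)) ^ p ∈ zpowers z)
    (H1 : ∀ w, w ^ p = 1 → w ∈ Up hz → w ∈ center E) (hc : c ∈ center E) (hcp : c ^ p = 1)
    (hcz : c ∉ zpowers z) {K : Subgroup E} (hK : Nat.card E = p * Nat.card K) (hcK : c ∈ K)
    (hzK : z ∈ K) (hKe : ∀ g ∈ K, (g ^ p ^ (j + 1)) ^ p = 1) :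
    ∃ (c : E) (K : Subgroup E), c ∈ center E ∧ c ^ p = 1 ∧ c ∉ zpowers z ∧
      Nat.card E = p * Nat.card K ∧ c ∈ K ∧ z ∈ K ∧
        ∀ g ∈ K, g ^ p ^ (j + 1) ∈ zpowers c ⊔ zpowers z := by
  have hP : IsPGroup p E := .of_card hE
  have h1p := hp.out.one_lt
  have hKn := max_normal hE hK
  have hKc := max_card hE hK
  have hzn := hz.normal
  have hzc : z ∈ center E := mem_center_iff.2 hz.comm
  have hV := plane_card hz hcz hcp
  have hcV : c ∈ zpowers c ⊔ zpowers z := mem_sup_left (mem_zpowers c)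
  have hzV : zpowers z ≤ zpowers c ⊔ zpowers z := le_sup_right
  have hVK : zpowers c ⊔ zpowers z ≤ K := sup_le (zpowers_le.2 hcK) (zpowers_le.2 hzK)
  have hVc : zpowers c ⊔ zpowers z ≤ center E := sup_le (zpowers_le.2 hc) (zpowers_le.2 hzc)
  have hVp := fun v => plane_exp (v := v) hz hcp
  by_cases h0 : ∀ g ∈ K, g ^ p ^ (j + 1) ∈ zpowers c ⊔ zpowers z
  · exact ⟨c, K, hc, hcp, hcz, hK, hcK, hzK, h0⟩
  push Not at h0
  obtain ⟨x, hx, hxV⟩ := h0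
  by_cases hA : ∃ a, a ∉ K ∧ a ^ p ^ (j + 1) ∈ zpowers c ⊔ zpowers z
  · obtain ⟨a, ha, haV⟩ := hA
    obtain ⟨L, l1, -, l2, l3⟩ := lemQ hp2 hE hK hV hVK hVc (fun g => hzV (he g)) hx hxV ha
    exact ⟨c, L, hc, hcp, hcz, l1, l2 c hcK (pow_mem hcV _),
      l2 z hzK (pow_mem (hzV (mem_zpowers z)) _), l3 haV⟩
  push Not at hA
  generalize zpowers c ⊔ zpowers z = V at *
  have hcc : ∀ (g : E), ∀ v ∈ V, g * v = v * g := fun g v hv => mem_center_iff.1 (hVc hv) g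
  have hVn : V.Normal := ⟨fun v hv g => by rwa [hcc g v hv, mul_inv_cancel_right]⟩
  obtain ⟨S, s1, s2, s3⟩ := exists_S hp2 hKc hV hVK (fun g _ => hcc g) fun g _ => hzV (he g)
  have hup := hKe x hx
  have huz : x ^ p ^ (j + 1) ∉ zpowers z := fun h => hxV (hzV h)
  have huK : ∀ g ∈ K, Commute g (x ^ p ^ (j + 1)) := fun g hg => by
    obtain ⟨i, hi⟩ := s2 x hx hxV g hg
    simpa using (((Commute.refl x).pow_right (p ^ (j + 1))).zpow_left i).mul_left (s3 x hx _ hi)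
  have hW := plane_card hz huz hup
  have huW : x ^ p ^ (j + 1) ∈ zpowers (x ^ p ^ (j + 1)) ⊔ zpowers z := mem_sup_left (mem_zpowers _)
  have hzW : zpowers z ≤ zpowers (x ^ p ^ (j + 1)) ⊔ zpowers z := le_sup_right
  have hWK : zpowers (x ^ p ^ (j + 1)) ⊔ zpowers z ≤ K :=
    sup_le (zpowers_le.2 (K.pow_mem hx _)) (zpowers_le.2 hzK)
  by_cases h1 : ∀ g ∈ K, g ^ p ^ (j + 1) ∈ zpowers (x ^ p ^ (j + 1)) ⊔ zpowers z
  · have : (zpowers (x ^ p ^ (j + 1)) ⊔ zpowers z).Normal := ⟨fun v hv g => by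
      obtain ⟨a, b, rfl⟩ := plane_pow hz hup hv
      rw [← mul_assoc, mul_assoc _ _ g⁻¹, ← pw_comm hz.comm, ← mul_assoc, pw, ← _root_.conj_pow,
        ← _root_.conj_pow]
      exact mul_mem (pow_mem (h1 _ (hKn.conj_mem x hx g)) _) (hzW (pw_mem z b))⟩
    obtain ⟨w, w1, w2, w3, w4⟩ := plane_cen hP hz _ hW (fun v => plane_exp hz hup)
      (hzW (mem_zpowers z))
    exact ⟨w, K, H1 w w2 w3, w2, w1, hK, hWK (w4 ▸ mem_sup_left (mem_zpowers w)), hzK, w4 ▸ h1⟩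
  push Not at h1
  obtain ⟨y, hy, hyV, hyW⟩ : ∃ y ∈ K, y ^ p ^ (j + 1) ∈ V ∧
      y ^ p ^ (j + 1) ∉ zpowers (x ^ p ^ (j + 1)) ⊔ zpowers z := by
    obtain ⟨y, hy, hyW⟩ := h1
    obtain ⟨i, hi⟩ := s2 x hx hxV y hy
    obtain ⟨T, t1, -⟩ := exists_S hp2 hKc hW hWK (fun g hg v hv => by
      obtain ⟨a, b, rfl⟩ := plane_pow hz hup hv
      exact ((huK g hg).pow_right _).mul_right (pw_comm hz.comm b g)) fun g _ => hzW (he g)
    refine ⟨_, ((s1 _).1 hi).1, ((s1 _).1 hi).2, fun h => hyW ((t1 y).1 ?_).2⟩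
    simpa using T.mul_mem (T.zpow_mem ((t1 x).2 ⟨hx, huW⟩) i) ((t1 _).2 ⟨((s1 _).1 hi).1, h⟩)
  have hzp : ∀ v ∈ zpowers z, v ^ p = 1 := fun v hv => hVp v (hzV hv)
  have hy1 : y ^ p ^ (j + 1) ≠ 1 := fun e => hyW (e ▸ one_mem _)
  have hzy : z ∉ zpowers y := fun h =>
    hyW (hzW (mem_of_cyc h (npow_mem_zpowers y _) hz.ne hz.pow (hKe y hy)))
  have hY : ∀ g ∈ zpowers y, g ^ p ∈ zpowers z → g ∈ V := fun g h1 h2 =>
    zpowers_le.2 hyV (mem_of_cyc (npow_mem_zpowers y _) h1 hy1 (hKe y hy) (by_contra fun e =>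
      hzy (zpowers_le.2 (pow_mem h1 p) (zp_eq e (hzp _ h2) hz.ne hz.pow h2))))
  have key : ∀ a, a ∉ K → Commute a (x ^ p ^ (j + 1)) := fun a ha => by
    obtain ⟨L, l1, l0, l2, -⟩ := lemQ hp2 hE hK hV hVK hVc (fun g => hzV (he g)) hx hxV ha
    obtain ⟨T, t1, -, t3⟩ := exists_S hp2 (max_card hE l1) hV
      (fun v hv => l2 v (hVK hv) (V.pow_mem hv _)) (fun g _ => hcc g) fun g _ => hzV (he g)
    have c1 : Commute y (a ^ p ^ (j + 1)) := t3 a l0 y ((t1 y).2 ⟨l2 y hy hyV, hyV⟩)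
    have c2 : a ^ p ^ (j + 1) ∈ K := by
      rw [pow_succ', pow_mul]
      exact K.pow_mem (max_index hK ▸ K.pow_index_mem a) _
    have c3 : Commute a (a ^ p ^ (j + 1)) := (Commute.refl a).pow_right _
    have c4 := he a
    have c5 := hA a ha
    generalize a ^ p ^ (j + 1) = t at c1 c2 c3 c4 c5
    have c6 : ∀ g ∈ zpowers t ⊔ V, g ^ p ∈ zpowers z ∧ Commute a g ∧ Commute y g := fun g hg => by
      obtain ⟨_, ⟨i, rfl⟩, v, hv, rfl⟩ := mem_sup_of_normal_right.1 hg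
      refine ⟨?_, (c3.zpow_right i).mul_right (hcc a v hv), (c1.zpow_right i).mul_right (hcc y v hv)⟩
      beta_reduce
      rw [Commute.mul_pow (hcc _ v hv), hVp v hv, mul_one, ← zpow_natCast, ← zpow_mul, mul_comm,
        zpow_mul, zpow_natCast]
      exact zpow_mem c4 i
    have c7 : zpowers t ⊔ V ≤ K := sup_le (zpowers_le.2 c2) hVK
    have d1 := lt_card hP (H := zpowers y) (L := zpowers y ⊔ zpowers z) le_sup_left
      (mem_sup_right (mem_zpowers z)) hzy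
    have d2 := lt_card hP (H := zpowers y ⊔ zpowers z) (L := (zpowers t ⊔ V) ⊔ zpowers y)
      (sup_le le_sup_right (hzV.trans (le_sup_right.trans le_sup_left)))
      (mem_sup_left (mem_sup_left (mem_zpowers t))) fun h => by
        obtain ⟨g, hg, v, hv, e⟩ := mem_sup_of_normal_right.1 h
        refine c5 (e ▸ V.mul_mem (hY g hg ?_) (hzV hv))
        rwa [← e, Commute.mul_pow (hcc g v (hzV hv)), hzp v hv, mul_one] at c4
    have d3 := ord_ge hP hy1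
    have d4 := ord_ge hP (x := x) (j := j + 1) fun e => hxV (e ▸ one_mem _)
    have d5 : ¬Disjoint ((zpowers t ⊔ V) ⊔ zpowers y) (zpowers x) := fun h => by
      have d6 := card_disj (sup_le c7 (zpowers_le.2 hy)) (zpowers_le.2 hx) h
      have d7 := (Nat.mul_le_mul (((Nat.mul_le_mul_left p
        ((Nat.mul_le_mul_left p d3).trans d1))).trans d2) d4).trans d6
      rw [hKc, ← pow_succ', ← pow_succ', ← pow_add, Nat.pow_le_pow_iff_right h1p] at d7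
      omega
    rw [disjoint_def'] at d5
    push Not at d5
    obtain ⟨g, _, g1, g2, rfl, g3⟩ := d5
    obtain ⟨u, u1, u2, u3⟩ := exists_ord hP g3
    have d8 : x ^ p ^ (j + 1) ∈ (((zpowers t ⊔ V) ⊔ zpowers y : Subgroup E) : Set E) :=
      zpowers_le.2 (zpowers_le.2 g1 u1)
        (mem_of_cyc (zpowers_le.2 g2 u1) (npow_mem_zpowers x _) u2 u3 hup)
    rw [coe_mul_of_left_le_normalizer_right _ _ fun g hg => centralizer_le_normalizer _ (by
      rintro _ ⟨i, rfl⟩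
      exact (c6 g hg).2.2.zpow_left i)] at d8
    obtain ⟨g, hg, s, hs, e⟩ := d8
    beta_reduce at e
    rw [← e]
    refine (c6 g hg).2.1.mul_right (hcc a s (hY s hs ?_))
    rw [eq_inv_mul_of_mul_eq e, (huK g (c7 hg)).inv_left.mul_pow, hup, mul_one, inv_pow]
    exact inv_mem (c6 g hg).1
  have huc : x ^ p ^ (j + 1) ∈ center E := mem_center_iff.2 fun g =>
    (em (g ∈ K)).elim (huK g) (key g)
  have hWc : zpowers (x ^ p ^ (j + 1)) ⊔ zpowers z ≤ center E :=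
    sup_le (zpowers_le.2 huc) (zpowers_le.2 hzc)
  obtain ⟨a, ha⟩ := exists_out hK
  obtain ⟨L, l1, l0, l2, -⟩ := lemQ hp2 hE hK hV hVK hVc (fun g => hzV (he g)) hx hxV ha
  obtain ⟨T, t1, t2, -⟩ := exists_S hp2 (max_card hE l1) hW
    (fun v hv => l2 v (hWK hv) (by
      rw [pow_succ', pow_mul, plane_exp hz hup hv, one_pow]; exact one_mem _))
    (fun g _ v hv => mem_center_iff.1 (hWc hv) g) fun g _ => hzW (he g)
  obtain ⟨i, hi⟩ := t2 y (l2 y hy hyV) hyW a l0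
  obtain ⟨M, m1, -, m2, m3⟩ := lemQ hp2 hE hK hW hWK hWc (fun g => hzW (he g)) hy hyW
    (a := (y ^ i)⁻¹ * a) fun h => ha ((K.mul_mem_cancel_left (K.inv_mem (K.zpow_mem hy i))).1 h)
  exact ⟨_, M, huc, hup, huz, m1, m2 _ (hWK huW) (pow_mem huW _),
    m2 z hzK (pow_mem (hzW (mem_zpowers z)) _), m3 ((t1 _).1 hi).2⟩

theorem shp_pre (hp2 : 2 < p) {j : ℕ} (hE : Nat.card E = p ^ (2 * j + 1 + 2 + 1)) {z : E}
    (hz : Cen p z) (he : ∀ g : E, (g ^ p ^ j) ^ p ∈ zpowers z) : (∃ m X, Good z m X) ∨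
      ((∀ w, w ^ p = 1 → w ∈ Up hz → w ∈ center E) ∧ ∃ (c : E) (K : Subgroup E), c ∈ center E ∧
        c ^ p = 1 ∧ c ∉ zpowers z ∧ Nat.card E = p * Nat.card K ∧ c ∈ K ∧ z ∈ K ∧
          ∀ g ∈ K, (g ^ p ^ j) ^ p = 1) := by
  have hP : IsPGroup p E := .of_card hE
  have h1p := hp.out.one_lt
  have hzp : ∀ v ∈ zpowers z, v ^ p = 1 := fun v hv => by
    obtain ⟨i, rfl⟩ := exists_pw hz.pow hv
    exact pw_pow_p hz.pow i
  by_cases H1 : ∀ w, w ^ p = 1 → w ∈ Up hz → w ∈ center E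
  swap
  · push Not at H1
    obtain ⟨w, hw, hu, hc⟩ := H1
    have := plane_normal hz hu
    have hwz : w ∉ zpowers z := fun e => hc (zpowers_le.2 (mem_center_iff.2 hz.comm) e)
    obtain ⟨x, hx⟩ : ∃ x, x ∉ centralizer {w} := by
      by_contra hne
      push Not at hne
      exact hc (mem_center_iff.2 fun g => cent_iff.1 (hne g))
    refine .inl (good_plane hP hz hwz hw hu hx fun h => ?_)
    have e1 := card_zp_le (x := (x : E ⧸ (zpowers w ⊔ zpowers z))) (k := p ^ j * p) (by positivity)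
      (by rw [pow_mul]; exact (QuotientGroup.eq_one_iff _).2 (mem_sup_right (he x)))
    have e2 : zpowers (x : E ⧸ (zpowers w ⊔ zpowers z)) = ⊤ := eq_top_iff.2 fun g _ => by
      obtain ⟨g, rfl⟩ := QuotientGroup.mk_surjective g
      obtain ⟨_, ⟨k, rfl⟩, b, hb, rfl⟩ := mem_sup_of_normal_right.1 (h ▸ mem_top g)
      exact ⟨k, by rw [QuotientGroup.mk_mul_of_mem _ hb]; rfl⟩
    rw [e2, card_top, card_quot (n := 2 * j + 2) hE (plane_card hz hwz hw), ← pow_succ,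
      Nat.pow_le_pow_iff_right h1p] at e1
    omega
  obtain ⟨c, hcz, hcp, hu⟩ := exists_plane hp2 _ E hE (fun h => by
    obtain ⟨c, hc⟩ := h.exists_ofOrder_eq_natCard
    have := orderOf_le_of_pow_eq_one (x := c) (n := p ^ j * p * p) (by positivity)
      (by rw [pow_mul, pow_mul]; exact hzp _ (he c))
    rw [hc, hE, ← pow_succ, ← pow_succ, Nat.pow_le_pow_iff_right h1p] at this
    omega) z hz
  have hc := H1 c hcp hu
  have hc' : Cen p c := ⟨mem_center_iff.1 hc, fun e => hcz (e ▸ one_mem _), hcp⟩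
  have := hc'.normal
  obtain ⟨-, -, -, h3⟩ := power_hom hp2 (j + 1) (E ⧸ zpowers c) _ (card_quot (m := 1) hE
    ((card_zp hc'.ne hcp).trans (pow_one p).symm)) le_rfl
  have he' : ∀ g : E, g ^ p ^ (j + 1) ∈ zpowers z := fun g => by rw [pow_succ, pow_mul]; exact he g
  let φ : E →* E := MonoidHom.mk' (fun a => a ^ p ^ (j + 1)) fun a b => by
    have e1 : ((a * b) ^ p ^ (j + 1))⁻¹ * (a ^ p ^ (j + 1) * b ^ p ^ (j + 1)) ∈ zpowers c :=
      QuotientGroup.eq.1 (h3 a b)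
    have e2 := mul_mem (inv_mem (he' (a * b))) (mul_mem (he' a) (he' b))
    exact inv_mul_eq_one.1 (by_contra fun e =>
      hcz (zpowers_le.2 e2 (zp_eq e (hzp _ e2) hc'.ne hcp e1)))
  have hk : ∀ g ∈ φ.ker, (g ^ p ^ j) ^ p = 1 := fun g hg => by
    rw [← pow_mul, ← pow_succ]; exact hg
  have hpp : ∀ y : E, y ^ p = 1 → y ∈ φ.ker := fun y h => by
    change y ^ p ^ (j + 1) = 1
    rw [pow_succ', pow_mul, h, one_pow]
  have h4 : Nat.card φ.range ∣ p := card_zp hz.ne hz.pow ▸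
    card_dvd_of_le (by rintro _ ⟨a, rfl⟩; exact he' a)
  refine .inr ⟨H1, c, ?_⟩
  rcases (Nat.dvd_prime hp.out).1 h4 with h5 | h5
  · obtain ⟨M, h6, -, h7⟩ := exists_max hE (H := zpowers c ⊔ zpowers z) fun h => by
      have := plane_card hz hcz hcp
      rw [h, card_top, hE, Nat.pow_right_inj h1p] at this
      omega
    simp only [sup_le_iff, zpowers_le] at h6
    exact ⟨M, hc, hcp, hcz, h7, h6.1, h6.2, fun y _ => hk y
      (mem_bot.1 (card_eq_one.1 h5 ▸ MonoidHom.mem_range.2 ⟨y, rfl⟩ : φ y ∈ (⊥ : Subgroup E)))⟩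
  · exact ⟨φ.ker, hc, hcp, hcz, by rw [← h5, ← index_ker, index_mul_card], hpp c hcp,
      hpp z hz.pow, hk⟩

theorem shp (hp2 : 2 < p) (j : ℕ) : ∀ (E : Type u) [Group E] [Finite E],
    Nat.card E = p ^ (2 * j + 1 + 2 + 1) → ∀ z : E, Cen p z →
      (∀ g : E, (g ^ p ^ j) ^ p ∈ zpowers z) → ∃ m X, Good z m X := by
  induction j with
  | zero =>
    intro E _ _ hE z hz he
    rcases shp_pre hp2 hE hz he with h | ⟨-, c, K, c1, c2, c3, k1, k2, k3, k4⟩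
    · exact h
    refine rec_cen (.of_card hE) hz c1 c2 c3 k1 k2 k3 fun Q _ _ f i hf _ hQ hz' =>
      exp_good hp2 2 Q (Nat.eq_of_mul_eq_mul_left hp.out.pos
        (by rw [← hQ, max_card hE k1, ← pow_succ'])) (fun y => ?_) _ hz'
    obtain ⟨y, rfl⟩ := hf y
    rw [← map_pow, ← f.map_one]
    exact congrArg f (Subtype.ext (by simpa using k4 y y.2))
  | succ j ih =>
    intro E _ _ hE z hz he
    rcases shp_pre hp2 hE hz he with h | ⟨H1, c, K, c1, c2, c3, k1, k2, k3, k4⟩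
    · exact h
    obtain ⟨c, K, c1, c2, c3, k1, k2, k3, k4⟩ := find_pair hp2 hE hz he H1 c1 c2 c3 k1 k2 k3 k4
    refine rec_cen (.of_card hE) hz c1 c2 c3 k1 k2 k3 fun Q _ _ f i hf hk hQ hz' =>
      ih Q (Nat.eq_of_mul_eq_mul_left hp.out.pos
        (by rw [← hQ, max_card hE k1, ← pow_succ']; rfl)) _ hz' fun y => ?_
    obtain ⟨y, rfl⟩ := hf y
    have e1 : f ⟨c, k2⟩ * f ⟨z, k3⟩ ^ i.val = 1 := by
      rw [← map_pow, ← map_mul]
      exact (hk _).2 (mem_zpowers _)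
    obtain ⟨a, b, e2⟩ := plane_pow hz c2 (k4 y y.2)
    have e3 : y ^ p ^ (j + 1) = ⟨c, k2⟩ ^ a.val * ⟨z, k3⟩ ^ b.val := Subtype.ext e2
    rw [← pow_mul, ← pow_succ, ← map_pow, e3, map_mul, map_pow, map_pow,
      eq_inv_of_mul_eq_one_left e1]
    exact mul_mem (pow_mem (inv_mem (npow_mem_zpowers _ _)) _) (npow_mem_zpowers _ _)

theorem odd_sharp (hp2 : 2 < p) {n : ℕ} (hE : Nat.card E = p ^ n) (hn : n ≠ 0)
    (he : ∀ x : E, x ^ p ^ ((n + 1) / 2) = 1)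
    (hx : ¬∃ A B : Subgroup E, IsCyclic A ∧ IsCyclic B ∧ Nat.card A = Nat.card B ∧
      p < Nat.card A ∧ A.IsComplement' B) : ∃ z : E, Cen p z ∧ ∃ m X, Good z m X := by
  have hP : IsPGroup p E := .of_card hE
  have h1p := hp.out.one_lt
  have : Nontrivial E := Finite.one_lt_card_iff_nontrivial.1 (hE ▸ Nat.one_lt_pow hn h1p)
  obtain ⟨z, hz⟩ := exists_cen hP
  obtain ⟨k, rfl | rfl⟩ := Nat.even_or_odd' n
  swap
  · exact ⟨z, hz, _, odd_good hp2 k E hE (by rwa [show k + 1 = (2 * k + 1 + 1) / 2 by omega]) z hz⟩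
  rw [show (2 * k + 1) / 2 = k by omega] at he
  rcases k with _ | _ | j
  · omega
  · exact ⟨z, hz, exp_good hp2 _ E hE (by simpa using he) z hz⟩
  have he2 : ∀ x : E, ((x ^ p ^ j) ^ p) ^ p = 1 := fun x => by
    rw [← pow_mul, ← pow_mul, ← mul_assoc, ← pow_succ, ← pow_succ, he]
  by_cases h : ∀ g : E, (g ^ p ^ j) ^ p = 1
  · exact ⟨z, hz, shp hp2 j E hE z hz fun g => h g ▸ one_mem _⟩
  push Not at h
  obtain ⟨a, ha⟩ := h
  have ord : ∀ b : E, (b ^ p ^ j) ^ p ≠ 1 → Nat.card (zpowers b) = p ^ (j + 1 + 1) := fun b hb =>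
    (card_zp_le (by positivity) (he b)).antisymm (ord_ge hP (by rwa [pow_succ, pow_mul]))
  have mem : ∀ b : E, (b ^ p ^ j) ^ p ∈ zpowers b := fun b => pow_mem (npow_mem_zpowers b _) p
  have h : ∀ g : E, (g ^ p ^ j) ^ p ∈ zpowers ((a ^ p ^ j) ^ p) := fun b => by_contra fun hb => by
    have hb1 : (b ^ p ^ j) ^ p ≠ 1 := fun e => hb (e ▸ one_mem _)
    refine hx ⟨zpowers a, zpowers b, inferInstance, inferInstance, by rw [ord a ha, ord b hb1],
      by rw [ord a ha]; exact lt_of_eq_of_lt (pow_one p).symm (Nat.pow_lt_pow_right h1p (by omega)),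
      isComplement'_of_card_mul_and_disjoint (by rw [ord a ha, ord b hb1, hE, ← pow_add, two_mul])
        (disjoint_def.2 fun {g} g1 g2 => by_contra fun g3 => ?_)⟩
    obtain ⟨u, u1, u2, u3⟩ := exists_ord hP g3
    exact hb (zpowers_le.2 (mem_of_cyc (mem a) (zpowers_le.2 g1 u1) ha (he2 a) u3)
      (mem_of_cyc (zpowers_le.2 g2 u1) (mem b) u2 u3 (he2 b)))
  have : (zpowers ((a ^ p ^ j) ^ p)).Normal := ⟨by
    rintro _ ⟨i, rfl⟩ g
    rw [← conj_zpow, ← _root_.conj_pow, ← _root_.conj_pow]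
    exact zpow_mem (h _) i⟩
  obtain ⟨y, y1, y2, y3⟩ := normal_cen hP (zpowers ((a ^ p ^ j) ^ p)) (by simpa using ha)
  have y4 : y ^ p = 1 := by
    obtain ⟨i, rfl⟩ := exists_pw (he2 a) y1
    exact pw_pow_p (he2 a) i
  exact ⟨y, ⟨y3, y2, y4⟩, shp hp2 j E hE y ⟨y3, y2, y4⟩ fun g =>
    zpowers_le.2 (zp_eq y2 y4 ha (he2 a) y1) (h g)⟩

end Pool.Agent.Lib.MP_2d211a_co.H62
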