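import Mathlib

open Finset

namespace Pool.Agent.Lib.MP_2d211a_co

variable {G : Type*} [AddCommGroup G]

/-- The subgroup `n G`. -/
def rg (G : Type*) [AddCommGroup G] (n : ℕ) : AddSubgroup G := (nsmulAddMonoidHom n : G →+ G).range

/-- The subgroup of elements killed by `n`. -/
def kr (G : Type*) [AddCommGroup G] (n : ℕ) : AddSubgroup G := (nsmulAddMonoidHom n : G →+ G).ker

theorem mem_rg {n : ℕ} {x : G} : x ∈ rg G n ↔ ∃ y, n • y = x := Iff.rfl

theorem mem_kr {n : ℕ} {x : G} : x ∈ kr G n ↔ n • x = 0 := Iff.rfl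

theorem card_ker_range {B : Type*} [AddCommGroup B] (f : G →+ B) :
    Nat.card f.ker * Nat.card f.range = Nat.card G := by
  rw [← AddSubgroup.index_ker, AddSubgroup.card_mul_index]

theorem card_map_mul {B : Type*} [AddCommGroup B] (f : G →+ B) (A : AddSubgroup G) :
    Nat.card (A ⊓ f.ker : AddSubgroup G) * Nat.card (A.map f) = Nat.card A := by
  rw [← card_ker_range (f.comp A.subtype), AddMonoidHom.range_comp, AddSubgroup.range_subtype]
  congr 1
  refine Nat.card_congr ⟨fun a => ⟨⟨a.1, a.2.1⟩, a.2.2⟩, fun a => ⟨a.1.1, a.1.2, a.2⟩,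
    fun _ => rfl, fun _ => rfl⟩

theorem card_kr_rg (n : ℕ) : Nat.card (kr G n) * Nat.card (rg G n) = Nat.card G :=
  card_ker_range _

theorem rg_succ (p i : ℕ) : (rg G (p ^ i)).map (nsmulAddMonoidHom p) = rg G (p ^ (i + 1)) := by
  ext x
  simp only [AddSubgroup.mem_map, mem_rg, nsmulAddMonoidHom_apply]
  constructor
  · rintro ⟨_, ⟨y, rfl⟩, rfl⟩
    exact ⟨y, by rw [pow_succ', mul_smul]⟩
  · rintro ⟨y, rfl⟩
    exact ⟨_, ⟨y, rfl⟩, by rw [pow_succ', mul_smul]⟩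

theorem chain (p i : ℕ) : Nat.card (rg G (p ^ i) ⊓ kr G p : AddSubgroup G) *
    Nat.card (rg G (p ^ (i + 1))) = Nat.card (rg G (p ^ i)) := by
  rw [← rg_succ]; exact card_map_mul _ _

theorem rg_one : rg G 1 = ⊤ := by
  rw [AddSubgroup.eq_top_iff']; exact fun x => ⟨x, one_smul _ _⟩

theorem rg_anti (p : ℕ) {i j : ℕ} (h : i ≤ j) : rg G (p ^ j) ≤ rg G (p ^ i) := by
  rintro _ ⟨y, rfl⟩
  obtain ⟨d, rfl⟩ := Nat.exists_eq_add_of_le h
  exact ⟨p ^ d • y, by simp [pow_add, mul_smul]⟩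

variable [Finite G]

theorem card_le_pow (p k : ℕ) (h : ∀ x : G, p ^ k • x = 0) :
    Nat.card G ≤ Nat.card (kr G p) ^ k := by
  have : ∀ i, Nat.card G ≤ Nat.card (kr G p) ^ i * Nat.card (rg G (p ^ i)) := by
    intro i
    induction i with
    | zero => simp [rg_one]
    | succ i ih =>
      refine ih.trans ?_
      rw [← chain p i, pow_succ (Nat.card (kr G p)), mul_assoc]
      exact Nat.mul_le_mul_left _ (Nat.mul_le_mul_right _ (AddSubgroup.card_le_of_le inf_le_right))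
  have h1 : rg G (p ^ k) = ⊥ := by
    rw [eq_bot_iff]; rintro _ ⟨y, rfl⟩; exact h y
  simpa [h1] using this k

theorem pow_le_card_rg (p k : ℕ) (h : ∀ x : G, p ^ (k + 1) • x = 0) (d j : ℕ) (hj : j + d = k + 1) :
    Nat.card (rg G (p ^ k)) ^ d ≤ Nat.card (rg G (p ^ j)) := by
  induction d generalizing j with
  | zero => rw [pow_zero]; exact Nat.card_pos
  | succ d ih =>
    rw [← chain p j, pow_succ']
    refine Nat.mul_le_mul (AddSubgroup.card_le_of_le (le_inf (rg_anti p (by omega)) ?_))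
      (ih (j + 1) (by omega))
    rintro _ ⟨y, rfl⟩
    rw [mem_kr, nsmulAddMonoidHom_apply, ← mul_smul, ← pow_succ']
    exact h y

theorem pow_le_card_rg' (p k d j : ℕ) (hj : j + d = k + 1) :
    Nat.card (rg G (p ^ k) ⊓ kr G p : AddSubgroup G) ^ d ≤ Nat.card (rg G (p ^ j)) := by
  induction d generalizing j with
  | zero => rw [pow_zero]; exact Nat.card_pos
  | succ d ih =>
    rw [← chain p j, pow_succ']
    exact Nat.mul_le_mul (AddSubgroup.card_le_of_le (inf_le_inf_right _ (rg_anti p (by omega))))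
      (ih (j + 1) (by omega))

omit [Finite G] in
theorem card_sub_pow {p n : ℕ} (hp : p.Prime) (hG : Nat.card G = p ^ n) (A : AddSubgroup G) :
    ∃ i ≤ n, Nat.card A = p ^ i :=
  (Nat.dvd_prime_pow hp).1 (hG ▸ A.card_addSubgroup_dvd_card)

theorem card_mul_le_of_lt {p n : ℕ} (hp : p.Prime) (hG : Nat.card G = p ^ n)
    {A B : AddSubgroup G} (h : A < B) : p * Nat.card A ≤ Nat.card B := by
  obtain ⟨i, -, hi⟩ := card_sub_pow hp hG A
  obtain ⟨j, -, hj⟩ := card_sub_pow hp hG B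
  have : Nat.card A < Nat.card B := by
    by_contra hle
    exact h.ne (AddSubgroup.eq_of_le_of_card_ge h.le (not_lt.1 hle))
  rw [hi, hj] at this ⊢
  rw [← pow_succ']
  exact Nat.pow_le_pow_right hp.pos ((Nat.pow_lt_pow_iff_right hp.one_lt).1 this)

omit [Finite G] in
theorem nakayama {p m : ℕ} (h : ∀ x : G, p ^ m • x = 0) (B : AddSubgroup G)
    (hB : B ⊔ rg G p = ⊤) : B = ⊤ := by
  have : ∀ k x, ∃ b ∈ B, ∃ y : G, x = b + p ^ k • y := by
    intro k
    induction k with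
    | zero => exact fun x => ⟨0, B.zero_mem, x, by simp⟩
    | succ k ih =>
      intro x
      obtain ⟨b, hb, y, rfl⟩ := ih x
      obtain ⟨b', hb', _, ⟨z, rfl⟩, rfl⟩ := AddSubgroup.mem_sup.1 (hB ▸ AddSubgroup.mem_top y)
      refine ⟨b + p ^ k • b', B.add_mem hb (B.nsmul_mem hb' _), z, ?_⟩
      simp [pow_succ, mul_smul, add_assoc]
  rw [AddSubgroup.eq_top_iff']
  intro x
  obtain ⟨b, hb, y, rfl⟩ := this m x
  rwa [h, add_zero]

theorem std_prim (N : ℕ) [NeZero N] : IsPrimitiveRoot (ZMod.stdAddChar (1 : ZMod N)) N := by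
  have := ZMod.stdAddChar_coe (N := N) 1
  rw [Int.cast_one] at this
  rw [this]
  simpa using Complex.isPrimitiveRoot_exp N (NeZero.ne N)

theorem std_nat (N : ℕ) [NeZero N] (i : ℕ) :
    ZMod.stdAddChar (i : ZMod N) = ZMod.stdAddChar (1 : ZMod N) ^ i := by
  rw [← AddChar.map_nsmul_eq_pow, nsmul_one]

omit [Finite G] in
theorem char_log (N : ℕ) [NeZero N] (χ : AddChar G ℂ) (h : ∀ x, χ x ^ N = 1) :
    ∃ f : G →+ ZMod N, ∀ x, χ x = ZMod.stdAddChar (f x) := by
  have : ∀ x, ∃ k : ZMod N, χ x = ZMod.stdAddChar k := fun x => by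
    obtain ⟨i, -, hi⟩ := (std_prim N).eq_pow_of_pow_eq_one (h x)
    exact ⟨i, by rw [std_nat, hi]⟩
  choose f hf using this
  refine ⟨AddMonoidHom.mk' f fun a b => ZMod.injective_stdAddChar ?_, hf⟩
  rw [AddChar.map_add_eq_mul, ← hf, ← hf, ← hf, AddChar.map_add_eq_mul]

theorem exists_hom {p : ℕ} [hp : Fact p.Prime] (B : AddSubgroup G) (z : G)
    (hz : z ∉ B ⊔ rg G p) : ∃ c : G →+ ZMod p, (∀ b ∈ B, c b = 0) ∧ c z = 1 := by
  have h1 : (QuotientAddGroup.mk z : G ⧸ (B ⊔ rg G p)) ≠ 0 := by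
    rwa [Ne, QuotientAddGroup.eq_zero_iff]
  obtain ⟨ψ, hψ⟩ := AddChar.exists_apply_ne_zero.2 h1
  obtain ⟨f, hf⟩ := char_log p (ψ.compAddMonoidHom (QuotientAddGroup.mk' (B ⊔ rg G p))) (fun x => by
    rw [← AddChar.map_nsmul_eq_pow, AddChar.compAddMonoidHom_apply, QuotientAddGroup.mk'_apply,
      (QuotientAddGroup.eq_zero_iff _).2 (AddSubgroup.mem_sup_right (mem_rg.2 ⟨x, rfl⟩)),
      AddChar.map_zero_eq_one])
  have h2 : f z ≠ 0 := fun h => hψ (by
    have := hf z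
    rwa [h, AddChar.map_zero_eq_one] at this)
  refine ⟨(AddMonoidHom.mulLeft (f z)⁻¹).comp f, fun b hb => ?_, by simp [h2]⟩
  have := hf b
  rw [AddChar.compAddMonoidHom_apply, QuotientAddGroup.mk'_apply,
    (QuotientAddGroup.eq_zero_iff _).2 (AddSubgroup.mem_sup_left hb),
    AddChar.map_zero_eq_one, ← (ZMod.stdAddChar (N := p)).map_zero_eq_one] at this
  simp [← ZMod.injective_stdAddChar this]

theorem exists_hom' {p m : ℕ} [hp : Fact p.Prime] (h : ∀ x : G, p ^ m • x = 0) (B : AddSubgroup G)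
    (hB : B ≠ ⊤) : ∃ (c : G →+ ZMod p) (z : G), (∀ b ∈ B, c b = 0) ∧ c z = 1 := by
  obtain ⟨z, hz⟩ : ∃ z, z ∉ B ⊔ rg G p := by
    by_contra hne
    push Not at hne
    exact hB (nakayama h B ((AddSubgroup.eq_top_iff' _).2 hne))
  obtain ⟨c, hc⟩ := exists_hom B z hz
  exact ⟨c, z, hc⟩

omit [Finite G] in
theorem card_ker_hom {p : ℕ} [hp : Fact p.Prime] (c : G →+ ZMod p) {z : G} (hz : c z = 1) :
    Nat.card c.ker * p = Nat.card G := by
  have : c.range = ⊤ := by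
    rw [AddSubgroup.eq_top_iff']
    exact fun a => ⟨a.val • z, by simp [hz]⟩
  rw [← card_ker_range c, this]; simp

theorem hom_step {p n k : ℕ} [hp : Fact p.Prime] (hG : Nat.card G = p ^ n)
    (h : ∀ x : G, p ^ (k + 1) • x = 0) (hT : Nat.card (rg G (p ^ k)) < p ^ 2) (B : AddSubgroup G)
    (hB : B ≠ ⊤) (hBk : B ≤ kr G (p ^ k)) :
    ∃ (c : G →+ ZMod p) (z : G), (∀ b ∈ B, c b = 0) ∧ c z = 1 ∧ ∀ x, c x = 0 → p ^ k • x = 0 := by
  by_cases hk : kr G (p ^ k) = ⊤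
  · obtain ⟨c, z, h1, h2⟩ := exists_hom' h B hB
    exact ⟨c, z, h1, h2, fun x _ => mem_kr.1 (hk ▸ AddSubgroup.mem_top x)⟩
  · obtain ⟨c, z, h1, h2⟩ := exists_hom' h _ hk
    refine ⟨c, z, fun b hb => h1 b (hBk hb), h2, fun x hx => ?_⟩
    have hle : kr G (p ^ k) ≤ c.ker := h1
    have e1 := card_ker_hom c h2
    have e2 := card_kr_rg (G := G) (p ^ k)
    by_contra hne
    have := card_mul_le_of_lt hp.out hG (lt_of_le_of_ne hle (fun h' => hne (mem_kr.1 (h' ▸ hx))))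
    have hpos : 0 < Nat.card (kr G (p ^ k)) := Nat.card_pos
    have h3 : Nat.card (kr G (p ^ k)) * p ^ 2 ≤ Nat.card G := by
      rw [← e1]; nlinarith [hp.out.pos]
    nlinarith

omit [Finite G] in
theorem card_closure_two (N M : ℕ) (x y : G) (hx : N • x = 0) (hy : M • y = 0) :
    ∃ φ : ZMod N × ZMod M →+ G,
      φ.range = AddSubgroup.zmultiples x ⊔ AddSubgroup.zmultiples y := by
  let fx : ZMod N →+ G := ZMod.lift N ⟨zmultiplesHom G x, by simpa using hx⟩
  let fy : ZMod M →+ G := ZMod.lift M ⟨zmultiplesHom G y, by simpa using hy⟩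
  have h1 : ∀ a : ℤ, fx a = a • x := fun a => ZMod.lift_coe _ _ a
  have h2 : ∀ a : ℤ, fy a = a • y := fun a => ZMod.lift_coe _ _ a
  refine ⟨fx.coprod fy, ?_⟩
  ext g
  rw [AddSubgroup.mem_sup]
  constructor
  · rintro ⟨⟨a, b⟩, rfl⟩
    refine ⟨fx a, ?_, fy b, ?_, rfl⟩
    · rw [← ZMod.intCast_zmod_cast a, h1]; exact ⟨_, rfl⟩
    · rw [← ZMod.intCast_zmod_cast b, h2]; exact ⟨_, rfl⟩
  · rintro ⟨_, ⟨a, rfl⟩, _, ⟨b, rfl⟩, rfl⟩
    exact ⟨((a : ZMod N), (b : ZMod M)), by rw [AddMonoidHom.coprod_apply, h1, h2]⟩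

omit [Finite G] in
theorem two_ne_top (N M : ℕ) [NeZero N] [NeZero M] (x y : G) (hx : N • x = 0) (hy : M • y = 0)
    (h : N * M < Nat.card G) : AddSubgroup.zmultiples x ⊔ AddSubgroup.zmultiples y ≠ ⊤ := by
  obtain ⟨φ, hφ⟩ := card_closure_two N M x y hx hy
  intro ht
  have := Nat.card_le_card_of_surjective φ (AddMonoidHom.range_eq_top.1 (hφ.trans ht))
  rw [Nat.card_prod, Nat.card_zmod, Nat.card_zmod] at this
  omega

/-- A group of order `p^(2k)`, exponent dividing `p^k` and rank at most two is homocyclic. -/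
theorem equiv_of_rank_two {p k : ℕ} [hp : Fact p.Prime] (hG : Nat.card G = p ^ (2 * k))
    (h : ∀ x : G, p ^ k • x = 0) (hr : Nat.card (kr G p) < p ^ 3) :
    Nonempty (G ≃+ ZMod (p ^ k) × ZMod (p ^ k)) := by
  have step : ∀ A : AddSubgroup G, ∃ x, A ⊔ AddSubgroup.zmultiples x = ⊤ ∨
      p * Nat.card A ≤ Nat.card (A ⊔ AddSubgroup.zmultiples x : AddSubgroup G) := by
    intro A
    by_cases hA : A = ⊤
    · exact ⟨0, Or.inl (by simp [hA])⟩
    · obtain ⟨x, hx⟩ : ∃ x, x ∉ A := by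
        by_contra hne
        push Not at hne
        exact hA ((AddSubgroup.eq_top_iff' _).2 hne)
      refine ⟨x, Or.inr (card_mul_le_of_lt hp.out hG (lt_of_le_of_ne le_sup_left fun h' => hx ?_))⟩
      rw [h']; exact AddSubgroup.mem_sup_right (AddSubgroup.mem_zmultiples x)
  obtain ⟨x, hx⟩ := step (rg G p)
  obtain ⟨y, hy⟩ := step (rg G p ⊔ AddSubgroup.zmultiples x)
  have htop : rg G p ⊔ AddSubgroup.zmultiples x ⊔ AddSubgroup.zmultiples y = ⊤ := by
    by_contra hne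
    have hy := hy.resolve_left hne
    have hx := hx.resolve_left (fun h' => hne (by rw [h', top_sup_eq]))
    have h3 := card_mul_le_of_lt hp.out hG (lt_top_iff_ne_top.2 hne)
    rw [AddSubgroup.card_top, ← card_kr_rg (G := G) p] at h3
    have hpos : 0 < Nat.card (rg G p) := Nat.card_pos
    have h4 : p ^ 3 * Nat.card (rg G p) ≤ Nat.card (kr G p) * Nat.card (rg G p) := by
      refine le_trans ?_ h3
      calc p ^ 3 * Nat.card (rg G p) = p * (p * (p * Nat.card (rg G p))) := by ring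
        _ ≤ _ := Nat.mul_le_mul_left _ ((Nat.mul_le_mul_left _ hx).trans hy)
    have := Nat.le_of_mul_le_mul_right h4 hpos
    omega
  have h2 := nakayama h (AddSubgroup.zmultiples x ⊔ AddSubgroup.zmultiples y)
    (by rw [sup_comm, ← sup_assoc, htop])
  obtain ⟨φ, hφ⟩ := card_closure_two (p ^ k) (p ^ k) x y (h x) (h y)
  have hs : Function.Surjective φ := AddMonoidHom.range_eq_top.1 (hφ.trans h2)
  refine ⟨(AddEquiv.ofBijective φ ?_).symm⟩
  refine (Nat.bijective_iff_surjective_and_card φ).2 ⟨hs, ?_⟩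
  rw [Nat.card_prod, Nat.card_zmod, hG, two_mul, pow_add]

end Pool.Agent.Lib.MP_2d211a_co
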