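import Pool.Agent.Lib.MP_2d211a_co.H42Exp
import Pool.Agent.Lib.MP_2d211a_co.PGrp

/-! Structure of `p`-groups of bounded exponent. -/

namespace Pool.Agent.Lib.MP_2d211a_co.H62

open Subgroup
open scoped commutatorElement

set_option linter.unusedSectionVars false

universe u

variable {p : ℕ} [hp : Fact p.Prime]

section

variable {E : Type*} [Group E] [Finite E]

theorem nrm_of_comm {Q : Subgroup E} (h : ∀ x ∈ Q, ∀ y : E, ⁅y, x⁆ ∈ Q) : Q.Normal :=
  ⟨fun n hn g => by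
    have := Q.mul_mem (h n hn g) hn
    rwa [commutatorElement_def, inv_mul_cancel_right] at this⟩

theorem comm_mem {Q : Subgroup E} (hQ : Q.Normal) {x : E} (hx : x ∈ Q) (y : E) : ⁅y, x⁆ ∈ Q :=
  Q.mul_mem (hQ.conj_mem x hx y) (Q.inv_mem hx)

theorem comm_cen {c : E} (hc : c ∈ center E) (y a : E) : ⁅y, a * c⁆ = ⁅y, a⁆ := by
  have e := mem_center_iff.1 hc
  simp only [commutatorElement_def, mul_inv_rev]
  rw [mul_assoc y, mul_assoc a, ← e, ← mul_assoc a, ← mul_assoc y, mul_assoc _ c,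
    mul_inv_cancel_left, mul_assoc y a]

theorem exists_avoid {W : Subgroup E} (h1 : ∀ x : E, x ^ p ∈ W) (h2 : ∀ x y : E, ⁅x, y⁆ ∈ W)
    {g : E} (hE : IsPGroup p E) (hg : g ∉ W) :
    ∃ M : Subgroup E, W ≤ M ∧ g ∉ M ∧ Nat.card E = p * Nat.card M := by
  obtain ⟨M, ⟨m1, m2⟩, hm⟩ := Set.Finite.exists_maximal (s := {M : Subgroup E | W ≤ M ∧ g ∉ M})
    (Set.toFinite _) ⟨W, le_rfl, hg⟩
  have : M.Normal := nrm_of_comm fun x _ y => m1 (h2 y x)
  refine ⟨M, m1, m2, ?_⟩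
  rw [← card_adj hE m2 (m1 (h1 g)), eq_comm]
  refine (congrArg (fun H : Subgroup E => Nat.card H) (eq_top_iff.2 fun h _ => ?_)).trans card_top
  by_cases hh : h ∈ M
  · exact mem_sup_right hh
  have h3 : g ∈ zpowers h ⊔ M := by_contra fun e =>
    hh (hm (y := zpowers h ⊔ M) ⟨m1.trans le_sup_right, e⟩ le_sup_right
      (mem_sup_left (mem_zpowers h)))
  obtain ⟨_, ⟨k, rfl⟩, b, hb, e⟩ := mem_sup_of_normal_right.1 h3
  have q : ∀ x : E, (x : E ⧸ M) ^ p = 1 := fun x => (QuotientGroup.eq_one_iff _).2 (m1 (h1 x))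
  obtain ⟨l, hl⟩ := zp_eq (a := (g : E ⧸ M)) (b := (h : E ⧸ M))
    (fun e => m2 ((QuotientGroup.eq_one_iff _).1 e)) (q g)
    (fun e => hh ((QuotientGroup.eq_one_iff _).1 e)) (q h)
    ⟨k, by rw [← e, QuotientGroup.mk_mul_of_mem _ hb]; rfl⟩
  exact mem_sup_of_normal_right.2 ⟨g ^ l, zpow_mem_zpowers g l, _, QuotientGroup.eq.1 hl, by simp⟩

/-- The elements of a commutative subgroup killed by `n`. -/
def Om (B : Subgroup E) (h : ∀ a ∈ B, ∀ b ∈ B, a * b = b * a) (n : ℕ) : Subgroup E where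
  carrier := {b | b ∈ B ∧ b ^ n = 1}
  one_mem' := ⟨B.one_mem, one_pow n⟩
  mul_mem' := fun {a b} ha hb => ⟨B.mul_mem ha.1 hb.1, by
    rw [Commute.mul_pow (h a ha.1 b hb.1), ha.2, hb.2, one_mul]⟩
  inv_mem' := fun {a} ha => ⟨B.inv_mem ha.1, by rw [inv_pow, ha.2, inv_one]⟩

theorem Om_normal {B : Subgroup E} (hB : B.Normal) (h : ∀ a ∈ B, ∀ b ∈ B, a * b = b * a) (n : ℕ) :
    (Om B h n).Normal := ⟨fun a ha g => ⟨hB.conj_mem a ha.1 g, by
  rw [_root_.conj_pow, ha.2, mul_one, mul_inv_cancel]⟩⟩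

theorem card_Om {B : Subgroup E} (h : ∀ a ∈ B, ∀ b ∈ B, a * b = b * a) {e : ℕ}
    (he : ∀ x : E, x ^ p ^ e = 1) : Nat.card B ≤ Nat.card (Om B h p) ^ e := by
  let _ : CommGroup B := { (inferInstance : Group B) with
    mul_comm := fun a b => Subtype.ext (h a a.2 b b.2) }
  refine (card_le_pow (G := Additive B) p e fun x => Subtype.ext (he _)).trans
    (Nat.pow_le_pow_left (Nat.card_le_card_of_injective
      (fun x : kr (Additive B) p => (⟨(Additive.toMul x.1 : B), (Additive.toMul x.1 : B).2,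
        congrArg Subtype.val x.2⟩ : Om B h p))
      fun a b hab => Subtype.ext (Additive.toMul.injective
        (Subtype.ext (congrArg (fun y : Om B h p => (y : E)) hab)))) e)

theorem idx_one {B : Subgroup E} (hB : B.Normal) {b : E} (hb : b ∈ B) :
    (centralizer {b}).index ≤ Nat.card B := by
  rw [centralizer_eq_comap_stabilizer]
  refine ((index_comap_of_surjective _ ConjAct.toConjAct.surjective).trans
    (MulAction.index_stabilizer _ _)).trans_le (Set.ncard_le_ncard (t := (B : Set E)) ?_)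
  rintro _ ⟨g, rfl⟩
  exact hB.conj_mem b hb _

theorem idx (hE : IsPGroup p E) {B : Subgroup E} (hB : B.Normal) {m : ℕ}
    (hm : Nat.card B ≤ p ^ m) : (centralizer (B : Set E)).index ≤ p ^ (m * m) := by
  have key : ∀ j, ∃ H ≤ B, (centralizer (H : Set E)).index ≤ (p ^ m) ^ j ∧
      (H = B ∨ p ^ j ≤ Nat.card H) := by
    intro j
    induction j with
    | zero => exact ⟨⊥, bot_le, by
      rw [show centralizer ((⊥ : Subgroup E) : Set E) = ⊤ from eq_top_iff.2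
        (le_centralizer_iff.1 bot_le), index_top, pow_zero], by simp⟩
    | succ j ih =>
      obtain ⟨H, h1, h2, h3⟩ := ih
      by_cases h : B ≤ H
      · exact ⟨H, h1, h2.trans (Nat.pow_le_pow_right (pow_pos hp.out.pos m) j.le_succ),
          .inl (le_antisymm h1 h)⟩
      obtain ⟨b, hb, hH⟩ := SetLike.not_le_iff_exists.1 h
      refine ⟨H ⊔ zpowers b, sup_le h1 (zpowers_le.2 hb), ?_, .inr ?_⟩
      · refine (index_antitone (H := centralizer (H : Set E) ⊓ centralizer {b}) ?_).trans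
          (index_inf_le.trans (Nat.mul_le_mul h2 ((idx_one hB hb).trans hm)))
        rw [le_centralizer_iff, sup_le_iff, zpowers_le]
        exact ⟨le_centralizer_iff.1 inf_le_left, fun y hy => cent_iff.1 hy.2⟩
      · rw [pow_succ']
        exact (Nat.mul_le_mul_left p (h3.resolve_left fun e => h e.ge)).trans
          (lt_card hE le_sup_left (mem_sup_right (mem_zpowers b)) hH)
  obtain ⟨H, h1, h2, h3⟩ := key m
  rw [← pow_mul] at h2
  rcases h3 with rfl | h3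
  · exact h2
  · rwa [← eq_of_le_of_card_ge h1 (hm.trans h3)]

theorem selfcent_in (hE : IsPGroup p E) {Q D : Subgroup E} (hQ : Q.Normal) (hD : D.Normal)
    (hc : ∀ a ∈ D, ∀ b ∈ D, a * b = b * a) (hDQ : D ≤ Q) : ∃ B : Subgroup E, B.Normal ∧ D ≤ B ∧
      (∀ a ∈ B, ∀ b ∈ B, a * b = b * a) ∧ B ≤ Q ∧ Q ⊓ centralizer B ≤ B := by
  obtain ⟨B, hDB, ⟨h1, h2, h0⟩, hm⟩ := Finite.exists_le_maximal (p := fun B : Subgroup E =>
    B.Normal ∧ (∀ a ∈ B, ∀ b ∈ B, a * b = b * a) ∧ B ≤ Q) (a := D) ⟨hD, hc, hDQ⟩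
  refine ⟨B, h1, hDB, h2, h0, fun g hg => by_contra fun hgB => ?_⟩
  obtain ⟨_, ⟨c, ⟨hcQ, hc⟩, rfl⟩, h3, h4⟩ := normal_cen (hE.to_quotient B)
    ((Q ⊓ centralizer (B : Set E)).map (QuotientGroup.mk' B)) (hV := fun h => hgB (by
      rw [Subgroup.map_eq_bot_iff, QuotientGroup.ker_mk'] at h
      exact h hg))
  have hn : (zpowers (QuotientGroup.mk' B c)).Normal := ⟨by
    rintro _ ⟨k, rfl⟩ g
    exact ⟨k, by rw [(Commute.zpow_right (h4 g) k).eq, mul_inv_cancel_right]⟩⟩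
  have key : ∀ a ∈ (zpowers (QuotientGroup.mk' B c)).comap (QuotientGroup.mk' B),
      ∃ (k : ℤ) (b : E), b ∈ B ∧ a = c ^ k * b := by
    rintro a ⟨k, hk⟩
    exact ⟨k, _, QuotientGroup.eq.1 (show ((c ^ k : E) : E ⧸ B) = a from hk), by group⟩
  have := hm (y := (zpowers (QuotientGroup.mk' B c)).comap (QuotientGroup.mk' B))
    ⟨hn.comap _, fun a ha b hb => by
      obtain ⟨k, a', ha', rfl⟩ := key a ha
      obtain ⟨l, b', hb', rfl⟩ := key b hb
      exact (((Commute.refl c).zpow_zpow k l).mul_right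
        (Commute.zpow_left (hc b' hb').symm k)).mul_left
        ((Commute.zpow_right (hc a' ha') l).mul_right (h2 a' ha' b' hb')), fun a ha => by
      obtain ⟨k, a', ha', rfl⟩ := key a ha
      exact Q.mul_mem (Q.zpow_mem hcQ k) (h0 ha')⟩
    fun b hb => ⟨0, (zpow_zero _).trans ((QuotientGroup.eq_one_iff _).2 hb).symm⟩
  exact h3 ((QuotientGroup.eq_one_iff _).2 (this (mem_zpowers _)))

theorem gol {z w : E} (hE : IsPGroup p E) {e : ℕ} (he : ∀ x : E, x ^ p ^ e = 1)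
    (hn : p ^ (e + 2) < Nat.card E) (hz : Cen p z) (hw : w ^ p = 1) (hu : w ∈ Up hz)
    (hc : w ∉ center E) : ∃ m X, Good z m X := by
  have := plane_normal hz hu
  have hwz : w ∉ zpowers z := fun e => hc (zpowers_le.2 (mem_center_iff.2 hz.comm) e)
  obtain ⟨x, hx⟩ : ∃ x, x ∉ centralizer {w} := by
    by_contra hne
    push Not at hne
    exact hc (mem_center_iff.2 fun g => cent_iff.1 (hne g))
  refine good_plane hE hz hwz hw hu hx fun h => ?_
  have e1 := card_sup_le (zpowers x) (zpowers w ⊔ zpowers z)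
  rw [h, card_top, plane_card hz hwz hw] at e1
  have e2 := Nat.mul_le_mul_right (p ^ 2) (card_zp_le (pow_pos hp.out.pos e) (he x))
  rw [← pow_add] at e2
  omega

theorem small {z : E} (hz : Cen p z) {e : ℕ} (he : ∀ x : E, x ^ p ^ e = 1) {B : Subgroup E}
    (h : ∀ a ∈ B, ∀ b ∈ B, a * b = b * a) (hB : ∀ b ∈ B, b ^ p = 1 → b ∈ zpowers z) :
    Nat.card B ≤ p ^ e := by
  refine (card_Om h he).trans (Nat.pow_le_pow_left ?_ e)
  exact (card_le_of_le (H := Om B h p) fun b hb => hB b hb.1 hb.2).trans_eq (card_zp hz.ne hz.pow)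

theorem tri {z : E} (hE : IsPGroup p E) {e : ℕ} (he : ∀ x : E, x ^ p ^ e = 1)
    (hn : p ^ (e + 2) < Nat.card E) (hz : Cen p z) {Q D : Subgroup E} (hQ : Q.Normal)
    (hD : D.Normal) (hc : ∀ a ∈ D, ∀ b ∈ D, a * b = b * a) (hDQ : D ≤ Q)
    (hw : ∀ w ∈ Q, w ∈ center E → w ^ p = 1 → w ∈ zpowers z) :
    (∃ m X, Good z m X) ∨ ∃ B : Subgroup E, B.Normal ∧ D ≤ B ∧
      (∀ a ∈ B, ∀ b ∈ B, a * b = b * a) ∧ Q ⊓ centralizer B ≤ B ∧
        ∀ b ∈ B, b ^ p = 1 → b ∈ zpowers z := by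
  obtain ⟨B, b1, b2, b3, b4, b5⟩ := selfcent_in hE hQ hD hc hDQ
  by_cases h : Om B b3 p ≤ zpowers z
  · exact .inr ⟨B, b1, b2, b3, b5, fun b h1 h2 => h ⟨h1, h2⟩⟩
  have := hz.normal
  have := Om_normal b1 b3 p
  obtain ⟨_, ⟨w, w1, rfl⟩, w2, w3⟩ := normal_cen (hE.to_quotient (zpowers z))
    ((Om B b3 p).map (QuotientGroup.mk' (zpowers z))) (hV := fun e => h (by
      rwa [Subgroup.map_eq_bot_iff, QuotientGroup.ker_mk'] at e))
  exact .inl (gol hE he hn hz w1.2 (up_of_comm hz w3) fun hc =>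
    w2 ((QuotientGroup.eq_one_iff _).2 (hw w (b4 w1.1) hc w1.2)))

theorem exists_second_cen {z : E} (hE : IsPGroup p E) {e : ℕ} (he : ∀ x : E, x ^ p ^ e = 1)
    (hn : p ^ (e * e + e + 2) < Nat.card E) (hz : Cen p z) :
    (∃ m X, Good z m X) ∨ ∃ w ∈ center E, w ^ p = 1 ∧ w ∉ zpowers z := by
  by_contra hne
  push Not at hne
  have h1p := hp.out.one_lt
  rcases tri hE he (lt_of_le_of_lt (Nat.pow_le_pow_right hp.out.pos (by omega)) hn) hz
    (Q := ⊤) (D := ⊥) inferInstance inferInstance (by simp) le_top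
    (fun w _ => hne.2 w) with ⟨m, X, h⟩ | ⟨B, b1, -, b3, b4, b5⟩
  · exact hne.1 m X h
  have e1 := small hz he b3 b5
  have e2 := (index_antitone (H := centralizer (B : Set E)) (K := B) (by simpa using b4)).trans
    (idx hE b1 e1)
  have e3 := Nat.mul_le_mul e2 e1
  rw [index_mul_card, ← pow_add] at e3
  exact absurd (hn.trans_le e3) (by rw [Nat.pow_lt_pow_iff_right h1p]; omega)

/-- The group is reached from `Q` in `l` steps, each central of exponent `p`. -/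
def Ht (p : ℕ) : ℕ → Subgroup E → Prop
  | 0, Q => Q = ⊤
  | l + 1, Q => ∃ L : Subgroup E, (∀ x ∈ L, x ^ p ∈ Q ∧ ∀ y : E, ⁅y, x⁆ ∈ Q) ∧ Ht p l L

theorem Ht.mono {l : ℕ} {Q Q' : Subgroup E} (h : Ht p l Q) (hQ : Q ≤ Q') : Ht p l Q' := by
  cases l with
  | zero => exact top_unique ((show Q = ⊤ from h).ge.trans hQ)
  | succ l =>
    obtain ⟨L, h1, h2⟩ := h
    exact ⟨L, fun x hx => ⟨hQ (h1 x hx).1, fun y => hQ ((h1 x hx).2 y)⟩, h2⟩

theorem Ht.comap {G : Type*} [Group G] (f : G →* E) (l : ℕ) :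
    ∀ {Q : Subgroup E}, Ht p l Q → Ht p l (Q.comap f) := by
  induction l with
  | zero => intro Q h; rw [show Q = ⊤ from h]; exact comap_top f
  | succ l ih =>
    rintro Q ⟨L, h1, h2⟩
    refine ⟨L.comap f, fun x hx => ⟨?_, fun y => ?_⟩, ih h2⟩
    · rw [mem_comap, map_pow]; exact (h1 _ hx).1
    · rw [mem_comap, map_commutatorElement]; exact (h1 _ hx).2 _

theorem Ht.map {G : Type*} [Group G] {f : E →* G} (hf : Function.Surjective f) (l : ℕ) :
    ∀ {Q : Subgroup E}, Ht p l Q → Ht p l (Q.map f) := by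
  induction l with
  | zero => intro Q h; rw [show Q = ⊤ from h]; exact map_top_of_surjective f hf
  | succ l ih =>
    rintro Q ⟨L, h1, h2⟩
    refine ⟨L.map f, ?_, ih h2⟩
    rintro _ ⟨x, hx, rfl⟩
    refine ⟨map_pow f x p ▸ mem_map_of_mem f (h1 x hx).1, fun y => ?_⟩
    obtain ⟨y, rfl⟩ := hf y
    exact map_commutatorElement f y x ▸ mem_map_of_mem f ((h1 x hx).2 y)

theorem ht_top {B : Subgroup E} (hB : B.Normal) (h2 : ∀ a ∈ B, ∀ b ∈ B, a * b = b * a)
    (h3 : ∀ g, (∀ b ∈ B, b * g = g * b) → g ∈ B) (hA : ∀ b ∈ B, b ^ p = 1 → b ∈ center E) {e : ℕ}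
    (he : ∀ x : E, x ^ p ^ e = 1) : Ht p (e + e) (⊥ : Subgroup E) := by
  have c0 : ∀ (n : ℕ) (y b : E), b ∈ B → y * b ^ n = b ^ n * y → ⁅y, b⁆ ^ n = 1 := fun n y b hb e => by
    rw [commutatorElement_def, Commute.mul_pow (h2 _ (hB.conj_mem b hb y) _ (B.inv_mem hb)),
      _root_.conj_pow, e, mul_inv_cancel_right, inv_pow, mul_inv_cancel]
  have c1 : ∀ (j : ℕ) (y : E), ∀ b ∈ Om B h2 (p ^ (j + 1)), ⁅y, b⁆ ∈ Om B h2 (p ^ j) :=
    fun j y b hb => ⟨comm_mem hB hb.1 y, c0 _ y b hb.1 (mem_center_iff.1 (hA _ (B.pow_mem hb.1 _)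
      (by rw [← pow_mul, ← pow_succ]; exact hb.2)) y)⟩
  have c2 : ∀ (j : ℕ), ∀ b ∈ Om B h2 (p ^ (j + 1)), b ^ p ∈ Om B h2 (p ^ j) := fun j b hb =>
    ⟨B.pow_mem hb.1 p, by rw [← pow_mul, ← pow_succ']; exact hb.2⟩
  have k1 : ∀ j, Ht p j (centralizer (Om B h2 (p ^ (j + 1)) : Set E)) := by
    intro j
    induction j with
    | zero =>
      refine eq_top_iff.2 fun g _ => mem_centralizer_iff.2 fun b hb => ?_
      exact (mem_center_iff.1 (hA b hb.1 (by simpa using hb.2)) g).symm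
    | succ j ih =>
      refine ⟨_, fun x hx => ?_, ih⟩
      have a1 : ∀ b ∈ Om B h2 (p ^ (j + 1 + 1)), ⁅x, b⁆ ^ p = 1 := fun b hb =>
        c0 p x b hb.1 (hx _ (c2 _ b hb)).symm
      have a2 : ∀ b ∈ Om B h2 (p ^ (j + 1 + 1)), ∀ g, g * ⁅x, b⁆ = ⁅x, b⁆ * g := fun b hb =>
        mem_center_iff.1 (hA _ (comm_mem hB hb.1 x) (a1 b hb))
      refine ⟨fun b hb => ?_, fun y b hb => ?_⟩
      · have a3 : ∀ n : ℕ, x ^ n * b = ⁅x, b⁆ ^ n * b * x ^ n := fun n => by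
          induction n with
          | zero => simp
          | succ n ih =>
            have a4 : x * b = ⁅x, b⁆ * b * x := by rw [commutatorElement_def]; group
            rw [pow_succ', mul_assoc, ih, ← mul_assoc, ← mul_assoc,
              (Commute.pow_right (a2 b hb x) n).eq, mul_assoc _ x b, a4, pow_succ ⁅x, b⁆]
            simp only [mul_assoc]
        rw [a3, a1 b hb, one_mul]
      · have a4 : ∀ c ∈ Om B h2 (p ^ (j + 1 + 1)), ∀ t : E,
            t * x * t⁻¹ * c * (t * x * t⁻¹)⁻¹ = ⁅x, c⁆ * c := fun c hc t => by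
          have a5 := hx _ (c1 _ t⁻¹ c hc)
          calc t * x * t⁻¹ * c * (t * x * t⁻¹)⁻¹
              = t * (x * ⁅t⁻¹, c⁆) * c * x⁻¹ * t⁻¹ := by rw [commutatorElement_def]; group
            _ = t * ⁅t⁻¹, c⁆ * ⁅x, c⁆ * c * t⁻¹ := by
                rw [← a5, commutatorElement_def x]; group
            _ = _ := by rw [a2 c hc, commutatorElement_def t⁻¹]; group
        have a6 : x⁻¹ * b * x ∈ Om B h2 (p ^ (j + 1 + 1)) := by
          simpa using (Om_normal hB h2 _).conj_mem b hb x⁻¹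
        have a7 := (a4 _ a6 y).trans (a4 _ a6 1).symm
        calc b * ⁅y, x⁆ = (1 * x * 1⁻¹ * (x⁻¹ * b * x) * (1 * x * 1⁻¹)⁻¹) * ⁅y, x⁆ := by group
          _ = _ := by rw [← a7, commutatorElement_def]; group
  have k2 : ∀ j l, Ht p l (Om B h2 (p ^ j)) → Ht p (l + j) (⊥ : Subgroup E) := by
    intro j
    induction j with
    | zero => exact fun l h => h.mono fun b hb => by simpa using hb.2
    | succ j ih =>
      exact fun l h => (show l + 1 + j = l + (j + 1) by omega) ▸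
        ih (l + 1) ⟨_, fun x hx => ⟨c2 j x hx, fun y => c1 j y x hx⟩, h⟩
  exact k2 e e ((k1 e).mono fun g hg => ⟨h3 g fun b hb => hg b
    ⟨hb, by rw [pow_succ, pow_mul, he, one_pow]⟩, he g⟩)

end

theorem good_frat {E : Type u} [Group E] [Finite E] {n : ℕ} (hE : Nat.card E = p ^ n) (hn : 5 ≤ n)
    (he : ∀ x : E, (x ^ p) ^ p = 1) (c1 : ∀ x : E, x ^ p ∈ center E)
    (c2 : ∀ x y : E, ⁅x, y⁆ ∈ center E) {g : E} (hz : Cen p (g ^ p)) : ∃ m X, Good (g ^ p) m X := by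
  obtain ⟨k, rfl | rfl⟩ := Nat.even_or_odd' n
  · obtain ⟨k, rfl⟩ : ∃ l, k = l + 3 := ⟨k - 3, by omega⟩
    rcases hp.out.two_le.eq_or_lt with rfl | hp2
    swap
    · exact odd_even' hp2 (k := k) hE he c1 c2 hz
    obtain ⟨M, m1, m2, m3⟩ := exists_avoid (p := 2) (g := g)
      (W := Om (center E) (fun a _ b hb => mem_center_iff.1 hb a) 2) (fun x => ⟨c1 x, he x⟩)
      (fun x y => ⟨c2 x y, comm_pow c1 c2 x y⟩) (.of_card hE) fun h => hz.ne h.2
    exact good_step2 hz m3 (m1 ⟨c1 g, he g⟩) m2 rfl (two_odd (k + 2) M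
      (max_card (n := 2 * (k + 2) + 1) hE m3)
      (fun x => mem_center_iff.2 fun y => Subtype.ext (mem_center_iff.1 (c1 x) y))
      (fun x => Subtype.ext (he x)) (.inr (by omega)) _ (hz.sub _))
  rcases hp.out.two_le.eq_or_lt with rfl | hp2
  · exact two_odd k E hE c1 he (.inr (by omega)) _ hz
  obtain ⟨k, rfl⟩ : ∃ l, k = l + 1 := ⟨k - 1, by omega⟩
  exact ⟨_, odd_good hp2 _ E hE (fun y => by
    rw [pow_succ', pow_succ', pow_mul, pow_mul, he, one_pow]) _ hz⟩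

end Pool.Agent.Lib.MP_2d211a_co.H62
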