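import Pool.Agent.Lib.MP_2d211a_co.H42Shp

/-! Power maps in `2`-groups with a large commutative subgroup. -/

namespace Pool.Agent.Lib.MP_2d211a_co.H62

open Subgroup
open scoped commutatorElement

set_option linter.unusedSectionVars false

universe u

variable {E : Type u} [Group E] [Finite E]

theorem rel_card {H K : Subgroup E} (h : H ≤ K) : H.relIndex K * Nat.card H = Nat.card K := by
  rw [← (H.subgroupOf K).index_mul_card, Nat.card_congr (subgroupOfEquivOfLe h).toEquiv]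
  rfl

theorem pow_mem_idx (hP : IsPGroup 2 E) {H K : Subgroup E} (h : H ≤ K) {i : ℕ}
    (hc : Nat.card K ≤ 2 ^ i * Nat.card H) {x : E} (hx : x ∈ K) : x ^ 2 ^ i ∈ H := by
  have h1 : H.relIndex K ≤ 2 ^ i := Nat.le_of_mul_le_mul_right (rel_card h ▸ hc) Nat.card_pos
  have h2 := (relIndex_le_of_le_right (zpowers_le.2 hx) index_ne_zero_of_finite).trans h1
  obtain ⟨m, hm⟩ := (hP.to_subgroup (zpowers x)).exists_card_eq
  obtain ⟨r, -, hr⟩ := (Nat.dvd_prime_pow Nat.prime_two).1 (hm ▸ relIndex_dvd_card H (zpowers x))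
  have h3 : x ^ H.relIndex (zpowers x) ∈ H :=
    (H.subgroupOf (zpowers x)).pow_index_mem ⟨x, mem_zpowers x⟩
  rw [hr] at h2 h3
  obtain ⟨k, rfl⟩ := Nat.exists_eq_add_of_le ((Nat.pow_le_pow_iff_right one_lt_two).1 h2)
  rw [pow_add, pow_mul]
  exact H.pow_mem h3 _

theorem half_mul {M L : Subgroup E} (h : M ≤ L) (hc : Nat.card L = 2 * Nat.card M) {a b : E}
    (ha : a ∈ L) (hb : b ∈ L) (ha' : a ∉ M) (hb' : b ∉ M) : a * b ∈ M :=
  (mul_mem_iff_of_index_two (H := M.subgroupOf L) (a := ⟨a, ha⟩) (b := ⟨b, hb⟩)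
    (Nat.eq_of_mul_eq_mul_right Nat.card_pos ((rel_card h).trans hc))).2 (iff_of_false ha' hb')

theorem exists_mid (hP : IsPGroup 2 E) {H L : Subgroup E} (h : H ≤ L) {i : ℕ}
    (hc : Nat.card L = 2 ^ (i + 1) * Nat.card H) : ∃ M, H ≤ M ∧ M ≤ L ∧
      Nat.card M = 2 ^ i * Nat.card H ∧ Nat.card L = 2 * Nat.card M := by
  obtain ⟨n, hn⟩ := (hP.to_subgroup L).exists_card_eq
  obtain ⟨M, m1, -, m2⟩ := exists_max hn (H := H.subgroupOf L) fun e => by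
    have e1 := card_le_of_le (subgroupOf_eq_top.1 e)
    have e2 := Nat.card_pos (α := H)
    have e3 : 0 < 2 ^ i := by positivity
    rw [hc, pow_succ] at e1
    nlinarith
  have e : Nat.card (M.map L.subtype) = Nat.card M := card_map_of_injective L.subtype_injective
  refine ⟨M.map L.subtype, fun x hx => ⟨⟨x, h hx⟩, m1 hx, rfl⟩, map_subtype_le M, ?_, e ▸ m2⟩
  rw [hc, pow_succ', mul_assoc] at m2
  omega

theorem root_mem (hP : IsPGroup 2 E) {x y : E} {m d : ℕ} (hx : x ^ 2 ^ (m + d) ≠ 1)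
    (hy : y ∈ zpowers x) (h : y ^ 2 ^ (d + 1) = 1) : y ∈ zpowers (x ^ 2 ^ m) := by
  obtain ⟨k, rfl⟩ := mem_powers_iff_mem_zpowers.2 hy
  obtain ⟨r, hr⟩ := IsPGroup.iff_orderOf.1 hP x
  have h1 : m + d + 1 ≤ r := by_contra fun e =>
    hx (orderOf_dvd_iff_pow_eq_one.1 (hr ▸ pow_dvd_pow 2 (by omega)))
  have h2 : 2 ^ m * 2 ^ (d + 1) ∣ k * 2 ^ (d + 1) := by
    rw [← pow_add]
    exact (pow_dvd_pow 2 h1).trans (hr ▸ orderOf_dvd_of_pow_eq_one (by rwa [pow_mul]))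
  obtain ⟨l, rfl⟩ := Nat.dvd_of_mul_dvd_mul_right (by positivity) h2
  beta_reduce
  rw [pow_mul]
  exact npow_mem_zpowers _ l

theorem conj_half {S M : Subgroup E} (hh : ∀ a ∈ S, ∀ b ∈ S, a ∉ M → b ∉ M → a * b ∈ M) {a g : E}
    (ha : a ∈ S) (hg : g ∈ S) (haM : a ∈ M) : g * a * g⁻¹ ∈ M := by
  by_cases h : g ∈ M
  · exact M.mul_mem (M.mul_mem h haM) (M.inv_mem h)
  exact hh _ (S.mul_mem hg ha) _ (S.inv_mem hg) (by rwa [M.mul_mem_cancel_right haM])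
    (by rwa [M.inv_mem_iff])

/-- The transfer to a subgroup of index two. -/
theorem step_hom {S M : Subgroup E} (hh : ∀ a ∈ S, ∀ b ∈ S, a ∉ M → b ∉ M → a * b ∈ M) {N : ℕ}
    (h1 : ∀ a ∈ S, a ∈ M → ∀ b ∈ S, b ∈ M → (a * b) ^ N = a ^ N * b ^ N)
    (h2 : ∀ a ∈ S, a ∈ M → ∀ g ∈ S, g * a ^ N = a ^ N * g) :
    ∀ a ∈ S, ∀ b ∈ S, (a * b) ^ (2 * N) = a ^ (2 * N) * b ^ (2 * N) := by
  have e0 : ∀ a ∈ S, a ∈ M → ∀ g ∈ S, (g * a * g⁻¹) ^ N = a ^ N := fun a ha ha' g hg => by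
    rw [_root_.conj_pow, h2 a ha ha' g hg, mul_inv_cancel_right]
  have sq2 : ∀ a : E, a ^ (2 * N) = a ^ N * a ^ N := fun a => by rw [two_mul, pow_add]
  have e1 : ∀ a ∈ S, a ∈ M → ∀ b ∈ S, (a * b) ^ (2 * N) = a ^ (2 * N) * b ^ (2 * N) := by
    intro a ha ha' b hb
    have cj := conj_half hh ha hb ha'
    have cS := S.mul_mem (S.mul_mem hb ha) (S.inv_mem hb)
    have b2 : b * b ∈ M := by
      by_cases h : b ∈ M
      exacts [M.mul_mem h h, hh b hb b hb h h]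
    rw [pow_mul, pow_mul b, show (a * b) ^ 2 = a * (b * a * b⁻¹) * (b * b) by rw [sq]; group,
      h1 _ (S.mul_mem ha cS) (M.mul_mem ha' cj) _ (S.mul_mem hb hb) b2, h1 a ha ha' _ cS cj,
      e0 a ha ha' b hb, sq2, sq]
  intro a ha b hb
  by_cases h : a ∈ M
  · exact e1 a ha h b hb
  by_cases h' : b ∈ M
  · rw [show a * b = a * b * a⁻¹ * a by group, e1 _ (S.mul_mem (S.mul_mem ha hb) (S.inv_mem ha))
      (conj_half hh hb ha h') a ha, sq2 (a * b * a⁻¹), e0 b hb h' a ha, sq2 b, ← mul_assoc,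
      h2 b hb h' _ (S.pow_mem ha _), mul_assoc _ _ (b ^ N), h2 b hb h' _ (S.pow_mem ha _),
      mul_assoc]
  have := e1 _ (S.mul_mem ha hb) (hh a ha b hb h h') _ (S.inv_mem hb)
  rw [mul_inv_cancel_right, inv_pow] at this
  rw [this, inv_mul_cancel_right]

theorem pc (hP : IsPGroup 2 E) {B : Subgroup E} (hB : ∀ a ∈ B, ∀ b ∈ B, a * b = b * a) (i : ℕ) :
    ∀ M : Subgroup E, B ≤ M → Nat.card M = 2 ^ i * Nat.card B →
      (∀ y ∈ B, (y ^ 2) ^ 2 = 1 → ∀ g ∈ M, g * y = y * g) →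
      (∀ x ∈ M, ∀ g ∈ M, g * x ^ 2 ^ i = x ^ 2 ^ i * g) ∧
        ∀ x ∈ M, ∀ y ∈ M, (x * y) ^ 2 ^ (i + 1) = x ^ 2 ^ (i + 1) * y ^ 2 ^ (i + 1) := by
  induction i with
  | zero =>
    intro M h hc _
    obtain rfl : B = M := eq_of_le_of_card_ge h (by omega)
    exact ⟨fun x hx g hg => by simpa using hB g hg x hx,
      fun x hx y hy => Commute.mul_pow (hB x hx y hy) _⟩
  | succ i ih =>
    intro M h hc h4
    obtain ⟨L, l1, l2, l3, l4⟩ := exists_mid hP h hc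
    obtain ⟨c1, c2⟩ := ih L l1 l3 fun y hy e g hg => h4 y hy e g (l2 hg)
    have hh : ∀ a ∈ M, ∀ b ∈ M, a ∉ L → b ∉ L → a * b ∈ L := fun a ha b hb =>
      half_mul l2 l4 ha hb
    have key : ∀ x ∈ M, ∀ g ∈ M, g * x ^ 2 ^ (i + 1) = x ^ 2 ^ (i + 1) * g := by
      intro x hx g hg
      by_cases hxL : x ∈ L
      swap
      · have e : ∀ a ∈ L, Commute a (x ^ 2 ^ (i + 1)) := fun a ha => by
          rw [pow_succ', pow_mul, sq]
          exact c1 _ (hh x hx x hx hxL hxL) a ha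
        by_cases hgL : g ∈ L
        · exact e g hgL
        simpa using ((e _ (hh g hg _ (M.inv_mem hx) hgL (by rwa [L.inv_mem_iff]))).mul_left
          ((Commute.refl x).pow_right _)).eq
      rw [pow_succ, pow_mul]
      by_cases hgL : g ∈ L
      · exact Commute.pow_right (c1 x hxL g hgL) 2
      have y1 := pow_mem_idx hP l1 l3.le hxL
      have y2 := pow_mem_idx hP l1 l3.le (conj_half hh hx hg hxL)
      have y3 := c1 x hxL _ (hh g hg g hg hgL hgL)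
      rw [_root_.conj_pow] at y2
      generalize x ^ 2 ^ i = y at y1 y2 y3
      have v1 := B.mul_mem y2 (B.inv_mem y1)
      have v2 : g * (g * y * g⁻¹ * y⁻¹) * g⁻¹ = (g * y * g⁻¹ * y⁻¹)⁻¹ := by
        calc _ = g * g * y * (g⁻¹ * y⁻¹ * g⁻¹) := by group
          _ = _ := by rw [y3]; group
      have v3 : (g * y * g⁻¹ * y⁻¹) ^ 2 = 1 := by_contra fun e => by
        obtain ⟨_, ⟨k, rfl⟩, u2, u3⟩ := exists_ord hP e
        generalize g * y * g⁻¹ * y⁻¹ = v at v1 v2 u2 u3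
        have e1 : (v ^ 2) ^ k = (v ^ k) ^ 2 := by
          rw [← zpow_natCast, ← zpow_natCast, ← zpow_mul, ← zpow_mul, mul_comm]
        simp only [e1] at u2 u3
        have e2 : g * v ^ k * g⁻¹ = (v ^ k)⁻¹ := by rw [← conj_zpow, v2, inv_zpow]
        rw [h4 _ (B.zpow_mem v1 k) u3 g hg, mul_inv_cancel_right] at e2
        exact u2 (by rw [sq]; exact mul_eq_one_iff_eq_inv.2 e2)
      have v4 := Commute.mul_pow (hB _ v1 y y1) 2
      rw [v3, one_mul, inv_mul_cancel_right, _root_.conj_pow] at v4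
      exact mul_inv_eq_iff_eq_mul.1 v4
    exact ⟨key, by
      rw [pow_succ' 2 (i + 1)]
      exact step_hom hh (fun a _ ha b _ hb => c2 a ha b hb) fun a ha _ => key a ha⟩

theorem comm_sup {b c : E} (hc : ∀ g, g * c = c * g) :
    ∀ x ∈ zpowers b ⊔ zpowers c, ∃ i l : ℤ, x = b ^ i * c ^ l := fun x hx => by
  have : (zpowers c).Normal := ⟨by
    rintro _ ⟨k, rfl⟩ g
    exact ⟨k, by rw [(Commute.zpow_right (hc g) k).eq, mul_inv_cancel_right]⟩⟩
  obtain ⟨_, ⟨i, rfl⟩, _, ⟨l, rfl⟩, rfl⟩ := mem_sup_of_normal_right.1 hx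
  exact ⟨i, l, rfl⟩

theorem comm_sup' {b c : E} (hc : ∀ g, g * c = c * g) :
    ∀ x ∈ zpowers b ⊔ zpowers c, ∀ y ∈ zpowers b ⊔ zpowers c, x * y = y * x := fun x hx y hy => by
  obtain ⟨i, l, rfl⟩ := comm_sup hc x hx
  obtain ⟨i', l', rfl⟩ := comm_sup hc y hy
  exact (((Commute.refl b).zpow_zpow i i').mul_right (Commute.zpow_right (hc _) l')).mul_left
    (Commute.zpow_right (hc _) l).symm

theorem root_sup (hP : IsPGroup 2 E) {x y c : E} (hc : Cen 2 c) {m d : ℕ}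
    (hx : x ^ 2 ^ (m + d) ≠ 1) (hy : y ∈ zpowers x ⊔ zpowers c) (h : y ^ 2 ^ (d + 1) = 1) :
    y ∈ zpowers (x ^ 2 ^ m) ⊔ zpowers c := by
  obtain ⟨i, l, rfl⟩ := comm_sup hc.comm y hy
  refine mul_mem (mem_sup_left (root_mem hP hx (zpow_mem_zpowers x i) ?_))
    (mem_sup_right (zpow_mem_zpowers c l))
  rcases inv2 hc.pow (zpow_mem_zpowers c l) with e | e <;> rw [e] at h
  · rwa [mul_one] at h
  · rwa [Commute.mul_pow (hc.comm _), pow_succ' 2 d, pow_mul c, hc.pow, one_pow, mul_one,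
      ← pow_succ'] at h

theorem cent_sup {a c g y : E} (hc : ∀ g, g * c = c * g) (h : g * a = a * g)
    (hy : y ∈ zpowers a ⊔ zpowers c) : g * y = y * g := by
  obtain ⟨i, l, rfl⟩ := comm_sup hc y hy
  exact (Commute.zpow_right h i).mul_right (Commute.zpow_right (hc g) l)

theorem pd (hP : IsPGroup 2 E) {b c : E} (hc : Cen 2 c) (i : ℕ) :
    ∀ (d : ℕ) (M S : Subgroup E), zpowers b ⊔ zpowers c ≤ M →
      Nat.card M = 2 ^ i * Nat.card (zpowers b ⊔ zpowers c : Subgroup E) →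
      (∀ y ∈ zpowers b ⊔ zpowers c, (y ^ 2) ^ 2 = 1 → ∀ g ∈ M, g * y = y * g) → S ≤ M →
      b ^ 2 ^ (i + d + 1) ≠ 1 → (∀ x ∈ S, x ^ 2 ^ (i + d + 1) = 1) →
      ∀ x ∈ S, ∀ y ∈ S, (x * y) ^ 2 ^ i = x ^ 2 ^ i * y ^ 2 ^ i := by
  induction i with
  | zero => intros; simp
  | succ i ih =>
    intro d M S h hc' h4 hS hb he
    obtain ⟨L, l1, l2, l3, l4⟩ := exists_mid hP h hc'
    rw [show i + 1 + d + 1 = i + (d + 1) + 1 by omega] at hb he
    have c2 := ih (d + 1) L (S ⊓ L) l1 l3 (fun y hy e g hg => h4 y hy e g (l2 hg)) inf_le_right hb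
      fun x hx => he x hx.1
    rw [pow_succ' 2 i]
    refine step_hom (fun a ha b hb => half_mul l2 l4 (hS ha) (hS hb))
      (fun a ha ha' b hb hb' => c2 a ⟨ha, ha'⟩ b ⟨hb, hb'⟩) fun a ha ha' g hg => ?_
    refine cent_sup hc.comm ((pc hP (comm_sup' hc.comm) _ M h hc' h4).1 b
      (h (mem_sup_left (mem_zpowers b))) g (hS hg)) (root_sup hP hc (d := d + 1)
        (by rwa [show i + 1 + (d + 1) = i + (d + 1) + 1 by omega]) (pow_mem_idx hP l1 l3.le ha') ?_)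
    rw [← pow_mul, ← pow_add, ← add_assoc, he a ha]

end Pool.Agent.Lib.MP_2d211a_co.H62
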