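import Pool.Agent.Lib.MP_2d211a_co.H42TwoA
import Pool.Agent.Lib.MP_2d211a_co.H42Str

/-! The dihedral obstruction and the quadratic map on a quotient of order eight. -/

namespace Pool.Agent.Lib.MP_2d211a_co.H62

open Subgroup
open scoped commutatorElement

set_option linter.unusedSectionVars false

universe u

variable {E : Type u} [Group E] [Finite E]

theorem pow_sq (x : E) (j : ℕ) : (x ^ 2 ^ j) ^ 2 = x ^ 2 ^ (j + 1) := by rw [← pow_mul, ← pow_succ]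

theorem sq_pow (x : E) (j : ℕ) : (x ^ 2) ^ 2 ^ j = x ^ 2 ^ (j + 1) := by rw [← pow_mul, ← pow_succ']

theorem disj (hP : IsPGroup 2 E) {x : E} {m : ℕ} {H : Subgroup E} (h1 : x ^ 2 ^ (m + 1) = 1)
    (h2 : x ^ 2 ^ m ∉ H) : Disjoint (zpowers x) H := disjoint_def.2 fun {g} g1 g2 =>
  by_contra fun g3 => by
    obtain ⟨v, v1, v2, v3⟩ := exists_ord hP g3
    exact h2 (zpowers_le.2 (zpowers_le.2 g2 v1) (mem_of_cyc (zpowers_le.2 g1 v1)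
      (npow_mem_zpowers x _) v2 v3 (by rwa [pow_sq])))

theorem card_x (hP : IsPGroup 2 E) {x : E} {m : ℕ} (h1 : x ^ 2 ^ (m + 1) = 1)
    (h2 : x ^ 2 ^ m ≠ 1) : Nat.card (zpowers x) = 2 ^ (m + 1) :=
  (card_zp_le (by positivity) h1).antisymm (ord_ge hP h2)

theorem card_xc (hP : IsPGroup 2 E) {x c : E} {m : ℕ} (hc : Cen 2 c) (h1 : x ^ 2 ^ (m + 1) = 1)
    (h2 : x ^ 2 ^ m ∉ zpowers c) : Nat.card (zpowers x ⊔ zpowers c : Subgroup E) = 2 ^ (m + 2) := by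
  have := hc.normal
  have e1 := card_sup_le (zpowers x) (zpowers c)
  have e2 := card_disj le_sup_left le_sup_right (disj hP h1 h2)
  rw [card_x hP h1 (fun e => h2 (e ▸ one_mem _)), card_zp hc.ne hc.pow, ← pow_succ] at e1 e2
  exact e1.antisymm e2

theorem cover {A B K : Subgroup E} (hA : A ≤ K) (hB : B ≤ K) (h : Disjoint A B)
    (hc : Nat.card K ≤ Nat.card A * Nat.card B) {g : E} (hg : g ∈ K) :
    ∃ a ∈ A, ∃ b ∈ B, g = a * b := by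
  obtain ⟨⟨a, b⟩, e⟩ := ((Nat.bijective_iff_injective_and_card
    (fun g : A × B => (⟨g.1 * g.2, K.mul_mem (hA g.1.2) (hB g.2.2)⟩ : K))).2
      ⟨fun a b e => mul_injective_of_disjoint h (congrArg Subtype.val e),
        by rw [Nat.card_prod]; exact (card_disj hA hB h).antisymm hc⟩).2 ⟨g, hg⟩
  exact ⟨a, a.2, b, b.2, (congrArg Subtype.val e).symm⟩

theorem zsq {c : E} (hc : c ^ 2 = 1) {v : E} (hv : v ∈ zpowers c) : v ^ 2 = 1 := by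
  rcases inv2 hc hv with rfl | rfl
  exacts [one_pow 2, hc]

theorem four {a c y : E} (hc : Cen 2 c) (ha : (a ^ 2) ^ 2 = 1) (hy : y ∈ zpowers a ⊔ zpowers c)
    (h2 : y ^ 2 ≠ 1) : ∃ v ∈ zpowers (a ^ 2) ⊔ zpowers c, y = a * v ∧ y ^ 2 = a ^ 2 := by
  obtain ⟨i, l, rfl⟩ := comm_sup hc.comm y hy
  have e : ∀ m : ℤ, (a ^ 2) ^ m * c ^ l ∈ zpowers (a ^ 2) ⊔ zpowers c := fun m =>
    mul_mem (mem_sup_left (zpow_mem_zpowers _ m)) (mem_sup_right (zpow_mem_zpowers c l))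
  obtain ⟨m, rfl | rfl⟩ := Int.even_or_odd' i
  · exact absurd (by rw [zpow_mul, zpow_ofNat]; exact plane_exp hc ha (e m)) h2
  have e1 : a ^ (2 * m + 1) * c ^ l = a * ((a ^ 2) ^ m * c ^ l) := by
    rw [add_comm, zpow_one_add, zpow_mul, zpow_ofNat, mul_assoc]
  refine ⟨_, e m, e1, ?_⟩
  rw [e1, Commute.mul_pow (cent_sup hc.comm ((Commute.refl a).pow_right 2) (e m)),
    plane_exp hc ha (e m), mul_one]

theorem four' {a c y : E} (hc : Cen 2 c) (ha : (a ^ 2) ^ 2 = 1) (hy : y ∈ zpowers a ⊔ zpowers c)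
    (h2 : y ^ 2 ≠ 1) : a ∈ zpowers y ⊔ zpowers c := by
  obtain ⟨v, v1, v2, v3⟩ := four hc ha hy h2
  rw [← v3] at v1
  rw [eq_mul_inv_of_mul_eq v2.symm]
  exact mul_mem (mem_sup_left (mem_zpowers y))
    (inv_mem (sup_le_sup_right (zpowers_le.2 (npow_mem_zpowers y 2)) _ v1))

/-- The obstruction: one non-central element of order four in all long cyclic subgroups. -/
def Bad (Q : Type*) [Group Q] (j : ℕ) : Prop := ∃ x : Q, x ^ 2 ^ (j + 1) ≠ 1 ∧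
  x ^ 2 ^ j ∉ center Q ∧ ∀ y : Q, y ^ 2 ^ (j + 1) ≠ 1 → y ^ 2 ^ j ∈ zpowers (x ^ 2 ^ j)

/-- The obstruction for the section of `K` by `c`. -/
def RB (K : Subgroup E) (c : E) (j : ℕ) : Prop := ∃ x ∈ K, x ^ 2 ^ (j + 1) ∉ zpowers c ∧
  (∃ g ∈ K, ⁅g, x ^ 2 ^ j⁆ ∉ zpowers c) ∧
    ∀ y ∈ K, y ^ 2 ^ (j + 1) ∉ zpowers c → y ^ 2 ^ j ∈ zpowers (x ^ 2 ^ j) ⊔ zpowers c

variable {K : Subgroup E} {c z : E} {j : ℕ}

theorem RB_of_bad {Q : Type*} [Group Q] (f : K →* Q) (hf : Function.Surjective f)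
    (hk : ∀ g : K, f g = 1 ↔ (g : E) ∈ zpowers c) (h : Bad Q j) : RB K c j := by
  obtain ⟨x, h1, h2, h3⟩ := h
  obtain ⟨x, rfl⟩ := hf x
  refine ⟨x, x.2, fun e => h1 (map_pow f x _ ▸ (hk _).2 e), ?_, fun y hy e => ?_⟩
  · by_contra hne
    push Not at hne
    refine h2 (mem_center_iff.2 fun g => ?_)
    obtain ⟨g, rfl⟩ := hf g
    rw [← commutatorElement_eq_one_iff_mul_comm, ← map_pow, ← map_commutatorElement]
    exact (hk _).2 (hne g g.2)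
  obtain ⟨k, hk'⟩ := h3 (f ⟨y, hy⟩) fun e' => e ((hk (⟨y, hy⟩ ^ _)).1 (map_pow f _ _ ▸ e'))
  have := (hk (((x ^ 2 ^ j) ^ k)⁻¹ * ⟨y, hy⟩ ^ 2 ^ j)).1 (by
    rw [map_mul, map_inv, map_zpow, map_pow, map_pow, ← hk', inv_mul_cancel])
  exact (mul_mem_cancel_left (inv_mem (mem_sup_left (zpow_mem_zpowers ((x : E) ^ 2 ^ j) k)))).1
    (mem_sup_right this)

theorem not_RB (hc : Cen 2 c) (he : ∀ x ∈ K, x ^ 2 ^ (j + 2) = 1)
    (h : ∀ x ∈ K, x ^ 2 ^ (j + 1) ∉ zpowers c → (∀ y ∈ K, y ^ 2 ^ (j + 1) ∉ zpowers c →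
      ∀ g, g * y ^ 2 ^ j = y ^ 2 ^ j * g → g * x ^ 2 ^ j = x ^ 2 ^ j * g) →
        ∀ g ∈ K, g * x ^ 2 ^ j = x ^ 2 ^ j * g) : ¬RB K c j := by
  rintro ⟨x, hx, h1, ⟨g, hg, h2⟩, h3⟩
  refine h2 (commutatorElement_eq_one_iff_mul_comm.2 (h x hx h1 (fun y hy e g hg =>
    cent_sup hc.comm hg (four' hc ?_ (h3 y hy e) fun e' => e ?_)) g hg) ▸ one_mem _)
  · rw [pow_sq, pow_sq, he x hx]
  · rw [← pow_sq, e']; exact one_mem _

theorem not_RB_cen (hc : Cen 2 c) (he : ∀ x ∈ K, x ^ 2 ^ (j + 2) = 1) {y : E} (hy : y ∈ K)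
    (h1 : y ^ 2 ^ (j + 1) ∉ zpowers c) (h2 : ∀ g ∈ K, g * y ^ 2 ^ j = y ^ 2 ^ j * g) :
    ¬RB K c j := not_RB hc he fun _ _ _ h g hg => h y hy h1 g (h2 g hg)

theorem not_RB_hom (hc : Cen 2 c) (he : ∀ x ∈ K, x ^ 2 ^ (j + 2) = 1)
    (h : ∀ a ∈ K, ∀ b ∈ K, (a * b) ^ 2 ^ (j + 1) = a ^ 2 ^ (j + 1) * b ^ 2 ^ (j + 1)) :
    ¬RB K c j := not_RB hc he fun x hx h1 h2 g hg => by
  by_cases e : g ^ 2 ^ (j + 1) ∈ zpowers c
  swap
  · exact h2 g hg e g ((Commute.refl g).pow_right _)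
  have := h2 _ (K.mul_mem hg hx) (by rwa [h g hg x hx, mul_mem_cancel_left e]) _
    ((Commute.refl _).pow_right _)
  simpa using (Commute.mul_left this ((Commute.refl x).pow_right (2 ^ j)).inv_left).eq

theorem RB.comm [hK : K.Normal] (h : RB K c j) (hc : Cen 2 c) (he : ∀ x ∈ K, x ^ 2 ^ (j + 2) = 1) :
    ∃ x ∈ K, x ^ 2 ^ (j + 1) ∉ zpowers c ∧ Cen 2 (x ^ 2 ^ (j + 1)) ∧
      (∀ g : E, ⁅g, x ^ 2 ^ j⁆ ∈ zpowers (x ^ 2 ^ (j + 1)) ⊔ zpowers c) ∧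
        ∃ g ∈ K, ⁅g, x ^ 2 ^ j⁆ ≠ 1 := by
  obtain ⟨x, hx, h1, ⟨g, hg, h2⟩, h3⟩ := h
  have e0 : x ^ 2 ^ (j + 1) ≠ 1 := fun e => h1 (e ▸ one_mem _)
  have e4 : ((x ^ 2 ^ j) ^ 2) ^ 2 = 1 := by rw [pow_sq, pow_sq, he x hx]
  have key : ∀ g : E, ∃ v ∈ zpowers ((x ^ 2 ^ j) ^ 2) ⊔ zpowers c,
      g * x ^ 2 ^ j * g⁻¹ = x ^ 2 ^ j * v ∧ (g * x ^ 2 ^ j * g⁻¹) ^ 2 = (x ^ 2 ^ j) ^ 2 := fun g => by
    refine four hc e4 ?_ fun e => e0 (by simpa [_root_.conj_pow, pow_sq] using e)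
    rw [← _root_.conj_pow]
    refine h3 _ (hK.conj_mem x hx g) fun e => h1 ?_
    rw [_root_.conj_pow] at e
    simpa [mul_assoc] using hc.normal.conj_mem _ e g⁻¹
  refine ⟨x, hx, h1, ⟨fun g => ?_, e0, by rw [pow_sq, he x hx]⟩, fun g => ?_,
    g, hg, fun e => h2 (e ▸ one_mem _)⟩
  · obtain ⟨-, -, -, e⟩ := key g
    rwa [_root_.conj_pow, pow_sq, mul_inv_eq_iff_eq_mul] at e
  · obtain ⟨v, v1, v2, -⟩ := key g
    rwa [commutatorElement_def, v2, cent_sup hc.comm ((Commute.refl _).pow_right 2) v1,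
      mul_inv_cancel_right, ← pow_sq]

theorem plane_cen' {w : E} (hw : Cen 2 w) (hc : Cen 2 c) : zpowers w ⊔ zpowers c ≤ center E :=
  sup_le (zpowers_le.2 (mem_center_iff.2 hw.comm)) (zpowers_le.2 (mem_center_iff.2 hc.comm))

theorem sq_normal {C : Subgroup E} (h : ∀ g : E, g ^ 2 ∈ C) : C.Normal :=
  nrm_of_comm fun x _ y => comm_sq y x ▸ C.mul_mem (C.mul_mem (h _) (h _)) (h _)

theorem setup (hP : IsPGroup 2 E) {C : Subgroup E} (hC : Nat.card C = 2 ^ (2 * j + 3))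
    (he : ∀ g : E, g ^ 2 ^ (j + 2) = 1) {x : E} (hx : x ∈ C) (hc : Cen 2 c) (hcC : c ∈ C)
    (h1 : x ^ 2 ^ (j + 1) ∉ zpowers c) (h2 : ∀ g ∈ C, g * x ^ 2 ^ j = x ^ 2 ^ j * g)
    (h3 : ∀ g : E, g ^ 2 ∈ C) : ∃ D : Subgroup E, Nat.card C = 2 * Nat.card D ∧
      (∀ y, y ∈ D ↔ y ∈ C ∧ y ^ 2 ^ (j + 1) = 1) ∧ (∀ g : E, g ^ 2 ∈ D) ∧
      (∀ a ∈ D, a ^ 2 ^ j ∈ zpowers (x ^ 2 ^ (j + 1)) ⊔ zpowers c) ∧
      ∀ a ∈ D, ∀ b ∈ D, (a * b) ^ 2 ^ j = a ^ 2 ^ j * b ^ 2 ^ j := by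
  have e0 : x ^ 2 ^ (j + 1) ≠ 1 := fun e => h1 (e ▸ one_mem _)
  have hB : zpowers x ⊔ zpowers c ≤ C := sup_le (zpowers_le.2 hx) (zpowers_le.2 hcC)
  have cB : Nat.card C = 2 ^ j * Nat.card (zpowers x ⊔ zpowers c : Subgroup E) := by
    rw [card_xc hP hc (he x) h1, hC]; ring
  have h4 : ∀ y ∈ zpowers x ⊔ zpowers c, (y ^ 2) ^ 2 = 1 → ∀ g ∈ C, g * y = y * g :=
    fun y hy e g hg => cent_sup hc.comm (h2 g hg) (root_sup hP hc (d := 1) e0 hy (by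
      rwa [← pow_mul] at e))
  have hom := (pc hP (comm_sup' hc.comm) j C hB cB h4).2
  let D : Subgroup E :=
    { carrier := {y | y ∈ C ∧ y ^ 2 ^ (j + 1) = 1}
      one_mem' := ⟨C.one_mem, one_pow _⟩
      mul_mem' := fun {a b} ha hb => ⟨C.mul_mem ha.1 hb.1, by
        rw [hom a ha.1 b hb.1, ha.2, hb.2, one_mul]⟩
      inv_mem' := fun {a} ha => ⟨C.inv_mem ha.1, by rw [inv_pow, ha.2, inv_one]⟩ }
  have d1 : ∀ g : E, g ^ 2 ∈ D := fun g => ⟨h3 g, by rw [sq_pow, he]⟩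
  have := sq_normal d1
  refine ⟨D, ?_, fun _ => Iff.rfl, d1, fun a ha => root_sup hP hc (d := 0) e0
    (pow_mem_idx hP hB cB.le ha.1) ((pow_sq a j).trans ha.2),
    pd hP hc j 0 C D hB cB h4 (fun a ha => ha.1) e0 fun a ha => ha.2⟩
  rw [← card_adj hP (V := D) (fun e => e0 e.2) (d1 x)]
  congr 2
  refine le_antisymm (fun y hy => ?_) (sup_le (zpowers_le.2 hx) fun a ha => ha.1)
  rcases inv2 ((pow_sq x _).trans (he x)) (mem_of_cyc (npow_mem_zpowers x _)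
    (pow_mem_idx hP (zpowers_le.2 hx) (i := j + 1) (by rw [card_x hP (he x) e0, hC]; ring_nf; rfl) hy)
      e0 ((pow_sq x _).trans (he x)) ((pow_sq y _).trans (he y))) with e | e
  · exact mem_sup_right ⟨hy, e⟩
  · simpa using mul_mem (mem_sup_left (mem_zpowers x)) (mem_sup_right (S := zpowers x) (T := D)
      (x := x⁻¹ * y) ⟨C.mul_mem (C.inv_mem hx) hy, by
        rw [hom _ (C.inv_mem hx) y hy, e, inv_pow, inv_mul_cancel]⟩)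

theorem iso_plane (hP : IsPGroup 2 E) {D V : Subgroup E} (hD : Nat.card E = 2 ^ 3 * Nat.card D)
    (hs : ∀ g : E, g ^ 2 ∈ D) (hV : Nat.card V = 2 ^ 2) (hVc : V ≤ center E)
    (hV2 : ∀ v ∈ V, v ^ 2 = 1) (β : E → E → E) (b1 : ∀ a b c, β (a * b) c = β a c * β b c)
    (b2 : ∀ a b, β a b = β b a) (b3 : ∀ a, β a a = 1) (b4 : ∀ a ∈ D, ∀ b, β a b = 1)
    (b5 : ∀ a b, β a b ∈ V) :
    ∃ K : Subgroup E, D ≤ K ∧ Nat.card E = 2 * Nat.card K ∧ ∀ a ∈ K, ∀ b ∈ K, β a b = 1 := by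
  have n1 : ∀ a : E, (zpowers a ⊔ D).Normal := fun a => sq_normal fun g => mem_sup_right (hs g)
  have := sq_normal hs
  have fin : ∀ a b, b ∉ D → a ∉ zpowers b ⊔ D → β a b = 1 → ∃ K : Subgroup E, D ≤ K ∧
      Nat.card E = 2 * Nat.card K ∧ ∀ a ∈ K, ∀ b ∈ K, β a b = 1 := fun a b hb ha h => by
    have := n1 b
    have k : ∀ c, β a c = 1 → β b c = 1 → ∀ g ∈ zpowers a ⊔ (zpowers b ⊔ D), β g c = 1 :=
      fun c c1 c2 => (sup_le (zpowers_le.2 c1) (sup_le (zpowers_le.2 c2) fun d hd => b4 d hd c) :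
        _ ≤ (MonoidHom.mk' (β · c) fun a b => b1 a b c).ker)
    refine ⟨zpowers a ⊔ (zpowers b ⊔ D), le_sup_of_le_right le_sup_right, ?_,
      fun g hg c hc => k c ?_ ?_ g hg⟩
    · rw [card_adj hP ha (mem_sup_right (hs a)), card_adj hP hb (hs b), hD]; ring
    · exact b2 a c ▸ k a (b3 a) (b2 a b ▸ h) c hc
    · exact b2 b c ▸ k b h (b3 b) c hc
  have out : ∀ H : Subgroup E, Nat.card H ≤ 2 ^ 2 * Nat.card D → ∃ g, g ∉ H := fun H h => by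
    by_contra hne
    push Not at hne
    rw [(eq_top_iff (a := H)).2 fun y _ => hne y, card_top, hD] at h
    have := Nat.card_pos (α := D)
    omega
  obtain ⟨x, hx⟩ := out D (by omega)
  have := n1 x
  have c1 := card_adj hP hx (hs x)
  obtain ⟨g', hg'⟩ := out (zpowers x ⊔ D) (by omega)
  obtain ⟨g, hg⟩ := out (zpowers g' ⊔ (zpowers x ⊔ D))
    (by rw [card_adj hP hg' (mem_sup_right (hs g'))]; omega)
  have m1 : g' ∈ zpowers g' ⊔ (zpowers x ⊔ D) := mem_sup_left (mem_zpowers g')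
  have m2 : x ∈ zpowers x ⊔ D := mem_sup_left (mem_zpowers x)
  have s2 : ∀ a b, β a b * β a b = 1 := fun a b => sq (β a b) ▸ hV2 _ (b5 a b)
  by_cases p1 : β g' x = 1
  · exact fin g' x hx hg' p1
  by_cases q1 : β g x = 1
  · exact fin g x hx (fun e => hg (mem_sup_right e)) q1
  by_cases pq : β g x ∈ zpowers (β g' x)
  · refine fin (g * g') x hx (fun e => hg ((mul_mem_cancel_right m1).1 (mem_sup_right e))) ?_
    rw [b1, (inv2 (hV2 _ (b5 _ _)) pq).resolve_left q1, s2]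
  have hp : Cen 2 (β g' x) := ⟨mem_center_iff.1 (hVc (b5 _ _)), p1, hV2 _ (b5 _ _)⟩
  have hV' : zpowers (β g x) ⊔ zpowers (β g' x) = V := eq_of_le_of_card_ge
    (sup_le (zpowers_le.2 (b5 _ _)) (zpowers_le.2 (b5 _ _)))
    (by rw [hV, plane_card hp pq (hV2 _ (b5 _ _))])
  have fin' : ∀ a ∈ zpowers x, ∀ b ∈ zpowers x, β (g * a) (g' * b) = 1 → ∃ K : Subgroup E, D ≤ K ∧
      Nat.card E = 2 * Nat.card K ∧ ∀ a ∈ K, ∀ b ∈ K, β a b = 1 := fun a ha b hb =>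
    fin _ _ (fun e => hg' ((mul_mem_cancel_right (mem_sup_left hb)).1 (mem_sup_right e))) fun e =>
      hg ((mul_mem_cancel_right (mem_sup_right (mem_sup_left ha))).1 ((sup_le (zpowers_le.2
        (mul_mem m1 (mem_sup_right (mem_sup_left hb)))) (le_sup_of_le_right le_sup_right) :
          _ ≤ zpowers g' ⊔ (zpowers x ⊔ D)) e))
  have := hp.normal
  obtain ⟨a, ha, b, hb, e⟩ := mem_sup_of_normal_right.1 (hV' ▸ b5 g g')
  have r1 : β g (g' * x) = β g g' * β g x := by rw [b2, b1, b2 g', b2 x]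
  have r2 : β x (g' * x) = β g' x := by rw [b2, b1, b3, mul_one]
  rcases inv2 (hV2 _ (b5 _ _)) ha with rfl | rfl <;> rcases inv2 hp.pow hb with rfl | rfl
  · exact fin' 1 (one_mem _) 1 (one_mem _) (by simp [← e])
  · exact fin' x (mem_zpowers x) 1 (one_mem _) (by rw [mul_one, b1, ← e, one_mul, b2 x, s2])
  · exact fin' 1 (one_mem _) x (mem_zpowers x) (by rw [mul_one, r1, ← e, mul_one, s2])
  · exact fin' x (mem_zpowers x) x (mem_zpowers x) (by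
      rw [b1, r1, r2, ← e, mul_assoc (β g x), ← hp.comm, ← mul_assoc, s2, one_mul, s2])

theorem quad {D V : Subgroup E} {N : ℕ} (hs : ∀ g : E, g ^ 2 ∈ D) (hVc : V ≤ center E)
    (hV2 : ∀ v ∈ V, v ^ 2 = 1) (h1 : ∀ a ∈ D, a ^ N ∈ V)
    (h2 : ∀ a ∈ D, ∀ b ∈ D, (a * b) ^ N = a ^ N * b ^ N) :
    (∀ a b : E, ((a * b) ^ 2) ^ N = (a ^ 2) ^ N * ⁅a⁻¹, b⁆ ^ N * (b ^ 2) ^ N) ∧
    (∀ a b c : E, ⁅a * b, c⁆ ^ N = ⁅a, c⁆ ^ N * ⁅b, c⁆ ^ N) ∧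
    (∀ a b : E, ⁅a, b⁆ ^ N = ⁅b, a⁆ ^ N) ∧ (∀ a ∈ D, ∀ b : E, ⁅a, b⁆ ^ N = 1) ∧
    ∀ a b : E, ⁅a, b⁆ ^ N ∈ V := by
  have hn := sq_normal hs
  have cm : ∀ a b : E, ⁅a, b⁆ ∈ D := fun a b =>
    comm_sq a b ▸ D.mul_mem (D.mul_mem (hs _) (hs _)) (hs _)
  have cj : ∀ a ∈ D, ∀ g : E, (g * a * g⁻¹) ^ N = a ^ N := fun a ha g => by
    rw [_root_.conj_pow, mem_center_iff.1 (hVc (h1 a ha)) g, mul_inv_cancel_right]
  refine ⟨fun a b => ?_, fun a b c => ?_, fun a b => ?_, fun a ha b => ?_, fun a b => h1 _ (cm a b)⟩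
  · rw [← h2 _ (hs _) _ (cm _ _), ← h2 _ (D.mul_mem (hs _) (cm _ _)) _ (hs _)]
    congr 1
    simp only [commutatorElement_def, sq]; group
  · rw [mem_center_iff.1 (hVc (h1 _ (cm b c))), ← cj _ (cm b c) a,
      ← h2 _ (hn.conj_mem _ (cm b c) a) _ (cm a c)]
    congr 1
    simp only [commutatorElement_def]; group
  · rw [← commutatorElement_inv a b, inv_pow, eq_inv_iff_mul_eq_one, ← sq, hV2 _ (h1 _ (cm a b))]
  · rw [show ⁅a, b⁆ = a * (b * a⁻¹ * b⁻¹) by rw [commutatorElement_def]; group,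
      h2 a ha _ (hn.conj_mem _ (D.inv_mem ha) b), cj _ (D.inv_mem ha), inv_pow, mul_inv_cancel]

end Pool.Agent.Lib.MP_2d211a_co.H62
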