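import Pool.Agent.Lib.MP_2d211a_co.H42TwoB

/-! Choice of the maximal subgroup in the recursion for `2`-groups of odd rank. -/

namespace Pool.Agent.Lib.MP_2d211a_co.H62

open Subgroup
open scoped commutatorElement

set_option linter.unusedSectionVars false

universe u

variable {E : Type u} [Group E] [Finite E] {K : Subgroup E} {c z : E} {j : ℕ}

theorem Cen.mul2 (hc : Cen 2 c) (hz : Cen 2 z) (h : c ∉ zpowers z) : Cen 2 (c * z) :=
  ⟨fun g => Commute.mul_right (hc.comm g) (hz.comm g),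
    fun e => h (eq_inv_of_mul_eq_one_left e ▸ inv_mem (mem_zpowers z)),
    by rw [Commute.mul_pow (hz.comm c), hc.pow, hz.pow, one_mul]⟩

theorem Cen.cancel (hz : Cen 2 z) (c : E) : c * z * z = c := by
  rw [mul_assoc, ← sq, hz.pow, mul_one]

theorem Cen.pow2 (hz : Cen 2 z) (j : ℕ) : z ^ 2 ^ (j + 1) = 1 := by
  rw [← sq_pow, hz.pow, one_pow]

theorem not_mul (h : c ∉ zpowers z) : c * z ∉ zpowers z := by
  rwa [mul_mem_cancel_right (mem_zpowers z)]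

theorem Cen.swap (hc : Cen 2 c) (hz : Cen 2 z) (h : c ∉ zpowers z) : z ∉ zpowers c :=
  fun e => h (zp_eq hz.ne hz.pow hc.ne hc.pow e)

theorem not_mul' (hc : Cen 2 c) (hz : Cen 2 z) (h : c ∉ zpowers z) : c * z ∉ zpowers c := by
  rw [mul_mem_cancel_left (mem_zpowers c)]
  exact hc.swap hz h

theorem ker_kap {s : E} (h : ∀ g : E, ⁅g, s⁆ ∈ center E) : (kap h).ker = centralizer {s} :=
  Subgroup.ext fun _ => commutatorElement_eq_one_iff_mul_comm.trans cent_iff.symm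

theorem card_kap {s : E} {V : Subgroup E} {r : ℕ} (hc : V ≤ center E) (hV : Nat.card V = 2 ^ r)
    (h : ∀ g : E, ⁅g, s⁆ ∈ V) :
    ∃ i ≤ r, Nat.card E = 2 ^ i * Nat.card (centralizer {s} : Subgroup E) := by
  obtain ⟨i, hi, e⟩ := (Nat.dvd_prime_pow Nat.prime_two).1 (hV ▸ card_dvd_of_le
    (H := (kap fun g => hc (h g)).range) (by rintro _ ⟨g, rfl⟩; exact h g))
  exact ⟨i, hi, by rw [← e, ← index_ker, ← ker_kap fun g => hc (h g), index_mul_card]⟩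

theorem sq_cent {s : E} {V : Subgroup E} (hc : V ≤ center E) (hV : ∀ v ∈ V, v ^ 2 = 1)
    (h : ∀ g : E, ⁅g, s⁆ ∈ V) (g : E) : g ^ 2 ∈ centralizer {s} := by
  rw [← ker_kap fun g => hc (h g), MonoidHom.mem_ker, map_pow]
  exact hV _ (h g)

/-- A maximal subgroup with two admissible sections. -/
def Goal (c z : E) (j : ℕ) : Prop := ∃ K : Subgroup E, Nat.card E = 2 * Nat.card K ∧ c ∈ K ∧
  z ∈ K ∧ (∀ x ∈ K, x ^ 2 ^ (j + 2) = 1) ∧ ¬RB K c j ∧ ¬RB K (c * z) j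

theorem Goal.swap (hz : Cen 2 z) (h : Goal (c * z) z j) : Goal c z j := by
  obtain ⟨K, h1, h2, h3, h4, h5, h6⟩ := h
  exact ⟨K, h1, (K.mul_mem_cancel_right h3).1 h2, h3, h4, hz.cancel c ▸ h6, h5⟩

theorem lemS (hE : Nat.card E = 2 ^ (2 * j + 5)) (he : ∀ g : E, g ^ 2 ^ (j + 2) = 1)
    (hz : Cen 2 z) (hc : Cen 2 c) (hcz : c ∉ zpowers z) (hK : Nat.card E = 2 * Nat.card K)
    (h : RB K c j) : Goal c z j ∨ ∃ x ∈ K, x ^ 2 ^ (j + 1) = c * z ∧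
      Nat.card E = 2 * Nat.card (centralizer {x ^ 2 ^ j} : Subgroup E) ∧
      (∀ g : E, ⁅g, x ^ 2 ^ j⁆ ∈ zpowers (c * z) ⊔ zpowers c) ∧ ∃ g ∈ K, ⁅g, x ^ 2 ^ j⁆ ≠ 1 := by
  have hP : IsPGroup 2 E := .of_card hE
  have := max_normal hE hK
  obtain ⟨x, hx, h1, hu, h2, g, hg, h3⟩ := h.comm hc fun x _ => he x
  have v1 := plane_cen' hu hc
  have v2 := plane_card hc h1 hu.pow
  have v3 := fun v => plane_exp hc hu.pow (v := v)
  have m1 : x ∈ centralizer {x ^ 2 ^ j} := cent_iff.2 ((Commute.refl x).pow_right _)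
  have m2 : ∀ {a : E}, Cen 2 a → a ∈ centralizer {x ^ 2 ^ j} := fun ha => cent_iff.2 (ha.comm _).symm
  have hcz' := hc.mul2 hz hcz
  obtain ⟨i, hi, e⟩ := card_kap v1 v2 h2
  obtain rfl | rfl | rfl : i = 0 ∨ i = 1 ∨ i = 2 := by omega
  · exact absurd (commutatorElement_eq_one_iff_mul_comm.2 (cent_iff.1
      (eq_top_of_card_eq (centralizer {x ^ 2 ^ j}) (by omega) ▸ mem_top g))) h3
  · by_cases h4 : x ^ 2 ^ (j + 1) ∈ zpowers (c * z)
    · have e1 := (inv2 hcz'.pow h4).resolve_left hu.ne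
      exact .inr ⟨x, hx, e1, e, e1 ▸ h2, g, hg, h3⟩
    exact .inl ⟨_, e, m2 hc, m2 hz, fun x _ => he x,
      not_RB_cen hc (fun x _ => he x) m1 h1 fun g hg => cent_iff.1 hg,
      not_RB_cen hcz' (fun x _ => he x) m1 h4 fun g hg => cent_iff.1 hg⟩
  obtain ⟨D, d1, d2, d3, d4, d5⟩ := setup hP (C := centralizer {x ^ 2 ^ j})
    (by rw [hE, show 2 * j + 5 = 2 + (2 * j + 3) by omega, pow_add] at e; omega) he m1 hc (m2 hc) h1
    (fun g hg => cent_iff.1 hg) (sq_cent v1 v3 h2)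
  obtain ⟨q1, q2, q3, q4, q5⟩ := quad d3 v1 v3 d4 d5
  obtain ⟨L, l1, l2, l3⟩ := iso_plane hP (by omega) d3 v2 v1 v3 (fun a b => ⁅a, b⁆ ^ 2 ^ j) q2 q3
    (fun a => by simp) q4 q5
  have hom : ∀ a ∈ L, ∀ b ∈ L, (a * b) ^ 2 ^ (j + 1) = a ^ 2 ^ (j + 1) * b ^ 2 ^ (j + 1) :=
    fun a ha b hb => by
      rw [← sq_pow, q1, l3 _ (L.inv_mem ha) b hb, mul_one, sq_pow, sq_pow]
  exact .inl ⟨L, l2, l1 ((d2 c).2 ⟨m2 hc, hc.pow2 j⟩), l1 ((d2 z).2 ⟨m2 hz, hz.pow2 j⟩),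
    fun x _ => he x, not_RB_hom hc (fun x _ => he x) hom, not_RB_hom hcz' (fun x _ => he x) hom⟩

theorem fill {A B L : Subgroup E} (hA : A ≤ K ⊓ L) (hB : B ≤ K ⊓ L) (h : Disjoint A B)
    (hc : Nat.card K ≤ Nat.card A * Nat.card B) : K ≤ L :=
  inf_eq_left.1 (eq_of_le_of_card_ge inf_le_left (hc.trans (card_disj hA hB h)))

theorem disj2 (hP : IsPGroup 2 E) {x y : E} {m l : ℕ} (hx : x ^ 2 ^ (m + 1) = 1)
    (hy : Cen 2 (y ^ 2 ^ l)) (h : x ^ 2 ^ m ∉ zpowers (y ^ 2 ^ l)) :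
    Disjoint (zpowers x) (zpowers y) := disj hP hx fun e =>
  h (mem_of_cyc (npow_mem_zpowers y _) e hy.ne hy.pow ((pow_sq x m).trans hx))

theorem find2 (hE : Nat.card E = 2 ^ (2 * j + 5)) (he : ∀ g : E, g ^ 2 ^ (j + 2) = 1)
    (hz : Cen 2 z) (hc : Cen 2 c) (hcz : c ∉ zpowers z) : Goal c z j := by
  have hP : IsPGroup 2 E := .of_card hE
  suffices h : ∀ (c : E) (K : Subgroup E), Cen 2 c → c ∉ zpowers z →
      Nat.card E = 2 * Nat.card K → RB K c j → Goal c z j by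
    obtain ⟨K, k1, -, k2⟩ := exists_max hE (H := zpowers c ⊔ zpowers z) fun h => by
      have := plane_card hz hcz hc.pow
      rw [h, card_top, hE, Nat.pow_right_inj one_lt_two] at this
      omega
    simp only [sup_le_iff, zpowers_le] at k1
    by_cases r1 : RB K c j
    · exact h c K hc hcz k2 r1
    by_cases r2 : RB K (c * z) j
    · exact (h _ K (hc.mul2 hz hcz) (not_mul hcz) k2 r2).swap hz
    exact ⟨K, k2, k1.1, k1.2, fun x _ => he x, r1, r2⟩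
  intro c K hc hcz hK hr
  have hd := hc.mul2 hz hcz
  have n1 := not_mul' hc hz hcz
  have n2 := hd.swap hc n1
  have m1 : ∀ x : E, x ∈ centralizer {x ^ 2 ^ j} := fun x => cent_iff.2 ((Commute.refl x).pow_right _)
  have m2 : ∀ {a : E} (s : E), Cen 2 a → a ∈ centralizer {s} := fun _ ha =>
    cent_iff.2 (ha.comm _).symm
  rcases lemS hE he hz hc hcz hK hr with h | ⟨x, -, x1, x2, -⟩
  · exact h
  by_contra hG
  have r1 : RB (centralizer {x ^ 2 ^ j}) (c * z) j := by_contra fun r =>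
    hG ⟨_, x2, m2 _ hc, m2 _ hz, fun x _ => he x, not_RB_cen hc (fun x _ => he x) (m1 x)
      (x1 ▸ n1) fun g hg => cent_iff.1 hg, r⟩
  rcases lemS hE he hz hd (not_mul hcz) x2 r1 with h | ⟨y, y0, y1, y2, -, g, g1, g2⟩
  · exact hG (h.swap hz)
  rw [hz.cancel] at y1
  have r2 : RB (centralizer {y ^ 2 ^ j}) c j := by_contra fun r =>
    hG ⟨_, y2, m2 _ hc, m2 _ hz, fun x _ => he x, r, not_RB_cen hd (fun x _ => he x) (m1 y)
      (y1 ▸ n2) fun g hg => cent_iff.1 hg⟩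
  rcases lemS hE he hz hc hcz y2 r2 with h | ⟨a, a0, a1, -, a3, b, b1, b2⟩
  · exact hG h
  have cd : ∀ {x y : E} {L : Subgroup E}, x ^ 2 ^ (j + 1) ≠ 1 → y ^ 2 ^ (j + 1) ≠ 1 →
      Nat.card E = 2 * Nat.card L → Nat.card L ≤ Nat.card (zpowers x) * Nat.card (zpowers y) :=
    fun hx hy hL => by
      rw [card_x hP (he _) hx, card_x hP (he _) hy, max_card hE hL, ← pow_add]
      exact Nat.pow_le_pow_right two_pos (by omega)
  have dj : ∀ {x : E}, x ^ 2 ^ (j + 1) = c * z → Disjoint (zpowers x) (zpowers y) := fun hx =>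
    disj2 hP (he _) (y1 ▸ hc) (by rw [hx, y1]; exact n1)
  refine b2 (commutatorElement_eq_one_iff_mul_comm.2 (cent_iff.1 (fill
    (zpowers_le.2 ⟨a0, m1 a⟩) (zpowers_le.2 ⟨m1 y, ?_⟩) (dj a1)
      (cd (a1 ▸ hd.ne) (y1 ▸ hc.ne) y2) b1)))
  rcases j with _ | j
  · refine absurd (commutatorElement_eq_one_iff_mul_comm.2 (cent_iff.1 (fill
      (zpowers_le.2 ⟨m1 x, cent_iff.2 ?_⟩) (zpowers_le.2 ⟨y0, m1 y⟩) (dj x1)
        (cd (x1 ▸ hd.ne) (y1 ▸ hc.ne) x2) g1))) g2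
    simpa using (cent_iff.1 y0).symm
  obtain ⟨p, hp, r, hr, e⟩ := cover (zpowers_le.2 (m1 x)) (zpowers_le.2 y0) (dj x1)
    (cd (x1 ▸ hd.ne) (y1 ▸ hc.ne) x2) (g := a ^ 2 ^ (j + 1))
    (pow_sq a j ▸ sq_mem_of_index_two (max_index x2) _)
  have v1 := plane_cen' hd hc
  have e1 : ⁅p⁻¹, r⁆ ∈ zpowers (c * z) ⊔ zpowers c := by
    rw [show ⁅p⁻¹, r⁆ = p⁻¹ * ⁅p⁻¹, p * r⁆ * p by simp only [commutatorElement_def]; group, ← e,
      mem_center_iff.1 (v1 (a3 p⁻¹)), inv_mul_cancel_right]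
    exact a3 p⁻¹
  have e2 : p ^ 2 * r ^ 2 ∈ zpowers (c * z) ⊔ zpowers c := by
    rw [← mul_mem_cancel_right e1, mul_assoc, mem_center_iff.1 (v1 e1), ← mul_assoc,
      show p ^ 2 * ⁅p⁻¹, r⁆ * r ^ 2 = (p * r) ^ 2 by simp only [commutatorElement_def, sq]; group,
      ← e, pow_sq, a1]
    exact mem_sup_left (mem_zpowers _)
  obtain ⟨i, l, e3⟩ := comm_sup hc.comm _ e2
  have e4 : ((c * z) ^ i)⁻¹ * p ^ 2 = 1 := disjoint_def.1 (dj x1)
    (mul_mem (inv_mem (zpow_mem (x1 ▸ npow_mem_zpowers x _) i)) (pow_mem hp 2)) (by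
      rw [eq_mul_inv_of_mul_eq e3, mul_assoc, inv_mul_cancel_left]
      exact mul_mem (zpow_mem (y1 ▸ npow_mem_zpowers y _) l) (inv_mem (pow_mem hr 2)))
  have e5 : p ∈ zpowers (x ^ 2 ^ (j + 1)) := root_mem hP (d := 1) (x1 ▸ hd.ne) hp (by
    rw [← pow_sq, pow_one, ← inv_mul_eq_one.1 e4]
    exact zsq hd.pow (zpow_mem_zpowers _ i))
  obtain ⟨k, rfl⟩ := e5
  obtain ⟨k', rfl⟩ := hr
  rw [e]
  exact cent_iff.2 ((Commute.zpow_right (cent_iff.1 y0) k).mul_right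
    ((Commute.refl y).zpow_right k'))

end Pool.Agent.Lib.MP_2d211a_co.H62
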