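import Pool.Agent.Lib.MP_2d211a_co.H42TwoC

/-! The `2`-groups of order `2 ^ (2 * j + 3)`. -/

namespace Pool.Agent.Lib.MP_2d211a_co.H62

open Subgroup
open scoped commutatorElement

set_option linter.unusedSectionVars false

universe u

section

variable {E : Type u} [Group E] [Finite E] {K : Subgroup E} {c z : E} {j : ℕ}

theorem exists_top (hP : IsPGroup 2 E) {B : Subgroup E} (hz : z ≠ 1) (hB : z ∈ B) :
    ∃ m : ℕ, (∀ x ∈ B, x ^ 2 ^ (m + 1) = 1) ∧ ∃ b ∈ B, b ^ 2 ^ m ≠ 1 := by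
  classical
  have ex : ∃ m : ℕ, ∀ x ∈ B, x ^ 2 ^ m = 1 :=
    hP.exists_card_eq.imp fun n hn x _ => by rw [← hn]; exact pow_card_eq_one'
  obtain ⟨m, hm⟩ := Nat.exists_eq_succ_of_ne_zero (n := Nat.find ex) fun h =>
    hz (by simpa [h] using Nat.find_spec ex z hB)
  refine ⟨m, fun x hx => by simpa [hm] using Nat.find_spec ex x hx, ?_⟩
  simpa using Nat.find_min ex (m := m) (by omega)

theorem second (hP : IsPGroup 2 E) (hz : Cen 2 z)
    (H1 : ∀ w : E, w ^ 2 = 1 → (∀ g : E, ⁅g, w⁆ ∈ zpowers z) → w ∈ center E) :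
    (∃ c, Cen 2 c ∧ c ∉ zpowers z) ∨ ∃ b : E, Nat.card E ≤ 2 * Nat.card (zpowers b) := by
  obtain ⟨B, b1, b2, b3⟩ := exists_selfcent hP
  have := hz.normal
  by_cases h : Om B b2 2 ≤ zpowers z
  swap
  · have := Om_normal b1 b2 2
    obtain ⟨_, ⟨w, w1, rfl⟩, w2, w3⟩ := normal_cen (hP.to_quotient (zpowers z))
      ((Om B b2 2).map (QuotientGroup.mk' (zpowers z))) (hV := fun e => h (by
        rwa [Subgroup.map_eq_bot_iff, QuotientGroup.ker_mk'] at e))
    have w4 : w ∉ zpowers z := fun e => w2 ((QuotientGroup.eq_one_iff _).2 e)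
    exact .inl ⟨w, ⟨mem_center_iff.1 (H1 w w1.2 fun g => (QuotientGroup.eq_one_iff _).1
      (commutatorElement_eq_one_iff_mul_comm.2 (w3 g))), fun e => w4 (e ▸ one_mem _), w1.2⟩, w4⟩
  have hzB : z ∈ B := b3 z fun b _ => hz.comm b
  obtain ⟨m, m1, b, hb, m2⟩ := exists_top hP hz.ne hzB
  obtain rfl : zpowers b = B := eq_of_le_of_card_ge (zpowers_le.2 hb) (by
    rw [card_x hP (m1 b hb) m2, ← card_top (G := B)]
    exact small (hz.sub hzB) (fun x => Subtype.ext (m1 x x.2))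
      (fun a _ b _ => Subtype.ext (b2 a a.2 b b.2)) fun a _ e => by
        obtain ⟨k, hk⟩ := h ⟨a.2, congrArg Subtype.val e⟩
        exact ⟨k, Subtype.ext hk⟩)
  refine .inr ⟨b, ?_⟩
  rcases m with _ | m
  · rw [(eq_top_iff (a := zpowers b)).2 fun g _ => b3 g fun a ha =>
      (mem_center_iff.1 (zpowers_le.2 (mem_center_iff.2 hz.comm) (h ⟨ha, m1 a ha⟩)) g).symm,
      card_top]
    omega
  have t0 := npow_mem_zpowers b (2 ^ m)
  have t1 : (b ^ 2 ^ m) ^ 2 = z :=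
    (inv2 hz.pow (h ⟨pow_mem t0 2, by rw [pow_sq, pow_sq, m1 b hb]⟩)).resolve_left (pow_sq b m ▸ m2)
  have t2 : ∀ y ∈ zpowers b, (y ^ 2) ^ 2 = 1 → y ∈ zpowers (b ^ 2 ^ m) := fun y hy e =>
    root_mem hP (d := 1) m2 hy (by rwa [← pow_mul] at e)
  generalize b ^ 2 ^ m = t at t0 t1 t2
  have t3 : ∀ g : E, ⁅g, t⁆ ∈ zpowers z := fun g => by
    have e : (g * t * g⁻¹) ^ 2 = z := by rw [_root_.conj_pow, t1, hz.comm, mul_inv_cancel_right]
    obtain ⟨v, v1, v2, -⟩ := four hz (t1 ▸ hz.pow) (mem_sup_left (t2 _ (b1.conj_mem t t0 g)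
      (e ▸ hz.pow))) (e ▸ hz.ne)
    rw [t1, sup_idem] at v1
    rwa [commutatorElement_def, v2, mem_center_iff.1 (zpowers_le.2 (mem_center_iff.2 hz.comm) v1),
      mul_inv_cancel_right]
  have zc := zpowers_le.2 (mem_center_iff.2 hz.comm)
  obtain ⟨i, hi, e⟩ := card_kap (r := 1) zc ((card_zp hz.ne hz.pow).trans rfl) t3
  by_cases hC : centralizer {t} ≤ zpowers b
  · rw [e]
    exact Nat.mul_le_mul (Nat.pow_le_pow_right two_pos hi) (card_le_of_le hC)
  have : (centralizer {t} : Subgroup E).Normal := ker_kap (fun g => zc (t3 g)) ▸ inferInstance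
  obtain ⟨_, ⟨g, g1, rfl⟩, g2, g3⟩ := normal_cen (hP.to_quotient (zpowers b))
    ((centralizer {t}).map (QuotientGroup.mk' (zpowers b))) (hV := fun e => hC (by
      rwa [Subgroup.map_eq_bot_iff, QuotientGroup.ker_mk'] at e))
  obtain ⟨_, ⟨k, rfl⟩, g4, g5⟩ := exists_ord (hP.to_quotient _) g2
  replace g1 := zpow_mem g1 k
  replace g4 : g ^ k ∉ zpowers b := fun e => g4 ((QuotientGroup.eq_one_iff (g ^ k)).2 e)
  replace g5 : (g ^ k) ^ 2 ∈ zpowers b := (QuotientGroup.eq_one_iff _).1 g5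
  replace g3 : ∀ a ∈ zpowers b, ∀ y : E, ⁅y, g ^ k * a⁆ ∈ zpowers b := fun a ha y =>
    (QuotientGroup.eq_one_iff _).1 ((commutatorElement_eq_one_iff_mul_comm
      (g₁ := (y : E ⧸ zpowers b)) (g₂ := (g ^ k * a : E))).2 (by
        rw [QuotientGroup.mk_mul_of_mem _ ha]
        exact Commute.zpow_right (g3 y) k))
  clear g2
  generalize g ^ k = g at g1 g3 g4 g5
  have bC : zpowers b ≤ centralizer {t} := fun a ha => cent_iff.2 (b2 a ha t t0)
  have mC : zpowers g ⊔ zpowers b ≤ centralizer {t} := sup_le (zpowers_le.2 g1) bC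
  have tc : ∀ y ∈ zpowers b, (y ^ 2) ^ 2 = 1 → ∀ x ∈ zpowers g ⊔ zpowers b, x * y = y * x :=
    fun y hy e x hx => by
      obtain ⟨l, rfl⟩ := t2 y hy e
      exact Commute.zpow_right (cent_iff.1 (mC hx)) l
  have p1 := (pc hP b2 1 _ le_sup_right (card_adj hP g4 g5) tc).1
  have gM : g ∈ zpowers g ⊔ zpowers b := mem_sup_left (mem_zpowers g)
  obtain ⟨w, w1, w2⟩ : ∃ a ∈ zpowers b, (g * a) ^ 2 = 1 := by
    obtain ⟨l, hl⟩ := mem_zpowers_iff.1 g5
    obtain ⟨l, rfl | rfl⟩ := Int.even_or_odd' l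
    swap
    · refine absurd (b3 g fun a ha => cent_iff.1
        ((zpowers_le.2 (cent_iff.2 ?_) : zpowers b ≤ centralizer {g}) ha)) g4
      have e1 : Commute g ((b ^ 2) ^ l) := Commute.zpow_right (p1 b (mem_sup_right hb) g gM) l
      have e2 : Commute g (g ^ 2) := (Commute.refl g).pow_right 2
      rw [← hl] at e2
      simpa [zpow_add, zpow_mul] using (e1.inv_right.mul_right e2).symm.eq
    have a1 := inv_mem (zpow_mem_zpowers b l)
    have a2 : g ^ 2 = (b ^ l) ^ 2 := by rw [← hl, mul_comm, zpow_mul, zpow_ofNat]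
    generalize b ^ l = a at a1 a2
    have a3 := comm_mem b1 a1 g
    have a4 : (g * a⁻¹) ^ 2 = ⁅g, a⁻¹⁆ := by
      calc _ = ⁅g, a⁻¹⁆ * a⁻¹ * g ^ 2 * a⁻¹ := by simp only [commutatorElement_def, sq]; group
        _ = _ := by rw [a2]; group
    have a5 : ⁅g, a⁻¹⁆ ^ 2 = 1 := by
      rw [commutatorElement_def, Commute.mul_pow (b2 _ (b1.conj_mem _ a1 g) _ (inv_mem a1)),
        _root_.conj_pow, show g * a⁻¹ ^ 2 = _ from p1 _ (mem_sup_right a1) g gM,
        mul_inv_cancel_right, inv_pow a⁻¹]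
      exact mul_inv_cancel _
    rcases inv2 hz.pow (h ⟨a3, a5⟩) with e | e
    · exact ⟨_, a1, a4.trans e⟩
    · exact ⟨_, mul_mem a1 t0, by
        rw [← mul_assoc, Commute.mul_pow (cent_iff.1 (mul_mem g1 (bC a1))), a4, e, t1, ← sq, hz.pow]⟩
  have wM := mul_mem gM (mem_sup_right w1)
  refine absurd ((mul_mem_cancel_right w1).1 (b3 _ fun a _ => mem_center_iff.1
    (H1 _ w2 fun y => h ⟨g3 w w1 y, ?_⟩) a)) g4
  have a1 := g3 w w1 y
  generalize g * w = v at a1 w2 wM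
  have a2 : (⁅y, v⁆ * v) ^ 2 = 1 := by
    rw [commutatorElement_def, inv_mul_cancel_right, _root_.conj_pow, w2, mul_one, mul_inv_cancel]
  generalize ⁅y, v⁆ = a at a1 a2
  have a3 : v * a * v⁻¹ = a⁻¹ := by
    calc _ = a⁻¹ * (a * v) ^ 2 * (v ^ 2)⁻¹ := by simp only [sq]; group
      _ = _ := by rw [a2, w2]; group
  have a4 : (a ^ 2) ^ 2 = 1 := by
    have e := congrArg (· ^ 2) a3
    simp only [_root_.conj_pow] at e
    rw [show v * a ^ 2 = _ from p1 a (mem_sup_right a1) v wM, mul_inv_cancel_right, inv_pow] at e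
    rw [sq (a ^ 2)]
    exact mul_eq_one_iff_eq_inv.2 e
  rw [tc a a1 a4 v wM, mul_inv_cancel_right] at a3
  rw [sq]
  exact mul_eq_one_iff_eq_inv.2 a3

theorem tricho (hP : IsPGroup 2 E) (hz : Cen 2 z) : (∃ m X, Good z m X) ∨
    (∃ c, Cen 2 c ∧ c ∉ zpowers z) ∨ (∃ b : E, Nat.card E ≤ 2 * Nat.card (zpowers b)) ∨
      Nat.card E ≤ 8 := by
  by_cases H1 : ∀ w : E, w ^ 2 = 1 → (∀ g : E, ⁅g, w⁆ ∈ zpowers z) → w ∈ center E
  · exact .inr ((second hP hz H1).imp_right .inl)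
  push Not at H1
  obtain ⟨w, hw, hu, hc⟩ := H1
  have zc := zpowers_le.2 (mem_center_iff.2 hz.comm)
  have hu' := up_of_mem hz hu
  have := plane_normal hz hu'
  have hwz : w ∉ zpowers z := fun e => hc (zc e)
  obtain ⟨x, hx⟩ : ∃ x, x ∉ centralizer {w} := by
    by_contra hne
    push Not at hne
    exact hc (mem_center_iff.2 fun g => cent_iff.1 (hne g))
  by_cases h : zpowers x ⊔ (zpowers w ⊔ zpowers z) = ⊤
  swap
  · exact .inl (good_plane hP hz hwz hw hu' hx h)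
  have key : ∀ m, x ^ 2 ^ m ∈ zpowers z → Nat.card E ≤ 2 ^ (m + 2) := fun m hm => by
    have e1 := card_zp_le (x := (x : E ⧸ (zpowers w ⊔ zpowers z))) (k := 2 ^ m) (by positivity)
      ((QuotientGroup.eq_one_iff (x ^ 2 ^ m)).2 (mem_sup_right hm))
    have e2 : zpowers (x : E ⧸ (zpowers w ⊔ zpowers z)) = ⊤ := eq_top_iff.2 fun g _ => by
      obtain ⟨g, rfl⟩ := QuotientGroup.mk_surjective g
      obtain ⟨_, ⟨k, rfl⟩, b, hb, rfl⟩ := mem_sup_of_normal_right.1 (h ▸ mem_top g)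
      exact ⟨k, by rw [QuotientGroup.mk_mul_of_mem _ hb]; rfl⟩
    rw [e2, card_top] at e1
    rw [(zpowers w ⊔ zpowers z).card_eq_card_quotient_mul_card_subgroup, plane_card hz hwz hw,
      pow_add]
    exact Nat.mul_le_mul_right _ e1
  obtain ⟨m, m1, m2⟩ := exists_top hP (B := zpowers x) (fun e : x = 1 => hx (e ▸ one_mem _))
    (mem_zpowers x)
  replace m1 := m1 x (mem_zpowers x)
  replace m2 : x ^ 2 ^ m ≠ 1 := fun e => by
    obtain ⟨_, ⟨k, rfl⟩, h⟩ := m2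
    exact h (by rw [← zpow_natCast, ← zpow_mul, mul_comm, zpow_mul, zpow_natCast, e, one_zpow])
  by_cases h2 : x ^ 2 ^ m ∈ zpowers z
  · exact .inr (.inr (.inl ⟨x, by rw [card_x hP m1 m2, ← pow_succ']; exact key m h2⟩))
  rcases m with _ | m
  · exact .inr (.inr (.inr (key 1 (m1 ▸ one_mem _))))
  refine .inr (.inl ⟨_, ⟨fun g => ?_, m2, (pow_sq x _).trans m1⟩, h2⟩)
  rw [← sq_pow]
  exact Commute.pow_right (cent_iff.1 ((sup_le (zpowers_le.2 (cent_iff.2 ((Commute.refl x).pow_right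
    2))) (sup_le (zpowers_le.2 (cent_iff.2 (cent_iff.1 (sq_cent zc (fun v => zsq hz.pow) hu x)).symm))
      (zpowers_le.2 (cent_iff.2 (hz.comm _).symm))) : _ ≤ centralizer {x ^ 2}) (h ▸ mem_top g))) _

theorem avoid (hz : Cen 2 z) (hc : Cen 2 c) (hcz : c ∉ zpowers z) (u : E) (hu : u ≠ 1) :
    ∃ d, Cen 2 d ∧ u ∉ zpowers d ∧ (d = z ∨ d = c) := by
  by_cases h : u ∈ zpowers z
  · refine ⟨c, hc, fun e => hcz ?_, .inr rfl⟩
    rwa [← (inv2 hc.pow e).resolve_left hu]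
  · exact ⟨z, hz, h, .inl rfl⟩

theorem half_ker {u : E} (hu : u ^ 2 = 1) {N : ℕ} (h : ∀ a b : E, (a * b) ^ N = a ^ N * b ^ N)
    (h2 : ∀ a : E, a ^ N ∈ zpowers u) {b : E} (hb : b ^ N ≠ 1) :
    ∃ K : Subgroup E, Nat.card E = 2 * Nat.card K ∧ ∀ a, a ∈ K ↔ a ^ N = 1 := by
  let φ : E →* E := MonoidHom.mk' (fun a => a ^ N) h
  have e := (inv2 hu (h2 b)).resolve_left hb
  refine ⟨φ.ker, ?_, fun _ => Iff.rfl⟩
  rw [← card_zp (p := 2) (e ▸ hb) hu, ← φ.ker.index_mul_card, index_ker,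
    show φ.range = zpowers u from le_antisymm (by rintro _ ⟨a, rfl⟩; exact h2 a)
      (zpowers_le.2 ⟨b, e⟩)]

theorem find1 (hE : Nat.card E = 2 ^ (2 * j + 5)) (he : ∀ g : E, g ^ 2 ^ (j + 3) = 1)
    (hz : Cen 2 z) (hc : Cen 2 c) (hcz : c ∉ zpowers z) {b : E} (hb : b ^ 2 ^ (j + 2) ≠ 1)
    (ht : b ^ 2 ^ (j + 1) ∈ center E) : Goal c z j := by
  have hP : IsPGroup 2 E := .of_card hE
  obtain ⟨d, hd, d1, -⟩ := avoid hz hc hcz _ hb
  have u2 := (pow_sq b _).trans (he b)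
  obtain ⟨K, k1, k2⟩ := half_ker u2 (N := 2 ^ (j + 2)) (fun x y =>
    (pc hP (comm_sup' (b := b) hd.comm) (j + 1) ⊤ le_top
      (by rw [card_top, card_xc hP hd (he b) d1, hE]; ring)
      fun y hy e g _ => cent_sup hd.comm (mem_center_iff.1 ht g)
        (root_sup hP hd (d := 1) hb hy (by rwa [← pow_mul] at e))).2 x trivial y trivial)
    (fun a => mem_of_cyc (npow_mem_zpowers b _) (pow_mem_idx hP le_top
      (by rw [card_top, card_x hP (he b) hb, hE]; ring_nf; rfl) trivial) hb u2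
        ((pow_sq a _).trans (he a))) hb
  have := max_normal hE k1
  have ke : ∀ x ∈ K, x ^ 2 ^ (j + 2) = 1 := fun x => (k2 x).1
  have b2 : b ^ 2 ∈ K := (k2 _).2 ((sq_pow b _).trans (he b))
  have key : ∀ a, Cen 2 a → ¬RB K a j := fun a ha h => by
    by_cases h1 : b ^ 2 ^ (j + 2) ∈ zpowers a
    swap
    · exact not_RB_cen ha ke b2 (by rwa [sq_pow]) (fun g _ => by
        rw [sq_pow]; exact mem_center_iff.1 ht g) h
    obtain ⟨x, hx, x1, hu, x2, g, hg, x3⟩ := h.comm ha ke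
    refine x3 (commutatorElement_eq_one_iff_mul_comm.2 (cent_iff.1 (fill
      (zpowers_le.2 ⟨hx, cent_iff.2 ((Commute.refl x).pow_right _)⟩) (zpowers_le.2 ⟨b2,
        sq_cent (plane_cen' hu ha) (fun v => plane_exp ha hu.pow) x2 b⟩)
      (disj2 hP (ke x hx) (l := j + 1) ?_ ?_) ?_ hg)))
    · rwa [sq_pow, (inv2 ha.pow h1).resolve_left hb]
    · rwa [sq_pow, (inv2 ha.pow h1).resolve_left hb]
    · rw [card_x hP (ke x hx) hu.ne, card_x hP (ke _ b2) (by rwa [sq_pow]), max_card hE k1,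
        ← pow_add]
      exact Nat.pow_le_pow_right two_pos (by omega)
  exact ⟨K, k1, (k2 c).2 (hc.pow2 _), (k2 z).2 (hz.pow2 _), ke, key c hc, key _ (hc.mul2 hz hcz)⟩

theorem find (hE : Nat.card E = 2 ^ (2 * j + 5)) (he : ∀ g : E, g ^ 2 ^ (j + 3) = 1)
    (hz : Cen 2 z) (hc : Cen 2 c) (hcz : c ∉ zpowers z) (h : ¬Bad E (j + 1)) : Goal c z j := by
  have hP : IsPGroup 2 E := .of_card hE
  by_cases h1 : ∀ g : E, g ^ 2 ^ (j + 2) = 1
  · exact find2 hE h1 hz hc hcz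
  push Not at h1
  obtain ⟨x, hx⟩ := h1
  by_cases h2 : x ^ 2 ^ (j + 1) ∈ center E
  · exact find1 hE he hz hc hcz hx h2
  obtain ⟨y, y1, y2⟩ : ∃ y : E, y ^ 2 ^ (j + 2) ≠ 1 ∧ y ^ 2 ^ (j + 1) ∉ zpowers (x ^ 2 ^ (j + 1)) := by
    by_contra hne
    push Not at hne
    exact h ⟨x, hx, h2, hne⟩
  refine find1 hE he hz hc hcz y1 (by_contra fun h3 => y2 ?_)
  obtain ⟨d, hd, d1, -⟩ := avoid hz hc hcz _ hx
  have y4 : (y ^ 2 ^ (j + 1)) ^ 2 ^ (1 + 1) = 1 := by rw [← pow_mul, ← pow_add, he]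
  obtain ⟨M, m1, -, m2⟩ := exists_max hE (H := centralizer {y ^ 2 ^ (j + 1)}) fun e =>
    h3 (mem_center_iff.2 fun g => cent_iff.1 (e ▸ mem_top g))
  refine root_mem hP (d := 1) hx (pow_mem_idx hP (K := M) (zpowers_le.2 (m1 (cent_iff.2 (cent_sup hd.comm
    ((Commute.refl x).pow_right _) (root_sup hP hd (m := j + 1) (d := 1) hx
      (pow_mem_idx hP le_top ?_ trivial) y4))))) ?_
      (m1 (cent_iff.2 ((Commute.refl y).pow_right _)))) y4
  · rw [card_top, card_xc hP hd (he x) d1, hE]; ring_nf; rfl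
  · rw [card_x hP (he x) hx, max_card hE m2]; ring_nf; rfl

theorem ab_of {a : E} (hc : ∀ g, g * c = c * g)
    (h : Nat.card E ≤ Nat.card (zpowers a ⊔ zpowers c : Subgroup E)) (x y : E) : x * y = y * x :=
  have e := eq_top_of_le_card _ h
  comm_sup' hc x (e ▸ mem_top x) y (e ▸ mem_top y)

theorem pw_cases (c z : E) (i : ZMod 2) : c * pw z i = c ∨ c * pw z i = c * z := by
  fin_cases i
  · exact .inl ((congrArg (c * ·) (pow_zero z)).trans (mul_one c))
  · exact .inr (congrArg (c * ·) (pow_one z))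

end

theorem odd2 (j : ℕ) : ∀ (E : Type u) [Group E] [Finite E], Nat.card E = 2 ^ (2 * j + 3) →
    (∀ x : E, x ^ 2 ^ (j + 2) = 1) → ¬Bad E j → ∀ z : E, Cen 2 z → ∃ m X, Good z m X := by
  induction j with
  | zero =>
    intro E _ _ hE he h z hz
    have hP : IsPGroup 2 E := .of_card hE
    have ab : (∀ a b : E, a * b = b * a) → ∃ m X, Good z m X := fun h => two_odd 1 E hE
      (fun x => mem_center_iff.2 fun g => h g _) (fun x => by rw [← pow_mul]; exact he x) (.inl h) z hz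
    by_cases h1 : ∀ x : E, x ^ 2 = 1
    · exact ab fun a b => by
        rw [← commutatorElement_eq_one_iff_mul_comm, comm_sq, h1, h1, h1, one_mul, one_mul]
    push Not at h1
    obtain ⟨x, hx⟩ := h1
    have cx := card_x hP (m := 1) (he x) hx
    by_cases h2 : x ^ 2 ∈ zpowers z
    swap
    · exact ab (ab_of (a := x) hz.comm (by rw [card_xc hP hz (m := 1) (he x) h2, hE]))
    have h3 := (inv2 hz.pow h2).resolve_left hx
    by_cases h4 : x ∈ center E
    · have hx' := mem_center_iff.1 h4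
      have : (zpowers x).Normal := ⟨fun n hn g => by
        rwa [mem_center_iff.1 (zpowers_le.2 h4 hn) g, mul_inv_cancel_right]⟩
      obtain ⟨g, hg⟩ := exists_out (p := 2) (M := zpowers x) (by rw [hE, cx]; rfl)
      exact ab (ab_of (a := g) hx' (by
        rw [card_adj hP hg (pow_mem_idx hP (i := 1) le_top (by rw [card_top, hE, cx]; rfl) trivial),
          hE, cx]; rfl))
    obtain ⟨y, y1, y2⟩ : ∃ y : E, y ^ 2 ≠ 1 ∧ y ∉ zpowers x := by
      by_contra hne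
      push Not at hne
      exact h ⟨x, hx, by simpa using h4, by simpa using hne⟩
    exact good_eight hz hE h3 ((inv2 hz.pow (h3 ▸ mem_of_cyc (npow_mem_zpowers x 2)
      (pow_mem_idx hP (i := 1) le_top (by rw [card_top, hE, cx]; rfl) trivial) hx
        (h3 ▸ hz.pow) (by rw [← pow_mul]; exact he y))).resolve_left y1) y2
  | succ j ih =>
    intro E _ _ hE he h z hz
    have hP : IsPGroup 2 E := .of_card hE
    rcases tricho hP hz with h | ⟨c, hc, hcz⟩ | ⟨b, hb⟩ | hb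
    · exact h
    · obtain ⟨K, k1, k2, k3, k4, k5, k6⟩ := find hE he hz hc hcz h
      refine rec_cen hP hz (mem_center_iff.2 hc.comm) hc.pow hcz k1 k2 k3
        fun Q _ _ f i hf hk hQ hz' => ih Q (by
          rw [max_card hE k1, show 2 * (j + 1) + 2 = 2 * j + 3 + 1 from rfl, pow_succ'] at hQ; omega)
          (fun y => ?_) (fun h => ?_) _ hz'
      · obtain ⟨y, rfl⟩ := hf y
        rw [← map_pow, ← f.map_one]
        exact congrArg f (Subtype.ext (k4 y y.2))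
      · rcases pw_cases c z i with e | e <;> rw [e] at hk
        exacts [k5 (RB_of_bad f hf hk h), k6 (RB_of_bad f hf hk h)]
    · have := hb.trans (Nat.mul_le_mul_left 2 (card_zp_le (by positivity) (he b)))
      rw [hE, ← pow_succ', Nat.pow_le_pow_iff_right one_lt_two] at this
      omega
    · rw [hE, show 8 = 2 ^ 3 from rfl, Nat.pow_le_pow_iff_right one_lt_two] at hb
      omega

end Pool.Agent.Lib.MP_2d211a_co.H62
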