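import Pool.Agent.Lib.MP_2d211a_co.H42TwoD

/-! The `2`-groups of order `2 ^ (2 * k + 2)`. -/

namespace Pool.Agent.Lib.MP_2d211a_co.H62

open Subgroup
open scoped commutatorElement

set_option linter.unusedSectionVars false

universe u

section

variable {E : Type u} [Group E] [Finite E] {K : Subgroup E} {c d z x : E} {j : ℕ}

theorem top_cen {m : ℕ} (hE : Nat.card E = 2 ^ (2 * m + 2)) (h1 : x ^ 2 ^ (m + 1) = 1)
    (h2 : x ^ 2 ^ m ≠ 1) : Cen 2 (x ^ 2 ^ m) := by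
  have hP : IsPGroup 2 E := .of_card hE
  have cx := card_x hP h1 h2
  have u2 := (pow_sq x m).trans h1
  obtain ⟨M, m1, m2, m3⟩ := exists_max hE (H := zpowers x) fun h => by
    rw [h, card_top, hE, Nat.pow_right_inj one_lt_two] at cx
    omega
  refine ⟨fun g => ?_, h2, u2⟩
  have e := pow_mem_idx hP m1 (i := m) (by rw [cx, max_card hE m3]; ring_nf; rfl)
    (m2.conj_mem x (m1 (mem_zpowers x)) g)
  rw [_root_.conj_pow] at e
  exact mul_inv_eq_iff_eq_mul.1 ((inv2 u2 (mem_of_cyc (npow_mem_zpowers x _) e h2 u2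
    (by rw [_root_.conj_pow, u2, mul_one, mul_inv_cancel]))).resolve_left (by simpa using h2))

theorem half_cent {n : ℕ} (hE : Nat.card E = 2 ^ n) {H C : Subgroup E} (h : H ≤ C) (hH : H ≠ ⊤)
    (hC : Nat.card E ≤ 2 * Nat.card C) :
    ∃ K : Subgroup E, Nat.card E = 2 * Nat.card K ∧ H ≤ K ∧ K ≤ C := by
  by_cases e : ∀ g, g ∈ C
  · obtain ⟨K, k1, -, k2⟩ := exists_max hE hH
    exact ⟨K, k2, k1, fun g _ => e g⟩
  push Not at e
  obtain ⟨g, hg⟩ := e
  exact ⟨C, hC.antisymm (card_top (G := E) ▸ lt_card (.of_card hE) le_top trivial hg), h, le_rfl⟩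

theorem top_half (hE : Nat.card E = 2 ^ (2 * j + 6)) (he : ∀ g : E, g ^ 2 ^ (j + 3) = 1)
    (hx : x ^ 2 ^ (j + 2) ∉ zpowers d) (hd : Cen 2 d) :
    ∃ K : Subgroup E, Nat.card E = 2 * Nat.card K ∧ zpowers x ⊔ zpowers d ≤ K ∧
      K ≤ centralizer {x ^ 2 ^ (j + 1)} := by
  have hP : IsPGroup 2 E := .of_card hE
  have e0 : x ^ 2 ^ (j + 2) ≠ 1 := fun e => hx (e ▸ one_mem _)
  have hu := top_cen (m := j + 2) hE (he x) e0
  have cB := card_xc hP hd (he x) hx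
  have nB : zpowers x ⊔ zpowers d ≠ ⊤ := fun h => by
    rw [h, card_top, hE, Nat.pow_right_inj one_lt_two] at cB
    omega
  have e4 : ∀ y : E, (y ^ 2 ^ (j + 1)) ^ 2 ^ (1 + 1) = 1 := fun y => by rw [← pow_mul, ← pow_add, he]
  have key : ∀ {a : E}, Cen 2 a → ∀ g : E, (g * x * g⁻¹) ^ 2 ^ (j + 1) ∈
      zpowers (x ^ 2 ^ (j + 1)) ⊔ zpowers a →
        ⁅g, x ^ 2 ^ (j + 1)⁆ ∈ zpowers (x ^ 2 ^ (j + 2)) ⊔ zpowers a := fun ha g h => by
    obtain ⟨v, v1, v2, -⟩ := four ha (by rw [pow_sq, pow_sq, he]) h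
      (by simpa [_root_.conj_pow, pow_sq] using e0)
    rw [_root_.conj_pow] at v2
    rwa [commutatorElement_def, v2, cent_sup ha.comm ((Commute.refl _).pow_right 2) v1,
      mul_inv_cancel_right, ← pow_sq]
  have m0 : x ∈ centralizer {x ^ 2 ^ (j + 1)} := cent_iff.2 ((Commute.refl x).pow_right _)
  refine half_cent hE (sup_le (zpowers_le.2 m0) (zpowers_le.2 (cent_iff.2 (hd.comm _).symm))) nB ?_
  obtain ⟨M, m1, m2, m3⟩ := exists_max hE nB
  have h2 := fun g => key hd g (root_sup hP hd (m := j + 1) (d := 1) e0 (pow_mem_idx hP m1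
    (by rw [cB, max_card hE m3]; ring_nf; rfl)
      (m2.conj_mem x (m1 (mem_sup_left (mem_zpowers x))) g)) (e4 _))
  have v1 := plane_cen' hu hd
  obtain ⟨i, hi, e⟩ := card_kap v1 (plane_card hd hx hu.pow) h2
  by_cases h : i = 2
  swap
  · rw [e]
    exact Nat.mul_le_mul_right _ (Nat.pow_le_pow_right (i := i) (j := 1) two_pos (by omega))
  have hn : (centralizer {x ^ 2 ^ (j + 1)} : Subgroup E).Normal :=
    ker_kap (fun g => v1 (h2 g)) ▸ inferInstance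
  obtain ⟨l, hl, e'⟩ := card_kap (r := 1) (s := x ^ 2 ^ (j + 1))
    (zpowers_le.2 (mem_center_iff.2 hu.comm)) ((card_zp hu.ne hu.pow).trans rfl) fun g => by
      simpa using key hu g (mem_sup_left (root_mem hP (m := j + 1) (d := 1) e0 (pow_mem_idx hP
        (zpowers_le.2 m0) (by
          rw [h, hE, show 2 * j + 6 = 2 + (j + 1 + (j + 2 + 1)) by omega, pow_add,
            pow_add 2 (j + 1)] at e
          rw [card_x hP (he x) e0]
          omega) (hn.conj_mem x m0 g)) (e4 _)))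
  rw [e']
  exact Nat.mul_le_mul_right _ (Nat.pow_le_pow_right two_pos hl)

theorem not_bad_cen (hz : Cen 2 z) (he : ∀ g : E, g ^ 2 ^ (j + 2) = 1) (h1 : x ^ 2 ^ (j + 1) ≠ 1)
    (h2 : x ^ 2 ^ j ∈ center E) : ¬Bad E j := by
  rintro ⟨y, -, y2, y3⟩
  exact y2 ((sup_le (zpowers_le.2 h2) (zpowers_le.2 (mem_center_iff.2 hz.comm)) : _ ≤ center E)
    (four' hz (by rw [pow_sq, pow_sq, he]) (mem_sup_left (y3 x h1)) (by rwa [pow_sq])))

theorem order64 (hE : Nat.card E = 2 ^ 6) (he : ∀ g : E, g ^ 2 ^ 3 = 1)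
    (hx : x ^ 2 ^ 2 ∉ zpowers d) (hd : Cen 2 d)
    (hs : ∀ y : E, y ^ 2 ^ 2 ≠ 1 → 2 * Nat.card (centralizer {y} : Subgroup E) < Nat.card E) :
    ∃ L : Subgroup E, Nat.card E = 2 * Nat.card L ∧ x ^ 2 ^ 2 ∈ L ∧ d ∈ L ∧
      ∀ y ∈ L, y ^ 2 ^ 2 = 1 := by
  have hP : IsPGroup 2 E := .of_card hE
  obtain ⟨K, k1, k2, k3⟩ := top_half (j := 0) hE he hx hd
  have hu := top_cen (m := 2) hE (he x) fun e => hx (e ▸ one_mem _)
  have xK := k2 (mem_sup_left (mem_zpowers x))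
  have dK := k2 (mem_sup_right (mem_zpowers d))
  have cK := max_card hE k1
  obtain ⟨D, d1, d2, d3, d4, d5⟩ := setup (j := 1) hP cK he xK hd dK hx
    (fun g hg => cent_iff.1 (k3 hg)) (sq_mem_of_index_two (max_index k1))
  have v1 := plane_cen' hu hd
  have v3 := fun v => plane_exp hd hu.pow (v := v)
  obtain ⟨q1, -, q3, q4, -⟩ := quad d3 v1 v3 d4 d5
  have := sq_normal d3
  have uD : x ^ 2 ^ 2 ∈ D := (d2 _).2 ⟨K.pow_mem xK _, hu.pow2 1⟩
  have dD : d ∈ D := (d2 _).2 ⟨dK, hd.pow2 1⟩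
  by_cases h : ∃ h, h ∉ D ∧ h ^ 2 ^ 2 = 1
  · obtain ⟨h, h1, h2⟩ := h
    refine ⟨zpowers h ⊔ D, by rw [card_adj hP h1 (d3 h), ← d1, k1], mem_sup_right uD,
      mem_sup_right dD, fun y hy => ?_⟩
    obtain ⟨_, ⟨i, rfl⟩, a, ha, rfl⟩ := mem_sup_of_normal_right.1 hy
    rw [← sq_pow, q1, q3, q4 a ha, sq_pow, sq_pow, ((d2 a).1 ha).2, ← zpow_natCast, ← zpow_mul,
      mul_comm i, zpow_mul, zpow_natCast, h2]
    simp
  exfalso
  push Not at h
  have ab : ∀ a ∈ D, ∀ b ∈ D, a * b = b * a := fun a ha b hb => by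
    have e := d5 a ha b hb
    simp only [pow_one, sq, mul_assoc, mul_right_inj] at e
    rw [← mul_assoc, ← mul_assoc, mul_left_inj] at e
    exact e.symm
  have f : ∀ y, y ∉ D → ∃ a, Cen 2 a ∧ a ∈ D ∧ (y ^ 2) ^ 2 ^ 1 ∉ zpowers a ∧
      ∀ b ∈ D, y * b = b * y → b ∈ zpowers (y ^ 2) ⊔ zpowers a := fun y hy => by
    obtain ⟨a, a1, a2, a3⟩ := avoid hd hu hx _ (h y hy)
    refine ⟨a, a1, by rcases a3 with rfl | rfl <;> assumption, by rwa [sq_pow], fun b hb e => ?_⟩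
    refine root_sup hP a1 (m := 1) (d := 1) (h y hy) (by_contra fun e' => ?_) ((d2 b).1 hb).2
    have e1 := lt_card hP (L := centralizer {y}) (sup_le (zpowers_le.2 (cent_iff.2 rfl))
      (zpowers_le.2 (cent_iff.2 (a1.comm _).symm))) (cent_iff.2 e.symm) e'
    have e2 := hs y (h y hy)
    rw [card_xc hP a1 (he y) a2] at e1
    omega
  have cD : Nat.card D = 2 ^ 4 := by omega
  have c8 : ∀ {y a : E}, Cen 2 a → (y ^ 2) ^ 2 ^ 1 ∉ zpowers a →
      Nat.card (zpowers (y ^ 2) ⊔ zpowers a : Subgroup E) = 2 ^ 3 := fun ha h =>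
    card_xc hP ha (by rw [sq_pow, he]) h
  by_cases h0 : ∃ y, y ∉ D ∧ y ^ 2 ∈ center E
  · obtain ⟨y, y1, y2⟩ := h0
    obtain ⟨a, a1, a2, a3, a4⟩ := f y y1
    have y3 : (y ^ 2) ^ 2 ^ 1 ≠ 1 := fun e => a3 (e ▸ one_mem _)
    have z1 : zpowers (y ^ 2) ⊔ zpowers a ≤ center E :=
      sup_le (zpowers_le.2 y2) (zpowers_le.2 (mem_center_iff.2 a1.comm))
    have s1 : ∀ g : E, g ^ 2 ∈ center E := fun g => by
      by_cases hg : g ∈ D
      · exact v1 (d4 g hg)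
      obtain ⟨b, b1, -, -, b4⟩ := f g hg
      exact (sup_le (zpowers_le.2 y2) (zpowers_le.2 (mem_center_iff.2 b1.comm)) : _ ≤ center E)
        (four' b1 (by rw [← pow_mul, ← pow_mul]; exact he g)
          (b4 _ (d3 y) (mem_center_iff.1 y2 g)) y3)
    have s2 : ∀ g : E, g ^ 2 ∈ zpowers (y ^ 2) ⊔ zpowers a := fun g =>
      a4 _ (d3 g) (mem_center_iff.1 (s1 g) y)
    have s3 : ∀ g g' : E, ⁅g, g'⁆ ∈ zpowers (y ^ 2) ⊔ zpowers a := fun g g' =>
      comm_sq g g' ▸ mul_mem (mul_mem (s2 _) (s2 _)) (s2 _)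
    have s4 := comm_pow (p := 2) s1 fun g g' => z1 (s3 g g')
    have hy : Cen 2 ((y ^ 2) ^ 2 ^ 1) := ⟨mem_center_iff.1 (pow_mem y2 _), y3, by
      rw [← pow_mul, ← pow_mul]; exact he y⟩
    obtain ⟨L, -, l2, l3⟩ := iso_plane hP (by rw [c8 a1 a3, hE]; rfl) s2 (plane_card a1 a3 hy.pow)
      (plane_cen' hy a1) (fun v => plane_exp a1 hy.pow) (fun a b => ⁅a, b⁆)
      (fun g g' t => (kap fun g => z1 (s3 g t)).map_mul g g')
      (fun g g' => by rw [← commutatorElement_inv g g', eq_inv_iff_mul_eq_one, ← sq, s4])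
      (fun g => by simp) (fun g hg t => kap_cen (fun g => z1 (s3 g t)) (z1 hg))
      fun g g' => root_sup hP a1 (m := 1) (d := 0) y3 (s3 g g') (s4 g g')
    obtain ⟨g, g1, g2⟩ : ∃ g ∈ L, g ∉ D := SetLike.not_le_iff_exists.1 fun e => by
      have := card_le_of_le e
      omega
    have e1 := card_le_of_le (H := L) (K := centralizer {g}) fun t ht =>
      cent_iff.2 (commutatorElement_eq_one_iff_mul_comm.1 (l3 t ht g g1))
    have e2 := hs g (h g g2)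
    omega
  push Not at h0
  obtain ⟨y, hy⟩ := exists_out k1
  have DK : D ≤ K := fun a ha => ((d2 a).1 ha).1
  have xD : x ∉ D := fun e => hu.ne ((d2 x).1 e).2
  have yD : y ∉ D := fun e => hy (DK e)
  have gen : ∀ a ∈ D, Commute x a → Commute y a → a ∈ center E := fun a ha e1 e2 => by
    have e3 : ∀ g ∈ K, Commute g a := fun g hg => by
      by_cases e : g ∈ D
      · exact ab g e a ha
      simpa using Commute.mul_left (ab _ (half_mul DK d1 hg (K.inv_mem xK) e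
        (by rwa [D.inv_mem_iff])) a ha) e1
    refine mem_center_iff.2 fun g => ?_
    by_cases e : g ∈ K
    · exact e3 g e
    simpa using (Commute.mul_left (e3 _ (half_mul (b := y⁻¹) le_top (by rwa [card_top]) trivial
      trivial e (by rwa [K.inv_mem_iff]))) e2).eq
  have two : ∀ g, g ∉ D → ∀ a ∈ D, ∀ b ∈ D, ¬Commute g a → ¬Commute g b → Commute g (a * b) :=
    fun g hg a ha b hb e1 e2 => by
      obtain ⟨t, t1, t2, t3, -⟩ := f g hg
      have e : ∀ v ∈ zpowers (g ^ 2) ⊔ zpowers t, Commute g v := fun v =>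
        cent_sup t1.comm ((Commute.refl g).pow_right 2)
      exact e _ (half_mul (sup_le (zpowers_le.2 (d3 g)) (zpowers_le.2 t2)) (by rw [c8 t1 t3, cD]; rfl)
        ha hb (fun h => e1 (e a h)) fun h => e2 (e b h))
  have r0 : Commute (y * x) ((y * x) ^ 2) := (Commute.refl _).pow_right 2
  have r1 := h0 (y * x) fun e => hy ((K.mul_mem_cancel_right xK).1 (DK e))
  have px : Commute x (x ^ 2) := (Commute.refl _).pow_right 2
  have py : Commute y (y ^ 2) := (Commute.refl _).pow_right 2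
  have n1 : ¬Commute y (x ^ 2) := fun e => h0 x xD (gen _ (d3 x) px e)
  have n0 : ⁅y⁻¹, x⁆ = (y ^ 2)⁻¹ * (y * x) ^ 2 * (x ^ 2)⁻¹ := by
    simp only [commutatorElement_def, sq]; group
  have nx : Commute x ⁅y⁻¹, x⁆ := n0 ▸ (two x xD _ (D.inv_mem (d3 y)) _ (d3 _)
    (fun e => h0 y yD (gen _ (d3 y) (by simpa using e) py)) fun e => r1 (gen _ (d3 _) e
      (by simpa using r0.mul_left e.inv_left))).mul_right px.inv_right
  have ny : Commute y ⁅y⁻¹, x⁆ := by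
    rw [n0, mul_assoc]
    exact py.inv_right.mul_right (two y yD _ (d3 _) _ (D.inv_mem (d3 x)) (fun e => r1 (gen _ (d3 _)
      (by simpa using e.inv_left.mul_left r0) e)) (by simpa using n1))
  have nD : ⁅y⁻¹, x⁆ ∈ D := n0 ▸ D.mul_mem (D.mul_mem (D.inv_mem (d3 _)) (d3 _)) (D.inv_mem (d3 _))
  obtain ⟨a, a1, -, -, a4⟩ := f x xD
  have n2 : ⁅y⁻¹, x⁆ ^ 2 = 1 := by_contra fun e => h0 x xD ((sup_le (zpowers_le.2 (gen _ nD nx ny))
    (zpowers_le.2 (mem_center_iff.2 a1.comm)) : _ ≤ center E)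
      (four' a1 (by rw [← pow_mul, ← pow_mul]; exact he x) (a4 _ nD nx) e))
  have n3 := nx.symm.mul_pow 2
  rw [n2, one_mul, commutatorElement_def, inv_mul_cancel_right, _root_.conj_pow] at n3
  exact n1 (by simpa using Commute.inv_left (mul_inv_eq_iff_eq_mul.1 n3))

/-- The invariant of the recursion in even rank. -/
def Inv (k : ℕ) (z : E) : Prop := (∀ x : E, x ^ 2 ^ (k + 1) = 1) ∨
  (∀ x : E, x ^ 2 ^ (k + 2) = 1) ∧
    ∃ b : E, b ^ 2 ^ (k + 1) = z ∧ b ^ 2 ^ k ∈ center E ∧ (k = 1 → b ∈ center E)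

theorem Inv.pow {k : ℕ} (h : Inv k z) (x : E) : x ^ 2 ^ (k + 2) = 1 := by
  rcases h with h | h
  exacts [by rw [← pow_sq, h, one_pow], h.1 x]

theorem even16 (hE : Nat.card E = 2 ^ 4) (hz : Cen 2 z) {g : E} (hg : g ^ 2 = z) (h : Inv 1 z) :
    ∃ m X, Good z m X := by
  have hP : IsPGroup 2 E := .of_card hE
  rcases h with he | ⟨he, b, b1, -, b2⟩
  · rcases tricho hP hz with h | ⟨c, hc, hcz⟩ | ⟨b, hb⟩ | hb
    · exact h
    · exact good_16 hz hE hg (mem_center_iff.2 hc.comm) hc.pow hcz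
    · have := card_zp_le (by positivity) (he b)
      omega
    · omega
  replace b2 := b2 rfl
  have cb := card_x hP (he b) (b1 ▸ hz.ne)
  have : (zpowers b).Normal := ⟨fun n hn g => by
    rwa [mem_center_iff.1 (zpowers_le.2 b2 hn) g, mul_inv_cancel_right]⟩
  obtain ⟨y, hy⟩ := exists_out (p := 2) (M := zpowers b) (by omega)
  have y2 := pow_mem_idx hP (H := zpowers b) (i := 1) le_top (by rw [card_top]; omega) (mem_top y)
  have ab := ab_of (a := y) (mem_center_iff.1 b2) (by rw [card_adj hP hy y2]; omega)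
  obtain ⟨l, hl⟩ := mem_zpowers_iff.1 (root_mem hP (m := 1) (d := 1) (b1 ▸ hz.ne) y2
    (by rw [← pow_mul]; exact he y))
  refine good_16 hz hE hg (a := y * (b ^ l)⁻¹) (mem_center_iff.2 fun g => ab g _) ?_ fun e => hy ?_
  · rw [Commute.mul_pow (ab _ _), ← pow_one 2, ← hl, inv_pow, ← zpow_natCast, ← zpow_natCast,
      ← zpow_mul, ← zpow_mul, mul_comm l, mul_inv_cancel]
  · exact (mul_mem_cancel_right (inv_mem (zpow_mem_zpowers b l))).1
      (zpowers_le.2 (b1 ▸ npow_mem_zpowers b _) e)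

end

theorem even2 (j : ℕ) : ∀ (E : Type u) [Group E] [Finite E], Nat.card E = 2 ^ (2 * j + 4) →
    ∀ z g : E, Cen 2 z → g ^ 2 = z → Inv (j + 1) z → ∃ m X, Good z m X := by
  induction j with
  | zero => exact fun E _ _ hE z g hz hg h => even16 hE hz hg h
  | succ j ih =>
  intro E _ _ hE z g hz hg h
  have hP : IsPGroup 2 E := .of_card hE
  rcases tricho hP hz with h | ⟨c, hc, hcz⟩ | ⟨b, hb⟩ | hb
  · exact h
  rotate_left
  · have := hb.trans (Nat.mul_le_mul_left 2 (card_zp_le (by positivity) (h.pow b)))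
    rw [hE, ← pow_succ', Nat.pow_le_pow_iff_right one_lt_two] at this
    omega
  · rw [hE, show 8 = 2 ^ 3 from rfl, Nat.pow_le_pow_iff_right one_lt_two] at hb
    omega
  have fin : ∀ (K : Subgroup E) (c : E), Cen 2 c → c ∉ zpowers z → Nat.card E = 2 * Nat.card K →
      c ∈ K → ∀ hzK : z ∈ K, (∀ x ∈ K, x ^ 2 ^ (j + 3) = 1) →
      ((∀ x ∈ K, x ^ 2 ^ (j + 2) = 1) ∨ ∃ x ∈ K, (x ^ 2 ^ (j + 2) = z ∨ x ^ 2 ^ (j + 2) = c) ∧
        (∀ g ∈ K, g * x ^ 2 ^ (j + 1) = x ^ 2 ^ (j + 1) * g) ∧ (j = 0 → ∀ g ∈ K, g * x = x * g)) →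
      ∃ m X, Good z m X := fun K c hc hcz k1 k2 k3 k4 k5 => by
    have cK := max_card hE k1
    by_cases hgK : g ∈ K
    swap
    · refine good_step2 hz k1 k3 hgK hg (odd2 (j + 1) K cK (fun x => Subtype.ext (k4 x x.2)) ?_ _
        (hz.sub k3))
      rcases k5 with k5 | ⟨x, x1, x2, x3, -⟩
      · exact fun ⟨y, hy, _⟩ => hy (Subtype.ext (k5 y y.2))
      refine not_bad_cen (x := ⟨x, x1⟩) (hz.sub k3) (fun x => Subtype.ext (k4 x x.2))
        (fun e => ?_) (mem_center_iff.2 fun g => Subtype.ext (x3 g g.2))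
      replace e : x ^ 2 ^ (j + 2) = 1 := congrArg Subtype.val e
      rcases x2 with x2 | x2
      exacts [hz.ne (x2 ▸ e), hc.ne (x2 ▸ e)]
    refine rec_cen hP hz (mem_center_iff.2 hc.comm) hc.pow hcz k1 k2 k3
      fun Q _ _ f i hf hk hQ hz' => ih Q (by
        rw [cK, show 2 * (j + 1) + 3 = 2 * j + 4 + 1 from rfl, pow_succ'] at hQ; omega)
          _ (f ⟨g, hgK⟩) hz' (map_pow f _ 2 ▸ congrArg f (Subtype.ext hg)) ?_
    have low : ∀ N, (∀ x ∈ K, x ^ N ∈ zpowers (c * pw z i)) → ∀ y : Q, y ^ N = 1 := fun N h y => by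
      obtain ⟨y, rfl⟩ := hf y
      exact map_pow f y N ▸ (hk _).2 (h y y.2)
    rcases k5 with k5 | ⟨x, x1, x2, x3, x4⟩
    · exact .inl (low _ fun x hx => k5 x hx ▸ one_mem _)
    have cen : ∀ N, (∀ g ∈ K, g * x ^ N = x ^ N * g) → f ⟨x, x1⟩ ^ N ∈ center Q := fun N h =>
      mem_center_iff.2 fun y => by
        obtain ⟨y, rfl⟩ := hf y
        rw [← map_pow, ← map_mul, ← map_mul]
        exact congrArg f (Subtype.ext (h y y.2))
    by_cases h1 : x ^ 2 ^ (j + 2) = c * pw z i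
    · have u0 : x ^ 2 ^ (j + 2) ≠ 1 := h1 ▸ wz_ne hcz i
      exact .inl (low _ fun y hy => h1 ▸ mem_of_cyc (npow_mem_zpowers x _)
        (pow_mem_idx hP (zpowers_le.2 x1) (by rw [card_x hP (k4 x x1) u0, cK]; ring_nf; rfl) hy) u0
          ((pow_sq x _).trans (k4 x x1)) ((pow_sq y _).trans (k4 y hy)))
    refine .inr ⟨low _ fun x hx => k4 x hx ▸ one_mem _, f ⟨x, x1⟩, ?_, cen _ x3, fun e => by
      simpa using cen 1 (by simpa using x4 (by omega))⟩
    rw [← map_pow]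
    rcases x2 with x2 | x2
    · exact congrArg f (Subtype.ext x2)
    rcases pw_cases c z i with e | e
    · exact absurd (x2.trans e.symm) h1
    rw [← mul_right_cancel_iff (a := f ⟨z, k3⟩), ← sq, hz'.pow, ← map_mul, hk, e]
    exact x2 ▸ mem_zpowers _
  rcases h with he | ⟨he, b, b1, b2, -⟩
  swap
  · have b0 : b ^ 2 ^ (j + 3) ≠ 1 := b1 ▸ hz.ne
    have cb : Nat.card (⊤ : Subgroup E) = 2 ^ (j + 2) * Nat.card (zpowers b) := by
      rw [card_top, card_x hP (he b) b0, hE]; ring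
    have h4 : ∀ y ∈ zpowers b ⊔ zpowers c, (y ^ 2) ^ 2 = 1 → ∀ g ∈ (⊤ : Subgroup E), g * y = y * g :=
      fun y hy e g _ => cent_sup hc.comm (mem_center_iff.1 b2 g)
        (root_sup hP hc (d := 1) b0 hy (by rwa [← pow_mul] at e))
    obtain ⟨K, k1, k2⟩ := half_ker hz.pow (N := 2 ^ (j + 3)) (fun x y =>
      (pc hP (B := zpowers b) (fun a ha b hb => comm_sup' hc.comm a (mem_sup_left ha) b
        (mem_sup_left hb)) _ ⊤ le_top cb fun y hy => h4 y (mem_sup_left hy)).2 x trivial y trivial)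
      (fun a => b1 ▸ mem_of_cyc (npow_mem_zpowers b _) (pow_mem_idx hP le_top
        (cb.trans_le (Nat.mul_le_mul_right _ (Nat.pow_le_pow_right two_pos (j + 2).le_succ))) trivial) b0 ((pow_sq b _).trans (he b))
          ((pow_sq a _).trans (he a))) b0
    refine fin K c hc hcz k1 ((k2 c).2 (hc.pow2 _)) ((k2 z).2 (hz.pow2 _)) (fun x => (k2 x).1)
      (.inr ⟨b ^ 2, (k2 _).2 ((sq_pow b _).trans (he b)), .inl ((sq_pow b _).trans b1),
        fun g _ => sq_pow b (j + 1) ▸ mem_center_iff.1 b2 g, fun e g _ => ?_⟩)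
    subst e
    exact (pc hP (comm_sup' hc.comm) 1 ⊤ le_top (by
      rw [card_top, card_xc hP hc (he b) (b1 ▸ hc.swap hz hcz), hE]; rfl) h4).1 b trivial g trivial
  by_cases h1 : ∀ x : E, x ^ 2 ^ (j + 2) = 1
  · obtain ⟨K, k1, -, k2⟩ := exists_max hE (H := zpowers c ⊔ zpowers z) fun h => by
      have := plane_card hz hcz hc.pow
      rw [h, card_top, hE, Nat.pow_right_inj one_lt_two] at this
      omega
    simp only [sup_le_iff, zpowers_le] at k1
    exact fin K c hc hcz k2 k1.1 k1.2 (fun x _ => he x) (.inl fun x _ => h1 x)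
  have pair : ∀ x : E, x ^ 2 ^ (j + 2) ≠ 1 → ∃ d c, Cen 2 d ∧ x ^ 2 ^ (j + 2) ∉ zpowers d ∧ Cen 2 c ∧
      c ∉ zpowers z ∧ (x ^ 2 ^ (j + 2) = z ∨ x ^ 2 ^ (j + 2) = c) ∧
        ∀ K : Subgroup E, x ^ 2 ^ (j + 2) ∈ K → d ∈ K → c ∈ K ∧ z ∈ K := fun x hx => by
    by_cases e : x ^ 2 ^ (j + 2) ∈ zpowers z
    · have e' := (inv2 hz.pow e).resolve_left hx
      exact ⟨c, c, hc, e' ▸ hc.swap hz hcz, hc, hcz, .inl e', fun K a b => ⟨b, e' ▸ a⟩⟩
    exact ⟨z, _, hz, e, top_cen (m := j + 2) hE (he x) hx, e, .inr rfl, fun K a b => ⟨a, b⟩⟩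
  by_cases h2 : j = 0 → ∃ x : E, x ^ 2 ^ (j + 2) ≠ 1 ∧
      Nat.card E ≤ 2 * Nat.card (centralizer {x} : Subgroup E)
  swap
  · push Not at h1 h2
    obtain ⟨rfl, h2⟩ := h2
    obtain ⟨x, hx⟩ := h1
    obtain ⟨d, c, p1, p2, p3, p4, -, p6⟩ := pair x hx
    obtain ⟨L, l1, l2, l3, l4⟩ := order64 hE he p2 p1 h2
    exact fin L c p3 p4 l1 (p6 L l2 l3).1 (p6 L l2 l3).2 (fun x _ => he x) (.inl l4)
  obtain ⟨x, hx, h3⟩ : ∃ x : E, x ^ 2 ^ (j + 2) ≠ 1 ∧
      (j = 0 → Nat.card E ≤ 2 * Nat.card (centralizer {x} : Subgroup E)) := by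
    by_cases e : j = 0
    · exact (h2 e).imp fun x hx => ⟨hx.1, fun _ => hx.2⟩
    push Not at h1
    exact h1.imp fun x hx => ⟨hx, fun e' => absurd e' e⟩
  obtain ⟨d, c, p1, p2, p3, p4, p5, p6⟩ := pair x hx
  obtain ⟨K, k1, k2, k3, k4⟩ : ∃ K : Subgroup E, Nat.card E = 2 * Nat.card K ∧
      zpowers x ⊔ zpowers d ≤ K ∧ (∀ g ∈ K, g * x ^ 2 ^ (j + 1) = x ^ 2 ^ (j + 1) * g) ∧
        (j = 0 → ∀ g ∈ K, g * x = x * g) := by
    by_cases e : j = 0
    · obtain ⟨K, k1, k2, k3⟩ := half_cent hE (H := zpowers x ⊔ zpowers d) (sup_le (zpowers_le.2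
        (cent_iff.2 rfl)) (zpowers_le.2 (cent_iff.2 (p1.comm _).symm))) (fun h => by
          have := card_xc hP p1 (he x) p2
          rw [h, card_top, hE, Nat.pow_right_inj one_lt_two] at this
          omega) (h3 e)
      exact ⟨K, k1, k2, fun g hg => Commute.pow_right (cent_iff.1 (k3 hg)) _,
        fun _ g hg => cent_iff.1 (k3 hg)⟩
    obtain ⟨K, k1, k2, k3⟩ := top_half hE he p2 p1
    exact ⟨K, k1, k2, fun g hg => cent_iff.1 (k3 hg), fun e' => absurd e' e⟩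
  have xK := k2 (mem_sup_left (mem_zpowers x))
  obtain ⟨k5, k6⟩ := p6 K (K.pow_mem xK _) (k2 (mem_sup_right (mem_zpowers d)))
  exact fin K c p3 p4 k1 k5 k6 (fun x _ => he x) (.inr ⟨x, xK, p5, k3, k4⟩)

end Pool.Agent.Lib.MP_2d211a_co.H62
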