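import Mathlib

/-! Autocorrelation of integer functions on finite groups; merging of tiles. -/

namespace Pool.Agent.Lib.MP_2d211a_co.H51

open Finset

universe u

open Classical in
/-- Kronecker delta -/
noncomputable def dl {α : Type*} (a b : α) : ℤ := if a = b then 1 else 0

theorem dl_self {α : Type*} (a : α) : dl a a = 1 := if_pos rfl
theorem dl_ne {α : Type*} {a b : α} (h : a ≠ b) : dl a b = 0 := if_neg h

theorem dl_iff {α β : Type*} {a b : α} {c d : β} (h : a = b ↔ c = d) : dl a b = dl c d := by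
  by_cases e : a = b
  · rw [e, h.1 e, dl_self, dl_self]
  · rw [dl_ne e, dl_ne (mt h.2 e)]

theorem dl_prod {α β : Type*} (a b : α) (c d : β) : dl (a, c) (b, d) = dl a b * dl c d := by
  by_cases e : a = b <;> by_cases e' : c = d <;> simp [dl, e, e']

variable {K L P : Type*} [Group K] [Fintype K] [Group L] [Fintype L] [Group P] [Fintype P]

/-- correlation -/
def cor (f f' : K → ℤ) (g : K) : ℤ := ∑ x, f (g * x) * f' x

theorem cor_add (f f' : K → ℤ) (g : K) :
    cor (f + f') (f + f') g = cor f f g + cor f f' g + cor f' f g + cor f' f' g := by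
  simp only [cor, ← sum_add_distrib, Pi.add_apply]
  exact sum_congr rfl fun x _ => by ring

theorem cor_eq_zero {f f' : K → ℤ} {g : K} (z : K)
    (h : ∀ x, f (g * (z * x)) * f' (z * x) = -(f (g * x) * f' x)) : cor f f' g = 0 := by
  have h1 := Equiv.sum_comp (Equiv.mulLeft z) fun x => f (g * x) * f' x
  simp only [Equiv.coe_mulLeft, h, sum_neg_distrib] at h1
  unfold cor
  omega

theorem cor_comp (e : K ≃* L) (f f' : L → ℤ) (g : K) :
    cor (f ∘ e) (f' ∘ e) g = cor f f' (e g) := by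
  simpa [cor] using e.toEquiv.sum_comp fun x => f (e g * x) * f' x

/-- tensor product -/
def ten {K L : Type*} (a : K → ℤ) (h : L → ℤ) : K × L → ℤ := fun p => a p.1 * h p.2

theorem cor_ten (a a' : K → ℤ) (h h' : L → ℤ) (g : K) (e : L) :
    cor (ten a h) (ten a' h') (g, e) = cor a a' g * cor h h' e := by
  simp only [cor, Fintype.sum_prod_type, sum_mul_sum, ten, Prod.mk_mul_mk]
  exact sum_congr rfl fun x _ => sum_congr rfl fun y _ => by ring

/-- exchange of the last two factors -/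
def sw (K L P : Type*) [Group K] [Group L] [Group P] : (K × L) × P ≃* (K × P) × L where
  toFun p := ((p.1.1, p.2), p.1.2)
  invFun p := ((p.1.1, p.2), p.1.2)
  left_inv _ := rfl
  right_inv _ := rfl
  map_mul' _ _ := rfl

/-- a function with square `n` and vanishing autocorrelation -/
def Un (w : ℤ) (n : K → ℤ) : Prop :=
  ∃ a : K → ℤ, (∀ x, a x ^ 2 = n x) ∧ ∀ g, cor a a g = w * dl g 1

/-- the twisted form on `K × P` -/
def Tw (z : P) (c : ℤ) (n : K → ℤ) : Prop :=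
  ∃ k : K × P → ℤ, (∀ x y, k (x, y) ^ 2 = n x) ∧ (∀ x y, k (x, z * y) = -k (x, y)) ∧
    ∀ g e, cor k k (g, e) = c * dl g 1 * (dl e 1 - dl e z)

theorem Un.congr {w w' : ℤ} {n n' : K → ℤ} (h : Un w n) (e : w' = w) (e' : ∀ x, n' x = n x) :
    Un w' n' := by rwa [e, funext e']

theorem Tw.congr {z : P} {w w' : ℤ} {n n' : K → ℤ} (h : Tw z w n) (e : w' = w)
    (e' : ∀ x, n' x = n x) : Tw z w' n' := by rwa [e, funext e']

theorem Un.point (t : K) : Un 1 fun x => dl x t := by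
  refine ⟨fun x => dl x t, fun x => by by_cases e : x = t <;> simp [dl, e], fun g => ?_⟩
  rw [cor, sum_eq_single t (fun x _ e => by rw [dl_ne e, mul_zero]) (by simp), dl_self,
    dl_iff (mul_eq_right (a := g) (b := t)), mul_comm]

theorem Un.ten {w w' : ℤ} {n : K → ℤ} {n' : L → ℤ} : Un w n → Un w' n' → Un (w * w') (ten n n')
  | ⟨a, h1, h2⟩, ⟨b, h3, h4⟩ => ⟨H51.ten a b, fun x => by simp [H51.ten, mul_pow, h1, h3],
    fun ⟨g, e⟩ => by rw [cor_ten, h2, h4, ← Prod.mk_one_one, dl_prod]; ring⟩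

theorem Un.comp {w : ℤ} {n : L → ℤ} (e : K ≃* L) : Un w n → Un w (n ∘ e)
  | ⟨a, h1, h2⟩ => ⟨a ∘ e, fun _ => h1 _, fun g => by
    rw [cor_comp, h2, dl_iff (map_eq_one_iff e e.injective)]⟩

theorem Tw.ten {z : P} {c w : ℤ} {n : K → ℤ} {n' : L → ℤ} :
    Tw z c n → Un w n' → Tw z (c * w) (ten n n')
  | ⟨k, h1, h2, h3⟩, ⟨b, h4, h5⟩ => ⟨H51.ten k b ∘ sw K L P,
    fun x y => by simp [H51.ten, sw, mul_pow, h1, h4], fun x y => by simp [H51.ten, sw, h2],
    fun ⟨g, t⟩ e => by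
      rw [cor_comp]
      refine (cor_ten _ _ _ _ _ _).trans ?_
      rw [h3, h5, ← Prod.mk_one_one, dl_prod]; ring⟩

/-- an even and an odd perfect function on `P` -/
structure Dat (z : P) (N : ℤ) (hp hm : P → ℤ) : Prop where
  cen : ∀ y, y * z = z * y
  p1 : ∀ y, hp y ^ 2 = 1
  p2 : ∀ y, hp (z * y) = hp y
  p3 : ∀ e, cor hp hp e = N * (dl e 1 + dl e z)
  m1 : ∀ y, hm y ^ 2 = 1
  m2 : ∀ y, hm (z * y) = -hm y
  m3 : ∀ e, cor hm hm e = N * (dl e 1 - dl e z)

variable {z : P} {N : ℤ} {hp hm : P → ℤ}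

theorem Dat.mid (D : Dat z N hp hm) (e y : P) : e * (z * y) = z * (e * y) := by
  rw [← mul_assoc, D.cen, mul_assoc]

theorem Un.tw (D : Dat z N hp hm) {w : ℤ} {n : K → ℤ} : Un w n → Tw z (w * N) n
  | ⟨a, h1, h2⟩ => ⟨H51.ten a hm, fun x y => by simp [H51.ten, mul_pow, h1, D.m1],
    fun x y => by simp [H51.ten, D.m2], fun g e => by rw [cor_ten, h2, D.m3]; ring⟩

theorem sq_add_of {a b c d n n' : ℤ} (ha : a ^ 2 = n) (hb : b ^ 2 = n') (hc : c ^ 2 = 1)
    (hd : d ^ 2 = 1) (h : n * n' = 0) : (a * c + b * d) ^ 2 = n + n' := by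
  have : a * b = 0 := pow_eq_zero_iff two_ne_zero |>.1 (by rw [mul_pow, ha, hb, h])
  linear_combination c ^ 2 * ha + d ^ 2 * hb + n * hc + n' * hd + 2 * c * d * this

theorem Tw.merge (D : Dat z N hp hm) {c : ℤ} {n n' : K → ℤ} (h : ∀ x, n x * n' x = 0) :
    Tw z c n → Tw z c n' → Tw z (2 * N * c) fun p : K × P => n p.1 + n' p.1
  | ⟨k, h1, h2, h3⟩, ⟨k', h4, h5, h6⟩ => ⟨(H51.ten k hp + H51.ten k' hm) ∘ sw K P P,
    fun x y => sq_add_of (h1 _ _) (h4 _ _) (D.p1 _) (D.m1 _) (h _),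
    fun x y => by simp [H51.ten, sw, h2, h5]; ring,
    fun ⟨g, t⟩ e => by
      have e1 : cor hp hm t = 0 := cor_eq_zero z fun x => by rw [D.mid, D.p2, D.m2, mul_neg]
      have e2 : cor hm hp t = 0 := cor_eq_zero z fun x => by rw [D.mid, D.p2, D.m2, neg_mul]
      rw [cor_comp, cor_add]
      change cor _ _ ((g, e), t) + cor _ _ ((g, e), t) + cor _ _ ((g, e), t) +
        cor _ _ ((g, e), t) = _
      rw [cor_ten, cor_ten, cor_ten, cor_ten, e1, e2, h3, h6, D.p3, D.m3, ← Prod.mk_one_one,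
        dl_prod]
      ring⟩

theorem Un.merge (D : Dat z N hp hm) {w : ℤ} {n n' : K → ℤ} (h : ∀ x, n x * n' x = 0) :
    Un w n → Tw z (w * N) n' → Un (2 * N * w) fun p : K × P => n p.1 + n' p.1
  | ⟨a, h1, h2⟩, ⟨k, h4, h5, h6⟩ => ⟨H51.ten a hp + k,
    fun x => by
      simpa [H51.ten] using sq_add_of (h1 x.1) (h4 x.1 x.2) (D.p1 x.2) (one_pow 2) (h _),
    fun ⟨g, t⟩ => by
      have e1 : cor (H51.ten a hp) k (g, t) = 0 := cor_eq_zero (1, z) fun ⟨x, y⟩ => by
        simp [H51.ten, D.mid, D.p2, h5]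
      have e2 : cor k (H51.ten a hp) (g, t) = 0 := cor_eq_zero (1, z) fun ⟨x, y⟩ => by
        simp [H51.ten, D.mid, D.p2, h5]
      rw [cor_add, e1, e2, cor_ten, h2, h6, D.p3, ← Prod.mk_one_one, dl_prod]
      ring⟩

theorem tower {P : Type} [Group P] [Fintype P] {z : P} {N : ℤ} {hp hm : P → ℤ}
    (D : Dat z N hp hm) (j : ℕ) : ∃ (T : Type) (_ : Group T) (_ : Fintype T),
    Fintype.card T = Fintype.card P ^ j ∧
    ∀ (K : Type u) [Group K] [Fintype K] (τ : K → ℕ) (w : ℤ), (∀ x, τ x < 2 ^ j) →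
      (∀ i < 2 ^ j, Tw z (w * N) fun x => dl (τ x) i) → (Un w fun x => dl (τ x) 0) →
      ∃ c, Un c fun _ : K × T => 1 := by
  induction j with
  | zero =>
    refine ⟨PUnit, inferInstance, inferInstance, by simp, fun K _ _ τ w h1 _ h3 => ⟨w, ?_⟩⟩
    refine (h3.comp (MulEquiv.prodUnique (M := K) (N := PUnit))).congr rfl fun x => ?_
    simp [Nat.lt_one_iff.1 (h1 _), dl_self]
  | succ j ih =>
    obtain ⟨T, _, _, hT, ih⟩ := ih
    refine ⟨P × T, inferInstance, inferInstance, by rw [Fintype.card_prod, hT, pow_succ'],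
      fun K _ _ τ w h1 h2 h3 => ?_⟩
    have e1 : ∀ (x : K) i, dl (τ x) (2 * i) * dl (τ x) (2 * i + 1) = 0 := fun x i => by
      by_cases e : τ x = 2 * i
      · rw [dl_ne (show τ x ≠ 2 * i + 1 by omega), mul_zero]
      · rw [dl_ne e, zero_mul]
    have e2 : ∀ (x : K) i, dl (τ x / 2) i = dl (τ x) (2 * i) + dl (τ x) (2 * i + 1) := fun x i => by
      unfold dl
      split_ifs <;> omega
    obtain ⟨c, H⟩ := ih (K × P) (fun p => τ p.1 / 2) (2 * N * w)
      (fun p => by have := h1 p.1; omega)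
      (fun i hi => by
        simp only [e2, mul_assoc]
        simpa only [mul_assoc] using
          Tw.merge D (e1 · i) (h2 _ (by omega)) (h2 _ (by omega)))
      (by simpa only [e2] using
        Un.merge D (e1 · 0) h3 (h2 _ (Nat.one_lt_two_pow_iff.2 (by omega))))
    exact ⟨c, H.comp MulEquiv.prodAssoc.symm⟩

end Pool.Agent.Lib.MP_2d211a_co.H51
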