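import Pool.Agent.Lib.MP_2d211a_co.H51Cor
import Pool.Agent.Lib.MP_2d211a_co.H30Sym

/-! Groups defined by a bilinear map; the extraspecial group and its perfect functions. -/

namespace Pool.Agent.Lib.MP_2d211a_co.H51

open Finset MonoidAlgebra H62 H30 Subgroup

section good
variable {E : Type*} [Group E] [Fintype E]

theorem cor_coeff (X : MonoidAlgebra ℤ E) (g : E) :
    cor X.coeff X.coeff g = (X * star X).coeff g := by
  rw [coeff_mul_fin, ← Equiv.sum_comp (Equiv.mulLeft g)]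
  simp [star_eq, st_coeff, cor]

omit [Group E] [Fintype E] in
theorem s_coeff (a g : E) : (s a).coeff g = dl g a := by
  classical
  rw [s, coeff_single, Finsupp.single_apply]
  by_cases e : a = g
  · rw [if_pos e, e, dl_self]
  · rw [if_neg e, dl_ne (Ne.symm e)]

theorem good_flat {z : E} (hz : Cen 2 z) {m : ℤ} {X : MonoidAlgebra ℤ E} (h : Good z m X) :
    ∃ k : E → ℤ, (∀ y, k y ^ 2 = 1) ∧ (∀ y, k (z * y) = -k y) ∧
      ∀ g, cor k k g = Fintype.card E * (dl g 1 - dl g z) := by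
  have hzz : z * z = 1 := by rw [← sq, hz.pow]
  have hi : z⁻¹ = z := inv_eq_of_mul_eq_one_right hzz
  have h1 : ∀ y, ((1 - s z) * X).coeff y = X.coeff y - X.coeff (z * y) := fun y => by
    simp [sub_mul, s, hi]
  have h2 : ∀ y, ((1 - s z) * X).coeff y ^ 2 = 1 := fun y => by
    have e := congrArg (fun Y => Y.coeff y) h.tr
    have e1 := h.nn y
    have e2 := h.nn (z * y)
    simp only [hat_zpowers hz, hat_coeff, mem_top, if_true, mul_add, mul_one,
      (comm_s hz.comm X).eq] at e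
    simp [s, hi] at e
    rw [h1, sq_eq_one_iff]
    omega
  have h3 : ∀ g, cor ((1 - s z) * X).coeff ((1 - s z) * X).coeff g = 2 * m * (dl g 1 - dl g z) :=
    fun g => by
      have e : (1 - s z) * X * star ((1 - s z) * X) = (2 * m) • (s 1 - s z) := by
        have e1 : s z * s z = 1 := by rw [s_mul, hzz, s_one]
        rw [star_mul, star_sub, star_one, star_s, hi, ← mul_assoc, mul_assoc _ X, star_eq, h.un,
          s_one, mul_assoc, ← zsmul_eq_mul, mul_smul_comm, mul_comm 2 m, mul_smul]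
        congr 1
        rw [sub_mul, mul_sub, mul_sub, e1]
        simp only [two_smul, one_mul, mul_one]
        abel
      rw [cor_coeff, e, coeff_smul, coeff_sub]
      simp [s_coeff]
  refine ⟨_, h2, fun y => by rw [h1, h1, ← mul_assoc, hzz, one_mul, neg_sub], fun g => ?_⟩
  have h4 := h3 1
  simp only [cor, one_mul, ← sq, h2, dl_self, dl_ne hz.ne.symm, sum_const, card_univ] at h4
  rw [h3, ← show _ = 2 * m by simpa using h4]

end good

variable {V Z : Type} [AddCommGroup V] [AddCommGroup Z] [Module (ZMod 2) V] [Module (ZMod 2) Z]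

/-- the central extension of `V` by `Z` with cocycle `β` -/
@[ext] structure Ext (β : V →ₗ[ZMod 2] V →ₗ[ZMod 2] Z) where
  v : V
  c : Z

namespace Ext
variable {β : V →ₗ[ZMod 2] V →ₗ[ZMod 2] Z}

instance : Mul (Ext β) := ⟨fun a b => ⟨a.v + b.v, a.c + b.c + β a.v b.v⟩⟩
instance : One (Ext β) := ⟨⟨0, 0⟩⟩
instance : Inv (Ext β) := ⟨fun a => ⟨-a.v, -a.c + β a.v a.v⟩⟩

@[simp] theorem mul_v (a b : Ext β) : (a * b).v = a.v + b.v := rfl
@[simp] theorem mul_c (a b : Ext β) : (a * b).c = a.c + b.c + β a.v b.v := rfl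
@[simp] theorem one_v : (1 : Ext β).v = 0 := rfl
@[simp] theorem one_c : (1 : Ext β).c = 0 := rfl
@[simp] theorem inv_v (a : Ext β) : a⁻¹.v = -a.v := rfl
@[simp] theorem inv_c (a : Ext β) : a⁻¹.c = -a.c + β a.v a.v := rfl

instance : Group (Ext β) := Group.ofLeftAxioms
  (fun a b c => by ext <;> simp <;> abel) (fun a => by ext <;> simp) (fun a => by ext <;> simp)

/-- the underlying set -/
def eqv : V × Z ≃ Ext β := ⟨fun p => ⟨p.1, p.2⟩, fun a => (a.v, a.c), fun _ => rfl, fun _ => rfl⟩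

instance [Fintype V] [Fintype Z] : Fintype (Ext β) := Fintype.ofEquiv _ eqv

theorem card [Fintype V] [Fintype Z] :
    Fintype.card (Ext β) = Fintype.card V * Fintype.card Z := by
  rw [← Fintype.card_congr eqv, Fintype.card_prod]

end Ext

section heis
variable {β : V →ₗ[ZMod 2] V →ₗ[ZMod 2] ZMod 2}

theorem mem_z {e : Ext β} (h : e.v = 0) : e = 1 ∨ e = ⟨0, 1⟩ := by
  obtain ⟨v, c⟩ := e
  obtain rfl : v = 0 := h
  fin_cases c
  exacts [Or.inl rfl, Or.inr rfl]

theorem z_ne : (⟨0, 1⟩ : Ext β) ≠ 1 := fun h => one_ne_zero (congrArg Ext.c h)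

variable [Fintype V] (hβ : ∀ u ≠ 0, ∃ v, β u v + β v u = 1)
include hβ

theorem tw_all (G : Type*) [Group G] [Fintype G]
    (hG : (Fintype.card G * 2) ^ 32 ≤ Fintype.card V) :
    Tw (⟨0, 1⟩ : Ext β) (Fintype.card G * Fintype.card (Ext β)) fun _ : G => 1 := by
  have hz0 : Cen 2 (⟨0, 1⟩ : Ext β) := ⟨fun g => by ext <;> simp [add_comm], z_ne, by
    rw [sq]; ext <;> simp; rfl⟩
  have hz : Cen 2 ((1, ⟨0, 1⟩) : G × Ext β) := ⟨fun g => by simp [Prod.ext_iff, hz0.comm],
    fun h => z_ne (congrArg Prod.snd h), by simp [hz0.pow]⟩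
  have hm : ∀ e : Ext β, e.v = 0 → e ∈ zpowers (⟨0, 1⟩ : Ext β) := fun e h => by
    rcases mem_z h with rfl | rfl <;> simp
  have hm' : ∀ e : G × Ext β, e.1 = 1 → e.2 ∈ zpowers (⟨0, 1⟩ : Ext β) →
      e ∈ zpowers ((1, ⟨0, 1⟩) : G × Ext β) := by
    rintro ⟨a, b⟩ rfl ⟨k, rfl⟩
    exact ⟨k, by simp⟩
  obtain ⟨-, m, X, hX⟩ := exists_good (C := (⊤ : Subgroup G).prod (zpowers ⟨0, 1⟩))
    (P := (⊥ : Subgroup G).prod ⊤) hz
    (fun x hx => hm' _ (by simp [mem_bot.1 hx.1]) (hm _ (by simp [sq, ZModModule.add_self])))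
    (by
      rintro ⟨a, b⟩ ⟨-, k, rfl⟩ ⟨c, d⟩ ⟨h, -⟩
      obtain rfl := mem_bot.1 h
      simpa using (Commute.zpow_right (hz0.comm d) k).eq.symm)
    (fun g => ⟨(g.1, 1), ⟨trivial, one_mem _⟩, (1, g.2), ⟨rfl, trivial⟩, by simp⟩)
    (le_antisymm (fun e h => hm' e h.2.1 h.1.2)
      (zpowers_le.2 ⟨⟨trivial, mem_zpowers _⟩, rfl, trivial⟩))
    (by
      have h1 := card_le_of_le (show (⊥ : Subgroup G).prod (⊤ : Subgroup (Ext β)) ⊓
          centralizer ((⊥ : Subgroup G).prod (⊤ : Subgroup (Ext β)) : Set _) ≤ _ from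
        fun e h => hm' e h.1.1 (hm _ (by_contra fun c => by
          obtain ⟨v, hv⟩ := hβ _ c
          have := congrArg (fun x => x.2.c) (h.2 (1, ⟨v, 0⟩) ⟨rfl, trivial⟩)
          simp only [Prod.snd_mul, Ext.mul_c, zero_add, add_zero, add_right_inj] at this
          rw [this, ZModModule.add_self] at hv
          exact zero_ne_one hv)))
      rw [card_zp hz.ne hz.pow] at h1
      rw [Big, Nat.card_congr (prodEquiv _ _).toEquiv, Nat.card_congr (prodEquiv _ _).toEquiv,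
        Nat.card_prod, Nat.card_prod, card_zp hz0.ne hz0.pow, card_top, card_top, card_bot,
        Nat.card_eq_fintype_card (α := G), Nat.card_eq_fintype_card (α := Ext β), Ext.card, ZMod.card, one_mul,
        mul_comm (Fintype.card V)]
      exact Nat.mul_le_mul h1 hG)
  obtain ⟨k, h1, h2, h3⟩ := good_flat hz hX
  refine ⟨k, fun x y => h1 _, fun x y => by simpa using h2 (x, y), fun g e => ?_⟩
  rw [h3, ← Prod.mk_one_one, dl_prod, dl_prod, Fintype.card_prod]
  push_cast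
  ring

theorem exists_dat (hV : 2 ^ 32 ≤ Fintype.card V) :
    ∃ hp hm, Dat (⟨0, 1⟩ : Ext β) (Fintype.card (Ext β)) hp hm := by
  obtain ⟨k, h1, h2, h3⟩ := tw_all hβ Unit (by simpa using hV)
  let χ : ZMod 2 → ℤ := fun a => if a = 0 then 1 else -1
  have c1 : ∀ a, χ a * χ a = 1 := by decide
  have c2 : ∀ a b c d, a + b = c + d + 1 → χ a * χ b = -(χ c * χ d) := by decide
  refine ⟨fun y => χ (β y.v y.v), fun y => k (1, y), fun g => by ext <;> simp [add_comm],
    fun y => by rw [sq, c1], fun y => by simp, fun e => ?_, h1 _, h2 _, fun e => ?_⟩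
  · by_cases h : e.v = 0
    · rw [show dl e 1 + dl e ⟨0, 1⟩ = 1 by
        rcases mem_z h with rfl | rfl <;> simp [dl_self, dl_ne z_ne, dl_ne z_ne.symm]]
      simp [cor, h, c1]
    · obtain ⟨v, hv⟩ := hβ _ h
      rw [dl_ne fun c => h (congrArg Ext.v c), dl_ne fun c => h (congrArg Ext.v c), add_zero,
        mul_zero]
      refine cor_eq_zero ⟨v, 0⟩ fun x => c2 _ _ _ _ ?_
      simp only [Ext.mul_v, map_add, LinearMap.add_apply, ← hv]
      have := ZModModule.add_self (β v v + β v x.v + β x.v v)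
      linear_combination this
  · simpa [cor, Fintype.sum_prod_type, dl_self] using h3 1 e

end heis

theorem exists_heis (n : ℕ) : ∃ (P : Type) (_ : Group P) (_ : Fintype P) (z : P) (hp hm : P → ℤ)
    (k : ℕ), Fintype.card P = 2 ^ k ∧ Dat z (Fintype.card P) hp hm ∧
      ∀ (G : Type*) [Group G] [Fintype G], Fintype.card G = n →
        Tw z (n * Fintype.card P) fun _ : G => 1 := by
  obtain ⟨k, k1, k2⟩ : ∃ k, (n * 2) ^ 32 ≤ k ∧ 32 ≤ k := ⟨_, le_max_left _ _, le_max_right _ _⟩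
  let β : (Fin k → ZMod 2) × (Fin k → ZMod 2) →ₗ[ZMod 2]
      (Fin k → ZMod 2) × (Fin k → ZMod 2) →ₗ[ZMod 2] ZMod 2 :=
    LinearMap.mk₂ (ZMod 2) (fun u v => u.1 ⬝ᵥ v.2) (by simp [add_dotProduct]) (by simp)
      (by simp [dotProduct_add]) (by simp)
  have hβ : ∀ u ≠ 0, ∃ v, β u v + β v u = 1 := by
    rintro ⟨a, b⟩ h
    have h0 : ∀ x : ZMod 2, x ≠ 0 → x = 1 := by decide
    by_cases c : a = 0
    · obtain ⟨i, hi⟩ := Function.ne_iff.1 (show b ≠ 0 from fun c' => h (by rw [c, c']; rfl))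
      exact ⟨(Pi.single i 1, 0), by simpa [β] using h0 _ hi⟩
    · obtain ⟨i, hi⟩ := Function.ne_iff.1 c
      exact ⟨(0, Pi.single i 1), by simpa [β] using h0 _ hi⟩
  have hk : Fintype.card ((Fin k → ZMod 2) × (Fin k → ZMod 2)) = 2 ^ (k + k) := by simp [pow_add]
  obtain ⟨hp, hm, D⟩ := exists_dat hβ (by rw [hk]; exact Nat.pow_le_pow_right two_pos (by omega))
  refine ⟨Ext β, inferInstance, inferInstance, _, hp, hm, k + k + 1,
    by rw [Ext.card, hk, ZMod.card, pow_succ], D, fun G _ _ hG => ?_⟩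
  subst hG
  refine tw_all hβ G ?_
  rw [hk]
  exact (le_add_right k1).trans Nat.lt_two_pow_self.le

end Pool.Agent.Lib.MP_2d211a_co.H51
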