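import Pool.Agent.Lib.MP_2d211a_co.H51Wei

/-! Perfect sign functions on `G × T`, difference sets and relative difference sets. -/

namespace Pool.Agent.Lib.MP_2d211a_co.H51

open Finset Subgroup

theorem exists_sq (m : ℕ) : ∃ (T : Type) (_ : Group T) (_ : Fintype T) (k : ℕ),
    Fintype.card T = 2 ^ k ∧ ∀ (G : Type) [Group G] [Fintype G], Fintype.card G = m ^ 2 →
      ∃ c, Un c fun _ : G × T => 1 := by
  classical
  obtain ⟨S, _, _, k, γ, hS, hγ, hW⟩ := exists_weigh m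
  obtain ⟨P, _, _, z, hp, hm, l, hP, D, hT⟩ := exists_heis (m ^ 2)
  obtain ⟨T, _, _, h3, H⟩ := tower D k
  refine ⟨S × T, inferInstance, inferInstance, k + l * k,
    by rw [Fintype.card_prod, hS, h3, hP, pow_add, pow_mul], fun G _ _ hG => ?_⟩
  let ι : G ≃ Fin m × Fin m := Fintype.equivOfCardEq (by simp [hG, sq])
  let e : S ≃ Fin (2 ^ k) := Fintype.equivFinOfCardEq hS
  let ℓ := (Equiv.swap (γ (ι 1)) (e.symm 0)).trans e
  let σ : G × S → S := fun x => if ∃ p, x.2 = γ p then γ (ι x.1) else x.2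
  have h1 : ∀ g, Un ((m : ℤ) ^ 2) fun x => dl (σ x) (γ (ι g)) := fun g => by
    refine ((Un.point g).ten hW).congr (one_mul _).symm fun x => ?_
    simp only [σ, ten]
    split_ifs with c
    · obtain ⟨p, c⟩ := c
      rw [c, sum_eq_single p (fun q _ e => dl_ne (hγ.ne e.symm)) (by simp), dl_self, mul_one]
      exact dl_iff (hγ.comp ι.injective).eq_iff
    · simp [fun p => dl_ne (not_exists.1 c p)]
  have h2 : ∀ t, Tw z ((m : ℤ) ^ 2 * Fintype.card P) fun x => dl (σ x) t := fun t => by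
    by_cases c : ∃ p, t = γ p
    · obtain ⟨p, rfl⟩ := c
      simpa using (h1 (ι.symm p)).tw D
    · refine ((hT G hG).ten (Un.point t)).congr (by simp) fun x => ?_
      simp only [σ, ten, one_mul]
      split_ifs with c'
      · rw [dl_ne fun h => c ⟨_, h.symm⟩, dl_ne fun h : x.2 = t => c (h ▸ c')]
      · rfl
  obtain ⟨c, H⟩ := H (G × S) (fun x => ℓ (σ x)) _ (fun x => (ℓ _).2)
    (fun i hi => (h2 (ℓ.symm ⟨i, hi⟩)).congr rfl fun x =>
      dl_iff (by rw [ℓ.eq_symm_apply, Fin.ext_iff]))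
    ((h1 1).congr rfl fun x => dl_iff (by rw [← ℓ.apply_eq_iff_eq, Fin.ext_iff]; simp [ℓ]))
  exact ⟨c, H.comp MulEquiv.prodAssoc.symm⟩

theorem un_four : Un 4 fun _ : Multiplicative (ZMod 4) => 1 := by
  refine ⟨fun x => if x = 1 then -1 else 1, by decide, fun g => ?_⟩
  by_cases c : g = 1
  · rw [c, dl_self]; decide
  · rw [dl_ne c]; revert g; decide

theorem exists_un (a m : ℕ) : ∃ n, ∀ j, ∃ (T : Type) (_ : Group T) (_ : Fintype T),
    Fintype.card T = 2 ^ (n + 2 * j) ∧ ∀ (G : Type) [Group G] [Fintype G],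
      Fintype.card G = 2 ^ a * m ^ 2 → ∃ c, Un c fun _ : G × T => 1 := by
  obtain ⟨T, _, _, k, hT, H⟩ := exists_sq (2 ^ a * m)
  refine ⟨a + k, fun j => ?_⟩
  induction j with
  | zero =>
    refine ⟨Multiplicative (ZMod (2 ^ a)) × T, inferInstance, inferInstance,
      by simp [hT, pow_add], fun G _ _ hG => ?_⟩
    obtain ⟨c, H⟩ := H (G × Multiplicative (ZMod (2 ^ a))) (by simp [hG]; ring)
    exact ⟨c, H.comp MulEquiv.prodAssoc.symm⟩
  | succ j ih =>
    obtain ⟨T, _, _, hT, H⟩ := ih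
    refine ⟨T × Multiplicative (ZMod 4), inferInstance, inferInstance, by simp [hT]; ring,
      fun G _ _ hG => ?_⟩
    obtain ⟨c, H⟩ := H G hG
    exact ⟨_, (H.ten un_four).comp MulEquiv.prodAssoc.symm⟩

variable {K : Type*} [Group K] [Fintype K]

open Classical in
/-- indicator function -/
noncomputable def ind {K : Type*} (D : Set K) (x : K) : ℤ := if x ∈ D then 1 else 0

theorem sum_ind {K : Type*} [Fintype K] (D : Set K) : ∑ x, ind D x = D.ncard := by
  classical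
  simp [ind, Set.ncard_eq_toFinset_card']

theorem cor_ind (D : Set K) (g : K) : cor (ind D) (ind D) g =
    {q : K × K | q.1 ∈ D ∧ q.2 ∈ D ∧ q.1 * q.2⁻¹ = g}.ncard := by
  have : {q : K × K | q.1 ∈ D ∧ q.2 ∈ D ∧ q.1 * q.2⁻¹ = g} =
      (fun x => (g * x, x)) '' {x | g * x ∈ D ∧ x ∈ D} := by
    ext ⟨a, b⟩
    constructor
    · rintro ⟨ha, hb, rfl⟩
      exact ⟨b, ⟨by simpa using ha, hb⟩, by simp⟩
    · rintro ⟨c, ⟨hc, hc'⟩, e⟩
      obtain ⟨rfl, rfl⟩ := Prod.mk.inj e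
      exact ⟨hc, hc', by simp⟩
  rw [this, Set.ncard_image_of_injective _ fun a b h => (Prod.mk.inj h).2, ← sum_ind]
  exact sum_congr rfl fun x _ => by
    by_cases c : g * x ∈ D <;> by_cases c' : x ∈ D <;> simp [ind, c, c']

theorem sum_cor (f : K → ℤ) : ∑ g, cor f f g = (∑ x, f x) ^ 2 := by
  simp only [cor]
  rw [sum_comm, sq, mul_sum]
  exact sum_congr rfl fun x _ => by
    rw [← sum_mul, ← Equiv.sum_comp (Equiv.mulRight x) f]; rfl

theorem Un.hds {c : ℤ} (h : Un c fun _ : K => 1) (h2 : 2 ∣ Fintype.card K) :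
    ∃ (u : ℕ) (D : Set K), Nat.card K = 4 * u ^ 2 ∧ D.ncard = 2 * u ^ 2 - u ∧
      ∀ g ≠ 1, {q : K × K | q.1 ∈ D ∧ q.2 ∈ D ∧ q.1 * q.2⁻¹ = g}.ncard = u ^ 2 - u := by
  obtain ⟨F, h1, h3, h4⟩ : ∃ F : K → ℤ, (∀ x, F x ^ 2 = 1) ∧ (∀ g, cor F F g = c * dl g 1) ∧
      0 ≤ ∑ x, F x := by
    obtain ⟨F, h1, h3⟩ := h
    rcases le_total 0 (∑ x, F x) with e | e
    · exact ⟨F, h1, h3, e⟩
    · exact ⟨fun x => -F x, by simpa using h1, by simpa [cor] using h3, by simpa⟩
  have h5 : (∑ x, F x) ^ 2 = Fintype.card K := by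
    have := h3 1
    rw [← sum_cor, sum_eq_single 1 (fun g _ e => by rw [h3, dl_ne e, mul_zero]) (by simp)]
    simp [cor, ← sq, h1]
  obtain ⟨v, hv⟩ : 2 ∣ ∑ x, F x :=
    Int.prime_two.dvd_of_dvd_pow (h5 ▸ Int.natCast_dvd_natCast.2 h2)
  lift v to ℕ using by omega with u
  have h6 : ∀ x, F x = 1 - 2 * ind {x | F x = -1} x := fun x => by
    rcases sq_eq_one_iff.1 (h1 x) with e | e <;> simp [ind, e]
  generalize {x | F x = -1} = D at h6
  have h7 : (Fintype.card K : ℤ) = 4 * u ^ 2 := by rw [← h5, hv]; ring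
  have h8 : (D.ncard : ℤ) = 2 * u ^ 2 - u := by
    simp only [h6, sum_sub_distrib, ← mul_sum, sum_ind, sum_const, card_univ, nsmul_one, h7] at hv
    omega
  refine ⟨u, D, by rw [Nat.card_eq_fintype_card]; exact_mod_cast h7,
    Nat.eq_sub_of_add_eq (by zify; omega), fun g hg => Nat.eq_sub_of_add_eq ?_⟩
  have h9 := h3 g
  have h10 : ∑ x, ind D (g * x) = D.ncard :=
    (Equiv.sum_comp (Equiv.mulLeft g) (ind D)).trans (sum_ind D)
  rw [dl_ne hg, mul_zero, cor, sum_congr rfl (g := fun x => 1 - 2 * ind D (g * x) - 2 * ind D x +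
    4 * (ind D (g * x) * ind D x)) fun x _ => by rw [h6, h6 x]; ring] at h9
  simp only [sum_add_distrib, sum_sub_distrib, ← mul_sum, h10, sum_ind, sum_const, card_univ,
    nsmul_one, h7, h8] at h9
  have h11 := cor_ind D g
  rw [cor] at h11
  zify
  omega

/-- the sign character -/
def sg (e : Multiplicative (ZMod 2)) : ℤ := if e = 1 then 1 else -1

theorem sum_two (f : Multiplicative (ZMod 2) → ℤ) :
    ∑ e, f e = f 1 + f (Multiplicative.ofAdd 1) := Fin.sum_univ_two (M := ℤ) f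

omit [Fintype K] in
theorem card_N : Nat.card ((⊥ : Subgroup K).prod (⊤ : Subgroup (Multiplicative (ZMod 2)))) = 2 := by
  rw [Nat.card_congr (prodEquiv _ _).toEquiv, Nat.card_prod, card_bot, card_top]
  simp

theorem Un.rds {c : ℤ} (h : Un c fun _ : K => 1) (hK : 1 < Fintype.card K) :
    ∃ R : Set (K × Multiplicative (ZMod 2)), IsSemiregularRDS ((⊥ : Subgroup K).prod ⊤) R := by
  obtain ⟨F, h1, h3⟩ := h
  have s1 : ∀ e, sg e = 1 ∨ sg e = -1 := by decide
  have s2 : ∀ e, sg (e * 1) = sg e ∧ sg (e * Multiplicative.ofAdd 1) = -sg e := by decide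
  have s3 : ∀ e e', sg e = sg e' → e * e'⁻¹ = 1 := by decide
  have s4 : sg 1 = 1 ∧ sg (Multiplicative.ofAdd 1) = -1 := by decide
  have h4 : ∀ x e, 2 * ind {q : K × Multiplicative (ZMod 2) | F q.1 = sg q.2} (x, e) =
      1 + F x * sg e := fun x e => by
    rcases sq_eq_one_iff.1 (h1 x) with c | c <;> rcases s1 e with c' | c' <;>
      simp [ind, c, c']
  refine ⟨{q | F q.1 = sg q.2}, inferInstance, ?_⟩
  have h5 : ∀ a ∈ {q : K × Multiplicative (ZMod 2) | F q.1 = sg q.2},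
      ∀ b ∈ {q : K × Multiplicative (ZMod 2) | F q.1 = sg q.2}, a.1 = b.1 → a * b⁻¹ = 1 :=
    fun a ha b hb c => Prod.ext (by simp [c]) (s3 _ _ (by rw [← ha, ← hb, c]))
  generalize {q : K × Multiplicative (ZMod 2) | F q.1 = sg q.2} = R at h4 h5
  have h6 : R.ncard = Fintype.card K := by
    have : 2 * (R.ncard : ℤ) = 2 * Fintype.card K := by
      simp only [← sum_ind, mul_sum, Fintype.sum_prod_type, sum_two, mul_add, h4, s4]
      simp only [sum_add_distrib, mul_one, mul_neg, sum_neg_distrib, sum_const, card_univ, nsmul_one]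
      ring
    omega
  rw [card_N, h6, Nat.card_prod, Nat.card_eq_fintype_card]
  refine ⟨one_lt_two, by simp; omega, by simp, fun ⟨g, e⟩ hg => ?_, fun g hg hg' a ha b hb c =>
    hg' (c ▸ h5 a ha b hb (mul_inv_eq_one.1 (by simpa [← c] using hg.1)))⟩
  have h7 := h3 g
  rw [dl_ne (by simpa [mem_prod] using hg), mul_zero, cor] at h7
  have : 4 * cor (ind R) (ind R) (g, e) = 2 * Fintype.card K := by
    rw [cor, mul_sum, Fintype.sum_prod_type, sum_congr rfl (g := fun x => 2 + 2 * sg e *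
      (F (g * x) * F x)) fun x _ => ?_]
    · rw [sum_add_distrib, ← mul_sum, h7]; simp [mul_comm]
    · have e1 : ∀ a b : ℤ, 4 * (a * b) = 2 * a * (2 * b) := fun a b => by ring
      simp only [e1, Prod.mk_mul_mk, h4, sum_two, s2, s4]
      ring
  rw [cor_ind] at this
  omega

theorem sq_of_rds {R : Set (K × Multiplicative (ZMod 2))}
    (h : IsSemiregularRDS ((⊥ : Subgroup K).prod ⊤) R) : ∃ y, Fintype.card K = y ^ 2 := by
  obtain ⟨-, -, -, h1, h2, h3⟩ := h
  have s1 : ∀ e e', sg (e * e') * sg e' = sg e := by decide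
  have s4 : sg 1 = 1 ∧ sg (Multiplicative.ofAdd 1) = -1 := by decide
  rw [card_N] at h1 h2
  have h4 := sum_cor fun q => ind R q * sg q.2
  have h5 : ∀ g, cor (fun q => ind R q * sg q.2) (fun q => ind R q * sg q.2) g =
      cor (ind R) (ind R) g * sg g.2 := fun g => by
    rw [cor, cor, sum_mul]
    exact sum_congr rfl fun x _ => by rw [← s1 g.2 x.2, Prod.snd_mul]; ring
  simp only [h5, Fintype.sum_prod_type (f := fun g => cor _ _ g * _), sum_two, s4] at h4
  rw [sum_eq_single 1 (fun g _ c => by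
    have e1 := h2 (g, 1) (by simpa [mem_prod])
    have e2 := h2 (g, Multiplicative.ofAdd 1) (by simpa [mem_prod])
    rw [cor_ind, cor_ind]
    omega) (by simp), cor_ind R (1, Multiplicative.ofAdd 1), (Set.eq_empty_iff_forall_notMem.2
      fun q hq => h3 _ (by simp [mem_prod]) (by simp) _ hq.1 _ hq.2.1 hq.2.2 :
        {q : _ × _ | q.1 ∈ R ∧ q.2 ∈ R ∧ q.1 * q.2⁻¹ = (1, Multiplicative.ofAdd 1)} = ∅)] at h4
  have h6 : cor (ind R) (ind R) (1, 1) = R.ncard := by
    rw [← sum_ind, Prod.mk_one_one]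
    exact sum_congr rfl fun x _ => by by_cases c : x ∈ R <;> simp [ind, c]
  rw [Nat.card_prod, Nat.card_eq_fintype_card] at h1
  refine ⟨(∑ q, ind R q * sg q.2).natAbs, ?_⟩
  zify
  simp at h1
  rw [sq_abs, ← h4, h6, h1]
  simp

theorem odd_part (x : ℕ) (n : ℕ) : ∀ b y : ℕ, x * 2 ^ n = 2 ^ b * y ^ 2 →
    ∃ a m, x = 2 ^ a * m ^ 2 := by
  induction n with
  | zero => exact fun b y h => ⟨b, y, by simpa using h⟩
  | succ n ih =>
    rintro (_ | b) y h
    · obtain ⟨y, rfl⟩ : 2 ∣ y := Nat.prime_two.dvd_of_dvd_pow (n := 2)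
        ⟨x * 2 ^ n, by rw [← one_mul (y ^ 2), ← pow_zero 2, ← h]; ring⟩
      exact ih 1 y (by rw [pow_succ] at h; linarith)
    · exact ih b y (by rw [pow_succ, pow_succ 2 b] at h; linarith)

end Pool.Agent.Lib.MP_2d211a_co.H51
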