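import Pool.Agent.Lib.MP_2d211a_co.H51Ext

/-! A weighing element of weight `m ^ 2` in a 2-group. -/

namespace Pool.Agent.Lib.MP_2d211a_co.H51

open Finset MonoidAlgebra H62 H30

/-- ordered pairs -/
abbrev Pr (m : ℕ) := {p : Fin m × Fin m // p.1 < p.2}

theorem sum_pairs {M : Type*} [AddCommMonoid M] {m : ℕ} (f : Fin m × Fin m → M) :
    ∑ p, f p = ∑ a, f (a, a) + ∑ i : Pr m, (f i.1 + f i.1.swap) := by
  let e : Fin m ⊕ Pr m ⊕ Pr m → Fin m × Fin m :=
    Sum.elim (fun a => (a, a)) (Sum.elim (fun i => i.1) fun i => i.1.swap)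
  have he : Function.Bijective e := by
    constructor
    · rintro (a | ⟨⟨a, b⟩, h : a < b⟩ | ⟨⟨a, b⟩, h : a < b⟩)
        (c | ⟨⟨c, d⟩, h' : c < d⟩ | ⟨⟨c, d⟩, h' : c < d⟩) <;>
        simp only [e, Sum.elim_inl, Sum.elim_inr, Prod.swap_prod_mk, Prod.mk.injEq] <;>
        rintro ⟨rfl, h1⟩ <;> first | (subst h1; rfl) | rfl | omega
    · rintro ⟨a, b⟩
      rcases lt_trichotomy a b with h | rfl | h
      exacts [⟨.inr (.inl ⟨_, h⟩), rfl⟩, ⟨.inl a, rfl⟩, ⟨.inr (.inr ⟨(b, a), h⟩), rfl⟩]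
  rw [← he.sum_comp f]
  simp [e, sum_add_distrib]

theorem weigh {R : Type*} [Ring R] [StarRing R] {m : ℕ} (α : Fin m → R) (t ω : Pr m → R)
    (hc : ∀ a x, Commute (α a) x) (h2 : ∀ a, α a * α a = 1) (hs : ∀ a, star (α a) = α a)
    (hω : ∀ i, ω i = α i.1.1 * α i.1.2) (ht : ∀ i, t i * t i = ω i)
    (hst : ∀ i, star (t i) = ω i * t i)
    (hij : ∀ i j, i ≠ j → t i * t j = ω j * (t j * t i) ∨ t j * t i = ω i * (t i * t j)) :
    (∑ a, α a + ∑ i, (1 - ω i) * t i) * star (∑ a, α a + ∑ i, (1 - ω i) * t i) = (m : R) ^ 2 := by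
  have c1 : ∀ i x, Commute (ω i) x := fun i x => hω i ▸ (hc _ _).mul_left (hc _ _)
  have c2 : ∀ i, ω i * ω i = 1 := fun i => by
    rw [hω, (hc _ _).mul_mul_mul_comm, h2, h2, one_mul]
  have c3 : ∀ i x, Commute (1 - ω i) x := fun i x => (Commute.one_left x).sub_left (c1 i x)
  have c4 : ∀ i, (1 - ω i) * ω i = -(1 - ω i) := fun i => by rw [sub_mul, c2, one_mul, neg_sub]
  have c5 : ∀ i, star ((1 - ω i) * t i) = -((1 - ω i) * t i) := fun i => by
    rw [star_mul, star_sub, star_one, hst, show star (ω i) = ω i by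
      rw [hω, star_mul, hs, hs, (hc _ _).eq], ← (c3 i _).eq, ← mul_assoc, c4, neg_mul]
  have c6 : ∀ i j, (1 - ω i) * t i * ((1 - ω j) * t j) = (1 - ω i) * ((1 - ω j) * (t i * t j)) :=
    fun i j => by rw [mul_assoc, ← mul_assoc (t i), ← (c3 j _).eq, mul_assoc]
  have c7 : ∀ i j, t i * t j = ω j * (t j * t i) →
      (1 - ω i) * t i * ((1 - ω j) * t j) + (1 - ω j) * t j * ((1 - ω i) * t i) = 0 := by
    intro i j h
    rw [c6, c6, h, ← mul_assoc _ (ω j), c4, (c3 j _).left_comm, neg_mul, mul_neg,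
      neg_add_cancel]
  have c8 : (∑ i, (1 - ω i) * t i) * (∑ i, (1 - ω i) * t i) = -∑ i, (1 - ω i + (1 - ω i)) := by
    rw [sum_mul_sum, ← sum_product', ← diag_union_offDiag, sum_union (disjoint_diag_offDiag _),
      sum_diag, sum_involution (fun (p : Pr m × Pr m) _ => p.swap) (fun p hp => ?_) (fun p hp _ c => ?_)
        (fun p hp => ?_) (fun _ _ => rfl), add_zero, ← sum_neg_distrib]
    · refine sum_congr rfl fun i _ => ?_
      rw [c6, ht, c4, mul_neg, mul_sub, c4, mul_one, sub_neg_eq_add]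
    · rcases hij _ _ (mem_offDiag.1 hp).2.2 with h | h
      exacts [c7 _ _ h, (add_comm _ _).trans (c7 _ _ h)]
    · exact (mem_offDiag.1 hp).2.2 (congrArg Prod.snd c)
    · simpa [eq_comm] using hp
  have c9 : Commute (∑ a, α a) (∑ i, (1 - ω i) * t i) := Commute.sum_left _ _ _ fun a _ => hc a _
  have c10 := sum_pairs fun _ : Fin m × Fin m => (1 : R)
  rw [star_add, star_sum, star_sum]
  simp only [hs, c5, sum_neg_distrib]
  rw [← sub_eq_add_neg, ← c9.mul_self_sub_mul_self_eq, c8, sum_mul_sum, ← Fintype.sum_prod_type',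
    sum_pairs, sub_neg_eq_add, add_assoc, ← sum_add_distrib]
  simp only [h2]
  rw [sum_congr (s₁ := (univ : Finset (Pr m))) rfl (g := fun _ => (1 : R) + 1) fun i _ => by
    rw [Prod.fst_swap, Prod.snd_swap, (hc i.1.2 _).eq, ← hω]; abel, ← c10]
  simp [sq]

theorem exists_bil (R : Type*) {I Z : Type*} [CommRing R] [Fintype I] [DecidableEq I]
    [AddCommGroup Z] [Module R Z] (M : I → I → Z) :
    ∃ β : (I → R) →ₗ[R] (I → R) →ₗ[R] Z, ∀ i j, β (Pi.single i 1) (Pi.single j 1) = M i j :=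
  ⟨(Pi.basisFun R I).constr R fun i => (Pi.basisFun R I).constr R (M i), fun i j => by
    rw [← Pi.basisFun_apply, ← Pi.basisFun_apply, Module.Basis.constr_basis,
      Module.Basis.constr_basis]⟩

theorem exists_weigh (m : ℕ) : ∃ (T : Type) (_ : Group T) (_ : Fintype T) (k : ℕ)
    (γ : Fin m × Fin m → T), Fintype.card T = 2 ^ k ∧ Function.Injective γ ∧
      Un ((m : ℤ) ^ 2) fun x => ∑ p, dl x (γ p) := by
  obtain ⟨r, hr⟩ : ∃ r : Pr m → ℕ, Function.Injective r :=
    ⟨_, Fin.val_injective.comp (Fintype.equivFin _).injective⟩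
  let w : Pr m → Fin m → ZMod 2 := fun i => Pi.single i.1.1 1 + Pi.single i.1.2 1
  obtain ⟨β, hβ⟩ := exists_bil (ZMod 2) fun i j => if r i ≤ r j then w j else 0
  let α : Fin m → Ext β := fun a => ⟨0, Pi.single a 1⟩
  let t : Pr m → Ext β := fun i => ⟨Pi.single i 1, 0⟩
  let ω : Pr m → Ext β := fun i => ⟨0, w i⟩
  let γ : Fin m × Fin m → Ext β := fun p =>
    if h : p.1 < p.2 then t ⟨p, h⟩ else if h : p.2 < p.1 then ω ⟨p.swap, h⟩ * t ⟨p.swap, h⟩
    else α p.1
  let ε : Fin m × Fin m → ℤ := fun p => if p.2 < p.1 then -1 else 1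
  have h0 : ∀ i, w i ≠ 0 := fun i h => by simpa [w, i.2.ne] using congrFun h i.1.1
  have h1 : Function.Injective γ := by
    have e1 : ∀ i j : Pr m, (Pi.single i 1 : Pr m → ZMod 2) = Pi.single j 1 → i = j :=
      fun i j h => by_contra fun c => by simpa [c] using congrFun h i
    have e2 : ∀ i : Pr m, (Pi.single i 1 : Pr m → ZMod 2) ≠ 0 := fun i h => by
      simpa using congrFun h i
    rintro ⟨a, b⟩ ⟨c, d⟩ h
    simp only [γ] at h
    split_ifs at h <;> simp only [Ext.ext_iff, t, ω, α, Ext.mul_v, Ext.mul_c, zero_add, add_zero,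
      map_zero, LinearMap.zero_apply] at h
    · simpa using e1 _ _ h.1
    · exact absurd h.2.symm (h0 _)
    · exact absurd h.1 (e2 _)
    · exact absurd h.2 (h0 _)
    · simpa [and_comm] using e1 _ _ h.1
    · exact absurd h.1 (e2 _)
    · exact absurd h.1.symm (e2 _)
    · exact absurd h.1.symm (e2 _)
    · obtain rfl : a = c := by_contra fun c => by simpa [c] using congrFun h.2 a
      congr 1
      omega
  have hW := weigh (fun a => s (α a)) (fun i => s (t i)) (fun i => s (ω i))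
    (fun a x => (comm_s (fun g => by ext <;> simp [α, add_comm]) x).symm)
    (fun a => by rw [s_mul, ← s_one]; congr 1; ext1 <;> simp [α, ZModModule.add_self])
    (fun a => by rw [star_s]; congr 1; ext1 <;> simp [α, ZModModule.neg_eq_self])
    (fun i => by rw [s_mul]; congr 1; ext1 <;> simp [α, ω, w])
    (fun i => by rw [s_mul]; congr 1; ext1 <;> simp [t, ω, hβ, ZModModule.add_self])
    (fun i => by rw [star_s, s_mul]; congr 1; ext1 <;> simp [t, ω, hβ, ZModModule.neg_eq_self])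
    (fun i j h => by
      have key : ∀ i j, r i < r j → s (t i) * s (t j) = s (ω j) * (s (t j) * s (t i)) :=
        fun i j c => by
          rw [s_mul, s_mul, s_mul]; congr 1
          ext1 <;> simp [t, ω, hβ, c.le, c.not_ge, add_comm]
      exact (lt_or_gt_of_ne (hr.ne h)).imp (key _ _) (key _ _))
  have hX : ∑ a, s (α a) + ∑ i, (1 - s (ω i)) * s (t i) = ∑ p, ε p • s (γ p) := by
    rw [sum_pairs]
    congr 1
    · simp [ε, γ]
    · exact sum_congr rfl fun i _ => by
        simp [ε, γ, i.2, i.2.not_gt, add_mul, s_mul, sub_eq_add_neg]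
  rw [hX] at hW
  refine ⟨Ext β, inferInstance, inferInstance, Fintype.card (Pr m) + m, γ,
    by rw [Ext.card]; simp [pow_add], h1, (∑ p, ε p • s (γ p)).coeff, fun x => ?_, fun g => ?_⟩
  · simp only [coeff_sum, Finsupp.finsetSum_apply, coeff_smul, Finsupp.smul_apply, s_coeff,
      smul_eq_mul]
    by_cases c : ∃ p, x = γ p
    · obtain ⟨p, rfl⟩ := c
      rw [sum_eq_single p (fun q _ e => by rw [dl_ne (h1.ne e.symm), mul_zero]) (by simp),
        sum_eq_single p (fun q _ e => dl_ne (h1.ne e.symm)) (by simp), dl_self]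
      simp only [ε]
      split_ifs <;> rfl
    · simp [fun p => dl_ne (not_exists.1 c p)]
  · rw [cor_coeff, hW, ← s_coeff, s_one, ← Nat.cast_pow, ← nsmul_one, coeff_smul]
    simp

end Pool.Agent.Lib.MP_2d211a_co.H51
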