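import Pool.Agent.Lib.MP_2d211a_co.Defs

/-!
A prime that divides the size of a semiregular relative difference set exactly once.
-/

namespace Pool.Agent.Lib.MP_2d211a_co

open Finset

section Sum

variable {E : Type*} [Group E] [Fintype E] [DecidableEq E] {N : Subgroup E} {R : Finset E}

lemma rds_sum (h : IsSemiregularRDS N (R : Set E)) {A : Type*} [CommRing A] (ψ : E →* A) {n : E}
    (hn : n ∈ N) (hreg : ∀ z : A, ψ n * z = z → z = 0) :
    (∑ r ∈ R, ψ r) * (∑ r ∈ R, ψ r⁻¹) = R.card := by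
  classical
  obtain ⟨-, h1, -, -, h4, h5⟩ := h
  let c : E → ℕ := fun g => ((R ×ˢ R).filter fun q => q.1 * q.2⁻¹ = g).card
  have hc : ∀ g, g ∉ N → c g = R.card / Nat.card N := by
    intro g hg
    have e : {q : E × E | q.1 ∈ (R : Set E) ∧ q.2 ∈ (R : Set E) ∧ q.1 * q.2⁻¹ = g} =
        (((R ×ˢ R).filter fun q => q.1 * q.2⁻¹ = g : Finset (E × E)) : Set (E × E)) := by
      ext q
      simp [and_assoc]
    have := h4 g hg
    rw [e, Set.ncard_coe_finset, Set.ncard_coe_finset] at this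
    rw [← this, Nat.mul_div_cancel _ (by omega)]
  have hc1 : c 1 = R.card := by
    symm
    refine Finset.card_bij (fun a _ => (a, a)) (fun a ha => by simp [ha])
      (fun a _ b _ e => (Prod.mk.inj e).1) ?_
    rintro ⟨a, b⟩ hq
    simp only [mem_filter, mem_product, mul_inv_eq_one] at hq
    obtain ⟨⟨ha, -⟩, rfl⟩ := hq
    exact ⟨a, ha, rfl⟩
  have hc0 : ∀ g, g ∈ N → g ≠ 1 → c g = 0 := by
    intro g hg hg1
    refine Finset.card_eq_zero.2 (Finset.filter_eq_empty_iff.2 fun q hq => ?_)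
    exact h5 g hg hg1 q.1 (mem_product.1 hq).1 q.2 (mem_product.1 hq).2
  have e1 : (∑ r ∈ R, ψ r) * (∑ r ∈ R, ψ r⁻¹) = ∑ g : E, (c g : A) * ψ g := by
    rw [Finset.sum_mul_sum, ← Finset.sum_product',
      ← Finset.sum_fiberwise (R ×ˢ R) (fun q => q.1 * q.2⁻¹)]
    refine Finset.sum_congr rfl fun g _ => ?_
    rw [Finset.sum_congr rfl (g := fun _ => ψ g) fun q hq => by
      rw [← map_mul, (mem_filter.1 hq).2], Finset.sum_const, nsmul_eq_mul]
  have e2 : ∑ g ∈ univ.filter (fun g => g ∉ N), ψ g = 0 := by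
    apply hreg
    rw [Finset.mul_sum]
    refine Finset.sum_bij (fun g _ => n * g) (fun g hg => ?_) (fun a _ b _ e => mul_left_cancel e)
      (fun g hg => ⟨n⁻¹ * g, ?_, by simp⟩) (fun g _ => (map_mul _ _ _).symm)
    · simp only [mem_filter, mem_univ, true_and] at hg ⊢
      exact fun h => hg ((N.mul_mem_cancel_left hn).1 h)
    · simp only [mem_filter, mem_univ, true_and] at hg ⊢
      exact fun h => hg ((N.mul_mem_cancel_left (N.inv_mem hn)).1 h)
  rw [e1, ← Finset.sum_filter_add_sum_filter_not univ (fun g => g ∈ N),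
    Finset.sum_eq_single_of_mem 1 (by simp) (fun g hg hg1 => by
      rw [hc0 g (mem_filter.1 hg).2 hg1]; simp),
    Finset.sum_congr rfl (g := fun g => ((R.card / Nat.card N : ℕ) : A) * ψ g) fun g hg => by
      rw [hc g (mem_filter.1 hg).2], ← Finset.mul_sum, e2, hc1]
  simp

variable {q : ℕ} [hq : Fact q.Prime] {F : Type*} [Field F] [CharP F q]

lemma not_both_zero [PerfectRing F q] (h : IsSemiregularRDS N (R : Set E)) {m : ℕ}
    (hv : R.card = q * m) (hm : ¬ q ∣ m) (χ : E →* F) {n : E} (hn : n ∈ N) (hχ : χ n ≠ 1) :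
    ∑ r ∈ R, χ r ≠ 0 ∨ ∑ r ∈ R, χ r⁻¹ ≠ 0 := by
  by_contra hcon
  push Not at hcon
  have key := rds_sum h ((WittVector.teichmuller q).comp χ) hn fun z hz => by
    have : (WittVector.teichmuller q (χ n) - 1) * z = 0 := by
      rw [sub_mul, one_mul]; exact sub_eq_zero.2 hz
    refine (mul_eq_zero.1 this).resolve_left fun h0 => hχ ?_
    have := congrArg (fun x : WittVector q F => x.coeff 0) (sub_eq_zero.1 h0)
    simpa using this
  have dv : ∀ f : E → F, ∑ r ∈ R, f r = 0 →
      (q : WittVector q F) ∣ ∑ r ∈ R, WittVector.teichmuller q (f r) := by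
    intro f hf
    rw [← Ideal.mem_span_singleton, ← WittVector.ker_constantCoeff, RingHom.mem_ker, map_sum]
    simpa using hf
  obtain ⟨a, ha⟩ := dv _ hcon.1
  obtain ⟨b, hb⟩ := dv (fun r => χ r⁻¹) hcon.2
  simp only [MonoidHom.comp_apply] at key
  rw [ha, hb, hv] at key
  have h0 : ((m : WittVector q F) - q * (a * b)) * q = 0 := by
    push_cast at key
    linear_combination -key
  have h1 := congrArg (WittVector.constantCoeff (p := q) (R := F))
    (sub_eq_zero.1 (WittVector.eq_zero_of_p_mul_eq_zero _ h0))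
  simp only [map_natCast, map_mul, CharP.cast_eq_zero, zero_mul] at h1
  exact hm ((CharP.cast_eq_zero_iff F q m).1 h1)

lemma slice_zero {B : Type*} [CommGroup B] [DecidableEq B] (h : IsSemiregularRDS N (R : Set E))
    (hv : q ∣ R.card) (π : E →* B) (hπ : ∀ g, π g ^ q = 1) (hN : ∀ n ∈ N, π n = 1) (χ : E →* F)
    {n : E} (hn : n ∈ N) (hχ : χ n ≠ 1) (h0 : ∑ r ∈ R, χ r ≠ 0) :
    ∑ r ∈ R.filter (fun r => π r = 1), χ r⁻¹ = 0 := by
  classical
  let ψ : E →* MonoidAlgebra F B :=
    { toFun := fun g => MonoidAlgebra.single (π g) (χ g)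
      map_one' := by simp [MonoidAlgebra.one_def]
      map_mul' := fun a b => by simp [MonoidAlgebra.single_mul_single] }
  have hψ : ∀ g, ψ g = MonoidAlgebra.single (π g) (χ g) := fun _ => rfl
  have alg : ∀ x : F, algebraMap F (MonoidAlgebra F B) x = MonoidAlgebra.single 1 x := fun x => by
    simp [MonoidAlgebra.coe_algebraMap]
  have cancel : ∀ (x : F) (z : MonoidAlgebra F B), x ≠ 0 →
      algebraMap F (MonoidAlgebra F B) x * z = 0 → z = 0 := fun x z hx hz =>
    (((IsUnit.mk0 x hx).map (algebraMap F (MonoidAlgebra F B))).mul_right_eq_zero).1 hz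
  have : CharP (MonoidAlgebra F B) q :=
    charP_of_injective_algebraMap (algebraMap F (MonoidAlgebra F B)).injective q
  have key := rds_sum h ψ hn fun z hz => by
    refine cancel (χ n - 1) z (sub_ne_zero.2 hχ) ?_
    rw [map_sub, map_one, sub_mul, one_mul, alg, ← hN n hn, ← hψ, hz, sub_self]
  rw [(CharP.cast_eq_zero_iff _ q _).2 hv] at key
  have hp : (∑ r ∈ R, ψ r) ^ q = algebraMap F (MonoidAlgebra F B) ((∑ r ∈ R, χ r) ^ q) := by
    rw [sum_pow_char, sum_pow_char, map_sum]
    refine Finset.sum_congr rfl fun r _ => ?_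
    rw [hψ, MonoidAlgebra.single_pow, hπ, alg]
  have hz : ∑ r ∈ R, ψ r⁻¹ = 0 := by
    refine cancel _ _ (pow_ne_zero q h0) ?_
    rw [← hp, ← Nat.sub_add_cancel hq.out.pos, pow_succ, mul_assoc, key, mul_zero]
  have := congrArg (fun z : MonoidAlgebra F B => z.coeff 1) hz
  simp only [hψ] at this
  rw [Finset.sum_filter]
  simpa [Finsupp.single_apply, MonoidAlgebra.coeff_sum] using this

end Sum

/-- Characters with values in characteristic `q` see every element that is not a `q`-element. -/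
lemma exists_char {B : Type*} [CommGroup B] [Finite B] {q : ℕ} [hq : Fact q.Prime] {b : B}
    (hb : ∀ k, b ^ q ^ k ≠ 1) : ∃ χ : B →* (AlgebraicClosure (ZMod q))ˣ, χ b ≠ 1 := by
  obtain ⟨k, t, ht, e⟩ := Nat.exists_eq_pow_mul_and_not_dvd (Nat.card_pos (α := B)).ne' q
    hq.out.ne_one
  let H : Subgroup B := (powMonoidHom t).ker
  have hmem : ∀ x : B, powMonoidHom (q ^ k) x ∈ H := fun x => by
    simp only [H, MonoidHom.mem_ker, powMonoidHom_apply]
    rw [← pow_mul, ← e, pow_card_eq_one']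
  have hexp : Monoid.exponent H ∣ t :=
    Monoid.exponent_dvd_of_forall_pow_eq_one fun x => Subtype.ext x.2
  have : NeZero ((Monoid.exponent H : ℕ) : ZMod q) :=
    ⟨fun h => ht (((ZMod.natCast_eq_zero_iff _ _).1 h).trans hexp)⟩
  obtain ⟨φ, hφ⟩ := CommGroup.exists_apply_ne_one_of_hasEnoughRootsOfUnity H
    (AlgebraicClosure (ZMod q)) (a := ⟨_, hmem b⟩) (fun h => hb k (congrArg Subtype.val h))
  exact ⟨φ.comp ((powMonoidHom (q ^ k)).codRestrict H hmem), hφ⟩

end Pool.Agent.Lib.MP_2d211a_co
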