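import Mathlib

/-!
Automorphisms and extensions of a group of prime-power order with a large cyclic subgroup.
-/

namespace Pool.Agent.Lib.MP_2d211a_co.H60

open Subgroup

variable {p : ℕ} {G : Type} [Group G]

/-- Counting through a cover. -/
theorem cover {α ι : Type*} {t : Set ι} (ht : t.Finite) (u : ι → Set α) (M : ℕ) :
    (∀ i ∈ t, (u i).Finite ∧ (u i).ncard ≤ M) → ∀ s : Set α, (∀ a ∈ s, ∃ i ∈ t, a ∈ u i) →
      s.Finite ∧ s.ncard ≤ t.ncard * M := by
  induction t, ht using Set.Finite.induction_on with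
  | empty =>
    intro _ s hs
    obtain rfl : s = ∅ := Set.eq_empty_of_forall_notMem fun a ha => by simpa using hs a ha
    simp
  | @insert i t hi ht ih =>
    intro hu s hs
    obtain ⟨h1, h2⟩ := ih (fun j hj => hu j (.inr hj)) (s \ u i) fun a ha => by
      obtain ⟨j, rfl | hj, h⟩ := hs a ha.1
      exacts [absurd h ha.2, ⟨j, hj, h⟩]
    obtain ⟨h3, h4⟩ := hu i (.inl rfl)
    have h5 : s ⊆ s \ u i ∪ u i := fun a ha => by simp [ha]
    refine ⟨(h1.union h3).subset h5, (Set.ncard_le_ncard h5 (h1.union h3)).trans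
      ((Set.ncard_union_le _ _).trans ?_)⟩
    rw [Set.ncard_insert_of_notMem hi ht, add_mul, one_mul]
    exact add_le_add h2 h4

/-- A subgroup of index `p` in a `p`-subgroup. -/
theorem step [Finite G] (hp : p.Prime) {L K : Subgroup G} {n : ℕ} (hL : Nat.card L = p ^ n)
    (hK : Nat.card K = p ^ (n + 1)) (h : L ≤ K) : ∃ g ∈ K, g ∉ L ∧ g ∈ normalizer (L : Set G) ∧
      g ^ p ∈ L ∧ ∀ E : Subgroup G, L ≤ E → g ∈ E → K ≤ E := by
  have h1 : (L.subgroupOf K).index = p := by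
    have := (L.subgroupOf K).card_mul_index
    rw [Nat.card_congr (subgroupOfEquivOfLe h).toEquiv, hL, hK, pow_succ] at this
    exact Nat.eq_of_mul_eq_mul_left (pow_pos hp.pos n) this
  have h2 : (L.subgroupOf K).Normal := normal_of_index_eq_minFac_card (by
    rw [h1, hK, hp.pow_minFac n.succ_ne_zero])
  obtain ⟨g, gK, gL⟩ : ∃ g ∈ K, g ∉ L := by
    by_contra! h3
    have := card_le_of_le (show K ≤ L from h3)
    rw [hL, hK] at this
    exact absurd this (Nat.pow_lt_pow_right hp.one_lt n.lt_succ_self).not_ge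
  refine ⟨g, gK, gL, (normal_subgroupOf_iff_le_normalizer h).1 h2 gK, ?_, fun E h3 h4 => ?_⟩
  · have := (L.subgroupOf K).pow_index_mem ⟨g, gK⟩
    rwa [h1] at this
  have h5 := card_dvd_of_le (inf_le_right : E ⊓ K ≤ K)
  rw [hK, Nat.dvd_prime_pow hp] at h5
  obtain ⟨i, hi, h5⟩ := h5
  have h6 : Nat.card L < Nat.card (E ⊓ K : Subgroup G) := lt_of_not_ge fun h6 =>
    gL (eq_of_le_of_card_ge (le_inf h3 h) h6 ▸ ⟨h4, gK⟩)
  rw [hL, h5, Nat.pow_lt_pow_iff_right hp.one_lt] at h6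
  obtain rfl : i = n + 1 := by omega
  exact inf_eq_right.1 (eq_of_le_of_card_ge inf_le_right (by rw [hK, h5]))

theorem cyc [Finite G] (hp : p.Prime) {x w : G} {f : ℕ} (hx : orderOf x = p ^ (f + 2))
    (hw : w ∈ zpowers x) : w ∈ zpowers ((x ^ p ^ f) ^ p) ∨ ∃ c : ℕ, w ^ c = x ^ p ^ f := by
  obtain ⟨k, rfl⟩ := mem_powers_iff_mem_zpowers.2 hw
  by_cases h : p ^ (f + 1) ∣ k
  · obtain ⟨c, rfl⟩ := h
    left
    simp only [pow_succ, pow_mul]
    exact pow_mem (mem_zpowers _) c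
  obtain ⟨a, l, hl, rfl⟩ := Nat.exists_eq_pow_mul_and_not_dvd (n := k)
    (fun e => h (e ▸ dvd_zero _)) p hp.ne_one
  obtain ⟨b, rfl⟩ : ∃ b, f = a + b := Nat.exists_eq_add_of_le (not_lt.1 fun e =>
    h ((pow_dvd_pow p e).mul_right l))
  have h1 : x ^ p ^ a ∈ zpowers ((x ^ p ^ a) ^ l) := mem_zpowers_pow_iff.2
    ((((hp.coprime_iff_not_dvd).2 hl).symm.pow_right _).coprime_dvd_right
      (hx ▸ orderOf_pow_dvd _))
  obtain ⟨c, hc⟩ := mem_powers_iff_mem_zpowers.2 h1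
  refine .inr ⟨c * p ^ b, ?_⟩
  simp only [pow_mul] at hc ⊢
  rw [hc, pow_add, pow_mul]

/-- The automorphisms that fix a subgroup pointwise. -/
abbrev Fx (L : Subgroup G) : Subgroup (MulAut G) := fixingSubgroup (MulAut G) (L : Set G)

theorem mem_Fx {L : Subgroup G} {α : MulAut G} : α ∈ Fx L ↔ ∀ y ∈ L, α y = y :=
  mem_fixingSubgroup_iff _

theorem orbit_le [Finite G] (hp : p.Prime) {x g : G} {f : ℕ} (hx : orderOf x = p ^ (f + 2))
    {L : Subgroup G} (xL : x ∈ L) (gN : g ∈ normalizer (L : Set G)) (gp : g ^ p ∈ L)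
    (h : x ^ p ^ f ∉ centralizer (L : Set G) ∨ Commute g (x ^ p ^ f)) :
    (MulAction.orbit (Fx L) g).ncard ≤ (zpowers x).index * p := by
  have hu : (x ^ p ^ f) ^ p ≠ 1 := by
    rw [← pow_mul, ← pow_succ, Ne, ← orderOf_dvd_iff_pow_eq_one, hx,
      Nat.pow_dvd_pow_iff_le_right hp.one_lt]
    omega
  have key : ∀ α ∈ Fx L, ∀ w ∈ zpowers x, α g = g * w → w ∈ zpowers ((x ^ p ^ f) ^ p) := by
    intro α hα w hw e
    have wL := zpowers_le.2 xL hw
    obtain h1 | ⟨c, hc⟩ := cyc hp hx hw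
    · exact h1
    rcases h with h | h
    · refine absurd (hc ▸ pow_mem (mem_centralizer_iff.2 fun l hl => ?_) c) h
      have h2 := mem_Fx.1 hα _ ((mem_normalizer_iff.1 gN l).1 hl)
      rw [map_mul, map_mul, map_inv, e, mem_Fx.1 hα l hl] at h2
      have h3 : g * (w * l * w⁻¹) * g⁻¹ = g * l * g⁻¹ := by rw [← h2]; group
      rw [← mul_inv_eq_iff_eq_mul.1 (mul_left_cancel (mul_right_cancel h3))]
    · have h2 : ∀ c : ℕ, (α ^ c) g = g * w ^ c := fun c => by
        induction c with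
        | zero => simp
        | succ c ih =>
          rw [pow_succ', MulAut.mul_apply, ih, map_mul, e, mem_Fx.1 hα _ (pow_mem wL c),
            mul_assoc, ← pow_succ']
      have h3 := mem_Fx.1 (pow_mem hα c) _ gp
      rw [map_pow, h2, hc, h.mul_pow] at h3
      exact absurd (mul_eq_left.1 h3) hu
  have := (cover (Set.finite_univ (α := G ⧸ zpowers x))
    (fun c => {y ∈ MulAction.orbit (Fx L) g | (y : G ⧸ zpowers x) = c}) p
    (fun c _ => ⟨Set.toFinite _, ?_⟩) _ fun a ha => ⟨a, trivial, ha, rfl⟩).2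
  · rwa [Set.ncard_univ] at this
  rcases Set.eq_empty_or_nonempty {y ∈ MulAction.orbit (Fx L) g | (y : G ⧸ zpowers x) = c} with
    e | ⟨_, ⟨α, rfl⟩, e⟩
  · simp [e]
  refine (Set.ncard_le_ncard_of_injOn (t := zpowers ((x ^ p ^ f) ^ p))
    (fun y => (α.1 g)⁻¹ * y) ?_ (fun _ _ _ _ e => mul_left_cancel e)).trans ?_
  · rintro _ ⟨⟨β, rfl⟩, e'⟩
    have h1 : (α.1 g)⁻¹ * β.1 g ∈ zpowers x := QuotientGroup.eq.1 (e.trans e'.symm)
    refine key (α⁻¹ * β).1 (α⁻¹ * β).2 ((α.1 g)⁻¹ * β.1 g) h1 (α.1.injective ?_)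
    rw [map_mul, mem_Fx.1 α.2 _ (zpowers_le.2 xL h1)]
    simp
  · rw [← Nat.card_coe_set_eq]
    refine (Nat.card_zpowers _).trans_le (orderOf_le_of_pow_eq_one hp.pos ?_)
    rw [← pow_mul, ← pow_mul, ← orderOf_dvd_iff_pow_eq_one, hx]
    exact ⟨1, by ring⟩

theorem card_Fx_le [Finite G] (L K : Subgroup G) (g : G)
    (h : ∀ E : Subgroup G, L ≤ E → g ∈ E → K ≤ E) :
    Nat.card (Fx L) ≤ (MulAction.orbit (Fx L) g).ncard * Nat.card (Fx K) := by
  rw [← (MulAction.stabilizer (Fx L) g).index_mul_card, MulAction.index_stabilizer]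
  refine Nat.mul_le_mul_left _ (Nat.card_le_card_of_injective (fun α => ⟨α.1.1, mem_Fx.2
    (h (α.1.1.toMonoidHom.eqLocus (.id G)) (mem_Fx.1 α.1.2) α.2)⟩) fun _ _ e => ?_)
  exact Subtype.ext (Subtype.ext (congrArg Subtype.val e :))

theorem Fx_le [Finite G] (hp : p.Prime) {x : G} {f n : ℕ} (hx : orderOf x = p ^ (f + 2))
    (hG : Nat.card G = p ^ n) (a : ℕ) : ∀ (i : ℕ) (L : Subgroup G), x ∈ L → Nat.card L = p ^ i →
      i + a = n → Nat.card (Fx L) ≤ p ^ n * ((zpowers x).index * p) ^ a ∧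
        (x ^ p ^ f ∉ centralizer (L : Set G) → Nat.card (Fx L) ≤ ((zpowers x).index * p) ^ a) := by
  have := Fact.mk hp
  have M1 : 1 ≤ (zpowers x).index * p := Nat.mul_pos (Nat.pos_of_ne_zero index_ne_zero_of_finite)
    hp.pos
  induction a with
  | zero =>
    rintro i L - hL rfl
    obtain rfl : L = ⊤ := eq_top_of_card_eq _ (hL.trans hG.symm)
    have : Fx (⊤ : Subgroup G) = ⊥ := eq_bot_iff.2 fun α hα =>
      MulEquiv.ext fun y => mem_Fx.1 hα y trivial
    simp [this, Nat.one_le_pow _ _ hp.pos]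
  | succ a ih =>
    rintro i L xL hL rfl
    obtain ⟨K, hK, h⟩ := Sylow.exists_subgroup_card_pow_succ (p := p) (n := i)
      (hG ▸ pow_dvd_pow p (by omega)) hL
    obtain ⟨g, gK, -, gN, gp, hE⟩ := step hp hL hK h
    obtain ⟨i1, i2⟩ := ih _ K (h xL) hK (by omega)
    have h1 := card_Fx_le L K g hE
    refine ⟨?_, fun hu => ?_⟩
    · by_cases hc : Commute g (x ^ p ^ f)
      · refine (h1.trans (Nat.mul_le_mul (orbit_le hp hx xL gN gp (.inr hc)) i1)).trans_eq ?_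
        ring
      · refine h1.trans (Nat.mul_le_mul (hG ▸ Set.ncard_le_card _) ((i2 fun e => hc ?_).trans
          (Nat.pow_le_pow_right M1 a.le_succ)))
        exact mem_centralizer_iff.1 e g gK
    · refine (h1.trans (Nat.mul_le_mul (orbit_le hp hx xL gN gp (.inl hu))
        (i2 fun e => hu (centralizer_le h e)))).trans_eq ?_
      ring

/-- The number of automorphisms. -/
theorem aut_le (hp : p.Prime) {x : G} {f j : ℕ} (hx : orderOf x = p ^ (f + 2))
    (hG : Nat.card G = p ^ (f + 2 + j)) :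
    Nat.card (MulAut G) ≤ p ^ (2 * (f + 2 + j) + (j + 1) * j) := by
  have : Finite G := Nat.finite_of_card_ne_zero (hG ▸ (pow_pos hp.pos _).ne')
  have h0 := (Nat.card_zpowers x).trans hx
  have h1 := (Fx_le hp hx hG j _ _ (mem_zpowers x) h0 rfl).1
  have h2 := card_Fx_le ⊥ (zpowers x) x fun E _ h => zpowers_le.2 h
  have h3 : Fx (⊥ : Subgroup G) = ⊤ := eq_top_iff.2 fun α _ => mem_Fx.2 fun y hy => by
    rw [mem_bot.1 hy, map_one]
  have h4 := (zpowers x).card_mul_index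
  rw [h0, hG, pow_add p (f + 2)] at h4
  rw [Nat.eq_of_mul_eq_mul_left (pow_pos hp.pos _) h4] at h1
  have h5 : Nat.card (Fx (⊥ : Subgroup G)) = Nat.card (MulAut G) := by rw [h3, card_top]
  refine (h5.symm.trans_le (h2.trans (Nat.mul_le_mul (hG ▸ Set.ncard_le_card _) h1))).trans_eq ?_
  ring

/-- One projection of the graph of an isomorphism of extensions. -/
theorem proj_bij [Finite G] (hp : p.Prime) {H T : Type} [Group H] [Group T] (f : H →* T) (γ : T)
    (π : T →* G) (hN : γ ∈ normalizer (f.range : Set T)) (hγ : γ ^ p ∈ f.range)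
    (hi : Function.Injective (π.comp f)) (hn : π γ ∉ (π.comp f).range)
    (hE : ∀ E : Subgroup G, (π.comp f).range ≤ E → π γ ∈ E → ⊤ ≤ E) :
    Function.Bijective (π.comp (f.range ⊔ zpowers γ).subtype) := by
  refine ⟨(injective_iff_map_eq_one _).2 fun z hz => ?_, MonoidHom.range_eq_top.1
    (eq_top_iff.2 (hE _ ?_ ⟨⟨γ, mem_sup_right (mem_zpowers γ)⟩, rfl⟩))⟩
  · have h1 : z.1 ∈ ((f.range ⊔ zpowers γ : Subgroup T) : Set T) := z.2
    rw [coe_mul_of_right_le_normalizer_left _ _ (zpowers_le.2 hN)] at h1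
    obtain ⟨_, ⟨h, rfl⟩, _, ⟨i, rfl⟩, e⟩ := h1
    have e1 : π (f h * γ ^ i) = 1 := (congrArg π e).trans hz
    have h2 : (p : ℤ) ∣ i := by
      by_contra h2
      obtain ⟨a, b, hab⟩ := (Nat.prime_iff_prime_int.1 hp).coprime_iff_not_dvd.2 h2
      refine hn ?_
      rw [← zpow_one (π γ), ← hab, zpow_add, mul_comm a, mul_comm b, zpow_mul, zpow_mul]
      refine mul_mem (zpow_mem ?_ _) (zpow_mem (MonoidHom.mem_range.2 ⟨h⁻¹, ?_⟩) _)
      · obtain ⟨k, hk⟩ := hγ
        exact ⟨k, by rw [MonoidHom.comp_apply, hk, map_pow, zpow_natCast]⟩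
      · rw [map_mul, map_zpow] at e1
        rw [map_inv, MonoidHom.comp_apply, inv_eq_of_mul_eq_one_right e1]
    obtain ⟨c, rfl⟩ := h2
    obtain ⟨k, hk⟩ := hγ
    have e2 : f h * γ ^ (p * c : ℤ) = f (h * k ^ c) := by
      rw [zpow_mul, zpow_natCast, ← hk, map_mul, map_zpow]
    rw [e2] at e1
    refine Subtype.ext (e.symm.trans (e2.trans ?_))
    rw [(injective_iff_map_eq_one _).1 hi _ e1, map_one]
    rfl
  · rintro _ ⟨h, rfl⟩
    exact ⟨⟨f h, mem_sup_left ⟨h, rfl⟩⟩, rfl⟩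

/-- The data of an extension of degree `p`. -/
def Ex (p : ℕ) {H : Type} [Group H] (d : MulAut H × H) (G : Type) [Group G] : Prop :=
  Finite G ∧ ∃ (f : H →* G) (g : G), Function.Injective f ∧ g ∉ f.range ∧
    (∀ h, g * f h * g⁻¹ = f (d.1 h)) ∧ g ^ p = f d.2 ∧
    ∀ E : Subgroup G, f.range ≤ E → g ∈ E → ⊤ ≤ E

theorem Ex.iso (hp : p.Prime) {H G' : Type} [Group H] [Group G'] {d : MulAut H × H}
    (h : Ex p d G) (h' : Ex p d G') : Nonempty (G ≃* G') := by
  obtain ⟨_, f, g, a1, a2, a3, a4, a5⟩ := h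
  obtain ⟨_, f', g', b1, b2, b3, b4, b5⟩ := h'
  have hN : (g, g') ∈ normalizer ((f.prod f').range : Set (G × G')) := by
    refine mem_normalizer_iff.2 fun z => ⟨?_, ?_⟩
    · rintro ⟨h, rfl⟩
      exact ⟨d.1 h, Prod.ext (a3 h).symm (b3 h).symm⟩
    · rintro ⟨h, e⟩
      obtain ⟨h, rfl⟩ := d.1.surjective h
      have e' : (g, g') * f.prod f' h * (g, g')⁻¹ = f.prod f' (d.1 h) := Prod.ext (a3 h) (b3 h)
      exact ⟨h, mul_left_cancel (mul_right_cancel (e'.trans e))⟩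
  have hγ : (g, g') ^ p ∈ (f.prod f').range := ⟨d.2, Prod.ext a4.symm b4.symm⟩
  exact ⟨(MulEquiv.ofBijective _ (proj_bij hp _ _ (.fst G G') hN hγ a1 a2 a5)).symm.trans
    (MulEquiv.ofBijective _ (proj_bij hp _ _ (.snd G G') hN hγ b1 b2 b5))⟩

theorem exists_Ex (hp : p.Prime) {H : Type} [Group H] {n : ℕ} (hH : Nat.card H = p ^ n)
    (hG : Nat.card G = p ^ (n + 1)) (f : H →* G) (hf : Function.Injective f) :
    ∃ d : MulAut H × H, Ex p d G := by
  have : Finite G := Nat.finite_of_card_ne_zero (hG ▸ (pow_pos hp.pos _).ne')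
  have e := MonoidHom.ofInjective hf
  obtain ⟨g, -, a1, a2, ⟨a, a3⟩, a4⟩ := step hp ((Nat.card_congr e.toEquiv).symm.trans hH)
    (card_top.trans hG) le_top
  refine ⟨(((MonoidHom.ofInjective hf).trans (f.range.normalizerMonoidHom ⟨g, a2⟩)).trans
    (MonoidHom.ofInjective hf).symm, a), this, f, g, hf, a1, fun h => ?_, a3.symm, a4⟩
  simp only [MulEquiv.trans_apply, MonoidHom.apply_ofInjective_symm]
  rfl

end Pool.Agent.Lib.MP_2d211a_co.H60
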