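import Pool.Agent.Lib.MP_2d211a_co.Classify

open Finset

namespace Pool.Agent.Lib.MP_2d211a_co

universe u

theorem card_line {p : ℕ} [Fact p.Prime] {G : Type*} [AddCommGroup G] (φ : ZMod p →+ G)
    (h : φ 1 ≠ 0) : Nat.card φ.range = p := by
  rw [← Nat.card_congr (φ.ofInjective (line_inj φ h)).toEquiv, Nat.card_zmod]

theorem exist_four {G : Type*} [AddCommGroup G] (hG : Nat.card G = 4) (φ : ZMod 2 →+ G)
    (hφ : φ 1 ≠ 0) (x : G) (hx : 2 • x = φ 1) : ∃ R, FR φ R := by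
  classical
  have hi : φ.range.index = 2 := by
    have := φ.range.card_mul_index
    rw [card_line φ hφ, hG] at this
    omega
  have hx0 : x ∉ φ.range := by
    rintro ⟨a, rfl⟩
    exact hφ (hx.symm.trans (line_kr φ a))
  have hne : (0 : G) ≠ x := fun h => hx0 (h ▸ zero_mem _)
  refine ⟨{0, x}, fun g => ?_, fun χ hχ => ?_⟩
  · have e1 : x - g ∈ φ.range ↔ g ∉ φ.range := by
      rw [sub_eq_add_neg, AddSubgroup.add_mem_iff_of_index_two hi, neg_mem_iff]; tauto
    have e2 : 0 - g ∈ φ.range ↔ g ∈ φ.range := by rw [zero_sub, neg_mem_iff]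
    by_cases hg : g ∈ φ.range
    · refine ⟨0, ⟨by simp, e2.2 hg⟩, fun y hy => ?_⟩
      rcases mem_insert.1 hy.1 with h | h
      · exact h
      · exact absurd hg (e1.1 (mem_singleton.1 h ▸ hy.2))
    · refine ⟨x, ⟨by simp, e1.2 hg⟩, fun y hy => ?_⟩
      rcases mem_insert.1 hy.1 with h | h
      · exact absurd (e2.1 (h ▸ hy.2)) hg
      · exact mem_singleton.1 h
  · have a0 : χ (φ 1) ^ 2 = 1 := by
      rw [← AddChar.map_nsmul_eq_pow, line_kr, AddChar.map_zero_eq_one]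
    have a1 : χ x * χ x = -1 := by
      rw [← AddChar.map_add_eq_mul, ← two_nsmul, hx]
      exact (sq_eq_one_iff.1 a0).resolve_left hχ
    have a2 : χ x * χ (-x) = 1 := by rw [← AddChar.map_add_eq_mul]; simp
    rw [sum_pair hne, sum_pair hne, card_pair hne, neg_zero, AddChar.map_zero_eq_one]
    push_cast
    linear_combination (1 - χ x) * a2 + χ (-x) * a1

theorem exist_two (k : ℕ) : ∀ (G : Type u) [AddCommGroup G] [Finite G],
    Nat.card G = 2 ^ (2 * k + 2) → ∀ φ : ZMod 2 →+ G, φ 1 ≠ 0 → φ 1 ∈ rg G 2 →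
    (∀ g : G, 2 ^ (k + 1) • g ∈ φ.range) → ∃ R, FR φ R := by
  induction k with
  | zero =>
    rintro G _ _ hG φ hφ ⟨x, hx⟩ -
    exact exist_four hG φ hφ x hx
  | succ k ih =>
    rintro G _ _ hG φ hφ ⟨x, hx⟩ hU
    have := Fintype.ofFinite G
    replace hx : 2 • x = φ 1 := hx
    have he : ∀ g : G, 2 ^ (k + 1 + 1 + 1) • g = 0 := fun g => by
      obtain ⟨a, ha⟩ := hU g
      rw [pow_succ', mul_smul, ← ha, line_kr]
    have hφk : φ.range ≤ kr G 2 := by rintro _ ⟨a, rfl⟩; exact line_kr φ a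
    obtain ⟨y, hy, hy2, hy3⟩ : ∃ y, 2 • y = 0 ∧ y ∉ φ.range ∧
        rg G (2 ^ (k + 1)) ⊓ kr G 2 ≤ φ.range ⊔ AddSubgroup.zmultiples y := by
      by_cases hV : rg G (2 ^ (k + 1)) ⊓ kr G 2 ≤ φ.range
      · obtain ⟨y, hy, hy2⟩ := exists_second φ (by
          by_contra hle
          have h2 := (card_le_pow 2 _ he).trans (Nat.pow_le_pow_left (not_lt.1 hle) _)
          rw [hG, Nat.pow_le_pow_iff_right one_lt_two] at h2
          omega)
        exact ⟨y, hy, hy2, hV.trans le_sup_left⟩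
      · obtain ⟨y, hy, hy2⟩ := SetLike.not_le_iff_exists.1 hV
        refine ⟨y, hy.2, hy2, ?_⟩
        by_contra hne
        have m := fun {A B : AddSubgroup G} (h : A ≤ B) (h' : ¬ B ≤ A) =>
          card_mul_le_of_lt Nat.prime_two hG (lt_of_le_not_ge h h')
        have z1 : AddSubgroup.zmultiples y ≤ rg G (2 ^ (k + 1)) ⊓ kr G 2 :=
          AddSubgroup.zmultiples_le.2 hy
        have a1 := m (le_sup_left : φ.range ≤ φ.range ⊔ AddSubgroup.zmultiples y)
          (fun h => hy2 (h (AddSubgroup.mem_sup_right (AddSubgroup.mem_zmultiples y))))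
        have a2 := m (sup_le hφk (z1.trans inf_le_right)) (fun h => hne (inf_le_right.trans h))
        have a3 := m (bot_le : ⊥ ≤ AddSubgroup.zmultiples y) (fun h => hy2 (by
          rw [AddSubgroup.mem_bot.1 (h (AddSubgroup.mem_zmultiples y))]; exact zero_mem _))
        have a4 := m z1 (fun h => hne (h.trans le_sup_right))
        rw [card_line φ hφ] at a1
        rw [AddSubgroup.card_bot] at a3
        have a5 := Nat.mul_le_mul (show 2 ^ 3 ≤ Nat.card (kr G 2) by omega)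
          ((Nat.pow_le_pow_left (show 2 ^ 2 ≤ _ by omega) _).trans
            (pow_le_card_rg' (G := G) 2 (k + 1) (k + 1) 1 (by omega)))
        rw [pow_one, card_kr_rg, hG, ← pow_mul, ← pow_add, Nat.pow_le_pow_iff_right one_lt_two] at a5
        omega
    have hx2 : 2 ^ 2 • x = 0 := by rw [sq, mul_smul, hx, line_kr]
    obtain ⟨c, z, c1, c2, c3⟩ := hom_step hG he (by
      have : rg G (2 ^ (k + 1 + 1)) ≤ φ.range := by rintro _ ⟨g, rfl⟩; exact hU g
      have := AddSubgroup.card_le_of_le this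
      rw [card_line φ hφ] at this
      exact this.trans_lt (by norm_num)) _ (two_ne_top (2 ^ 2) 2 x y hx2 hy (by
        rw [hG, ← pow_succ]; exact Nat.pow_lt_pow_right one_lt_two (by omega))) (by
      refine sup_le ?_ ?_ <;> rw [AddSubgroup.zmultiples_le, mem_kr]
      · rw [pow_add, mul_smul, hx2, smul_zero]
      · rw [pow_succ, mul_smul, hy, smul_zero])
    have cx : x ∈ c.ker := c1 _ (AddSubgroup.mem_sup_left (AddSubgroup.mem_zmultiples _))
    have cy : y ∈ c.ker := c1 _ (AddSubgroup.mem_sup_right (AddSubgroup.mem_zmultiples _))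
    have cφ : ∀ a, φ a ∈ c.ker := fun a => by
      rw [line_apply, ← hx]; exact c.ker.nsmul_mem (c.ker.nsmul_mem cx _) _
    obtain ⟨η, hη⟩ := exists_line (⟨y, cy⟩ : c.ker) (Subtype.ext hy)
    refine rec_step c z c2 (φ.codRestrict _ cφ) η (fun h => hφ (congrArg Subtype.val h)) ?_ ?_
    · rintro ⟨a, ha⟩
      exact hy2 ⟨a, by rw [hη] at ha; exact congrArg Subtype.val ha⟩
    · rintro θ ⟨b, hb⟩ t1 t2
      refine ih _ ?_ _ t2 ?_ ?_
      · have e1 := card_quot θ t1
        have e2 := card_ker_hom c c2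
        rw [← e1, hG, show 2 * (k + 1) + 2 = 2 * k + 2 + 1 + 1 by ring, pow_succ, pow_succ] at e2
        omega
      · exact ⟨QuotientAddGroup.mk ⟨x, cx⟩, by
          rw [nsmulAddMonoidHom_apply, ← QuotientAddGroup.mk_nsmul]
          exact congrArg QuotientAddGroup.mk (Subtype.ext hx)⟩
      · intro g
        obtain ⟨g, rfl⟩ := QuotientAddGroup.mk_surjective g
        obtain ⟨_, ⟨a, rfl⟩, _, ⟨m, rfl⟩, h3⟩ := AddSubgroup.mem_sup.1 (hy3 (x := 2 ^ (k + 1) • (g : G))
          ⟨⟨g, rfl⟩, mem_kr.2 (by rw [← mul_smul, ← pow_succ']; exact c3 g g.2)⟩)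
        refine ⟨a - m • b, ?_⟩
        rw [← QuotientAddGroup.mk_nsmul, AddMonoidHom.comp_apply, QuotientAddGroup.mk'_apply,
          QuotientAddGroup.eq_iff_sub_mem]
        refine ⟨-(m • 1), ?_⟩
        rw [map_sub, map_zsmul, hb, hη, map_neg, map_zsmul]
        ext
        simp [← h3, smul_sub]
        abel

theorem ARDS.map {G G' : Type*} [AddCommGroup G] [DecidableEq G] [AddCommGroup G'] [DecidableEq G']
    {N : AddSubgroup G} {R : Finset G} (h : ARDS N R) (e : G' ≃+ G) :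
    ARDS (N.comap e.toAddMonoidHom) (R.map e.symm.toEquiv.toEmbedding) := by
  have h1 : Nat.card (N.comap e.toAddMonoidHom) = Nat.card N :=
    Nat.card_congr (e.toEquiv.subtypeEquiv fun _ => Iff.rfl)
  have h2 : Nat.card G' = Nat.card G := Nat.card_congr e.toEquiv
  refine ⟨h1 ▸ h.one_lt, by rw [h1, h2]; exact h.lt, by rw [h1, h2, card_map]; exact h.card,
    fun g hg => ?_, fun a ha b hb hab => ?_⟩
  · rw [h1, card_map, ← h.out (e g) hg]
    congr 1
    refine card_equiv (e.toEquiv.prodCongr e.toEquiv) fun q => ?_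
    simp [mem_map_equiv, ← map_sub]
  · rw [mem_map_equiv] at ha hb
    exact e.injective (h.inn _ ha _ hb (by simpa using hab))

theorem ards_bent {K A : Type*} [Field K] [Fintype K] [DecidableEq K] [AddCommGroup A] [Fintype A]
    [DecidableEq A] [Nontrivial A] (L : K →+ A) (hL : Function.Surjective L) :
    ARDS (AddMonoidHom.fst (K × K) A).ker (univ.image fun q : K × K => (q, L (q.1 * q.2))) := by
  have inj : Function.Injective fun q : K × K => (q, L (q.1 * q.2)) := fun a b h => (Prod.mk.inj h).1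
  have hN : Nat.card (AddMonoidHom.fst (K × K) A).ker = Nat.card A :=
    Nat.card_congr ⟨fun a => a.1.2, fun y => ⟨(0, y), rfl⟩,
      fun a => Subtype.ext (Prod.ext a.2.symm rfl), fun _ => rfl⟩
  have hR : (univ.image fun q : K × K => (q, L (q.1 * q.2))).card = Nat.card (K × K) := by
    rw [card_image_of_injective _ inj, card_univ, Nat.card_eq_fintype_card]
  have h1 : 1 < Nat.card A := Finite.one_lt_card
  have h2 : 1 < Nat.card (K × K) := Finite.one_lt_card
  refine ⟨by rwa [hN], ?_, ?_, fun g hg => ?_, fun a ha b hb hab => ?_⟩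
  · rw [hN, Nat.card_prod]; nlinarith
  · rw [hN, hR, Nat.card_prod (K × K)]
  · obtain ⟨⟨a, b⟩, z⟩ := g
    set F : K × K →+ A := L.comp ((AddMonoidHom.mulLeft b).coprod (AddMonoidHom.mulLeft a)) with hF
    have hs : Function.Surjective F := fun w => by
      obtain ⟨t, rfl⟩ := hL w
      by_cases ha : a = 0
      · have hb : b ≠ 0 := fun hb => hg (Prod.ext ha hb)
        exact ⟨(b⁻¹ * t, 0), by simp [hF, hb]⟩
      · exact ⟨(0, a⁻¹ * t), by simp [hF, ha]⟩
    rw [hN, hR, ← card_ker_range F, AddMonoidHom.range_eq_top.2 hs, AddSubgroup.card_top]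
    congr 1
    have e1 := AddMonoidHom.card_fiber_eq_of_mem_range F (hs (z + L (a * b))) (hs 0)
    rw [Nat.card_eq_fintype_card, Fintype.card_subtype]
    refine Eq.trans ?_ (e1.trans (by congr))
    refine card_bij' (fun q _ => q.1.1) (fun x _ => ((x, L (x.1 * x.2)),
      (x - (a, b), L ((x.1 - a) * (x.2 - b))))) ?_ ?_ ?_ (fun _ _ => rfl)
    · rintro ⟨u, v⟩ hq
      simp only [mem_filter, mem_product, mem_image, mem_univ, true_and] at hq ⊢
      obtain ⟨⟨⟨x, rfl⟩, ⟨y, rfl⟩⟩, h⟩ := hq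
      simp only [Prod.mk_sub_mk, Prod.ext_iff, Prod.fst_sub, Prod.snd_sub] at h
      obtain ⟨⟨rfl, rfl⟩, rfl⟩ := h
      simp only [hF, AddMonoidHom.comp_apply, AddMonoidHom.coprod_apply, AddMonoidHom.coe_mulLeft,
        ← map_sub, ← map_add]
      congr 1; ring
    · intro x hx
      simp only [mem_filter, mem_product, mem_image, mem_univ, true_and] at hx ⊢
      refine ⟨⟨⟨x, rfl⟩, ⟨x - (a, b), rfl⟩⟩, Prod.ext (by simp) ?_⟩
      simp only [hF, AddMonoidHom.comp_apply, AddMonoidHom.coprod_apply,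
        AddMonoidHom.coe_mulLeft] at hx
      rw [Prod.snd_sub, ← sub_eq_iff_eq_add.2 hx, ← map_sub, ← map_sub]
      congr 1; ring
    · rintro ⟨u, v⟩ hq
      simp only [mem_filter, mem_product, mem_image, mem_univ, true_and] at hq ⊢
      obtain ⟨⟨⟨x, rfl⟩, ⟨y, rfl⟩⟩, h⟩ := hq
      simp only [Prod.mk_sub_mk, Prod.ext_iff, Prod.fst_sub, Prod.snd_sub] at h
      obtain ⟨⟨rfl, rfl⟩, rfl⟩ := h
      simp [Prod.ext_iff]
  · simp only [mem_image, mem_univ, true_and] at ha hb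
    obtain ⟨x, rfl⟩ := ha
    obtain ⟨y, rfl⟩ := hb
    have : x - y = 0 := hab
    rw [sub_eq_zero.1 this]

theorem elem_equiv {G G' : Type*} [AddCommGroup G] [AddCommGroup G'] [Finite G] [Finite G']
    (h : ∀ x : G, 2 • x = 0) (h' : ∀ x : G', 2 • x = 0) (hc : Nat.card G = Nat.card G') :
    Nonempty (G ≃+ G') := by
  let _ := AddCommGroup.zmodModule h
  let _ := AddCommGroup.zmodModule h'
  rw [Module.natCard_eq_pow_finrank (K := ZMod 2), Module.natCard_eq_pow_finrank (K := ZMod 2) (V := G'),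
    Nat.card_zmod, Nat.pow_right_inj one_lt_two] at hc
  exact ⟨(LinearEquiv.ofFinrankEq G G' hc).toAddEquiv⟩

theorem exist_elem {m : ℕ} {G : Type*} [AddCommGroup G] [Fintype G] [DecidableEq G]
    (hG : Nat.card G = 2 ^ (2 * m + 6)) (h : ∀ x : G, 2 • x = 0) :
    ∃ (N : AddSubgroup G) (R : Finset G), ARDS N R := by
  classical
  have hK : Nat.card (GaloisField 2 (m + 2)) = 2 ^ (m + 2) := GaloisField.card 2 _ (by omega)
  have := Fintype.ofFinite (GaloisField 2 (m + 2))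
  have k2 : ∀ x : GaloisField 2 (m + 2), 2 • x = 0 := fun x => by
    rw [two_nsmul, CharTwo.add_self_eq_zero]
  have z2 : ∀ x : ZMod 2, 2 • x = 0 := by decide
  obtain ⟨e⟩ := elem_equiv (G' := (ZMod 2 × ZMod 2) × (Fin m → ZMod 2)) k2
    (fun x => by ext <;> exact z2 _) (by rw [hK]; simp; ring)
  obtain ⟨e'⟩ := elem_equiv
    (G' := (GaloisField 2 (m + 2) × GaloisField 2 (m + 2)) × (ZMod 2 × ZMod 2)) h
    (fun x => by ext <;> first | exact z2 _ | exact k2 _)
    (by simp only [Nat.card_prod, hK, hG, Nat.card_zmod]; ring)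
  exact ⟨_, _, (ards_bent ((AddMonoidHom.fst _ _).comp e.toAddMonoidHom)
    (Prod.fst_surjective.comp e.surjective)).map e'⟩

theorem ARDS.not_elem {n : ℕ} {G : Type*} [AddCommGroup G] [Fintype G] [DecidableEq G]
    {N : AddSubgroup G} {R : Finset G} (h : ARDS N R) (hG : Nat.card G = 2 ^ n)
    (h2 : ∀ x : G, 2 • x = 0) : n ≠ 2 ∧ n ≠ 4 := by
  classical
  have neg : ∀ x : G, -x = x := fun x => neg_eq_of_add_eq_zero_left (by rw [← two_nsmul, h2])
  obtain ⟨b, -, hb⟩ := card_sub_pow Nat.prime_two hG N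
  have c1 := h.card
  obtain ⟨a, -, ha⟩ := (Nat.dvd_prime_pow Nat.prime_two).1 (hG ▸ Dvd.intro _ c1)
  have c2 := h.le
  have c3 := h.one_lt
  have hab : a ≠ b := by
    rintro rfl
    obtain ⟨g, hg⟩ : ∃ g, g ∉ N := by
      by_contra hne
      push Not at hne
      have := h.lt
      rw [(AddSubgroup.eq_top_iff' N).2 hne] at this
      simp at this
    have e1 := h.out g hg
    rw [ha, hb, mul_eq_right₀ (by positivity), card_eq_one] at e1
    obtain ⟨q, hq⟩ := e1
    have e2 : q ∈ (R ×ˢ R).filter fun q => q.1 - q.2 = g := hq ▸ mem_singleton_self q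
    have e3 : q.swap ∈ (R ×ˢ R).filter fun q => q.1 - q.2 = g := by
      simp only [mem_filter, mem_product, Prod.fst_swap, Prod.snd_swap] at e2 ⊢
      exact ⟨e2.1.symm, by rw [← neg_sub, neg, e2.2]⟩
    rw [hq, mem_singleton] at e3
    apply hg
    rw [← (mem_filter.1 e2).2, show q.2 = q.1 from congrArg Prod.fst e3, sub_self]
    exact zero_mem _
  have h3 : a ≠ 3 := by
    rintro rfl
    obtain ⟨ν, hν, hν0⟩ : ∃ ν ∈ N, ν ≠ 0 := by
      by_contra hne
      push Not at hne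
      rw [(AddSubgroup.eq_bot_iff_forall N).2 hne] at c3
      simp at c3
    obtain ⟨c, -, hc⟩ := exists_hom (p := 2) ⊥ ν (by
      rw [bot_sup_eq]; rintro ⟨y, hy⟩; exact hν0 (hy.symm.trans (h2 y)))
    have := h.char ((AddChar.zmodChar 2 (neg_one_sq (R := ℤ))).compAddMonoidHom c) hν (by
      rw [AddChar.compAddMonoidHom_apply, hc]; decide)
    simp only [neg, ha] at this
    obtain ⟨s, hs⟩ : ∃ s : ℤ, s * s = 8 := ⟨_, this⟩
    have h4 : s < 3 := by nlinarith
    have h5 : -3 < s := by nlinarith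
    interval_cases s <;> omega
  rw [ha, hb, hG, ← pow_add, Nat.pow_right_inj one_lt_two] at c1
  rw [ha, hb, Nat.pow_le_pow_iff_right one_lt_two] at c2
  rw [hb, ← pow_zero 2, Nat.pow_lt_pow_iff_right one_lt_two] at c3
  omega

theorem classify_two {n : ℕ} {G : Type u} [AddCommGroup G] [DecidableEq G] [Fintype G]
    (hG : Nat.card G = 2 ^ n) : (∃ (N : AddSubgroup G) (R : Finset G), ARDS N R) ↔
      2 ≤ n ∧ (∀ x : G, 2 ^ (n / 2 + 1) • x = 0) ∧ ¬ ((∀ x : G, 2 • x = 0) ∧ (n = 2 ∨ n = 4)) := by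
  constructor
  · rintro ⟨N, R, h⟩
    refine ⟨?_, h.expo_two hG, fun ⟨h1, h2⟩ => by have := h.not_elem hG h1; omega⟩
    obtain ⟨b, -, hb⟩ := card_sub_pow Nat.prime_two hG N
    have h1 := h.one_lt
    have h2 := h.lt
    rw [hb, ← pow_zero 2, Nat.pow_lt_pow_iff_right one_lt_two] at h1
    rw [hb, hG, Nat.pow_lt_pow_iff_right one_lt_two] at h2
    omega
  rintro ⟨hn, he, hx⟩
  have line : ∀ (A : AddSubgroup G), A ≠ ⊥ → ∃ φ : ZMod 2 →+ G, φ 1 ≠ 0 ∧ φ 1 ∈ A := by
    intro A hA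
    obtain ⟨i, -, hi⟩ := card_sub_pow Nat.prime_two hG A
    obtain ⟨u, hu⟩ := exists_prime_addOrderOf_dvd_card' (G := A) 2 (hi ▸ dvd_pow_self _ (by
      rintro rfl; exact hA (AddSubgroup.card_eq_one.1 hi)))
    obtain ⟨φ, hφ⟩ := exists_line (p := 2) (u : G) (by
      rw [← hu, ← AddSubgroup.coe_nsmul, addOrderOf_nsmul_eq_zero]; rfl)
    refine ⟨φ, fun h => ?_, hφ ▸ u.2⟩
    rw [hφ, ZeroMemClass.coe_eq_zero] at h
    rw [h, addOrderOf_zero] at hu
    omega
  have fin : ∀ (φ : ZMod 2 →+ G) (R : Finset G), φ 1 ≠ 0 → FR φ R →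
      ∃ (N : AddSubgroup G) (R : Finset G), ARDS N R := fun φ R h2 h3 =>
    ⟨_, R, h3.ards h2 (by
      rw [hG]; simpa using Nat.pow_lt_pow_right one_lt_two (show 1 < n by omega))⟩
  rcases Nat.even_or_odd' n with ⟨k, rfl | rfl⟩
  · obtain ⟨k, rfl⟩ : ∃ j, k = j + 1 := ⟨k - 1, by omega⟩
    rw [show 2 * (k + 1) / 2 + 1 = k + 1 + 1 by omega] at he
    by_cases h2 : ∀ x : G, 2 • x = 0
    · obtain ⟨m, rfl⟩ : ∃ j, k = j + 2 := ⟨k - 2, by have := not_and.1 hx h2; omega⟩
      exact exist_elem (m := m) hG h2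
    by_cases hT : rg G (2 ^ (k + 1)) = ⊥
    · obtain ⟨φ, a1, a2⟩ := line (rg G 2) fun h => h2 fun x =>
        AddSubgroup.mem_bot.1 (h ▸ mem_rg.2 ⟨x, rfl⟩)
      obtain ⟨R, hR⟩ := exist_two k G hG φ a1 a2 fun g => by
        rw [AddSubgroup.mem_bot.1 (hT ▸ mem_rg.2 ⟨g, rfl⟩ : 2 ^ (k + 1) • g ∈ ⊥)]; exact zero_mem _
      exact fin φ R a1 hR
    · obtain ⟨φ, a1, a2⟩ := line _ hT
      have a3 : φ.range = rg G (2 ^ (k + 1)) := by
        have a4 : φ.range ≤ rg G (2 ^ (k + 1)) := by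
          rintro _ ⟨a, rfl⟩; rw [line_apply]; exact AddSubgroup.nsmul_mem _ a2 _
        by_contra hne
        have a5 := card_mul_le_of_lt Nat.prime_two hG (lt_of_le_of_ne a4 hne)
        rw [card_line φ a1, ← sq] at a5
        have a6 := (Nat.pow_le_pow_left a5 _).trans (pow_le_card_rg 2 (k + 1) he (k + 2) 0 (by omega))
        rw [pow_zero, rg_one, AddSubgroup.card_top, hG, ← pow_mul,
          Nat.pow_le_pow_iff_right one_lt_two] at a6
        omega
      obtain ⟨R, hR⟩ := exist_two k G hG φ a1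
        (by simpa using rg_anti 2 (show 1 ≤ k + 1 by omega) a2) fun g => a3 ▸ mem_rg.2 ⟨g, rfl⟩
      exact fin φ R a1 hR
  · rw [show (2 * k + 1) / 2 + 1 = k + 1 by omega] at he
    obtain ⟨φ, h2, -⟩ := line ⊤ fun h => by
      have := AddSubgroup.card_top (G := G)
      rw [h, AddSubgroup.card_bot, hG, ← pow_zero 2, Nat.pow_right_inj one_lt_two] at this
      omega
    obtain ⟨R, hR⟩ := exist_odd k G hG he φ h2
    exact fin φ R h2 hR

end Pool.Agent.Lib.MP_2d211a_co
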