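import Pool.Agent.Lib.MP_2d211a_co.H60Aut

/-!
Counting isomorphism classes of groups of prime-power order.
-/

namespace Pool.Agent.Lib.MP_2d211a_co.H60

open Subgroup CategoryTheory

variable {p : ℕ}

/-- The isomorphism class of a group. -/
abbrev cl : GrpCat.{0} → Quotient (isIsomorphicSetoid GrpCat.{0}) := Quotient.mk _

theorem cl_eq {A B : GrpCat.{0}} : cl A = cl B ↔ Nonempty (A ≃* B) :=
  Quotient.eq.trans ⟨fun ⟨i⟩ => ⟨i.groupIsoToMulEquiv⟩, fun ⟨e⟩ => ⟨e.toGrpIso⟩⟩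

theorem ext_le (hp : p.Prime) {H : Type} [Group H] {n : ℕ} (hH : Nat.card H = p ^ n) :
    (cl '' {G | Nat.card G = p ^ (n + 1) ∧ ∃ f : H →* G, Function.Injective f}).Finite ∧
    (cl '' {G | Nat.card G = p ^ (n + 1) ∧ ∃ f : H →* G, Function.Injective f}).ncard ≤
      Nat.card (MulAut H) * p ^ n := by
  have : Finite H := Nat.finite_of_card_ne_zero (hH ▸ (pow_pos hp.pos _).ne')
  have := cover (Set.finite_univ (α := MulAut H × H)) (fun d => cl '' {G | Ex p d G}) 1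
    (fun d _ => ?_) (cl '' {G | Nat.card G = p ^ (n + 1) ∧ ∃ f : H →* G, Function.Injective f}) ?_
  · rwa [Set.ncard_univ, Nat.card_prod, hH, mul_one] at this
  · have : (cl '' {G | Ex p d G}).Subsingleton := by
      rintro _ ⟨A, hA, rfl⟩ _ ⟨B, hB, rfl⟩
      exact cl_eq.2 (Ex.iso hp hA hB)
    exact ⟨this.finite, (Set.ncard_le_one this.finite).2 fun a ha b hb => this ha hb⟩
  · rintro _ ⟨G, ⟨hG, f, hf⟩, rfl⟩
    obtain ⟨d, hd⟩ := exists_Ex hp hH hG f hf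
    exact ⟨d, trivial, G, hd, rfl⟩

/-- The classes of order `p ^ (e + j)` with an element of order `p ^ e`. -/
def Lg (p e j : ℕ) : Set (Quotient (isIsomorphicSetoid GrpCat.{0})) :=
  cl '' {G | Nat.card G = p ^ (e + j) ∧ ∃ x : G, orderOf x = p ^ e}

theorem Lg_zero (hp : p.Prime) (e : ℕ) : (Lg p e 0).Subsingleton := by
  rintro _ ⟨A, ⟨a1, x, a2⟩, rfl⟩ _ ⟨B, ⟨b1, y, b2⟩, rfl⟩
  have : Finite A := Nat.finite_of_card_ne_zero (a1 ▸ (pow_pos hp.pos _).ne')
  have : Finite B := Nat.finite_of_card_ne_zero (b1 ▸ (pow_pos hp.pos _).ne')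
  have := isCyclic_of_orderOf_eq_card x (a2.trans a1.symm)
  have := isCyclic_of_orderOf_eq_card y (b2.trans b1.symm)
  exact cl_eq.2 ⟨mulEquivOfCyclicCardEq (a1.trans b1.symm)⟩

theorem Lg_out {e j : ℕ} {d : Quotient (isIsomorphicSetoid GrpCat.{0})} (h : d ∈ Lg p e j) :
    Nat.card d.out = p ^ (e + j) ∧ ∃ x : d.out, orderOf x = p ^ e := by
  obtain ⟨A, ⟨a1, x, a2⟩, h⟩ := h
  obtain ⟨φ⟩ := cl_eq.1 (h.trans d.out_eq.symm)
  exact ⟨(Nat.card_congr φ.toEquiv).symm.trans a1, φ x, (φ.orderOf_eq x).trans a2⟩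

theorem Lg_succ (hp : p.Prime) {e j : ℕ} : ∀ c ∈ Lg p e (j + 1), ∃ d ∈ Lg p e j, c ∈
    cl '' {G | Nat.card G = p ^ (e + j + 1) ∧ ∃ f : d.out →* G, Function.Injective f} := by
  rintro _ ⟨G, ⟨hG, x, hx⟩, rfl⟩
  have := Fact.mk hp
  have : Finite G := Nat.finite_of_card_ne_zero (hG ▸ (pow_pos hp.pos _).ne')
  obtain ⟨L, hL, h⟩ := Sylow.exists_subgroup_card_pow_prime_le p (n := e) (m := e + j)
    (hG ▸ pow_dvd_pow p (by omega)) (zpowers x) ((Nat.card_zpowers x).trans hx) (by omega)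
  obtain ⟨φ⟩ := cl_eq.1 (cl (GrpCat.of L)).out_eq
  refine ⟨cl (GrpCat.of L), ⟨GrpCat.of L, ⟨hL, ⟨x, h (mem_zpowers x)⟩, ?_⟩, rfl⟩, G, ⟨hG,
    L.subtype.comp φ.toMonoidHom, L.subtype_injective.comp φ.injective⟩, rfl⟩
  exact (orderOf_mk _ _).trans hx

theorem Lg_fin (hp : p.Prime) (e j : ℕ) : (Lg p e j).Finite := by
  induction j with
  | zero => exact (Lg_zero hp e).finite
  | succ j ih =>
    refine (ih.biUnion fun d hd => (ext_le hp (Lg_out hd).1).1).subset fun c hc => ?_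
    obtain ⟨d, hd, h⟩ := Lg_succ hp c hc
    exact Set.mem_biUnion hd h

theorem Lg_le (hp : p.Prime) (f j : ℕ) :
    ∃ F, 3 * F ≤ j ^ 3 + 9 * (f + 2 + j) * j ∧ (Lg p (f + 2) j).ncard ≤ p ^ F := by
  induction j with
  | zero =>
    have := Lg_zero hp (f + 2)
    exact ⟨0, by simp, (Set.ncard_le_one this.finite).2 fun a ha b hb => this ha hb⟩
  | succ j ih =>
    obtain ⟨F, h1, h2⟩ := ih
    refine ⟨F + (2 * (f + 2 + j) + (j + 1) * j + (f + 2 + j)), by nlinarith, ?_⟩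
    refine (cover (Lg_fin hp _ j) _ _ (fun d hd => ?_) _ (Lg_succ hp)).2.trans
      ((Nat.mul_le_mul_right _ h2).trans_eq (pow_add _ _ _).symm)
    obtain ⟨a1, x, a2⟩ := Lg_out hd
    exact ⟨(ext_le hp a1).1, (ext_le hp a1).2.trans ((Nat.mul_le_mul_right _
      (aut_le hp a2 a1)).trans_eq (pow_add _ _ _).symm)⟩

theorem all_fin (hp : p.Prime) (n : ℕ) : (cl '' {G | Nat.card G = p ^ n}).Finite :=
  (Lg_fin hp 0 n).subset (Set.image_mono fun G hG => ⟨by rwa [zero_add], 1, by simp⟩)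

/-- Pairs of indices. -/
abbrev Tri (r : ℕ) : Type := {q : Fin r × Fin r // q.1 < q.2}

theorem card_Tri (r : ℕ) : Fintype.card (Tri r) * 2 = r * (r - 1) := by
  rw [← Finset.sum_range_id_mul_two, ← Fin.sum_univ_eq_sum_range fun i => i]
  congr 1
  have e : Tri r ≃ Σ j : Fin r, Finset.Iio j :=
    ⟨fun q => ⟨q.1.2, q.1.1, Finset.mem_Iio.2 q.2⟩, fun q => ⟨(q.2.1, q.1), Finset.mem_Iio.1 q.2.2⟩,
      fun _ => rfl, fun _ => rfl⟩
  simp only [Fintype.card_congr e, Fintype.card_sigma, Fintype.card_coe, Fin.card_Iio]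

variable {r s : ℕ}

/-- The bilinear map with given coefficients. -/
def bl (b : Tri r → Fin s → ZMod p) (v w : Fin r → ZMod p) : Fin s → ZMod p :=
  ∑ t, (v t.1.1 * w t.1.2) • b t

/-- The groups of Higman. -/
@[ext] structure Hig (b : Tri r → Fin s → ZMod p) where
  v : Fin r → ZMod p
  w : Fin s → ZMod p

variable {b b' : Tri r → Fin s → ZMod p}

theorem bl_add (u v w : Fin r → ZMod p) :
    bl b u v + bl b (u + v) w = bl b v w + bl b u (v + w) := by
  simp only [bl, ← Finset.sum_add_distrib, ← add_smul, Pi.add_apply]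
  exact Finset.sum_congr rfl fun t _ => by congr 1; ring

@[simp] theorem bl_zl (v : Fin r → ZMod p) : bl b 0 v = 0 := by simp [bl]

@[simp] theorem bl_zr (v : Fin r → ZMod p) : bl b v 0 = 0 := by simp [bl]

instance : Mul (Hig b) := ⟨fun x y => ⟨x.v + y.v, x.w + y.w + bl b x.v y.v⟩⟩

instance : One (Hig b) := ⟨⟨0, 0⟩⟩

instance : Inv (Hig b) := ⟨fun x => ⟨-x.v, -x.w - bl b (-x.v) x.v⟩⟩

theorem mul_def (x y : Hig b) : x * y = ⟨x.v + y.v, x.w + y.w + bl b x.v y.v⟩ := rfl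

instance : Group (Hig b) := Group.ofLeftAxioms
  (fun x y z => Hig.ext (add_assoc _ _ _) (by
    simp only [mul_def]
    linear_combination bl_add (b := b) x.v y.v z.v))
  (fun x => Hig.ext (zero_add _) (by
    change 0 + x.w + bl b 0 x.v = x.w
    simp))
  fun x => Hig.ext (neg_add_cancel _) (by
    change -x.w - bl b (-x.v) x.v + x.w + bl b (-x.v) x.v = 0
    ring)

theorem card_Hig (b : Tri r → Fin s → ZMod p) : Nat.card (Hig b) = p ^ (r + s) := by
  have e : Hig b ≃ (Fin r → ZMod p) × (Fin s → ZMod p) :=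
    ⟨fun x => (x.v, x.w), fun x => ⟨x.1, x.2⟩, fun _ => rfl, fun _ => rfl⟩
  simp [Nat.card_congr e, pow_add, Nat.card_fun]

theorem bl_single (t : Tri r) : bl b (Pi.single t.1.1 1) (Pi.single t.1.2 1) = b t ∧
    bl b (Pi.single t.1.2 1) (Pi.single t.1.1 1) = 0 := by
  refine ⟨(Finset.sum_eq_single t (fun u _ h => ?_) (by simp)).trans (by simp),
    Finset.sum_eq_zero fun u _ => ?_⟩
  · by_cases h1 : u.1.1 = t.1.1
    · rw [Pi.single_eq_of_ne (i' := u.1.2) fun h2 => h (Subtype.ext (Prod.ext h1 h2))]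
      simp
    · simp [h1]
  · by_cases h1 : u.1.1 = t.1.2
    · rw [Pi.single_eq_of_ne (i' := u.1.2) fun h2 =>
        lt_asymm t.2 (h1.symm.trans_lt (u.2.trans_eq h2))]
      simp
    · simp [h1]

theorem Hig_eq (hp : p.Prime) (φ : Hig b ≃* Hig b')
    (h1 : ∀ i, φ ⟨Pi.single i 1, 0⟩ = ⟨Pi.single i 1, 0⟩)
    (h2 : ∀ k, φ ⟨0, Pi.single k 1⟩ = ⟨0, Pi.single k 1⟩) : b = b' := by
  have := Fact.mk hp
  have h3 : ∀ w, φ ⟨0, w⟩ = ⟨0, w⟩ := by
    let S : AddSubmonoid (Fin s → ZMod p) :=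
      { carrier := {w | φ ⟨0, w⟩ = ⟨0, w⟩}
        zero_mem' := map_one φ
        add_mem' := fun {x y} hx hy => by
          have := map_mul φ ⟨0, x⟩ ⟨0, y⟩
          rw [hx, hy] at this
          simpa [mul_def] using this }
    intro w
    have : w = ∑ k, (w k).val • Pi.single k (1 : ZMod p) := by
      funext k
      simp [Finset.sum_apply, Pi.single_apply, -ZMod.natCast_val, ZMod.natCast_zmod_val]
    exact this ▸ S.sum_mem fun k _ => S.nsmul_mem (h2 k) _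
  have h4 : ∀ (c : Tri r → Fin s → ZMod p) (t : Tri r),
      (⟨Pi.single t.1.1 1, 0⟩ * ⟨Pi.single t.1.2 1, 0⟩ : Hig c) =
        ⟨0, c t⟩ * (⟨Pi.single t.1.2 1, 0⟩ * ⟨Pi.single t.1.1 1, 0⟩) := fun c t => by
    simp [mul_def, bl_single, add_comm]
  funext t
  have h5 := congrArg φ (h4 b t)
  simp only [map_mul, h1, h3, h4 b' t] at h5
  exact (congrArg Hig.w (mul_right_cancel h5)).symm

/-- The lower bound of Higman. -/
theorem hig_le (hp : p.Prime) (r s : ℕ) : p ^ (s * Fintype.card (Tri r)) ≤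
    (cl '' {G | Nat.card G = p ^ (r + s)}).ncard * p ^ ((r + s) * (r + s)) := by
  have := Fact.mk hp
  have := (cover (all_fin hp (r + s))
    (fun c => {b : Tri r → Fin s → ZMod p | cl (GrpCat.of (Hig b)) = c}) (p ^ ((r + s) * (r + s)))
    (fun c _ => ⟨Set.toFinite _, ?_⟩) Set.univ fun b _ => ⟨_, ⟨_, card_Hig b, rfl⟩, rfl⟩).2
  · rw [Set.ncard_univ] at this
    simpa [pow_mul] using this
  rcases Set.eq_empty_or_nonempty
    {b : Tri r → Fin s → ZMod p | cl (GrpCat.of (Hig b)) = c} with e | ⟨a, ha⟩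
  · simp [e]
  have hf : Finite (Hig a) := Nat.finite_of_card_ne_zero (card_Hig a ▸ (pow_pos hp.pos _).ne')
  let φ (b : {b : Tri r → Fin s → ZMod p | cl (GrpCat.of (Hig b)) = c}) : Hig b.1 ≃* Hig a :=
    (cl_eq.1 (b.2.trans ha.symm)).some
  rw [← Nat.card_coe_set_eq]
  refine (Nat.card_le_card_of_injective (β := (Fin r → Hig a) × (Fin s → Hig a))
    (fun b => (fun i => φ b ⟨Pi.single i 1, 0⟩, fun k => φ b ⟨0, Pi.single k 1⟩))
    fun b b' e => Subtype.ext (Hig_eq hp ((φ b).trans (φ b').symm) (fun i => ?_) fun k => ?_)).trans ?_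
  · exact (φ b').symm_apply_eq.2 (congrFun (congrArg Prod.fst e) i)
  · exact (φ b').symm_apply_eq.2 (congrFun (congrArg Prod.snd e) k)
  · simp [Nat.card_fun, card_Hig, ← pow_mul, ← pow_add, mul_add]

end Pool.Agent.Lib.MP_2d211a_co.H60
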