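import Pool.Agent.Lib.MP_2d211a_co.Defs

/-! Group ring tools for semiregular relative difference sets with a central forbidden subgroup
of prime order. -/

namespace Pool.Agent.Lib.MP_2d211a_co.H62

open MonoidAlgebra Finset

set_option linter.unusedSectionVars false

variable {E : Type*} [Group E]

/-- A group element in the integral group ring. -/
noncomputable def s (g : E) : MonoidAlgebra ℤ E := single g 1

theorem s_mul (a b : E) : s a * s b = s (a * b) := by simp [s, single_mul_single]

theorem s_one : s (1 : E) = 1 := rfl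

/-- The anti-involution induced by inversion. -/
noncomputable def st : MonoidAlgebra ℤ E →+ MonoidAlgebra ℤ E where
  toFun := mapDomain Inv.inv
  map_zero' := mapDomain_zero _
  map_add' := mapDomain_add _

theorem st_single (g : E) (r : ℤ) : st (single g r) = single g⁻¹ r := mapDomain_single

theorem st_s (g : E) : st (s g) = s g⁻¹ := st_single g 1

theorem st_mul (X Y : MonoidAlgebra ℤ E) : st (X * Y) = st Y * st X := by
  induction X using induction_linear with
  | zero => simp
  | add a b ha hb => rw [add_mul, map_add, map_add, ha, hb, mul_add]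
  | single g r =>
    induction Y using induction_linear with
    | zero => simp
    | add a b ha hb => rw [mul_add, map_add, map_add, ha, hb, add_mul]
    | single h t => simp [single_mul_single, st_single, mul_comm]

theorem st_coeff (X : MonoidAlgebra ℤ E) (g : E) : (st X).coeff g = X.coeff g⁻¹ := by
  classical
  induction X using induction_linear with
  | zero => simp
  | add a b ha hb => simp [ha, hb]
  | single h r =>
    rw [st_single, coeff_single, Finsupp.single_apply, coeff_single, Finsupp.single_apply]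
    simp only [inv_eq_iff_eq_inv]

/-- Non-negative coefficients. -/
def Nn (X : MonoidAlgebra ℤ E) : Prop := ∀ g, 0 ≤ X.coeff g

theorem Nn.s (g : E) : Nn (s g) := fun h => by
  classical
  rw [H62.s, coeff_single, Finsupp.single_apply]
  split_ifs <;> simp

theorem Nn.sum {ι : Type*} (t : Finset ι) {f : ι → MonoidAlgebra ℤ E} (h : ∀ i, Nn (f i)) :
    Nn (∑ i ∈ t, f i) := fun g => by
  rw [coeff_sum, Finsupp.finsetSum_apply]
  exact sum_nonneg fun i _ => h i g

theorem Nn.mul {X Y : MonoidAlgebra ℤ E} (hX : Nn X) (hY : Nn Y) : Nn (X * Y) := fun g => by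
  rw [coeff_mul_apply_left]
  exact sum_nonneg fun h _ => mul_nonneg (hX h) (hY _)

theorem Nn.map {G : Type*} [Group G] (f : G →* E) {X : MonoidAlgebra ℤ G} (hX : Nn X) :
    Nn (mapDomainRingHom ℤ f X) := fun g => by
  classical
  change 0 ≤ (Finsupp.mapDomain f X.coeff) g
  rw [Finsupp.mapDomain, Finsupp.sum_apply]
  refine sum_nonneg fun h _ => ?_
  dsimp only
  rw [Finsupp.single_apply]
  split_ifs
  · exact hX h
  · exact le_rfl

theorem map_s {G : Type*} [Group G] (f : G →* E) (g : G) :
    mapDomainRingHom ℤ f (s g) = s (f g) := by simp [s]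

theorem map_st {G : Type*} [Group G] (f : G →* E) (X : MonoidAlgebra ℤ G) :
    mapDomainRingHom ℤ f (st X) = st (mapDomainRingHom ℤ f X) := by
  induction X using induction_linear with
  | zero => simp
  | add a b ha hb => simp only [map_add, ha, hb]
  | single h r => simp [st_single]

theorem comm_map {G : Type*} [Group G] (f : G →* E) {w : E} (h : ∀ g, f g * w = w * f g)
    (X : MonoidAlgebra ℤ G) : Commute (mapDomainRingHom ℤ f X) (s w) := by
  induction X using induction_linear with
  | zero => simp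
  | add a b ha hb => rw [map_add]; exact ha.add_left hb
  | single g r => simp [Commute, SemiconjBy, s, single_mul_single, h]

theorem comm_s {z : E} (h : ∀ g, g * z = z * g) (X : MonoidAlgebra ℤ E) : Commute X (s z) := by
  simpa using comm_map (MonoidHom.id E) h X

open Classical in
/-- The sum of the elements of a subgroup. -/
noncomputable def hat [Finite E] (H : Subgroup E) : MonoidAlgebra ℤ E :=
  .ofCoeff (Finsupp.equivFunOnFinite.symm fun g => if g ∈ H then 1 else 0)

variable [Finite E]

open Classical in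
theorem hat_coeff (H : Subgroup E) (g : E) : (hat H).coeff g = if g ∈ H then 1 else 0 := rfl

theorem Nn.hat (H : Subgroup E) : Nn (hat H) := fun g => by
  rw [hat_coeff]; split_ifs <;> simp

theorem st_hat (H : Subgroup E) : st (hat H) = hat H := by
  classical
  ext g
  rw [st_coeff, hat_coeff, hat_coeff]
  exact if_congr H.inv_mem_iff rfl rfl

theorem hat_bot : hat (⊥ : Subgroup E) = 1 := by
  classical
  ext g
  rw [hat_coeff, one_def, coeff_single, Finsupp.single_apply]
  simp [eq_comm]

theorem s_mul_hat {H : Subgroup E} {g : E} (h : g ∈ H) : s g * hat H = hat H := by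
  classical
  ext y
  simp only [s, coeff_single_mul_apply, hat_coeff, one_mul]
  exact if_congr (H.mul_mem_cancel_left (H.inv_mem h)) rfl rfl

theorem hat_mul_s {H : Subgroup E} {g : E} (h : g ∈ H) : hat H * s g = hat H := by
  classical
  ext y
  simp only [s, coeff_mul_single_apply, hat_coeff, mul_one]
  exact if_congr (H.mul_mem_cancel_right (H.inv_mem h)) rfl rfl

theorem hat_comm (H : Subgroup E) [hH : H.Normal] (g : E) : hat H * s g = s g * hat H := by
  classical
  ext y
  simp only [s, coeff_mul_single_apply, coeff_single_mul_apply, hat_coeff, mul_one, one_mul]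
  exact if_congr ⟨hH.mem_comm, hH.mem_comm⟩ rfl rfl

theorem hat_comm' (H : Subgroup E) [H.Normal] (X : MonoidAlgebra ℤ E) : hat H * X = X * hat H := by
  induction X using induction_linear with
  | zero => simp
  | add a b ha hb => rw [mul_add, add_mul, ha, hb]
  | single y r =>
    have : single y r = r • s y := by simp [s]
    rw [this, mul_smul_comm, smul_mul_assoc, hat_comm]

theorem map_hat (K : Subgroup E) (H : Subgroup E) (h : H ≤ K) :
    mapDomainRingHom ℤ K.subtype (hat (H.subgroupOf K)) = hat H := by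
  classical
  ext g
  change (Finsupp.mapDomain K.subtype (hat (H.subgroupOf K)).coeff) g = _
  by_cases hg : g ∈ K
  · have := Finsupp.mapDomain_apply K.subtype_injective (hat (H.subgroupOf K)).coeff ⟨g, hg⟩
    rw [Subgroup.subtype_apply] at this
    rw [this, hat_coeff, hat_coeff]
    simp [Subgroup.mem_subgroupOf]
  · rw [Finsupp.mapDomain_of_notMem_range _ _ (by simpa using hg), hat_coeff, if_neg fun h' => hg (h h')]

/-- A family that meets every left coset of `H` in `L` exactly once. -/
theorem sum_s_hat {ι : Type*} [Fintype ι] (f : ι → E) {H L : Subgroup E} (hHL : H ≤ L)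
    (hf : ∀ i, f i ∈ L) (inj : ∀ i j, (f i)⁻¹ * f j ∈ H → i = j)
    (sur : ∀ y ∈ L, ∃ i, (f i)⁻¹ * y ∈ H) : ∑ i, s (f i) * hat H = hat L := by
  classical
  ext y
  rw [coeff_sum, Finsupp.finsetSum_apply]
  simp only [s, coeff_single_mul_apply, one_mul, hat_coeff]
  split_ifs with hy
  · obtain ⟨i, hi⟩ := sur y hy
    rw [sum_eq_single i, if_pos hi]
    · intro j _ hj
      refine if_neg fun h => hj (inj j i ?_)
      simpa using H.mul_mem h (H.inv_mem hi)
    · simp
  · refine sum_eq_zero fun i _ => if_neg fun h => hy ?_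
    simpa using L.mul_mem (hf i) (hHL h)

theorem sur_of_card {ι : Type*} [Fintype ι] (f : ι → E) {H L : Subgroup E} (hHL : H ≤ L)
    (hf : ∀ i, f i ∈ L) (inj : ∀ i j, (f i)⁻¹ * f j ∈ H → i = j)
    (hc : Nat.card L = Fintype.card ι * Nat.card H) : ∀ y ∈ L, ∃ i, (f i)⁻¹ * y ∈ H := by
  let F : ι × H → L := fun q => ⟨f q.1 * q.2, L.mul_mem (hf _) (hHL q.2.2)⟩
  have hF : Function.Injective F := by
    rintro ⟨i, a⟩ ⟨j, b⟩ h
    have h1 : f i * a = f j * b := congrArg Subtype.val h
    have h2 : (f i)⁻¹ * f j = a * (b : E)⁻¹ := by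
      rw [inv_mul_eq_iff_eq_mul, ← mul_assoc, h1, mul_inv_cancel_right]
    obtain rfl := inj i j (h2 ▸ H.mul_mem a.2 (H.inv_mem b.2))
    exact Prod.ext rfl (Subtype.ext (mul_left_cancel h1))
  have hB := hF.bijective_of_nat_card_le (by simp [hc])
  intro y hy
  obtain ⟨⟨i, a⟩, h⟩ := hB.2 ⟨y, hy⟩
  have h1 : f i * a = y := congrArg Subtype.val h
  exact ⟨i, by rw [← h1, inv_mul_cancel_left]; exact a.2⟩

/-- `X` is a transversal of `⟨z⟩` with `X X* ≡ m` modulo the sum of `⟨z⟩`. -/
structure Good (z : E) (m : ℤ) (X : MonoidAlgebra ℤ E) : Prop where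
  nn : Nn X
  tr : X * hat (Subgroup.zpowers z) = hat ⊤
  un : (1 - s z) * (X * st X) = (1 - s z) * m

theorem coeff_mul_fin [Fintype E] (X Y : MonoidAlgebra ℤ E) (g : E) :
    (X * Y).coeff g = ∑ h, X.coeff h * Y.coeff (h⁻¹ * g) := by
  rw [coeff_mul_apply_left, Finsupp.sum_fintype]
  simp

theorem Good.rds {z : E} {m : ℤ} {X : MonoidAlgebra ℤ E} (h : Good z m X)
    (hz : ∀ g, g * z = z * g) (hz1 : z ≠ 1) :
    ∃ R : Set E, R.ncard * Nat.card (Subgroup.zpowers z) = Nat.card E ∧ (R.ncard : ℤ) = m ∧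
      (∀ g : E, g ∉ Subgroup.zpowers z →
        {q : E × E | q.1 ∈ R ∧ q.2 ∈ R ∧ q.1 * q.2⁻¹ = g}.ncard *
          Nat.card (Subgroup.zpowers z) = R.ncard) ∧
      (∀ g : E, g ∈ Subgroup.zpowers z → g ≠ 1 → ∀ a ∈ R, ∀ b ∈ R, a * b⁻¹ ≠ g) := by
  classical
  have := Fintype.ofFinite E
  set N := Subgroup.zpowers z with hN
  have hcen : ∀ n ∈ N, ∀ g, g * n = n * g := by
    rintro _ ⟨k, rfl⟩ g
    exact (Commute.zpow_right (hz g) k)
  have h1 : ∀ g, ∑ a, X.coeff a * (if a⁻¹ * g ∈ N then 1 else 0) = 1 := fun g => by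
    have := congrArg (fun Y => Y.coeff g) h.tr
    simpa only [coeff_mul_fin, hat_coeff, Subgroup.mem_top, if_true] using this
  have h2 : ∀ a b, a ≠ b → a⁻¹ * b ∈ N → X.coeff a + X.coeff b ≤ 1 := fun a b hab hn => by
    have := sum_le_sum_of_subset_of_nonneg (f := fun c => X.coeff c *
      (if c⁻¹ * b ∈ N then 1 else 0)) (subset_univ {a, b})
      (fun c _ _ => mul_nonneg (h.nn c) (by split_ifs <;> simp))
    rw [h1, sum_pair hab] at this
    simpa [hn] using this
  have h3 : ∀ a, X.coeff a = if X.coeff a = 1 then 1 else 0 := fun a => by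
    have e1 := h2 a (a * z) (by simpa using hz1) (by simp [hN])
    have e2 := h.nn a
    have e3 := h.nn (a * z)
    split_ifs <;> omega
  set R : Finset E := univ.filter fun a => X.coeff a = 1 with hR
  have hX : ∀ a, X.coeff a = if a ∈ R then 1 else 0 := fun a => by
    rw [h3 a]; simp [hR]
  have hsum : ∀ g, (X * hat ⊤).coeff g = (R.card : ℤ) := fun g => by
    simp [coeff_mul_fin, hat_coeff, hX]
  have hP : ∀ g, (X * st X).coeff g =
      ({q : E × E | q.1 ∈ (R : Set E) ∧ q.2 ∈ (R : Set E) ∧ q.1 * q.2⁻¹ = g}.ncard : ℤ) := by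
    intro g
    have : {q : E × E | q.1 ∈ (R : Set E) ∧ q.2 ∈ (R : Set E) ∧ q.1 * q.2⁻¹ = g} =
        (fun a => (a, g⁻¹ * a)) '' (R.filter fun a => g⁻¹ * a ∈ R : Finset E) := by
      ext ⟨a, b⟩
      simp only [Set.mem_ofPred_eq, mem_coe, Set.mem_image, mem_filter, Prod.mk.injEq]
      constructor
      · rintro ⟨ha, hb, rfl⟩
        exact ⟨a, ⟨ha, by simpa using hb⟩, rfl, by simp⟩
      · rintro ⟨c, ⟨hc, hc'⟩, rfl, rfl⟩
        exact ⟨hc, hc', by simp⟩
    rw [this, Set.ncard_image_of_injective _ (fun a b h => (Prod.mk.inj h).1), Set.ncard_coe_finset,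
      coeff_mul_fin, card_filter, Nat.cast_sum, ← sum_subset (subset_univ R)]
    · refine sum_congr rfl fun a ha => ?_
      rw [st_coeff, hX a, hX, if_pos ha]
      simp
    · intro a _ ha
      rw [hX a, if_neg ha, zero_mul]
  have hin : ∀ g : E, g ∈ N → g ≠ 1 → ∀ a ∈ (R : Set E), ∀ b ∈ (R : Set E), a * b⁻¹ ≠ g := by
    rintro g hg hg1 a ha b hb rfl
    have e := h2 b a (fun e => hg1 (by simp [e])) (by
      have : b⁻¹ * a = a * b⁻¹ := by
        rw [inv_mul_eq_iff_eq_mul, hcen _ hg b, inv_mul_cancel_right]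
      rwa [this])
    rw [hX a, hX b, if_pos (mem_coe.1 ha), if_pos (mem_coe.1 hb)] at e
    omega
  have hstep : ∀ g, (X * st X - m).coeff (z⁻¹ * g) = (X * st X - m).coeff g := fun g => by
    have e : (1 - s z) * (X * st X - m) = 0 := by rw [mul_sub, h.un, sub_self]
    have := congrArg (fun Y => Y.coeff g) e
    simp only [sub_mul, one_mul, s, coeff_sub, Finsupp.sub_apply, coeff_single_mul_apply,
      coeff_zero, Finsupp.zero_apply] at this ⊢
    omega
  have hconst : ∀ n ∈ N, ∀ g, (X * st X - m).coeff (n * g) = (X * st X - m).coeff g := by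
    intro n hn
    rw [hN, ← Subgroup.zpowers_inv, ← mem_powers_iff_mem_zpowers] at hn
    obtain ⟨k, rfl⟩ := hn
    induction k with
    | zero => simp
    | succ k ih => intro g; simp only [pow_succ', mul_assoc] at ih ⊢; rw [hstep, ih]
  have hm : ∀ g : E, (m : MonoidAlgebra ℤ E).coeff g = if g = 1 then m else 0 := fun g => by
    rw [intCast_def, coeff_single, Finsupp.single_apply]; simp [eq_comm]
  have hcard : R.card * Nat.card N = Nat.card E := by
    have e : ∑ g, ∑ a, X.coeff a * (if a⁻¹ * g ∈ N then 1 else 0) = Fintype.card E := by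
      simp only [h1]; simp
    rw [sum_comm] at e
    have e2 : ∀ a : E, ∑ g, (if a⁻¹ * g ∈ N then (1 : ℤ) else 0) = Nat.card N := fun a => by
      rw [Fintype.sum_equiv (Equiv.mulLeft a⁻¹) (fun g => if a⁻¹ * g ∈ N then (1 : ℤ) else 0)
        (fun g => if g ∈ N then (1 : ℤ) else 0) fun _ => rfl]
      simp [Fintype.card_subtype]
    simp only [← mul_sum, e2, ← sum_mul, hX] at e
    rw [Nat.card_eq_fintype_card (α := E)]
    simp only [sum_boole, filter_mem_eq_inter, univ_inter] at e
    exact_mod_cast e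
  refine ⟨R, by rw [Set.ncard_coe_finset, hcard], ?_, fun g hg => ?_, hin⟩
  · have e := hconst z (Subgroup.mem_zpowers z) 1
    simp only [coeff_sub, Finsupp.sub_apply, hm, mul_one, if_neg hz1, if_true, hP] at e
    have e0 : {q : E × E | q.1 ∈ (R : Set E) ∧ q.2 ∈ (R : Set E) ∧ q.1 * q.2⁻¹ = z} = ∅ :=
      Set.eq_empty_of_forall_notMem fun q hq =>
        hin z (Subgroup.mem_zpowers z) hz1 _ hq.1 _ hq.2.1 hq.2.2
    have e1 : {q : E × E | q.1 ∈ (R : Set E) ∧ q.2 ∈ (R : Set E) ∧ q.1 * q.2⁻¹ = 1} =
        (fun a => (a, a)) '' (R : Set E) := by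
      ext ⟨a, b⟩
      simp only [Set.mem_ofPred_eq, Set.mem_image, Prod.mk.injEq, mul_inv_eq_one]
      exact ⟨fun ⟨ha, _, e⟩ => ⟨a, ha, rfl, e⟩, fun ⟨c, hc, e1, e2⟩ => ⟨e1 ▸ hc, e2 ▸ hc,
        e1.symm.trans e2⟩⟩
    rw [e0, e1, Set.ncard_image_of_injective _ (fun a b h => (Prod.mk.inj h).1)] at e
    simp only [Set.ncard_empty, Nat.cast_zero] at e
    omega
  · have e : hat N * (X * st X) = X * hat ⊤ := by
      have : N.Normal := ⟨fun n hn g => by rwa [hcen n hn g, mul_inv_cancel_right]⟩
      rw [← mul_assoc, hat_comm', mul_assoc, ← st_hat N, ← st_mul, h.tr, st_hat]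
    have e2 := congrArg (fun Y => Y.coeff g) e
    simp only [hsum] at e2
    rw [coeff_mul_fin] at e2
    have e3 : ∀ n, (hat N).coeff n * (X * st X).coeff (n⁻¹ * g) =
        (if n ∈ N then 1 else 0) * (X * st X).coeff g := fun n => by
      rw [hat_coeff]
      split_ifs with hn
      · have := hconst n⁻¹ (N.inv_mem hn) g
        have hg1 : g ≠ 1 := fun e => hg (e ▸ N.one_mem)
        have hg2 : n⁻¹ * g ≠ 1 := fun e => hg (inv_mul_eq_one.1 e ▸ hn)
        simp only [coeff_sub, Finsupp.sub_apply, hm, if_neg hg1, if_neg hg2] at this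
        omega
      · simp
    simp only [e3] at e2
    simp only [← sum_mul, sum_boole, hP] at e2
    rw [Set.ncard_coe_finset, Nat.card_eq_fintype_card, Fintype.card_subtype, mul_comm]
    exact_mod_cast e2

end Pool.Agent.Lib.MP_2d211a_co.H62
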