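import Pool.Agent.Lib.MP_2d211a_co.H62Prod

/-! For odd `p`, a non-central element of order `p` can be found in the second centre. -/

namespace Pool.Agent.Lib.MP_2d211a_co.H62

open Subgroup
open scoped commutatorElement

set_option linter.unusedSectionVars false

variable {p : ℕ} [hp : Fact p.Prime] {E : Type*} [Group E] [Finite E]

theorem mul_pow_of_cen (hp2 : 2 < p) {a b : E} (h1 : ⁅a, b⁆ ∈ center E) (h2 : ⁅a, b⁆ ^ p = 1) :
    (a * b) ^ p = a ^ p * b ^ p := by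
  have hc := mem_center_iff.1 (inv_mem h1)
  have e0 : b * a = a * b * ⁅a, b⁆⁻¹ := by
    rw [hc, commutatorElement_def]; group
  have e1 : ∀ n : ℕ, b ^ n * a = a * b ^ n * ⁅a, b⁆⁻¹ ^ n := fun n => by
    induction n with
    | zero => simp
    | succ n ih =>
      rw [pow_succ', mul_assoc, ih, ← mul_assoc, ← mul_assoc, e0, mul_assoc (a * b), ← hc,
        pow_succ' ⁅a, b⁆⁻¹]
      simp only [mul_assoc]
  have e2 : ∀ n : ℕ, (a * b) ^ n = a ^ n * b ^ n * ⁅a, b⁆⁻¹ ^ n.choose 2 := fun n => by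
    induction n with
    | zero => simp
    | succ n ih =>
      have hc' : ∀ (k : ℕ) (g : E), ⁅a, b⁆⁻¹ ^ k * g = g * ⁅a, b⁆⁻¹ ^ k := fun k g =>
        (Commute.pow_right (hc g) k).symm
      rw [pow_succ, ih, Nat.choose_succ_succ' n 1, Nat.choose_one_right, pow_add ⁅a, b⁆⁻¹, mul_assoc, hc',
        ← mul_assoc, ← mul_assoc, mul_assoc (a ^ n), e1, pow_succ a, pow_succ b]
      simp only [mul_assoc]
      rw [← mul_assoc (⁅a, b⁆⁻¹ ^ n) b, hc', mul_assoc]
  obtain ⟨k, hk⟩ := hp.out.dvd_choose_self two_ne_zero hp2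
  rw [e2, hk, pow_mul, inv_pow, h2, inv_one, one_pow, mul_one]

theorem second_of_normal (hE : IsPGroup p E) (X : Subgroup E) [X.Normal]
    (hX : ∀ a ∈ X, a ^ p = 1) (hZ : ¬X ≤ center E) :
    ∃ w : E, w ^ p = 1 ∧ w ∉ center E ∧ ∀ g : E, ⁅g, w⁆ ∈ center E := by
  obtain ⟨_, ⟨w, hw, rfl⟩, h1, h2⟩ := normal_cen (hE.to_quotient (center E))
    (X.map (QuotientGroup.mk' (center E))) (hV := fun h => hZ (by
      rwa [Subgroup.map_eq_bot_iff, QuotientGroup.ker_mk'] at h))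
  refine ⟨w, hX w hw, fun h => h1 ((QuotientGroup.eq_one_iff _).2 h), fun g => ?_⟩
  rw [← QuotientGroup.eq_one_iff, ← QuotientGroup.mk'_apply, map_commutatorElement,
    commutatorElement_eq_one_iff_mul_comm]
  exact h2 _

theorem exists_selfcent (hE : IsPGroup p E) : ∃ B : Subgroup E, B.Normal ∧
    (∀ a ∈ B, ∀ b ∈ B, a * b = b * a) ∧ ∀ g, (∀ b ∈ B, b * g = g * b) → g ∈ B := by
  obtain ⟨B, ⟨h1, h2⟩, hm⟩ := Set.Finite.exists_maximal (s := {B : Subgroup E | B.Normal ∧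
    ∀ a ∈ B, ∀ b ∈ B, a * b = b * a}) (Set.toFinite _) ⟨⊥, inferInstance, by simp⟩
  refine ⟨B, h1, h2, fun g hg => by_contra fun hgB => ?_⟩
  obtain ⟨_, ⟨c, hc, rfl⟩, h3, h4⟩ := normal_cen (hE.to_quotient B)
    ((centralizer (B : Set E)).map (QuotientGroup.mk' B)) (hV := fun h => hgB (by
      rw [Subgroup.map_eq_bot_iff, QuotientGroup.ker_mk'] at h
      exact h hg))
  have hn : (zpowers (QuotientGroup.mk' B c)).Normal := ⟨by
    rintro _ ⟨k, rfl⟩ g
    exact ⟨k, by rw [(Commute.zpow_right (h4 g) k).eq, mul_inv_cancel_right]⟩⟩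
  have key : ∀ a ∈ (zpowers (QuotientGroup.mk' B c)).comap (QuotientGroup.mk' B),
      ∃ (k : ℤ) (b : E), b ∈ B ∧ a = c ^ k * b := by
    rintro a ⟨k, hk⟩
    exact ⟨k, _, QuotientGroup.eq.1 (show ((c ^ k : E) : E ⧸ B) = a from hk), by group⟩
  have := hm (y := (zpowers (QuotientGroup.mk' B c)).comap (QuotientGroup.mk' B))
    ⟨hn.comap _, fun a ha b hb => by
      obtain ⟨k, a', ha', rfl⟩ := key a ha
      obtain ⟨l, b', hb', rfl⟩ := key b hb
      exact (((Commute.refl c).zpow_zpow k l).mul_right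
        (Commute.zpow_left (hc b' hb').symm k)).mul_left
        ((Commute.zpow_right (hc a' ha') l).mul_right (h2 a' ha' b' hb'))⟩
    fun b hb => ⟨0, (zpow_zero _).trans ((QuotientGroup.eq_one_iff _).2 hb).symm⟩
  exact h3 ((QuotientGroup.eq_one_iff _).2 (this (mem_zpowers _)))

theorem exists_second (hp2 : 2 < p) (hE : IsPGroup p E) {x : E} (hx : x ^ p = 1)
    (hZ : x ∉ center E) : ∃ w : E, w ^ p = 1 ∧ w ∉ center E ∧ ∀ g : E, ⁅g, w⁆ ∈ center E := by
  obtain ⟨B, hB, h2, h3⟩ := exists_selfcent hE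
  by_cases hA : ∀ b ∈ B, b ^ p = 1 → b ∈ center E
  swap
  · let X : Subgroup E :=
      { carrier := {b | b ∈ B ∧ b ^ p = 1}
        one_mem' := ⟨B.one_mem, one_pow p⟩
        mul_mem' := fun {a b} ha hb => ⟨B.mul_mem ha.1 hb.1, by
          rw [Commute.mul_pow (h2 a ha.1 b hb.1), ha.2, hb.2, one_mul]⟩
        inv_mem' := fun {a} ha => ⟨B.inv_mem ha.1, by rw [inv_pow, ha.2, inv_one]⟩ }
    have : X.Normal := ⟨fun a ha g => ⟨hB.conj_mem a ha.1 g, by
      rw [_root_.conj_pow, ha.2, mul_one, mul_inv_cancel]⟩⟩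
    exact second_of_normal hE X (fun a ha => ha.2) fun h => hA fun b h1 h2 => h ⟨h1, h2⟩
  have m1 : ∀ y b, b ∈ B → ⁅y, b⁆ ∈ B := fun y b hb =>
    B.mul_mem (hB.conj_mem b hb y) (B.inv_mem hb)
  have m2 : ∀ y c : E, y ^ p = 1 → (y * c) ^ p = 1 → ⁅y, c⁆ ∈ B → ⁅y, c⁆ ^ p = 1 → c ^ p = 1 :=
    fun y c a1 a2 a3 a4 => by
      rwa [mul_pow_of_cen hp2 (hA _ a3 a4) a4, a1, one_mul] at a2
  have s2 : ∀ (k : ℕ) (y : E), y ^ p = 1 → ∀ b ∈ B, b ^ p ^ k = 1 → ⁅y, b⁆ ^ p = 1 := by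
    intro k
    induction k with
    | zero => intro y _ b _ h; rw [pow_zero, pow_one] at h; simp [h]
    | succ k ih =>
      intro y hy b hb h
      have c1 : ⁅y, b⁆ ^ p ^ k = 1 := by
        have e := mem_center_iff.1 (hA _ (B.pow_mem hb (p ^ k)) (by rwa [← pow_mul, ← pow_succ])) y
        rw [commutatorElement_def, Commute.mul_pow (h2 _ (hB.conj_mem b hb y) _ (B.inv_mem hb)),
          _root_.conj_pow, e, mul_inv_cancel_right, inv_pow, mul_inv_cancel]
      have hy' : y⁻¹ ^ p = 1 := by rw [inv_pow, hy, inv_one]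
      refine m2 y⁻¹ _ hy' ?_ (m1 _ _ (m1 y b hb)) (ih _ hy' _ (m1 y b hb) c1)
      rw [show y⁻¹ * ⁅y, b⁆ = b * y⁻¹ * b⁻¹ by rw [commutatorElement_def]; group, _root_.conj_pow,
        hy', mul_one, mul_inv_cancel]
  have s2' : ∀ y : E, y ^ p = 1 → ∀ b ∈ B, ⁅y, b⁆ ^ p = 1 := fun y hy b hb =>
    (hE b).elim fun k hk => s2 k y hy b hb hk
  let X : Subgroup E :=
    { carrier := {a | a ^ p = 1}
      one_mem' := one_pow p
      inv_mem' := fun {a} ha => by rw [Set.mem_ofPred_eq, inv_pow, ha, inv_one]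
      mul_mem' := fun {a b} ha hb => by
        have c1 : ⁅a⁻¹, b⁻¹⁆ ∈ B := h3 _ fun c hc => by
          have e1 := mem_center_iff.1 (hA _ (m1 a c hc) (s2' a ha c hc))
          have e2 := mem_center_iff.1 (hA _ (m1 b c hc) (s2' b hb c hc))
          have f1 : a * c = ⁅a, c⁆ * c * a := by rw [commutatorElement_def]; group
          have f2 : b * c = ⁅b, c⁆ * c * b := by rw [commutatorElement_def]; group
          have g1 : a * b * c = ⁅a, c⁆ * ⁅b, c⁆ * c * (a * b) := by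
            rw [mul_assoc, f2, ← mul_assoc, ← mul_assoc, e2, mul_assoc _ a, f1, e2]
            simp only [mul_assoc]
          have g2 : b * a * c = ⁅a, c⁆ * ⁅b, c⁆ * c * (b * a) := by
            rw [mul_assoc, f1, ← mul_assoc, ← mul_assoc, e1, mul_assoc _ b, f2]
            simp only [mul_assoc]
          calc c * ⁅a⁻¹, b⁻¹⁆ = (b * a)⁻¹ * (b * a * c) * (b * a)⁻¹ * (a * b) := by
                rw [commutatorElement_def]; group
            _ = (b * a)⁻¹ * (a * b * c) := by rw [g1, g2]; group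
            _ = _ := by rw [commutatorElement_def]; group
        have c2 : ⁅a⁻¹, b⁻¹⁆ ^ p = 1 := m2 a _ ha (by
          rw [show a * ⁅a⁻¹, b⁻¹⁆ = b⁻¹ * a * b⁻¹⁻¹ by rw [commutatorElement_def]; group,
            _root_.conj_pow, ha, mul_one, mul_inv_cancel]) (m1 _ _ c1) (s2' a ha _ c1)
        have c3 := mul_pow_of_cen hp2 (hA _ c1 c2) c2
        have c4 : ⁅a, b⁆ = ⁅a⁻¹, b⁻¹⁆ := by
          have e := mem_center_iff.1 (hA _ c1 c2) (b * a)
          calc ⁅a, b⁆ = b * a * ⁅a⁻¹, b⁻¹⁆ * (b * a)⁻¹ := by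
                simp only [commutatorElement_def]; group
            _ = _ := by rw [e, mul_inv_cancel_right]
        rw [Set.mem_ofPred_eq, mul_pow_of_cen hp2 (c4 ▸ hA _ c1 c2) (c4 ▸ c2), ha, hb, one_mul] }
  have : X.Normal := ⟨fun a ha g => by
    change (g * a * g⁻¹) ^ p = 1
    rw [_root_.conj_pow, ha, mul_one, mul_inv_cancel]⟩
  exact second_of_normal hE X (fun a ha => ha) fun h => hZ (h hx)

end Pool.Agent.Lib.MP_2d211a_co.H62
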