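import Pool.Agent.Lib.MP_2d211a_co.H62Alg

/-! Golay type complementary matrices over the group ring of a finite `p`-group. -/

namespace Pool.Agent.Lib.MP_2d211a_co.H62

open MonoidAlgebra Finset Subgroup

set_option linter.unusedSectionVars false

variable {E : Type*} [Group E] {p : ℕ} [hp : Fact p.Prime]

/-- Powers with exponent a residue. -/
def pw (a : E) (i : ZMod p) : E := a ^ i.val

theorem pw_zero (a : E) : pw a (0 : ZMod p) = 1 := by simp [pw]

theorem pw_nat {a : E} (h : a ^ p = 1) (k : ℕ) : pw a (k : ZMod p) = a ^ k := by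
  rw [pw, ZMod.val_natCast, ← pow_eq_pow_mod _ h]

theorem pw_add {a : E} (h : a ^ p = 1) (i j : ZMod p) : pw a (i + j) = pw a i * pw a j := by
  rw [pw, ZMod.val_add, ← pow_eq_pow_mod _ h, pow_add]; rfl

theorem pw_pw {a : E} (h : a ^ p = 1) (i j : ZMod p) : pw (pw a i) j = pw a (i * j) := by
  rw [pw, pw, ← pow_mul, ← pw_nat h]; simp

theorem pw_neg {a : E} (h : a ^ p = 1) (i : ZMod p) : pw a (-i) = (pw a i)⁻¹ := by
  rw [eq_inv_iff_mul_eq_one, ← pw_add h, neg_add_cancel, pw_zero]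

theorem pw_pow_p {a : E} (h : a ^ p = 1) (i : ZMod p) : pw a i ^ p = 1 := by
  rw [pw, ← pow_mul, mul_comm, pow_mul, h, one_pow]

theorem pw_mem (a : E) (i : ZMod p) : pw a i ∈ zpowers a := npow_mem_zpowers a _

theorem pw_comm {z : E} (hz : ∀ g, g * z = z * g) (i : ZMod p) (g : E) :
    g * pw z i = pw z i * g := Commute.pow_right (hz g) _

theorem mem_of_pow_mem {H : Subgroup E} {t : E} (ht : ∃ k, t ^ p ^ k = 1) {n : ℕ}
    (hn : ¬ p ∣ n) (h : t ^ n ∈ H) : t ∈ H := by
  obtain ⟨k, hk⟩ := ht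
  have : n.Coprime (orderOf t) := Nat.Coprime.of_dvd_right (orderOf_dvd_of_pow_eq_one hk)
    (Nat.Coprime.pow_right _ ((Nat.Prime.coprime_iff_not_dvd hp.out).2 hn).symm)
  obtain ⟨m, hm⟩ := exists_pow_eq_self_of_coprime this
  exact hm ▸ H.pow_mem h m

theorem pw_inj {H : Subgroup E} {t : E} (ht : ∃ k, t ^ p ^ k = 1) (h : t ∉ H) (i j : ZMod p)
    (e : (pw t i)⁻¹ * pw t j ∈ H) : i = j := by
  have key : ∀ i j : ZMod p, i.val ≤ j.val → (pw t i)⁻¹ * pw t j ∈ H → i = j := by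
    intro i j hij e
    obtain ⟨d, hd⟩ := Nat.exists_eq_add_of_le hij
    rw [pw, pw, hd, pow_add, inv_mul_cancel_left] at e
    have h1 : p ∣ d := by_contra fun hn => h (mem_of_pow_mem ht hn e)
    have h2 := j.val_lt
    have := Nat.eq_zero_of_dvd_of_lt h1 (by omega)
    exact ZMod.val_injective p (by omega)
  rcases le_total i.val j.val with h1 | h1
  · exact key i j h1 e
  · exact (key j i h1 (by simpa using H.inv_mem e)).symm

variable [Finite E]

theorem coset_sum {H L : Subgroup E} (hHL : H ≤ L) (hc : Nat.card L = p * Nat.card H) {t : E}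
    (ht : ∃ k, t ^ p ^ k = 1) (htL : t ∈ L) (htH : t ∉ H) :
    ∑ c : ZMod p, s (pw t c) * hat H = hat L :=
  sum_s_hat _ hHL (fun _ => L.pow_mem htL _) (pw_inj ht htH)
    (sur_of_card _ hHL (fun _ => L.pow_mem htL _) (pw_inj ht htH) (by rwa [ZMod.card]))

theorem card_zp {z : E} (h1 : z ≠ 1) (h : z ^ p = 1) : Nat.card (zpowers z) = p := by
  rw [Nat.card_zpowers, orderOf_eq_prime h h1]

theorem hat_zp {z : E} (h1 : z ≠ 1) (h : z ^ p = 1) :
    hat (zpowers z) = ∑ c : ZMod p, s (pw z c) := by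
  rw [← coset_sum (p := p) (H := ⊥) bot_le (by simp [card_zp h1 h]) ⟨1, by simpa using h⟩
    (mem_zpowers z) (by simpa using h1)]
  simp [hat_bot]

theorem exists_pw {z y : E} (h : z ^ p = 1) (hy : y ∈ zpowers z) : ∃ c : ZMod p, y = pw z c := by
  obtain ⟨k, rfl⟩ := mem_powers_iff_mem_zpowers.2 hy
  exact ⟨k, (pw_nat h k).symm⟩

/-- A central element of order `p`. -/
structure Cen (p : ℕ) (z : E) : Prop where
  comm : ∀ g, g * z = z * g
  ne : z ≠ 1
  pow : z ^ p = 1

variable {z w : E}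

theorem Cen.mid (hz : Cen p z) (a M b : MonoidAlgebra ℤ E) :
    (1 - s z) * (a * M * b) = a * ((1 - s z) * M) * b := by
  have : Commute (1 - s z) a := (Commute.one_left a).sub_left (comm_s hz.comm a).symm
  rw [← mul_assoc, ← mul_assoc, this.eq, mul_assoc a]

theorem Cen.left (hz : Cen p z) (a M : MonoidAlgebra ℤ E) :
    (1 - s z) * (a * M) = a * ((1 - s z) * M) := by simpa using hz.mid a M 1

theorem Cen.orth (hz : Cen p z) (c : ZMod p) :
    (1 - s z) * ∑ b : ZMod p, s (pw z (c * b)) =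
      (1 - s z) * if c = 0 then (p : MonoidAlgebra ℤ E) else 0 := by
  split_ifs with h
  · simp [h, pw_zero, s_one]
  · rw [Fintype.sum_equiv (Equiv.mulLeft₀ c h) (fun b => s (pw z (c * b))) (fun b => s (pw z b))
      fun _ => rfl, ← hat_zp hz.ne hz.pow, sub_mul, s_mul_hat (mem_zpowers z)]
    simp

/-- Rows are orthogonal of norm `m` modulo the sum of `⟨z⟩`. -/
def Uni (z : E) (m : ℤ) (B : ZMod p → ZMod p → MonoidAlgebra ℤ E) : Prop :=
  ∀ a a', (1 - s z) * ∑ b, B a b * st (B a' b) =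
    (1 - s z) * if a = a' then (m : MonoidAlgebra ℤ E) else 0

theorem Uni.sandwich (hz : Cen p z) {m : ℤ} {B : ZMod p → ZMod p → MonoidAlgebra ℤ E}
    (h : Uni z m B) (u v : ZMod p → MonoidAlgebra ℤ E) :
    (1 - s z) * ∑ b, (∑ c, u c * B c b) * ∑ c, st (B c b) * v c =
      (1 - s z) * (m * ∑ c, u c * v c) := by
  have e : ∑ b, (∑ c, u c * B c b) * ∑ c, st (B c b) * v c =
      ∑ c, ∑ c', u c * (∑ b, B c b * st (B c' b)) * v c' := by
    simp only [sum_mul_sum]
    rw [sum_comm]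
    refine sum_congr rfl fun c _ => ?_
    rw [sum_comm]
    refine sum_congr rfl fun c' _ => ?_
    simp only [mul_sum, sum_mul, mul_assoc]
  rw [e, mul_sum, mul_sum, mul_sum]
  refine sum_congr rfl fun c _ => ?_
  rw [mul_sum]
  simp only [hz.mid, h c]
  rw [sum_eq_single c, if_pos rfl, ← hz.mid, ← Int.cast_comm, mul_assoc]
  · intro c' _ hc; simp [hc.symm]
  · simp

theorem uni_step (hz : Cen p z) {m : ℤ} {B : ZMod p → ZMod p → MonoidAlgebra ℤ E}
    (h : Uni z m B) (t : E) :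
    Uni z (m * p) fun a b : ZMod p => ∑ c, s (pw t c * pw z (a * c)) * B c b := by
  intro a a'
  simp only [map_sum, st_mul, st_s]
  rw [h.sandwich hz, hz.left]
  have : ∀ c : ZMod p, s (pw t c * pw z (a * c)) * s (pw t c * pw z (a' * c))⁻¹ =
      s (pw z ((a - a') * c)) := fun c => by
    rw [s_mul, mul_inv_rev, mul_assoc, ← mul_assoc (pw z _), ← pw_neg hz.pow, ← pw_add hz.pow,
      ← mul_assoc, pw_comm hz.comm, mul_inv_cancel_right]
    congr 2; ring
  simp only [this, hz.orth, sub_eq_zero]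
  rw [← hz.left]
  split_ifs <;> simp

theorem golay (hE : IsPGroup p E) (hz : Cen p z) {V : Subgroup E} (hV : z ∈ V) :
    ∃ (m : ℤ) (B : ZMod p → ZMod p → MonoidAlgebra ℤ E),
      (∀ a b, Nn (B a b)) ∧ (∀ a b, B a b * hat V = hat ⊤) ∧ Uni z m B := by
  obtain ⟨j, hj⟩ := (hE.to_subgroup V).exists_card_eq
  obtain ⟨N, hN⟩ := hE.exists_card_eq
  have key : ∀ n, j + n ≤ N → ∃ L : Subgroup E, Nat.card L = p ^ (j + n) ∧ V ≤ L ∧
      ∃ (m : ℤ) (B : ZMod p → ZMod p → MonoidAlgebra ℤ E),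
        (∀ a b, Nn (B a b)) ∧ (∀ a b, B a b * hat V = hat L) ∧ Uni z m B := by
    intro n
    induction n with
    | zero =>
      refine fun _ => ⟨V, hj, le_rfl, p, fun a b => s (pw z (a * b)), fun _ _ => Nn.s _,
        fun _ _ => s_mul_hat (V.pow_mem hV _), fun a a' => ?_⟩
      have : ∀ c : ZMod p, s (pw z (a * c)) * s (pw z (a' * c))⁻¹ = s (pw z ((a - a') * c)) :=
        fun c => by
          rw [s_mul, ← pw_neg hz.pow, ← pw_add hz.pow]
          congr 2; ring
      simp only [st_s, this, hz.orth, sub_eq_zero, Int.cast_natCast]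
    | succ n ih =>
      intro hn
      obtain ⟨L, hL, hVL, m, B, h1, h2, h3⟩ := ih (by omega)
      obtain ⟨L', hL', hle⟩ := Sylow.exists_subgroup_card_pow_succ (G := E) (p := p) (n := j + n)
        (hN ▸ pow_dvd_pow p hn) hL
      obtain ⟨t, htL', htL⟩ : ∃ t ∈ L', t ∉ L := by
        by_contra hne
        push Not at hne
        have := le_antisymm hle hne
        rw [← this, hL, Nat.pow_right_inj hp.out.one_lt] at hL'
        omega
      refine ⟨L', hL', hVL.trans hle, _, _, fun a b => Nn.sum _ fun c => (Nn.s _).mul (h1 c b),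
        fun a b => ?_, uni_step hz h3 t⟩
      rw [sum_mul, ← coset_sum hle (by rw [hL', hL, pow_succ']) (hE t) htL' htL]
      refine sum_congr rfl fun c _ => ?_
      rw [mul_assoc, h2, ← s_mul, mul_assoc, s_mul_hat (g := pw z _) (L.pow_mem (hVL hV) _)]
  have hjN : j ≤ N := by
    rw [← Nat.pow_le_pow_iff_right hp.out.one_lt, ← hj, ← hN]
    exact V.card_le_card_group
  obtain ⟨L, hL, -, h⟩ := key (N - j) (by omega)
  rwa [L.eq_top_of_card_eq (by rw [hL, hN]; congr 1; omega)] at h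

/-- The subgroups of order `p` of `⟨w, z⟩` other than `⟨z⟩`. -/
noncomputable def Hh (w z : E) (i : ZMod p) : MonoidAlgebra ℤ E := hat (zpowers (w * pw z i))

theorem pw_mul (hz : Cen p z) (w : E) (i l : ZMod p) :
    pw (w * pw z i) l = pw w l * pw z (i * l) := by
  rw [← pw_pw hz.pow]
  exact Commute.mul_pow (pw_comm hz.comm i w) _

theorem wz_ne (hw : w ∉ zpowers z) (i : ZMod p) : w * pw z i ≠ 1 := fun h =>
  hw (eq_inv_of_mul_eq_one_left h ▸ inv_mem (pw_mem z i))

theorem wz_pow (hz : Cen p z) (hwp : w ^ p = 1) (i : ZMod p) : (w * pw z i) ^ p = 1 := by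
  rw [Commute.mul_pow (pw_comm hz.comm i w), hwp, pw_pow_p hz.pow, one_mul]

theorem Hh_eq (hz : Cen p z) (hw : w ∉ zpowers z) (hwp : w ^ p = 1) (i : ZMod p) :
    Hh w z i = ∑ l : ZMod p, s (pw w l * pw z (i * l)) := by
  simp only [Hh, hat_zp (wz_ne hw i) (wz_pow hz hwp i), pw_mul hz]

theorem Hh_mul (hz : Cen p z) (hw : w ∉ zpowers z) (hwp : w ^ p = 1) (i j : ZMod p) :
    (1 - s z) * (Hh w z i * Hh w z j) = (1 - s z) * if i = j then p * Hh w z i else 0 := by
  have : Hh w z i * Hh w z j = Hh w z i * ∑ l : ZMod p, s (pw z ((j - i) * l)) := by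
    rw [Hh_eq hz hw hwp j, mul_sum, mul_sum]
    refine sum_congr rfl fun l _ => ?_
    have : pw w l * pw z (j * l) = pw (w * pw z i) l * pw z ((j - i) * l) := by
      rw [pw_mul hz, mul_assoc, ← pw_add hz.pow]; congr 2; ring
    rw [this, ← s_mul, ← mul_assoc, Hh, hat_mul_s (pw_mem _ _)]
  rw [this, hz.left, hz.orth, ← hz.left]
  simp only [sub_eq_zero, eq_comm (a := j)]
  split_ifs
  · rw [Nat.cast_comm]
  · simp

theorem Hh_sum (hz : Cen p z) (hw : w ∉ zpowers z) (hwp : w ^ p = 1) {c : ZMod p} (hc : c ≠ 0) :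
    (1 - s z) * ∑ i : ZMod p, Hh w z (c * i) = (1 - s z) * p := by
  simp only [Hh_eq hz hw hwp, ← s_mul]
  rw [sum_comm, mul_sum, sum_eq_single 0]
  · simp [pw_zero, s_one]
  · intro l _ hl
    have : ∀ i : ZMod p, c * i * l = c * l * i := fun i => by ring
    simp only [this, ← mul_sum]
    rw [hz.left, hz.orth, if_neg (mul_ne_zero hc hl)]
    simp
  · simp

theorem conj_pow (hz : Cen p z) {g : E} {e : ZMod p} (h : g * w * g⁻¹ = w * pw z e) (k : ℕ) :
    g ^ k * w * (g ^ k)⁻¹ = w * pw z ((k : ZMod p) * e) := by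
  induction k with
  | zero => simp [pw_zero]
  | succ k ih =>
    have : g ^ (k + 1) * w * (g ^ (k + 1))⁻¹ = g * (g ^ k * w * (g ^ k)⁻¹) * g⁻¹ := by group
    rw [this, ih, ← mul_assoc, mul_assoc (g * w), ← pw_comm hz.comm, ← mul_assoc, h, mul_assoc,
      ← pw_add hz.pow]
    congr 2; push_cast; ring

theorem Hh_conj (hz : Cen p z) (hw : w ∉ zpowers z) (hwp : w ^ p = 1) {g : E} {e : ZMod p}
    (h : g * w * g⁻¹ = w * pw z e) (i : ZMod p) :
    s g * Hh w z i * s g⁻¹ = Hh w z (i + e) := by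
  simp only [Hh_eq hz hw hwp, mul_sum, sum_mul, s_mul]
  refine sum_congr rfl fun l _ => ?_
  have : g * pw w l * g⁻¹ = pw w l * pw z (e * l) := by
    rw [← pw_mul hz, ← h, pw, pw, _root_.conj_pow]
  rw [← mul_assoc, mul_assoc (g * _), ← pw_comm hz.comm, ← mul_assoc, this, mul_assoc,
    ← pw_add hz.pow]
  congr 3; ring

theorem Hh_hat (hz : Cen p z) (hw : w ∉ zpowers z) (hwp : w ^ p = 1) (i : ZMod p) :
    Hh w z i * hat (zpowers z) = hat (zpowers w ⊔ zpowers z) := by
  have hn : (zpowers z).Normal := ⟨fun n hn g => by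
    obtain ⟨c, rfl⟩ := exists_pw hz.pow hn
    rwa [pw_comm hz.comm, mul_inv_cancel_right]⟩
  rw [← sum_s_hat (fun l : ZMod p => pw w l) (H := zpowers z) le_sup_right
    (fun l => mem_sup_left (pw_mem w l)) (pw_inj ⟨1, by simpa using hwp⟩ hw), Hh_eq hz hw hwp,
    sum_mul]
  · refine sum_congr rfl fun l _ => ?_
    rw [← s_mul, mul_assoc, s_mul_hat (pw_mem _ _)]
  · intro y hy
    obtain ⟨a, ha, b, hb, rfl⟩ := mem_sup_of_normal_right.1 hy
    obtain ⟨c, rfl⟩ := exists_pw hwp ha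
    exact ⟨c, by simpa using hb⟩

/-- Blocks attached to different subgroups are orthogonal. -/
theorem blocks (hz : Cen p z) (hw : w ∉ zpowers z) (hwp : w ^ p = 1) {c : ZMod p} (hc : c ≠ 0)
    (T : ZMod p → MonoidAlgebra ℤ E) :
    (1 - s z) * ((∑ i, T i * Hh w z (c * i)) * st (∑ i, T i * Hh w z (c * i))) =
      p * ((1 - s z) * ∑ i, T i * Hh w z (c * i) * st (T i)) := by
  simp only [map_sum, st_mul]
  rw [sum_mul_sum, mul_sum, mul_sum, mul_sum]
  refine sum_congr rfl fun i _ => ?_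
  rw [mul_sum]
  have : ∀ j, T i * Hh w z (c * i) * (st (Hh w z (c * j)) * st (T j)) =
      T i * (Hh w z (c * i) * Hh w z (c * j)) * st (T j) := fun j => by
    simp only [Hh, st_hat, mul_assoc]
  simp only [this, hz.mid, Hh_mul hz hw hwp, mul_right_inj' hc]
  rw [sum_eq_single i, if_pos rfl, hz.left]
  · simp only [← mul_assoc]
    rw [← Nat.cast_comm]
  · intro j _ hj; simp [hj.symm]
  · simp

end Pool.Agent.Lib.MP_2d211a_co.H62
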