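import Pool.Agent.Lib.MP_2d211a_co.H62Rec

/-! Structure of `p`-groups for odd `p`: normal planes and power maps. -/

namespace Pool.Agent.Lib.MP_2d211a_co.H62

open MonoidAlgebra Finset Subgroup

set_option linter.unusedSectionVars false

universe u

variable {p : ℕ} [hp : Fact p.Prime]

section

variable {E : Type*} [Group E] [Finite E] {z w : E}

theorem mul_pow_p (hp2 : 2 < p) (hz : Cen p z) (hu : w ∈ Up hz) (g : E) :
    (g * w) ^ p = g ^ p * w ^ p := by
  obtain ⟨e, he⟩ := hu g⁻¹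
  have h1 : ∀ n : ℕ, w ^ n * g = g * w ^ n * pw z ((n : ZMod p) * e) := fun n => by
    have : g⁻¹ * w ^ n * g⁻¹⁻¹ = w ^ n * pw z ((n : ZMod p) * e) := by
      rw [← _root_.conj_pow, he, Commute.mul_pow (pw_comm hz.comm e w), mul_comm (n : ZMod p),
        ← pw_pw hz.pow, pw_nat (pw_pow_p hz.pow e)]
    rw [mul_assoc, ← this]; group
  have h2 : ∀ n : ℕ, (g * w) ^ n = g ^ n * w ^ n * pw z ((n.choose 2 : ZMod p) * e) := by
    intro n
    induction n with
    | zero => simp [pw_zero]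
    | succ n ih =>
      rw [pow_succ, ih, Nat.choose_succ_succ' n 1, Nat.choose_one_right, Nat.cast_add, add_mul,
        pw_add hz.pow, mul_assoc, ← pw_comm hz.comm, ← mul_assoc, ← mul_assoc, mul_assoc (g ^ n),
        h1, pow_succ, pow_succ]
      simp only [mul_assoc]
      rw [← mul_assoc (pw z _) w, ← pw_comm hz.comm, mul_assoc]
  rw [h2, (ZMod.natCast_eq_zero_iff _ _).2 (hp.out.dvd_choose_self two_ne_zero hp2), zero_mul,
    pw_zero, mul_one]

theorem exists_ord (hE : IsPGroup p E) {y : E} (hy : y ≠ 1) :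
    ∃ u ∈ zpowers y, u ≠ 1 ∧ u ^ p = 1 := by
  classical
  have h0 : Nat.find (hE y) ≠ 0 := fun h => hy (by simpa [h] using Nat.find_spec (hE y))
  obtain ⟨k, hk⟩ := Nat.exists_eq_succ_of_ne_zero h0
  refine ⟨y ^ p ^ k, npow_mem_zpowers _ _, Nat.find_min (hE y) (by omega), ?_⟩
  rw [← pow_mul, ← pow_succ, ← Nat.succ_eq_add_one, ← hk]
  exact Nat.find_spec (hE y)

theorem exists_cen (hE : IsPGroup p E) [Nontrivial E] : ∃ z : E, Cen p z := by
  obtain ⟨⟨y, hy⟩, h⟩ := ne_bot_iff_exists_ne_one.1 hE.bot_lt_center.ne'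
  have h1 : y ≠ 1 := fun e => h (Subtype.ext e)
  obtain ⟨u, hu, h2, h3⟩ := exists_ord hE h1
  exact ⟨u, mem_center_iff.1 (zpowers_le.2 hy hu), h2, h3⟩

theorem zp_eq {a b : E} (ha : a ≠ 1) (hap : a ^ p = 1) (hb : b ≠ 1) (hbp : b ^ p = 1)
    (h : a ∈ zpowers b) : b ∈ zpowers a :=
  eq_of_le_of_card_ge (zpowers_le.2 h) (by rw [card_zp ha hap, card_zp hb hbp]) ▸ mem_zpowers b

theorem mk_eq (hz : Cen p z) [(zpowers z).Normal] {a b : E}
    (h : (a : E ⧸ zpowers z) = b) : ∃ e : ZMod p, a = b * pw z e := by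
  obtain ⟨e, he⟩ := exists_pw hz.pow (QuotientGroup.eq.1 h.symm)
  exact ⟨e, by rw [← he, mul_inv_cancel_left]⟩

theorem up_of_comm (hz : Cen p z) [(zpowers z).Normal] {y : E}
    (h : ∀ g : E ⧸ zpowers z, g * y = y * g) : y ∈ Up hz := fun g =>
  mk_eq hz (by rw [QuotientGroup.mk_mul, QuotientGroup.mk_mul, h, QuotientGroup.mk_inv,
    mul_inv_cancel_right])

theorem z_up (hz : Cen p z) : z ∈ Up hz := fun g =>
  ⟨0, by rw [hz.comm, pw_zero, mul_inv_cancel_right, mul_one]⟩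

theorem plane_normal (hz : Cen p z) (hu : w ∈ Up hz) : (zpowers w ⊔ zpowers z).Normal := by
  have h : zpowers w ⊔ zpowers z ≤ Up hz := by
    simp only [sup_le_iff, zpowers_le]; exact ⟨hu, z_up hz⟩
  refine ⟨fun n hn g => ?_⟩
  obtain ⟨e, he⟩ := h hn g
  exact he ▸ mul_mem hn (mem_sup_right (pw_mem z e))

theorem plane_pow (hz : Cen p z) (hwp : w ^ p = 1) {v : E} (hv : v ∈ zpowers w ⊔ zpowers z) :
    ∃ a b : ZMod p, v = pw w a * pw z b := by
  have := hz.normal
  obtain ⟨a, ha, b, hb, rfl⟩ := mem_sup_of_normal_right.1 hv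
  obtain ⟨c, rfl⟩ := exists_pw hwp ha
  obtain ⟨d, rfl⟩ := exists_pw hz.pow hb
  exact ⟨c, d, rfl⟩

theorem plane_exp (hz : Cen p z) (hwp : w ^ p = 1) {v : E} (hv : v ∈ zpowers w ⊔ zpowers z) :
    v ^ p = 1 := by
  obtain ⟨a, b, rfl⟩ := plane_pow hz hwp hv
  rw [Commute.mul_pow (pw_comm hz.comm b _), pw_pow_p hwp, pw_pow_p hz.pow, one_mul]

theorem card_coset {ι : Type*} [Fintype ι] (f : ι → E) {H L : Subgroup E} (hHL : H ≤ L)
    (hf : ∀ i, f i ∈ L) (inj : ∀ i j, (f i)⁻¹ * f j ∈ H → i = j)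
    (sur : ∀ y ∈ L, ∃ i, (f i)⁻¹ * y ∈ H) : Nat.card L = Fintype.card ι * Nat.card H := by
  let F : ι × H → L := fun q => ⟨f q.1 * q.2, L.mul_mem (hf _) (hHL q.2.2)⟩
  have hF : Function.Bijective F := by
    constructor
    · rintro ⟨i, a⟩ ⟨j, b⟩ h
      have h1 : f i * a = f j * b := congrArg Subtype.val h
      have h2 : (f i)⁻¹ * f j = a * (b : E)⁻¹ := by
        rw [inv_mul_eq_iff_eq_mul, ← mul_assoc, h1, mul_inv_cancel_right]
      obtain rfl := inj i j (h2 ▸ H.mul_mem a.2 (H.inv_mem b.2))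
      exact Prod.ext rfl (Subtype.ext (mul_left_cancel h1))
    · rintro ⟨y, hy⟩
      obtain ⟨i, hi⟩ := sur y hy
      exact ⟨(i, ⟨_, hi⟩), Subtype.ext (mul_inv_cancel_left _ _)⟩
  rw [← Nat.card_eq_of_bijective F hF]; simp

theorem plane_card (hz : Cen p z) (hw : w ∉ zpowers z) (hwp : w ^ p = 1) :
    Nat.card (zpowers w ⊔ zpowers z : Subgroup E) = p ^ 2 := by
  rw [card_coset (fun l : ZMod p => pw w l) (H := zpowers z) le_sup_right
    (fun l => mem_sup_left (pw_mem w l)) (pw_inj ⟨1, by simpa using hwp⟩ hw), ZMod.card,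
    card_zp hz.ne hz.pow, sq]
  intro y hy
  obtain ⟨a, b, rfl⟩ := plane_pow hz hwp hy
  exact ⟨a, by simpa using pw_mem z b⟩

theorem card_quot {H : Subgroup E} {n m : ℕ} (hE : Nat.card E = p ^ (n + m))
    (hH : Nat.card H = p ^ m) : Nat.card (E ⧸ H) = p ^ n := by
  have := H.card_eq_card_quotient_mul_card_subgroup
  rw [hE, hH, pow_add] at this
  exact (Nat.eq_of_mul_eq_mul_right (pow_pos hp.out.pos m) this).symm

theorem exp_le {H : Subgroup E} {n m : ℕ} (hE : Nat.card E = p ^ n) (hH : Nat.card H = p ^ m) :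
    ∃ k, n = k + m := by
  have := H.card_le_card_group
  rw [hE, hH, Nat.pow_le_pow_iff_right hp.out.one_lt] at this
  exact ⟨n - m, by omega⟩

end

/-- A non-cyclic `p`-group, `p` odd, has a normal plane through any central element of order
`p`. -/
theorem exists_plane (hp2 : 2 < p) (n : ℕ) : ∀ (E : Type u) [Group E] [Finite E],
    Nat.card E = p ^ n → ¬IsCyclic E → ∀ (z : E) (hz : Cen p z),
      ∃ w, w ∉ zpowers z ∧ w ^ p = 1 ∧ w ∈ Up hz := by
  induction n using Nat.strong_induction_on with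
  | _ n ih =>
  intro E _ _ hE hc z hz
  have := hz.normal
  have hP : IsPGroup p E := IsPGroup.of_card hE
  by_cases hq : IsCyclic (E ⧸ zpowers z)
  · obtain ⟨x, hx⟩ := hq.exists_generator
    obtain ⟨x, rfl⟩ := QuotientGroup.mk_surjective x
    have hzx : z ∉ zpowers x := fun h => hc ⟨x, fun g => by
      obtain ⟨k, hk⟩ := hx g
      obtain ⟨e, he⟩ := mk_eq hz (a := g) (b := x ^ k) hk.symm
      exact he ▸ mul_mem (zpow_mem_zpowers x k) (pow_mem h _)⟩
    have hx1 : x ≠ 1 := fun h => hc ⟨z, fun g => by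
      obtain ⟨k, hk⟩ := hx g
      obtain ⟨e, he⟩ := mk_eq hz (a := g) (b := x ^ k) hk.symm
      rw [he, h, one_zpow, one_mul]
      exact pw_mem z e⟩
    obtain ⟨u, hu, h1, h2⟩ := exists_ord hP hx1
    refine ⟨u, fun h => hzx (zpowers_le.2 hu (zp_eq h1 h2 hz.ne hz.pow h)), h2,
      up_of_comm hz fun g => ?_⟩
    obtain ⟨k, rfl⟩ := hx g
    obtain ⟨l, rfl⟩ := hu
    exact (Commute.refl _).zpow_zpow k l
  · obtain ⟨k, rfl⟩ := exp_le hE ((card_zp hz.ne hz.pow).trans (pow_one p).symm)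
    have hQ := card_quot hE ((card_zp hz.ne hz.pow).trans (pow_one p).symm)
    have : Nontrivial (E ⧸ zpowers z) := not_subsingleton_iff_nontrivial.1 fun _ =>
      hq isCyclic_of_subsingleton
    obtain ⟨y, hy⟩ := exists_cen (IsPGroup.of_card hQ)
    obtain ⟨u, hu1, hu2, hu3⟩ := ih k (by omega) _ hQ hq y hy
    obtain ⟨y, rfl⟩ := QuotientGroup.mk_surjective y
    obtain ⟨u, rfl⟩ := QuotientGroup.mk_surjective u
    have hyu := up_of_comm hz hy.comm
    by_cases hyp : y ^ p = 1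
    · exact ⟨y, fun h => hy.ne ((QuotientGroup.eq_one_iff _).2 h), hyp, hyu⟩
    obtain ⟨a, ha⟩ := mk_eq hz (a := y ^ p) (b := 1) hy.pow
    obtain ⟨b, hb⟩ := mk_eq hz (a := u ^ p) (b := 1) hu2
    rw [one_mul] at ha hb
    have ha0 : a ≠ 0 := fun h => hyp (by rw [ha, h, pw_zero])
    have hy2 : ∀ s : ZMod p, pw y s ^ p = pw z (a * s) := fun s => by
      rw [← pw_pw hz.pow, ← ha, pw, pw, ← pow_mul, ← pow_mul, mul_comm]
    have hw : (u * pw y (-b / a)) ^ p = 1 := by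
      rw [mul_pow_p hp2 hz (w := pw y _) (pow_mem hyu _), hy2, hb, ← pw_add hz.pow,
        mul_div_cancel₀ _ ha0, add_neg_cancel, pw_zero]
    refine ⟨u * pw y (-b / a), fun h => hu1 ?_, hw, fun g => ?_⟩
    · have h1 := (QuotientGroup.eq_one_iff _).2 h
      rw [QuotientGroup.mk_mul, mul_eq_one_iff_eq_inv] at h1
      exact h1 ▸ inv_mem (pw_mem (y : E ⧸ zpowers z) (-b / a))
    · obtain ⟨s, hs⟩ := hu3 g
      obtain ⟨e, he⟩ := mk_eq hz (a := g * (u * pw y (-b / a)) * g⁻¹)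
        (b := u * pw y (-b / a) * pw y s) (by
          have h1 : ∀ t : ZMod p, ((pw y t : E) : E ⧸ zpowers z) = pw (y : E ⧸ zpowers z) t :=
            fun _ => rfl
          simp only [QuotientGroup.mk_mul, QuotientGroup.mk_inv, h1]
          rw [← mul_assoc, mul_assoc _ (pw _ _), ← pw_comm hy.comm, ← mul_assoc, hs,
            mul_assoc, pw_comm hy.comm (-b / a), mul_assoc])
      have h2 := congrArg (· ^ p) he
      simp only [_root_.conj_pow, hw, mul_one, mul_inv_cancel] at h2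
      rw [Commute.mul_pow (pw_comm hz.comm e _), pw_pow_p hz.pow, mul_one,
        mul_pow_p hp2 hz (w := pw y s) (pow_mem hyu _), hw, one_mul, hy2] at h2
      have h3 := pw_inj (H := ⊥) ⟨1, by simpa using hz.pow⟩ (by simpa using hz.ne) 0 (a * s)
        (by simp [← h2, pw_zero])
      obtain rfl : s = 0 := (mul_eq_zero.1 h3.symm).resolve_left ha0
      exact ⟨e, by rw [he, pw_zero, mul_one]⟩

/-- In a group of order at most `p ^ (2 j + 1)` the `p ^ j`-th power map is a homomorphism into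
a central cyclic subgroup. -/
theorem power_hom (hp2 : 2 < p) (j : ℕ) : ∀ (E : Type u) [Group E] [Finite E] (n : ℕ),
    Nat.card E = p ^ n → n ≤ 2 * j + 1 → ∃ c : E, (∀ g, g * c = c * g) ∧
      (∀ a : E, a ^ p ^ j ∈ zpowers c) ∧ ∀ a b : E, (a * b) ^ p ^ j = a ^ p ^ j * b ^ p ^ j := by
  have cyc : ∀ (j : ℕ) (E : Type u) [Group E], IsCyclic E → ∃ c : E, (∀ g, g * c = c * g) ∧
      (∀ a : E, a ^ p ^ j ∈ zpowers c) ∧
        ∀ a b : E, (a * b) ^ p ^ j = a ^ p ^ j * b ^ p ^ j := fun j E _ h => by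
    obtain ⟨c, hc⟩ := h.exists_generator
    have : ∀ a b : E, Commute a b := fun a b => by
      obtain ⟨k, rfl⟩ := hc a
      obtain ⟨l, rfl⟩ := hc b
      exact (Commute.refl _).zpow_zpow k l
    exact ⟨c, fun g => this g c, fun a => hc _, fun a b => (this a b).mul_pow _⟩
  induction j with
  | zero =>
    intro E _ _ n hE hn
    exact cyc 0 E (isCyclic_of_card_dvd_prime (p := p)
      (hE ▸ (pow_dvd_pow p (by omega)).trans (pow_one p).dvd))
  | succ j ih =>
    intro E _ _ n hE hn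
    by_cases hc : IsCyclic E
    · exact cyc _ E hc
    have : Nontrivial E := not_subsingleton_iff_nontrivial.1 fun _ => hc isCyclic_of_subsingleton
    obtain ⟨z, hz⟩ := exists_cen (IsPGroup.of_card hE)
    obtain ⟨w, hw, hwp, hu⟩ := exists_plane hp2 n E hE hc z hz
    have := plane_normal hz hu
    obtain ⟨k, rfl⟩ := exp_le hE (plane_card hz hw hwp)
    obtain ⟨c, h1, h2, h3⟩ := ih _ k (card_quot hE (plane_card hz hw hwp)) (by omega)
    obtain ⟨c, rfl⟩ := QuotientGroup.mk_surjective c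
    have key : ∀ a b : E, (a : E ⧸ (zpowers w ⊔ zpowers z)) = b → a ^ p = b ^ p := fun a b h => by
      have hv := QuotientGroup.eq.1 h
      have h4 : zpowers w ⊔ zpowers z ≤ Up hz := by
        simp only [sup_le_iff, zpowers_le]; exact ⟨hu, z_up hz⟩
      have := mul_pow_p hp2 hz (h4 hv) a
      rwa [mul_inv_cancel_left, plane_exp hz hwp hv, mul_one, eq_comm] at this
    have key2 : ∀ (a : E) (i : ℤ), (c : E ⧸ (zpowers w ⊔ zpowers z)) ^ i = (a : E ⧸ _) ^ p ^ j →
        a ^ p ^ (j + 1) = (c ^ p) ^ i := fun a i h => by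
      rw [pow_succ, pow_mul, key (a ^ p ^ j) (c ^ i) h.symm, ← zpow_natCast, ← zpow_natCast,
        ← zpow_mul, ← zpow_mul, mul_comm]
    refine ⟨c ^ p, fun g => ?_, fun a => ?_, fun a b => ?_⟩
    · rw [← mul_inv_eq_iff_eq_mul, ← _root_.conj_pow]
      refine key _ _ ?_
      rw [QuotientGroup.mk_mul, QuotientGroup.mk_mul, h1, QuotientGroup.mk_inv,
        mul_inv_cancel_right]
    · obtain ⟨i, hi⟩ := h2 a
      exact ⟨i, (key2 a i hi).symm⟩
    · obtain ⟨i, hi⟩ := h2 a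
      obtain ⟨l, hl⟩ := h2 b
      rw [key2 a i hi, key2 b l hl, key2 (a * b) (i + l), zpow_add]
      rw [zpow_add, QuotientGroup.mk_mul, h3]
      exact congrArg₂ _ hi hl

end Pool.Agent.Lib.MP_2d211a_co.H62
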