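import Pool.Agent.Lib.MP_2d211a_co.H62Prod

/-! A construction with several levels for `ℤ_p² ⋊ ℤ_{p^a}`, `a` odd. -/

namespace Pool.Agent.Lib.MP_2d211a_co.H62

open MonoidAlgebra Finset Subgroup

set_option linter.unusedSectionVars false

variable {p : ℕ} [hp : Fact p.Prime] {E : Type*} [Group E] [Finite E] {z w x c : E}

/-- Geometric sum of a group element. -/
noncomputable def Gs (c : E) (N : ℕ) : MonoidAlgebra ℤ E := ∑ n ∈ range N, s (c ^ n)

theorem sum_zmod {M : Type*} [AddCommMonoid M] (f : ℕ → M) :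
    ∑ l : ZMod p, f l.val = ∑ n ∈ range p, f n :=
  sum_nbij' ZMod.val Nat.cast (fun l _ => mem_range.2 l.val_lt) (fun _ _ => mem_univ _)
    (fun l _ => ZMod.natCast_zmod_val l) (fun _ h => ZMod.val_cast_of_lt (mem_range.1 h))
    fun _ _ => rfl

theorem Gs_p (c : E) : ∑ l : ZMod p, s (pw c l) = Gs c p := sum_zmod fun n => s (c ^ n)

theorem Gs_add (c : E) (a b : ℕ) : Gs c (a + b) = Gs c a + s (c ^ a) * Gs c b := by
  simp only [Gs, sum_range_add, mul_sum, s_mul, pow_add]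

theorem Gs_one (c : E) : Gs c 1 = 1 := by simp [Gs, s_one]

theorem Gs_mul (c : E) (a b : ℕ) : Gs c (a * b) = Gs (c ^ a) b * Gs c a := by
  induction b with
  | zero => simp [Gs]
  | succ b ih => rw [mul_add, mul_one, Gs_add, ih, Gs_add, Gs_one, mul_one, add_mul, pow_mul]

theorem Gs_nn (c : E) (N : ℕ) : Nn (Gs c N) := Nn.sum _ fun _ => Nn.s _

theorem Gs_comm (hc : c ∈ center E) (N : ℕ) (Y : MonoidAlgebra ℤ E) : Commute Y (Gs c N) :=
  Commute.sum_right _ _ _ fun n _ => comm_s (mem_center_iff.1 (pow_mem hc n)) Y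

theorem Gs_inv {N : ℕ} (h : c ^ N = 1) : s c * Gs c N = Gs c N := by
  have h1 := Gs_add c 1 N
  rw [add_comm, Gs_add, h, s_one, one_mul, Gs_one, pow_one, add_comm] at h1
  exact (add_left_cancel h1).symm

theorem inv_pow' {Y : MonoidAlgebra ℤ E} (h : s c * Y = Y) (n : ℕ) : s (c ^ n) * Y = Y := by
  induction n with
  | zero => rw [pow_zero, s_one, one_mul]
  | succ n ih => rw [pow_succ, ← s_mul, mul_assoc, h, ih]

theorem inv_st {Y : MonoidAlgebra ℤ E} (h : s c * Y = Y) : st Y * s c = st Y := by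
  conv_lhs => rw [← h, st_mul, st_s, mul_assoc, s_mul, inv_mul_cancel, s_one, mul_one]

theorem Gs_st (hc : c ∈ center E) {N : ℕ} (h : c ^ N = 1) :
    Gs c N * st (Gs c N) = N * Gs c N := by
  have : ∀ n, Gs c N * s (c ^ n)⁻¹ = Gs c N := fun n => by
    conv_lhs => rw [← inv_pow' (Gs_inv h) n, (Gs_comm hc N _).eq, mul_assoc, s_mul,
      mul_inv_cancel, s_one, mul_one]
  nth_rewrite 2 [Gs]
  simp [map_sum, st_s, mul_sum, this]

theorem Gs_hat (hz : Cen p z) (c : E) (i : ZMod p) (N : ℕ) :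
    Gs (c * pw z i) N * hat (zpowers z) = Gs c N * hat (zpowers z) := by
  simp only [Gs, sum_mul]
  refine sum_congr rfl fun n _ => ?_
  rw [Commute.mul_pow (pw_comm hz.comm i c), ← s_mul, mul_assoc,
    s_mul_hat (pow_mem (pw_mem z i) n)]

theorem level (hz : Cen p z) (hc : c ∈ center E) {M : ℕ} {C : ℤ}
    (Y : ZMod p → MonoidAlgebra ℤ E) (h1 : ∀ i, s (c * pw z i) * Y i = Y i)
    (h2 : ∀ i, (1 - s z) * (Y i * st (Y i)) = (1 - s z) * (C * Gs (c * pw z i) (p * M))) :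
    s (c ^ p) * ∑ i, Y i = ∑ i, Y i ∧ (1 - s z) * ((∑ i, Y i) * st (∑ i, Y i)) =
      (1 - s z) * ((C * p : ℤ) * Gs (c ^ p) M) := by
  have e : ∀ i : ZMod p, (c * pw z i) ^ p = c ^ p := fun i => by
    rw [Commute.mul_pow (pw_comm hz.comm i c), pw_pow_p hz.pow, mul_one]
  refine ⟨by rw [mul_sum]; exact sum_congr rfl fun i _ => e i ▸ inv_pow' (h1 i) p, ?_⟩
  have cr : ∀ i j, i ≠ j → (1 - s z) * (Y i * st (Y j)) = 0 := fun i j hij => by
    have hcz : ∀ g, g * (c * pw z j) = c * pw z j * g := fun g =>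
      Commute.mul_right (mem_center_iff.1 hc g) (pw_comm hz.comm j g)
    have e1 : s (c * pw z j) * (Y i * st (Y j)) = Y i * st (Y j) := by
      rw [← (comm_s hcz _).eq, mul_assoc, inv_st (h1 j)]
    have e2 : s (pw z (i - j)) * (Y i * st (Y j)) = Y i * st (Y j) := by
      conv_lhs => rw [← e1, ← mul_assoc, s_mul, ← pw_comm hz.comm, mul_assoc c, ← pw_add hz.pow,
        add_sub_cancel, ← mul_assoc, h1]
    have e3 := inv_pow' e2 (i - j)⁻¹.val
    rw [← pw, pw_pw hz.pow, mul_inv_cancel₀ (sub_ne_zero.2 hij), ← Nat.cast_one, pw_nat hz.pow,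
      pow_one] at e3
    rw [sub_mul, one_mul, e3, sub_self]
  have e4 : ∀ i, (1 - s z) * (Y i * st (∑ j, Y j)) =
      C * Gs (c ^ p) M * ((1 - s z) * Gs (c * pw z i) p) := fun i => by
    rw [map_sum, mul_sum, mul_sum, sum_eq_single i (fun j _ h => cr i j h.symm) (by simp), h2,
      Gs_mul, e, ← mul_assoc (C : MonoidAlgebra ℤ E), hz.left]
  rw [sum_mul, mul_sum]
  simp only [e4]
  rw [← mul_sum, ← mul_sum]
  have e5 : (1 - s z) * ∑ i : ZMod p, Gs (c * pw z i) p = (1 - s z) * p := by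
    simp only [← Gs_p, pw_mul hz, ← s_mul]
    rw [sum_comm, mul_sum, sum_eq_single 0]
    · simp [pw_zero, s_one]
    · intro l _ hl
      simp only [mul_comm _ l, ← mul_sum]
      rw [hz.left, hz.orth, if_neg hl]
      simp
    · simp
  rw [e5, ← hz.left, mul_assoc, ← Nat.cast_comm, ← mul_assoc (C : MonoidAlgebra ℤ E)]
  push_cast
  rfl

/-- Central Golay matrices whose entries all lie over `Y`. -/
def Gol (p : ℕ) [Fact p.Prime] (z : E) (m : ℤ) (Y : MonoidAlgebra ℤ E) : Prop :=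
  ∃ B : ZMod p → ZMod p → MonoidAlgebra ℤ E, (∀ a b, Nn (B a b)) ∧
    (∀ a b, B a b * hat (zpowers z) = Y * hat (zpowers z)) ∧ Uni z m B ∧
      ∀ a b Z, Commute Z (B a b)

theorem gol_base (hz : Cen p z) : Gol p z p 1 := by
  refine ⟨fun a b => s (pw z (a * b)), fun _ _ => Nn.s _,
    fun _ _ => by rw [s_mul_hat (pw_mem z _), one_mul], fun a a' => ?_,
    fun a b Z => comm_s (pw_comm hz.comm _) Z⟩
  have : ∀ c : ZMod p, s (pw z (a * c)) * s (pw z (a' * c))⁻¹ = s (pw z ((a - a') * c)) :=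
    fun c => by
      rw [s_mul, ← pw_neg hz.pow, ← pw_add hz.pow]
      congr 2; ring
  simp only [st_s, this, hz.orth, sub_eq_zero, Int.cast_natCast]

theorem gol_step (hz : Cen p z) (hc : c ∈ center E) {m : ℤ} {Y : MonoidAlgebra ℤ E}
    (h : Gol p z m Y) (r : ℕ) : Gol p z (m * p ^ r) (Gs c (p ^ r) * Y) := by
  induction r with
  | zero => simpa [Gs_one] using h
  | succ r ih =>
    obtain ⟨B, h1, h2, h3, h4⟩ := ih
    refine ⟨_, fun a b => Nn.sum _ fun l => (Nn.s _).mul (h1 l b), fun a b => ?_,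
      by simpa only [pow_succ, mul_assoc] using uni_step hz h3 (c ^ p ^ r), fun a b Z =>
      Commute.sum_right _ _ _ fun l _ => (comm_s (fun g => ?_) Z).mul_right (h4 l b Z)⟩
    · have := hz.normal
      rw [pow_succ, Gs_mul, ← Gs_p, sum_mul, sum_mul, sum_mul, sum_mul]
      refine sum_congr rfl fun l _ => ?_
      rw [mul_assoc, h2, ← hat_comm', ← s_mul, mul_assoc, ← mul_assoc (s (pw z _)),
        s_mul_hat (pw_mem z _), hat_comm']
      simp only [mul_assoc]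
    · exact Commute.mul_right (mem_center_iff.1 (pow_mem (pow_mem hc _) _) g) (pw_comm hz.comm _ g)

theorem gol_block (hz : Cen p z) (hw : w ∉ zpowers z) (hwp : w ^ p = 1) (hu : w ∈ Up hz)
    {e : ZMod p} (hx : x * w * x⁻¹ = w * pw z e) (he : e ≠ 0) {L : ℕ} (hL : (L : ZMod p) = 1)
    {m : ℤ} {Y : MonoidAlgebra ℤ E} (h : Gol p z m Y) :
    ∃ X : MonoidAlgebra ℤ E, Nn X ∧
      X * hat (zpowers z) = Gs x p * Y * Gs (x ^ L) p * hat (zpowers w ⊔ zpowers z) ∧
      (1 - s z) * (X * st X) = (1 - s z) * (p * (m * p) : ℤ) := by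
  obtain ⟨B, h1, h2, h3, h4⟩ := h
  have := plane_normal hz hu
  have := hz.normal
  refine ⟨∑ k, (∑ a, s (pw x a) * B a k) * s (pw (x ^ L) k) * Hh w z (-e * k),
    Nn.sum _ fun k => ((Nn.sum _ fun a => (Nn.s _).mul (h1 a k)).mul (Nn.s _)).mul (Nn.hat _),
    ?_, ?_⟩
  · have e1 : ∀ a k, B a k * hat (zpowers w ⊔ zpowers z) = Y * hat (zpowers w ⊔ zpowers z) :=
      fun a k => by
        rw [← Hh_hat hz hw hwp (0 : ZMod p), ← hat_comm' (zpowers z), ← mul_assoc, h2, mul_assoc]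
    rw [← Gs_p, ← Gs_p, sum_mul, mul_sum, sum_mul]
    refine sum_congr rfl fun k _ => ?_
    rw [mul_assoc, Hh_hat hz hw hwp, mul_assoc, mul_assoc _ (s _), ← hat_comm, ← mul_assoc,
      ← mul_assoc, sum_mul, sum_mul, sum_mul]
    simp only [mul_assoc (s _), e1]
    simp only [sum_mul, mul_assoc]
  · rw [blocks hz hw hwp (neg_ne_zero.2 he)]
    have e1 : ∀ k : ZMod p, s (pw (x ^ L) k) * Hh w z (-e * k) * s (pw (x ^ L) k)⁻¹ =
        Hh w z (0 : ZMod p) := fun k => by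
      rw [pw, ← pow_mul, Hh_conj hz hw hwp (conj_pow hz hx _), Nat.cast_mul, hL,
        ZMod.natCast_zmod_val]
      congr 1; ring
    have e2 : ∀ k, (∑ a, s (pw x a) * B a k) * s (pw (x ^ L) k) * Hh w z (-e * k) *
        st ((∑ a, s (pw x a) * B a k) * s (pw (x ^ L) k)) =
        (∑ a, s (pw x a) * Hh w z (0 : ZMod p) * B a k) * ∑ a, st (B a k) * s (pw x a)⁻¹ := by
      intro k
      rw [st_mul, st_s, mul_assoc _ (s _), ← mul_assoc, mul_assoc _ _ (s _), e1, map_sum, sum_mul]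
      simp only [st_mul, st_s, mul_assoc (s _), (h4 _ k (Hh w z (0 : ZMod p))).eq]
    have e3 : ∀ a : ZMod p, s (pw x a) * Hh w z (0 : ZMod p) * s (pw x a)⁻¹ = Hh w z (e * a) :=
      fun a => by
        rw [pw, Hh_conj hz hw hwp (conj_pow hz hx _), ZMod.natCast_zmod_val, zero_add, mul_comm]
    simp only [e2]
    rw [h3.sandwich hz]
    simp only [e3]
    rw [hz.left, Hh_sum hz hw hwp he, ← hz.left, ← hz.left]
    push_cast
    rfl

theorem mono_block (hz : Cen p z) (hw : w ∉ zpowers z) (hwp : w ^ p = 1)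
    {e : ZMod p} (hx : x * w * x⁻¹ = w * pw z e) (π : ℕ → ℕ) {c : ZMod p}
    (hπ : ∀ k, (π k : ZMod p) = c) :
    ∃ X : MonoidAlgebra ℤ E, Nn X ∧ X * hat (zpowers z) =
      (∑ k ∈ range p, s (x ^ π k)) * hat (zpowers w ⊔ zpowers z) ∧
      (1 - s z) * (X * st X) = (1 - s z) * (p * p : ℤ) := by
  refine ⟨∑ k : ZMod p, s (x ^ π k.val) * Hh w z (1 * k),
    Nn.sum _ fun k => (Nn.s _).mul (Nn.hat _), ?_, ?_⟩
  · rw [← sum_zmod, sum_mul, sum_mul]
    exact sum_congr rfl fun k _ => by rw [mul_assoc, Hh_hat hz hw hwp]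
  · rw [blocks hz hw hwp one_ne_zero]
    simp only [st_s, Hh_conj hz hw hwp (conj_pow hz hx _), hπ]
    rw [Fintype.sum_equiv (Equiv.addRight (c * e)) _ (fun k => Hh w z (1 * k)) (by simp),
      Hh_sum hz hw hwp one_ne_zero, ← hz.left]
    push_cast
    rfl

theorem wrap (hz : Cen p z) (hc : c ∈ center E) {N : ℕ} (h : c ^ N = 1)
    {X : MonoidAlgebra ℤ E} {n : ℤ} (hX : (1 - s z) * (X * st X) = (1 - s z) * n) :
    s c * (X * Gs c N) = X * Gs c N ∧ (1 - s z) * (X * Gs c N * st (X * Gs c N)) =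
      (1 - s z) * ((n * N : ℤ) * Gs c N) := by
  refine ⟨by rw [(Gs_comm hc N X).eq, ← mul_assoc, Gs_inv h], ?_⟩
  rw [st_mul, mul_assoc X, ← mul_assoc (Gs c N), Gs_st hc h, mul_assoc, ← (Gs_comm hc N _).eq,
    ← mul_assoc (N : MonoidAlgebra ℤ E), Nat.cast_comm, mul_assoc (st X), ← mul_assoc X,
    ← mul_assoc, hX, Int.cast_mul, Int.cast_natCast]
  simp only [mul_assoc]

theorem good_levels (hz : Cen p z) (hw : w ∉ zpowers z) (hwp : w ^ p = 1) (hu : w ∈ Up hz)
    {e : ZMod p} (hx : x * w * x⁻¹ = w * pw z e) (he : e ≠ 0) (hxp : x ^ p ∈ center E) (J : ℕ)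
    (hJ : x ^ (p ^ (J + 2) * p ^ (J + 1)) = 1)
    (htop : Gs x (p ^ (J + 2) * p ^ (J + 1)) * hat (zpowers w ⊔ zpowers z) = hat ⊤) :
    ∃ m X, Good z m X := by
  obtain ⟨q, hq⟩ : ∃ q, p = q + 1 := ⟨p - 1, (Nat.sub_add_cancel hp.out.one_le).symm⟩
  obtain ⟨A₀, hA₀⟩ : ∃ A, A + p = p ^ (J + 1) :=
    ⟨_, Nat.sub_add_cancel (Nat.le_self_pow (by omega) p)⟩
  have hA : (A₀ : ZMod p) = 0 := by simpa using congrArg (Nat.cast : ℕ → ZMod p) hA₀
  have hL : ((A₀ + 1 : ℕ) : ZMod p) = 1 := by simp [hA]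
  have sr : ∀ f : ℕ → MonoidAlgebra ℤ E, ∑ n ∈ range p, f n = ∑ n ∈ range q, f (n + 1) + f 0 :=
    fun f => by rw [show range p = range (q + 1) by rw [hq], sum_range_succ']
  set τ := x ^ p ^ (J + 2) with hτ
  have hτc : τ ∈ center E := by rw [hτ, pow_succ', pow_mul]; exact pow_mem hxp _
  have hcz : ∀ (g : ℕ) (i : ZMod p), τ ^ p ^ g * pw z i ∈ center E := fun g i =>
    mul_mem (pow_mem hτc _) (pow_mem (mem_center_iff.2 hz.comm) _)
  have hord : ∀ (g r : ℕ) (i : ZMod p), g + r = J → (τ ^ p ^ g * pw z i) ^ (p * p ^ r) = 1 := by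
    intro g r i h
    rw [Commute.mul_pow (pw_comm hz.comm i _), pow_mul (pw z i), pw_pow_p hz.pow, one_pow, mul_one,
      hτ, ← pow_mul, ← pow_mul, ← hJ, ← h]
    congr 1; ring
  set π : ZMod p → ℕ → ℕ := fun i k =>
    if k = 0 then (A₀ + 1) * i.val + A₀ else (A₀ + 1) * p + (p * (k - 1) + i.val) with hπ
  set W := Gs τ (p ^ (J + 1)) * hat (zpowers w ⊔ zpowers z) with hW
  have key : ∀ g r, g + r = J → ∃ (A : ℕ) (R : MonoidAlgebra ℤ E), A + p = p ^ (g + 1) ∧ Nn R ∧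
      R * hat (zpowers z) = (∑ i, ∑ k ∈ range p, s (x ^ π i k) + Gs x A * Gs (x ^ (A₀ + 1)) p) * W ∧
      s (τ ^ p ^ (g + 1)) * R = R ∧ (1 - s z) * (R * st R) =
        (1 - s z) * (((p : ℤ) ^ (J + g + 4) : ℤ) * Gs (τ ^ p ^ (g + 1)) (p ^ r)) := by
    intro g
    induction g with
    | zero =>
      intro r hr
      choose X h1 h2 h3 using fun i : ZMod p => mono_block hz hw hwp hx (π i) (c := i) fun k => by
        simp only [hπ]
        split_ifs <;> simp [hA]
      have h4 := fun i => wrap hz (hcz 0 i) (hord 0 r i hr) (h3 i)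
      have h5 := level hz (pow_mem hτc _) _ (fun i => (h4 i).1) fun i => (h4 i).2
      rw [← pow_mul, ← pow_succ] at h5
      refine ⟨0, _, by simp, Nn.sum _ fun i => (h1 i).mul (Gs_nn _ _), ?_, h5.1, h5.2.trans ?_⟩
      · rw [Gs, range_zero, sum_empty, zero_mul, add_zero, sum_mul, sum_mul]
        refine sum_congr rfl fun i _ => ?_
        rw [mul_assoc, Gs_hat hz, ← (Gs_comm (pow_mem hτc _) _ _).eq, ← mul_assoc, h2, mul_assoc,
          (Gs_comm (pow_mem hτc _) _ _).eq, hW, pow_zero, pow_one, ← pow_succ', ← hr, zero_add]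
      · congr 3
        rw [← hr]; push_cast; ring
    | succ g ih =>
      intro r hr
      obtain ⟨A, R, a1, a2, a3, a4, a5⟩ := ih (r + 1) (by omega)
      obtain ⟨X, h1, h2, h3⟩ := gol_block hz hw hwp hu hx he hL
        (gol_step hz hτc (gol_step hz hxp (gol_base hz) g) (g + 1))
      have h4 := fun (i : ZMod p) (n : ℕ) => wrap hz (hcz (g + 1) i) (hord _ r i hr)
        (hz.prod (X := s (x ^ n)) (m := 1) (by rw [st_s, s_mul, mul_inv_cancel, s_one]; simp) h3)
      have h5 := level hz (pow_mem hτc (p ^ (g + 1))) (M := p ^ r) (C := (p : ℤ) ^ (J + g + 4))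
        (fun i => if i.val = 0 then R else s (x ^ (A + p ^ (g + 1) * (i.val - 1))) * X *
          Gs (τ ^ p ^ (g + 1) * pw z i) (p * p ^ r)) (fun i => by
            split_ifs with h
            · rwa [pw, h, pow_zero, mul_one]
            · exact (h4 i _).1) fun i => by
            split_ifs with h
            · rw [pw, h, pow_zero, mul_one, a5, pow_succ' p r]
            · rw [(h4 i _).2]
              congr 3
              rw [← hr]; push_cast; ring
      rw [← pow_mul, ← pow_succ] at h5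
      refine ⟨A + p ^ (g + 1) * q, _, ?_, Nn.sum _ fun i => ?_, ?_, h5.1, h5.2.trans ?_⟩
      · rw [add_right_comm, a1, pow_succ p (g + 1), hq]; ring
      · split_ifs
        · exact a2
        · exact ((Nn.s _).mul h1).mul (Gs_nn _ _)
      · have e1 : ∀ i : ZMod p, X * Gs (τ ^ p ^ (g + 1) * pw z i) (p * p ^ r) * hat (zpowers z) =
            Gs x (p ^ (g + 1)) * Gs (x ^ (A₀ + 1)) p * W := fun i => by
          rw [mul_assoc, Gs_hat hz, ← (Gs_comm (pow_mem hτc _) _ _).eq, ← mul_assoc, h2, hW,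
            show p ^ (J + 1) = p ^ (g + 1) * (p * p ^ r) by rw [← hr]; ring, Gs_mul τ,
            pow_succ' p g, Gs_mul x, ← (Gs_comm hxp _ (Gs x p)).eq, ← pow_succ' p g,
            mul_one, ← (Gs_comm hτc _ (Gs (x ^ p) _)).eq, ← (Gs_comm (pow_mem hτc _) _ _).eq]
          simp only [mul_assoc]
          rw [← (Gs_comm (pow_mem hτc _) _ (hat _)).eq, ← mul_assoc (Gs τ _),
            ← (Gs_comm hτc _ (Gs (x ^ (A₀ + 1)) p)).eq, mul_assoc]
        have e2 := sum_zmod (p := p) fun n => if n = 0 then R * hat (zpowers z) else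
          s (x ^ (A + p ^ (g + 1) * (n - 1))) * (Gs x (p ^ (g + 1)) * Gs (x ^ (A₀ + 1)) p * W)
        rw [sum_mul]
        simp only [ite_mul, mul_assoc (s _), e1]
        rw [e2, sr, if_pos rfl, a3, Gs_add, Gs_mul, Gs.eq_1 (x ^ p ^ (g + 1))]
        generalize ∑ i, ∑ k ∈ range p, s (x ^ π i k) = T
        simp only [Nat.add_eq_zero_iff, one_ne_zero, and_false, if_false, add_tsub_cancel_right,
          add_mul, mul_sum, sum_mul, pow_add x, pow_mul x, ← s_mul, mul_assoc]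
        abel
      · congr 3
  obtain ⟨A, R, a1, a2, a3, -, a5⟩ := key J 0 rfl
  obtain rfl : A₀ = A := by omega
  refine ⟨_, R, a2, ?_, by rw [a5, pow_zero, Gs_one, mul_one]⟩
  have e1 : ∑ i, ∑ k ∈ range p, s (x ^ π i k) + Gs x A₀ * Gs (x ^ (A₀ + 1)) p =
      Gs x (p ^ (J + 2)) := by
    have e2 : Commute (Gs x A₀) (Gs (x ^ (A₀ + 1)) p) := Commute.sum_left _ _ _ fun a _ =>
      Commute.sum_right _ _ _ fun b _ => by
        rw [Commute, SemiconjBy, s_mul, s_mul, ← pow_mul, pow_mul_comm]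
    have e3 : ∀ i, ∑ k ∈ range p, s (x ^ π i k) = s (x ^ ((A₀ + 1) * p)) *
        (Gs (x ^ p) q * s (pw x i)) + s (pw (x ^ (A₀ + 1)) i) * s (x ^ A₀) := fun i => by
      rw [sr, Gs, sum_mul, mul_sum]
      simp only [hπ, Nat.add_eq_zero_iff, one_ne_zero, and_false, if_false, if_true,
        add_tsub_cancel_right, s_mul, pw, ← pow_mul, ← pow_add]
    rw [show p ^ (J + 2) = (A₀ + 1) * p + p * q by rw [pow_succ, ← hA₀, hq]; ring,
      Gs_add x ((A₀ + 1) * p), Gs_mul x (A₀ + 1), Gs_mul x p, Gs_add x A₀, Gs_one, mul_one, e2.eq,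
      mul_add, sum_congr rfl fun i _ => e3 i, sum_add_distrib, ← mul_sum, ← mul_sum, ← sum_mul,
      Gs_p, Gs_p]
    abel
  rw [a3, e1, hW, ← mul_assoc, (Gs_comm hτc _ _).eq, ← Gs_mul, htop]

end Pool.Agent.Lib.MP_2d211a_co.H62
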