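import Pool.Agent.Lib.MP_2d211a_co.H62Grp

/-! The two existence theorems. -/

namespace Pool.Agent.Lib.MP_2d211a_co.H62

open MonoidAlgebra Finset Subgroup

set_option linter.unusedSectionVars false

universe u

variable {p : ℕ} [hp : Fact p.Prime]

section

variable {E : Type*} [Group E] [Finite E] {z w : E}

theorem exists_max {n : ℕ} (hE : Nat.card E = p ^ n) {H : Subgroup E} (hH : H ≠ ⊤) :
    ∃ M : Subgroup E, H ≤ M ∧ M.Normal ∧ Nat.card E = p * Nat.card M := by
  obtain ⟨j, hj⟩ := ((IsPGroup.of_card hE).to_subgroup H).exists_card_eq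
  obtain ⟨k, rfl⟩ := exp_le hE hj
  obtain ⟨k, rfl⟩ : ∃ l, k = l + 1 := Nat.exists_eq_add_one_of_ne_zero fun h =>
    hH (H.eq_top_of_card_eq (by rw [hj, hE, h, zero_add]))
  obtain ⟨M, hM, hle⟩ := Sylow.exists_subgroup_card_pow_prime_le (G := E) p (m := k + j)
    (hE ▸ pow_dvd_pow p (by omega)) H hj (by omega)
  have h1 : Nat.card E = p * Nat.card M := by rw [hE, hM, ← pow_succ']; congr 1; omega
  refine ⟨M, hle, normal_of_index_eq_minFac_card ?_, h1⟩
  rw [hE, Nat.pow_minFac (by omega), hp.out.minFac_eq]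
  have := M.index_mul_card
  rw [h1] at this
  exact Nat.eq_of_mul_eq_mul_right Nat.card_pos this

theorem good_plane (hE : IsPGroup p E) (hz : Cen p z) (hw : w ∉ zpowers z) (hwp : w ^ p = 1)
    (hu : w ∈ Up hz) {x : E} (hx : x ∉ centralizer {w})
    (hq : zpowers x ⊔ (zpowers w ⊔ zpowers z) ≠ ⊤) : ∃ m X, Good z m X := by
  obtain ⟨n, hn⟩ := hE.exists_card_eq
  obtain ⟨M, h1, h2, h3⟩ := exists_max hn hq
  simp only [sup_le_iff, zpowers_le] at h1
  obtain ⟨e, he⟩ := hu x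
  refine good_golay hE hz hw hwp hu he (fun h => hx (cent_iff.2 ?_)) h3 h1.1 h1.2.1 h1.2.2
  rwa [h, pw_zero, mul_one, mul_inv_eq_iff_eq_mul] at he

theorem Good.card (hz : Cen p z) {m : ℤ} {X : MonoidAlgebra ℤ E} (h : Good z m X) :
    m * p = Nat.card E := by
  obtain ⟨R, h1, h2, -⟩ := h.rds hz.comm hz.ne
  rw [card_zp hz.ne hz.pow] at h1
  rw [← h2, ← h1]; simp

theorem Good.isRDS (hz : Cen p z) {m : ℤ} {X : MonoidAlgebra ℤ E} (h : Good z m X)
    (hw : p < Nat.card E) : ∃ R : Set E, IsSemiregularRDS (zpowers z) R := by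
  obtain ⟨R, h1, -, h3, h4⟩ := h.rds hz.comm hz.ne
  exact ⟨R, hz.normal, by rw [card_zp hz.ne hz.pow]; exact hp.out.one_lt,
    by rwa [card_zp hz.ne hz.pow], h1, h3, h4⟩

theorem cen_of_card {N : Subgroup E} (hN : N ≤ center E) (hc : Nat.card N = p) :
    ∃ z, Cen p z ∧ zpowers z = N := by
  have : Nontrivial N := Finite.one_lt_card_iff_nontrivial.1 (hc ▸ hp.out.one_lt)
  obtain ⟨⟨z, hz⟩, h1⟩ := exists_ne (1 : N)
  have h2 : z ≠ 1 := fun e => h1 (Subtype.ext e)
  have h3 : z ^ p = 1 := congrArg Subtype.val (hc ▸ pow_card_eq_one' (x := (⟨z, hz⟩ : N)))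
  exact ⟨z, ⟨mem_center_iff.1 (hN hz), h2, h3⟩,
    eq_of_le_of_card_ge (zpowers_le.2 hz) (by rw [hc, card_zp h2 h3])⟩

theorem normal_cen (hE : IsPGroup p E) (V : Subgroup E) [V.Normal] (hV : V ≠ ⊥) :
    ∃ y ∈ V, y ≠ 1 ∧ ∀ g, g * y = y * g := by
  have hC : IsPGroup p (ConjAct E) := hE.of_equiv ConjAct.toConjAct
  obtain ⟨j, hj⟩ := (hE.to_subgroup V).exists_card_eq
  have hd : p ∣ Nat.card V := hj ▸ dvd_pow_self p fun h => hV (card_eq_one.1 (by simp [hj, h]))
  obtain ⟨⟨y, hy⟩, h1, h2⟩ := hC.exists_fixed_point_of_prime_dvd_card_of_fixed_point V hd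
    (a := 1) (fun g => smul_one g)
  refine ⟨y, hy, fun e => h2 (Subtype.ext e.symm), fun g => ?_⟩
  have := congrArg Subtype.val (h1 (ConjAct.toConjAct g))
  exact mul_inv_eq_iff_eq_mul.1 this

theorem plane_rds (hE : IsPGroup p E) (V : Subgroup E) [V.Normal] (hc : Nat.card V = p ^ 2)
    (he : ∀ v ∈ V, v ^ p = 1) (hZ : ¬V ≤ center E) (hq : ¬IsCyclic (E ⧸ V)) :
    ∃ R : Set E, IsSemiregularRDS (V ⊓ center E) R := by
  have h1p := hp.out.one_lt
  obtain ⟨z, hzV, hz1, hz2⟩ := normal_cen hE V fun h => hZ (h ▸ bot_le)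
  have hz : Cen p z := ⟨hz2, hz1, he z hzV⟩
  have := hz.normal
  obtain ⟨y, ⟨w, hwV, rfl⟩, hw1, hw2⟩ := normal_cen (hE.to_quotient (zpowers z))
    (V.map (QuotientGroup.mk' (zpowers z))) (hV := fun h => by
      rw [Subgroup.map_eq_bot_iff, QuotientGroup.ker_mk'] at h
      have := card_le_of_le h
      rw [hc, card_zp hz.ne hz.pow] at this
      nlinarith)
  have hw : w ∉ zpowers z := fun h => hw1 ((QuotientGroup.eq_one_iff _).2 h)
  have hu : w ∈ Up hz := up_of_comm hz hw2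
  have hV : zpowers w ⊔ zpowers z = V := eq_of_le_of_card_ge
    (by simp only [sup_le_iff, zpowers_le]; exact ⟨hwV, hzV⟩)
    (by rw [hc, plane_card hz hw (he w hwV)])
  have hzc : zpowers z ≤ center E := zpowers_le.2 (mem_center_iff.2 hz2)
  obtain ⟨x, hx⟩ : ∃ x, x ∉ centralizer {w} := by
    by_contra hne
    push Not at hne
    exact hZ (hV ▸ sup_le (zpowers_le.2 (mem_center_iff.2 fun g => cent_iff.1 (hne g))) hzc)
  obtain ⟨m, X, hX⟩ := good_plane hE hz hw (he w hwV) hu hx fun h => hq ⟨x, fun g => by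
    obtain ⟨g, rfl⟩ := QuotientGroup.mk_surjective g
    rw [hV] at h
    obtain ⟨_, ⟨k, rfl⟩, b, hb, rfl⟩ := mem_sup_of_normal_right.1 (h ▸ mem_top g)
    exact ⟨k, by rw [QuotientGroup.mk_mul_of_mem _ hb]; rfl⟩⟩
  have hN : V ⊓ center E = zpowers z := by
    refine le_antisymm (fun v hv => ?_) (le_inf (zpowers_le.2 hzV) hzc)
    obtain ⟨a, b, rfl⟩ := plane_pow hz (he w hwV) (hV ▸ hv.1)
    have h2 : pw w a ∈ center E := (center E).mul_mem_cancel_right (hzc (pw_mem z b)) |>.1 hv.2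
    obtain rfl : (0 : ZMod p) = a := pw_inj (H := center E) (hE w)
      (fun h => hx (cent_iff.2 (mem_center_iff.1 h x))) 0 a (by simpa [pw_zero] using h2)
    simpa [pw_zero] using pw_mem z b
  rw [hN]
  refine hX.isRDS hz (lt_of_lt_of_le ?_ V.card_le_card_group)
  rw [hc]; nlinarith

end

theorem odd_good (hp2 : 2 < p) (k : ℕ) : ∀ (E : Type u) [Group E] [Finite E],
    Nat.card E = p ^ (2 * k + 1) → (∀ y : E, y ^ p ^ (k + 1) = 1) → ∀ z : E, Cen p z →
      ∃ X, Good z ((p : ℤ) ^ (2 * k)) X := by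
  have h1p := hp.out.one_lt
  induction k with
  | zero =>
    intro E _ _ hE _ z hz
    refine ⟨1, Nn.s 1, ?_, ?_⟩
    · rw [one_mul, eq_top_of_card_eq _ ((card_zp hz.ne hz.pow).trans (by simpa using hE.symm))]
    · rw [← s_one, st_s]; simp [s_one]
  | succ k ih =>
    intro E _ _ hE hexp z hz
    have hP : IsPGroup p E := IsPGroup.of_card hE
    have hc : ¬IsCyclic E := fun h => by
      obtain ⟨c, hc⟩ := h.exists_ofOrder_eq_natCard
      have := Nat.le_of_dvd (by positivity) (orderOf_dvd_of_pow_eq_one (hexp c))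
      rw [hc, hE, Nat.pow_le_pow_iff_right h1p] at this
      omega
    obtain ⟨w, hw, hwp, hu⟩ := exists_plane hp2 _ E hE hc z hz
    have := plane_normal hz hu
    suffices h : ∃ m X, Good z m X by
      obtain ⟨m, X, h⟩ := h
      have h1 := h.card hz
      rw [hE, Nat.cast_pow, pow_succ] at h1
      exact ⟨X, mul_right_cancel₀ (by positivity) h1 ▸ h⟩
    have fin : ∀ K : Subgroup E, Nat.card E = p * Nat.card K → K ≤ centralizer {w} → w ∈ K →
        z ∈ K → (∀ y ∈ K, y ^ p ^ (k + 1) = 1) → ∃ m X, Good z m X := by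
      intro K h1 h2 h3 h4 h5
      refine ⟨_, good_rec hP hz hw hwp hu (.inl hp2) h1 h2 h3 h4 (m := (p : ℤ) ^ (2 * k))
        fun H _ hH _ hz' => ih _ (card_quot (m := 1) ?_ (hH.trans (pow_one p).symm))
          (fun y => ?_) _ hz'⟩
      · rw [hE, pow_succ' p (2 * (k + 1))] at h1
        exact (Nat.eq_of_mul_eq_mul_left hp.out.pos h1).symm
      · obtain ⟨y, rfl⟩ := QuotientGroup.mk_surjective y
        rw [← QuotientGroup.mk_pow, show y ^ p ^ (k + 1) = 1 from Subtype.ext (h5 y y.2)]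
        rfl
    have hpp : ∀ y : E, y ^ p = 1 → y ^ p ^ (k + 1) = 1 := fun y h => by
      rw [pow_succ', pow_mul, h, one_pow]
    by_cases hcen : ∀ x, x ∈ centralizer {w}
    · obtain ⟨c, -, h2, h3⟩ := power_hom hp2 (k + 1) E _ hE le_rfl
      let φ : E →* E := MonoidHom.mk' (fun a => a ^ p ^ (k + 1)) h3
      have : IsCyclic φ.range := isCyclic_of_le (H' := zpowers c) (by
        rintro _ ⟨a, rfl⟩; exact h2 a)
      obtain ⟨⟨_, a, rfl⟩, ha⟩ := this.exists_ofOrder_eq_natCard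
      have h4 : Nat.card φ.range ∣ p := ha ▸ orderOf_dvd_of_pow_eq_one (Subtype.ext (by
        change (a ^ p ^ (k + 1)) ^ p = 1
        rw [← pow_mul, ← pow_succ, hexp]))
      rcases (Nat.dvd_prime hp.out).1 h4 with h5 | h5
      · obtain ⟨M, h6, -, h7⟩ := exists_max hE (H := zpowers w ⊔ zpowers z) fun h => by
          have := plane_card hz hw hwp
          rw [h, card_top, hE, Nat.pow_right_inj h1p] at this
          omega
        simp only [sup_le_iff, zpowers_le] at h6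
        exact fin M h7 (fun y _ => hcen y) h6.1 h6.2 fun y _ =>
          mem_bot.1 (card_eq_one.1 h5 ▸ MonoidHom.mem_range.2 ⟨y, rfl⟩ : φ y ∈ (⊥ : Subgroup E))
      · refine fin φ.ker ?_ (fun y _ => hcen y) (hpp w hwp) (hpp z hz.pow) fun y hy => hy
        rw [← h5, ← index_ker, index_mul_card]
    push Not at hcen
    obtain ⟨x, hx⟩ := hcen
    by_cases hq : zpowers x ⊔ (zpowers w ⊔ zpowers z) = ⊤
    swap
    · exact good_plane hP hz hw hwp hu hx hq
    obtain ⟨e, he⟩ := hu x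
    have he0 : e ≠ 0 := fun h => hx (cent_iff.2 (by
      rwa [h, pw_zero, mul_one, mul_inv_eq_iff_eq_mul] at he))
    have hVK : zpowers w ⊔ zpowers z ≤ centralizer {w} := by
      simp only [sup_le_iff, zpowers_le]
      exact ⟨cent_iff.2 rfl, cent_iff.2 (hz.comm w).symm⟩
    refine fin (centralizer {w}) ?_ le_rfl (cent_iff.2 rfl) (cent_iff.2 (hz.comm w).symm)
      fun y hy => ?_
    · rw [← card_top, card_coset (fun i : ZMod p => pw x i) le_top (fun _ => trivial)
        (pw_inj (hP x) hx) fun y _ => cent_sur hz hu he he0 y, ZMod.card]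
    · obtain ⟨a, ha, v, hv, rfl⟩ := mem_sup_of_normal_right.1 (hq ▸ mem_top y)
      obtain ⟨i, rfl⟩ := mem_powers_iff_mem_zpowers.2 ha
      have h1 : x ^ i ∈ centralizer {w} := (mul_mem_cancel_right (hVK hv)).1 hy
      obtain ⟨l, rfl⟩ : p ∣ i := by_contra fun h => hx (mem_of_pow_mem (hP x) h h1)
      have h2 : Commute (x ^ (p * l)) v := by
        obtain ⟨a, b, rfl⟩ := plane_pow hz hwp hv
        exact (Commute.pow_right (cent_iff.1 h1) _).mul_right (pw_comm hz.comm _ _)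
      rw [h2.mul_pow, hpp v (plane_exp hz hwp hv), mul_one, ← pow_mul, mul_right_comm, ← pow_succ',
        pow_mul, hexp, one_pow]

end Pool.Agent.Lib.MP_2d211a_co.H62
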