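import Pool.Agent.Lib.MP_2d211a_co.H62Two
import Pool.Agent.Lib.MP_2d211a_co.H62Lev

/-! Groups with a non-central normal subgroup of exponent `p`. -/

namespace Pool.Agent.Lib.MP_2d211a_co.H62

open Subgroup
open scoped commutatorElement

universe u

variable {p : ℕ} [hp : Fact p.Prime]

theorem good_noncentral {E : Type u} [Group E] [Finite E] {n : ℕ}
    (hE : Nat.card E = p ^ n) {w : E} (hw : w ^ p = 1) (hwZ : w ∉ center E)
    (hc : ∀ g : E, ⁅g, w⁆ ∈ center E)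
    (hexc : ∀ (V : Subgroup E) [V.Normal], Nat.card V = p ^ 2 → (∀ v ∈ V, v ^ p = 1) →
      IsCyclic (E ⧸ V) →
        (Odd n ∧ ∀ y : E, y ^ p ^ (n - 2) = 1) ∨ (2 < p ∧ ∀ y : E, y ^ p ^ 2 = 1)) :
    ∃ z : E, Cen p z ∧ ∃ m X, Good z m X := by
  have hP : IsPGroup p E := IsPGroup.of_card hE
  have h1p := hp.out.one_lt
  by_cases h : ∃ x y : E, ⁅x, w⁆ ≠ 1 ∧ ⁅y, w⁆ ∈ zpowers ⁅x, w⁆ ∧
      ∀ (i j : ℕ) (g : E), y ≠ x ^ i * w ^ j * ⁅g, w⁆
  · obtain ⟨x, y, h1, h2, h3⟩ := h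
    exact ⟨_, cen_comm hc hw h1, good_second n E hE w x y hw hc h1 h2 h3⟩
  push Not at h
  have hR : (kap hc).range ≤ center E := by rintro _ ⟨g, rfl⟩; exact hc g
  have hRn : (kap hc).range.Normal := ⟨fun a ha g => by
    rwa [mem_center_iff.1 (hR ha) g, mul_inv_cancel_right]⟩
  set D := zpowers w ⊔ (kap hc).range with hD
  have hD1 : ∀ d ∈ D, ∃ (j : ZMod p) (g : E), d = pw w j * ⁅g, w⁆ := fun d hd => by
    obtain ⟨a, ha, _, ⟨g, rfl⟩, rfl⟩ := mem_sup_of_normal_right.1 hd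
    obtain ⟨j, rfl⟩ := exists_pw hw ha
    exact ⟨j, g, rfl⟩
  have hD2 : ∀ (j : ℕ) (g : E), w ^ j * ⁅g, w⁆ ∈ D := fun j g =>
    mul_mem (mem_sup_left (npow_mem_zpowers w j)) (mem_sup_right ⟨g, rfl⟩)
  have hD3 : D ≤ (kap hc).ker := sup_le (zpowers_le.2 (commutatorElement_self w)) fun a ha =>
    commutatorElement_eq_one_iff_mul_comm.2 (mem_center_iff.1 (hR ha) w).symm
  have hD4 : ∀ d ∈ D, d ^ p = 1 := fun d hd => by
    obtain ⟨j, g, rfl⟩ := hD1 d hd
    rw [Commute.mul_pow (mem_center_iff.1 (hc g) _), pw_pow_p hw, comm_pow_p hc hw, one_mul]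
  have hDn : D.Normal := ⟨fun d hd s => by
    obtain ⟨j, g, rfl⟩ := hD1 d hd
    have : s * (pw w j * ⁅g, w⁆) * s⁻¹ = (⁅s, w⁆ * w) ^ j.val * ⁅g, w⁆ := by
      rw [commutatorElement_def s, inv_mul_cancel_right, _root_.conj_pow, ← mul_assoc, mul_assoc,
        ← mem_center_iff.1 (hc g), ← mul_assoc]
      rfl
    rw [this]
    have e : ∀ g : E, ⁅g, w⁆ ∈ D := fun g => by simpa using hD2 0 g
    exact mul_mem (pow_mem (mul_mem (e s) (mem_sup_left (mem_zpowers w))) _) (e g)⟩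
  by_cases hq : IsCyclic (E ⧸ D)
  · obtain ⟨x, hx⟩ := hq.exists_generator
    obtain ⟨x, rfl⟩ := QuotientGroup.mk_surjective x
    have h1 : ∀ g, ∃ (k : ℤ) (d : E), d ∈ D ∧ g = x ^ k * d := fun g => by
      obtain ⟨k, hk⟩ := hx g
      exact ⟨k, _, QuotientGroup.eq.1 (show ((x ^ k : E) : E ⧸ D) = g from hk), by group⟩
    have h2 : ∀ g : E, ⁅g, w⁆ ∈ zpowers ⁅x, w⁆ := fun g => by
      obtain ⟨k, d, hd, rfl⟩ := h1 g
      rw [← kap_apply hc (x ^ k * d), map_mul, hD3 hd, mul_one, map_zpow]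
      exact zpow_mem_zpowers _ k
    have h3 : ⁅x, w⁆ ≠ 1 := fun e => hwZ (mem_center_iff.2 fun g =>
      commutatorElement_eq_one_iff_mul_comm.1 (by simpa [e] using h2 g))
    have hz := cen_comm hc hw h3
    have hwz : w ∉ zpowers ⁅x, w⁆ := fun e => hwZ (zpowers_le.2 (hc x) e)
    have h4 : (kap hc).range = zpowers ⁅x, w⁆ :=
      le_antisymm (by rintro _ ⟨g, rfl⟩; exact h2 g) (zpowers_le.2 ⟨x, rfl⟩)
    have hDc : Nat.card D = p ^ 2 := by rw [hD, h4, plane_card hz hwz hw]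
    have hexp := hexc D hDc hD4 hq
    refine ⟨_, hz, ?_⟩
    obtain ⟨a, rfl⟩ := exp_le hE hDc
    have ho : orderOf (x : E ⧸ D) = p ^ a :=
      (orderOf_eq_card_of_forall_mem_zpowers hx).trans (card_quot hE hDc)
    have ha : a ≠ 0 := fun e => h3 (hD3 ((QuotientGroup.eq_one_iff x).1
      (orderOf_eq_one_iff.1 (by rw [ho, e, pow_zero]))))
    by_cases hold : 2 < p ∧ ∀ y : E, y ^ p ^ ((a + 2 + 1) / 2) = 1
    swap
    · have hdv : ∀ {i j : ℕ}, i ≤ j → (∀ y : E, y ^ p ^ i = 1) → ∀ y : E, y ^ p ^ j = 1 :=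
        fun h h' y => by rw [← Nat.add_sub_cancel' h, pow_add, pow_mul, h', one_pow]
      obtain ⟨⟨k, hk⟩, hexp⟩ := hexp.resolve_right fun e => hold ⟨e.1, hdv (by omega) e.2⟩
      rw [Nat.add_sub_cancel] at hexp
      obtain ⟨J, rfl⟩ : ∃ J, a = J + 2 + (J + 1) := by
        refine ⟨k - 2, by_contra fun e => ?_⟩
        obtain rfl : a = 1 := by omega
        rcases hp.out.two_le.eq_or_lt with rfl | hp2
        · have e : ∀ y : E, y⁻¹ = y := fun y => inv_eq_of_mul_eq_one_left (by simpa [sq] using hexp y)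
          exact h3 (commutatorElement_eq_one_iff_mul_comm.2 (by
            rw [← e (x * w), mul_inv_rev, e, e]))
        · exact hold ⟨hp2, hdv (by omega) hexp⟩
      refine good_levels hz hwz hw (up_of_mem hz h2) (x := x) (e := 1) ?_ one_ne_zero
        (mem_center_iff.2 fun g => ?_) J (pow_add p _ _ ▸ hexp x) ?_
      · rw [pw, ZMod.val_one, pow_one, hz.comm, commutatorElement_def, inv_mul_cancel_right]
      · obtain ⟨k, d, hd, rfl⟩ := h1 g
        obtain ⟨j, g, rfl⟩ := hD1 d hd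
        have e : Commute (x ^ p) w := commutatorElement_eq_one_iff_commute.1 (by
          rw [← kap_apply hc, map_pow, kap_apply, hz.pow])
        exact (((Commute.refl x).zpow_left k).pow_right p).mul_left
          ((e.symm.pow_left _).mul_left (mem_center_iff.1 (hc g) _).symm)
      · rw [← pow_add, ← h4, ← hD, Gs, ← Fin.sum_univ_eq_sum_range (fun i => s (x ^ i)),
          Finset.sum_mul]
        have inj : ∀ i j : Fin (p ^ (J + 2 + (J + 1))), (x ^ i.val)⁻¹ * x ^ j.val ∈ D → i = j :=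
          fun i j e => Fin.ext (pow_injOn_Iio_orderOf (x := (x : E ⧸ D)) (i.2.trans_eq ho.symm)
            (j.2.trans_eq ho.symm) (QuotientGroup.eq.2 e))
        exact sum_s_hat _ le_top (fun _ => trivial) inj (sur_of_card _ le_top (fun _ => trivial) inj
          (by rw [card_top, hE, hDc, Fintype.card_fin, pow_add]))
    obtain ⟨hp2, hexp⟩ := hold
    generalize a + 2 = n at hE hexp
    obtain ⟨k, rfl | rfl⟩ := Nat.even_or_odd' n
    swap
    · exact ⟨_, odd_good hp2 k E hE (by rwa [show (2 * k + 1 + 1) / 2 = k + 1 by omega] at hexp)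
        _ hz⟩
    obtain ⟨M, m1, -, m2⟩ := exists_max hE (H := zpowers x ⊔ zpowers ⁅x, w⁆) fun e => by
      have : zpowers x ⊔ zpowers ⁅x, w⁆ ≤ centralizer {x} := by
        simp only [sup_le_iff, zpowers_le]
        exact ⟨cent_iff.2 rfl, cent_iff.2 (hz.comm x).symm⟩
      exact h3 (commutatorElement_eq_one_iff_mul_comm.2
        (cent_iff.1 (this (e ▸ mem_top w))).symm)
    simp only [sup_le_iff, zpowers_le] at m1
    have hwM : w ∉ M := fun e => by
      have : M = ⊤ := eq_top_iff.2 fun g _ => by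
        obtain ⟨k, d, hd, rfl⟩ := h1 g
        exact M.mul_mem (M.zpow_mem m1.1 k)
          (sup_le (zpowers_le.2 e) (h4 ▸ zpowers_le.2 m1.2) hd)
      rw [this, card_top] at m2
      have := Nat.card_pos (α := E)
      nlinarith
    obtain ⟨l, hl⟩ := (hP.to_subgroup M).exists_card_eq
    rw [hE, hl, ← pow_succ', Nat.pow_right_inj h1p] at m2
    obtain ⟨k, rfl⟩ : ∃ j, k = j + 1 := ⟨k - 1, by omega⟩
    obtain ⟨X, hX⟩ := odd_good hp2 k M (by rw [hl]; congr 1; omega) (fun y => Subtype.ext (by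
      rw [show (2 * (k + 1) + 1) / 2 = k + 1 by omega] at hexp
      exact hexp y)) _ (hz.sub m1.2)
    exact good_step hp2 hz (by rw [hE, hl, ← pow_succ', m2]) m1.2 hwM hw hX
  obtain ⟨x, hx⟩ : ∃ x : E, ⁅x, w⁆ ≠ 1 := by
    by_contra hne
    push Not at hne
    exact hwZ (mem_center_iff.2 fun g => commutatorElement_eq_one_iff_mul_comm.1 (hne g))
  have h1 : ∀ x y : E, ⁅x, w⁆ ≠ 1 → ⁅y, w⁆ = 1 → ∃ (i : ℕ) (d : E), d ∈ D ∧ y = x ^ i * d :=
    fun x y hx hy => by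
      obtain ⟨i, j, g, e⟩ := h x y hx (hy ▸ one_mem _)
      exact ⟨i, _, hD2 j g, by rw [e, mul_assoc]⟩
  rcases hp.out.two_le.eq_or_lt with rfl | hp2
  · obtain ⟨y, hy⟩ : ∃ y : E, ⁅y, w⁆ ∉ zpowers ⁅x, w⁆ := by
      by_contra hne
      push Not at hne
      refine hq ⟨x, fun y => ?_⟩
      obtain ⟨y, rfl⟩ := QuotientGroup.mk_surjective y
      obtain ⟨i, j, g, rfl⟩ := h x y hx (hne y)
      rw [mul_assoc, QuotientGroup.mk_mul_of_mem _ (hD2 j g)]
      exact npow_mem_zpowers (x : E ⧸ D) i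
    by_cases ht : ∀ t : E, ⁅t, w⁆ ∈ zpowers ⁅y, w⁆ ⊔ zpowers ⁅x, w⁆
    · exact good_two hP hw hc hx hy ht h
    push Not at ht
    obtain ⟨t, ht⟩ := ht
    exact ⟨_, cen_comm hc hw hx, good_three hP hw hc hx hy ht⟩
  have h2 : ∀ y : E, ⁅y, w⁆ = 1 → (y : E ⧸ D) ∈ zpowers (x : E ⧸ D) := fun y hy => by
    obtain ⟨i, d, hd, rfl⟩ := h1 x y hx hy
    rw [QuotientGroup.mk_mul_of_mem _ hd]
    exact npow_mem_zpowers (x : E ⧸ D) i
  obtain ⟨t, ht1, ht2⟩ : ∃ t : E, t ^ p ∈ D ∧ ⁅t, w⁆ ≠ 1 := by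
    by_contra hne
    push Not at hne
    have : Nontrivial (E ⧸ D) := not_subsingleton_iff_nontrivial.1 fun _ =>
      hq isCyclic_of_subsingleton
    obtain ⟨a, ha⟩ := exists_cen (hP.to_quotient D)
    obtain ⟨k, hk⟩ := (hP.to_quotient D).exists_card_eq
    obtain ⟨b, b1, b2, -⟩ := exists_plane hp2 k _ hk hq a ha
    obtain ⟨a, rfl⟩ := QuotientGroup.mk_surjective a
    obtain ⟨b, rfl⟩ := QuotientGroup.mk_surjective b
    exact b1 (mem_of_cyc (h2 a (hne a ((QuotientGroup.eq_one_iff _).1 ha.pow)))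
      (h2 b (hne b ((QuotientGroup.eq_one_iff _).1 b2))) ha.ne ha.pow b2)
  have hz := cen_comm hc hw ht2
  have h3 : (kap hc).ker = D := le_antisymm (fun y hy => by
    obtain ⟨i, d, hd, rfl⟩ := h1 t y ht2 hy
    rw [MonoidHom.mem_ker, map_mul, hD3 hd, mul_one, map_pow] at hy
    obtain ⟨l, rfl⟩ : p ∣ i := by_contra fun e => ht2 (mem_bot.1
      (mem_of_pow_mem (H := ⊥) (hP _) e hy))
    exact mul_mem (pow_mul t p l ▸ pow_mem ht1 l) hd) hD3
  obtain ⟨s, hs⟩ := (hP.to_subgroup (kap hc).range).exists_card_eq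
  have h4 : Nat.card D = p * p ^ s := by
    rw [card_coset (fun l : ZMod p => pw w l) (H := (kap hc).range) le_sup_right
      (fun l => mem_sup_left (pw_mem w l)) (pw_inj (hP w) fun e => hwZ (hR e)), ZMod.card, hs]
    intro y hy
    obtain ⟨j, g, rfl⟩ := hD1 y hy
    exact ⟨j, g, by simp [kap_apply]⟩
  have h5 : Nat.card E = p ^ (2 * s + 1) := by
    rw [← (kap hc).ker.index_mul_card, index_ker, hs, h3, h4]; ring
  obtain ⟨s, rfl⟩ : ∃ j, s = j + 1 := Nat.exists_eq_add_one_of_ne_zero fun e => by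
    have h6 : (kap hc).range = ⊥ := card_eq_one.1 (by rw [hs, e, pow_zero])
    exact ht2 (mem_bot.1 (h6 ▸ (⟨t, rfl⟩ : ⁅t, w⁆ ∈ (kap hc).range)))
  refine ⟨_, hz, _, odd_good hp2 _ E h5 (fun y => ?_) _ hz⟩
  have : y ^ p ∈ D := h3 ▸ (by rw [MonoidHom.mem_ker, map_pow]; exact comm_pow_p hc hw y)
  rw [pow_succ', pow_succ', pow_mul, pow_mul, hD4 _ this, one_pow]

end Pool.Agent.Lib.MP_2d211a_co.H62
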