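import Pool.Agent.Lib.MP_2d211a_co.H62Main

/-! Products of relative difference sets along factorisations of the group. -/

namespace Pool.Agent.Lib.MP_2d211a_co.H62

open MonoidAlgebra Finset Subgroup

set_option linter.unusedSectionVars false

universe u

variable {p : ℕ} [hp : Fact p.Prime]

section

variable {E : Type*} [Group E] [Finite E] {z : E}

theorem Good.map (hz : Cen p z) {K : Subgroup E} (hzK : z ∈ K) {m : ℤ}
    {X : MonoidAlgebra ℤ K} (h : Good (⟨z, hzK⟩ : K) m X) :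
    ∃ Y : MonoidAlgebra ℤ E, Nn Y ∧ (∀ a ∉ K, Y.coeff a = 0) ∧ Y * hat (zpowers z) = hat K ∧
      (1 - s z) * (Y * st Y) = (1 - s z) * m := by
  refine ⟨mapDomainRingHom ℤ K.subtype X, h.nn.map _, fun a ha =>
    Finsupp.mapDomain_of_notMem_range _ _ (by simpa using ha), ?_, ?_⟩
  · have : mapDomainRingHom ℤ K.subtype (hat (zpowers ⟨z, hzK⟩)) = hat (zpowers z) := by
      rw [hat_zp hz.ne hz.pow, hat_zp (hz.sub hzK).ne (hz.sub hzK).pow, map_sum]
      simp only [map_s, pw, map_pow, subtype_apply]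
    rw [← this, ← map_mul, h.tr, map_hat_top]
  · simpa only [map_mul, map_sub, map_one, map_s, map_st, map_intCast, subtype_apply]
      using congrArg (mapDomainRingHom ℤ K.subtype) h.un

theorem Cen.prod (hz : Cen p z) {X Y : MonoidAlgebra ℤ E} {m n : ℤ}
    (hX : (1 - s z) * (X * st X) = (1 - s z) * m) (hY : (1 - s z) * (Y * st Y) = (1 - s z) * n) :
    (1 - s z) * (X * Y * st (X * Y)) = (1 - s z) * (n * m : ℤ) := by
  rw [st_mul, mul_assoc X, ← mul_assoc Y, ← mul_assoc X, hz.mid, hY, ← hz.mid, ← Int.cast_comm,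
    mul_assoc, hz.left, hX, ← hz.left, Int.cast_mul]

theorem good_step (hp2 : 2 < p) (hz : Cen p z) {K : Subgroup E}
    (hK : Nat.card E = p * Nat.card K) (hzK : z ∈ K) {g : E} (hg : g ∉ K) (hgp : g ^ p = 1)
    {m : ℤ} {X : MonoidAlgebra ℤ K} (h : Good (⟨z, hzK⟩ : K) m X) : ∃ m X, Good z m X := by
  obtain ⟨Y, h1, -, h2, h3⟩ := h.map hz hzK
  refine ⟨_, (∑ i : ZMod p, s (pw g i * pw z (i * i))) * Y, (Nn.sum _ fun _ => Nn.s _).mul h1, ?_,
    hz.prod (m := p) ?_ h3⟩
  · rw [mul_assoc, h2, sum_mul, ← coset_sum (p := p) (H := K) le_top (by rwa [card_top])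
      ⟨1, by simpa using hgp⟩ trivial hg]
    refine sum_congr rfl fun i _ => ?_
    rw [← s_mul, mul_assoc, s_mul_hat (g := pw z _) (K.pow_mem hzK _)]
  · have e : ∀ j d : ZMod p, s (pw g (d + j) * pw z ((d + j) * (d + j))) *
        s (pw g j * pw z (j * j))⁻¹ = s (pw g d * pw z (d * d)) * s (pw z (2 * d * j)) := by
      intro j d
      rw [s_mul, s_mul, mul_inv_rev, mul_assoc, ← mul_assoc (pw z _), ← pw_neg hz.pow,
        ← pw_add hz.pow, ← pw_comm hz.comm, ← mul_assoc, pw_add hgp, mul_inv_cancel_right,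
        mul_assoc, ← pw_add hz.pow]
      congr 3; ring
    have h2 : (2 : ZMod p) ≠ 0 := fun h =>
      absurd (Nat.le_of_dvd two_pos ((ZMod.natCast_eq_zero_iff 2 p).1 (by exact_mod_cast h)))
        (by omega)
    have e2 : (∑ i : ZMod p, s (pw g i * pw z (i * i))) *
        st (∑ i : ZMod p, s (pw g i * pw z (i * i))) =
        ∑ d : ZMod p, s (pw g d * pw z (d * d)) * ∑ j : ZMod p, s (pw z (2 * d * j)) := by
      simp only [map_sum, st_s, mul_sum, sum_mul, ← e]
      rw [sum_comm (γ := ZMod p)]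
      conv_rhs => rw [sum_comm]
      rw [sum_comm]
      exact sum_congr rfl fun j _ => (Fintype.sum_equiv (Equiv.addRight j) _ _ fun _ => rfl).symm
    rw [e2, mul_sum, sum_eq_single 0]
    · simp [pw_zero, s_one]
    · intro d _ hd
      rw [hz.left, hz.orth, if_neg (mul_ne_zero h2 hd)]
      simp
    · simp

theorem good_prod (hz : Cen p z) {S K : Subgroup E} (hzS : z ∈ S) (hzK : z ∈ K)
    (hI : S ⊓ K ≤ zpowers z) (hSK : ∀ g, ∃ a ∈ S, ∃ b ∈ K, a * b = g) {m n : ℤ}
    {X : MonoidAlgebra ℤ S} {Y : MonoidAlgebra ℤ K} (hX : Good (⟨z, hzS⟩ : S) m X)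
    (hY : Good (⟨z, hzK⟩ : K) n Y) : ∃ m X, Good z m X := by
  classical
  have := Fintype.ofFinite E
  obtain ⟨X, a1, a2, a3, a4⟩ := hX.map hz hzS
  obtain ⟨Y, b1, -, b3, b4⟩ := hY.map hz hzK
  refine ⟨_, X * Y, a1.mul b1, ?_, hz.prod a4 b4⟩
  ext g
  obtain ⟨a, ha, b, hb, rfl⟩ := hSK g
  have := congrArg (fun Z => Z.coeff a) a3
  simp only [coeff_mul_fin, hat_coeff, if_pos ha] at this
  rw [mul_assoc, b3, coeff_mul_fin, hat_coeff, if_pos (mem_top _), ← this]
  refine sum_congr rfl fun c _ => ?_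
  by_cases hc : c ∈ S
  · rw [hat_coeff, ← mul_assoc]
    congr 1
    refine if_congr ⟨fun h => hI ⟨S.mul_mem (S.inv_mem hc) ha, ?_⟩, fun h => ?_⟩ rfl rfl
    · exact (K.mul_mem_cancel_right hb).1 h
    · exact K.mul_mem (zpowers_le.2 hzK h) hb
  · rw [a2 c hc, zero_mul, zero_mul]

end

theorem exp_good (hp2 : 2 < p) (n : ℕ) : ∀ (E : Type u) [Group E] [Finite E],
    Nat.card E = p ^ n → (∀ y : E, y ^ p = 1) → ∀ z : E, Cen p z → ∃ m X, Good z m X := by
  induction n with
  | zero =>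
    intro E _ _ hE _ z hz
    have := (Nat.card_eq_one_iff_unique.1 (by simpa using hE)).1
    exact absurd (Subsingleton.elim _ _) hz.ne
  | succ n ih =>
    intro E _ _ hE hexp z hz
    by_cases h : zpowers z = ⊤
    · refine ⟨1, 1, Nn.s 1, by rw [one_mul, h], ?_⟩
      rw [← s_one, st_s]; simp [s_one]
    obtain ⟨M, h1, -, h2⟩ := exists_max hE h
    have hzM := zpowers_le.1 h1
    obtain ⟨m, X, hX⟩ := ih M (by
      rw [hE, pow_succ'] at h2
      exact (Nat.eq_of_mul_eq_mul_left hp.out.pos h2).symm) (fun y => Subtype.ext (hexp y)) _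
      (hz.sub hzM)
    obtain ⟨g, hg⟩ : ∃ g, g ∉ M := by
      by_contra hne
      push Not at hne
      rw [(eq_top_iff (a := M)).2 fun y _ => hne y, card_top] at h2
      have h1 := Nat.card_pos (α := E)
      nlinarith
    exact good_step hp2 hz h2 hzM hg (hexp g) hX

end Pool.Agent.Lib.MP_2d211a_co.H62
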