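import Pool.Agent.Lib.MP_2d211a_co.H62Gol

/-! The two constructions: Golay products and the recursion through sections. -/

namespace Pool.Agent.Lib.MP_2d211a_co.H62

open MonoidAlgebra Finset Subgroup

set_option linter.unusedSectionVars false

variable {E : Type*} [Group E] {p : ℕ} [hp : Fact p.Prime] [Finite E] {z w : E}

theorem Cen.normal (hz : Cen p z) : (zpowers z).Normal := ⟨fun n hn g => by
  obtain ⟨c, rfl⟩ := exists_pw hz.pow hn
  rwa [pw_comm hz.comm, mul_inv_cancel_right]⟩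

/-- The elements that are central modulo `⟨z⟩`. -/
def Up (hz : Cen p z) : Subgroup E where
  carrier := {y | ∀ g, ∃ e : ZMod p, g * y * g⁻¹ = y * pw z e}
  one_mem' g := ⟨0, by simp [pw_zero]⟩
  mul_mem' {a b} ha hb g := by
    obtain ⟨e, he⟩ := ha g
    obtain ⟨f, hf⟩ := hb g
    refine ⟨e + f, ?_⟩
    have : g * (a * b) * g⁻¹ = g * a * g⁻¹ * (g * b * g⁻¹) := by group
    rw [this, he, hf, pw_add hz.pow, mul_assoc, ← mul_assoc (pw z e), ← pw_comm hz.comm]
    simp only [mul_assoc]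
  inv_mem' {a} ha g := by
    obtain ⟨e, he⟩ := ha g
    refine ⟨-e, ?_⟩
    have : g * a⁻¹ * g⁻¹ = (g * a * g⁻¹)⁻¹ := by group
    rw [this, he, mul_inv_rev, ← pw_neg hz.pow, pw_comm hz.comm]

theorem cent_iff {g : E} : g ∈ centralizer {w} ↔ g * w = w * g := mem_centralizer_singleton_iff

theorem cent_sur (hz : Cen p z) (hu : w ∈ Up hz) {x : E} {e : ZMod p}
    (hx : x * w * x⁻¹ = w * pw z e) (he : e ≠ 0) (y : E) :
    ∃ i : ZMod p, (pw x i)⁻¹ * y ∈ centralizer {w} := by
  obtain ⟨f, hf⟩ := hu y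
  refine ⟨f / e, cent_iff.2 ?_⟩
  have h := conj_pow hz hx (f / e).val
  rw [ZMod.natCast_zmod_val, div_mul_cancel₀ _ he, ← hf] at h
  change pw x (f / e) * w * (pw x (f / e))⁻¹ = _ at h
  calc (pw x (f / e))⁻¹ * y * w = (pw x (f / e))⁻¹ * (y * w * y⁻¹) * y := by group
    _ = _ := by rw [← h]; group

theorem not_cent (hz : Cen p z) {x : E} {e : ZMod p}
    (hx : x * w * x⁻¹ = w * pw z e) (he : e ≠ 0) : x ∉ centralizer {w} := fun h => by
  rw [cent_iff.1 h, mul_inv_cancel_right, left_eq_mul] at hx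
  exact he (pw_inj (H := ⊥) ⟨1, by simpa using hz.pow⟩ (by simpa using hz.ne) 0 e
    (by simp [hx, pw_zero])).symm

theorem Hh_comm (hz : Cen p z) (hw : w ∉ zpowers z) (hwp : w ^ p = 1) {G : Type*} [Group G]
    (f : G →* E) (h : ∀ g, f g * w = w * f g) (X : MonoidAlgebra ℤ G) (i : ZMod p) :
    Commute (mapDomainRingHom ℤ f X) (Hh w z i) := by
  rw [Hh_eq hz hw hwp]
  refine Commute.sum_right _ _ _ fun l _ => comm_map f (fun g => ?_) X
  exact (Commute.pow_right (h g) _).mul_right (pw_comm hz.comm _ _)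

theorem Cen.sub (hz : Cen p z) {K : Subgroup E} (h : z ∈ K) : Cen p (⟨z, h⟩ : K) :=
  ⟨fun g => Subtype.ext (hz.comm g), fun e => hz.ne (congrArg Subtype.val e),
    Subtype.ext hz.pow⟩

theorem map_hat_top (K : Subgroup E) : mapDomainRingHom ℤ K.subtype (hat ⊤) = hat K := by
  rw [← subgroupOf_self, map_hat K K le_rfl]

/-- The Golay construction. -/
theorem good_golay (hE : IsPGroup p E) (hz : Cen p z) (hw : w ∉ zpowers z) (hwp : w ^ p = 1)
    (hu : w ∈ Up hz) {x : E} {e : ZMod p} (hx : x * w * x⁻¹ = w * pw z e) (he : e ≠ 0)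
    {M : Subgroup E} [M.Normal] (hM : Nat.card E = p * Nat.card M) (hxM : x ∈ M) (hwM : w ∈ M)
    (hzM : z ∈ M) : ∃ m X, Good z m X := by
  have := hz.normal
  set L := centralizer {w} ⊓ M with hL
  obtain ⟨g, hgK, hgM⟩ : ∃ g ∈ centralizer {w}, g ∉ M := by
    by_contra hne
    push Not at hne
    have : M = ⊤ := eq_top_iff.2 fun y _ => by
      obtain ⟨i, hi⟩ := cent_sur hz hu hx he y
      simpa [pw] using M.mul_mem (M.pow_mem hxM i.val) (hne _ hi)
    rw [this, card_top] at hM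
    have h1 := Nat.card_pos (α := E)
    have h2 := hp.out.one_lt
    nlinarith
  have hzL : z ∈ L := ⟨cent_iff.2 (hz.comm w).symm, hzM⟩
  have hVL : zpowers w ⊔ zpowers z ≤ L := by
    simp only [sup_le_iff, zpowers_le]
    exact ⟨⟨cent_iff.2 rfl, hwM⟩, hzL⟩
  obtain ⟨m, B, h1, h2, h3⟩ := golay (hE.to_subgroup L) (hz.sub hzL)
    (V := (zpowers w ⊔ zpowers z).subgroupOf L) (mem_sup_right (mem_zpowers z))
  set J := mapDomainRingHom ℤ L.subtype with hJ
  have h3' : Uni z m fun a b => J (B a b) := fun a a' => by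
    have := congrArg J (h3 a a')
    simpa only [map_mul, map_sub, map_one, map_sum, hJ, map_s, map_st, map_zero, map_intCast,
      subtype_apply, apply_ite (mapDomainRingHom ℤ L.subtype)] using this
  set U : ZMod p → MonoidAlgebra ℤ E := fun b => ∑ a, s (pw x a * pw g a) * J (B a b) with hU
  have hc : ∀ b : ZMod p, s (pw x b) * Hh w z (0 : ZMod p) * s (pw x b)⁻¹ = Hh w z (e * b) :=
    fun b => by
      rw [pw, Hh_conj hz hw hwp (conj_pow hz hx _), ZMod.natCast_zmod_val, zero_add, mul_comm]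
  have hT : ∀ b, U b * s (pw x b)⁻¹ * Hh w z (e * b) =
      U b * Hh w z (0 : ZMod p) * s (pw x b)⁻¹ := fun b => by
    rw [← hc, mul_assoc, ← mul_assoc (s _), ← mul_assoc (s _), s_mul, inv_mul_cancel, s_one,
      one_mul, mul_assoc]
  refine ⟨p * (m * p), ∑ b, U b * s (pw x b)⁻¹ * Hh w z (e * b), Nn.sum _ fun b =>
    ((Nn.sum _ fun a => (Nn.s _).mul ((h1 a b).map _)).mul (Nn.s _)).mul (Nn.hat _), ?_, ?_⟩
  · have e1 : ∑ b : ZMod p, hat L * s (pw x b)⁻¹ = hat M := by
      rw [← st_hat M, ← sum_s_hat (fun b : ZMod p => pw x b) (H := L) inf_le_right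
        (fun b => M.pow_mem hxM _) (pw_inj (hE x) fun h => not_cent hz hx he h.1), map_sum]
      · simp only [st_mul, st_hat, st_s]
      · intro y hy
        obtain ⟨i, hi⟩ := cent_sur hz hu hx he y
        exact ⟨i, hi, M.mul_mem (M.inv_mem (M.pow_mem hxM _)) hy⟩
    have e2 : ∀ a b, J (B a b) * hat (zpowers w ⊔ zpowers z) = hat L := fun a b => by
      rw [← map_hat L _ hVL, ← map_mul, h2, map_hat_top]
    have e3 : ∀ b, U b * s (pw x b)⁻¹ * Hh w z (e * b) * hat (zpowers z) =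
        ∑ a : ZMod p, s (pw x a * pw g a) * (hat L * s (pw x b)⁻¹) := fun b => by
      rw [hT, mul_assoc, ← hat_comm, ← mul_assoc, mul_assoc (U b), Hh_hat hz hw hwp, hU]
      simp only [sum_mul, mul_assoc]
      simp only [← mul_assoc (J _), e2]
    rw [sum_mul]
    simp only [e3]
    rw [sum_comm, ← coset_sum (p := p) (H := M) le_top (by rwa [card_top]) (hE g) trivial hgM]
    refine sum_congr rfl fun a _ => ?_
    rw [← mul_sum, e1, ← s_mul, mul_assoc, ← hat_comm, ← mul_assoc,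
      s_mul_hat (g := pw x a) (M.pow_mem hxM _)]
  · rw [blocks hz hw hwp he]
    have e1 : ∀ b, U b * s (pw x b)⁻¹ * Hh w z (e * b) * st (U b * s (pw x b)⁻¹) =
        (∑ a, s (pw x a * pw g a) * J (B a b)) *
          ∑ a, st (J (B a b)) * (Hh w z (0 : ZMod p) * s (pw x a * pw g a)⁻¹) := fun b => by
      rw [hT, st_mul, st_s, inv_inv, mul_assoc, ← mul_assoc (s _), s_mul, inv_mul_cancel, s_one,
        one_mul, mul_assoc, hU]
      congr 1
      rw [map_sum, mul_sum]
      refine sum_congr rfl fun a _ => ?_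
      rw [st_mul, st_s, ← mul_assoc, ← mul_assoc, hJ, ← map_st,
        (Hh_comm hz hw hwp L.subtype (fun y => cent_iff.1 y.2.1) _ _).eq]
    have e2 : ∀ a : ZMod p, s (pw x a * pw g a) * (Hh w z (0 : ZMod p) * s (pw x a * pw g a)⁻¹) =
        Hh w z (e * a) := fun a => by
      have hg : pw g a * w * (pw g a)⁻¹ = w * pw z (0 : ZMod p) := by
        rw [cent_iff.1 (show pw g a ∈ _ from (centralizer {w}).pow_mem hgK a.val), pw_zero]
        group
      have := Hh_conj hz hw hwp hg 0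
      rw [add_zero] at this
      rw [← hc, ← this, mul_inv_rev, ← s_mul, ← s_mul, this]
      conv_rhs => rw [← this]
      simp only [mul_assoc]
    simp only [e1]
    rw [h3'.sandwich hz]
    simp only [e2]
    have := Hh_sum hz hw hwp he
    rw [hz.left, this, ← hz.left, ← hz.left]
    push_cast
    rfl

theorem pull {G Q : Type*} [Group G] [Finite G] [Group Q] (f : G →* Q) (Y : MonoidAlgebra ℤ G)
    (y : G) : (Y * hat f.ker).coeff y = (mapDomainRingHom ℤ f Y).coeff (f y) := by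
  classical
  induction Y using induction_linear with
  | zero => simp
  | add a b ha hb => simp only [add_mul, map_add, coeff_add, Finsupp.add_apply, ha, hb]
  | single g r =>
    simp [hat_coeff, Finsupp.single_apply, MonoidHom.mem_ker, inv_mul_eq_one]

theorem lift {G Q : Type*} [Group G] [Finite G] [Group Q] [Finite Q] (f : G →* Q)
    (hf : Function.Surjective f) {z : G} (hz : Cen p z) (hz' : f z ≠ 1) {m : ℤ}
    {X : MonoidAlgebra ℤ Q} (h : Good (f z) m X) :
    ∃ Y : MonoidAlgebra ℤ G, Nn (Y * hat f.ker) ∧ Y * hat (zpowers z) * hat f.ker = hat ⊤ ∧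
      (1 - s z) * (Y * st Y) * hat f.ker = (1 - s z) * m * hat f.ker := by
  obtain ⟨Y, rfl⟩ : ∃ Y, mapDomainRingHom ℤ f Y = X := by
    obtain ⟨Y, hY⟩ := Finsupp.mapDomain_surjective hf X.coeff
    exact ⟨.ofCoeff Y, MonoidAlgebra.ext hY⟩
  refine ⟨Y, fun y => pull f Y y ▸ h.nn _, ?_, ?_⟩
  · ext y
    have : mapDomainRingHom ℤ f (hat (zpowers z)) = hat (zpowers (f z)) := by
      rw [hat_zp hz.ne hz.pow, hat_zp hz' (by rw [← map_pow, hz.pow, map_one]), map_sum]
      simp only [map_s, pw, map_pow]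
    rw [pull, map_mul, this, h.tr]
    simp [hat_coeff]
  · ext y
    rw [pull, pull]
    simp only [map_mul, map_sub, map_one, map_s, map_st, map_intCast, h.un]

/-- The recursive construction. -/
theorem good_rec (hE : IsPGroup p E) (hz : Cen p z) (hw : w ∉ zpowers z) (hwp : w ^ p = 1)
    (hu : w ∈ Up hz) (hp2 : 2 < p ∨ w ∈ center E) {K : Subgroup E}
    (hK : Nat.card E = p * Nat.card K)
    (hKw : K ≤ centralizer {w}) (hwK : w ∈ K) (hzK : z ∈ K) {m : ℤ}
    (ih : ∀ (H : Subgroup K) [H.Normal], Nat.card H = p →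
      (∃ i : ZMod p, H = (zpowers (w * pw z i)).subgroupOf K) → Cen p (QuotientGroup.mk ⟨z, hzK⟩ : K ⧸ H) →
        ∃ X, Good (QuotientGroup.mk ⟨z, hzK⟩ : K ⧸ H) m X) : ∃ X, Good z (p * (m * p)) X := by
  have := hz.normal
  obtain ⟨g, hg⟩ : ∃ g, g ∉ K := by
    by_contra hne
    push Not at hne
    rw [(eq_top_iff (a := K)).2 fun y _ => hne y, card_top] at hK
    have h1 := Nat.card_pos (α := E)
    have h2 := hp.out.one_lt
    nlinarith
  obtain ⟨e, he⟩ := hu g
  obtain ⟨c, hc, hce⟩ : ∃ c : ZMod p, c ≠ 0 ∧ c + e ≠ 0 := by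
    rcases hp2 with hp2 | hp2
    swap
    · obtain rfl : e = 0 := by_contra fun h =>
        not_cent hz he h (cent_iff.2 (mem_center_iff.1 hp2 g))
      exact ⟨1, one_ne_zero, by simp⟩
    obtain ⟨c, -, h⟩ := exists_mem_notMem_of_card_lt_card (s := {0, -e}) (t := univ)
      (card_le_two.trans_lt (by rwa [card_univ, ZMod.card]))
    simp only [mem_insert, mem_singleton, not_or] at h
    exact ⟨c, h.1, fun h' => h.2 (eq_neg_of_add_eq_zero_left h')⟩
  set J := mapDomainRingHom ℤ K.subtype with hJ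
  have key : ∀ i : ZMod p, ∃ Y, Nn (J Y * Hh w z i) ∧ J Y * hat (zpowers z) * Hh w z i = hat K ∧
      (1 - s z) * (J Y * st (J Y)) * Hh w z i = (1 - s z) * m * Hh w z i := by
    intro i
    have h1 : zpowers (w * pw z i) ≤ K := zpowers_le.2 (K.mul_mem hwK (K.pow_mem hzK _))
    have h2 : ∀ y : K, (y : E) * (w * pw z i) = w * pw z i * y := fun y =>
      Commute.mul_right (cent_iff.1 (hKw y.2)) (pw_comm hz.comm _ _)
    set H := (zpowers (w * pw z i)).subgroupOf K with hH
    have : H.Normal := ⟨fun n hn y => by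
      obtain ⟨k, hk⟩ := mem_subgroupOf.1 hn
      refine mem_subgroupOf.2 ⟨k, ?_⟩
      simp only [Subgroup.coe_mul, InvMemClass.coe_inv, ← hk]
      rw [(Commute.zpow_right (h2 y) k).eq, mul_inv_cancel_right]⟩
    have hcard : Nat.card H = p := by
      rw [Nat.card_congr (subgroupOfEquivOfLe h1).toEquiv, card_zp (wz_ne hw i) (wz_pow hz hwp i)]
    have hne : (QuotientGroup.mk ⟨z, hzK⟩ : K ⧸ H) ≠ 1 := fun h => by
      have h3 : zpowers z ≤ zpowers (w * pw z i) :=
        zpowers_le.2 (mem_subgroupOf.1 ((QuotientGroup.eq_one_iff _).1 h))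
      have h4 := eq_of_le_of_card_ge h3
        (by rw [card_zp hz.ne hz.pow, card_zp (wz_ne hw i) (wz_pow hz hwp i)])
      exact hw (((zpowers z).mul_mem_cancel_right (pw_mem z i)).1 (h4 ▸ mem_zpowers _))
    obtain ⟨X, hX⟩ := ih H hcard ⟨i, hH⟩ ⟨fun y => by
      obtain ⟨y, rfl⟩ := QuotientGroup.mk_surjective y
      rw [← QuotientGroup.mk_mul, (hz.sub hzK).comm, QuotientGroup.mk_mul], hne, by
      rw [← QuotientGroup.mk_pow, (hz.sub hzK).pow, QuotientGroup.mk_one]⟩
    obtain ⟨Y, e1, e2, e3⟩ := lift (QuotientGroup.mk' H) (QuotientGroup.mk'_surjective H)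
      (hz.sub hzK) hne hX
    rw [QuotientGroup.ker_mk'] at e1 e2 e3
    have j1 : J (hat H) = Hh w z i := map_hat K _ h1
    have j2 : J (hat (zpowers ⟨z, hzK⟩)) = hat (zpowers z) := by
      rw [hat_zp hz.ne hz.pow, hat_zp (hz.sub hzK).ne (hz.sub hzK).pow, map_sum]
      simp only [hJ, map_s, pw, map_pow, subtype_apply]
    refine ⟨Y, ?_, ?_, ?_⟩
    · rw [← j1, ← map_mul]; exact e1.map _
    · rw [← j1, ← j2, ← map_mul, ← map_mul, e2, map_hat_top]
    · have := congrArg J e3
      simp only [map_mul, j1] at this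
      simpa only [map_sub, map_one, hJ, map_s, map_st, map_intCast, subtype_apply] using this
  choose Y h1 h2 h3 using key
  refine ⟨∑ i, s (pw g i) * J (Y (c * i)) * Hh w z (c * i),
    Nn.sum _ fun i => by rw [mul_assoc]; exact (Nn.s _).mul (h1 _), ?_, ?_⟩
  · rw [sum_mul, ← coset_sum (p := p) (H := K) le_top (by rwa [card_top]) (hE g) trivial hg]
    refine sum_congr rfl fun i _ => ?_
    rw [← h2 (c * i), mul_assoc, ← hat_comm']
    simp only [mul_assoc]
  · rw [blocks hz hw hwp hc, mul_sum]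
    have e1 : ∀ i : ZMod p, (1 - s z) * (s (pw g i) * J (Y (c * i)) * Hh w z (c * i) *
        st (s (pw g i) * J (Y (c * i)))) = m * ((1 - s z) * Hh w z ((c + e) * i)) := fun i => by
      have : s (pw g i) * J (Y (c * i)) * Hh w z (c * i) * st (s (pw g i) * J (Y (c * i))) =
          s (pw g i) * (J (Y (c * i)) * st (J (Y (c * i))) * Hh w z (c * i)) * s (pw g i)⁻¹ := by
        rw [st_mul, st_s, hJ, ← map_st, mul_assoc (mapDomainRingHom _ _ _),
          (Hh_comm hz hw hwp K.subtype (fun y => cent_iff.1 (hKw y.2)) _ _).eq]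
        simp only [mul_assoc]
      rw [this, hz.mid, ← mul_assoc (1 - s z), h3, mul_assoc (1 - s z), ← hz.mid, ← hz.left,
        ← mul_assoc (s _), ← Int.cast_comm, mul_assoc (m : MonoidAlgebra ℤ E),
        mul_assoc (m : MonoidAlgebra ℤ E), pw, Hh_conj hz hw hwp (conj_pow hz he _),
        ZMod.natCast_zmod_val, add_mul, mul_comm i]
    simp only [e1]
    rw [← mul_sum, ← mul_sum, Hh_sum hz hw hwp hce, ← hz.left, ← hz.left]
    push_cast
    rfl

end Pool.Agent.Lib.MP_2d211a_co.H62
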