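import Pool.Agent.Lib.MP_2d211a_co.H62Alp

/-! Groups with an element of order `p` in the second centre. -/

namespace Pool.Agent.Lib.MP_2d211a_co.H62

open Subgroup
open scoped commutatorElement

set_option linter.unusedSectionVars false

universe u

variable {p : ℕ} [hp : Fact p.Prime]

section

variable {E : Type*} [Group E] [Finite E] {z w : E}

/-- The commutator map of an element of the second centre. -/
def kap (h : ∀ g : E, ⁅g, w⁆ ∈ center E) : E →* E :=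
  MonoidHom.mk' (fun g => ⁅g, w⁆) fun a b => by
    have e := mem_center_iff.1 (h b)
    calc ⁅a * b, w⁆ = a * ⁅b, w⁆ * (w * a⁻¹ * w⁻¹) := by simp only [commutatorElement_def]; group
      _ = ⁅b, w⁆ * ⁅a, w⁆ := by rw [e a, commutatorElement_def a]; simp only [mul_assoc]
      _ = _ := (e _).symm

theorem kap_apply (h : ∀ g : E, ⁅g, w⁆ ∈ center E) (g : E) : kap h g = ⁅g, w⁆ := rfl

theorem comm_pow_p (h : ∀ g : E, ⁅g, w⁆ ∈ center E) (hw : w ^ p = 1) (g : E) :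
    ⁅g, w⁆ ^ p = 1 := by
  have e : (⁅g, w⁆ * w) ^ p = 1 := by
    rw [commutatorElement_def, inv_mul_cancel_right, _root_.conj_pow, hw, mul_one, mul_inv_cancel]
  rwa [Commute.mul_pow (mem_center_iff.1 (h g) w).symm, hw, mul_one] at e

theorem cen_comm (h : ∀ g : E, ⁅g, w⁆ ∈ center E) (hw : w ^ p = 1) {g : E} (hg : ⁅g, w⁆ ≠ 1) :
    Cen p ⁅g, w⁆ := ⟨mem_center_iff.1 (h g), hg, comm_pow_p h hw g⟩

theorem up_of_mem (hz : Cen p z) (h : ∀ g : E, ⁅g, w⁆ ∈ zpowers z) : w ∈ Up hz := fun g => by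
  obtain ⟨e, he⟩ := exists_pw hz.pow (h g)
  exact ⟨e, by rw [pw_comm hz.comm, ← he, commutatorElement_def, inv_mul_cancel_right]⟩

theorem Good.fix (hz : Cen p z) {n : ℕ} (hE : Nat.card E = p ^ (n + 1))
    (h : ∃ m X, Good z m X) : ∃ X, Good z ((p : ℤ) ^ n) X := by
  obtain ⟨m, X, h⟩ := h
  have h1 := h.card hz
  rw [hE, Nat.cast_pow, pow_succ] at h1
  exact ⟨X, mul_right_cancel₀ (Nat.cast_ne_zero.2 hp.out.ne_zero) h1 ▸ h⟩

theorem mem_of_cyc {x a b : E} (ha : a ∈ zpowers x) (hb : b ∈ zpowers x) (h1 : a ≠ 1)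
    (hap : a ^ p = 1) (hbp : b ^ p = 1) : b ∈ zpowers a := by
  classical
  have := Fintype.ofFinite (zpowers x)
  have h := IsCyclic.card_pow_eq_one_le (α := zpowers x) hp.out.pos
  have h2 : Finset.univ.filter (fun c : zpowers x => (c : E) ∈ zpowers a) =
      Finset.univ.filter fun c : zpowers x => c ^ p = 1 := by
    refine Finset.eq_of_subset_of_card_le (fun c hc => ?_) (h.trans ?_)
    · obtain ⟨e, he⟩ := exists_pw hap (Finset.mem_filter.1 hc).2
      exact Finset.mem_filter.2 ⟨Finset.mem_univ _, Subtype.ext (he ▸ pw_pow_p hap e :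
        (c : E) ^ p = 1)⟩
    · rw [← Fintype.card_subtype, ← Nat.card_eq_fintype_card, ← card_zp h1 hap]
      exact (Nat.card_congr (subgroupOfEquivOfLe (zpowers_le.2 ha)).toEquiv).ge
  have h3 : (⟨b, hb⟩ : zpowers x) ∈ Finset.univ.filter fun c : zpowers x => c ^ p = 1 :=
    Finset.mem_filter.2 ⟨Finset.mem_univ _, Subtype.ext hbp⟩
  rw [← h2] at h3
  exact (Finset.mem_filter.1 h3).2

end

theorem good_second (n : ℕ) : ∀ (E : Type u) [Group E] [Finite E],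
    Nat.card E = p ^ n → ∀ w x y : E, w ^ p = 1 → (∀ g : E, ⁅g, w⁆ ∈ center E) → ⁅x, w⁆ ≠ 1 →
      ⁅y, w⁆ ∈ zpowers ⁅x, w⁆ → (∀ (i j : ℕ) (g : E), y ≠ x ^ i * w ^ j * ⁅g, w⁆) →
        ∃ m X, Good ⁅x, w⁆ m X := by
  induction n using Nat.strong_induction_on with
  | _ n ih =>
  intro E _ _ hE w x y hw hc hx hy hn
  have hP : IsPGroup p E := IsPGroup.of_card hE
  have hz := cen_comm hc hw hx
  by_cases hu : ∀ g : E, ⁅g, w⁆ ∈ zpowers ⁅x, w⁆
  · have hx' : x ∉ centralizer {w} := fun h =>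
      hx (commutatorElement_eq_one_iff_mul_comm.2 (cent_iff.1 h))
    have := plane_normal hz (up_of_mem hz hu)
    refine good_plane hP hz (fun h => hx' (cent_iff.2 ?_)) hw (up_of_mem hz hu) hx' fun h => ?_
    · exact mem_center_iff.1 (zpowers_le.2 (hc x) h) x
    · obtain ⟨a, ha, v, hv, rfl⟩ := mem_sup_of_normal_right.1 (h ▸ mem_top y)
      obtain ⟨i, rfl⟩ := mem_powers_iff_mem_zpowers.2 ha
      obtain ⟨a, b, rfl⟩ := plane_pow hz hw hv
      exact hn i a.val (x ^ b.val) (by rw [← kap_apply hc (x ^ _), map_pow, mul_assoc]; rfl)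
  obtain ⟨K, h1, -, h2⟩ := exists_max hE (H := (zpowers ⁅x, w⁆).comap (kap hc)) fun h =>
    hu fun g => (h ▸ mem_top g : g ∈ (zpowers ⁅x, w⁆).comap (kap hc))
  obtain ⟨t, ht⟩ : ∃ t, t ∉ K := by
    by_contra hne
    push Not at hne
    rw [(eq_top_iff (a := K)).2 fun y _ => hne y, card_top] at h2
    have h1 := Nat.card_pos (α := E)
    have h2 := hp.out.one_lt
    nlinarith
  have h3 : ∀ g, g ∈ center E → g ∈ K := fun g hg => h1 (by
    rw [mem_comap, kap_apply, commutatorElement_eq_one_iff_mul_comm.2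
      (mem_center_iff.1 hg w).symm]
    exact one_mem _)
  have hxK : x ∈ K := h1 (mem_zpowers _)
  have hwK : w ∈ K := h1 (by rw [mem_comap, kap_apply, commutatorElement_self]; exact one_mem _)
  obtain ⟨k, hk⟩ := ((hP.to_subgroup K).exists_card_eq)
  have htz : ⁅t, w⁆ ∉ zpowers ⁅x, w⁆ := fun h => ht (h1 h)
  have hk2 : p ^ 2 ≤ p ^ k := by
    rw [← hk, ← plane_card hz htz (comm_pow_p hc hw t)]
    refine card_le_of_le ?_
    simp only [sup_le_iff, zpowers_le]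
    exact ⟨h3 _ (hc t), h3 _ (hc x)⟩
  rw [Nat.pow_le_pow_iff_right hp.out.one_lt] at hk2
  obtain ⟨k, rfl⟩ : ∃ l, k = l + 1 + 1 := ⟨k - 2, by omega⟩
  have hkn : k + 1 < n := by
    rw [hE, hk, ← pow_succ', Nat.pow_right_inj hp.out.one_lt] at h2
    omega
  refine ⟨_, good_rec hP hz htz (comm_pow_p hc hw t)
    (up_of_mem hz fun g => by
      rw [commutatorElement_eq_one_iff_mul_comm.2 (mem_center_iff.1 (hc t) g)]; exact one_mem _)
    (.inr (hc t)) h2 (fun g _ => cent_iff.2 (mem_center_iff.1 (hc t) g)) (h3 _ (hc t)) (h3 _ (hc x))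
    (m := (p : ℤ) ^ k) ?_⟩
  rintro H _ hH ⟨i, rfl⟩ hz'
  have hQ := card_quot (m := 1) hk (hH.trans (pow_one p).symm)
  set f := QuotientGroup.mk' ((zpowers (⁅t, w⁆ * pw ⁅x, w⁆ i)).subgroupOf K) with hf
  have e : ⁅f ⟨x, hxK⟩, f ⟨w, hwK⟩⁆ = f ⟨⁅x, w⁆, h3 _ (hc x)⟩ := (map_commutatorElement f _ _).symm
  refine Good.fix hz' hQ ?_
  have := ih (k + 1) hkn _ hQ (f ⟨w, hwK⟩) (f ⟨x, hxK⟩) (f ⟨y, h1 hy⟩)
    (by rw [← map_pow, show (⟨w, hwK⟩ : K) ^ p = 1 from Subtype.ext hw, map_one])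
    (fun g => ?_) (e ▸ hz'.ne) ?_ fun a b g h => ?_
  · rwa [e] at this
  · obtain ⟨g, rfl⟩ := QuotientGroup.mk'_surjective _ g
    refine mem_center_iff.2 fun s => ?_
    obtain ⟨s, rfl⟩ := QuotientGroup.mk'_surjective _ s
    rw [← map_commutatorElement, ← map_mul, ← map_mul]
    exact congrArg f (Subtype.ext (mem_center_iff.1 (hc g) s))
  · obtain ⟨l, hl⟩ := hy
    refine ⟨l, ?_⟩
    simp only [← map_commutatorElement, ← map_zpow]
    exact congrArg f (Subtype.ext hl)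
  · obtain ⟨g, rfl⟩ := QuotientGroup.mk'_surjective _ g
    rw [← map_commutatorElement, ← map_pow, ← map_pow, ← map_mul, ← map_mul] at h
    obtain ⟨l, hl⟩ := mem_subgroupOf.1 (QuotientGroup.eq.1 h.symm)
    refine hn a b (g * (t * x ^ i.val) ^ l) ?_
    rw [← kap_apply hc, map_mul, map_zpow, map_mul, map_pow, ← mul_assoc, ← inv_mul_eq_iff_eq_mul]
    exact hl.symm

theorem rec_cen {E : Type u} [Group E] [Finite E] (hP : IsPGroup p E) {z c : E} (hz : Cen p z)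
    (hc : c ∈ center E) (hcp : c ^ p = 1) (hcz : c ∉ zpowers z) {K : Subgroup E}
    (hK : Nat.card E = p * Nat.card K) (hcK : c ∈ K) (hzK : z ∈ K)
    (ih : ∀ (Q : Type u) [Group Q] [Finite Q] (f : K →* Q) (i : ZMod p), Function.Surjective f →
      (∀ g : K, f g = 1 ↔ (g : E) ∈ zpowers (c * pw z i)) → Nat.card K = p * Nat.card Q →
        Cen p (f ⟨z, hzK⟩) → ∃ m X, Good (f ⟨z, hzK⟩) m X) : ∃ m X, Good z m X := by
  obtain ⟨k, hk⟩ := ((hP.to_subgroup K).exists_card_eq)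
  have hk2 : p ^ 2 ≤ p ^ k := by
    rw [← hk, ← plane_card hz hcz hcp]
    refine card_le_of_le ?_
    simp only [sup_le_iff, zpowers_le]
    exact ⟨hcK, hzK⟩
  rw [Nat.pow_le_pow_iff_right hp.out.one_lt] at hk2
  obtain ⟨k, rfl⟩ : ∃ l, k = l + 1 + 1 := ⟨k - 2, by omega⟩
  refine ⟨_, good_rec hP hz hcz hcp (up_of_mem hz fun g => by
      rw [commutatorElement_eq_one_iff_mul_comm.2 (mem_center_iff.1 hc g)]; exact one_mem _)
    (.inr hc) hK (fun g _ => cent_iff.2 (mem_center_iff.1 hc g)) hcK hzK (m := (p : ℤ) ^ k) ?_⟩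
  rintro H _ hH ⟨i, rfl⟩ hz'
  have hQ := card_quot (m := 1) hk (hH.trans (pow_one p).symm)
  exact Good.fix hz' hQ (ih _ (QuotientGroup.mk' _) i (QuotientGroup.mk'_surjective _)
    (fun g => (QuotientGroup.eq_one_iff g).trans mem_subgroupOf) (by rw [hk, hQ, ← pow_succ']) hz')

theorem kap_cen {E : Type*} [Group E] {w g : E} (h : ∀ g : E, ⁅g, w⁆ ∈ center E)
    (hg : g ∈ center E) : kap h g = 1 :=
  commutatorElement_eq_one_iff_mul_comm.2 (mem_center_iff.1 hg w).symm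

theorem map_cen {E Q : Type*} [Group E] [Group Q] {K : Subgroup E} (f : K →* Q)
    (hf : Function.Surjective f) {g : K} (hg : (g : E) ∈ center E) : f g ∈ center Q :=
  mem_center_iff.2 fun s => by
    obtain ⟨s, rfl⟩ := hf s
    rw [← map_mul, ← map_mul]
    exact congrArg f (Subtype.ext (mem_center_iff.1 hg s))

theorem good_three {E : Type u} [Group E] [Finite E] (hP : IsPGroup p E) {w x y t : E}
    (hw : w ^ p = 1) (hc : ∀ g : E, ⁅g, w⁆ ∈ center E) (hx : ⁅x, w⁆ ≠ 1)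
    (hy : ⁅y, w⁆ ∉ zpowers ⁅x, w⁆) (ht : ⁅t, w⁆ ∉ zpowers ⁅y, w⁆ ⊔ zpowers ⁅x, w⁆) :
    ∃ m X, Good ⁅x, w⁆ m X := by
  obtain ⟨n, hE⟩ := hP.exists_card_eq
  obtain ⟨K, h1, -, h2⟩ := exists_max hE
    (H := (zpowers ⁅y, w⁆ ⊔ zpowers ⁅x, w⁆).comap (kap hc)) fun h =>
      ht (h ▸ mem_top t : t ∈ (zpowers ⁅y, w⁆ ⊔ zpowers ⁅x, w⁆).comap (kap hc))
  have h3 : ∀ g, g ∈ center E → g ∈ K := fun g hg => h1 (by
    rw [mem_comap, kap_cen hc hg]; exact one_mem _)
  have hxK : x ∈ K := h1 (mem_sup_right (mem_zpowers _))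
  have hyK : y ∈ K := h1 (mem_sup_left (mem_zpowers _))
  have hwK : w ∈ K := h1 (by rw [mem_comap, kap_apply, commutatorElement_self]; exact one_mem _)
  refine rec_cen hP (cen_comm hc hw hx) (hc y) (comm_pow_p hc hw y) hy h2 (h3 _ (hc y))
    (h3 _ (hc x)) fun Q _ _ f i hf hker _ hz => ?_
  obtain ⟨k, hk⟩ := ((hP.to_subgroup K).of_surjective f hf).exists_card_eq
  have e : ⁅f ⟨x, hxK⟩, f ⟨w, hwK⟩⁆ = f ⟨⁅x, w⁆, h3 _ (hc x)⟩ := (map_commutatorElement f _ _).symm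
  rw [← e]
  refine good_second k Q hk _ _ (f (⟨y, hyK⟩ * ⟨x, hxK⟩ ^ i.val))
    (by rw [← map_pow, show (⟨w, hwK⟩ : K) ^ p = 1 from Subtype.ext hw, map_one])
    (fun g => ?_) (e ▸ hz.ne) ?_ fun a b g h => ?_
  · obtain ⟨g, rfl⟩ := hf g
    rw [← map_commutatorElement]
    exact map_cen f hf (hc g)
  · rw [← map_commutatorElement f (_ * _), (hker ⁅_, _⁆).2]
    · exact one_mem _
    · change kap hc (y * x ^ i.val) ∈ _
      rw [map_mul, map_pow]
      exact mem_zpowers _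
  · obtain ⟨g, rfl⟩ := hf g
    rw [← map_commutatorElement, ← map_pow, ← map_pow, ← map_mul, ← map_mul, ← inv_mul_eq_one,
      ← map_inv, ← map_mul, hker] at h
    have h4 : kap hc ((y * x ^ i.val)⁻¹ * (x ^ a * w ^ b * ⁅(g : E), w⁆)) = 1 :=
      kap_cen hc (zpowers_le.2 (mul_mem (hc y) (pow_mem (hc x) _)) h)
    simp only [map_mul, map_inv, map_pow, kap_cen hc (hc g), kap_apply, commutatorElement_self,
      one_pow, mul_one, inv_mul_eq_one] at h4
    exact hy ((mul_mem_cancel_right (npow_mem_zpowers _ i.val)).1 (h4 ▸ npow_mem_zpowers _ a))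

end Pool.Agent.Lib.MP_2d211a_co.H62
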