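import Pool.Agent.Lib.MP_2d211a_co.H62Sec

/-! The remaining small cases for `2`-groups. -/

namespace Pool.Agent.Lib.MP_2d211a_co.H62

open Subgroup
open scoped commutatorElement

set_option linter.unusedSectionVars false

universe u

section

variable {E : Type*} [Group E] [Finite E] {z x g : E}

theorem inv2 {a b : E} (ha : a ^ 2 = 1) (h : b ∈ zpowers a) : b = 1 ∨ b = a := by
  obtain ⟨c, rfl⟩ := exists_pw ha h
  fin_cases c
  · exact .inl (pow_zero a)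
  · exact .inr (pow_one a)

theorem good_step2 (hz : Cen 2 z) {K : Subgroup E} (hK : Nat.card E = 2 * Nat.card K)
    (hzK : z ∈ K) (hg : g ∉ K) (hg2 : g ^ 2 = z) (h : ∃ m X, Good (⟨z, hzK⟩ : K) m X) :
    ∃ m X, Good z m X := by
  obtain ⟨m, X, h⟩ := h
  obtain ⟨Y, h1, -, h2, h3⟩ := h.map hz hzK
  have h4 : g ^ 2 ^ 2 = 1 := by rw [sq 2, pow_mul, hg2, hz.pow]
  refine ⟨_, (∑ i : ZMod 2, s (pw g i)) * Y, (Nn.sum _ fun _ => Nn.s _).mul h1, ?_,
    hz.prod (m := 2) ?_ h3⟩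
  · rw [mul_assoc, h2, Finset.sum_mul, ← coset_sum (p := 2) (H := K) le_top (by rwa [card_top])
      ⟨2, h4⟩ trivial hg]
  · have e : (∑ i : ZMod 2, s (pw g i)) = 1 + s g := by
      rw [show (Finset.univ : Finset (ZMod 2)) = {0, 1} from rfl, Finset.sum_pair zero_ne_one,
        pw_zero, s_one]
      exact congrArg (fun a => 1 + s a) (pow_one g)
    have e1 : g⁻¹ = z * g := by
      rw [inv_eq_iff_mul_eq_one, ← hg2, ← h4]; group
    have e2 : s z * s g⁻¹ = s g := by rw [s_mul, e1, ← mul_assoc, ← sq, hz.pow, one_mul]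
    have e3 : s z * s g = s g⁻¹ := by rw [s_mul, e1]
    have e4 : s g * s g⁻¹ = 1 := by rw [s_mul, mul_inv_cancel, s_one]
    rw [e, map_add, ← s_one, st_s, st_s, inv_one, s_one]
    simp only [mul_add, add_mul, sub_mul, one_mul, mul_one, e2, e3, e4, Int.cast_ofNat]
    noncomm_ring
    rw [add_comm, two_smul, one_add_one_eq_two]

theorem not_zp (hz : Cen 2 z) (hx : x ^ 2 = z) : x ∉ zpowers z := fun h => by
  rcases inv2 hz.pow h with rfl | rfl
  · exact hz.ne (by simpa using hx.symm)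
  · exact hz.ne (hx.symm.trans hz.pow)

theorem good_four (hz : Cen 2 z) (hE : Nat.card E = 4) (hx : x ^ 2 = z) : ∃ m X, Good z m X := by
  have h := hz.sub (mem_zpowers z)
  refine good_step2 hz (K := zpowers z) (by rw [hE, card_zp hz.ne hz.pow]) (mem_zpowers z)
    (not_zp hz hx) hx ⟨1, 1, Nn.s 1, ?_, ?_⟩
  · rw [one_mul, eq_top_of_card_eq _ ((card_zp h.ne h.pow).trans (card_zp hz.ne hz.pow).symm)]
  · rw [← s_one, st_s]; simp [s_one]

theorem card_four (hz : Cen 2 z) (hx : x ^ 2 = z) : Nat.card (zpowers x) = 4 := by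
  rw [Nat.card_zpowers, orderOf_eq_prime_pow (p := 2) (n := 1) (by simpa [hx] using hz.ne)
    (by rw [show 2 ^ (1 + 1) = 2 * 2 from rfl, pow_mul, hx, hz.pow])]
  rfl

theorem good_eight (hz : Cen 2 z) (hE : Nat.card E = 8) (hx : x ^ 2 = z) (hg : g ^ 2 = z)
    (h : g ∉ zpowers x) : ∃ m X, Good z m X := by
  have h1 : z ∈ zpowers x := hx ▸ npow_mem_zpowers x 2
  exact good_step2 hz (by rw [hE, card_four hz hx]) h1 h hg
    (good_four (x := ⟨x, mem_zpowers x⟩) (hz.sub h1) (card_four hz hx) (Subtype.ext hx))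

end

variable {E : Type u} [Group E] [Finite E] {z x y a b : E}

theorem good_16 (hz : Cen 2 z) (hE : Nat.card E = 2 ^ 4) (hx : x ^ 2 = z) (ha : a ∈ center E)
    (ha2 : a ^ 2 = 1) (haz : a ∉ zpowers z) : ∃ m X, Good z m X := by
  have hA : Cen 2 a := ⟨mem_center_iff.1 ha, fun e => haz (e ▸ one_mem _), ha2⟩
  have := hA.normal
  obtain ⟨K, h1, -, h2⟩ := exists_max hE (H := zpowers x ⊔ zpowers a) fun h => by
    have e := Set.natCard_mul_le (s := (zpowers x : Set E)) (t := (zpowers a : Set E))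
    rw [← mul_normal, h] at e
    change Nat.card (⊤ : Subgroup E) ≤ Nat.card (zpowers x) * Nat.card (zpowers a) at e
    rw [card_top, hE, card_four hz hx, card_zp hA.ne ha2] at e
    omega
  simp only [sup_le_iff, zpowers_le] at h1
  refine rec_cen (.of_card hE) hz ha ha2 haz h2 h1.2 (hx ▸ pow_mem h1.1 2)
    fun Q _ _ f i _ _ hQ hz' => good_four (x := f ⟨x, h1.1⟩) hz' (by omega) ?_
  rw [← map_pow]
  exact congrArg f (Subtype.ext hx)

theorem good_32 (hz : Cen 2 z) (hE : Nat.card E = 2 ^ 5) (hx : x ^ 2 = z) (hxy : Commute x y)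
    (hy : y ^ 2 ∈ center E) (hy2 : (y ^ 2) ^ 2 = 1) (hyz : y ^ 2 ∉ zpowers z)
    (hZ : x ∉ center E) : ∃ m X, Good z m X := by
  obtain ⟨K, h1, -, h2⟩ := exists_max hE (H := centralizer {x}) fun h =>
    hZ (mem_center_iff.2 fun g => cent_iff.1 (h ▸ mem_top g))
  have hxK : x ∈ K := h1 (cent_iff.2 rfl)
  have hyK : y ∈ K := h1 (cent_iff.2 hxy.symm)
  refine rec_cen (.of_card hE) hz hy hy2 hyz h2 (pow_mem hyK 2) (hx ▸ pow_mem hxK 2)
    fun Q _ _ f i _ hk hQ hz' => good_eight (x := f ⟨x, hxK⟩)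
      (g := f (⟨y, hyK⟩ * ⟨x, hxK⟩ ^ (i.val + 1))) hz' (by omega) ?_ ?_ ?_
  · rw [← map_pow]
    exact congrArg f (Subtype.ext hx)
  · rw [← mul_inv_eq_one, ← map_pow, ← map_inv, ← map_mul, hk]
    change (y * x ^ (i.val + 1)) ^ 2 * z⁻¹ ∈ _
    rw [(hxy.symm.pow_right _).mul_pow, ← pow_mul, mul_comm _ 2, pow_mul, hx, pow_succ z,
      ← mul_assoc, mul_inv_cancel_right]
    exact mem_zpowers _
  · intro h
    obtain ⟨l, hl⟩ := mem_powers_iff_mem_zpowers.2 h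
    beta_reduce at hl
    rw [← map_pow, eq_comm, ← mul_inv_eq_one, ← map_inv, ← map_mul, hk] at hl
    obtain ⟨c, hc⟩ := exists_pw (wz_pow hz hy2 i) hl
    have e := hc ▸ pw_pow_p (wz_pow hz hy2 i) c
    change (y * x ^ (i.val + 1) * (x ^ l)⁻¹) ^ 2 = 1 at e
    rw [Commute.mul_pow ((hxy.symm.pow_right l).mul_left (Commute.pow_pow_self _ _ _)).inv_right,
      (hxy.symm.pow_right _).mul_pow, inv_pow, mul_inv_eq_one, ← pow_mul x, ← pow_mul x,
      mul_comm _ 2, mul_comm _ 2, pow_mul x, pow_mul x, hx] at e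
    exact hyz ((mul_mem_cancel_right (npow_mem_zpowers z _)).1 (e ▸ npow_mem_zpowers z l))

theorem good_64 (hz : Cen 2 z) (hE : Nat.card E = 2 ^ 6) (hx : x ^ 2 = z) (ha : a ∈ center E)
    (ha2 : a ^ 2 = 1) (hb : b ∈ center E) (hb2 : b ^ 2 = 1) (hbz : b ∉ zpowers z)
    (haz : a ∉ zpowers b ⊔ zpowers z) (hZ : x ∉ center E) : ∃ m X, Good z m X := by
  obtain ⟨K, h1, -, h2⟩ := exists_max hE (H := centralizer {x}) fun h =>
    hZ (mem_center_iff.2 fun g => cent_iff.1 (h ▸ mem_top g))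
  have hxK : x ∈ K := h1 (cent_iff.2 rfl)
  have h3 : ∀ c ∈ center E, c ∈ K := fun c hc => h1 (cent_iff.2 (mem_center_iff.1 hc x).symm)
  refine rec_cen (.of_card hE) hz hb hb2 hbz h2 (h3 b hb) (hx ▸ pow_mem hxK 2)
    fun Q _ _ f i hf hk hQ hz' => good_16 (x := f ⟨x, hxK⟩) (a := f ⟨a, h3 a ha⟩) hz' (by omega)
      ?_ (map_cen f hf ha) ?_ ?_
  · rw [← map_pow]
    exact congrArg f (Subtype.ext hx)
  · rw [← map_pow, ← f.map_one]
    exact congrArg f (Subtype.ext ha2)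
  · intro h
    obtain ⟨l, hl⟩ := mem_powers_iff_mem_zpowers.2 h
    beta_reduce at hl
    rw [← map_pow, eq_comm, ← mul_inv_eq_one, ← map_inv, ← map_mul, hk] at hl
    have e : zpowers (b * pw z i) ≤ zpowers b ⊔ zpowers z := zpowers_le.2
      (mul_mem (mem_sup_left (mem_zpowers b)) (mem_sup_right (pw_mem z i)))
    exact haz ((mul_mem_cancel_right (inv_mem (mem_sup_right (npow_mem_zpowers z l)))).1 (e hl))

theorem par (hP : IsPGroup 2 E) {u : E} (hu : u ≠ 1) {i j : ℕ} (h : u ^ i = u ^ j) :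
    i % 2 = j % 2 := by
  obtain ⟨k, hk⟩ := (IsPGroup.iff_orderOf.1 hP) u
  have h1 : 2 ∣ orderOf u := hk ▸ dvd_pow_self 2 fun e => hu (orderOf_eq_one_iff.1 (by simp [hk, e]))
  exact (pow_eq_pow_iff_modEq.1 h).of_dvd h1

theorem good_two (hP : IsPGroup 2 E) {w : E} (hw : w ^ 2 = 1) (hc : ∀ g : E, ⁅g, w⁆ ∈ center E)
    (hx : ⁅x, w⁆ ≠ 1) (hy : ⁅y, w⁆ ∉ zpowers ⁅x, w⁆)
    (hA : ∀ t : E, ⁅t, w⁆ ∈ zpowers ⁅y, w⁆ ⊔ zpowers ⁅x, w⁆)
    (h : ∀ x y : E, ⁅x, w⁆ ≠ 1 → ⁅y, w⁆ ∈ zpowers ⁅x, w⁆ →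
      ∃ (i j : ℕ) (g : E), y = x ^ i * w ^ j * ⁅g, w⁆) :
    ∃ z : E, Cen 2 z ∧ ∃ m X, Good z m X := by
  set κ := kap hc with hκ
  have k0 : ∀ g : E, ⁅g, w⁆ = κ g := fun _ => rfl
  simp only [k0] at hc hx hy hA h
  have k1 : ∀ g, κ g ^ 2 = 1 := comm_pow_p hc hw
  have k2 : κ w = 1 := commutatorElement_self w
  have k3 : ∀ g ∈ center E, κ g = 1 := fun g hg => kap_cen hc hg
  have k4 : ∀ g, κ g = 1 → Commute g w := fun g hg => commutatorElement_eq_one_iff_commute.1 hg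
  have k5 : ∀ {c : E}, c ∈ center E → ∀ g, Commute g c := fun hc g => mem_center_iff.1 hc g
  have k6 : ∀ g, κ (g ^ 2) = 1 := fun g => by rw [map_pow, k1]
  have hwZ : w ∉ center E := fun e => hx (commutatorElement_eq_one_iff_commute.2 (k5 e x))
  have hxZ : ∀ g, κ g ≠ 1 → g ∉ center E := fun g e e' => e (k3 g e')
  have hy1 : κ y ≠ 1 := fun e => hy (e ▸ one_mem _)
  have f1 : ∀ g t, κ g ≠ 1 → κ t = 1 → ∃ (i j : ℕ) (s : E), t = (g ^ 2) ^ i * (w ^ j * κ s) := by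
    intro g t hg ht
    obtain ⟨i, j, s, rfl⟩ := h g t hg (ht ▸ one_mem _)
    simp only [map_mul, map_pow, k2, k3 _ (hc s), one_pow, mul_one] at ht
    obtain ⟨l, rfl⟩ : 2 ∣ i := Nat.dvd_of_mod_eq_zero (par hP hg (ht.trans (pow_zero _).symm))
    exact ⟨l, j, s, by rw [pow_mul, mul_assoc]⟩
  have f2 : ∀ g t, κ g ≠ 1 → κ t = 1 → ⁅g, t⁆ ∈ zpowers (κ g) := by
    intro g t hg ht
    obtain ⟨i, j, s, rfl⟩ := f1 g t hg ht
    have e1 : g * w ^ j * g⁻¹ = w ^ j * κ g ^ j := by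
      rw [← _root_.conj_pow, ← (k5 (hc g) w).mul_pow, (k5 (hc g) w).eq, ← k0,
        commutatorElement_def, inv_mul_cancel_right]
    have e2 : g * ((g ^ 2) ^ i * (w ^ j * κ s)) * g⁻¹ =
        κ g ^ j * ((g ^ 2) ^ i * (w ^ j * κ s)) := by
      rw [← mul_assoc, (((Commute.refl g).pow_right 2).pow_right i).eq, mul_assoc, mul_assoc,
        mul_assoc (w ^ j), ← (k5 (hc s) _).eq, ← mul_assoc (w ^ j), ← mul_assoc g, ← mul_assoc g,
        e1, ← (k5 (pow_mem (hc g) j) _).eq, mul_assoc (w ^ j), ← (k5 (pow_mem (hc g) j) _).eq]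
      simp only [mul_assoc]
    rw [commutatorElement_def, e2, mul_inv_cancel_right]
    exact npow_mem_zpowers _ j
  have f3 : ∀ t t', κ t = 1 → κ t' = 1 → Commute t t' := by
    intro t t' ht ht'
    obtain ⟨i, j, s, e⟩ := f1 x t hx ht
    obtain ⟨i', j', s', rfl⟩ := f1 x t' hx ht'
    refine Commute.mul_right (Commute.pow_right ?_ _)
      (((k4 t ht).pow_right _).mul_right (k5 (hc _) _))
    rw [e]
    exact ((Commute.refl _).pow_left _).mul_left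
      (((k4 _ (k6 x)).symm.pow_left _).mul_left (k5 (hc _) _).symm)
  have f5 : ∀ g, κ g ≠ 1 → g ^ 2 ∈ center E := fun g hg => mem_center_iff.2 fun s => by
    by_cases h1 : κ s = 1
    · exact f3 _ _ h1 (k6 g)
    by_cases h2 : κ (g * s) = 1
    · have := ((Commute.refl g).pow_right 2).inv_left.mul_left (f3 _ _ h2 (k6 g))
      rwa [inv_mul_cancel_left] at this
    refine commutatorElement_eq_one_iff_mul_comm.1 (by_contra fun h3 => ?_)
    have e1 := (inv2 (k1 s) (f2 s _ h1 (k6 g))).resolve_left h3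
    have e2 : ⁅g * s, g ^ 2⁆ = ⁅s, g ^ 2⁆ := by
      calc ⁅g * s, g ^ 2⁆ = g * ⁅s, g ^ 2⁆ * g⁻¹ := by simp only [commutatorElement_def]; group
        _ = _ := by rw [e1, (k5 (hc s) g).eq, mul_inv_cancel_right]
    have e3 := (inv2 (k1 _) (f2 _ _ h2 (k6 g))).resolve_left (e2 ▸ h3)
    rw [e2, e1, map_mul, right_eq_mul] at e3
    exact hg e3
  have d2 : ∀ (j : ℕ) s, (w ^ j * κ s) ^ 2 = 1 := fun j s => by
    rw [(k5 (hc s) _).mul_pow, k1, ← pow_mul, mul_comm, pow_mul, hw, one_pow, one_mul]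
  have f6 : ∀ g : E, g ^ 2 ∈ center E := fun g => by
    by_cases hg : κ g = 1
    · obtain ⟨i, j, s, rfl⟩ := f1 x g hx hg
      rw [(k5 (pow_mem (f5 x hx) i) _).symm.mul_pow, d2, mul_one]
      exact pow_mem (pow_mem (f5 x hx) i) 2
    · exact f5 g hg
  have f7 : ∀ g t : E, ⁅t, g⁆ ∈ center E := fun g t => by
    rw [show ⁅t, g⁆ = t ^ 2 * (t⁻¹ * g) ^ 2 * g⁻¹ ^ 2 by
      simp only [commutatorElement_def, sq]; group]
    exact mul_mem (mul_mem (f6 _) (f6 _)) (f6 _)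
  have f8 : ∀ g t : E, ⁅t, g⁆ ^ 2 = 1 := fun g t => by
    rw [← kap_apply (f7 g), ← map_pow, kap_cen (f7 g) (f6 t)]
  have hR : κ.range = zpowers (κ y) ⊔ zpowers (κ x) := le_antisymm
    (by rintro _ ⟨g, rfl⟩; exact hA g) (sup_le (zpowers_le.2 ⟨y, rfl⟩) (zpowers_le.2 ⟨x, rfl⟩))
  have hz : Cen 2 (κ x) := cen_comm hc hw hx
  have c1 : Nat.card κ.range = 4 := by rw [hR, plane_card hz hy (k1 y)]; rfl
  have hRZ : κ.range ≤ center E := by rintro _ ⟨g, rfl⟩; exact hc g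
  have hRn : κ.range.Normal := ⟨fun a ha g => by rwa [(k5 (hRZ ha) g).eq, mul_inv_cancel_right]⟩
  set D := zpowers w ⊔ κ.range with hD
  have hD1 : ∀ d ∈ D, ∃ (j : ZMod 2) (g : E), d = pw w j * κ g := fun d hd => by
    obtain ⟨a, ha, _, ⟨g, rfl⟩, rfl⟩ := mem_sup_of_normal_right.1 hd
    obtain ⟨j, rfl⟩ := exists_pw hw ha
    exact ⟨j, g, rfl⟩
  have hD2 : ∀ (j : ℕ) (g : E), w ^ j * κ g ∈ D := fun j g =>
    mul_mem (mem_sup_left (npow_mem_zpowers w j)) (mem_sup_right ⟨g, rfl⟩)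
  have hD3 : D ≤ κ.ker := sup_le (zpowers_le.2 k2) fun a ha => k3 a (hRZ ha)
  have hD4 : ∀ d ∈ D, d ^ 2 = 1 := fun d hd => by
    obtain ⟨j, g, rfl⟩ := hD1 d hd
    exact d2 _ g
  have c2 : Nat.card D = 8 := by
    rw [card_coset (fun l : ZMod 2 => pw w l) (H := κ.range) le_sup_right
      (fun l => mem_sup_left (pw_mem w l)) (pw_inj (hP w) fun e => hwZ (hRZ e)), ZMod.card, c1]
    intro y hy
    obtain ⟨j, g, rfl⟩ := hD1 y hy
    exact ⟨j, g, by simp⟩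
  have c3 : Nat.card E = 4 * Nat.card κ.ker := by rw [← κ.ker.index_mul_card, index_ker, c1]
  by_cases hCD : κ.ker ≤ D
  · have hE : Nat.card E = 2 ^ 5 := by rw [c3, le_antisymm hCD hD3, c2]; rfl
    have gs : ∀ x y, Commute x y → x ^ 2 = 1 → κ x ≠ 1 → κ y ∉ zpowers (κ x) →
        ∃ z : E, Cen 2 z ∧ ∃ m X, Good z m X := fun x y h1 h2 h3 h4 => by
      have h5 : ⁅w, x⁆ ≠ 1 := fun e => h3 (commutatorElement_eq_one_iff_commute.2
        (commutatorElement_eq_one_iff_commute.1 e).symm)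
      refine ⟨_, cen_comm (f7 x) h2 h5, good_second _ E hE x w y h2 (f7 x) h5
        (commutatorElement_eq_one_iff_commute.2 h1.symm ▸ one_mem _) fun i j g e => h4 ?_⟩
      simp only [e, map_mul, map_pow, k2, k3 _ (f7 x g), one_pow, mul_one, one_mul]
      exact npow_mem_zpowers _ j
    have fin : ∀ x' y', κ x' = κ x → κ y' = κ y → ⁅x', y'⁆ = 1 →
        ∃ z : E, Cen 2 z ∧ ∃ m X, Good z m X := fun x' y' e1 e2 e3 => by
      have h1 := commutatorElement_eq_one_iff_commute.1 e3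
      rw [← e1] at hx hy
      rw [← e2] at hy hy1
      by_cases h2 : x' ^ 2 = 1
      · exact gs x' y' h1 h2 hx hy
      by_cases h3 : y' ^ 2 = 1
      · exact gs y' x' h1.symm h3 hy1 fun e => hy (zp_eq hx (k1 _) hy1 (k1 _) e)
      have h4 : ∀ g : E, (g ^ 2) ^ 2 = 1 := fun g => hD4 _ (hCD (k6 g))
      by_cases h5 : y' ^ 2 = x' ^ 2
      · refine gs (x' * y') x' ((Commute.refl _).mul_left h1.symm)
          (by rw [h1.mul_pow, h5, ← sq, h4]) (fun e => hy ?_) fun e => ?_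
        · rw [map_mul, mul_eq_one_iff_inv_eq] at e
          exact e ▸ inv_mem (mem_zpowers _)
        · rcases inv2 (k1 _) e with e | e
          · exact hx e
          · exact hy1 (by simpa using e)
      have h6 : Cen 2 (x' ^ 2) := ⟨mem_center_iff.1 (f6 _), h2, h4 _⟩
      exact ⟨_, h6, good_32 h6 hE rfl h1 (f6 _) (h4 _)
        (fun e => (inv2 (h4 _) e).elim h3 h5) (hxZ _ hx)⟩
    have l1 : ∀ a b c : E, ⁅a * b, c⁆ = ⁅a, c⁆ * ⁅b, c⁆ := fun a b c => map_mul (kap (f7 c)) a b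
    have l2 : ∀ a b : E, ⁅a, b⁆ = ⁅b, a⁆ := fun a b => by
      rw [← commutatorElement_inv a b, eq_inv_iff_mul_eq_one, ← sq, f8]
    have l3 : ∀ i j : ℕ, ⁅x * w ^ i, y * w ^ j⁆ = ⁅x, y⁆ * (κ y ^ i * κ x ^ j) := fun i j => by
      have e : ∀ (g : E) (n : ℕ), ⁅w ^ n, g⁆ = κ g ^ n := fun g n => by
        rw [← kap_apply (f7 g), map_pow, kap_apply, l2, k0]
      rw [l1, e, l2 x, l1, e, l2 y, map_mul, map_pow, k2, one_pow, mul_one, mul_assoc,
        (k5 (pow_mem (hc x) j) _).eq]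
    obtain ⟨j, s, e⟩ := hD1 _ (hCD (k3 _ (f7 y x)))
    obtain rfl : (0 : ZMod 2) = j := pw_inj (H := center E) (hP w) hwZ 0 j (by
      simpa [pw_zero] using (mul_mem_cancel_right (hc s)).1 (e ▸ f7 y x))
    rw [pw_zero, one_mul] at e
    obtain ⟨a, b, e'⟩ := plane_pow hz (k1 y) (hA s)
    refine fin (x * w ^ a.val) (y * w ^ b.val) (by simp [k2]) (by simp [k2]) ?_
    rw [l3, ← f8 y x, sq, e, e']
    rfl
  obtain ⟨t, ht1, ht2⟩ := SetLike.not_le_iff_exists.1 hCD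
  have hDn : D.Normal := ⟨fun d hd s => by
    obtain ⟨j, g, rfl⟩ := hD1 d hd
    have : s * (pw w j * κ g) * s⁻¹ = (κ s * w) ^ j.val * κ g := by
      rw [← k0 s, commutatorElement_def s, inv_mul_cancel_right, _root_.conj_pow, ← mul_assoc,
        mul_assoc, ← mem_center_iff.1 (hc g), ← mul_assoc]
      rfl
    rw [this]
    have e : ∀ g : E, κ g ∈ D := fun g => by simpa using hD2 0 g
    exact mul_mem (pow_mem (mul_mem (e s) (mem_sup_left (mem_zpowers w))) _) (e g)⟩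
  set π := QuotientGroup.mk' D with hπ
  have hQ := hP.to_quotient D
  have q0 : ∀ g, π g = 1 ↔ g ∈ D := QuotientGroup.eq_one_iff
  have q1 : ∀ g t, κ g ≠ 1 → κ t = 1 → ∃ i : ℕ, π t = π (g ^ 2) ^ i := fun g t hg ht => by
    obtain ⟨i, j, s, rfl⟩ := f1 g t hg ht
    exact ⟨i, by rw [map_mul, (q0 _).2 (hD2 j s), mul_one, map_pow]⟩
  have q2 : π (x ^ 2) ≠ 1 := fun e => by
    obtain ⟨i, hi⟩ := q1 x t hx ht1
    exact ht2 ((q0 t).1 (by rw [hi, e, one_pow]))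
  have q3 : ∀ g, κ g ≠ 1 → ∃ i : ℕ, π (g ^ 2) = π (x ^ 2) ^ (2 * i + 1) := fun g hg => by
    obtain ⟨i, hi⟩ := q1 x _ hx (k6 g)
    obtain ⟨j, hj⟩ := q1 g _ hg (k6 x)
    rw [hi, ← pow_mul] at hj
    have := par hQ q2 ((pow_one _).trans hj)
    obtain ⟨l, rfl | rfl⟩ := Nat.even_or_odd' i
    · rw [mul_assoc] at this; omega
    · exact ⟨l, hi⟩
  obtain ⟨i, hi⟩ := q3 y hy1
  obtain ⟨j, hj⟩ := q3 (x * y) fun e => by
    rw [map_mul, mul_eq_one_iff_inv_eq] at e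
    exact hy (e ▸ inv_mem (mem_zpowers _))
  have e1 : (x * y) ^ 2 = ⁅x⁻¹, y⁆ * x ^ 2 * y ^ 2 := by
    rw [← (k5 (f7 y x⁻¹) _).eq]; simp only [commutatorElement_def, sq]; group
  have e2 : (⁅x⁻¹, y⁆ * x ^ 2) ^ 2 = (x ^ 2) ^ 2 := by
    rw [(k5 (f6 x) _).mul_pow, f8, one_mul]
  rw [e1, map_mul, hi] at hj
  have q4 : π (x ^ 2) ^ 2 = 1 := by_contra fun hne => by
    have e3 := congrArg (· ^ 2) hj
    have e4 : Commute (π (⁅x⁻¹, y⁆ * x ^ 2)) (π (x ^ 2) ^ (2 * i + 1)) :=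
      ((k5 (f6 x) _).map π).pow_right _
    simp only [e4.mul_pow] at e3
    rw [← map_pow, e2, map_pow, ← pow_mul, ← pow_mul, mul_comm _ 2, mul_comm _ 2, pow_mul,
      pow_mul, ← pow_succ'] at e3
    have := par hQ hne e3
    omega
  have q5 : (x ^ 2) ^ 2 = 1 := by
    rw [pow_succ _ (2 * i), pow_succ _ (2 * j), pow_mul, pow_mul, q4, one_pow, one_pow,
      mul_eq_right] at hj
    rw [← e2, hD4 _ ((q0 _).1 hj)]
  have q6 : x ^ 2 ∉ D := fun e => q2 ((q0 _).2 e)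
  have h6 : Cen 2 (x ^ 2) := ⟨mem_center_iff.1 (f6 _), fun e => q6 (e ▸ one_mem _), q5⟩
  have c4 : Nat.card κ.ker = 16 := by
    rw [card_coset (fun l : ZMod 2 => pw (x ^ 2) l) hD3 (fun l => pow_mem (k6 x) _)
      (pw_inj (hP _) q6), ZMod.card, c2]
    intro s hs
    obtain ⟨i, j, g, rfl⟩ := f1 x s hx hs
    exact ⟨i, by rw [pw_nat q5, inv_mul_cancel_left]; exact hD2 j g⟩
  have m1 : ∀ g : E, κ g ∈ D := fun g => by simpa using hD2 0 g
  refine ⟨_, h6, good_64 h6 (by rw [c3, c4]; rfl) rfl (hc x) (k1 x) (hc y) (k1 y)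
    (fun e => (inv2 q5 e).elim hy1 fun e => q6 (e ▸ m1 y)) (fun e => ?_) (hxZ x hx)⟩
  obtain ⟨a, b, e⟩ := plane_pow h6 (k1 y) e
  obtain rfl : (0 : ZMod 2) = b := pw_inj (hP _) q6 0 b (by
    simpa [pw_zero] using (mul_mem_cancel_left (pow_mem (m1 y) a.val)).1
      (show pw (κ y) a * pw (x ^ 2) b ∈ D from e ▸ m1 x))
  rw [pw_zero, mul_one] at e
  exact hy (zp_eq hx (k1 _) hy1 (k1 _) (e ▸ pw_mem _ a))

end Pool.Agent.Lib.MP_2d211a_co.H62
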