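import Mathlib

/-! Two trace lemmas in characteristic two and their integral forms. -/

namespace Pool.Agent.Lib.MP_2d211a_co.H8

open Matrix

variable {ι : Type*} [Fintype ι] [DecidableEq ι]

theorem exists_ginv {F : Type*} [Field F] (S : Matrix ι ι F) : ∃ G, S * G * S = S := by
  obtain ⟨g, hg⟩ := (toLin' S).rangeRestrict.exists_rightInverse_of_surjective
    (LinearMap.range_rangeRestrict _)
  obtain ⟨l, hl⟩ := (LinearMap.range (toLin' S)).subtype.exists_leftInverse_of_injective
    (Submodule.ker_subtype _)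
  refine ⟨LinearMap.toMatrix' (g ∘ₗ l), toLin'.injective (LinearMap.ext fun x => ?_)⟩
  have h1 := LinearMap.congr_fun hl ((toLin' S).rangeRestrict x)
  have h2 := congrArg Subtype.val (LinearMap.congr_fun hg ((toLin' S).rangeRestrict x))
  simp only [toLin'_mul, toLin'_toMatrix', LinearMap.comp_apply]
  exact (congrArg (fun y => toLin' S (g y)) h1).trans h2

/-- a self-homotopy of an exact two-periodic complex -/
theorem trace_A {S S' B B' ρ : Matrix ι ι (ZMod 2)} (h0 : S * S' = 0)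
    (hk : ∀ X : Matrix ι ι (ZMod 2), S * X = 0 → ∃ Y, X = S' * Y) (h1 : S * B' = B * S')
    (h2 : B' * S = S' * B) (r1 : ρ * S = S * ρ) (r2 : ρ * B = B * ρ) :
    trace (ρ * B * B') = 0 := by
  obtain ⟨G, hG⟩ := exists_ginv S
  obtain ⟨Y, hY⟩ := hk (1 - G * S) (by rw [mul_sub, mul_one, ← mul_assoc, hG, sub_self])
  have a1 : ρ * B * B' * (S * G) = S * (ρ * B' * B * G) := by
    calc _ = ρ * (B * (B' * S)) * G := by simp only [mul_assoc]
      _ = ρ * (S * B') * B * G := by rw [h2, h1]; simp only [mul_assoc]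
      _ = _ := by rw [← mul_assoc, r1]; simp only [mul_assoc]
  have a2 : (1 - S * G) * B * (1 - G * S) = 0 := by
    rw [hY, mul_assoc, ← mul_assoc B, ← h1, mul_assoc S, ← mul_assoc, sub_mul, one_mul, hG,
      sub_self, zero_mul]
  have a3 : G * S * (ρ * B') * (S * G) = 0 := by
    calc _ = G * (S * ρ) * (B' * S) * G := by simp only [mul_assoc]
      _ = G * ρ * (S * S') * B * G := by rw [h2, ← r1]; simp only [mul_assoc]
      _ = 0 := by simp [h0]
  have b1 : trace (ρ * B * B' * (S * G)) = trace (G * S * (ρ * B') * B) := by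
    rw [a1, trace_mul_comm, mul_assoc, trace_mul_comm]
    simp only [mul_assoc]
  have b2 : G * S * (ρ * B') * B = G * S * (ρ * B') * ((1 - S * G) * B) := by
    rw [sub_mul, one_mul, mul_sub, ← mul_assoc _ (S * G), a3, zero_mul, sub_zero]
  have b3 : (1 - S * G) * B * (G * S * (ρ * B')) = (1 - S * G) * (ρ * B * B') := by
    rw [mul_sub, mul_one, sub_eq_zero] at a2
    rw [← mul_assoc, ← a2, r2]
    simp only [mul_assoc]
  rw [b2, trace_mul_comm (G * S * _), b3, trace_mul_comm (1 - S * G), mul_sub, mul_one,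
    trace_sub, eq_sub_iff_add_eq, CharTwo.add_self_eq_zero] at b1
  exact b1.symm

/-- a symmetric form against an alternating tensor -/
theorem trace_B {S X Y : Matrix ι ι (ZMod 2)} (hX : Sᵀ * (X + Xᵀ) * S = 0)
    (hY : S * (Y + Yᵀ) * Sᵀ = 0) (hd : ∀ i, (S * Y * Sᵀ) i i = 0) :
    trace (X * (S * Y * Sᵀ)) = 0 := by
  obtain ⟨G, hG⟩ := exists_ginv S
  have hG' : Sᵀ * Gᵀ * Sᵀ = Sᵀ := by
    simpa only [transpose_mul, mul_assoc] using congrArg transpose hG
  have two : ∀ {A B : Matrix ι ι (ZMod 2)}, A + B = 0 → ∀ i j, A i j = B i j := fun h i j =>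
    CharTwo.add_eq_zero.1 (congrFun (congrFun h i) j)
  have hM : ∀ i j, (S * Y * Sᵀ) i j = (S * Y * Sᵀ) j i := two (B := (S * Y * Sᵀ)ᵀ) (by
    rw [← hY]
    simp only [transpose_mul, transpose_transpose, mul_add, add_mul, mul_assoc])
  have hZ : ∀ i j, (Gᵀ * Sᵀ * X * S * G) i j = (Gᵀ * Sᵀ * X * S * G) j i :=
    two (B := (Gᵀ * Sᵀ * X * S * G)ᵀ) (by
      have := congrArg (fun M => Gᵀ * M * G) hX
      simpa only [transpose_mul, transpose_transpose, mul_add, add_mul, mul_assoc, mul_zero,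
        zero_mul] using this)
  have e : trace (X * (S * Y * Sᵀ)) = trace (Gᵀ * Sᵀ * X * S * G * (S * Y * Sᵀ)) := by
    calc _ = trace (X * (S * G * S * Y * Sᵀ) * (Gᵀ * Sᵀ)) := by
          rw [hG]
          simp only [mul_assoc] at hG' ⊢
          rw [hG']
      _ = _ := by
          rw [trace_mul_comm]
          simp only [mul_assoc]
  rw [e]
  generalize Gᵀ * Sᵀ * X * S * G = Z at hZ
  generalize S * Y * Sᵀ = M at hM hd
  simp only [trace, diag, mul_apply]
  rw [← Finset.sum_product']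
  refine Finset.sum_involution (fun p _ => p.swap) (fun p _ => ?_) (fun p _ h e => h ?_)
    (fun _ _ => by simp) fun _ _ => rfl
  · rw [Prod.fst_swap, Prod.snd_swap, hZ p.2, hM p.1, CharTwo.add_self_eq_zero]
  · rw [show p.2 = p.1 from congrArg Prod.fst e, hd, mul_zero]

theorem mul_comm_of_smul {M M' : Matrix ι ι ℤ} {c : ℤ} (hc : c ≠ 0) (h : M * M' = c • 1) :
    M' * M = c • 1 := by
  have hd : M.det ≠ 0 := fun e => by
    have := congrArg det h
    rw [det_mul, e, zero_mul, det_smul, det_one, mul_one] at this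
    exact pow_ne_zero _ hc this.symm
  refine smul_right_injective _ hd ?_
  have : M.adjugate * (M * (M' * M)) = M.adjugate * (M * c • 1) := by
    rw [← mul_assoc M, h, smul_mul_assoc, one_mul, mul_smul_comm c M, mul_one]
  simpa only [← mul_assoc, adjugate_mul, smul_mul_assoc, one_mul] using this

/-- reduction modulo two -/
abbrev red : Matrix ι ι ℤ →+* Matrix ι ι (ZMod 2) := (Int.castRingHom (ZMod 2)).mapMatrix

theorem red_smul (c : ℤ) (M : Matrix ι ι ℤ) : red (c • M) = (c : ZMod 2) • red M := by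
  ext i j
  simp only [RingHom.mapMatrix_apply, map_apply, Matrix.smul_apply, smul_eq_mul, map_mul,
    eq_intCast]

theorem red_two (M : Matrix ι ι ℤ) : red ((2 : ℤ) • M) = 0 := by
  rw [red_smul, show ((2 : ℤ) : ZMod 2) = 0 from rfl, zero_smul]

theorem red_odd {c : ℤ} (hc : Odd c) (M : Matrix ι ι ℤ) : red (c • M) = red M := by
  rw [red_smul, (ZMod.intCast_eq_one_iff_odd).2 hc, one_smul]

theorem exists_of_red {M : Matrix ι ι ℤ} (h : red M = 0) : ∃ Y, M = (2 : ℤ) • Y := by
  have : ∀ i j, ∃ y, M i j = 2 * y := fun i j =>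
    (ZMod.intCast_zmod_eq_zero_iff_dvd (M i j) 2).1 (congrFun (congrFun h i) j)
  choose Y hY using this
  exact ⟨of Y, Matrix.ext hY⟩

theorem trace_A' {S T B B' Q ρ : Matrix ι ι ℤ} {m w : ℤ} (hm : Odd m) (hw : Odd w)
    (h1 : S * T = (2 * m) • (w • 1 - Q)) (h2 : T * S = (2 * m) • (w • 1 - Q))
    (h3 : (S - (2 : ℤ) • B) * (T - (2 : ℤ) • B') = (2 * m) • (w • 1 - Q))
    (h4 : (T - (2 : ℤ) • B') * (S - (2 : ℤ) • B) = (2 * m) • (w • 1 - Q))
    (q1 : Q * S = 0) (q2 : S * Q = 0) (q3 : T * Q = 0) (q4 : Q * B = 0) (q5 : B * Q = 0)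
    (q6 : Q * Q = w • Q) (r1 : ρ * S = S * ρ) (r2 : ρ * B = B * ρ) :
    trace (red (ρ * B * B')) = 0 := by
  have key : ∀ {S T B B' : Matrix ι ι ℤ}, (S - (2 : ℤ) • B) * (T - (2 : ℤ) • B') = S * T →
      red (S * B') = red (B * T) := fun {S T B B'} h => by
    have e : S * B' = (2 : ℤ) • (B * B' - B * T) + B * T := by
      refine smul_right_injective _ (two_ne_zero (α := ℤ)) ?_
      simp only [mul_sub, sub_mul, smul_mul_assoc, mul_smul_comm] at h
      linear_combination (norm := module) -h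
    rw [e, map_add, red_two, zero_add]
  rw [map_mul, map_mul]
  refine trace_A (S := red S) (S' := red (T + Q)) ?_ (fun X hX => ?_) ?_ ?_ ?_ ?_
  · rw [← map_mul, mul_add, q2, add_zero, h1, mul_smul, red_two]
  · obtain ⟨X, rfl⟩ : ∃ Z, red Z = X := ⟨X.map fun a => (a.val : ℤ), by ext; simp⟩
    obtain ⟨Y, hY⟩ := exists_of_red (map_mul red S X ▸ hX)
    have a1 : Q * Y = 0 := by
      refine smul_right_injective _ (two_ne_zero (α := ℤ)) ?_
      simp only [← mul_smul_comm, ← hY, ← mul_assoc, q1, zero_mul, smul_zero]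
    have a2 : T * Y = m • (w • X - Q * X) := by
      refine smul_right_injective _ (two_ne_zero (α := ℤ)) ?_
      simp only [← mul_smul_comm, ← hY, ← mul_assoc, h2, smul_mul_assoc, sub_mul, one_mul, mul_smul]
    refine ⟨red (Y + Q * X), ?_⟩
    rw [← map_mul, mul_add, add_mul, add_mul, a1, a2, ← mul_assoc, ← mul_assoc, q3, q6, zero_mul,
      add_zero, zero_add, smul_mul_assoc, map_add, red_odd hm, red_odd hw, map_sub, red_odd hw,
      sub_add_cancel]
  · rw [← map_mul, ← map_mul, mul_add, q5, add_zero, key (h3.trans h1.symm)]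
  · rw [← map_mul, ← map_mul, add_mul, q4, add_zero, key (h4.trans h2.symm)]
  all_goals rw [← map_mul, ← map_mul]; congr 1

end Pool.Agent.Lib.MP_2d211a_co.H8
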