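import Pool.Agent.Lib.MP_2d211a_co.Defs
import Pool.Agent.Lib.MP_2d211a_co.H8Lin

/-! No semiregular relative difference set in a group of order two modulo four. -/

namespace Pool.Agent.Lib.MP_2d211a_co.H8

open Matrix

variable {E : Type*} [Group E] [Fintype E] [DecidableEq E]

/-- left multiplication by a group ring element -/
def L (f : E → ℤ) : Matrix E E ℤ := of fun x y => f (x * y⁻¹)

/-- right multiplication by a group element -/
def Rt (σ : E) : Matrix E E ℤ := of fun x y => if y = x * σ then 1 else 0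

theorem Rt_mul (σ : E) (M : Matrix E E ℤ) (x y : E) : (Rt σ * M) x y = M (x * σ) y := by
  simp [Rt, mul_apply]

theorem mul_Rt (σ : E) (M : Matrix E E ℤ) (x y : E) : (M * Rt σ) x y = M x (y * σ⁻¹) := by
  simp [Rt, mul_apply, ← mul_inv_eq_iff_eq_mul]

theorem Rt_L (σ : E) (f : E → ℤ) : Rt σ * L f = L f * Rt σ := by
  ext x y
  simp [Rt_mul, mul_Rt, L, mul_assoc]

omit [Fintype E] [DecidableEq E] in
theorem L_transpose (f : E → ℤ) : (L f)ᵀ = L fun g => f g⁻¹ := by
  ext x y
  simp [L]

section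

variable (s : E →* ℤˣ) {τ : E} (hτ : τ * τ = 1) (hs : s τ = -1)

omit [DecidableEq E] in
include hs in
theorem sum_split (F : E → ℤ) : ∑ h, F h = ∑ z : {x // s x = 1}, (F z + F (z * τ)) := by
  rw [Finset.sum_add_distrib, ← Fintype.sum_subtype_add_sum_subtype (fun x => s x = 1) F]
  congr 1
  refine (Fintype.sum_equiv ((Equiv.mulRight τ).subtypeEquiv fun x => ?_) _ _ fun _ => rfl).symm
  rcases Int.units_eq_one_or (s x) with h | h <;> simp [h, hs]

variable (τ) in
/-- the action on the cosets of the subgroup generated by `τ` -/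
def mu : Matrix E E ℤ →ₗ[ℤ] Matrix {x // s x = 1} {x // s x = 1} ℤ where
  toFun M := of fun x y => M x y + M (x * τ) y
  map_add' M M' := by
    ext x y
    simp only [of_apply, Matrix.add_apply]
    ring
  map_smul' c M := by
    ext x y
    simp [mul_add]

include hτ hs

omit [DecidableEq E] in
theorem mu_mul {M : Matrix E E ℤ} (h : ∀ x y, M (x * τ) (y * τ) = M x y) (M' : Matrix E E ℤ) :
    mu s τ M * mu s τ M' = mu s τ (M * M') := by
  ext x y
  simp only [mu, LinearMap.coe_mk, AddHom.coe_mk, mul_apply, of_apply]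
  rw [← Finset.sum_add_distrib, sum_split s hs]
  refine Finset.sum_congr rfl fun z _ => ?_
  rw [h, ← h x (z * τ), mul_assoc, hτ, mul_one]
  ring

omit hτ [Fintype E] in
theorem mu_one : mu s τ 1 = 1 := by
  ext x y
  have : (x : E) * τ ≠ y := fun e => by simpa [x.2, y.2, hs] using congrArg s e
  simp [mu, one_apply, this, Subtype.ext_iff]

theorem mu_L (f : E → ℤ) (M' : Matrix E E ℤ) : mu s τ (L f) * mu s τ M' = mu s τ (L f * M') :=
  mu_mul s hτ hs (fun x y => by simp [L]) M'

omit hτ hs in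
theorem half_add (σ : E) (h1 : σ * σ = 1) (h2 : s σ = -1) :
    (diagonal (fun x => if s x = 1 then 1 else 0) * Rt σ) +
      (diagonal (fun x => if s x = 1 then (1 : ℤ) else 0) * Rt σ)ᵀ = Rt σ := by
  ext x y
  simp only [Matrix.add_apply, transpose_apply, diagonal_mul, Rt, of_apply]
  by_cases e : y = x * σ
  · rcases Int.units_eq_one_or (s x) with h | h <;> simp [e, h, h2, mul_assoc, h1]
  · have e' : ¬ x = y * σ := fun e' => e (by rw [e', mul_assoc, h1, mul_one])
    rw [if_neg e, if_neg e', mul_zero, mul_zero, add_zero]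

theorem core {c q : E → ℤ} {w : ℤ} {n : E} (hw : Odd w)
    (hm : Odd (Fintype.card {x // s x = 1} : ℤ))
    (hC : L c * (L c)ᵀ = (2 * Fintype.card {x // s x = 1} : ℤ) • (w • 1 - L q))
    (q0 : ∀ g, s g ≠ 1 → q g = 0) (q1 : (L q)ᵀ = L q) (q2 : L q * L q = w • L q)
    (q3 : L q * L c = L c * L q) (hn : s n = 1) (hτn : τ * n = n * τ ∨ n * τ * (n * τ) = 1)
    (ht : ∀ x, Odd (∑ z, (if s (x * z⁻¹) = 1 then 0 else c (x * n * z⁻¹) * c (x * z⁻¹)))) :
    False := by
  set m : ℤ := ((Fintype.card {x // s x = 1} : ℕ) : ℤ)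
  have hw0 : w ≠ 0 := fun e => by simp [e] at hw
  have hm0 : m ≠ 0 := fun e => by simp [e] at hm
  have q4 : L q * L c = 0 := by
    rw [← self_mul_conjTranspose_eq_zero, conjTranspose_eq_transpose_of_trivial, transpose_mul,
      mul_assoc, ← mul_assoc (L c), hC, q1]
    simp only [smul_mul_assoc, sub_mul, one_mul, q2, sub_self, smul_zero, mul_zero]
  have q5 : L c * L q = 0 := q3 ▸ q4
  have q6 : (L c)ᵀ * L q = 0 := by simpa [q1] using congrArg transpose q4
  have q7 : L q * (L c)ᵀ = 0 := by simpa [q1] using congrArg transpose q5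
  have hC' : (L c)ᵀ * L c = (2 * m) • (w • 1 - L q) := by
    have := mul_comm_of_smul (M := L c + L q) (M' := w • (L c)ᵀ + (2 * m) • L q)
      (c := 2 * m * w * w) (by positivity) (by
        simp only [mul_add, add_mul, mul_smul_comm, hC, q5, q7, q2]
        module)
    simp only [mul_add, add_mul, smul_mul_assoc, q4, q6, q2] at this
    refine smul_right_injective _ hw0 ?_
    linear_combination (norm := module) this
  have sumodd : ∀ f : {x // s x = 1} → ℤ, (∀ x, Odd (f x)) → ((∑ x, f x : ℤ) : ZMod 2) ≠ 0 :=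
    fun f hf => by
      rw [Int.cast_sum, Finset.sum_congr rfl fun x _ => ZMod.intCast_eq_one_iff_odd.2 (hf x),
        Finset.sum_const, Finset.card_univ, nsmul_one, ← Int.cast_natCast,
        ZMod.intCast_eq_one_iff_odd.2 hm]
      exact one_ne_zero
  rcases hτn with hτn | hτn
  · let b : E → ℤ := fun g => if s g = 1 then 0 else c g
    let Γ : Matrix E E ℤ := diagonal fun x => (s x : ℤ)
    have g1 : Γ * Γ = 1 := by simp [Γ, ← Units.val_mul]
    have g2 : ∀ M, Γ * (Γ * M) = M := fun M => by rw [← mul_assoc, g1, one_mul]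
    have g3 : L q * Γ = Γ * L q := by
      ext x y
      by_cases e : s (x * y⁻¹) = 1
      · rw [map_mul, map_inv, mul_inv_eq_one] at e
        simp [Γ, e, mul_comm]
      · simp [Γ, L, q0 _ e]
    have g4 : L c - (2 : ℤ) • L b = Γ * L c * Γ := by
      ext x y
      rcases Int.units_eq_one_or (s x) with h | h <;> rcases Int.units_eq_one_or (s y) with h' | h' <;>
        simp [Γ, L, b, h, h', -smul_eq_mul] <;> ring
    have g5 : (L c)ᵀ - (2 : ℤ) • (L b)ᵀ = Γ * (L c)ᵀ * Γ := by
      simpa only [Γ, mul_assoc, transpose_sub, transpose_smul, transpose_mul, diagonal_transpose]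
        using congrArg transpose g4
    have g6 : Γ * ((2 * m) • (w • 1 - L q)) * Γ = (2 * m) • (w • 1 - L q) := by
      simp only [mul_smul_comm, smul_mul_assoc, mul_sub, sub_mul, mul_one, g1, mul_assoc, g3, g2]
    have g7 : L q * L b = 0 := by
      refine smul_right_injective _ (two_ne_zero (α := ℤ)) ?_
      have := congrArg (L q * ·) g4
      simp only [mul_sub, ← mul_assoc, g3] at this
      simpa only [mul_assoc Γ, q4, mul_zero, zero_mul, zero_sub, neg_eq_zero, mul_smul_comm,
        smul_zero] using this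
    have g8 : L b * L q = 0 := by
      refine smul_right_injective _ (two_ne_zero (α := ℤ)) ?_
      have := congrArg (· * L q) g4
      simp only [sub_mul, mul_assoc, ← g3] at this
      simpa only [← mul_assoc (L c), q5, mul_zero, zero_mul, zero_sub, neg_eq_zero,
        smul_mul_assoc, smul_zero] using this
    have d1 : L c - (2 : ℤ) • L b = L (c - (2 : ℤ) • b) := rfl
    have d2 : (L c)ᵀ - (2 : ℤ) • (L b)ᵀ = L fun g => c g⁻¹ - 2 * b g⁻¹ := by
      rw [L_transpose, L_transpose]
      rfl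
    have mT : ∀ M, mu s τ (L c)ᵀ * mu s τ M = mu s τ ((L c)ᵀ * M) := fun M => by
      rw [L_transpose, mu_L s hτ hs]
    have mR : ∀ M, mu s τ (Rt n) * mu s τ M = mu s τ (Rt n * M) :=
      mu_mul s hτ hs fun x y => by
        simp only [Rt, of_apply, mul_assoc x τ, hτn, ← mul_assoc x n, mul_left_inj]
    have e : (2 * m) • (w • 1 - mu s τ (L q)) = mu s τ ((2 * m) • (w • 1 - L q)) := by
      rw [map_smul, map_sub, map_smul, mu_one s hs]
    have key := trace_A' (S := mu s τ (L c)) (T := mu s τ (L c)ᵀ) (B := mu s τ (L b))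
      (B' := mu s τ (L b)ᵀ) (Q := mu s τ (L q)) (ρ := mu s τ (Rt n)) hm hw
      (by rw [mu_L s hτ hs, hC, e]) (by rw [mT, hC', e])
      (by rw [← map_smul, ← map_smul, ← map_sub, ← map_sub, d1, mu_L s hτ hs, ← d1, g4, g5, e, ← g6,
        ← hC]; simp only [mul_assoc, g2])
      (by rw [← map_smul, ← map_smul, ← map_sub, ← map_sub, d2, mu_L s hτ hs, ← d2, g4, g5, e, ← g6,
        ← hC']; simp only [mul_assoc, g2])
      (by rw [mu_L s hτ hs, q4, map_zero]) (by rw [mu_L s hτ hs, q5, map_zero])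
      (by rw [mT, q6, map_zero]) (by rw [mu_L s hτ hs, g7, map_zero])
      (by rw [mu_L s hτ hs, g8, map_zero]) (by rw [mu_L s hτ hs, q2, map_smul])
      (by rw [mu_L s hτ hs, mR, Rt_L]) (by rw [mu_L s hτ hs, mR, Rt_L])
    rw [mul_assoc, mu_L s hτ hs, mR, RingHom.mapMatrix_apply, ← AddMonoidHom.map_trace] at key
    refine sumodd _ (fun x => ?_) key
    convert ht x using 1
    simp only [diag, mu, LinearMap.coe_mk, AddHom.coe_mk, of_apply, Rt_mul]
    simp only [mul_apply, transpose_apply, L, of_apply, ← Finset.sum_add_distrib]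
    refine Finset.sum_congr rfl fun z _ => ?_
    rcases Int.units_eq_one_or (s z) with h | h <;> simp [b, h, hs, hn, x.2]
  · let P : Matrix E E ℤ := diagonal fun x => if s x = 1 then 1 else 0
    have hσ : s (n * τ) = -1 := by rw [map_mul, hn, hs, one_mul]
    have e : L c * (P * Rt τ + (P * Rt τ)ᵀ) * (L c)ᵀ = Rt τ * (2 * m) • (w • 1 - L q) := by
      rw [half_add s τ hτ hs, ← Rt_L, mul_assoc, hC]
    have rT : ∀ M : Matrix E E ℤ, (red M)ᵀ = red Mᵀ := fun _ => rfl
    have key := trace_B (S := red (L c)) (X := red (P * Rt (n * τ))) (Y := red (P * Rt τ))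
      (by rw [rT, rT, ← map_add, ← map_mul, ← map_mul, half_add s _ hτn hσ, mul_assoc, Rt_L,
        ← mul_assoc, hC', mul_smul, smul_mul_assoc, red_two])
      (by rw [rT, rT, ← map_add, ← map_mul, ← map_mul, e, mul_smul, mul_smul_comm, red_two])
      fun i => by
        have e1 := congrFun (congrFun e i) i
        have e2 : i * τ ≠ i := fun h => by simpa [hs] using congrArg s (mul_eq_left.1 h)
        have e3 : (L c * (P * Rt τ)ᵀ * (L c)ᵀ) i i = (L c * (P * Rt τ) * (L c)ᵀ) i i := by
          rw [← transpose_apply (L c * (P * Rt τ) * (L c)ᵀ), transpose_mul (_ * _), transpose_mul (L c),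
            transpose_transpose, mul_assoc]
        rw [mul_add, add_mul, Matrix.add_apply, e3, Rt_mul, Matrix.smul_apply, Matrix.sub_apply,
          Matrix.smul_apply, one_apply_ne e2, show L q (i * τ) i = 0 from q0 _ (by simp [hs])] at e1
        rw [rT, ← map_mul, ← map_mul, RingHom.mapMatrix_apply, map_apply,
          show (L c * (P * Rt τ) * (L c)ᵀ) i i = 0 by simpa using e1, map_zero]
    rw [rT, ← map_mul, ← map_mul, ← map_mul, RingHom.mapMatrix_apply,
      ← AddMonoidHom.map_trace, trace, sum_split s hs] at key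
    refine sumodd _ (fun x => ?_) key
    convert ht x using 1
    simp only [diag, mul_assoc P, P, diagonal_mul, Rt_mul, map_mul, x.2, hs]
    rw [mul_apply, ← mul_assoc]
    simp only [mul_Rt, mul_diagonal, transpose_apply, L, of_apply]
    simp only [if_true, one_mul, if_neg (show ¬(-1 : ℤˣ) = 1 by decide), zero_mul, add_zero]
    refine Finset.sum_congr rfl fun z _ => ?_
    rcases Int.units_eq_one_or (s z) with h | h <;>
      simp [h, hs, mul_assoc, ← mul_assoc τ τ, hτ]

end

theorem not_contains (hE : Fintype.card E % 4 = 2) (N : Subgroup E) (R : Set E) :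
    ¬ IsSemiregularRDS N R := by
  classical
  rintro ⟨hN, h1, h2, h3, h4, h5⟩
  obtain ⟨τ, hτ⟩ := exists_prime_orderOf_dvd_card (G := E) 2 (by omega)
  have hτ2 : τ * τ = 1 := by rw [← sq, ← hτ, pow_orderOf_eq_one]
  have hτ1 : τ ≠ 1 := fun e => by simp [e] at hτ
  let s : E →* ℤˣ := Equiv.Perm.sign.comp (MulAction.toPermHom E E)
  have hs : s τ = -1 := by
    have : Fintype.card (Function.fixedPoints (MulAction.toPermHom E E τ)) = 0 :=
      Fintype.card_eq_zero_iff.2 ⟨fun x => hτ1 (mul_eq_right.1 x.2)⟩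
    show Equiv.Perm.sign _ = _
    rw [Equiv.Perm.sign_of_pow_two_eq_one (by rw [← map_pow, sq, hτ2, map_one]), this]
    exact Odd.neg_one_pow (Nat.odd_iff.2 (by omega))
  have hK : (Fintype.card E : ℤ) = 2 * Fintype.card {x // s x = 1} := by
    simpa [mul_comm] using sum_split s hs fun _ => 1
  obtain ⟨g, hg⟩ : ∃ g, g ∉ N := by
    by_contra! h
    rw [(Subgroup.eq_top_iff' N).2 h, Subgroup.card_top] at h2
    exact h2.false
  rw [Nat.card_eq_fintype_card (α := E)] at h3
  have hw : Odd (Nat.card N) := by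
    rw [← h4 g hg] at h3
    refine Nat.not_even_iff_odd.1 fun ⟨k, hk⟩ => ?_
    have : 4 ∣ Fintype.card E := ⟨_ * k * k, by rw [← h3, hk]; ring⟩
    omega
  have hNs : ∀ n ∈ N, s n = 1 := fun n hn => by
    have : n ^ Nat.card N = 1 := congrArg Subtype.val (pow_card_eq_one' (x := (⟨n, hn⟩ : N)))
    have := congrArg s this
    rcases Int.units_eq_one_or (s n) with h | h
    · exact h
    · rw [map_pow, h, hw.neg_one_pow, map_one] at this
      exact h.trans this
  obtain ⟨n, hnN, hn1, hn⟩ : ∃ n ∈ N, n ≠ 1 ∧ (τ * n = n * τ ∨ n * τ * (n * τ) = 1) := by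
    have := Finite.one_lt_card_iff_nontrivial.1 h1
    obtain ⟨n, hn⟩ := exists_ne (1 : N)
    by_cases e : τ * n = n * τ
    · exact ⟨n, n.2, fun h => hn (Subtype.ext h), Or.inl e⟩
    refine ⟨(n : E)⁻¹ * (τ * n * τ⁻¹), N.mul_mem (N.inv_mem n.2) (hN.conj_mem _ n.2 τ),
      fun h => e ?_, Or.inr ?_⟩
    · rw [inv_mul_eq_one, eq_mul_inv_iff_mul_eq] at h
      exact h.symm
    · simp [mul_assoc, ← mul_assoc τ τ, hτ2]
  let r : E → ℤ := fun g => if g ∈ R then 1 else 0
  let q : E → ℤ := fun g => if g ∈ N then 1 else 0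
  set w : ℤ := ((Nat.card N : ℕ) : ℤ) with hw'
  set v : ℤ := ((R.ncard : ℕ) : ℤ) with hv
  have hvw : v * w = 2 * Fintype.card {x // s x = 1} := by rw [← hK, ← h3, Nat.cast_mul]
  have si : ∀ (f : E → ℤ) x, ∑ z, f (x * z⁻¹) = ∑ z, f z := fun f x =>
    Fintype.sum_equiv ((Equiv.inv E).trans (Equiv.mulLeft x)) _ _ fun _ => rfl
  have sr : ∀ x, ∑ z, r (x * z⁻¹) = v := fun x => by
    rw [si, hv, Set.ncard_eq_toFinset_card']
    simp [r]
  have cnt : ∀ x y, ∑ z, r (x * z⁻¹) * r (y * z⁻¹) =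
      {p : E × E | p.1 ∈ R ∧ p.2 ∈ R ∧ p.1 * p.2⁻¹ = x * y⁻¹}.ncard := fun x y => by
    rw [← Set.ncard_congr (s := {z | x * z⁻¹ ∈ R ∧ y * z⁻¹ ∈ R})
      (t := {p : E × E | p.1 ∈ R ∧ p.2 ∈ R ∧ p.1 * p.2⁻¹ = x * y⁻¹}) (fun z _ => (x * z⁻¹, y * z⁻¹))
      (fun z hz => ⟨hz.1, hz.2, by simp⟩) (fun a b _ _ h => by simpa using congrArg Prod.fst h)
      fun p hp => ⟨p.2⁻¹ * y, by simp [← mul_assoc, ← hp.2.2, hp.1, hp.2.1],
        by simp [← mul_assoc, ← hp.2.2]⟩, Set.ncard_eq_toFinset_card']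
    simp [r, ← ite_and, and_comm]
  have rr : ∀ a b, a * b⁻¹ ∈ N → a * b⁻¹ ≠ 1 → r a * r b = 0 := fun a b k1 k2 => by
    by_cases ha : a ∈ R
    · exact mul_eq_zero_of_right _ (if_neg fun hb => h5 _ k1 k2 a ha b hb rfl)
    · exact mul_eq_zero_of_left (if_neg ha) _
  refine core s hτ2 hs (c := fun g => w * r g - 1) (q := q) (w := w) (n := n)
    ((Int.odd_coe_nat _).2 hw) (by rw [Int.odd_iff]; omega) ?_
    (fun g hg => if_neg fun h => hg (hNs g h)) ?_ ?_ ?_ (hNs n hnN) hn fun x => ?_
  · ext x y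
    have e : (L (fun g => w * r g - 1) * (L fun g => w * r g - 1)ᵀ) x y =
        w * (w * ∑ z, r (x * z⁻¹) * r (y * z⁻¹)) - v * w := by
      have : ∀ z, (w * r (x * z⁻¹) - 1) * (w * r (y * z⁻¹) - 1) =
          w * (w * (r (x * z⁻¹) * r (y * z⁻¹))) - w * r (x * z⁻¹) - w * r (y * z⁻¹) + 1 :=
        fun z => by ring
      simp only [mul_apply, transpose_apply, L, of_apply, this, Finset.sum_add_distrib,
        Finset.sum_sub_distrib, ← Finset.mul_sum, sr, Finset.sum_const, Finset.card_univ,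
        nsmul_one, hK, ← hvw]
      ring
    rw [e, ← hvw, Matrix.smul_apply, Matrix.sub_apply, Matrix.smul_apply, L, of_apply]
    by_cases k1 : x * y⁻¹ ∈ N
    · by_cases k2 : x = y
      · subst k2
        rw [Finset.sum_congr rfl fun z _ => show r (x * z⁻¹) * r (x * z⁻¹) = r (x * z⁻¹) by
          simp [r], sr]
        simp [q]
        ring
      · rw [Finset.sum_eq_zero fun z _ => rr _ _ (by simpa using k1)
          (by simpa [mul_inv_eq_one] using k2)]
        simp [q, k1, k2]
    · have k2 : x ≠ y := fun h => k1 (by simp [h])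
      have k3 := congrArg (Nat.cast : ℕ → ℤ) (h4 _ k1)
      rw [Nat.cast_mul, ← cnt, ← hw', ← hv, mul_comm] at k3
      simp [k3, q, k1, k2, mul_comm]
  · ext x y
    simp only [transpose_apply, L, of_apply, q]
    rw [← N.inv_mem_iff, _root_.mul_inv_rev, inv_inv]
  · ext x y
    have : ∀ z, q (x * z⁻¹) * q (z * y⁻¹) = q (x * z⁻¹) * q (x * y⁻¹) := fun z => by
      by_cases k : x * z⁻¹ ∈ N
      · simp only [q, ← N.mul_mem_cancel_left (y := z * y⁻¹) k, mul_assoc, inv_mul_cancel_left]
      · simp [q, k]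
    simp only [mul_apply, L, of_apply, this, ← Finset.sum_mul, Matrix.smul_apply, smul_eq_mul]
    rw [si, hw', Nat.card_eq_fintype_card, Fintype.card_subtype]
    simp [q]
  · ext x y
    simp only [mul_apply, L, of_apply]
    refine Fintype.sum_equiv (((Equiv.inv E).trans (Equiv.mulLeft y)).trans (Equiv.mulRight x)) _ _
      fun z => ?_
    have : y * z⁻¹ * x * y⁻¹ ∈ N ↔ x * z⁻¹ ∈ N := by
      rw [hN.mem_comm_iff, ← mul_assoc, ← mul_assoc, inv_mul_cancel, one_mul, hN.mem_comm_iff]
    simp [q, this, mul_comm]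
  · have k1 : x * n * x⁻¹ ∈ N := hN.conj_mem n hnN x
    let o : E → ℤ := fun z => if s (x * z⁻¹) = 1 then 0 else 1
    have : ∀ z, (if s (x * z⁻¹) = 1 then 0 else (w * r (x * n * z⁻¹) - 1) * (w * r (x * z⁻¹) - 1)) =
        o z - w * (o z * r (x * n * z⁻¹)) - w * (o z * r (x * z⁻¹)) := fun z => by
      have := rr (x * n * z⁻¹) (x * z⁻¹) (by simpa [mul_assoc] using k1) (by simpa using hn1)
      simp only [o]
      split_ifs
      · ring
      · linear_combination w * w * this
    simp only [this, Finset.sum_sub_distrib, ← Finset.mul_sum]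
    rw [Fintype.sum_equiv (Equiv.mulRight n⁻¹) (fun z => o z * r (x * n * z⁻¹))
      (fun z => o z * r (x * z⁻¹)) fun z => by simp [o, hNs n hnN, mul_assoc], sub_sub, ← two_mul]
    refine Odd.sub_even ?_ (even_two_mul _)
    rw [sum_split s hs, Finset.sum_congr rfl (g := fun _ => 1) fun z _ => by
      rcases Int.units_eq_one_or (s x) with h | h <;> simp [o, h, hs, z.2]]
    rw [Finset.sum_const, Finset.card_univ, nsmul_one, Int.odd_iff]
    omega

end Pool.Agent.Lib.MP_2d211a_co.H8
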