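import Mathlib

open Finset

namespace Pool.Agent.Lib.MP_2d211a_co

variable {p : ℕ} [hp : Fact p.Prime]

/-- Integer power sums of the standard residues. -/
def sg (p : ℕ) [NeZero p] (m : ℕ) : ℤ := ∑ a : ZMod p, (a.val : ℤ) ^ m

theorem sg_cast (m : ℕ) : ((sg p m : ℤ) : ZMod p) = ∑ a : ZMod p, a ^ m := by
  simp [sg]

theorem sg_dvd (m : ℕ) (hm : m < p - 1) : (p : ℤ) ∣ sg p m := by
  rw [← ZMod.intCast_zmod_eq_zero_iff_dvd, sg_cast]
  exact FiniteField.sum_pow_lt_card_sub_one (ZMod p) m (by rwa [ZMod.card])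

theorem sg_top : ((sg p (p - 1) : ℤ) : ZMod p) = -1 := by
  classical
  rw [sg_cast]
  have h : ∀ a : ZMod p, a ^ (p - 1) = 1 - if a = 0 then 1 else 0 := fun a => by
    split_ifs with h
    · rw [h, zero_pow (by have := hp.out.two_le; omega), sub_self]
    · rw [ZMod.pow_card_sub_one_eq_one h, sub_zero]
  simp_rw [h]
  rw [sum_sub_distrib]
  simp

theorem sum_Z_pow (m : ℕ) :
    ∑ s : ZMod p, ∑ y : ZMod p, ((s.val : ℤ) * y.val) ^ m = sg p m ^ 2 := by
  simp_rw [mul_pow]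
  rw [← sum_mul_sum, sg, sq]

theorem T_dvd (e m : ℕ) (h : e + m ≤ p - 1) (a : ℤ) :
    (p : ℤ) ^ 2 ∣ ∑ s : ZMod p, ∑ y : ZMod p,
      ((s.val : ℤ) * y.val) ^ e * ((s.val : ℤ) * y.val + a) ^ m - sg p (e + m) ^ 2 := by
  have h1 : ∀ Z : ℤ, Z ^ e * (Z + a) ^ m =
      ∑ i ∈ range m, Z ^ (e + i) * (a ^ (m - i) * m.choose i) + Z ^ (e + m) := fun Z => by
    rw [add_pow, sum_range_succ, mul_add, mul_sum]
    congr 1
    · exact sum_congr rfl fun i _ => by ring
    · simp; ring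
  simp_rw [h1, sum_add_distrib]
  rw [sum_Z_pow, add_sub_cancel_right]
  have h2 : ∑ s : ZMod p, ∑ y : ZMod p, ∑ i ∈ range m,
      ((s.val : ℤ) * y.val) ^ (e + i) * (a ^ (m - i) * m.choose i) =
      ∑ i ∈ range m, sg p (e + i) ^ 2 * (a ^ (m - i) * m.choose i) := by
    simp_rw [← sum_Z_pow, sum_mul]
    rw [sum_congr rfl fun s _ => sum_comm, sum_comm]
  rw [h2]
  refine dvd_sum fun i hi => Dvd.dvd.mul_right ?_ _
  exact pow_dvd_pow_of_dvd (sg_dvd _ (by have := mem_range.1 hi; omega)) 2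

/-- The carry. -/
def cy (s ν y : ZMod p) : ℤ := (((ν + s * y).val : ℤ) - (s.val : ℤ) * y.val - ν.val) / p

theorem cy_spec (s ν y : ZMod p) :
    ((ν + s * y).val : ℤ) = (s.val : ℤ) * y.val + ν.val + p * cy s ν y := by
  have h : (p : ℤ) ∣ ((ν + s * y).val : ℤ) - (s.val : ℤ) * y.val - ν.val := by
    rw [← ZMod.intCast_zmod_eq_zero_iff_dvd]; simp
  rw [cy, Int.mul_ediv_cancel' h]; ring

theorem gamma_ne (h5 : 5 ≤ p) :
    ∑ s : ZMod p, ∑ y : ZMod p, ∑ ν : ZMod p,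
      ν * (ν + s * y) ^ (p - 3) * ((cy s ν y : ℤ) : ZMod p) ≠ 0 := by
  obtain ⟨n, hn⟩ : ∃ n, p = n + 3 := ⟨p - 3, by omega⟩
  have hn3 : p - 3 = n := by omega
  rw [hn3]
  set H : ℤ → ℤ → ℤ := fun X Z => (n + 1) * X ^ (n + 2) - (n + 2) * (Z * X ^ (n + 1)) with hH
  set G : ℤ := ∑ s : ZMod p, ∑ y : ZMod p, ∑ ν : ZMod p,
    (ν.val : ℤ) * ((s.val : ℤ) * y.val + ν.val) ^ n * cy s ν y with hG
  have hGc : (G : ZMod p) = ∑ s : ZMod p, ∑ y : ZMod p, ∑ ν : ZMod p,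
      ν * (ν + s * y) ^ n * ((cy s ν y : ℤ) : ZMod p) := by
    rw [hG]; push_cast
    refine sum_congr rfl fun s _ => sum_congr rfl fun y _ => sum_congr rfl fun ν _ => ?_
    simp only [ZMod.natCast_val, ZMod.cast_id', id_eq]; ring
  have t1 : ∀ s y ν : ZMod p, (p : ℤ) ^ 2 ∣ H ((ν + s * y).val) ((s.val : ℤ) * y.val) -
      H ((s.val : ℤ) * y.val + ν.val) ((s.val : ℤ) * y.val) -
      p * ((n + 1) * (n + 2)) * ((ν.val : ℤ) * ((s.val : ℤ) * y.val + ν.val) ^ n * cy s ν y) := by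
    intro s y ν
    rw [cy_spec]
    generalize (s.val : ℤ) * y.val = Z
    generalize (ν.val : ℤ) = V
    generalize cy s ν y = c
    obtain ⟨r1, h1⟩ := sq_dvd_add_pow_sub_sub (p * c : ℤ) (Z + V) (n + 2)
    obtain ⟨r2, h2⟩ := sq_dvd_add_pow_sub_sub (p * c : ℤ) (Z + V) (n + 1)
    simp only [Nat.add_succ_sub_one, add_tsub_cancel_right] at h1 h2
    push_cast at h1 h2
    refine ⟨c ^ 2 * ((n + 1) * r1 - (n + 2) * Z * r2), ?_⟩
    simp only [hH]
    linear_combination (n + 1) * h1 - (n + 2) * Z * h2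
  have t2 : (p : ℤ) ^ 2 ∣ ∑ s : ZMod p, ∑ y : ZMod p, ∑ ν : ZMod p,
      H ((ν + s * y).val) ((s.val : ℤ) * y.val) := by
    have : ∀ s y : ZMod p, ∑ ν : ZMod p, H ((ν + s * y).val) ((s.val : ℤ) * y.val) =
        (n + 1) * sg p (n + 2) - (n + 2) * sg p (n + 1) * ((s.val : ℤ) * y.val) ^ 1 := by
      intro s y
      rw [Fintype.sum_equiv (Equiv.addRight (s * y))
        (fun ν => H ((ν + s * y).val) ((s.val : ℤ) * y.val))
        (fun x => H (x.val) ((s.val : ℤ) * y.val)) (fun _ => rfl)]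
      simp only [hH, sg, sum_sub_distrib, ← mul_sum]
      ring
    simp_rw [this, sum_sub_distrib, ← mul_sum]
    rw [sum_Z_pow]
    refine dvd_sub ?_ (Dvd.dvd.mul_left (pow_dvd_pow_of_dvd (sg_dvd 1 (by omega)) 2) _)
    simp only [sum_const, card_univ, ZMod.card, nsmul_eq_mul]
    exact ⟨(n + 1) * sg p (n + 2), by ring⟩
  have t3 : (p : ℤ) ^ 2 ∣ ∑ s : ZMod p, ∑ y : ZMod p, ∑ ν : ZMod p,
      H ((s.val : ℤ) * y.val + ν.val) ((s.val : ℤ) * y.val) + p * sg p (n + 2) ^ 2 := by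
    have e1 : ∑ s : ZMod p, ∑ y : ZMod p, ∑ ν : ZMod p,
        H ((s.val : ℤ) * y.val + ν.val) ((s.val : ℤ) * y.val) =
        ∑ ν : ZMod p, ∑ s : ZMod p, ∑ y : ZMod p,
        H ((s.val : ℤ) * y.val + ν.val) ((s.val : ℤ) * y.val) := by
      rw [sum_congr rfl fun s _ => sum_comm, sum_comm]
    have e2 : (p : ℤ) * sg p (n + 2) ^ 2 = ∑ _ν : ZMod p, sg p (n + 2) ^ 2 := by simp
    rw [e1, e2, ← sum_add_distrib]
    refine dvd_sum fun ν _ => ?_
    obtain ⟨r1, h1⟩ := T_dvd (p := p) 0 (n + 2) (by omega) (ν.val : ℤ)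
    obtain ⟨r2, h2⟩ := T_dvd (p := p) 1 (n + 1) (by omega) (ν.val : ℤ)
    simp only [pow_zero, one_mul, zero_add, pow_one] at h1 h2
    rw [show 1 + (n + 1) = n + 2 by ring] at h2
    refine ⟨(n + 1) * r1 - (n + 2) * r2, ?_⟩
    simp only [hH, sum_sub_distrib, ← mul_sum]
    linear_combination (n + 1) * h1 - (n + 2) * h2
  have t4 : (p : ℤ) ^ 2 ∣ ∑ s : ZMod p, ∑ y : ZMod p, ∑ ν : ZMod p,
      H ((ν + s * y).val) ((s.val : ℤ) * y.val) - ∑ s : ZMod p, ∑ y : ZMod p, ∑ ν : ZMod p,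
      H ((s.val : ℤ) * y.val + ν.val) ((s.val : ℤ) * y.val) - p * ((n + 1) * (n + 2)) * G := by
    rw [hG]
    simp only [mul_sum, ← sum_sub_distrib]
    exact dvd_sum fun s _ => dvd_sum fun y _ => dvd_sum fun ν _ => t1 s y ν
  have t5 : (p : ℤ) * p ∣ p * (sg p (n + 2) ^ 2 - ((n + 1) * (n + 2)) * G) := by
    have := dvd_add (dvd_sub t4 t2) t3
    rw [← sq]
    obtain ⟨r, hr⟩ := this
    exact ⟨r, by linear_combination hr⟩
  rw [mul_dvd_mul_iff_left (Nat.cast_ne_zero.2 hp.out.ne_zero),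
    ← ZMod.intCast_zmod_eq_zero_iff_dvd] at t5
  intro h0
  rw [← hGc] at h0
  push_cast at t5
  rw [h0, show n + 2 = p - 1 by omega, sg_top] at t5
  simp at t5

/-- The data that carries the obstruction. -/
structure Good (T : ℤ → ℤ → ZMod p → ZMod p) (W : ZMod p × ZMod p → ZMod p) : Prop where
  aff : ∀ s x0, ∃ A B : ZMod p, ∀ y, T s x0 y = A + B * y
  tw : ∀ s x0 y, T s (x0 + p) y = T s x0 y + W (s, x0)
  deg : ∀ x y : ℤ, ∃ P : ZMod p → ZMod p, ∑ s, P s = 0 ∧ ∑ s, s * P s = 0 ∧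
    ∀ s : ℤ, T s (x - s * y) y = P s

theorem Good.const (h5 : 5 ≤ p) {T : ℤ → ℤ → ZMod p → ZMod p} {w : ZMod p}
    (h : Good T (fun _ => w)) : w = 0 := by
  have tw : ∀ (s x0 : ℤ) (y : ZMod p) (c : ℤ), T s (x0 + p * c) y = T s x0 y + c * w := by
    intro s x0 y c
    induction c using Int.induction_on with
    | zero => simp
    | succ i ih =>
      rw [show x0 + p * ((i : ℤ) + 1) = x0 + p * i + p by ring, h.tw, ih]; push_cast; ring
    | pred i ih =>
      have := h.tw s (x0 + p * (-(i : ℤ) - 1)) y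
      rw [show x0 + p * (-(i : ℤ) - 1) + p = x0 + p * (-(i : ℤ)) by ring, ih] at this
      push_cast at this ⊢
      linear_combination -this
  have key : ∀ s y ν : ZMod p, T s.val (((ν + s * y).val : ℤ) - (s.val : ℤ) * (y.val : ℤ)) y =
      T s.val ν.val y + cy s ν y * w := by
    intro s y ν
    rw [← tw, cy_spec]; congr 1; ring
  have hL : ∑ s : ZMod p, ∑ y : ZMod p, ∑ ν : ZMod p, ν * (ν + s * y) ^ (p - 3) *
      T s.val (((ν + s * y).val : ℤ) - (s.val : ℤ) * (y.val : ℤ)) y = 0 := by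
    have e1 : ∀ s y : ZMod p, ∑ ν : ZMod p, ν * (ν + s * y) ^ (p - 3) *
        T s.val (((ν + s * y).val : ℤ) - (s.val : ℤ) * (y.val : ℤ)) y =
        ∑ x : ZMod p, (x - s * y) * x ^ (p - 3) *
        T s.val ((x.val : ℤ) - (s.val : ℤ) * (y.val : ℤ)) y := fun s y =>
      Fintype.sum_equiv (Equiv.addRight (s * y)) _ _ (fun ν => by simp)
    simp_rw [e1]
    rw [sum_comm]
    refine sum_eq_zero fun y _ => ?_
    rw [sum_comm]
    refine sum_eq_zero fun x _ => ?_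
    obtain ⟨P, h1, h2, h3⟩ := h.deg x.val y.val
    have h4 : ∀ s : ZMod p, T s.val ((x.val : ℤ) - (s.val : ℤ) * (y.val : ℤ)) y = P s := fun s => by
      have := h3 s.val
      simpa using this
    simp_rw [h4]
    have : ∀ s : ZMod p, (x - s * y) * x ^ (p - 3) * P s =
        x * x ^ (p - 3) * P s - y * x ^ (p - 3) * (s * P s) := fun s => by ring
    simp_rw [this]
    rw [sum_sub_distrib, ← mul_sum, ← mul_sum, h1, h2]; simp
  have hR : ∑ s : ZMod p, ∑ y : ZMod p, ∑ ν : ZMod p, ν * (ν + s * y) ^ (p - 3) *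
      T s.val ν.val y = 0 := by
    refine sum_eq_zero fun s _ => ?_
    rw [sum_comm]
    refine sum_eq_zero fun ν _ => ?_
    obtain ⟨A, B, hAB⟩ := h.aff s.val ν.val
    simp_rw [hAB, add_pow, mul_sum, sum_mul]
    rw [sum_comm]
    refine sum_eq_zero fun i hi => ?_
    have hi' := mem_range.1 hi
    have : ∀ y : ZMod p, ν * (ν ^ i * (s * y) ^ (p - 3 - i) * ((p - 3).choose i : ZMod p)) *
        (A + B * y) = (ν * ν ^ i * s ^ (p - 3 - i) * ((p - 3).choose i : ZMod p)) *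
          (A * y ^ (p - 3 - i) + B * y ^ (p - 3 - i + 1)) := fun y => by ring
    simp_rw [this]
    rw [← mul_sum, sum_add_distrib, ← mul_sum, ← mul_sum,
      FiniteField.sum_pow_lt_card_sub_one (ZMod p) _ (by rw [ZMod.card]; omega),
      FiniteField.sum_pow_lt_card_sub_one (ZMod p) _ (by rw [ZMod.card]; omega)]
    simp
  simp_rw [key, mul_add, sum_add_distrib] at hL
  rw [hR, zero_add] at hL
  simp_rw [← mul_assoc, ← sum_mul] at hL
  exact (mul_eq_zero.1 hL).resolve_left (gamma_ne h5)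

theorem Good.ds {T : ℤ → ℤ → ZMod p → ZMod p} {W : ZMod p × ZMod p → ZMod p} (h : Good T W) :
    Good (fun s x y => T (s + 1) x y - T s x y) (fwdDiff ((1, 0) : ZMod p × ZMod p) W) := by
  refine ⟨fun s x0 => ?_, fun s x0 y => ?_, fun x y => ?_⟩
  · obtain ⟨A, B, h1⟩ := h.aff s x0
    obtain ⟨A', B', h2⟩ := h.aff (s + 1) x0
    exact ⟨A' - A, B' - B, fun y => by rw [h1, h2]; ring⟩
  · rw [h.tw, h.tw, fwdDiff]
    simp only [Int.cast_add, Int.cast_one, Prod.mk_add_mk, add_zero]; ring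
  · obtain ⟨P, h1, h2, h3⟩ := h.deg x y
    obtain ⟨P', h1', h2', h3'⟩ := h.deg (x + y) y
    have e1 : ∑ s, P' (s + 1) = 0 := by
      rw [← h1']; exact Fintype.sum_equiv (Equiv.addRight 1) _ _ (fun _ => rfl)
    have e2 : ∑ s, (s + 1) * P' (s + 1) = 0 := by
      rw [← h2']; exact Fintype.sum_equiv (Equiv.addRight 1) _ _ (fun _ => rfl)
    refine ⟨fun s => P' (s + 1) - P s, by rw [sum_sub_distrib, e1, h1, sub_zero], ?_, fun s => ?_⟩
    · simp_rw [add_mul, one_mul, sum_add_distrib] at e2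
      simp_rw [mul_sub]
      rw [sum_sub_distrib, h2, sub_zero, ← e2, e1, add_zero]
    · have := h3' (s + 1)
      rw [show x + y - (s + 1) * y = x - s * y by ring] at this
      simp only [this, h3]; push_cast; rfl

theorem Good.dx {T : ℤ → ℤ → ZMod p → ZMod p} {W : ZMod p × ZMod p → ZMod p} (h : Good T W) :
    Good (fun s x y => T s (x + 1) y - T s x y) (fwdDiff ((0, 1) : ZMod p × ZMod p) W) := by
  refine ⟨fun s x0 => ?_, fun s x0 y => ?_, fun x y => ?_⟩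
  · obtain ⟨A, B, h1⟩ := h.aff s x0
    obtain ⟨A', B', h2⟩ := h.aff s (x0 + 1)
    exact ⟨A' - A, B' - B, fun y => by rw [h1, h2]; ring⟩
  · rw [show x0 + p + 1 = x0 + 1 + p by ring, h.tw, h.tw, fwdDiff]
    simp only [Int.cast_add, Int.cast_one, Prod.mk_add_mk, add_zero]; ring
  · obtain ⟨P, h1, h2, h3⟩ := h.deg x y
    obtain ⟨P', h1', h2', h3'⟩ := h.deg (x + 1) y
    refine ⟨fun s => P' s - P s, by rw [sum_sub_distrib, h1', h1, sub_zero], ?_, fun s => ?_⟩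
    · simp_rw [mul_sub]
      rw [sum_sub_distrib, h2, h2', sub_zero]
    · have := h3' s
      rw [show x + 1 - s * y = x - s * y + 1 by ring] at this
      simp only [this, h3]

theorem fwd_nil (hp2 : 2 < p) (v : ZMod p × ZMod p) (W : ZMod p × ZMod p → ZMod p) :
    (fwdDiff v)^[p] W = 0 := by
  funext a
  rw [fwdDiff_iter_eq_sum_shift, sum_range_succ, ← sum_erase_add _ _ (mem_range.2 hp.out.pos)]
  rw [sum_eq_zero]
  · have hv : p • v = 0 := by ext <;> simp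
    have hodd : Odd p := hp.out.odd_of_ne_two (by omega)
    simp [hv, hodd.neg_one_pow]
  · intro k hk
    have h1 := mem_range.1 (mem_of_mem_erase hk)
    have h2 := ne_of_mem_erase hk
    obtain ⟨c, hc⟩ := hp.out.dvd_choose_self h2 h1
    rw [hc, zsmul_eq_mul]; simp

theorem exists_inv (hp2 : 2 < p) (v : ZMod p × ZMod p) (V : (ZMod p × ZMod p → ZMod p) → Prop)
    (hV : ∀ W, V W → V (fwdDiff v W)) (W : ZMod p × ZMod p → ZMod p) (hW : V W) (h0 : W ≠ 0) :
    ∃ W', V W' ∧ W' ≠ 0 ∧ fwdDiff v W' = 0 := by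
  by_contra hne
  push Not at hne
  have : ∀ n, V ((fwdDiff v)^[n] W) ∧ (fwdDiff v)^[n] W ≠ 0 := by
    intro n
    induction n with
    | zero => exact ⟨hW, h0⟩
    | succ n ih =>
      rw [Function.iterate_succ_apply']
      exact ⟨hV _ ih.1, hne _ ih.1 ih.2⟩
  exact (this p).2 (fwd_nil hp2 v W)

/-- The carry obstruction. -/
theorem Good.eq_zero (h5 : 5 ≤ p) {T : ℤ → ℤ → ZMod p → ZMod p} {W : ZMod p × ZMod p → ZMod p}
    (h : Good T W) : W = 0 := by
  by_contra h0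
  obtain ⟨W1, hV1, h1, hd1⟩ := exists_inv (by omega) (1, 0) (fun W => ∃ T, Good T W)
    (fun W ⟨T, hT⟩ => ⟨_, hT.ds⟩) W ⟨T, h⟩ h0
  obtain ⟨W2, ⟨⟨T2, hT2⟩, hd2⟩, h2, hd3⟩ := exists_inv (by omega) (0, 1)
    (fun W => (∃ T, Good T W) ∧ fwdDiff ((1, 0) : ZMod p × ZMod p) W = 0)
    (fun W ⟨⟨T, hT⟩, hd⟩ => ⟨⟨_, hT.dx⟩, by
      funext a
      have e1 := congrFun hd a
      have e2 := congrFun hd (a + (0, 1))
      simp only [fwdDiff, Pi.zero_apply] at e1 e2 ⊢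
      rw [add_right_comm] at e2
      linear_combination e2 - e1⟩) W1 ⟨hV1, hd1⟩ h1
  have c1 : ∀ (n : ℕ) (b : ZMod p), W2 (n, b) = W2 (0, b) := by
    intro n b
    induction n with
    | zero => simp
    | succ n ih =>
      have := congrFun hd2 ((n : ZMod p), b)
      simp only [fwdDiff, Prod.mk_add_mk, add_zero, Pi.zero_apply] at this
      push_cast
      linear_combination this + ih
  have c2 : ∀ (n : ℕ), W2 (0, n) = W2 (0, 0) := by
    intro n
    induction n with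
    | zero => simp
    | succ n ih =>
      have := congrFun hd3 (0, (n : ZMod p))
      simp only [fwdDiff, Prod.mk_add_mk, add_zero, Pi.zero_apply] at this
      push_cast
      linear_combination this + ih
  have c3 : W2 = fun _ => W2 (0, 0) := by
    funext a
    obtain ⟨a, b⟩ := a
    rw [← ZMod.natCast_zmod_val a, c1, ← ZMod.natCast_zmod_val b, c2]
  rw [c3] at hT2
  apply h2
  rw [c3, hT2.const h5]; rfl

end Pool.Agent.Lib.MP_2d211a_co
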