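import Pool.Agent.Lib.MP_2d211a_co.Descent
import Pool.Agent.Lib.MP_2d211a_co.Obstr

open Finset

namespace Pool.Agent.Lib.MP_2d211a_co

variable (p : ℕ) [hp : Fact p.Prime] {ι : Type*} (R : Finset ι) (α β : ι → ℤ)

/-- Line sums. -/
noncomputable def Lam (j : ℕ) (s x0 : ℤ) : Cy p := ∑ g ∈ R, kap p j (α g - s * β g - x0)

/-- All line sums are divisible by `(1 - ω)^M`. -/
def HD (j M : ℕ) : Prop := ∀ s x0 : ℤ, (1 - rt p) ^ M ∣ Lam p R α β j s x0

/-- Line sums restricted to a residue class of the second coordinate. -/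
noncomputable def Bs (j : ℕ) (s x0 : ℤ) (y : ZMod p) : Cy p :=
  ∑ g ∈ R, if (β g : ZMod p) = y then kap p j (α g - s * β g - x0) else 0

theorem p_mul_Bs (j : ℕ) (s x0 : ℤ) (y : ZMod p) :
    (p : Cy p) * Bs p R α β j s x0 y =
      ∑ r : ZMod p, ch p (r * y) * Lam p R α β j (s + (p : ℤ) ^ j * r.val) x0 := by
  simp only [Bs, Lam, mul_sum]
  rw [sum_comm]
  refine sum_congr rfl fun g _ => ?_
  have h1 : ∀ r : ZMod p, ch p (r * y) * kap p j (α g - (s + (p : ℤ) ^ j * r.val) * β g - x0) =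
      kap p j (α g - s * β g - x0) * ch p (r * (y - β g)) := fun r => by
    rw [show α g - (s + (p : ℤ) ^ j * r.val) * β g - x0 =
      (α g - s * β g - x0) + (p : ℤ) ^ j * (-(r.val * β g)) by ring, kap_add, mul_left_comm,
      ← AddChar.map_add_eq_mul]
    congr 2
    simp; ring
  simp_rw [h1]
  rw [← mul_sum, AddChar.sum_mulShift _ (ch_prim p), ZMod.card]
  by_cases h : (β g : ZMod p) = y
  · rw [if_pos h, if_pos (by rw [h, sub_self])]; ring
  · rw [if_neg h, if_neg (fun h' => h (sub_eq_zero.1 h').symm)]; simp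

variable {p R α β}

theorem dvd_of_p_mul {j M k : ℕ} (h : HD p R α β j (M + (p - 1))) (s x0 : ℤ) (X : Cy p)
    (c : ZMod p → Cy p) (hc : ∀ r, (1 - rt p) ^ k ∣ c r)
    (hX : (p : Cy p) * X = ∑ r : ZMod p, c r * Lam p R α β j (s + (p : ℤ) ^ j * r.val) x0) :
    (1 - rt p) ^ (M + k) ∣ X := by
  have h1 : (1 - rt p) ^ (k + (M + (p - 1))) ∣ (p : Cy p) * X := by
    rw [hX, pow_add]
    exact dvd_sum fun r _ => mul_dvd_mul (hc r) (h _ _)
  have h2 : (p : Cy p) * (1 - rt p) ^ (M + k) ∣ (1 - rt p) ^ (k + (M + (p - 1))) := by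
    rw [show k + (M + (p - 1)) = (p - 1) + (M + k) by ring, pow_add _ (p - 1)]
    exact mul_dvd_mul_right (assoc_p1 p).symm.dvd _
  exact (mul_dvd_mul_iff_left (Nat.cast_ne_zero.2 hp.out.ne_zero)).1 (h2.trans h1)

theorem pi_dvd_ch (r : ZMod p) : (1 - rt p) ∣ ch p r - 1 := by
  rw [ch_apply, ← dvd_neg, neg_sub]
  simpa using sub_dvd_pow_sub_pow 1 (rt p) r.val

theorem Bs_dvd0 {j M : ℕ} (h : HD p R α β j (M + (p - 1))) (s x0 : ℤ) (y : ZMod p) :
    (1 - rt p) ^ M ∣ Bs p R α β j s x0 y :=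
  dvd_of_p_mul (k := 0) h s x0 _ _ (fun _ => by simp) (p_mul_Bs p R α β j s x0 y)

theorem Bs_dvd1 {j M : ℕ} (h : HD p R α β j (M + (p - 1))) (s x0 : ℤ) (y : ZMod p) :
    (1 - rt p) ^ (M + 1) ∣ Bs p R α β j s x0 (y + 1) - Bs p R α β j s x0 y := by
  refine dvd_of_p_mul h s x0 _ (fun r => ch p (r * y) * (ch p r - 1))
    (fun r => by rw [pow_one]; exact (pi_dvd_ch r).mul_left _) ?_
  rw [mul_sub, p_mul_Bs, p_mul_Bs, ← sum_sub_distrib]
  refine sum_congr rfl fun r _ => ?_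
  rw [mul_add, mul_one, AddChar.map_add_eq_mul]; ring

theorem Bs_dvd2 {j M : ℕ} (h : HD p R α β j (M + (p - 1))) (s x0 : ℤ) (y : ZMod p) :
    (1 - rt p) ^ (M + 2) ∣ Bs p R α β j s x0 (y + 1 + 1) - 2 * Bs p R α β j s x0 (y + 1) +
      Bs p R α β j s x0 y := by
  refine dvd_of_p_mul h s x0 _ (fun r => ch p (r * y) * (ch p r - 1) ^ 2)
    (fun r => (pow_dvd_pow_of_dvd (pi_dvd_ch r) 2).mul_left _) ?_
  rw [mul_add, mul_sub, mul_left_comm, p_mul_Bs, p_mul_Bs, p_mul_Bs, mul_sum, ← sum_sub_distrib,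
    ← sum_add_distrib]
  refine sum_congr rfl fun r _ => ?_
  rw [mul_add, mul_add, mul_one, AddChar.map_add_eq_mul, AddChar.map_add_eq_mul]; ring

variable (p R α β)

/-- The points in a coset of `p^j ℤ²`. -/
def seg (j : ℕ) (x y : ℤ) : Finset ι :=
  R.filter fun g => (p : ℤ) ^ j ∣ α g - x ∧ (p : ℤ) ^ j ∣ β g - y

/-- The next digit. -/
def dg (j : ℕ) (z : ℤ) : ZMod p := ((z / (p : ℤ) ^ j : ℤ) : ZMod p)

/-- Moments on a coset. -/
def mom (j e : ℕ) (s : ZMod p) (x y : ℤ) : ZMod p :=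
  ∑ g ∈ seg p R α β j x y, (dg p j (α g - x) - s * dg p j (β g - y)) ^ e

/-- The degree hypothesis. -/
def HT (j m : ℕ) : Prop :=
  ∀ x y : ℤ, ∀ n ≤ m + 1, n + 2 < p ∨ ∑ g ∈ seg p R α β j x y, dg p j (β g - y) ^ n = 0

theorem dg_mul (j : ℕ) (c : ℤ) : dg p j ((p : ℤ) ^ j * c) = c := by
  rw [dg, Int.mul_ediv_cancel_left _ (pj_ne p j)]

theorem dg_add (j : ℕ) (z c : ℤ) : dg p j (z + (p : ℤ) ^ j * c) = dg p j z + c := by
  rw [dg, dg, Int.add_mul_ediv_left _ _ (pj_ne p j), Int.cast_add]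

theorem dg_line {j : ℕ} {a b : ℤ} (s : ℤ) (ha : (p : ℤ) ^ j ∣ a) (hb : (p : ℤ) ^ j ∣ b) :
    dg p j (a - s * b) = dg p j a - s * dg p j b := by
  obtain ⟨a, rfl⟩ := ha
  obtain ⟨b, rfl⟩ := hb
  rw [show (p : ℤ) ^ j * a - s * ((p : ℤ) ^ j * b) = (p : ℤ) ^ j * (a - s * b) by ring,
    dg_mul, dg_mul, dg_mul]
  push_cast; rfl

/-- Indicator of a point on a line inside a residue class. -/
def ind (s x0 : ℤ) (y : ZMod p) (g : ι) : ℤ :=
  if (β g : ZMod p) = y ∧ (p : ℤ) ^ 1 ∣ α g - s * β g - x0 then 1 else 0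

/-- Moments in point coordinates. -/
def mu (e : ℕ) (s x0 : ℤ) (y : ZMod p) : ZMod p :=
  ∑ g ∈ R, (ind p α β s x0 y g : ZMod p) * dg p 1 (α g - s * β g - x0) ^ e

theorem Bs_eq (s x0 : ℤ) (y : ZMod p) : Bs p R α β 1 s x0 y =
    ∑ g ∈ R, (ind p α β s x0 y g : Cy p) * ch p (dg p 1 (α g - s * β g - x0)) := by
  refine sum_congr rfl fun g _ => ?_
  unfold ind kap dg
  by_cases h1 : (β g : ZMod p) = y <;> by_cases h2 : (p : ℤ) ^ 1 ∣ α g - s * β g - x0 <;>
    simp only [h1, h2, if_true, if_false, and_self, and_true, and_false] <;> simp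

theorem mu_eq_mom (e : ℕ) (s x y : ℤ) :
    mu p R α β e s (x - s * y) y = mom p R α β 1 e s x y := by
  rw [mu, mom, seg, sum_filter]
  refine sum_congr rfl fun g _ => ?_
  have e1 : α g - s * β g - (x - s * y) = (α g - x) - s * (β g - y) := by ring
  have e2 : ((β g : ZMod p) = y) ↔ (p : ℤ) ^ 1 ∣ β g - y := by
    rw [pow_one, ← ZMod.intCast_zmod_eq_zero_iff_dvd, Int.cast_sub, sub_eq_zero]
  rw [ind, e1]
  simp only [e2]
  by_cases h2 : (p : ℤ) ^ 1 ∣ β g - y
  · by_cases h1 : (p : ℤ) ^ 1 ∣ α g - x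
    · rw [if_pos ⟨h2, dvd_sub h1 (h2.mul_left _)⟩, if_pos ⟨h1, h2⟩, dg_line p s h1 h2]; simp
    · rw [if_neg, if_neg (fun h => h1 h.1)]
      · simp
      · rintro ⟨-, h⟩
        exact h1 (by simpa using dvd_add h (h2.mul_left s))
  · rw [if_neg (fun h => h2 h.1), if_neg (fun h => h2 h.2)]; simp

theorem mu_shift (n : ℕ) (s x0 c : ℤ) (y : ZMod p) :
    mu p R α β n s (x0 + p * c) y =
      ∑ i ∈ range (n + 1), mu p R α β i s x0 y * ((-c : ZMod p) ^ (n - i) * n.choose i) := by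
  simp only [mu, sum_mul]
  rw [sum_comm]
  refine sum_congr rfl fun g _ => ?_
  have e1 : α g - s * β g - (x0 + p * c) = (α g - s * β g - x0) + (p : ℤ) ^ 1 * (-c) := by ring
  have e2 : ind p α β s (x0 + p * c) y g = ind p α β s x0 y g := by
    simp only [ind, e1, dvd_add_left (Dvd.intro _ rfl : (p : ℤ) ^ 1 ∣ (p : ℤ) ^ 1 * (-c))]
  rw [e2, e1, dg_add, add_pow, mul_sum]
  refine sum_congr rfl fun i _ => ?_
  push_cast; ring

variable {p R α β}

theorem mom_sums {j n : ℕ} (x y : ℤ) (hn : n + 1 < p)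
    (h : n + 2 < p ∨ ∑ g ∈ seg p R α β j x y, dg p j (β g - y) ^ n = 0) :
    ∑ s, mom p R α β j n s x y = 0 ∧ ∑ s, s * mom p R α β j n s x y = 0 := by
  have e1 : ∀ s, mom p R α β j n s x y = ∑ i ∈ range (n + 1), s ^ i *
      ((-1) ^ i * n.choose i * ∑ g ∈ seg p R α β j x y,
        dg p j (β g - y) ^ i * dg p j (α g - x) ^ (n - i)) := fun s => by
    simp only [mom, mul_sum]
    rw [sum_comm]
    refine sum_congr rfl fun g _ => ?_
    rw [sub_eq_neg_add, add_pow]
    refine sum_congr rfl fun i _ => ?_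
    rw [neg_pow, mul_pow]; ring
  have z : ∀ i, i < p - 1 → ∑ s : ZMod p, s ^ i = 0 := fun i hi =>
    FiniteField.sum_pow_lt_card_sub_one (ZMod p) i (by rwa [ZMod.card])
  simp_rw [e1, mul_sum (s := range (n + 1)), ← mul_assoc, ← pow_succ']
  constructor
  · rw [sum_comm]
    refine sum_eq_zero fun i hi => ?_
    simp_rw [mul_assoc]
    rw [← sum_mul, z i (by have := mem_range.1 hi; omega), zero_mul]
  · rw [sum_comm]
    refine sum_eq_zero fun i hi => ?_
    simp_rw [mul_assoc]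
    rw [← sum_mul]
    by_cases hi2 : i + 1 < p - 1
    · rw [z _ hi2, zero_mul]
    · have hi3 : i = n := by have := mem_range.1 hi; omega
      subst hi3
      rcases h with h | h
      · omega
      · simp [h]

theorem affine_of_second (f : ZMod p → ZMod p) (h : ∀ y, f (y + 1 + 1) - 2 * f (y + 1) + f y = 0) :
    ∀ y, f y = f 0 + (f 1 - f 0) * y := by
  have : ∀ n : ℕ, f n = f 0 + (f 1 - f 0) * n ∧ f (n + 1) = f 0 + (f 1 - f 0) * (n + 1) := by
    intro n
    induction n with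
    | zero => simp
    | succ n ih =>
      push_cast
      exact ⟨ih.2, by linear_combination h n + 2 * ih.2 - ih.1⟩
  intro y
  have := (this y.val).1
  rwa [ZMod.natCast_zmod_val] at this

theorem base (h5 : 5 ≤ p) {m : ℕ} (hm : m + 2 < p) (hD : HD p R α β 1 (m + (p - 1)))
    (hT : HT p R α β 1 m) (e : ℕ) : e ≤ m → ∀ s x0 y, mu p R α β e s x0 y = 0 := by
  induction e using Nat.strong_induction_on with
  | _ e ih =>
  intro he
  have c1 : ∀ s x0 y, mu p R α β e s x0 (y + 1) = mu p R α β e s x0 y := by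
    intro s x0 y
    have h1 := Bs_dvd1 hD s x0 y
    rw [Bs_eq, Bs_eq, ← sum_sub_distrib] at h1
    simp_rw [← sub_mul, ← Int.cast_sub] at h1
    have h2 := moment _ _ _ e _ (by omega) (by omega) h1
    rw [← sub_eq_zero, mu, mu, ← sum_sub_distrib, ← h2]
    refine sum_congr rfl fun g _ => ?_
    push_cast; ring
  have c2 : ∀ s x0 y, mu p R α β e s x0 y = mu p R α β e s x0 0 := by
    intro s x0 y
    rw [← ZMod.natCast_zmod_val y]
    induction y.val with
    | zero => simp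
    | succ n ih => rw [Nat.cast_succ, c1, ih]
  have c3 : ∀ s x0 c y, mu p R α β e s (x0 + p * c) y = mu p R α β e s x0 y := by
    intro s x0 c y
    rw [mu_shift, sum_range_succ, sum_eq_zero]
    · simp
    · intro i hi
      rw [ih i (mem_range.1 hi) (by have := mem_range.1 hi; omega), zero_mul]
  have c4 : ∀ (s x0 : ℤ) y, mu p R α β e s x0 y =
      mu p R α β e ((s : ZMod p).val) ((x0 : ZMod p).val) 0 := by
    intro s x0 y
    obtain ⟨c, hc⟩ : (p : ℤ) ∣ x0 - ((x0 : ZMod p).val : ℤ) := by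
      rw [← ZMod.intCast_zmod_eq_zero_iff_dvd]; simp
    have h1 := mu_eq_mom p R α β e s ((x0 : ZMod p).val) 0
    have h2 := mu_eq_mom p R α β e ((s : ZMod p).val) ((x0 : ZMod p).val) 0
    simp only [mul_zero, sub_zero, Int.cast_zero, Int.cast_natCast, ZMod.natCast_zmod_val] at h1 h2
    rw [c2, show x0 = ((x0 : ZMod p).val : ℤ) + p * c by linarith, c3, h1]
    rw [show ((x0 : ZMod p).val : ℤ) + p * c = x0 by linarith, h2]
  have good : Good (fun s x0 y => mu p R α β (e + 1) s x0 y)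
      (fun a => -((e + 1 : ℕ) : ZMod p) * mu p R α β e a.1.val a.2.val 0) := by
    refine ⟨fun s x0 => ⟨_, _, affine_of_second _ fun y => ?_⟩, fun s x0 y => ?_, fun x y => ?_⟩
    · have h1 := Bs_dvd2 hD s x0 y
      rw [Bs_eq, Bs_eq, Bs_eq, mul_sum, ← sum_sub_distrib, ← sum_add_distrib] at h1
      have h3 : ∀ g, (ind p α β s x0 (y + 1 + 1) g : Cy p) * ch p (dg p 1 (α g - s * β g - x0)) -
          2 * ((ind p α β s x0 (y + 1) g : Cy p) * ch p (dg p 1 (α g - s * β g - x0))) +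
          (ind p α β s x0 y g : Cy p) * ch p (dg p 1 (α g - s * β g - x0)) =
          ((ind p α β s x0 (y + 1 + 1) g - 2 * ind p α β s x0 (y + 1) g + ind p α β s x0 y g : ℤ) :
            Cy p) * ch p (dg p 1 (α g - s * β g - x0)) := fun g => by push_cast; ring
      simp_rw [h3] at h1
      have h2 := moment _ _ _ (e + 1) _ (by omega) (by omega) h1
      rw [mu, mu, mu, mul_sum, ← sum_sub_distrib, ← sum_add_distrib, ← h2]
      refine sum_congr rfl fun g _ => ?_
      push_cast; ring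
    · have h1 := mu_shift p R α β (e + 1) s x0 1 y
      rw [mul_one, sum_range_succ, sum_range_succ, sum_eq_zero] at h1
      · simp only [h1, ← c4 s x0 y]
        simp; ring
      · intro i hi
        rw [ih i (mem_range.1 hi) (by have := mem_range.1 hi; omega), zero_mul]
    · obtain ⟨h1, h2⟩ := mom_sums x y (by omega : e + 1 + 1 < p) (hT x y (e + 1) (by omega))
      exact ⟨_, h1, h2, fun s => mu_eq_mom p R α β (e + 1) s x y⟩
  intro s x0 y
  have h1 := congrFun (good.eq_zero h5) ((s : ZMod p), (x0 : ZMod p))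
  simp only [Pi.zero_apply, mul_eq_zero, neg_eq_zero] at h1
  rw [c4]
  refine h1.resolve_left ?_
  rw [ZMod.natCast_eq_zero_iff]
  exact Nat.not_dvd_of_pos_of_lt (by omega) (by omega)

section cell

variable (p R α β)

/-- Points of a cell. -/
def cell (x y : ℤ) : Finset ι := R.filter fun g => (p : ℤ) ∣ α g - x ∧ (p : ℤ) ∣ β g - y

/-- Coordinates inside a cell. -/
def cc (α : ι → ℤ) (x : ℤ) : ι → ℤ := fun g => (α g - x) / p

omit hp in
theorem cc_spec {α : ι → ℤ} {x : ℤ} {g : ι} (h : (p : ℤ) ∣ α g - x) :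
    α g = x + p * cc p α x g := by
  rw [cc, Int.mul_ediv_cancel' h]; ring

theorem Lam_cell (j : ℕ) (x y s x0 : ℤ) :
    Lam p (cell p R α β x y) (cc p α x) (cc p β y) j s x0 =
      Bs p R α β (j + 1) s (x - s * y + p * x0) y := by
  rw [Lam, cell, sum_filter, Bs]
  refine sum_congr rfl fun g _ => ?_
  have e2 : ((β g : ZMod p) = y) ↔ (p : ℤ) ∣ β g - y := by
    rw [← ZMod.intCast_zmod_eq_zero_iff_dvd, Int.cast_sub, sub_eq_zero]
  simp only [e2]
  by_cases h2 : (p : ℤ) ∣ β g - y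
  · rw [if_pos h2]
    by_cases h1 : (p : ℤ) ∣ α g - x
    · rw [if_pos ⟨h1, h2⟩, ← kap_mul]
      congr 1
      have := cc_spec p h1
      have := cc_spec p h2
      linear_combination s * this - ‹α g = _›
    · rw [if_neg (fun h => h1 h.1), kap, if_neg]
      intro h
      apply h1
      have h3 : (p : ℤ) ∣ α g - s * β g - (x - s * y + p * x0) :=
        (dvd_pow_self _ (Nat.succ_ne_zero j)).trans h
      have : α g - x = (α g - s * β g - (x - s * y + p * x0)) + s * (β g - y) + p * x0 := by ring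
      rw [this]
      exact dvd_add (dvd_add h3 (h2.mul_left s)) (Dvd.intro _ rfl)
  · rw [if_neg h2, if_neg (fun h => h2 h.2)]

theorem dvd_cc {α : ι → ℤ} (j : ℕ) (x x' : ℤ) (g : ι) :
    ((p : ℤ) ∣ α g - x ∧ (p : ℤ) ^ j ∣ cc p α x g - x') ↔
      (p : ℤ) ^ (j + 1) ∣ α g - (x + p * x') := by
  have hp0 : (p : ℤ) ≠ 0 := Nat.cast_ne_zero.2 hp.out.ne_zero
  constructor
  · rintro ⟨h1, c, h2⟩
    have := cc_spec p h1
    exact ⟨c, by linear_combination this + p * h2⟩
  · rintro ⟨c, h⟩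
    have h1 : (p : ℤ) ∣ α g - x := ⟨x' + p ^ j * c, by linear_combination h⟩
    refine ⟨h1, c, mul_left_cancel₀ hp0 ?_⟩
    have := cc_spec p h1
    linear_combination h - this

theorem seg_cell (j : ℕ) (x y x' y' : ℤ) :
    seg p (cell p R α β x y) (cc p α x) (cc p β y) j x' y' =
      seg p R α β (j + 1) (x + p * x') (y + p * y') := by
  rw [seg, cell, filter_filter, seg]
  refine filter_congr fun g _ => ?_
  rw [← dvd_cc, ← dvd_cc]; tauto

theorem dg_cc {α : ι → ℤ} (j : ℕ) (x x' : ℤ) (g : ι)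
    (h : (p : ℤ) ^ (j + 1) ∣ α g - (x + p * x')) :
    dg p j (cc p α x g - x') = dg p (j + 1) (α g - (x + p * x')) := by
  obtain ⟨h1, c, h2⟩ := (dvd_cc p j x x' g).2 h
  have := cc_spec p h1
  rw [h2, show α g - (x + p * x') = (p : ℤ) ^ (j + 1) * c by linear_combination this + p * h2,
    dg_mul, dg_mul]

end cell

/-- All moments up to order `m` vanish on every coset. -/
theorem moms (h5 : 5 ≤ p) {m : ℕ} (hm : m + 2 < p) (j : ℕ) : ∀ (R : Finset ι) (α β : ι → ℤ),
    HD p R α β (j + 1) (m + (p - 1) * (j + 1)) → HT p R α β (j + 1) m →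
    ∀ e ≤ m, ∀ s x y, mom p R α β (j + 1) e s x y = 0 := by
  induction j with
  | zero =>
    intro R α β hD hT e he s x y
    rw [zero_add, mul_one] at hD
    have := mu_eq_mom p R α β e s.val x y
    rw [Int.cast_natCast, ZMod.natCast_zmod_val] at this
    rw [zero_add, ← this]
    exact base h5 hm hD hT e he _ _ _
  | succ j ih =>
    intro R α β hD hT e he s x y
    have h1 := ih (cell p R α β x y) (cc p α x) (cc p β y) (fun s x0 => by
      rw [Lam_cell]
      exact Bs_dvd0 (by rwa [add_assoc m, ← mul_add_one]) _ _ _) (fun x' y' n hn => by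
      rcases hT (x + p * x') (y + p * y') n hn with h | h
      · exact Or.inl h
      · right
        rw [seg_cell, ← h]
        refine sum_congr rfl fun g hg => ?_
        rw [dg_cc p _ _ _ _ (mem_filter.1 hg).2.2]) e he s 0 0
    rw [mom, seg_cell] at h1
    rw [mom, ← h1]
    simp only [mul_zero, add_zero]
    refine sum_congr rfl fun g hg => ?_
    have h2 := (mem_filter.1 hg).2
    rw [dg_cc p _ _ _ _ (by simpa using h2.1), dg_cc p _ _ _ _ (by simpa using h2.2)]
    simp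

end Pool.Agent.Lib.MP_2d211a_co
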