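import Pool.Agent.Lib.MP_2d211a_co.S64BDef

/-!
Generators modulo a subgroup, centralisers, central elements of normal sections.
-/

namespace Pool.Agent.Lib.MP_2d211a_co.S64

open MonoidAlgebra Finset H62 H30 Subgroup
open scoped commutatorElement

theorem exists_gens {G : Type} [Group G] [Finite G] (F : Subgroup G) {t : ℕ}
    (h : F.index ≤ 2 ^ t) : ∃ T : Finset G, T.card ≤ t ∧ F ⊔ closure (T : Set G) = ⊤ := by
  classical
  induction t generalizing F with
  | zero =>
    have h0 : F.index ≠ 0 := index_ne_zero_of_finite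
    have : F = ⊤ := index_eq_one.1 (by omega)
    exact ⟨∅, le_rfl, by simp [this]⟩
  | succ t ih =>
    by_cases hF : F = ⊤
    · exact ⟨∅, Nat.zero_le _, by simp [hF]⟩
    obtain ⟨x, hx⟩ : ∃ x, x ∉ F := by
      by_contra hc
      exact hF (eq_top_iff.2 fun x _ => by_contra fun h => hc ⟨x, h⟩)
    have h1 := relIndex_mul_index (le_sup_left : F ≤ F ⊔ closure {x})
    have h0 : F.index ≠ 0 := index_ne_zero_of_finite
    have h2 : F.relIndex (F ⊔ closure {x}) ≠ 1 := fun e =>
      hx (relIndex_eq_one.1 e (mem_sup_right (subset_closure rfl)))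
    have h3 : F.relIndex (F ⊔ closure {x}) ≠ 0 := fun e => h0 (by rw [← h1, e, zero_mul])
    have h4 : 2 * (F ⊔ closure {x}).index ≤ F.index := by
      rw [← h1]
      exact Nat.mul_le_mul_right _ (by omega)
    obtain ⟨T, hT, hT'⟩ := ih (F ⊔ closure {x}) (by rw [pow_succ] at h; omega)
    refine ⟨insert x T, (card_insert_le _ _).trans (by omega), ?_⟩
    rw [coe_insert, Set.insert_eq, Subgroup.closure_union, ← sup_assoc, hT']

variable {E : Type} [Group E] [Finite E]

omit [Finite E] in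
theorem S64BUp_two {z y : E} (h : z ^ 2 = 1) (hy : y ∈ zpowers z) : y = 1 ∨ y = z := by
  obtain ⟨k, rfl⟩ := mem_zpowers_iff.1 hy
  have h2 : z ^ (2 : ℤ) = 1 := by exact_mod_cast h
  rcases Int.even_or_odd' k with ⟨j, rfl | rfl⟩
  · exact Or.inl (by rw [zpow_mul, h2, one_zpow])
  · exact Or.inr (by rw [zpow_add, zpow_mul, h2, one_zpow, one_mul, zpow_one])

omit [Finite E] in
theorem S64BUp_one {z a : E} (hz : Cen 2 z) {F : Subgroup E}
    (ha : ∀ x ∈ F, ⁅a, x⁆ ∈ zpowers z) : (centralizer {a}).relIndex F ∣ 2 := by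
  have key : ∀ x ∈ F, x ∉ centralizer {a} → a * x = z * (x * a) := fun x hx hn => by
    rcases S64BUp_two hz.pow (ha x hx) with h | h
    · exact absurd (mem_centralizer_singleton_iff.2
        (commutatorElement_eq_one_iff_mul_comm.1 h).symm) hn
    · rw [← h, commutatorElement_def]
      group
  refine relIndex_dvd_two_iff.2 ?_
  by_cases hc : ∀ b ∈ F, b ∈ centralizer {a}
  · exact ⟨1, one_mem _, fun b hb => Or.inr (hc b hb)⟩
  simp only [not_forall] at hc
  obtain ⟨c, hcF, hc⟩ := hc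
  refine ⟨c, hcF, fun b hb => or_iff_not_imp_right.2 fun hn => ?_⟩
  have h2 : z * z = 1 := by rw [← sq, hz.pow]
  refine mem_centralizer_singleton_iff.2 ?_
  rw [← mul_assoc a, key b hb hn, mul_assoc z, mul_assoc b a, key c hcF hc, ← mul_assoc b z,
    hz.comm b, mul_assoc z b, ← mul_assoc z z, h2, one_mul, mul_assoc]

theorem cent_index {z : E} (hz : Cen 2 z) {F A : Subgroup E} (hF : IsPGroup 2 F) (hzA : z ∈ A)
    (hAz : ∀ a ∈ A, ∀ x ∈ F, ⁅a, x⁆ ∈ zpowers z) {h : ℕ} (hc : Nat.card A = 2 ^ (h + 1)) :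
    ∃ h' ≤ h, (centralizer (A : Set E)).relIndex F = 2 ^ h' := by
  have hZ : Nat.card ((zpowers z).subgroupOf A) = 2 := by
    rw [Nat.card_congr (subgroupOfEquivOfLe (zpowers_le.2 hzA)).toEquiv, card_zp hz.ne hz.pow]
  have hi := ((zpowers z).subgroupOf A).card_mul_index
  rw [hZ, hc, pow_succ] at hi
  obtain ⟨T, hT, hT'⟩ := exists_gens ((zpowers z).subgroupOf A) (t := h) (by omega)
  have h1 : (⨅ t : T, centralizer {((t : A) : E)}) ≤ centralizer (A : Set E) := fun x hx => by
    have : (⊤ : Subgroup A) ≤ (centralizer {x}).subgroupOf A := by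
      rw [← hT']
      refine sup_le (fun y hy => ?_) ((closure_le _).2 fun y hy => ?_)
      · exact (zpowers_le.2 (mem_centralizer_singleton_iff.2 (hz.comm x).symm) :
          zpowers z ≤ centralizer {x}) hy
      · exact mem_centralizer_singleton_iff.2
          (mem_centralizer_singleton_iff.1 (mem_iInf.1 hx ⟨y, hy⟩)).symm
    exact mem_centralizer_iff.2 fun a ha =>
      mem_centralizer_singleton_iff.1 (this (mem_top (⟨a, ha⟩ : A)))
  have h2 : (centralizer (A : Set E)).relIndex F ≤ 2 ^ h := by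
    refine (Nat.le_of_dvd (Nat.pos_of_ne_zero index_ne_zero_of_finite)
      (relIndex_dvd_of_le_left F h1)).trans ((relIndex_iInf_le _).trans ?_)
    refine (prod_le_pow_card _ _ 2 fun (t : T) _ =>
      Nat.le_of_dvd two_pos (S64BUp_one hz (hAz _ t.1.2))).trans ?_
    exact Nat.pow_le_pow_right two_pos (by simpa using hT)
  obtain ⟨n, hn⟩ := hF.exists_card_eq
  obtain ⟨k, -, hk⟩ := (Nat.dvd_prime_pow Nat.prime_two).1
    (hn ▸ relIndex_dvd_card (centralizer (A : Set E)) F)
  exact ⟨k, (Nat.pow_le_pow_iff_right one_lt_two).1 (hk ▸ h2), hk⟩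

theorem upB {F A D : Subgroup E} [A.Normal] [D.Normal] (hF : IsPGroup 2 F) (hAD : A ≤ D)
    (hDF : D ≤ F) (hne : ¬ D ≤ A) : ∃ y ∈ D, y ∉ A ∧ y * y ∈ A ∧ ∀ x ∈ F, ⁅y, x⁆ ∈ A := by
  set π := QuotientGroup.mk' A with hπ
  have hN : (D.map π).Normal := Normal.map inferInstance π (QuotientGroup.mk'_surjective A)
  have hD : IsPGroup 2 (D.map π) := (hF.to_le hDF).map π
  have hnt : Nontrivial (D.map π) := by
    refine (nontrivial_iff_ne_bot _).2 fun e => hne fun y hy => ?_
    have : π y ∈ D.map π := mem_map_of_mem π hy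
    rw [e, mem_bot] at this
    exact (QuotientGroup.eq_one_iff y).1 this
  let _ : MulAction F (D.map π) :=
    MulAction.compHom _ ((MulAut.conjNormal (H := D.map π)).comp (π.comp F.subtype))
  have hs : ∀ (x : F) (d : D.map π), ((x • d : D.map π) : E ⧸ A) = π x * d * (π x)⁻¹ :=
    fun x d => rfl
  have hdv : 2 ∣ Nat.card (D.map π) := by
    rcases hD.card_eq_or_dvd with h | h
    · exact absurd h Finite.one_lt_card.ne'
    · exact h
  obtain ⟨b, hb, hb1⟩ := hF.exists_fixed_point_of_prime_dvd_card_of_fixed_point (D.map π) hdv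
    (a := 1) (fun x => Subtype.ext (by rw [hs]; simp))
  have ho : orderOf (b ^ (orderOf b / 2)) = 2 :=
    orderOf_pow_orderOf_div (orderOf_pos b).ne' (hD.dvd_orderOf hb1.symm)
  obtain ⟨y, hy, e⟩ := (b ^ (orderOf b / 2)).2
  refine ⟨y, hy, fun hA => ?_, ?_, fun x hx => ?_⟩
  · have : b ^ (orderOf b / 2) = 1 :=
      Subtype.ext (e.symm.trans ((QuotientGroup.eq_one_iff y).2 hA))
    rw [this, orderOf_one] at ho
    omega
  · refine (QuotientGroup.eq_one_iff _).1 ?_
    have h2 := congrArg Subtype.val (pow_orderOf_eq_one (b ^ (orderOf b / 2)))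
    rw [ho, sq, Subgroup.coe_mul, ← e, ← map_mul] at h2
    exact h2
  · refine (QuotientGroup.eq_one_iff _).1 ?_
    have h1 := congrArg Subtype.val (hb ⟨x, hx⟩)
    rw [hs, mul_inv_eq_iff_eq_mul] at h1
    have h2 : Commute (π y) (π x) := by
      rw [e, SubgroupClass.coe_pow]
      exact (Commute.pow_left h1.symm _)
    exact (map_commutatorElement π y x).trans (commutatorElement_eq_one_iff_commute.2 h2)

end Pool.Agent.Lib.MP_2d211a_co.S64
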