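import Pool.Agent.Lib.MP_2d211a_co.S64CDef
import Pool.Agent.Lib.MP_2d211a_co.S64BUp

/-!
Crude counts of homomorphisms, automorphisms and subgroups.
-/

namespace Pool.Agent.Lib.MP_2d211a_co.S64

open Subgroup H60 CategoryTheory

theorem S64CAut_tuple {P : Type} [Group P] [Finite P] {N : ℕ} (h : Nat.card P ≤ 2 ^ N) :
    ∃ f : Fin N → P, closure (Set.range f) = ⊤ := by
  obtain ⟨T, hT, hT'⟩ := exists_gens (⊥ : Subgroup P) (t := N) (by rwa [index_bot])
  rw [bot_sup_eq] at hT'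
  refine ⟨fun i => if h : (i : ℕ) < T.card then (T.equivFin.symm ⟨i, h⟩ : P) else 1, ?_⟩
  rw [eq_top_iff, ← hT']
  refine closure_mono fun x hx => ?_
  have h1 : ((T.equivFin ⟨x, hx⟩ : Fin T.card) : ℕ) < T.card := (T.equivFin ⟨x, hx⟩).2
  exact ⟨⟨T.equivFin ⟨x, hx⟩, h1.trans_le hT⟩, by simp⟩

theorem card_hom_le {P H : Type} [Group P] [Group H] [Finite P] [Finite H] {N : ℕ}
    (h : Nat.card P ≤ 2 ^ N) : Finite (P →* H) ∧ Nat.card (P →* H) ≤ Nat.card H ^ N := by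
  obtain ⟨f, hf⟩ := S64CAut_tuple h
  have hi : Function.Injective fun (φ : P →* H) (i : Fin N) => φ (f i) := fun φ ψ e =>
    MonoidHom.eq_of_eqOn_dense hf (by rintro _ ⟨i, rfl⟩; exact congrFun e i)
  refine ⟨Finite.of_injective _ hi, (Nat.card_le_card_of_injective _ hi).trans ?_⟩
  rw [Nat.card_fun, Nat.card_eq_fintype_card (α := Fin N), Fintype.card_fin]

theorem card_aut_le {H : Type} [Group H] [Finite H] {N : ℕ} (h : Nat.card H ≤ 2 ^ N) :
    Nat.card (MulAut H) ≤ 2 ^ (N * N) := by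
  obtain ⟨h1, h2⟩ := card_hom_le (H := H) h
  have hi : Function.Injective fun φ : MulAut H => (φ : H ≃* H).toMonoidHom := fun φ ψ e =>
    MulEquiv.ext fun x => DFunLike.congr_fun e x
  refine (Nat.card_le_card_of_injective _ hi).trans (h2.trans ?_)
  rw [pow_mul]
  exact Nat.pow_le_pow_left h N

theorem card_subgroup_le {H : Type} [Group H] [Finite H] {N : ℕ} (h : Nat.card H ≤ 2 ^ N) :
    Nat.card (Subgroup H) ≤ 2 ^ (N * N) := by
  have hs : Function.Surjective fun f : Fin N → H => closure (Set.range f) := fun K => by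
    obtain ⟨f, hf⟩ := S64CAut_tuple (P := K) (N := N) ((card_le_card_group K).trans h)
    refine ⟨fun i => f i, ?_⟩
    have := congrArg (map K.subtype) hf
    rw [MonoidHom.map_closure, ← Set.range_comp, ← MonoidHom.range_eq_map, range_subtype] at this
    exact this
  refine (Nat.card_le_card_of_surjective _ hs).trans ?_
  rw [pow_mul, Nat.card_fun, Nat.card_eq_fintype_card (α := Fin N), Fintype.card_fin]
  exact Nat.pow_le_pow_left h N

theorem omega_small (M : ℕ) (hM : 0 < M) :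
    ∃ n₀ : ℕ, ∀ N ≥ n₀, ∀ m : ℕ, m ≤ 2 ^ N → m.primeFactors.card ≤ N / M := by
  refine ⟨2 * M * 4 ^ M, fun N hN m hm => ?_⟩
  rcases Nat.eq_zero_or_pos m with rfl | h0
  · simp
  have h1 := Finset.card_filter_add_card_filter_not (s := m.primeFactors) fun p => p < 4 ^ M
  have h2 : (m.primeFactors.filter fun p => p < 4 ^ M).card ≤ 4 ^ M := by
    refine (Finset.card_le_card (t := Finset.range (4 ^ M)) fun p hp => ?_).trans (by simp)
    exact Finset.mem_range.2 (Finset.mem_filter.1 hp).2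
  obtain ⟨k, hk⟩ : ∃ k, k = (m.primeFactors.filter fun p => ¬ p < 4 ^ M).card := ⟨_, rfl⟩
  have h3 : (4 ^ M) ^ k ≤ m := by
    rw [hk]
    refine (Finset.pow_card_le_prod _ (fun p => p) _ fun p hp =>
      not_lt.1 (Finset.mem_filter.1 hp).2).trans (Nat.le_of_dvd h0 ?_)
    exact (Finset.prod_dvd_prod_of_subset _ _ _ (Finset.filter_subset _ _)).trans
      (Nat.prod_primeFactors_dvd m)
  have h4 : 2 * M * k ≤ N := by
    refine (Nat.pow_le_pow_iff_right (by norm_num : 1 < 2)).1 (le_trans ?_ (h3.trans hm))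
    rw [pow_mul, pow_mul]
    norm_num
  rw [Nat.le_div_iff_mul_le hM, ← h1, ← hk]
  nlinarith [Nat.mul_le_mul_right M h2]

theorem S64CAut_choose (g : ℕ) : 6 * (g + 1).choose 3 ≤ g ^ 3 := by
  induction g with
  | zero => decide
  | succ g ih =>
    have h1 : (g + 1 + 1).choose 3 = (g + 1).choose 2 + (g + 1).choose 3 := Nat.choose_succ_succ _ _
    have h2 : (g + 1).choose 2 * 2 = (g + 1) * g := by
      rw [Nat.choose_two_right, Nat.add_sub_cancel]
      exact Nat.div_mul_cancel (by rw [mul_comm]; exact (Nat.even_mul_succ_self g).two_dvd)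
    nlinarith

theorem odd_part {u c : ℕ} (hu : Odd u) (hc : u ≤ 2 ^ c) :
    ∏ p ∈ u.primeFactors, p ^ (u.factorization p + 1).choose 3 ≤ 2 ^ (c * (c ^ 2 / 14 + 1)) := by
  have h0 : u ≠ 0 := hu.pos.ne'
  obtain ⟨e, he⟩ : ∃ e, e = c ^ 2 / 14 + 1 := ⟨_, rfl⟩
  have he' : c ^ 2 < 14 * e := by omega
  rw [← he, pow_mul]
  refine le_trans ?_ (Nat.pow_le_pow_left hc e)
  have h1 : ∏ p ∈ u.primeFactors, p ^ u.factorization p = u :=
    Nat.prod_factorization_pow_eq_self h0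
  conv_rhs => rw [← h1, ← Finset.prod_pow]
  refine Finset.prod_le_prod' fun p hp => ?_
  have hpp := Nat.prime_of_mem_primeFactors hp
  have h3 : 3 ≤ p := by
    have := hpp.two_le
    have h2 : p ≠ 2 := by
      rintro rfl
      exact Nat.not_even_iff_odd.2 hu (even_iff_two_dvd.2 (Nat.dvd_of_mem_primeFactors hp))
    omega
  obtain ⟨g, hg⟩ : ∃ g, g = u.factorization p := ⟨_, rfl⟩
  have h4 : 3 ^ g ≤ 2 ^ c :=
    (Nat.pow_le_pow_left h3 g).trans ((hg ▸ Nat.ordProj_le p h0).trans hc)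
  have h5 : 11 * g ≤ c * 7 := by
    refine (Nat.pow_le_pow_iff_right (by norm_num : 1 < 2)).1 ?_
    calc 2 ^ (11 * g) = (2 ^ 11) ^ g := pow_mul _ _ _
      _ ≤ (3 ^ 7) ^ g := Nat.pow_le_pow_left (by norm_num) g
      _ = (3 ^ g) ^ 7 := by rw [← pow_mul, ← pow_mul, mul_comm]
      _ ≤ (2 ^ c) ^ 7 := Nat.pow_le_pow_left h4 7
      _ = 2 ^ (c * 7) := (pow_mul _ _ _).symm
  rw [← hg, ← pow_mul]
  refine Nat.pow_le_pow_right hpp.pos ?_
  have h6 : g ^ 2 ≤ 6 * e := by nlinarith [Nat.mul_le_mul h5 h5]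
  have h7 := S64CAut_choose g
  nlinarith [Nat.mul_le_mul_left g h6]

theorem hig_low (n : ℕ) : 2 ^ (2 * n ^ 3 / 27) ≤ gnu (2 ^ n) * 2 ^ (2 * n ^ 2) := by
  obtain ⟨s, j, hj, rfl⟩ : ∃ s j, j < 3 ∧ n = 2 * s + j + s := ⟨n / 3, n % 3, by omega, by omega⟩
  have h1 := hig_le Nat.prime_two (2 * s + j) s
  have h2 := card_Tri (2 * s + j)
  obtain ⟨T, hT⟩ : ∃ T, T = Fintype.card (Tri (2 * s + j)) := ⟨_, rfl⟩
  rw [← hT] at h1 h2
  have h3 : T * 2 + (2 * s + j) = (2 * s + j) * (2 * s + j) := by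
    rw [h2]
    rcases Nat.eq_zero_or_pos (2 * s + j) with h | h
    · simp [h]
    · obtain ⟨r, hr⟩ : ∃ r, 2 * s + j = r + 1 := ⟨2 * s + j - 1, by omega⟩
      rw [hr, Nat.add_sub_cancel]
      ring
  have h4 : 2 * (2 * s + j + s) ^ 3 / 27 ≤ s * T + (2 * s + j + s) * (2 * s + j + s) := by
    refine Nat.div_le_of_le_mul ?_
    have h5 : s * (T * 2 + (2 * s + j)) = s * ((2 * s + j) * (2 * s + j)) := by rw [h3]
    interval_cases j <;> nlinarith [Nat.zero_le s, Nat.zero_le (s * s)]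
  refine (Nat.pow_le_pow_right (by norm_num) h4).trans ?_
  rw [pow_add, two_mul ((2 * s + j + s) ^ 2), pow_add 2 ((2 * s + j + s) ^ 2), ← mul_assoc, sq]
  exact Nat.mul_le_mul_right _ h1

end Pool.Agent.Lib.MP_2d211a_co.S64
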