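import Pool.Agent.Lib.MP_2d211a_co.S17EDef
import Pool.Agent.Lib.MP_2d211a_co.S64CAut

/-!
Automorphisms of a product of simple groups.
-/

namespace Pool.Agent.Lib.MP_2d211a_co.S64

open Subgroup H60 CategoryTheory

variable {c : ℕ} {S : Set GrpCat.{0}}

theorem S17EAut_fact {p n k : ℕ} (hp : p.Prime) (h : p ^ n ∣ k.factorial) : p ^ n ≤ 2 ^ k := by
  have := Fact.mk hp
  have h0 := (padicValNat_dvd_iff_le k.factorial_ne_zero).1 h
  have h1 : (p - 1) * padicValNat p k.factorial ≤ k := by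
    rw [sub_one_mul_padicValNat_factorial]
    exact Nat.sub_le _ _
  have h2 : p ≤ 2 ^ (p - 1) := by
    have h3 : p - 1 < 2 ^ (p - 1) := Nat.lt_two_pow_self
    have := hp.pos
    omega
  refine (Nat.pow_le_pow_left h2 n).trans ?_
  rw [← pow_mul]
  exact Nat.pow_le_pow_right two_pos ((Nat.mul_le_mul_left _ h0).trans h1)

theorem S17EAut_cen {T : Type} [Group T] [IsSimpleGroup T] (h : ¬IsMulCommutative T) {a : T}
    (ha : a ≠ 1) : ∃ t, a * t * a⁻¹ * t⁻¹ ≠ 1 := by
  by_contra! hc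
  have h1 : a ∈ center T := mem_center_iff.2 fun t =>
    (commutatorElement_eq_one_iff_mul_comm.1 (hc t)).symm
  rcases (inferInstance : (center T).Normal).eq_bot_or_eq_top with e | e
  · exact ha (mem_bot.1 (e ▸ h1))
  · exact h ⟨⟨fun x y => (mem_center_iff.1 (e.ge (mem_top y)) x)⟩⟩

section
variable {k : ℕ} {T : Fin k → Type} [∀ i, Group (T i)]

theorem S17EAut_mem {i : Fin k} {x : ∀ i, T i} :
    x ∈ (MonoidHom.mulSingle T i).range ↔ Pi.mulSingle i (x i) = x :=
  ⟨by rintro ⟨t, rfl⟩; simp, fun h => ⟨_, h⟩⟩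

theorem S17EAut_conj (i : Fin k) (t : T i) (g : ∀ i, T i) :
    g * Pi.mulSingle i t * g⁻¹ = Pi.mulSingle i (g i * t * (g i)⁻¹) := by
  ext j
  by_cases e : j = i
  · subst e
    simp
  · simp [Pi.mulSingle_eq_of_ne e]

theorem S17EAut_normal (i : Fin k) : (MonoidHom.mulSingle T i).range.Normal := ⟨by
  rintro _ ⟨t, rfl⟩ g
  exact ⟨_, (S17EAut_conj i t g).symm⟩⟩

variable [∀ i, IsSimpleGroup (T i)]

theorem S17EAut_le (h : ∀ i, ¬IsMulCommutative (T i)) {N : Subgroup (∀ i, T i)} (hN : N.Normal)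
    {n : ∀ i, T i} (hn : n ∈ N) {j : Fin k} (hj : n j ≠ 1) :
    (MonoidHom.mulSingle T j).range ≤ N := by
  obtain ⟨t, ht⟩ := S17EAut_cen (h j) hj
  rcases (hN.comap (MonoidHom.mulSingle T j)).eq_bot_or_eq_top with e | e
  · refine absurd (mem_bot.1 (e.le ?_)) ht
    have := N.mul_mem hn (hN.conj_mem _ (N.inv_mem hn) (Pi.mulSingle j t))
    rw [← mul_assoc, ← mul_assoc, S17EAut_conj] at this
    rwa [mem_comap, map_mul, map_inv]
  · rintro _ ⟨t, rfl⟩
    exact e.ge (mem_top t)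

theorem S17EAut_perm (h : ∀ i, ¬IsMulCommutative (T i)) (α : MulAut (∀ i, T i)) (i : Fin k) :
    ∃ j, (MonoidHom.mulSingle T i).range.map α.toMonoidHom = (MonoidHom.mulSingle T j).range := by
  obtain ⟨t, ht⟩ := exists_ne (1 : T i)
  obtain ⟨j, hj⟩ : ∃ j, α (Pi.mulSingle i t) j ≠ 1 := by
    by_contra! hc
    have := congrFun (α.map_eq_one_iff.1 (funext hc)) i
    exact ht (by simpa using this)
  have h1 := S17EAut_le h ((S17EAut_normal i).map α.toMonoidHom α.surjective)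
    (mem_map_of_mem _ ⟨t, rfl⟩) hj
  refine ⟨j, le_antisymm (map_le_iff_le_comap.2 ?_) h1⟩
  obtain ⟨s, hs⟩ := exists_ne (1 : T j)
  obtain ⟨_, ⟨r, rfl⟩, hr⟩ := h1 ⟨s, rfl⟩
  refine S17EAut_le h ((S17EAut_normal j).comap _) (n := Pi.mulSingle i r) ⟨s, hr.symm⟩ ?_
  intro e
  rw [Pi.mulSingle_eq_same] at e
  rw [e, map_one, map_one] at hr
  exact hs (by simpa using (congrFun hr j).symm)

theorem S17EAut_inj : Function.Injective fun i => (MonoidHom.mulSingle T i).range := by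
  intro i j e
  by_contra hne
  obtain ⟨t, ht⟩ := exists_ne (1 : T i)
  have := congrFun (S17EAut_mem.1 (e.le ⟨t, rfl⟩)) i
  rw [Pi.mulSingle_eq_of_ne hne] at this
  exact ht (by simpa using this.symm)

theorem S17EAut_main [∀ i, Finite (T i)] (h : ∀ i, ¬IsMulCommutative (T i)) {p : ℕ} (hp : p.Prime)
    (R : Subgroup (MulAut (∀ i, T i))) (hR : IsPGroup p R) :
    Nat.card R ≤ (∏ i, Nat.card (MulAut (T i))) * 2 ^ k := by
  have := Fact.mk hp
  choose σ hσ using S17EAut_perm h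
  let f : MulAut (∀ i, T i) →* Function.End (Fin k) :=
    { toFun := σ
      map_one' := funext fun i => S17EAut_inj ((hσ 1 i).symm.trans (map_id _))
      map_mul' := fun a b => funext fun i => S17EAut_inj ((hσ (a * b) i).symm.trans (by
        refine Eq.trans ?_ (hσ a (σ b i))
        rw [← hσ b i, map_map]
        rfl)) }
  let ψ := f.toHomPerm.comp R.subtype
  rw [← ψ.ker.card_mul_index, index_ker]
  refine Nat.mul_le_mul ?_ ?_
  · have fix : ∀ (a : ψ.ker) (i : Fin k) (t : T i),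
        Pi.mulSingle i (a.1.1 (Pi.mulSingle i t) i) = a.1.1 (Pi.mulSingle i t) := fun a i t => by
      have e : σ a.1.1 i = i := DFunLike.congr_fun (a.2 : ψ a.1 = 1) i
      have := hσ a.1.1 i
      rw [e] at this
      exact S17EAut_mem.1 (this.le (mem_map_of_mem _ ⟨t, rfl⟩))
    let β (a : ψ.ker) (i : Fin k) : MulAut (T i) := MulEquiv.ofBijective
      ((Pi.evalMonoidHom T i).comp (a.1.1.toMonoidHom.comp (MonoidHom.mulSingle T i)))
      (Finite.injective_iff_bijective.1 fun s t e => by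
        have e' : a.1.1 (Pi.mulSingle i s) i = a.1.1 (Pi.mulSingle i t) i := e
        have := (fix a i s).symm.trans (e' ▸ fix a i t)
        exact Pi.mulSingle_injective i (a.1.1.injective this))
    rw [← Nat.card_pi]
    refine Nat.card_le_card_of_injective β fun a b e => Subtype.ext (Subtype.ext ?_)
    refine MulEquiv.toMonoidHom_injective (MonoidHom.pi_ext fun i t => ?_)
    have e' : a.1.1 (Pi.mulSingle i t) i = b.1.1 (Pi.mulSingle i t) i :=
      DFunLike.congr_fun (congrFun e i) t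
    exact (fix a i t).symm.trans (e' ▸ fix b i t)
  · obtain ⟨n, hn⟩ := IsPGroup.iff_card.1
      (hR.of_surjective ψ.rangeRestrict ψ.rangeRestrict_surjective)
    have := card_subgroup_dvd_card ψ.range
    rw [Nat.card_perm, Nat.card_eq_fintype_card (α := Fin k), Fintype.card_fin, hn] at this
    exact hn.le.trans (S17EAut_fact hp this)

end

theorem semi_aut (h : Thin c S) {k : ℕ} {d : Fin k → Cls} (hd : Fac S d) :
    ∃ u, Odd u ∧ u ∣ Nat.card (Wd d) ∧ ∀ p : ℕ, p.Prime → ∀ R : Subgroup (MulAut (Wd d)),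
      IsPGroup p R → Nat.card R ≤ u ^ (c + 1) := by
  have := fun i => (hd i).2.1
  have := fun i => (hd i).2.2.1
  have key : ∀ i, ∃ u, Odd u ∧ u ∣ Nat.card (d i).out ∧ Nat.card (MulAut (d i).out) ≤ u ^ c ∧
      2 ≤ u := fun i => by
    obtain ⟨T, hT, e⟩ := (hd i).1
    obtain ⟨φ⟩ := cl_eq.1 ((d i).out_eq.trans e.symm)
    obtain ⟨u, h1, h2, h3⟩ := h.aut T hT (Finite.of_equiv _ φ.toEquiv)
    rw [← Nat.card_congr (MulAut.congr φ).toEquiv] at h3
    refine ⟨u, h1, Nat.card_congr φ.toEquiv ▸ h2, h3, ?_⟩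
    obtain ⟨a, ha⟩ := exists_ne (1 : (d i).out)
    obtain ⟨t, ht⟩ := S17EAut_cen (hd i).2.2.2 ha
    have : Nontrivial (MulAut (d i).out) := ⟨MulAut.conj a, 1, fun e => ht (by
      have : a * t * a⁻¹ = t := DFunLike.congr_fun e t
      rw [this, mul_inv_cancel])⟩
    have h4 := (Finite.one_lt_card (α := MulAut (d i).out)).trans_le h3
    by_contra h5
    obtain rfl : u = 1 := by have := h1.pos; omega
    simp at h4
  choose u u1 u2 u3 u4 using key
  refine ⟨∏ i, u i, Finset.prod_induction _ _ (fun a b => Odd.mul) odd_one fun i _ => u1 i, ?_,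
    fun p hp R hR => (S17EAut_main (fun i => (hd i).2.2.2) hp R hR).trans ?_⟩
  · rw [Nat.card_pi]
    exact Finset.prod_dvd_prod_of_dvd _ _ fun i _ => u2 i
  · rw [pow_succ, ← Finset.prod_pow]
    refine Nat.mul_le_mul (Finset.prod_le_prod' fun i _ => u3 i) ?_
    simpa using Finset.pow_card_le_prod Finset.univ u 2 fun i _ => u4 i

theorem card_hom_semi (h : Thin c S) {k : ℕ} {d : Fin k → Cls} (hd : Fac S d) {N p : ℕ}
    (hN : Nat.card (Wd d) ≤ 2 ^ N) (hp : p.Prime) {P : Type} [Group P] [Finite P]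
    (hP : IsPGroup p P) (hP' : Nat.card P ≤ 2 ^ N) : Finite (P →* MulAut (Wd d)) ∧
      Nat.card (P →* MulAut (Wd d)) ≤ 2 ^ ((c + 2) * N * N) := by
  classical
  have := fun i => (hd i).2.1
  obtain ⟨u, -, u2, u3⟩ := semi_aut h hd
  have := Fact.mk hp
  have : Fintype (Sylow p (MulAut (Wd d))) := Fintype.ofFinite _
  have : ∀ Q : Sylow p (MulAut (Wd d)), Finite (P →* (Q : Subgroup (MulAut (Wd d)))) :=
    fun Q => (card_hom_le hP').1
  refine ⟨(card_hom_le hP').1, ?_⟩
  have hsurj : Function.Surjective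
      (fun z : Σ Q : Sylow p (MulAut (Wd d)), (P →* (Q : Subgroup (MulAut (Wd d)))) =>
        (z.1 : Subgroup (MulAut (Wd d))).subtype.comp z.2) := by
    intro f
    obtain ⟨Q, hQ⟩ := IsPGroup.exists_le_sylow
      (hP.of_surjective f.rangeRestrict f.rangeRestrict_surjective)
    exact ⟨⟨Q, f.codRestrict _ fun r => hQ ⟨r, rfl⟩⟩, MonoidHom.ext fun _ => rfl⟩
  have b1 := Nat.card_le_card_of_surjective _ hsurj
  rw [Nat.card_sigma] at b1
  have b2 : ∀ Q : Sylow p (MulAut (Wd d)),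
      Nat.card (P →* (Q : Subgroup (MulAut (Wd d)))) ≤ 2 ^ ((c + 1) * N * N) := by
    intro Q
    have k2 := (u3 p hp _ Q.isPGroup').trans
      (Nat.pow_le_pow_left ((Nat.le_of_dvd Nat.card_pos u2).trans hN) (c + 1))
    refine (card_hom_le hP').2.trans ((Nat.pow_le_pow_left k2 N).trans (le_of_eq ?_))
    rw [← pow_mul, ← pow_mul]
    congr 1
    ring
  have b3 : Nat.card (Sylow p (MulAut (Wd d))) ≤ 2 ^ (N * N) := by
    obtain ⟨Q⟩ : Nonempty (Sylow p (MulAut (Wd d))) := inferInstance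
    exact (Nat.le_of_dvd Nat.card_pos
      (Q.card_dvd_index.trans (index_dvd_card _))).trans (card_aut_le hN)
  have b4 := Finset.sum_le_card_nsmul Finset.univ _ _ fun Q _ => b2 Q
  rw [Finset.card_univ, ← Nat.card_eq_fintype_card, smul_eq_mul] at b4
  refine b1.trans (b4.trans ((Nat.mul_le_mul_right _ b3).trans (le_of_eq ?_)))
  rw [← pow_add]
  congr 1
  ring

end Pool.Agent.Lib.MP_2d211a_co.S64
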