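import Pool.Agent.Lib.MP_2d211a_co.S17ESoc

/-!
The action on the socle of the centraliser of the Fitting subgroup.
-/

namespace Pool.Agent.Lib.MP_2d211a_co.S64

open Subgroup H60 CategoryTheory

variable {c : ℕ} {S : Set GrpCat.{0}}

theorem Tame.of_surj {G H : Type} [Group G] [Group H] (h : Tame S G) (π : G →* H)
    (hπ : Function.Surjective π) : Tame S H := by
  intro K hK T _ f hf h1 h2
  exact h (K.comap π) (hK.comap π) T (f.comp (π.subgroupComap K))
    (hf.comp (π.subgroupComap_surjective_of_surjective K hπ)) h1 h2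

theorem tame_of_two {G : Type} [Group G] {n : ℕ} (h : Nat.card G = 2 ^ n) : Tame S G := by
  intro K _ T _ f hf h1 h2
  have : Finite G := Nat.finite_of_card_ne_zero (h ▸ (pow_pos two_pos _).ne')
  have : Finite T := .of_surjective f hf
  have h3 : IsPGroup 2 T := ((IsPGroup.of_card h).to_subgroup K).of_surjective f hf
  have h4 := (nontrivial_iff_ne_bot _).1 h3.center_nontrivial
  have h5 := (h1.eq_bot_or_eq_top_of_normal (center T) inferInstance).resolve_left h4
  exact absurd ⟨⟨fun a b => mem_center_iff.1 (h5 ▸ mem_top b) a⟩⟩ h2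

theorem S17EChi_le {G : Type} [Group G] {F B : Subgroup G} [F.Normal] [B.Normal]
    [Group.IsNilpotent F] (hF : ∀ U : Subgroup G, U.Normal → Group.IsNilpotent U → F ≤ U → U ≤ F)
    (b2 : B ≤ centralizer (F : Set G)) (c2 : ⁅B, B⁆ ≤ F) : B ≤ F := by
  have c3 : Group.IsNilpotent B := isNilpotent_of_lowerCentralSeries_eq_bot (n := 2) (by
    refine le_bot_iff.1 ((commutator_mono c2 le_rfl).trans ?_)
    rw [commutator_comm, commutator_eq_bot_iff_le_centralizer.2 b2])
  have c4 : ∀ (b : B) (f : F), Commute (B.subtype b) (F.subtype f) := fun b f =>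
    (b2 b.2 f f.2).symm
  have c5 := Group.nilpotent_of_surjective _
    (MonoidHom.noncommCoprod B.subtype F.subtype c4).rangeRestrict_surjective
  rw [MonoidHom.noncommCoprod_range, range_subtype, range_subtype] at c5
  exact le_sup_left.trans (hF _ inferInstance c5 le_sup_right)

theorem exists_chi (G : Type) [Group G] [Finite G] (h : Tame S G) :
    ∃ (F : Subgroup G) (k : ℕ) (d : Fin k → Cls) (χ : G →* MulAut (Wd d)), F.Normal ∧
      Group.IsNilpotent F ∧ Fac S d ∧ Nat.card (Wd d) ∣ Nat.card G ∧ F ≤ χ.ker ∧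
      centralizer (F : Set G) ⊓ χ.ker ≤ F := by
  obtain ⟨F, ⟨f1, f2⟩, hF⟩ := (Set.toFinite {F : Subgroup G | F.Normal ∧ Group.IsNilpotent F}
    ).exists_maximal ⟨⊥, inferInstance, inferInstance⟩
  let Z := centralizer (F : Set G) ⊓ F
  let π := QuotientGroup.mk' Z
  have hπ : Function.Surjective π := QuotientGroup.mk'_surjective Z
  have hk : ∀ g, π g = 1 ↔ g ∈ Z := fun g => QuotientGroup.eq_one_iff g
  have : ((centralizer (F : Set G)).map π).Normal := Normal.map inferInstance π hπ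
  obtain ⟨L, k, T, l1, l2, l3, l4, ⟨e0⟩⟩ := exists_soc ((centralizer (F : Set G)).map π)
    fun B b1 b2 b3 => by
      have a1 : B.comap π ≤ centralizer (F : Set G) := fun g hg => by
        obtain ⟨x, hx, e⟩ := b2 hg
        have a2 : x⁻¹ * g ∈ Z := (hk _).1 (by rw [map_mul, map_inv, e, inv_mul_cancel])
        have a3 := mul_mem hx (mem_inf.1 a2).1
        rwa [mul_inv_cancel_left] at a3
      have a2 : B.comap π ≤ F := S17EChi_le (fun U u1 u2 u3 => hF ⟨u1, u2⟩ u3) a1
        (commutator_le.2 fun x hx y hy => (mem_inf.1 ((hk _).1 (by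
          rw [map_commutatorElement, commutatorElement_eq_one_iff_mul_comm]
          exact b3 _ hx _ hy))).2)
      refine eq_bot_iff.2 fun x hx => ?_
      obtain ⟨g, rfl⟩ := hπ x
      exact mem_bot.2 ((hk g).2 (mem_inf.2 ⟨a1 hx, a2 hx⟩))
  let d : Fin k → Cls := fun i => cl (GrpCat.of (T i))
  have he : ∀ i, Nonempty (T i ≃* (d i).out) := fun i => cl_eq.1 (d i).out_eq.symm
  let e : ∀ i, T i ≃* (d i).out := fun i => (he i).some
  let φ : L ≃* Wd d := e0.trans (MulEquiv.piCongrRight e)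
  let χ : G →* MulAut (Wd d) :=
    (MulAut.congr φ).toMonoidHom.comp ((MulAut.conjNormal (H := L)).comp π)
  have hχ : ∀ g, g ∈ χ.ker ↔ π g ∈ centralizer (L : Set (G ⧸ Z)) := fun g => by
    have a1 : g ∈ χ.ker ↔ MulAut.conjNormal (H := L) (π g) = 1 :=
      (MulAut.congr φ).map_eq_one_iff
    rw [a1]
    refine ⟨fun a2 y hy => ?_, fun a2 => MulEquiv.ext fun y => Subtype.ext ?_⟩
    · have := congrArg (fun a : MulAut L => (a ⟨y, hy⟩ : G ⧸ Z)) a2
      exact (mul_inv_eq_iff_eq_mul.1 this).symm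
    · exact mul_inv_eq_iff_eq_mul.2 (a2 y y.2).symm
  refine ⟨F, k, d, χ, f1, f2, fun i => ⟨?_, .of_equiv _ (e i).toEquiv, ?_, fun a => (l4 i).2.2 ?_⟩,
    ?_, fun f hf => (hχ f).2 fun y hy => ?_, fun g hg => ?_⟩
  · obtain ⟨T', a1, ⟨a2⟩⟩ := h.of_surj π hπ (T i) (l4 i).1 (T i) (MonoidHom.id _)
      Function.surjective_id (l4 i).2.1 (l4 i).2.2
    exact ⟨T', a1, cl_eq.2 ⟨a2.symm⟩⟩
  · have := (l4 i).2.1
    exact (e i).symm.isSimpleGroup
  · exact ⟨⟨fun x y => (e i).injective (by rw [map_mul, map_mul, a.is_comm.comm])⟩⟩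
  · rw [← Nat.card_congr φ.toEquiv]
    exact L.card_subgroup_dvd_card.trans Z.card_quotient_dvd_card
  · obtain ⟨x, hx, rfl⟩ := l2 hy
    rw [← map_mul, ← map_mul, hx f hf]
  · have a1 : π g ∈ centralizer (L : Set (G ⧸ Z)) ⊓ (centralizer (F : Set G)).map π :=
      mem_inf.2 ⟨(hχ g).1 (mem_inf.1 hg).2, g, (mem_inf.1 hg).1, rfl⟩
    rw [l3, mem_bot, hk] at a1
    exact (mem_inf.1 a1).2

end Pool.Agent.Lib.MP_2d211a_co.S64
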