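import Mathlib

namespace Pool.Agent.Lib.MP_2d211a_co.S64

/-- Every non-commutative simple image of a subnormal subgroup of `G` is isomorphic to a member
of `S`. -/
def Tame (S : Set GrpCat.{0}) (G : Type) [Group G] : Prop :=
  ∀ H : Subgroup G, H.IsSubnormal → ∀ (T : Type) [Group T] (f : H →* T), Function.Surjective f →
    IsSimpleGroup T → ¬IsMulCommutative T → ∃ T' ∈ S, Nonempty (T ≃* T')

end Pool.Agent.Lib.MP_2d211a_co.S64
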