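import Pool.Agent.Lib.MP_2d211a_co.S64CDef
import Pool.Agent.Lib.MP_2d211a_co.S17ETame

/-!
Groups whose non-commutative composition factors lie in a given class.
-/

namespace Pool.Agent.Lib.MP_2d211a_co.S64

open Subgroup H60 CategoryTheory

/-- Isomorphism classes of groups. -/
abbrev Cls : Type 1 := Quotient (isIsomorphicSetoid GrpCat.{0})

/-- `S` has few classes of each order and its members have few automorphisms. -/
structure Thin (c : ℕ) (S : Set GrpCat.{0}) : Prop where
  few : ∀ m, 0 < m → (cl '' {T | T ∈ S ∧ Nat.card T = m}).ncard ≤ m ^ c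
  aut : ∀ T ∈ S, Finite T → ∃ u, Odd u ∧ u ∣ Nat.card T ∧ Nat.card (MulAut T) ≤ u ^ c

/-- A tuple of classes of finite simple non-commutative members of `S`. -/
def Fac (S : Set GrpCat.{0}) {k : ℕ} (d : Fin k → Cls) : Prop :=
  ∀ i, d i ∈ cl '' S ∧ Finite (d i).out ∧ IsSimpleGroup (d i).out ∧ ¬IsMulCommutative (d i).out

/-- The product of the representatives. -/
abbrev Wd {k : ℕ} (d : Fin k → Cls) : Type := ∀ i, (d i).out

variable {m : ℕ} {P : m.primeFactors → Type} [∀ p, Group (P p)]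

/-- As `Glue`, with one more homomorphism `χ` that detects the centraliser of `F` modulo `F`. -/
def Glue2 (F : Subgroup (∀ p, P p)) (ψ : ∀ p, P p →* MulAut F) {A : Type} [Group A]
    (ω : ∀ p, P p →* A) (G : Type) [Group G] : Prop :=
  Nat.card G = m ∧ ∃ (ι : F →* G) (χ : G →* A), Function.Injective ι ∧ ι.range.Normal ∧
    ι.range ≤ χ.ker ∧ centralizer (ι.range : Set G) ⊓ χ.ker ≤ ι.range ∧
    ∀ p, ∃ j : P p →* G, Function.Injective j ∧ (∀ y f, j y * ι f * (j y)⁻¹ = ι (ψ p y f)) ∧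
      (∀ y (f : F), j y = ι f → Pi.mulSingle p y = (f : ∀ p, P p)) ∧ ∀ y, χ (j y) = ω p y

end Pool.Agent.Lib.MP_2d211a_co.S64
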