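import Pool.Agent.Lib.MP_2d211a_co.S64CDef

/-!
The upper bound of Higman for the number of groups of prime-power order.
-/

namespace Pool.Agent.Lib.MP_2d211a_co.S64

open Subgroup H60 CategoryTheory

theorem S64CHig_chain {p g k : ℕ} (hp : p.Prime) {T : Type} [Group T] (hT : Nat.card T = p ^ (k + g))
    {Q R : Subgroup T} [hn : Q.Normal] (hQ : Q.index = p ^ k) (hs : R ⊔ Q = ⊤)
    (hc : R ⊓ centralizer (Q : Set T) = ⊥) (a : ℕ) : ∀ (i : ℕ) (M : Subgroup T), R ≤ M →
      Nat.card M = p ^ (k + i) → i + a = g →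
      Nat.card (R ⊓ centralizer ((Q ⊓ M : Subgroup T) : Set T) : Subgroup T) * p ^ i.choose 2 ≤
        p ^ g.choose 2 := by
  have := Fact.mk hp
  have : Finite T := Nat.finite_of_card_ne_zero (hT ▸ (pow_pos hp.pos _).ne')
  have cd : ∀ (i : ℕ) (M : Subgroup T), R ≤ M → Nat.card M = p ^ (k + i) →
      Nat.card (Q ⊓ M : Subgroup T) = p ^ i := fun i M h1 h2 => by
    have h3 := relIndex_mul_relIndex ⊥ (Q ⊓ M) M bot_le inf_le_right
    rw [relIndex_bot_left, relIndex_bot_left, inf_relIndex_right, ← relIndex_sup_right,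
      show M ⊔ Q = ⊤ from top_le_iff.1 (hs ▸ sup_le_sup_right h1 Q), relIndex_top_right, hQ, h2, pow_add, mul_comm] at h3
    exact Nat.eq_of_mul_eq_mul_left (pow_pos hp.pos k) h3
  induction a with
  | zero =>
    rintro i M - hM rfl
    obtain rfl : M = ⊤ := eq_top_of_card_eq _ (hM.trans hT.symm)
    simp [hc]
  | succ a ih =>
    rintro i M h1 hM rfl
    obtain ⟨M', hM', h2⟩ := Sylow.exists_subgroup_card_pow_succ (p := p) (n := k + i)
      (hT ▸ pow_dvd_pow p (by omega)) hM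
    obtain ⟨t, -, -, tN, -, tE⟩ := step hp hM hM' h2
    have h3 : M' ≤ normalizer (M : Set T) := tE _ le_normalizer tN
    obtain ⟨q, qK, -, -, -, qE⟩ := step hp (cd i M h1 hM) (cd (i + 1) M' (h1.trans h2) hM')
      (inf_le_inf_left Q h2)
    refine le_trans ?_ (ih (i + 1) M' (h1.trans h2) hM' (by omega))
    set S := R ⊓ centralizer ((Q ⊓ M : Subgroup T) : Set T)
    set S' := R ⊓ centralizer ((Q ⊓ M' : Subgroup T) : Set T)
    have h4 := (cover (Set.toFinite ((Q ⊓ M : Subgroup T) : Set T))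
      (fun w => {s ∈ (S : Set T) | q⁻¹ * (s * q * s⁻¹) = w}) (Nat.card S')
      (fun w _ => ⟨Set.toFinite _, ?_⟩) S fun s hs' => ⟨_, ⟨Q.mul_mem (Q.inv_mem qK.1)
        (hn.conj_mem q qK.1 s), ?_⟩, hs', rfl⟩).2
    · rw [← Nat.card_coe_set_eq, ← Nat.card_coe_set_eq] at h4
      refine (Nat.mul_le_mul_right _ (h4.trans_eq (congrArg (· * _) (cd i M h1 hM)))).trans_eq ?_
      rw [Nat.choose_succ_succ' i 1, Nat.choose_one_right, pow_add]
      ring
    · rcases Set.eq_empty_or_nonempty {s ∈ (S : Set T) | q⁻¹ * (s * q * s⁻¹) = w} with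
        e | ⟨s0, b1, b2⟩
      · rw [e, Set.ncard_empty]; exact Nat.zero_le _
      refine (Set.ncard_le_ncard_of_injOn (t := S') (fun s => s0⁻¹ * s) ?_
        fun _ _ _ _ e => mul_left_cancel e).trans_eq (Nat.card_coe_set_eq _).symm
      rintro s ⟨c1, c2⟩
      have c3 : s0⁻¹ * s ∈ S := mul_mem (inv_mem b1) c1
      have c4 : s0 * q * s0⁻¹ = s * q * s⁻¹ := mul_left_cancel (b2.trans c2.symm)
      refine ⟨c3.1, mem_centralizer_iff.2 fun y hy => mem_centralizer_singleton_iff.1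
        (qE (centralizer {s0⁻¹ * s}) (fun z hz => mem_centralizer_singleton_iff.2
          (mem_centralizer_iff.1 c3.2 z hz)) (mem_centralizer_singleton_iff.2 ?_) hy)⟩
      calc q * (s0⁻¹ * s) = s0⁻¹ * (s0 * q * s0⁻¹) * s := by group
        _ = s0⁻¹ * s * q := by rw [c4]; group
    · have c1 := (mem_normalizer_iff.1 (h3 (inv_mem qK.2)) s).1 (h1 hs'.1)
      simpa [mul_assoc] using mul_mem c1 (inv_mem (h1 hs'.1))

theorem card_le_same {p g : ℕ} (hp : p.Prime) {Q : Type} [Group Q] (hQ : Nat.card Q = p ^ g)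
    {R : Type} [Group R] [Finite R] (hR : IsPGroup p R) (φ : R →* MulAut Q)
    (hφ : Function.Injective φ) : Nat.card R ≤ p ^ g.choose 2 := by
  have := Fact.mk hp
  obtain ⟨k, hk⟩ := IsPGroup.iff_card.1 hR
  have e1 := SemidirectProduct.range_inl_eq_ker_rightHom (φ := φ)
  have e2 : Nat.card (SemidirectProduct.inr (φ := φ)).range = p ^ (k + 0) :=
    (Nat.card_congr (MonoidHom.ofInjective SemidirectProduct.inr_injective).toEquiv).symm.trans hk
  have := S64CHig_chain (g := g) (k := k) hp (T := Q ⋊[φ] R)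
    (by rw [SemidirectProduct.card, hQ, hk, pow_add, mul_comm])
    (Q := SemidirectProduct.rightHom.ker) (R := SemidirectProduct.inr.range)
    (by rw [index_ker, MonoidHom.range_eq_top.2 SemidirectProduct.rightHom_surjective, card_top, hk])
    (eq_top_iff.2 fun t _ => by
      rw [← SemidirectProduct.inl_left_mul_inr_right t, ← e1]
      exact mul_mem (mem_sup_right ⟨_, rfl⟩) (mem_sup_left ⟨_, rfl⟩))
    (eq_bot_iff.2 ?_) g 0 _ le_rfl e2 (zero_add g)
  · have e3 : SemidirectProduct.rightHom.ker ⊓ (SemidirectProduct.inr (φ := φ)).range = ⊥ :=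
      eq_bot_iff.2 (by
        rintro _ ⟨h, r, rfl⟩
        have : r = 1 := by simpa using h
        simp [this])
    rw [e3, coe_bot, (centralizer_eq_top_iff_subset.2 (by simp)), inf_top_eq, e2] at this
    simpa [hk] using this
  · rintro _ ⟨⟨r, rfl⟩, h⟩
    have : φ r = 1 := MulEquiv.ext fun y => SemidirectProduct.inl_injective (φ := φ) (by
      rw [SemidirectProduct.inl_aut, ← mem_centralizer_iff.1 h _ (e1 ▸ ⟨y, rfl⟩)]
      simp)
    rw [(injective_iff_map_eq_one φ).1 hφ r this, map_one]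
    exact one_mem _

theorem S64CHig_ext {p : ℕ} (hp : p.Prime) {H : Type} [Group H] {n : ℕ} (hH : Nat.card H = p ^ n) :
    (cl '' {G | Nat.card G = p ^ (n + 1) ∧ ∃ f : H →* G, Function.Injective f}).ncard ≤
      p ^ (n + 1).choose 2 := by
  have := Fact.mk hp
  have : Finite H := Nat.finite_of_card_ne_zero (hH ▸ (pow_pos hp.pos _).ne')
  obtain ⟨S⟩ : Nonempty (Sylow p (MulAut H)) := inferInstance
  have := cover (Set.finite_univ (α := S × H)) (fun d => cl '' {G | Ex p (d.1.1, d.2) G}) 1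
    (fun d _ => ?_) (cl '' {G | Nat.card G = p ^ (n + 1) ∧ ∃ f : H →* G, Function.Injective f}) ?_
  · refine this.2.trans ?_
    rw [Set.ncard_univ, Nat.card_prod, hH, mul_one, Nat.choose_succ_succ' n 1,
      Nat.choose_one_right, pow_add, mul_comm]
    exact Nat.mul_le_mul_left _ (card_le_same hp hH S.isPGroup' _ (subtype_injective _))
  · have : (cl '' {G | Ex p (d.1.1, d.2) G}).Subsingleton := by
      rintro _ ⟨A, hA, rfl⟩ _ ⟨B, hB, rfl⟩
      exact cl_eq.2 (Ex.iso hp hA hB)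
    exact ⟨this.finite, (Set.ncard_le_one this.finite).2 fun a ha b hb => this ha hb⟩
  · rintro _ ⟨G, ⟨hG, f, hf⟩, rfl⟩
    obtain ⟨⟨α, a⟩, hF, f, g, a1, a2, a3, a4, a5⟩ := exists_Ex hp hH hG f hf
    have h1 : ∀ (m : ℕ) (h : H), g ^ m * f h * (g ^ m)⁻¹ = f ((α ^ m) h) := fun m => by
      induction m with
      | zero => simp
      | succ m ih =>
        intro h
        rw [pow_succ' α, MulAut.mul_apply, ← a3, ← ih, pow_succ']
        group
    have h2 : α ^ p ^ (n + 1) = 1 := MulEquiv.ext fun h => a1 (by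
      rw [← h1, ← hG, pow_card_eq_one']; simp)
    have h3 : IsPGroup p (zpowers α) := by
      rintro ⟨_, i, rfl⟩
      refine ⟨n + 1, Subtype.ext ?_⟩
      change (α ^ i) ^ p ^ (n + 1) = 1
      rw [← zpow_natCast, ← zpow_mul, mul_comm, zpow_mul, zpow_natCast, h2, one_zpow]
    obtain ⟨S', hS'⟩ := h3.exists_le_sylow
    obtain ⟨β, rfl⟩ := MulAction.exists_smul_eq (MulAut H) S S'
    have h4 : β⁻¹ * α * β ∈ (S : Subgroup (MulAut H)) := by
      obtain ⟨γ, h5, h6⟩ := hS' (mem_zpowers α)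
      have : β * γ * β⁻¹ = α := h6
      rwa [← this, show β⁻¹ * (β * γ * β⁻¹) * β = γ by group]
    have h5 : (f.comp β.toMonoidHom).range = f.range := by
      rw [MonoidHom.range_comp, MonoidHom.range_eq_top.2 β.surjective, ← MonoidHom.range_eq_map]
    exact ⟨(⟨_, h4⟩, β⁻¹ a), trivial, G, ⟨hF, f.comp β.toMonoidHom, g, a1.comp β.injective,
      h5 ▸ a2, fun h => by simpa using a3 (β h), by simpa using a4, h5 ▸ a5⟩, rfl⟩

theorem hig_up {p : ℕ} (hp : p.Prime) (g : ℕ) : gnu (p ^ g) ≤ p ^ (g + 1).choose 3 := by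
  induction g with
  | zero =>
    have := Lg_zero hp 0
    have h : cl '' {G | Nat.card G = p ^ 0} ⊆ Lg p 0 0 :=
      Set.image_mono fun G hG => ⟨hG, 1, by simp⟩
    exact (Set.ncard_le_ncard h this.finite).trans
      ((Set.ncard_le_one this.finite).2 fun a ha b hb => this ha hb)
  | succ g ih =>
    refine (cover (all_fin hp g) (fun d => cl '' {G | Nat.card G = p ^ (g + 1) ∧
      ∃ f : d.out →* G, Function.Injective f}) (p ^ (g + 1).choose 2) ?_ _ ?_).2.trans
      ((Nat.mul_le_mul_right _ ih).trans_eq ?_)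
    · rintro d ⟨A, hA, h⟩
      obtain ⟨φ⟩ := cl_eq.1 (h.trans d.out_eq.symm)
      have h1 := (Nat.card_congr φ.toEquiv).symm.trans hA
      exact ⟨(ext_le hp h1).1, S64CHig_ext hp h1⟩
    · rintro _ ⟨G, hG, rfl⟩
      obtain ⟨d, ⟨A, hA, e⟩, h⟩ := Lg_succ hp (e := 0) (j := g) _
        ⟨G, ⟨by rwa [zero_add], 1, by simp⟩, rfl⟩
      rw [zero_add] at hA h
      exact ⟨d, ⟨A, hA.1, e⟩, h⟩
    · rw [← pow_add, Nat.choose_succ_succ' (g + 1) 2, add_comm]

end Pool.Agent.Lib.MP_2d211a_co.S64
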