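import Pool.Agent.Lib.MP_2d211a_co.S64COrd
import Pool.Agent.Lib.MP_2d211a_co.S64CHig

/-!
Solvable groups with a small Sylow 2-subgroup.
-/

namespace Pool.Agent.Lib.MP_2d211a_co.S64

open Subgroup H60 CategoryTheory

theorem S64CFam1_num {M C a c N : ℕ} (hM : 0 < M) (hN : N = a + c) (hc : N ≤ c * M)
    (h0 : 500 * M * (C + 3) ≤ N) :
    2 * a ^ 3 / 27 + N ^ 3 / (10 ^ 5 * M) + C + c * (c ^ 2 / 14 + 1) +
      N * N * (1 + 4 * (N / (10 ^ 5 * M))) + N + N ^ 3 / (10 ^ 4 * M) ≤ 2 * N ^ 3 / 27 := by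
  have e1 := Nat.mul_div_le (2 * a ^ 3) 27
  have e2 := Nat.mul_div_le (N ^ 3) (10 ^ 5 * M)
  have e3 := Nat.mul_div_le (c ^ 2) 14
  have e4 := Nat.mul_div_le N (10 ^ 5 * M)
  have e5 := Nat.mul_div_le (N ^ 3) (10 ^ 4 * M)
  generalize 2 * a ^ 3 / 27 = A1 at *
  generalize N ^ 3 / (10 ^ 5 * M) = A2 at *
  generalize c ^ 2 / 14 = A3 at *
  generalize N / (10 ^ 5 * M) = A4 at *
  generalize N ^ 3 / (10 ^ 4 * M) = A5 at *
  rw [Nat.le_div_iff_mul_le (by norm_num)]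
  refine Nat.le_of_mul_le_mul_left ?_ (show 0 < 14 * M by omega)
  have hN1 : 0 < N := lt_of_lt_of_le (by positivity) h0
  have hNN : N ≤ N * N := Nat.le_mul_self N
  have h2 := Nat.mul_le_mul_left (N * N) e4
  have h3 := Nat.mul_le_mul_left (N * N) h0
  have h4 : C + c + N * N + N ≤ (C + 3) * (N * N) := by
    have : C ≤ C * (N * N) := Nat.le_mul_of_pos_right _ (by omega)
    have e : (C + 3) * (N * N) = C * (N * N) + 3 * (N * N) := by ring
    omega
  have h5 := Nat.mul_le_mul_left (500 * M) h4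
  have h6 := Nat.mul_le_mul_left c e3
  have h7 : 28 * a ^ 3 + 27 * c ^ 3 + c * (N * N) ≤ 28 * N ^ 3 := by
    have e : 28 * N ^ 3 = 28 * a ^ 3 + 27 * c ^ 3 + c * (N * N) +
        (83 * (a * a * c) + 82 * (a * c * c)) := by rw [hN]; ring
    omega
  have h8 : 378 * A1 + 378 * (c * A3) + c * (N * N) ≤ 28 * N ^ 3 := by
    have e : c * c ^ 2 = c ^ 3 := by ring
    have e' : c * (14 * A3) = 14 * (c * A3) := by ring
    omega
  have h9 := Nat.mul_le_mul_left M h8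
  have h10 := Nat.mul_le_mul_left (N * N) hc
  nlinarith

theorem S64CFam1_prod {a u A B : ℕ} (hu : Odd u) (hA : gnu (2 ^ a) ≤ 2 ^ A)
    (hB : ∏ p ∈ u.primeFactors, p ^ (u.factorization p + 1).choose 3 ≤ 2 ^ B) :
    ∏ p ∈ (2 ^ a * u).primeFactors, gnu (p ^ (2 ^ a * u).factorization p) ≤ 2 ^ (A + B) := by
  have hu0 : u ≠ 0 := hu.pos.ne'
  have h2 : ¬2 ∣ u := hu.not_two_dvd_nat
  have h2' : 2 ∉ u.primeFactors := fun h => h2 (Nat.dvd_of_mem_primeFactors h)
  have hf : (2 ^ a * u).factorization = Finsupp.single 2 a + u.factorization := by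
    rw [Nat.factorization_mul (by positivity) hu0, Nat.prime_two.factorization_pow]
  let h : ℕ → ℕ := fun p => if p = 2 then 2 ^ A else p ^ (u.factorization p + 1).choose 3
  calc _ ≤ ∏ p ∈ (2 ^ a * u).primeFactors, h p := by
        refine Finset.prod_le_prod' fun p hp => ?_
        rw [hf, Finsupp.add_apply]
        by_cases e : p = 2
        · subst e
          simpa [h, Nat.factorization_eq_zero_of_not_dvd h2] using hA
        · simpa [h, e, Finsupp.single_eq_of_ne e] using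
            hig_up (Nat.prime_of_mem_primeFactors hp) (u.factorization p)
    _ ≤ ∏ p ∈ insert 2 u.primeFactors, h p := by
        refine Finset.prod_le_prod_of_subset_of_one_le' (fun p hp => ?_) fun p hp _ => ?_
        · have hp' := Nat.prime_of_mem_primeFactors hp
          rcases hp'.dvd_mul.1 (Nat.dvd_of_mem_primeFactors hp) with d | d
          · rw [(Nat.prime_dvd_prime_iff_eq hp' Nat.prime_two).1 (hp'.dvd_of_dvd_pow d)]
            exact Finset.mem_insert_self _ _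
          · exact Finset.mem_insert_of_mem (Nat.mem_primeFactors.2 ⟨hp', d, hu0⟩)
        · by_cases e : p = 2
          · simp [h, e, Nat.one_le_two_pow]
          · simp only [h, if_neg e]
            exact Nat.one_le_pow _ _ (Nat.prime_of_mem_primeFactors
              ((Finset.mem_insert.1 hp).resolve_left e)).pos
    _ ≤ 2 ^ (A + B) := by
        rw [Finset.prod_insert h2', pow_add]
        refine Nat.mul_le_mul (by simp [h]) (le_trans (le_of_eq ?_) hB)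
        exact Finset.prod_congr rfl fun p hp => if_neg fun e : p = 2 => h2' (e ▸ hp)

theorem fam_one (hs : SimsLe) (M : ℕ) (hM : 0 < M) : ∃ K n₀ : ℕ, 0 < K ∧ ∀ N ≥ n₀,
    (cl '' {G | Finite G ∧ Group.IsSolvable G ∧ Nat.card G ≤ 2 ^ N ∧
      ¬2 ^ (N - N / M) ∣ Nat.card G}).ncard * 2 ^ (N ^ 3 / K) ≤ 2 ^ (2 * N ^ 3 / 27) := by
  obtain ⟨n₁, h1⟩ := hs (10 ^ 5 * M) (by positivity)
  obtain ⟨n₂, h2⟩ := omega_small (10 ^ 5 * M) (by positivity)
  refine ⟨10 ^ 4 * M, n₂ + 500 * M * (n₁ ^ 3 + 3), by positivity, fun N hN => ?_⟩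
  have hN0 : 500 * M * (n₁ ^ 3 + 3) ≤ N := by omega
  have hg : ∀ a ≤ N, gnu (2 ^ a) ≤ 2 ^ (2 * a ^ 3 / 27 + N ^ 3 / (10 ^ 5 * M) + n₁ ^ 3) := by
    intro a ha
    rcases lt_or_ge a n₁ with h | h
    · refine (hig_up Nat.prime_two a).trans (Nat.pow_le_pow_right two_pos ?_)
      exact ((Nat.choose_le_pow _ _).trans (Nat.pow_le_pow_left h 3)).trans (Nat.le_add_left _ _)
    · refine (h1 a h).trans (Nat.pow_le_pow_right two_pos ?_)
      have := Nat.div_le_div_right (c := 10 ^ 5 * M) (Nat.pow_le_pow_left ha 3)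
      omega
  have hz := S64CFam1_num (a := 0) hM (zero_add N).symm (Nat.le_mul_of_pos_right N hM) hN0
  obtain ⟨E, hE⟩ : ∃ E, 2 * N ^ 3 / 27 = N + E + N ^ 3 / (10 ^ 4 * M) :=
    ⟨2 * N ^ 3 / 27 - N - N ^ 3 / (10 ^ 4 * M), by
      generalize N ^ 3 / (10 ^ 4 * M) = y at *
      generalize N ^ 3 / (10 ^ 5 * M) = y' at *
      omega⟩
  have key := cover (t := {m | m ∈ Finset.Icc 1 (2 ^ N) ∧ ¬2 ^ (N - N / M) ∣ m})
    ((Finset.finite_toSet _).subset fun _ h => h.1)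
    (fun m => cl '' {G | Group.IsSolvable G ∧ Nat.card G = m}) (2 ^ E) ?_
    (cl '' {G | Finite G ∧ Group.IsSolvable G ∧ Nat.card G ≤ 2 ^ N ∧
      ¬2 ^ (N - N / M) ∣ Nat.card G}) ?_
  · have h3 : {m | m ∈ Finset.Icc 1 (2 ^ N) ∧ ¬2 ^ (N - N / M) ∣ m}.ncard ≤ 2 ^ N := by
      refine (Set.ncard_le_ncard (t := (Finset.Icc 1 (2 ^ N) : Finset ℕ)) (fun _ h => h.1)
        (Finset.finite_toSet _)).trans ?_
      rw [Set.ncard_coe_finset, Nat.card_Icc, Nat.add_sub_cancel]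
    rw [hE, pow_add, pow_add]
    exact Nat.mul_le_mul_right _ (key.2.trans (Nat.mul_le_mul_right _ h3))
  · rintro m ⟨hm, hd⟩
    obtain ⟨hm1, hm2⟩ := Finset.mem_Icc.1 hm
    obtain ⟨k1, k2⟩ := count_order hm1 hm2
    refine ⟨k1, k2.trans ?_⟩
    have k3 := h2 N (by omega) m hm2
    obtain ⟨a, u, hu, rfl⟩ := Nat.exists_eq_two_pow_mul_odd (Nat.one_le_iff_ne_zero.1 hm1)
    have ha : a < N - N / M := lt_of_not_ge fun h => hd ((pow_dvd_pow 2 h).mul_right u)
    obtain ⟨c, hc⟩ : ∃ c, N = a + c := Nat.exists_eq_add_of_le (ha.le.trans (Nat.sub_le _ _))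
    have hu' : u ≤ 2 ^ c := by
      rw [hc, pow_add] at hm2
      exact Nat.le_of_mul_le_mul_left hm2 (by positivity)
    have hcM : N ≤ c * M := ((Nat.div_lt_iff_lt_mul hM).1 (by
      generalize N / M = y at ha ⊢
      omega)).le
    have k4 := S64CFam1_prod hu (hg a (by omega)) (odd_part hu hu')
    have k5 := S64CFam1_num hM hc hcM hN0
    have k6 : N * N * (1 + 4 * (2 ^ a * u).primeFactors.card) ≤
        N * N * (1 + 4 * (N / (10 ^ 5 * M))) := Nat.mul_le_mul_left _ (by omega)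
    refine (Nat.mul_le_mul_right _ k4).trans ?_
    rw [← pow_add]
    exact Nat.pow_le_pow_right two_pos (by omega)
  · rintro _ ⟨G, ⟨g1, g2, g3, g4⟩, rfl⟩
    exact ⟨Nat.card G, ⟨Finset.mem_Icc.2 ⟨Nat.card_pos, g3⟩, g4⟩, G, ⟨g2, rfl⟩, rfl⟩

end Pool.Agent.Lib.MP_2d211a_co.S64
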