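import Pool.Agent.Lib.MP_2d211a_co.S17EOrd
import Pool.Agent.Lib.MP_2d211a_co.S64CFam1

/-!
Tame overgroups of small index of a 2-group.
-/

namespace Pool.Agent.Lib.MP_2d211a_co.S64

open Subgroup H60 CategoryTheory

variable {c : ℕ} {S : Set GrpCat.{0}}

theorem S17EExt_card {b : ℕ} {B : Set Cls} (hB : B ⊆ cl '' {G | Nat.card G = 2 ^ b}) {H : Type}
    [Group H] (h : cl (GrpCat.of H) ∈ B) : Nat.card H = 2 ^ b := by
  obtain ⟨A, hA, e⟩ := hB h
  obtain ⟨φ⟩ := cl_eq.1 e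
  exact (Nat.card_congr φ.toEquiv).symm.trans hA

theorem S17EExt_cell (h : Thin c S) {N t b w j u : ℕ} (hb : 0 < b) (B : Set Cls)
    (hB : B ⊆ cl '' {G | Nat.card G = 2 ^ b}) (hu : Odd u) (hj : j ≤ t) (hut : u ≤ 2 ^ t)
    (hN : 2 ^ (b + j) * u ≤ 2 ^ N) (hw : (2 ^ (b + j) * u).primeFactors.card ≤ w) :
    (cl '' {G | Tame S G ∧ Nat.card G = 2 ^ (b + j) * u ∧
      ∃ O : Subgroup G, cl (GrpCat.of O) ∈ B}).ncard ≤
      B.ncard * 2 ^ (t * (N * N + N) + t * (t ^ 2 / 14 + 1) + (c + 6) * N * N * (1 + w)) := by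
  have hu0 : u ≠ 0 := hu.pos.ne'
  have hm : 0 < 2 ^ (b + j) * u := Nat.mul_pos (by positivity) hu.pos
  have h2 : ¬2 ∣ u := hu.not_two_dvd_nat
  have h2' : 2 ∉ u.primeFactors := fun h => h2 (Nat.dvd_of_mem_primeFactors h)
  have hf : (2 ^ (b + j) * u).factorization = Finsupp.single 2 (b + j) + u.factorization := by
    rw [Nat.factorization_mul (by positivity) hu0, Nat.prime_two.factorization_pow]
  have hp : (2 ^ (b + j) * u).primeFactors = insert 2 u.primeFactors := by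
    rw [Nat.primeFactors_mul (by positivity) hu0,
      Nat.primeFactors_prime_pow (by omega) Nat.prime_two, Finset.insert_eq]
  have ha : b + j ≤ N := (Nat.pow_le_pow_iff_right one_lt_two).1
    ((Nat.le_mul_of_pos_right _ hu.pos).trans hN)
  let Sy : ℕ → Set Cls := fun p => if p = 2 then
    cl '' {P | Nat.card P = 2 ^ (b + j) ∧ ∃ F : Subgroup P, cl (GrpCat.of F) ∈ B}
    else cl '' {P | Nat.card P = p ^ u.factorization p}
  have k1 := count_tame h hm hN Sy fun p hp' => by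
    by_cases e : p = 2
    · simp only [Sy, if_pos e]
      exact (all_fin Nat.prime_two (b + j)).subset (Set.image_mono fun _ h => h.1)
    · simp only [Sy, if_neg e]
      exact all_fin (Nat.prime_of_mem_primeFactors hp') _
  have k2 : ∏ p ∈ (2 ^ (b + j) * u).primeFactors, (Sy p).ncard ≤
      B.ncard * 2 ^ (t * (N * N + N)) * 2 ^ (t * (t ^ 2 / 14 + 1)) := by
    rw [hp, Finset.prod_insert h2']
    refine Nat.mul_le_mul ?_ (le_trans (Finset.prod_le_prod' fun p hp' => ?_) (odd_part hu hut))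
    · simp only [Sy, if_true]
      exact (over_le b j B hB).trans (Nat.mul_le_mul_left _ (Nat.pow_le_pow_right two_pos
        (Nat.mul_le_mul hj (Nat.add_le_add (Nat.mul_le_mul ha ha) ha))))
    · have e : p ≠ 2 := fun e => h2' (e ▸ hp')
      simp only [Sy, if_neg e]
      exact hig_up (Nat.prime_of_mem_primeFactors hp') _
  refine (Set.ncard_le_ncard (Set.image_mono ?_)
    ((ord_fin hm).subset (Set.image_mono fun _ h => h.2.1))).trans (k1.trans ?_)
  · rintro G ⟨g1, g2, O, g3⟩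
    refine ⟨g1, g2, fun p hp' => ?_⟩
    have := Fact.mk (Nat.prime_of_mem_primeFactors hp')
    have : Finite G := Nat.finite_of_card_ne_zero (g2 ▸ hm.ne')
    by_cases e : p = 2
    · subst e
      obtain ⟨R, hR⟩ := (IsPGroup.of_card (p := 2) (S17EExt_card hB g3)).exists_le_sylow
      refine ⟨R, ?_⟩
      simp only [Sy, if_true]
      refine ⟨GrpCat.of R, ⟨?_, O.subgroupOf R, ?_⟩, rfl⟩
      · refine (R.card_eq_multiplicity).trans ?_
        rw [g2, hf, Finsupp.add_apply, Finsupp.single_eq_same,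
          Nat.factorization_eq_zero_of_not_dvd h2, add_zero]
      · have e : cl (GrpCat.of (O.subgroupOf R)) = cl (GrpCat.of O) :=
          cl_eq.2 ⟨subgroupOfEquivOfLe hR⟩
        exact e ▸ g3
    · obtain ⟨R⟩ : Nonempty (Sylow p G) := inferInstance
      refine ⟨R, ?_⟩
      simp only [Sy, if_neg e]
      refine ⟨GrpCat.of R, (R.card_eq_multiplicity).trans ?_, rfl⟩
      rw [g2, hf, Finsupp.add_apply, Finsupp.single_eq_of_ne e, zero_add]
  · rw [pow_add 2 (t * (N * N + N) + _), pow_add 2 (t * (N * N + N)), ← mul_assoc B.ncard,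
      ← mul_assoc B.ncard]
    exact Nat.mul_le_mul k2 (Nat.pow_le_pow_right two_pos
      (Nat.mul_le_mul_left _ (Nat.add_le_add_left hw 1)))

theorem ext_tame (h : Thin c S) {N t b w : ℕ} (hb : 0 < b) (B : Set Cls)
    (hB : B ⊆ cl '' {G | Nat.card G = 2 ^ b})
    (hw : ∀ m : ℕ, m ≤ 2 ^ N → m.primeFactors.card ≤ w) :
    (cl '' {G | Finite G ∧ Tame S G ∧ Nat.card G ≤ 2 ^ N ∧
      ∃ O : Subgroup G, O.index ≤ 2 ^ t ∧ cl (GrpCat.of O) ∈ B}).Finite ∧
    (cl '' {G | Finite G ∧ Tame S G ∧ Nat.card G ≤ 2 ^ N ∧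
      ∃ O : Subgroup G, O.index ≤ 2 ^ t ∧ cl (GrpCat.of O) ∈ B}).ncard ≤
      B.ncard * 2 ^ (N + t * (N * N + N) + t * (t ^ 2 / 14 + 1) + (c + 6) * N * N * (1 + w)) := by
  have key := cover (Finset.finite_toSet (Finset.Icc 1 (2 ^ N)))
    (fun m => cl '' {G | Tame S G ∧ Nat.card G = m ∧
      ∃ O : Subgroup G, O.index ≤ 2 ^ t ∧ cl (GrpCat.of O) ∈ B})
    (B.ncard * 2 ^ (t * (N * N + N) + t * (t ^ 2 / 14 + 1) + (c + 6) * N * N * (1 + w))) ?_
    (cl '' {G | Finite G ∧ Tame S G ∧ Nat.card G ≤ 2 ^ N ∧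
      ∃ O : Subgroup G, O.index ≤ 2 ^ t ∧ cl (GrpCat.of O) ∈ B}) ?_
  · refine ⟨key.1, key.2.trans (le_of_eq ?_)⟩
    rw [Set.ncard_coe_finset, Nat.card_Icc, Nat.add_sub_cancel, add_assoc N, add_assoc N,
      pow_add 2 N, mul_left_comm]
  · intro m hm
    obtain ⟨hm1, hm2⟩ := Finset.mem_Icc.1 hm
    refine ⟨(ord_fin hm1).subset (Set.image_mono fun _ h => h.2.1), ?_⟩
    rcases Set.eq_empty_or_nonempty {G : GrpCat.{0} | Tame S G ∧ Nat.card G = m ∧
      ∃ O : Subgroup G, O.index ≤ 2 ^ t ∧ cl (GrpCat.of O) ∈ B} with e | ⟨G, -, g2, O, g3, g4⟩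
    · rw [e, Set.image_empty, Set.ncard_empty]
      exact Nat.zero_le _
    have e1 := O.card_mul_index
    rw [S17EExt_card hB g4, g2] at e1
    have h0 : O.index ≠ 0 := fun e => by
      rw [e, mul_zero] at e1
      omega
    obtain ⟨j, u, hu, e2⟩ := Nat.exists_eq_two_pow_mul_odd h0
    rw [e2] at g3
    rw [e2, ← mul_assoc, ← pow_add] at e1
    subst e1
    refine (Set.ncard_le_ncard (Set.image_mono ?_) ((ord_fin hm1).subset
      (Set.image_mono fun _ h => h.2.1))).trans (S17EExt_cell h hb B hB hu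
        ((Nat.pow_le_pow_iff_right one_lt_two).1 ((Nat.le_mul_of_pos_right _ hu.pos).trans g3))
        ((Nat.le_mul_of_pos_left _ (by positivity)).trans g3) hm2 (hw _ hm2))
    rintro G' ⟨g1, g2, O', -, g5⟩
    exact ⟨g1, g2, O', g5⟩
  · rintro _ ⟨G, ⟨g1, g2, g3, g4⟩, rfl⟩
    exact ⟨Nat.card G, Finset.mem_coe.2 (Finset.mem_Icc.2 ⟨Nat.card_pos, g3⟩), G,
      ⟨g2, rfl, g4⟩, rfl⟩

end Pool.Agent.Lib.MP_2d211a_co.S64
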