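import Pool.Agent.Lib.MP_2d211a_co.S17EOrd
import Pool.Agent.Lib.MP_2d211a_co.S64CFam1

/-!
Tame groups with a small Sylow 2-subgroup.
-/

namespace Pool.Agent.Lib.MP_2d211a_co.S64

open Subgroup H60 CategoryTheory

variable {c : ℕ} {S : Set GrpCat.{0}}

theorem S17EFam1_ord (h : Thin c S) {m N : ℕ} (hm : 0 < m) (hN : m ≤ 2 ^ N) :
    (cl '' {G | Tame S G ∧ Nat.card G = m}).Finite ∧
    (cl '' {G | Tame S G ∧ Nat.card G = m}).ncard ≤
      (∏ p ∈ m.primeFactors, gnu (p ^ m.factorization p)) *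
        2 ^ ((c + 6) * N * N * (1 + m.primeFactors.card)) := by
  refine ⟨(ord_fin hm).subset (Set.image_mono fun G hG => hG.2), le_trans (Set.ncard_le_ncard
    (Set.image_mono ?_) ((ord_fin hm).subset (Set.image_mono fun G hG => hG.2.1)))
    (count_tame h hm hN (fun p => cl '' {G | Nat.card G = p ^ m.factorization p})
      fun p hp => all_fin (Nat.prime_of_mem_primeFactors hp) _)⟩
  rintro G ⟨h1, h2⟩
  have : Finite G := Nat.finite_of_card_ne_zero (h2.symm ▸ hm.ne')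
  refine ⟨h1, h2, fun p hp => ?_⟩
  have : Fact p.Prime := ⟨Nat.prime_of_mem_primeFactors hp⟩
  exact ⟨default, _, h2 ▸ Sylow.card_eq_multiplicity _, rfl⟩

theorem fam_one' (h : Thin c S) (hs : SimsLe) (M : ℕ) (hM : 0 < M) :
    ∃ K n₀ : ℕ, 0 < K ∧ ∀ N ≥ n₀,
    (cl '' {G | Finite G ∧ Tame S G ∧ Nat.card G ≤ 2 ^ N ∧
      ¬2 ^ (N - N / M) ∣ Nat.card G}).ncard * 2 ^ (N ^ 3 / K) ≤ 2 ^ (2 * N ^ 3 / 27) := by
  obtain ⟨n₁, h1⟩ := hs (10 ^ 5 * M) (by positivity)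
  obtain ⟨n₂, h2⟩ := omega_small (10 ^ 5 * M * (c + 6)) (by positivity)
  refine ⟨10 ^ 4 * M, n₂ + 500 * M * (n₁ ^ 3 + 3) + 10 ^ 5 * M * (c + 6), by positivity, fun N hN => ?_⟩
  have hN0 : 500 * M * (n₁ ^ 3 + 3) ≤ N := by omega
  have hg : ∀ a ≤ N, gnu (2 ^ a) ≤ 2 ^ (2 * a ^ 3 / 27 + N ^ 3 / (10 ^ 5 * M) + n₁ ^ 3) := by
    intro a ha
    rcases lt_or_ge a n₁ with h | h
    · refine (hig_up Nat.prime_two a).trans (Nat.pow_le_pow_right two_pos ?_)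
      exact ((Nat.choose_le_pow _ _).trans (Nat.pow_le_pow_left h 3)).trans (Nat.le_add_left _ _)
    · refine (h1 a h).trans (Nat.pow_le_pow_right two_pos ?_)
      have := Nat.div_le_div_right (c := 10 ^ 5 * M) (Nat.pow_le_pow_left ha 3)
      omega
  have hz := S64CFam1_num (a := 0) hM (zero_add N).symm (Nat.le_mul_of_pos_right N hM) hN0
  obtain ⟨E, hE⟩ : ∃ E, 2 * N ^ 3 / 27 = N + E + N ^ 3 / (10 ^ 4 * M) :=
    ⟨2 * N ^ 3 / 27 - N - N ^ 3 / (10 ^ 4 * M), by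
      generalize N ^ 3 / (10 ^ 4 * M) = y at *
      generalize N ^ 3 / (10 ^ 5 * M) = y' at *
      omega⟩
  have key := cover (t := {m | m ∈ Finset.Icc 1 (2 ^ N) ∧ ¬2 ^ (N - N / M) ∣ m})
    ((Finset.finite_toSet _).subset fun _ h => h.1)
    (fun m => cl '' {G | Tame S G ∧ Nat.card G = m}) (2 ^ E) ?_
    (cl '' {G | Finite G ∧ Tame S G ∧ Nat.card G ≤ 2 ^ N ∧
      ¬2 ^ (N - N / M) ∣ Nat.card G}) ?_
  · have h3 : {m | m ∈ Finset.Icc 1 (2 ^ N) ∧ ¬2 ^ (N - N / M) ∣ m}.ncard ≤ 2 ^ N := by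
      refine (Set.ncard_le_ncard (t := (Finset.Icc 1 (2 ^ N) : Finset ℕ)) (fun _ h => h.1)
        (Finset.finite_toSet _)).trans ?_
      rw [Set.ncard_coe_finset, Nat.card_Icc, Nat.add_sub_cancel]
    rw [hE, pow_add, pow_add]
    exact Nat.mul_le_mul_right _ (key.2.trans (Nat.mul_le_mul_right _ h3))
  · rintro m ⟨hm, hd⟩
    obtain ⟨hm1, hm2⟩ := Finset.mem_Icc.1 hm
    obtain ⟨k1, k2⟩ := S17EFam1_ord h hm1 hm2
    refine ⟨k1, k2.trans ?_⟩
    have k3 := h2 N (by omega) m hm2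
    obtain ⟨a, u, hu, rfl⟩ := Nat.exists_eq_two_pow_mul_odd (Nat.one_le_iff_ne_zero.1 hm1)
    have ha : a < N - N / M := lt_of_not_ge fun h => hd ((pow_dvd_pow 2 h).mul_right u)
    obtain ⟨e, hc⟩ : ∃ e, N = a + e := Nat.exists_eq_add_of_le (ha.le.trans (Nat.sub_le _ _))
    have hu' : u ≤ 2 ^ e := by
      rw [hc, pow_add] at hm2
      exact Nat.le_of_mul_le_mul_left hm2 (by positivity)
    have hcM : N ≤ e * M := ((Nat.div_lt_iff_lt_mul hM).1 (by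
      generalize N / M = y at ha ⊢
      omega)).le
    have k4 := S64CFam1_prod hu (hg a (by omega)) (odd_part hu hu')
    have k5 := S64CFam1_num hM hc hcM hN0
    have k6 : (c + 6) * N * N * (1 + (2 ^ a * u).primeFactors.card) ≤
        N * N * (1 + 4 * (N / (10 ^ 5 * M))) := by
      have l1 : c + 6 ≤ N / (10 ^ 5 * M) :=
        (Nat.le_div_iff_mul_le (by positivity)).2 (by rw [mul_comm]; omega)
      have l2 : (2 ^ a * u).primeFactors.card * (c + 6) ≤ N / (10 ^ 5 * M) := by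
        rw [← Nat.div_div_eq_div_mul] at k3
        exact (Nat.le_div_iff_mul_le (by omega)).1 k3
      calc _ = N * N * (c + 6 + (2 ^ a * u).primeFactors.card * (c + 6)) := by ring
        _ ≤ _ := Nat.mul_le_mul_left _ (by omega)
    refine (Nat.mul_le_mul_right _ k4).trans ?_
    rw [← pow_add]
    exact Nat.pow_le_pow_right two_pos (by omega)
  · rintro _ ⟨G, ⟨g1, g2, g3, g4⟩, rfl⟩
    exact ⟨Nat.card G, ⟨Finset.mem_Icc.2 ⟨Nat.card_pos, g3⟩, g4⟩, G, ⟨g2, rfl⟩, rfl⟩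

end Pool.Agent.Lib.MP_2d211a_co.S64
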