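import Pool.Agent.Lib.MP_2d211a_co.S64CGL
import Pool.Agent.Lib.MP_2d211a_co.S64CAut

/-!
Coprime action on a solvable group.
-/

namespace Pool.Agent.Lib.MP_2d211a_co.S64

open Subgroup H60 CategoryTheory

/-- A nontrivial finite solvable group has a nontrivial characteristic elementary abelian
subgroup. -/
theorem S64CCop_char {Q : Type} [Group Q] [Finite Q] [Group.IsSolvable Q] [Nontrivial Q] :
    ∃ V : Subgroup Q, V.Characteristic ∧ V ≠ ⊥ ∧ (∀ a ∈ V, ∀ b ∈ V, a * b = b * a) ∧
      ∃ q : ℕ, q.Prime ∧ q ∣ Nat.card Q ∧ ∀ v ∈ V, v ^ q = 1 := by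
  classical
  have hs : ∃ n, derivedSeries Q n = ⊥ := Group.IsSolvable.solvable
  have h0 : Nat.find hs ≠ 0 := by
    intro h
    have h1 := Nat.find_spec hs
    rw [h, derivedSeries_zero] at h1
    exact top_ne_bot h1
  obtain ⟨n, hn⟩ := Nat.exists_eq_succ_of_ne_zero h0
  have h1 : derivedSeries Q (n + 1) = ⊥ := by
    have h1 := Nat.find_spec hs
    rwa [hn] at h1
  have h2 : derivedSeries Q n ≠ ⊥ := Nat.find_min hs (by omega)
  have hc : (derivedSeries Q n).Characteristic := inferInstance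
  rw [derivedSeries_succ, commutator_eq_bot_iff_le_centralizer] at h1
  generalize derivedSeries Q n = D at h1 h2 hc
  have hcomm : ∀ a ∈ D, ∀ b ∈ D, a * b = b * a := fun a ha b hb =>
    (mem_centralizer_iff.1 (h1 hb)) a ha
  have h3 : Nat.card D ≠ 1 := fun h => h2 (card_eq_one.1 h)
  obtain ⟨q, hq, hqd⟩ := Nat.exists_prime_and_dvd h3
  have : Fact q.Prime := ⟨hq⟩
  obtain ⟨x, hx⟩ := exists_prime_orderOf_dvd_card' q hqd
  let V : Subgroup Q :=
    { carrier := {a | a ∈ D ∧ a ^ q = 1}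
      mul_mem' := fun {a b} ha hb => ⟨D.mul_mem ha.1 hb.1, by
        rw [Commute.mul_pow (hcomm a ha.1 b hb.1), ha.2, hb.2, one_mul]⟩
      one_mem' := ⟨D.one_mem, one_pow q⟩
      inv_mem' := fun {a} ha => ⟨D.inv_mem ha.1, by rw [inv_pow, ha.2, inv_one]⟩ }
  have hV : ∀ a, a ∈ V ↔ a ∈ D ∧ a ^ q = 1 := fun _ => Iff.rfl
  refine ⟨V, ?_, ?_, fun a ha b hb => hcomm a ha.1 b hb.1, q, hq,
    hqd.trans (card_subgroup_dvd_card D), fun v hv => hv.2⟩
  · refine characteristic_iff_le_comap.2 fun α a ha => ?_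
    rw [mem_comap, hV]
    refine ⟨characteristic_iff_le_comap.1 hc α ha.1, ?_⟩
    rw [← map_pow, ha.2, map_one]
  · intro h
    have h4 : (x : Q) ∈ V := ⟨x.2, by
      have h5 : x ^ q = 1 := by rw [← hx]; exact pow_orderOf_eq_one x
      exact_mod_cast congrArg Subtype.val h5⟩
    rw [h, mem_bot] at h4
    have h6 : x = 1 := Subtype.ext h4
    rw [h6, orderOf_one] at hx
    exact hq.one_lt.ne hx

/-- The action of the automorphisms on the quotient by a characteristic subgroup. -/
def S64CCop_quo {Q : Type} [Group Q] (V : Subgroup Q) [hV : V.Characteristic] :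
    MulAut Q →* MulAut (Q ⧸ V) where
  toFun α := QuotientGroup.congr V V α (characteristic_iff_map_eq.1 hV α)
  map_one' := by
    ext x
    obtain ⟨x, rfl⟩ := QuotientGroup.mk_surjective x
    rfl
  map_mul' α β := by
    ext x
    obtain ⟨x, rfl⟩ := QuotientGroup.mk_surjective x
    rfl

theorem S64CCop_quo_mk {Q : Type} [Group Q] (V : Subgroup Q) [V.Characteristic] (α : MulAut Q)
    (x : Q) : S64CCop_quo V α (x : Q ⧸ V) = (α x : Q ⧸ V) := rfl

/-- An automorphism that is trivial on `V` and on the quotient has order dividing `q`. -/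
theorem S64CCop_pow {Q : Type} [Group Q] (V : Subgroup Q) [V.Characteristic] {q : ℕ}
    (hq : ∀ v ∈ V, v ^ q = 1) (α : MulAut Q) (h1 : MulAut.characteristic V α = 1)
    (h2 : S64CCop_quo V α = 1) : α ^ q = 1 := by
  have k1 : ∀ v ∈ V, α v = v := fun v hv =>
    congrArg Subtype.val (DFunLike.congr_fun h1 (⟨v, hv⟩ : V))
  ext x
  have k2 : x⁻¹ * α x ∈ V := by
    have k := DFunLike.congr_fun h2 (x : Q ⧸ V)
    rw [S64CCop_quo_mk] at k
    exact QuotientGroup.eq.1 k.symm
  have k3 : ∀ k : ℕ, (α ^ k) x = x * (x⁻¹ * α x) ^ k := by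
    intro k
    induction k with
    | zero => simp
    | succ k ih =>
      rw [pow_succ', MulAut.mul_apply, ih, map_mul, k1 _ (V.pow_mem k2 k), pow_succ',
        ← mul_assoc, mul_inv_cancel_left]
  rw [k3, hq _ k2, mul_one, MulAut.one_apply]

theorem S64CCop_ind {p : ℕ} (hp : p.Prime) (n : ℕ) :
    ∀ (Q : Type) [Group Q] [Finite Q] [Group.IsSolvable Q], Nat.card Q = n → ¬p ∣ Nat.card Q →
      ∀ (R : Type) [Group R] [Finite R], IsPGroup p R → ∀ φ : R →* MulAut Q,
        Function.Injective φ → Nat.card R ≤ Nat.card Q ^ 3 := by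
  induction n using Nat.strong_induction_on with
  | _ n ih =>
    intro Q _ _ _ hn hQ R _ _ hR φ hφ
    rcases subsingleton_or_nontrivial Q with hs | hs
    · have h1 : Subsingleton (MulAut Q) := ⟨fun a b => MulEquiv.ext fun x => Subsingleton.elim _ _⟩
      have h2 : Subsingleton R := hφ.subsingleton
      have h3 : Nat.card R ≤ 1 := Finite.card_le_one_iff_subsingleton.2 h2
      exact h3.trans (Nat.one_le_pow _ _ Nat.card_pos)
    obtain ⟨V, hVc, hVb, hcomm, q, hq, hqd, hqV⟩ := S64CCop_char (Q := Q)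
    have hpq : p ≠ q := fun h => hQ (h ▸ hqd)
    have hcard : Nat.card Q = Nat.card (Q ⧸ V) * Nat.card V :=
      card_eq_card_quotient_mul_card_subgroup V
    have hV1 : 1 < Nat.card V := (one_lt_card_iff_ne_bot V).2 hVb
    have hlt : Nat.card (Q ⧸ V) < n := by
      rw [← hn, hcard]
      exact lt_mul_of_one_lt_right Nat.card_pos hV1
    let f1 : R →* MulAut V := (MulAut.characteristic V).comp φ
    let f2 : R →* MulAut (Q ⧸ V) := (S64CCop_quo V).comp φ
    have b1 : Nat.card f1.range ≤ Nat.card V ^ 3 :=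
      card_le_elem hp hq hpq (fun a b => Subtype.ext (hcomm a a.2 b b.2))
        (fun v => Subtype.ext (by rw [coe_pow, hqV v v.2, coe_one]))
        (hR.of_surjective f1.rangeRestrict f1.rangeRestrict_surjective) f1.range.subtype
        f1.range.subtype_injective
    have b2 : Nat.card f2.range ≤ Nat.card (Q ⧸ V) ^ 3 :=
      ih _ hlt (Q ⧸ V) rfl (fun h => hQ (hcard ▸ h.mul_right _)) f2.range
        (hR.of_surjective f2.rangeRestrict f2.rangeRestrict_surjective) f2.range.subtype
        f2.range.subtype_injective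
    have hinj : Function.Injective (f2.rangeRestrict.prod f1.rangeRestrict) := by
      rw [injective_iff_map_eq_one]
      intro r hr
      have k1 : MulAut.characteristic V (φ r) = 1 := congrArg (fun z => z.2.1) hr
      have k2 : S64CCop_quo V (φ r) = 1 := congrArg (fun z => z.1.1) hr
      have k3 : r ^ q = 1 := by
        apply hφ
        rw [map_pow, map_one]
        exact S64CCop_pow V hqV _ k1 k2
      obtain ⟨k, hk⟩ := hR r
      have k4 : Nat.Coprime (p ^ k) q := ((Nat.coprime_primes hp hq).2 hpq).pow_left k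
      have k5 : orderOf r ∣ 1 := by
        rw [← k4]
        exact Nat.dvd_gcd (orderOf_dvd_of_pow_eq_one hk) (orderOf_dvd_of_pow_eq_one k3)
      exact orderOf_eq_one_iff.1 (Nat.dvd_one.1 k5)
    have b3 := Nat.card_le_card_of_injective _ hinj
    rw [Nat.card_prod] at b3
    rw [hcard, mul_pow]
    exact b3.trans (Nat.mul_le_mul b2 b1)

theorem card_le_cop {p : ℕ} (hp : p.Prime) {Q : Type} [Group Q] [Finite Q] [Group.IsSolvable Q]
    (hQ : ¬p ∣ Nat.card Q) {R : Type} [Group R] [Finite R] (hR : IsPGroup p R)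
    (φ : R →* MulAut Q) (hφ : Function.Injective φ) : Nat.card R ≤ Nat.card Q ^ 3 := by
  exact S64CCop_ind hp _ Q rfl hQ R hR φ hφ

theorem card_hom_cop {p : ℕ} (hp : p.Prime) {Q : Type} [Group Q] [Finite Q] [Group.IsSolvable Q]
    (hQ : ¬p ∣ Nat.card Q) {R : Type} [Group R] [Finite R] (hR : IsPGroup p R) {N : ℕ}
    (h1 : Nat.card Q ≤ 2 ^ N) (h2 : Nat.card R ≤ 2 ^ N) :
    Nat.card (R →* MulAut Q) ≤ 2 ^ (4 * N * N) := by
  classical
  have : Fact p.Prime := ⟨hp⟩
  have : Fintype (Sylow p (MulAut Q)) := Fintype.ofFinite _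
  have : ∀ S : Sylow p (MulAut Q), Finite (R →* (S : Subgroup (MulAut Q))) :=
    fun S => (card_hom_le h2).1
  have hsurj : Function.Surjective
      (fun z : Σ S : Sylow p (MulAut Q), (R →* (S : Subgroup (MulAut Q))) =>
        (z.1 : Subgroup (MulAut Q)).subtype.comp z.2) := by
    intro f
    obtain ⟨S, hS⟩ := IsPGroup.exists_le_sylow
      (hR.of_surjective f.rangeRestrict f.rangeRestrict_surjective)
    exact ⟨⟨S, f.codRestrict _ fun r => hS ⟨r, rfl⟩⟩, MonoidHom.ext fun _ => rfl⟩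
  have b1 := Nat.card_le_card_of_surjective _ hsurj
  rw [Nat.card_sigma] at b1
  have b2 : ∀ S : Sylow p (MulAut Q),
      Nat.card (R →* (S : Subgroup (MulAut Q))) ≤ 2 ^ (3 * N * N) := by
    intro S
    have k1 := card_le_cop hp hQ S.isPGroup' (S : Subgroup (MulAut Q)).subtype
      (subtype_injective _)
    have k2 : Nat.card (S : Subgroup (MulAut Q)) ≤ (2 ^ N) ^ 3 :=
      k1.trans (Nat.pow_le_pow_left h1 3)
    refine (card_hom_le h2).2.trans ((Nat.pow_le_pow_left k2 N).trans (le_of_eq ?_))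
    rw [← pow_mul, ← pow_mul]
    congr 1
    ring
  have b3 : Nat.card (Sylow p (MulAut Q)) ≤ 2 ^ (N * N) := by
    obtain ⟨S⟩ : Nonempty (Sylow p (MulAut Q)) := inferInstance
    exact (Nat.le_of_dvd Nat.card_pos
      (S.card_dvd_index.trans (index_dvd_card _))).trans (card_aut_le h1)
  have b4 := Finset.sum_le_card_nsmul Finset.univ _ _ fun S _ => b2 S
  rw [Finset.card_univ, ← Nat.card_eq_fintype_card, smul_eq_mul] at b4
  refine b1.trans (b4.trans ((Nat.mul_le_mul_right _ b3).trans (le_of_eq ?_)))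
  rw [← pow_add]
  congr 1
  ring

end Pool.Agent.Lib.MP_2d211a_co.S64
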