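import Pool.Agent.Lib.MP_2d211a_co.S17EChi
import Pool.Agent.Lib.MP_2d211a_co.S17EAut
import Pool.Agent.Lib.MP_2d211a_co.S64CCop

/-!
The index of the largest normal 2-subgroup.
-/

namespace Pool.Agent.Lib.MP_2d211a_co.S64

open Subgroup H60 CategoryTheory

variable {c : ℕ} {S : Set GrpCat.{0}}

theorem exists_O2' (h : Thin c S) (G : Type) [Group G] [Finite G] (hG : Tame S G) {a u : ℕ}
    (hc : Nat.card G = 2 ^ a * u) (hu : Odd u) :
    ∃ O : Subgroup G, O.Characteristic ∧ IsPGroup 2 O ∧ O.index ≤ u ^ (c + 5) := by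
  obtain ⟨O, ⟨o1, o2⟩, hO⟩ := (Set.toFinite {O : Subgroup G | O.Normal ∧ IsPGroup 2 O}
    ).exists_maximal ⟨⊥, inferInstance, IsPGroup.of_bot⟩
  refine ⟨O, characteristic_iff_comap_le.2 fun e => ?_, o2, ?_⟩
  · have e1 : (O.comap e.toMonoidHom).Normal := o1.comap _
    exact le_sup_left.trans (hO ⟨inferInstance,
      (o2.comap_of_injective _ e.injective).to_sup_of_normal_right o2⟩ le_sup_right)
  have key : ∀ d, d ∣ Nat.card (G ⧸ O) → ¬2 ∣ d → d ≤ u := fun d h1 h2 =>
    Nat.le_of_dvd hu.pos (Nat.Coprime.dvd_of_dvd_mul_left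
      (((Nat.Prime.coprime_iff_not_dvd Nat.prime_two).2 h2).symm.pow_right a)
      (hc ▸ h1.trans O.card_quotient_dvd_card))
  obtain ⟨F, k, d, χ, f1, f2, f3, f4, -, f6⟩ :=
    exists_chi (G ⧸ O) (hG.of_surj _ (QuotientGroup.mk'_surjective O))
  obtain ⟨v, v1, v2, v3⟩ := semi_aut h f3
  obtain ⟨P⟩ : Nonempty (Sylow 2 F) := inferInstance
  have p1 : (P : Subgroup F).Characteristic := P.characteristic_of_normal inferInstance
  have p2 : ((P : Subgroup F).map F.subtype).comap (QuotientGroup.mk' O) ≤ O :=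
    hO ⟨inferInstance, (P.isPGroup'.map _).comap_of_ker_isPGroup _ (by
      rw [QuotientGroup.ker_mk']; exact o2)⟩
      ((QuotientGroup.ker_mk' O).ge.trans (ker_le_comap _ _))
  have p3 : (P : Subgroup F) = ⊥ := by
    refine eq_bot_iff.2 fun x hx => ?_
    obtain ⟨g, hg⟩ := QuotientGroup.mk'_surjective O x
    have : g ∈ O := p2 (show _ ∈ map F.subtype _ from hg ▸ mem_map_of_mem F.subtype hx)
    exact mem_bot.2 (Subtype.ext (hg.symm.trans ((QuotientGroup.eq_one_iff g).2 this)))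
  have p4 : ¬2 ∣ Nat.card F := by
    have := P.not_dvd_index
    rwa [p3, index_bot] at this
  obtain ⟨R⟩ : Nonempty (Sylow 2 (G ⧸ O)) := inferInstance
  let η := χ.comp (R : Subgroup (G ⧸ O)).subtype
  have r1 := card_le_cop Nat.prime_two p4 (R.isPGroup'.to_subgroup η.ker)
    ((MulAut.conjNormal (H := F)).comp ((R : Subgroup (G ⧸ O)).subtype.comp η.ker.subtype)) (by
      refine (injective_iff_map_eq_one _).2 fun r hr => ?_
      have a1 : (r.1 : G ⧸ O) ∈ F := f6 ⟨fun y hy => by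
        have := congrArg (fun e : MulAut F => (e ⟨y, hy⟩ : G ⧸ O)) hr
        exact (mul_inv_eq_iff_eq_mul.1 this).symm, r.2⟩
      obtain ⟨k, hk⟩ := R.isPGroup' r.1
      have a2 : orderOf (r.1 : G ⧸ O) ∣ 2 ^ k :=
        orderOf_dvd_of_pow_eq_one (congrArg Subtype.val hk)
      have a3 := F.orderOf_dvd_natCard a1
      exact Subtype.ext (Subtype.ext (orderOf_eq_one_iff.1 (Nat.eq_one_of_dvd_coprimes
        (((Nat.Prime.coprime_iff_not_dvd Nat.prime_two).2 p4).pow_left k) a2 a3))))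
  have r2 := v3 2 Nat.prime_two η.range (R.isPGroup'.of_surjective _ η.rangeRestrict_surjective)
  rw [index_eq_card, ← (R : Subgroup (G ⧸ O)).card_mul_index, ← η.ker.card_mul_index, index_ker,
    show c + 5 = 3 + (c + 1) + 1 by omega, pow_succ, pow_add]
  exact Nat.mul_le_mul (Nat.mul_le_mul
    (r1.trans (Nat.pow_le_pow_left (key _ F.card_subgroup_dvd_card p4) 3))
    (r2.trans (Nat.pow_le_pow_left (key _ (v2.trans f4) v1.not_two_dvd_nat) _)))
    (key _ (R : Subgroup (G ⧸ O)).index_dvd_card R.not_dvd_index)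

end Pool.Agent.Lib.MP_2d211a_co.S64
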