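import Pool.Agent.Lib.MP_2d211a_co.S64CCop

/-!
A self-centralising nilpotent normal subgroup; the index of the largest normal 2-subgroup.
-/

namespace Pool.Agent.Lib.MP_2d211a_co.S64

open Subgroup H60 CategoryTheory

theorem exists_fit (G : Type) [Group G] [Finite G] [Group.IsSolvable G] : ∃ F : Subgroup G,
    F.Normal ∧ Group.IsNilpotent F ∧ centralizer (F : Set G) ≤ F := by
  obtain ⟨F, ⟨f1, f2⟩, hF⟩ := (Set.toFinite {F : Subgroup G | F.Normal ∧ Group.IsNilpotent F}
    ).exists_maximal ⟨⊥, inferInstance, inferInstance⟩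
  refine ⟨F, f1, f2, ?_⟩
  by_contra hC
  obtain ⟨B, ⟨b1, b2, b3⟩, hB⟩ := (Set.toFinite {B : Subgroup G | B.Normal ∧
    B ≤ centralizer (F : Set G) ∧ ¬B ≤ F}).exists_minimal ⟨_, inferInstance, le_rfl, hC⟩
  have c1 : ⁅B, B⁆ < B := Group.IsSolvable.commutator_lt_of_ne_bot fun e => b3 (e ▸ bot_le)
  have c2 : ⁅B, B⁆ ≤ F := by
    by_contra h
    exact c1.not_ge (hB ⟨inferInstance, c1.le.trans b2, h⟩ c1.le)
  have c3 : Group.IsNilpotent B := isNilpotent_of_lowerCentralSeries_eq_bot (n := 2) (by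
    refine le_bot_iff.1 ((commutator_mono c2 le_rfl).trans ?_)
    rw [commutator_comm, commutator_eq_bot_iff_le_centralizer.2 b2])
  have c4 : ∀ (b : B) (f : F), Commute (B.subtype b) (F.subtype f) := fun b f =>
    (b2 b.2 f f.2).symm
  have c5 := Group.nilpotent_of_surjective _
    (MonoidHom.noncommCoprod B.subtype F.subtype c4).rangeRestrict_surjective
  rw [MonoidHom.noncommCoprod_range, range_subtype, range_subtype] at c5
  exact b3 (le_sup_left.trans (hF ⟨inferInstance, c5⟩ le_sup_right))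

theorem exists_O2 (G : Type) [Group G] [Finite G] [Group.IsSolvable G] {a u : ℕ}
    (h : Nat.card G = 2 ^ a * u) (hu : Odd u) :
    ∃ O : Subgroup G, O.Normal ∧ IsPGroup 2 O ∧ O.index ≤ u ^ 4 := by
  obtain ⟨O, ⟨o1, o2⟩, hO⟩ := (Set.toFinite {O : Subgroup G | O.Normal ∧ IsPGroup 2 O}
    ).exists_maximal ⟨⊥, inferInstance, IsPGroup.of_bot⟩
  refine ⟨O, o1, o2, ?_⟩
  have key : ∀ d, d ∣ Nat.card (G ⧸ O) → ¬2 ∣ d → d ≤ u := fun d h1 h2 =>
    Nat.le_of_dvd hu.pos (Nat.Coprime.dvd_of_dvd_mul_left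
      (((Nat.Prime.coprime_iff_not_dvd Nat.prime_two).2 h2).symm.pow_right a)
      (h ▸ h1.trans O.card_quotient_dvd_card))
  obtain ⟨F, f1, f2, f3⟩ := exists_fit (G ⧸ O)
  obtain ⟨P⟩ : Nonempty (Sylow 2 F) := inferInstance
  have p1 : (P : Subgroup F).Characteristic := P.characteristic_of_normal inferInstance
  have p2 : ((P : Subgroup F).map F.subtype).comap (QuotientGroup.mk' O) ≤ O :=
    hO ⟨inferInstance, (P.isPGroup'.map _).comap_of_ker_isPGroup _ (by
      rw [QuotientGroup.ker_mk']; exact o2)⟩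
      ((QuotientGroup.ker_mk' O).ge.trans (ker_le_comap _ _))
  have p3 : (P : Subgroup F) = ⊥ := by
    refine eq_bot_iff.2 fun x hx => ?_
    obtain ⟨g, hg⟩ := QuotientGroup.mk'_surjective O x
    have : g ∈ O := p2 (show _ ∈ map F.subtype _ from hg ▸ mem_map_of_mem F.subtype hx)
    exact mem_bot.2 (Subtype.ext (hg.symm.trans ((QuotientGroup.eq_one_iff g).2 this)))
  have p4 : ¬2 ∣ Nat.card F := by
    have := P.not_dvd_index
    rwa [p3, index_bot] at this
  obtain ⟨R⟩ : Nonempty (Sylow 2 (G ⧸ O)) := inferInstance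
  have r1 := card_le_cop Nat.prime_two p4 R.isPGroup'
    ((MulAut.conjNormal (H := F)).comp (R : Subgroup (G ⧸ O)).subtype) (by
      refine (injective_iff_map_eq_one _).2 fun r hr => ?_
      have a1 : (r : G ⧸ O) ∈ F := f3 fun y hy => by
        have := congrArg (fun e : MulAut F => (e ⟨y, hy⟩ : G ⧸ O)) hr
        exact (mul_inv_eq_iff_eq_mul.1 this).symm
      obtain ⟨k, hk⟩ := R.isPGroup' r
      have a2 : orderOf (r : G ⧸ O) ∣ 2 ^ k := orderOf_dvd_of_pow_eq_one (congrArg Subtype.val hk)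
      have a3 := F.orderOf_dvd_natCard a1
      exact Subtype.ext (orderOf_eq_one_iff.1 (Nat.eq_one_of_dvd_coprimes
        (((Nat.Prime.coprime_iff_not_dvd Nat.prime_two).2 p4).pow_left k) a2 a3)))
  rw [index_eq_card, ← (R : Subgroup (G ⧸ O)).card_mul_index, pow_succ]
  exact Nat.mul_le_mul (r1.trans (Nat.pow_le_pow_left (key _ F.card_subgroup_dvd_card p4) 3))
    (key _ (R : Subgroup (G ⧸ O)).index_dvd_card R.not_dvd_index)

end Pool.Agent.Lib.MP_2d211a_co.S64
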