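import Pool.Agent.Lib.MP_2d211a_co.S64CExt
import Pool.Agent.Lib.MP_2d211a_co.S64CFit

/-!
Solvable groups with a large Sylow 2-subgroup.
-/

namespace Pool.Agent.Lib.MP_2d211a_co.S64

open Subgroup H60 CategoryTheory

theorem S64CFam2_char {G : Type} [Group G] [Finite G] {O : Subgroup G} (h1 : O.Normal)
    (h2 : IsPGroup 2 O) :
    ∃ O' : Subgroup G, O'.Characteristic ∧ IsPGroup 2 O' ∧ O'.index ≤ O.index := by
  obtain ⟨O', hO, hm⟩ := Finite.exists_le_maximal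
    (p := fun K : Subgroup G => K.Normal ∧ IsPGroup 2 K) (a := O) ⟨h1, h2⟩
  obtain ⟨n1, p1⟩ := hm.prop
  refine ⟨O', characteristic_iff_map_le.2 fun φ => ?_, p1,
    Nat.le_of_dvd (Nat.pos_of_ne_zero index_ne_zero_of_finite) (index_dvd_of_le hO)⟩
  have n2 : (O'.map φ.toMonoidHom).Normal := n1.map _ φ.surjective
  exact le_sup_right.trans (hm.le_of_ge
    ⟨inferInstance, IsPGroup.to_sup_of_normal_left p1 (p1.map _)⟩ le_sup_left)

theorem S64CFam2_sub {G : Type} [Group G] [Finite G] [Group.IsSolvable G] {N s : ℕ}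
    (h1 : Nat.card G ≤ 2 ^ N) (h2 : 2 ^ (N - s) ∣ Nat.card G) : ∃ (O : Subgroup G) (b : ℕ),
      O.Characteristic ∧ Nat.card O = 2 ^ b ∧ O.index ≤ 2 ^ (4 * s) ∧ N ≤ b + 5 * s ∧ b ≤ N := by
  have h0 : 0 < Nat.card G := Nat.card_pos
  obtain ⟨a, u, hu, e⟩ := Nat.exists_eq_two_pow_mul_odd h0.ne'
  obtain ⟨O₀, q1, q2, q3⟩ := exists_O2 G e hu
  obtain ⟨O, o1, o2, o3⟩ := S64CFam2_char q1 q2
  replace o3 := o3.trans q3
  have : Fact (Nat.Prime 2) := ⟨Nat.prime_two⟩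
  obtain ⟨b, hb⟩ := IsPGroup.iff_card.1 o2
  have h3 : 2 ^ (N - s) ∣ 2 ^ a := by
    rw [e] at h2
    exact (Nat.Coprime.pow_left _ (Nat.coprime_two_left.2 hu)).dvd_of_dvd_mul_right h2
  have h4 : N - s ≤ a := (Nat.pow_dvd_pow_iff_le_right (by norm_num)).1 h3
  have h5 : u ≤ 2 ^ s := by
    refine Nat.le_of_mul_le_mul_left ?_ (Nat.two_pow_pos a)
    rw [← e, ← pow_add]
    exact h1.trans (Nat.pow_le_pow_right (by norm_num) (by omega))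
  have h6 : O.index ≤ 2 ^ (4 * s) := by
    rw [mul_comm, pow_mul]
    exact o3.trans (Nat.pow_le_pow_left h5 4)
  have h7 := O.card_mul_index
  rw [hb] at h7
  have h8 : 2 ^ (N - s) ≤ 2 ^ (b + 4 * s) := by
    rw [pow_add]
    exact (Nat.le_of_dvd h0 h2).trans (h7 ▸ Nat.mul_le_mul_left _ h6)
  have h9 : 2 ^ b ≤ 2 ^ N := (Nat.le_of_dvd h0 ⟨_, h7.symm⟩).trans h1
  have h10 := (Nat.pow_le_pow_iff_right (by norm_num)).1 h8
  exact ⟨O, b, o1, hb, h6, by omega, (Nat.pow_le_pow_iff_right (by norm_num)).1 h9⟩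

theorem S64CFam2_cnt {x b N K₀ : ℕ} (h1 : N ≤ 2 * b) (h2 : b ≤ N)
    (h : x * 2 ^ (b ^ 3 / K₀) ≤ 2 ^ (2 * b ^ 3 / 27 + b ^ 3 / (K₀ * 1000))) :
    x ≤ 2 ^ (2 * N ^ 3 / 27 + N ^ 3 / K₀ / 1000 - N ^ 3 / K₀ / 16) := by
  have e1 : b ^ 3 ≤ N ^ 3 := Nat.pow_le_pow_left h2 3
  have e2 : N ^ 3 ≤ b ^ 3 * 16 := by
    have := Nat.pow_le_pow_left h1 3
    rw [mul_pow] at this
    omega
  have e3 : N ^ 3 / K₀ / 16 ≤ b ^ 3 / K₀ := by
    rw [Nat.div_div_eq_div_mul, ← Nat.mul_div_mul_right (b ^ 3) K₀ (by norm_num : 0 < 16)]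
    exact Nat.div_le_div_right e2
  have e4 : b ^ 3 / (K₀ * 1000) ≤ N ^ 3 / K₀ / 1000 := by
    rw [Nat.div_div_eq_div_mul]
    exact Nat.div_le_div_right e1
  have e5 : N ^ 3 / K₀ ≤ N ^ 3 := Nat.div_le_self _ _
  refine Nat.le_of_mul_le_mul_right (c := 2 ^ (b ^ 3 / K₀)) (h.trans ?_) (Nat.two_pow_pos _)
  rw [← pow_add]
  exact Nat.pow_le_pow_right (by norm_num) (by omega)

/-- `B n` is a rare set of classes of groups of order `2 ^ n`; groups with a normal subgroup of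
small index in `B n` are rare. -/
theorem fam_two (hs : SimsLe) (B : ℕ → Set GrpCat.{0}) (hB : ∀ n, ∀ F ∈ B n, Nat.card F = 2 ^ n)
    {K₀ n₁ : ℕ} (hK : 0 < K₀) (h : ∀ n ≥ n₁, (cl '' B n).ncard * 2 ^ (n ^ 3 / K₀) ≤ gnu (2 ^ n))
    (Y : GrpCat.{0} → Prop) {T n₂ : ℕ} (hT : 0 < T)
    (hY : ∀ n ≥ n₂, ∀ G : GrpCat.{0}, Finite G → ∀ O : Subgroup G, O.Characteristic →
      Nat.card O = 2 ^ n → O.index ≤ 2 ^ (n / T) → Y G → GrpCat.of O ∈ B n) :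
    ∃ M K n₀ : ℕ, 0 < M ∧ 0 < K ∧ ∀ N ≥ n₀,
      (cl '' {G | Finite G ∧ Group.IsSolvable G ∧ Nat.card G ≤ 2 ^ N ∧
        2 ^ (N - N / M) ∣ Nat.card G ∧ Y G}).ncard * 2 ^ (N ^ 3 / K) ≤ 2 ^ (2 * N ^ 3 / 27) := by
  obtain ⟨n₃, h3⟩ := hs (K₀ * 1000) (by omega)
  refine ⟨1000 * K₀ * T, K₀ * 100, 2 * (n₁ + n₂ + n₃) + 100 * K₀, by positivity, by omega,
    fun N hN => ?_⟩
  set s := N / (1000 * K₀ * T) with hs'
  have s1 : s * (1000 * K₀ * T) ≤ N := Nat.div_mul_le_self _ _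
  have s2 : 1000 * (s * T) ≤ N := by
    have := Nat.mul_le_mul_left (1000 * (s * T)) hK
    nlinarith
  have s3 : s ≤ s * T := Nat.le_mul_of_pos_right _ hT
  have s4 : 1000 * (s * (N * N)) ≤ N ^ 3 / K₀ := by
    rw [Nat.le_div_iff_mul_le hK]
    have h1 : s * (1000 * K₀) ≤ N :=
      (Nat.mul_le_mul_left s (Nat.le_mul_of_pos_right _ hT)).trans s1
    have h2 := Nat.mul_le_mul_right (N * N) h1
    nlinarith
  have N1 : 100 ≤ N := by omega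
  have s5 : 100 * N ≤ N ^ 3 / K₀ := by
    rw [Nat.le_div_iff_mul_le hK]
    have h1 : 100 * K₀ ≤ N * N := (by omega : 100 * K₀ ≤ N).trans (Nat.le_mul_self N)
    have h2 := Nat.mul_le_mul_left N h1
    nlinarith
  have s6 : 4 * s * (N * N + 2 * N + 1) ≤ 16 * (s * (N * N)) := by
    have h1 : N * N + 2 * N + 1 ≤ 4 * (N * N) := by nlinarith
    have h2 := Nat.mul_le_mul_left (4 * s) h1
    nlinarith
  have key := (cover (t := {b | b ≤ N ∧ N ≤ 2 * b}) ((Set.finite_Iic N).subset fun _ hb => hb.1)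
    (fun b => cl '' {G | Finite G ∧ Group.IsSolvable G ∧ Nat.card G ≤ 2 ^ N ∧
      ∃ O : Subgroup G, O.Normal ∧ O.index ≤ 2 ^ (4 * s) ∧ GrpCat.of O ∈ B b})
    (2 ^ (2 * N ^ 3 / 27 + N ^ 3 / K₀ / 1000 - N ^ 3 / K₀ / 16) *
      2 ^ (4 * s * (N * N + 2 * N + 1))) (fun b hb => ?_)
    (cl '' {G | Finite G ∧ Group.IsSolvable G ∧ Nat.card G ≤ 2 ^ N ∧
      2 ^ (N - s) ∣ Nat.card G ∧ Y G}) ?_).2
  · have h1 : {b | b ≤ N ∧ N ≤ 2 * b}.ncard ≤ 2 ^ N := by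
      have h2 : {b | b ≤ N ∧ N ≤ 2 * b} ⊆ (Finset.range (2 ^ N) : Set ℕ) := fun b hb =>
        Finset.mem_coe.2 (Finset.mem_range.2 (hb.1.trans_lt Nat.lt_two_pow_self))
      have h4 := Set.ncard_le_ncard h2 (Finset.finite_toSet _)
      rwa [Set.ncard_coe_finset, Finset.card_range] at h4
    refine (Nat.mul_le_mul_right _ (key.trans (Nat.mul_le_mul_right _ h1))).trans ?_
    rw [← pow_add, ← pow_add, ← pow_add, ← Nat.div_div_eq_div_mul]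
    have e5 : N ^ 3 / K₀ ≤ N ^ 3 := Nat.div_le_self _ _
    exact Nat.pow_le_pow_right (by norm_num) (by omega)
  · obtain ⟨b1, b2⟩ := hb
    have hf : (cl '' B b).Finite := (all_fin Nat.prime_two b).subset (Set.image_mono (hB b))
    have h4 := S64CFam2_cnt b2 b1 ((h b (by omega)).trans (h3 b (by omega)))
    have h5 := cover hf (fun c => cl '' {G | Finite G ∧ Group.IsSolvable G ∧ Nat.card G ≤ 2 ^ N ∧
      ∃ f : c.out →* G, Function.Injective f ∧ f.range.Normal ∧ f.range.index ≤ 2 ^ (4 * s)}) _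
      (fun c _ => ext_solv N (4 * s) c.out) (cl '' {G | Finite G ∧ Group.IsSolvable G ∧
        Nat.card G ≤ 2 ^ N ∧ ∃ O : Subgroup G, O.Normal ∧ O.index ≤ 2 ^ (4 * s) ∧
          GrpCat.of O ∈ B b}) ?_
    · exact ⟨h5.1, h5.2.trans (Nat.mul_le_mul_right _ h4)⟩
    rintro _ ⟨G, ⟨g1, g2, g3, O, o1, o2, o3⟩, rfl⟩
    obtain ⟨e⟩ := (cl_eq (A := (cl (GrpCat.of O)).out) (B := GrpCat.of O)).1 (Quotient.out_eq _)
    have er : (O.subtype.comp e.toMonoidHom).range = O := by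
      rw [MonoidHom.range_comp, MonoidHom.range_eq_top.2 e.surjective, ← MonoidHom.range_eq_map,
        range_subtype]
    exact ⟨_, ⟨_, o3, rfl⟩, G, ⟨g1, g2, g3, O.subtype.comp e.toMonoidHom,
      O.subtype_injective.comp e.injective, er.symm ▸ o1, er.symm ▸ o2⟩, rfl⟩
  · rintro _ ⟨G, ⟨g1, g2, g3, g4, g5⟩, rfl⟩
    obtain ⟨O, b, o1, o2, o3, o4, o5⟩ := S64CFam2_sub g3 g4
    have h1 : 4 * s ≤ b / T := by
      rw [Nat.le_div_iff_mul_le hT, mul_assoc]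
      omega
    exact ⟨b, ⟨o5, by omega⟩, G, ⟨g1, g2, g3, O, inferInstance, o3, hY b (by omega) G g1 O o1 o2
      (o3.trans (Nat.pow_le_pow_right (by norm_num) h1)) g5⟩, rfl⟩

end Pool.Agent.Lib.MP_2d211a_co.S64
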