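import Pool.Agent.Lib.MP_2d211a_co.S17EExt
import Pool.Agent.Lib.MP_2d211a_co.S17EO2
import Pool.Agent.Lib.MP_2d211a_co.S64CFam2

/-!
Tame groups with a large Sylow 2-subgroup.
-/

namespace Pool.Agent.Lib.MP_2d211a_co.S64

open Subgroup H60 CategoryTheory

variable {c : ℕ} {S : Set GrpCat.{0}}

theorem S17EFam2_sub (hS : Thin c S) {G : Type} [Group G] [Finite G] (hG : Tame S G) {N s : ℕ}
    (h1 : Nat.card G ≤ 2 ^ N) (h2 : 2 ^ (N - s) ∣ Nat.card G) : ∃ (O : Subgroup G) (b : ℕ),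
      O.Characteristic ∧ Nat.card O = 2 ^ b ∧ O.index ≤ 2 ^ (s * (c + 5)) ∧
        N ≤ b + s + s * (c + 5) ∧ b ≤ N := by
  have h0 : 0 < Nat.card G := Nat.card_pos
  obtain ⟨a, u, hu, e⟩ := Nat.exists_eq_two_pow_mul_odd h0.ne'
  obtain ⟨O, o1, o2, o3⟩ := exists_O2' hS G hG e hu
  have : Fact (Nat.Prime 2) := ⟨Nat.prime_two⟩
  obtain ⟨b, hb⟩ := IsPGroup.iff_card.1 o2
  have h3 : 2 ^ (N - s) ∣ 2 ^ a := by
    rw [e] at h2
    exact (Nat.Coprime.pow_left _ (Nat.coprime_two_left.2 hu)).dvd_of_dvd_mul_right h2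
  have h4 : N - s ≤ a := (Nat.pow_dvd_pow_iff_le_right (by norm_num)).1 h3
  have h5 : u ≤ 2 ^ s := by
    refine Nat.le_of_mul_le_mul_left ?_ (Nat.two_pow_pos a)
    rw [← e, ← pow_add]
    exact h1.trans (Nat.pow_le_pow_right (by norm_num) (by omega))
  have h6 : O.index ≤ 2 ^ (s * (c + 5)) := by
    rw [pow_mul]
    exact o3.trans (Nat.pow_le_pow_left h5 _)
  have h7 := O.card_mul_index
  rw [hb] at h7
  have h8 : 2 ^ (N - s) ≤ 2 ^ (b + s * (c + 5)) := by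
    rw [pow_add]
    exact (Nat.le_of_dvd h0 h2).trans (h7 ▸ Nat.mul_le_mul_left _ h6)
  have h9 : 2 ^ b ≤ 2 ^ N := (Nat.le_of_dvd h0 ⟨_, h7.symm⟩).trans h1
  have h10 := (Nat.pow_le_pow_iff_right (by norm_num)).1 h8
  exact ⟨O, b, o1, hb, h6, by omega, (Nat.pow_le_pow_iff_right (by norm_num)).1 h9⟩

theorem fam_two' (hS : Thin c S) (hs : SimsLe) (B : ℕ → Set GrpCat.{0})
    (hB : ∀ n, ∀ F ∈ B n, Nat.card F = 2 ^ n)
    {K₀ n₁ : ℕ} (hK : 0 < K₀) (h : ∀ n ≥ n₁, (cl '' B n).ncard * 2 ^ (n ^ 3 / K₀) ≤ gnu (2 ^ n))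
    (Y : GrpCat.{0} → Prop) {T n₂ : ℕ} (hT : 0 < T)
    (hY : ∀ n ≥ n₂, ∀ G : GrpCat.{0}, Finite G → ∀ O : Subgroup G, O.Characteristic →
      Nat.card O = 2 ^ n → O.index ≤ 2 ^ (n / T) → Y G → GrpCat.of O ∈ B n) :
    ∃ M K n₀ : ℕ, 0 < M ∧ 0 < K ∧ ∀ N ≥ n₀,
      (cl '' {G | Finite G ∧ Tame S G ∧ Nat.card G ≤ 2 ^ N ∧
        2 ^ (N - N / M) ∣ Nat.card G ∧ Y G}).ncard * 2 ^ (N ^ 3 / K) ≤ 2 ^ (2 * N ^ 3 / 27) := by
  obtain ⟨n₃, h3⟩ := hs (K₀ * 1000) (by omega)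
  obtain ⟨n₄, h4⟩ := omega_small (1000 * K₀ * (c + 6)) (by positivity)
  refine ⟨1000 * K₀ * T * (c + 6), K₀ * 100,
    2 * (n₁ + n₂ + n₃) + 100 * K₀ + n₄ + 1000 * K₀ * (c + 6), by positivity, by omega,
    fun N hN => ?_⟩
  obtain ⟨s, hs'⟩ : ∃ s, s = N / (1000 * K₀ * T * (c + 6)) := ⟨_, rfl⟩
  obtain ⟨w, hw⟩ : ∃ w, w = N / (1000 * K₀ * (c + 6)) := ⟨_, rfl⟩
  obtain ⟨t, ht⟩ : ∃ t, t = s * (c + 5) := ⟨_, rfl⟩
  rw [← hs']
  have s0 : s * (1000 * K₀ * T * (c + 6)) ≤ N := hs' ▸ Nat.div_mul_le_self _ _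
  have s1 : (s + t) * (1000 * K₀ * T) ≤ N := by
    rw [ht]
    linarith
  have s2 : 1000 * ((s + t) * T) ≤ N := by
    have := Nat.mul_le_mul_left (1000 * ((s + t) * T)) hK
    linarith
  have s3 : s + t ≤ (s + t) * T := Nat.le_mul_of_pos_right _ hT
  have s7 : ∀ z, z * (1000 * K₀) ≤ N → 1000 * (z * (N * N)) ≤ N ^ 3 / K₀ := fun z h1 => by
    rw [Nat.le_div_iff_mul_le hK]
    have h2 := Nat.mul_le_mul_right (N * N) h1
    linarith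
  have s4 := s7 t ((Nat.mul_le_mul (Nat.le_add_left t s) (Nat.le_mul_of_pos_right _ hT)).trans s1)
  have s8 := s7 (c + 6) (by rw [mul_comm]; omega)
  have s9 := s7 ((c + 6) * w) (by
    have : w * (1000 * K₀ * (c + 6)) ≤ N := hw ▸ Nat.div_mul_le_self _ _
    linarith)
  have N1 : 100 ≤ N := by omega
  have s5 : 100 * N ≤ N ^ 3 / K₀ := by
    rw [Nat.le_div_iff_mul_le hK]
    have h1 : 100 * K₀ ≤ N * N := (by omega : 100 * K₀ ≤ N).trans (Nat.le_mul_self N)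
    have h2 := Nat.mul_le_mul_left N h1
    linarith
  have s6 : t * (N * N + N) + t * (t ^ 2 / 14 + 1) + (c + 6) * N * N * (1 + w) ≤
      3 * (t * (N * N)) + (c + 6) * (N * N) + (c + 6) * w * (N * N) := by
    have h1 : N ≤ N * N := Nat.le_mul_self N
    have h2 : t ^ 2 ≤ N * N := by
      rw [pow_two]
      exact Nat.mul_le_mul (by omega) (by omega)
    have h5 : t ^ 2 / 14 + 1 ≤ N * N := by omega
    have h6 := Nat.mul_le_mul_left t h5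
    have h7 := Nat.mul_le_mul_left t h1
    linarith
  have key := (cover (t := {b | b ≤ N ∧ N ≤ 2 * b}) ((Set.finite_Iic N).subset fun _ hb => hb.1)
    (fun b => cl '' {G | Finite G ∧ Tame S G ∧ Nat.card G ≤ 2 ^ N ∧
      ∃ O : Subgroup G, O.index ≤ 2 ^ t ∧ cl (GrpCat.of O) ∈ cl '' B b})
    (2 ^ (2 * N ^ 3 / 27 + N ^ 3 / K₀ / 1000 - N ^ 3 / K₀ / 16) *
      2 ^ (N + t * (N * N + N) + t * (t ^ 2 / 14 + 1) + (c + 6) * N * N * (1 + w)))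
    (fun b hb => ?_)
    (cl '' {G | Finite G ∧ Tame S G ∧ Nat.card G ≤ 2 ^ N ∧
      2 ^ (N - s) ∣ Nat.card G ∧ Y G}) ?_).2
  · have h1 : {b | b ≤ N ∧ N ≤ 2 * b}.ncard ≤ 2 ^ N := by
      have h2 : {b | b ≤ N ∧ N ≤ 2 * b} ⊆ (Finset.range (2 ^ N) : Set ℕ) := fun b hb =>
        Finset.mem_coe.2 (Finset.mem_range.2 (hb.1.trans_lt Nat.lt_two_pow_self))
      have h4 := Set.ncard_le_ncard h2 (Finset.finite_toSet _)
      rwa [Set.ncard_coe_finset, Finset.card_range] at h4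
    refine (Nat.mul_le_mul_right _ (key.trans (Nat.mul_le_mul_right _ h1))).trans ?_
    rw [← pow_add, ← pow_add, ← pow_add, ← Nat.div_div_eq_div_mul]
    have e5 : N ^ 3 / K₀ ≤ N ^ 3 := Nat.div_le_self _ _
    exact Nat.pow_le_pow_right (by norm_num) (by omega)
  · obtain ⟨b1, b2⟩ := hb
    have h5 := ext_tame hS (N := N) (t := t) (b := b) (w := w) (by omega) (cl '' B b)
      (Set.image_mono (hB b)) (hw ▸ h4 N (by omega))
    exact ⟨h5.1, h5.2.trans (Nat.mul_le_mul_right _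
      (S64CFam2_cnt b2 b1 ((h b (by omega)).trans (h3 b (by omega)))))⟩
  · rintro _ ⟨G, ⟨g1, g2, g3, g4, g5⟩, rfl⟩
    obtain ⟨O, b, o1, o2, o3, o4, o5⟩ := S17EFam2_sub hS g2 g3 g4
    rw [← ht] at o3 o4
    have h1 : t ≤ b / T := by
      rw [Nat.le_div_iff_mul_le hT]
      have := Nat.mul_le_mul_right T (Nat.le_add_left t s)
      omega
    exact ⟨b, ⟨o5, by omega⟩, G, ⟨g1, g2, g3, O, o3, _, hY b (by omega) G g1 O o1 o2
      (o3.trans (Nat.pow_le_pow_right (by norm_num) h1)) g5, rfl⟩, rfl⟩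

end Pool.Agent.Lib.MP_2d211a_co.S64
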