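import Pool.Agent.Lib.MP_2d211a_co.S17EDef
import Pool.Agent.Lib.MP_2d211a_co.S64CAut

/-!
Finiteness, and the number of tuples of simple factors.
-/

namespace Pool.Agent.Lib.MP_2d211a_co.S64

open Subgroup H60 CategoryTheory

variable {c : ℕ} {S : Set GrpCat.{0}}

theorem ord_fin {m : ℕ} (hm : 0 < m) : (cl '' {G | Nat.card G = m}).Finite := by
  refine (Set.finite_range fun K : Subgroup (Equiv.Perm (Fin m)) => cl (GrpCat.of K)).subset ?_
  rintro _ ⟨G, hG, rfl⟩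
  have hG : Nat.card G = m := hG
  have : Finite G := Nat.finite_of_card_ne_zero (hG ▸ hm.ne')
  have e : G ≃ Fin m := Finite.equivFinOfCardEq hG
  have hf := (Equiv.Perm.viaEmbeddingHom_injective e.toEmbedding).comp
    (MulAction.toPerm_injective (α := G) (β := G))
  exact ⟨_, cl_eq.2 ⟨(MonoidHom.ofInjective (f := (Equiv.Perm.viaEmbeddingHom e.toEmbedding).comp
    (MulAction.toPermHom G G)) hf).symm⟩⟩

theorem S17EFin_card {G : GrpCat.{0}} {x : Cls} (h : cl G = x) : Nat.card x.out = Nat.card G := by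
  obtain ⟨φ⟩ := cl_eq.1 (h.trans x.out_eq.symm)
  exact (Nat.card_congr φ.toEquiv).symm

theorem fac_le {k : ℕ} {d : Fin k → Cls} (h : Fac S d) : 2 ^ k ≤ Nat.card (Wd d) := by
  rw [Nat.card_pi, ← Fin.prod_const]
  refine Finset.prod_le_prod' fun i _ => ?_
  obtain ⟨-, h1, h2, -⟩ := h i
  exact Finite.one_lt_card

theorem fac_count (h : Thin c S) (N k : ℕ) :
    {d : Fin k → Cls | Fac S d ∧ Nat.card (Wd d) ≤ 2 ^ N}.Finite ∧
    {d : Fin k → Cls | Fac S d ∧ Nat.card (Wd d) ≤ 2 ^ N}.ncard ≤ 2 ^ ((c + 1) * N * k) := by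
  classical
  obtain ⟨u1, u2⟩ := cover (Set.finite_Icc 1 (2 ^ N))
    (fun m => cl '' {T | T ∈ S ∧ Nat.card T = m}) (2 ^ (N * c))
    (fun m hm => ⟨(ord_fin hm.1).subset (Set.image_mono fun _ hT => hT.2),
      (h.few m hm.1).trans (by rw [pow_mul]; exact Nat.pow_le_pow_left hm.2 c)⟩)
    {x | x ∈ cl '' S ∧ 0 < Nat.card x.out ∧ Nat.card x.out ≤ 2 ^ N} (by
      rintro _ ⟨⟨T, hT, rfl⟩, h1, h2⟩
      exact ⟨_, ⟨h1, h2⟩, T, ⟨hT, (S17EFin_card rfl).symm⟩, rfl⟩)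
  rw [← Finset.coe_Icc, Set.ncard_coe_finset, Nat.card_Icc, Nat.add_sub_cancel, ← pow_add,
    Set.ncard_eq_toFinset_card _ u1] at u2
  have hs : {d : Fin k → Cls | Fac S d ∧ Nat.card (Wd d) ≤ 2 ^ N} ⊆
      (Fintype.piFinset fun _ : Fin k => u1.toFinset : Finset _) := by
    rintro d ⟨d1, d2⟩
    refine Finset.mem_coe.2 (Fintype.mem_piFinset.2 fun i => u1.mem_toFinset.2 ?_)
    have : ∀ i, Finite (d i).out := fun i => (d1 i).2.1
    refine ⟨(d1 i).1, Nat.card_pos, le_trans ?_ d2⟩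
    exact Nat.card_le_card_of_surjective _ (Function.surjective_eval i)
  refine ⟨(Finset.finite_toSet _).subset hs,
    (Set.ncard_le_ncard hs (Finset.finite_toSet _)).trans ?_⟩
  rw [Set.ncard_coe_finset, Fintype.card_piFinset_const, pow_mul]
  refine Nat.pow_le_pow_left (u2.trans (le_of_eq ?_)) k
  congr 1
  ring

theorem over_le (k j : ℕ) (B : Set Cls) (hB : B ⊆ cl '' {G | Nat.card G = 2 ^ k}) :
    (cl '' {P | Nat.card P = 2 ^ (k + j) ∧ ∃ F : Subgroup P, cl (GrpCat.of F) ∈ B}).ncard ≤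
      B.ncard * 2 ^ (j * ((k + j) * (k + j) + (k + j))) := by
  have := Fact.mk Nat.prime_two
  have hF : ∀ {P : GrpCat.{0}} (F : Subgroup P), cl (GrpCat.of F) ∈ B → Nat.card F = 2 ^ k := by
    intro P F hF
    obtain ⟨G, hG, e⟩ := hB hF
    obtain ⟨φ⟩ := cl_eq.1 e
    exact (Nat.card_congr φ.toEquiv).symm.trans hG
  induction j with
  | zero =>
    rw [zero_mul, pow_zero, mul_one]
    refine Set.ncard_le_ncard ?_ ((all_fin Nat.prime_two k).subset hB)
    rintro _ ⟨P, ⟨h1, F, h2⟩, rfl⟩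
    have : Finite P := Nat.finite_of_card_ne_zero (h1 ▸ (Nat.two_pow_pos _).ne')
    obtain rfl : F = ⊤ := eq_top_of_card_eq F ((hF F h2).trans h1.symm)
    exact (cl_eq (A := GrpCat.of (⊤ : Subgroup P)) (B := P)).2 ⟨topEquiv⟩ ▸ h2
  | succ j ih =>
    have key := (cover (t := cl '' {P | Nat.card P = 2 ^ (k + j) ∧
        ∃ F : Subgroup P, cl (GrpCat.of F) ∈ B})
      ((all_fin Nat.prime_two (k + j)).subset (Set.image_mono fun _ h => h.1))
      (fun d => cl '' {G | Nat.card G = 2 ^ (k + j + 1) ∧ ∃ f : d.out →* G, Function.Injective f})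
      (2 ^ ((k + j) * (k + j) + (k + j))) ?_
      (cl '' {P | Nat.card P = 2 ^ (k + (j + 1)) ∧ ∃ F : Subgroup P, cl (GrpCat.of F) ∈ B}) ?_).2
    · refine (key.trans (Nat.mul_le_mul_right _ ih)).trans ?_
      rw [mul_assoc, ← pow_add, ← add_one_mul]
      refine Nat.mul_le_mul_left _ (Nat.pow_le_pow_right (by norm_num) (Nat.mul_le_mul_left _ ?_))
      exact Nat.add_le_add (Nat.mul_le_mul (by omega) (by omega)) (by omega)
    · rintro _ ⟨P, ⟨h1, -⟩, rfl⟩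
      have h2 : Nat.card (cl P).out = 2 ^ (k + j) := (S17EFin_card rfl).trans h1
      have : Finite (cl P).out := Nat.finite_of_card_ne_zero (h2 ▸ (Nat.two_pow_pos _).ne')
      obtain ⟨h3, h4⟩ := ext_le Nat.prime_two h2
      refine ⟨h3, h4.trans ?_⟩
      rw [pow_add 2 ((k + j) * (k + j))]
      exact Nat.mul_le_mul_right _ (card_aut_le h2.le)
    · rintro _ ⟨P, ⟨h1, F, h2⟩, rfl⟩
      have : Finite P := Nat.finite_of_card_ne_zero (h1 ▸ (Nat.two_pow_pos _).ne')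
      obtain ⟨L, hL, h⟩ := Sylow.exists_subgroup_card_pow_prime_le 2 (n := k) (m := k + j)
        (h1 ▸ pow_dvd_pow 2 (by omega)) F (hF F h2) (by omega)
      obtain ⟨φ⟩ := cl_eq.1 (cl (GrpCat.of L)).out_eq
      refine ⟨cl (GrpCat.of L), ⟨GrpCat.of L, ⟨hL, F.subgroupOf L, ?_⟩, rfl⟩, P, ⟨h1,
        L.subtype.comp φ.toMonoidHom, L.subtype_injective.comp φ.injective⟩, rfl⟩
      exact (cl_eq (A := GrpCat.of F) (B := GrpCat.of (F.subgroupOf L))).2
        ⟨(subgroupOfEquivOfLe h).symm⟩ ▸ h2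

end Pool.Agent.Lib.MP_2d211a_co.S64
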