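import Pool.Agent.Lib.MP_2d211a_co.S64DDef
import Pool.Agent.Lib.MP_2d211a_co.S64CAut

/-!
Finiteness, and a lower bound by direct products.
-/

namespace Pool.Agent.Lib.MP_2d211a_co.S64

open Subgroup H60 CategoryTheory

theorem S64DLow_range {A B : Type} [Group A] [Group B] (f : A →* B) (hf : Function.Injective f) :
    cl (GrpCat.of f.range) = cl (GrpCat.of A) := cl_eq.2 ⟨(MonoidHom.ofInjective hf).symm⟩

theorem fin_le (x : ℕ) : (cl '' {G | Finite G ∧ Nat.card G ≤ x}).Finite := by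
  refine (Set.finite_range fun K : Subgroup (Equiv.Perm (Fin x)) => cl (GrpCat.of K)).subset ?_
  rintro _ ⟨G, ⟨_, hG⟩, rfl⟩
  have := Fintype.ofFinite G
  obtain ⟨e⟩ : Nonempty (G ↪ Fin x) :=
    Function.Embedding.nonempty_of_card_le (by rwa [Fintype.card_fin, ← Nat.card_eq_fintype_card])
  exact ⟨_, S64DLow_range ((Equiv.Perm.viaEmbeddingHom e).comp (MulAction.toPermHom G G))
    ((Equiv.Perm.viaEmbeddingHom_injective e).comp MulAction.toPerm_injective)⟩

theorem prod_low {a x y N : ℕ} (h : 2 ^ a * y ≤ x) (hN : x ≤ 2 ^ N) :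
    gnu (2 ^ a) * hnu y ≤ (cl '' Vs x y).ncard * 2 ^ (2 * N * N) := by
  rw [gnu, hnu, ← Set.ncard_prod]
  refine (cover (t := cl '' Vs x y)
    ((fin_le x).subset (Set.image_mono fun G hG => ⟨hG.1, hG.2.1⟩))
    (fun e => Set.range fun p : Subgroup e.out × Subgroup e.out =>
      (cl (GrpCat.of p.1), cl (GrpCat.of p.2))) _ ?_ _ ?_).2
  · rintro _ ⟨G, ⟨_, hG, -⟩, rfl⟩
    obtain ⟨φ⟩ := cl_eq.1 (cl G).out_eq
    have := Finite.of_equiv _ φ.symm.toEquiv
    have h1 := card_subgroup_le (H := (cl G).out) (N := N)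
      ((Nat.card_congr φ.toEquiv).le.trans (hG.trans hN))
    refine ⟨Set.finite_range _, ?_⟩
    rw [← Set.image_univ]
    refine (Set.ncard_image_le Set.finite_univ).trans ?_
    rw [Set.ncard_univ, Nat.card_prod, mul_assoc, two_mul, pow_add]
    exact Nat.mul_le_mul h1 h1
  · rintro ⟨_, _⟩ ⟨⟨A, hA, rfl⟩, ⟨B, ⟨_, hB⟩, rfl⟩⟩
    have hA : Nat.card A = 2 ^ a := hA
    have : Finite A := Nat.finite_of_card_ne_zero (hA ▸ (pow_pos two_pos a).ne')
    have := Fact.mk Nat.prime_two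
    have := (IsPGroup.of_card hA).isNilpotent
    refine ⟨cl (GrpCat.of (A × B)), ⟨_, ⟨inferInstanceAs (Finite (A × B)), ?_,
      (MonoidHom.snd A B).ker, inferInstance, ?_, ?_⟩, rfl⟩, ?_⟩
    · exact (Nat.card_prod A B).le.trans (hA ▸ (Nat.mul_le_mul_left _ hB).trans h)
    · exact Group.isSolvable_of_isSolvable_injective
        (f := (MonoidHom.fst A B).comp (MonoidHom.snd A B).ker.subtype) fun u v e =>
        Subtype.ext (Prod.ext e (u.2.trans v.2.symm))
    · exact (index_ker _).le.trans ((card_le_card_group _).trans hB)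
    · obtain ⟨φ⟩ := cl_eq.1 (cl (GrpCat.of (A × B))).out_eq
      exact ⟨(_, _), Prod.ext
        (S64DLow_range (φ.symm.toMonoidHom.comp (MonoidHom.inl A B))
          (φ.symm.injective.comp fun u v e => congrArg Prod.fst e))
        (S64DLow_range (φ.symm.toMonoidHom.comp (MonoidHom.inr A B))
          (φ.symm.injective.comp fun u v e => congrArg Prod.snd e))⟩

end Pool.Agent.Lib.MP_2d211a_co.S64
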