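import Pool.Agent.Lib.MP_2d211a_co.S64DCnt
import Pool.Agent.Lib.MP_2d211a_co.S64DLow

/-!
An upper bound through the kernel and the quotient.
-/

namespace Pool.Agent.Lib.MP_2d211a_co.S64

open Subgroup H60 CategoryTheory

theorem up_count {y N t : ℕ} (hy : y ≤ 2 ^ t) (Z W : Set GrpCat.{0}) (hZ : (cl '' Z).Finite)
    (hW : ∀ G ∈ W, Finite G ∧ Nat.card G ≤ 2 ^ N ∧
      ∃ S : Subgroup G, S.Normal ∧ S.index ≤ y ∧ GrpCat.of S ∈ Z) :
    (cl '' W).ncard ≤ (cl '' Z).ncard * hnu y * 2 ^ (t * (N * N + N)) := by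
  have key := (cover (t := {q ∈ (cl '' Z) ×ˢ (cl '' {H | Finite H ∧ Nat.card H ≤ y}) |
      Finite q.1.out ∧ Finite q.2.out ∧ Nat.card q.1.out * Nat.card q.2.out ≤ 2 ^ N ∧
        Nat.card q.2.out ≤ 2 ^ t}) ((hZ.prod (fin_le y)).subset fun _ h => h.1)
    (fun q => Set.range fun x : Xt q.1.out q.2.out => cl x.G) (2 ^ (t * (N * N + N)))
    (fun q hq => ?_) (cl '' W) ?_).2
  · refine key.trans (Nat.mul_le_mul_right _ ?_)
    rw [← Set.ncard_prod]
    exact Set.ncard_le_ncard (fun _ h => h.1) (hZ.prod (fin_le y))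
  · obtain ⟨-, h1, h2, h3, h4⟩ := hq
    exact ext_gen h3 h4
  · rintro _ ⟨G, hG, rfl⟩
    obtain ⟨g1, g2, S, s1, s2, s3⟩ := hW G hG
    obtain ⟨φ⟩ := cl_eq.1 (cl (GrpCat.of S)).out_eq
    obtain ⟨ψ⟩ := cl_eq.1 (cl (GrpCat.of (G ⧸ S))).out_eq
    have e1 : Nat.card (cl (GrpCat.of S)).out = Nat.card S := Nat.card_congr φ.toEquiv
    have e2 : Nat.card (cl (GrpCat.of (G ⧸ S))).out = S.index := Nat.card_congr ψ.toEquiv
    have f1 : Finite (GrpCat.of S) := inferInstanceAs (Finite S)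
    have f2 : Finite (GrpCat.of (G ⧸ S)) := inferInstanceAs (Finite (G ⧸ S))
    refine ⟨(cl (GrpCat.of S), cl (GrpCat.of (G ⧸ S))), ⟨⟨⟨_, s3, rfl⟩, _, ⟨f2, s2⟩, rfl⟩,
      Finite.of_equiv _ φ.toEquiv.symm, Finite.of_equiv _ ψ.toEquiv.symm, ?_, ?_⟩,
      ⟨G, S.subtype.comp φ.toMonoidHom, ψ.symm.toMonoidHom.comp (QuotientGroup.mk' S),
        S.subtype_injective.comp φ.injective,
        ψ.symm.surjective.comp (QuotientGroup.mk'_surjective S), ?_⟩, rfl⟩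
    · simp only [e1, e2, S.card_mul_index]
      exact g2
    · simp only [e2]
      exact s2.trans hy
    · rw [MonoidHom.range_comp, MonoidHom.range_eq_top.2 φ.surjective, ← MonoidHom.range_eq_map,
        range_subtype]
      ext g
      rw [MonoidHom.mem_ker, MonoidHom.comp_apply, ← QuotientGroup.eq_one_iff]
      exact (map_eq_one_iff _ ψ.symm.injective).symm

end Pool.Agent.Lib.MP_2d211a_co.S64
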