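import Pool.Agent.Lib.MP_2d211a_co.S17EFam1
import Pool.Agent.Lib.MP_2d211a_co.S17EFam2
import Pool.Agent.Lib.MP_2d211a_co.S64DUp

/-!
Almost all groups with a tame normal subgroup of small index.
-/

namespace Pool.Agent.Lib.MP_2d211a_co.S64

open Subgroup H60 CategoryTheory

variable {c : ℕ} {S : Set GrpCat.{0}}

theorem tame_of_solvable {G : Type} [Group G] [Group.IsSolvable G] : Tame S G :=
  fun _ _ T _ _ hf _ hc => (hc ⟨⟨(IsSimpleGroup.comm_iff_isSolvable (G := T)).2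
    (Group.isSolvable_of_surjective hf)⟩⟩).elim

/-- For the empty class the tame groups are the soluble groups. -/
theorem solvable_of_tame : ∀ (n : ℕ) (G : Type) [Group G] [Finite G], Nat.card G ≤ n →
    Tame ∅ G → Group.IsSolvable G
  | 0, _, _, _, h, _ => absurd h (not_le.2 Nat.card_pos)
  | n + 1, G, _, _, h, hG => by
      rcases subsingleton_or_nontrivial G with h1 | h1
      · infer_instance
      obtain ⟨N, ⟨a1, a2⟩, a3⟩ := Set.Finite.exists_maximal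
        (Set.toFinite {N : Subgroup G | N.Normal ∧ N ≠ ⊤}) ⟨⊥, inferInstance, bot_ne_top⟩
      have : Nontrivial (G ⧸ N) := QuotientGroup.nontrivial_iff.2 a2
      have b1 : IsSimpleGroup (G ⧸ N) := ⟨fun H hH => by
        by_cases e : H.comap (QuotientGroup.mk' N) = ⊤
        · exact .inr (comap_injective (QuotientGroup.mk'_surjective N) (e.trans (comap_top _).symm))
        · have e1 : N ≤ H.comap (QuotientGroup.mk' N) :=
            (QuotientGroup.ker_mk' N).ge.trans (ker_le_comap _ _)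
          refine .inl (comap_injective (QuotientGroup.mk'_surjective N) ?_)
          rw [MonoidHom.comap_bot, QuotientGroup.ker_mk']
          exact le_antisymm (a3 ⟨hH.comap _, e⟩ e1) e1⟩
      have b2 : IsMulCommutative (G ⧸ N) := by
        by_contra hc
        obtain ⟨_, ⟨⟩, -⟩ := hG ⊤ .top (G ⧸ N) ((QuotientGroup.mk' N).comp (⊤ : Subgroup G).subtype)
          (fun g => by
            obtain ⟨g, rfl⟩ := QuotientGroup.mk'_surjective N g
            exact ⟨⟨g, trivial⟩, rfl⟩) b1 hc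
      have b3 : Nat.card N < Nat.card G := by
        refine lt_of_not_ge fun e => a2 (eq_top_of_le_card _ e)
      refine (Group.isSolvable_iff_subgroup_quotient N).2 ⟨solvable_of_tame n N (by omega)
        fun H hH T _ f hf => hG (H.map N.subtype) (hH.trans' a1.isSubnormal) T
          (f.comp (H.equivMapOfInjective N.subtype N.subtype_injective).symm.toMonoidHom)
          (hf.comp (MulEquiv.surjective _)), Group.isSolvable_of_comm b2.1.1⟩

/-- Finite groups of order at most `x` with a tame normal subgroup of index at most `y`. -/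
abbrev Vt (S : Set GrpCat.{0}) (x y : ℕ) : Set GrpCat.{0} := {G | Finite G ∧ Nat.card G ≤ x ∧
  ∃ M : Subgroup G, M.Normal ∧ Tame S M ∧ M.index ≤ y}

theorem S17EMain_num {N n a t K K₃ : ℕ} (h3 : 0 < K₃) (hK : 10 * K₃ ≤ K) (hN : 100 * K₃ ≤ N)
    (hn : N = n + 1) (ha : N = a + t + 1) (ht : t = N / K + 1) :
    2 * N ^ 3 / 27 + 1 + t * (N * N + N) + n ^ 3 / K + (2 * N * N + 2 * a ^ 2) ≤
      2 * a ^ 3 / 27 + N ^ 3 / K₃ := by
  have hK0 : 0 < K := by omega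
  have e1 : N / K * (N * N) ≤ N ^ 3 / K := (Nat.le_div_iff_mul_le hK0).2 (by
    have := Nat.mul_le_mul_right (N * N) (Nat.div_mul_le_self N K)
    linarith)
  have e2 : n ^ 3 / K ≤ N ^ 3 / K := Nat.div_le_div_right (Nat.pow_le_pow_left (by omega) 3)
  have e3 : 10 * (N ^ 3 / K) ≤ N ^ 3 / K₃ := (Nat.le_div_iff_mul_le h3).2 (by
    have := Nat.mul_le_mul_left (N ^ 3 / K) hK
    have := Nat.div_mul_le_self (N ^ 3) K
    linarith)
  have e4 : 100 * (N * N) ≤ N ^ 3 / K₃ := (Nat.le_div_iff_mul_le h3).2 (by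
    have := Nat.mul_le_mul_right (N * N) hN
    linarith)
  have e5 : a ^ 2 ≤ N * N := by
    rw [pow_two]
    exact Nat.mul_le_mul (by omega) (by omega)
  have e6 : N ^ 3 ≤ a ^ 3 + 3 * ((t + 1) * (N * N)) := by
    have h1 : N ^ 3 = a ^ 3 + (t + 1) * (N * N + N * a + a * a) := by rw [ha]; ring
    have h2 : N * a ≤ N * N := Nat.mul_le_mul_left _ (by omega)
    have h4 : N * N + N * a + a * a ≤ 3 * (N * N) := by rw [← pow_two a]; omega
    have := Nat.mul_le_mul_left (t + 1) h4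
    linarith
  have e7 : N ≤ N * N := Nat.le_mul_self N
  have e8 : t * (N * N + N) ≤ 2 * (t * (N * N)) := by
    have := Nat.mul_le_mul_left t e7
    linarith
  have e9 : t * (N * N) = N / K * (N * N) + N * N := by rw [ht]; ring
  have e10 : (t + 1) * (N * N) = t * (N * N) + N * N := by ring
  have e11 : 2 * N * N = 2 * (N * N) := by ring
  omega

theorem almost_all' (hS : Thin c S) (hs : SimsLe) (B : ℕ → Set GrpCat.{0})
    (hB : ∀ n, ∀ F ∈ B n, Nat.card F = 2 ^ n)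
    {K₀ n₁ : ℕ} (hK : 0 < K₀) (h : ∀ n ≥ n₁, (cl '' B n).ncard * 2 ^ (n ^ 3 / K₀) ≤ gnu (2 ^ n))
    (Y : GrpCat.{0} → Prop) {T n₂ : ℕ} (hT : 0 < T)
    (hY : ∀ n ≥ n₂, ∀ G : GrpCat.{0}, Finite G → ∀ O : Subgroup G, O.Normal → Nat.card O = 2 ^ n →
      O.index ≤ 2 ^ (n / T) → Y G → GrpCat.of O ∈ B n) :
    ∃ K x₀ : ℕ, 0 < K ∧ ∀ x ≥ x₀, ∀ y, 0 < y → y ^ K ≤ x →
      (cl '' {G | G ∈ Vt S x y ∧ Y G}).ncard * 2 ^ (Nat.log 2 x ^ 3 / K) ≤
        (cl '' Vt S x y).ncard := by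
  let Y' : GrpCat.{0} → Prop := fun A => ∃ (G : GrpCat.{0}) (M : Subgroup G), Finite G ∧ Y G ∧
    M.Normal ∧ M.index ^ (8 * T) ≤ Nat.card M ∧ A = GrpCat.of M
  have hB' : ∀ n, cl '' (cl ⁻¹' (cl '' B n)) = cl '' B n := fun n =>
    Set.image_preimage_eq _ Quotient.mk_surjective
  obtain ⟨M₀, K₂, n₃, m1, m2, m3⟩ := fam_two' hS hs (fun n => cl ⁻¹' (cl '' B n))
    (fun n F ⟨A, a1, a2⟩ => by
      obtain ⟨e⟩ := cl_eq.1 a2
      exact (Nat.card_congr e.toEquiv).symm.trans (hB n A a1))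
    hK (fun n hn => (hB' n).symm ▸ h n hn) Y' (T := 2 * T) (n₂ := n₂ + 4 * T) (by omega) (by
      rintro n hn _ - O o1 o2 o3 ⟨G, M, g1, g2, g3, g4, rfl⟩
      let O' : Subgroup M := O
      have o1' : O'.Characteristic := o1
      have e := O'.equivMapOfInjective M.subtype M.subtype_injective
      refine ⟨_, hY n (by omega) G g1 (O'.map M.subtype) inferInstance
        ((Nat.card_congr e.toEquiv).symm.trans o2) ?_ g2, cl_eq.2 ⟨e.symm⟩⟩
      have a1 : Nat.card M ≤ 2 ^ (2 * n) := by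
        rw [← O'.card_mul_index, two_mul, pow_add]
        exact Nat.mul_le_mul o2.le (o3.trans (Nat.pow_le_pow_right two_pos (Nat.div_le_self _ _)))
      have a2 : M.index ≤ 2 ^ (n / (2 * T)) := by
        refine (Nat.pow_le_pow_iff_left (n := 8 * T) (by omega)).1 ((g4.trans a1).trans ?_)
        rw [← pow_mul]
        refine Nat.pow_le_pow_right two_pos ?_
        have := Nat.lt_div_mul_add (a := n) (show 0 < 2 * T by omega)
        have e : n / (2 * T) * (8 * T) = 4 * (n / (2 * T) * (2 * T)) := by ring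
        omega
      rw [index_map_subtype]
      refine (Nat.mul_le_mul o3 a2).trans ?_
      rw [← pow_add, mul_comm 2 T, ← Nat.div_div_eq_div_mul]
      exact Nat.pow_le_pow_right two_pos (by omega))
  obtain ⟨K₁, n₄, k1, k2⟩ := fam_one' hS hs (2 * M₀) (by omega)
  refine ⟨10 * (K₁ + K₂) + 32 * T, 2 ^ (n₃ + n₄ + 100 * (K₁ + K₂) + 32 * T), by omega,
    fun x hx y y0 hy => ?_⟩
  obtain ⟨K, hK'⟩ : ∃ K, K = 10 * (K₁ + K₂) + 32 * T := ⟨_, rfl⟩
  rw [← hK'] at hy ⊢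
  have K0 : 0 < K := by omega
  have x0 : x ≠ 0 := (lt_of_lt_of_le (Nat.two_pow_pos _) hx).ne'
  have x1 := Nat.le_log_of_pow_le one_lt_two hx
  have x2 := Nat.pow_log_le_self 2 x0
  have x3 := Nat.lt_pow_succ_log_self one_lt_two x
  obtain ⟨n, hn⟩ : ∃ n, n = Nat.log 2 x := ⟨_, rfl⟩
  rw [← hn] at x1 x2 x3 ⊢
  obtain ⟨N, hN⟩ : ∃ N, N = n + 1 := ⟨_, rfl⟩
  rw [Nat.succ_eq_add_one, ← hN] at x3
  obtain ⟨t, ht⟩ : ∃ t, t = N / K + 1 := ⟨_, rfl⟩
  have t1 : y ≤ 2 ^ t := by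
    refine (Nat.pow_le_pow_iff_left K0.ne').1 ((hy.trans x3.le).trans ?_)
    rw [← pow_mul, ht, add_mul, one_mul]
    exact Nat.pow_le_pow_right two_pos (Nat.lt_div_mul_add K0).le
  have t2 : t * (8 * T) ≤ N - N / 2 ∧ t ≤ n := by
    have a1 := Nat.div_mul_le_self N K
    have a2 : N / K * (32 * T) ≤ N / K * K := Nat.mul_le_mul_left _ (by omega)
    have a3 : N / K * 32 ≤ N / K * K := Nat.mul_le_mul_left _ (by omega)
    have e1 : t * (8 * T) = 8 * (N / K * T) + 8 * T := by rw [ht]; ring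
    have e2 : N / K * (32 * T) = 32 * (N / K * T) := by ring
    omega
  obtain ⟨a, ha⟩ : ∃ a, N = a + t + 1 := ⟨n - t, by omega⟩
  have l1 := prod_low (a := a) (x := x) (y := y) (N := N) (by
    refine (Nat.mul_le_mul_left _ t1).trans (le_trans ?_ x2)
    rw [← pow_add]
    exact Nat.pow_le_pow_right two_pos (by omega)) x3.le
  have l2 : (cl '' Vs x y).ncard ≤ (cl '' Vt S x y).ncard := Set.ncard_le_ncard
    (Set.image_mono fun G ⟨g1, g2, M, g3, g4, g5⟩ => ⟨g1, g2, M, g3, tame_of_solvable, g5⟩)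
    ((fin_le x).subset (Set.image_mono fun G hG => ⟨hG.1, hG.2.1⟩))
  have l3 := hig_low a
  have u1 := k2 N (by omega)
  have u2 := m3 N (by omega)
  have u3 := up_count (N := N) t1 ({G | Finite G ∧ Tame S G ∧ Nat.card G ≤ 2 ^ N ∧
      ¬2 ^ (N - N / (2 * M₀)) ∣ Nat.card G} ∪ {G | Finite G ∧ Tame S G ∧ Nat.card G ≤ 2 ^ N ∧
        2 ^ (N - N / M₀) ∣ Nat.card G ∧ Y' G}) {G | G ∈ Vt S x y ∧ Y G}
    ((fin_le (2 ^ N)).subset (Set.image_mono fun G hG =>
      hG.elim (fun h => ⟨h.1, h.2.2.1⟩) fun h => ⟨h.1, h.2.2.1⟩)) (by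
      rintro G ⟨⟨g1, g2, M, g3, g4, g5⟩, g6⟩
      have g7 : Nat.card M ≤ 2 ^ N := (card_le_card_group M).trans (g2.trans x3.le)
      refine ⟨g1, g2.trans x3.le, M, g3, g5, ?_⟩
      by_cases e : 2 ^ (N - N / (2 * M₀)) ∣ Nat.card M
      · have e1 : N / (2 * M₀) ≤ N / M₀ := Nat.div_le_div_left (by omega) m1
        have e2 : N / (2 * M₀) ≤ N / 2 := Nat.div_le_div_left (by omega) two_pos
        refine .inr ⟨inferInstanceAs (Finite M), g4, g7, (pow_dvd_pow 2 (by omega)).trans e,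
          G, M, g1, g6, g3, ?_, rfl⟩
        refine (Nat.pow_le_pow_left (g5.trans t1) _).trans
          (le_trans ?_ (Nat.le_of_dvd Nat.card_pos e))
        rw [← pow_mul]
        exact Nat.pow_le_pow_right two_pos (by omega)
      · exact .inl ⟨inferInstanceAs (Finite M), g4, g7, e⟩)
  rw [Set.image_union] at u3
  have u4 := u3.trans (Nat.mul_le_mul_right _ (Nat.mul_le_mul_right _ (Set.ncard_union_le _ _)))
  have v1 := (Nat.mul_le_mul_left _ (Nat.pow_le_pow_right two_pos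
    (Nat.div_le_div_left (Nat.le_add_right K₁ K₂) k1))).trans u1
  have v2 := (Nat.mul_le_mul_left _ (Nat.pow_le_pow_right two_pos
    (Nat.div_le_div_left (Nat.le_add_left K₂ K₁) m2))).trans u2
  have w := Nat.pow_le_pow_right two_pos (S17EMain_num (K := K) (K₃ := K₁ + K₂) (by omega)
    (by omega) (by omega) hN ha ht)
  simp only [pow_add, pow_one] at w
  refine le_trans (Nat.le_of_mul_le_mul_right (c := 2 ^ (N ^ 3 / (K₁ + K₂)) *
    (2 ^ (2 * N * N) * 2 ^ (2 * a ^ 2))) ?_ (by positivity)) l2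
  generalize (cl '' {G | G ∈ Vt S x y ∧ Y G}).ncard = X at u4 ⊢
  generalize Set.ncard (_ : Set Cls) = Z₁ at u4 v1
  generalize Set.ncard (_ : Set Cls) = Z₂ at u4 v2
  calc X * 2 ^ (n ^ 3 / K) * (2 ^ (N ^ 3 / (K₁ + K₂)) * (2 ^ (2 * N * N) * 2 ^ (2 * a ^ 2)))
      ≤ (Z₁ + Z₂) * hnu y * 2 ^ (t * (N * N + N)) * 2 ^ (n ^ 3 / K) *
        (2 ^ (N ^ 3 / (K₁ + K₂)) * (2 ^ (2 * N * N) * 2 ^ (2 * a ^ 2))) := by gcongr
    _ = (Z₁ * 2 ^ (N ^ 3 / (K₁ + K₂)) + Z₂ * 2 ^ (N ^ 3 / (K₁ + K₂))) * (hnu y *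
        2 ^ (t * (N * N + N)) * 2 ^ (n ^ 3 / K) * (2 ^ (2 * N * N) * 2 ^ (2 * a ^ 2))) := by ring
    _ ≤ (2 ^ (2 * N ^ 3 / 27) + 2 ^ (2 * N ^ 3 / 27)) * (hnu y *
        2 ^ (t * (N * N + N)) * 2 ^ (n ^ 3 / K) * (2 ^ (2 * N * N) * 2 ^ (2 * a ^ 2))) := by
        gcongr
    _ = 2 ^ (2 * N ^ 3 / 27) * 2 * 2 ^ (t * (N * N + N)) * 2 ^ (n ^ 3 / K) *
        (2 ^ (2 * N * N) * 2 ^ (2 * a ^ 2)) * hnu y := by ring
    _ ≤ 2 ^ (2 * a ^ 3 / 27) * 2 ^ (N ^ 3 / (K₁ + K₂)) * hnu y := Nat.mul_le_mul_right _ w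
    _ ≤ gnu (2 ^ a) * 2 ^ (2 * a ^ 2) * 2 ^ (N ^ 3 / (K₁ + K₂)) * hnu y := by gcongr
    _ = gnu (2 ^ a) * hnu y * (2 ^ (N ^ 3 / (K₁ + K₂)) * 2 ^ (2 * a ^ 2)) := by ring
    _ ≤ (cl '' Vs x y).ncard * 2 ^ (2 * N * N) *
        (2 ^ (N ^ 3 / (K₁ + K₂)) * 2 ^ (2 * a ^ 2)) := Nat.mul_le_mul_right _ l1
    _ = _ := by ring

end Pool.Agent.Lib.MP_2d211a_co.S64
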