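import Pool.Agent.Lib.MP_2d211a_co.S64CFit

/-!
Every solvable group is glued.
-/

namespace Pool.Agent.Lib.MP_2d211a_co.S64

open Subgroup H60 CategoryTheory

theorem S64CGlu_syl {G : Type} [Group G] [Finite G] (F : Subgroup G) [F.Normal]
    [Group.IsNilpotent F] {p : ℕ} [Fact p.Prime] (R : Sylow p G) :
    ((R : Subgroup G) ⊓ F).Normal ∧ ¬p ∣ (R : Subgroup G).relIndex F := by
  obtain ⟨S, hS⟩ := (R.isPGroup'.comap_subtype (K := F)).exists_le_sylow
  have hn : (S : Subgroup F).Normal := inferInstance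
  have hc : (S : Subgroup F).Characteristic := S.characteristic_of_normal hn
  have h1 : (S : Subgroup F).map F.subtype ≤ R :=
    (S.isPGroup'.map F.subtype).le_sylow_of_normal R
  have h2 : (R : Subgroup G).subgroupOf F = S :=
    le_antisymm hS (map_le_iff_le_comap.1 h1)
  refine ⟨?_, ?_⟩
  · rw [← subgroupOf_map_subtype, h2]
    infer_instance
  · rw [relIndex, h2]
    exact S.not_dvd_index

theorem S64CGlu_pow {m : ℕ} (hm : 0 < m) {P : m.primeFactors → Type} [∀ p, Group (P p)]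
    (hP : ∀ p, Nat.card (P p) = p.1 ^ m.factorization p.1) (p : m.primeFactors) :
    ∃ N : ℕ, ∀ w : ∀ q, P q, w ^ N = Pi.mulSingle p (w p) := by
  have hp : p.1.Prime := Nat.prime_of_mem_primeFactors p.2
  have co : Nat.Coprime (p.1 ^ m.factorization p.1) (m / p.1 ^ m.factorization p.1) :=
    (Nat.coprime_ordCompl hp hm.ne').pow_left _
  obtain ⟨N, h1, h2⟩ := Nat.chineseRemainder co 1 0
  refine ⟨N, fun w => funext fun q => ?_⟩
  rw [Pi.pow_apply]
  by_cases h : q = p
  · subst h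
    rw [Pi.mulSingle_eq_same]
    have : w q ^ N = w q ^ 1 :=
      pow_eq_pow_iff_modEq.2 (h1.of_dvd (hP q ▸ orderOf_dvd_natCard (w q)))
    rw [this, pow_one]
  · rw [Pi.mulSingle_eq_of_ne h]
    have hq : q.1.Prime := Nat.prime_of_mem_primeFactors q.2
    have h3 : q.1 ^ m.factorization q.1 ∣ m / p.1 ^ m.factorization p.1 := by
      have h4 : Nat.Coprime (q.1 ^ m.factorization q.1) (p.1 ^ m.factorization p.1) :=
        Nat.Coprime.pow _ _ ((Nat.coprime_primes hq hp).2 fun e => h (Subtype.ext e))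
      refine h4.dvd_of_dvd_mul_left ?_
      rw [Nat.ordProj_mul_ordCompl_eq_self]
      exact Nat.ordProj_dvd _ _
    have : w q ^ N = w q ^ 0 :=
      pow_eq_pow_iff_modEq.2 (h2.of_dvd ((hP q ▸ orderOf_dvd_natCard (w q)).trans h3))
    rw [this, pow_zero]

theorem exists_glue {m : ℕ} (hm : 0 < m) {P : m.primeFactors → Type} [∀ p, Group (P p)]
    (hP : ∀ p, Nat.card (P p) = p.1 ^ m.factorization p.1) {G : Type} [Group G] [Group.IsSolvable G]
    (hG : Nat.card G = m) (j : ∀ p, P p →* G) (hj : ∀ p, Function.Injective (j p)) :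
    ∃ (F : Subgroup (∀ p, P p)) (ψ : ∀ p, P p →* MulAut F), Adm F ψ ∧ Glue F ψ G := by
  have : Finite G := Nat.finite_of_card_ne_zero (hG ▸ hm.ne')
  obtain ⟨F1, hn, hnil, hcen⟩ := exists_fit G
  have hpr : ∀ p : m.primeFactors, Fact p.1.Prime := fun p =>
    ⟨Nat.prime_of_mem_primeFactors p.2⟩
  have hcard : ∀ p, Nat.card (j p).range = p.1 ^ (Nat.card G).factorization p.1 := fun p => by
    rw [hG, ← hP p]
    exact (Nat.card_congr (MonoidHom.ofInjective (hj p)).toEquiv).symm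
  have hsyl : ∀ p, ((j p).range ⊓ F1).Normal ∧ ¬p.1 ∣ (j p).range.relIndex F1 := fun p =>
    S64CGlu_syl F1 (Sylow.ofCard (j p).range (hcard p))
  have hpg : ∀ p, IsPGroup p.1 ((j p).range ⊓ F1 : Subgroup G) := fun p =>
    (IsPGroup.of_card (hcard p)).to_inf_left
  let A : ∀ p, Subgroup (P p) := fun p => F1.comap (j p)
  let φ : ∀ p, A p →* G := fun p => (j p).comp (A p).subtype
  have hcomm : Pairwise fun p q => ∀ (x : A p) (y : A q), Commute (φ p x) (φ q y) := by
    intro p q h x y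
    exact commute_of_normal_of_disjoint _ _ (hsyl p).1 (hsyl q).1
      (IsPGroup.disjoint_of_ne p.1 q.1 (fun e => h (Subtype.ext e)) _ _ (hpg p) (hpg q)) _ _
      ⟨⟨x.1, rfl⟩, x.2⟩ ⟨⟨y.1, rfl⟩, y.2⟩
  let F : Subgroup (∀ p, P p) := Subgroup.pi Set.univ A
  let e : F →* ∀ p, A p := MonoidHom.pi fun p =>
    ((Pi.evalMonoidHom P p).comp F.subtype).codRestrict (A p) fun f => f.2 p (Set.mem_univ p)
  let ι : F →* G := (MonoidHom.noncommPiCoprod φ hcomm).comp e
  have hsm : ∀ p (y : P p), j p y ∈ F1 → Pi.mulSingle p y ∈ F := by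
    intro p y hy q _
    by_cases h : q = p
    · subst h
      rw [Pi.mulSingle_eq_same]
      exact hy
    · rw [Pi.mulSingle_eq_of_ne h]
      exact (A q).one_mem
  have hs : ∀ p (y : P p) (f : F), (f : ∀ p, P p) = Pi.mulSingle p y → ι f = j p y := by
    intro p y f hf
    have hy : y ∈ A p := by
      have := f.2 p (Set.mem_univ p)
      rwa [hf, Pi.mulSingle_eq_same] at this
    have : e f = Pi.mulSingle p (⟨y, hy⟩ : A p) := by
      funext q
      apply Subtype.ext
      change (f : ∀ p, P p) q = _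
      rw [hf]
      by_cases h : q = p
      · subst h
        rw [Pi.mulSingle_eq_same, Pi.mulSingle_eq_same]
      · rw [Pi.mulSingle_eq_of_ne h, Pi.mulSingle_eq_of_ne h]
        rfl
    change MonoidHom.noncommPiCoprod φ hcomm (e f) = _
    rw [this, MonoidHom.noncommPiCoprod_mulSingle]
    rfl
  have hinj : Function.Injective ι := by
    rw [injective_iff_map_eq_one]
    intro f hf
    apply Subtype.ext
    funext p
    obtain ⟨N, hN⟩ := S64CGlu_pow hm hP p
    have h1 := hs p ((f : ∀ p, P p) p) (f ^ N) (hN _)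
    rw [map_pow, hf, one_pow, ← map_one (j p)] at h1
    exact (hj p h1).symm
  have hle : ι.range ≤ F1 := by
    rintro _ ⟨f, rfl⟩
    have : (MonoidHom.noncommPiCoprod φ hcomm).range ≤ F1 := by
      rw [MonoidHom.noncommPiCoprod_range]
      refine iSup_le fun p => ?_
      rintro _ ⟨x, rfl⟩
      exact x.2
    exact this ⟨e f, rfl⟩
  have hr : ι.range = F1 := by
    refine le_antisymm hle (relIndex_eq_one.1 ?_)
    by_contra h
    obtain ⟨p, hp, hd⟩ := Nat.exists_prime_and_dvd h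
    have hpm : p ∈ m.primeFactors := Nat.mem_primeFactors.2
      ⟨hp, hG ▸ (hd.trans (relIndex_dvd_card _ _)).trans (card_subgroup_dvd_card F1), hm.ne'⟩
    refine (hsyl ⟨p, hpm⟩).2 ?_
    rw [← inf_relIndex_right]
    refine hd.trans (relIndex_dvd_of_le_left _ ?_)
    rintro _ ⟨⟨y, rfl⟩, hy⟩
    exact ⟨⟨_, hsm _ y hy⟩, hs _ y _ rfl⟩
  have hno : ι.range.Normal := hr ▸ hn
  let ψ : ∀ p, P p →* MulAut F := fun p =>
    (MulAut.congr (MonoidHom.ofInjective hinj).symm).toMonoidHom.comp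
      ((MulAut.conjNormal (H := ι.range)).comp (j p))
  have hψ : ∀ p y f, j p y * ι f * (j p y)⁻¹ = ι (ψ p y f) := by
    intro p y f
    have : ∀ z : ι.range, ι ((MonoidHom.ofInjective hinj).symm z) = z := fun z =>
      MonoidHom.apply_ofInjective_symm hinj z
    change _ = ι ((MonoidHom.ofInjective hinj).symm
      (MulAut.conjNormal (H := ι.range) (j p y) (MonoidHom.ofInjective hinj f)))
    rw [this]
    rfl
  refine ⟨F, ψ, fun p y f => ?_, hG, ι, hinj, hno, hr ▸ hcen, fun p => ⟨j p, hj p, hψ p, ?_⟩⟩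
  · obtain ⟨N, hN⟩ := S64CGlu_pow hm hP p
    have h1 := hs p ((f : ∀ p, P p) p) (f ^ N) (hN _)
    have h2 := hs p ((ψ p y f : ∀ p, P p) p) (ψ p y f ^ N) (hN _)
    apply hj p
    rw [← h2, ← map_pow, ← hψ, h1, map_mul, map_mul, map_inv]
  · intro y f h
    have hy : j p y ∈ F1 := h ▸ hle ⟨f, rfl⟩
    exact congrArg Subtype.val (hinj ((hs p y ⟨_, hsm p y hy⟩ rfl).trans h))

end Pool.Agent.Lib.MP_2d211a_co.S64
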