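import Pool.Agent.Lib.MP_2d211a_co.S64CGas

/-!
The glued group is determined by the data.
-/

namespace Pool.Agent.Lib.MP_2d211a_co.S64

open Subgroup H60 CategoryTheory

/-- Conjugation read through an embedding with normal range. -/
theorem rec_conj {F G : Type} [Group F] [Group G] (ι : F →* G) (hι : Function.Injective ι)
    (hn : ι.range.Normal) : ∃ c : G →* MulAut F, ∀ g f, ι (c g f) = g * ι f * g⁻¹ := by
  refine ⟨(MulAut.congr (MonoidHom.ofInjective hι).symm).toMonoidHom.comp MulAut.conjNormal,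
    fun g f => ?_⟩
  have h1 : ∀ x : ι.range, ι ((MonoidHom.ofInjective hι).symm x) = x := fun x =>
    MonoidHom.apply_ofInjective_symm hι x
  simp [MulAut.congr, h1, MonoidHom.ofInjective_apply]

theorem rec_idx {G R : Type} [Group G] [Group R] {m p : ℕ} (hm : 0 < m) (hp : p.Prime)
    (hG : Nat.card G = m) (hR : Nat.card R = p ^ m.factorization p) (j : R →* G)
    (hj : Function.Injective j) {K : Subgroup G} (hK : ∀ y, j y ∈ K) : ¬p ∣ K.index := by
  intro h
  have h1 := j.range.card_mul_index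
  rw [← Nat.card_congr (MonoidHom.ofInjective hj).toEquiv, hR, hG] at h1
  have h2 : K.index ∣ j.range.index := index_dvd_of_le (by rintro _ ⟨y, rfl⟩; exact hK y)
  refine Nat.pow_succ_factorization_not_dvd hm.ne' hp ?_
  conv_rhs => rw [← h1]
  rw [pow_succ]
  exact Nat.mul_dvd_mul_left _ (h.trans h2)

theorem rec_top {G : Type} [Group G] {m : ℕ} (hm : 0 < m) (hG : Nat.card G = m)
    {K : Subgroup G} (hK : ∀ p : m.primeFactors, ¬p.1 ∣ K.index) : K = ⊤ := by
  rw [← index_eq_one]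
  by_contra h
  obtain ⟨q, hq, h1⟩ := Nat.exists_prime_and_dvd h
  exact hK ⟨q, Nat.mem_primeFactors.2 ⟨hq, hG ▸ h1.trans K.index_dvd_card, hm.ne'⟩⟩ h1

/-- The abstract form: a group `D` over `G` and `G'`. -/
theorem rec_core {D F G G' : Type} [Group D] [Finite D] [Group F] [Group G] [Group G']
    (hc : Nat.card G = Nat.card G') (r : D →* G) (s : D →* G') (hr : Function.Surjective r)
    (hs : Function.Surjective s) (δ : F →* D) (hn : δ.range.Normal)
    (h1 : ∀ f, s (δ f) = 1 → f = 1) (h2 : ∀ a, s a = 1 → ∃ z, r (δ z) = r a)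
    (h3 : ∀ a b, s a = 1 → s b = 1 → a * b = b * a)
    (h4 : ∀ p : ℕ, p.Prime → ∃ H : Subgroup D, (∀ y ∈ H, ∀ a f, s a = 1 → y = a * δ f → a = 1) ∧
      ¬p ∣ (H.map s).index) : Nonempty (G ≃* G') := by
  let π := QuotientGroup.mk' δ.range
  have hπ : Function.Surjective π := QuotientGroup.mk'_surjective _
  have hk : ∀ x, π x = 1 ↔ x ∈ δ.range := fun x => QuotientGroup.eq_one_iff x
  have : (s.ker.map π).Normal := Normal.map inferInstance π hπ
  obtain ⟨E₀, hE⟩ := gaschutz (s.ker.map π) (by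
    rintro _ ⟨a, ha, rfl⟩ _ ⟨b, hb, rfl⟩
    rw [← map_mul, ← map_mul, h3 a b ha hb]) (fun p hp => by
    obtain ⟨H, h5, h6⟩ := h4 p hp
    refine ⟨H.map π, eq_bot_iff.2 ?_, fun h7 => h6 (h7.trans ?_)⟩
    · rintro _ ⟨⟨y, hy, rfl⟩, a, ha, h7⟩
      obtain ⟨f, hf⟩ := (hk (a⁻¹ * y)).1 (by rw [map_mul, map_inv, h7, inv_mul_cancel])
      obtain rfl := h5 y hy a f ha (by rw [hf, mul_inv_cancel_left])
      rw [← h7, map_one]
      exact one_mem _
    · rw [← index_comap_of_surjective _ hπ, ← index_map_eq _ hs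
        ((le_comap_map π s.ker).trans (comap_mono le_sup_right))]
      exact index_dvd_of_le (map_mono ((le_comap_map π H).trans (comap_mono le_sup_left))))
  let E := E₀.comap π
  have h5 : Function.Injective (s.comp E.subtype) := (injective_iff_map_eq_one _).2 fun e he => by
    have h6 : π e ∈ s.ker.map π ⊓ E₀ := ⟨⟨e, he, rfl⟩, e.2⟩
    rw [hE.disjoint.eq_bot, mem_bot, hk] at h6
    obtain ⟨f, hf⟩ := h6
    obtain rfl := h1 f (hf ▸ he)
    exact Subtype.ext (by rw [← hf, map_one]; rfl)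
  have h6 : Function.Surjective (r.comp E.subtype) := fun g => by
    obtain ⟨d, rfl⟩ := hr g
    obtain ⟨⟨⟨_, a, ha, rfl⟩, e⟩, he⟩ := hE.2 (π d)
    obtain ⟨z, hz⟩ := h2 a ha
    refine ⟨⟨δ z * (a⁻¹ * d), ?_⟩, by simp [hz]⟩
    have h7 : π (δ z) = 1 := (hk _).2 ⟨z, rfl⟩
    have he' : π a * e = π d := he
    show π _ ∈ E₀
    rw [map_mul, h7, one_mul, map_mul, map_inv, ← he', inv_mul_cancel_left]
    exact e.2
  have : Finite G := .of_surjective r hr
  have : Finite G' := .of_surjective s hs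
  have h7 := Nat.card_le_card_of_injective _ h5
  have h8 := Nat.card_le_card_of_surjective _ h6
  exact ⟨(MulEquiv.ofBijective _ (h6.bijective_of_nat_card_le (by omega))).symm.trans
    (MulEquiv.ofBijective _ (h5.bijective_of_nat_card_le (by omega)))⟩

theorem Glue.iso {m : ℕ} (hm : 0 < m) {P : m.primeFactors → Type} [∀ p, Group (P p)]
    (hP : ∀ p, Nat.card (P p) = p.1 ^ m.factorization p.1) {F : Subgroup (∀ p, P p)}
    {ψ : ∀ p, P p →* MulAut F} {G G' : Type} [Group G] [Group G'] (h : Glue F ψ G)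
    (h' : Glue F ψ G') : Nonempty (G ≃* G') := by
  obtain ⟨hG, ι, i1, i2, i3, i4⟩ := h
  obtain ⟨hG', ι', k1, k2, -, k4⟩ := h'
  choose j j1 j2 j3 using i4
  choose l l1 l2 l3 using k4
  obtain ⟨c, hc⟩ := rec_conj ι i1 i2
  obtain ⟨c', hc'⟩ := rec_conj ι' k1 k2
  have : Finite G := Nat.finite_of_card_ne_zero (by omega)
  have : Finite G' := Nat.finite_of_card_ne_zero (by omega)
  let D := (c.comp (MonoidHom.fst G G')).eqLocus (c'.comp (MonoidHom.snd G G'))
  have hD : ∀ x : G × G', x ∈ D ↔ c x.1 = c' x.2 := fun _ => Iff.rfl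
  let δ : F →* D := (ι.prod ι').codRestrict D fun f => (hD _).2 (MulEquiv.ext fun x => by
    have a1 : c (ι f) x = f * x * f⁻¹ := i1 (by simp [hc])
    have a2 : c' (ι' f) x = f * x * f⁻¹ := k1 (by simp [hc'])
    exact a1.trans a2.symm)
  let η : ∀ p, P p →* D := fun p => ((j p).prod (l p)).codRestrict D fun y =>
    (hD _).2 (MulEquiv.ext fun x => by
      have a1 : c (j p y) x = ψ p y x := i1 (by rw [hc, j2])
      have a2 : c' (l p y) x = ψ p y x := k1 (by rw [hc', l2])
      exact a1.trans a2.symm)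
  let r : D →* G := (MonoidHom.fst G G').comp D.subtype
  let s : D →* G' := (MonoidHom.snd G G').comp D.subtype
  have hp : ∀ p : m.primeFactors, p.1.Prime := fun p => Nat.prime_of_mem_primeFactors p.2
  have cen : ∀ a : D, s a = 1 → r a ∈ centralizer (ι.range : Set G) := fun a ha => by
    rintro _ ⟨f, rfl⟩
    have a1 : c (r a) = c' (s a) := a.2
    have a2 := hc (r a) f
    rw [a1, ha, map_one] at a2
    exact eq_mul_inv_iff_mul_eq.1 a2
  have ex : ∀ a b : D, r a = r b → s a = s b → a = b := fun a b e1 e2 =>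
    Subtype.ext (Prod.ext e1 e2)
  refine rec_core (hG.trans hG'.symm) r s
    (MonoidHom.range_eq_top.1 (rec_top hm hG fun p =>
      rec_idx hm (hp p) hG (hP p) (j p) (j1 p) fun y => ⟨η p y, rfl⟩))
    (MonoidHom.range_eq_top.1 (rec_top hm hG' fun p =>
      rec_idx hm (hp p) hG' (hP p) (l p) (l1 p) fun y => ⟨η p y, rfl⟩))
    δ ⟨?_⟩ (fun f hf => k1 (by rw [map_one]; exact hf)) (fun a ha => i3 (cen a ha))
    (fun a b ha hb => ex _ _ ?_ (by simp [ha, hb])) fun p pp => ?_
  · rintro _ ⟨f, rfl⟩ d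
    refine ⟨c (r d) f, ex _ _ ?_ ?_⟩
    · rw [map_mul, map_mul, map_inv]
      exact hc _ _
    · have a1 : c (r d) = c' (s d) := d.2
      rw [map_mul, map_mul, map_inv, a1]
      exact hc' _ _
  · rw [map_mul, map_mul]
    exact cen b hb _ (i3 (cen a ha))
  by_cases hq : p ∣ m
  · let q : m.primeFactors := ⟨p, Nat.mem_primeFactors.2 ⟨pp, hq, hm.ne'⟩⟩
    refine ⟨(η q).range, ?_, rec_idx hm pp hG' (hP q) (l q) (l1 q) fun y => ⟨η q y, ⟨y, rfl⟩, rfl⟩⟩
    rintro _ ⟨y, rfl⟩ a f ha he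
    obtain ⟨z, hz⟩ := i3 (cen a ha)
    have a1 : l q y = ι' f := by
      have := congrArg s he
      rwa [map_mul, ha, one_mul] at this
    have a2 : j q y = ι (z * f) := by
      have := congrArg r he
      rwa [map_mul, ← hz, show r (δ f) = ι f from rfl, ← map_mul] at this
    have a3 : z * f = f := Subtype.ext ((j3 q y _ a2).symm.trans (l3 q y _ a1))
    refine ex _ _ ?_ (by rw [ha, map_one])
    rw [← hz, mul_eq_right.1 a3, map_one, map_one]
  · refine ⟨⊥, fun y hy a f ha he => ?_, fun h => hq (hG' ▸ h.trans (index_dvd_card _))⟩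
    rw [mem_bot.1 hy] at he
    have a1 : ι' f = 1 := by
      have := congrArg s he
      rw [map_mul, ha, one_mul, map_one] at this
      exact this.symm
    obtain rfl : f = 1 := k1 (by rw [a1, map_one])
    rw [he, map_one, mul_one]

end Pool.Agent.Lib.MP_2d211a_co.S64
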