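import Pool.Agent.Lib.MP_2d211a_co.S17EDef
import Pool.Agent.Lib.MP_2d211a_co.S64CRec
import Pool.Agent.Lib.MP_2d211a_co.S64CGlu

/-!
Gluing with one more homomorphism.
-/

namespace Pool.Agent.Lib.MP_2d211a_co.S64

open Subgroup H60 CategoryTheory

variable {c : ℕ} {S : Set GrpCat.{0}}

theorem Glue2.iso {m : ℕ} (hm : 0 < m) {P : m.primeFactors → Type} [∀ p, Group (P p)]
    (hP : ∀ p, Nat.card (P p) = p.1 ^ m.factorization p.1) {F : Subgroup (∀ p, P p)}
    {ψ : ∀ p, P p →* MulAut F} {A : Type} [Group A] {ω : ∀ p, P p →* A} {G G' : Type} [Group G]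
    [Group G'] (h : Glue2 F ψ ω G) (h' : Glue2 F ψ ω G') : Nonempty (G ≃* G') := by
  obtain ⟨hG, ι, χ, i1, i2, i5, i3, i4⟩ := h
  obtain ⟨hG', ι', χ', k1, k2, k5, -, k4⟩ := h'
  choose j j1 j2 j3 j4 using i4
  choose l l1 l2 l3 l4 using k4
  obtain ⟨c, hc⟩ := rec_conj ι i1 i2
  obtain ⟨c', hc'⟩ := rec_conj ι' k1 k2
  have : Finite G := Nat.finite_of_card_ne_zero (by omega)
  have : Finite G' := Nat.finite_of_card_ne_zero (by omega)
  let D := ((c.prod χ).comp (MonoidHom.fst G G')).eqLocus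
    ((c'.prod χ').comp (MonoidHom.snd G G'))
  have hD : ∀ x : G × G', x ∈ D ↔ c x.1 = c' x.2 ∧ χ x.1 = χ' x.2 := fun _ => Prod.ext_iff
  let δ : F →* D := (ι.prod ι').codRestrict D fun f => (hD _).2 ⟨MulEquiv.ext fun x => by
    have a1 : c (ι f) x = f * x * f⁻¹ := i1 (by simp [hc])
    have a2 : c' (ι' f) x = f * x * f⁻¹ := k1 (by simp [hc'])
    exact a1.trans a2.symm, (i5 ⟨f, rfl⟩).trans (k5 ⟨f, rfl⟩).symm⟩
  let η : ∀ p, P p →* D := fun p => ((j p).prod (l p)).codRestrict D fun y =>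
    (hD _).2 ⟨MulEquiv.ext fun x => by
      have a1 : c (j p y) x = ψ p y x := i1 (by rw [hc, j2])
      have a2 : c' (l p y) x = ψ p y x := k1 (by rw [hc', l2])
      exact a1.trans a2.symm, (j4 p y).trans (l4 p y).symm⟩
  let r : D →* G := (MonoidHom.fst G G').comp D.subtype
  let s : D →* G' := (MonoidHom.snd G G').comp D.subtype
  have hp : ∀ p : m.primeFactors, p.1.Prime := fun p => Nat.prime_of_mem_primeFactors p.2
  have cen : ∀ a : D, s a = 1 → r a ∈ centralizer (ι.range : Set G) := fun a ha => by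
    rintro _ ⟨f, rfl⟩
    have a1 : c (r a) = c' (s a) := ((hD _).1 a.2).1
    have a2 := hc (r a) f
    rw [a1, ha, map_one] at a2
    exact eq_mul_inv_iff_mul_eq.1 a2
  have i6 : ∀ a : D, s a = 1 → r a ∈ ι.range := fun a ha => i3 ⟨cen a ha, by
    have a1 : χ (r a) = χ' (s a) := ((hD _).1 a.2).2
    rw [ha, map_one] at a1
    exact a1⟩
  have ex : ∀ a b : D, r a = r b → s a = s b → a = b := fun a b e1 e2 =>
    Subtype.ext (Prod.ext e1 e2)
  refine rec_core (hG.trans hG'.symm) r s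
    (MonoidHom.range_eq_top.1 (rec_top hm hG fun p =>
      rec_idx hm (hp p) hG (hP p) (j p) (j1 p) fun y => ⟨η p y, rfl⟩))
    (MonoidHom.range_eq_top.1 (rec_top hm hG' fun p =>
      rec_idx hm (hp p) hG' (hP p) (l p) (l1 p) fun y => ⟨η p y, rfl⟩))
    δ ⟨?_⟩ (fun f hf => k1 (by rw [map_one]; exact hf)) (fun a ha => i6 a ha)
    (fun a b ha hb => ex _ _ ?_ (by simp [ha, hb])) fun p pp => ?_
  · rintro _ ⟨f, rfl⟩ d
    refine ⟨c (r d) f, ex _ _ ?_ ?_⟩
    · rw [map_mul, map_mul, map_inv]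
      exact hc _ _
    · have a1 : c (r d) = c' (s d) := ((hD _).1 d.2).1
      rw [map_mul, map_mul, map_inv, a1]
      exact hc' _ _
  · rw [map_mul, map_mul]
    exact cen b hb _ (i6 a ha)
  by_cases hq : p ∣ m
  · let q : m.primeFactors := ⟨p, Nat.mem_primeFactors.2 ⟨pp, hq, hm.ne'⟩⟩
    refine ⟨(η q).range, ?_, rec_idx hm pp hG' (hP q) (l q) (l1 q) fun y => ⟨η q y, ⟨y, rfl⟩, rfl⟩⟩
    rintro _ ⟨y, rfl⟩ a f ha he
    obtain ⟨z, hz⟩ := i6 a ha
    have a1 : l q y = ι' f := by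
      have := congrArg s he
      rwa [map_mul, ha, one_mul] at this
    have a2 : j q y = ι (z * f) := by
      have := congrArg r he
      rwa [map_mul, ← hz, show r (δ f) = ι f from rfl, ← map_mul] at this
    have a3 : z * f = f := Subtype.ext ((j3 q y _ a2).symm.trans (l3 q y _ a1))
    refine ex _ _ ?_ (by rw [ha, map_one])
    rw [← hz, mul_eq_right.1 a3, map_one, map_one]
  · refine ⟨⊥, fun y hy a f ha he => ?_, fun h => hq (hG' ▸ h.trans (index_dvd_card _))⟩
    rw [mem_bot.1 hy] at he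
    have a1 : ι' f = 1 := by
      have := congrArg s he
      rw [map_mul, ha, one_mul, map_one] at this
      exact this.symm
    obtain rfl : f = 1 := k1 (by rw [a1, map_one])
    rw [he, map_one, mul_one]

theorem exists_glue2 {m : ℕ} (hm : 0 < m) {P : m.primeFactors → Type} [∀ p, Group (P p)]
    (hP : ∀ p, Nat.card (P p) = p.1 ^ m.factorization p.1) {G : Type} [Group G]
    (hG : Nat.card G = m) (j : ∀ p, P p →* G) (hj : ∀ p, Function.Injective (j p))
    (F1 : Subgroup G) (hn : F1.Normal) (hnil : Group.IsNilpotent F1) {A : Type} [Group A]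
    (χ : G →* A) (h1 : F1 ≤ χ.ker) (hcen : centralizer (F1 : Set G) ⊓ χ.ker ≤ F1) :
    ∃ (F : Subgroup (∀ p, P p)) (ψ : ∀ p, P p →* MulAut F), Adm F ψ ∧
      Glue2 F ψ (fun p => χ.comp (j p)) G := by
  have : Finite G := Nat.finite_of_card_ne_zero (hG ▸ hm.ne')
  have hpr : ∀ p : m.primeFactors, Fact p.1.Prime := fun p =>
    ⟨Nat.prime_of_mem_primeFactors p.2⟩
  have hcard : ∀ p, Nat.card (j p).range = p.1 ^ (Nat.card G).factorization p.1 := fun p => by
    rw [hG, ← hP p]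
    exact (Nat.card_congr (MonoidHom.ofInjective (hj p)).toEquiv).symm
  have hsyl : ∀ p, ((j p).range ⊓ F1).Normal ∧ ¬p.1 ∣ (j p).range.relIndex F1 := fun p =>
    S64CGlu_syl F1 (Sylow.ofCard (j p).range (hcard p))
  have hpg : ∀ p, IsPGroup p.1 ((j p).range ⊓ F1 : Subgroup G) := fun p =>
    (IsPGroup.of_card (hcard p)).to_inf_left
  let A : ∀ p, Subgroup (P p) := fun p => F1.comap (j p)
  let φ : ∀ p, A p →* G := fun p => (j p).comp (A p).subtype
  have hcomm : Pairwise fun p q => ∀ (x : A p) (y : A q), Commute (φ p x) (φ q y) := by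
    intro p q h x y
    exact commute_of_normal_of_disjoint _ _ (hsyl p).1 (hsyl q).1
      (IsPGroup.disjoint_of_ne p.1 q.1 (fun e => h (Subtype.ext e)) _ _ (hpg p) (hpg q)) _ _
      ⟨⟨x.1, rfl⟩, x.2⟩ ⟨⟨y.1, rfl⟩, y.2⟩
  let F : Subgroup (∀ p, P p) := Subgroup.pi Set.univ A
  let e : F →* ∀ p, A p := MonoidHom.pi fun p =>
    ((Pi.evalMonoidHom P p).comp F.subtype).codRestrict (A p) fun f => f.2 p (Set.mem_univ p)
  let ι : F →* G := (MonoidHom.noncommPiCoprod φ hcomm).comp e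
  have hsm : ∀ p (y : P p), j p y ∈ F1 → Pi.mulSingle p y ∈ F := by
    intro p y hy q _
    by_cases h : q = p
    · subst h
      rw [Pi.mulSingle_eq_same]
      exact hy
    · rw [Pi.mulSingle_eq_of_ne h]
      exact (A q).one_mem
  have hs : ∀ p (y : P p) (f : F), (f : ∀ p, P p) = Pi.mulSingle p y → ι f = j p y := by
    intro p y f hf
    have hy : y ∈ A p := by
      have := f.2 p (Set.mem_univ p)
      rwa [hf, Pi.mulSingle_eq_same] at this
    have : e f = Pi.mulSingle p (⟨y, hy⟩ : A p) := by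
      funext q
      apply Subtype.ext
      change (f : ∀ p, P p) q = _
      rw [hf]
      by_cases h : q = p
      · subst h
        rw [Pi.mulSingle_eq_same, Pi.mulSingle_eq_same]
      · rw [Pi.mulSingle_eq_of_ne h, Pi.mulSingle_eq_of_ne h]
        rfl
    change MonoidHom.noncommPiCoprod φ hcomm (e f) = _
    rw [this, MonoidHom.noncommPiCoprod_mulSingle]
    rfl
  have hinj : Function.Injective ι := by
    rw [injective_iff_map_eq_one]
    intro f hf
    apply Subtype.ext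
    funext p
    obtain ⟨N, hN⟩ := S64CGlu_pow hm hP p
    have h1 := hs p ((f : ∀ p, P p) p) (f ^ N) (hN _)
    rw [map_pow, hf, one_pow, ← map_one (j p)] at h1
    exact (hj p h1).symm
  have hle : ι.range ≤ F1 := by
    rintro _ ⟨f, rfl⟩
    have : (MonoidHom.noncommPiCoprod φ hcomm).range ≤ F1 := by
      rw [MonoidHom.noncommPiCoprod_range]
      refine iSup_le fun p => ?_
      rintro _ ⟨x, rfl⟩
      exact x.2
    exact this ⟨e f, rfl⟩
  have hr : ι.range = F1 := by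
    refine le_antisymm hle (relIndex_eq_one.1 ?_)
    by_contra h
    obtain ⟨p, hp, hd⟩ := Nat.exists_prime_and_dvd h
    have hpm : p ∈ m.primeFactors := Nat.mem_primeFactors.2
      ⟨hp, hG ▸ (hd.trans (relIndex_dvd_card _ _)).trans (card_subgroup_dvd_card F1), hm.ne'⟩
    refine (hsyl ⟨p, hpm⟩).2 ?_
    rw [← inf_relIndex_right]
    refine hd.trans (relIndex_dvd_of_le_left _ ?_)
    rintro _ ⟨⟨y, rfl⟩, hy⟩
    exact ⟨⟨_, hsm _ y hy⟩, hs _ y _ rfl⟩
  have hno : ι.range.Normal := hr ▸ hn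
  let ψ : ∀ p, P p →* MulAut F := fun p =>
    (MulAut.congr (MonoidHom.ofInjective hinj).symm).toMonoidHom.comp
      ((MulAut.conjNormal (H := ι.range)).comp (j p))
  have hψ : ∀ p y f, j p y * ι f * (j p y)⁻¹ = ι (ψ p y f) := by
    intro p y f
    have : ∀ z : ι.range, ι ((MonoidHom.ofInjective hinj).symm z) = z := fun z =>
      MonoidHom.apply_ofInjective_symm hinj z
    change _ = ι ((MonoidHom.ofInjective hinj).symm
      (MulAut.conjNormal (H := ι.range) (j p y) (MonoidHom.ofInjective hinj f)))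
    rw [this]
    rfl
  refine ⟨F, ψ, fun p y f => ?_, hG, ι, χ, hinj, hno, hr ▸ h1, hr ▸ hcen,
    fun p => ⟨j p, hj p, hψ p, ?_, fun _ => rfl⟩⟩
  · obtain ⟨N, hN⟩ := S64CGlu_pow hm hP p
    have h1 := hs p ((f : ∀ p, P p) p) (f ^ N) (hN _)
    have h2 := hs p ((ψ p y f : ∀ p, P p) p) (ψ p y f ^ N) (hN _)
    apply hj p
    rw [← h2, ← map_pow, ← hψ, h1, map_mul, map_mul, map_inv]
  · intro y f h
    have hy : j p y ∈ F1 := h ▸ hle ⟨f, rfl⟩
    exact congrArg Subtype.val (hinj ((hs p y ⟨_, hsm p y hy⟩ rfl).trans h))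

end Pool.Agent.Lib.MP_2d211a_co.S64
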