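import Pool.Agent.Lib.MP_2d211a_co.S64CCop

/-!
The number of admissible actions.
-/

namespace Pool.Agent.Lib.MP_2d211a_co.S64

open Subgroup H60 CategoryTheory

section
variable {ι : Type} {P : ι → Type} [∀ p, Group (P p)]

/-- The elements of `F` with trivial `p`-th component. -/
def S64CAdmQ (F : Subgroup (∀ p, P p)) (p : ι) : Subgroup F :=
  ((Pi.evalMonoidHom P p).comp F.subtype).ker

theorem S64CAdm_mem {F : Subgroup (∀ p, P p)} {p : ι} {f : F} :
    f ∈ S64CAdmQ F p ↔ (f : ∀ p, P p) p = 1 := Iff.rfl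

/-- The restriction of an admissible action to the elements with trivial `p`-th component. -/
def S64CAdmRes (F : Subgroup (∀ p, P p)) (p : ι) (φ : P p →* MulAut F)
    (h : ∀ y (f : F), (φ y f : ∀ p, P p) p = y * (f : ∀ p, P p) p * y⁻¹) :
    P p →* MulAut (S64CAdmQ F p) where
  toFun y :=
    { toFun := fun f => ⟨φ y f, by
        rw [S64CAdm_mem, h, S64CAdm_mem.1 f.2]; simp⟩
      invFun := fun f => ⟨φ y⁻¹ f, by
        rw [S64CAdm_mem, h, S64CAdm_mem.1 f.2]; simp⟩
      left_inv := fun f => Subtype.ext (by simp)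
      right_inv := fun f => Subtype.ext (by simp)
      map_mul' := fun f g => Subtype.ext (by simp) }
  map_one' := MulEquiv.ext fun f => Subtype.ext (by simp)
  map_mul' y z := MulEquiv.ext fun f => Subtype.ext (by simp)

theorem S64CAdm_inj (F : Subgroup (∀ p, P p)) (p : ι)
    (hc : ∀ q, q ≠ p → (Nat.card (P q)).Coprime (Nat.card (P p))) {φ φ' : P p →* MulAut F}
    (h : ∀ y (f : F), (φ y f : ∀ p, P p) p = y * (f : ∀ p, P p) p * y⁻¹)
    (h' : ∀ y (f : F), (φ' y f : ∀ p, P p) p = y * (f : ∀ p, P p) p * y⁻¹)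
    (e : S64CAdmRes F p φ h = S64CAdmRes F p φ' h') : φ = φ' := by
  refine MonoidHom.ext fun y => MulEquiv.ext fun f => Subtype.ext (funext fun q => ?_)
  by_cases hq : q = p
  · subst hq
    rw [h, h']
  · have hf : f ^ Nat.card (P p) ∈ S64CAdmQ F p := by
      rw [S64CAdm_mem]
      simp
    have e0 := congrArg Subtype.val
      (DFunLike.congr_fun (DFunLike.congr_fun e y) (⟨_, hf⟩ : S64CAdmQ F p))
    have e1 : φ y (f ^ Nat.card (P p)) = φ' y (f ^ Nat.card (P p)) := e0
    rw [map_pow, map_pow] at e1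
    have e2 := congrFun (congrArg Subtype.val e1) q
    exact (hc q hq).pow_left_bijective.injective (by simpa using e2)

end

theorem card_adm {m N : ℕ} (hm : 0 < m) (hN : m ≤ 2 ^ N) {P : m.primeFactors → Type}
    [∀ p, Group (P p)] (hP : ∀ p, Nat.card (P p) = p.1 ^ m.factorization p.1)
    (F : Subgroup (∀ p, P p)) : {ψ : ∀ p, P p →* MulAut F | Adm F ψ}.Finite ∧
      {ψ : ∀ p, P p →* MulAut F | Adm F ψ}.ncard ≤ 2 ^ (4 * N * N * m.primeFactors.card) := by
  have hp : ∀ p : m.primeFactors, p.1.Prime := fun p => Nat.prime_of_mem_primeFactors p.2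
  have hfin : ∀ p, Finite (P p) := fun p =>
    Nat.finite_of_card_ne_zero (hP p ▸ (pow_pos (hp p).pos _).ne')
  have hpg : ∀ p, IsPGroup p.1 (P p) := fun p => IsPGroup.of_card (hP p)
  have hnil : ∀ p, Group.IsNilpotent (P p) := fun p =>
    have := Fact.mk (hp p)
    (hpg p).isNilpotent
  have hall : Nat.card (∀ p, P p) = m := by
    rw [Nat.card_pi, Finset.prod_congr rfl fun p _ => hP p,
      Finset.prod_coe_sort m.primeFactors fun p => p ^ m.factorization p]
    exact Nat.prod_factorization_pow_eq_self hm.ne'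
  have hcop : ∀ p q : m.primeFactors, q ≠ p → ∀ k, (Nat.card (P q)).Coprime (p.1 ^ k) :=
    fun p q hq k => by
      rw [hP q]
      exact Nat.Coprime.pow _ _
        ((Nat.coprime_primes (hp q) (hp p)).2 fun h => hq (Subtype.ext h))
  have hQ : ∀ p : m.primeFactors, ¬p.1 ∣ Nat.card (S64CAdmQ F p) := fun p hd => by
    have := Fact.mk (hp p)
    obtain ⟨x, hx⟩ := exists_prime_orderOf_dvd_card' p.1 hd
    have h1 : x ^ p.1 = 1 := by rw [← hx]; exact pow_orderOf_eq_one x
    have h2 : x = 1 := by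
      refine Subtype.ext (Subtype.ext (funext fun q => ?_))
      by_cases hq : q = p
      · subst hq
        exact S64CAdm_mem.1 x.2
      · have h3 := congrFun (congrArg Subtype.val (congrArg Subtype.val h1)) q
        refine (hcop p q hq 1).pow_left_bijective.injective ?_
        simpa using h3
    rw [h2, orderOf_one] at hx
    exact (hp p).one_lt.ne hx
  have hQN : ∀ p : m.primeFactors, Nat.card (S64CAdmQ F p) ≤ 2 ^ N := fun p =>
    (Subgroup.card_le_card_group _).trans ((Subgroup.card_le_card_group _).trans (hall.trans_le hN))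
  have hPN : ∀ p : m.primeFactors, Nat.card (P p) ≤ 2 ^ N := fun p => by
    rw [hP p]
    exact (Nat.ordProj_le _ hm.ne').trans hN
  have hf : ∀ p : m.primeFactors, Finite (P p →* MulAut (S64CAdmQ F p)) := fun p =>
    (card_hom_le (hPN p)).1
  let g : {ψ : ∀ p, P p →* MulAut F | Adm F ψ} → ∀ p, P p →* MulAut (S64CAdmQ F p) :=
    fun ψ p => S64CAdmRes F p (ψ.1 p) (ψ.2 p)
  have hg : Function.Injective g := fun ψ ψ' e => Subtype.ext (funext fun p =>
    S64CAdm_inj F p (fun q hq => by rw [hP p]; exact hcop p q hq _) (ψ.2 p) (ψ'.2 p)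
      (congrFun e p))
  refine ⟨Finite.of_injective g hg, ?_⟩
  rw [← Nat.card_coe_set_eq]
  refine (Nat.card_le_card_of_injective g hg).trans ?_
  rw [Nat.card_pi, pow_mul]
  refine (Finset.prod_le_pow_card _ _ _ fun p _ =>
    card_hom_cop (hp p) (hQ p) (hpg p) (hQN p) (hPN p)).trans ?_
  simp

end Pool.Agent.Lib.MP_2d211a_co.S64
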