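import Pool.Agent.Lib.MP_2d211a_co.S17EFin
import Pool.Agent.Lib.MP_2d211a_co.S17EChi
import Pool.Agent.Lib.MP_2d211a_co.S17EAut
import Pool.Agent.Lib.MP_2d211a_co.S17ERec
import Pool.Agent.Lib.MP_2d211a_co.S64CAdm

/-!
Tame groups with given Sylow subgroups.
-/

namespace Pool.Agent.Lib.MP_2d211a_co.S64

open Subgroup H60 CategoryTheory

variable {c : ℕ} {S : Set GrpCat.{0}}

theorem S17EOrd_one {m N : ℕ} (hm : 0 < m) (hN : m ≤ 2 ^ N) {P : m.primeFactors → Type}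
    [∀ p, Group (P p)] (hP : ∀ p, Nat.card (P p) = p.1 ^ m.factorization p.1) {A : Type} [Group A]
    (ω : ∀ p, P p →* A) :
    (cl '' {G | ∃ (F : Subgroup (∀ p, P p)) (ψ : ∀ p, P p →* MulAut F),
      Adm F ψ ∧ Glue2 F ψ ω G}).Finite ∧
    (cl '' {G | ∃ (F : Subgroup (∀ p, P p)) (ψ : ∀ p, P p →* MulAut F),
      Adm F ψ ∧ Glue2 F ψ ω G}).ncard ≤ 2 ^ (N * N * (1 + 4 * m.primeFactors.card)) := by
  have hc : Nat.card (∀ p, P p) = m := by
    rw [Nat.card_pi]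
    simp only [hP]
    rw [Finset.prod_coe_sort m.primeFactors fun p => p ^ m.factorization p]
    exact Nat.prod_factorization_pow_eq_self hm.ne'
  have : Finite (∀ p, P p) := Nat.finite_of_card_ne_zero (hc.symm ▸ hm.ne')
  have h1 := cover (Set.finite_univ (α := Subgroup (∀ p, P p)))
    (fun F => cl '' {G | ∃ ψ : ∀ p, P p →* MulAut F, Adm F ψ ∧ Glue2 F ψ ω G})
    (2 ^ (4 * N * N * m.primeFactors.card)) (fun F _ => ?_)
    (cl '' {G | ∃ (F : Subgroup (∀ p, P p)) (ψ : ∀ p, P p →* MulAut F),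
      Adm F ψ ∧ Glue2 F ψ ω G}) ?_
  · refine ⟨h1.1, h1.2.trans ?_⟩
    rw [Set.ncard_univ]
    calc _ ≤ 2 ^ (N * N) * 2 ^ (4 * N * N * m.primeFactors.card) :=
          Nat.mul_le_mul_right _ (card_subgroup_le (hc.symm ▸ hN))
      _ = _ := by rw [← pow_add]; congr 1; ring
  · obtain ⟨a1, a2⟩ := card_adm hm hN hP F
    have h2 := cover a1 (fun ψ => cl '' {G | Glue2 F ψ ω G}) 1 (fun ψ _ => ?_)
      (cl '' {G | ∃ ψ : ∀ p, P p →* MulAut F, Adm F ψ ∧ Glue2 F ψ ω G}) ?_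
    · exact ⟨h2.1, h2.2.trans ((mul_one _).trans_le a2)⟩
    · have : (cl '' {G | Glue2 F ψ ω G}).Subsingleton := by
        rintro _ ⟨A, hA, rfl⟩ _ ⟨B, hB, rfl⟩
        exact cl_eq.2 (Glue2.iso hm hP hA hB)
      exact ⟨this.finite, (Set.ncard_le_one this.finite).2 fun a ha b hb => this ha hb⟩
    · rintro _ ⟨G, ⟨ψ, b1, b2⟩, rfl⟩
      exact ⟨ψ, b1, G, b2, rfl⟩
  · rintro _ ⟨G, ⟨F, h⟩, rfl⟩
    exact ⟨F, trivial, G, h, rfl⟩

theorem S17EOrd_two (h : Thin c S) {m N : ℕ} (hm : 0 < m) (hN : m ≤ 2 ^ N)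
    {P : m.primeFactors → Type} [∀ p, Group (P p)]
    (hP : ∀ p, Nat.card (P p) = p.1 ^ m.factorization p.1) {k : ℕ} {d : Fin k → Cls}
    (hd : Fac S d) (hW : Nat.card (Wd d) ≤ 2 ^ N) :
    (cl '' {G | ∃ (ω : ∀ p, P p →* MulAut (Wd d)) (F : Subgroup (∀ p, P p))
      (ψ : ∀ p, P p →* MulAut F), Adm F ψ ∧ Glue2 F ψ ω G}).Finite ∧
    (cl '' {G | ∃ (ω : ∀ p, P p →* MulAut (Wd d)) (F : Subgroup (∀ p, P p))
      (ψ : ∀ p, P p →* MulAut F), Adm F ψ ∧ Glue2 F ψ ω G}).ncard ≤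
      2 ^ ((c + 2) * N * N * m.primeFactors.card + N * N * (1 + 4 * m.primeFactors.card)) := by
  have h0 : ∀ p : m.primeFactors, Finite (P p →* MulAut (Wd d)) ∧
      Nat.card (P p →* MulAut (Wd d)) ≤ 2 ^ ((c + 2) * N * N) := fun p => by
    have hp := Nat.prime_of_mem_primeFactors p.2
    have : Finite (P p) := Nat.finite_of_card_ne_zero (hP p ▸ (pow_pos hp.pos _).ne')
    exact card_hom_semi h hd hW hp (IsPGroup.of_card (hP p))
      (hP p ▸ (Nat.le_of_dvd hm (Nat.ordProj_dvd _ _)).trans hN)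
  have := fun p => (h0 p).1
  have h1 := cover (Set.finite_univ (α := ∀ p, P p →* MulAut (Wd d))) _ _
    (fun ω _ => S17EOrd_one hm hN hP ω)
    (cl '' {G | ∃ (ω : ∀ p, P p →* MulAut (Wd d)) (F : Subgroup (∀ p, P p))
      (ψ : ∀ p, P p →* MulAut F), Adm F ψ ∧ Glue2 F ψ ω G}) (by
      rintro _ ⟨G, ⟨ω, h⟩, rfl⟩
      exact ⟨ω, trivial, G, h, rfl⟩)
  refine ⟨h1.1, h1.2.trans ?_⟩
  rw [pow_add, Set.ncard_univ, Nat.card_pi]
  refine Nat.mul_le_mul_right _ ((Finset.prod_le_pow_card _ _ _ fun p _ => (h0 p).2).trans ?_)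
  rw [Finset.card_univ, Fintype.card_coe, ← pow_mul]

theorem S17EOrd_fix (h : Thin c S) {m N : ℕ} (hm : 0 < m) (hN : m ≤ 2 ^ N)
    {P : m.primeFactors → Type} [∀ p, Group (P p)]
    (hP : ∀ p, Nat.card (P p) = p.1 ^ m.factorization p.1) :
    (cl '' {G | Tame S G ∧ Nat.card G = m ∧
      ∃ j : ∀ p, P p →* G, ∀ p, Function.Injective (j p)}).ncard ≤
      2 ^ ((c + 6) * N * N * (1 + m.primeFactors.card)) := by
  have h1 := cover (Set.finite_Iic N)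
    (fun k => cl '' {G | ∃ d : Fin k → Cls, (Fac S d ∧ Nat.card (Wd d) ≤ 2 ^ N) ∧
      ∃ (ω : ∀ p, P p →* MulAut (Wd d)) (F : Subgroup (∀ p, P p))
        (ψ : ∀ p, P p →* MulAut F), Adm F ψ ∧ Glue2 F ψ ω G})
    (2 ^ ((c + 1) * N * N) *
      2 ^ ((c + 2) * N * N * m.primeFactors.card + N * N * (1 + 4 * m.primeFactors.card)))
    (fun k hk => ?_) (cl '' {G | Tame S G ∧ Nat.card G = m ∧
      ∃ j : ∀ p, P p →* G, ∀ p, Function.Injective (j p)}) ?_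
  · refine h1.2.trans ?_
    have h2 : (Set.Iic N).ncard ≤ 2 ^ (N * N) := by
      rw [← Finset.coe_Iic, Set.ncard_coe_finset, Nat.card_Iic]
      exact Nat.lt_two_pow_self.trans_le (Nat.pow_le_pow_right two_pos (Nat.le_mul_self N))
    refine (Nat.mul_le_mul_right _ h2).trans ?_
    rw [← pow_add, ← pow_add]
    refine Nat.pow_le_pow_right two_pos ?_
    nlinarith [Nat.zero_le (N * N)]
  · obtain ⟨a1, a2⟩ := fac_count h N k
    have h2 := cover a1 _ _ (fun d hd => S17EOrd_two h hm hN hP hd.1 hd.2)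
      (cl '' {G | ∃ d : Fin k → Cls, (Fac S d ∧ Nat.card (Wd d) ≤ 2 ^ N) ∧
        ∃ (ω : ∀ p, P p →* MulAut (Wd d)) (F : Subgroup (∀ p, P p))
          (ψ : ∀ p, P p →* MulAut F), Adm F ψ ∧ Glue2 F ψ ω G}) (by
        rintro _ ⟨G, ⟨d, hd, h⟩, rfl⟩
        exact ⟨d, hd, G, h, rfl⟩)
    exact ⟨h2.1, h2.2.trans (Nat.mul_le_mul_right _
      (a2.trans (Nat.pow_le_pow_right two_pos (Nat.mul_le_mul_left _ hk))))⟩
  · rintro _ ⟨G, ⟨g1, g2, j, g3⟩, rfl⟩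
    have : Finite G := Nat.finite_of_card_ne_zero (g2.symm ▸ hm.ne')
    obtain ⟨F, k, d, χ, f1, f2, f3, f4, f5, f6⟩ := exists_chi G g1
    have f7 : Nat.card (Wd d) ≤ 2 ^ N := (Nat.le_of_dvd hm (g2 ▸ f4)).trans hN
    exact ⟨k, (Nat.pow_le_pow_iff_right one_lt_two).1 ((fac_le f3).trans f7), G,
      ⟨d, ⟨f3, f7⟩, _, exists_glue2 hm hP g2 j g3 F f1 f2 χ f5 f6⟩, rfl⟩

theorem count_tame (h : Thin c S) {m N : ℕ} (hm : 0 < m) (hN : m ≤ 2 ^ N) (Sy : ℕ → Set Cls)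
    (hSy : ∀ p ∈ m.primeFactors, (Sy p).Finite) :
    (cl '' {G | Tame S G ∧ Nat.card G = m ∧
      ∀ p ∈ m.primeFactors, ∃ R : Sylow p G, cl (GrpCat.of R) ∈ Sy p}).ncard ≤
      (∏ p ∈ m.primeFactors, (Sy p).ncard) *
        2 ^ ((c + 6) * N * N * (1 + m.primeFactors.card)) := by
  have ht : (Set.pi Set.univ fun p : m.primeFactors =>
      Sy p ∩ cl '' {G | Nat.card G = p.1 ^ m.factorization p.1}).Finite :=
    Set.Finite.pi fun p => (hSy p p.2).inter_of_left _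
  have hout : ∀ d ∈ (Set.pi Set.univ fun p : m.primeFactors =>
      Sy p ∩ cl '' {G | Nat.card G = p.1 ^ m.factorization p.1}), ∀ p : m.primeFactors,
      Nat.card (d p).out = p.1 ^ m.factorization p.1 := by
    intro d hd p
    obtain ⟨-, A, a1, h⟩ := hd p trivial
    obtain ⟨φ⟩ := cl_eq.1 (h.trans (d p).out_eq.symm)
    exact (Nat.card_congr φ.toEquiv).symm.trans a1
  have hcard : (Set.pi Set.univ fun p : m.primeFactors =>
      Sy p ∩ cl '' {G | Nat.card G = p.1 ^ m.factorization p.1}).ncard ≤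
      ∏ p ∈ m.primeFactors, (Sy p).ncard := by
    rw [← Nat.card_coe_set_eq, Nat.card_congr (Equiv.Set.univPi _), Nat.card_pi,
      ← Finset.prod_coe_sort m.primeFactors]
    exact Finset.prod_le_prod' fun p _ => (Nat.card_coe_set_eq _).trans_le
      (Set.ncard_le_ncard Set.inter_subset_left (hSy p p.2))
  refine le_trans (cover ht (fun d => cl '' {G | Tame S G ∧ Nat.card G = m ∧
    ∃ j : ∀ p : m.primeFactors, (d p).out →* G, ∀ p, Function.Injective (j p)}) _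
    (fun d hd => ⟨(ord_fin hm).subset (Set.image_mono fun G hG => hG.2.1),
      S17EOrd_fix h hm hN (hout d hd)⟩) _ ?_).2 (Nat.mul_le_mul_right _ hcard)
  rintro _ ⟨G, ⟨hs, hG, hR⟩, rfl⟩
  have : Finite G := Nat.finite_of_card_ne_zero (hG.symm ▸ hm.ne')
  have hS : ∀ p : m.primeFactors, ∃ R : Subgroup G, cl (GrpCat.of R) ∈ Sy p ∧
      Nat.card R = p.1 ^ m.factorization p.1 := by
    intro p
    have : Fact p.1.Prime := ⟨Nat.prime_of_mem_primeFactors p.2⟩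
    obtain ⟨R, hR⟩ := hR p p.2
    exact ⟨R, hR, by rw [Sylow.card_eq_multiplicity, hG]⟩
  choose R h1 h2 using hS
  have hφ : ∀ p, Nonempty ((cl (GrpCat.of (R p))).out ≃* R p) := fun p =>
    cl_eq.1 (cl (GrpCat.of (R p))).out_eq
  exact ⟨fun p => cl (GrpCat.of (R p)), fun p _ => ⟨h1 p, GrpCat.of (R p), h2 p, rfl⟩, G,
    ⟨hs, hG, fun p => (R p).subtype.comp (hφ p).some.toMonoidHom,
      fun p => (R p).subtype_injective.comp (hφ p).some.injective⟩, rfl⟩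

end Pool.Agent.Lib.MP_2d211a_co.S64
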