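import Pool.Agent.Lib.MP_2d211a_co.S17EDef

/-!
The socle is a product of simple groups.
-/

namespace Pool.Agent.Lib.MP_2d211a_co.S64

open Subgroup H60 CategoryTheory

variable {c : ℕ} {S : Set GrpCat.{0}}

section
variable {X : Type} [Group X] {L T T' : Subgroup X}

/-- Nontrivial subgroups of `L` that are normal in `L`. -/
def S17ESoc_P (L T : Subgroup X) : Prop := T ≠ ⊥ ∧ T ≤ L ∧ ∀ l ∈ L, ∀ t ∈ T, l * t * l⁻¹ ∈ T

theorem S17ESoc_conj [hL : L.Normal] (h : S17ESoc_P L T) (g : X) :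
    S17ESoc_P L (T.comap (MulAut.conj g).toMonoidHom) := by
  refine ⟨fun e => h.1 (eq_bot_iff.2 fun t ht => ?_), fun t ht => ?_, fun l hl t ht => ?_⟩
  · have : g⁻¹ * t * g ∈ T.comap (MulAut.conj g).toMonoidHom := by simpa [mul_assoc] using ht
    rw [e, mem_bot] at this
    rw [mem_bot, show t = g * (g⁻¹ * t * g) * g⁻¹ by group, this]
    simp
  · simpa [mul_assoc] using hL.conj_mem _ (h.2.1 ht) g⁻¹
  · simpa [mul_assoc] using h.2.2 _ (hL.conj_mem l hl g) _ ht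

theorem S17ESoc_min [L.Normal] (h : Minimal (S17ESoc_P L) T) (g : X) :
    Minimal (S17ESoc_P L) (T.comap (MulAut.conj g).toMonoidHom) :=
  ⟨S17ESoc_conj h.1 g, fun U hU hle t ht => by
    have := h.2 (S17ESoc_conj hU g⁻¹) (fun u hu => by simpa [mul_assoc] using hle hu) ht
    simpa [mul_assoc] using this⟩

theorem S17ESoc_normal [L.Normal] : (sSup {T | Minimal (S17ESoc_P L) T}).Normal := ⟨fun a ha g => by
  have : sSup {T | Minimal (S17ESoc_P L) T} ≤
      (sSup {T | Minimal (S17ESoc_P L) T}).comap (MulAut.conj g).toMonoidHom :=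
    sSup_le fun T hT t ht => le_sSup (s := {T | Minimal (S17ESoc_P L) T}) (S17ESoc_min hT g⁻¹)
      (by simpa [mul_assoc] using ht)
  simpa using this ha⟩

theorem S17ESoc_comm (h : Minimal (S17ESoc_P L) T) (h' : Minimal (S17ESoc_P L) T') (hne : T ≠ T')
    {x y : X} (hx : x ∈ T) (hy : y ∈ T') : Commute x y := by
  have hb : T ⊓ T' = ⊥ := by
    by_contra hb
    have hP : S17ESoc_P L (T ⊓ T') := ⟨hb, inf_le_left.trans h.1.2.1, fun l hl t ht =>
      ⟨h.1.2.2 l hl t ht.1, h'.1.2.2 l hl t ht.2⟩⟩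
    exact hne (le_antisymm ((h.2 hP inf_le_left).trans inf_le_right)
      ((h'.2 hP inf_le_right).trans inf_le_left))
  have : x * y * x⁻¹ * y⁻¹ ∈ T ⊓ T' :=
    ⟨by simpa [mul_assoc] using mul_mem hx (h.1.2.2 y (h'.1.2.1 hy) _ (inv_mem hx)),
      T'.mul_mem (h'.1.2.2 x (h.1.2.1 hx) y hy) (T'.inv_mem hy)⟩
  rw [hb, mem_bot] at this
  exact commutatorElement_eq_one_iff_commute.1 this

theorem S17ESoc_cent (e : sSup {T | Minimal (S17ESoc_P L) T} = L) (h : Minimal (S17ESoc_P L) T)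
    {x : X} (hx : x ∈ T) (hc : ∀ y ∈ T, y * x = x * y) : x ∈ centralizer (L : Set X) := by
  have : sSup {T | Minimal (S17ESoc_P L) T} ≤ centralizer {x} := sSup_le fun U hU u hu =>
    mem_centralizer_singleton_iff.2 (by
      by_cases e : T = U
      · exact hc u (e ▸ hu)
      · exact (S17ESoc_comm h hU e hx hu).symm)
  exact fun l hl => mem_centralizer_singleton_iff.1 (this (e.ge hl))

theorem S17ESoc_simple [Finite X] (e : sSup {T | Minimal (S17ESoc_P L) T} = L)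
    (h : Minimal (S17ESoc_P L) T) : IsSimpleGroup T := by
  have := (nontrivial_iff_ne_bot T).2 h.1.1
  refine ⟨fun U hU => or_iff_not_imp_left.2 fun h0 => ?_⟩
  have h1 : sSup {T | Minimal (S17ESoc_P L) T} ≤ normalizer (U.map T.subtype : Set X) :=
    sSup_le fun V hV v hv => mem_normalizer_fintype (by
      rintro _ ⟨u, hu, rfl⟩
      by_cases e : T = V
      · exact ⟨_, hU.conj_mem u hu ⟨v, e ▸ hv⟩, rfl⟩
      · exact ⟨u, hu, by
          rw [← (S17ESoc_comm h hV e (x := T.subtype u) u.2 hv).eq, mul_inv_cancel_right]⟩)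
  have h2 := h.2 (y := U.map T.subtype) ⟨fun e => h0 ((map_eq_bot_iff_of_injective U
    T.subtype_injective).1 e), (map_subtype_le U).trans h.1.2.1,
    fun l hl t ht => (mem_normalizer_iff.1 (h1 (e.ge hl)) t).1 ht⟩ (map_subtype_le U)
  refine eq_top_iff.2 fun t _ => ?_
  obtain ⟨u, hu, e⟩ := h2 t.2
  exact Subtype.ext e ▸ hu

end

theorem exists_soc {X : Type} [Group X] [Finite X] (C : Subgroup X) [C.Normal]
    (h : ∀ B : Subgroup X, B.Normal → B ≤ C → (∀ a ∈ B, ∀ b ∈ B, a * b = b * a) → B = ⊥) :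
    ∃ (L : Subgroup X) (k : ℕ) (T : Fin k → Subgroup X), L.Normal ∧ L ≤ C ∧
      centralizer (L : Set X) ⊓ C = ⊥ ∧
      (∀ i, (T i).IsSubnormal ∧ IsSimpleGroup (T i) ∧ ¬IsMulCommutative (T i)) ∧
      Nonempty (L ≃* ∀ i, T i) := by
  have hz : ∀ N : Subgroup X, N.Normal → N ≤ C → centralizer (N : Set X) ⊓ N = ⊥ := fun N _ hN =>
    h _ inferInstance (inf_le_right.trans hN) fun a ha b hb => hb.1 a ha.2
  obtain ⟨L, ⟨hn, hC, hc⟩, hm⟩ := exists_minimal_of_wellFoundedLT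
    (fun L : Subgroup X => L.Normal ∧ L ≤ C ∧ centralizer (L : Set X) ⊓ C = ⊥)
    ⟨C, inferInstance, le_rfl, hz C inferInstance le_rfl⟩
  obtain ⟨J, hJ⟩ : ∃ J, J = {T | Minimal (S17ESoc_P L) T} := ⟨_, rfl⟩
  have mem : ∀ T, T ∈ J ↔ Minimal (S17ESoc_P L) T := fun T => by rw [hJ]; rfl
  have nJ : (sSup J).Normal := hJ ▸ S17ESoc_normal
  have le : sSup J ≤ L := sSup_le fun T hT => ((mem T).1 hT).1.2.1
  have e : sSup J = L := by
    refine le.antisymm (hm ⟨nJ, le.trans hC, ?_⟩ le)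
    obtain ⟨N, hN⟩ : ∃ N, N = centralizer ((sSup J : Subgroup X) : Set X) ⊓ C := ⟨_, rfl⟩
    have nN : N.Normal := hN ▸ inferInstance
    rw [← hN]
    by_cases h0 : N ⊓ L = ⊥
    · refine eq_bot_iff.2 fun x hx => hc.le (mem_inf.2 ⟨fun l hl => ?_, (mem_inf.1 (hN.le hx)).2⟩)
      exact (commute_of_normal_of_disjoint N L nN hn (disjoint_iff.2 h0) x l hx hl).symm
    · obtain ⟨T, hT, hT'⟩ := exists_minimal_le_of_wellFoundedLT (S17ESoc_P L) (N ⊓ L)
        ⟨h0, inf_le_right, fun l _ t ht => (inferInstance : (N ⊓ L).Normal).conj_mem t ht l⟩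
      refine absurd (eq_bot_iff.2 (le_trans (le_inf ?_ (le_sSup ((mem T).2 hT')))
        (hz _ nJ (le.trans hC)).le)) hT'.1.1
      exact hT.trans (inf_le_left.trans (hN ▸ inf_le_left))
  have e' := hJ ▸ e
  have one : ∀ T, Minimal (S17ESoc_P L) T → ∀ x ∈ T, (∀ y ∈ T, y * x = x * y) → x = 1 :=
    fun T hT x hx hy => mem_bot.1 (hc.le ⟨S17ESoc_cent e' hT hx hy, hC (hT.1.2.1 hx)⟩)
  let ε := (Finite.equivFin J).symm
  have mε : ∀ i, Minimal (S17ESoc_P L) (ε i).1 := fun i => (mem _).1 (ε i).2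
  have cm : Pairwise fun i j => ∀ x y : X, x ∈ (ε i).1 → y ∈ (ε j).1 → Commute x y :=
    fun i j hij x y hx hy =>
      S17ESoc_comm (mε i) (mε j) (fun e => hij (ε.injective (Subtype.ext e))) hx hy
  have ind : iSupIndep fun i => (ε i).1 := fun i => disjoint_def.2 fun {x} hx hx' => by
    have : ⨆ j, ⨆ (_ : j ≠ i), (ε j).1 ≤ centralizer ((ε i).1 : Set X) :=
      iSup₂_le fun j hj u hu y hy => cm hj.symm y u hy hu
    exact one _ (mε i) x hx (this hx')
  refine ⟨L, _, fun i => (ε i).1, hn, hC, hc, fun i => ⟨?_, S17ESoc_simple e' (mε i), fun hcm =>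
    (mε i).1.1 (eq_bot_iff.2 fun x hx => one _ (mε i) x hx fun y hy => ?_)⟩,
    ⟨((MonoidHom.ofInjective (injective_noncommPiCoprod_of_iSupIndep (hcomm := cm) ind)).trans
      (MulEquiv.subgroupCongr ?_)).symm⟩⟩
  · exact .step _ L (mε i).1.2.1 hn.isSubnormal
      ((normal_subgroupOf_iff (mε i).1.2.1).2 fun t l ht hl => (mε i).1.2.2 l hl t ht)
  · exact congrArg Subtype.val (hcm.is_comm.comm ⟨y, hy⟩ ⟨x, hx⟩)
  · rw [noncommPiCoprod_range, ← e, sSup_eq_iSup']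
    exact ε.iSup_comp (g := fun T : J => T.1)

end Pool.Agent.Lib.MP_2d211a_co.S64
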