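import Pool.Agent.Lib.MP_2d211a_co.S33GDef

/-!
Coordinates on the Frattini quotient.
-/

namespace Pool.Agent.Lib.MP_2d211a_co.S64

open Subgroup H60 CategoryTheory

theorem g33co_rng {α β : Type} [Finite β] (f : β → α) (S : Set α) (h : S ⊆ Set.range f) :
    S.ncard ≤ Nat.card β := by
  refine (Set.ncard_le_ncard h (Set.finite_range f)).trans ?_
  rw [← Set.image_univ, ← Set.ncard_univ]
  exact Set.ncard_image_le Set.finite_univ

theorem g33co_pi {V : Type} [Group V] [Finite V] (W : Subgroup V) (ι : Type) [Fintype ι] :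
    {m : ι → V | ∀ i, m i ∈ W}.ncard ≤ Nat.card W ^ Fintype.card ι := by
  refine (g33co_rng (fun (y : ι → W) i => (y i : V)) {m : ι → V | ∀ i, m i ∈ W} fun m hm =>
    ⟨fun i => ⟨m i, hm i⟩, rfl⟩).trans_eq ?_
  rw [Nat.card_fun, Nat.card_eq_fintype_card (α := ι)]

theorem g33co_comm {F : Type} [Group F] (a b : F ⧸ L F 1) : a * b = b * a := by
  obtain ⟨a, rfl⟩ := QuotientGroup.mk_surjective a
  obtain ⟨b, rfl⟩ := QuotientGroup.mk_surjective b
  rw [← QuotientGroup.mk_mul, ← QuotientGroup.mk_mul, QuotientGroup.eq]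
  have := comm_mem_L1 b⁻¹ a⁻¹
  rw [commutatorElement_def] at this
  simpa [mul_assoc] using this

theorem g33co_lin {V : Type} [CommGroup V] [Finite V] (h2 : ∀ v : V, v * v = 1) {r : ℕ}
    (hr : 2 ^ r ≤ Nat.card V) :
    ∃ (φ : V →* Multiplicative (Fin r → ZMod 2)) (x : Fin r → V),
      ∀ i, φ (x i) = Multiplicative.ofAdd (Pi.single i 1) := by
  let _ : Module (ZMod 2) (Additive V) := AddCommGroup.zmodModule fun v => by
    rw [two_nsmul]
    exact h2 v.toMul
  have : Fact (Nat.Prime 2) := ⟨Nat.prime_two⟩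
  have hd : r ≤ Module.finrank (ZMod 2) (Additive V) := by
    have h3 := Module.natCard_eq_pow_finrank (K := ZMod 2) (V := Additive V)
    rw [Nat.card_zmod] at h3
    have h4 : Nat.card (Additive V) = Nat.card V := rfl
    rw [← h4, h3] at hr
    exact (Nat.pow_le_pow_iff_right one_lt_two).1 hr
  let b := Module.finBasis (ZMod 2) (Additive V)
  let ψ : Additive V →ₗ[ZMod 2] (Fin r → ZMod 2) :=
    (LinearMap.funLeft (ZMod 2) (ZMod 2) (Fin.castLE hd)).comp b.equivFun.toLinearMap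
  refine ⟨AddMonoidHom.toMultiplicativeRight ψ.toAddMonoidHom,
    fun i => (b (Fin.castLE hd i)).toMul, fun i => ?_⟩
  change Multiplicative.ofAdd (ψ (b (Fin.castLE hd i))) = _
  congr 1
  funext j
  change b.equivFun (b (Fin.castLE hd i)) (Fin.castLE hd j) = _
  rw [b.equivFun_self, Pi.single_apply]
  simp only [Fin.castLE_inj, eq_comm]

theorem coords {F : Type} [Group F] [Two F] {r : ℕ} (h : lg (L F 1) + r ≤ lg (⊤ : Subgroup F)) :
    ∃ (φ : F →* Multiplicative (Fin r → ZMod 2)) (x : Fin r → F),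
      ∀ i, φ (x i) = Multiplicative.ofAdd (Pi.single i 1) := by
  let _ : CommGroup (F ⧸ L F 1) :=
    { (inferInstance : Group (F ⧸ L F 1)) with mul_comm := g33co_comm }
  obtain ⟨φ, x, hx⟩ := g33co_lin (V := F ⧸ L F 1) (r := r) (fun v => by
    obtain ⟨a, rfl⟩ := QuotientGroup.mk_surjective v
    exact (QuotientGroup.eq_one_iff (a * a)).2 (mul_self_mem_L1 a)) (by
    have := lg_quot (L F 1)
    rw [card_eq_top (G := F ⧸ L F 1)]
    exact Nat.pow_le_pow_right two_pos (by omega))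
  choose y hy using fun i => QuotientGroup.mk_surjective (x i)
  exact ⟨φ.comp (QuotientGroup.mk' _), y, fun i => (congrArg φ (hy i)).trans (hx i)⟩

theorem moved_count {V : Type} [Group V] [Two V] {r g : ℕ} (h : lg (⊤ : Subgroup V) ≤ r)
    (ι : Type) [Fintype ι] :
    {m : ι → V | ∃ W : Subgroup V, lg W ≤ g ∧ ∀ i, m i ∈ W}.ncard ≤
      2 ^ (r * g + g * Fintype.card ι) := by
  refine (H60.cover (Set.finite_univ (α := Fin g → V))
    (fun w => {m : ι → V | lg (closure (Set.range w)) ≤ g ∧ ∀ i, m i ∈ closure (Set.range w)})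
    (2 ^ (g * Fintype.card ι)) (fun w _ => ⟨Set.toFinite _, ?_⟩) _ ?_).2.trans ?_
  · by_cases hw : lg (closure (Set.range w)) ≤ g
    · refine ((Set.ncard_le_ncard (fun m hm => hm.2) (Set.toFinite _)).trans
        (g33co_pi (closure (Set.range w)) ι)).trans ?_
      rw [card_eq, pow_mul]
      exact Nat.pow_le_pow_left (Nat.pow_le_pow_right two_pos hw) _
    · simp [hw]
  · rintro m ⟨W, hW, hm⟩
    obtain ⟨w, -, e⟩ := gen_rel (bot_le (a := W)) (m := g) (by rw [lg_bot]; omega)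
    rw [bot_sup_eq] at e
    exact ⟨w, trivial, e ▸ hW, e ▸ hm⟩
  · rw [pow_add, Set.ncard_univ, Nat.card_fun, Nat.card_fin, card_eq_top, pow_mul 2 r g]
    exact Nat.mul_le_mul_right _ (Nat.pow_le_pow_left (Nat.pow_le_pow_right two_pos h) _)

theorem hom_two_count {F : Type} [Group F] [Two F] {n : ℕ} (h : lg (⊤ : Subgroup F) ≤ n) :
    Finite (F →* Multiplicative (ZMod 2)) ∧ Nat.card (F →* Multiplicative (ZMod 2)) ≤ 2 ^ n := by
  obtain ⟨w, -, e⟩ := gen_rel (bot_le (a := (⊤ : Subgroup F))) (m := n) (by rw [lg_bot]; omega)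
  rw [bot_sup_eq] at e
  have hinj : Function.Injective fun (φ : F →* Multiplicative (ZMod 2)) (i : Fin n) => φ (w i) :=
    fun φ ψ hh => MonoidHom.eq_of_eqOn_dense e (by
      rintro _ ⟨i, rfl⟩
      exact congrFun hh i)
  refine ⟨Finite.of_injective _ hinj, (Nat.card_le_card_of_injective _ hinj).trans_eq ?_⟩
  rw [Nat.card_fun, Nat.card_fin]
  congr 1
  exact Nat.card_zmod 2

end Pool.Agent.Lib.MP_2d211a_co.S64
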