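import Pool.Agent.Lib.MP_2d211a_co.S64AS1

/-!
The upper bound of Sims.
-/

namespace Pool.Agent.Lib.MP_2d211a_co.S64

open Subgroup
open scoped commutatorElement

variable {G : Type} [Group G]

theorem at_lo (r d t : ℤ) (hr : 0 ≤ r) (hd : 0 ≤ d) (ht : 0 ≤ t) :
    27 * (t * (r * r + 2 * r * (r + d) + r * t)) ≤
      4 * (r + (r + d) + t) ^ 3 + 27 * (t * (r * r)) := by
  have h1 : 0 ≤ (2 * r - t) ^ 2 * (2 * r + t + 2 * d) := by positivity
  have h2 : 0 ≤ (2 * r + t) ^ 3 := by positivity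
  have h3 : 0 ≤ (2 * r + t) ^ 2 * d := by positivity
  have h4 : 0 ≤ (2 * r + t) * d ^ 2 := by positivity
  have h5 : 0 ≤ d ^ 3 := by positivity
  nlinarith

theorem at_hi (z d t : ℤ) (hz : 0 ≤ z) (hd : 0 ≤ d) (ht : 0 ≤ t) :
    27 * (t * ((z + d) * (z + d) + 2 * z * z + z * t)) ≤
      4 * (z + d + z + t) ^ 3 + 27 * (t * (z * z)) := by
  have h5 : 0 ≤ z ^ 3 := by positivity
  rcases le_total t (2 * d) with h | h
  · have h0 : 0 ≤ 2 * d - t := sub_nonneg.2 h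
    have h1 : 0 ≤ (d - 2 * t) ^ 2 * (4 * d + t) := by positivity
    have h2 : 0 ≤ z * (4 * d + t) * (2 * d - t) := by positivity
    have h3 : 0 ≤ z ^ 2 * (2 * d - t) := by positivity
    have h4 : 0 ≤ z ^ 2 * d := by positivity
    nlinarith
  · have h0 : 0 ≤ t - 2 * d := sub_nonneg.2 h
    have h1 : 0 ≤ d * t * (t - 2 * d) := by positivity
    have h2 : 0 ≤ d * (t - z) ^ 2 := by positivity
    have h3 : 0 ≤ d ^ 3 := by positivity
    have h4 : 0 ≤ z * d ^ 2 := by positivity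
    have h6 : 0 ≤ z ^ 2 * d := by positivity
    have h7 : 0 ≤ d * t ^ 2 := by positivity
    have h8 : 0 ≤ t * (t - 2 * z) ^ 2 := by positivity
    have h9 : 0 ≤ z * (t - 2 * z) ^ 2 := by positivity
    have h10 : 0 ≤ t ^ 3 := by positivity
    have h11 : 0 ≤ z * t ^ 2 := by positivity
    have h12 : 0 ≤ z ^ 2 * t := by positivity
    nlinarith

theorem at_main (r z t : ℕ) :
    27 * (t * (r * r + 2 * min r z * z + min r z * t)) ≤
      4 * (r + z + t) ^ 3 + 27 * (t * (min r z * min r z)) := by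
  rcases le_total r z with h | h
  · obtain ⟨d, rfl⟩ := Nat.exists_eq_add_of_le h
    rw [min_eq_left h]
    exact_mod_cast at_lo r d t (by positivity) (by positivity) (by positivity)
  · obtain ⟨d, rfl⟩ := Nat.exists_eq_add_of_le h
    rw [min_eq_right h]
    exact_mod_cast at_hi z d t (by positivity) (by positivity) (by positivity)

theorem at_num {n r z t k ρ E : ℕ} (hn : r + z + t = n) (hk : k ≤ ρ) (hρ : ρ ≤ n) (h2 : 2 ≤ ρ)
    (h : 2 * E + t * (min r z * min r z) ≤ 2 * ((r * ρ + r + ρ * ρ + ρ) * n) +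
      t * (r * r + r + 2 * (k + 1) * n + 2 * min r z * z + min r z) +
      (k + min r z + 1) * t * t) :
    E + 4 * n ≤ 2 * n ^ 3 / 27 + 10 * (ρ * n ^ 2) := by
  have m := at_main r z t
  rw [hn] at m
  have hs : min r z ≤ n := by omega
  generalize min r z = s at *
  have hr : r ≤ n := by omega
  have ht : t ≤ n := by omega
  have e1 : (r * ρ + r + ρ * ρ + ρ) * n ≤ (n * ρ + n + n * ρ + n) * n := by gcongr
  have e2 : t * (r + 2 * (k + 1) * n + s) ≤ n * (n + 2 * (ρ + 1) * n + n) := by gcongr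
  have e3 : (k + 1) * t * t ≤ (ρ + 1) * n * n := by gcongr
  have e4 : 2 * n ^ 2 ≤ ρ * n ^ 2 := by gcongr
  have e5 : n ≤ n ^ 2 := Nat.le_self_pow two_ne_zero n
  have e6 : 54 * E ≤ 4 * n ^ 3 + 27 * (7 * (ρ * n ^ 2) + 9 * n ^ 2) := by nlinarith
  omega

theorem at_rank {n r ρ c m m' E : ℕ} (h1 : n < c * m) (h2 : n + c * m' < ρ * m')
    (hk : c * m' + m ≤ ρ) (hρ : ρ ≤ n) (h3 : 2 ≤ ρ)
    (hE : 2 * n ^ 3 / 27 + 10 * (ρ * n ^ 2) ≤ E + 4 * n) :
    (H60.cl '' ({F | Nat.card F = 2 ^ n} ∩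
      {F | lg (⊤ : Subgroup F) = lg (L F 1) + r})).ncard ≤ 2 ^ (E + n) := by
  obtain ⟨Γ, _, _, x, hx, hm⟩ := mark (Fin r) n
  have hr : lg (⊤ : Subgroup Γ) ≤ lg (L Γ 1) + r := by simpa using rank_le hx
  refine (hm _ {R | R.Normal ∧ R ≤ L Γ 1 ∧ r ≤ n ∧ lg (L Γ 1) + r = lg R + n} ?_).trans ?_
  · rintro F ⟨hF, hF'⟩
    have := Two.of_card (G := F) hF
    obtain ⟨y, -, hy⟩ := gen_rel (le_top (a := L F 1)) (le_of_eq hF')
    refine ⟨hF, y, frat le_top (by rw [← L1_eq, sup_comm, hy]), fun π hπ _ => ?_⟩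
    obtain ⟨k1, -, -, k2⟩ := ker_le hπ hr hF'
    have k3 := lg_top (G := F) hF
    have k4 : lg (⊤ : Subgroup F) = lg (L F 1) + r := hF'
    exact ⟨inferInstance, k1, by omega, by omega⟩
  · refine (H60.cover (t := {z | z + r ≤ n}) ((Set.finite_Iic n).subset fun z hz => ?_)
      (fun z => {R : Subgroup Γ | R.Normal ∧ R ≤ L Γ 1 ∧ lg (L Γ 1) = lg (Ylow ρ R) + z ∧
        lg (Ylow ρ R) = lg R + (n - r - z)}) (2 ^ E) (fun z hz => ⟨Set.toFinite _, ?_⟩) _
        ?_).2.trans ?_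
    · exact (Nat.le_add_right _ _).trans hz
    · have hz : z + r ≤ n := hz
      obtain ⟨E', k1, k2⟩ := sims_marked (z := z) (t := n - r - z) hr h1 h2 (by omega)
      have := at_num (by omega) hk hρ h3 k2
      exact k1.trans (Nat.pow_le_pow_right two_pos (by omega))
    · rintro R ⟨k1, k2, k3, k4⟩
      obtain ⟨k5, k6, -⟩ := ylow_le (ρ := ρ) k2
      have := lg_mono (le_sup_right.trans k5)
      have := lg_mono k6
      exact ⟨lg (L Γ 1) - lg (Ylow ρ R), show _ + r ≤ n by omega, k1, k2, by omega, by omega⟩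
    · rw [pow_add, mul_comm]
      refine Nat.mul_le_mul_left _ ((Set.ncard_le_ncard (t := Set.Iic n)
        (fun z hz => (Nat.le_add_right _ _).trans hz) (Set.finite_Iic n)).trans ?_)
      rw [Set.ncard_Iic_nat]
      exact Nat.lt_two_pow_self

theorem sims_le (M : ℕ) (hM : 0 < M) : ∃ n0 : ℕ, ∀ n ≥ n0,
    (H60.cl '' {F | Nat.card F = 2 ^ n}).ncard ≤ 2 ^ (2 * n ^ 3 / 27 + n ^ 3 / M) := by
  obtain ⟨K, hK⟩ : ∃ K, K = 10 * M := ⟨_, rfl⟩
  have K0 : 0 < K := by omega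
  refine ⟨24 * K ^ 3, fun n hn => ?_⟩
  have q0 : 0 < 6 * K ^ 2 := by positivity
  have c1 := Nat.div_mul_le_self n (6 * K ^ 2)
  have c2 := Nat.lt_div_mul_add (a := n) q0
  have r1 := Nat.div_mul_le_self n K
  have r2 := Nat.lt_div_mul_add (a := n) K0
  have K1 : K ≤ K ^ 2 := Nat.le_self_pow two_ne_zero K
  have K2 : K ^ 2 ≤ K ^ 3 := Nat.pow_le_pow_right K0 (by omega)
  have c3 : 1 ≤ n / (6 * K ^ 2) := (Nat.le_div_iff_mul_le q0).2 (by omega)
  have hk : n / (6 * K ^ 2) * (3 * K) + 12 * K ^ 2 ≤ n / K :=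
    (Nat.le_div_iff_mul_le K0).2 (by nlinarith)
  have hρ : n / K ≤ n := Nat.div_le_self _ _
  generalize n / (6 * K ^ 2) = c at *
  generalize n / K = ρ at *
  have hB : 10 * (ρ * n ^ 2) ≤ n ^ 3 / M := (Nat.le_div_iff_mul_le hM).2 (by
    have := Nat.mul_le_mul_right (n ^ 2) r1
    subst hK
    nlinarith)
  have h3 : 2 ≤ ρ := by omega
  have e4 : 2 * n ^ 2 ≤ ρ * n ^ 2 := by gcongr
  have e5 : n ≤ n ^ 2 := Nat.le_self_pow two_ne_zero n
  refine (params (n := n) (E := 2 * n ^ 3 / 27 + 10 * (ρ * n ^ 2) - 4 * n + n) _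
    (fun r _ _ => {F | lg (⊤ : Subgroup F) = lg (L F 1) + r}) (fun F hF => ⟨hF, ?_⟩)
    fun r _ _ _ _ _ => at_rank (c := c) (m := 12 * K ^ 2) (m' := 3 * K) (by nlinarith)
      (by nlinarith) hk hρ h3 (by omega)).trans (Nat.pow_le_pow_right two_pos (by omega))
  have := Two.of_card (G := F) hF
  have k3 := lg_top (G := F) hF
  have := lg_mono (le_top (a := L F 1))
  exact ⟨n - lg (L F 1), by omega, 0, n.zero_le, 0, n.zero_le, show _ = _ by omega⟩

end Pool.Agent.Lib.MP_2d211a_co.S64
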