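import Pool.Agent.Lib.MP_2d211a_co.H60Cnt

/-!
Gluing a group from its Sylow subgroups.
-/

namespace Pool.Agent.Lib.MP_2d211a_co.S64

open Subgroup H60 CategoryTheory

/-- The number of classes of groups of order `m`. -/
noncomputable abbrev gnu (m : ℕ) : ℕ := (cl '' {G | Nat.card G = m}).ncard

/-- An upper bound of the type of Sims for the number of groups of order `2 ^ n`. -/
def SimsLe : Prop :=
  ∀ M : ℕ, 0 < M → ∃ n₀ : ℕ, ∀ n ≥ n₀, gnu (2 ^ n) ≤ 2 ^ (2 * n ^ 3 / 27 + n ^ 3 / M)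

section
variable {m : ℕ} {P : m.primeFactors → Type} [∀ p, Group (P p)]

/-- `G` has a self-centralising normal subgroup `F` and subgroups `P p` that act on `F` by `ψ`. -/
def Glue (F : Subgroup (∀ p, P p)) (ψ : ∀ p, P p →* MulAut F) (G : Type) [Group G] : Prop :=
  Nat.card G = m ∧ ∃ ι : F →* G, Function.Injective ι ∧ ι.range.Normal ∧
    centralizer (ι.range : Set G) ≤ ι.range ∧ ∀ p, ∃ j : P p →* G, Function.Injective j ∧
      (∀ y f, j y * ι f * (j y)⁻¹ = ι (ψ p y f)) ∧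
      ∀ y (f : F), j y = ι f → Pi.mulSingle p y = (f : ∀ p, P p)

/-- On the `p`-th component `P p` acts by conjugation. -/
def Adm (F : Subgroup (∀ p, P p)) (ψ : ∀ p, P p →* MulAut F) : Prop :=
  ∀ p y (f : F), (ψ p y f : ∀ p, P p) p = y * (f : ∀ p, P p) p * y⁻¹

end

end Pool.Agent.Lib.MP_2d211a_co.S64
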