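import Pool.Agent.Lib.MP_2d211a_co.S64AO
import Pool.Agent.Lib.MP_2d211a_co.S64AT
import Pool.Agent.Lib.MP_2d211a_co.S64CDef

/-!
Growth of the number of 2-groups: definitions.
-/

namespace Pool.Agent.Lib.MP_2d211a_co.S64

open Subgroup H60 CategoryTheory

/-- A group of order `2 ^ n` with few automorphisms. -/
structure Few (n : ℕ) (F : Type) [Group F] : Prop where
  all : Nat.card (MulAut F) ≤ 2 ^ (2 * n ^ 2 / 9 + 3 * n ^ 2 / 10 ^ 4)
  odd : ∀ p : ℕ, p.Prime → p ≠ 2 →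
    {α : MulAut F | ∃ k : ℕ, α ^ p ^ k = 1}.ncard ≤ 2 ^ (6 * n ^ 2 / 10 ^ 4)

/-- The value of the bilinear form with coefficients `b`. -/
def gB {r : ℕ} (b : Tri r → ZMod 2) (v w : Fin r → ZMod 2) : ZMod 2 :=
  ∑ t, v t.1.1 * w t.1.2 * b t

/-- The central extension of `F` defined by the form `b` on the image of `φ`. -/
@[ext] structure Eb {F : Type} [Group F] {r : ℕ} (φ : F →* Multiplicative (Fin r → ZMod 2))
    (b : Tri r → ZMod 2) where
  f : F
  a : ZMod 2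

variable {F : Type} [Group F] {r : ℕ} {φ : F →* Multiplicative (Fin r → ZMod 2)}
  {b : Tri r → ZMod 2}

theorem gB_add (u v w : Fin r → ZMod 2) :
    gB b u v + gB b (u + v) w = gB b v w + gB b u (v + w) := by
  simp only [gB, ← Finset.sum_add_distrib, Pi.add_apply]
  exact Finset.sum_congr rfl fun t _ => by ring

@[simp] theorem gB_zl (v : Fin r → ZMod 2) : gB b 0 v = 0 := by simp [gB]

@[simp] theorem gB_zr (v : Fin r → ZMod 2) : gB b v 0 = 0 := by simp [gB]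

instance : Mul (Eb φ b) :=
  ⟨fun x y => ⟨x.f * y.f, x.a + y.a + gB b (φ x.f).toAdd (φ y.f).toAdd⟩⟩

instance : One (Eb φ b) := ⟨⟨1, 0⟩⟩

instance : Inv (Eb φ b) := ⟨fun x => ⟨x.f⁻¹, -x.a - gB b (φ x.f⁻¹).toAdd (φ x.f).toAdd⟩⟩

theorem Eb.mul_def (x y : Eb φ b) :
    x * y = ⟨x.f * y.f, x.a + y.a + gB b (φ x.f).toAdd (φ y.f).toAdd⟩ := rfl

instance : Group (Eb φ b) := Group.ofLeftAxioms
  (fun x y z => Eb.ext (mul_assoc _ _ _) (by
    simp only [Eb.mul_def, map_mul, toAdd_mul]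
    linear_combination gB_add (b := b) (φ x.f).toAdd (φ y.f).toAdd (φ z.f).toAdd))
  (fun x => Eb.ext (one_mul _) (by
    change 0 + x.a + gB b (φ 1).toAdd (φ x.f).toAdd = x.a
    simp))
  fun x => Eb.ext (inv_mul_cancel _) (by
    change -x.a - gB b (φ x.f⁻¹).toAdd (φ x.f).toAdd + x.a +
      gB b (φ x.f⁻¹).toAdd (φ x.f).toAdd = 0
    ring)

theorem Eb.card (φ : F →* Multiplicative (Fin r → ZMod 2)) (b : Tri r → ZMod 2) :
    Nat.card (Eb φ b) = Nat.card F * 2 := by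
  have e : Eb φ b ≃ F × ZMod 2 := ⟨fun x => (x.f, x.a), fun x => ⟨x.1, x.2⟩, fun _ => rfl,
    fun _ => rfl⟩
  simp [Nat.card_congr e]

/-- `O` is the largest normal 2-subgroup. -/
def IsO2 {G : Type} [Group G] (O : Subgroup G) : Prop :=
  O.Normal ∧ IsPGroup 2 O ∧ ∀ O' : Subgroup G, O'.Normal → IsPGroup 2 O' → O' ≤ O

end Pool.Agent.Lib.MP_2d211a_co.S64
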