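import Pool.Agent.Lib.MP_2d211a_co.S64BRoot

/-!
Extensions of small index of a generic group contain a relative difference set.
-/

namespace Pool.Agent.Lib.MP_2d211a_co.S64

open MonoidAlgebra Finset H62 H30 Subgroup
open scoped commutatorElement

theorem rds_generic {n : ℕ} (hn : 10 ^ 6 ≤ n) {F : Type} [Group F] (hF : Nat.card F = 2 ^ n)
    (hg : Generic n F) {G : Type} [Group G] [Finite G] (f : F →* G) (hf : Function.Injective f)
    [f.range.Normal] (hi : f.range.index ≤ 2 ^ (n / 10 ^ 13)) :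
    ∃ (N : Subgroup G) (R : Set G), N ≤ center G ∧ Nat.card N = 2 ∧ IsSemiregularRDS N R := by
  obtain ⟨z, N, Q, A, h, hN, a0, a1, a2, a3, a4, a5, a6⟩ := root_node hn hF hg f hf hi
  have c1 := Nat.div_mul_le_self n (10 ^ 4)
  have c2 : n / 10 ^ 13 * 10 ^ 4 * 100 ≤ n :=
    le_trans (by rw [mul_assoc]; gcongr; norm_num) (Nat.div_mul_le_self n (10 ^ 13))
  have c3 := Nat.div_mul_le_self n 8
  have c4 := Nat.div_mul_le_self (2 * n) 3
  have c5 : 2 * n < (2 * n / 3 + 1) * 3 := by omega
  have c6 : n < (n / 400 + 1) * 400 := by omega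
  generalize n / 10 ^ 4 = g at *
  generalize n / 10 ^ 13 = t at *
  generalize n / 8 = e at *
  generalize 2 * n / 3 = r at *
  generalize n / 400 = θ at *
  have hm : Mx z 1 := by
    refine stepN hN a1 a2 a3 (fun a ha x hx => ?_) (h' := 0) a5 ?_ (fun _ => by omega)
      fun _ E' _ _ z' F' N' Q' o b1 b2 b3 => ?_
    · rw [commutatorElement_eq_one_iff_mul_comm.2 (a4 hx a ha)]
      exact one_mem _
    · rw [pow_zero, relIndex_eq_one]
      exact a4
    · refine recursion (a := f.range.index) (ρ := 17 * t + 3)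
        (Nat.pos_of_ne_zero index_ne_zero_of_finite) ?_ _ _ (17 * t + 3) le_rfl
        E' z' F' N' Q' _ _ _ 0 b1 (by rw [mul_one, b2]) b3 (by omega) (by omega) (by omega)
      rw [pow_add, mul_comm 17, pow_mul, mul_comm]
      exact Nat.mul_le_mul (Nat.pow_le_pow_left hi 17) (by norm_num)
  have h2 : 2 < Nat.card G := by
    refine lt_of_lt_of_le ?_ (Nat.card_le_card_of_injective f hf)
    rw [hF]
    exact lt_of_lt_of_le (by norm_num) (Nat.pow_le_pow_right two_pos (show 2 ≤ n by omega))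
  obtain ⟨R, hR⟩ := hm.rds hN.cen h2
  exact ⟨zpowers z, R, zpowers_le.2 (mem_center_iff.2 hN.cen.comm),
    card_zp hN.cen.ne hN.cen.pow, hR⟩

end Pool.Agent.Lib.MP_2d211a_co.S64
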