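import Pool.Agent.Lib.MP_2d211a_co.S33GMain
import Pool.Agent.Lib.MP_2d211a_co.S64BMain

/-!
Almost all tame groups are 2-groups with a semiregular relative difference set.
-/

namespace Pool.Agent.Lib.MP_2d211a_co.S64

open Subgroup H60 CategoryTheory

theorem almost_two_rds {c : ℕ} {S : Set GrpCat.{0}} (h : Thin c S) (hc : c ≤ 20) :
    ∃ x₀ : ℕ, ∀ x ≥ x₀,
      (cl '' {G | (Finite G ∧ Nat.card G ≤ x ∧ Tame S G) ∧ ¬(IsPGroup 2 G ∧
        ∃ (N : Subgroup G) (R : Set G), N ≤ center G ∧ Nat.card N = 2 ∧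
          IsSemiregularRDS N R)}).ncard * 2 ^ (Nat.log 2 x ^ 2 / 11) ≤
      (cl '' {G | Finite G ∧ Nat.card G ≤ x ∧ Tame S G}).ncard := by
  obtain ⟨K₀, n₁, h0, h1⟩ := count_bad
  obtain ⟨K, x₀, k0, k1⟩ := almost_all' h sims_le
    (fun n => {F | Nat.card F = 2 ^ n ∧ ¬Generic n F}) (fun _ _ h => h.1) h0 h1
    (fun G => ¬∃ (N : Subgroup G) (R : Set G), N ≤ center G ∧ Nat.card N = 2 ∧
      IsSemiregularRDS N R) (T := 10 ^ 13) (n₂ := 10 ^ 6) (by norm_num)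
    (fun n hn G _ O o1 o2 o3 hG => ⟨o2, fun hg => hG (by
      have : O.subtype.range.Normal := O.range_subtype.symm ▸ o1
      exact rds_generic hn o2 hg O.subtype O.subtype_injective (O.range_subtype.symm ▸ o3))⟩)
  obtain ⟨x₁, k2⟩ := almost_two h hc
  refine ⟨x₀ + x₁ + 2 ^ (K + 20), fun x hx => ?_⟩
  have x1 : 2 ^ (K + 20) ≤ x := by omega
  have x2 := Nat.two_pow_pos (K + 20)
  have fin : ∀ Z : Set GrpCat.{0}, (∀ G ∈ Z, Finite G ∧ Nat.card G ≤ x) →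
      (cl '' Z).Finite := fun Z hZ => (fin_le x).subset (Set.image_mono hZ)
  have f0 := fin {G | Finite G ∧ Nat.card G ≤ x ∧ Tame S G} fun G hG => ⟨hG.1, hG.2.1⟩
  have s1 : Vt S x 1 ⊆ {G | Finite G ∧ Nat.card G ≤ x ∧ Tame S G} := by
    rintro G ⟨g1, g2, M, -, g4, g5⟩
    have := M.index_ne_zero_of_finite
    obtain rfl := index_eq_one.1 (by omega : M.index = 1)
    exact ⟨g1, g2, g4.of_surj (⊤ : Subgroup G).subtype fun g => ⟨⟨g, trivial⟩, rfl⟩⟩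
  have a1 := (k1 x (by omega) 1 one_pos (by rw [one_pow]; omega)).trans
    (Set.ncard_le_ncard (Set.image_mono s1) f0)
  have a2 := (k2 x (by omega)).2.trans (Set.ncard_le_ncard (Set.image_mono fun G hG => by
    have hG : Nat.card G = 2 ^ Nat.log 2 x := hG
    exact ⟨Nat.finite_of_card_ne_zero (hG ▸ (Nat.two_pow_pos _).ne'),
      hG ▸ Nat.pow_log_le_self 2 (by omega), tame_of_two hG⟩) f0)
  have hN := Nat.le_log_of_pow_le one_lt_two x1
  generalize Nat.log 2 x = N at a1 a2 hN ⊢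
  have a5 : 400 ≤ N ^ 2 := by nlinarith
  have a6 : N ^ 2 ≤ N ^ 3 / K := by
    rw [Nat.le_div_iff_mul_le k0, pow_succ N 2]
    exact Nat.mul_le_mul_left _ (by omega)
  refine g33main_three (p := 2 ^ (N ^ 2 / 10)) (le_trans (Nat.mul_le_mul_left _
    (Nat.pow_le_pow_right two_pos (by omega))) a1) a2 a2 (fin _ fun G hG => ⟨hG.1.1, hG.1.2.1⟩)
    (fin _ fun G hG => ⟨hG.1, hG.2.2.1⟩) (fin _ fun G hG => ⟨hG.1, hG.2.2.1⟩) ?_ ?_
  · refine le_trans (Nat.mul_le_mul_left _ (by norm_num : 3 ≤ 2 ^ 2)) ?_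
    rw [← pow_add]
    exact Nat.pow_le_pow_right two_pos (by omega)
  rintro _ ⟨G, ⟨⟨g1, g2, g3⟩, g4⟩, rfl⟩
  by_cases b : IsPGroup 2 G
  · exact .inl (.inl ⟨G, ⟨⟨g1, g2, ⊤, inferInstance, g3.of_surj (topEquiv (G := G)).symm
      (topEquiv (G := G)).symm.surjective, index_top.le⟩, fun e => g4 ⟨b, e⟩⟩, rfl⟩)
  · exact .inr ⟨G, ⟨g1, g3, g2, b⟩, rfl⟩

end Pool.Agent.Lib.MP_2d211a_co.S64
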