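import Pool.Agent.Lib.MP_2d211a_co.S64DDef
import Pool.Agent.Lib.MP_2d211a_co.S64CRec

/-!
Extensions that agree over Sylow subgroups are isomorphic.
-/

namespace Pool.Agent.Lib.MP_2d211a_co.S64

open Subgroup H60 CategoryTheory

theorem S64DIso_card {S H : Type} [Group S] [Group H] (x : Xt S H) :
    Nat.card x.G = Nat.card S * Nat.card H := by
  rw [← x.π.ker.card_mul_index, index_ker, MonoidHom.range_eq_top.2 x.sur, card_top, ← x.ex,
    ← Nat.card_congr (MonoidHom.ofInjective x.inj).toEquiv]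

theorem S64DIso_one {S H : Type} [Group S] [Group H] (x : Xt S H) (t : S) : x.π (x.f t) = 1 :=
  MonoidHom.mem_ker.1 (x.ex ▸ ⟨t, rfl⟩)

theorem S64DIso_top {G : Type} [Group G] {L : Subgroup G}
    (h : ∀ p : ℕ, p.Prime → ¬p ∣ L.index) : L = ⊤ := by
  rw [← index_eq_one]
  by_contra h1
  obtain ⟨q, hq, h2⟩ := Nat.exists_prime_and_dvd h1
  exact h q hq h2

theorem Xt.iso {S H : Type} [Group S] [Group H] [Finite S] [Finite H] {x y : Xt S H}
    (h : ∀ p : ℕ, p.Prime → ∃ K : Subgroup H, ¬p ∣ K.index ∧ Xt.Rel K x y) :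
    Nonempty (x.G ≃* y.G) := by
  have hx := S64DIso_card x
  have hy := S64DIso_card y
  have h0 : Nat.card S * Nat.card H ≠ 0 := (Nat.mul_pos Nat.card_pos Nat.card_pos).ne'
  have : Finite x.G := Nat.finite_of_card_ne_zero (hx ▸ h0)
  have : Finite y.G := Nat.finite_of_card_ne_zero (hy ▸ h0)
  obtain ⟨c, hc⟩ := rec_conj x.f x.inj (x.ex ▸ inferInstance)
  obtain ⟨c', hc'⟩ := rec_conj y.f y.inj (y.ex ▸ inferInstance)
  let D := ((c.prod x.π).comp (MonoidHom.fst x.G y.G)).eqLocus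
    ((c'.prod y.π).comp (MonoidHom.snd x.G y.G))
  have hD : ∀ z : x.G × y.G, z ∈ D ↔ c z.1 = c' z.2 ∧ x.π z.1 = y.π z.2 := fun _ => Prod.ext_iff
  let δ : S →* D := (x.f.prod y.f).codRestrict D fun f => (hD _).2 ⟨MulEquiv.ext fun t => by
    have a1 : c (x.f f) t = f * t * f⁻¹ := x.inj (by simp [hc])
    have a2 : c' (y.f f) t = f * t * f⁻¹ := y.inj (by simp [hc'])
    exact a1.trans a2.symm, (S64DIso_one x f).trans (S64DIso_one y f).symm⟩
  let r : D →* x.G := (MonoidHom.fst x.G y.G).comp D.subtype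
  let s : D →* y.G := (MonoidHom.snd x.G y.G).comp D.subtype
  have ex : ∀ a b : D, r a = r b → s a = s b → a = b := fun a b e1 e2 =>
    Subtype.ext (Prod.ext e1 e2)
  have cen : ∀ a : D, s a = 1 → ∀ t, x.f t * r a = r a * x.f t := fun a ha t => by
    have a1 : c (r a) = c' (s a) := ((hD _).1 a.2).1
    have a2 := hc (r a) t
    rw [a1, ha, map_one] at a2
    exact eq_mul_inv_iff_mul_eq.1 a2
  have ker : ∀ a : D, s a = 1 → ∃ z, x.f z = r a := fun a ha => by
    have a1 : x.π (r a) = y.π (s a) := ((hD _).1 a.2).2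
    rw [ha, map_one, ← MonoidHom.mem_ker, ← x.ex] at a1
    exact a1
  have key : ∀ p : ℕ, p.Prime → ∃ L : Subgroup D,
      (∀ w ∈ L, ∀ a f, s a = 1 → w = a * δ f → a = 1) ∧ ¬p ∣ (L.map s).index ∧
        ¬p ∣ (L.map r).index := fun p hp => by
    obtain ⟨K, hK, θ, h1, h2⟩ := h p hp
    have hm : ∀ t, x.f t ∈ K.comap x.π := fun t => by
      rw [mem_comap, S64DIso_one]
      exact one_mem K
    let η : K.comap x.π →* D := ((K.comap x.π).subtype.prod
      ((K.comap y.π).subtype.comp θ.toMonoidHom)).codRestrict D fun g => (hD _).2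
        ⟨MulEquiv.ext fun t => y.inj (by
          have a1 := h2 (c g t) (g * ⟨x.f t, hm t⟩ * g⁻¹) (hc g t).symm
          have a2 := h2 t ⟨x.f t, hm t⟩ rfl
          rw [map_mul, map_mul, map_inv, Subgroup.coe_mul, Subgroup.coe_mul, Subgroup.coe_inv,
            a2] at a1
          exact a1.symm.trans (hc' (θ g) t).symm), (h1 g).symm⟩
    refine ⟨η.range, ?_, fun h3 => hK (h3.trans ?_), fun h3 => hK (h3.trans ?_)⟩
    · rintro _ ⟨g, rfl⟩ a f ha he
      obtain ⟨z, hz⟩ := ker a ha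
      have a1 : (θ g : y.G) = y.f f := by
        have := congrArg s he
        rwa [map_mul, ha, one_mul] at this
      have a2 : (g : x.G) = x.f (z * f) := by
        have := congrArg r he
        rwa [map_mul, ← hz, show r (δ f) = x.f f from rfl, ← map_mul] at this
      have a3 : z * f = f := y.inj ((h2 _ g a2).symm.trans a1)
      refine ex _ _ ?_ (by rw [ha, map_one])
      rw [← hz, mul_eq_right.1 a3, map_one, map_one]
    · rw [← index_comap_of_surjective K y.sur]
      refine index_dvd_of_le fun g hg => ⟨η (θ.symm ⟨g, hg⟩), ⟨_, rfl⟩, ?_⟩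
      exact congrArg Subtype.val (θ.apply_symm_apply ⟨g, hg⟩)
    · rw [← index_comap_of_surjective K x.sur]
      exact index_dvd_of_le fun g hg => ⟨η ⟨g, hg⟩, ⟨_, rfl⟩, rfl⟩
  refine rec_core (hx.trans hy.symm) r s
    (MonoidHom.range_eq_top.1 (S64DIso_top fun p hp h1 => ?_))
    (MonoidHom.range_eq_top.1 (S64DIso_top fun p hp h1 => ?_))
    δ ⟨?_⟩ (fun f hf => y.inj (by rw [map_one]; exact hf)) ker
    (fun a b ha hb => ex _ _ ?_ (by simp [ha, hb])) fun p hp => ?_
  · obtain ⟨L, -, -, h2⟩ := key p hp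
    exact h2 (h1.trans (index_dvd_of_le (map_le_range r L)))
  · obtain ⟨L, -, h2, -⟩ := key p hp
    exact h2 (h1.trans (index_dvd_of_le (map_le_range s L)))
  · rintro _ ⟨f, rfl⟩ d
    refine ⟨c (r d) f, ex _ _ ?_ ?_⟩
    · rw [map_mul, map_mul, map_inv]
      exact hc _ _
    · have a1 : c (r d) = c' (s d) := ((hD _).1 d.2).1
      rw [map_mul, map_mul, map_inv, a1]
      exact hc' _ _
  · obtain ⟨z, hz⟩ := ker a ha
    rw [map_mul, map_mul, ← hz]
    exact cen b hb z
  · obtain ⟨L, h1, h2, -⟩ := key p hp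
    exact ⟨L, h1, h2⟩

end Pool.Agent.Lib.MP_2d211a_co.S64
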