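import Pool.Agent.Lib.MP_2d211a_co.S64DStep
import Pool.Agent.Lib.MP_2d211a_co.S64DIso

/-!
The number of extensions.
-/

namespace Pool.Agent.Lib.MP_2d211a_co.S64

open Subgroup H60 CategoryTheory

theorem S64DCnt_and {X : Type 1} {n n' : ℕ} {R R' : X → X → Prop} (h : Cells n R)
    (h' : Cells n' R') : Cells (n * n') fun x y => R x y ∧ R' x y := by
  obtain ⟨c, hc⟩ := h
  obtain ⟨c', hc'⟩ := h'
  refine ⟨fun x => finProdFinEquiv (c x, c' x), fun x y e => ?_⟩
  have e' := finProdFinEquiv.injective e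
  exact ⟨hc x y (congrArg Prod.fst e'), hc' x y (congrArg Prod.snd e')⟩

theorem S64DCnt_mono {X : Type 1} {n : ℕ} {R R' : X → X → Prop} (h : Cells n R)
    (hR : ∀ x y, R x y → R' x y) : Cells n R' := by
  obtain ⟨c, hc⟩ := h
  exact ⟨c, fun x y e => hR x y (hc x y e)⟩

theorem S64DCnt_syl {S H : Type} [Group S] [Group H] [Finite S] [Finite H] {N : ℕ}
    (hN : Nat.card S * Nat.card H ≤ 2 ^ N) (s : Finset ℕ) (hs : ∀ p ∈ s, p.Prime) :
    Cells (2 ^ ((∑ p ∈ s, (Nat.card H).factorization p) * (N * N + N)))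
      fun x y : Xt S H => ∀ p ∈ s, ∃ K : Subgroup H, ¬p ∣ K.index ∧ Xt.Rel K x y := by
  classical
  induction s using Finset.induction_on with
  | empty => exact ⟨fun _ => ⟨0, by positivity⟩, fun x y _ p hp => by simp at hp⟩
  | insert p s hp ih =>
    have pp : p.Prime := hs p (Finset.mem_insert_self _ _)
    have := Fact.mk pp
    obtain ⟨P⟩ : Nonempty (Sylow p H) := inferInstance
    have h1 := cells_pow (S := S) hN pp _ (P : Subgroup H) P.card_eq_multiplicity
    have h2 := ih fun q hq => hs q (Finset.mem_insert_of_mem hq)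
    rw [Finset.sum_insert hp, add_mul, pow_add]
    refine S64DCnt_mono (S64DCnt_and h1 h2) fun x y h q hq => ?_
    rcases Finset.mem_insert.1 hq with rfl | hq
    · exact ⟨P, P.not_dvd_index, h.1⟩
    · exact h.2 q hq

theorem S64DCnt_sum {m t : ℕ} (hm : m ≠ 0) (ht : m ≤ 2 ^ t) :
    ∑ p ∈ m.primeFactors, m.factorization p ≤ t := by
  refine (Nat.pow_le_pow_iff_right Nat.one_lt_two).1 (le_trans ?_ ht)
  rw [← Finset.prod_pow_eq_pow_sum]
  conv_rhs => rw [← Nat.prod_factorization_pow_eq_self hm]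
  rw [Finsupp.prod, Nat.support_factorization]
  exact Finset.prod_le_prod' fun p hp =>
    Nat.pow_le_pow_left (Nat.prime_of_mem_primeFactors hp).two_le _

theorem ext_gen {S H : Type} [Group S] [Group H] [Finite S] [Finite H] {N t : ℕ}
    (hN : Nat.card S * Nat.card H ≤ 2 ^ N) (ht : Nat.card H ≤ 2 ^ t) :
    (Set.range fun x : Xt S H => cl x.G).Finite ∧
      (Set.range fun x : Xt S H => cl x.G).ncard ≤ 2 ^ (t * (N * N + N)) := by
  have h0 : Nat.card H ≠ 0 := Nat.card_pos.ne'
  obtain ⟨c, hc⟩ := S64DCnt_syl (S := S) hN (Nat.card H).primeFactors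
    fun p hp => Nat.prime_of_mem_primeFactors hp
  have hb : ∀ x y : Xt S H, Xt.Rel ⊥ x y := by
    obtain ⟨d, hd⟩ := cells_pow (S := S) hN Nat.prime_two 0 (⊥ : Subgroup H) (by simp)
    intro x y
    refine hd x y (Fin.ext ?_)
    have a := (d x).2
    have b := (d y).2
    simp only [zero_mul, pow_zero] at a b
    omega
  have key := cover (t := Set.univ) Set.finite_univ
    (fun i => (fun x : Xt S H => cl x.G) '' {x | c x = i}) 1 (fun i _ => by
      have : ((fun x : Xt S H => cl x.G) '' {x | c x = i}).Subsingleton := by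
        rintro _ ⟨x, hx, rfl⟩ _ ⟨y, hy, rfl⟩
        refine cl_eq.2 (Xt.iso fun p pp => ?_)
        by_cases hp : p ∣ Nat.card H
        · exact hc x y (hx.trans hy.symm) p (Nat.mem_primeFactors.2 ⟨pp, hp, h0⟩)
        · exact ⟨⊥, by rwa [index_bot], hb x y⟩
      exact ⟨this.finite, (Set.ncard_le_one this.finite).2 fun a ha b hb => this ha hb⟩)
    (Set.range fun x : Xt S H => cl x.G) (by
      rintro _ ⟨x, rfl⟩
      exact ⟨c x, trivial, x, rfl, rfl⟩)
  refine ⟨key.1, key.2.trans ?_⟩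
  rw [Set.ncard_univ, Nat.card_eq_fintype_card, Fintype.card_fin, mul_one]
  exact Nat.pow_le_pow_right Nat.two_pos (Nat.mul_le_mul_right _ (S64DCnt_sum h0 ht))

end Pool.Agent.Lib.MP_2d211a_co.S64
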