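import Pool.Agent.Lib.MP_2d211a_co.S33GDef
import Pool.Agent.Lib.MP_2d211a_co.S64DCnt

/-!
Extensions of a group with few automorphisms.
-/

namespace Pool.Agent.Lib.MP_2d211a_co.S64

open Subgroup H60 CategoryTheory

theorem g33ext_lift {G H : Type} [Group G] [Group H] [Finite G] {π : G →* H}
    (hπ : Function.Surjective π) {p a : ℕ} (hp : p.Prime) {h : H} (hh : h ^ p ^ a = 1) :
    ∃ g : G, π g = h ∧ ∃ m, g ^ p ^ m = 1 := by
  obtain ⟨g, rfl⟩ := hπ h
  obtain ⟨m, n, h1, h2⟩ := Nat.exists_eq_pow_mul_and_not_dvd (orderOf_pos g).ne' p hp.one_lt.ne'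
  have h3 : n.Coprime (p ^ a) := (((Nat.Prime.coprime_iff_not_dvd hp).2 h1).symm).pow_right a
  obtain ⟨e, he⟩ : n ∣ n ^ (p ^ a).totient :=
    dvd_pow_self n (Nat.totient_pos.2 (pow_pos hp.pos a)).ne'
  refine ⟨g ^ n ^ (p ^ a).totient, ?_, m, ?_⟩
  · rw [map_pow, pow_eq_pow_of_modEq (Nat.ModEq.pow_totient h3) hh, pow_one]
  · rw [← pow_mul, he, ← orderOf_dvd_iff_pow_eq_one, h2]
    exact ⟨e, by ring⟩

theorem g33ext_count {S T : Type} [Group S] [Group T] [Finite S] [Finite T] {N t A : ℕ}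
    (ι : S →* T) (hT : Nat.card T ≤ 2 ^ N) (hi : ι.range.index ≤ 2 ^ t) (B : Set (MulAut S))
    (hB : B.ncard ≤ 2 ^ A) :
    {α : MulAut T | ∃ σ ∈ B, ∀ s, α (ι s) = ι (σ s)}.ncard ≤ 2 ^ (A + N * t) := by
  obtain ⟨U, hU, hU'⟩ := exists_gens ι.range hi
  refine (cover (Set.toFinite B) (fun σ => {α : MulAut T | ∀ s, α (ι s) = ι (σ s)}) (2 ^ (N * t))
    (fun σ _ => ⟨Set.toFinite _, ?_⟩) _ fun α hα => hα).2.trans ?_
  · refine (Set.ncard_le_ncard_of_injOn (t := Set.univ) (fun (α : MulAut T) (y : U) => α y)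
      (fun _ _ => trivial) (fun α hα β hβ e => MulEquiv.ext fun w => ?_)).trans ?_
    · have h1 : ι.range ⊔ closure (U : Set T) ≤
          (α : T ≃* T).toMonoidHom.eqLocus (β : T ≃* T).toMonoidHom := by
        refine sup_le ?_ ((closure_le _).2 fun y hy => congrFun e ⟨y, hy⟩)
        rintro _ ⟨s, rfl⟩
        exact (hα s).trans (hβ s).symm
      exact h1 (hU' ▸ mem_top w)
    · rw [Set.ncard_univ, Nat.card_fun, Nat.card_eq_fintype_card (α := U), Fintype.card_coe,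
        pow_mul]
      exact (Nat.pow_le_pow_left hT _).trans (Nat.pow_le_pow_right (by positivity) hU)
  · rw [pow_add]
    exact Nat.mul_le_mul_right _ hB

theorem g33ext_dat {S H : Type} [Group S] [Group H] {p : ℕ} {K K' : Subgroup H} (hK : K ≤ K')
    (hn : ∀ k ∈ K, ∀ g ∈ K', g * k * g⁻¹ ∈ K) (x : Xt S H) (g : x.G) (h1 : x.π g ∈ K')
    (h2 : x.π g ∉ K) (h3 : x.π g ^ p ∈ K) (h4 : ∀ E : Subgroup H, K ≤ E → x.π g ∈ E → K' ≤ E)
    {T : Type} [Group T] (θ : T ≃* K.comap x.π) :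
    ∃ (d : MulAut T × T) (f : T →* K'.comap x.π) (g' : K'.comap x.π),
      (∀ t, (f t : x.G) = θ t) ∧ (g' : x.G) = g ∧ Function.Injective f ∧ g' ∉ f.range ∧
      (∀ t, g' * f t * g'⁻¹ = f (d.1 t)) ∧ g' ^ p = f d.2 ∧
      ∀ E : Subgroup (K'.comap x.π), f.range ≤ E → g' ∈ E → ⊤ ≤ E := by
  obtain ⟨f, hf⟩ : ∃ f : T →* K'.comap x.π, ∀ t, (f t : x.G) = θ t :=
    ⟨(inclusion (comap_mono hK)).comp θ.toMonoidHom, fun _ => rfl⟩
  have hi : Function.Injective f := fun a b e =>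
    θ.injective (Subtype.ext ((hf a).symm.trans ((congrArg Subtype.val e).trans (hf b))))
  have hr : ∀ w : K'.comap x.π, w ∈ f.range ↔ x.π w ∈ K := fun w =>
    ⟨by rintro ⟨t, rfl⟩; rw [hf]; exact (θ t).2, fun hw =>
      ⟨θ.symm ⟨w, hw⟩, Subtype.ext (by rw [hf, MulEquiv.apply_symm_apply])⟩⟩
  have hN : f.range.Normal := ⟨fun w hw u => (hr _).2 (by
    rw [coe_mul, coe_mul, coe_inv, map_mul, map_mul, map_inv]
    exact hn _ ((hr w).1 hw) _ u.2)⟩
  obtain ⟨a, ha⟩ := (hr (⟨g, h1⟩ ^ p)).2 (by rwa [coe_pow, map_pow])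
  refine ⟨(((MonoidHom.ofInjective hi).trans (MulAut.conjNormal (⟨g, h1⟩ : K'.comap x.π))).trans
    (MonoidHom.ofInjective hi).symm, a), f, ⟨g, h1⟩, hf, rfl, hi, fun hg => h2 ((hr _).1 hg),
    fun t => ?_, ha.symm, fun E e1 e2 w _ => ?_⟩
  · simp only [MulEquiv.trans_apply, MonoidHom.apply_ofInjective_symm]
    rfl
  · have e3 : K' ≤ E.map (x.π.comp (K'.comap x.π).subtype) := h4 _ (fun k hk => by
      obtain ⟨k, rfl⟩ := x.sur k
      exact ⟨⟨k, hK hk⟩, e1 ((hr _).2 hk), rfl⟩) ⟨_, e2, rfl⟩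
    obtain ⟨u, hu, e4⟩ := e3 w.2
    have e5 : w * u⁻¹ ∈ E := e1 ((hr _).2 (by
      rw [coe_mul, coe_inv, map_mul, map_inv, ← e4]
      exact mul_inv_cancel (x.π u) ▸ K.one_mem))
    simpa using E.mul_mem e5 hu

theorem g33ext_step {S H : Type} [Group S] [Group H] [Finite S] [Finite H] {N t n p A a : ℕ}
    (hN : Nat.card S * Nat.card H ≤ 2 ^ N) (ht : Nat.card H ≤ 2 ^ t) (hp : p.Prime)
    (hA : {α : MulAut S | ∃ k : ℕ, α ^ p ^ k = 1}.ncard ≤ 2 ^ A)
    {K K' : Subgroup H} (hK : K ≤ K') (hn : ∀ k ∈ K, ∀ g ∈ K', g * k * g⁻¹ ∈ K)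
    (hi : K.relIndex K' = p) (hK' : Nat.card K' = p ^ a) (h : Cells n (Xt.Rel (S := S) K)) :
    Cells (n * 2 ^ (A + N * (t + 1))) (Xt.Rel (S := S) K') := by
  obtain ⟨c, hc⟩ := h
  obtain ⟨h, h1, h2⟩ : ∃ h ∈ K', h ∉ K := by
    by_contra! h3
    exact hp.one_lt.ne' (hi.symm.trans (relIndex_eq_one.2 h3))
  have h0 : h ^ p ^ a = 1 := by
    have := congrArg Subtype.val (pow_card_eq_one' (x := (⟨h, h1⟩ : K')))
    rwa [hK'] at this
  have hnor : (K.subgroupOf K').Normal := ⟨fun k hk g => hn _ hk _ g.2⟩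
  have h3 : h ^ p ∈ K := by
    have := (K.subgroupOf K').pow_index_mem ⟨h, h1⟩
    rwa [show (K.subgroupOf K').index = p from hi] at this
  have h4 : ∀ E : Subgroup H, K ≤ E → h ∈ E → K' ≤ E := fun E e1 e2 => by
    have e3 := relIndex_mul_relIndex K (E ⊓ K') K' (le_inf e1 hK) inf_le_right
    rw [hi] at e3
    rcases (Nat.dvd_prime hp).1 (Dvd.intro _ e3) with e4 | e4
    · exact absurd (relIndex_eq_one.1 e4 ⟨e2, h1⟩) h2
    · rw [e4] at e3
      exact (relIndex_eq_one.1 (Nat.eq_of_mul_eq_mul_left hp.pos (e3.trans (mul_one p).symm))).trans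
        inf_le_left
  have key : ∀ v : Fin n, ∃ e : Xt S H → Fin (2 ^ (A + N * (t + 1))),
      ∀ x y, c x = v → c y = v → e x = e y → Xt.Rel K' x y := fun v => by
    by_cases hv : ∃ b, c b = v
    swap
    · exact ⟨fun _ => ⟨0, by positivity⟩, fun x _ hx => absurd ⟨x, hx⟩ hv⟩
    obtain ⟨b, rfl⟩ := hv
    have := S64DStep_fin b
    have hs : ∀ s, b.f s ∈ K.comap b.π := fun s => by
      rw [mem_comap, S64DIso_one]
      exact K.one_mem
    have hT0 : Nat.card (K.comap b.π) ≤ Nat.card S * Nat.card H :=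
      (card_le_card_group _).trans (S64DStep_card b).le
    have hT : Nat.card (K.comap b.π) ≤ 2 ^ N := hT0.trans hN
    obtain ⟨ι, hι⟩ : ∃ ι : S →* K.comap b.π, ∀ s, (ι s : b.G) = b.f s :=
      ⟨b.f.codRestrict _ hs, fun _ => rfl⟩
    have hι1 : Function.Injective ι := fun s s' e =>
      b.inj ((hι s).symm.trans ((congrArg Subtype.val e).trans (hι s')))
    have hι2 : ι.range.index ≤ 2 ^ t := by
      have e := ι.range.card_mul_index
      rw [← Nat.card_congr (MonoidHom.ofInjective hι1).toEquiv] at e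
      exact (Nat.le_of_mul_le_mul_left (e.trans_le hT0) Nat.card_pos).trans ht
    obtain ⟨D, hD0⟩ : ∃ D : Set (MulAut (K.comap b.π)), D = {α | ∃ σ ∈
      {α : MulAut S | ∃ k : ℕ, α ^ p ^ k = 1}, ∀ s, α (ι s) = ι (σ s)} := ⟨_, rfl⟩
    have hD : Nat.card (D × K.comap b.π) ≤ 2 ^ (A + N * (t + 1)) := by
      rw [Nat.card_prod, mul_add, mul_one, ← add_assoc, pow_add]
      exact Nat.mul_le_mul (hD0 ▸ g33ext_count ι hT hι2 _ hA) hT
    have hd : ∀ x : Xt S H, ∃ d : D × K.comap b.π, c x = c b →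
        ∃ (f : K.comap b.π →* K'.comap x.π) (g : K'.comap x.π),
          (∀ t, x.π (f t) = b.π t) ∧
          (∀ (s : S) (t : K.comap b.π), (t : b.G) = b.f s → (f t : x.G) = x.f s) ∧
          x.π g = h ∧ Function.Injective f ∧ g ∉ f.range ∧
          (∀ t, g * f t * g⁻¹ = f (d.1.1 t)) ∧ g ^ p = f d.2 ∧
          ∀ E : Subgroup (K'.comap x.π), f.range ≤ E → g ∈ E → ⊤ ≤ E := fun x => by
      by_cases hx : c x = c b
      swap
      · exact ⟨(⟨1, hD0 ▸ ⟨1, ⟨0, one_pow _⟩, fun _ => rfl⟩⟩, 1), fun e => absurd e hx⟩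
      obtain ⟨θ, t1, t2⟩ := hc b x hx.symm
      have := S64DStep_fin x
      obtain ⟨g, hg, m, hm⟩ := g33ext_lift x.sur hp h0
      obtain ⟨d, f, g', a0, a1, a2, a3, a4, a5⟩ := g33ext_dat (p := p) hK hn x g (hg ▸ h1)
        (hg ▸ h2) (hg ▸ h3) (hg ▸ h4) θ
      obtain ⟨cc, hcc⟩ := rec_conj x.f x.inj (x.ex ▸ inferInstance)
      have a6 : ∀ s, (f (ι s) : x.G) = x.f s := fun s => by rw [a0, t2 s _ (hι s)]
      refine ⟨(⟨d.1, hD0 ▸ ⟨cc g, ⟨m, by rw [← map_pow, hm, map_one]⟩, fun s => a2 ?_⟩⟩, d.2),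
        fun _ => ⟨f, g', fun t => by rw [a0, t1], fun s t e => by rw [a0, t2 s t e],
          by rw [a1, hg], a2, a3, a4, a5⟩⟩
      rw [← a4]
      exact Subtype.ext (by rw [coe_mul, coe_mul, coe_inv, a6, a6, hcc, a1])
    choose d hd using hd
    refine ⟨fun x => Fin.castLE hD (Finite.equivFin _ (d x)), fun x y hx hy e => ?_⟩
    have e' : d x = d y := (Finite.equivFin _).injective (Fin.castLE_injective hD e)
    obtain ⟨f, g, a6, a7, a0, a1, a2, a3, a4, a5⟩ := hd x hx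
    obtain ⟨f', g', b6, b7, b0, b1, b2, b3, b4, b5⟩ := hd y hy
    rw [← e'] at b3 b4
    have := S64DStep_fin x
    have := S64DStep_fin y
    obtain ⟨θ, t1, t2⟩ := S64DStep_iso (d := ((d x).1.1, (d x).2)) hp a1 a2 a3 a4 a5 b1 b2 b3 b4 b5
    refine ⟨θ, fun w => ?_, fun s w hw => ?_⟩
    · refine a5 (((y.π.comp (K'.comap y.π).subtype).comp θ.toMonoidHom).eqLocus
        (x.π.comp (K'.comap x.π).subtype)) ?_ ?_ (mem_top w)
      · rintro _ ⟨t, rfl⟩
        show y.π (θ (f t)) = x.π (f t)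
        rw [t1, a6, b6]
      · show y.π (θ g) = x.π g
        rw [t2, a0, b0]
    · obtain rfl : w = f ⟨_, hs s⟩ := Subtype.ext (hw.trans (a7 s ⟨_, hs s⟩ rfl).symm)
      rw [t1]
      exact b7 s _ rfl
  choose e he using key
  refine ⟨fun x => finProdFinEquiv (c x, e (c x) x), fun x y hxy => ?_⟩
  have e1 := Prod.ext_iff.1 (finProdFinEquiv.injective hxy)
  exact he (c y) x y e1.1 rfl (by have := e1.2; rwa [show c x = c y from e1.1] at this)

theorem cells_few {S H : Type} [Group S] [Group H] [Finite S] [Finite H] {N t p A : ℕ}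
    (hN : Nat.card S * Nat.card H ≤ 2 ^ N) (ht : Nat.card H ≤ 2 ^ t) (hp : p.Prime)
    (hA : (p = 2 → Nat.card (MulAut S) ≤ 2 ^ A) ∧
      (p ≠ 2 → {α : MulAut S | ∃ k : ℕ, α ^ p ^ k = 1}.ncard ≤ 2 ^ A))
    (k : ℕ) (K : Subgroup H) (hK : Nat.card K = p ^ k) :
    Cells (2 ^ (k * (A + N * (t + 1)))) (Xt.Rel (S := S) K) := by
  have hA' : {α : MulAut S | ∃ k : ℕ, α ^ p ^ k = 1}.ncard ≤ 2 ^ A := by
    by_cases h2 : p = 2
    · exact (Set.ncard_le_card _).trans (hA.1 h2)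
    · exact hA.2 h2
  induction k generalizing K with
  | zero =>
    obtain rfl : K = ⊥ := card_eq_one.1 hK
    exact ⟨fun _ => ⟨0, by positivity⟩, fun x y _ => S64DStep_bot x y⟩
  | succ k ih =>
    have : Fact p.Prime := ⟨hp⟩
    obtain ⟨L, hL⟩ := Sylow.exists_subgroup_card_pow_prime (G := K) p (n := k)
      (hK ▸ pow_dvd_pow p k.le_succ)
    have h1 : L.index = p := by
      have := L.card_mul_index
      rw [hL, hK, pow_succ] at this
      exact Nat.eq_of_mul_eq_mul_left (pow_pos hp.pos k) this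
    have h2 : L.Normal := normal_of_index_eq_minFac_card (by
      rw [h1, hK, hp.pow_minFac k.succ_ne_zero])
    have h3 : (L.map K.subtype).subgroupOf K = L := comap_map_eq_self_of_injective
      K.subtype_injective L
    rw [add_mul, one_mul, pow_add]
    refine g33ext_step hN ht hp hA' (map_subtype_le L) ?_ ((congrArg index h3).trans h1) hK
      (ih _ ((card_map_of_injective K.subtype_injective).trans hL))
    rintro _ ⟨l, hl, rfl⟩ g hg
    exact ⟨_, h2.conj_mem l hl ⟨g, hg⟩, rfl⟩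

theorem g33ext_syl {S H : Type} [Group S] [Group H] [Finite S] [Finite H] {N t A B : ℕ}
    (hN : Nat.card S * Nat.card H ≤ 2 ^ N) (ht : Nat.card H ≤ 2 ^ t)
    (hA : Nat.card (MulAut S) ≤ 2 ^ A)
    (hB : ∀ p : ℕ, p.Prime → p ≠ 2 → {α : MulAut S | ∃ k : ℕ, α ^ p ^ k = 1}.ncard ≤ 2 ^ B)
    (s : Finset ℕ) (hs : ∀ p ∈ s, p.Prime) :
    Cells (2 ^ (∑ p ∈ s, (Nat.card H).factorization p *
        ((if p = 2 then A else B) + N * (t + 1))))
      fun x y : Xt S H => ∀ p ∈ s, ∃ K : Subgroup H, ¬p ∣ K.index ∧ Xt.Rel K x y := by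
  induction s using Finset.induction_on with
  | empty => exact ⟨fun _ => ⟨0, by positivity⟩, fun x y _ p hp => by simp at hp⟩
  | insert p s hp ih =>
    have pp : p.Prime := hs p (Finset.mem_insert_self _ _)
    have := Fact.mk pp
    obtain ⟨P⟩ : Nonempty (Sylow p H) := inferInstance
    have h1 := cells_few (S := S) (A := if p = 2 then A else B) hN ht pp
      ⟨fun h => by rwa [if_pos h], fun h => by rw [if_neg h]; exact hB p pp h⟩ _
      (P : Subgroup H) P.card_eq_multiplicity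
    have h2 := ih fun q hq => hs q (Finset.mem_insert_of_mem hq)
    rw [Finset.sum_insert hp, pow_add]
    refine S64DCnt_mono (S64DCnt_and h1 h2) fun x y h q hq => ?_
    rcases Finset.mem_insert.1 hq with rfl | hq
    · exact ⟨P, P.not_dvd_index, h.1⟩
    · exact h.2 q hq

theorem ext_few {S H : Type} [Group S] [Group H] [Finite S] [Finite H] {N t A B : ℕ}
    (hN : Nat.card S * Nat.card H ≤ 2 ^ N) (ht : Nat.card H ≤ 2 ^ t)
    (hA : Nat.card (MulAut S) ≤ 2 ^ A)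
    (hB : ∀ p : ℕ, p.Prime → p ≠ 2 → {α : MulAut S | ∃ k : ℕ, α ^ p ^ k = 1}.ncard ≤ 2 ^ B) :
    (Set.range fun x : Xt S H => cl x.G).ncard ≤
      2 ^ ((Nat.card H).factorization 2 * A + t * B + t * (N * (t + 1))) := by
  have h0 : Nat.card H ≠ 0 := Nat.card_pos.ne'
  obtain ⟨c, hc⟩ := g33ext_syl (S := S) hN ht hA hB (Nat.card H).primeFactors
    fun p hp => Nat.prime_of_mem_primeFactors hp
  have key := cover (t := Set.univ) Set.finite_univ
    (fun i => (fun x : Xt S H => cl x.G) '' {x | c x = i}) 1 (fun i _ => by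
      have : ((fun x : Xt S H => cl x.G) '' {x | c x = i}).Subsingleton := by
        rintro _ ⟨x, hx, rfl⟩ _ ⟨y, hy, rfl⟩
        refine cl_eq.2 (Xt.iso fun p pp => ?_)
        by_cases hp : p ∣ Nat.card H
        · exact hc x y (hx.trans hy.symm) p (Nat.mem_primeFactors.2 ⟨pp, hp, h0⟩)
        · exact ⟨⊥, by rwa [index_bot], S64DStep_bot x y⟩
      exact ⟨this.finite, (Set.ncard_le_one this.finite).2 fun a ha b hb => this ha hb⟩)
    (Set.range fun x : Xt S H => cl x.G) (by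
      rintro _ ⟨x, rfl⟩
      exact ⟨c x, trivial, x, rfl, rfl⟩)
  refine key.2.trans ?_
  rw [Set.ncard_univ, Nat.card_eq_fintype_card, Fintype.card_fin, mul_one]
  refine Nat.pow_le_pow_right Nat.two_pos ?_
  have h1 := S64DCnt_sum h0 ht
  have h2 : ∑ p ∈ (Nat.card H).primeFactors,
      (if p = 2 then (Nat.card H).factorization p * A else 0) ≤
        (Nat.card H).factorization 2 * A := by
    rw [Finset.sum_ite_eq']
    split_ifs
    exacts [le_rfl, Nat.zero_le _]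
  refine le_trans (Finset.sum_le_sum (g := fun p => (if p = 2 then
    (Nat.card H).factorization p * A else 0) + (Nat.card H).factorization p * (B + N * (t + 1)))
    fun p _ => ?_) ?_
  · split_ifs
    · rw [← mul_add]
      exact Nat.mul_le_mul_left _ (by omega)
    · rw [zero_add]
  · rw [Finset.sum_add_distrib, ← Finset.sum_mul, add_assoc, ← mul_add]
    exact Nat.add_le_add h2 (Nat.mul_le_mul_right _ h1)

end Pool.Agent.Lib.MP_2d211a_co.S64
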