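import Pool.Agent.Lib.MP_2d211a_co.S33GFib

/-!
The number of groups of order 2 ^ n grows fast.
-/

namespace Pool.Agent.Lib.MP_2d211a_co.S64

open Subgroup H60 CategoryTheory

theorem g33gro_num {n r g C : ℕ} (hn : 10 ^ 6 ≤ n) (hg : g = n / 10 ^ 4) (hr : r = 2 * n / 3 - g)
    (hC : C * 2 = r * (r - 1)) :
    2 * n ^ 2 / 9 - 3 * n ^ 2 / 10 ^ 4 + 1 + (n + 1 + (2 * r * g + n)) ≤ C := by
  have a1 : 10 ^ 4 * g ≤ n := by omega
  have a2 : 3 * r + 3 * g ≤ 2 * n := by omega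
  obtain ⟨s, rfl⟩ : ∃ s, r = s + 1 := ⟨r - 1, by omega⟩
  have a3 : 2 * n ≤ 3 * s + 3 * g + 5 := by omega
  rw [Nat.add_sub_cancel] at hC
  have a4 : 10 ^ 6 * n ≤ n * n := Nat.mul_le_mul_right n hn
  have a5 : 10 ^ 4 * (g * n) ≤ n * n := by nlinarith
  have a6 : 3 * ((s + 1) * g) ≤ 2 * (g * n) := by nlinarith
  have a7 : 4 * (n * n) ≤ 9 * (s * s) + 12 * (g * n) + 20 * n := by
    have h1 : (2 * n : ℤ) - (3 * g + 5) ≤ 3 * s := by omega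
    have h2 : (0 : ℤ) ≤ 2 * n - (3 * g + 5) := by omega
    have h3 := mul_self_le_mul_self h2 h1
    have h4 := mul_self_nonneg ((3 * g + 5 : ℤ))
    zify
    nlinarith
  have a8 : s * s ≤ (s + 1) * s := Nat.mul_le_mul_right s s.le_succ
  rw [pow_two, mul_assoc 2 (s + 1)]
  omega

theorem growth : ∃ n0 : ℕ, ∀ n ≥ n0,
    gnu (2 ^ n) * 2 ^ (2 * n ^ 2 / 9 - 3 * n ^ 2 / 10 ^ 4) ≤ gnu (2 ^ (n + 1)) := by
  obtain ⟨K, n0, hK, hb⟩ := count_bad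
  refine ⟨n0 + K + 10 ^ 13, fun n hn => ?_⟩
  obtain ⟨g, hg⟩ : ∃ g, g = n / 10 ^ 4 := ⟨_, rfl⟩
  obtain ⟨r, hr⟩ : ∃ r, r = 2 * n / 3 - g := ⟨_, rfl⟩
  set Gn := cl '' {F | Nat.card F = 2 ^ n ∧ Generic n F} with hGn
  have f0 := all_fin Nat.prime_two n
  have f1 : Gn.Finite := f0.subset (Set.image_mono fun _ h => h.1)
  have h1 : gnu (2 ^ n) ≤ 2 * Gn.ncard := by
    have a1 := hb n (by omega)
    have a2 : 1 ≤ n ^ 3 / K := by
      rw [Nat.le_div_iff_mul_le hK, one_mul]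
      exact le_trans (by omega) (Nat.le_self_pow (by norm_num) n)
    have a3 := (Nat.mul_le_mul_left _ (Nat.pow_le_pow_right two_pos a2)).trans a1
    have a4 : gnu (2 ^ n) ≤ Gn.ncard +
        (cl '' {F | Nat.card F = 2 ^ n ∧ ¬Generic n F}).ncard := by
      refine le_trans (Set.ncard_le_ncard ?_ (f1.union (f0.subset
        (Set.image_mono fun _ h => h.1)))) (Set.ncard_union_le _ _)
      rintro _ ⟨F, hF, rfl⟩
      by_cases h : Generic n F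
      exacts [.inl ⟨F, ⟨hF, h⟩, rfl⟩, .inr ⟨F, ⟨hF, h⟩, rfl⟩]
    change _ ≤ gnu (2 ^ n) at a3
    omega
  have hc : ∀ c : Gn, ∃ (F : GrpCat.{0}) (φ : F →* Multiplicative (Fin r → ZMod 2)),
      cl F = c ∧ Nat.card F = 2 ^ n ∧ ∀ b' : Tri r → ZMod 2,
        {b : Tri r → ZMod 2 | ∃ θ : Eb φ b ≃* Eb φ b', θ ⟨1, 1⟩ = ⟨1, 1⟩}.ncard ≤
          2 ^ (2 * r * g + n) := by
    rintro ⟨_, F, ⟨hF, hG⟩, rfl⟩
    have := Two.of_card hF
    have a1 := le_index_iff.1 (hG.ov F (MonoidHom.id F) 0 Function.injective_id hF (Nat.zero_le _))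
    obtain ⟨φ, x, hx⟩ := coords (F := F) (r := r) (by rw [hr, hg]; exact a1)
    refine ⟨F, φ, rfl, hF, eb_fibre (lg_top hF).le φ x hx fun α => ?_⟩
    have a2 := relIndex_le_iff.1 (hG.mv {α} (by rw [Finset.card_singleton]; omega))
    rwa [inf_eq_left.2 le_sup_left, ← hg] at a2
  choose F φ k1 k2 k3 using hc
  have : Finite Gn := f1
  have key := (cover (all_fin Nat.prime_two (n + 1))
    (fun e => {q : Gn × (Tri r → ZMod 2) | cl (GrpCat.of (Eb (φ q.1) q.2)) = e})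
    (2 ^ (n + 1) * 2 ^ (2 * r * g + n)) (fun e he => ⟨Set.toFinite _, ?_⟩) Set.univ
    fun q _ => ⟨_, ⟨GrpCat.of (Eb (φ q.1) q.2), (Eb.card _ _).trans (by rw [k2, pow_succ]),
      rfl⟩, rfl⟩).2
  · rw [Set.ncard_univ, Nat.card_prod, Nat.card_coe_set_eq, Nat.card_fun, Nat.card_zmod,
      Nat.card_eq_fintype_card, ← pow_add] at key
    have a1 := Nat.pow_le_pow_right two_pos (g33gro_num (by omega) hg hr (card_Tri r))
    refine Nat.le_of_mul_le_mul_right (le_trans ?_ key) (Nat.two_pow_pos _)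
    refine le_trans ?_ (Nat.mul_le_mul_left _ a1)
    rw [pow_add, pow_add _ _ 1]
    refine (Nat.mul_le_mul_right _ (Nat.mul_le_mul_right _ h1)).trans_eq ?_
    ring
  obtain ⟨E, hE, rfl⟩ := he
  have : Finite E := Nat.finite_of_card_ne_zero (hE ▸ (Nat.two_pow_pos _).ne')
  refine (cover (Set.finite_univ (α := E)) (fun w => {q : Gn × (Tri r → ZMod 2) |
    ∃ θ : Eb (φ q.1) q.2 ≃* E, θ ⟨1, 1⟩ = w}) _ (fun w _ => ⟨Set.toFinite _, ?_⟩) _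
    fun q hq => ?_).2.trans_eq (by rw [Set.ncard_univ, hE])
  · rcases Set.eq_empty_or_nonempty {q : Gn × (Tri r → ZMod 2) |
      ∃ θ : Eb (φ q.1) q.2 ≃* E, θ ⟨1, 1⟩ = w} with e | ⟨⟨c, b'⟩, θ', h'⟩
    · simp [e]
    refine le_trans (Set.ncard_le_ncard (t := Prod.mk c '' _) ?_ (Set.toFinite _))
      ((Set.ncard_image_le).trans (k3 c b'))
    rintro ⟨d, b⟩ ⟨θ, h⟩
    have h2 : (θ.trans θ'.symm) ⟨1, 1⟩ = ⟨1, 1⟩ := θ'.symm_apply_eq.2 (h.trans h'.symm)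
    obtain ⟨α, -⟩ := eb_base _ h2
    obtain rfl : d = c := Subtype.ext ((k1 d).symm.trans ((cl_eq.2 ⟨α⟩).trans (k1 c)))
    exact ⟨b, ⟨_, h2⟩, rfl⟩
  · obtain ⟨θ⟩ := cl_eq.1 hq
    exact ⟨_, trivial, θ, rfl⟩

theorem growth_iter : ∃ n0 : ℕ, ∀ n ≥ n0, ∀ j : ℕ,
    gnu (2 ^ n) * 2 ^ ((2 * n ^ 2 / 9 - 3 * n ^ 2 / 10 ^ 4) * j) ≤ gnu (2 ^ (n + j)) := by
  obtain ⟨n0, h⟩ := growth
  refine ⟨n0 + 100, fun n hn j => ?_⟩
  induction j with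
  | zero => simp
  | succ j ih =>
    refine le_trans ?_ (h (n + j) (by omega))
    rw [mul_add, mul_one, pow_add, ← mul_assoc]
    refine Nat.mul_le_mul ih (Nat.pow_le_pow_right two_pos ?_)
    rcases Nat.eq_zero_or_pos j with rfl | hj
    · rfl
    have : n ^ 2 + 100 ≤ (n + j) ^ 2 := by nlinarith
    omega

end Pool.Agent.Lib.MP_2d211a_co.S64
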