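import Pool.Agent.Lib.MP_2d211a_co.S33GFew
import Pool.Agent.Lib.MP_2d211a_co.S33GGro
import Pool.Agent.Lib.MP_2d211a_co.S33GExt
import Pool.Agent.Lib.MP_2d211a_co.S17EOrd
import Pool.Agent.Lib.MP_2d211a_co.S17EO2
import Pool.Agent.Lib.MP_2d211a_co.S64CHig

/-!
Groups whose largest normal 2-subgroup has few automorphisms.
-/

namespace Pool.Agent.Lib.MP_2d211a_co.S64

open Subgroup H60 CategoryTheory

variable {c : ℕ} {S : Set GrpCat.{0}}

theorem g33Fam_choose {k t : ℕ} (h : k ≤ t) : (k + 1).choose 3 ≤ k * (t * t) := by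
  refine (Nat.choose_le_descFactorial _ _).trans ?_
  have h1 : (k + 1).descFactorial 3 = k * ((k - 1) * (k + 1)) := by
    simp only [Nat.descFactorial_succ, Nat.descFactorial_zero]
    rw [show k + 1 - 2 = k - 1 by omega, show k + 1 - 1 = k by omega, Nat.sub_zero]
    ring
  rw [h1]
  refine Nat.mul_le_mul_left _ (le_trans ?_ (Nat.mul_le_mul h h))
  cases k with
  | zero => simp
  | succ k =>
    rw [Nat.add_sub_cancel]
    nlinarith

theorem tame_count (h : Thin c S) {m t : ℕ} (hm : 0 < m) (ht : m ≤ 2 ^ t) :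
    (cl '' {H | Tame S H ∧ Nat.card H = m}).ncard ≤ 2 ^ ((2 * c + 13) * t ^ 3) := by
  have hs := S64DCnt_sum hm.ne' ht
  have key := count_tame h hm ht (fun p => cl '' {G | Nat.card G = p ^ m.factorization p})
    fun p hp => all_fin (Nat.prime_of_mem_primeFactors hp) _
  have h1 : (∏ p ∈ m.primeFactors, gnu (p ^ m.factorization p)) ≤ 2 ^ t ^ 3 := by
    calc _ ≤ ∏ p ∈ m.primeFactors, (p ^ m.factorization p) ^ (t * t) := by
          refine Finset.prod_le_prod' fun p hp => ?_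
          have hp' := Nat.prime_of_mem_primeFactors hp
          rw [← pow_mul]
          exact (hig_up hp' _).trans (Nat.pow_le_pow_right hp'.pos (g33Fam_choose
            ((Finset.single_le_sum (f := fun p => m.factorization p)
              (fun _ _ => Nat.zero_le _) hp).trans hs)))
      _ = m ^ (t * t) := by
          rw [Finset.prod_pow]
          congr 1
          conv_rhs => rw [← Nat.prod_factorization_pow_eq_self hm.ne']
          rw [Finsupp.prod, Nat.support_factorization]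
      _ ≤ (2 ^ t) ^ (t * t) := Nat.pow_le_pow_left ht _
      _ = _ := by
          rw [← pow_mul]
          congr 1
          ring
  have h2 : m.primeFactors.card ≤ t := by
    refine le_trans ?_ hs
    rw [Finset.card_eq_sum_ones]
    exact Finset.sum_le_sum fun p hp => (Nat.prime_of_mem_primeFactors hp).factorization_pos_of_dvd
      hm.ne' (Nat.dvd_of_mem_primeFactors hp)
  refine (Set.ncard_le_ncard (Set.image_mono ?_)
    ((ord_fin hm).subset (Set.image_mono fun _ hG => hG.2.1))).trans (key.trans ?_)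
  · rintro G ⟨g1, g2⟩
    refine ⟨g1, g2, fun p hp => ?_⟩
    have := Fact.mk (Nat.prime_of_mem_primeFactors hp)
    have : Finite G := Nat.finite_of_card_ne_zero (g2 ▸ hm.ne')
    obtain ⟨R⟩ : Nonempty (Sylow p G) := inferInstance
    exact ⟨R, GrpCat.of R, g2 ▸ R.card_eq_multiplicity, rfl⟩
  · refine (Nat.mul_le_mul_right _ h1).trans ?_
    rw [← pow_add]
    refine Nat.pow_le_pow_right two_pos ?_
    have h3 : t * t ≤ t ^ 3 := by
      rw [show t ^ 3 = t * t * t by ring]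
      rcases Nat.eq_zero_or_pos t with rfl | h0
      · simp
      · exact Nat.le_mul_of_pos_right _ h0
    calc t ^ 3 + (c + 6) * t * t * (1 + m.primeFactors.card)
        ≤ t ^ 3 + (c + 6) * t * t * (1 + t) := by gcongr
      _ = t ^ 3 + (c + 6) * (t * t) + (c + 6) * t ^ 3 := by ring
      _ ≤ t ^ 3 + (c + 6) * t ^ 3 + (c + 6) * t ^ 3 := by gcongr
      _ = _ := by ring

theorem fam_cell (h : Thin c S) {a v u N t : ℕ} (hu : Odd u) (hN : 2 ^ a * (2 ^ v * u) ≤ 2 ^ N)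
    (ht : 2 ^ v * u ≤ 2 ^ t) :
    (cl '' {G | Tame S G ∧ ∃ O : Subgroup G, O.Normal ∧ Nat.card O = 2 ^ a ∧ Few a O ∧
      O.index = 2 ^ v * u}).ncard ≤
      gnu (2 ^ a) * 2 ^ ((2 * c + 13) * t ^ 3 + v * (2 * a ^ 2 / 9 + 3 * a ^ 2 / 10 ^ 4) +
        t * (6 * a ^ 2 / 10 ^ 4) + t * (N * (t + 1))) := by
  have hm : 0 < 2 ^ v * u := Nat.mul_pos (by positivity) hu.pos
  have hv : (2 ^ v * u).factorization 2 = v := by
    rw [Nat.factorization_mul (by positivity) hu.pos.ne', Nat.prime_two.factorization_pow,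
      Finsupp.add_apply, Finsupp.single_eq_same,
      Nat.factorization_eq_zero_of_not_dvd hu.not_two_dvd_nat, add_zero]
  have hf : ((cl '' {G | Nat.card G = 2 ^ a}) ×ˢ
      (cl '' {H | Tame S H ∧ Nat.card H = 2 ^ v * u})).Finite :=
    (all_fin Nat.prime_two a).prod ((ord_fin hm).subset (Set.image_mono fun _ hG => hG.2))
  have key := (cover (t := {q ∈ (cl '' {G | Nat.card G = 2 ^ a}) ×ˢ
      (cl '' {H | Tame S H ∧ Nat.card H = 2 ^ v * u}) | Nat.card q.1.out = 2 ^ a ∧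
        Nat.card q.2.out = 2 ^ v * u ∧ Few a q.1.out}) (hf.subset fun _ h => h.1)
    (fun q => Set.range fun x : Xt q.1.out q.2.out => cl x.G)
    (2 ^ (v * (2 * a ^ 2 / 9 + 3 * a ^ 2 / 10 ^ 4) + t * (6 * a ^ 2 / 10 ^ 4) + t * (N * (t + 1))))
    (fun q hq => ?_) (cl '' {G | Tame S G ∧ ∃ O : Subgroup G, O.Normal ∧ Nat.card O = 2 ^ a ∧
      Few a O ∧ O.index = 2 ^ v * u}) ?_).2
  · refine key.trans ?_
    rw [add_assoc ((2 * c + 13) * t ^ 3), add_assoc ((2 * c + 13) * t ^ 3),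
      pow_add 2 ((2 * c + 13) * t ^ 3), ← mul_assoc (gnu _)]
    refine Nat.mul_le_mul_right _ ((Set.ncard_le_ncard (Set.sep_subset _ _) hf).trans ?_)
    rw [Set.ncard_prod]
    exact Nat.mul_le_mul_left _ (tame_count h hm ht)
  · obtain ⟨-, h1, h2, h3⟩ := hq
    have f1 : Finite q.1.out := Nat.finite_of_card_ne_zero (by rw [h1]; positivity)
    have f2 : Finite q.2.out := Nat.finite_of_card_ne_zero (h2 ▸ hm.ne')
    have e1 : Nat.card q.1.out * Nat.card q.2.out ≤ 2 ^ N := by rwa [h1, h2]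
    have e2 : Nat.card q.2.out ≤ 2 ^ t := by rwa [h2]
    have := ext_few e1 e2 h3.all h3.odd
    rw [h2, hv] at this
    exact ⟨(ext_gen e1 e2).1, this⟩
  · rintro _ ⟨G, ⟨g1, O, s1, s2, s3, s4⟩, rfl⟩
    obtain ⟨φ⟩ := cl_eq.1 (cl (GrpCat.of O)).out_eq
    obtain ⟨ψ⟩ := cl_eq.1 (cl (GrpCat.of (G ⧸ O))).out_eq
    have e1 : Nat.card (cl (GrpCat.of O)).out = Nat.card O := Nat.card_congr φ.toEquiv
    have e2 : Nat.card (cl (GrpCat.of (G ⧸ O))).out = O.index := Nat.card_congr ψ.toEquiv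
    refine ⟨(cl (GrpCat.of O), cl (GrpCat.of (G ⧸ O))), ⟨⟨⟨GrpCat.of O, s2, rfl⟩,
      GrpCat.of (G ⧸ O), ⟨g1.of_surj _ (QuotientGroup.mk'_surjective O), s4⟩, rfl⟩,
      e1.trans s2, e2.trans s4, s3.congr φ.symm⟩,
      ⟨G, O.subtype.comp φ.toMonoidHom, ψ.symm.toMonoidHom.comp (QuotientGroup.mk' O),
        O.subtype_injective.comp φ.injective,
        ψ.symm.surjective.comp (QuotientGroup.mk'_surjective O), ?_⟩, rfl⟩
    rw [MonoidHom.range_comp, MonoidHom.range_eq_top.2 φ.surjective, ← MonoidHom.range_eq_map,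
      range_subtype]
    ext g
    rw [MonoidHom.mem_ker, MonoidHom.comp_apply, ← QuotientGroup.eq_one_iff]
    exact (map_eq_one_iff _ ψ.symm.injective).symm

theorem g33Fam_num {c a v k N t : ℕ} (hc : c ≤ 20) (hN : a + v + k = N) (hk : 1 ≤ k)
    (hM : 10 ^ 6 * (k + 1) ≤ N + 1) (ht : t = 25 * (k + 1)) (hv : v ≤ t) :
    (2 * c + 13) * t ^ 3 + v * (2 * a ^ 2 / 9 + 3 * a ^ 2 / 10 ^ 4) +
      t * (6 * a ^ 2 / 10 ^ 4) + t * ((N + 1) * (t + 1)) + (N ^ 2 / 8 + (3 * N + 1)) ≤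
      (2 * a ^ 2 / 9 - 3 * a ^ 2 / 10 ^ 4) * (v + k) := by
  have a1 : 1000 * (N + 1) ≤ 1001 * a := by omega
  have a2 : 1000 ≤ a := by omega
  have a3 : (1000 * (N + 1)) ^ 2 ≤ (1001 * a) ^ 2 := Nat.pow_le_pow_left a1 2
  have a4 : 1000 ≤ a ^ 2 := a2.trans (Nat.le_self_pow two_ne_zero a)
  have a5 : (10 ^ 6 * k) ^ 2 ≤ (N + 1) ^ 2 := Nat.pow_le_pow_left (by omega) 2
  have a6 : 10 ^ 6 * k * (N + 1) ≤ (N + 1) * (N + 1) := Nat.mul_le_mul_right _ (by omega)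
  have a7 : 10 ^ 6 * (N + 1) ≤ (N + 1) * (N + 1) := Nat.mul_le_mul_right _ (by omega)
  have a8 : N ^ 2 ≤ (N + 1) ^ 2 := Nat.pow_le_pow_left (by omega) 2
  rw [← pow_two] at a6 a7
  rw [mul_pow, mul_pow] at a3
  rw [mul_pow] at a5
  have t1 : t ≤ 50 * k := by omega
  have b1 : (2 * c + 13) * t ^ 3 ≤ 53 * (50 * k) ^ 3 :=
    Nat.mul_le_mul (by omega) (Nat.pow_le_pow_left t1 3)
  have b4 : t * ((N + 1) * (t + 1)) ≤ 50 * k * ((N + 1) * (51 * k)) :=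
    Nat.mul_le_mul t1 (Nat.mul_le_mul_left _ (by omega))
  generalize (2 * c + 13) * t ^ 3 = T1 at b1 ⊢
  generalize t * ((N + 1) * (t + 1)) = T4 at b4 ⊢
  generalize N ^ 2 = n2 at a8 ⊢
  generalize a ^ 2 = s at a3 a4 ⊢
  generalize (N + 1) ^ 2 = W at a3 a5 a6 a7 a8
  obtain ⟨d, hd⟩ : ∃ d, d = 3 * s / 10 ^ 4 := ⟨_, rfl⟩
  obtain ⟨b, hb⟩ : ∃ b, b = 6 * s / 10 ^ 4 := ⟨_, rfl⟩
  obtain ⟨g, hg⟩ : ∃ g, 2 * s / 9 = g + d := ⟨2 * s / 9 - d, by omega⟩
  obtain ⟨e, he⟩ : ∃ e, e = n2 / 8 + (3 * N + 1) := ⟨_, rfl⟩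
  rw [← hd, ← hb, hg, ← he, Nat.add_sub_cancel]
  have c1 : k * (10 ^ 4 * d) ≤ k * (3 * s) := Nat.mul_le_mul_left _ (by omega)
  have c2 : k * (10 ^ 4 * b) ≤ k * (6 * s) := Nat.mul_le_mul_left _ (by omega)
  have c3 : k * (2 * s) ≤ k * (9 * g + 9 * d + 9) := Nat.mul_le_mul_left _ (by omega)
  have c4 : k * 1000 ≤ k * s := Nat.mul_le_mul_left _ a4
  have c5 : k * (1000 * W) ≤ k * (1003 * s) := Nat.mul_le_mul_left _ (by omega)
  have c6 : k * (1000 * e) ≤ k * (126 * W) := Nat.mul_le_mul_left _ (by omega)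
  have c7 : e ≤ k * e := Nat.le_mul_of_pos_left _ hk
  have c8 := Nat.mul_le_mul_left k a5
  have c9 := Nat.mul_le_mul_left k a6
  have d1 : v * d ≤ 50 * k * d := Nat.mul_le_mul_right _ (hv.trans t1)
  have d2 : t * b ≤ 50 * k * b := Nat.mul_le_mul_right _ t1
  have d3 : 0 ≤ k * k ^ 2 := Nat.zero_le _
  have d4 : 0 ≤ k * W := Nat.zero_le _
  linarith

theorem fam_three (h : Thin c S) (hc : c ≤ 20) : ∃ M₀ : ℕ, ∀ M ≥ M₀, ∃ n₀ : ℕ, ∀ N ≥ n₀,
    (cl '' {G | Finite G ∧ Tame S G ∧ Nat.card G < 2 ^ (N + 1) ∧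
      2 ^ (N + 1 - (N + 1) / M) ∣ Nat.card G ∧ ¬IsPGroup 2 G ∧
      ∃ (O : Subgroup G) (a : ℕ), IsO2 O ∧ Nat.card O = 2 ^ a ∧ Few a O}).ncard *
      2 ^ (N ^ 2 / 8) ≤ gnu (2 ^ N) := by
  obtain ⟨n0, hn⟩ := growth_iter
  refine ⟨10 ^ 6, fun M hM => ⟨2 * n0, fun N hN => ?_⟩⟩
  have hf : (Set.Iic N ×ˢ Set.Iic N ×ˢ Set.Iio (2 ^ (N + 1))).Finite :=
    (Set.finite_Iic N).prod ((Set.finite_Iic N).prod (Set.finite_Iio _))
  have key := (cover (t := {q ∈ Set.Iic N ×ˢ Set.Iic N ×ˢ Set.Iio (2 ^ (N + 1)) | Odd q.2.2 ∧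
      2 ^ q.1 * (2 ^ q.2.1 * q.2.2) ≤ 2 ^ (N + 1) ∧ ∃ k, q.1 + q.2.1 + k = N ∧ 1 ≤ k ∧
        10 ^ 6 * (k + 1) ≤ N + 1 ∧ 2 ^ q.2.1 * q.2.2 ≤ 2 ^ (25 * (k + 1))})
    (hf.subset fun _ h => h.1)
    (fun q => cl '' {G | Tame S G ∧ ∃ O : Subgroup G, O.Normal ∧ Nat.card O = 2 ^ q.1 ∧
      Few q.1 O ∧ O.index = 2 ^ q.2.1 * q.2.2})
    (gnu (2 ^ N) / 2 ^ (N ^ 2 / 8 + (3 * N + 1))) (fun q hq => ?_)
    (cl '' {G | Finite G ∧ Tame S G ∧ Nat.card G < 2 ^ (N + 1) ∧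
      2 ^ (N + 1 - (N + 1) / M) ∣ Nat.card G ∧ ¬IsPGroup 2 G ∧
      ∃ (O : Subgroup G) (a : ℕ), IsO2 O ∧ Nat.card O = 2 ^ a ∧ Few a O}) ?_).2
  · have h1 : (Set.Iic N ×ˢ Set.Iic N ×ˢ Set.Iio (2 ^ (N + 1))).ncard ≤ 2 ^ (3 * N + 1) := by
      rw [Set.ncard_prod, Set.ncard_prod, Set.ncard_Iic_nat, Set.ncard_Iio_nat,
        show 3 * N + 1 = N + (N + (N + 1)) by ring, pow_add 2 N (N + _), pow_add 2 N (N + 1)]
      exact Nat.mul_le_mul Nat.lt_two_pow_self (Nat.mul_le_mul_right _ Nat.lt_two_pow_self)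
    have h2 := key.trans (Nat.mul_le_mul_right _
      ((Set.ncard_le_ncard (fun _ h => h.1) hf).trans h1))
    refine (Nat.mul_le_mul_right _ h2).trans (le_trans (le_of_eq ?_)
      (Nat.div_mul_le_self _ (2 ^ (N ^ 2 / 8 + (3 * N + 1)))))
    rw [pow_add 2 (N ^ 2 / 8)]
    ring
  · obtain ⟨a, v, u⟩ := q
    obtain ⟨-, hu, h1, k, h2, h3, h4, h5⟩ := hq
    dsimp only at hu h1 h2 h5 ⊢
    have hv : v ≤ 25 * (k + 1) := (Nat.pow_le_pow_iff_right Nat.one_lt_two).1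
      ((Nat.le_mul_of_pos_right _ hu.pos).trans h5)
    refine ⟨(ord_fin (Nat.mul_pos (Nat.two_pow_pos a)
      (Nat.mul_pos (Nat.two_pow_pos v) hu.pos))).subset (Set.image_mono ?_), ?_⟩
    · rintro G ⟨-, O, -, s2, -, s4⟩
      show Nat.card G = _
      rw [← O.card_mul_index, s2, s4]
    · rw [Nat.le_div_iff_mul_le (Nat.two_pow_pos _)]
      have h6 := hn a (by omega) (v + k)
      rw [← add_assoc, h2] at h6
      refine (Nat.mul_le_mul_right _ (fam_cell h hu h1 h5)).trans (le_trans ?_ h6)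
      rw [mul_assoc, ← pow_add]
      exact Nat.mul_le_mul_left _ (Nat.pow_le_pow_right two_pos (g33Fam_num hc h2 h3 h4 rfl hv))
  · rintro _ ⟨G, ⟨g1, g2, g3, g4, g5, O, a, ⟨o1, -, o3⟩, o4, o5⟩, rfl⟩
    obtain ⟨v, u, hu, hi⟩ := Nat.exists_eq_two_pow_mul_odd (O.index_ne_zero_of_finite)
    have e1 : Nat.card G = 2 ^ a * (2 ^ v * u) := by rw [← O.card_mul_index, o4, hi]
    have e2 : Nat.card G = 2 ^ (a + v) * u := by rw [e1, pow_add, mul_assoc]
    have u3 : 2 ≤ u := by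
      by_contra hh
      have : u = 1 := by have := hu.pos; omega
      exact g5 (IsPGroup.of_card (by rw [e2, this, mul_one]))
    have l1 : a + v + 1 < N + 1 := (Nat.pow_lt_pow_iff_right Nat.one_lt_two).1
      (lt_of_le_of_lt (by rw [pow_succ, e2]; exact Nat.mul_le_mul_left _ u3) g3)
    obtain ⟨k, hk⟩ : ∃ k, a + v + k = N := ⟨N - (a + v), by omega⟩
    have l2 : u < 2 ^ (k + 1) := by
      rw [e2, ← hk, add_assoc (a + v), pow_add 2 (a + v)] at g3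
      exact Nat.lt_of_mul_lt_mul_left g3
    have l3 : N + 1 - (N + 1) / M ≤ a + v := by
      rw [e2] at g4
      exact (Nat.pow_dvd_pow_iff_le_right Nat.one_lt_two).1 (Nat.Coprime.dvd_of_dvd_mul_right
        ((Nat.coprime_two_left.2 hu).pow_left _) g4)
    have l4 : (N + 1) / M ≤ (N + 1) / 10 ^ 6 := Nat.div_le_div_left hM (by norm_num)
    obtain ⟨O', p1, p2, p3⟩ := exists_O2' h G g2 e2 hu
    have l5 : 2 ^ v * u ≤ 2 ^ (25 * (k + 1)) := by
      rw [← hi, mul_comm 25, pow_mul]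
      refine (Nat.le_of_dvd (Nat.pos_of_ne_zero O'.index_ne_zero_of_finite)
        (index_dvd_of_le (o3 O' inferInstance p2))).trans (p3.trans ?_)
      exact (Nat.pow_le_pow_right hu.pos (by omega)).trans (Nat.pow_le_pow_left l2.le 25)
    refine ⟨(a, v, u), ⟨⟨?_, ?_, ?_⟩, hu, e1 ▸ g3.le, k, hk, by omega, by omega, l5⟩,
      G, ⟨g2, O, o1, o4, o5, hi⟩, rfl⟩
    · show a ≤ N
      omega
    · show v ≤ N
      omega
    · exact l2.trans_le (Nat.pow_le_pow_right two_pos (by omega))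

end Pool.Agent.Lib.MP_2d211a_co.S64
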