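import Pool.Agent.Lib.MP_2d211a_co.S33GCo

/-!
Generic groups have few automorphisms.
-/

namespace Pool.Agent.Lib.MP_2d211a_co.S64

open Subgroup H60 CategoryTheory

theorem g33few_L1 {F : Type} [Group F] (α : MulAut F) {z : F} (h : z ∈ L F 1) : α z ∈ L F 1 :=
  L_map_le α.toMonoidHom 1 (mem_map_of_mem _ h)

theorem g33few_mov {F : Type} [Group F] [Two F] {g : ℕ} {α : MulAut F}
    (hm : lg (L F 1 ⊔ Mov {α}) ≤ lg (L F 1) + g) :
    lg ((L F 1 ⊔ Mov {α}).map (QuotientGroup.mk' (L F 1))) ≤ g ∧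
      ∀ x : F, ((x⁻¹ * α x : F) : F ⧸ L F 1) ∈
        (L F 1 ⊔ Mov {α}).map (QuotientGroup.mk' (L F 1)) := by
  have h := lg_map_of_ker_le (f := QuotientGroup.mk' (L F 1)) (A := L F 1 ⊔ Mov {α})
    (by rw [QuotientGroup.ker_mk']; exact le_sup_left)
  rw [QuotientGroup.ker_mk'] at h
  exact ⟨by omega, fun x => mem_map_of_mem (QuotientGroup.mk' (L F 1))
    (mem_sup_right (subset_closure ⟨α, Finset.mem_singleton_self α, x, rfl⟩))⟩

theorem g33few_fix {F : Type} [Group F] [Two F] {p k : ℕ} (hp : p.Prime) (hp2 : p ≠ 2)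
    {α : MulAut F} (hα : α ^ p ^ k = 1) {x : F} (hx : x⁻¹ * α x ∈ L F 1) :
    x ∈ Fix {α} ⊔ L F 1 := by
  have : Fact p.Prime := ⟨hp⟩
  have hiff : ∀ y : F, x⁻¹ * (MulAut.toPerm F α) y ∈ L F 1 ↔ x⁻¹ * y ∈ L F 1 := fun y => by
    have e : x⁻¹ * (MulAut.toPerm F α) y = x⁻¹ * α x * α (x⁻¹ * y) := by
      change x⁻¹ * α y = _
      rw [map_mul, map_inv]
      group
    rw [e, mul_mem_cancel_left hx]
    exact ⟨fun h => by simpa using g33few_L1 α⁻¹ h, g33few_L1 α⟩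
  have := Fintype.ofFinite {y : F // x⁻¹ * y ∈ L F 1}
  have e : {y : F // x⁻¹ * y ∈ L F 1} ≃ L F 1 :=
    ⟨fun y => ⟨x⁻¹ * y.1, y.2⟩, fun z => ⟨x * z.1, by simp⟩, fun y => by simp, fun z => by simp⟩
  obtain ⟨y, hy⟩ := Equiv.Perm.exists_fixed_point_of_prime (p := p) (n := k)
    (α := {y : F // x⁻¹ * y ∈ L F 1})
    (σ := (MulAut.toPerm F α).subtypePerm (p := fun y => x⁻¹ * y ∈ L F 1) hiff) (by
      rw [← Nat.card_eq_fintype_card, Nat.card_congr e, card_eq]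
      exact fun h => hp2 ((Nat.prime_dvd_prime_iff_eq hp Nat.prime_two).1 (hp.dvd_of_dvd_pow h)))
    (by
      rw [Equiv.Perm.subtypePerm_pow]
      ext y
      change ((MulAut.toPerm F α) ^ p ^ k) y.1 = y.1
      rw [← map_pow, hα, map_one]
      rfl)
  have h1 : α y.1 = y.1 := congrArg Subtype.val hy
  have h2 : x = y.1 * (x⁻¹ * y.1)⁻¹ := by group
  rw [h2]
  refine mul_mem (mem_sup_left (mem_Fix.2 fun β hβ => ?_)) (mem_sup_right (inv_mem y.2))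
  rw [Finset.mem_singleton.1 hβ, h1]

theorem g33few_idx {F : Type} [Group F] [Two F] {g p k : ℕ} (hp : p.Prime) (hp2 : p ≠ 2)
    {α : MulAut F} (hα : α ^ p ^ k = 1) (hy : lg (L F 1) ≤ lg (Z0 F) + g)
    (hm : lg (L F 1 ⊔ Mov {α}) ≤ lg (L F 1) + g) (hf : lg (Z0 F) ≤ lg (Fix {α} ⊓ Z0 F) + g) :
    lg (⊤ : Subgroup F) ≤ lg (Fix {α}) + 3 * g := by
  let ψ : F →* F ⧸ L F 1 := MonoidHom.mk' (fun x => ((x⁻¹ * α x : F) : F ⧸ L F 1)) fun x y => by
    simp only [map_mul, mul_inv_rev, QuotientGroup.mk_mul]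
    rw [mul_assoc, ← mul_assoc ((x⁻¹ : F) : F ⧸ L F 1), g33co_comm ((y⁻¹ : F) : F ⧸ L F 1),
      mul_assoc, g33co_comm ((α y : F) : F ⧸ L F 1)]
  obtain ⟨m1, m2⟩ := g33few_mov hm
  have h1 := lg_map ψ ⊤
  have h2 : lg ((⊤ : Subgroup F).map ψ) ≤ g := (lg_mono (by
    rintro _ ⟨x, -, rfl⟩
    exact m2 x)).trans m1
  have h3 : lg (ψ.ker ⊓ ⊤) ≤ lg (Fix {α} ⊔ L F 1) := lg_mono fun x hx =>
    g33few_fix hp hp2 hα ((QuotientGroup.eq_one_iff _).1 hx.1)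
  have h4 := lg_sup_normal (Fix {α}) (L F 1)
  have h5 : lg (Fix {α} ⊓ Z0 F) ≤ lg (Fix {α} ⊓ L F 1) := lg_mono (inf_le_inf_left _ Z0_le)
  omega

theorem g33few_ext {F : Type} [Group F] {T : Subgroup F} {ι : Type} {f : ι → F}
    (e : T ⊔ closure (Set.range f) = ⊤) {α β : MulAut F} (h1 : ∀ y ∈ T, α y = β y)
    (h2 : ∀ i, α (f i) = β (f i)) : α = β := by
  have h : (⊤ : Subgroup F) ≤ α.toMonoidHom.eqLocus β.toMonoidHom :=
    e ▸ sup_le h1 ((closure_le _).2 (by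
      rintro _ ⟨i, rfl⟩
      exact h2 i))
  exact MulEquiv.ext fun y => h (mem_top y)

theorem g33few_arith {n r l g : ℕ} (h0 : 10 ^ 5 ≤ n) (h1 : r + l = n) (h2 : 10 ^ 4 * g ≤ n)
    (h3 : 2 * n ≤ 3 * r + 3 * g + 2) :
    2 * r * g + r * l ≤ 2 * n ^ 2 / 9 + 3 * n ^ 2 / 10 ^ 4 := by
  have a1 : 9 * (r * l) ≤ 2 * n ^ 2 + 3 * (n * g) + 2 * n := by
    subst h1
    rcases le_total (2 * l) r with h | h
    · obtain ⟨d, rfl⟩ := Nat.exists_eq_add_of_le h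
      nlinarith [Nat.zero_le (d * l), Nat.zero_le (d * d), Nat.zero_le ((2 * l + d + l) * g)]
    · obtain ⟨d, hd⟩ := Nat.exists_eq_add_of_le h
      obtain ⟨c, hc⟩ := Nat.exists_eq_add_of_le (show l ≤ 2 * r by omega)
      have b1 : c * d ≤ (r + l) * (3 * g + 2) := Nat.mul_le_mul (by omega) (by omega)
      have b2 : (c : ℤ) = 2 * r - l := by omega
      have b3 : (d : ℤ) = 2 * l - r := by omega
      zify at b1 ⊢
      rw [b2, b3] at b1
      linarith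
  have a2 : r * g ≤ n * g := Nat.mul_le_mul_right _ (by omega)
  have a3 : 10 ^ 4 * (n * g) ≤ n ^ 2 := by nlinarith [Nat.mul_le_mul_left n h2]
  have a4 : 10 ^ 5 * n ≤ n ^ 2 := by nlinarith [Nat.mul_le_mul_right n h0]
  rw [mul_assoc 2 r g]
  omega

theorem aut_all {F : Type} [Group F] [Two F] {r l g : ℕ}
    (hr : lg (⊤ : Subgroup F) = lg (L F 1) + r) (hl : lg (L F 1) = l)
    (hm : ∀ α : MulAut F, lg (L F 1 ⊔ Mov {α}) ≤ lg (L F 1) + g) :
    Nat.card (MulAut F) ≤ 2 ^ (2 * r * g + r * l) := by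
  obtain ⟨x, -, e⟩ := gen_rel (le_top (a := L F 1)) hr.le
  have hx : closure (Set.range x) = ⊤ := frat le_top (by rw [← L1_eq, sup_comm, e])
  have hq := lg_quot (L F 1)
  have hmv := moved_count (V := F ⧸ L F 1) (r := r) (g := g) (by omega) (Fin r)
  rw [← Set.ncard_univ]
  refine (H60.cover (Set.toFinite
    {m : Fin r → F ⧸ L F 1 | ∃ W : Subgroup (F ⧸ L F 1), lg W ≤ g ∧ ∀ i, m i ∈ W})
    (fun m => {α : MulAut F | ∀ i, (((x i)⁻¹ * α (x i) : F) : F ⧸ L F 1) = m i})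
    (2 ^ (r * l)) (fun m _ => ⟨Set.toFinite _, ?_⟩) _ fun α _ => ?_).2.trans ?_
  · rcases Set.eq_empty_or_nonempty
      {α : MulAut F | ∀ i, (((x i)⁻¹ * α (x i) : F) : F ⧸ L F 1) = m i} with h | ⟨β, hβ⟩
    · rw [h]
      simp
    refine (Set.ncard_le_ncard_of_injOn (fun (α : MulAut F) i => (β (x i))⁻¹ * α (x i))
      (t := {y : Fin r → F | ∀ i, y i ∈ L F 1}) (fun α hα i => ?_) (fun α _ γ _ h => ?_)
      (Set.toFinite _)).trans ((g33co_pi (L F 1) (Fin r)).trans_eq ?_)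
    · have := QuotientGroup.eq.1 ((hβ i).trans (hα i).symm)
      simpa [mul_assoc] using this
    · refine g33few_ext (T := ⊥) (by rw [bot_sup_eq, hx]) (fun y hy => ?_) fun i =>
        mul_left_cancel (congrFun h i)
      rw [mem_bot.1 hy, map_one, map_one]
    · rw [card_eq, hl, Fintype.card_fin, ← pow_mul, mul_comm]
  · exact ⟨_, ⟨_, (g33few_mov (hm α)).1, fun i => (g33few_mov (hm α)).2 (x i)⟩, fun i => rfl⟩
  · rw [pow_add]
    refine Nat.mul_le_mul_right _ (hmv.trans_eq ?_)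
    rw [Fintype.card_fin]
    congr 1
    ring

theorem aut_odd {F : Type} [Group F] [Two F] {n g p : ℕ} (hp : p.Prime) (hp2 : p ≠ 2)
    (hn : lg (⊤ : Subgroup F) = n) (hy : lg (L F 1) ≤ lg (Z0 F) + g)
    (hm : ∀ α : MulAut F, lg (L F 1 ⊔ Mov {α}) ≤ lg (L F 1) + g)
    (hf : ∀ α : MulAut F, lg (Z0 F) ≤ lg (Fix {α} ⊓ Z0 F) + g) :
    {α : MulAut F | ∃ k : ℕ, α ^ p ^ k = 1}.ncard ≤ 2 ^ (6 * n * g) := by
  have hs := sub_count (bot_le (a := (⊤ : Subgroup F))) (m := n) (by rw [lg_bot]; omega) (3 * g)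
  refine (H60.cover (Set.toFinite
    {T : Subgroup F | ⊥ ≤ T ∧ T ≤ ⊤ ∧ lg (⊤ : Subgroup F) ≤ lg T + 3 * g})
    (fun T => {α : MulAut F | ∀ y ∈ T, α y = y})
    (2 ^ (n * (3 * g))) (fun T hT => ⟨Set.toFinite _, ?_⟩) _ ?_).2.trans ?_
  · obtain ⟨f, -, e⟩ := gen_rel (le_top (a := T)) hT.2.2
    refine (Set.ncard_le_ncard_of_injOn (fun (α : MulAut F) i => α (f i)) (t := Set.univ)
      (fun _ _ => trivial) (fun α hα β hβ h => g33few_ext e
        (fun y hy => (hα y hy).trans (hβ y hy).symm) (congrFun h)) (Set.toFinite _)).trans_eq ?_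
    rw [Set.ncard_univ, Nat.card_fun, Nat.card_fin, card_eq_top, hn, ← pow_mul]
  · rintro α ⟨k, hk⟩
    exact ⟨Fix {α}, ⟨bot_le, le_top, g33few_idx hp hp2 hk hy (hm α) (hf α)⟩,
      fun y hy => mem_Fix.1 hy α (Finset.mem_singleton_self α)⟩
  · refine (Nat.mul_le_mul_right _ hs).trans_eq ?_
    rw [← pow_add]
    congr 1
    ring

theorem few_of_generic : ∃ n0 : ℕ, ∀ n ≥ n0, ∀ (F : Type) [Group F], Nat.card F = 2 ^ n →
    Generic n F → Few n F := by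
  refine ⟨10 ^ 13, fun n hn F _ hF h => ?_⟩
  have := Two.of_card hF
  have ht := lg_top hF
  have hc : ∀ α : MulAut F, ({α} : Finset (MulAut F)).card ≤ n / 10 ^ 13 := fun α => by
    rw [Finset.card_singleton]
    omega
  have hm : ∀ α : MulAut F, lg (L F 1 ⊔ Mov {α}) ≤ lg (L F 1) + n / 10 ^ 4 := fun α => by
    have := relIndex_le_iff.1 (h.mv {α} (hc α))
    rwa [inf_eq_left.2 le_sup_left] at this
  have hy : lg (L F 1) ≤ lg (Z0 F) + n / 10 ^ 4 := by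
    have := relIndex_le_iff.1 h.yy
    rwa [inf_eq_left.2 Z0_le] at this
  have ho := le_index_iff.1 (h.ov F (MonoidHom.id F) 0 Function.injective_id hF (Nat.zero_le _))
  have hl := lg_mono (le_top (a := L F 1))
  refine ⟨(aut_all (r := n - lg (L F 1)) (by omega) rfl hm).trans (Nat.pow_le_pow_right two_pos
    (g33few_arith (by omega) (by omega) (Nat.mul_div_le _ _) (by omega))), fun p hp hp2 =>
    (aut_odd hp hp2 ht hy hm fun α => relIndex_le_iff.1 (h.fx {α} (hc α))).trans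
      (Nat.pow_le_pow_right two_pos ?_)⟩
  rw [Nat.le_div_iff_mul_le (by norm_num)]
  nlinarith [Nat.mul_le_mul_left n (Nat.mul_div_le n (10 ^ 4))]

theorem Few.congr {n : ℕ} {F F' : Type} [Group F] [Group F'] (h : Few n F) (e : F ≃* F') :
    Few n F' := by
  refine ⟨(Nat.card_congr (MulAut.congr e).toEquiv).symm.trans_le h.all, fun p hp hp2 => ?_⟩
  have : {α : MulAut F' | ∃ k : ℕ, α ^ p ^ k = 1} =
      MulAut.congr e '' {α : MulAut F | ∃ k : ℕ, α ^ p ^ k = 1} := by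
    ext α
    constructor
    · rintro ⟨k, hk⟩
      exact ⟨(MulAut.congr e).symm α, ⟨k, by rw [← map_pow, hk, map_one]⟩,
        (MulAut.congr e).apply_symm_apply α⟩
    · rintro ⟨β, ⟨k, hk⟩, rfl⟩
      exact ⟨k, by rw [← map_pow, hk, map_one]⟩
  rw [this, Set.ncard_image_of_injective _ (MulAut.congr e).injective]
  exact h.odd p hp hp2

end Pool.Agent.Lib.MP_2d211a_co.S64
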