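import Pool.Agent.Lib.MP_2d211a_co.S33GCo

/-!
Isomorphisms between the central extensions.
-/

namespace Pool.Agent.Lib.MP_2d211a_co.S64

open Subgroup H60 CategoryTheory

section

variable {F F' : Type} [Group F] [Group F'] {r : ℕ}
  {φ : F →* Multiplicative (Fin r → ZMod 2)} {φ' : F' →* Multiplicative (Fin r → ZMod 2)}
  {b b' : Tri r → ZMod 2}

theorem g33fib_map (θ : Eb φ b →* Eb φ' b') (h : θ ⟨1, 1⟩ = ⟨1, 1⟩) (f : F) (a : ZMod 2) :
    θ ⟨f, a⟩ = ⟨(θ ⟨f, 0⟩).f, a + (θ ⟨f, 0⟩).a⟩ := by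
  have h0 : ∀ a : ZMod 2, a = 0 ∨ a = 1 := by decide
  rcases h0 a with rfl | rfl
  · simp
  · have : (⟨f, 1⟩ : Eb φ b) = ⟨f, 0⟩ * ⟨1, 1⟩ := by simp [Eb.mul_def]
    rw [this, map_mul, h]
    simp [Eb.mul_def, add_comm]

/-- The map induced on the quotients. -/
def g33fib_hom (θ : Eb φ b →* Eb φ' b') (h : θ ⟨1, 1⟩ = ⟨1, 1⟩) : F →* F' :=
  MonoidHom.mk' (fun f => (θ ⟨f, 0⟩).f) fun f f' => by
    have := congrArg Eb.f (map_mul θ ⟨f, 0⟩ ⟨f', 0⟩)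
    rw [Eb.mul_def, g33fib_map θ h] at this
    exact this

theorem eb_base (θ : Eb φ b ≃* Eb φ' b') (h : θ ⟨1, 1⟩ = ⟨1, 1⟩) :
    ∃ α : F ≃* F', ∀ x : Eb φ b, (θ x).f = α x.f := by
  have h' : θ.symm ⟨1, 1⟩ = ⟨1, 1⟩ := θ.symm_apply_eq.2 h.symm
  have k1 : ∀ x : Eb φ b, (θ x).f = g33fib_hom θ.toMonoidHom h x.f := fun x =>
    (congrArg Eb.f (g33fib_map θ.toMonoidHom h x.f x.a) :)
  have k2 : ∀ x : Eb φ' b', (θ.symm x).f = g33fib_hom θ.symm.toMonoidHom h' x.f := fun x =>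
    (congrArg Eb.f (g33fib_map θ.symm.toMonoidHom h' x.f x.a) :)
  refine ⟨(g33fib_hom θ.toMonoidHom h).toMulEquiv (g33fib_hom θ.symm.toMonoidHom h') ?_ ?_, k1⟩
  · ext f
    have := k2 (θ ⟨f, 0⟩)
    rw [θ.symm_apply_apply, k1] at this
    exact this.symm
  · ext f
    have := k1 (θ.symm ⟨f, 0⟩)
    rw [θ.apply_symm_apply, k2] at this
    exact this.symm

theorem g33fib_ker (φ : F →* Multiplicative (Fin r → ZMod 2)) : L F 1 ≤ φ.ker :=
  L1_eq.trans_le (sq_le_iff.2 fun y _ => by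
    rw [MonoidHom.mem_ker, map_mul]
    refine Multiplicative.toAdd.injective (funext fun i => ?_)
    simp [CharTwo.add_self_eq_zero])

theorem g33fib_pair (b : Tri r → ZMod 2) (t : Tri r) :
    gB b (Pi.single t.1.1 1 + Pi.single t.1.2 1) (Pi.single t.1.1 1 + Pi.single t.1.2 1) = b t := by
  have h := t.2
  rw [gB, Finset.sum_eq_single t]
  · simp [h.ne, h.ne']
  · intro u _ hu
    have h2 := u.2
    by_cases e1 : u.1.1 = t.1.1
    · have e2 : u.1.2 ≠ t.1.2 := fun e => hu (Subtype.ext (Prod.ext e1 e))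
      have e3 : u.1.2 ≠ t.1.1 := fun e => h2.ne (e1.trans e.symm)
      simp [e2, e3]
    by_cases e2 : u.1.1 = t.1.2
    · have e3 : u.1.2 ≠ t.1.2 := fun e => h2.ne (e2.trans e.symm)
      have e4 : u.1.2 ≠ t.1.1 := fun e => lt_asymm h (e2 ▸ e ▸ h2)
      simp [e3, e4]
    · simp [e1, e2]
  · simp

end

theorem eb_fibre {F : Type} [Group F] [Two F] {r n g : ℕ} (hn : lg (⊤ : Subgroup F) ≤ n)
    (φ : F →* Multiplicative (Fin r → ZMod 2)) (x : Fin r → F)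
    (hx : ∀ i, φ (x i) = Multiplicative.ofAdd (Pi.single i 1))
    (hm : ∀ α : MulAut F, lg (L F 1 ⊔ Mov {α}) ≤ lg (L F 1) + g) (b' : Tri r → ZMod 2) :
    {b : Tri r → ZMod 2 | ∃ θ : Eb φ b ≃* Eb φ b', θ ⟨1, 1⟩ = ⟨1, 1⟩}.ncard ≤
      2 ^ (2 * r * g + n) := by
  have hc : Nat.card (Multiplicative (Fin r → ZMod 2)) = 2 ^ r := by simp
  have := Two.of_card hc
  have h1 := moved_count (g := g) (lg_top hc).le (Fin r)
  obtain ⟨h2, h3⟩ := hom_two_count (F := L F 1) (n := n)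
    ((lg_top_sub _).trans_le ((lg_mono le_top).trans hn))
  let Ψ : (Fin r → Multiplicative (Fin r → ZMod 2)) × (L F 1 →* Multiplicative (ZMod 2)) →
      Tri r → ZMod 2 := fun d t =>
    gB b' (φ (x t.1.1) * d.1 t.1.1 * (φ (x t.1.2) * d.1 t.1.2)).toAdd
      (φ (x t.1.1) * d.1 t.1.1 * (φ (x t.1.2) * d.1 t.1.2)).toAdd +
      (d.2 ⟨_, mul_self_mem_L1 (x t.1.1 * x t.1.2)⟩).toAdd
  refine le_trans (Set.ncard_le_ncard (t := Ψ '' ({m | ∃ W : Subgroup _, lg W ≤ g ∧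
    ∀ i, m i ∈ W} ×ˢ Set.univ)) ?_) ((Set.ncard_image_le).trans ?_)
  · rintro b ⟨θ, h⟩
    obtain ⟨α, hα⟩ := eb_base θ h
    have k := g33fib_map θ.toMonoidHom h
    have k0 : ∀ f ∈ L F 1, φ f = 1 ∧ φ (α f) = 1 := fun f hf =>
      ⟨g33fib_ker φ hf, g33fib_ker φ (L_map_le α.toMonoidHom 1 (mem_map_of_mem _ hf))⟩
    let lam : L F 1 →* Multiplicative (ZMod 2) :=
      MonoidHom.mk' (fun f => Multiplicative.ofAdd (θ ⟨f, 0⟩).a) fun f f' => by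
        have := congrArg Eb.a (map_mul θ ⟨f, 0⟩ ⟨f', 0⟩)
        simp only [Eb.mul_def, hα, (k0 f f.2).1, (k0 f f.2).2, toAdd_one, gB_zl, add_zero] at this
        rw [← ofAdd_add, ← this]
        rfl
    refine ⟨(fun i => φ ((x i)⁻¹ * α (x i)), lam), ⟨⟨(L F 1 ⊔ Mov {α}).map φ, ?_, fun i =>
      mem_map_of_mem _ (mem_sup_right (subset_closure ⟨α, by simp, x i, rfl⟩))⟩, trivial⟩,
      funext fun t => ?_⟩
    · have a1 := lg_map φ (L F 1 ⊔ Mov {α})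
      have a2 := lg_mono (le_inf (g33fib_ker φ) le_sup_left : L F 1 ≤ φ.ker ⊓ (L F 1 ⊔ Mov {α}))
      have a3 := hm α
      omega
    · have a1 := congrArg Eb.a (map_mul θ ⟨x t.1.1 * x t.1.2, 0⟩ ⟨x t.1.1 * x t.1.2, 0⟩)
      have a2 := congrArg Eb.a (k (x t.1.1 * x t.1.2 * (x t.1.1 * x t.1.2)) (b t))
      have a3 : (φ (x t.1.1 * x t.1.2)).toAdd = Pi.single t.1.1 1 + Pi.single t.1.2 1 := by
        rw [map_mul, hx, hx]; rfl
      simp only [Eb.mul_def, hα, a3, g33fib_pair, zero_add, CharTwo.add_self_eq_zero] at a1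
      have a4 : φ (x t.1.1) * φ ((x t.1.1)⁻¹ * α (x t.1.1)) *
          (φ (x t.1.2) * φ ((x t.1.2)⁻¹ * α (x t.1.2))) = φ (α (x t.1.1 * x t.1.2)) := by
        simp
      change gB b' _ _ + (θ ⟨_, 0⟩).a = _
      dsimp only
      rw [a4, ← a1]
      rw [show (θ ⟨x t.1.1 * x t.1.2 * (x t.1.1 * x t.1.2), b t⟩).a = _ from a2, add_assoc]
      exact (congrArg _ (CharTwo.add_self_eq_zero _)).trans (add_zero _)
  · rw [Set.ncard_prod, Set.ncard_univ, pow_add]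
    refine Nat.mul_le_mul (h1.trans_eq ?_) h3
    rw [Fintype.card_fin]
    congr 1
    ring

end Pool.Agent.Lib.MP_2d211a_co.S64
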