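import Pool.Agent.Lib.MP_2d211a_co.S33GFew
import Pool.Agent.Lib.MP_2d211a_co.S64CAut

/-!
Groups inside a 2-group with many automorphisms are rare.
-/

namespace Pool.Agent.Lib.MP_2d211a_co.S64

open Subgroup H60 CategoryTheory

theorem g33rare_num {K n j t w : ℕ} (hK : 0 < K) (hn : 100 * K ≤ n) (hj : j ≤ t)
    (ht : t = n / (100 * K)) (hw : w = n ^ 3 / (100 * K)) :
    2 * (n + j) ^ 3 / 27 + (n + j) ^ 3 / (100 * K) ≤ 2 * n ^ 3 / 27 - 6 * w + (n + j) ^ 3 / K ∧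
      t + (2 * n ^ 3 / 27 - 6 * w + (n + t) * t) + w + 2 * n ^ 2 ≤ 2 * n ^ 3 / 27 := by
  have q0 : 0 < 100 * K := by omega
  have h1 : t * (100 * K) ≤ n := ht ▸ Nat.div_mul_le_self _ _
  have h2 : w * (100 * K) ≤ n ^ 3 := hw ▸ Nat.div_mul_le_self _ _
  have h3 : n ^ 3 < w * (100 * K) + 100 * K := hw ▸ Nat.lt_div_mul_add q0
  have h4 : t ≤ n := ht ▸ Nat.div_le_self _ _
  have h5 : n ^ 2 * t ≤ w := by
    rw [hw, Nat.le_div_iff_mul_le q0, mul_assoc, pow_succ n 2]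
    exact Nat.mul_le_mul_left _ h1
  have h6 : n ^ 2 ≤ w := by
    rw [hw, Nat.le_div_iff_mul_le q0, pow_succ n 2]
    exact Nat.mul_le_mul_left _ hn
  have h7 : (n + j) ^ 3 ≤ n ^ 3 + 7 * w := by
    have a1 : (n + t) ^ 3 = n ^ 3 + 3 * (n ^ 2 * t) + 3 * (n * t * t) + t * t * t := by ring
    have a2 : n * t * t ≤ n ^ 2 * t := by
      rw [pow_two]
      gcongr
    have a3 : t * t * t ≤ n * t * t := by gcongr
    have a4 : (n + j) ^ 3 ≤ (n + t) ^ 3 := by gcongr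
    omega
  have h8 : w * 100 ≤ w * (100 * K) := Nat.mul_le_mul_left _ (by omega)
  have h9 : (n + j) ^ 3 / (100 * K) < 2 * w + 1 := by
    rw [Nat.div_lt_iff_lt_mul q0, add_mul, mul_assoc, one_mul]
    omega
  have h10 : 100 * w ≤ (n + j) ^ 3 / K := by
    rw [Nat.le_div_iff_mul_le hK]
    exact ((by ring : 100 * w * K = w * (100 * K)).trans_le h2).trans (by gcongr; omega)
  have h11 : t + (n + t) * t ≤ 3 * n ^ 2 := by
    have a1 : n ≤ n ^ 2 := Nat.le_self_pow two_ne_zero n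
    have a2 : (n + t) * t ≤ (n + n) * n := by gcongr
    have a3 : (n + n) * n = 2 * n ^ 2 := by ring
    omega
  have h12 : 1 ≤ n ^ 2 := Nat.one_le_pow _ _ (by omega)
  generalize (n + j) ^ 3 / (100 * K) = a at *
  generalize (n + j) ^ 3 / K = b at *
  generalize (n + j) ^ 3 = c at *
  generalize (n + t) * t = d at *
  generalize w * (100 * K) = e at *
  generalize n ^ 3 = u at *
  generalize n ^ 2 = v at *
  omega

theorem g33rare_one (n j E : ℕ)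
    (hf : ∀ (F : Type) [Group F], Nat.card F = 2 ^ (n + j) → Generic (n + j) F → Few (n + j) F)
    (hE : (cl '' {P | Nat.card P = 2 ^ (n + j) ∧ ¬Generic (n + j) P}).ncard ≤ 2 ^ E) :
    (cl '' {F | Nat.card F = 2 ^ n ∧ ∃ (P : Type) (_ : Group P) (f : F →* P),
      Function.Injective f ∧ Nat.card P = 2 ^ (n + j) ∧ ¬Few (n + j) P}).Finite ∧
    (cl '' {F | Nat.card F = 2 ^ n ∧ ∃ (P : Type) (_ : Group P) (f : F →* P),
      Function.Injective f ∧ Nat.card P = 2 ^ (n + j) ∧ ¬Few (n + j) P}).ncard ≤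
      2 ^ (E + (n + j) * j) := by
  have hfin : (cl '' {P | Nat.card P = 2 ^ (n + j) ∧ ¬Generic (n + j) P}).Finite :=
    (all_fin Nat.prime_two (n + j)).subset (Set.image_mono fun _ h => h.1)
  have := cover hfin
    (fun c => cl '' {F | Nat.card F = 2 ^ n ∧ ∃ f : F →* c.out, Function.Injective f})
    (2 ^ ((n + j) * j)) (fun c hc => ?_)
    (cl '' {F | Nat.card F = 2 ^ n ∧ ∃ (P : Type) (_ : Group P) (f : F →* P),
      Function.Injective f ∧ Nat.card P = 2 ^ (n + j) ∧ ¬Few (n + j) P}) ?_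
  · refine ⟨this.1, this.2.trans ?_⟩
    rw [pow_add 2 E]
    exact Nat.mul_le_mul_right _ hE
  · obtain ⟨A, hA, h⟩ := hc
    obtain ⟨φ⟩ := cl_eq.1 (h.trans c.out_eq.symm)
    exact ao_sub n j c ((Nat.card_congr φ.toEquiv).symm.trans hA.1)
  · rintro _ ⟨F, ⟨hF, P, _, f, hi, hP, hN⟩, rfl⟩
    obtain ⟨φ⟩ := cl_eq.1 (cl (GrpCat.of P)).out_eq.symm
    exact ⟨cl (GrpCat.of P), ⟨GrpCat.of P, ⟨hP, fun h => hN (hf P hP h)⟩, rfl⟩, F,
      ⟨hF, φ.toMonoidHom.comp f, φ.injective.comp hi⟩, rfl⟩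

theorem rare : ∃ K T n0 : ℕ, 0 < K ∧ 0 < T ∧ ∀ n ≥ n0,
    (cl '' {F | Nat.card F = 2 ^ n ∧ ∃ (P : Type) (_ : Group P) (f : F →* P) (j : ℕ),
      Function.Injective f ∧ Nat.card P = 2 ^ (n + j) ∧ j ≤ n / T ∧ ¬Few (n + j) P}).ncard *
      2 ^ (n ^ 3 / K) ≤ gnu (2 ^ n) := by
  obtain ⟨K, n1, hK, h1⟩ := count_bad
  obtain ⟨n2, h2⟩ := few_of_generic
  obtain ⟨n3, h3⟩ := sims_le (100 * K) (by omega)
  refine ⟨100 * K, 100 * K, n1 + n2 + n3 + 100 * K, by omega, by omega, fun n hn => ?_⟩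
  obtain ⟨t, ht⟩ : ∃ t, t = n / (100 * K) := ⟨_, rfl⟩
  obtain ⟨w, hw⟩ : ∃ w, w = n ^ 3 / (100 * K) := ⟨_, rfl⟩
  rw [← ht, ← hw]
  have key := (cover (Set.finite_Iic t)
    (fun j => cl '' {F | Nat.card F = 2 ^ n ∧ ∃ (P : Type) (_ : Group P) (f : F →* P),
      Function.Injective f ∧ Nat.card P = 2 ^ (n + j) ∧ ¬Few (n + j) P})
    (2 ^ (2 * n ^ 3 / 27 - 6 * w + (n + t) * t)) (fun j hj => by
      have hj' : j ≤ t := hj
      have a1 := ((h1 (n + j) (by omega)).trans (h3 (n + j) (by omega))).trans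
        (Nat.pow_le_pow_right two_pos (g33rare_num hK (by omega) hj' ht hw).1)
      rw [pow_add 2 (_ - _)] at a1
      obtain ⟨a2, a3⟩ := g33rare_one n j _ (h2 (n + j) (by omega))
        (Nat.le_of_mul_le_mul_right a1 (pow_pos two_pos _))
      refine ⟨a2, a3.trans (Nat.pow_le_pow_right two_pos ?_)⟩
      exact Nat.add_le_add_left (Nat.mul_le_mul (by omega) hj') _)
    (cl '' {F | Nat.card F = 2 ^ n ∧ ∃ (P : Type) (_ : Group P) (f : F →* P) (j : ℕ),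
      Function.Injective f ∧ Nat.card P = 2 ^ (n + j) ∧ j ≤ t ∧ ¬Few (n + j) P}) (by
      rintro _ ⟨F, ⟨hF, P, _, f, j, hf, hP, hj, hi⟩, rfl⟩
      exact ⟨j, hj, F, ⟨hF, P, _, f, hf, hP, hi⟩, rfl⟩)).2
  have h4 : (Set.Iic t).ncard ≤ 2 ^ t := by
    rw [Set.ncard_Iic_nat]
    exact Nat.lt_two_pow_self
  refine Nat.le_of_mul_le_mul_right (le_trans ?_ (hig_low n)) (pow_pos two_pos _)
  refine le_trans ?_ (Nat.pow_le_pow_right two_pos (g33rare_num hK (by omega) t.zero_le ht hw).2)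
  rw [pow_add 2 _ (2 * n ^ 2), pow_add 2 _ w, pow_add 2 t]
  exact Nat.mul_le_mul_right _ (Nat.mul_le_mul_right _ (key.trans (Nat.mul_le_mul_right _ h4)))

end Pool.Agent.Lib.MP_2d211a_co.S64
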