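import Pool.Agent.Lib.MP_2d211a_co.S33GFam
import Pool.Agent.Lib.MP_2d211a_co.S33GRare
import Pool.Agent.Lib.MP_2d211a_co.S17EMain

/-!
Almost all tame groups are 2-groups.
-/

namespace Pool.Agent.Lib.MP_2d211a_co.S64

open Subgroup H60 CategoryTheory

theorem g33main_O2 (G : Type) [Group G] [Finite G] : ∃ O : Subgroup G, IsO2 O := by
  obtain ⟨O, ⟨o1, o2⟩, hO⟩ := (Set.toFinite {O : Subgroup G | O.Normal ∧ IsPGroup 2 O}
    ).exists_maximal ⟨⊥, inferInstance, IsPGroup.of_bot⟩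
  exact ⟨O, o1, o2, fun O' h1 h2 => le_sup_right.trans
    (hO ⟨inferInstance, IsPGroup.to_sup_of_normal_left o2 h2⟩ le_sup_left)⟩

theorem g33main_fin (x : ℕ) : (cl '' {G | Finite G ∧ Nat.card G ≤ x}).Finite := by
  refine ((Set.finite_Icc 1 x).biUnion fun m hm => ord_fin (m := m) hm.1).subset ?_
  rintro _ ⟨G, ⟨hf, hx⟩, rfl⟩
  exact Set.mem_biUnion (x := Nat.card G) ⟨Nat.card_pos, hx⟩ ⟨G, rfl, rfl⟩

theorem g33main_num {y K N : ℕ} (hK : 0 < K) (hN : 10 * K + 10 ≤ N)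
    (h : y * 2 ^ ((N + 1) ^ 3 / K) ≤ 2 ^ (2 * (N + 1) ^ 3 / 27)) :
    y * 2 ^ (N ^ 2 / 8) ≤ gnu (2 ^ N) := by
  have h1 := hig_low N
  have h2 : 4 * N ^ 2 ≤ (N + 1) ^ 3 / K := by
    rw [Nat.le_div_iff_mul_le hK]
    nlinarith [Nat.mul_le_mul_right (N ^ 2) hN, Nat.zero_le (N ^ 2), Nat.zero_le N]
  have h3 : (N + 1) ^ 3 ≤ N ^ 3 + 4 * N ^ 2 := by nlinarith
  have h4 : 100 ≤ N ^ 2 := by nlinarith
  refine Nat.le_of_mul_le_mul_right (le_trans ?_ h1) (Nat.two_pow_pos _)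
  refine Nat.le_of_mul_le_mul_right ?_ (Nat.two_pow_pos ((N + 1) ^ 3 / K))
  calc y * 2 ^ (N ^ 2 / 8) * 2 ^ (2 * N ^ 2) * 2 ^ ((N + 1) ^ 3 / K)
      = y * 2 ^ ((N + 1) ^ 3 / K) * 2 ^ (N ^ 2 / 8 + 2 * N ^ 2) := by ring
    _ ≤ 2 ^ (2 * (N + 1) ^ 3 / 27) * 2 ^ (N ^ 2 / 8 + 2 * N ^ 2) := Nat.mul_le_mul_right _ h
    _ ≤ _ := by
      rw [← pow_add, ← pow_add]
      exact Nat.pow_le_pow_right two_pos (by omega)

theorem g33main_three {α : Type*} {s A B C : Set α} {p q g : ℕ} (a1 : A.ncard * p ≤ g)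
    (a2 : B.ncard * p ≤ g) (a3 : C.ncard * p ≤ g) (hA : A.Finite) (hB : B.Finite) (hC : C.Finite)
    (hq : q * 3 ≤ p) (hs : s ⊆ A ∪ B ∪ C) : s.ncard * q ≤ g := by
  have a4 := (Set.ncard_le_ncard hs ((hA.union hB).union hC)).trans
    ((Set.ncard_union_le _ _).trans (Nat.add_le_add_right (Set.ncard_union_le _ _) _))
  have a7 := Nat.mul_le_mul a4 hq
  rw [add_mul, add_mul, ← mul_assoc] at a7
  omega

theorem almost_two {c : ℕ} {S : Set GrpCat.{0}} (h : Thin c S) (hc : c ≤ 20) :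
    ∃ x₀ : ℕ, ∀ x ≥ x₀, (cl '' {G | Finite G ∧ Tame S G ∧ Nat.card G ≤ x}).Finite ∧
      (cl '' {G | Finite G ∧ Tame S G ∧ Nat.card G ≤ x ∧ ¬IsPGroup 2 G}).ncard *
        2 ^ (Nat.log 2 x ^ 2 / 10) ≤ gnu (2 ^ Nat.log 2 x) := by
  obtain ⟨K₀, T, n₁, hK, hT, h1⟩ := rare
  obtain ⟨M, K₂, n₂, hM, hK₂, h2⟩ := fam_two' h sims_le _ (fun n F hF => hF.1) hK h1
    (fun G => ∀ (O : Subgroup G) (a : ℕ), IsO2 O → Nat.card O = 2 ^ a → ¬Few a O) (n₂ := 0) hT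
    (fun n _ G _ O o1 o2 o3 hY => by
      obtain ⟨O₂, p⟩ := g33main_O2 G
      have hle : O ≤ O₂ := p.2.2 O inferInstance (IsPGroup.of_card o2)
      have := Fact.mk Nat.prime_two
      obtain ⟨a, ha⟩ := IsPGroup.iff_card.1 p.2.1
      have a1 := card_le_of_le hle
      rw [o2, ha, Nat.pow_le_pow_iff_right one_lt_two] at a1
      obtain ⟨j, rfl⟩ := Nat.exists_eq_add_of_le a1
      refine ⟨o2, O₂, inferInstance, inclusion hle, j, inclusion_injective hle, ha, ?_,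
        hY O₂ _ p ha⟩
      have a2 := (card_le_card_group O₂).trans (O.card_mul_index.symm.trans_le
        (Nat.mul_le_mul_left _ o3))
      rw [o2, ha, ← pow_add, Nat.pow_le_pow_iff_right one_lt_two] at a2
      omega)
  obtain ⟨M₀, h3⟩ := fam_three h hc
  obtain ⟨n₃, h3⟩ := h3 (M + M₀) (by omega)
  obtain ⟨K₁, n₄, hK₁, h4⟩ := fam_one' h sims_le (M + M₀) (by omega)
  refine ⟨2 ^ (n₂ + n₃ + n₄ + 10 * K₁ + 10 * K₂ + 20), fun x hx => ?_⟩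
  have fin : ∀ Z : Set GrpCat.{0}, (∀ G ∈ Z, Finite G ∧ Nat.card G ≤ 2 ^ (Nat.log 2 x + 1)) →
      (cl '' Z).Finite := fun Z hZ => (g33main_fin _).subset (Set.image_mono hZ)
  have hx' : x < 2 ^ (Nat.log 2 x + 1) := Nat.lt_pow_succ_log_self one_lt_two x
  refine ⟨fin _ fun G hG => ⟨hG.1, hG.2.2.trans hx'.le⟩, ?_⟩
  have hN := Nat.le_log_of_pow_le one_lt_two hx
  generalize Nat.log 2 x = N at fin hx' hN
  have a1 := g33main_num hK₁ (by omega) (h4 (N + 1) (by omega))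
  have a2 := g33main_num hK₂ (by omega) (h2 (N + 1) (by omega))
  have a3 := h3 N (by omega)
  refine g33main_three a1 a2 a3 (fin _ fun G hG => ⟨hG.1, hG.2.2.1⟩)
    (fin _ fun G hG => ⟨hG.1, hG.2.2.1⟩) (fin _ fun G hG => ⟨hG.1, hG.2.2.1.le⟩) ?_ ?_
  · have a5 : 400 ≤ N ^ 2 := by nlinarith
    refine le_trans (Nat.mul_le_mul_left _ (by norm_num : 3 ≤ 2 ^ 2)) ?_
    rw [← pow_add]
    exact Nat.pow_le_pow_right two_pos (by omega)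
  rintro _ ⟨G, ⟨g1, g2, g3, g4⟩, rfl⟩
  have g5 := g3.trans_lt hx'
  by_cases b1 : 2 ^ (N + 1 - (N + 1) / (M + M₀)) ∣ Nat.card G
  swap
  · exact .inl (.inl ⟨G, ⟨g1, g2, g5.le, b1⟩, rfl⟩)
  by_cases b2 : ∃ (O : Subgroup G) (a : ℕ), IsO2 O ∧ Nat.card O = 2 ^ a ∧ Few a O
  · exact .inr ⟨G, ⟨g1, g2, g5, b1, g4, b2⟩, rfl⟩
  · refine .inl (.inr ⟨G, ⟨g1, g2, g5.le, (pow_dvd_pow 2 (Nat.sub_le_sub_left
      (Nat.div_le_div_left (Nat.le_add_right M M₀) hM) _)).trans b1, ?_⟩, rfl⟩)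
    exact fun O a o1 o2 o3 => b2 ⟨O, a, o1, o2, o3⟩

end Pool.Agent.Lib.MP_2d211a_co.S64
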