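import Pool.Agent.Lib.MP_2d211a_co.S64Def

/-!
Counting groups of order `2 ^ n`: definitions and the logarithm of the order of a subgroup.
-/

namespace Pool.Agent.Lib.MP_2d211a_co.S64

open Subgroup
open scoped commutatorElement

/-- Finite 2-groups. -/
class Two (G : Type) [Group G] : Prop where
  fin : Finite G
  pg : IsPGroup 2 G

variable {G : Type} [Group G]

instance Two.finite [h : Two G] : Finite G := h.fin

instance Two.sub [h : Two G] (H : Subgroup G) : Two H := ⟨inferInstance, h.pg.to_subgroup H⟩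

instance Two.quot [h : Two G] (N : Subgroup G) [N.Normal] : Two (G ⧸ N) :=
  ⟨inferInstance, h.pg.to_quotient N⟩

theorem Two.of_card {n : ℕ} (h : Nat.card G = 2 ^ n) : Two G :=
  ⟨Nat.finite_of_card_ne_zero (h ▸ (pow_pos two_pos n).ne'), IsPGroup.of_card h⟩

/-- The binary logarithm of the order. -/
noncomputable def lg (A : Subgroup G) : ℕ := Nat.log 2 (Nat.card A)

/-- The subgroup generated by the squares of the elements of `U`. -/
def sq (U : Subgroup G) : Subgroup G := closure {x | ∃ y ∈ U, x = y * y}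

/-- `H` contains the Frattini subgroup and its squares generate it modulo `R`. -/
def Sims (H R : Subgroup G) : Prop := L G 1 ≤ H ∧ L G 1 ≤ sq H ⊔ R

/-- Subgroups of index at most 2 in `L G 1` above `L G 2` whose form has rank at most `ρ`. -/
def Low (ρ : ℕ) (W : Subgroup G) : Prop := L G 2 ≤ W ∧ W ≤ L G 1 ∧ lg (L G 1) ≤ lg W + 1 ∧
  ∃ T : Subgroup G, L G 1 ≤ T ∧ ⁅T, ⊤⁆ ≤ W ∧ lg (⊤ : Subgroup G) ≤ lg T + ρ

/-- The intersection of the low subgroups above `R`. -/
def Ylow (ρ : ℕ) (R : Subgroup G) : Subgroup G := sInf {W | Low ρ W ∧ R ≤ W}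

/-- Rank near `2 n / 3` and a small Sims subgroup. -/
def NG (n : ℕ) (F : Type) [Group F] : Prop :=
  ∃ (r : ℕ) (H : Subgroup F), lg (⊤ : Subgroup F) = lg (L F 1) + r ∧ 60000 * r ≤ 40003 * n ∧
    39997 * n ≤ 60000 * r ∧ Sims H ⊥ ∧ lg H ≤ lg (L F 1) + n / 10 ^ 8

/-- At most `2 ^ ((2 / 27 - d / 10 ^ 12) n ^ 3)` classes. -/
def Small (d n : ℕ) (B : Set GrpCat.{0}) : Prop :=
  ∃ E : ℕ, (H60.cl '' B).ncard ≤ 2 ^ E ∧ 27 * 10 ^ 12 * E + 27 * d * n ^ 3 ≤ 2 * 10 ^ 12 * n ^ 3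

/-- The squares of the subgroup generated by the `x (s i)`. -/
def Ks {ι κ : Type} (x : ι → G) (s : κ → ι) : Subgroup G := sq (closure (Set.range (x ∘ s)))

/-- The kernel of a minimal marking in which the `x (s i)` form a Sims set. -/
structure Mk {ι κ : Type} (x : ι → G) (s : κ → ι) (l : ℕ) (R : Subgroup G) : Prop where
  nor : R.Normal
  le : R ≤ L G 1
  sims : L G 1 ≤ Ks x s ⊔ R
  lgR : lg (L G 1) = lg R + l

theorem st2_eq (R : Subgroup G) : st2 R = ⁅R, ⊤⁆ ⊔ sq R := rfl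

theorem L1_def : L G 1 = st2 ⊤ := rfl

theorem L2_def : L G 2 = st2 (L G 1) := rfl

theorem mul_self_mem_sq {U : Subgroup G} {y : G} (h : y ∈ U) : y * y ∈ sq U :=
  subset_closure ⟨y, h, rfl⟩

theorem sq_le_iff {U D : Subgroup G} : sq U ≤ D ↔ ∀ y ∈ U, y * y ∈ D :=
  (closure_le _).trans ⟨fun h y hy => h ⟨y, hy, rfl⟩, fun h _ ⟨y, hy, e⟩ => e ▸ h y hy⟩

theorem sq_mono {U V : Subgroup G} (h : U ≤ V) : sq U ≤ sq V :=
  sq_le_iff.2 fun _ hy => mul_self_mem_sq (h hy)

theorem sq_le_self (U : Subgroup G) : sq U ≤ U := sq_le_iff.2 fun _ hy => mul_mem hy hy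

theorem sq_le_st2 (U : Subgroup G) : sq U ≤ st2 U := le_sup_right

theorem comm_le_sq (U : Subgroup G) : ⁅U, U⁆ ≤ sq U := commutator_le.2 fun a ha b hb => by
  have : ⁅a, b⁆ = a * a * (a⁻¹ * b * (a⁻¹ * b)) * (b⁻¹ * b⁻¹) := by
    rw [commutatorElement_def]; group
  rw [this]
  exact mul_mem (mul_mem (mul_self_mem_sq ha) (mul_self_mem_sq (mul_mem (inv_mem ha) hb)))
    (mul_self_mem_sq (inv_mem hb))

theorem L1_eq : L G 1 = sq ⊤ := le_antisymm (sup_le (comm_le_sq ⊤) le_rfl) (sq_le_st2 ⊤)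

theorem sq_le_L1 (U : Subgroup G) : sq U ≤ L G 1 := L1_eq (G := G) ▸ sq_mono le_top

theorem mul_self_mem_L1 (g : G) : g * g ∈ L G 1 := sq_mem_st2 (mem_top g)

theorem comm_mem_L1 (g h : G) : ⁅g, h⁆ ∈ L G 1 := comm_mem_st2 (mem_top g) h

theorem normal_of_L1_le {U : Subgroup G} (h : L G 1 ≤ U) : U.Normal := normal_of_st2_le h le_top

instance sq_normal (U : Subgroup G) [h : U.Normal] : (sq U).Normal := ⟨fun a ha g => by
  have : sq U ≤ (sq U).comap (MulAut.conj g).toMonoidHom := sq_le_iff.2 fun y hy => by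
    have := mul_self_mem_sq (h.conj_mem y hy g)
    simpa [mul_assoc] using this
  simpa using this ha⟩

theorem sq_map {H : Type} [Group H] (f : G →* H) (U : Subgroup G) : (sq U).map f = sq (U.map f) :=
  le_antisymm (map_le_iff_le_comap.2 (sq_le_iff.2 fun y hy => by
    rw [mem_comap, map_mul]; exact mul_self_mem_sq (mem_map_of_mem f hy))) (sq_le_iff.2 (by
    rintro _ ⟨y, hy, rfl⟩
    rw [← map_mul]
    exact mem_map_of_mem f (mul_self_mem_sq hy)))

theorem Z0_le : Z0 G ≤ L G 1 := fun _ h => h.1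

theorem mem_Z0 {x : G} : x ∈ Z0 G ↔ x ∈ L G 1 ∧ (∀ g, g * x = x * g) ∧ x * x = 1 := Iff.rfl

theorem mem_Fix {Γ : Finset (MulAut G)} {x : G} : x ∈ Fix Γ ↔ ∀ α ∈ Γ, α x = x := Iff.rfl

section lg

variable [Two G]

theorem card_eq (A : Subgroup G) : Nat.card A = 2 ^ lg A := by
  have := Fact.mk Nat.prime_two
  obtain ⟨n, hn⟩ := IsPGroup.iff_card.1 (Two.pg (G := A))
  rw [lg, hn, Nat.log_pow one_lt_two]

theorem card_eq_top : Nat.card G = 2 ^ lg (⊤ : Subgroup G) := by rw [← card_eq, card_top]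

theorem lg_eq {A : Subgroup G} {n : ℕ} (h : Nat.card A = 2 ^ n) : lg A = n :=
  Nat.pow_right_injective le_rfl ((card_eq A).symm.trans h)

theorem lg_top {n : ℕ} (h : Nat.card G = 2 ^ n) : lg (⊤ : Subgroup G) = n :=
  lg_eq (card_top.trans h)

theorem lg_bot : lg (⊥ : Subgroup G) = 0 := lg_eq card_bot

theorem lg_le_iff {H : Type} [Group H] [Two H] {A : Subgroup G} {B : Subgroup H} {k : ℕ} :
    lg A ≤ lg B + k ↔ Nat.card A ≤ Nat.card B * 2 ^ k := by
  rw [card_eq, card_eq, ← pow_add, Nat.pow_le_pow_iff_right one_lt_two]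

theorem lg_mono {A B : Subgroup G} (h : A ≤ B) : lg A ≤ lg B :=
  Nat.log_mono_right (card_le_of_le h)

theorem eq_of_lg_le {A B : Subgroup G} (h : A ≤ B) (h' : lg B ≤ lg A) : A = B :=
  eq_of_le_of_card_ge h (by rw [card_eq, card_eq]; exact Nat.pow_le_pow_right two_pos h')

theorem lg_lt {A B : Subgroup G} (h : A < B) : lg A < lg B :=
  lt_of_not_ge fun h' => h.ne (eq_of_lg_le h.le h')

theorem lg_subgroupOf (A B : Subgroup G) : lg (A.subgroupOf B) = lg (A ⊓ B) :=
  lg_eq (by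
    rw [← card_eq, ← inf_subgroupOf_right]
    exact Nat.card_congr (subgroupOfEquivOfLe inf_le_right).toEquiv)

theorem lg_top_sub (A : Subgroup G) : lg (⊤ : Subgroup A) = lg A := lg_top (card_eq A)

theorem index_eq (A : Subgroup G) : A.index = 2 ^ (lg (⊤ : Subgroup G) - lg A) := by
  have h := A.card_mul_index
  rw [card_eq, card_eq_top, ← Nat.add_sub_cancel' (lg_mono (le_top (a := A))), pow_add] at h
  exact Nat.eq_of_mul_eq_mul_left (pow_pos two_pos _) h

theorem relIndex_eq (A B : Subgroup G) : A.relIndex B = 2 ^ (lg B - lg (A ⊓ B)) := by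
  rw [relIndex, index_eq, lg_top_sub, lg_subgroupOf]

theorem relIndex_le_iff {A B : Subgroup G} {k : ℕ} :
    A.relIndex B ≤ 2 ^ k ↔ lg B ≤ lg (A ⊓ B) + k := by
  rw [relIndex_eq, Nat.pow_le_pow_iff_right one_lt_two]
  omega

theorem index_le_iff {A : Subgroup G} {k : ℕ} :
    A.index ≤ 2 ^ k ↔ lg (⊤ : Subgroup G) ≤ lg A + k := by
  rw [index_eq, Nat.pow_le_pow_iff_right one_lt_two]
  omega

theorem le_index_iff {A : Subgroup G} {k : ℕ} :
    2 ^ k ≤ A.index ↔ lg A + k ≤ lg (⊤ : Subgroup G) := by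
  have := lg_mono (le_top (a := A))
  rw [index_eq, Nat.pow_le_pow_iff_right one_lt_two]
  omega

theorem lg_quot (N : Subgroup G) [N.Normal] :
    lg (⊤ : Subgroup (G ⧸ N)) + lg N = lg (⊤ : Subgroup G) := by
  have := lg_mono (le_top (a := N))
  rw [lg_top (G := G ⧸ N) (index_eq N)]
  omega

theorem lg_map {H : Type} [Group H] [Two H] (f : G →* H) (A : Subgroup G) :
    lg A = lg (A.map f) + lg (f.ker ⊓ A) := by
  have h := relIndex_ker (K := A) f
  have := lg_mono (inf_le_right : f.ker ⊓ A ≤ A)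
  rw [relIndex_eq, card_eq] at h
  have := Nat.pow_right_injective le_rfl h
  omega

theorem lg_map_of_ker_le {H : Type} [Group H] [Two H] {f : G →* H} {A : Subgroup G}
    (h : f.ker ≤ A) : lg A = lg (A.map f) + lg f.ker := by
  rw [lg_map f A, inf_eq_left.2 h]

theorem lg_comap {H : Type} [Group H] [Two H] {f : G →* H} (hf : Function.Surjective f)
    (B : Subgroup H) : lg (B.comap f) = lg B + lg f.ker := by
  rw [lg_map_of_ker_le (ker_le_comap f B), map_comap_eq_self_of_surjective hf]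

theorem lg_sup_normal (A N : Subgroup G) [N.Normal] : lg (A ⊔ N) + lg (A ⊓ N) = lg A + lg N := by
  have h := relIndex_sup_right A N
  rw [relIndex_eq, relIndex_eq, inf_eq_left.2 le_sup_right, inf_comm] at h
  have := Nat.pow_right_injective le_rfl h
  have := lg_mono (inf_le_left : A ⊓ N ≤ A)
  have := lg_mono (le_sup_right : N ≤ A ⊔ N)
  omega

/-- `[C : A ⊓ C] ≤ [B : A]` for `A, C ≤ B`. -/
theorem lg_inf_ge {A B C : Subgroup G} (hA : A ≤ B) (hC : C ≤ B) :
    lg A + lg C ≤ lg (A ⊓ C) + lg B := by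
  have h := relIndex_le_of_le_right (H := A) hC (by rw [relIndex_eq]; positivity)
  rw [relIndex_eq, relIndex_eq, Nat.pow_le_pow_iff_right one_lt_two, inf_eq_left.2 hA] at h
  have := lg_mono (inf_le_right : A ⊓ C ≤ C)
  have := lg_mono hA
  omega

end lg

end Pool.Agent.Lib.MP_2d211a_co.S64
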