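import Pool.Agent.Lib.MP_2d211a_co.S64AB1

/-!
Subgroups of finite 2-groups: steps, generators, homomorphisms.
-/

namespace Pool.Agent.Lib.MP_2d211a_co.S64

open Subgroup
open scoped commutatorElement

variable {G : Type} [Group G]

theorem gen_rel [Two G] {N A : Subgroup G} (h : N ≤ A) {m : ℕ} (hm : lg A ≤ lg N + m) :
    ∃ f : Fin m → G, (∀ i, f i ∈ A) ∧ N ⊔ closure (Set.range f) = A := by
  induction m generalizing N with
  | zero => exact ⟨Fin.elim0, fun i => i.elim0, by simpa using eq_of_lg_le h hm⟩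
  | succ m ih =>
    rcases h.eq_or_lt with rfl | h1
    · exact ⟨fun _ => 1, fun _ => one_mem _, sup_eq_left.2 ((closure_le _).2 (by
        rintro _ ⟨i, rfl⟩
        exact one_mem _))⟩
    obtain ⟨a, ha, hn⟩ := SetLike.exists_of_lt h1
    have h2 := lg_lt (lt_of_le_of_ne (le_sup_left : N ≤ N ⊔ zpowers a) fun e =>
      hn (e ▸ mem_sup_right (mem_zpowers a)))
    obtain ⟨f, f1, f2⟩ := ih (N := N ⊔ zpowers a) (sup_le h (zpowers_le.2 ha)) (by omega)
    refine ⟨Fin.cons a f, fun i => Fin.cases ha f1 i, ?_⟩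
    rw [Fin.range_cons, Set.insert_eq, Subgroup.closure_union, ← zpowers_eq_closure, ← sup_assoc, f2]

theorem ab_iInf_cons {k : ℕ} (W : Subgroup G) (f : Fin k → Subgroup G) :
    ⨅ i, (Fin.cons W f : Fin (k + 1) → Subgroup G) i = W ⊓ ⨅ i, f i := by
  ext x
  simp [mem_iInf, Fin.forall_fin_succ]

theorem inf_greedy [Two G] (A : Subgroup G) (S : Set (Subgroup G)) (k : ℕ) :
    ∃ f : Fin k → Subgroup G, (∀ i, f i ∈ S ∨ f i = A) ∧
      (A ⊓ ⨅ i, f i ≤ sInf S ∨ lg (A ⊓ ⨅ i, f i) + k ≤ lg A) := by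
  induction k with
  | zero => exact ⟨Fin.elim0, fun i => i.elim0, Or.inr (lg_mono inf_le_left)⟩
  | succ k ih =>
    obtain ⟨f, f1, f2⟩ := ih
    by_cases h : A ⊓ ⨅ i, f i ≤ sInf S
    · refine ⟨Fin.cons A f, fun i => Fin.cases (Or.inr rfl) f1 i, Or.inl ?_⟩
      rw [ab_iInf_cons]
      exact inf_le_right.trans h
    have f3 := f2.resolve_left h
    rw [le_sInf_iff] at h
    push Not at h
    obtain ⟨W, hW, h⟩ := h
    refine ⟨Fin.cons W f, fun i => Fin.cases (Or.inl hW) f1 i, Or.inr ?_⟩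
    rw [ab_iInf_cons, inf_left_comm]
    have := lg_lt (inf_lt_right.2 h)
    omega

theorem hom_step [Two G] {T B A D : Subgroup G} (f : G → G) (hT : T ≤ B) (hB : ⁅B, B⁆ ≤ T)
    (hf : ∀ a ∈ A, f a ∈ B) (hm : ∀ a ∈ A, ∀ a' ∈ A, f (a * a') * (f a * f a')⁻¹ ∈ T)
    (hD : D ≤ A) (h0 : ∀ d ∈ D, f d ∈ T) :
    lg (T ⊔ closure (f '' A)) + lg D ≤ lg T + lg A := by
  have : (T.subgroupOf B).Normal := ⟨fun n hn g => by
    rw [mem_subgroupOf] at hn ⊢
    have h1 := mul_mem (hB (commutator_mem_commutator g.2 n.2)) hn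
    simpa [commutatorElement_def] using h1⟩
  let π := QuotientGroup.mk' (T.subgroupOf B)
  let φ : A →* B ⧸ T.subgroupOf B := MonoidHom.mk' (fun a => π ⟨f a, hf a a.2⟩) fun a a' => by
    rw [← map_mul]
    exact QuotientGroup.eq_iff_div_mem.2 (by
      simpa [mem_subgroupOf, div_eq_mul_inv] using hm a a.2 a' a'.2)
  have hC : T ⊔ closure (f '' A) ≤ B := sup_le hT ((closure_le _).2 (by
    rintro _ ⟨a, ha, rfl⟩
    exact hf a ha))
  have h1 : T ⊔ closure (f '' A) ≤ (((⊤ : Subgroup A).map φ).comap π).map B.subtype := by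
    refine sup_le (fun t ht => ⟨⟨t, hT ht⟩, ?_, rfl⟩) ((closure_le _).2 ?_)
    · have : π ⟨t, hT ht⟩ = 1 := (QuotientGroup.eq_one_iff _).2 ht
      rw [SetLike.mem_coe, mem_comap, this]
      exact one_mem _
    · rintro _ ⟨a, ha, rfl⟩
      exact ⟨⟨f a, hf a ha⟩, ⟨⟨a, ha⟩, mem_top _, rfl⟩, rfl⟩
  have h2 : (T ⊔ closure (f '' A)).subgroupOf B ≤ ((⊤ : Subgroup A).map φ).comap π :=
    (comap_mono h1).trans (comap_map_eq_self_of_injective B.subtype_injective _).le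
  have h3 := lg_mono h2
  rw [lg_subgroupOf, inf_eq_left.2 hC, lg_comap (QuotientGroup.mk'_surjective _),
    QuotientGroup.ker_mk', lg_subgroupOf, inf_eq_left.2 hT] at h3
  have h4 := lg_map φ ⊤
  have h5 : D.subgroupOf A ≤ φ.ker ⊓ ⊤ := fun d hd =>
    ⟨(QuotientGroup.eq_one_iff _).2 (h0 d hd), mem_top _⟩
  have h6 := lg_mono h5
  rw [lg_subgroupOf, inf_eq_left.2 hD] at h6
  rw [lg_top_sub] at h4
  omega

end Pool.Agent.Lib.MP_2d211a_co.S64
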