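import Pool.Agent.Lib.MP_2d211a_co.S64A0

/-!
Subgroups of finite 2-groups: steps, generators, homomorphisms.
-/

namespace Pool.Agent.Lib.MP_2d211a_co.S64

open Subgroup
open scoped commutatorElement

variable {G : Type} [Group G]

theorem mem_sup_zpowers {T : Subgroup G} {b g : G} (hn : b ∈ normalizer (T : Set G))
    (h2 : b * b ∈ T) : g ∈ T ⊔ zpowers b ↔ g ∈ T ∨ g * b⁻¹ ∈ T := by
  have hc := mem_normalizer_iff.1 hn
  let M : Subgroup G :=
    { carrier := {g | g ∈ T ∨ g * b⁻¹ ∈ T}
      one_mem' := Or.inl (one_mem T)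
      mul_mem' := by
        rintro x y (hx | hx) (hy | hy)
        · exact Or.inl (mul_mem hx hy)
        · exact Or.inr (by rw [mul_assoc]; exact mul_mem hx hy)
        · exact Or.inr (by convert mul_mem hx ((hc y).1 hy) using 1; group)
        · exact Or.inl (by convert mul_mem (mul_mem hx ((hc _).1 hy)) h2 using 1; group)
      inv_mem' := by
        rintro x (hx | hx)
        · exact Or.inl (inv_mem hx)
        · have h : x⁻¹ * b ∈ T := (hc _).2 (by convert inv_mem hx using 1; group)
          exact Or.inr (by convert mul_mem h (inv_mem h2) using 1; group) }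
  refine ⟨fun h => (sup_le (c := M) (fun _ hx => Or.inl hx)
    (zpowers_le.2 (Or.inr (by rw [mul_inv_cancel]; exact one_mem T)))) h, ?_⟩
  rintro (h | h)
  · exact mem_sup_left h
  · rw [← inv_mul_cancel_right g b]
    exact mul_mem (mem_sup_left h) (mem_sup_right (mem_zpowers b))

theorem lg_sup_zpowers [Two G] {T : Subgroup G} {b : G} (hn : b ∈ normalizer (T : Set G))
    (h2 : b * b ∈ T) : lg (T ⊔ zpowers b) ≤ lg T + 1 := by
  have h : T.relIndex (T ⊔ zpowers b) ∣ 2 := relIndex_dvd_two_iff.2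
    ⟨b⁻¹, inv_mem (mem_sup_right (mem_zpowers b)), fun _ hg => ((mem_sup_zpowers hn h2).1 hg).symm⟩
  have := relIndex_le_iff.1 ((Nat.le_of_dvd two_pos h).trans (pow_one 2).ge)
  rwa [inf_eq_left.2 le_sup_left] at this

theorem exists_stepA [Two G] {U V : Subgroup G} (hU : L G 1 ≤ U) (h : U < V) :
    ∃ e ∈ V, e ∉ U ∧ lg (U ⊔ zpowers e) = lg U + 1 := by
  obtain ⟨e, heV, heU⟩ := SetLike.exists_of_lt h
  have := normal_of_L1_le hU
  refine ⟨e, heV, heU, le_antisymm (lg_sup_zpowers (by rw [normalizer_eq_top]; exact mem_top e)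
    (hU (mul_self_mem_L1 e))) (lg_lt (lt_of_le_of_ne le_sup_left fun e' => heU ?_))⟩
  rw [e']
  exact mem_sup_right (mem_zpowers e)

theorem lg_sup_closure [Two G] {U : Subgroup G} (hU : L G 1 ≤ U) {ι : Type} [Fintype ι]
    (f : ι → G) : lg (U ⊔ closure (Set.range f)) ≤ lg U + Fintype.card ι := by
  classical
  have key : ∀ s : Finset ι, lg (U ⊔ closure (f '' s)) ≤ lg U + s.card := by
    intro s
    induction s using Finset.induction_on with
    | empty => simp
    | insert a s ha ih =>
      have := normal_of_L1_le (hU.trans (le_sup_left : U ≤ U ⊔ closure (f '' s)))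
      have h := lg_sup_zpowers (T := U ⊔ closure (f '' s)) (b := f a)
        (by rw [normalizer_eq_top]; exact mem_top _) (mem_sup_left (hU (mul_self_mem_L1 _)))
      rw [Finset.coe_insert, Set.image_insert_eq, Set.insert_eq, Subgroup.closure_union,
        ← zpowers_eq_closure, sup_comm (zpowers _), ← sup_assoc, Finset.card_insert_of_notMem ha]
      omega
  simpa using key Finset.univ

theorem rank_le [Two G] {ι : Type} [Fintype ι] {x : ι → G} (hx : closure (Set.range x) = ⊤) :
    lg (⊤ : Subgroup G) ≤ lg (L G 1) + Fintype.card ι := by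
  have := lg_sup_closure (le_refl (L G 1)) x
  rwa [hx, sup_top_eq] at this

theorem exists_between [Two G] {U V : Subgroup G} (h : U ≤ V) {k : ℕ} (h1 : lg U ≤ k)
    (h2 : k ≤ lg V) : ∃ W : Subgroup G, U ≤ W ∧ W ≤ V ∧ lg W = k := by
  have := Fact.mk Nat.prime_two
  obtain ⟨K, hK, hUK⟩ := Sylow.exists_subgroup_card_pow_prime_le (G := V) 2 (m := k)
    (by rw [card_eq]; exact pow_dvd_pow 2 h2) (U.subgroupOf V) (card_eq _)
    (by rwa [lg_subgroupOf, inf_eq_left.2 h])
  refine ⟨K.map V.subtype, ?_, map_subtype_le K, lg_eq ((card_subtype V K).trans hK)⟩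
  rw [← map_subgroupOf_eq_of_le h]
  exact map_mono hUK

theorem mul_self_mem_of_lg [Two G] {W A : Subgroup G} (h : W ≤ A) (h1 : lg A ≤ lg W + 1) {a : G}
    (ha : a ∈ A) : a * a ∈ W := by
  rcases le_or_gt (lg A) (lg W) with h2 | h2
  · rw [eq_of_lg_le h h2]
    exact mul_mem ha ha
  · have h3 : (W.subgroupOf A).index = 2 := by
      rw [← relIndex, relIndex_eq, inf_eq_left.2 h, show lg A - lg W = 1 by omega, pow_one]
    exact mul_self_mem_of_index_two h3 ⟨a, ha⟩

end Pool.Agent.Lib.MP_2d211a_co.S64
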