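import Pool.Agent.Lib.MP_2d211a_co.S64AD1

/-!
Counting presentations with a small Sims set.
-/

namespace Pool.Agent.Lib.MP_2d211a_co.S64

open Subgroup
open scoped commutatorElement

variable {G : Type} [Group G]

theorem cheap [Two G] {ι : Type} (x : ι → G) {σ : ℕ} (s : Fin σ → ι) (l : ℕ) :
    ((· ⊓ Ks x s) '' {R | Mk x s l R}).ncard ≤ 2 ^ ((σ + 1) * (σ + l) * l) := by
  set H := closure (Set.range (x ∘ s)) with hH
  have hK : Ks x s ≤ H := sq_le_self H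
  have hL : L H 1 = (Ks x s).subgroupOf H := by
    have e : (L H 1).map H.subtype = Ks x s := by
      rw [L1_eq, sq_map, ← MonoidHom.range_eq_map, range_subtype]; rfl
    rw [← e]
    exact (comap_map_eq_self_of_injective H.subtype_injective _).symm
  have hgen : closure (Set.range fun i : Fin σ =>
      (⟨x (s i), subset_closure ⟨i, rfl⟩⟩ : H)) = ⊤ := by
    rw [← closure_closure_coe_preimage]
    congr 1
    ext y
    exact ⟨fun ⟨i, e⟩ => ⟨i, congrArg Subtype.val e⟩, fun ⟨i, e⟩ => ⟨i, Subtype.ext e⟩⟩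
  have hr := rank_le hgen
  rw [Fintype.card_fin] at hr
  have h12 := L1_le_L2 hr
  obtain ⟨E, hE, hE'⟩ := chain_count (L H 1) (fun _ => True) (fun _ _ _ _ _ => trivial)
    ((σ + σ * σ) / 2) (σ + 1) l fun R j hn hR _ hj _ => by
      have h1 := mult_sims (H := ⊤) hR ⟨le_top, le_sup_of_le_left L1_eq.le⟩ hr hj.le
      omega
  refine le_trans (Set.ncard_le_ncard_of_injOn (fun R => R.subgroupOf H) ?_ ?_ (Set.toFinite _))
    (hE.trans (Nat.pow_le_pow_right two_pos ?_))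
  · rintro _ ⟨R, hR, rfl⟩
    have := hR.nor
    have e : (R ⊓ Ks x s).subgroupOf H = R.subgroupOf H ⊓ L H 1 := by rw [hL]; rfl
    refine ⟨by rw [e]; infer_instance, by rw [e]; exact inf_le_right, trivial, ?_⟩
    have h1 := lg_sup_normal (Ks x s) R
    have h2 : Ks x s ⊔ R = L G 1 := le_antisymm (sup_le (sq_le_L1 _) hR.le) hR.sims
    rw [h2, hR.lgR, inf_comm] at h1
    dsimp only
    rw [hL, lg_subgroupOf, lg_subgroupOf, inf_eq_left.2 hK, inf_eq_left.2 (inf_le_right.trans hK)]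
    omega
  · rintro _ ⟨R, -, rfl⟩ _ ⟨R', -, rfl⟩ e
    have e' := subgroupOf_inj.1 e
    rwa [inf_eq_left.2 (inf_le_right.trans hK), inf_eq_left.2 (inf_le_right.trans hK)] at e'
  · have h1 : 2 * ((σ + σ * σ) / 2) ≤ σ + σ * σ := Nat.mul_div_le _ _
    have h2 := Nat.mul_le_mul_right l h1
    have h3 : (σ + 1) * (σ + l) * l = (σ + σ * σ) * l + (σ + 1) * l * l := by ring
    omega

theorem pres_count [Two G] {ι : Type} (x : ι → G) {σ : ℕ} (s : Fin σ → ι) (l m M : ℕ)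
    (Top : Subgroup G) (S : Set (Subgroup G))
    (hS : ∀ R ∈ S, Mk x s l R ∧ R ≤ Top ∧ lg Top ≤ lg R + m)
    {P : Type} [Fintype P] (c : P → G) (hc : ∀ p, c p ∈ L G 1)
    (hM : ∀ (R₀ : Subgroup G) (h : P → G), (∀ p, h p ∈ Ks x s) →
      {R ∈ S | R ⊓ Ks x s = R₀ ∧ ∀ p, c p * (h p)⁻¹ ∈ R}.ncard ≤ M) :
    S.ncard ≤ 2 ^ ((σ + 1) * (σ + l) * l + m * Fintype.card P) * M := by
  have key := H60.cover (t := (· ⊓ Ks x s) '' {R | Mk x s l R}) (Set.toFinite _)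
    (fun R₀ => {R ∈ S | R ⊓ Ks x s = R₀}) (2 ^ (m * Fintype.card P) * M) (fun R₀ _ => ?_) S
    fun R hR => ⟨_, ⟨R, (hS R hR).1, rfl⟩, hR, rfl⟩
  · rw [pow_add, mul_assoc]
    exact key.2.trans (Nat.mul_le_mul_right _ (cheap x s l))
  refine ⟨Set.toFinite _, ?_⟩
  rcases Set.eq_empty_or_nonempty {R ∈ S | R ⊓ Ks x s = R₀} with e | ⟨R₁, hR₁, e₁⟩
  · simp [e]
  obtain ⟨k1, k2, k3⟩ := hS R₁ hR₁
  have := k1.nor
  have hZ : ((Top.map (QuotientGroup.mk' R₁) : Subgroup (G ⧸ R₁)) : Set (G ⧸ R₁)).ncard ≤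
      2 ^ m := by
    have h1 := lg_map_of_ker_le (f := QuotientGroup.mk' R₁) (A := Top)
      (by rwa [QuotientGroup.ker_mk'])
    rw [QuotientGroup.ker_mk'] at h1
    rw [← Nat.card_coe_set_eq]
    exact (card_eq _).le.trans (Nat.pow_le_pow_right two_pos (by omega))
  refine (cp _ (Ks x s) (QuotientGroup.mk' R₁) (Top.map (QuotientGroup.mk' R₁) : Subgroup _)
    (Set.toFinite _) c M ?_ ?_ fun h hh => ?_).trans
    (Nat.mul_le_mul_right _ (by rw [pow_mul]; exact Nat.pow_le_pow_left hZ _))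
  · rintro R ⟨-, e⟩ h hK h1
    have h2 : h ∈ R₁ ⊓ Ks x s := ⟨(QuotientGroup.eq_one_iff h).1 h1, hK⟩
    rw [e₁, ← e] at h2
    exact h2.1
  · rintro R ⟨hR, -⟩ p
    obtain ⟨j1, j2, -⟩ := hS R hR
    have := j1.nor
    have h1 := j1.sims (hc p)
    rw [sup_comm] at h1
    obtain ⟨r, hr, k, hk, e⟩ := mem_sup_of_normal_left.1 h1
    have h2 : c p * k⁻¹ ∈ R := by rwa [← e, mul_inv_cancel_right]
    exact ⟨k, hk, h2, mem_map_of_mem _ (j2 h2)⟩
  · simpa only [Set.mem_ofPred_eq, and_assoc] using hM R₀ h hh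

theorem a7 [Two G] {σ b : ℕ} {x : Fin σ ⊕ Fin b → G} (hx : closure (Set.range x) = ⊤) (l m : ℕ)
    (Top : Subgroup G) :
    ∃ E, {R | Mk x Sum.inl l R ∧ R ≤ Top ∧ lg Top ≤ lg R + m}.ncard ≤ 2 ^ E ∧
      2 * E ≤ 2 * ((σ + 1) * (σ + l) * l) + m * (2 * (σ + 1) * (σ + b) + b * b) := by
  let c : ((Fin σ ⊕ Fin b) ⊕ (Fin σ ⊕ Fin b) × Fin σ) ⊕ H60.Tri b → G :=
    Sum.elim (Sum.elim (fun i => x i * x i) fun q => ⁅x q.1, x (.inl q.2)⁆)
      fun q => ⁅x (.inr q.1.1), x (.inr q.1.2)⁆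
  have hc : ∀ p, c p ∈ L G 1 := by
    rintro ((i | q) | q)
    exacts [mul_self_mem_L1 _, comm_mem_L1 _ _, comm_mem_L1 _ _]
  have key : ∀ h : _ → G, (∀ p, h p ∈ Ks x Sum.inl) → ∀ R R' : Subgroup G, Mk x Sum.inl l R →
      Mk x Sum.inl l R' → R ⊓ Ks x Sum.inl = R' ⊓ Ks x Sum.inl → (∀ p, c p * (h p)⁻¹ ∈ R) →
      (∀ p, c p * (h p)⁻¹ ∈ R') → R ≤ R' := by
    intro h hh R R' hR hR' e h1 h2
    have := hR.nor
    have := hR'.nor
    have h3 : ∀ p, c p ∈ Ks x Sum.inl ⊔ R ⊓ R' := fun p => by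
      have := mul_mem (mem_sup_right (S := Ks x Sum.inl) (T := R ⊓ R') ⟨h1 p, h2 p⟩)
        (mem_sup_left (hh p))
      rwa [inv_mul_cancel_right] at this
    have h4 : ∀ i k, ⁅x i, x (.inl k)⁆ ∈ Ks x Sum.inl ⊔ R ⊓ R' := fun i k => h3 (.inl (.inr (i, k)))
    have := ks_normal hx Sum.inl h4
    have h5 : L G 1 ≤ Ks x Sum.inl ⊔ R ⊓ R' := by
      refine L1_le_of_gens hx (fun i => h3 (.inl (.inl i))) ?_
      rintro i (k | j)
      · exact h4 i k
      rcases i with k | i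
      · rw [← commutatorElement_inv]
        exact inv_mem (h4 _ k)
      rcases lt_trichotomy i j with o | rfl | o
      · exact h3 (.inr ⟨(i, j), o⟩)
      · rw [commutatorElement_self]
        exact one_mem _
      · rw [← commutatorElement_inv]
        exact inv_mem (h3 (.inr ⟨(j, i), o⟩))
    exact (le_inf le_rfl (hR.le.trans h5)).trans (inf_le_of_inf_eq e)
  have h1 := pres_count x Sum.inl l m 1 Top
    {R | Mk x Sum.inl l R ∧ R ≤ Top ∧ lg Top ≤ lg R + m} (fun R hR => hR) c hc fun R₀ h hh => by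
      rw [Set.ncard_le_one (Set.toFinite _)]
      rintro R ⟨hR, e, k⟩ R' ⟨hR', e', k'⟩
      exact le_antisymm (key h hh R R' hR.1 hR'.1 (e.trans e'.symm) k k')
        (key h hh R' R hR'.1 hR.1 (e'.trans e.symm) k' k)
  rw [mul_one] at h1
  refine ⟨_, h1, ?_⟩
  have h2 := H60.card_Tri b
  have h3 : b * (b - 1) ≤ b * b := Nat.mul_le_mul_left _ (Nat.sub_le _ _)
  simp only [Fintype.card_sum, Fintype.card_prod, Fintype.card_fin]
  have h4 : 2 * (σ + b + (σ + b) * σ + Fintype.card (H60.Tri b)) ≤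
      2 * (σ + 1) * (σ + b) + b * b := by
    have : 2 * (σ + 1) * (σ + b) = 2 * (σ + b + (σ + b) * σ) := by ring
    omega
  have h5 := Nat.mul_le_mul_left m h4
  rw [mul_left_comm] at h5
  omega

end Pool.Agent.Lib.MP_2d211a_co.S64
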