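import Pool.Agent.Lib.MP_2d211a_co.S64AL1

/-!
The second layer of the lower exponent-2 central series.
-/

namespace Pool.Agent.Lib.MP_2d211a_co.S64

open Subgroup
open scoped commutatorElement

variable {G : Type} [Group G]

theorem al_low_L1 (ρ : ℕ) : Low ρ (L G 1) :=
  ⟨L_succ_le 1, le_rfl, Nat.le_succ _, ⊤, le_top, le_sup_left, Nat.le_add_right _ _⟩

theorem low_count [Two G] {r : ℕ} (hr : lg (⊤ : Subgroup G) ≤ lg (L G 1) + r) (ρ : ℕ) :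
    {W : Subgroup G | Low ρ W}.ncard ≤ 2 ^ (r * ρ + r + ρ * ρ + ρ) := by
  have h1 := sub_count (N := L G 1) (Q := ⊤) le_top hr ρ
  have h2 := (H60.cover (Set.toFinite
      {T : Subgroup G | L G 1 ≤ T ∧ T ≤ ⊤ ∧ lg (⊤ : Subgroup G) ≤ lg T + ρ})
    (fun T : Subgroup G => {W : Subgroup G | ⁅T, ⊤⁆ ⊔ L G 2 ≤ W ∧ W ≤ L G 1 ∧
      lg (L G 1) ≤ lg W + 1}) (2 ^ (r + ρ * ρ + ρ)) (fun T hT => ⟨Set.toFinite _, by
        have hN' : ⁅T, ⊤⁆ ⊔ L G 2 ≤ L G 1 :=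
          sup_le ((commutator_mono le_top le_rfl).trans le_sup_left) (L_succ_le 1)
        have a1 := phi_le (N := ⁅T, ⊤⁆ ⊔ L G 2) (T := T) (U := T) le_sup_right hN' hT.1 le_rfl
          le_sup_left (a := 0) (q := ρ) le_rfl hT.2.2
        have a2 := sq_sup_le (N := ⁅T, ⊤⁆ ⊔ L G 2) (U := T) le_sup_right hN' hT.1
          ((commutator_mono le_rfl le_top).trans le_sup_left) (τ := r)
          ((lg_mono le_top).trans hr)
        exact idx2_count hN' (by omega)⟩) {W : Subgroup G | Low ρ W}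
    (fun W ⟨w1, w2, w3, T, t1, t2, t3⟩ => ⟨T, ⟨t1, le_top, t3⟩, sup_le t2 w1, w2, w3⟩)).2
  calc _ ≤ _ := h2
    _ ≤ 2 ^ (r * ρ) * 2 ^ (r + ρ * ρ + ρ) := Nat.mul_le_mul_right _ h1
    _ = _ := by rw [← pow_add]; congr 1; omega

theorem ylow_le {ρ : ℕ} {R : Subgroup G} (hR : R ≤ L G 1) :
    L G 2 ⊔ R ≤ Ylow ρ R ∧ Ylow ρ R ≤ L G 1 ∧ (Ylow ρ R).Normal := by
  have h1 : L G 2 ⊔ R ≤ Ylow ρ R := le_sInf fun W hW => sup_le hW.1.1 hW.2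
  have h2 : Ylow ρ R ≤ L G 1 := sInf_le ⟨al_low_L1 ρ, hR⟩
  exact ⟨h1, h2, normal_of_st2_le (R := L G 1) (le_sup_left.trans h1) h2⟩

theorem ylow_up {ρ : ℕ} {R R' : Subgroup G} (h : R ≤ R') (h' : R' ≤ Ylow ρ R) :
    Ylow ρ R' = Ylow ρ R :=
  le_antisymm (le_sInf fun _ hW => sInf_le ⟨hW.1, h'.trans (sInf_le hW)⟩)
    (le_sInf fun _ hW => sInf_le ⟨hW.1, h.trans hW.2⟩)

theorem ylow_count [Two G] {r : ℕ} (hr : lg (⊤ : Subgroup G) ≤ lg (L G 1) + r) (ρ N : ℕ) :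
    {Y : Subgroup G | ∃ R : Subgroup G, R ≤ L G 1 ∧ lg (L G 1) ≤ lg R + N ∧ Y = Ylow ρ R}.ncard ≤
      2 ^ ((r * ρ + r + ρ * ρ + ρ) * N) := by
  have hs : {Y : Subgroup G | ∃ R : Subgroup G, R ≤ L G 1 ∧ lg (L G 1) ≤ lg R + N ∧
      Y = Ylow ρ R} ⊆ (fun f : Fin N → {W : Subgroup G | Low ρ W} =>
        L G 1 ⊓ ⨅ i, (f i).1) '' Set.univ := by
    rintro _ ⟨R, h1, h2, rfl⟩
    obtain ⟨f, f1, f2⟩ := inf_greedy (L G 1) {W | Low ρ W ∧ R ≤ W} N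
    have f3 : ∀ i, Low ρ (f i) ∧ R ≤ f i := fun i =>
      (f1 i).elim id fun e => e ▸ ⟨al_low_L1 ρ, h1⟩
    have hle : Ylow ρ R ≤ L G 1 ⊓ ⨅ i, f i :=
      le_inf (ylow_le h1).2.1 (le_iInf fun i => sInf_le (f3 i))
    refine ⟨fun i => ⟨f i, (f3 i).1⟩, Set.mem_univ _, ?_⟩
    rcases f2 with f2 | f2
    · exact le_antisymm f2 hle
    · have := lg_mono (le_sup_right.trans (ylow_le (ρ := ρ) h1).1)
      exact (eq_of_lg_le hle (by omega)).symm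
  refine (Set.ncard_le_ncard hs (Set.toFinite _)).trans
    ((Set.ncard_image_le (Set.toFinite _)).trans ?_)
  rw [Set.ncard_univ, Nat.card_fun, Nat.card_coe_set_eq, Nat.card_eq_fintype_card,
    Fintype.card_fin, pow_mul]
  exact Nat.pow_le_pow_left (low_count hr ρ) N

end Pool.Agent.Lib.MP_2d211a_co.S64
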