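import Pool.Agent.Lib.MP_2d211a_co.S64AP

/-!
Bounds for the 2-multiplicator.
-/

namespace Pool.Agent.Lib.MP_2d211a_co.S64

open Subgroup
open scoped commutatorElement

variable {G : Type} [Group G]

/-- The elements of `H` whose commutators with `A` lie in `B`. -/
def amC (A : Set G) (B H : Subgroup G) (hB : ∀ h ∈ H, ∀ y ∈ B, h * y * h⁻¹ ∈ B) : Subgroup G where
  carrier := {c | c ∈ H ∧ ∀ b ∈ A, ⁅b, c⁆ ∈ B}
  one_mem' := ⟨one_mem _, fun b _ => by simp⟩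
  mul_mem' := fun {c d} h k => ⟨mul_mem h.1 k.1, fun b hb => by
    have : ⁅b, c * d⁆ = ⁅b, c⁆ * (c * ⁅b, d⁆ * c⁻¹) := by
      simp only [commutatorElement_def]; group
    rw [this]
    exact mul_mem (h.2 b hb) (hB c h.1 _ (k.2 b hb))⟩
  inv_mem' := fun {c} h => ⟨inv_mem h.1, fun b hb => by
    have : ⁅b, c⁻¹⁆ = c⁻¹ * ⁅b, c⁆⁻¹ * c⁻¹⁻¹ := by
      simp only [commutatorElement_def]; group
    rw [this]
    exact hB _ (inv_mem h.1) _ (inv_mem (h.2 b hb))⟩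

theorem am_sq (b u : G) : ⁅b, u * u⁆ = ⁅b, u⁆ * ⁅b, u⁆ * ⁅⁅b, u⁆⁻¹, u⁆ := by
  simp only [commutatorElement_def]; group

theorem am_swap {B : Subgroup G} {a b : G} (h : ⁅a, b⁆ ∈ B) : ⁅b, a⁆ ∈ B := by
  rw [← commutatorElement_inv]; exact inv_mem h

theorem am_conj {A B H : Subgroup G} (h1 : ⁅A, H⁆ ≤ B) (h2 : B ≤ A) :
    ∀ h ∈ H, ∀ y ∈ B, h * y * h⁻¹ ∈ B := fun h hh y hy => by
  have : h * y * h⁻¹ = ⁅h, y⁆ * y := by simp only [commutatorElement_def]; group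
  rw [this]
  exact mul_mem (am_swap (h1 (commutator_mem_commutator (h2 hy) hh))) hy

theorem am_comm_le (A H : Subgroup G) : ⁅A, H⁆ ≤ st2 A :=
  (commutator_mono le_rfl le_top).trans le_sup_left

/-- The subgroup `A ^ 2 [A, H] st2 R`. -/
def amH (H R A : Subgroup G) : Subgroup G := sq A ⊔ ⁅A, H⁆ ⊔ st2 R

instance amH_normal (H R A : Subgroup G) [H.Normal] [R.Normal] [A.Normal] :
    (amH H R A).Normal := by
  unfold amH
  infer_instance

theorem amH_le {H R A : Subgroup G} [R.Normal] [A.Normal] (h : R ≤ A) : amH H R A ≤ A :=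
  sup_le (sup_le (sq_le_self A) ((am_comm_le A H).trans (st2_le A))) ((st2_le R).trans h)

theorem am_sq_le (H R A : Subgroup G) : sq A ≤ amH H R A := le_sup_left.trans le_sup_left

theorem am_cm_le (H R A : Subgroup G) : ⁅A, H⁆ ≤ amH H R A := le_sup_right.trans le_sup_left

theorem am_phi {H R A A1 : Subgroup G} [R.Normal] [A1.Normal] (hS : Sims H R)
    (hA : st2 A ≤ A1) : ⁅A, L G 1⁆ ≤ amH H R A1 := by
  have := normal_of_L1_le hS.1
  have hn : (amH H R A1).Normal := inferInstance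
  have : L G 1 ≤ amC A (amH H R A1) ⊤ fun h _ y hy => hn.conj_mem y hy h := by
    refine hS.2.trans (sup_le (sq_le_iff.2 fun u hu => ⟨trivial, fun b hb => ?_⟩)
      fun u hu => ⟨trivial, fun b _ => am_swap (mem_sup_right (comm_mem_st2 hu b))⟩)
    have h1 := hA (comm_mem_st2 hb u)
    rw [am_sq]
    exact mul_mem (am_sq_le H R A1 (mul_self_mem_sq h1))
      (am_cm_le H R A1 (commutator_mem_commutator (inv_mem h1) hu))
  exact commutator_le.2 fun b hb c hc => (this hc).2 b hb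

theorem am_L2 {H R : Subgroup G} [R.Normal] (hS : Sims H R) : L G 2 ≤ amH H R (L G 1) :=
  sup_le (commutator_comm (L G 1) ⊤ ▸ am_phi (A := ⊤) hS le_rfl) (am_sq_le _ _ _)

theorem am_step [Two G] {H A A1 B U D : Subgroup G} {e : G} (hA : st2 A ≤ A1) (h1 : A1 ≤ H)
    (h2 : A ≤ H) (hB : B ≤ A1) (hc : ⁅A1, H⁆ ≤ B) (hU : U ≤ H) (he : e ∈ H) (hD : D ≤ A)
    (h0 : ∀ d ∈ D, ⁅d, e⁆ ∈ B ⊔ ⁅A, U⁆) :
    lg (B ⊔ ⁅A, U ⊔ zpowers e⁆) + lg D ≤ lg (B ⊔ ⁅A, U⁆) + lg A := by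
  have hT : B ⊔ ⁅A, U⁆ ≤ A1 := sup_le hB ((am_comm_le A U).trans hA)
  have hf : ∀ a ∈ A, ⁅a, e⁆ ∈ A1 := fun a ha => hA (comm_mem_st2 ha e)
  have key := hom_step (fun a => ⁅a, e⁆) hT
    (((commutator_mono le_rfl h1).trans hc).trans le_sup_left) hf (fun a ha a' ha' => by
      have : ⁅a * a', e⁆ * (⁅a, e⁆ * ⁅a', e⁆)⁻¹ = ⁅a, ⁅a', e⁆⁆ * ⁅⁅a', e⁆, ⁅a, e⁆⁆ := by
        simp only [commutatorElement_def]; group
      rw [this]
      exact mem_sup_left (mul_mem (am_swap (hc (commutator_mem_commutator (hf a' ha') (h2 ha))))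
        (hc (commutator_mem_commutator (hf a' ha') (h1 (hf a ha)))))) hD h0
  refine le_trans (Nat.add_le_add_right (lg_mono ?_) _) key
  have hT' : B ⊔ ⁅A, U⁆ ⊔ closure ((fun a => ⁅a, e⁆) '' A) ≤ A1 :=
    sup_le hT ((closure_le _).2 fun _ ⟨a, ha, h⟩ => h ▸ hf a ha)
  have : U ⊔ zpowers e ≤ amC A _ H (am_conj (hc.trans (le_sup_left.trans le_sup_left)) hT') :=
    sup_le (fun u hu => ⟨hU hu, fun b hb =>
      mem_sup_left (mem_sup_right (commutator_mem_commutator hb hu))⟩)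
      (zpowers_le.2 ⟨he, fun b hb => mem_sup_right (subset_closure ⟨b, hb, rfl⟩)⟩)
  exact sup_le (le_sup_left.trans le_sup_left)
    (commutator_le.2 fun b hb c hc => (this hc).2 b hb)

theorem am_chain [Two G] {H A A1 B V : Subgroup G} (hA : st2 A ≤ A1) (h1 : A1 ≤ A) (h2 : A ≤ H)
    (hB : B ≤ A1) (hc : ⁅A1, H⁆ ≤ B) (hV : V ≤ H) {δ : ℕ} (hδ : lg A ≤ lg A1 + δ) (k : ℕ) :
    ∀ U : Subgroup G, L G 1 ≤ U → U ≤ V → lg V ≤ lg U + k →
      lg (B ⊔ ⁅A, V⁆) ≤ lg (B ⊔ ⁅A, U⁆) + k * δ := by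
  induction k with
  | zero => intro U _ h h'; rw [eq_of_lg_le h h']; simp
  | succ k ih =>
    intro U hU h h'
    rcases h.eq_or_lt with rfl | hlt
    · exact Nat.le_add_right _ _
    obtain ⟨e, e1, -, e3⟩ := exists_stepA hU hlt
    have a1 := ih (U ⊔ zpowers e) (hU.trans le_sup_left) (sup_le h (zpowers_le.2 e1)) (by omega)
    have a2 := am_step hA (h1.trans h2) h2 hB hc (h.trans hV) (hV e1) h1 (U := U)
      fun d hd => mem_sup_left (hc (commutator_mem_commutator hd (hV e1)))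
    rw [add_mul, one_mul]
    omega

theorem am_base [Two G] {H R A A1 : Subgroup G} [R.Normal] [A1.Normal] (hS : Sims H R)
    (hR : R ≤ A1) (hA : st2 A ≤ A1) (h1 : A1 ≤ A) (h2 : A ≤ L G 1) :
    lg (amH H R A1 ⊔ sq A) + lg A1 ≤ lg (amH H R A1) + lg A := by
  have := normal_of_L1_le hS.1
  have hn : (amH H R A1).Normal := inferInstance
  have key := hom_step (fun a => a * a) (amH_le (H := H) hR)
    ((commutator_mono le_rfl (h1.trans (h2.trans hS.1))).trans (am_cm_le H R A1))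
    (fun a ha => hA (sq_mem_st2 ha)) (fun a ha a' ha' => by
      have : a * a' * (a * a') * (a * a * (a' * a'))⁻¹ = a * ⁅a', a⁆ * a⁻¹ := by
        simp only [commutatorElement_def]; group
      rw [this]
      exact hn.conj_mem _ (am_phi hS hA (commutator_mem_commutator ha' (h2 ha))) a) h1
    fun d hd => am_sq_le H R A1 (mul_self_mem_sq hd)
  refine le_trans (Nat.add_le_add_right (lg_mono (sup_le_sup_left ?_ _)) _) key
  exact sq_le_iff.2 fun y hy => subset_closure ⟨y, hy, rfl⟩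

theorem am_hat_le {H R A A1 : Subgroup G} : amH H R A ≤ amH H R A1 ⊔ sq A ⊔ ⁅A, H⁆ :=
  sup_le (sup_le (le_sup_right.trans le_sup_left) le_sup_right)
    (le_sup_right.trans (le_sup_left.trans le_sup_left))

theorem am_first [Two G] {H R A A1 V : Subgroup G} [R.Normal] [A1.Normal] (hS : Sims H R)
    (hR : R ≤ A1) (hA : st2 A ≤ A1) (h1 : A1 ≤ A) (h2 : A ≤ L G 1) (hV : L G 1 ≤ V) (hV' : V ≤ H)
    {δ k : ℕ} (hδ : lg A ≤ lg A1 + δ) (hk : lg V ≤ lg (L G 1) + k) :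
    lg (amH H R A1 ⊔ sq A ⊔ ⁅A, V⁆) ≤ lg (amH H R A1) + (k + 1) * δ := by
  have a1 := am_chain hA h1 (h2.trans hS.1) (B := amH H R A1 ⊔ sq A)
    (sup_le (amH_le hR) ((sq_le_st2 A).trans hA)) ((am_cm_le H R A1).trans le_sup_left) hV' hδ k
    _ le_rfl hV hk
  rw [sup_eq_left.2 ((am_phi hS hA).trans le_sup_left)] at a1
  have a2 := am_base hS hR hA h1 h2
  rw [add_mul, one_mul]
  omega

theorem am_up [Two G] {H R A : Subgroup G} [R.Normal] [A.Normal] (hS : Sims H R)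
    (h2 : A ≤ L G 1) {s : ℕ} (hs : lg H ≤ lg (L G 1) + s) (j : ℕ) :
    ∀ A1 : Subgroup G, A1.Normal → R ≤ A1 → A1 ≤ A → lg A ≤ lg A1 + j →
      lg (amH H R A) ≤ lg (amH H R A1) + (s + 1) * j := by
  induction j with
  | zero => intro A1 _ _ h h'; rw [eq_of_lg_le h h']; simp
  | succ j ih =>
    intro A1 _ hR h h'
    rcases h.eq_or_lt with rfl | hlt
    · exact Nat.le_add_right _ _
    obtain ⟨A2, b1, b2, b3, b4, b5⟩ := upA hlt
    have a1 := ih A2 b1 (hR.trans b2) b3 (by omega)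
    have a2 := (lg_mono am_hat_le).trans
      (am_first hS hR b5 b2 (b3.trans h2) hS.1 le_rfl b4.le hs)
    rw [mul_add]
    omega

theorem am_up' [Two G] {H R A : Subgroup G} [R.Normal] [A.Normal] (hS : Sims H R) (hR : R ≤ A)
    (h2 : A ≤ L G 1) {s j : ℕ} (hs : lg H ≤ lg (L G 1) + s) (hj : lg A ≤ lg R + j) :
    lg (amH H R A) ≤ lg (st2 R) + (s + 1) * j :=
  (am_up hS h2 hs j R inferInstance le_rfl hR hj).trans (Nat.add_le_add_right
    (lg_mono (sup_le (sup_le (sq_le_st2 R) (am_comm_le R H)) le_rfl)) _)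

theorem sims_of [Two G] {H R : Subgroup G} [R.Normal] (hH : L G 1 ≤ H)
    (h : L G 1 ≤ sq H ⊔ L G 2 ⊔ R) : Sims H R := by
  have := normal_of_L1_le hH
  exact ⟨hH, nak (h.trans_eq (sup_right_comm _ _ _))⟩

theorem mult_sims [Two G] {H R : Subgroup G} [R.Normal] (hR : R ≤ L G 1) (hS : Sims H R)
    {s l : ℕ} (hs : lg H ≤ lg (L G 1) + s) (hl : lg (L G 1) ≤ lg R + l) :
    lg (L G 2) ≤ lg (st2 R) + (s + 1) * l :=
  (lg_mono (am_L2 hS)).trans (am_up' hS hR le_rfl hs hl)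

theorem am_greedy [Two G] {R : Subgroup G} (hR : R ≤ L G 1) (z : ℕ) :
    ∀ U : Subgroup G, L G 1 ≤ U → lg (L G 1) ≤ lg (sq U ⊔ L G 2 ⊔ R) + z →
      ∃ (H : Subgroup G) (s c : ℕ), U ≤ H ∧ lg H = lg U + s ∧ s ≤ z ∧
        L G 1 ≤ sq H ⊔ L G 2 ⊔ R ∧ 2 * c + s * s ≤ 2 * s * z + s ∧
        ∀ B : Subgroup G, B ≤ L G 2 ⊔ R → ⁅L G 2 ⊔ R, H⁆ ≤ B → sq (L G 1) ≤ B →
          lg (B ⊔ ⁅L G 1, H⁆) ≤ lg (B ⊔ ⁅L G 1, U⁆) + c := by
  have hD : ∀ U : Subgroup G, sq U ⊔ L G 2 ⊔ R ≤ L G 1 := fun U =>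
    sup_le (sup_le (sq_le_L1 U) (L_succ_le 1)) hR
  have h1 : L G 2 ⊔ R ≤ L G 1 := sup_le (L_succ_le 1) hR
  induction z with
  | zero =>
    intro U _ h
    exact ⟨U, 0, 0, le_rfl, rfl, le_rfl, (eq_of_lg_le (hD U) h).ge, le_rfl, fun _ _ _ _ => le_rfl⟩
  | succ z ih =>
    intro U hU h
    by_cases hq : L G 1 ≤ sq U ⊔ L G 2 ⊔ R
    · exact ⟨U, 0, 0, le_rfl, rfl, Nat.zero_le _, hq, by simp, fun _ _ _ _ => le_rfl⟩
    obtain ⟨e, he⟩ : ∃ e : G, e * e ∉ sq U ⊔ L G 2 ⊔ R := by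
      by_contra! h'
      exact hq (L1_eq.trans_le (sq_le_iff.2 fun y _ => h' y))
    have eU : e ∉ U := fun h' => he (mem_sup_left (mem_sup_left (mul_self_mem_sq h')))
    have := normal_of_L1_le hU
    have a1 := lg_sup_zpowers (T := U) (b := e) (by simp [normalizer_eq_top])
      (hU (mul_self_mem_L1 e))
    have eU' : e ∈ U ⊔ zpowers e := mem_sup_right (mem_zpowers e)
    have a2 : lg U < lg (U ⊔ zpowers e) := lg_lt (lt_of_le_of_ne le_sup_left fun h' => eU (h' ▸ eU'))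
    have a3 : lg (sq U ⊔ L G 2 ⊔ R) < lg (sq (U ⊔ zpowers e) ⊔ L G 2 ⊔ R) :=
      lg_lt (lt_of_le_of_ne (sup_le_sup_right (sup_le_sup_right (sq_mono le_sup_left) _) _)
        fun h' => he (h' ▸ mem_sup_left (mem_sup_left (mul_self_mem_sq eU'))))
    obtain ⟨H, s, c, b1, b2, b3, b4, b5, b6⟩ := ih (U ⊔ zpowers e) (hU.trans le_sup_left) (by omega)
    refine ⟨H, s + 1, c + (z + 1), le_sup_left.trans b1, by omega, by omega, b4, by nlinarith,
      fun B c1 c2 c3 => ?_⟩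
    have UH : U ≤ H := le_sup_left.trans b1
    have hT : B ⊔ ⁅L G 1, U⁆ ≤ L G 2 ⊔ R := sup_le c1 ((am_comm_le _ U).trans le_sup_left)
    have hC : sq U ⊔ (L G 2 ⊔ R) ≤ amC {e} _ H (am_conj (c2.trans le_sup_left) hT) := by
      refine sup_le (sq_le_iff.2 fun u hu => ⟨UH (mul_mem hu hu), ?_⟩)
        fun d hd => ⟨UH (hU (h1 hd)), ?_⟩
      · rintro _ rfl
        rw [am_sq]
        exact mul_mem (mem_sup_left (c3 (mul_self_mem_sq (comm_mem_L1 _ _))))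
          (mem_sup_right (commutator_mem_commutator (inv_mem (comm_mem_L1 _ _)) hu))
      · rintro _ rfl
        exact mem_sup_left (am_swap (c2 (commutator_mem_commutator hd (b1 eU'))))
    have a4 := am_step (A := L G 1) le_sup_left (h1.trans (hU.trans UH)) (hU.trans UH) c1 c2 UH
      (b1 eU') (hD U) fun d hd => am_swap ((hC (sup_assoc (sq U) _ _ ▸ hd)).2 e rfl)
    have a5 := b6 B c1 c2 c3
    omega

theorem mult_flag [Two G] {U R : Subgroup G} [R.Normal] (hR : R ≤ L G 1) (hU : L G 1 ≤ U)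
    {k z w j : ℕ} (hk : lg U ≤ lg (L G 1) + k) (hz : lg (L G 1) ≤ lg (sq U ⊔ L G 2 ⊔ R) + z)
    (hw : lg (L G 1) ≤ lg (L G 2 ⊔ R) + w) (hj : lg (L G 2 ⊔ R) ≤ lg R + j) :
    ∃ (H : Subgroup G) (s : ℕ), Sims H R ∧ lg H = lg U + s ∧ s ≤ z ∧
      2 * lg (L G 2) + s * s ≤
        2 * lg (st2 R) + 2 * (k + 1) * w + 2 * s * z + s + 2 * (k + s + 1) * j := by
  obtain ⟨H, s, c, b1, b2, b3, b4, b5, b6⟩ := am_greedy hR z U hU hz
  have hS := sims_of (hU.trans b1) b4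
  have h1 : L G 2 ⊔ R ≤ L G 1 := sup_le (L_succ_le 1) hR
  refine ⟨H, s, hS, b2, b3, ?_⟩
  have a1 := b6 (amH H R (L G 2 ⊔ R) ⊔ sq (L G 1))
    (sup_le (amH_le le_sup_right) ((sq_le_st2 _).trans le_sup_left))
    ((am_cm_le _ _ _).trans le_sup_left) le_sup_right
  have a2 := am_first hS (A1 := L G 2 ⊔ R) le_sup_right (A := L G 1) le_sup_left h1 le_rfl hU b1
    hw hk
  have a3 := am_up' hS le_sup_right h1 (s := k + s) (by omega) hj
  have a4 := lg_mono ((am_L2 hS).trans (am_hat_le (A1 := L G 2 ⊔ R)))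
  nlinarith

end Pool.Agent.Lib.MP_2d211a_co.S64
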