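import Pool.Agent.Lib.MP_2d211a_co.S64AU
import Pool.Agent.Lib.MP_2d211a_co.S64AL
import Pool.Agent.Lib.MP_2d211a_co.S64AM

/-!
Counting presentations with a small Sims set.
-/

namespace Pool.Agent.Lib.MP_2d211a_co.S64

open Subgroup
open scoped commutatorElement

variable {G : Type} [Group G]

theorem ad_comm_iff {N : Subgroup G} [N.Normal] {a b : G} :
    ⁅a, b⁆ ∈ N ↔ Commute (QuotientGroup.mk' N a) (QuotientGroup.mk' N b) := by
  rw [← commutatorElement_eq_one_iff_commute, ← map_commutatorElement, QuotientGroup.mk'_apply,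
    QuotientGroup.eq_one_iff]

theorem central_of_gens {ι : Type} {x : ι → G} (hx : closure (Set.range x) = ⊤) {N : Subgroup G}
    [N.Normal] {g : G} (h : ∀ i, ⁅g, x i⁆ ∈ N) (u : G) : ⁅g, u⁆ ∈ N := by
  rw [ad_comm_iff]
  have hu : u ∈ closure (Set.range x) := hx ▸ mem_top u
  induction hu using closure_induction with
  | mem y hy =>
    obtain ⟨i, rfl⟩ := hy
    exact ad_comm_iff.1 (h i)
  | one => rw [map_one]; exact Commute.one_right _
  | mul a b _ _ ha hb => rw [map_mul]; exact ha.mul_right hb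
  | inv a _ ha => rw [map_inv]; exact ha.inv_right

theorem L1_le_of_gens {ι : Type} {x : ι → G} (hx : closure (Set.range x) = ⊤) {N : Subgroup G}
    [N.Normal] (h1 : ∀ i, x i * x i ∈ N) (h2 : ∀ i j, ⁅x i, x j⁆ ∈ N) : L G 1 ≤ N := by
  have h3 : ∀ u v : G, ⁅u, v⁆ ∈ N := fun u => central_of_gens hx fun i =>
    ad_comm_iff.2 (ad_comm_iff.1 (central_of_gens hx (h2 i) u)).symm
  rw [L1_def, st2_le_iff]
  refine fun y _ => ⟨?_, h3 y⟩
  have hy : y ∈ closure (Set.range x) := hx ▸ mem_top y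
  induction hy using closure_induction with
  | mem y hy =>
    obtain ⟨i, rfl⟩ := hy
    exact h1 i
  | one => rw [one_mul]; exact one_mem N
  | mul a b _ _ ha hb =>
    have e : a * b * (a * b) = a * a * ⁅a⁻¹, b⁆ * (b * b) := by
      rw [commutatorElement_def]; group
    rw [e]
    exact mul_mem (mul_mem (ha (mem_top a)) (h3 _ _)) (hb (mem_top b))
  | inv a _ ha => rw [← mul_inv_rev]; exact inv_mem (ha (mem_top a))

theorem ks_normal [Two G] {ι κ : Type} {x : ι → G} (hx : closure (Set.range x) = ⊤) (s : κ → ι)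
    {D : Subgroup G} [D.Normal] (h : ∀ i k, ⁅x i, x (s k)⁆ ∈ Ks x s ⊔ D) :
    (Ks x s ⊔ D).Normal := by
  have hK : Ks x s ⊔ D ≤ closure (Set.range (x ∘ s)) ⊔ D := sup_le_sup_right (sq_le_self _) D
  have hn : (closure (Set.range (x ∘ s)) ⊔ D).Normal := by
    rw [← normalizer_eq_top_iff, eq_top_iff, ← hx, closure_le]
    rintro _ ⟨i, rfl⟩
    refine mem_normalizer_fintype fun n hn => ?_
    have hle : closure (Set.range (x ∘ s)) ⊔ D ≤
        (closure (Set.range (x ∘ s)) ⊔ D).comap (MulAut.conj (x i)).toMonoidHom := by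
      refine sup_le ((closure_le _).2 ?_) fun d hd => ?_
      · rintro _ ⟨k, rfl⟩
        have e : x i * x (s k) * (x i)⁻¹ = ⁅x i, x (s k)⁆ * x (s k) := by
          rw [commutatorElement_def]; group
        change x i * x (s k) * (x i)⁻¹ ∈ closure (Set.range (x ∘ s)) ⊔ D
        rw [e]
        exact mul_mem (hK (h i k)) (mem_sup_left (subset_closure ⟨k, rfl⟩))
      · exact mem_sup_right (Normal.conj_mem inferInstance d hd (x i))
    exact hle hn
  have he : Ks x s ⊔ D = sq (closure (Set.range (x ∘ s)) ⊔ D) ⊔ D := by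
    refine le_antisymm (sup_le_sup_right (sq_mono le_sup_left) D) (sup_le ?_ le_sup_right)
    refine sq_le_iff.2 fun y hy => ?_
    obtain ⟨a, ha, d, hd, rfl⟩ := mem_sup_of_normal_right.1 hy
    have e : a * d * (a * d) = a * a * (a⁻¹ * d * a⁻¹⁻¹ * d) := by group
    rw [e]
    exact mul_mem (mem_sup_left (mul_self_mem_sq ha))
      (mem_sup_right (mul_mem (Normal.conj_mem inferInstance d hd a⁻¹) hd))
  rw [he]
  infer_instance

theorem inf_le_of_inf_eq {K R R' : Subgroup G} [R.Normal] [R'.Normal] (h : R ⊓ K = R' ⊓ K) :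
    R ⊓ (K ⊔ R ⊓ R') ≤ R' := by
  intro g hg
  obtain ⟨h1, h2⟩ := mem_inf.1 hg
  obtain ⟨k, hk, d, hd, rfl⟩ := mem_sup_of_normal_right.1 h2
  obtain ⟨hd1, hd2⟩ := mem_inf.1 hd
  have h3 : k ∈ R ⊓ K := mem_inf.2 ⟨(mul_mem_cancel_right hd1).1 h1, hk⟩
  rw [h] at h3
  exact mul_mem (mem_inf.1 h3).1 hd2

theorem cp [Two G] {F : Type} [Group F] (S : Set (Subgroup G)) (K : Subgroup G) (π : G →* F)
    (Z : Set F) (hZ : Z.Finite) {P : Type} [Fintype P] (c : P → G) (M : ℕ)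
    (h0 : ∀ R ∈ S, ∀ h ∈ K, π h = 1 → h ∈ R)
    (hc : ∀ R ∈ S, ∀ p, ∃ h ∈ K, c p * h⁻¹ ∈ R ∧ π (c p * h⁻¹) ∈ Z)
    (hM : ∀ h : P → G, (∀ p, h p ∈ K) → {R ∈ S | ∀ p, c p * (h p)⁻¹ ∈ R}.ncard ≤ M) :
    S.ncard ≤ Z.ncard ^ Fintype.card P * M := by
  have := hZ.to_subtype
  have h1 := (H60.cover (Set.finite_univ (α := P → Z))
    (fun f => {R ∈ S | ∀ p, ∃ h ∈ K, c p * h⁻¹ ∈ R ∧ π (c p * h⁻¹) = f p}) M
    (fun f _ => ⟨Set.toFinite _, ?_⟩) S fun R hR => ?_).2
  · rwa [Set.ncard_univ, Nat.card_fun, Nat.card_coe_set_eq, Nat.card_eq_fintype_card] at h1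
  · rcases Set.eq_empty_or_nonempty
      {R ∈ S | ∀ p, ∃ h ∈ K, c p * h⁻¹ ∈ R ∧ π (c p * h⁻¹) = f p} with e | ⟨R0, -, h2⟩
    · rw [e, Set.ncard_empty]
      exact Nat.zero_le M
    · choose h hK _ hf using h2
      refine le_trans (Set.ncard_le_ncard ?_) (hM h hK)
      refine fun R hR => ⟨hR.1, fun p => ?_⟩
      obtain ⟨h', hK', hR', hf'⟩ := hR.2 p
      have e : c p * (h p)⁻¹ = c p * h'⁻¹ * (h' * (h p)⁻¹) := by group
      have e1 : π (h' * (h p)⁻¹) = 1 := by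
        have e2 := hf p
        rw [e, map_mul, hf'] at e2
        exact mul_eq_left.1 e2
      rw [e]
      exact mul_mem hR' (h0 R hR.1 _ (mul_mem hK' (inv_mem (hK p))) e1)
  · choose h hK hR' hf using hc R hR
    exact ⟨fun p => ⟨_, hf p⟩, Set.mem_univ _, hR, fun p => ⟨h p, hK p, hR' p, rfl⟩⟩

end Pool.Agent.Lib.MP_2d211a_co.S64
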