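import Pool.Agent.Lib.MP_2d211a_co.S64AF1

/-!
Automorphisms fix most central involutions.
-/

namespace Pool.Agent.Lib.MP_2d211a_co.S64

open Subgroup
open scoped commutatorElement

variable {G : Type} [Group G]

theorem af_num {n σ b l p t E : ℕ} (hn : 10 ^ 8 ≤ n) (hσ : σ ≤ n / 10 ^ 8)
    (hs : σ + b + l + p = n) (hr : 39997 * n ≤ 60000 * (σ + b)) (hp : p = n / 20000)
    (ht : t = n / 10 ^ 13)
    (hE : 2 * E ≤ 2 * ((σ + 1) * (σ + l) * l) + l * (2 * (σ + 1) * (σ + b) + b * b)) :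
    27 * 10 ^ 12 * (E + n * (σ + b) * t + 3 * n) + 27 * 40 * n ^ 3 ≤ 2 * 10 ^ 12 * n ^ 3 := by
  have h1 : 10 ^ 8 * (σ + 1) ≤ 2 * n := by omega
  have h2 : n ≤ 40000 * p := by omega
  have h3 : 10 ^ 13 * t ≤ n := by omega
  have h4 : 3 * n ≤ 5 * (σ + b) := by omega
  have hA : 10 ^ 8 * ((σ + 1) * (σ + l) * l) ≤ 2 * n ^ 3 :=
    calc _ = 10 ^ 8 * (σ + 1) * (σ + l) * l := by ring
      _ ≤ 2 * n * n * n := by gcongr <;> omega
      _ = _ := by ring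
  have hB : 10 ^ 8 * (l * (2 * (σ + 1) * (σ + b))) ≤ 4 * n ^ 3 :=
    calc _ = 2 * (10 ^ 8 * (σ + 1) * (σ + b) * l) := by ring
      _ ≤ 2 * (2 * n * n * n) := by gcongr <;> omega
      _ = _ := by ring
  have hC : l * (b * b) ≤ l * ((σ + b) * (σ + b)) := by gcongr <;> omega
  have hD : 27 * (l * ((σ + b) * (σ + b))) + 27 * (p * ((σ + b) * (σ + b))) ≤ 4 * n ^ 3 := by
    generalize σ + b = r at hs ⊢
    subst hs
    zify
    nlinarith [mul_nonneg (sq_nonneg ((r : ℤ) - 2 * (l + p))) (show (0 : ℤ) ≤ 4 * r + l + p by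
      positivity)]
  have hF : 9 * n ^ 3 ≤ 10 ^ 6 * (p * ((σ + b) * (σ + b))) :=
    calc _ = n * (3 * n * (3 * n)) := by ring
      _ ≤ 40000 * p * (5 * (σ + b) * (5 * (σ + b))) := by gcongr
      _ = _ := by ring
  have hG : 10 ^ 13 * (n * (σ + b) * t) ≤ n ^ 3 :=
    calc _ = n * (σ + b) * (10 ^ 13 * t) := by ring
      _ ≤ n * n * n := by gcongr; omega
      _ = _ := by ring
  have hH : 10 ^ 16 * n ≤ n ^ 3 :=
    calc _ = 10 ^ 8 * 10 ^ 8 * n := by ring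
      _ ≤ n * n * n := by gcongr
      _ = _ := by ring
  rw [mul_add l] at hE
  generalize (σ + 1) * (σ + l) * l = A at hA hE
  generalize l * (2 * (σ + 1) * (σ + b)) = B at hB hE
  generalize l * (b * b) = C at hC hE
  generalize l * ((σ + b) * (σ + b)) = D at hC hD
  generalize p * ((σ + b) * (σ + b)) = D' at hD hF
  generalize n * (σ + b) * t = K at hG ⊢
  generalize n ^ 3 = N at *
  omega

theorem af_count [Two G] {σ b : ℕ} {x : Fin σ ⊕ Fin b → G} (hx : closure (Set.range x) = ⊤)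
    (l t n : ℕ) (hn : σ + b + l ≤ n) :
    ∃ E, {R : Subgroup G | ∃ (R₁ : Subgroup G) (_ : R₁.Normal) (f : Fin t → (G →* G ⧸ R₁)),
      Mk x Sum.inl l R₁ ∧ R = R₁ ⊓ ⨅ τ, (f τ).ker}.ncard ≤ 2 ^ (E + n * (σ + b) * t) ∧
      2 * E ≤ 2 * ((σ + 1) * (σ + l) * l) + l * (2 * (σ + 1) * (σ + b) + b * b) := by
  obtain ⟨E, h1, h2⟩ := a7 hx l l (L G 1)
  refine ⟨E, ((H60.cover (Set.toFinite _) (fun R₁ : Subgroup G => {R : Subgroup G |
    ∃ (_ : R₁.Normal) (f : Fin t → (G →* G ⧸ R₁)), R = R₁ ⊓ ⨅ τ, (f τ).ker})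
    (2 ^ (n * (σ + b) * t)) ?_ _ ?_).2.trans (Nat.mul_le_mul_right _ h1)).trans_eq
    (pow_add _ _ _).symm, h2⟩
  · rintro R₁ ⟨h, -, -⟩
    have := h.nor
    refine ⟨Set.toFinite _, ?_⟩
    have h3 : lg (⊤ : Subgroup (G ⧸ R₁)) ≤ n := by
      have h4 := lg_quot R₁
      have h5 := rank_le hx
      have h6 := h.lgR
      rw [Fintype.card_sum, Fintype.card_fin, Fintype.card_fin] at h5
      omega
    have h4 : Function.Injective fun (f : Fin t → (G →* G ⧸ R₁)) τ i => f τ (x i) :=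
      fun f f' e => funext fun τ => MonoidHom.eq_of_eqOn_dense hx (by
        rintro _ ⟨i, rfl⟩
        exact congrFun (congrFun e τ) i)
    have : Finite (Fin t → (G →* G ⧸ R₁)) := Finite.of_injective _ h4
    calc _ ≤ ((fun f : Fin t → (G →* G ⧸ R₁) => R₁ ⊓ ⨅ τ, (f τ).ker) '' Set.univ).ncard :=
          Set.ncard_le_ncard (by rintro _ ⟨_, f, rfl⟩; exact ⟨f, trivial, rfl⟩) (Set.toFinite _)
      _ ≤ Nat.card (Fin t → (G →* G ⧸ R₁)) :=
          (Set.ncard_image_le (Set.toFinite _)).trans_eq (Set.ncard_univ _)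
      _ ≤ Nat.card (Fin t → Fin σ ⊕ Fin b → G ⧸ R₁) := Nat.card_le_card_of_injective _ h4
      _ = 2 ^ (lg (⊤ : Subgroup (G ⧸ R₁)) * (σ + b) * t) := by
          rw [Nat.card_fun, Nat.card_fun, card_eq_top, pow_mul, pow_mul]
          simp
      _ ≤ _ := by gcongr; exact one_le_two
  · rintro R ⟨R₁, h, f, h3, h4⟩
    exact ⟨R₁, ⟨h3, h3.le, h3.lgR.le⟩, h, f, h4⟩

theorem af_mem {F : Type} [Group F] [Two G] [Two F] {σ b l p t : ℕ} {x : Fin σ ⊕ Fin b → G}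
    (hx : closure (Set.range x) = ⊤) {π : G →* F} (hπ : Function.Surjective π)
    (hr : lg (⊤ : Subgroup F) = lg (L F 1) + (σ + b)) (hs : L F 1 ≤ Ks (π ∘ x) Sum.inl)
    (hl : lg (L F 1) = l + p) {Γ : Finset (MulAut F)} (ht : Γ.card ≤ t)
    (h : lg (Fix Γ ⊓ Z0 F) + 2 * p ≤ lg (Z0 F)) :
    ∃ (R₁ : Subgroup G) (_ : R₁.Normal) (f : Fin t → (G →* G ⧸ R₁)),
      Mk x Sum.inl l R₁ ∧ π.ker = R₁ ⊓ ⨅ τ, (f τ).ker := by
  obtain ⟨Z, hZ, hp, hz⟩ := exists_Z1 Γ h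
  obtain ⟨a, ha⟩ := enum Γ ht
  have hr' : lg (⊤ : Subgroup F) = lg (L F 1) + Fintype.card (Fin σ ⊕ Fin b) := by
    rwa [Fintype.card_sum, Fintype.card_fin, Fintype.card_fin]
  have h1 := mk_ker hx Sum.inl hπ hr' hs
  have h2 := (ker_le hπ (rank_le hx) hr').2.1
  have : Z.Normal := ⟨fun z hz g => by
    rwa [(mem_Z0.1 (hZ hz)).2.1 g, mul_inv_cancel_right]⟩
  have h3 : π.ker ≤ (QuotientGroup.mk' (Z.comap π)).ker := by
    rw [QuotientGroup.ker_mk']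
    exact ker_le_comap π Z
  have h4 : ∀ u, π.liftOfSurjective hπ ⟨_, h3⟩ u = 1 ↔ u ∈ Z := fun u => by
    obtain ⟨g, rfl⟩ := hπ u
    rw [MonoidHom.liftOfRightInverse_comp_apply]
    exact QuotientGroup.eq_one_iff g
  refine ⟨Z.comap π, inferInstance,
    fun τ => (π.liftOfSurjective hπ ⟨_, h3⟩).comp ((a τ).toMonoidHom.comp π),
    h1.up inferInstance (ker_le_comap π Z) ((comap_mono (hZ.trans Z0_le)).trans_eq h2) ?_,
    le_antisymm (le_inf (ker_le_comap π Z) (le_iInf fun τ g hg => ?_)) fun g hg => ?_⟩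
  · have h5 := h1.lgR
    rw [lg_comap hπ]
    omega
  · exact (h4 (a τ (π g))).2 (by rw [MonoidHom.mem_ker.1 hg, map_one]; exact one_mem _)
  · refine hz (π g) hg.1 fun α hα => ?_
    obtain ⟨τ, rfl⟩ := ha α hα
    exact (h4 _).1 (mem_iInf.1 hg.2 τ)

theorem fx_small : ∃ n0 : ℕ, ∀ n ≥ n0, Small 40 n {F | Nat.card F = 2 ^ n ∧ NG n F ∧
    ¬∀ Γ : Finset (MulAut F), Γ.card ≤ n / 10 ^ 13 →
      (Fix Γ).relIndex (Z0 F) ≤ 2 ^ (n / 10 ^ 4)} := by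
  refine ⟨10 ^ 8, fun n hn => ⟨(2 * 10 ^ 12 - 27 * 40) * n ^ 3 / (27 * 10 ^ 12) - 3 * n + 3 * n,
    params _ (fun σ b l => {F | (σ ≤ n / 10 ^ 8 ∧ σ + b + l + n / 20000 = n ∧
      39997 * n ≤ 60000 * (σ + b)) ∧ ∃ H : Subgroup F, Sims H ⊥ ∧ lg H = lg (L F 1) + σ ∧
      lg (⊤ : Subgroup F) = lg H + b}) ?_ fun σ _ b _ l _ => ?_, ?_⟩⟩
  · rintro F ⟨hF, ⟨r, H, h1, h2, h3, h4, h5⟩, -⟩
    have := Two.of_card hF
    have h6 := lg_top hF
    have h7 := lg_mono h4.1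
    have h8 := lg_mono (le_top (a := H))
    exact ⟨hF, lg H - lg (L F 1), by omega, n - lg H, by omega, n - r - n / 20000, by omega,
      ⟨by omega, by omega, by omega⟩, H, h4, by omega, by omega⟩
  · by_cases hc : σ ≤ n / 10 ^ 8 ∧ σ + b + l + n / 20000 = n ∧ 39997 * n ≤ 60000 * (σ + b)
    swap
    · rw [Set.eq_empty_of_forall_notMem (s := _ ∩ _) fun F hF => hc hF.2.1]
      simp
    obtain ⟨Γ, _, _, x, hx, hm⟩ := mark (Fin σ ⊕ Fin b) n
    obtain ⟨E, h1, h2⟩ := af_count hx l (n / 10 ^ 13) n (by omega)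
    refine (hm _ _ ?_).trans (h1.trans (Nat.pow_le_pow_right two_pos ?_))
    · rintro F ⟨⟨hF, -, h3⟩, -, H, h4, h5, h6⟩
      have := Two.of_card hF
      have h7 := lg_top hF
      obtain ⟨y, hy, hy'⟩ := marking h4 h5.le h6.le
      obtain ⟨Δ, h8⟩ := not_forall.1 h3
      obtain ⟨h8, h9⟩ := Classical.not_imp.1 h8
      rw [relIndex_le_iff] at h9
      refine ⟨hF, y, hy, fun π hπ he => ?_⟩
      exact af_mem (p := n / 20000) hx hπ (by omega) ((funext he : π ∘ x = y) ▸ hy') (by omega) h8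
        (by omega)
    · have := af_num hn hc.1 hc.2.1 hc.2.2 rfl rfl h2
      generalize n ^ 3 = N at this ⊢
      omega
  · have hH : 10 ^ 16 * n ≤ n ^ 3 :=
      calc _ = 10 ^ 8 * 10 ^ 8 * n := by ring
        _ ≤ n * n * n := by gcongr
        _ = _ := by ring
    generalize n ^ 3 = N at hH ⊢
    omega

end Pool.Agent.Lib.MP_2d211a_co.S64
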