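import Pool.Agent.Lib.MP_2d211a_co.S64AD

/-!
Automorphisms fix most central involutions.
-/

namespace Pool.Agent.Lib.MP_2d211a_co.S64

open Subgroup
open scoped commutatorElement

variable {G : Type} [Group G]

theorem af_map_Z0 (α : MulAut G) {x : G} (hx : x ∈ Z0 G) : α x ∈ Z0 G := by
  refine ⟨L_map_le α.toMonoidHom 1 (mem_map_of_mem α.toMonoidHom hx.1), fun g => ?_, ?_⟩
  · obtain ⟨g, rfl⟩ := α.surjective g
    rw [← map_mul, ← map_mul, hx.2.1 g]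
  · rw [← map_mul, hx.2.2, map_one]

theorem af_norm {x : G} (hx : x ∈ Z0 G) (T : Subgroup G) : x ∈ normalizer (T : Set G) := by
  rw [mem_normalizer_iff]
  intro h
  rw [← hx.2.1 h, mul_inv_cancel_right]

theorem af_sq {x : G} (hx : x ∈ Z0 G) (T : Subgroup G) : x * x ∈ T := by
  rw [hx.2.2]; exact one_mem T

theorem af_normal {B : Subgroup G} (h : B ≤ Z0 G) : B.Normal :=
  ⟨fun x hx g => by rw [(h hx).2.1 g, mul_inv_cancel_right]; exact hx⟩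

theorem af_compl [Two G] {A B : Subgroup G} (hBA : B ≤ A) (hA : A ≤ Z0 G) :
    ∀ j : ℕ, lg B + j ≤ lg A → ∃ Z : Subgroup G, Z ≤ A ∧ lg Z = j ∧ Z ⊓ B = ⊥
  | 0, _ => ⟨⊥, bot_le, lg_bot, bot_inf_eq _⟩
  | j + 1, h => by
    obtain ⟨Z, hZ, hj, hZB⟩ := af_compl hBA hA j (by omega)
    have := af_normal (hBA.trans hA)
    have h1 := lg_sup_normal Z B
    rw [hZB, lg_bot] at h1
    have h2 : ¬ A ≤ Z ⊔ B := fun h' => by have := lg_mono h'; omega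
    obtain ⟨a, ha, ha'⟩ := SetLike.not_le_iff_exists.1 h2
    have h3 := lg_sup_zpowers (af_norm (hA ha) Z) (af_sq (hA ha) Z)
    have h4 : Z < Z ⊔ zpowers a := lt_of_le_of_ne le_sup_left fun e =>
      ha' (mem_sup_left (e ▸ mem_sup_right (mem_zpowers a)))
    have h5 := lg_lt h4
    refine ⟨Z ⊔ zpowers a, sup_le hZ (zpowers_le.2 ha), by omega, eq_bot_iff.2 fun g hg => ?_⟩
    rcases (mem_sup_zpowers (af_norm (hA ha) Z) (af_sq (hA ha) Z)).1 hg.1 with h6 | h6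
    · exact hZB ▸ (⟨h6, hg.2⟩ : g ∈ Z ⊓ B)
    · refine (ha' ?_).elim
      have : a = (g * a⁻¹)⁻¹ * g := by group
      rw [this]
      exact mul_mem (mem_sup_left (inv_mem h6)) (mem_sup_right hg.2)

theorem af_cut [Two G] {B : Subgroup G} (hB : B ≤ Z0 G) (h2 : 2 ≤ lg B) (α : MulAut G) {z : G}
    (hz : z ∈ B) (hα : α z ≠ z) : ∃ W : Subgroup G, W ≤ Z0 G ∧ lg (Z0 G) ≤ lg W + 1 ∧ z ∈ W ∧
      α z ∉ W ∧ ¬ B ≤ W := by
  have hz0 := hB hz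
  have hy0 := af_map_Z0 α hz0
  have h1 := lg_sup_zpowers (af_norm hz0 ⊥) (af_sq hz0 ⊥)
  rw [lg_bot] at h1
  have h3 : ¬ B ≤ ⊥ ⊔ zpowers z := fun h' => by have := lg_mono h'; omega
  obtain ⟨b, hb, hb'⟩ := SetLike.not_le_iff_exists.1 h3
  have hc0 : b * α z ∈ Z0 G := mul_mem (hB hb) hy0
  have hy : α z ∉ (⊥ ⊔ zpowers z) ⊔ zpowers (b * α z) := by
    intro hy
    rcases (mem_sup_zpowers (af_norm hc0 _) (af_sq hc0 _)).1 hy with h4 | h4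
    · rcases (mem_sup_zpowers (af_norm hz0 ⊥) (af_sq hz0 ⊥)).1 h4 with h5 | h5
      · have h6 : α z = 1 := mem_bot.1 h5
        have h7 : z = 1 := α.injective (h6.trans (map_one α).symm)
        exact hα (h6.trans h7.symm)
      · exact hα (mul_inv_eq_one.1 (mem_bot.1 h5))
    · have : α z * (b * α z)⁻¹ = b⁻¹ := by group
      rw [this] at h4
      exact hb' (inv_mem_iff.1 h4)
  obtain ⟨W, hDW, hW, hl, hyW⟩ := sepA (A := Z0 G)
    (sup_le (sup_le bot_le (zpowers_le.2 hz0)) (zpowers_le.2 hc0)) (fun a ha => af_sq ha _) hy0 hy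
  refine ⟨W, hW, hl, hDW (mem_sup_left (mem_sup_right (mem_zpowers z))), hyW, fun h' => hyW ?_⟩
  have h8 : b * α z ∈ W := hDW (mem_sup_right (mem_zpowers _))
  exact (mul_mem_cancel_left (h' hb)).1 h8

theorem af_chain [Two G] (Γ : Finset (MulAut G)) {p : ℕ}
    (h : lg (Fix Γ ⊓ Z0 G) + 2 * p ≤ lg (Z0 G)) : ∀ k : ℕ, k ≤ p → ∃ A B : Subgroup G,
      B ≤ A ∧ A ≤ Z0 G ∧ lg B + k ≤ lg A ∧ lg (Z0 G) ≤ lg B + 2 * k ∧
      ∀ z ∈ A, (∀ α ∈ Γ, α z ∈ A) → z ∈ B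
  | 0, _ => ⟨Z0 G, Z0 G, le_rfl, le_rfl, le_rfl, le_rfl, fun _ hz _ => hz⟩
  | k + 1, hk => by
    obtain ⟨A, B, hBA, hA, h1, h2, hP⟩ := af_chain Γ h k (by omega)
    have hB := hBA.trans hA
    have h3 : ¬ B ≤ Fix Γ := fun h' => by have := lg_mono (le_inf h' hB); omega
    obtain ⟨z, hz, hz'⟩ := SetLike.not_le_iff_exists.1 h3
    rw [mem_Fix] at hz'
    push Not at hz'
    obtain ⟨α, hα, hne⟩ := hz'
    obtain ⟨W, hW, hl, hzW, hyW, hBW⟩ := af_cut hB (by omega) α hz hne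
    have hV : W.comap α.toMonoidHom ≤ Z0 G := fun x hx => by
      have := af_map_Z0 α⁻¹ (hW hx)
      simpa using this
    have hlV : lg (W.comap α.toMonoidHom) = lg W := by
      rw [lg_comap α.surjective, (MonoidHom.ker_eq_bot_iff _).2 α.injective, lg_bot, add_zero]
    have h4 := lg_inf_ge hA hW
    have h5 := lg_inf_ge hB hW
    have h6 := lg_inf_ge (inf_le_left.trans hB : B ⊓ W ≤ Z0 G) hV
    have h7 : lg (B ⊓ W) < lg B := lg_lt (inf_lt_left.2 hBW)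
    have h8 : lg (B ⊓ W ⊓ W.comap α.toMonoidHom) < lg (B ⊓ W) :=
      lg_lt (inf_lt_left.2 fun h' => hyW (h' ⟨hz, hzW⟩))
    refine ⟨A ⊓ W, B ⊓ W ⊓ W.comap α.toMonoidHom, inf_le_left.trans (inf_le_inf_right _ hBA),
      inf_le_left.trans hA, by omega, by omega, fun x hx hx' => ?_⟩
    exact ⟨⟨hP x hx.1 fun β hβ => (hx' β hβ).1, hx.2⟩, (hx' α hα).2⟩

theorem exists_Z1 [Two G] (Γ : Finset (MulAut G)) {p : ℕ}
    (h : lg (Fix Γ ⊓ Z0 G) + 2 * p ≤ lg (Z0 G)) :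
    ∃ Z : Subgroup G, Z ≤ Z0 G ∧ lg Z = p ∧ ∀ z ∈ Z, (∀ α ∈ Γ, α z ∈ Z) → z = 1 := by
  obtain ⟨A, B, hBA, hA, h1, -, hP⟩ := af_chain Γ h p le_rfl
  obtain ⟨Z, hZ, hp, hZB⟩ := af_compl hBA hA p h1
  refine ⟨Z, hZ.trans hA, hp, fun z hz hz' => ?_⟩
  have : z ∈ Z ⊓ B := ⟨hz, hP z (hZ hz) fun α hα => hZ (hz' α hα)⟩
  rw [hZB] at this
  exact mem_bot.1 this

end Pool.Agent.Lib.MP_2d211a_co.S64
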