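import Pool.Agent.Lib.MP_2d211a_co.S64AH1

/-!
Commutators of large subgroups cover most central involutions.
-/

namespace Pool.Agent.Lib.MP_2d211a_co.S64

open Subgroup
open scoped commutatorElement

variable {G : Type} [Group G]

theorem ah_Z0_normal : (Z0 G).Normal := ⟨fun a ha g => by
  rw [ha.2.1 g, mul_inv_cancel_right]; exact ha⟩

theorem ah_comm (T : Subgroup G) : ⁅T ⊔ Z0 G, T ⊔ Z0 G⁆ ≤ ⁅T, T⁆ := by
  have := ah_Z0_normal (G := G)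
  refine commutator_le.2 fun a ha b hb => ?_
  obtain ⟨t, ht, z, hz, rfl⟩ := mem_sup_of_normal_right.1 ha
  obtain ⟨t', ht', z', hz', rfl⟩ := mem_sup_of_normal_right.1 hb
  have e : ⁅t * z, t' * z'⁆ = ⁅t, t'⁆ := by
    have h1 : ∀ g, z * g * z⁻¹ = g := fun g => by rw [← hz.2.1 g, mul_inv_cancel_right]
    have h2 : ∀ g, z' * g * z'⁻¹ = g := fun g => by rw [← hz'.2.1 g, mul_inv_cancel_right]
    calc ⁅t * z, t' * z'⁆ = t * (z * (t' * z') * z⁻¹) * t⁻¹ * (t' * z')⁻¹ := by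
          rw [commutatorElement_def]; group
      _ = t * t' * (z' * t⁻¹ * z'⁻¹) * t'⁻¹ := by rw [h1]; group
      _ = ⁅t, t'⁆ := by rw [h2, commutatorElement_def]
  rw [e]
  exact commutator_mem_commutator ht ht'

/-- The subgroups of index at most 2 in `Rb` that hold the commutators of a large subgroup. -/
def ahLow (Rb Q : Subgroup G) (θ : ℕ) : Set (Subgroup G) :=
  {M | st2 Rb ≤ M ∧ M ≤ Rb ∧ lg Rb ≤ lg M + 1 ∧ ∃ T : Subgroup G, Rb ≤ T ∧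
    T ≤ Q ∧ lg Q ≤ lg T + θ ∧ Rb ⊓ ⁅T, T⁆ ≤ M}

/-- The family of kernels. -/
def ahFam {σ b : ℕ} (x : Fin σ ⊕ Fin b → G) (Q : Subgroup G) (θ l y g m : ℕ) :
    Set (Subgroup G) :=
  {R | ∃ Rb, (Mk x Sum.inl y Rb ∧ Rb ≤ L G 1 ∧ lg (L G 1) ≤ lg Rb + y) ∧
    ∃ M : Fin g → Subgroup G, (∀ i, M i ∈ ahLow Rb Q θ) ∧
      Mk x Sum.inl l R ∧ R ≤ Rb ⊓ ⨅ i, M i ∧ lg (Rb ⊓ ⨅ i, M i) ≤ lg R + m}

theorem ah_count [Two G] {σ b : ℕ} {x : Fin σ ⊕ Fin b → G} (hx : closure (Set.range x) = ⊤)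
    {Q : Subgroup G} (hQ : L G 1 ≤ Q) {κ : ℕ} (hκ : lg Q = lg (L G 1) + κ)
    (hr : lg (⊤ : Subgroup G) = lg (L G 1) + (σ + b)) (θ l y g m : ℕ) :
    (ahFam x Q θ l y g m).ncard ≤ 2 ^
      ((2 * ((σ + 1) * (σ + y) * y) + y * (2 * (σ + 1) * (σ + b) + b * b)) / 2 +
        (g * ((2 * ((κ + y) * θ) + 2 * ((σ + 2) * y) + (σ + b) * (σ + b) + 2 * (σ + b) -
          (κ - θ) * (κ - θ)) / 2) +
        (2 * ((σ + 1) * (σ + l) * l) + m * (2 * (σ + 1) * (σ + b) + b * b)) / 2)) := by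
  obtain ⟨E, h1, h2⟩ := a7 hx y y (L G 1)
  refine (H60.cover (Set.toFinite {Rb | Mk x Sum.inl y Rb ∧ Rb ≤ L G 1 ∧
      lg (L G 1) ≤ lg Rb + y})
    (fun Rb => {R | ∃ M : Fin g → Subgroup G, (∀ i, M i ∈ ahLow Rb Q θ) ∧
      Mk x Sum.inl l R ∧ R ≤ Rb ⊓ ⨅ i, M i ∧ lg (Rb ⊓ ⨅ i, M i) ≤ lg R + m}) _
    (fun Rb hRb => ⟨Set.toFinite _, ?_⟩) (ahFam x Q θ l y g m) (fun R h => h)).2.trans
    ((Nat.mul_le_mul (h1.trans (Nat.pow_le_pow_right two_pos (by omega))) le_rfl).trans_eq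
      (pow_add _ _ _).symm)
  have := hRb.1.nor
  obtain ⟨H, hH, hσ⟩ := hRb.1.sims_sup
  rw [Fintype.card_fin] at hσ
  obtain ⟨E', h3, h4⟩ := lowM_count (θ := θ) hRb.2.1 hQ hH hr hσ hRb.2.2 hκ
  refine (H60.cover (Set.toFinite {M : Fin g → Subgroup G | ∀ i, M i ∈ ahLow Rb Q θ})
    (fun M => {R | Mk x Sum.inl l R ∧ R ≤ Rb ⊓ ⨅ i, M i ∧ lg (Rb ⊓ ⨅ i, M i) ≤ lg R + m}) _
    (fun M _ => ⟨Set.toFinite _, ?_⟩) {R | ∃ M : Fin g → Subgroup G, (∀ i, M i ∈ ahLow Rb Q θ) ∧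
      Mk x Sum.inl l R ∧ R ≤ Rb ⊓ ⨅ i, M i ∧ lg (Rb ⊓ ⨅ i, M i) ≤ lg R + m}
    (fun R h => h)).2.trans
    ((Nat.mul_le_mul ?_ le_rfl).trans_eq (pow_add _ _ _).symm)
  · obtain ⟨E'', h5, h6⟩ := a7 hx l m (Rb ⊓ ⨅ i, M i)
    exact h5.trans (Nat.pow_le_pow_right two_pos (by omega))
  · have e : {M : Fin g → Subgroup G | ∀ i, M i ∈ ahLow Rb Q θ}.ncard =
        (ahLow Rb Q θ).ncard ^ g := by
      rw [← Nat.card_coe_set_eq, ← Nat.card_coe_set_eq]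
      refine (Nat.card_congr (Equiv.subtypePiEquivPi
        (p := fun (_ : Fin g) (M : Subgroup G) => M ∈ ahLow Rb Q θ))).trans ?_
      rw [Nat.card_pi, Finset.prod_const, Finset.card_univ, Fintype.card_fin]
    rw [e, mul_comm g, pow_mul]
    exact Nat.pow_le_pow_left (h3.trans (Nat.pow_le_pow_right two_pos (by omega))) _

theorem ah_mem {F : Type} [Group F] [Two G] [Two F] {σ b : ℕ} {x : Fin σ ⊕ Fin b → G}
    (hx : closure (Set.range x) = ⊤) {Q : Subgroup G} (hQ : L G 1 ≤ Q) {κ θ l y g m : ℕ}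
    (hκ : lg Q = lg (L G 1) + κ) {π : G →* F} (hπ : Function.Surjective π)
    (hr : lg (⊤ : Subgroup F) = lg (L F 1) + (σ + b)) (hs : L F 1 ≤ Ks (π ∘ x) Sum.inl)
    (hl : lg (L F 1) = l) (hy : lg (L F 1) = lg (Z0 F) + y) (hm : l ≤ y + g + m)
    (h : ¬∃ Q : Subgroup F, L F 1 ≤ Q ∧ (L F 1).relIndex Q ≤ 2 ^ κ ∧
      (Hi Q θ).relIndex (Z0 F) ≤ 2 ^ g) : π.ker ∈ ahFam x Q θ l y g m := by
  have hn := ah_Z0_normal (G := F)
  have hc : Fintype.card (Fin σ ⊕ Fin b) = σ + b := by simp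
  have hMk := mk_ker hx Sum.inl hπ (hc ▸ hr) hs
  obtain ⟨k1, k2, -, k4⟩ := ker_le hπ (hc ▸ rank_le hx) hr
  have q1 : L F 1 ≤ Q.map π := L_map π hπ 1 ▸ map_mono hQ
  have q2 := lg_map_of_ker_le (k1.trans hQ)
  have q3 : ¬lg (Z0 F) ≤ lg (Hi (Q.map π) θ ⊓ Z0 F) + g := fun e =>
    h ⟨Q.map π, q1, relIndex_le_iff.2 (by rw [inf_eq_left.2 q1]; omega), relIndex_le_iff.2 e⟩
  let S : Set (Subgroup F) := {W | W ≤ Z0 F ∧ lg (Z0 F) ≤ lg W + 1 ∧ ∃ T ≤ Q.map π,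
    T.relIndex (Q.map π) ≤ 2 ^ θ ∧ Z0 F ⊓ ⁅T, T⁆ ≤ W}
  obtain ⟨f, f1, f2⟩ := inf_greedy (Z0 F) S g
  have f3 : ∀ i, f i ∈ S := fun i => (f1 i).elim id fun e => e ▸
    ⟨le_rfl, by omega, Q.map π, le_rfl, by rw [relIndex_self]; exact Nat.one_le_two_pow,
      inf_le_left⟩
  have f4 : lg (Z0 F ⊓ ⨅ i, f i) + g ≤ lg (Z0 F) := f2.elim (fun e => by
    have : Z0 F ⊓ ⨅ i, f i ≤ Hi (Q.map π) θ ⊓ Z0 F := fun z hz => ⟨mem_Hi.2 fun T h1 h2 => by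
      by_contra hT
      obtain ⟨W, w1, w2, w3, w4⟩ := sepA (D := Z0 F ⊓ ⁅T, T⁆) (A := Z0 F) inf_le_left
        (fun a ha => by rw [ha.2.2]; exact one_mem _) hz.1 (fun e => hT e.2)
      exact w4 (mem_sInf.1 (e hz) W ⟨w2, w3, T, h1, h2, w1⟩), hz.1⟩
    have := lg_mono this
    omega) id
  have r1 : (Z0 F).comap π ≤ L G 1 := k2 ▸ comap_mono Z0_le
  have r2 := lg_comap hπ (Z0 F)
  have r3 : (Z0 F).comap π ⊓ ⨅ i, (f i).comap π = (Z0 F ⊓ ⨅ i, f i).comap π := by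
    rw [comap_inf, comap_iInf]
  refine ⟨(Z0 F).comap π, ⟨hMk.up (hn.comap π) (ker_le_comap π _) r1 (by omega), r1, by omega⟩,
    fun i => (f i).comap π, fun i => ?_, hl ▸ hMk, r3 ▸ ker_le_comap π _, ?_⟩
  · obtain ⟨w1, w2, T, t1, t2, t3⟩ := f3 i
    have t4 := relIndex_le_iff.1 t2
    rw [inf_eq_left.2 t1] at t4
    have t5 := lg_comap hπ (f i)
    have t6 := lg_comap hπ (T ⊔ Z0 F)
    have t7 := lg_mono (le_sup_left : T ≤ T ⊔ Z0 F)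
    refine ⟨st2_le_iff.2 fun u hu => ⟨?_, fun v => ?_⟩, comap_mono w1, by beta_reduce; omega,
      (T ⊔ Z0 F).comap π, comap_mono le_sup_right, ?_, by omega, fun u hu => t3 ⟨hu.1, ?_⟩⟩
    · rw [mem_comap, map_mul, hu.2.2]
      exact one_mem _
    · rw [mem_comap, map_commutatorElement, commutatorElement_def, ← hu.2.1 (π v)]
      simp
    · refine (comap_mono (sup_le t1 (Z0_le.trans q1))).trans ?_
      rw [comap_map_eq]
      exact sup_le le_rfl (k1.trans hQ)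
    · have := mem_map_of_mem π hu.2
      rw [map_commutator, map_comap_eq_self_of_surjective hπ] at this
      exact ah_comm T this
  · rw [r3, lg_comap hπ]
    omega

theorem ah_num {n σ b y g m l κ θ d E₁ E₂ E₃ : ℕ} (hn : 10 ^ 9 ≤ n) (hl : l + (σ + b) = n)
    (hσ : 10 ^ 8 * σ ≤ n) (hg : 10 ^ 4 * g ≤ n) (hg' : n < 10 ^ 4 * (g + 1)) (hy : y ≤ g)
    (hm : y + g + m = l) (hκ : 8 * κ ≤ n) (hθ : 400 * θ ≤ n) (hd : 12 * n ≤ 100 * d)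
    (h1 : 2 * E₁ ≤ 2 * ((σ + 1) * (σ + y) * y) + y * (2 * (σ + 1) * (σ + b) + b * b))
    (h2 : 2 * E₂ + d * d ≤
      2 * ((κ + y) * θ) + 2 * ((σ + 2) * y) + (σ + b) * (σ + b) + 2 * (σ + b))
    (h3 : 2 * E₃ ≤ 2 * ((σ + 1) * (σ + l) * l) + m * (2 * (σ + 1) * (σ + b) + b * b)) :
    (E₁ + (g * E₂ + E₃) + 3 * n) * (27 * 10 ^ 12) + 27 * 40 * n ^ 3 ≤ 2 * 10 ^ 12 * n ^ 3 := by
  obtain ⟨r, hr⟩ : ∃ r, r = σ + b := ⟨_, rfl⟩
  obtain ⟨s, hs⟩ : ∃ s, s = σ + 1 := ⟨_, rfl⟩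
  rw [← hr] at hl h1 h2 h3
  rw [← hs] at h1 h3
  have a1 : s * (σ + y) * y ≤ s * n * n :=
    Nat.mul_le_mul (Nat.mul_le_mul_left _ (by omega)) (by omega)
  have a2 : s * (σ + l) * l ≤ s * n * n :=
    Nat.mul_le_mul (Nat.mul_le_mul_left _ (by omega)) (by omega)
  have a3 : b * b ≤ r * r := Nat.mul_le_mul (by omega) (by omega)
  have a4 : (y + m) * (s * r) ≤ n * (s * n) :=
    Nat.mul_le_mul (by omega) (Nat.mul_le_mul_left _ (by omega))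
  have a5 : (y + m) * (b * b) ≤ (y + m) * (r * r) := Nat.mul_le_mul_left _ a3
  have a6 : (10 ^ 7 * 5 * s) * (n * n) ≤ n * (n * n) := Nat.mul_le_mul_right _ (by omega)
  have b1 : (12 * n) * (12 * n) ≤ (100 * d) * (100 * d) := Nat.mul_le_mul hd hd
  have b2 : (7 * (κ + y)) * (400 * θ) ≤ n * n := Nat.mul_le_mul (by omega) hθ
  have b3 : (10 ^ 4 * (σ + 2)) * (10 ^ 4 * y) ≤ n * n := Nat.mul_le_mul (by omega) (by omega)
  have b4 : 10 ^ 9 * r ≤ n * n := Nat.mul_le_mul hn (by omega)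
  have b5 : 100 * (2 * E₂) + n * n ≤ 100 * (r * r) := by nlinarith
  have b6 : g * (100 * (2 * E₂) + n * n) ≤ g * (100 * (r * r)) := Nat.mul_le_mul_left _ b5
  have b7 : n * (n * n) ≤ (20000 * g) * (n * n) := Nat.mul_le_mul_right _ (by omega)
  have b8 : 27 * (l * (r * r)) ≤ 4 * n ^ 3 := by
    rw [← hl]
    zify
    nlinarith [mul_nonneg (sq_nonneg ((r : ℤ) - 2 * l)) (by positivity : (0 : ℤ) ≤ 4 * r + l)]
  have b9 : 10 ^ 9 * 10 ^ 9 * n ≤ n * n * n := Nat.mul_le_mul_right _ (Nat.mul_le_mul hn hn)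
  have c1 : l * (r * r) = (y + m) * (r * r) + g * (r * r) := by rw [← hm]; ring
  have c2 : n ^ 3 = n * (n * n) := by ring
  rw [c2] at b8 ⊢
  nlinarith

theorem hi_small : ∃ n0 : ℕ, ∀ n ≥ n0, Small 40 n {F | Nat.card F = 2 ^ n ∧ NG n F ∧
    (Z0 F).relIndex (L F 1) ≤ 2 ^ (n / 10 ^ 4) ∧
    ¬∃ Q : Subgroup F, L F 1 ≤ Q ∧ (L F 1).relIndex Q ≤ 2 ^ (n / 8) ∧
      (Hi Q (n / 400)).relIndex (Z0 F) ≤ 2 ^ (n / 10 ^ 4)} := by
  refine ⟨10 ^ 9, fun n hn => ?_⟩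
  obtain ⟨X, hX⟩ : ∃ X, X + 27 * 40 * n ^ 3 = 2 * 10 ^ 12 * n ^ 3 :=
    ⟨(2 * 10 ^ 12 - 27 * 40) * n ^ 3, by norm_num; ring⟩
  have h3 : 3 * n ≤ X / (27 * 10 ^ 12) := (Nat.le_div_iff_mul_le (by norm_num)).2 (by
    have : 10 ^ 9 * 10 ^ 9 * n ≤ n * n * n := Nat.mul_le_mul_right _ (Nat.mul_le_mul hn hn)
    have c2 : n ^ 3 = n * n * n := by ring
    omega)
  refine ⟨X / (27 * 10 ^ 12) - 3 * n + 3 * n, params _
    (fun σ b y => {F | ∃ H : Subgroup F, Sims H ⊥ ∧ σ ≤ n / 10 ^ 8 ∧ lg H = lg (L F 1) + σ ∧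
      lg (⊤ : Subgroup F) = lg H + b ∧ 60000 * (σ + b) ≤ 40003 * n ∧
      39997 * n ≤ 60000 * (σ + b) ∧ lg (L F 1) = lg (Z0 F) + y}) ?_ ?_, ?_⟩
  · rintro F ⟨hF, ⟨r, H, a1, a2, a3, a4, a5⟩, -, -⟩
    have := Two.of_card hF
    have b1 := lg_top hF
    have b2 := lg_mono a4.1
    have b3 := lg_mono (le_top (a := H))
    have b4 := lg_mono (Z0_le (G := F))
    exact ⟨hF, lg H - lg (L F 1), by omega, lg (⊤ : Subgroup F) - lg H, by omega,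
      lg (L F 1) - lg (Z0 F), by omega, H, a4, by omega, by omega, by omega, by omega, by omega,
      by omega⟩
  · intro σ _ b _ y _
    by_cases hc : σ ≤ n / 10 ^ 8 ∧ 60000 * (σ + b) ≤ 40003 * n ∧ 39997 * n ≤ 60000 * (σ + b) ∧
        y ≤ n / 10 ^ 4
    swap
    · refine le_trans (le_of_eq ?_) (Nat.zero_le _)
      rw [Set.eq_empty_of_forall_notMem (s := _ ∩ _), Set.image_empty, Set.ncard_empty]
      rintro F ⟨⟨hF, -, c1, -⟩, H, -, c2, -, -, c3, c4, c5⟩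
      have := Two.of_card hF
      have := relIndex_le_iff.1 c1
      rw [inf_eq_left.2 Z0_le] at this
      exact hc ⟨c2, c3, c4, by omega⟩
    obtain ⟨c1, c2, c3, c4⟩ := hc
    obtain ⟨Γ, _, _, x, hx, hm⟩ := mark (Fin σ ⊕ Fin b) n
    have hcd : Fintype.card (Fin σ ⊕ Fin b) = σ + b := by simp
    by_cases hr : lg (⊤ : Subgroup Γ) = lg (L Γ 1) + (σ + b)
    swap
    · refine (hm _ ∅ ?_).trans (by simp)
      rintro F ⟨⟨hF, -⟩, H, d1, -, d2, d3, -⟩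
      have := Two.of_card hF
      obtain ⟨v, v1, -⟩ := marking d1 d2.le d3.le
      exact ⟨hF, v, v1, fun π hπ _ =>
        hr (ker_le hπ (hcd ▸ rank_le hx) (by omega)).2.2.1⟩
    obtain ⟨Q, q1, -, q2⟩ := exists_between (le_top (a := L Γ 1)) (k := lg (L Γ 1) + n / 8)
      (by omega) (by omega)
    refine (hm _ (ahFam x Q (n / 400) (n - (σ + b)) y (n / 10 ^ 4)
      (n - (σ + b) - y - n / 10 ^ 4)) ?_).trans ((ah_count hx q1 q2 hr _ _ _ _ _).trans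
        (Nat.pow_le_pow_right two_pos (Nat.le_sub_of_add_le
          ((Nat.le_div_iff_mul_le (by norm_num)).2 (Nat.le_of_add_le_add_right
            (b := 27 * 40 * n ^ 3) (hX ▸ ?_))))))
    · rintro F ⟨⟨hF, -, -, d0⟩, H, d1, -, d2, d3, -, -, d4⟩
      have := Two.of_card hF
      have b1 := lg_top hF
      obtain ⟨v, v1, v2⟩ := marking d1 d2.le d3.le
      refine ⟨hF, v, v1, fun π hπ e => ah_mem hx q1 q2 hπ (by omega) ?_ (by omega) d4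
        (by omega) d0⟩
      rwa [show π ∘ x = v from funext e]
    · have e : (n / 8 - n / 400) * (n / 8 - n / 400) ≤ (σ + b) * (σ + b) :=
        Nat.mul_le_mul (by omega) (by omega)
      refine ah_num (σ := σ) (b := b) (y := y) (m := n - (σ + b) - y - n / 10 ^ 4)
        (l := n - (σ + b)) (κ := n / 8) (θ := n / 400) (d := n / 8 - n / 400) hn (by omega)
        (by omega) (by omega) (by omega) c4 (by omega) (by omega) (by omega) (by omega)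
        (Nat.mul_div_le _ 2) ?_ (Nat.mul_div_le _ 2)
      exact Nat.add_le_of_le_sub (e.trans (by omega)) (Nat.mul_div_le _ 2)
  · have := Nat.mul_div_le X (27 * 10 ^ 12)
    rw [Nat.sub_add_cancel h3]
    omega

end Pool.Agent.Lib.MP_2d211a_co.S64
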