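import Pool.Agent.Lib.MP_2d211a_co.S64AD

/-!
Commutators of large subgroups cover most central involutions.
-/

namespace Pool.Agent.Lib.MP_2d211a_co.S64

open Subgroup
open scoped commutatorElement

variable {G : Type} [Group G]

theorem ah_comm_iff {N : Subgroup G} [N.Normal] {a b : G} :
    ⁅a, b⁆ ∈ N ↔ Commute (QuotientGroup.mk' N a) (QuotientGroup.mk' N b) := by
  rw [← commutatorElement_eq_one_iff_commute, ← map_commutatorElement, QuotientGroup.mk'_apply,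
    QuotientGroup.eq_one_iff]

theorem ah_comm_le (T : Subgroup G) : ⁅T, T⁆ ≤ L G 1 :=
  commutator_le.2 fun a _ b _ => comm_mem_L1 a b

theorem ah_comm_sup (T : Subgroup G) : ⁅T ⊔ L G 1, T ⊔ L G 1⁆ ≤ ⁅T, T⁆ ⊔ L G 2 := by
  have hN : (⁅T, T⁆ ⊔ L G 2).Normal :=
    normal_of_st2_le (R := L G 1) le_sup_right (sup_le (ah_comm_le T) (L_succ_le 1))
  have hc : ∀ f ∈ L G 1, ∀ g : G, Commute (QuotientGroup.mk' (⁅T, T⁆ ⊔ L G 2) f)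
      (QuotientGroup.mk' (⁅T, T⁆ ⊔ L G 2) g) := fun f hf g =>
    ah_comm_iff.1 (mem_sup_right (comm_mem_st2 hf g))
  refine commutator_le.2 fun a ha b hb => ah_comm_iff.2 ?_
  obtain ⟨t, ht, f, hf, rfl⟩ := mem_sup_of_normal_right.1 ha
  obtain ⟨t', ht', f', hf', rfl⟩ := mem_sup_of_normal_right.1 hb
  rw [map_mul]
  refine Commute.mul_left ?_ (hc f hf _)
  rw [map_mul]
  exact Commute.mul_right (ah_comm_iff.1 (mem_sup_left (commutator_mem_commutator ht ht')))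
    (hc f' hf' _).symm

theorem ah_first [Two G] {T : Subgroup G} {r k : ℕ}
    (hr : lg (⊤ : Subgroup G) = lg (L G 1) + r) (hk : lg (L G 1) + k ≤ lg (T ⊔ L G 1)) :
    2 * lg (L G 1) + k * k ≤ 2 * lg (⁅T, T⁆ ⊔ L G 2) + r * r + 2 * r := by
  have h1 := lg_mono (le_top (a := T ⊔ L G 1))
  obtain ⟨τ, hτ⟩ : ∃ τ, lg (T ⊔ L G 1) = lg (L G 1) + τ :=
    ⟨lg (T ⊔ L G 1) - lg (L G 1), by omega⟩
  obtain ⟨q, rfl⟩ : ∃ q, r = τ + q := ⟨r - τ, by omega⟩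
  have hN' : ⁅T, T⁆ ⊔ L G 2 ≤ L G 1 := sup_le (ah_comm_le T) (L_succ_le 1)
  have hc : ⁅L G 1, ⊤⁆ ≤ ⁅T, T⁆ ⊔ L G 2 :=
    le_trans (le_sup_left : ⁅L G 1, ⊤⁆ ≤ st2 (L G 1)) le_sup_right
  have h2 := phi_le (N := ⁅T, T⁆ ⊔ L G 2) (T := L G 1) (U := T ⊔ L G 1) le_sup_right hN' le_rfl
    le_sup_right hc (a := τ) (q := q) hτ.le (by omega)
  have h3 := sq_sup_le (N := ⁅T, T⁆ ⊔ L G 2) (U := T ⊔ L G 1) le_sup_right hN' le_sup_right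
    (ah_comm_sup T) hτ.le
  have h4 : k * k ≤ τ * τ := Nat.mul_le_mul (by omega) (by omega)
  have h5 : (τ + q) * (τ + q) = τ * τ + 2 * τ * q + q * q := by ring
  omega

theorem ah_rest [Two G] {Rb C : Subgroup G} (hR : Rb ≤ L G 1) (hC : C ≤ L G 1) :
    lg (C ⊔ L G 2) + lg Rb + lg (st2 Rb) ≤
      lg (st2 Rb ⊔ Rb ⊓ C) + lg (L G 1) + lg (L G 2) := by
  have hS : st2 Rb ≤ L G 2 := st2_mono hR
  have h1 := lg_sup_normal C (L G 2)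
  have h2 := lg_sup_normal (Rb ⊓ C) (L G 2)
  have h3 : lg (Rb ⊓ C ⊓ L G 2) ≤ lg (C ⊓ L G 2) := lg_mono (inf_le_inf_right _ inf_le_right)
  have h4 := lg_inf_ge hR hC
  have h5 := lg_sup_normal (st2 Rb ⊔ Rb ⊓ C) (L G 2)
  have h6 : lg (Rb ⊓ C ⊔ L G 2) ≤ lg (st2 Rb ⊔ Rb ⊓ C ⊔ L G 2) :=
    lg_mono (sup_le_sup_right le_sup_right _)
  have h7 : lg (st2 Rb) ≤ lg ((st2 Rb ⊔ Rb ⊓ C) ⊓ L G 2) := lg_mono (le_inf le_sup_left hS)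
  omega

theorem lowM_count [Two G] {Rb Q H : Subgroup G} [Rb.Normal] (hR : Rb ≤ L G 1) (hQ : L G 1 ≤ Q)
    (hS : Sims H Rb) {r σ y κ θ : ℕ} (hr : lg (⊤ : Subgroup G) = lg (L G 1) + r)
    (hσ : lg H ≤ lg (L G 1) + σ) (hy : lg (L G 1) ≤ lg Rb + y) (hκ : lg Q = lg (L G 1) + κ) :
    ∃ E, {M : Subgroup G | st2 Rb ≤ M ∧ M ≤ Rb ∧ lg Rb ≤ lg M + 1 ∧ ∃ T : Subgroup G, Rb ≤ T ∧
        T ≤ Q ∧ lg Q ≤ lg T + θ ∧ Rb ⊓ ⁅T, T⁆ ≤ M}.ncard ≤ 2 ^ E ∧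
      2 * E + (κ - θ) * (κ - θ) ≤ 2 * ((κ + y) * θ) + 2 * ((σ + 2) * y) + r * r + 2 * r := by
  have hκr : κ ≤ r := by
    have := lg_mono (le_top (a := Q))
    omega
  have hkk : (κ - θ) * (κ - θ) ≤ r * r := Nat.mul_le_mul (by omega) (by omega)
  obtain ⟨m, hm⟩ : ∃ m, m = (2 * ((σ + 2) * y) + r * r + 2 * r - (κ - θ) * (κ - θ)) / 2 :=
    ⟨_, rfl⟩
  refine ⟨(κ + y) * θ + m, ?_, by omega⟩
  have hRQ : Rb ≤ Q := hR.trans hQ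
  have h1 := sub_count hRQ (m := κ + y) (by omega) θ
  have h2 := mult_sims hR hS hσ hy
  have h3 : (σ + 2) * y = (σ + 1) * y + y := by ring
  have h4 := lg_mono hR
  refine (H60.cover (t := {T : Subgroup G | Rb ≤ T ∧ T ≤ Q ∧ lg Q ≤ lg T + θ}) (Set.toFinite _)
    (fun T => {M : Subgroup G | st2 Rb ⊔ Rb ⊓ ⁅T, T⁆ ≤ M ∧ M ≤ Rb ∧ lg Rb ≤ lg M + 1}) (2 ^ m)
    (fun T hT => ⟨Set.toFinite _, ?_⟩) _ ?_).2.trans ?_
  · refine idx2_count (sup_le (st2_le Rb) inf_le_left) ?_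
    have h5 : lg T ≤ lg (T ⊔ L G 1) := lg_mono le_sup_left
    have h6 : lg (L G 1) ≤ lg (T ⊔ L G 1) := lg_mono le_sup_right
    have h7 := hT.2.2
    have h8 := ah_first (T := T) (k := κ - θ) hr (by omega)
    have h9 := ah_rest hR (ah_comm_le T)
    omega
  · rintro M ⟨a1, a2, a3, T, b1, b2, b3, b4⟩
    exact ⟨T, ⟨b1, b2, b3⟩, sup_le a1 b4, a2, a3⟩
  · rw [pow_add]
    exact Nat.mul_le_mul_right _ h1

end Pool.Agent.Lib.MP_2d211a_co.S64
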