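import Pool.Agent.Lib.MP_2d211a_co.S64AP

/-!
A small subgroup on which no form of high rank vanishes.
-/

namespace Pool.Agent.Lib.MP_2d211a_co.S64

open Subgroup
open scoped commutatorElement

variable {G : Type} [Group G]

/-- The elements that commute with `U` modulo the normal core of `W`. -/
def akC (W U : Subgroup G) : Subgroup G where
  carrier := {h | ∀ u ∈ U, ⁅u, h⁆ ∈ W.normalCore}
  one_mem' := fun u _ => by simp
  mul_mem' := fun {a b} ha hb u hu => by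
    have e : ⁅u, a * b⁆ = ⁅u, a⁆ * (a * ⁅u, b⁆ * a⁻¹) := by
      simp only [commutatorElement_def]; group
    rw [e]
    exact mul_mem (ha u hu) ((normalCore_normal W).conj_mem _ (hb u hu) a)
  inv_mem' := fun {a} ha u hu => by
    have e : ⁅u, a⁻¹⁆ = a⁻¹ * ⁅u, a⁆⁻¹ * a⁻¹⁻¹ := by
      simp only [commutatorElement_def]; group
    rw [e]
    exact (normalCore_normal W).conj_mem _ (inv_mem (ha u hu)) a⁻¹

theorem ak_mem {W U : Subgroup G} [W.Normal] {h : G} :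
    h ∈ akC W U ↔ ∀ u ∈ U, ⁅u, h⁆ ∈ W := by
  show (∀ u ∈ U, ⁅u, h⁆ ∈ W.normalCore) ↔ _
  rw [normalCore_eq_self]

theorem ak_symm {W U V : Subgroup G} (h : V ≤ akC W U) : U ≤ akC W V := fun u hu v hv => by
  have := inv_mem (h hv u hu)
  rwa [commutatorElement_inv] at this

theorem ak_anti (W : Subgroup G) {U V : Subgroup G} (h : U ≤ V) : akC W V ≤ akC W U :=
  fun _ hx u hu => hx u (h hu)

theorem ak_inf (W U V : Subgroup G) : akC W U ⊓ akC W V ≤ akC W (U ⊔ V) :=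
  ak_symm (sup_le (ak_symm inf_le_left) (ak_symm inf_le_right))

theorem ak_normal {W : Subgroup G} (h2 : L G 2 ≤ W) (h1 : W ≤ L G 1) : W.Normal :=
  normal_of_st2_le (R := L G 1) h2 h1

theorem ak_phi {W : Subgroup G} (h2 : L G 2 ≤ W) (h1 : W ≤ L G 1) (U : Subgroup G) :
    L G 1 ≤ akC W U := by
  have := ak_normal h2 h1
  refine ak_symm fun u _ => ak_mem.2 fun y hy => h2 (comm_mem_st2 hy u)

theorem ak_one [Two G] {W : Subgroup G} (h2 : L G 2 ≤ W) (h1 : W ≤ L G 1)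
    (h3 : lg (L G 1) ≤ lg W + 1) (e : G) :
    lg (⊤ : Subgroup G) ≤ lg (akC W (zpowers e)) + 1 := by
  have := ak_normal h2 h1
  let φ : G →* G ⧸ W := MonoidHom.mk' (fun h => QuotientGroup.mk' W ⁅e, h⁆) fun a b => by
    rw [← map_mul, QuotientGroup.mk'_apply, QuotientGroup.mk'_apply, eq_comm, QuotientGroup.eq]
    have e1 : (⁅e, a⁆ * ⁅e, b⁆)⁻¹ * ⁅e, a * b⁆ = ⁅⁅e, b⁆⁻¹, a⁆ := by
      simp only [commutatorElement_def]; group
    rw [e1]
    exact h2 (comm_mem_st2 (inv_mem (comm_mem_L1 e b)) a)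
  have a1 := lg_map φ ⊤
  have a2 : (⊤ : Subgroup G).map φ ≤ (L G 1).map (QuotientGroup.mk' W) := by
    rintro _ ⟨h, -, rfl⟩
    exact mem_map_of_mem _ (comm_mem_L1 e h)
  have a3 := lg_map_of_ker_le (f := QuotientGroup.mk' W) (A := L G 1)
    (by rw [QuotientGroup.ker_mk']; exact h1)
  rw [QuotientGroup.ker_mk'] at a3
  have a4 : φ.ker ⊓ ⊤ ≤ akC W (zpowers e) := by
    refine ak_symm (zpowers_le_of_mem (ak_mem.2 fun k hk => ?_))
    have : ⁅e, k⁆ ∈ W := (QuotientGroup.eq_one_iff _).1 (MonoidHom.mem_ker.1 hk.1)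
    have := inv_mem this
    rwa [commutatorElement_inv] at this
  have := lg_mono a2
  have := lg_mono a4
  omega

theorem ak_step [Two G] {W : Subgroup G} (h2 : L G 2 ≤ W) (h1 : W ≤ L G 1)
    (h3 : lg (L G 1) ≤ lg W + 1) (U : Subgroup G) (e : G) :
    lg (akC W U) ≤ lg (akC W (U ⊔ zpowers e)) + 1 := by
  have a1 := ak_one h2 h1 h3 e
  have a2 := lg_inf_ge (A := akC W U) (C := akC W (zpowers e)) (B := ⊤) le_top le_top
  have a3 := lg_mono (ak_inf W U (zpowers e))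
  omega

theorem ak_chain [Two G] {W : Subgroup G} (h2 : L G 2 ≤ W) (h1 : W ≤ L G 1)
    (h3 : lg (L G 1) ≤ lg W + 1) (d : ℕ) : ∀ V : Subgroup G, L G 1 ≤ V →
      lg (⊤ : Subgroup G) ≤ lg V + d → lg (akC W V) ≤ lg (akC W ⊤) + d := by
  induction d with
  | zero =>
    intro V _ h
    rw [eq_of_lg_le (le_top (a := V)) h]
    exact le_rfl
  | succ d ih =>
    intro V hV h
    by_cases hT : V = ⊤
    · rw [hT]; omega
    obtain ⟨e, -, -, he⟩ := exists_stepA hV (lt_top_iff_ne_top.2 hT)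
    have a1 := ih (V ⊔ zpowers e) (hV.trans le_sup_left) (by omega)
    have a2 := ak_step h2 h1 h3 V e
    omega

theorem ak_high [Two G] {W : Subgroup G} (h2 : L G 2 ≤ W) (h1 : W ≤ L G 1)
    (h3 : lg (L G 1) ≤ lg W + 1) {ρ : ℕ} (h : ¬ Low ρ W) :
    lg (akC W ⊤) + ρ < lg (⊤ : Subgroup G) := by
  have := ak_normal h2 h1
  refine lt_of_not_ge fun h' => h ⟨h2, h1, h3, akC W ⊤, ak_phi h2 h1 _, ?_, h'⟩
  exact commutator_le.2 fun t ht g hg => ak_mem.1 (ak_symm (le_refl (akC W ⊤)) hg) t ht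

theorem ak_phase [Two G] (S : Set (Subgroup G)) {ρ c m' N : ℕ} (hS : S.ncard ≤ 2 ^ N)
    (hW : ∀ W ∈ S, L G 2 ≤ W ∧ W ≤ L G 1 ∧ lg (L G 1) ≤ lg W + 1 ∧ ¬ Low ρ W)
    (h2 : N + c * m' < ρ * m') (i : ℕ) (hi : i ≤ c) :
    ∃ U : Subgroup G, L G 1 ≤ U ∧ lg U ≤ lg (L G 1) + i * m' ∧
      ∀ W ∈ S, lg (akC W U) + i ≤ lg (⊤ : Subgroup G) := by
  induction i with
  | zero => exact ⟨L G 1, le_rfl, by omega, fun W _ => lg_mono le_top⟩
  | succ i ih =>
    obtain ⟨U, hU, hl, hC⟩ := ih (by omega)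
    have hcρ : c < ρ := lt_of_not_ge fun h => by
      have := Nat.mul_le_mul_right m' h
      omega
    obtain ⟨f, hf⟩ := avoid ((fun W => akC W (akC W U)) ''
        {W | W ∈ S ∧ lg (akC W U) + i = lg (⊤ : Subgroup G)}) (c := ρ - c) (m := m') (N := N)
      (((Set.ncard_image_le (Set.toFinite _)).trans
        (Set.ncard_le_ncard (fun W h => h.1) (Set.toFinite _))).trans hS)
      (by
        rintro _ ⟨W, ⟨h, e⟩, rfl⟩
        obtain ⟨b2, b1, b3, b4⟩ := hW W h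
        have a1 := ak_chain b2 b1 b3 i (akC W U) (ak_phi b2 b1 U) e.ge
        have a2 := ak_high b2 b1 b3 b4
        show lg (akC W (akC W U)) + (ρ - c) ≤ _
        omega)
      (by rw [Nat.sub_mul]; omega)
    refine ⟨U ⊔ closure (Set.range f), hU.trans le_sup_left, ?_, fun W h => ?_⟩
    · have := lg_sup_closure hU f
      rw [Fintype.card_fin] at this
      rw [Nat.succ_mul]
      omega
    have a1 := ak_anti W (le_sup_left : U ≤ U ⊔ closure (Set.range f))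
    rcases (hC W h).lt_or_eq with e | e
    · have := lg_mono a1
      omega
    obtain ⟨j, hj⟩ := hf _ ⟨W, ⟨h, e⟩, rfl⟩
    have a2 := lg_lt (lt_of_le_of_ne a1 fun e' => hj
      (ak_symm e'.ge (mem_sup_right (subset_closure ⟨j, rfl⟩))))
    omega

theorem kill [Two G] {R : Subgroup G} (hR : R ≤ L G 1) {ρ c m m' N : ℕ}
    (hN : lg (L G 1) ≤ lg (L G 2 ⊔ R) + N) (h1 : N < c * m) (h2 : N + c * m' < ρ * m') :
    ∃ U : Subgroup G, L G 1 ≤ U ∧ lg U ≤ lg (L G 1) + (c * m' + m) ∧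
      Ylow ρ R ≤ sq U ⊔ L G 2 ⊔ R := by
  let S : Set (Subgroup G) :=
    {W | (L G 2 ⊔ R ≤ W ∧ W ≤ L G 1 ∧ lg (L G 1) ≤ lg W + 1) ∧ ¬ Low ρ W}
  have hS : S.ncard ≤ 2 ^ N := (Set.ncard_le_ncard (fun W h => h.1) (Set.toFinite _)).trans
    (idx2_count (sup_le (L_succ_le 1) hR) hN)
  obtain ⟨U, hU, hl, hC⟩ := ak_phase S hS
    (fun W h => ⟨le_sup_left.trans h.1.1, h.1.2.1, h.1.2.2, h.2⟩) h2 c le_rfl
  obtain ⟨f, hf⟩ := avoid ((fun W => akC W U) '' S) (c := c) (m := m) (N := N)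
    ((Set.ncard_image_le (Set.toFinite _)).trans hS)
    (by rintro _ ⟨W, h, rfl⟩; exact hC W h) h1
  refine ⟨U ⊔ closure (Set.range f), hU.trans le_sup_left, ?_, fun y hy => ?_⟩
  · have := lg_sup_closure hU f
    rw [Fintype.card_fin] at this
    omega
  by_contra hy'
  have hΦ : y ∈ L G 1 := mem_sInf.1 hy _ ⟨⟨L_succ_le 1, le_rfl, by omega, ⊤, le_top,
    commutator_le.2 fun a _ b _ => comm_mem_L1 a b, by omega⟩, hR⟩
  obtain ⟨W, w1, w2, w3, w4⟩ := sepA (A := L G 1)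
    (sup_le (sup_le (sq_le_L1 _) (L_succ_le 1)) hR)
    (fun a ha => mem_sup_left (mem_sup_right (sq_mem_st2 ha))) hΦ hy'
  have b2 : L G 2 ≤ W := (le_sup_right.trans le_sup_left).trans w1
  have bR : R ≤ W := le_sup_right.trans w1
  have hWS : W ∈ S := ⟨⟨sup_le b2 bR, w2, w3⟩, fun h => w4 (mem_sInf.1 hy W ⟨h, bR⟩)⟩
  obtain ⟨j, hj⟩ := hf _ ⟨W, hWS, rfl⟩
  have := ak_normal b2 w2
  refine hj (ak_mem.2 fun u hu => ?_)
  exact ((le_sup_left.trans le_sup_left).trans w1) (comm_le_sq _ (commutator_mem_commutator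
    (mem_sup_left hu) (mem_sup_right (subset_closure ⟨j, rfl⟩))))

end Pool.Agent.Lib.MP_2d211a_co.S64
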