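import Pool.Agent.Lib.MP_2d211a_co.S64AP

/-!
The second layer of the lower exponent-2 central series.
-/

namespace Pool.Agent.Lib.MP_2d211a_co.S64

open Subgroup
open scoped commutatorElement

variable {G : Type} [Group G]

theorem al_comm_L2 {c : G} (hc : c ∈ L G 1) (g : G) : ⁅c, g⁆ ∈ L G 2 := comm_mem_st2 hc g

theorem al_comm_L2' {c : G} (hc : c ∈ L G 1) (g : G) : ⁅g, c⁆ ∈ L G 2 := by
  rw [← commutatorElement_inv]
  exact inv_mem (al_comm_L2 hc g)

theorem al_LL : ⁅L G 1, L G 1⁆ ≤ L G 2 := commutator_le.2 fun _ ha b _ => al_comm_L2 ha b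

theorem al_step [Two G] {N T U : Subgroup G} (hN : L G 2 ≤ N) (hN' : N ≤ L G 1) (hT : L G 1 ≤ T)
    (hU : T ≤ U) (hc : ⁅T, ⊤⁆ ≤ N) {a : ℕ} (ha : lg U ≤ lg T + a) (e : G) :
    lg (sq (U ⊔ zpowers e) ⊔ N) ≤ lg (sq U ⊔ N) + a + 1 := by
  have h0 : sq U ⊔ N ≤ L G 1 := sup_le (sq_le_L1 U) hN'
  have h2 : L G 2 ≤ sq U ⊔ N := hN.trans le_sup_right
  have h1 := hom_step (T := sq U ⊔ N) (B := L G 1) (A := U) (D := T) (fun u => ⁅u, e⁆) h0
    (al_LL.trans h2) (fun u _ => comm_mem_L1 u e) (fun u _ v _ => by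
      have : ⁅u * v, e⁆ * (⁅u, e⁆ * ⁅v, e⁆)⁻¹ = ⁅u, ⁅v, e⁆⁆ * ⁅⁅v, e⁆, ⁅u, e⁆⁆ := by
        simp only [commutatorElement_def]
        group
      rw [this]
      exact h2 (mul_mem (al_comm_L2' (comm_mem_L1 v e) u) (al_comm_L2 (comm_mem_L1 v e) _)))
    hU (fun d hd => mem_sup_right (hc (commutator_mem_commutator hd (mem_top e))))
  set T1 := sq U ⊔ N ⊔ closure ((fun u => ⁅u, e⁆) '' (U : Set G)) with hT1
  have h3 : T1 ≤ L G 1 := sup_le h0 ((closure_le _).2 (by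
    rintro _ ⟨u, _, rfl⟩
    exact comm_mem_L1 u e))
  have h4 : L G 2 ≤ T1 := h2.trans le_sup_left
  have hn : T1.Normal := normal_of_st2_le h4 h3
  have h5 : lg (T1 ⊔ zpowers (e * e)) ≤ lg T1 + 1 :=
    lg_sup_zpowers (by rw [normalizer_eq_top]; exact mem_top _)
      (h4 (sq_mem_st2 (mul_self_mem_L1 e)))
  have hUn : U.Normal := normal_of_L1_le (hT.trans hU)
  have h6 : sq (U ⊔ zpowers e) ⊔ N ≤ T1 ⊔ zpowers (e * e) := by
    refine sup_le (sq_le_iff.2 fun y hy => ?_)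
      ((le_sup_right.trans le_sup_left).trans le_sup_left)
    have hs : ∀ u ∈ U, u * u ∈ T1 ⊔ zpowers (e * e) := fun u hu =>
      mem_sup_left (mem_sup_left (mem_sup_left (mul_self_mem_sq hu)))
    rcases (mem_sup_zpowers (by rw [normalizer_eq_top]; exact mem_top _)
      (hU (hT (mul_self_mem_L1 e)))).1 hy with h | h
    · exact hs y h
    · have : y * y = y * e⁻¹ * (y * e⁻¹) * ⁅(y * e⁻¹)⁻¹, e⁆ * (e * e) := by
        simp only [commutatorElement_def]
        group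
      rw [this]
      exact mul_mem (mul_mem (hs _ h)
        (mem_sup_left (mem_sup_right (subset_closure ⟨_, inv_mem h, rfl⟩))))
        (mem_sup_right (mem_zpowers _))
  have := lg_mono h6
  omega

theorem phi_le [Two G] {N T U : Subgroup G} (hN : L G 2 ≤ N) (hN' : N ≤ L G 1) (hT : L G 1 ≤ T)
    (hU : T ≤ U) (hc : ⁅T, ⊤⁆ ≤ N) {a q : ℕ} (ha : lg U ≤ lg T + a)
    (hq : lg (⊤ : Subgroup G) ≤ lg U + q) :
    2 * lg (L G 1) ≤ 2 * lg (sq U ⊔ N) + q + 2 * a * q + q * q := by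
  have htop : lg (L G 1) ≤ lg (sq (⊤ : Subgroup G) ⊔ N) := lg_mono (L1_eq.le.trans le_sup_left)
  induction q generalizing U a with
  | zero =>
    obtain rfl : U = ⊤ := eq_of_lg_le le_top hq
    omega
  | succ q ih =>
    rcases eq_or_lt_of_le (le_top : U ≤ ⊤) with rfl | h
    · omega
    · obtain ⟨e, -, -, he⟩ := exists_stepA (hT.trans hU) h
      have h1 := ih (U := U ⊔ zpowers e) (a := a + 1) (hU.trans le_sup_left) (by omega) (by omega)
      have h2 := al_step hN hN' hT hU hc ha e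
      nlinarith

theorem sq_sup_le [Two G] {N U : Subgroup G} (hN : L G 2 ≤ N) (hN' : N ≤ L G 1) (hU : L G 1 ≤ U)
    (hc : ⁅U, U⁆ ≤ N) {τ : ℕ} (h : lg U ≤ lg (L G 1) + τ) : lg (sq U ⊔ N) ≤ lg N + τ := by
  have hn : N.Normal := normal_of_st2_le hN hN'
  have h1 := hom_step (T := N) (B := L G 1) (A := U) (D := L G 1) (fun u => u * u) hN'
    (al_LL.trans hN) (fun u _ => mul_self_mem_L1 u) (fun u hu v hv => by
      have : u * v * (u * v) * (u * u * (v * v))⁻¹ = u * ⁅v, u⁆ * u⁻¹ := by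
        simp only [commutatorElement_def]
        group
      rw [this]
      exact hn.conj_mem _ (hc (commutator_mem_commutator hv hu)) u)
    hU (fun d hd => hN (sq_mem_st2 hd))
  have h2 : sq U ⊔ N ≤ N ⊔ closure ((fun u => u * u) '' (U : Set G)) :=
    sup_le (sq_le_iff.2 fun y hy => mem_sup_right (subset_closure ⟨y, hy, rfl⟩)) le_sup_left
  have := lg_mono h2
  omega

theorem L1_le_L2 [Two G] {r : ℕ} (hr : lg (⊤ : Subgroup G) ≤ lg (L G 1) + r) :
    2 * lg (L G 1) ≤ 2 * lg (L G 2) + r + r * r := by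
  have h := phi_le (N := L G 2) (T := L G 1) (U := L G 1) (a := 0) le_rfl (L_succ_le 1) le_rfl
    le_rfl le_sup_left le_rfl hr
  have h2 : sq (L G 1) ⊔ L G 2 = L G 2 := sup_eq_right.2 (sq_le_st2 _)
  rw [h2] at h
  omega

end Pool.Agent.Lib.MP_2d211a_co.S64
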