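import Mathlib

/-!
The inequality of Sims with stability.
-/

namespace Pool.Agent.Lib.MP_2d211a_co.S64

lemma an_unit (x y : ℝ) (hy : 0 ≤ y) (hyx : y ≤ x) (h1 : x + y ≤ 1) :
    y * (51 / 100 - x) - y ^ 2 * (1 - x) / 2 ≤ (x - 2 / 3) ^ 2 * (x / 2 + 17 / 120) := by
  have hx : 0 ≤ x := hy.trans hyx
  have hb : 0 ≤ 1 - x := by linarith
  rcases le_total (51 / 100) x with h | h
  · have a1 := mul_nonneg hy (sub_nonneg.2 h)
    have a2 := mul_nonneg (sq_nonneg y) hb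
    have a3 : 0 ≤ (x - 2 / 3) ^ 2 * (x / 2 + 17 / 120) := by positivity
    nlinarith
  · rcases le_total (3 / 10) x with h' | h'
    · have a1 := mul_nonneg (sq_nonneg (y - (3 / 4 - 7 / 5 * x))) hb
      have a2 : 0 ≤ 6 / 25 - 23 / 20 * x + 7 / 5 * x ^ 2 := by nlinarith [sq_nonneg (x - 23 / 56)]
      have a3 := mul_nonneg hy a2
      have a4 : (3 / 4 - 7 / 5 * x) ^ 2 * (1 - x) / 2 ≤ (x - 2 / 3) ^ 2 * (x / 2 + 17 / 120) := by
        nlinarith [mul_nonneg (sub_nonneg.2 h') (sub_nonneg.2 h),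
          mul_nonneg (mul_nonneg (sub_nonneg.2 h') (sub_nonneg.2 h)) (sub_nonneg.2 h),
          mul_nonneg (mul_nonneg (sub_nonneg.2 h') (sub_nonneg.2 h')) (sub_nonneg.2 h)]
      nlinarith
    · have a1 := mul_nonneg (sq_nonneg (y - 3 / 10)) hb
      have a2 := mul_nonneg (sub_nonneg.2 hyx) (sub_nonneg.2 h')
      have a4 : 9 / 200 * (1 - x) + x * (21 / 100 - 7 / 10 * x) ≤
          (x - 2 / 3) ^ 2 * (x / 2 + 17 / 120) := by
        nlinarith [mul_nonneg hx (sq_nonneg (x - 1 / 5)), sq_nonneg (x - 1 / 5),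
          mul_nonneg hx (sub_nonneg.2 h')]
      nlinarith

lemma an_key (n r s : ℝ) (hn : 0 < n) (hs : 0 ≤ s) (hsr : s ≤ r) (h1 : r + s ≤ n) :
    (n - r - s) * (r ^ 2 + s * (n - r)) / 2 + n ^ 2 * s / 100 + n * (r - 2 * n / 3) ^ 2 / 40 ≤
      2 * n ^ 3 / 27 := by
  obtain ⟨x, rfl⟩ : ∃ x, r = n * x := ⟨r / n, by field_simp⟩
  obtain ⟨y, rfl⟩ : ∃ y, s = n * y := ⟨s / n, by field_simp⟩
  have hy : 0 ≤ y := le_of_mul_le_mul_left (by linarith) hn
  have hyx : y ≤ x := le_of_mul_le_mul_left hsr hn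
  have hxy : x + y ≤ 1 := le_of_mul_le_mul_left (by linarith) hn
  have h := mul_le_mul_of_nonneg_left (an_unit x y hy hyx hxy) (pow_pos hn 3).le
  linarith

lemma an_real (n r z t s k ρ E : ℝ) (hn : 10 ^ 13 ≤ n) (hr : 0 ≤ r) (ht : 0 ≤ t) (hs : 0 ≤ s)
    (hk0 : 0 ≤ k) (hρ0 : 0 ≤ ρ) (hsum : r + z + t = n) (hsr : s ≤ r) (hsz : s ≤ z)
    (hk : 10 ^ 12 * k ≤ n) (hρ : 10 ^ 12 * ρ ≤ n)
    (hE : 2 * E + t * (s * s) ≤ 2 * ((r * ρ + r + ρ * ρ + ρ) * n) +
      t * (r * r + r + 2 * (k + 1) * n + 2 * s * z + s) + (k + s + 1) * t * t)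
    (hd : n / 20000 ≤ |r - 2 * n / 3| ∨ n / (2 * 10 ^ 8) * 1.9 ≤ s) :
    27 * 10 ^ 12 * (E + 6 * n) + 27 * 50 * n ^ 3 ≤ 2 * 10 ^ 12 * n ^ 3 := by
  have hn0 : 0 < n := by linarith [show (0 : ℝ) < 10 ^ 13 by positivity]
  have hz : 0 ≤ z := hs.trans hsz
  have hrn : r ≤ n := by linarith
  have htn : t ≤ n := by linarith
  have hsn : s ≤ n := by linarith
  have hρn : ρ ≤ n := by linarith
  have key := an_key n r s hn0 hs hsr (by linarith)
  have hmain : t * (r * r + 2 * s * z - s * s + s * t) ≤ (n - r - s) * (r ^ 2 + s * (n - r)) := by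
    have a1 : 0 ≤ (z - s) * (r ^ 2 + s ^ 2 + s * (z - s)) :=
      mul_nonneg (sub_nonneg.2 hsz) (by have := sub_nonneg.2 hsz; positivity)
    have e1 : n - r - s = t + (z - s) := by linarith
    have e2 : n - r = z + t := by linarith
    rw [e1, e2]
    linarith
  have hdef : 62 * n ^ 3 ≤ 10 ^ 12 * (n ^ 2 * s / 100 + n * (r - 2 * n / 3) ^ 2 / 40) := by
    rcases hd with h | h
    · have a1 : (n / 20000) ^ 2 ≤ (r - 2 * n / 3) ^ 2 := by
        rw [← sq_abs (r - 2 * n / 3)]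
        exact pow_le_pow_left₀ (by positivity) h 2
      have a2 := mul_le_mul_of_nonneg_left a1 hn0.le
      have a3 : 0 ≤ n ^ 2 * s := by positivity
      have a4 : 0 ≤ n ^ 3 := by positivity
      linarith
    · have a2 := mul_le_mul_of_nonneg_left h (sq_nonneg n)
      have a3 : 0 ≤ n * (r - 2 * n / 3) ^ 2 := by positivity
      have a4 : 0 ≤ n ^ 3 := by positivity
      linarith
  have b1 : r * (10 ^ 12 * ρ) * n ≤ n * n * n := by gcongr
  have b2 : ρ * (10 ^ 12 * ρ) * n ≤ n * n * n := by gcongr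
  have b3 : t * (10 ^ 12 * k) * n ≤ n * n * n := by gcongr
  have b4 : (10 ^ 12 * k) * t * t ≤ n * n * n := by gcongr
  have c1 : r * n ≤ n * n := by gcongr
  have c2 : ρ * n ≤ n * n := by gcongr
  have c3 : t * r ≤ n * n := by gcongr
  have c4 : t * n ≤ n * n := by gcongr
  have c5 : t * s ≤ n * n := by gcongr
  have c6 : t * t ≤ n * n := by gcongr
  have c7 : 1 * n ≤ n * n := by gcongr; linarith [show (1 : ℝ) ≤ 10 ^ 13 by norm_num]
  have c8 : 10 ^ 13 * (n * n) ≤ n * (n * n) := by gcongr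
  have a4 : 0 ≤ n ^ 3 := by positivity
  linarith

theorem sims_num : ∃ n0 : ℕ, ∀ n ≥ n0, ∀ r z t s k ρ E : ℕ, r + z + t = n → s = min r z →
    k ≤ n / 10 ^ 12 → ρ ≤ n / 10 ^ 12 →
    2 * E + t * (s * s) ≤ 2 * ((r * ρ + r + ρ * ρ + ρ) * n) +
      t * (r * r + r + 2 * (k + 1) * n + 2 * s * z + s) + (k + s + 1) * t * t →
    (40003 * n < 60000 * r ∨ 60000 * r < 39997 * n ∨ n / 10 ^ 8 < k + z) →
    27 * 10 ^ 12 * (E + 6 * n) + 27 * 50 * n ^ 3 ≤ 2 * 10 ^ 12 * n ^ 3 := by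
  refine ⟨10 ^ 13, fun n hn r z t s k ρ E hsum hs hk hρ hE hd => ?_⟩
  have hk' : 10 ^ 12 * k ≤ n := by omega
  have hρ' : 10 ^ 12 * ρ ≤ n := by omega
  have hsr : s ≤ r := by omega
  have hsz : s ≤ z := by omega
  have hd' : 40003 * n ≤ 60000 * r ∨ 60000 * r ≤ 39997 * n ∨ 19 * n ≤ 2 * 10 ^ 9 * s := by omega
  have h := an_real n r z t s k ρ E (by exact_mod_cast hn) (Nat.cast_nonneg _) (Nat.cast_nonneg _)
    (Nat.cast_nonneg _) (Nat.cast_nonneg _) (Nat.cast_nonneg _) (by exact_mod_cast hsum)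
    (by exact_mod_cast hsr) (by exact_mod_cast hsz) (by exact_mod_cast hk')
    (by exact_mod_cast hρ') (by exact_mod_cast hE) (by
      rcases hd' with h | h | h
      · have h' : (40003 : ℝ) * n ≤ 60000 * r := by exact_mod_cast h
        exact Or.inl (le_abs.2 (Or.inl (by linarith)))
      · have h' : (60000 : ℝ) * r ≤ 39997 * n := by exact_mod_cast h
        exact Or.inl (le_abs.2 (Or.inr (by linarith)))
      · have h' : (19 : ℝ) * n ≤ 2 * 10 ^ 9 * s := by exact_mod_cast h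
        exact Or.inr (by linarith))
  exact_mod_cast h

end Pool.Agent.Lib.MP_2d211a_co.S64
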