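import Pool.Agent.Lib.MP_2d211a_co.S64AO1

/-!
Almost all groups of order 2 ^ n are generic.
-/

namespace Pool.Agent.Lib.MP_2d211a_co.S64

open Subgroup
open scoped commutatorElement

variable {G : Type} [Group G]

theorem ao_le {d n E : ℕ} {B : Set GrpCat.{0}} (hd : 40 ≤ d) (h : Small d n B)
    (hE : E = (2 * 10 ^ 12 - 27 * 40) * n ^ 3 / (27 * 10 ^ 12)) : (H60.cl '' B).ncard ≤ 2 ^ E := by
  obtain ⟨E', h1, h2⟩ := h
  refine h1.trans (Nat.pow_le_pow_right two_pos ?_)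
  have h3 : 27 * 40 * n ^ 3 ≤ 27 * d * n ^ 3 := Nat.mul_le_mul_right _ (by omega)
  generalize n ^ 3 = c at h2 h3 hE
  generalize 27 * d * c = u at h2 h3
  omega

theorem ao_num {n r s C E : ℕ} (hn : 10 ^ 11 ≤ n) (hs : s = n / 3) (hr : r + 1 + s = n)
    (hC : C * 2 = (r + 1) * r) (hE : E = (2 * 10 ^ 12 - 27 * 40) * n ^ 3 / (27 * 10 ^ 12)) :
    E + 3 + n ^ 3 / 10 ^ 11 + n * n ≤ s * C := by
  obtain ⟨k, rfl⟩ : ∃ k, n = k + 2 := ⟨n - 2, by omega⟩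
  have a4 : k * ((2 * k + 4) * (2 * k + 1)) ≤ 3 * s * (3 * (r + 1) * (3 * r)) :=
    Nat.mul_le_mul (by omega) (Nat.mul_le_mul (by omega) (by omega))
  have a5 : 3 * s * (3 * (r + 1) * (3 * r)) = 54 * (s * C) := by
    linear_combination (27 * s) * hC.symm
  have a6 : k * ((2 * k + 4) * (2 * k + 1)) + 14 * ((k + 2) * (k + 2))
      = 4 * (k + 2) ^ 3 + 12 * (k + 2) := by ring
  have a7 : 10 ^ 11 * ((k + 2) * (k + 2)) ≤ (k + 2) ^ 3 :=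
    (Nat.mul_le_mul_right _ hn).trans_eq (by ring)
  have a8 : 2 * 2 ≤ (k + 2) * (k + 2) := Nat.mul_le_mul (by omega) (by omega)
  rw [a5] at a4
  generalize (k + 2) ^ 3 = c at *
  generalize (k + 2) * (k + 2) = q at *
  generalize k * ((2 * k + 4) * (2 * k + 1)) = u at *
  generalize s * C = v at *
  omega

theorem count_bad : ∃ K n0 : ℕ, 0 < K ∧ ∀ n ≥ n0,
    (H60.cl '' {F | Nat.card F = 2 ^ n ∧ ¬Generic n F}).ncard * 2 ^ (n ^ 3 / K) ≤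
      (H60.cl '' {F | Nat.card F = 2 ^ n}).ncard := by
  obtain ⟨n1, h1⟩ := not_NG_small
  obtain ⟨n2, h2⟩ := ov_small
  obtain ⟨n3, h3⟩ := yy_small
  obtain ⟨n4, h4⟩ := mv_small
  obtain ⟨n5, h5⟩ := fx_small
  obtain ⟨n6, h6⟩ := hi_small
  refine ⟨10 ^ 11, n1 + n2 + n3 + n4 + n5 + n6 + 10 ^ 11, by norm_num, fun n hn => ?_⟩
  obtain ⟨E, hE⟩ : ∃ E, E = (2 * 10 ^ 12 - 27 * 40) * n ^ 3 / (27 * 10 ^ 12) := ⟨_, rfl⟩
  have b1 := ao_le (by norm_num) (h1 n (by omega)) hE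
  have b2 := ao_le le_rfl (h2 n (by omega)) hE
  have b3 := ao_le le_rfl (h3 n (by omega)) hE
  have b4 := ao_le le_rfl (h4 n (by omega)) hE
  have b5 := ao_le le_rfl (h5 n (by omega)) hE
  have b6 := ao_le le_rfl (h6 n (by omega)) hE
  have key : ∀ B1 B2 B3 B4 B5 B6 B : Set GrpCat.{0}, (H60.cl '' B1).ncard ≤ 2 ^ E →
      (H60.cl '' B2).ncard ≤ 2 ^ E → (H60.cl '' B3).ncard ≤ 2 ^ E → (H60.cl '' B4).ncard ≤ 2 ^ E →
      (H60.cl '' B5).ncard ≤ 2 ^ E → (H60.cl '' B6).ncard ≤ 2 ^ E →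
      B ⊆ B1 ∪ B2 ∪ B3 ∪ B4 ∪ B5 ∪ B6 →
      B1 ∪ B2 ∪ B3 ∪ B4 ∪ B5 ∪ B6 ⊆ {F | Nat.card F = 2 ^ n} →
      (H60.cl '' B).ncard ≤ 2 ^ (E + 3) := by
    intro B1 B2 B3 B4 B5 B6 B c1 c2 c3 c4 c5 c6 hB hF
    have d0 := Set.ncard_le_ncard (Set.image_mono (f := H60.cl) hB)
      ((H60.all_fin Nat.prime_two n).subset (Set.image_mono hF))
    simp only [Set.image_union] at d0
    have d1 := Set.ncard_union_le (H60.cl '' B1) (H60.cl '' B2)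
    have d2 := Set.ncard_union_le (H60.cl '' B1 ∪ H60.cl '' B2) (H60.cl '' B3)
    have d3 := Set.ncard_union_le (H60.cl '' B1 ∪ H60.cl '' B2 ∪ H60.cl '' B3) (H60.cl '' B4)
    have d4 := Set.ncard_union_le (H60.cl '' B1 ∪ H60.cl '' B2 ∪ H60.cl '' B3 ∪ H60.cl '' B4)
      (H60.cl '' B5)
    have d5 := Set.ncard_union_le
      (H60.cl '' B1 ∪ H60.cl '' B2 ∪ H60.cl '' B3 ∪ H60.cl '' B4 ∪ H60.cl '' B5) (H60.cl '' B6)
    rw [pow_add]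
    omega
  have hb := key _ _ _ _ _ _ {F | Nat.card F = 2 ^ n ∧ ¬Generic n F} b1 b2 b3 b4 b5 b6 (by
    rintro F ⟨hF, hg⟩
    by_contra hc
    simp only [Set.mem_union, Set.mem_ofPred_eq, not_or, not_and, not_not] at hc
    obtain ⟨⟨⟨⟨⟨c1, c2⟩, c3⟩, c4⟩, c5⟩, c6⟩ := hc
    have ng := c1 hF
    refine hg ⟨?_, c2 hF, c3 hF ng, c4 hF ng, c5 hF ng, c6 hF ng (c3 hF ng)⟩
    have := Two.of_card hF
    obtain ⟨r, H, e1, e2, -⟩ := ng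
    rw [index_le_iff]
    omega) (by
    rintro F (((((h | h) | h) | h) | h) | h) <;> exact h.1)
  obtain ⟨s, hs⟩ : ∃ s, s = n / 3 := ⟨_, rfl⟩
  obtain ⟨r, hr⟩ : ∃ r, r + 1 + s = n := ⟨n - s - 1, by omega⟩
  have e3 := H60.hig_le Nat.prime_two (r + 1) s
  have e4 := H60.card_Tri (r + 1)
  rw [hr] at e3
  rw [Nat.add_sub_cancel] at e4
  have e5 := ao_num (by omega) hs hr e4 hE
  refine Nat.le_of_mul_le_mul_right (le_trans ?_ e3) (pow_pos two_pos _)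
  refine le_trans ?_ (Nat.pow_le_pow_right two_pos e5)
  rw [pow_add 2 (_ + _ / _), pow_add 2 (E + 3)]
  exact Nat.mul_le_mul_right _ (Nat.mul_le_mul_right _ hb)

end Pool.Agent.Lib.MP_2d211a_co.S64
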