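import Pool.Agent.Lib.MP_2d211a_co.S64AV1

/-!
Automorphisms move little of the Frattini quotient.
-/

namespace Pool.Agent.Lib.MP_2d211a_co.S64

open Subgroup
open scoped commutatorElement

variable {G : Type} [Group G]

theorem av_cnt {α δ : Type} [Finite δ] (s : Set α) (r : α → δ → Prop) (ex : ∀ a ∈ s, ∃ d, r a d)
    (un : ∀ a ∈ s, ∀ b ∈ s, ∀ d, r a d → r b d → a = b) : s.ncard ≤ Nat.card δ := by
  choose f hf using ex
  rw [← Nat.card_coe_set_eq]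
  exact Nat.card_le_card_of_injective (fun a : s => f a.1 a.2) fun a b e =>
    Subtype.ext (un _ a.2 _ b.2 _ (hf _ a.2) ((show f a.1 a.2 = f b.1 b.2 from e) ▸ hf _ b.2))

theorem av_small {n : ℕ} (hn : 7 ≤ n) (B : Set GrpCat.{0}) (B' : ℕ → ℕ → ℕ → Set GrpCat.{0})
    (hB : ∀ F ∈ B, Nat.card F = 2 ^ n ∧ ∃ a ≤ n, ∃ b ≤ n, ∃ c ≤ n, F ∈ B' a b c)
    (h : ∀ a b c, (B ∩ B' a b c).Nonempty → ∃ E, (H60.cl '' (B ∩ B' a b c)).ncard ≤ 2 ^ E ∧
      27 * 10 ^ 12 * (E + 3 * n) + 27 * 40 * n ^ 3 ≤ 2 * 10 ^ 12 * n ^ 3) : Small 40 n B := by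
  have h1 : 49 * n ≤ n ^ 3 := by
    rw [pow_succ]
    exact Nat.mul_le_mul_right _ (Nat.pow_le_pow_left hn 2)
  refine ⟨(2 * 10 ^ 12 - 27 * 40) * n ^ 3 / (27 * 10 ^ 12) - 3 * n + 3 * n,
    params B B' hB fun a _ b _ c _ => ?_, ?_⟩
  · rcases (B ∩ B' a b c).eq_empty_or_nonempty with e | e
    · simp [e]
    · obtain ⟨E, h2, h3⟩ := h a b c e
      refine h2.trans (Nat.pow_le_pow_right two_pos ?_)
      generalize n ^ 3 = N at *
      omega
  · generalize n ^ 3 = N at *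
    omega

/-- The index type of the generators. -/
abbrev avI (σ p q : ℕ) : Type := (Fin σ ⊕ Fin p) ⊕ (Fin p ⊕ Fin q)

/-- The generators that form the Sims set. -/
abbrev avS (σ p q : ℕ) : Fin σ → avI σ p q := fun k => .inl (.inl k)

/-- The relators that are read off. -/
def avC {σ p q : ℕ} (x : avI σ p q → G) :
    avI σ p q ⊕ avI σ p q × (Fin σ ⊕ Fin p) ⊕ H60.Tri q → G
  | .inl i => x i * x i
  | .inr (.inl u) => ⁅x u.1, x (.inl u.2)⁆
  | .inr (.inr u) => ⁅x (.inr (.inr u.1.1)), x (.inr (.inr u.1.2))⁆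

/-- One half of the uniqueness. -/
theorem av_le [Two G] {σ p q l : ℕ} {x : avI σ p q → G} (hx : closure (Set.range x) = ⊤)
    {F F' : Type} [Group F] [Group F'] {π : G →* F} {π' : G →* F'} (hR : π.ker ≤ L G 1)
    (h0 : π.ker ⊓ Ks x (avS σ p q) = π'.ker ⊓ Ks x (avS σ p q)) {h : _ → G}
    (hh : ∀ u, h u ∈ Ks x (avS σ p q)) (h1 : ∀ u, avC x u * (h u)⁻¹ ∈ π.ker)
    (h2 : ∀ u, avC x u * (h u)⁻¹ ∈ π'.ker) {k : Fin l → G}
    (hk : π.ker ⊓ Ks x (avS σ p q) ⊔ closure (Set.range k) = Ks x (avS σ p q))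
    (a : Fin p → MulAut F) (a' : Fin p → MulAut F')
    (v : ∀ j, a j (π (x (.inl (.inr j)))) = π (x (.inr (.inl j))))
    (v' : ∀ j, a' j (π' (x (.inl (.inr j)))) = π' (x (.inr (.inl j))))
    (hu : ∀ j i, ∃ u, a j (π u) = π (x i) ∧ a' j (π' u) = π' (x i))
    (hb : ∀ j i, ∃ b ∈ Ks x (avS σ p q), a j (π (k i)) = π b ∧ a' j (π' (k i)) = π' b) :
    π.ker ≤ π'.ker := by
  set K := Ks x (avS σ p q) with hK
  have c0 : ∀ u, avC x u ∈ K ⊔ π.ker ⊓ π'.ker := fun u => by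
    rw [← inv_mul_cancel_right (avC x u) (h u)]
    exact mul_mem (mem_sup_right ⟨h1 u, h2 u⟩) (mem_sup_left (hh u))
  have hN : (K ⊔ π.ker ⊓ π'.ker).Normal :=
    ks_normal hx _ fun i j => c0 (.inr (.inl (i, .inl j)))
  have sw : ∀ {g g' : G}, ⁅g, g'⁆ ∈ K ⊔ π.ker ⊓ π'.ker → ⁅g', g⁆ ∈ K ⊔ π.ker ⊓ π'.ker :=
    fun e => by rw [← commutatorElement_inv]; exact inv_mem e
  have c1 : ∀ i j, ⁅x i, x (.inl j)⁆ ∈ K ⊔ π.ker ⊓ π'.ker := fun i j => c0 (.inr (.inl (i, j)))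
  have c2 : ∀ j, ∀ g ∈ K, ∃ b ∈ K, a j (π g) = π b ∧ a' j (π' g) = π' b := fun j => by
    let W : Subgroup G :=
      { carrier := {g | ∃ b ∈ K, a j (π g) = π b ∧ a' j (π' g) = π' b}
        one_mem' := ⟨1, one_mem _, by simp, by simp⟩
        mul_mem' := fun ⟨b, e, e1, e2⟩ ⟨c, f, f1, f2⟩ =>
          ⟨b * c, mul_mem e f, by simp [e1, f1], by simp [e2, f2]⟩
        inv_mem' := fun ⟨b, e, e1, e2⟩ => ⟨b⁻¹, inv_mem e, by simp [e1], by simp [e2]⟩ }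
    have : K ≤ W := hk.ge.trans (sup_le (fun g hg => ⟨1, one_mem _,
      by rw [MonoidHom.mem_ker.1 hg.1]; simp, by rw [MonoidHom.mem_ker.1 (h0.le hg).1]; simp⟩)
      ((closure_le _).2 (Set.range_subset_iff.2 (hb j))))
    exact this
  have c3 : ∀ j i, ⁅x (.inr (.inl j)), x i⁆ ∈ K ⊔ π.ker ⊓ π'.ker := fun j i => by
    obtain ⟨u, u1, u2⟩ := hu j i
    obtain ⟨g, hg, d, hd, e⟩ := mem_sup_of_normal_right.1
      (central_of_gens hx (fun i => sw (c1 i (.inr j))) u)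
    obtain ⟨b, hb, b1, b2⟩ := c2 j g hg
    rw [← inv_mul_cancel_right ⁅x _, x i⁆ b]
    refine mul_mem (mem_sup_right ⟨MonoidHom.mem_ker.2 ?_, MonoidHom.mem_ker.2 ?_⟩)
      (mem_sup_left hb)
    · rw [map_mul, map_inv, ← b1, map_commutatorElement, ← v, ← u1, ← map_commutatorElement,
        ← map_commutatorElement, ← e, map_mul, MonoidHom.mem_ker.1 hd.1, mul_one, mul_inv_cancel]
    · rw [map_mul, map_inv, ← b2, map_commutatorElement, ← v', ← u2, ← map_commutatorElement,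
        ← map_commutatorElement, ← e, map_mul, MonoidHom.mem_ker.1 hd.2, mul_one, mul_inv_cancel]
  have c4 : L G 1 ≤ K ⊔ π.ker ⊓ π'.ker := L1_le_of_gens hx (fun i => c0 (.inl i)) (by
    rintro (i | i | i) (j | j | j)
    · exact c1 _ _
    · exact sw (c1 _ _)
    · exact sw (c1 _ _)
    · exact c1 _ _
    · exact c3 _ _
    · exact c3 _ _
    · exact c1 _ _
    · exact sw (c3 _ _)
    · rcases lt_trichotomy i j with e | rfl | e
      · exact c0 (.inr (.inr ⟨(i, j), e⟩))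
      · rw [commutatorElement_self]; exact one_mem _
      · exact sw (c0 (.inr (.inr ⟨(j, i), e⟩))))
  exact (le_inf le_rfl (hR.trans c4)).trans (inf_le_of_inf_eq h0)

/-- The family of kernels. -/
def avF {σ p q : ℕ} (x : avI σ p q → G) (t l : ℕ) : Set (Subgroup G) :=
  {R | Mk x (avS σ p q) l R ∧ ∃ (F : Type) (_ : Group F) (π : G →* F) (a : Fin t → MulAut F)
    (idx : Fin p → Fin t), Function.Surjective π ∧ π.ker = R ∧
      ∀ j, a (idx j) (π (x (.inl (.inr j)))) = π (x (.inr (.inl j)))}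

theorem av_cell [Two G] {σ p q t l : ℕ} {x : avI σ p q → G} (hx : closure (Set.range x) = ⊤)
    (R₀ : Subgroup G) (h : _ → G) (hh : ∀ u, h u ∈ Ks x (avS σ p q)) :
    {R ∈ avF x t l | R ⊓ Ks x (avS σ p q) = R₀ ∧ ∀ u, avC x u * (h u)⁻¹ ∈ R}.ncard ≤
      2 ^ (t * p + ((σ + p + (p + q)) + l) * (t * (σ + p + (p + q))) + l * (t * l)) := by
  classical
  set K := Ks x (avS σ p q) with hK
  have KL : K ≤ L G 1 := sq_le_L1 _
  rcases Set.eq_empty_or_nonempty {R ∈ avF x t l | R ⊓ K = R₀ ∧ ∀ u, avC x u * (h u)⁻¹ ∈ R} with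
    e | ⟨R₁, ⟨m1, -⟩, r1, -⟩
  · rw [e, Set.ncard_empty]
    exact Nat.zero_le _
  have := m1.nor
  have RK : R₀ ≤ K := r1 ▸ inf_le_right
  have lK : lg K = lg R₀ + l := by
    have e1 := lg_sup_normal K R₁
    have e2 := m1.lgR
    rw [le_antisymm (sup_le KL m1.le) m1.sims, inf_comm, r1] at e1
    omega
  obtain ⟨k, k1, k2⟩ := gen_rel RK lK.le
  have cK : Nat.card (K ⧸ R₀.subgroupOf K) = 2 ^ l := by
    have := relIndex_eq R₀ K
    rw [inf_eq_left.2 RK, lK, Nat.add_sub_cancel_left] at this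
    exact this
  have cI : Fintype.card (avI σ p q) = σ + p + (p + q) := by simp
  have cG : Nat.card (G ⧸ L G 1) ≤ 2 ^ (σ + p + (p + q)) := index_le_iff.2 (cI ▸ rank_le hx)
  refine (av_cnt (δ := (Fin p → Fin t) × (Fin t × avI σ p q → (G ⧸ L G 1) × (K ⧸ R₀.subgroupOf K)) ×
    (Fin t × Fin l → K ⧸ R₀.subgroupOf K)) _
    (fun R d => ∃ (F : Type) (_ : Group F) (π : G →* F) (a : Fin t → MulAut F), π.ker = R ∧
      (∀ j, a (d.1 j) (π (x (.inl (.inr j)))) = π (x (.inr (.inl j)))) ∧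
      (∀ τ i, a τ (π ((d.2.1 (τ, i)).1.out * (d.2.1 (τ, i)).2.out)) = π (x i)) ∧
      ∀ τ i, a τ (π (k i)) = π (d.2.2 (τ, i)).out) ?_ ?_).trans ?_
  · rintro _ ⟨⟨m, F, _, π, a, idx, hπ, rfl, hv⟩, r, -⟩
    have e1 : ∀ g ∈ L G 1, ∃ c : K ⧸ R₀.subgroupOf K, π c.out = π g := fun g hg => by
      obtain ⟨b, hb, d, hd, rfl⟩ := mem_sup_of_normal_right.1 (m.sims hg)
      refine ⟨(⟨b, hb⟩ : K), ?_⟩
      have e : (((⟨b, hb⟩ : K) : K ⧸ R₀.subgroupOf K).out : G)⁻¹ * b ∈ R₀ :=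
        mem_subgroupOf.1
          (QuotientGroup.eq.1 (QuotientGroup.out_eq' ((⟨b, hb⟩ : K) : K ⧸ R₀.subgroupOf K)))
      have e' := MonoidHom.mem_ker.1 (r.ge e).1
      rw [map_mul, map_inv, inv_mul_eq_one] at e'
      rw [e', map_mul, MonoidHom.mem_ker.1 hd, mul_one]
    have e2 : ∀ g, ∃ c : (G ⧸ L G 1) × (K ⧸ R₀.subgroupOf K), π (c.1.out * c.2.out) = π g :=
      fun g => by
        obtain ⟨c, hc⟩ := e1 _ (QuotientGroup.eq.1 (QuotientGroup.out_eq' (g : G ⧸ L G 1)))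
        exact ⟨(g, c), by rw [map_mul, hc, ← map_mul, mul_inv_cancel_left]⟩
    have e3 : ∀ u : Fin t × avI σ p q, ∃ c : (G ⧸ L G 1) × (K ⧸ R₀.subgroupOf K),
        a u.1 (π (c.1.out * c.2.out)) = π (x u.2) := fun u => by
      obtain ⟨g, hg⟩ := hπ ((a u.1).symm (π (x u.2)))
      obtain ⟨c, hc⟩ := e2 g
      exact ⟨c, by rw [hc, hg, MulEquiv.apply_symm_apply]⟩
    have e4 : ∀ u : Fin t × Fin l, ∃ c : K ⧸ R₀.subgroupOf K, a u.1 (π (k u.2)) = π c.out :=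
      fun u => by
        have : a u.1 (π (k u.2)) ∈ L F 1 := L_map_le (a u.1).toMonoidHom 1
          (mem_map_of_mem _ (L_map_le π 1 (mem_map_of_mem π (KL (k1 _)))))
        rw [← L_map π hπ] at this
        obtain ⟨g, hg, e⟩ := this
        obtain ⟨c, hc⟩ := e1 g hg
        exact ⟨c, by rw [hc, e]⟩
    choose u hu using e3
    choose β hβ using e4
    exact ⟨(idx, u, β), F, _, π, a, rfl, hv, fun τ i => hu (τ, i), fun τ i => hβ (τ, i)⟩
  · rintro _ ⟨⟨m, -⟩, r, c⟩ _ ⟨⟨m', -⟩, r', c'⟩ d ⟨F, _, π, a, rfl, v, w, b⟩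
      ⟨F', _, π', a', rfl, v', w', b'⟩
    exact eq_of_lg_le (av_le hx m.le (r.trans r'.symm) hh c c' (by rw [← hK, r, k2])
      (fun j => a (d.1 j)) (fun j => a' (d.1 j)) v v' (fun j i => ⟨_, w _ i, w' _ i⟩)
      fun j i => ⟨_, Subtype.prop _, b _ i, b' _ i⟩) (by
        have := m.lgR
        have := m'.lgR
        omega)
  · simp only [Nat.card_prod, Nat.card_fun, cK, Nat.card_eq_fintype_card (α := Fin _),
      Fintype.card_fin, Nat.card_eq_fintype_card (α := avI σ p q), cI]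
    generalize σ + p + (p + q) = r at *
    rw [add_assoc, pow_add, pow_add, pow_mul 2 t p, pow_mul 2 (r + l), pow_mul 2 l, pow_add]
    exact Nat.mul_le_mul (Nat.pow_le_pow_left Nat.lt_two_pow_self.le _) (Nat.mul_le_mul_right _
      (Nat.pow_le_pow_left (Nat.mul_le_mul_right _ cG) _))

theorem av_marked [Two G] {σ p q : ℕ} (t l : ℕ) {x : avI σ p q → G}
    (hx : closure (Set.range x) = ⊤) {r : ℕ} (hr : r = σ + p + (p + q)) :
    ∃ E, (avF x t l).ncard ≤ 2 ^ E ∧ 2 * E ≤ 2 * ((σ + 1) * (σ + l) * l) +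
      l * (2 * r + 2 * (r * (σ + p)) + q * q) + 2 * (t * p + (r + l) * (t * r) + l * (t * l)) := by
  subst hr
  refine ⟨_, (pres_count x (avS σ p q) l l _ (L G 1) _ (fun R h => ⟨h.1, h.1.le, h.1.lgR.le⟩)
    (avC x) ?_ (av_cell hx)).trans (pow_add _ _ _).ge, ?_⟩
  · rintro (i | u | u)
    exacts [mul_self_mem_L1 _, comm_mem_L1 _ _, comm_mem_L1 _ _]
  · have e := H60.card_Tri q
    have e' : q * (q - 1) ≤ q * q := Nat.mul_le_mul_left _ (Nat.sub_le _ _)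
    simp only [Fintype.card_sum, Fintype.card_prod, Fintype.card_fin]
    generalize σ + p + (p + q) = r
    generalize Fintype.card (H60.Tri q) = T at *
    have := Nat.mul_le_mul_left l (e.le.trans e')
    nlinarith

theorem av_num {n σ p q r l t E : ℕ} (hn : 10 ^ 7 ≤ n) (h1 : r + l = n) (h2 : r = σ + p + (p + q))
    (h3 : σ ≤ n / 10 ^ 8) (h4 : t = n / 10 ^ 13) (h5 : p = n / 30000)
    (h6 : 60000 * r ≤ 40003 * n) (h7 : 39997 * n ≤ 60000 * r)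
    (h : 2 * E ≤ 2 * ((σ + 1) * (σ + l) * l) + l * (2 * r + 2 * (r * (σ + p)) + q * q) +
      2 * (t * p + (r + l) * (t * r) + l * (t * l))) :
    27 * 10 ^ 12 * (E + 3 * n) + 27 * 40 * n ^ 3 ≤ 2 * 10 ^ 12 * n ^ 3 := by
  have a1 : σ ≤ p := by omega
  have a2 : 9 * p ≤ r := by omega
  have a3 : n ≤ 40000 * p := by omega
  have a4 : 33 * n ≤ 100 * l := by omega
  have a5 : 66 * n ≤ 100 * r := by omega
  have a6 : 10 ^ 8 * σ ≤ n := by omega
  have a7 : 10 ^ 13 * t ≤ n := by omega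
  have a8 : σ + l ≤ n := by omega
  have a9 : l ≤ n := by omega
  have a10 : r ≤ n := by omega
  have a11 : p ≤ n := by omega
  have b1 : 2 * (r * (σ + p)) + q * q + r * p ≤ r * r := by
    have : (σ + 2 * p) * (σ + 2 * p) ≤ 3 * p * (3 * p) := Nat.mul_le_mul (by omega) (by omega)
    have : 9 * p * p ≤ r * p := Nat.mul_le_mul_right _ a2
    have : r * r + (σ + 2 * p) * (σ + 2 * p) = 2 * (r * (σ + p)) + q * q + 2 * (r * p) := by
      rw [h2]; ring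
    nlinarith
  have b2 : l * (2 * (r * (σ + p)) + q * q) + l * (r * p) ≤ l * (r * r) := by
    rw [← mul_add]; exact Nat.mul_le_mul_left _ b1
  have b3 : 27 * (l * (r * r)) ≤ 4 * n ^ 3 := by
    rw [← h1]
    zify
    nlinarith [mul_nonneg (sq_nonneg ((r : ℤ) - 2 * l)) (show (0 : ℤ) ≤ 4 * r + l by positivity)]
  have b4 : 33 * n * (66 * n * n) ≤ 100 * l * (100 * r * (40000 * p)) :=
    Nat.mul_le_mul a4 (Nat.mul_le_mul a5 a3)
  have b5 : (σ + 1) * (σ + l) * l ≤ (σ + 1) * n * n := by gcongr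
  have b6 : 10 ^ 8 * σ * (n * n) ≤ n * (n * n) := Nat.mul_le_mul_right _ a6
  have b7 : l * r ≤ n * n := Nat.mul_le_mul a9 a10
  have b8 : t * p ≤ t * (n * n) := Nat.mul_le_mul_left _ (a11.trans (Nat.le_mul_self n))
  have b9 : (r + l) * (t * r) ≤ n * (t * n) := by rw [h1]; gcongr
  have b10 : l * (t * l) ≤ n * (t * n) := by gcongr
  have b11 : 10 ^ 13 * t * (n * n) ≤ n * (n * n) := Nat.mul_le_mul_right _ a7
  have b12 : 10 ^ 7 * (n * n) ≤ n * (n * n) := Nat.mul_le_mul_right _ hn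
  have b13 : n ≤ n * n := Nat.le_mul_self n
  linarith [show n ^ 3 = n * (n * n) by ring]

theorem mv_small : ∃ n0 : ℕ, ∀ n ≥ n0, Small 40 n {F | Nat.card F = 2 ^ n ∧ NG n F ∧
    ¬∀ Γ : Finset (MulAut F), Γ.card ≤ n / 10 ^ 13 →
      (L F 1).relIndex (L F 1 ⊔ Mov Γ) ≤ 2 ^ (n / 10 ^ 4)} := by
  refine ⟨10 ^ 7, fun n hn => av_small (by omega) _ (fun σ q r => {F | Nat.card F = 2 ^ n ∧
    r = σ + n / 30000 + (n / 30000 + q) ∧ σ ≤ n / 10 ^ 8 ∧ 60000 * r ≤ 40003 * n ∧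
    39997 * n ≤ 60000 * r ∧ lg (L F 1) + r = n ∧ ∃ y : avI σ (n / 30000) q → F,
      closure (Set.range y) = ⊤ ∧ L F 1 ≤ Ks y (avS σ _ q) ∧
      ∃ (a : Fin (n / 10 ^ 13) → MulAut F) (idx : Fin (n / 30000) → Fin (n / 10 ^ 13)),
        ∀ j, a (idx j) (y (.inl (.inr j))) = y (.inr (.inl j))}) ?_ ?_⟩
  · rintro F ⟨hF, ⟨r, H, r1, r2, r3, hS, hH⟩, hΓ⟩
    have := Two.of_card hF
    push Not at hΓ
    obtain ⟨Γ, g1, g2⟩ := hΓ
    rw [← not_le, relIndex_le_iff, inf_eq_left.2 le_sup_left] at g2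
    have n1 := lg_top hF
    have n2 := lg_mono hS.1
    obtain ⟨σ, hσ⟩ := Nat.exists_eq_add_of_le n2
    obtain ⟨u, hu⟩ := gen_sims hS hσ.le
    obtain ⟨v, α, a1, a2⟩ := pairs Γ hS.1 (p := n / 30000) (by omega)
    obtain ⟨q, hq⟩ := Nat.exists_eq_add_of_le (lg_mono (le_top (a := H ⊔ closure (Set.range v) ⊔
      closure (Set.range fun k => α k (v k)))))
    obtain ⟨w, -, hw⟩ := gen_rel le_top hq.le
    obtain ⟨a, ha⟩ := enum Γ g1
    choose idx hi using fun j => ha _ (a1 j)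
    refine ⟨hF, σ, by omega, q, by omega, r, by omega, hF, by omega, by omega, r2, r3, by omega,
      Sum.elim (Sum.elim u v) (Sum.elim (fun k => α k (v k)) w), ?_, ?_, a, idx,
      fun j => by rw [hi]; rfl⟩
    · simp only [Set.Sum.elim_range, Subgroup.closure_union, hu]
      rw [← sup_assoc, hw]
    · have := hS.2
      rw [sup_bot_eq, ← hu] at this
      exact this
  · rintro σ q r ⟨F₀, -, -, r1, r2, r3, r4, r5, -⟩
    obtain ⟨Γ, _, _, x, hx, hm⟩ := mark (avI σ (n / 30000) q) n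
    obtain ⟨E, e1, e2⟩ := av_marked (n / 10 ^ 13) (n - r) hx r1
    refine ⟨E, (hm _ _ ?_).trans e1, av_num hn (by omega) r1 r2 rfl rfl r3 r4 e2⟩
    rintro F ⟨-, hF, -, -, -, -, s5, y, y1, y2, a, idx, y3⟩
    have := Two.of_card hF
    refine ⟨hF, y, y1, fun π hπ e => ⟨?_, F, _, π, a, idx, hπ, rfl, fun j => by rw [e, e, y3]⟩⟩
    rw [show n - r = lg (L F 1) by omega]
    refine mk_ker hx _ hπ ?_ (by rwa [show π ∘ x = y from funext e])
    rw [lg_top hF]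
    simp only [Fintype.card_sum, Fintype.card_fin]
    omega

end Pool.Agent.Lib.MP_2d211a_co.S64
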