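import Pool.Agent.Lib.MP_2d211a_co.S64AD

/-!
Central involutions fill most of the Frattini subgroup.
-/

namespace Pool.Agent.Lib.MP_2d211a_co.S64

open Subgroup
open scoped commutatorElement

variable {G : Type} [Group G]

/-- A few elements whose centraliser in `L G 1` is small or central. -/
theorem ay_cent [Two G] {g : ℕ} (h : lg (Z0 G) + g ≤ lg (L G 1)) :
    ∃ (u : Fin g → G) (Z : Subgroup G), lg Z + g ≤ lg (L G 1) ∧ ∀ d ∈ L G 1,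
      (∀ i, d * u i = u i * d) → (∃ w, w * d * w⁻¹ * d = 1) → d ∈ Z := by
  obtain ⟨f, hf, h2⟩ := inf_greedy (L G 1) (Set.range fun u : G => centralizer {u}) g
  have h3 : ∀ i, ∃ u : G, ∀ d ∈ L G 1, d * u = u * d → d ∈ f i := fun i => by
    rcases hf i with ⟨u, e⟩ | e
    · exact ⟨u, fun d _ hd => e ▸ mem_centralizer_singleton_iff.2 hd⟩
    · exact ⟨1, fun d hd _ => e ▸ hd⟩
  choose u hu using h3
  have h4 : ∀ d ∈ L G 1, (∀ i, d * u i = u i * d) → d ∈ L G 1 ⊓ ⨅ i, f i := fun d hd hc =>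
    ⟨hd, mem_iInf.2 fun i => hu i d hd (hc i)⟩
  rcases h2 with h2 | h2
  · refine ⟨u, Z0 G, h, fun d hd hc ⟨w, hw⟩ => ?_⟩
    have h5 : ∀ v : G, v * d = d * v := fun v =>
      (mem_centralizer_singleton_iff.1 (mem_sInf.1 (h2 (h4 d hd hc)) _ ⟨v, rfl⟩)).symm
    exact ⟨hd, h5, by rwa [h5 w, mul_inv_cancel_right] at hw⟩
  · exact ⟨u, _, h2, fun d hd hc _ => h4 d hd hc⟩

/-- The marking used for the count. -/
theorem ay_mark [Two G] {H : Subgroup G} (hH : Sims H ⊥) {g : ℕ}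
    (h : lg (Z0 G) + g ≤ lg (L G 1)) : ∃ (σ b : ℕ) (y : Fin σ ⊕ Fin b → G) (Z : Subgroup G),
      lg (L G 1) + σ ≤ lg H + g ∧ lg (⊤ : Subgroup G) = lg (L G 1) + (σ + b) ∧
      closure (Set.range y) = ⊤ ∧ L G 1 ≤ Ks y Sum.inl ∧ lg Z + g ≤ lg (L G 1) ∧
      ∀ d ∈ L G 1, (∀ j, ⁅d, y (.inl j)⁆ = 1) → (∃ w, w * d * w⁻¹ * d = 1) → d ∈ Z := by
  obtain ⟨u, Z, h1, h2⟩ := ay_cent h
  set J := H ⊔ closure (Set.range u) with hJ
  have j1 : lg J ≤ lg H + g := by simpa using lg_sup_closure hH.1 u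
  have j2 : Sims J ⊥ := ⟨hH.1.trans le_sup_left,
    hH.2.trans (sup_le_sup_right (sq_mono le_sup_left) _)⟩
  have j3 := lg_mono j2.1
  have j4 := lg_mono (le_top (a := J))
  obtain ⟨y1, e1⟩ := gen_sims j2 (σ := lg J - lg (L G 1)) (by omega)
  obtain ⟨y2, -, e2⟩ := gen_rel (le_top (a := J)) (m := lg (⊤ : Subgroup G) - lg J) (by omega)
  refine ⟨_, _, Sum.elim y1 y2, Z, by omega, by omega, ?_, ?_, h1, fun d hd hc => h2 d hd fun i => ?_⟩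
  · rw [Set.Sum.elim_range, Subgroup.closure_union, e1, e2]
  · rw [Ks, Sum.elim_comp_inl, e1]
    simpa using j2.2
  · have h3 : J ≤ centralizer {d} := by
      rw [← e1, closure_le]
      rintro _ ⟨j, rfl⟩
      exact mem_centralizer_singleton_iff.2 (commutatorElement_eq_one_iff_mul_comm.1 (hc j)).symm
    exact (mem_centralizer_singleton_iff.1
      (h3 (mem_sup_right (subset_closure ⟨i, rfl⟩)))).symm

/-- The family of kernels. -/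
def ayS {σ b : ℕ} (x : Fin σ ⊕ Fin b → G) (l g : ℕ) : Set (Subgroup G) :=
  {R | Mk x Sum.inl l R ∧ ∃ Z : Subgroup G, R ≤ Z ∧ lg Z + g ≤ lg (L G 1) ∧ ∀ d ∈ L G 1,
    (∀ j, ⁅d, x (.inl j)⁆ ∈ R) → (∃ w, w * d * w⁻¹ * d ∈ R) → d ∈ Z}

/-- Squares of generators and commutators with the first generators. -/
def ayC {σ b : ℕ} (x : Fin σ ⊕ Fin b → G) : (Fin σ ⊕ Fin b) ⊕ (Fin σ ⊕ Fin b) × Fin σ → G :=
  Sum.elim (fun i => x i * x i) fun q => ⁅x q.1, x (.inl q.2)⁆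

theorem ay_mem {K D : Subgroup G} {c h : G} (hh : h ∈ K) (hc : c * h⁻¹ ∈ D) : c ∈ K ⊔ D := by
  simpa using mul_mem (mem_sup_right (S := K) hc) (mem_sup_left hh)

theorem ay_inv {N : Subgroup G} {a b : G} (h : ⁅a, b⁆ ∈ N) : ⁅b, a⁆ ∈ N := by
  rw [← commutatorElement_inv]; exact inv_mem h

theorem ay_comm {N : Subgroup G} [hN : N.Normal] {a : G} (h : a ∈ N) (b : G) : ⁅a, b⁆ ∈ N :=
  st2_le N (comm_mem_st2 h b)

theorem ay_count [Two G] {σ b : ℕ} {x : Fin σ ⊕ Fin b → G} (hx : closure (Set.range x) = ⊤)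
    (l g : ℕ) : (ayS x l g).ncard ≤ 2 ^ ((σ + 1) * (σ + l) * l + l * ((σ + b) * (σ + 1)) +
      (l - g) * Fintype.card (H60.Tri b)) := by
  have key := pres_count x Sum.inl l l (2 ^ ((l - g) * Fintype.card (H60.Tri b))) (L G 1) (ayS x l g)
    (fun R hR => ⟨hR.1, hR.1.le, hR.1.lgR.le⟩) (ayC x)
    (by rintro (i | q); exacts [mul_self_mem_L1 _, comm_mem_L1 _ _]) fun R₀ h hh => ?_
  · rw [pow_add]
    refine key.trans (le_of_eq ?_)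
    simp only [Fintype.card_sum, Fintype.card_prod, Fintype.card_fin]
    congr 2
    ring
  set C := {R ∈ ayS x l g | R ⊓ Ks x Sum.inl = R₀ ∧ ∀ p, ayC x p * (h p)⁻¹ ∈ R} with hC
  have cell : ∀ R ∈ C, ∀ R' ∈ C, (Ks x Sum.inl ⊔ R ⊓ R').Normal ∧
      (∀ p, ayC x p ∈ Ks x Sum.inl ⊔ R ⊓ R') ∧ R ⊓ (Ks x Sum.inl ⊔ R ⊓ R') ≤ R' := by
    intro R hR R' hR'
    have := hR.1.1.nor
    have := hR'.1.1.nor
    have h1 : ∀ p, ayC x p ∈ Ks x Sum.inl ⊔ R ⊓ R' := fun p =>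
      ay_mem (hh p) ⟨hR.2.2 p, hR'.2.2 p⟩
    exact ⟨ks_normal hx _ fun i k => h1 (.inr (i, k)), h1,
      inf_le_of_inf_eq (hR.2.1.trans hR'.2.1.symm)⟩
  rcases C.eq_empty_or_nonempty with e | ⟨R1, h1⟩
  · simp [e]
  have := h1.1.1.nor
  obtain ⟨Z, z1, z2, z3⟩ := h1.1.2
  have hcp := cp C (Ks x Sum.inl) (QuotientGroup.mk' R1) (Z.map (QuotientGroup.mk' R1))
    (Set.toFinite _) (P := H60.Tri b) (fun q => ⁅x (.inr q.1.1), x (.inr q.1.2)⁆) 1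
    (fun R hR k hk e => ?_) (fun R hR q => ?_) fun h' hh' => ?_
  · refine hcp.trans ?_
    have h2 := lg_map_of_ker_le (f := QuotientGroup.mk' R1) (A := Z) (by rwa [QuotientGroup.ker_mk'])
    rw [QuotientGroup.ker_mk'] at h2
    have h3 := h1.1.1.lgR
    rw [mul_one, pow_mul, ← Nat.card_coe_set_eq]
    refine Nat.pow_le_pow_left ((card_eq (Z.map (QuotientGroup.mk' R1))).trans_le ?_) _
    exact Nat.pow_le_pow_right two_pos (by omega)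
  · have h2 : k ∈ R1 ⊓ Ks x Sum.inl := ⟨(QuotientGroup.eq_one_iff k).1 e, hk⟩
    rw [h1.2.1, ← hR.2.1] at h2
    exact h2.1
  · have := hR.1.1.nor
    obtain ⟨n1, n2, n3⟩ := cell R hR R1 h1
    set u := x (.inr q.1.1)
    set v := x (.inr q.1.2)
    have h2 : ⁅u, v⁆ ∈ R ⊔ Ks x Sum.inl := sup_comm (Ks x Sum.inl) R ▸ hR.1.1.sims (comm_mem_L1 u v)
    obtain ⟨d, hd, k, hk, e⟩ := mem_sup_of_normal_left.1 h2
    have e' : ⁅u, v⁆ * k⁻¹ = d := by rw [← e, mul_inv_cancel_right]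
    refine ⟨k, hk, e' ▸ hd, e' ▸ mem_map_of_mem _ (z3 d (hR.1.1.le hd) (fun j => n3 ⟨ay_comm hd _,
      ay_inv (central_of_gens hx (fun i => ay_inv (n2 (.inr (i, j)))) d)⟩)
      ⟨u, n3 ⟨mul_mem (this.conj_mem d hd u) hd, ?_⟩⟩)⟩
    have h3 : ⁅u * u, v⁆ ∈ Ks x Sum.inl ⊔ R ⊓ R1 := ay_comm (n2 (.inl _)) v
    have h4 : k⁻¹ ∈ Ks x Sum.inl ⊔ R ⊓ R1 := mem_sup_left (inv_mem hk)
    have h5 : u * d * u⁻¹ * d = ⁅u * u, v⁆ * (⁅u, v⁆⁻¹ * u * k⁻¹ * (⁅u, v⁆⁻¹ * u)⁻¹) * k⁻¹ := by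
      rw [← e']
      simp only [commutatorElement_def]
      group
    rw [h5]
    exact mul_mem (mul_mem h3 (n1.conj_mem _ h4 _)) h4
  · have le : ∀ R ∈ C, ∀ R' ∈ C, (∀ q : H60.Tri b, ⁅x (.inr q.1.1), x (.inr q.1.2)⁆ * (h' q)⁻¹ ∈ R) →
        (∀ q : H60.Tri b, ⁅x (.inr q.1.1), x (.inr q.1.2)⁆ * (h' q)⁻¹ ∈ R') → R ≤ R' := by
      intro R hR R' hR' q1 q2
      obtain ⟨n1, n2, n3⟩ := cell R hR R' hR'
      have h2 : L G 1 ≤ Ks x Sum.inl ⊔ R ⊓ R' := L1_le_of_gens hx (fun i => n2 (.inl i)) (by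
        rintro (i | i) (j | j)
        · exact n2 (.inr (_, j))
        · exact ay_inv (n2 (.inr (_, i)))
        · exact n2 (.inr (_, j))
        · rcases lt_trichotomy i j with e | rfl | e
          · exact ay_mem (hh' ⟨(i, j), e⟩) ⟨q1 ⟨(i, j), e⟩, q2 ⟨(i, j), e⟩⟩
          · simp
          · exact ay_inv (ay_mem (hh' ⟨(j, i), e⟩) ⟨q1 ⟨(j, i), e⟩, q2 ⟨(j, i), e⟩⟩))
      exact fun a ha => n3 ⟨ha, h2 (hR.1.1.le ha)⟩
    exact (Set.ncard_le_one (Set.toFinite _)).2 fun R hR R' hR' =>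
      le_antisymm (le R hR.1 R' hR'.1 hR.2 hR'.2) (le R' hR'.1 R hR.1 hR'.2 hR.2)

theorem ay_real {n σ b l g T : ℝ} (hn : 10 ^ 6 ≤ n) (h0 : 0 ≤ σ) (e : σ + b + l = n)
    (h1 : 60000 * (σ + b) ≤ 40003 * n) (h2 : 39997 * n ≤ 60000 * (σ + b))
    (h3 : 10 ^ 8 * σ ≤ 10001 * n) (h4 : 10 ^ 4 * g ≤ n) (h5 : n ≤ 10 ^ 4 * (g + 1))
    (h6 : 2 * T ≤ b * b) :
    27 * 10 ^ 12 * ((σ + 1) * (σ + l) * l + l * ((σ + b) * (σ + 1)) + (l - g) * T + 3 * n) +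
      27 * 40 * n ^ 3 ≤ 2 * 10 ^ 12 * n ^ 3 := by
  have l0 : 0.3332 * n ≤ l := by linarith
  have l1 : l ≤ 0.3334 * n := by linarith
  have b0 : 0.6665 * n ≤ b := by linarith
  have b1 : b ≤ n := by linarith
  have n0 : 0 ≤ n := by linarith
  have a1 : (l - g) * (2 * T) ≤ (l - g) * (b * b) := mul_le_mul_of_nonneg_left h6 (by linarith)
  have a2 : l * (σ + b) ^ 2 ≤ 4 / 27 * n ^ 3 := by
    have : 0 ≤ (σ + b - 2 * n / 3) ^ 2 * (σ + b + n / 3) := mul_nonneg (sq_nonneg _) (by linarith)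
    have e' : l = n - (σ + b) := by linarith
    rw [e']
    nlinarith
  have a3 : (σ + l) * l ≤ (0.3336 * n) * (0.3334 * n) :=
    mul_le_mul (by linarith) l1 (by linarith) (by linarith)
  have a4 : σ * ((σ + l) * l) ≤ (0.00010001 * n) * ((0.3336 * n) * (0.3334 * n)) :=
    mul_le_mul (by linarith) a3 (mul_nonneg (by linarith) (by linarith)) (by linarith)
  have a5 : l * (σ + b) ≤ n * n := mul_le_mul (by linarith) (by linarith) (by linarith) n0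
  have a6 : l * (σ * σ) ≤ n * ((0.00010001 * n) * (0.00010001 * n)) :=
    mul_le_mul (by linarith) (mul_le_mul (by linarith) (by linarith) h0 (by linarith))
      (mul_nonneg h0 h0) n0
  have a7 : (0.0001 * n) * ((0.6665 * n) * (0.6665 * n)) ≤ (g + 1) * (b * b) :=
    mul_le_mul (by linarith) (mul_le_mul b0 b0 (by linarith) (by linarith)) (by positivity)
      (by linarith)
  have a8 : b * b ≤ n * n := mul_le_mul b1 b1 (by linarith) n0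
  have a9 : 10 ^ 6 * (n * n) ≤ n * (n * n) := mul_le_mul_of_nonneg_right hn (mul_nonneg n0 n0)
  have a10 : n ≤ n * n := by nlinarith
  nlinarith

theorem ay_num {n σ b l T : ℕ} (hn : 10 ^ 6 ≤ n) (e : σ + b + l = n)
    (h1 : 60000 * (σ + b) ≤ 40003 * n) (h2 : 39997 * n ≤ 60000 * (σ + b))
    (h3 : σ ≤ n / 10 ^ 8 + n / 10 ^ 4) (h6 : T * 2 = b * (b - 1)) :
    27 * 10 ^ 12 * ((σ + 1) * (σ + l) * l + l * ((σ + b) * (σ + 1)) + (l - n / 10 ^ 4) * T + 3 * n) +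
      27 * 40 * n ^ 3 ≤ 2 * 10 ^ 12 * n ^ 3 := by
  have h4 : n / 10 ^ 4 ≤ l := by omega
  have h7 : 2 * T ≤ b * b := by rw [mul_comm, h6]; exact Nat.mul_le_mul_left _ (Nat.sub_le _ _)
  have h8 : 10 ^ 8 * σ ≤ 10001 * n := by omega
  have h9 : 10 ^ 4 * (n / 10 ^ 4) ≤ n := by omega
  have h10 : n ≤ 10 ^ 4 * (n / 10 ^ 4 + 1) := by omega
  generalize n / 10 ^ 4 = g at *
  have := ay_real (n := n) (σ := σ) (b := b) (l := l) (g := g) (T := T) (by exact_mod_cast hn)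
    (by positivity) (by exact_mod_cast e) (by exact_mod_cast h1) (by exact_mod_cast h2)
    (by exact_mod_cast h8) (by exact_mod_cast h9) (by exact_mod_cast h10) (by exact_mod_cast h7)
  rw [← Nat.cast_sub h4] at this
  exact_mod_cast this

theorem yy_small : ∃ n0 : ℕ, ∀ n ≥ n0, Small 40 n {F | Nat.card F = 2 ^ n ∧ NG n F ∧
    ¬(Z0 F).relIndex (L F 1) ≤ 2 ^ (n / 10 ^ 4)} := by
  refine ⟨10 ^ 6, fun n hn => ?_⟩
  obtain ⟨Q, hQ⟩ : ∃ Q, Q = (2 * 10 ^ 12 * n ^ 3 - 27 * 40 * n ^ 3) / (27 * 10 ^ 12) := ⟨_, rfl⟩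
  have q1 : ∀ E, 27 * 10 ^ 12 * E + 27 * 40 * n ^ 3 ≤ 2 * 10 ^ 12 * n ^ 3 ↔ E ≤ Q := fun E => by
    rw [hQ]; omega
  have q2 : 3 * n ≤ Q := (q1 _).1 (by
    have : 10 ^ 6 * (1 * n) ≤ n * (n * n) := Nat.mul_le_mul hn (Nat.mul_le_mul_right _ (by omega))
    have e : n * (n * n) = n ^ 3 := by ring
    omega)
  refine ⟨Q - 3 * n + 3 * n, params _ (fun σ b _ => {F | ∃ (y : Fin σ ⊕ Fin b → F) (Z : Subgroup F),
    σ ≤ n / 10 ^ 8 + n / 10 ^ 4 ∧ 60000 * (σ + b) ≤ 40003 * n ∧ 39997 * n ≤ 60000 * (σ + b) ∧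
    lg (⊤ : Subgroup F) = lg (L F 1) + (σ + b) ∧ closure (Set.range y) = ⊤ ∧
    L F 1 ≤ Ks y Sum.inl ∧ lg Z + n / 10 ^ 4 ≤ lg (L F 1) ∧ ∀ d ∈ L F 1,
      (∀ j, ⁅d, y (.inl j)⁆ = 1) → (∃ w, w * d * w⁻¹ * d = 1) → d ∈ Z}) ?_ ?_, (q1 _).2 (by omega)⟩
  · rintro F ⟨hF, ⟨r, H, r1, r2, r3, r4, r5⟩, hZ⟩
    have := Two.of_card hF
    rw [relIndex_le_iff, inf_eq_left.2 Z0_le] at hZ
    obtain ⟨σ, b, y, Z, a1, a2, a3⟩ := ay_mark r4 (g := n / 10 ^ 4) (by omega)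
    have := lg_top hF
    obtain rfl : r = σ + b := by omega
    exact ⟨hF, σ, by omega, b, by omega, 0, by omega, y, Z, by omega, r2, r3, a2, a3⟩
  intro σ _ b _ c _
  by_cases hp : σ ≤ n / 10 ^ 8 + n / 10 ^ 4 ∧ 60000 * (σ + b) ≤ 40003 * n ∧
      39997 * n ≤ 60000 * (σ + b)
  swap
  · refine le_trans (le_of_eq ?_) (Nat.zero_le _)
    rw [← Set.ncard_empty]
    congr 1
    refine Set.image_eq_empty.2 (Set.eq_empty_of_forall_notMem ?_)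
    rintro F ⟨-, y, Z, a1, a2, a3, -⟩
    exact hp ⟨a1, a2, a3⟩
  obtain ⟨Γ, _, _, x, hx, hm⟩ := mark (Fin σ ⊕ Fin b) n
  refine (hm _ (ayS x (n - (σ + b)) (n / 10 ^ 4)) ?_).trans ((ay_count hx _ _).trans
    (Nat.pow_le_pow_right two_pos (Nat.le_sub_of_add_le ((q1 _).1
      (ay_num hn (by omega) hp.2.1 hp.2.2 hp.1 (H60.card_Tri b))))))
  rintro F ⟨⟨hF, -⟩, y, Z, -, -, -, a1, a2, a3, a4, a5⟩
  have := Two.of_card hF
  refine ⟨hF, y, a2, fun π hπ e => ?_⟩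
  have h1 := lg_top hF
  have h2 := mk_ker hx Sum.inl hπ (by simpa using a1) (by rwa [show π ∘ x = y from funext e])
  have h3 := h2.lgR
  refine ⟨(show lg (L F 1) = n - (σ + b) by omega) ▸ h2, Z.comap π, ker_le_comap π Z, ?_,
    fun d hd hc ⟨w, hw⟩ => a5 (π d) (L_map_le π 1 (mem_map_of_mem π hd)) (fun j => ?_) ⟨π w, ?_⟩⟩
  · rw [lg_comap hπ]; omega
  · rw [← e, ← map_commutatorElement]; exact hc j
  · simpa using hw

end Pool.Agent.Lib.MP_2d211a_co.S64
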