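import Pool.Agent.Lib.MP_2d211a_co.S64AS
import Pool.Agent.Lib.MP_2d211a_co.S64AY
import Pool.Agent.Lib.MP_2d211a_co.S64AV
import Pool.Agent.Lib.MP_2d211a_co.S64AF
import Pool.Agent.Lib.MP_2d211a_co.S64AH

/-!
Almost all groups of order 2 ^ n are generic.
-/

namespace Pool.Agent.Lib.MP_2d211a_co.S64

open Subgroup
open scoped commutatorElement

variable {G : Type} [Group G]

theorem ao_arith {n t E : ℕ} (hn : 1 ≤ n) (ht : 10 ^ 13 * t ≤ n)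
    (hE : 27 * 10 ^ 12 * E ≤ (2 * 10 ^ 12 - 27 * 50) * (n + t) ^ 3) :
    27 * 10 ^ 12 * (t + (E + (n + t) * t)) + 27 * 40 * n ^ 3 ≤ 2 * 10 ^ 12 * n ^ 3 := by
  have h1 : t ≤ n := by omega
  have h2 : 10 ^ 13 * (t * n) ≤ n * n := by nlinarith
  have h3 : t * t ≤ t * n := Nat.mul_le_mul_left t h1
  have h4 : t ≤ t * n := Nat.le_mul_of_pos_right t hn
  have h5 : n * n ≤ n * n * n := Nat.le_mul_of_pos_right _ hn
  have h6 : 10 ^ 13 * (t * n * n) ≤ n * n * n := by nlinarith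
  have h7 : t * t * n ≤ t * n * n := Nat.mul_le_mul_right n h3
  have h8 : t * t * t ≤ t * t * n := Nat.mul_le_mul_left _ h1
  have h9 : (n + t) ^ 3 = n * n * n + 3 * (t * n * n) + 3 * (t * t * n) + t * t * t := by ring
  have h10 : n ^ 3 = n * n * n := by ring
  have h11 : (n + t) * t = t * n + t * t := by ring
  rw [h9] at hE
  rw [h10, h11]
  norm_num at hE h2 h6 ⊢
  omega

theorem ao_sub (n j : ℕ) (c : Quotient (CategoryTheory.isIsomorphicSetoid GrpCat.{0}))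
    (hc : Nat.card c.out = 2 ^ (n + j)) :
    (H60.cl '' {F | Nat.card F = 2 ^ n ∧ ∃ f : F →* c.out, Function.Injective f}).Finite ∧
    (H60.cl '' {F | Nat.card F = 2 ^ n ∧ ∃ f : F →* c.out, Function.Injective f}).ncard ≤
      2 ^ ((n + j) * j) := by
  have : Two c.out := Two.of_card hc
  have h1 := sub_count (G := c.out) (N := ⊥) (Q := ⊤) bot_le (m := n + j)
    (by rw [lg_top hc]; omega) j
  have h2 : H60.cl '' {F | Nat.card F = 2 ^ n ∧ ∃ f : F →* c.out, Function.Injective f} ⊆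
      (fun T : Subgroup c.out => H60.cl (GrpCat.of T)) ''
        {T | ⊥ ≤ T ∧ T ≤ ⊤ ∧ lg (⊤ : Subgroup c.out) ≤ lg T + j} := by
    rintro _ ⟨F, ⟨hF, f, hf⟩, rfl⟩
    have e := MonoidHom.ofInjective hf
    refine ⟨f.range, ⟨bot_le, le_top, ?_⟩, H60.cl_eq.2 ⟨e.symm⟩⟩
    rw [lg_top hc, lg_eq ((Nat.card_congr e.toEquiv).symm.trans hF)]
  have h3 := (Set.toFinite
    {T : Subgroup c.out | ⊥ ≤ T ∧ T ≤ ⊤ ∧ lg (⊤ : Subgroup c.out) ≤ lg T + j})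
  exact ⟨(h3.image _).subset h2,
    (Set.ncard_le_ncard h2 (h3.image _)).trans ((Set.ncard_image_le h3).trans h1)⟩

theorem ao_one (n j E : ℕ)
    (hE : (H60.cl '' {P | Nat.card P = 2 ^ (n + j) ∧ ¬NG (n + j) P}).ncard ≤ 2 ^ E) :
    (H60.cl '' {F | Nat.card F = 2 ^ n ∧ ∃ (P : Type) (_ : Group P) (f : F →* P),
      Function.Injective f ∧ Nat.card P = 2 ^ (n + j) ∧ ¬NG (n + j) P}).Finite ∧
    (H60.cl '' {F | Nat.card F = 2 ^ n ∧ ∃ (P : Type) (_ : Group P) (f : F →* P),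
      Function.Injective f ∧ Nat.card P = 2 ^ (n + j) ∧ ¬NG (n + j) P}).ncard ≤
      2 ^ (E + (n + j) * j) := by
  have hfin : (H60.cl '' {P | Nat.card P = 2 ^ (n + j) ∧ ¬NG (n + j) P}).Finite :=
    (H60.all_fin Nat.prime_two (n + j)).subset (Set.image_mono fun _ h => h.1)
  have := H60.cover hfin
    (fun c => H60.cl '' {F | Nat.card F = 2 ^ n ∧ ∃ f : F →* c.out, Function.Injective f})
    (2 ^ ((n + j) * j)) (fun c hc => ?_)
    (H60.cl '' {F | Nat.card F = 2 ^ n ∧ ∃ (P : Type) (_ : Group P) (f : F →* P),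
      Function.Injective f ∧ Nat.card P = 2 ^ (n + j) ∧ ¬NG (n + j) P}) ?_
  · refine ⟨this.1, this.2.trans ?_⟩
    rw [pow_add 2 E]
    exact Nat.mul_le_mul_right _ hE
  · obtain ⟨A, hA, h⟩ := hc
    obtain ⟨φ⟩ := H60.cl_eq.1 (h.trans c.out_eq.symm)
    exact ao_sub n j c ((Nat.card_congr φ.toEquiv).symm.trans hA.1)
  · rintro _ ⟨F, ⟨hF, P, _, f, hf, hP, hN⟩, rfl⟩
    obtain ⟨φ⟩ := H60.cl_eq.1 (H60.cl (GrpCat.of P)).out_eq.symm
    exact ⟨H60.cl (GrpCat.of P), ⟨GrpCat.of P, ⟨hP, hN⟩, rfl⟩, F,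
      ⟨hF, φ.toMonoidHom.comp f, φ.injective.comp hf⟩, rfl⟩

theorem ov_small : ∃ n0 : ℕ, ∀ n ≥ n0, Small 40 n {F | Nat.card F = 2 ^ n ∧
    ¬∀ (P : Type) [Group P] (f : F →* P) (j : ℕ), Function.Injective f →
      Nat.card P = 2 ^ (n + j) → j ≤ n / 10 ^ 13 →
      2 ^ (2 * n / 3 - n / 10 ^ 4) ≤ (L P 1).index} := by
  obtain ⟨n0, h0⟩ := not_NG_small
  refine ⟨n0 + 10 ^ 5, fun n hn => ?_⟩
  set t := n / 10 ^ 13 with ht
  set E := (2 * 10 ^ 12 - 27 * 50) * (n + t) ^ 3 / (27 * 10 ^ 12) with hE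
  have hE' : 27 * 10 ^ 12 * E ≤ (2 * 10 ^ 12 - 27 * 50) * (n + t) ^ 3 := Nat.mul_div_le _ _
  refine ⟨t + (E + (n + t) * t), ?_, ao_arith (by omega) (Nat.mul_div_le _ _) hE'⟩
  refine le_trans (H60.cover (Set.finite_Iic t)
    (fun j => H60.cl '' {F | Nat.card F = 2 ^ n ∧ ∃ (P : Type) (_ : Group P) (f : F →* P),
      Function.Injective f ∧ Nat.card P = 2 ^ (n + j) ∧ ¬NG (n + j) P})
    (2 ^ (E + (n + t) * t)) (fun j hj => ?_) _ ?_).2 ?_
  · obtain ⟨E', h1, h2⟩ := h0 (n + j) (by omega)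
    have hj' : j ≤ t := hj
    have h3 : E' ≤ E := by
      rw [hE, Nat.le_div_iff_mul_le (by norm_num)]
      have h4 : (n + j) ^ 3 ≤ (n + t) ^ 3 := Nat.pow_le_pow_left (by omega) 3
      norm_num at h2 ⊢
      omega
    obtain ⟨h4, h5⟩ := ao_one n j E' h1
    refine ⟨h4, h5.trans (Nat.pow_le_pow_right two_pos ?_)⟩
    exact Nat.add_le_add h3 (Nat.mul_le_mul (by omega) hj')
  · rintro _ ⟨F, ⟨hF, hb⟩, rfl⟩
    push Not at hb
    obtain ⟨P, _, f, j, hf, hP, hj, hi⟩ := hb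
    refine ⟨j, hj, F, ⟨hF, P, _, f, hf, hP, ?_⟩, rfl⟩
    rintro ⟨r, H, h1, -, h2, -⟩
    have : Two P := Two.of_card hP
    refine absurd (le_index_iff.2 ?_) hi.not_ge
    omega
  · rw [pow_add 2 t]
    refine Nat.mul_le_mul_right _ ?_
    rw [← Finset.coe_Iic, Set.ncard_coe_finset, Nat.card_Iic]
    exact Nat.lt_two_pow_self

end Pool.Agent.Lib.MP_2d211a_co.S64
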