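import Pool.Agent.Lib.MP_2d211a_co.S64AP1

/-!
Normal subgroups of finite 2-groups and counting of subgroups.
-/

namespace Pool.Agent.Lib.MP_2d211a_co.S64

open Subgroup
open scoped commutatorElement

variable {G : Type} [Group G]

theorem ap_mul [Two G] {T A : Subgroup G} (h : T ≤ A) (h1 : lg A ≤ lg T + 1) {a b : G}
    (ha : a ∈ A) (hb : b ∈ A) : a * b ∈ T ↔ (a ∈ T ↔ b ∈ T) := by
  rcases h.eq_or_lt with rfl | hlt
  · simp [ha, hb, mul_mem ha hb]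
  · have h2 := lg_lt hlt
    have h3 : (T.subgroupOf A).index = 2 := by
      have := relIndex_eq T A
      rw [inf_eq_left.2 h, show lg A - lg T = 1 by omega, pow_one] at this
      exact this
    exact mul_mem_iff_of_index_two h3 (a := ⟨a, ha⟩) (b := ⟨b, hb⟩)

theorem ap_one [Two G] {s : Set (Subgroup G)} {Q : Subgroup G} (h : ∀ T ∈ s, T = Q) :
    s.ncard ≤ 1 :=
  (Set.ncard_le_one (Set.toFinite _)).2 fun a ha b hb => (h a ha).trans (h b hb).symm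

theorem idx2_count [Two G] {N A : Subgroup G} (h : N ≤ A) {m : ℕ} (hm : lg A ≤ lg N + m) :
    {T : Subgroup G | N ≤ T ∧ T ≤ A ∧ lg A ≤ lg T + 1}.ncard ≤ 2 ^ m := by
  obtain ⟨f, hf, hA⟩ := gen_rel h hm
  have hc : (Set.univ : Set (Fin m → Prop)).ncard = 2 ^ m := by
    rw [Set.ncard_univ, Nat.card_fun, Nat.card_eq_fintype_card, Fintype.card_prop, Nat.card_fin]
  rw [← hc]
  refine Set.ncard_le_ncard_of_injOn (fun T i => f i ∈ T) (fun _ _ => Set.mem_univ _)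
    (fun T hT T' hT' e => ?_) Set.finite_univ
  obtain ⟨t1, t2, t3⟩ := hT
  obtain ⟨u1, u2, u3⟩ := hT'
  let S : Subgroup G :=
    { carrier := {a | a ∈ A ∧ (a ∈ T ↔ a ∈ T')}
      one_mem' := ⟨one_mem _, by simp⟩
      inv_mem' := fun hx => ⟨inv_mem hx.1, by simpa using hx.2⟩
      mul_mem' := fun hx hy => ⟨mul_mem hx.1 hy.1, by
        rw [ap_mul t2 t3 hx.1 hy.1, ap_mul u2 u3 hx.1 hy.1, hx.2, hy.2]⟩ }
  have hS : A ≤ S := by
    refine hA.ge.trans (sup_le (fun a ha => ⟨h ha, iff_of_true (t1 ha) (u1 ha)⟩) ?_)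
    refine (closure_le _).2 ?_
    rintro _ ⟨i, rfl⟩
    exact ⟨hf i, iff_of_eq (congrFun e i)⟩
  exact le_antisymm (fun a ha => (hS (t2 ha)).2.1 ha) fun a ha => (hS (u2 ha)).2.2 ha

theorem sub_count [Two G] {N Q : Subgroup G} (h : N ≤ Q) {m : ℕ} (hm : lg Q ≤ lg N + m) (j : ℕ) :
    {T : Subgroup G | N ≤ T ∧ T ≤ Q ∧ lg Q ≤ lg T + j}.ncard ≤ 2 ^ (m * j) := by
  induction j with
  | zero => exact ap_one (Q := Q) fun T hT => eq_of_lg_le hT.2.1 hT.2.2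
  | succ j ih =>
    have := (H60.cover
      (Set.toFinite {T : Subgroup G | N ≤ T ∧ T ≤ Q ∧ lg Q ≤ lg T + j})
      (fun T' => {T : Subgroup G | N ≤ T ∧ T ≤ T' ∧ lg T' ≤ lg T + 1}) (2 ^ m)
      (fun T' hT' => ⟨Set.toFinite _, idx2_count hT'.1 ((lg_mono hT'.2.1).trans hm)⟩)
      {T : Subgroup G | N ≤ T ∧ T ≤ Q ∧ lg Q ≤ lg T + (j + 1)} fun T hT => ?_).2
    · rw [Nat.mul_succ, pow_add]
      exact this.trans (Nat.mul_le_mul_right _ ih)
    · obtain ⟨t1, t2, t3⟩ := hT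
      by_cases hj : lg Q ≤ lg T + j
      · exact ⟨T, ⟨t1, t2, hj⟩, t1, le_rfl, Nat.le_succ _⟩
      · obtain ⟨W, w1, w2, w3⟩ := exists_between t2 (k := lg T + 1) (Nat.le_succ _) (by omega)
        exact ⟨W, ⟨t1.trans w1, w2, by omega⟩, t1, w1, w3.le⟩

theorem avoid [Two G] (S : Set (Subgroup G)) {c m N : ℕ} (h1 : S.ncard ≤ 2 ^ N)
    (h2 : ∀ W ∈ S, lg W + c ≤ lg (⊤ : Subgroup G)) (h3 : N < c * m) :
    ∃ f : Fin m → G, ∀ W ∈ S, ∃ i, f i ∉ W := by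
  by_contra hn
  push Not at hn
  obtain ⟨W0, hW0, -⟩ := hn 1
  have hc := h2 W0 hW0
  have := (H60.cover (Set.toFinite S) (fun W => {f : Fin m → G | ∀ i, f i ∈ W})
    (2 ^ ((lg (⊤ : Subgroup G) - c) * m)) (fun W hW => ⟨Set.toFinite _, ?_⟩) Set.univ
    fun f _ => hn f).2
  · rw [Set.ncard_univ, Nat.card_fun, Nat.card_fin, card_eq_top, ← pow_mul] at this
    have h4 := this.trans (Nat.mul_le_mul_right _ h1)
    rw [← pow_add, Nat.pow_le_pow_iff_right one_lt_two] at h4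
    obtain ⟨d, hd⟩ := Nat.exists_eq_add_of_le (show c ≤ lg (⊤ : Subgroup G) by omega)
    rw [hd, Nat.add_sub_cancel_left, add_mul] at h4
    omega
  · have h4 : Nat.card {f : Fin m → G | ∀ i, f i ∈ W} ≤ Nat.card (Fin m → W) :=
      Nat.card_le_card_of_injective (fun f i => ⟨f.1 i, f.2 i⟩) fun f g e =>
        Subtype.ext (funext fun i => congrArg Subtype.val (congrFun e i))
    rw [Nat.card_coe_set_eq, Nat.card_fun, Nat.card_fin, card_eq, ← pow_mul] at h4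
    refine h4.trans (Nat.pow_le_pow_right two_pos (Nat.mul_le_mul_right _ ?_))
    have := h2 W hW
    omega

theorem chain_count [Two G] (Y : Subgroup G) [Y.Normal] (P : Subgroup G → Prop)
    (hP : ∀ R R' : Subgroup G, R ≤ R' → R' ≤ Y → P R → P R') (a b t : ℕ)
    (h : ∀ (R : Subgroup G) (j : ℕ), R.Normal → R ≤ Y → P R → lg Y = lg R + j → j < t →
      lg R ≤ lg (st2 R) + a + b * j) :
    ∃ E, {R : Subgroup G | R.Normal ∧ R ≤ Y ∧ P R ∧ lg Y = lg R + t}.ncard ≤ 2 ^ E ∧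
      2 * E ≤ 2 * a * t + b * t * t := by
  induction t with
  | zero =>
    exact ⟨0, ap_one (Q := Y) fun T hT => eq_of_lg_le hT.2.1 hT.2.2.2.le, by simp⟩
  | succ t ih =>
    obtain ⟨E, h1, h2⟩ := ih fun R j r1 r2 r3 r4 r5 => h R j r1 r2 r3 r4 (by omega)
    have := (H60.cover
      (Set.toFinite {R : Subgroup G | R.Normal ∧ R ≤ Y ∧ P R ∧ lg Y = lg R + t})
      (fun R' => {T : Subgroup G | st2 R' ≤ T ∧ T ≤ R' ∧ lg R' ≤ lg T + 1}) (2 ^ (a + b * t))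
      (fun R' hR' => ⟨Set.toFinite _, ?_⟩)
      {R : Subgroup G | R.Normal ∧ R ≤ Y ∧ P R ∧ lg Y = lg R + (t + 1)} fun R hR => ?_).2
    · refine ⟨E + (a + b * t), ?_, by nlinarith⟩
      rw [pow_add]
      exact this.trans (Nat.mul_le_mul_right _ h1)
    · obtain ⟨r1, r2, r3, r4⟩ := hR'
      have := h R' t r1 r2 r3 r4 (Nat.lt_succ_self t)
      exact idx2_count (st2_le R') (by omega)
    · obtain ⟨r1, r2, r3, r4⟩ := hR
      obtain ⟨W, w1, w2, w3, w4, w5⟩ := upA (R := R) (D := Y)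
        (lt_of_le_of_ne r2 fun e => by rw [e] at r4; omega)
      exact ⟨W, ⟨w1, w3, hP R W w2 w3 r3, by omega⟩, w5, w2, w4.le⟩

end Pool.Agent.Lib.MP_2d211a_co.S64
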