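import Pool.Agent.Lib.MP_2d211a_co.S64AB

/-!
Normal subgroups of finite 2-groups and counting of subgroups.
-/

namespace Pool.Agent.Lib.MP_2d211a_co.S64

open Subgroup
open scoped commutatorElement

variable {G : Type} [Group G]

theorem ap_elt [Two G] {A D : Subgroup G} [A.Normal] [D.Normal] (hne : ¬ D ≤ A) :
    ∃ y ∈ D, y ∉ A ∧ y * y ∈ A ∧ ∀ x, ⁅y, x⁆ ∈ A := by
  have := Fact.mk Nat.prime_two
  have hF : IsPGroup 2 G := Two.pg
  set π := QuotientGroup.mk' A with hπ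
  have hN : (D.map π).Normal := Normal.map inferInstance π (QuotientGroup.mk'_surjective A)
  have hD : IsPGroup 2 (D.map π) := (hF.to_subgroup D).map π
  have hnt : Nontrivial (D.map π) := by
    refine (nontrivial_iff_ne_bot _).2 fun e => hne fun y hy => ?_
    have : π y ∈ D.map π := mem_map_of_mem π hy
    rw [e, mem_bot] at this
    exact (QuotientGroup.eq_one_iff y).1 this
  let _ : MulAction G (D.map π) :=
    MulAction.compHom _ ((MulAut.conjNormal (H := D.map π)).comp π)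
  have hs : ∀ (x : G) (d : D.map π), ((x • d : D.map π) : G ⧸ A) = π x * d * (π x)⁻¹ :=
    fun x d => rfl
  have hdv : 2 ∣ Nat.card (D.map π) := by
    rcases hD.card_eq_or_dvd with h | h
    · exact absurd h Finite.one_lt_card.ne'
    · exact h
  obtain ⟨b, hb, hb1⟩ := hF.exists_fixed_point_of_prime_dvd_card_of_fixed_point (D.map π) hdv
    (a := 1) (fun x => Subtype.ext (by rw [hs]; simp))
  have ho : orderOf (b ^ (orderOf b / 2)) = 2 :=
    orderOf_pow_orderOf_div (orderOf_pos b).ne' (hD.dvd_orderOf hb1.symm)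
  obtain ⟨y, hy, e⟩ := (b ^ (orderOf b / 2)).2
  refine ⟨y, hy, fun hA => ?_, ?_, fun x => ?_⟩
  · have : b ^ (orderOf b / 2) = 1 :=
      Subtype.ext (e.symm.trans ((QuotientGroup.eq_one_iff y).2 hA))
    rw [this, orderOf_one] at ho
    omega
  · refine (QuotientGroup.eq_one_iff _).1 ?_
    have h2 := congrArg Subtype.val (pow_orderOf_eq_one (b ^ (orderOf b / 2)))
    rw [ho, pow_two, Subgroup.coe_mul, ← e, ← map_mul] at h2
    exact h2
  · refine (QuotientGroup.eq_one_iff _).1 ?_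
    have h1 := congrArg Subtype.val (hb x)
    rw [hs, mul_inv_eq_iff_eq_mul] at h1
    have h2 : Commute (π y) (π x) := by
      rw [e, SubgroupClass.coe_pow]
      exact (Commute.pow_left h1.symm _)
    exact (map_commutatorElement π y x).trans (commutatorElement_eq_one_iff_commute.2 h2)

theorem ap_lt {T : Subgroup G} {b : G} (hb : b ∉ T) : T < T ⊔ zpowers b :=
  lt_of_le_of_ne le_sup_left fun e => hb (e ▸ mem_sup_right (mem_zpowers b))

theorem upA [Two G] {R D : Subgroup G} [R.Normal] [D.Normal] (h : R < D) :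
    ∃ R' : Subgroup G, R'.Normal ∧ R ≤ R' ∧ R' ≤ D ∧ lg R' = lg R + 1 ∧ st2 R' ≤ R := by
  have hR : R.Normal := inferInstance
  obtain ⟨b, hb, hb0, hb1, hb2⟩ := ap_elt (not_le_of_gt h)
  have hn : b ∈ normalizer (R : Set G) := by
    rw [normalizer_eq_top]
    exact mem_top b
  have hc : ∀ r ∈ R, ∀ g, ⁅r, g⁆ ∈ R := fun r hr g => st2_le R (comm_mem_st2 hr g)
  have hs : st2 (R ⊔ zpowers b) ≤ R := st2_le_iff.2 fun y hy => by
    rcases (mem_sup_zpowers hn hb1).1 hy with hy | hy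
    · exact ⟨mul_mem hy hy, hc y hy⟩
    · refine ⟨?_, fun g => ?_⟩
      · have e : y * y = y * b⁻¹ * (b * (y * b⁻¹) * b⁻¹) * (b * b) := by group
        rw [e]
        exact mul_mem (mul_mem hy (hR.conj_mem _ hy b)) hb1
      · have e : ⁅y, g⁆ = y * b⁻¹ * ⁅b, g⁆ * (y * b⁻¹)⁻¹ * ⁅y * b⁻¹, g⁆ := by
          simp only [commutatorElement_def]
          group
        rw [e]
        exact mul_mem (mul_mem (mul_mem hy (hb2 g)) (inv_mem hy)) (hc _ hy g)
  refine ⟨R ⊔ zpowers b, normal_of_st2_le (hs.trans le_sup_left) le_rfl, le_sup_left,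
    sup_le h.le (zpowers_le.2 hb), ?_, hs⟩
  have h1 := lg_sup_zpowers hn hb1
  have h2 := lg_lt (ap_lt hb0)
  omega

theorem ap_nak [Two G] {N : Subgroup G} [N.Normal] (k : ℕ) :
    ∀ M : Subgroup G, M.Normal → M < N → lg N ≤ lg M + k →
      ∃ M' : Subgroup G, M ≤ M' ∧ M' < N ∧ st2 N ≤ M' := by
  induction k with
  | zero => exact fun M _ h hk => absurd (lg_lt h) (by omega)
  | succ k ih =>
    intro M hM h hk
    obtain ⟨R', h1, h2, h3, h4, h5⟩ := upA h
    rcases h3.eq_or_lt with e | e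
    · exact ⟨M, le_rfl, h, e ▸ h5⟩
    · obtain ⟨M', a, b, c⟩ := ih R' h1 e (by omega)
      exact ⟨M', h2.trans a, b, c⟩

theorem nak [Two G] {K N : Subgroup G} [K.Normal] [N.Normal] (h : N ≤ K ⊔ st2 N) : N ≤ K := by
  by_contra hne
  have hlt : K ⊓ N < N := lt_of_le_of_ne inf_le_right fun e => hne (e ▸ inf_le_left)
  obtain ⟨M, h1, h2, h3⟩ := ap_nak (lg N) (K ⊓ N) inferInstance hlt (by omega)
  refine not_le_of_gt h2 fun y hy => ?_
  obtain ⟨a, ha, s, hs, rfl⟩ := mem_sup_of_normal_left.1 (h hy)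
  have hs' : s ∈ N := st2_le N hs
  exact mul_mem (h1 ⟨ha, (mul_mem_cancel_right hs').1 hy⟩) (h3 hs)

theorem frat [Two G] {U H : Subgroup G} (h : U ≤ H) (h' : H ≤ U ⊔ sq H) : U = H := by
  by_contra hne
  have h1 := lg_lt (lt_of_le_of_ne h hne)
  obtain ⟨W, h2, h3, h4⟩ := exists_between h (k := lg H - 1) (by omega) (by omega)
  have h5 : sq H ≤ W := sq_le_iff.2 fun a ha => mul_self_mem_of_lg h3 (by omega) ha
  have := lg_mono (h'.trans (sup_le h2 h5))
  omega

theorem ap_sep [Two G] {A : Subgroup G} {y : G} (hy : y ∈ A) (k : ℕ) :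
    ∀ D : Subgroup G, D ≤ A → sq A ≤ D → y ∉ D → lg A ≤ lg D + 1 + k →
      ∃ W : Subgroup G, D ≤ W ∧ W ≤ A ∧ lg A ≤ lg W + 1 ∧ y ∉ W := by
  induction k with
  | zero => exact fun D h1 _ h3 h4 => ⟨D, le_rfl, h1, h4, h3⟩
  | succ k ih =>
    intro D h1 h2 h3 h4
    by_cases h5 : lg A ≤ lg D + 1
    · exact ⟨D, le_rfl, h1, h5, h3⟩
    have hc : ∀ a ∈ A, ∀ d ∈ D, a * d * a⁻¹ ∈ D := fun a ha d hd => by
      have e : a * d * a⁻¹ = ⁅a, d⁆ * d := by
        rw [commutatorElement_def]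
        group
      rw [e]
      exact mul_mem (h2 (comm_le_sq A (commutator_mem_commutator ha (h1 hd)))) hd
    have hn : ∀ a ∈ A, a ∈ normalizer (D : Set G) := fun a ha => mem_normalizer_iff.2 fun d =>
      ⟨hc a ha d, fun hd => by simpa [mul_assoc] using hc _ (inv_mem ha) _ hd⟩
    have hs : ∀ a ∈ A, a * a ∈ D := fun a ha => h2 (mul_self_mem_sq ha)
    have h6 := lg_sup_zpowers (hn y hy) (hs y hy)
    have h7 : ¬ A ≤ D ⊔ zpowers y := fun h => by
      have := lg_mono h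
      omega
    obtain ⟨a, ha, ha'⟩ := SetLike.not_le_iff_exists.1 h7
    have h8 : a ∉ D := fun h => ha' (mem_sup_left h)
    have h9 : y ∉ D ⊔ zpowers a := fun h => by
      rcases (mem_sup_zpowers (hn a ha) (hs a ha)).1 h with h | h
      · exact h3 h
      · refine ha' ((mem_sup_zpowers (hn y hy) (hs y hy)).2 (Or.inr ?_))
        simpa using inv_mem h
    have h10 := lg_lt (ap_lt h8)
    obtain ⟨W, a1, a2, a3, a4⟩ := ih (D ⊔ zpowers a) (sup_le h1 (zpowers_le.2 ha))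
      (h2.trans le_sup_left) h9 (by omega)
    exact ⟨W, le_sup_left.trans a1, a2, a3, a4⟩

theorem sepA [Two G] {D A : Subgroup G} (hD : D ≤ A) (h : ∀ a ∈ A, a * a ∈ D) {y : G}
    (hy : y ∈ A) (hy' : y ∉ D) :
    ∃ W : Subgroup G, D ≤ W ∧ W ≤ A ∧ lg A ≤ lg W + 1 ∧ y ∉ W :=
  ap_sep hy (lg A) D hD (sq_le_iff.2 h) hy' (by omega)

end Pool.Agent.Lib.MP_2d211a_co.S64
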