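import Pool.Agent.Lib.MP_2d211a_co.S64AS1

/-!
The bound of Sims with stability.
-/

namespace Pool.Agent.Lib.MP_2d211a_co.S64

open Subgroup
open scoped commutatorElement

variable {G : Type} [Group G]

theorem as_gen [Two G] {r : ℕ} (hr : lg (⊤ : Subgroup G) = lg (L G 1) + r) :
    ∃ y : Fin r → G, closure (Set.range y) = ⊤ := by
  obtain ⟨f, -, hf⟩ := gen_rel (N := L G 1) (A := ⊤) le_top hr.le
  exact ⟨f, frat le_top (by rw [← L1_eq, sup_comm, hf])⟩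

theorem as_ng [Two G] {F : Type} [Group F] [Two F] {π : G →* F} (hπ : Function.Surjective π)
    {n r ρ c m m' z : ℕ} (hG : lg (⊤ : Subgroup G) ≤ lg (L G 1) + r)
    (hr : lg (⊤ : Subgroup F) = lg (L F 1) + r) (hn : lg (⊤ : Subgroup F) = n) (h1 : n < c * m)
    (h2 : n + c * m' < ρ * m') (hz : lg (L G 1) = lg (Ylow ρ π.ker) + z)
    (h3 : 60000 * r ≤ 40003 * n) (h4 : 39997 * n ≤ 60000 * r) (h5 : c * m' + m + z ≤ n / 10 ^ 8) :
    NG n F := by
  obtain ⟨a1, -, -, a4⟩ := ker_le hπ hG hr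
  have b1 := lg_mono (le_sup_right : π.ker ≤ L G 2 ⊔ π.ker)
  have b2 := lg_mono (sup_le (L_succ_le 1) a1 : L G 2 ⊔ π.ker ≤ L G 1)
  obtain ⟨U, u1, u2, u3⟩ := kill (ρ := ρ) (N := n) a1 (by omega) h1 h2
  have b3 := lg_mono u3
  obtain ⟨H, s, c1, c2, c3, -⟩ := mult_flag (z := z) (w := n) (j := n) a1 u1 u2 (by omega)
    (by omega) (by omega)
  have b4 := lg_map_of_ker_le (a1.trans c1.1)
  refine ⟨r, H.map π, hr, h3, h4, ⟨L_map π hπ 1 ▸ map_mono c1.1, ?_⟩, by omega⟩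
  rw [← L_map π hπ 1, ← sq_map, ← (map_eq_bot_iff π.ker).2 le_rfl, ← Subgroup.map_sup]
  exact map_mono c1.2

theorem as_rank {n r ρ c m m' E : ℕ} (h1 : n < c * m) (h2 : n + c * m' < ρ * m')
    (hE : ∀ z t E' : ℕ, r + z + t = n → 2 * E' + t * (min r z * min r z) ≤
      2 * ((r * ρ + r + ρ * ρ + ρ) * n) +
        t * (r * r + r + 2 * (c * m' + m + 1) * n + 2 * min r z * z + min r z) +
        (c * m' + m + min r z + 1) * t * t →
      (40003 * n < 60000 * r ∨ 60000 * r < 39997 * n ∨ n / 10 ^ 8 < c * m' + m + z) → E' ≤ E) :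
    (H60.cl '' ({F : GrpCat.{0} | Nat.card F = 2 ^ n ∧ ¬NG n F} ∩
      {F : GrpCat.{0} | lg (⊤ : Subgroup F) = lg (L F 1) + r})).ncard ≤ 2 ^ (E + n) := by
  obtain ⟨Γ, _, _, x, hx, hc⟩ := mark (Fin r) n
  have hG : lg (⊤ : Subgroup Γ) ≤ lg (L Γ 1) + r := by simpa using rank_le hx
  let T : Set ℕ := {z | r + z ≤ n ∧
    (40003 * n < 60000 * r ∨ 60000 * r < 39997 * n ∨ n / 10 ^ 8 < c * m' + m + z)}
  have hT : T ⊆ (Finset.range (n + 1) : Set ℕ) := fun z hz => by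
    have := hz.1
    simp only [Finset.coe_range, Set.mem_Iio]
    omega
  let u : ℕ → Set (Subgroup Γ) := fun z => {R | R.Normal ∧ R ≤ L Γ 1 ∧
    lg (L Γ 1) = lg (Ylow ρ R) + z ∧ lg (Ylow ρ R) = lg R + (n - r - z)}
  refine (hc _ {R | ∃ z ∈ T, R ∈ u z} ?_).trans ((H60.cover ((Finset.finite_toSet _).subset hT) u
    (2 ^ E) (fun z hz => ⟨Set.toFinite _, ?_⟩) _ fun _ h => h).2.trans ?_)
  · rintro F ⟨⟨f1, f2⟩, f3⟩
    have := Two.of_card f1
    have f4 : lg (⊤ : Subgroup F) = lg (L F 1) + r := f3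
    have f5 := lg_top f1
    obtain ⟨y, hy⟩ := as_gen f4
    refine ⟨f1, y, hy, fun π hπ _ => ?_⟩
    obtain ⟨a1, -, -, a4⟩ := ker_le hπ hG f4
    obtain ⟨b1, b2, -⟩ := ylow_le (ρ := ρ) a1
    have b3 := lg_mono (le_sup_right.trans b1)
    have b4 := lg_mono b2
    refine ⟨lg (L Γ 1) - lg (Ylow ρ π.ker), ⟨by omega, ?_⟩, inferInstance, a1, by omega, by omega⟩
    by_contra hb
    exact f2 (as_ng (z := lg (L Γ 1) - lg (Ylow ρ π.ker)) hπ hG f4 f5 h1 h2 (by omega) (by omega)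
      (by omega) (by omega))
  · have := hz.1
    obtain ⟨E', e1, e2⟩ := sims_marked (z := z) (t := n - r - z) hG h1 h2 (by omega)
    exact e1.trans (Nat.pow_le_pow_right two_pos (hE z _ E' (by omega) e2 hz.2))
  · rw [pow_add, mul_comm]
    refine Nat.mul_le_mul_left _ ((Set.ncard_le_ncard hT (Finset.finite_toSet _)).trans ?_)
    rw [Set.ncard_coe_finset, Finset.card_range]
    exact Nat.lt_two_pow_self

theorem not_NG_small : ∃ n0 : ℕ, ∀ n ≥ n0, Small 50 n {F | Nat.card F = 2 ^ n ∧ ¬NG n F} := by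
  obtain ⟨n0, h⟩ := sims_num
  refine ⟨n0 + 10 ^ 38, fun n hn => ?_⟩
  have h0 := h n (by omega) 0 0 n 0 0 0 0 (by omega) (by simp) (Nat.zero_le _) (Nat.zero_le _)
    (by simp) (by omega)
  have h1 := h n (by omega)
  unfold Small
  generalize n ^ 3 = q at h0 h1 ⊢
  refine ⟨(2 * 10 ^ 12 * q - 27 * 50 * q) / (27 * 10 ^ 12) - 6 * n + n + 3 * n,
    params _ (fun r _ _ => {F : GrpCat.{0} | lg (⊤ : Subgroup F) = lg (L F 1) + r})
      (fun F hF => ⟨hF.1, ?_⟩) fun r _ _ _ _ _ => as_rank (ρ := n / 10 ^ 12) (c := n / 10 ^ 25)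
      (m := 2 * 10 ^ 25) (m' := 3 * 10 ^ 12) (by omega) (by omega) fun z t E a b c => ?_,
    by omega⟩
  · have := Two.of_card hF.1
    have a1 := lg_top hF.1
    have a2 := lg_mono (le_top : L F 1 ≤ ⊤)
    exact ⟨n - lg (L F 1), by omega, 0, by omega, 0, by omega, by
      show lg (⊤ : Subgroup F) = _
      omega⟩
  · have := h1 r z t _ _ _ E a rfl (by omega) le_rfl b c
    omega

end Pool.Agent.Lib.MP_2d211a_co.S64
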