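import Pool.Agent.Lib.MP_2d211a_co.S64AU
import Pool.Agent.Lib.MP_2d211a_co.S64AL
import Pool.Agent.Lib.MP_2d211a_co.S64AK
import Pool.Agent.Lib.MP_2d211a_co.S64AM
import Pool.Agent.Lib.MP_2d211a_co.S64AN

/-!
The bound of Sims with stability.
-/

namespace Pool.Agent.Lib.MP_2d211a_co.S64

open Subgroup
open scoped commutatorElement

variable {G : Type} [Group G]

theorem as1_mono {s s' z : ℕ} (h : s' ≤ s) (hz : s ≤ z) :
    2 * s' * z + s' + s * s ≤ 2 * s * z + s + s' * s' := by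
  obtain ⟨d, rfl⟩ := Nat.exists_eq_add_of_le h
  obtain ⟨e, rfl⟩ := Nat.exists_eq_add_of_le hz
  nlinarith [Nat.zero_le (d * d), Nat.zero_le (d * e)]

theorem as1_step [Two G] {r n ρ c m m' z j : ℕ} (hr : lg (⊤ : Subgroup G) ≤ lg (L G 1) + r)
    (h1 : n < c * m) (h2 : n + c * m' < ρ * m') (hn : z + j ≤ n) {R : Subgroup G} [R.Normal]
    (hR : R ≤ L G 1) (hz : lg (L G 1) = lg (Ylow ρ R) + z) (hj : lg (Ylow ρ R) = lg R + j) :
    2 * lg R + min r z * min r z ≤ 2 * lg (st2 R) +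
      (r * r + r + 2 * (c * m' + m + 1) * n + 2 * min r z * z + min r z) +
      2 * ((c * m' + m + min r z + 1) * j) := by
  have a1 := lg_mono (le_sup_right : R ≤ L G 2 ⊔ R)
  have hw : lg (L G 1) ≤ lg (L G 2 ⊔ R) + n := by omega
  obtain ⟨U, hU, hk, hY⟩ := kill hR hw h1 h2
  have a2 := lg_mono hY
  have a3 := lg_mono (ylow_le (ρ := ρ) hR).1
  obtain ⟨H, s, -, hH, hs, h⟩ := mult_flag (z := z) (j := j) hR hU hk (by omega) hw (by omega)
  have a4 := lg_mono (le_top : H ≤ ⊤)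
  have a5 := lg_mono hU
  have a6 := lg_mono hR
  have a7 := L1_le_L2 hr
  have hs' : s ≤ min r z := le_min (by omega) hs
  have a8 := as1_mono hs' (min_le_right r z)
  have a9 : 2 * (c * m' + m + s + 1) * j ≤ 2 * ((c * m' + m + min r z + 1) * j) := by
    rw [mul_assoc]
    exact Nat.mul_le_mul_left _ (Nat.mul_le_mul_right _ (by omega))
  omega

theorem sims_marked [Two G] {r n ρ c m m' z t : ℕ} (hr : lg (⊤ : Subgroup G) ≤ lg (L G 1) + r)
    (h1 : n < c * m) (h2 : n + c * m' < ρ * m') (hn : z + t ≤ n) :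
    ∃ E, {R : Subgroup G | R.Normal ∧ R ≤ L G 1 ∧ lg (L G 1) = lg (Ylow ρ R) + z ∧
        lg (Ylow ρ R) = lg R + t}.ncard ≤ 2 ^ E ∧
      2 * E + t * (min r z * min r z) ≤ 2 * ((r * ρ + r + ρ * ρ + ρ) * n) +
        t * (r * r + r + 2 * (c * m' + m + 1) * n + 2 * min r z * z + min r z) +
        (c * m' + m + min r z + 1) * t * t := by
  obtain ⟨X, hX⟩ : ∃ X, X = r * r + r + 2 * (c * m' + m + 1) * n + 2 * min r z * z + min r z :=
    ⟨_, rfl⟩
  obtain ⟨b, hb⟩ : ∃ b, b = c * m' + m + min r z + 1 := ⟨_, rfl⟩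
  obtain ⟨q, hq⟩ : ∃ q, q = min r z * min r z := ⟨_, rfl⟩
  have hqX : q ≤ X := by
    have : min r z * min r z ≤ r * r := Nat.mul_le_mul (min_le_left r z) (min_le_left r z)
    omega
  obtain ⟨a, ha⟩ : ∃ a, a = (X - q) / 2 := ⟨_, rfl⟩
  have key := (H60.cover (Set.toFinite {Y : Subgroup G | ∃ R : Subgroup G, R ≤ L G 1 ∧
      lg (L G 1) ≤ lg R + n ∧ Y = Ylow ρ R})
    (fun Y => {R : Subgroup G | R.Normal ∧ R ≤ Y ∧
      (Ylow ρ R = Y ∧ lg (L G 1) = lg Y + z) ∧ lg Y = lg R + t})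
    (2 ^ ((2 * a * t + b * t * t) / 2)) (fun Y hY => ⟨Set.toFinite _, ?_⟩)
    {R : Subgroup G | R.Normal ∧ R ≤ L G 1 ∧ lg (L G 1) = lg (Ylow ρ R) + z ∧
        lg (Ylow ρ R) = lg R + t} fun R hR => ?_).2
  · refine ⟨(r * ρ + r + ρ * ρ + ρ) * n + (2 * a * t + b * t * t) / 2,
      key.trans ((Nat.mul_le_mul_right _ (ylow_count hr ρ n)).trans_eq (pow_add _ _ _).symm), ?_⟩
    rw [← hX, ← hb, ← hq]
    have e1 : t * (2 * a + q) ≤ t * X := Nat.mul_le_mul_left _ (by omega)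
    have e2 : t * (2 * a + q) = 2 * a * t + t * q := by ring
    omega
  · obtain ⟨R0, hR0, -, rfl⟩ := hY
    obtain ⟨-, hY1, hYn⟩ := ylow_le (ρ := ρ) hR0
    obtain ⟨E, hE, hE'⟩ := chain_count (Ylow ρ R0)
      (fun R => Ylow ρ R = Ylow ρ R0 ∧ lg (L G 1) = lg (Ylow ρ R0) + z)
      (fun R R' h h' hP => ⟨(ylow_up h (hP.1 ▸ h')).trans hP.1, hP.2⟩) a b t
      fun R j hN hRY hP hj hjt => by
        have := as1_step hr h1 h2 (show z + j ≤ n by omega) (hRY.trans hY1)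
          (by rw [hP.1]; exact hP.2) (by rw [hP.1]; exact hj)
        rw [← hX, ← hb, ← hq] at this
        omega
    exact hE.trans (Nat.pow_le_pow_right two_pos (by omega))
  · obtain ⟨hN, hR1, hz, ht⟩ := hR
    exact ⟨Ylow ρ R, ⟨R, hR1, by omega, rfl⟩, hN, le_sup_right.trans (ylow_le hR1).1,
      ⟨rfl, hz⟩, ht⟩

end Pool.Agent.Lib.MP_2d211a_co.S64
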