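import Pool.Agent.Lib.MP_2d211a_co.S64AU1

/-!
Markings: from isomorphism classes to normal subgroups of one finite 2-group.
-/

namespace Pool.Agent.Lib.MP_2d211a_co.S64

open Subgroup
open scoped commutatorElement

variable {G : Type} [Group G]

theorem ker_le {F : Type} [Group F] [Two G] [Two F] {π : G →* F} (hπ : Function.Surjective π)
    {r : ℕ} (hG : lg (⊤ : Subgroup G) ≤ lg (L G 1) + r)
    (hr : lg (⊤ : Subgroup F) = lg (L F 1) + r) :
    π.ker ≤ L G 1 ∧ (L F 1).comap π = L G 1 ∧ lg (⊤ : Subgroup G) = lg (L G 1) + r ∧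
      lg (L G 1) = lg π.ker + lg (L F 1) := by
  have h1 := lg_comap hπ (L F 1)
  have h2 := lg_comap hπ ⊤
  rw [comap_top] at h2
  have h3 : L G 1 = (L F 1).comap π :=
    eq_of_lg_le (map_le_iff_le_comap.1 (L_map_le π 1)) (by omega)
  rw [← h3] at h1
  exact ⟨h3 ▸ ker_le_comap π _, h3.symm, by omega, by omega⟩

theorem au_Ks_map {F : Type} [Group F] {ι κ : Type} (x : ι → G) (s : κ → ι) (π : G →* F) :
    (Ks x s).map π = Ks (π ∘ x) s := by
  rw [Ks, Ks, sq_map, MonoidHom.map_closure, ← Set.range_comp]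
  rfl

theorem mk_ker {F : Type} [Group F] [Two G] [Two F] {ι κ : Type} [Fintype ι] {x : ι → G}
    (hx : closure (Set.range x) = ⊤) (s : κ → ι) {π : G →* F} (hπ : Function.Surjective π)
    (hr : lg (⊤ : Subgroup F) = lg (L F 1) + Fintype.card ι) (hs : L F 1 ≤ Ks (π ∘ x) s) :
    Mk x s (lg (L F 1)) π.ker := by
  obtain ⟨h1, h2, -, h4⟩ := ker_le hπ (rank_le hx) hr
  refine ⟨inferInstance, h1, ?_, h4⟩
  rw [← h2, ← comap_map_eq, au_Ks_map]
  exact comap_mono hs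

theorem Mk.up [Two G] {ι κ : Type} {x : ι → G} {s : κ → ι} {l l' : ℕ} {R R' : Subgroup G}
    (h : Mk x s l R) (hn : R'.Normal) (h1 : R ≤ R') (h2 : R' ≤ L G 1)
    (h3 : lg (L G 1) = lg R' + l') : Mk x s l' R' :=
  ⟨hn, h2, h.sims.trans (sup_le_sup_left h1 _), h3⟩

theorem Mk.sims_sup [Two G] {ι κ : Type} [Fintype κ] {x : ι → G} {s : κ → ι} {l : ℕ}
    {R : Subgroup G} (h : Mk x s l R) :
    ∃ H : Subgroup G, Sims H R ∧ lg H ≤ lg (L G 1) + Fintype.card κ :=
  ⟨L G 1 ⊔ closure (Set.range (x ∘ s)),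
    ⟨le_sup_left, h.sims.trans (sup_le_sup_right (sq_mono le_sup_right) _)⟩,
    lg_sup_closure le_rfl _⟩

theorem gen_sims [Two G] {H : Subgroup G} (h : Sims H ⊥) {σ : ℕ} (hσ : lg H ≤ lg (L G 1) + σ) :
    ∃ u : Fin σ → G, closure (Set.range u) = H := by
  obtain ⟨f, -, hf⟩ := gen_rel h.1 hσ
  refine ⟨f, frat (hf ▸ le_sup_right) ?_⟩
  have h2 : L G 1 ≤ sq H := by simpa using h.2
  exact hf.ge.trans (sup_le (h2.trans le_sup_right) le_sup_left)

/-- The standard marking of a group with a Sims subgroup. -/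
theorem marking [Two G] {H : Subgroup G} (h : Sims H ⊥) {σ b : ℕ} (hσ : lg H ≤ lg (L G 1) + σ)
    (hb : lg (⊤ : Subgroup G) ≤ lg H + b) :
    ∃ y : Fin σ ⊕ Fin b → G, closure (Set.range y) = ⊤ ∧ L G 1 ≤ Ks y Sum.inl := by
  obtain ⟨u, hu⟩ := gen_sims h hσ
  obtain ⟨w, -, hw⟩ := gen_rel (le_top (a := H)) hb
  refine ⟨Sum.elim u w, ?_, ?_⟩
  · rw [Set.Sum.elim_range, Subgroup.closure_union, hu, hw]
  · rw [Ks, Sum.elim_comp_inl, hu]
    simpa using h.2

theorem enum {α : Type} [One α] (Γ : Finset α) {t : ℕ} (h : Γ.card ≤ t) :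
    ∃ a : Fin t → α, ∀ u ∈ Γ, ∃ i, a i = u := by
  refine ⟨fun i => Γ.toList.getD i 1, fun u hu => ?_⟩
  obtain ⟨i, hi, e⟩ := List.getElem_of_mem (Finset.mem_toList.2 hu)
  have hi' : i < t := lt_of_lt_of_le (Finset.length_toList Γ ▸ hi) h
  exact ⟨⟨i, hi'⟩, (List.getD_eq_getElem _ _ hi).trans e⟩

theorem ker_count [Two G] {Q : Type} [Group Q] [Finite Q] {ι : Type} [Fintype ι] {x : ι → G}
    (hx : closure (Set.range x) = ⊤) :
    {S : Subgroup G | ∃ f : G →* Q, f.ker = S}.ncard ≤ Nat.card Q ^ Fintype.card ι := by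
  have hi : Function.Injective fun f : G →* Q => (f ∘ x : ι → Q) := fun f g e =>
    MonoidHom.eq_of_eqOn_dense hx (by
      rintro _ ⟨i, rfl⟩
      exact congrFun e i)
  have : Finite (G →* Q) := Finite.of_injective _ hi
  have h1 : {S : Subgroup G | ∃ f : G →* Q, f.ker = S} =
      (fun f : G →* Q => f.ker) '' Set.univ := by
    ext S
    simp
  rw [h1]
  refine (Set.ncard_image_le Set.finite_univ).trans ?_
  rw [Set.ncard_univ]
  refine (Nat.card_le_card_of_injective _ hi).trans ?_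
  rw [Nat.card_fun, Nat.card_eq_fintype_card (α := ι)]

end Pool.Agent.Lib.MP_2d211a_co.S64
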