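import Pool.Agent.Lib.MP_2d211a_co.S64AP

/-!
Markings: from isomorphism classes to normal subgroups of one finite 2-group.
-/

namespace Pool.Agent.Lib.MP_2d211a_co.S64

open Subgroup
open scoped commutatorElement

variable {G : Type} [Group G]

/-- A finite 2-group with generators that maps onto every marked group of order `2 ^ n`. -/
theorem au_univ (ι : Type) [Fintype ι] (n : ℕ) :
    ∃ (Γ : Type) (_ : Group Γ) (_ : Two Γ) (x : ι → Γ), closure (Set.range x) = ⊤ ∧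
      ∀ (F : Type) [Group F], Nat.card F = 2 ^ n → ∀ y : ι → F,
        ∃ π : Γ →* F, ∀ i, π (x i) = y i := by
  classical
  let J := {y : ι → Equiv.Perm (Fin (2 ^ n)) // ∀ w, FreeGroup.lift y w ^ 2 ^ n = 1}
  let N : Subgroup (FreeGroup ι) := ⨅ j : J, (FreeGroup.lift j.1).ker
  have hN : N.Normal := normal_iInf_normal fun _ => inferInstance
  have hf : N.FiniteIndex := finiteIndex_iInf fun _ => inferInstance
  refine ⟨FreeGroup ι ⧸ N, inferInstance, ⟨inferInstance, fun g => ⟨n, ?_⟩⟩,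
    fun i => QuotientGroup.mk' N (FreeGroup.of i), ?_, fun F _ hF y => ?_⟩
  · obtain ⟨w, rfl⟩ := QuotientGroup.mk'_surjective N g
    rw [← map_pow, QuotientGroup.mk'_apply, QuotientGroup.eq_one_iff]
    exact mem_iInf.2 fun j => by rw [MonoidHom.mem_ker, map_pow]; exact j.2 w
  · rw [show (Set.range fun i => QuotientGroup.mk' N (FreeGroup.of i)) =
        QuotientGroup.mk' N '' Set.range FreeGroup.of from Set.range_comp _ _,
      ← MonoidHom.map_closure, FreeGroup.closure_range_of]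
    exact map_top_of_surjective _ (QuotientGroup.mk'_surjective N)
  · have : Finite F := Nat.finite_of_card_ne_zero (hF ▸ (pow_pos two_pos n).ne')
    let φ : F →* Equiv.Perm (Fin (2 ^ n)) :=
      (Finite.equivFinOfCardEq hF).permCongrHom.toMonoidHom.comp (MulAction.toPermHom F F)
    have hφ : Function.Injective φ :=
      (Finite.equivFinOfCardEq hF).permCongrHom.injective.comp MulAction.toPerm_injective
    have e : FreeGroup.lift (φ ∘ y) = φ.comp (FreeGroup.lift y) := by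
      ext1 i
      simp
    refine ⟨QuotientGroup.lift N (FreeGroup.lift y) fun w hw => hφ ?_,
      fun i => FreeGroup.lift_apply_of⟩
    have := mem_iInf.1 hw ⟨φ ∘ y, fun w => by
      rw [e, MonoidHom.comp_apply, ← map_pow,
        show FreeGroup.lift y w ^ 2 ^ n = 1 from hF ▸ pow_card_eq_one', map_one]⟩
    rw [MonoidHom.mem_ker, e] at this
    exact this.trans (map_one φ).symm

theorem mark (ι : Type) [Fintype ι] (n : ℕ) :
    ∃ (Γ : Type) (_ : Group Γ) (_ : Two Γ) (x : ι → Γ), closure (Set.range x) = ⊤ ∧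
      ∀ (B : Set GrpCat.{0}) (S : Set (Subgroup Γ)),
        (∀ F ∈ B, Nat.card F = 2 ^ n ∧ ∃ y : ι → F, closure (Set.range y) = ⊤ ∧
          ∀ π : Γ →* F, Function.Surjective π → (∀ i, π (x i) = y i) → π.ker ∈ S) →
        (H60.cl '' B).ncard ≤ S.ncard := by
  obtain ⟨Γ, _, _, x, hx, h⟩ := au_univ ι n
  refine ⟨Γ, inferInstance, inferInstance, x, hx, fun B S hB => ?_⟩
  have k : ∀ c, ∃ R : Subgroup Γ, c ∈ H60.cl '' B → R ∈ S ∧
      ∃ (F : GrpCat.{0}) (π : Γ →* F), H60.cl F = c ∧ Function.Surjective π ∧ π.ker = R := by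
    intro c
    by_cases hc : c ∈ H60.cl '' B
    · obtain ⟨F, hF, rfl⟩ := hc
      obtain ⟨h1, y, h2, h3⟩ := hB F hF
      obtain ⟨π, hπ⟩ := h F h1 y
      have hs : Function.Surjective π := by
        rw [← MonoidHom.range_eq_top, eq_top_iff, ← h2, closure_le]
        rintro _ ⟨i, rfl⟩
        exact ⟨x i, hπ i⟩
      exact ⟨π.ker, fun _ => ⟨h3 π hs hπ, F, π, rfl, hs, rfl⟩⟩
    · exact ⟨⊥, fun a => absurd a hc⟩
  choose f hf using k
  refine Set.ncard_le_ncard_of_injOn f (fun c hc => (hf c hc).1) (fun c hc d hd e => ?_)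
    (Set.toFinite S)
  obtain ⟨F, π, rfl, h1, h2⟩ := (hf c hc).2
  obtain ⟨F', π', rfl, h3, h4⟩ := (hf d hd).2
  exact H60.cl_eq.2 ⟨(QuotientGroup.quotientKerEquivOfSurjective π h1).symm.trans
    ((QuotientGroup.quotientMulEquivOfEq (h2.trans (e.trans h4.symm))).trans
      (QuotientGroup.quotientKerEquivOfSurjective π' h3))⟩

theorem params {n E : ℕ} (B : Set GrpCat.{0}) (B' : ℕ → ℕ → ℕ → Set GrpCat.{0})
    (hB : ∀ F ∈ B, Nat.card F = 2 ^ n ∧ ∃ a ≤ n, ∃ b ≤ n, ∃ c ≤ n, F ∈ B' a b c)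
    (h : ∀ a ≤ n, ∀ b ≤ n, ∀ c ≤ n, (H60.cl '' (B ∩ B' a b c)).ncard ≤ 2 ^ E) :
    (H60.cl '' B).ncard ≤ 2 ^ (E + 3 * n) := by
  have k := (H60.cover (Set.finite_univ (α := Fin (n + 1) × Fin (n + 1) × Fin (n + 1)))
    (fun q => H60.cl '' (B ∩ B' q.1 q.2.1 q.2.2)) (2 ^ E)
    (fun q _ => ⟨(H60.all_fin Nat.prime_two n).subset
      (Set.image_mono fun F hF => (hB F hF.1).1),
      h _ (Nat.le_of_lt_succ q.1.2) _ (Nat.le_of_lt_succ q.2.1.2) _ (Nat.le_of_lt_succ q.2.2.2)⟩)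
    (H60.cl '' B) (by
      rintro _ ⟨F, hF, rfl⟩
      obtain ⟨-, a, ha, b, hb, c, hc, e⟩ := hB F hF
      exact ⟨(⟨a, Nat.lt_succ_of_le ha⟩, ⟨b, Nat.lt_succ_of_le hb⟩, ⟨c, Nat.lt_succ_of_le hc⟩),
        trivial, F, ⟨hF, e⟩, rfl⟩)).2
  rw [Set.ncard_univ, Nat.card_prod, Nat.card_prod, Nat.card_fin] at k
  have e : n + 1 ≤ 2 ^ n := Nat.lt_two_pow_self
  refine k.trans ?_
  rw [show E + 3 * n = n + (n + n) + E by ring, pow_add, pow_add, pow_add]
  exact Nat.mul_le_mul_right _ (Nat.mul_le_mul e (Nat.mul_le_mul e e))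

end Pool.Agent.Lib.MP_2d211a_co.S64
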