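import Pool.Agent.Lib.MP_2d211a_co.S64AD

/-!
Automorphisms move little of the Frattini quotient.
-/

namespace Pool.Agent.Lib.MP_2d211a_co.S64

open Subgroup
open scoped commutatorElement

variable {G : Type} [Group G]

/-- The elements that `α` fixes modulo the normal subgroup `U`. -/
def avFix (α : MulAut G) (U : Subgroup G) [hU : U.Normal] : Subgroup G where
  carrier := {x | x⁻¹ * α x ∈ U}
  one_mem' := by simp
  inv_mem' := fun {x} h => by
    have := hU.conj_mem _ (inv_mem h) x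
    simpa [mul_assoc] using this
  mul_mem' := fun {x y} h k => by
    have := mul_mem (hU.conj_mem _ h y⁻¹) k
    simpa [mul_assoc] using this

theorem av_one [Two G] {U : Subgroup G} (hU : L G 1 ≤ U) {e : G} (he : e ∉ U) :
    lg (U ⊔ zpowers e) = lg U + 1 := by
  have := normal_of_L1_le hU
  refine le_antisymm (lg_sup_zpowers (by rw [normalizer_eq_top]; trivial)
    (hU (mul_self_mem_L1 e))) (lg_lt (lt_of_le_of_ne le_sup_left fun h => he ?_))
  rw [h]
  exact mem_sup_right (mem_zpowers e)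

theorem av_out [Two G] {A B C : Subgroup G} (hA : lg A + 1 ≤ lg (⊤ : Subgroup G))
    (hB : lg B + 3 ≤ lg (⊤ : Subgroup G)) (hC : lg C + 3 ≤ lg (⊤ : Subgroup G)) :
    ∃ v, v ∉ A ∧ v ∉ B ∧ v ∉ C := by
  by_contra! h
  have h1 : (Set.univ : Set G) ⊆ (A : Set G) ∪ ((B : Set G) ∪ (C : Set G)) := fun v _ => by
    by_cases a : v ∈ A
    · exact Or.inl a
    by_cases b : v ∈ B
    · exact Or.inr (Or.inl b)
    · exact Or.inr (Or.inr (h v a b))
  have h2 := (Set.ncard_le_ncard h1).trans ((Set.ncard_union_le _ _).trans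
    (Nat.add_le_add_left (Set.ncard_union_le _ _) _))
  have e : ∀ X : Subgroup G, (X : Set G).ncard = 2 ^ lg X := fun X => card_eq X
  rw [Set.ncard_univ, card_eq_top, e, e, e] at h2
  have a1 := Nat.pow_le_pow_right two_pos hA
  have a2 := Nat.pow_le_pow_right two_pos hB
  have a3 := Nat.pow_le_pow_right two_pos hC
  have a4 : 0 < 2 ^ lg (⊤ : Subgroup G) := by positivity
  rw [pow_add] at a1 a2 a3
  omega

theorem av_step [Two G] (Γ : Finset (MulAut G)) {U : Subgroup G} (hU : L G 1 ≤ U)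
    (h : lg U + 3 ≤ lg (L G 1 ⊔ Mov Γ)) :
    ∃ v : G, ∃ α ∈ Γ, lg (U ⊔ zpowers v ⊔ zpowers (α v)) = lg U + 2 := by
  have hN := normal_of_L1_le hU
  obtain ⟨α, hα, x, hx⟩ : ∃ α ∈ Γ, ∃ x, x⁻¹ * α x ∉ U := by
    by_contra! k
    have : L G 1 ⊔ Mov Γ ≤ U := sup_le hU ((closure_le _).2 (by
      rintro _ ⟨α, hα, x, rfl⟩
      exact k α hα x))
    have := lg_mono this
    omega
  have h1 := lg_mono (le_top (a := L G 1 ⊔ Mov Γ))
  have h2 : lg (avFix α U) < lg (⊤ : Subgroup G) := lg_lt (lt_top_iff_ne_top.2 fun e => hx (by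
    have : x ∈ avFix α U := e ▸ mem_top x
    exact this))
  have h3 : lg (U.comap α.toMonoidHom) = lg U := by
    rw [lg_comap α.surjective, (MonoidHom.ker_eq_bot_iff _).2 α.injective, lg_bot, add_zero]
  obtain ⟨v, v1, v2, v3⟩ := av_out (A := avFix α U) (B := U) (C := U.comap α.toMonoidHom) h2
    (by omega) (by omega)
  refine ⟨v, α, hα, ?_⟩
  rw [av_one (hU.trans le_sup_left), av_one hU v2]
  rw [mem_sup_zpowers (by rw [normalizer_eq_top]; trivial) (hU (mul_self_mem_L1 v))]
  rintro (k | k)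
  · exact v3 k
  · refine v1 (show v⁻¹ * α v ∈ U from ?_)
    simpa [mul_assoc] using hN.conj_mem _ k v⁻¹

theorem pairs [Two G] (Γ : Finset (MulAut G)) {H : Subgroup G} (hH : L G 1 ≤ H) {p : ℕ}
    (h : lg H + 2 * p + 3 ≤ lg (L G 1 ⊔ Mov Γ)) :
    ∃ (v : Fin p → G) (α : Fin p → MulAut G), (∀ k, α k ∈ Γ) ∧
      lg (H ⊔ closure (Set.range v) ⊔ closure (Set.range fun k => α k (v k))) = lg H + 2 * p := by
  induction p with
  | zero => exact ⟨Fin.elim0, Fin.elim0, fun k => k.elim0, by simp [Set.range_eq_empty]⟩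
  | succ p ih =>
    obtain ⟨v, α, h1, h2⟩ := ih (by omega)
    obtain ⟨w, β, h3, h4⟩ := av_step Γ
      (U := H ⊔ closure (Set.range v) ⊔ closure (Set.range fun k => α k (v k)))
      (hH.trans (le_sup_left.trans le_sup_left)) (by omega)
    refine ⟨Fin.cons w v, Fin.cons β α, fun k => Fin.cases h3 h1 k, ?_⟩
    have e : (fun k => (Fin.cons β α : Fin (p + 1) → MulAut G) k
        ((Fin.cons w v : Fin (p + 1) → G) k)) = Fin.cons (β w) fun k => α k (v k) := by
      funext k
      exact Fin.cases rfl (fun _ => rfl) k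
    rw [e, Fin.range_cons, Fin.range_cons, Set.insert_eq, Set.insert_eq,
      Subgroup.closure_union,
      Subgroup.closure_union, ← zpowers_eq_closure, ← zpowers_eq_closure, mul_add, ← add_assoc, ← h2, ← h4]
    congr 1
    ac_rfl

end Pool.Agent.Lib.MP_2d211a_co.S64
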