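import Pool.Agent.Lib.MP_2d211a_co.S64BDef

/-!
The constant is forced; matrices of order one; lifting from a section.
-/

namespace Pool.Agent.Lib.MP_2d211a_co.S64

open MonoidAlgebra Finset H62 H30 Subgroup
open scoped commutatorElement

variable {E : Type} [Group E] [Finite E]

theorem S64BMk_coeff {z : E} (hz : Cen 2 z) {n x : MonoidAlgebra ℤ E} (hf : Flat n x)
    (ht : n * (1 + s z) = hat ⊤) : 2 * ((1 - s z) * (x * star x)).coeff 1 = Nat.card E := by
  classical
  have := Fintype.ofFinite E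
  obtain ⟨a, b, ha, hb, rfl, rfl⟩ := hf
  have hzz : z⁻¹ = z := inv_eq_of_mul_eq_one_right (by rw [← sq, hz.pow])
  have h1 : ∀ g, (a - b).coeff g * (a - b).coeff g + (a - b).coeff (g * z) * (a - b).coeff (g * z)
      = 1 ∧ (a - b).coeff g * (a - b).coeff (g * z) = 0 := fun g => by
    have e := congrArg (fun Y => Y.coeff g) ht
    simp only [mul_add, mul_one, s, coeff_add, Finsupp.add_apply, coeff_mul_single_apply,
      hat_coeff, mem_top, if_true, hzz] at e
    simp only [coeff_sub, Finsupp.sub_apply]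
    have e1 := ha g
    have e2 := hb g
    have e3 := ha (g * z)
    have e4 := hb (g * z)
    generalize a.coeff g = p at *
    generalize b.coeff g = q at *
    generalize a.coeff (g * z) = r at *
    generalize b.coeff (g * z) = t at *
    have : (p = 1 ∧ q = 0 ∧ r = 0 ∧ t = 0) ∨ (p = 0 ∧ q = 1 ∧ r = 0 ∧ t = 0) ∨
        (p = 0 ∧ q = 0 ∧ r = 1 ∧ t = 0) ∨ (p = 0 ∧ q = 0 ∧ r = 0 ∧ t = 1) := by omega
    rcases this with ⟨rfl, rfl, rfl, rfl⟩ | ⟨rfl, rfl, rfl, rfl⟩ | ⟨rfl, rfl, rfl, rfl⟩ |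
      ⟨rfl, rfl, rfl, rfl⟩ <;> simp
  generalize a - b = x at h1
  have h2 : ((1 - s z) * (x * star x)).coeff 1 = ∑ g, x.coeff g * x.coeff g := by
    simp only [sub_mul, one_mul, s, coeff_sub, Finsupp.sub_apply, coeff_single_mul_apply, hzz,
      mul_one]
    simp only [coeff_mul_fin, star_eq, st_coeff, mul_one, inv_inv, mul_inv_rev, hzz, ← hz.comm,
      (h1 _).2, sum_const_zero, sub_zero]
  have h3 : ∑ g, x.coeff (g * z) * x.coeff (g * z) = ∑ g, x.coeff g * x.coeff g :=
    Fintype.sum_equiv (Equiv.mulRight z) _ _ fun _ => rfl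
  rw [h2, two_mul]
  nth_rewrite 2 [← h3]
  rw [← sum_add_distrib]
  simp only [(h1 _).1]
  simp

theorem Mx.mk' {z : E} (hz : Cen 2 z) {ι : Type} [Fintype ι] [DecidableEq ι] (c : ℤ)
    (B : ι → ι → MonoidAlgebra ℤ E) (h1 : ∀ a b, ∃ n, Flat n (B a b) ∧ n * (1 + s z) = hat ⊤)
    (h2 : ∀ a a', (1 - s z) * ∑ b, B a b * star (B a' b) =
      (1 - s z) * if a = a' then (c : MonoidAlgebra ℤ E) else 0) : Mx z (Fintype.card ι) := by
  classical
  rcases isEmpty_or_nonempty ι with h0 | ⟨⟨a⟩⟩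
  · exact ⟨ι, ‹_›, ‹_›, 0, B, rfl, by simp, h1, fun a => h0.elim a⟩
  have e := congrArg (fun Y : MonoidAlgebra ℤ E => 2 * Y.coeff 1) (h2 a a)
  have e1 : ∀ b, 2 * ((1 - s z) * (B a b * star (B a b))).coeff 1 = Nat.card E := fun b => by
    obtain ⟨n, hn, hn'⟩ := h1 a b
    exact S64BMk_coeff hz hn hn'
  have e2 : ((1 - s z) * (c : MonoidAlgebra ℤ E)).coeff 1 = c := by
    rw [intCast_def]
    simp only [sub_mul, one_mul, s, coeff_sub, Finsupp.sub_apply, single_mul_single, mul_one,
      coeff_single, Finsupp.single_apply, if_neg hz.ne, if_true]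
    simp
  simp only [if_true, e2] at e
  rw [mul_sum, coeff_sum, Finsupp.finsetSum_apply, mul_sum] at e
  simp only [e1, sum_const, card_univ, nsmul_eq_mul] at e
  have hc : 0 ≤ c := by
    have : (0 : ℤ) ≤ (Fintype.card ι : ℤ) * (Nat.card E : ℤ) := by positivity
    omega
  obtain ⟨c, rfl⟩ := Int.eq_ofNat_of_zero_le hc
  refine ⟨ι, ‹_›, ‹_›, c, B, rfl, by exact_mod_cast e.symm, h1, fun a a' => ?_⟩
  rw [h2, Int.cast_natCast]

theorem Mx.rds {z : E} (hz : Cen 2 z) (h : Mx z 1) (hE : 2 < Nat.card E) :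
    ∃ R : Set E, IsSemiregularRDS (zpowers z) R := by
  obtain ⟨c, B, -, h1, h2⟩ := h.get Unit rfl
  obtain ⟨n, hn, hn'⟩ := h1 () ()
  obtain ⟨X, hX⟩ := good_of_flat hz (m := (c : ℤ)) hn hn' (by simpa using h2 () ())
  exact hX.isRDS hz hE

/-- The additive map on group rings induced by a map of groups as sets. -/
noncomputable def S64BMk_l {A D : Type} [Group A] [Group D] (f : A → D) :
    MonoidAlgebra ℤ A →+ MonoidAlgebra ℤ D where
  toFun := mapDomain f
  map_zero' := mapDomain_zero _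
  map_add' := mapDomain_add _

theorem S64BMk_single {A D : Type} [Group A] [Group D] (f : A → D) (g : A) (r : ℤ) :
    S64BMk_l f (single g r) = single (f g) r := mapDomain_single

theorem S64BMk_nn {A D : Type} [Group A] [Group D] (f : A → D) {X : MonoidAlgebra ℤ A}
    (hX : Nn X) : Nn (S64BMk_l f X) := fun g => by
  classical
  change 0 ≤ (Finsupp.mapDomain f X.coeff) g
  rw [Finsupp.mapDomain, Finsupp.sum_apply]
  refine sum_nonneg fun h _ => ?_
  dsimp only
  rw [Finsupp.single_apply]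
  split_ifs
  · exact hX h
  · exact le_rfl

theorem S64BMk_flat {A D : Type} [Group A] [Group D] (f : A → D) {n x : MonoidAlgebra ℤ A} :
    Flat n x → Flat (S64BMk_l f n) (S64BMk_l f x)
  | ⟨a, b, ha, hb, e, e'⟩ =>
    ⟨_, _, S64BMk_nn f ha, S64BMk_nn f hb, by rw [e, map_add], by rw [e', map_sub]⟩

theorem S64BMk_hat_top {A : Type} [Group A] [Fintype A] :
    hat (⊤ : Subgroup A) = ∑ g : A, s g := by
  rw [← sum_s_hat (fun g : A => g) (H := ⊥) bot_le (fun _ => mem_top _)
    (fun i j h => inv_mul_eq_one.1 (mem_bot.1 h)) (fun y _ => ⟨y, by simp⟩)]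
  simp [hat_bot]

theorem Mx.lift {z : E} (hz : Cen 2 z) (S U : Subgroup E) (hU : U ≤ S)
    [(U.subgroupOf S).Normal] (hzS : z ∈ S) {m : ℕ}
    (h : Mx (QuotientGroup.mk (⟨z, hzS⟩ : S) : S ⧸ U.subgroupOf S) m) : Mx' z S U m := by
  classical
  intro κ _ _ hκ
  obtain ⟨c, B, h0, h1, h2⟩ := h.get κ hκ
  have := Fintype.ofFinite (S ⧸ U.subgroupOf S)
  set p := mapDomainRingHom ℤ (QuotientGroup.mk' (U.subgroupOf S)) with hp
  set i := mapDomainRingHom ℤ S.subtype with hi
  set l := S64BMk_l (A := S ⧸ U.subgroupOf S) (fun q => q.out) with hl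
  have hpl : ∀ x, p (l x) = x := fun x => by
    induction x using induction_linear with
    | zero => simp
    | add a b ha hb => simp only [map_add, ha, hb]
    | single g r => simp [hl, hp, S64BMk_single]
  have key : ∀ y, i y * hat U = i (l (p y)) * hat U := fun y => by
    induction y using induction_linear with
    | zero => simp
    | add a b ha hb => simp only [map_add, add_mul, ha, hb]
    | single g r =>
      obtain ⟨u, hu⟩ := QuotientGroup.mk_out_eq_mul (U.subgroupOf S) g
      have e1 : l (p (single g r)) = single g r * s (u : S) := by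
        simp [hl, hp, S64BMk_single, hu, s, single_mul_single]
      rw [e1, map_mul, hi, map_s, mul_assoc, subtype_apply, s_mul_hat (mem_subgroupOf.1 u.2)]
  have key' : ∀ y y', p y = p y' → i y * hat U = i y' * hat U := fun y y' e => by
    rw [key y, key y', e]
  have hiz : i (s (⟨z, hzS⟩ : S)) = s z := map_s _ _
  have hpz : p (s (⟨z, hzS⟩ : S)) = s (QuotientGroup.mk (⟨z, hzS⟩ : S)) := map_s _ _
  have htop : i (l (hat ⊤)) * hat U = hat S := by
    rw [S64BMk_hat_top, map_sum, map_sum, sum_mul,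
      ← sum_s_hat (fun q : S ⧸ U.subgroupOf S => (q.out : E)) hU (fun q => q.out.2) ?_ ?_]
    · refine sum_congr rfl fun q _ => ?_
      rw [s, hl, S64BMk_single]
      congr 1
      exact map_s _ _
    · intro a b hab
      rw [← a.out_eq, ← b.out_eq]
      exact QuotientGroup.eq.2 (mem_subgroupOf.2 hab)
    · intro y hy
      exact ⟨QuotientGroup.mk ⟨y, hy⟩,
        mem_subgroupOf.1 (QuotientGroup.eq.1 (QuotientGroup.out_eq' (QuotientGroup.mk ⟨y, hy⟩ :
          S ⧸ U.subgroupOf S)))⟩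
  refine ⟨c, fun a b => i (l (B a b)), ?_, fun a b => ?_, fun a b => ?_, fun a a' => ?_⟩
  · rw [h0, mul_assoc, (U.subgroupOf S).card_eq_card_quotient_mul_card_subgroup,
      Nat.card_congr (subgroupOfEquivOfLe hU).toEquiv]
  · obtain ⟨n, hn, hn'⟩ := h1 a b
    refine ⟨i (l n), (S64BMk_flat _ hn).map _, ?_⟩
    have e : hat U * (1 + s z) = (1 + s z) * hat U := by
      rw [mul_add, add_mul, mul_one, one_mul, (comm_s hz.comm _).eq]
    rw [mul_assoc, e, ← mul_assoc, ← htop, ← hiz, ← map_one i, ← map_add, ← map_mul]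
    refine key' _ _ ?_
    rw [map_mul, map_add, map_one, hpz, hpl, hpl, hn']
  · rw [← map_hat S U hU, ← hi, ← map_mul, ← map_mul, hat_comm']
  · have e1 : (1 - s z) * ∑ b, i (l (B a b)) * star (i (l (B a' b))) =
        i ((1 - s (⟨z, hzS⟩ : S)) * ∑ b, l (B a b) * star (l (B a' b))) := by
      simp only [map_mul, map_sub, map_one, map_sum, hiz, star_eq]
      simp only [hi, map_st]
    have e2 : (1 - s z) * (if a = a' then (c : MonoidAlgebra ℤ E) else 0) =
        i ((1 - s (⟨z, hzS⟩ : S)) * if a = a' then (c : MonoidAlgebra ℤ S) else 0) := by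
      rw [map_mul, map_sub, map_one, hiz]
      split_ifs
      · rw [map_natCast]
      · rw [map_zero]
    rw [e1, e2]
    refine key' _ _ ?_
    have e3 : ∀ x, p (star (l x)) = star x := fun x => by
      rw [star_eq, star_eq, hp, map_st, ← hp, hpl]
    simp only [map_mul, map_sub, map_one, map_sum, hpz, hpl, e3, h2]
    split_ifs
    · rw [map_natCast]
    · rw [map_zero]

end Pool.Agent.Lib.MP_2d211a_co.S64
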