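import Pool.Agent.Lib.MP_2d211a_co.S64BSep
import Pool.Agent.Lib.MP_2d211a_co.S64BMk
import Pool.Agent.Lib.MP_2d211a_co.H30Out

/-!
The block step.
-/

namespace Pool.Agent.Lib.MP_2d211a_co.S64

open MonoidAlgebra Finset H62 H30 Subgroup
open scoped commutatorElement

variable {E : Type} [Group E] [Finite E]

section ker

variable {z : E} {hz : Cen 2 z} {A : Subgroup E}

/-- The kernel of a character, as a subgroup of `E`. -/
def S64BBlock_ker (χ : Om hz A) : Subgroup E := χ.1.ker.map A.subtype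

omit [Finite E] in
theorem S64BBlock_mem (χ : Om hz A) (x : A) : (x : E) ∈ S64BBlock_ker χ ↔ χ.1 x = 1 := by
  simp [S64BBlock_ker, MonoidHom.mem_ker]

omit [Finite E] in
theorem S64BBlock_le (χ : Om hz A) : S64BBlock_ker χ ≤ A := map_subtype_le _

omit [Finite E] in
theorem S64BBlock_not (zA : z ∈ A) (χ : Om hz A) : z ∉ S64BBlock_ker χ := fun h =>
  absurd ((χ.2 zA).symm.trans ((S64BBlock_mem χ ⟨z, zA⟩).1 h)) (by decide)

omit [Finite E] in
theorem S64BBlock_flip (zA : z ∈ A) (χ : Om hz A) (x : A) :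
    z⁻¹ * x ∈ S64BBlock_ker χ ↔ χ.1 x = -1 := by
  have : z⁻¹ * (x : E) ∈ _ ↔ _ := S64BBlock_mem χ ((⟨z, zA⟩ : A)⁻¹ * x)
  rw [this, map_mul, map_inv, χ.2 zA]
  rcases Int.units_eq_one_or (χ.1 x) with e | e <;> simp [e]

theorem S64BBlock_ech (zA : z ∈ A) (χ : Om hz A) :
    (1 - s z) * hat (S64BBlock_ker χ) = ech χ := by
  classical
  rw [sub_mul, one_mul]
  ext g
  simp only [s, coeff_sub, Finsupp.sub_apply, coeff_single_mul_apply, one_mul, hat_coeff]
  by_cases e : g ∈ A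
  · rw [ech_in _ e, if_congr (S64BBlock_mem χ ⟨g, e⟩) rfl rfl,
      if_congr (S64BBlock_flip zA χ ⟨g, e⟩) rfl rfl]
    rcases Int.units_eq_one_or (χ.1 ⟨g, e⟩) with e | e <;> simp [e]
  · rw [ech_out _ _ e, if_neg fun e' => e (S64BBlock_le χ e'), if_neg fun e' => e
      ((A.mul_mem_cancel_left (A.inv_mem zA)).1 (S64BBlock_le χ e')), sub_zero]

theorem S64BBlock_card (zA : z ∈ A) (χ : Om hz A) :
    Nat.card A = 2 * Nat.card (S64BBlock_ker χ) := by
  have h := S64BBlock_not zA χ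
  refine card_coset (fun i : Bool => if i then z else 1) (S64BBlock_le χ)
    (fun i => by cases i <;> simp [zA]) (fun i j => by cases i <;> cases j <;> simp [h])
    fun y hy => ?_
  rcases Int.units_eq_one_or (χ.1 ⟨y, hy⟩) with e | e
  · exact ⟨false, by simpa using (S64BBlock_mem χ ⟨y, hy⟩).2 e⟩
  · exact ⟨true, by simpa using (S64BBlock_flip zA χ ⟨y, hy⟩).2 e⟩

omit [Finite E] in
theorem S64BBlock_norm [hA : A.Normal] (χ : Om hz A) (g : E) :
    g ∈ normalizer (S64BBlock_ker χ : Set E) ↔ g • χ = χ := by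
  rw [mem_normalizer_iff]
  refine ⟨fun h => Om.ext (MonoidHom.ext fun x => ?_), fun h y => ?_⟩
  · let y : A := ⟨g⁻¹ * x * g, hA.conj_mem' _ x.2 g⟩
    have e := h y
    rw [show g * (y : E) * g⁻¹ = x by simp [y, mul_assoc], S64BBlock_mem, S64BBlock_mem] at e
    rw [smul_app g χ x y rfl]
    rcases Int.units_eq_one_or (χ.1 y) with a | a <;>
      rcases Int.units_eq_one_or (χ.1 x) with b | b <;> simp_all
  · by_cases hy : y ∈ A
    · have e := smul_app g χ ⟨_, hA.conj_mem _ hy g⟩ ⟨y, hy⟩ (by simp [mul_assoc])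
      rw [h] at e
      exact ((S64BBlock_mem χ ⟨y, hy⟩).trans (e ▸ Iff.rfl)).trans
        (S64BBlock_mem χ ⟨_, hA.conj_mem _ hy g⟩).symm
    · exact iff_of_false (fun e => hy (S64BBlock_le χ e)) fun e => hy (by
        simpa [mul_assoc] using hA.conj_mem' _ (S64BBlock_le χ e) g)

theorem S64BBlock_hh (U : Subgroup E) : hat U * hat U = (Nat.card U : ℤ) • hat U := by
  have := Fintype.ofFinite U
  have e : ∑ u : U, s (u : E) * hat ⊥ = hat U := sum_s_hat _ bot_le (fun u => u.2)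
    (fun i j h => Subtype.ext (inv_mul_eq_one.1 h)) fun y hy => ⟨⟨y, hy⟩, by simp⟩
  simp only [hat_bot, mul_one] at e
  conv_lhs => arg 1; rw [← e]
  rw [sum_mul, sum_congr rfl fun u _ => s_mul_hat u.2]
  simp

end ker

theorem block {z : E} (hz : Cen 2 z) {A K : Subgroup E} [A.Normal] [K.Normal] (hzA : z ∈ A)
    (hA : ∀ a ∈ A, a * a = 1) {h : ℕ} (hc : Nat.card A = 2 ^ (h + 1)) (hAK : A ≤ K)
    (hK : K.index = 2 ^ h) (hC : centralizer (A : Set E) ⊔ K = ⊤) {m : ℕ}
    (H : ∀ U : Subgroup E, U ≤ A → z ∉ U → Nat.card U = 2 ^ h →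
      Mx' z (K ⊓ normalizer (U : Set E)) U ((K ⊓ normalizer (U : Set E)).relIndex K * m)) :
    Mx z m := by
  classical
  have hN : A.Normal := inferInstance
  have h1 : A ≤ centralizer A := fun a ha b hb => by
    have e := eq_inv_of_mul_eq_one_left (hA _ (A.mul_mem hb ha))
    rwa [mul_inv_rev, inv_eq_of_mul_eq_one_right (hA a ha),
      inv_eq_of_mul_eq_one_right (hA b hb)] at e
  have := Fintype.ofFinite (Om hz A)
  have := Fintype.ofFinite (E ⧸ K)
  have cU : ∀ χ : Om hz A, Nat.card (S64BBlock_ker χ) = 2 ^ h := fun χ => by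
    have := S64BBlock_card hzA χ
    rw [hc, pow_succ'] at this
    omega
  have cO : Fintype.card (Om hz A) = 2 ^ h := by
    have := card_om (hz := hz) hzA h1 hA
    rw [hc, pow_succ'] at this
    omega
  have dec : ∀ g, ∃ q ∈ centralizer (A : Set E), ∃ d ∈ K, q * d = g := fun g =>
    mem_sup_of_normal_right.1 (hC ▸ mem_top g)
  let e : Om hz A ≃ E ⧸ K := Fintype.equivOfCardEq (by rw [cO, ← hK, ← Nat.card_eq_fintype_card]; rfl)
  have ey : ∀ χ, ∃ y ∈ centralizer (A : Set E), (y : E ⧸ K) = e χ := fun χ => by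
    obtain ⟨q, hq, d, hd, e'⟩ := dec (e χ).out
    exact ⟨q, hq, by rw [← QuotientGroup.mk_mul_of_mem q hd, e', QuotientGroup.out_eq']⟩
  choose y y1 y2 using ey
  have y3 : ∑ χ, s (y χ) * hat K = hat ⊤ := sum_s_hat _ le_top (fun _ => mem_top _)
    (fun i j h => e.injective (by rw [← y2, ← y2]; exact QuotientGroup.eq.2 h))
    fun g _ => ⟨e.symm g, QuotientGroup.eq.1 (by rw [y2]; simp)⟩
  let mk : Om hz A → MulAction.orbitRel.Quotient E (Om hz A) := Quotient.mk _
  have ex : ∀ χ, ∃ x ∈ K, x • χ = (mk χ).out := fun χ => by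
    obtain ⟨g, hg⟩ : ∃ g : E, g • χ = (mk χ).out :=
      Quotient.mk_out (s := MulAction.orbitRel E _) χ
    obtain ⟨q, hq, d, hd, e'⟩ := dec g⁻¹
    exact ⟨d⁻¹, K.inv_mem hd, by
      rw [← hg, ← inv_inv g, ← e', mul_inv_rev, mul_smul, fix_of_cent (inv_mem hq)]⟩
  choose x x1 x2 using ex
  have x3 : ∀ ω (j : {χ // mk χ = ω}), x j.1 • j.1 = ω.out := fun ω j =>
    (x2 _).trans (congrArg Quotient.out j.2)
  let U : MulAction.orbitRel.Quotient E (Om hz A) → Subgroup E := fun ω => S64BBlock_ker ω.out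
  let S : MulAction.orbitRel.Quotient E (Om hz A) → Subgroup E := fun ω =>
    K ⊓ normalizer (U ω : Set E)
  have inj : ∀ ω (i j : {χ // mk χ = ω}), (x i.1)⁻¹⁻¹ * (x j.1)⁻¹ ∈ S ω → i = j :=
    fun ω j j' e => Subtype.ext (by
      have := (S64BBlock_norm _ _).1 e.2
      rw [inv_inv, mul_smul, inv_smul_eq_iff.2 (x3 ω j').symm] at this
      exact (smul_left_cancel _ (this.trans (x3 ω j).symm)).symm)
  have sur : ∀ ω, ∀ g ∈ K, ∃ i : {χ // mk χ = ω}, (x i.1)⁻¹⁻¹ * g ∈ S ω := fun ω g hg => by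
    have e : mk (g • ω.out) = ω := Quotient.mk_eq_iff_out.2 (MulAction.mem_orbit _ g)
    refine ⟨⟨_, e⟩, K.mul_mem (by simpa using x1 _) hg, (S64BBlock_norm _ _).2 ?_⟩
    rw [inv_inv, mul_smul]
    exact x3 ω ⟨_, e⟩
  have x4 : ∀ ω, ∑ j : {χ // mk χ = ω}, s (x j.1)⁻¹ * hat (S ω) = hat K := fun ω =>
    sum_s_hat _ inf_le_left (fun j => K.inv_mem (x1 _)) (inj ω) (sur ω)
  have x5 : ∀ ω, Nat.card K = Fintype.card {χ // mk χ = ω} * Nat.card (S ω) := fun ω =>
    card_coset _ inf_le_left (fun j => K.inv_mem (x1 _)) (inj ω) (sur ω)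
  have x6 : ∀ ω, (S ω).relIndex K = Fintype.card {χ // mk χ = ω} := fun ω => by
    have := card_rel (S ω) K
    rw [inf_eq_left.2 inf_le_left, x5 ω, mul_comm] at this
    exact Nat.eq_of_mul_eq_mul_right Nat.card_pos this
  choose c B b0 b1 b2 b3 using fun ω => H (U ω) (S64BBlock_le _) (S64BBlock_not hzA _) (cU _)
    ({χ // mk χ = ω} × Fin m) (by rw [Fintype.card_prod, Fintype.card_fin, ← x6])
  choose n n1 n2 using b1
  have c0 : ∀ ω, c ω * 2 ^ h = m * Nat.card K / 2 := fun ω => by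
    have := b0 ω
    rw [cU, show (K ⊓ normalizer (U ω : Set E)) = S ω from rfl, x6, mul_right_comm _ m, ← x5,
      mul_assoc, mul_comm _ m] at this
    omega
  generalize m * Nat.card K / 2 = c1 at c0
  have cz : ∀ X, X * s z = s z * X := fun X => (comm_s hz.comm X).eq
  have cz' : ∀ X, X * (1 - s z) = (1 - s z) * X := fun X => by
    rw [mul_sub, sub_mul, cz, mul_one, one_mul]
  let T := fun ω (i j : {χ // mk χ = ω}) (a b : Fin m) =>
    s (x i.1)⁻¹ * B ω (i, a) (j, b) * hat (U ω) * s (x j.1 * y j.1)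
  have k1 : ∀ ω (j : {χ // mk χ = ω}), s (x j.1)⁻¹ * ech ω.out * s (x j.1) = ech j.1 :=
    fun ω j => by
      have := ech_conj (x j.1)⁻¹ ω.out
      rwa [inv_inv, inv_smul_eq_iff.2 (x3 ω j).symm] at this
  have t1 : ∀ ω i j a b, Eig j.1 ((1 - s z) * T ω i j a b) := fun ω i j a b u => by
    have e1 : (1 - s z) * T ω i j a b =
        s (x i.1)⁻¹ * B ω (i, a) (j, b) * s (x j.1) * ech j.1 * s (y j.1) := by
      rw [hz.mid, S64BBlock_ech hzA, ← k1 ω j, ← s_mul]
      simp only [mul_assoc]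
      rw [← mul_assoc (s (x j.1)), s_mul _ (x j.1)⁻¹, mul_inv_cancel, s_one, one_mul]
    rw [e1, mul_assoc _ (s _), s_mul, ← y1 j.1 u u.2, ← s_mul, ← mul_assoc, mul_assoc _ (ech _),
      eig_ech, mul_smul_comm, smul_mul_assoc]
  have t2 : ∀ ω ω' i i' j j' a a' b, j.1 ≠ j'.1 →
      (1 - s z) * (T ω i j a b * star (T ω' i' j' a' b)) = 0 := fun ω ω' i i' j j' a a' b hj => by
    have e1 := (t1 ω i j a b).orth (t1 ω' i' j' a' b) hj
    have hzz : z * z = 1 := hA z hzA
    have e3 : (1 - s z) * (1 - s z) = 2 * (1 - s z) := by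
      rw [two_mul]; simp only [mul_sub, sub_mul, s_mul, hzz, s_one, one_mul, mul_one]; abel
    rw [star_mul, star_sub, star_one, star_s, inv_eq_of_mul_eq_one_right hzz, ← mul_assoc, cz',
      mul_assoc, ← mul_assoc, e3, mul_assoc] at e1
    exact two_cancel (by rw [e1, mul_zero])
  have t3 : ∀ ω i i' a a', (1 - s z) * ∑ j, ∑ b, T ω i j a b * star (T ω i' j a' b) =
      if i = i' then if a = a' then (c1 : ℤ) • ech i.1 else 0 else 0 := fun ω i i' a a' => by
    have e1 : ∀ j b, T ω i j a b * star (T ω i' j a' b) = (2 ^ h : ℤ) • (s (x i.1)⁻¹ *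
        (B ω (i, a) (j, b) * star (B ω (i', a') (j, b)) * hat (U ω)) * s (x i'.1)) := fun j b => by
      have e2 := congrArg star (b2 ω (i', a') (j, b))
      simp only [star_mul, star_eq (hat _), st_hat] at e2
      simp only [T, star_mul, star_s, inv_inv, mul_assoc, star_eq (hat _), st_hat]
      rw [← mul_assoc (s (x j.1 * _)), s_mul, mul_inv_cancel, s_one, one_mul,
        ← mul_assoc (hat _), S64BBlock_hh, cU, smul_mul_assoc, ← mul_assoc (hat _), e2]
      simp only [mul_smul_comm, mul_assoc, Nat.cast_pow, Nat.cast_ofNat]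
    have e2 := b3 ω (i, a) (i', a')
    rw [Fintype.sum_prod_type, mul_assoc] at e2
    simp only [e1, ← smul_sum, ← sum_mul, ← mul_sum]
    rw [mul_smul_comm, hz.mid, e2]
    by_cases hi : i = i'
    · subst hi
      by_cases ha : a = a'
      · subst ha
        rw [if_pos rfl, if_pos rfl, if_pos rfl, ← cz', mul_assoc (c ω : MonoidAlgebra ℤ E),
          S64BBlock_ech hzA, ← nsmul_eq_mul, mul_smul_comm, smul_mul_assoc, k1, ← c0 ω,
          ← natCast_zsmul, smul_smul, mul_comm]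
        simp
      · simp [ha]
    · simp [hi]
  have := Mx.mk' hz (c1 * 2 ^ h : ℤ) (fun a b => ∑ ω, ∑ j, ∑ i, T ω i j a b) (fun a b =>
    ⟨_, Flat.sum _ fun ω => Flat.sum _ fun j => Flat.sum _ fun i =>
      (((Flat.s _).mul (n1 ω (i, a) (j, b))).mul (show Flat (hat (U ω)) (hat (U ω)) from
        ⟨_, 0, Nn.hat _, nn_zero, (add_zero _).symm, (sub_zero _).symm⟩)).mul (Flat.s _), ?_⟩)
    fun a a' => ?_
  · rwa [Fintype.card_fin] at this
  · have e1 : ∀ ω (i j : {χ // mk χ = ω}), s (x i.1)⁻¹ * n ω (i, a) (j, b) * hat (U ω) *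
        s (x j.1 * y j.1) * (1 + s z) = s (x i.1)⁻¹ * hat (S ω) * s (x j.1 * y j.1) :=
      fun ω i j => by
        have : s (x j.1 * y j.1) * (1 + s z) = (1 + s z) * s (x j.1 * y j.1) := by
          rw [mul_add, add_mul, cz, mul_one, one_mul]
        rw [← n2 ω (i, a) (j, b), mul_assoc _ _ (1 + s z), this]
        simp only [mul_assoc]
    simp only [sum_mul, e1]
    simp only [← sum_mul, x4]
    simp only [← s_mul, ← mul_assoc, hat_mul_s (x1 _), hat_comm]
    rw [← y3]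
    exact Fintype.sum_fiberwise mk fun χ => s (y χ) * hat K
  · have v : ∀ ω ω' j j' b, j.1 ≠ j'.1 →
        (1 - s z) * ((∑ i, T ω i j a b) * star (∑ i, T ω' i j' a' b)) = 0 := fun ω ω' j j' b hj => by
      rw [star_sum, sum_mul_sum, mul_sum]
      exact sum_eq_zero fun i _ => by
        rw [mul_sum]; exact sum_eq_zero fun i' _ => t2 _ _ _ _ _ _ _ _ _ hj
    have e1 : ∀ b, (1 - s z) * ((∑ ω, ∑ j, ∑ i, T ω i j a b) * star (∑ ω, ∑ j, ∑ i, T ω i j a' b)) =
        ∑ ω, ∑ j, ∑ i, ∑ i', (1 - s z) * (T ω i j a b * star (T ω i' j a' b)) := fun b => by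
      rw [star_sum, sum_mul_sum, mul_sum]
      refine sum_congr rfl fun ω _ => ?_
      rw [mul_sum, sum_eq_single ω (fun ω' _ hω => ?_) (by simp), star_sum, sum_mul_sum, mul_sum]
      · refine sum_congr rfl fun j _ => ?_
        rw [mul_sum, sum_eq_single j (fun j' _ hj => v _ _ _ _ _ fun e => hj (Subtype.ext e.symm))
          (by simp), star_sum, sum_mul_sum]
        simp only [mul_sum]
      · rw [star_sum, sum_mul_sum, mul_sum]
        exact sum_eq_zero fun j _ => by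
          rw [mul_sum]
          exact sum_eq_zero fun j' _ => v _ _ _ _ _ fun e => hω (j'.2.symm.trans (e ▸ j.2))
    have e2 : ∀ ω, ∑ b, ∑ j, ∑ i, ∑ i', (1 - s z) * (T ω i j a b * star (T ω i' j a' b)) =
        ∑ i : {χ // mk χ = ω}, if a = a' then (c1 : ℤ) • ech i.1 else 0 := fun ω => by
      have : ∀ i, ∑ i', (1 - s z) * ∑ j, ∑ b, T ω i j a b * star (T ω i' j a' b) =
          if a = a' then (c1 : ℤ) • ech i.1 else 0 := fun i => by simp [t3]
      simp only [← this, mul_sum]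
      rw [sum_comm]
      refine (sum_congr rfl fun j _ => sum_comm).trans (sum_comm.trans (sum_congr rfl fun i _ => ?_))
      exact (sum_congr rfl fun j _ => sum_comm).trans sum_comm
    rw [mul_sum, sum_congr rfl fun b _ => e1 b, sum_comm, sum_congr rfl fun ω _ => e2 ω,
      Fintype.sum_fiberwise mk fun χ => if a = a' then (c1 : ℤ) • ech χ else 0]
    split_ifs
    · rw [← smul_sum, sum_ech hzA h1 hA, cO, smul_smul, zsmul_eq_mul, Int.cast_comm]
      simp
    · simp

end Pool.Agent.Lib.MP_2d211a_co.S64
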