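import Pool.Agent.Lib.MP_2d211a_co.S64BUp

/-!
The case in which every normal abelian subgroup inside N is cyclic.
-/

namespace Pool.Agent.Lib.MP_2d211a_co.S64

open MonoidAlgebra Finset H62 H30 Subgroup
open scoped commutatorElement

variable {E : Type} [Group E] [Finite E]

omit [Finite E] in
/-- An index bound from a function that separates cosets. -/
theorem S64BCyc_idx {F C : Subgroup E} {β : Type} [Finite β] (φ : F → β)
    (h : ∀ x y : F, φ x = φ y → (x : E)⁻¹ * y ∈ C) : C.relIndex F ≤ Nat.card β := by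
  refine Nat.card_le_card_of_injective (fun q : F ⧸ C.subgroupOf F => φ q.out) fun q q' e => ?_
  rw [← q.out_eq', ← q'.out_eq', QuotientGroup.eq]
  exact h _ _ e

theorem S64BCyc_ker {A : Type} [CommGroup A] [Finite A]
    (h : ∀ l : ℕ, l.Prime → Nat.card (powMonoidHom l : A →* A).ker ≤ l) (n : ℕ) (hn : 0 < n) :
    Nat.card (powMonoidHom n : A →* A).ker ≤ n := by
  induction n using induction_on_primes with
  | zero => exact absurd hn (lt_irrefl _)
  | one =>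
    have : (powMonoidHom 1 : A →* A).ker = ⊥ := by
      ext x
      simp
    simp [this]
  | prime_mul p a hp ih =>
    have hle : (powMonoidHom p : A →* A).ker ≤ (powMonoidHom (p * a) : A →* A).ker :=
      fun x hx => by
        rw [MonoidHom.mem_ker, powMonoidHom_apply] at hx ⊢
        rw [pow_mul, hx, one_pow]
    have h1 := S64BCyc_idx (F := (powMonoidHom (p * a) : A →* A).ker)
      (C := (powMonoidHom p : A →* A).ker) (β := (powMonoidHom a : A →* A).ker)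
      (fun x => ⟨x.1 ^ p, by
        have := x.2
        rwa [MonoidHom.mem_ker, powMonoidHom_apply, pow_mul] at this⟩) fun x y e => by
          have e' : x.1 ^ p = y.1 ^ p := congrArg Subtype.val e
          rw [MonoidHom.mem_ker, powMonoidHom_apply, mul_pow, inv_pow, e', inv_mul_cancel]
    have h2 := relIndex_mul_relIndex ⊥ _ _ bot_le hle
    rw [relIndex_bot_left, relIndex_bot_left] at h2
    rw [← h2]
    exact Nat.mul_le_mul (h p hp) (h1.trans (ih (Nat.pos_of_mul_pos_left hn)))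

/-- A commutative 2-group with one involution is cyclic. -/
theorem S64BCyc_gen {z : E} (hz : Cen 2 z) {A : Subgroup E} (hA : IsPGroup 2 A)
    (hc : ∀ a ∈ A, ∀ b ∈ A, a * b = b * a) (h : ∀ a ∈ A, a * a = 1 → a ∈ zpowers z) :
    ∃ a ∈ A, ∀ b ∈ A, b ∈ zpowers a := by
  classical
  let : CommGroup A :=
    { (inferInstance : Group A) with mul_comm := fun a b => Subtype.ext (hc a a.2 b b.2) }
  let := Fintype.ofFinite A
  have h1 : ∀ l : ℕ, l.Prime → Nat.card (powMonoidHom l : A →* A).ker ≤ l := fun l hl => by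
    by_cases e : l = 2
    · subst e
      refine (Nat.card_le_card_of_injective
        (fun x : (powMonoidHom 2 : A →* A).ker => (⟨x.1.1, h _ x.1.2 ?_⟩ : zpowers z))
        fun x y e => Subtype.ext (Subtype.ext (Subtype.mk.inj e))).trans
        (card_zp_le two_pos hz.pow)
      have := x.2
      rw [MonoidHom.mem_ker, powMonoidHom_apply, sq] at this
      exact congrArg Subtype.val this
    · have : (powMonoidHom l : A →* A).ker = ⊥ := by
        refine eq_bot_iff.2 fun x hx => ?_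
        obtain ⟨k, hk⟩ := hA x
        have hco : Nat.Coprime l (2 ^ k) :=
          ((Nat.coprime_primes hl Nat.prime_two).2 e).pow_right k
        have := pow_gcd_eq_one.2 ⟨(hx : x ^ l = 1), hk⟩
        rwa [hco, pow_one] at this
      simpa [this] using hl.one_lt.le
  have : IsCyclic A := isCyclic_of_card_pow_eq_one_le fun n hn => by
    refine le_of_eq_of_le ?_ (S64BCyc_ker h1 n hn)
    rw [← Fintype.card_subtype, ← Nat.card_eq_fintype_card]
    rfl
  obtain ⟨a, ha⟩ := IsCyclic.exists_generator (α := A)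
  refine ⟨a, a.2, fun b hb => ?_⟩
  obtain ⟨k, hk⟩ := ha ⟨b, hb⟩
  exact ⟨k, congrArg Subtype.val hk⟩

omit [Finite E] in
theorem S64BCyc_cen {z c : E} (hz : Cen 2 z) (hc : c ∈ zpowers z) (g : E) : g * c * g⁻¹ = c := by
  obtain ⟨k, rfl⟩ := hc
  have : Commute g (z ^ k) := Commute.zpow_right (hz.comm g) k
  simp only [this.eq, mul_inv_cancel_right]

/-- The elements of `D` whose commutators with `C` lie in `⟨z⟩`. -/
def S64BCyc_W {z : E} (hz : Cen 2 z) (D C : Subgroup E) : Subgroup E where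
  carrier := {y | y ∈ D ∧ ∀ x ∈ C, ⁅y, x⁆ ∈ zpowers z}
  one_mem' := ⟨one_mem _, fun x _ => by simp⟩
  inv_mem' := fun {y} h => ⟨inv_mem h.1, fun x hx => by
    have e : ⁅y⁻¹, x⁆ = y⁻¹ * ⁅y, x⁆⁻¹ * y⁻¹⁻¹ := by
      simp [commutatorElement_def, mul_assoc]
    rw [e, S64BCyc_cen hz (inv_mem (h.2 x hx))]
    exact inv_mem (h.2 x hx)⟩
  mul_mem' := fun {y y'} h k => ⟨mul_mem h.1 k.1, fun x hx => by
    have e : ⁅y * y', x⁆ = y * ⁅y', x⁆ * y⁻¹ * ⁅y, x⁆ := by
      simp [commutatorElement_def, mul_assoc]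
    rw [e, S64BCyc_cen hz (k.2 x hx)]
    exact mul_mem (k.2 x hx) (h.2 x hx)⟩

omit [Finite E] in
theorem S64BCyc_W_normal {z : E} (hz : Cen 2 z) (D C : Subgroup E) [hD : D.Normal]
    [hC : C.Normal] : (S64BCyc_W hz D C).Normal :=
  ⟨fun y hy g => ⟨hD.conj_mem _ hy.1 g, fun x hx => by
    have e : ⁅g * y * g⁻¹, x⁆ = g * ⁅y, g⁻¹ * x * g⁻¹⁻¹⁆ * g⁻¹ := by
      simp [commutatorElement_def, mul_assoc]
    have := hy.2 _ (hC.conj_mem _ hx g⁻¹)
    rw [e, S64BCyc_cen hz this]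
    exact this⟩⟩

omit [Finite E] in
theorem S64BCyc_sq {x g : E} (h1 : ⁅x, g⁆ * x = x * ⁅x, g⁆) (h2 : g * (x * x) = x * x * g) :
    ⁅x, g⁆ * ⁅x, g⁆ = 1 := by
  have e : x * ⁅x, g⁆ * x⁻¹ * ⁅x, g⁆ = x * x * g * (x * x)⁻¹ * g⁻¹ := by
    simp [commutatorElement_def, mul_assoc]
  rwa [← h1, mul_inv_cancel_right, ← h2, mul_inv_cancel_right, mul_inv_cancel] at e

theorem exists_P0 {z : E} (hz : Cen 2 z) {F N : Subgroup E} [F.Normal] (hF : IsPGroup 2 F)
    (hzN : z ∈ N) (hNF : N ≤ F) (hfr : F ⊓ L E 1 ≤ N)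
    (h : ∀ A : Subgroup E, A.Normal → A ≤ N → (∀ a ∈ A, a * a = 1) → A ≤ zpowers z) :
    ∃ P : Subgroup E, P ≤ F ∧ z ∈ P ∧ P.relIndex F ≤ Nat.card N ^ 3 ∧
      ∀ x ∈ P, x * x ∈ zpowers z ∧ ∀ g, ⁅x, g⁆ ∈ zpowers z := by
  have nN : N.Normal := normal_of_fr hfr hNF
  have sqN : ∀ x ∈ F, x * x ∈ N := fun x hx => hfr ⟨mul_mem hx hx, sq_mem_st2 (mem_top x)⟩
  have cmem : ∀ (C : Subgroup E) [C.Normal], ∀ x ∈ C, ∀ g, ⁅x, g⁆ ∈ C := fun C _ x hx g =>
    st2_le C (comm_mem_st2 hx g)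
  have cN : ∀ x ∈ F, ∀ g, ⁅x, g⁆ ∈ N := fun x hx g =>
    hfr ⟨cmem F x hx g, comm_mem_st2 (mem_top x) g⟩
  obtain ⟨A, ⟨nA, hAN, hzA, hc⟩, hmax⟩ := (Set.toFinite
    {A : Subgroup E | A.Normal ∧ A ≤ N ∧ z ∈ A ∧ ∀ a ∈ A, ∀ b ∈ A, a * b = b * a}).exists_maximal
    ⟨zpowers z, ⟨fun c hc g => (S64BCyc_cen hz hc g).symm ▸ hc⟩, zpowers_le.2 hzN, mem_zpowers z,
      fun a _ b hb => by rw [← S64BCyc_cen hz hb a, inv_mul_cancel_right, S64BCyc_cen hz hb a]⟩
  have hinv : ∀ a ∈ A, a * a = 1 → a ∈ zpowers z := fun a ha e => by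
    let B : Subgroup E :=
      { carrier := {a | a ∈ A ∧ a * a = 1}
        one_mem' := ⟨one_mem _, mul_one _⟩
        inv_mem' := fun k => ⟨inv_mem k.1, by rw [← mul_inv_rev, k.2, inv_one]⟩
        mul_mem' := fun {x y} k k' => ⟨mul_mem k.1 k'.1, by
          rw [mul_assoc, ← mul_assoc y, hc y k'.1 x k.1, mul_assoc, k'.2, mul_one, k.2]⟩ }
    refine h B ⟨fun x hx g => ⟨nA.conj_mem _ hx.1 g, ?_⟩⟩ (fun x hx => hAN hx.1)
      (fun x hx => hx.2) ⟨ha, e⟩
    rw [conj_mul, hx.2, mul_one, mul_inv_cancel]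
  obtain ⟨a0, ha0, hgen⟩ := S64BCyc_gen hz (hF.to_le (hAN.trans hNF)) hc hinv
  let C1 : Subgroup E := F ⊓ centralizer (A : Set E)
  have nC1 : C1.Normal := inferInstance
  have hAC1 : A ≤ C1 := fun a ha => ⟨hNF (hAN ha), fun b hb => hc b hb a ha⟩
  have i1 : C1.relIndex F ≤ Nat.card N :=
    S64BCyc_idx (β := N) (fun x => ⟨x * a0 * (x : E)⁻¹, nN.conj_mem _ (hAN ha0) _⟩)
      fun x y e => ⟨F.mul_mem (F.inv_mem x.2) y.2, fun b hb => by
        have e' : (x : E) * a0 * (x : E)⁻¹ = y * a0 * (y : E)⁻¹ := congrArg Subtype.val e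
        have k : Commute a0 ((x : E)⁻¹ * y) := by
          calc a0 * ((x : E)⁻¹ * y) = (x : E)⁻¹ * (x * a0 * (x : E)⁻¹) * y := by
                simp [mul_assoc]
            _ = (x : E)⁻¹ * y * a0 := by rw [e']; simp [mul_assoc]
        obtain ⟨j, rfl⟩ := hgen b hb
        exact (k.zpow_left j).eq⟩
  let W := S64BCyc_W hz (N ⊓ C1) C1
  have nW : W.Normal := S64BCyc_W_normal hz _ _
  have hAW : A ≤ W := fun a ha => ⟨⟨hAN ha, hAC1 ha⟩, fun x hx => by
    rw [commutatorElement_eq_one_iff_mul_comm.2 (hx.2 a ha)]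
    exact one_mem _⟩
  have hWN : W ≤ N := fun y hy => hy.1.1
  let C2 : Subgroup E := C1 ⊓ centralizer (W : Set E)
  have nC2 : C2.Normal := inferInstance
  have hAC2 : A ≤ C2 := fun a ha => ⟨hAC1 ha, fun y hy => (hy.1.2.2 a ha).symm⟩
  have pC1 : IsPGroup 2 C1 := hF.to_le inf_le_left
  have i2 : C2.relIndex C1 ≤ Nat.card N := by
    obtain ⟨n, hn⟩ := IsPGroup.iff_card.1 (hF.to_le (hWN.trans hNF))
    obtain _ | n := n
    · exact absurd (mem_bot.1 ((card_eq_one.1 hn).le (hAW hzA))) hz.ne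
    obtain ⟨j, hj, e⟩ := cent_index hz pC1 (hAW hzA) (fun y hy => hy.2) hn
    rw [inf_relIndex_left, e]
    exact (Nat.pow_le_pow_right two_pos (hj.trans n.le_succ)).trans
      (hn.ge.trans (card_le_of_le hWN))
  have key : N ⊓ C2 ≤ A := by
    by_contra hne
    obtain ⟨y, hy, hyA, h1, h2⟩ := upB pC1 (le_inf hAN hAC2) (fun y hy => hy.2.1) hne
    have hyW : y ∈ W := ⟨⟨hy.1, hy.2.1⟩, fun x hx => hinv _ (h2 x hx)
      (S64BCyc_sq (hy.2.1.2 _ (h2 x hx)) (hx.2 _ h1).symm)⟩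
    exact hyA (hmax (y := W ⊓ centralizer (W : Set E)) ⟨inferInstance, inf_le_left.trans hWN,
      ⟨hAW hzA, (hAC2 hzA).2⟩, fun a ha b hb => hb.2 a ha.1⟩
      (le_inf hAW (hAC2.trans inf_le_right)) ⟨hyW, hy.2.2⟩)
  have sqA : ∀ x ∈ C2, x * x ∈ A := fun x hx => key ⟨sqN x hx.1.1, mul_mem hx hx⟩
  have cz : ∀ x ∈ C2, ∀ g, g * (x * x) = x * x * g → ⁅x, g⁆ ∈ zpowers z := fun x hx g e =>
    have k := key ⟨cN x hx.1.1 g, cmem C2 x hx g⟩
    hinv _ k (S64BCyc_sq (hx.1.2 _ k) e)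
  have msq : ∀ x ∈ C2, ∀ y ∈ C2, ∃ c ∈ zpowers z, x * y * (x * y) = c * (x * x * (y * y)) :=
    fun x hx y hy => by
      have k := cz y hy x (hx.1.2 _ (sqA y hy)).symm
      refine ⟨_, k, ?_⟩
      rw [← S64BCyc_cen hz k x]
      simp [commutatorElement_def, mul_assoc]
  let P : Subgroup E :=
    { carrier := {x | x ∈ C2 ∧ x * x ∈ zpowers z}
      one_mem' := ⟨one_mem _, by simp⟩
      inv_mem' := fun k => ⟨inv_mem k.1, by rw [← mul_inv_rev]; exact inv_mem k.2⟩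
      mul_mem' := fun {x y} k k' => ⟨mul_mem k.1 k'.1, by
        obtain ⟨c, hc, e⟩ := msq x k.1 y k'.1
        rw [e]
        exact mul_mem hc (mul_mem k.2 k'.2)⟩ }
  have hP : P ≤ C2 := fun x hx => hx.1
  have i3 : P.relIndex C2 ≤ Nat.card N :=
    S64BCyc_idx (β := N) (fun x => ⟨x * x, sqN _ x.2.1.1⟩)
      fun x y e => ⟨mul_mem (inv_mem x.2) y.2, by
        have e' : (x : E) * x = y * y := congrArg Subtype.val e
        obtain ⟨c, hc, k⟩ := msq _ (inv_mem x.2) _ y.2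
        rwa [k, ← mul_inv_rev, e', inv_mul_cancel, mul_one]⟩
  refine ⟨P, fun x hx => hx.1.1.1, ⟨hAC2 hzA, mul_mem (mem_zpowers z) (mem_zpowers z)⟩, ?_,
    fun x hx => ⟨hx.2, fun g => cz x hx.1 g ?_⟩⟩
  · rw [← relIndex_mul_relIndex P C2 F hP fun x hx => hx.1.1,
      ← relIndex_mul_relIndex C2 C1 F inf_le_left inf_le_left, pow_three]
    exact Nat.mul_le_mul i3 (Nat.mul_le_mul i2 i1)
  · rw [← S64BCyc_cen hz hx.2 g, inv_mul_cancel_right, S64BCyc_cen hz hx.2 g]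

end Pool.Agent.Lib.MP_2d211a_co.S64
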