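import Pool.Agent.Lib.MP_2d211a_co.S64Def
import Pool.Agent.Lib.MP_2d211a_co.H30Step
import Pool.Agent.Lib.MP_2d211a_co.H42TwoF

/-!
Orthogonal matrices over group rings and the data of the recursion.
-/

namespace Pool.Agent.Lib.MP_2d211a_co.S64

open MonoidAlgebra Finset H62 H30 Subgroup
open scoped commutatorElement

variable {E : Type} [Group E] [Finite E]

/-- A matrix of order `m` over `ℤ[E]`, orthogonal modulo `1 + z`, whose entries are signed
transversals of `⟨z⟩` in `E`. -/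
def Mx (z : E) (m : ℕ) : Prop :=
  ∃ (ι : Type) (_ : Fintype ι) (_ : DecidableEq ι) (c : ℕ) (B : ι → ι → MonoidAlgebra ℤ E),
    Fintype.card ι = m ∧ 2 * c = m * Nat.card E ∧
    (∀ a b, ∃ n, Flat n (B a b) ∧ n * (1 + s z) = hat ⊤) ∧
    ∀ a a', (1 - s z) * ∑ b, B a b * star (B a' b) =
      (1 - s z) * if a = a' then (c : MonoidAlgebra ℤ E) else 0

theorem Mx.get {z : E} {m : ℕ} (h : Mx z m) (κ : Type) [Fintype κ] [DecidableEq κ]
    (hκ : Fintype.card κ = m) : ∃ (c : ℕ) (B : κ → κ → MonoidAlgebra ℤ E),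
      2 * c = m * Nat.card E ∧ (∀ a b, ∃ n, Flat n (B a b) ∧ n * (1 + s z) = hat ⊤) ∧
      ∀ a a', (1 - s z) * ∑ b, B a b * star (B a' b) =
        (1 - s z) * if a = a' then (c : MonoidAlgebra ℤ E) else 0 := by
  obtain ⟨ι, _, _, c, B, hι, h0, h1, h2⟩ := h
  have e := Fintype.equivOfCardEq (hκ.trans hι.symm)
  refine ⟨c, fun a b => B (e a) (e b), h0, fun _ _ => h1 _ _, fun a a' => ?_⟩
  rw [e.sum_comp fun b => B (e a) b * star (B (e a') b), h2]
  simp

/-- The same for the section `S / U`, written in `ℤ[E]`. -/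
def Mx' (z : E) (S U : Subgroup E) (m : ℕ) : Prop :=
  ∀ (κ : Type) [Fintype κ] [DecidableEq κ], Fintype.card κ = m →
    ∃ (c : ℕ) (B : κ → κ → MonoidAlgebra ℤ E), 2 * c * Nat.card U = m * Nat.card S ∧
      (∀ a b, ∃ n, Flat n (B a b) ∧ n * hat U * (1 + s z) = hat S) ∧
      (∀ a b, B a b * hat U = hat U * B a b) ∧
      ∀ a a', (1 - s z) * (∑ b, B a b * star (B a' b)) * hat U =
        (1 - s z) * (if a = a' then (c : MonoidAlgebra ℤ E) else 0) * hat U

/-- The data carried along the recursion. -/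
structure Node (z : E) (F N Q : Subgroup E) (d top θ : ℕ) : Prop where
  cen : Cen 2 z
  nF : F.Normal
  pF : IsPGroup 2 F
  zN : z ∈ N
  NQ : N ≤ Q
  QF : Q ≤ F
  fr : F ⊓ L E 1 ≤ N
  dN : Nat.card N ≤ 2 ^ d
  tp : 2 ^ top ≤ Q.relIndex F
  hi : z ∈ Hi Q θ

omit [Finite E] in
/-- A subgroup between `F ⊓ L E 1` and `F` is normal. -/
theorem normal_of_fr {F D : Subgroup E} [hF : F.Normal] (h1 : F ⊓ L E 1 ≤ D) (h2 : D ≤ F) :
    D.Normal :=
  normal_of_st2_le (R := F) (le_trans (le_inf (st2_le F) (st2_mono le_top)) h1) h2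

end Pool.Agent.Lib.MP_2d211a_co.S64
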