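import Pool.Agent.Lib.MP_2d211a_co.S64BCyc

/-!
A step exists.
-/

namespace Pool.Agent.Lib.MP_2d211a_co.S64

open MonoidAlgebra Finset H62 H30 Subgroup
open scoped commutatorElement

variable {E : Type} [Group E] [Finite E]

omit [Finite E] in
theorem S64BEx_zp {z x : E} (hz : z * z = 1) (h : x ∈ zpowers z) : x = 1 ∨ x = z := by
  obtain ⟨k, rfl⟩ := mem_zpowers_iff.1 h
  have h2 : z ^ (2 : ℤ) = 1 := by rw [zpow_two, hz]
  rcases Int.even_or_odd' k with ⟨j, rfl | rfl⟩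
  · left; rw [zpow_mul, h2, one_zpow]
  · right; rw [zpow_add, zpow_mul, h2, one_zpow, one_mul, zpow_one]

omit [Finite E] in
theorem S64BEx_zz {z : E} (hz : Cen 2 z) : z * z = 1 := by rw [← sq, hz.pow]

omit [Finite E] in
theorem S64BEx_cen {z c : E} (hz : Cen 2 z) (h : c ∈ zpowers z) (g : E) : g * c = c * g := by
  rcases S64BEx_zp (S64BEx_zz hz) h with rfl | rfl
  · simp
  · exact hz.comm g

/-- The elements whose commutators with `F` lie in `Z`. -/
def S64BEx_cz (F Z : Subgroup E) [hZ : Z.Normal] : Subgroup E where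
  carrier := {x | ∀ y ∈ F, ⁅x, y⁆ ∈ Z}
  one_mem' := fun y _ => by simp
  mul_mem' := fun {a b} ha hb y hy => by
    have : ⁅a * b, y⁆ = a * ⁅b, y⁆ * a⁻¹ * ⁅a, y⁆ := by
      simp only [commutatorElement_def]; group
    rw [this]
    exact mul_mem (hZ.conj_mem _ (hb y hy) a) (ha y hy)
  inv_mem' := fun {a} ha y hy => by
    have : ⁅a⁻¹, y⁆ = a⁻¹ * ⁅a, y⁆⁻¹ * a⁻¹⁻¹ := by
      simp only [commutatorElement_def]; group
    rw [this]
    exact hZ.conj_mem _ (inv_mem (ha y hy)) a⁻¹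

omit [Finite E] in
theorem S64BEx_cz_normal (F Z : Subgroup E) [hF : F.Normal] [hZ : Z.Normal] :
    (S64BEx_cz F Z).Normal :=
  ⟨fun x hx g y hy => by
    have : ⁅g * x * g⁻¹, y⁆ = g * ⁅x, g⁻¹ * y * g⁻¹⁻¹⁆ * g⁻¹ := by
      simp only [commutatorElement_def]; group
    rw [this]
    exact hZ.conj_mem _ (hx _ (hF.conj_mem _ hy g⁻¹)) g⟩

omit [Finite E] in
theorem S64BEx_sq {z : E} (hz : Cen 2 z) {A : Subgroup E} (hA : ∀ a ∈ A, a * a = 1) :
    ∀ x ∈ A ⊔ zpowers z, x * x = 1 := by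
  have : (zpowers z).Normal := ⟨fun c hc g => by
    rwa [S64BEx_cen hz hc g, mul_inv_cancel_right]⟩
  intro x hx
  obtain ⟨a, ha, c, hc, rfl⟩ := mem_sup_of_normal_right.1 hx
  have h1 : c * c = 1 := by
    rcases S64BEx_zp (S64BEx_zz hz) hc with rfl | rfl
    · simp
    · exact S64BEx_zz hz
  rw [mul_assoc, ← mul_assoc c, ← S64BEx_cen hz hc a, mul_assoc, h1, mul_one, hA a ha]

theorem S64BEx_card {z : E} (hz : Cen 2 z) {F A : Subgroup E} (hF : IsPGroup 2 F) (hzA : z ∈ A)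
    (hAF : A ≤ F) {y : E} (hy : y ∈ A) (hy' : y ∉ zpowers z) :
    ∃ h, Nat.card A = 2 ^ (h + 1) ∧ 1 ≤ h := by
  obtain ⟨n, hn⟩ := (hF.to_le hAF).exists_card_eq
  have h2 : Nat.card (zpowers z) = 2 := card_zp hz.ne hz.pow
  have h3 : ¬ Nat.card A ≤ Nat.card (zpowers z) := fun h =>
    hy' (eq_of_le_of_card_ge (zpowers_le.2 hzA) h ▸ hy)
  rw [h2, hn] at h3
  match n, hn, h3 with
  | 0, _, h3 => simp at h3
  | 1, _, h3 => simp at h3
  | k + 2, hn, _ => exact ⟨k + 1, hn, by omega⟩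

theorem S64BEx_two {z : E} (hz : Cen 2 z) {P : Subgroup E}
    (hP : ∀ x ∈ P, ∀ g, ⁅x, g⁆ ∈ zpowers z) (x : E) :
    (centralizer {x}).relIndex P ≤ 2 := by
  let φ : P →* E :=
    { toFun := fun u => ⁅(u : E), x⁆
      map_one' := by simp
      map_mul' := fun u v => by
        have : ⁅(u : E) * v, x⁆ = u * ⁅(v : E), x⁆ * (u : E)⁻¹ * ⁅(u : E), x⁆ := by
          simp only [commutatorElement_def]; group
        rw [Subgroup.coe_mul, this, S64BEx_cen hz (hP v v.2 x) u, mul_inv_cancel_right,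
          S64BEx_cen hz (hP u u.2 x)] }
  have h1 : (centralizer {x}).subgroupOf P = φ.ker := by
    ext u
    rw [mem_subgroupOf, mem_centralizer_singleton_iff, MonoidHom.mem_ker]
    exact commutatorElement_eq_one_iff_mul_comm.symm
  have h2 : φ.range ≤ zpowers z := by
    rintro _ ⟨u, rfl⟩
    exact hP u u.2 x
  rw [relIndex, h1, index_ker, ← card_zp hz.ne hz.pow]
  exact card_le_of_le h2

theorem S64BEx_ab {z : E} (hz : Cen 2 z) {P : Subgroup E}
    (hP : ∀ x ∈ P, x * x ∈ zpowers z ∧ ∀ g, ⁅x, g⁆ ∈ zpowers z)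
    (hc : ∀ w ∈ P, w * w = 1 → ∀ x ∈ P, w * x = x * w) :
    ∃ C ≤ P, C.relIndex P ≤ 4 ∧ ∀ u ∈ C, ∀ v ∈ C, u * v = v * u := by
  by_cases h : ∀ x ∈ P, ∀ y ∈ P, x * y = y * x
  · exact ⟨P, le_rfl, by simp, h⟩
  push Not at h
  obtain ⟨x, hx, y, hy, hxy⟩ := h
  have sq : ∀ a ∈ P, ∀ b ∈ P, a * b ≠ b * a → a * a = z := fun a ha b hb hab =>
    (S64BEx_zp (S64BEx_zz hz) (hP a ha).1).resolve_left fun e => hab (hc a ha e b hb)
  refine ⟨P ⊓ (centralizer {x} ⊓ centralizer {y}), inf_le_left, ?_, fun u hu v hv => ?_⟩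
  · rw [inf_relIndex_left]
    exact relIndex_inf_le.trans (Nat.mul_le_mul (S64BEx_two hz (fun a ha => (hP a ha).2) x)
      (S64BEx_two hz (fun a ha => (hP a ha).2) y))
  · by_contra huv
    have ux : u * x = x * u := mem_centralizer_singleton_iff.1 hu.2.1
    have uy : u * y = y * u := mem_centralizer_singleton_iff.1 hu.2.2
    have h1 : x * u * (x * u) = 1 := by
      rw [mul_assoc, ← mul_assoc u, ux, mul_assoc, ← mul_assoc, sq x hx y hy hxy,
        sq u hu.1 v hv.1 huv, S64BEx_zz hz]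
    have h2 := hc _ (mul_mem hx hu.1) h1 y hy
    rw [mul_assoc, uy, ← mul_assoc, ← mul_assoc] at h2
    exact hxy (mul_right_cancel h2)

theorem exists_stepB {z : E} {F N Q : Subgroup E} {d top θ : ℕ} (hN : Node z F N Q d top θ)
    (hθ : 3 * d + 2 ≤ θ) : ∃ (A : Subgroup E) (h h' : ℕ), A.Normal ∧ z ∈ A ∧ A ≤ F ∧
      (∀ a ∈ A, a * a = 1) ∧ (∀ a ∈ A, ∀ x ∈ F, ⁅a, x⁆ ∈ zpowers z) ∧
      Nat.card A = 2 ^ (h + 1) ∧ (centralizer (A : Set E)).relIndex F = 2 ^ h' ∧ h' ≤ h ∧ 1 ≤ h ∧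
      (A ≤ N ∨ (h = 1 ∧ h' = 1)) := by
  have hz := hN.cen
  have nF := hN.nF
  have NF : N ≤ F := hN.NQ.trans hN.QF
  have nZ : (zpowers z).Normal := ⟨fun c hc g => by
    rwa [S64BEx_cen hz hc g, mul_inv_cancel_right]⟩
  by_cases h : ∀ A : Subgroup E, A.Normal → A ≤ N → (∀ a ∈ A, a * a = 1) → A ≤ zpowers z
  · obtain ⟨P, PF, zP, hi, hP⟩ := exists_P0 hz hN.pF hN.zN NF hN.fr h
    have hw : ¬ ∀ w ∈ P, w * w = 1 → ∀ x ∈ P, w * x = x * w := fun hc => by
      obtain ⟨C, CP, c1, c2⟩ := S64BEx_ab hz hP hc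
      have h1 : (Q ⊓ C).relIndex Q ≤ 2 ^ θ := by
        rw [inf_relIndex_left]
        refine (relIndex_le_of_le_right hN.QF index_ne_zero_of_finite).trans ?_
        rw [← relIndex_mul_relIndex C P F CP PF]
        calc _ ≤ 4 * (2 ^ d) ^ 3 :=
              Nat.mul_le_mul c1 (hi.trans (Nat.pow_le_pow_left hN.dN 3))
          _ = 2 ^ (3 * d + 2) := by ring
          _ ≤ 2 ^ θ := Nat.pow_le_pow_right two_pos hθ
      have h2 := mem_Hi.1 hN.hi _ inf_le_left h1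
      have h3 : ⁅Q ⊓ C, Q ⊓ C⁆ ≤ ⊥ := commutator_le.2 fun u hu v hv =>
        mem_bot.2 (commutatorElement_eq_one_iff_mul_comm.2 (c2 u hu.2 v hv.2))
      exact hz.ne (mem_bot.1 (h3 h2))
    push Not at hw
    obtain ⟨w, wP, ww, x, xP, wx⟩ := hw
    have AP : zpowers w ⊔ zpowers z ≤ P := sup_le (zpowers_le.2 wP) (zpowers_le.2 zP)
    have zA : z ∈ zpowers w ⊔ zpowers z := mem_sup_right (mem_zpowers z)
    have wA : w ∈ zpowers w ⊔ zpowers z := mem_sup_left (mem_zpowers w)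
    have wz : w ∉ zpowers z := fun e => wx (S64BEx_cen hz e x).symm
    have cm : ∀ a ∈ zpowers w ⊔ zpowers z, ∀ y ∈ F, ⁅a, y⁆ ∈ zpowers z := fun a ha y _ =>
      (hP a (AP ha)).2 y
    obtain ⟨k, k1, k2⟩ := S64BEx_card hz hN.pF zA (AP.trans PF) wA wz
    obtain ⟨k', k3, k4⟩ := cent_index hz hN.pF zA cm k1
    have c4 : Nat.card (zpowers w ⊔ zpowers z : Subgroup E) ≤ 4 := by
      have sub : ((zpowers w ⊔ zpowers z : Subgroup E) : Set E) ⊆ {1 * 1, 1 * z, w * 1, w * z} := by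
        intro y hy
        obtain ⟨a, ha, c, hc, rfl⟩ := mem_sup_of_normal_right.1 hy
        rcases S64BEx_zp ww ha with rfl | rfl <;>
          rcases S64BEx_zp (S64BEx_zz hz) hc with rfl | rfl <;> simp
      have h1 := Set.ncard_le_ncard sub (Set.toFinite _)
      have h2 := Set.ncard_insert_le (1 * 1 : E) {1 * z, w * 1, w * z}
      have h3 := Set.ncard_insert_le (1 * z : E) {w * 1, w * z}
      have h4 := Set.ncard_insert_le (w * 1 : E) {w * z}
      rw [Set.ncard_singleton] at h4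
      change Nat.card ((zpowers w ⊔ zpowers z : Subgroup E) : Set E) ≤ 4
      rw [Nat.card_coe_set_eq]
      omega
    have e1 : k = 1 := by
      rw [k1] at c4
      have := (Nat.pow_le_pow_iff_right one_lt_two).1 (show 2 ^ (k + 1) ≤ 2 ^ 2 from c4)
      omega
    have e2 : k' ≠ 0 := by
      rintro rfl
      rw [pow_zero, relIndex_eq_one] at k4
      exact wx (mem_centralizer_iff.1 (k4 (PF xP)) w wA)
    refine ⟨_, k, k', normal_of_st2_le (R := zpowers w ⊔ zpowers z)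
      (st2_le_iff.2 fun y hy => ⟨mul_mem hy hy, fun g => mem_sup_right ((hP y (AP hy)).2 g)⟩) le_rfl,
      zA, AP.trans PF, S64BEx_sq hz fun a ha => ?_, cm, k1, k4, k3, k2, .inr ⟨e1, by omega⟩⟩
    rcases S64BEx_zp ww ha with rfl | rfl
    · simp
    · exact ww
  · push Not at h
    obtain ⟨A, nA, AN, hA, hne⟩ := h
    have BN : A ⊔ zpowers z ≤ N := sup_le AN (zpowers_le.2 hN.zN)
    obtain ⟨y, y1, y2, -, y3⟩ := upB (A := zpowers z) (D := A ⊔ zpowers z) hN.pF le_sup_right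
      (BN.trans NF) fun e => hne (le_sup_left.trans e)
    have nC := S64BEx_cz_normal F (zpowers z)
    have zA : z ∈ (A ⊔ zpowers z) ⊓ S64BEx_cz F (zpowers z) :=
      ⟨mem_sup_right (mem_zpowers z), fun x _ => by
        rw [commutatorElement_eq_one_iff_mul_comm.2 (hz.comm x).symm]; exact one_mem _⟩
    have AF : (A ⊔ zpowers z) ⊓ S64BEx_cz F (zpowers z) ≤ F := inf_le_left.trans (BN.trans NF)
    obtain ⟨k, k1, k2⟩ := S64BEx_card hz hN.pF zA AF ⟨y1, y3⟩ y2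
    obtain ⟨k', k3, k4⟩ := cent_index hz hN.pF zA (fun a ha => ha.2) k1
    exact ⟨_, k, k', inferInstance, zA, AF, fun a ha => S64BEx_sq hz hA a ha.1, fun a ha => ha.2,
      k1, k4, k3, k2, .inl (inf_le_left.trans BN)⟩

end Pool.Agent.Lib.MP_2d211a_co.S64
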