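import Pool.Agent.Lib.MP_2d211a_co.S64BTile
import Pool.Agent.Lib.MP_2d211a_co.S64BMk

/-!
The end of the recursion.
-/

namespace Pool.Agent.Lib.MP_2d211a_co.S64

open MonoidAlgebra Finset H62 H30 Subgroup
open scoped commutatorElement

variable {E : Type} [Group E] [Finite E]

theorem S64BLeaf_odd {z : E} (hz : Cen 2 z) {n e : ℕ} (hE : Nat.card E = 2 ^ n) (ho : Odd n)
    (he : ∀ x : E, x ^ 2 ^ e = 1) (hn : 2 * e + 2 ≤ n) : ∃ m X, Good z m X := by
  obtain ⟨e', h1, h2⟩ := (Nat.dvd_prime_pow Nat.prime_two).1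
    (Monoid.exponent_dvd_iff_forall_pow_eq_one.2 he)
  exact two_odd' hE h2 (by omega) ho (by omega) (fun h => by omega) hz

omit [Finite E] in
theorem S64BLeaf_flat {X : MonoidAlgebra ℤ E} (h : Nn X) : Flat X X :=
  ⟨X, 0, h, nn_zero, by simp, by simp⟩

theorem S64BLeaf_one {z : E} (hz : Cen 2 z) {m : ℤ} {X : MonoidAlgebra ℤ E} (h : Good z m X) :
    Mx z 2 := by
  have f := S64BLeaf_flat h.nn
  have t : X * (1 + s z) = hat ⊤ := by rw [← hat_zpowers hz, h.tr]
  have u : (1 - s z) * (X * star X) = (1 - s z) * m := h.un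
  refine Mx.mk' (ι := Bool) hz (2 * m) (fun a b => if a ∧ b then -X else X)
    (fun a b => ⟨X, ?_, t⟩) fun a a' => ?_
  · split_ifs
    exacts [f.neg, f]
  · cases a <;> cases a' <;> simp [mul_add, u, two_mul]

theorem S64BLeaf_pair {z : E} (hz : Cen 2 z) {m : ℤ} {X Y : MonoidAlgebra ℤ E} (hX : Nn X)
    (hY : Nn Y) (t : (X + Y) * (1 + s z) = hat ⊤)
    (u : (1 - s z) * (X * star X) = (1 - s z) * m)
    (v : (1 - s z) * (Y * star Y) = (1 - s z) * m) : Mx z 2 := by
  have f := S64BLeaf_flat hX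
  have g := S64BLeaf_flat hY
  have e1 : (X + Y) * star (X + Y) + (X - Y) * star (X - Y) =
      (X * star X + Y * star Y) + (X * star X + Y * star Y) := by
    rw [star_add, star_sub]; noncomm_ring
  have e2 : (X + Y) * star (X - Y) + (X - Y) * star (X + Y) =
      (X * star X - Y * star Y) + (X * star X - Y * star Y) := by
    rw [star_add, star_sub]; noncomm_ring
  refine Mx.mk' (ι := Bool) hz (m + m + (m + m)) (fun a b => if a = b then X + Y else X - Y)
    (fun a b => ⟨X + Y, ?_, t⟩) fun a a' => ?_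
  · split_ifs
    exacts [f.add g, f.sub g]
  · cases a <;> cases a' <;>
      simp only [Fintype.sum_bool, if_true, Bool.true_eq_false, Bool.false_eq_true, if_false, e1, e2,
        add_comm ((X - Y) * _), Int.cast_add, mul_add (1 - s z), mul_sub (1 - s z), u, v, sub_self,
        add_zero, mul_zero]

theorem mx_two {z : E} (hz : Cen 2 z) (hE : IsPGroup 2 E) {e : ℕ} (he : ∀ x : E, x ^ 2 ^ e = 1)
    (hn : 2 ^ (2 * e + 4) ≤ Nat.card E) : Mx z 2 := by
  have := Fact.mk Nat.prime_two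
  obtain ⟨n, hc⟩ := hE.exists_card_eq
  rw [hc, Nat.pow_le_pow_iff_right one_lt_two] at hn
  rcases Nat.even_or_odd n with ho | ho
  · obtain ⟨n, rfl⟩ : ∃ k, n = k + 1 := ⟨n - 1, by omega⟩
    have hz1 : Nat.card (zpowers z) = 2 ^ 1 := by
      rw [Nat.card_zpowers, orderOf_eq_prime hz.pow hz.ne, pow_one]
    obtain ⟨K, hK, hzK⟩ := Sylow.exists_subgroup_card_pow_prime_le 2 (n := 1) (m := n)
      (hc ▸ pow_dvd_pow 2 n.le_succ) (zpowers z) hz1 (by omega)
    have hm : z ∈ K := hzK (mem_zpowers z)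
    have hz' : Cen 2 (⟨z, hm⟩ : K) := ⟨fun g => Subtype.ext (hz.comm g),
      fun h => hz.ne (congrArg Subtype.val h), Subtype.ext hz.pow⟩
    obtain ⟨m, X, h⟩ := S64BLeaf_odd hz' hK (Nat.not_even_iff_odd.1 (Nat.even_add_one.1 ho))
      (e := e) (fun x => Subtype.ext (he x)) (by omega)
    obtain ⟨y, -, hy⟩ := SetLike.exists_of_lt (lt_top_iff_ne_top.2 fun h : K = ⊤ => by
      rw [h, card_top, hc] at hK
      exact absurd (Nat.pow_right_injective le_rfl hK) (by omega))
    have t : mapDomainRingHom ℤ K.subtype X * (1 + s z) = hat K := by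
      have := congrArg (mapDomainRingHom ℤ K.subtype) h.tr
      rwa [hat_zpowers hz', map_mul, map_add, map_one, map_s, ← K.subgroupOf_self,
        map_hat K K le_rfl] at this
    have u : (1 - s z) * (mapDomainRingHom ℤ K.subtype X *
        star (mapDomainRingHom ℤ K.subtype X)) = (1 - s z) * m := by
      have := congrArg (mapDomainRingHom ℤ K.subtype) h.un
      rwa [map_mul, map_mul, map_mul, map_sub, map_one, map_s, map_st, map_intCast] at this
    have nn := h.nn.map K.subtype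
    generalize mapDomainRingHom ℤ K.subtype X = W at t u nn
    have inj : ∀ i j : Bool, (if i then y else 1)⁻¹ * (if j then y else 1) ∈ K → i = j :=
      fun i j => by cases i <;> cases j <;> simp [hy]
    have e1 := sum_s_hat (L := ⊤) _ le_top (fun _ => mem_top _) inj
      (sur_of_card _ le_top (fun _ => mem_top _) inj (by simp [hc, hK, pow_succ']))
    refine S64BLeaf_pair hz (m := m) nn ((Nn.s y).mul nn) ?_ u ?_
    · rw [add_mul, mul_assoc, t, ← e1]
      simp [s_one, add_comm]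
    · rw [star_mul, ← mul_assoc (s y * W), mul_assoc (s y), hz.mid, u, ← hz.mid, star_s,
        ← Int.cast_comm, mul_assoc, s_mul, mul_inv_cancel, s_one, mul_one]
  · obtain ⟨m, X, h⟩ := S64BLeaf_odd hz hc ho he (by omega)
    exact S64BLeaf_one hz h

theorem S64BLeaf_pow {z : E} (hz : Cen 2 z) {F : Subgroup E} [F.Normal] (hF : IsPGroup 2 F)
    (hzF : z ∈ F) {e : ℕ} (he : ∀ x ∈ F, x ^ 2 ^ e = 1) (hn : 2 ^ (2 * e + 4) ≤ Nat.card F) {k : ℕ}
    (hk : 4 * F.index ^ 8 ≤ 2 ^ k) : Mx z (2 ^ (k + 1)) := by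
  obtain ⟨v, B, b1, b2⟩ := exists_trans_matrix F hF hk (Fin (2 ^ k)) (Fintype.card_fin _)
  have hz' : Cen 2 (⟨z, hzF⟩ : F) := ⟨fun g => Subtype.ext (hz.comm g),
    fun h => hz.ne (congrArg Subtype.val h), Subtype.ext hz.pow⟩
  obtain ⟨c, D, -, d1, d2⟩ := (mx_two hz' hF (fun x => Subtype.ext (he x x.2)) hn).get Bool rfl
  have d3 : ∀ a b, ∃ n, Flat n (mapDomainRingHom ℤ F.subtype (D a b)) ∧ n * (1 + s z) = hat F :=
    fun a b => by
      obtain ⟨n, f, t⟩ := d1 a b
      refine ⟨_, f.map F.subtype, ?_⟩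
      have := congrArg (mapDomainRingHom ℤ F.subtype) t
      rwa [map_mul, map_add, map_one, map_s, ← F.subgroupOf_self, map_hat F F le_rfl] at this
  have d4 : ∀ a a', (1 - s z) * ∑ b, mapDomainRingHom ℤ F.subtype (D a b) *
      star (mapDomainRingHom ℤ F.subtype (D a' b)) =
        (1 - s z) * if a = a' then (c : MonoidAlgebra ℤ E) else 0 := fun a a' => by
    have := congrArg (mapDomainRingHom ℤ F.subtype) (d2 a a')
    simp only [map_mul, map_sub, map_one, map_s, map_sum, star_eq, map_st] at this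
    refine this.trans ?_
    split_ifs
    · rw [map_natCast]; rfl
    · rw [map_zero]; rfl
  have := Mx.mk' (ι := Fin (2 ^ k) × Bool) hz (v * c)
    (fun a b => B a.1 b.1 * mapDomainRingHom ℤ F.subtype (D a.2 b.2)) (fun a b => ?_) ?_
  · rwa [Fintype.card_prod, Fintype.card_fin, Fintype.card_bool, ← pow_succ] at this
  · obtain ⟨n, f, t⟩ := b1 a.1 b.1
    obtain ⟨n', f', t'⟩ := d3 a.2 b.2
    exact ⟨n * n', f.mul f', by rw [mul_assoc, t', t]⟩
  · rintro ⟨a, x⟩ ⟨a', x'⟩
    have e1 : ∀ b, ∑ d, B a b * mapDomainRingHom ℤ F.subtype (D x d) *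
        star (B a' b * mapDomainRingHom ℤ F.subtype (D x' d)) =
        B a b * (∑ d, mapDomainRingHom ℤ F.subtype (D x d) *
          star (mapDomainRingHom ℤ F.subtype (D x' d))) * star (B a' b) := fun b => by
      simp only [star_mul, mul_sum, sum_mul, mul_assoc]
    have e2 : ∀ (p q : MonoidAlgebra ℤ E) (c : ℕ), p * c * q = p * q * c := fun p q c => by
      rw [mul_assoc, Nat.cast_comm, mul_assoc]
    simp only [Fintype.sum_prod_type, e1, Prod.mk.injEq]
    rw [mul_sum]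
    simp only [hz.mid, d4]
    simp only [← hz.mid]
    rw [← mul_sum]
    congr 1
    by_cases hc : x = x'
    · simp only [hc, if_true, and_true, e2, ← sum_mul, b2]
      split_ifs
      · push_cast; rfl
      · simp
    · simp [hc]

theorem S64BLeaf_desc {Γ : Type} [Group Γ] [Fintype Γ] {z : E} (hz : Cen 2 z) {m : ℕ}
    (h : Mx ((z, 1) : E × Γ) m) : Mx z (Fintype.card Γ * m) := by
  classical
  obtain ⟨c, B, -, b1, b2⟩ := h.get (Fin m) (Fintype.card_fin _)
  have p1 : ∀ (δ : Γ) (x : MonoidAlgebra ℤ (E × Γ)),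
      (1 - s z) * pr δ x = pr δ ((1 - s (z, 1)) * x) := fun δ x => by
    ext g
    simp [sub_mul, s, pr_coeff]
  have p2 : ∀ δ : Γ, pr δ (c : MonoidAlgebra ℤ (E × Γ)) =
      if δ = 1 then (c : MonoidAlgebra ℤ E) else 0 := fun δ => by
    ext g
    by_cases c2 : δ = 1 <;>
      simp [c2, pr_coeff, natCast_def, Finsupp.single_apply, Prod.ext_iff, eq_comm]
  have := Mx.mk' (ι := Γ × Fin m) hz c (fun x y => pr (x.1⁻¹ * y.1) (B x.2 y.2))
    (fun x y => ?_) ?_
  · rwa [Fintype.card_prod, Fintype.card_fin] at this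
  · obtain ⟨n, ⟨c, d, hc, hd, e1, e2⟩, t⟩ := b1 x.2 y.2
    refine ⟨pr (x.1⁻¹ * y.1) n, ⟨_, _, fun g => hc _, fun g => hd _, by rw [e1, map_add],
      by simp only [e2, map_sub]⟩, ?_⟩
    ext g
    have := congrArg (fun X => X.coeff (g, x.1⁻¹ * y.1)) t
    simpa [mul_add, s, pr_coeff, hat_coeff] using this
  · rintro ⟨γ, a⟩ ⟨γ', a'⟩
    rw [Fintype.sum_prod_type_right]
    simp only [pr_mul, ← map_sum]
    rw [p1, b2, ← p1]
    congr 1
    by_cases c1 : a = a'
    · simp [c1, p2, inv_mul_eq_one]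
    · simp [c1]

theorem leaf {z : E} (hz : Cen 2 z) {F : Subgroup E} [F.Normal] (hF : IsPGroup 2 F) (hzF : z ∈ F)
    {e : ℕ} (he : ∀ x ∈ F, x ^ 2 ^ e = 1) (hn : 2 ^ (2 * e + 4) ≤ Nat.card F) {o k : ℕ}
    (ho : 0 < o) (hk : 8 * (o * F.index) ^ 8 ≤ 2 ^ k) : Mx z (o * 2 ^ k) := by
  have := NeZero.of_pos ho
  have h0 : 0 < (o * F.index) ^ 8 := pow_pos (mul_pos ho (Nat.pos_of_ne_zero F.index_ne_zero_of_finite)) _
  obtain ⟨k, rfl⟩ : ∃ j, k = j + 1 := by
    cases k with
    | zero => omega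
    | succ j => exact ⟨j, rfl⟩
  let Γ := Multiplicative (ZMod o)
  have hΓ : Fintype.card Γ = o := by simp [Γ]
  have hz' : Cen 2 ((z, 1) : E × Γ) := ⟨fun g => Prod.ext (hz.comm g.1) (by simp),
    fun h => hz.ne (congrArg Prod.fst h), Prod.ext hz.pow (by simp)⟩
  have hc : Nat.card (F.prod (⊥ : Subgroup Γ)) = Nat.card F := by
    rw [Nat.card_congr (F.prodEquiv ⊥).toEquiv]; simp
  have := Fact.mk Nat.prime_two
  obtain ⟨n, hn'⟩ := hF.exists_card_eq
  have h := S64BLeaf_pow hz' (F := F.prod ⊥) (.of_card (hc.trans hn')) ⟨hzF, rfl⟩ (e := e)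
    (fun x hx => Prod.ext (he x.1 hx.1) (by rw [Prod.pow_snd, mem_bot.1 hx.2, one_pow]; rfl))
    (hc ▸ hn) (k := k) (by
      rw [index_prod, index_bot, Nat.card_eq_fintype_card, hΓ, mul_comm F.index]
      rw [pow_succ 2 k] at hk
      omega)
  simpa only [hΓ] using S64BLeaf_desc hz h

end Pool.Agent.Lib.MP_2d211a_co.S64
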