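import Pool.Agent.Lib.MP_2d211a_co.S64BStep
import Pool.Agent.Lib.MP_2d211a_co.S64BEx
import Pool.Agent.Lib.MP_2d211a_co.S64BLeaf

/-!
The recursion.
-/

namespace Pool.Agent.Lib.MP_2d211a_co.S64

open MonoidAlgebra Finset H62 H30 Subgroup
open scoped commutatorElement

section
variable {E : Type} [Group E] [Finite E] {z : E} {F N Q : Subgroup E} {d top θ : ℕ}

theorem S64BInd_leaf (hN : Node z F N Q d top θ) {a m k : ℕ} (ha : 0 < a)
    (hm : m * F.index = a * 2 ^ k) (hi : F.index ≤ a) (hk : 8 * a ^ 17 ≤ 2 ^ k)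
    (ht : 2 * d + 6 ≤ top) : Mx z m := by
  have := hN.nF
  have m0 : m ≠ 0 := by
    rintro rfl
    exact absurd hm.symm (by simpa using ha.ne')
  obtain ⟨j, o, ho, rfl⟩ := Nat.exists_eq_two_pow_mul_odd m0
  have o1 : o ∣ a := by
    refine (Nat.Coprime.pow_right k ho.coprime_two_right).dvd_of_dvd_mul_right ?_
    rw [← hm]
    exact Dvd.dvd.mul_right (Dvd.intro_left _ rfl) _
  have o2 : o * F.index ≤ a * a := Nat.mul_le_mul (Nat.le_of_dvd ha o1) hi
  have o3 : 8 * (a * a) ^ 8 ≤ 2 ^ j := by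
    have b1 : a * 2 ^ k ≤ 2 ^ j * (a * a) := by
      rw [← hm, mul_assoc]
      exact Nat.mul_le_mul_left _ o2
    have b2 : a * a * (8 * (a * a) ^ 8) ≤ a * a * 2 ^ j :=
      calc a * a * (8 * (a * a) ^ 8) = a * (8 * a ^ 17) := by ring
        _ ≤ a * 2 ^ k := Nat.mul_le_mul_left _ hk
        _ ≤ a * a * 2 ^ j := by rw [mul_comm (a * a)]; exact b1
    exact Nat.le_of_mul_le_mul_left b2 (Nat.mul_pos ha ha)
  obtain ⟨i, hi'⟩ := IsPGroup.iff_card.1 (hN.pF.to_le (hN.NQ.trans hN.QF))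
  have i1 : i ≤ d := (Nat.pow_le_pow_iff_right one_lt_two).1 (hi' ▸ hN.dN)
  rw [mul_comm]
  refine leaf hN.cen hN.pF (hN.QF (hN.NQ hN.zN)) (e := d + 1) (fun x hx => ?_) ?_ ho.pos
    (le_trans (Nat.mul_le_mul_left _ (Nat.pow_le_pow_left o2 8)) o3)
  · have h1 : x * x ∈ N := hN.fr ⟨mul_mem hx hx, sq_mem_st2 (mem_top x)⟩
    have h2 : (x * x) ^ 2 ^ i = 1 := by
      have := pow_card_eq_one' (x := (⟨x * x, h1⟩ : N))
      rw [hi'] at this
      exact congrArg Subtype.val this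
    obtain ⟨c, rfl⟩ := Nat.exists_eq_add_of_le i1
    rw [pow_succ', pow_mul, pow_two, pow_add, pow_mul, h2, one_pow]
  · refine le_trans (Nat.pow_le_pow_right two_pos (by omega)) (hN.tp.trans ?_)
    exact Nat.le_of_dvd Nat.card_pos (index_dvd_card _)

theorem S64BInd_two (hz : Cen 2 z) {A : Subgroup E} (h : z ∈ A) : 2 ≤ Nat.card A := by
  rw [← card_zp hz.ne hz.pow]
  exact card_le_of_le (zpowers_le.2 h)

/-- A step with `A` inside `N`. -/
theorem stepN (hN : Node z F N Q d top θ) {A : Subgroup E} [A.Normal] (hzA : z ∈ A) (hAN : A ≤ N)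
    (hA : ∀ a ∈ A, a * a = 1) (hAz : ∀ a ∈ A, ∀ x ∈ F, ⁅a, x⁆ ∈ zpowers z) {h h' : ℕ}
    (hc : Nat.card A = 2 ^ (h + 1)) (hC : (centralizer (A : Set E)).relIndex F = 2 ^ h')
    (ht : h + 1 ≤ d → h + h' ≤ top ∧ h' ≤ θ) {m : ℕ}
    (ih : h + 1 ≤ d → ∀ (E' : Type) [Group E'] [Finite E'] (z' : E') (F' N' Q' : Subgroup E')
      (o : ℕ), Node z' F' N' Q' (d - h) (top - (h + h')) (θ - h') →
      o * F'.index = F.index * 2 ^ h' → F'.index ≤ F.index → Mx z' (o * m)) : Mx z m := by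
  have h1 : h + 1 ≤ d :=
    (Nat.pow_le_pow_iff_right one_lt_two).1 (hc ▸ (card_le_of_le hAN).trans hN.dN)
  refine step hN hzA (hAN.trans (hN.NQ.trans hN.QF)) hA hAz (j := 0) (d' := d - h) hc hC ?_ ?_
    (ht h1).1 (ht h1).2 (ih h1)
  · rw [sup_eq_left.2 (hAN.trans hN.NQ), relIndex_self, pow_zero]
  · rw [inf_eq_right.2 hAN, hc, ← pow_add, show d - h + (h + 1) = d + 1 by omega, pow_succ']
    exact Nat.mul_le_mul_left _ hN.dN

end

theorem recursion {a ρ : ℕ} (ha : 0 < a) (hρ : 8 * a ^ 17 ≤ 2 ^ ρ) (w : ℕ) :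
    ∀ (d u : ℕ), d + u ≤ w → ∀ (E : Type) [Group E] [Finite E] (z : E) (F N Q : Subgroup E)
      (top θ m k : ℕ), Node z F N Q d top θ → m * F.index = a * 2 ^ k → F.index ≤ a →
      ρ ≤ k + u → 4 * d + 3 * u + 6 ≤ top → 4 * d + u + 2 ≤ θ → Mx z m := by
  induction w using Nat.strong_induction_on with
  | _ w IH =>
  intro d u hw E _ _ z F N Q top θ m k hN hm hi hk ht hθ
  rcases u with _ | u
  · exact S64BInd_leaf hN ha hm hi (hρ.trans (Nat.pow_le_pow_right two_pos hk)) (by omega)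
  obtain ⟨A, h, h', a0, a1, a2, a3, a4, a5, a6, a7, a8, a9⟩ := exists_stepB hN (by omega)
  have key : ∀ {o i i' : ℕ}, o * i' = F.index * 2 ^ i → o * m * i' = a * 2 ^ (k + i) := by
    intro o i i' e
    rw [mul_right_comm, e, mul_right_comm, mul_comm _ m, hm, pow_add, mul_assoc]
  rcases a9 with a9 | ⟨rfl, rfl⟩
  · refine stepN hN a1 a9 a3 a4 a5 a6 (fun _ => by omega)
      fun _ E' _ _ z' F' N' Q' o b1 b2 b3 => ?_
    exact IH (d - h + (u + 1)) (by omega) _ _ le_rfl E' z' F' N' Q' _ _ _ (k + h') b1 (key b2)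
      (b3.trans hi) (by omega) (by omega) (by omega)
  · have := hN.nF
    have : Q.Normal := normal_of_fr (hN.fr.trans hN.NQ) hN.QF
    refine step hN a1 a2 a3 a4 (j := 1) (d' := d) a5 a6 ?_ ?_ (by omega) (by omega)
      fun E' _ _ z' F' N' Q' o b1 b2 b3 => ?_
    · rw [relIndex_sup_left]
      have b1 : 2 ≤ Nat.card (Q.subgroupOf A) := by
        rw [← inf_subgroupOf_right, Nat.card_congr (subgroupOfEquivOfLe inf_le_right).toEquiv]
        exact S64BInd_two hN.cen ⟨hN.NQ hN.zN, a1⟩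
      have b2 := (Q.subgroupOf A).card_mul_index
      rw [a5] at b2
      have b3 := Nat.mul_le_mul_right (Q.subgroupOf A).index b1
      change (Q.subgroupOf A).index ≤ _
      omega
    · rw [mul_comm]
      exact Nat.mul_le_mul hN.dN (S64BInd_two hN.cen ⟨hN.zN, a1⟩)
    · exact IH (d + u) (by omega) _ _ le_rfl E' z' F' N' Q' _ _ _ (k + 1) b1 (key b2)
        (b3.trans hi) (by omega) (by omega) (by omega)

end Pool.Agent.Lib.MP_2d211a_co.S64
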