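import Pool.Agent.Lib.MP_2d211a_co.S64BInd

/-!
The start of the recursion.
-/

namespace Pool.Agent.Lib.MP_2d211a_co.S64

open MonoidAlgebra Finset H62 H30 Subgroup
open scoped commutatorElement

theorem S64BRoot_conj {F G : Type} [Group F] [Group G] (f : F →* G) (hf : Function.Injective f)
    [f.range.Normal] : ∃ c : G → MulAut F, ∀ g x, f (c g x) = g * f x * g⁻¹ := by
  refine ⟨fun g => (MonoidHom.ofInjective hf).trans
    ((MulAut.conjNormal g).trans (MonoidHom.ofInjective hf).symm), fun g x => ?_⟩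
  rw [MulEquiv.trans_apply, MulEquiv.trans_apply, MonoidHom.apply_ofInjective_symm,
    MulAut.conjNormal_apply, MonoidHom.ofInjective_apply]

theorem S64BRoot_Z0 {F : Type} [Group F] (α : MulAut F) {x : F} (hx : x ∈ Z0 F) : α x ∈ Z0 F := by
  refine ⟨L_map_le (α : F →* F) 1 (mem_map_of_mem _ hx.1), fun g => ?_, by
    rw [← map_mul, hx.2.2, map_one]⟩
  obtain ⟨g, rfl⟩ := α.surjective g
  rw [← map_mul, ← map_mul, hx.2.1]

/-- Every element of `G` acts trivially on `F / W0`. -/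
theorem S64BRoot_mov {F G : Type} [Group F] [Group G] (f : F →* G) (hf : Function.Injective f)
    (c : G → MulAut F) (hc : ∀ g x, f (c g x) = g * f x * g⁻¹) {T : Set G}
    (hT : f.range ⊔ closure T = ⊤) {W : Subgroup F} (hW : L F 1 ≤ W)
    (h : ∀ g ∈ T, ∀ x, x⁻¹ * c g x ∈ W) (g : G) (x : F) : x⁻¹ * c g x ∈ W := by
  have hmul : ∀ a b x, c (a * b) x = c a (c b x) := fun a b x => hf (by
    rw [hc, hc, hc]; group)
  have hone : ∀ x, c 1 x = x := fun x => hf (by rw [hc]; group)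
  let S : Subgroup G :=
    { carrier := {g | ∀ x, x⁻¹ * c g x ∈ W}
      one_mem' := fun x => by rw [hone, inv_mul_cancel]; exact one_mem _
      mul_mem' := fun {a b} ha hb x => by
        have := mul_mem (hb x) (ha (c b x))
        rwa [mul_assoc, mul_inv_cancel_left, ← hmul] at this
      inv_mem' := fun {a} ha x => by
        have := inv_mem (ha (c a⁻¹ x))
        rwa [← hmul, mul_inv_cancel, hone, mul_inv_rev, inv_inv] at this }
  have hS : (⊤ : Subgroup G) ≤ S := by
    rw [← hT]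
    refine sup_le ?_ ((closure_le _).2 h)
    rintro _ ⟨y, rfl⟩ x
    have e : c (f y) x = y * x * y⁻¹ := hf (by rw [hc, map_mul, map_mul, map_inv])
    have := hW (comm_mem_st2 (mem_top x⁻¹) y)
    rw [commutatorElement_def, inv_inv] at this
    rw [e]
    simpa only [mul_assoc] using this
  exact hS (mem_top g) x

/-- The index bound from transfer. -/
theorem S64BRoot_index {n : ℕ} {F : Type} [Group F] (hF : Nat.card F = 2 ^ n)
    (hg : Generic n F) {G : Type} [Group G] [Finite G] (f : F →* G) (hf : Function.Injective f)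
    (hi : f.range.index ≤ 2 ^ (n / 10 ^ 13)) (c : G → MulAut F)
    (hc : ∀ g x, f (c g x) = g * f x * g⁻¹) {W : Subgroup F}
    (hm : ∀ g x, x⁻¹ * c g x ∈ W) (hr : (L F 1).relIndex W ≤ 2 ^ (n / 10 ^ 4)) :
    2 ^ (2 * n / 3 - 2 * (n / 10 ^ 4) - n / 10 ^ 13) ≤ ((L G 1).comap f).index := by
  have : Finite F := Finite.of_injective f hf
  have hcard : Nat.card f.range = 2 ^ n := by
    rw [← hF]; exact (Nat.card_congr (MonoidHom.ofInjective hf).toEquiv).symm
  obtain ⟨P, hP⟩ := (IsPGroup.of_card hcard).exists_le_sylow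
  obtain ⟨m, hm2⟩ := IsPGroup.iff_card.1 P.isPGroup'
  let f' : F →* (P : Subgroup G) := f.codRestrict P fun x => hP ⟨x, rfl⟩
  have hf' : Function.Injective f' := fun x y h => hf (congrArg Subtype.val h)
  have hrange : f'.range = f.range.subgroupOf P := by
    ext y
    constructor
    · rintro ⟨x, rfl⟩
      exact ⟨x, rfl⟩
    · rintro ⟨x, hx⟩
      exact ⟨x, Subtype.ext hx⟩
  have hidx : f'.range.index ≤ 2 ^ (n / 10 ^ 13) := by
    rw [hrange]
    exact (Nat.le_of_dvd (Nat.pos_of_ne_zero index_ne_zero_of_finite)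
      (relIndex_dvd_index_of_le hP)).trans hi
  have hcard' : Nat.card f'.range = 2 ^ n := by
    rw [← hF]; exact (Nat.card_congr (MonoidHom.ofInjective hf').toEquiv).symm
  have h1 := f'.range.card_mul_index
  rw [hcard', hm2] at h1
  have hnm : n ≤ m := (Nat.pow_dvd_pow_iff_le_right one_lt_two).1 ⟨_, h1.symm⟩
  have hmn : m ≤ n + n / 10 ^ 13 := by
    rw [← Nat.pow_le_pow_iff_right one_lt_two, ← h1, pow_add]
    exact Nat.mul_le_mul_left _ hidx
  have hov := hg.ov P f' (m - n) hf' (by rw [hm2, Nat.add_sub_cancel' hnm]) (by omega)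
  have hWn : (W.map f).Normal := ⟨by
    rintro _ ⟨x, hx, rfl⟩ g
    refine ⟨c g x, ?_, hc g x⟩
    have := mul_mem hx (hm g x)
    rwa [mul_inv_cancel_left] at this⟩
  have htr := transfer_le P (F := f.range) (W := W.map f) hP (map_le_range f W) (by
    rintro _ ⟨x, rfl⟩ g
    refine ⟨_, hm g x⁻¹, ?_⟩
    rw [map_mul, hc, inv_inv, map_inv, commutatorElement_def]
    group)
  set X : Subgroup (P : Subgroup G) := W.map f' ⊔ L (P : Subgroup G) 1 with hX
  have hle : (L G 1).comap f ≤ X.comap f' := by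
    intro x hx
    have h2 : f x ∈ X.map (P : Subgroup G).subtype := by
      rw [hX, Subgroup.map_sup, Subgroup.map_map]
      exact htr ⟨⟨x, rfl⟩, hx⟩
    obtain ⟨y, hy, e⟩ := h2
    have : y = f' x := Subtype.ext e
    rw [mem_comap, ← this]
    exact hy
  have a1 : (L (P : Subgroup G) 1).relIndex X ≤ 2 ^ (n / 10 ^ 4) := by
    rw [hX, relIndex_sup_right, ← relIndex_comap]
    exact (relIndex_le_of_le_left (map_le_iff_le_comap.1 (L_map_le f' 1))
      index_ne_zero_of_finite).trans hr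
  have a2 : X.index ≤ ((L G 1).comap f).index * 2 ^ (n / 10 ^ 13) :=
    calc X.index ≤ (X ⊓ f'.range).index := index_antitone inf_le_left
      _ = (X.comap f').index * f'.range.index := by
        rw [← relIndex_mul_index (inf_le_right : X ⊓ f'.range ≤ _), inf_relIndex_right,
          index_comap]
      _ ≤ _ := Nat.mul_le_mul (index_antitone hle) hidx
  have a3 := relIndex_mul_index (le_sup_right : L (P : Subgroup G) 1 ≤ X)
  have a4 : 2 ^ (2 * n / 3 - n / 10 ^ 4) ≤
      2 ^ (n / 10 ^ 4 + n / 10 ^ 13) * ((L G 1).comap f).index := by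
    refine hov.trans ?_
    rw [← a3]
    refine (Nat.mul_le_mul a1 a2).trans (le_of_eq ?_)
    rw [pow_add]
    ring
  rw [show 2 * n / 3 - n / 10 ^ 4 = (n / 10 ^ 4 + n / 10 ^ 13) +
    (2 * n / 3 - 2 * (n / 10 ^ 4) - n / 10 ^ 13) by omega, pow_add] at a4
  exact Nat.le_of_mul_le_mul_left a4 (by positivity)

theorem root_node {n : ℕ} (hn : 10 ^ 6 ≤ n) {F : Type} [Group F] (hF : Nat.card F = 2 ^ n)
    (hg : Generic n F) {G : Type} [Group G] [Finite G] (f : F →* G) (hf : Function.Injective f)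
    [f.range.Normal] (hi : f.range.index ≤ 2 ^ (n / 10 ^ 13)) :
    ∃ (z : G) (N Q A : Subgroup G) (h : ℕ),
      Node z f.range N Q (n - 2 * n / 3 + 2 * (n / 10 ^ 4) + n / 10 ^ 13)
        (2 * n / 3 - 2 * (n / 10 ^ 4) - n / 10 ^ 13 - n / 8) (n / 400) ∧
      A.Normal ∧ z ∈ A ∧ A ≤ N ∧ (∀ a ∈ A, a * a = 1) ∧ f.range ≤ centralizer (A : Set G) ∧
      Nat.card A = 2 ^ (h + 1) ∧ n - 2 * n / 3 - 2 * (n / 10 ^ 4) ≤ h + 1 := by
  classical
  have : Finite F := Finite.of_injective f hf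
  obtain ⟨c, hc⟩ := S64BRoot_conj f hf
  obtain ⟨T, hTc, hT⟩ := exists_gens f.range hi
  have hΓ : (T.image c).card ≤ n / 10 ^ 13 := card_image_le.trans hTc
  have hm := S64BRoot_mov f hf c hc hT (W := L F 1 ⊔ Mov (T.image c)) le_sup_left
    fun g hg x => mem_sup_right (subset_closure ⟨c g, mem_image_of_mem c hg, x, rfl⟩)
  have hI := S64BRoot_index hF hg f hf hi c hc hm (hg.mv _ hΓ)
  have hcard : Nat.card f.range = 2 ^ n := by
    rw [← hF]; exact (Nat.card_congr (MonoidHom.ofInjective hf).toEquiv).symm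
  obtain ⟨Q0, hQ1, hQ2, hQ3⟩ := hg.hi
  obtain ⟨k, hk⟩ := IsPGroup.iff_card.1 ((IsPGroup.of_card hF).to_subgroup (Z0 F))
  have hZL : Z0 F ≤ L F 1 := fun x hx => hx.1
  have hkn : n - 2 * n / 3 - 2 * (n / 10 ^ 4) ≤ k := by
    have h1 := (Z0 F).card_mul_index
    rw [← relIndex_mul_index hZL, hk, hF] at h1
    have h2 : 2 ^ n ≤ 2 ^ (k + (n / 10 ^ 4 + (2 * n / 3 + n / 10 ^ 4))) := by
      rw [← h1, pow_add, pow_add]
      exact Nat.mul_le_mul_left _ (Nat.mul_le_mul hg.yy hg.rk)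
    have := (Nat.pow_le_pow_iff_right one_lt_two).1 h2
    omega
  obtain ⟨z0, ⟨⟨hzF, hzH⟩, hzZ⟩, hz1⟩ : ∃ z0 ∈ (Fix (T.image c) ⊓ Hi Q0 (n / 400)) ⊓ Z0 F,
      z0 ≠ 1 := by
    refine (bot_or_exists_ne_one _).resolve_left fun h => ?_
    have h1 := (relIndex_inf_le (H := Fix (T.image c)) (K := Hi Q0 (n / 400)) (L := Z0 F)).trans
      (Nat.mul_le_mul (hg.fx _ hΓ) hQ3)
    rw [← inf_relIndex_right, h, relIndex_bot_left, hk, ← pow_add,
      Nat.pow_le_pow_iff_right one_lt_two] at h1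
    omega
  have hAN : (Z0 F).map f ≤ f.range ⊓ L G 1 :=
    le_inf (map_le_range f _) ((map_mono hZL).trans (L_map_le f 1))
  have hrel : (f.range ⊓ L G 1).relIndex f.range = ((L G 1).comap f).index := by
    rw [inf_relIndex_left, index_comap]
  refine ⟨f z0, f.range ⊓ L G 1, (f.range ⊓ L G 1) ⊔ Q0.map f, (Z0 F).map f, k - 1,
    ⟨⟨fun g => ?_, fun h => hz1 (hf (h.trans (map_one f).symm)), ?_⟩, inferInstance,
      IsPGroup.of_card hcard, hAN (mem_map_of_mem f hzZ), le_sup_left,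
      sup_le inf_le_left (map_le_range f _), le_rfl, ?_, ?_, ?_⟩,
    ⟨?_⟩, mem_map_of_mem f hzZ, hAN, ?_, ?_, ?_, by omega⟩
  · have h1 : (⊤ : Subgroup G) ≤ centralizer {f z0} := by
      rw [← hT]
      refine sup_le ?_ ((closure_le _).2 fun g hg => ?_)
      · rintro _ ⟨y, rfl⟩
        rw [mem_centralizer_singleton_iff, ← map_mul, ← map_mul, hzZ.2.1]
      · have h2 := hc g z0
        rw [hzF _ (mem_image_of_mem c hg)] at h2
        rw [SetLike.mem_coe, mem_centralizer_singleton_iff]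
        exact (eq_mul_inv_iff_mul_eq.1 h2).symm
    exact mem_centralizer_singleton_iff.1 (h1 (mem_top g))
  · rw [pow_two, ← map_mul, hzZ.2.2, map_one]
  · have h1 := ((f.range ⊓ L G 1).subgroupOf f.range).card_mul_index
    rw [hcard, Nat.card_congr (subgroupOfEquivOfLe inf_le_left).toEquiv] at h1
    change _ * (f.range ⊓ L G 1).relIndex f.range = _ at h1
    rw [hrel] at h1
    have h2 := Nat.mul_le_mul_left (Nat.card (f.range ⊓ L G 1 : Subgroup G)) hI
    rw [h1] at h2
    refine Nat.le_of_mul_le_mul_right (h2.trans (le_of_eq ?_)) (by positivity)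
    rw [← pow_add]
    congr 1
    omega
  · have h1 := relIndex_mul_relIndex (f.range ⊓ L G 1) ((f.range ⊓ L G 1) ⊔ Q0.map f) f.range
      le_sup_left (sup_le inf_le_left (map_le_range f _))
    have h2 : (f.range ⊓ L G 1).relIndex ((f.range ⊓ L G 1) ⊔ Q0.map f) ≤ 2 ^ (n / 8) := by
      rw [relIndex_sup_left, ← relIndex_comap]
      refine (relIndex_le_of_le_left ?_ index_ne_zero_of_finite).trans hQ2
      exact map_le_iff_le_comap.1 (le_inf (map_le_range f _) (L_map_le f 1))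
    rw [← hrel, ← h1, show 2 * n / 3 - 2 * (n / 10 ^ 4) - n / 10 ^ 13 = n / 8 +
      (2 * n / 3 - 2 * (n / 10 ^ 4) - n / 10 ^ 13 - n / 8) by omega, pow_add] at hI
    exact Nat.le_of_mul_le_mul_left (hI.trans (Nat.mul_le_mul_right _ h2)) (by positivity)
  · refine mem_Hi.2 fun S _ hS => ?_
    have h1 := mem_Hi.1 hzH (S.comap f ⊓ Q0) inf_le_right (by
      rw [inf_relIndex_right, relIndex_comap]
      exact (relIndex_le_of_le_right le_sup_right index_ne_zero_of_finite).trans hS)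
    have h2 := mem_map_of_mem f h1
    rw [map_commutator] at h2
    have h3 : (S.comap f ⊓ Q0).map f ≤ S := map_le_iff_le_comap.2 inf_le_left
    exact commutator_mono h3 h3 h2
  · rintro _ ⟨x, hx, rfl⟩ g
    exact ⟨c g x, S64BRoot_Z0 _ hx, hc g x⟩
  · rintro _ ⟨x, hx, rfl⟩
    rw [← map_mul, hx.2.2, map_one]
  · rintro _ ⟨y, rfl⟩ _ ⟨x, hx, rfl⟩
    rw [← map_mul, ← map_mul, hx.2.1]
  · rw [card_map_of_injective hf, hk]
    congr 1
    omega

end Pool.Agent.Lib.MP_2d211a_co.S64
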