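import Pool.Agent.Lib.MP_2d211a_co.S64BDef

/-!
Subgroups of index two and transfer.
-/

namespace Pool.Agent.Lib.MP_2d211a_co.S64

open MonoidAlgebra Finset H62 H30 Subgroup
open scoped commutatorElement

/-- The union of a normal subgroup `K` and the coset of an element whose square lies in `K`. -/
def S64BSep_ext {H : Type*} [Group H] (K : Subgroup H) (hK : K.Normal) (b : H) (hb : b * b ∈ K) :
    Subgroup H where
  carrier := {g | g ∈ K ∨ g * b ∈ K}
  one_mem' := Or.inl (one_mem K)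
  mul_mem' := by
    rintro g h (hg | hg) (hh | hh)
    · exact Or.inl (mul_mem hg hh)
    · exact Or.inr (by rw [mul_assoc]; exact mul_mem hg hh)
    · refine Or.inr ?_
      have := mul_mem hg (hK.conj_mem _ hh b⁻¹)
      simpa [mul_assoc] using this
    · refine Or.inl ?_
      have := mul_mem (mul_mem hg (hK.conj_mem _ hh b⁻¹)) (inv_mem hb)
      simpa [mul_assoc] using this
  inv_mem' := by
    rintro g (hg | hg)
    · exact Or.inl (inv_mem hg)
    · refine Or.inr ?_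
      have h1 : g⁻¹ * b⁻¹ ∈ K := hK.mem_comm (by simpa using inv_mem hg)
      have := mul_mem h1 hb
      simpa [mul_assoc] using this

/-- Separation by a subgroup of index two. -/
theorem sepB {H : Type*} [Group H] [Finite H] {D : Subgroup H} (hD : L H 1 ≤ D) {x : H} (hx : x ∉ D) :
    ∃ K : Subgroup H, D ≤ K ∧ x ∉ K ∧ K.index = 2 := by
  obtain ⟨K, hDK, hK⟩ := Finite.exists_le_maximal (p := fun K : Subgroup H => x ∉ K) hx
  have hL : st2 (⊤ : Subgroup H) ≤ K := hD.trans hDK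
  have hN : K.Normal := normal_of_st2_le hL le_top
  refine ⟨K, hDK, hK.prop, index_eq_two_iff.2 ⟨x, fun b => ?_⟩⟩
  by_cases hb : b ∈ K
  · exact Or.inr ⟨hb, fun h => hK.prop (by simpa using mul_mem (inv_mem hb) h)⟩
  · refine Or.inl ⟨?_, hb⟩
    have hbb : b * b ∈ K := hL (sq_mem_st2 (mem_top b))
    have hle : K ≤ S64BSep_ext K hN b hbb := fun g hg => Or.inl hg
    have hx' : x ∈ S64BSep_ext K hN b hbb := by
      by_contra h
      exact hb (hK.le_of_ge h hle (Or.inr hbb))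
    rcases hx' with h | h
    · exact absurd h hK.prop
    · exact hN.mem_comm h

theorem S64BSep_step {E : Type} [Group E] [Finite E] {F D C : Subgroup E} [F.Normal]
    (hD : F ⊓ L E 1 ≤ D) (hDF : D ≤ F) (hC : C ≤ F) (h : ℕ) (hh : 2 ^ h ≤ D.relIndex (C ⊔ D))
    (i : ℕ) (hi : i ≤ h) :
    ∃ K : Subgroup E, D ≤ K ∧ L E 1 ≤ K ∧ K.index = 2 ^ i ∧ C ⊔ K = ⊤ := by
  induction i with
  | zero => exact ⟨⊤, le_top, le_top, by simp, by simp⟩
  | succ i ih =>
    obtain ⟨K, hDK, hLK, hKi, hCK⟩ := ih (Nat.le_of_succ_le hi)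
    have hDN : D.Normal := normal_of_fr hD hDF
    have hKN : K.Normal := normal_of_st2_le (R := ⊤) hLK le_top
    have hex : ∃ c, c ∈ C ∧ c ∈ K ∧ c ∉ D := by
      by_contra hn
      have hle : K ⊓ C ≤ D := fun c hc => by
        by_contra hcD
        exact hn ⟨c, hc.2, hc.1, hcD⟩
      have h1 : D.relIndex C ≤ (K ⊓ C).relIndex C :=
        relIndex_le_of_le_left hle (by
          rw [relIndex]; exact index_ne_zero_of_finite)
      rw [inf_relIndex_right] at h1
      have h2 : K.relIndex C ≤ K.index :=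
        Nat.le_of_dvd (Nat.pos_of_ne_zero index_ne_zero_of_finite)
          (relIndex_dvd_index_of_normal K C)
      rw [relIndex_sup_right] at hh
      have h3 : 2 ^ i < 2 ^ h := Nat.pow_lt_pow_right (by norm_num) hi
      omega
    obtain ⟨c, hcC, hcK, hcD⟩ := hex
    have hc2 : c ∉ D ⊔ L E 1 := fun hc => by
      rw [← SetLike.mem_coe, mul_normal] at hc
      obtain ⟨d, hd, l, hl, rfl⟩ := hc
      have hlF : l ∈ F := by
        simpa using mul_mem (inv_mem (hDF hd)) (hC hcC)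
      exact hcD (mul_mem hd (hD ⟨hlF, hl⟩))
    obtain ⟨K', hK', hcK', hK'i⟩ := sepB (D := D ⊔ L E 1) le_sup_right hc2
    have hK'N : K'.Normal := normal_of_st2_le (R := ⊤) (le_sup_right.trans hK') le_top
    refine ⟨K' ⊓ K, le_inf (le_sup_left.trans hK') hDK, le_inf (le_sup_right.trans hK') hLK,
      ?_, ?_⟩
    · rw [← relIndex_mul_index (inf_le_right : K' ⊓ K ≤ K), inf_relIndex_right, hKi, pow_succ,
        mul_comm]
      congr 1
      have h1 : K'.relIndex K ∣ 2 := hK'i ▸ relIndex_dvd_index_of_normal K' K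
      rcases (Nat.dvd_prime Nat.prime_two).1 h1 with h2 | h2
      · exact absurd (relIndex_eq_one.1 h2 hcK) hcK'
      · exact h2
    · rw [eq_top_iff, ← hCK]
      refine sup_le le_sup_left fun k hk => ?_
      by_cases hk' : k ∈ K'
      · exact mem_sup_right ⟨hk', hk⟩
      · have h1 : k * c ∈ K' := (mul_mem_iff_of_index_two hK'i).2 (iff_of_false hk' hcK')
        have h2 : k * c ∈ C ⊔ K' ⊓ K := mem_sup_right ⟨h1, mul_mem hk hcK⟩
        simpa using mul_mem h2 (inv_mem (mem_sup_left hcC : c ∈ C ⊔ K' ⊓ K))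

theorem exists_K {E : Type} [Group E] [Finite E] {F D C : Subgroup E} [F.Normal]
    (hD : F ⊓ L E 1 ≤ D) (hDF : D ≤ F) (hC : C ≤ F) (h : ℕ) (hh : 2 ^ h ≤ D.relIndex (C ⊔ D)) :
    ∃ K : Subgroup E, D ≤ K ∧ L E 1 ≤ K ∧ K.index = 2 ^ h ∧ C ⊔ K = ⊤ := by
  exact S64BSep_step hD hDF hC h hh h le_rfl

open Classical in
/-- The sign character of a subgroup of index two. -/
noncomputable def S64BSep_sgn {H : Type*} [Group H] (K : Subgroup H) (hK : K.index = 2) :
    H →* ℤˣ :=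
  MonoidHom.mk' (fun g => if g ∈ K then 1 else -1) fun a b => by
    by_cases ha : a ∈ K <;> by_cases hb : b ∈ K <;>
      simp [mul_mem_iff_of_index_two hK, ha, hb]

theorem S64BSep_sgn_of_mem {H : Type*} [Group H] {K : Subgroup H} (hK : K.index = 2) {g : H}
    (hg : g ∈ K) : S64BSep_sgn K hK g = 1 := by
  simp [S64BSep_sgn, hg]

theorem S64BSep_sgn_of_not {H : Type*} [Group H] {K : Subgroup H} (hK : K.index = 2) {g : H}
    (hg : g ∉ K) : S64BSep_sgn K hK g = -1 := by
  simp [S64BSep_sgn, hg]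

theorem S64BSep_ker {G : Type*} [Group G] (V : G →* ℤˣ) : L G 1 ≤ V.ker :=
  st2_le_iff.2 fun y _ => ⟨by rw [MonoidHom.mem_ker, map_mul, Int.units_mul_self], fun g => by
    rw [MonoidHom.mem_ker, map_commutatorElement, commutatorElement_eq_one_iff_mul_comm, mul_comm]⟩

theorem transfer_le {G : Type} [Group G] [Finite G] (P : Sylow 2 G) {F W : Subgroup G} [W.Normal]
    (hFP : F ≤ (P : Subgroup G)) (hW : W ≤ F) (hc : ∀ x ∈ F, ∀ g, ⁅x, g⁆ ∈ W) :
    F ⊓ L G 1 ≤ W ⊔ (L (P : Subgroup G) 1).map (P : Subgroup G).subtype := by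
  rintro x ⟨hxF, hxL⟩
  by_contra hx
  have hx' : (⟨x, hFP hxF⟩ : (P : Subgroup G)) ∉
      W.subgroupOf (P : Subgroup G) ⊔ L (P : Subgroup G) 1 := fun h => by
    have h1 := mem_map_of_mem (P : Subgroup G).subtype h
    rw [Subgroup.map_sup, subgroupOf_map_subtype] at h1
    have h2 : W ⊓ (P : Subgroup G) ⊔ (L (P : Subgroup G) 1).map (P : Subgroup G).subtype ≤
        W ⊔ (L (P : Subgroup G) 1).map (P : Subgroup G).subtype := sup_le_sup_right inf_le_left _
    exact hx (h2 h1)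
  obtain ⟨K, hK, hxK, hKi⟩ := sepB le_sup_right hx'
  have hV : MonoidHom.transfer (S64BSep_sgn K hKi) x = 1 := S64BSep_ker _ hxL
  have : Fintype (Quotient (MulAction.orbitRel (zpowers x) (G ⧸ (P : Subgroup G)))) :=
    Fintype.ofFinite _
  have hterm : ∀ (k : ℕ) (t : G) (h : t⁻¹ * x ^ k * t ∈ (P : Subgroup G)),
      S64BSep_sgn K hKi ⟨t⁻¹ * x ^ k * t, h⟩ = (-1) ^ k := fun k t h => by
    have hw : ⁅(x ^ k)⁻¹, t⁻¹⁆ ∈ W := hc _ (inv_mem (pow_mem hxF k)) _
    have he : (⟨t⁻¹ * x ^ k * t, h⟩ : (P : Subgroup G)) =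
        ⟨x, hFP hxF⟩ ^ k * ⟨⁅(x ^ k)⁻¹, t⁻¹⁆, hFP (hW hw)⟩ := by
      apply Subtype.ext
      simp [commutatorElement_def, mul_assoc]
    rw [he, map_mul, map_pow, S64BSep_sgn_of_not hKi hxK,
      S64BSep_sgn_of_mem hKi (hK (mem_sup_left (mem_subgroupOf.2 hw))), mul_one]
  rw [MonoidHom.transfer_eq_prod_quotient_orbitRel_zpowers_quot,
    Finset.prod_congr rfl fun q _ => hterm _ _ _, Finset.prod_pow_eq_pow_sum,
    ← index_eq_sum_minimalPeriod] at hV
  have hodd : Odd (P : Subgroup G).index :=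
    Nat.not_even_iff_odd.1 fun h => P.not_dvd_index h.two_dvd
  rw [hodd.neg_one_pow] at hV
  exact absurd hV (by decide)

end Pool.Agent.Lib.MP_2d211a_co.S64
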