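import Pool.Agent.Lib.MP_2d211a_co.S64BBlock

/-!
One step of the recursion.
-/

namespace Pool.Agent.Lib.MP_2d211a_co.S64

open MonoidAlgebra Finset H62 H30 Subgroup
open scoped commutatorElement

variable {E : Type} [Group E] [Finite E]

theorem S64BStep_ne (H K : Subgroup E) : H.relIndex K ≠ 0 := index_ne_zero_of_finite

omit [Finite E] in
theorem S64BStep_mono (S : Subgroup E) {H K : Subgroup E} (h : H ≤ K) :
    H.subgroupOf S ≤ K.subgroupOf S := comap_mono h

omit [Finite E] in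
theorem S64BStep_card {H K : Subgroup E} (h : H ≤ K) :
    Nat.card H * H.relIndex K = Nat.card K := by
  rw [← relIndex_bot_left, ← relIndex_bot_left]
  exact relIndex_mul_relIndex _ _ _ bot_le h

omit [Finite E] in
theorem S64BStep_rel (H K S : Subgroup E) :
    (H.subgroupOf S).relIndex (K.subgroupOf S) = H.relIndex (K ⊓ S) := by
  rw [← relIndex_subgroupOf (inf_le_right : K ⊓ S ≤ S), inf_subgroupOf_right]

omit [Finite E] in
theorem S64BStep_zp {z x : E} (hz : Cen 2 z) (hx : x ∈ zpowers z) : x = 1 ∨ x = z := by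
  obtain ⟨k, rfl⟩ := hx
  have h2 : z ^ (2 : ℤ) = 1 := by exact_mod_cast hz.pow
  obtain ⟨q, rfl | rfl⟩ := Int.even_or_odd' k
  · left; simp only [zpow_mul, h2, one_zpow]
  · right; simp only [zpow_add, zpow_mul, h2, one_zpow, one_mul, zpow_one]

/-- The data of the recursion pass to a section `S / U`. -/
theorem S64BStep_node {z : E} {F N Q S U D : Subgroup E} {d top θ d' top' θ' : ℕ}
    (hN : Node z F N Q d top θ) [(U.subgroupOf S).Normal] (hzS : z ∈ S) (hzU : z ∉ U)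
    (hUF : U ≤ F) (hUD : U ≤ D) (hQD : Q ≤ D)
    (hd : Nat.card N ≤ 2 ^ d' * Nat.card (U ⊓ N : Subgroup E)) (hUS : U ≤ S)
    (ht : 2 ^ top' ≤ D.relIndex (F ⊓ S)) (hθ : 2 ^ θ' * S.relIndex Q ≤ 2 ^ θ) :
    Node (QuotientGroup.mk (⟨z, hzS⟩ : S) : S ⧸ U.subgroupOf S)
      ((F.subgroupOf S).map (QuotientGroup.mk' _)) ((N.subgroupOf S).map (QuotientGroup.mk' _))
      ((Q.subgroupOf S).map (QuotientGroup.mk' _)) d' top' θ' := by
  have hnF := hN.nF
  have sj := QuotientGroup.mk'_surjective (U.subgroupOf S)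
  have hk := QuotientGroup.ker_mk' (U.subgroupOf S)
  refine ⟨⟨fun g => ?_, fun e => hzU ((QuotientGroup.eq_one_iff (N := U.subgroupOf S) _).1 e), ?_⟩,
    (normal_subgroupOf (H := S) (N := F)).map _ sj, (hN.pF.comap_subtype).map _,
    ⟨⟨z, hzS⟩, hN.zN, rfl⟩,
    map_mono (S64BStep_mono S hN.NQ), map_mono (S64BStep_mono S hN.QF), ?_, ?_, ?_,
    mem_Hi.2 fun T hT hi => ?_⟩
  · obtain ⟨g, rfl⟩ := QuotientGroup.mk_surjective g
    rw [← QuotientGroup.mk_mul, ← QuotientGroup.mk_mul]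
    exact congrArg _ (Subtype.ext (hN.cen.comm g))
  · rw [← QuotientGroup.mk_pow, ← QuotientGroup.mk_one]
    exact congrArg _ (Subtype.ext hN.cen.pow)
  · rw [← L_map _ sj]
    rintro _ ⟨⟨f, hf, e⟩, l, hl, rfl⟩
    refine mem_map_of_mem _ (hN.fr ⟨?_, L_map_le S.subtype 1 (mem_map_of_mem _ hl)⟩)
    have : f⁻¹ * l ∈ U.subgroupOf S := QuotientGroup.eq.1 e
    simpa using mul_mem (show (f : E) ∈ F from hf) (hUF this)
  · rw [← relIndex_ker, hk, S64BStep_rel, ← inf_relIndex_right]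
    have h1 := S64BStep_card (inf_le_right : U ⊓ (N ⊓ S) ≤ N ⊓ S)
    have h2 : Nat.card (N ⊓ S : Subgroup E) ≤ Nat.card N := card_le_of_le inf_le_left
    have h3 : U ⊓ (N ⊓ S) = U ⊓ N := by
      rw [inf_comm N, ← inf_assoc, inf_eq_left.2 hUS]
    rw [h3] at h1 ⊢
    refine Nat.le_of_mul_le_mul_left ?_ (Nat.card_pos (α := (U ⊓ N : Subgroup E)))
    rw [h1, mul_comm]
    exact h2.trans hd
  · rw [relIndex_map_map, hk, sup_eq_left.2 (S64BStep_mono S hUF)]
    refine ht.trans ?_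
    rw [← S64BStep_rel]
    exact relIndex_le_of_le_left
      (sup_le (S64BStep_mono S hQD) (S64BStep_mono S hUD)) (S64BStep_ne _ _)
  · set T0 : Subgroup S := T.comap (QuotientGroup.mk' _) ⊓ Q.subgroupOf S with hT0
    have h1 : T0.map S.subtype ≤ Q ⊓ S := by
      rintro _ ⟨x, hx, rfl⟩
      exact ⟨hx.2, x.2⟩
    have h2 : (T0.map S.subtype).relIndex (Q ⊓ S) ≤ 2 ^ θ' := by
      rw [← subgroupOf_map_subtype, relIndex_map_map_of_injective _ _ S.subtype_injective, hT0,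
        inf_relIndex_right, relIndex_comap]
      exact hi
    have h3 := mem_Hi.1 hN.hi (T0.map S.subtype) (h1.trans inf_le_left) (by
      rw [← relIndex_mul_relIndex _ _ _ h1 inf_le_left, inf_relIndex_left]
      exact (Nat.mul_le_mul_right _ h2).trans hθ)
    rw [← map_commutator] at h3
    obtain ⟨y, hy, e⟩ := h3
    obtain rfl : y = ⟨z, hzS⟩ := Subtype.ext e
    have h4 := mem_map_of_mem (QuotientGroup.mk' (U.subgroupOf S)) hy
    rw [map_commutator] at h4
    have h5 : T0.map (QuotientGroup.mk' _) ≤ T := map_le_iff_le_comap.2 inf_le_left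
    exact commutator_mono h5 h5 h4

theorem step {z : E} {F N Q : Subgroup E} {d top θ : ℕ} (hN : Node z F N Q d top θ)
    {A : Subgroup E} [A.Normal] (hzA : z ∈ A) (hAF : A ≤ F) (hA : ∀ a ∈ A, a * a = 1)
    (hAz : ∀ a ∈ A, ∀ x ∈ F, ⁅a, x⁆ ∈ zpowers z) {h h' j d' : ℕ}
    (hc : Nat.card A = 2 ^ (h + 1)) (hC : (centralizer (A : Set E)).relIndex F = 2 ^ h')
    (hj : Q.relIndex (Q ⊔ A) ≤ 2 ^ j)
    (hd : 2 * Nat.card N ≤ 2 ^ d' * Nat.card (N ⊓ A : Subgroup E))
    (ht : h + h' + j ≤ top) (hθ : h' ≤ θ) {m : ℕ}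
    (ih : ∀ (E' : Type) [Group E'] [Finite E'] (z' : E') (F' N' Q' : Subgroup E') (o : ℕ),
      Node z' F' N' Q' d' (top - (h + h' + j)) (θ - h') → o * F'.index = F.index * 2 ^ h' →
      F'.index ≤ F.index → Mx z' (o * m)) : Mx z m := by
  have hnF := hN.nF
  set C : Subgroup E := centralizer (A : Set E) ⊓ F with hCd
  have hCF : C ≤ F := inf_le_right
  have hC' : C.relIndex F = 2 ^ h' := by rw [hCd, inf_relIndex_right, hC]
  have hDF : Q ⊔ A ≤ F := sup_le hN.QF hAF
  have hfr : F ⊓ L E 1 ≤ Q ⊔ A := (hN.fr.trans hN.NQ).trans le_sup_left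
  have hAC : A ≤ centralizer (A : Set E) := fun a ha => mem_centralizer_iff.2 fun b hb => by
    have h1 := hA _ (mul_mem hb ha)
    calc b * a = (b * a)⁻¹ := (inv_eq_of_mul_eq_one_right h1).symm
      _ = a * b := by
        rw [mul_inv_rev, inv_eq_of_mul_eq_one_right (hA a ha), inv_eq_of_mul_eq_one_right (hA b hb)]
  -- lower bound for the index of `Q ⊔ A` in a subgroup of `F`
  have low : ∀ (X : Subgroup E) (i : ℕ), X ≤ F → X.relIndex F ≤ 2 ^ i → i + j ≤ top →
      2 ^ (top - (i + j)) ≤ (Q ⊔ A).relIndex X := fun X i hX hi hij => by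
    have h1 := relIndex_mul_relIndex Q (Q ⊔ A) F le_sup_left hDF
    have h2 := relIndex_mul_relIndex ((Q ⊔ A) ⊓ X) X F inf_le_right hX
    have h3 : (Q ⊔ A).relIndex F ≤ ((Q ⊔ A) ⊓ X).relIndex F :=
      relIndex_le_of_le_left inf_le_left (S64BStep_ne _ _)
    rw [inf_relIndex_right] at h2
    refine Nat.le_of_mul_le_mul_right ?_ (Nat.two_pow_pos (i + j))
    calc 2 ^ (top - (i + j)) * 2 ^ (i + j) = 2 ^ top := by rw [← pow_add, Nat.sub_add_cancel hij]
      _ ≤ Q.relIndex (Q ⊔ A) * (Q ⊔ A).relIndex F := h1 ▸ hN.tp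
      _ ≤ 2 ^ j * ((Q ⊔ A).relIndex X * 2 ^ i) :=
        Nat.mul_le_mul hj (h3.trans (h2 ▸ Nat.mul_le_mul_left _ hi))
      _ = _ := by rw [pow_add]; ring
  obtain ⟨K, hDK, hLK, hK, hCK⟩ := exists_K hfr hDF hCF h (le_trans
    (Nat.pow_le_pow_right two_pos (by omega)) (low (C ⊔ (Q ⊔ A)) h' (sup_le hCF hDF)
      (hC' ▸ relIndex_le_of_le_left le_sup_left (S64BStep_ne _ _)) (by omega)))
  have hnK : K.Normal := normal_of_st2_le (R := ⊤) hLK le_top
  have hAK : A ≤ K := le_sup_right.trans hDK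
  refine block hN.cen hzA hA hc hAK hK
    (top_le_iff.1 (hCK ▸ sup_le_sup_right inf_le_left K)) fun U hUA hzU hU => ?_
  set S : Subgroup E := K ⊓ normalizer (U : Set E) with hS
  have hUS : U ≤ S := le_inf (hUA.trans hAK) le_normalizer
  have : (U.subgroupOf S).Normal := (normal_subgroupOf_iff_le_normalizer hUS).2 inf_le_right
  have hcn : centralizer (A : Set E) ≤ normalizer (U : Set E) :=
    le_normalizer_iff.2 fun x hx u hu => by
      rwa [← mem_centralizer_iff.1 hx u (hUA hu), mul_inv_cancel_right]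
  have hzS : z ∈ S := ⟨hAK hzA, hcn (hAC hzA)⟩
  have hU2 : U.relIndex A = 2 := by
    have := S64BStep_card hUA
    rw [hU, hc, pow_succ] at this
    exact Nat.eq_of_mul_eq_mul_left (Nat.two_pow_pos h) this
  have hFS : F ⊓ S = K ⊓ C := by
    refine le_antisymm (fun x hx => ⟨hx.2.1, mem_centralizer_iff.2 fun a ha => ?_, hx.1⟩)
      fun x hx => ⟨hx.2.2, hx.1, hcn hx.2.1⟩
    have h1 : ∀ u ∈ U, u * x = x * u := fun u hu => by
      have h2 : ⁅u, x⁆ ∈ U := by
        rw [commutatorElement_def, mul_assoc, mul_assoc]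
        exact mul_mem hu (by
          simpa [mul_assoc] using le_normalizer_iff.1 (inf_le_right : S ≤ _) x hx.2 _ (inv_mem hu))
      rcases S64BStep_zp hN.cen (hAz u (hUA hu) x hx.1) with e | e
      · exact commutatorElement_eq_one_iff_mul_comm.1 e
      · exact absurd (e ▸ h2) hzU
    by_cases hu : a ∈ U
    · exact h1 a hu
    · have h2 : a * z ∈ U := (mul_mem_iff_of_index_two (H := U.subgroupOf A) hU2
        (a := ⟨a, ha⟩) (b := ⟨z, hzA⟩)).2 (iff_of_false hu hzU)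
      have h3 := h1 _ h2
      rw [mul_assoc, ← hN.cen.comm x, ← mul_assoc, ← mul_assoc] at h3
      exact mul_right_cancel h3
  have hKC : K.relIndex C = 2 ^ h := by rw [← relIndex_sup_right, hCK, relIndex_top_right, hK]
  have hX : (F ⊓ S).relIndex F = 2 ^ (h + h') := by
    rw [hFS, ← relIndex_mul_relIndex _ _ _ inf_le_right hCF, inf_relIndex_right, hKC, hC', pow_add]
  have hi : ((F.subgroupOf S).map (QuotientGroup.mk' (U.subgroupOf S))).index = F.relIndex S :=
    index_map_eq _ (QuotientGroup.mk'_surjective _)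
      (by rw [QuotientGroup.ker_mk']; exact S64BStep_mono S (hUA.trans hAF))
  refine Mx.lift hN.cen S U hUS hzS (ih _ _ _ _ _ _ (S64BStep_node (D := Q ⊔ A) hN hzS hzU
    (hUA.trans hAF) (hUA.trans le_sup_right) le_sup_left ?_ hUS
    (low _ _ inf_le_left hX.le ht) ?_) ?_ ?_)
  · have h1 := S64BStep_card (inf_le_right : U ⊓ (N ⊓ A) ≤ N ⊓ A)
    have h2 : U.relIndex (N ⊓ A) ≤ 2 :=
      hU2 ▸ relIndex_le_of_le_right inf_le_right (S64BStep_ne _ _)
    have h3 : U ⊓ (N ⊓ A) = U ⊓ N := by rw [inf_comm N, ← inf_assoc, inf_eq_left.2 hUA]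
    rw [inf_relIndex_right, h3] at h1
    refine Nat.le_of_mul_le_mul_left (hd.trans ?_) two_pos
    rw [← h1, mul_comm 2, mul_assoc]
    exact Nat.mul_le_mul_left _ (Nat.mul_le_mul_left _ h2)
  · have h1 : S.relIndex Q ≤ 2 ^ h' := by
      have h2 : Q ⊓ C ≤ Q ⊓ S := fun x hx =>
        ⟨hx.1, hDK (mem_sup_left hx.1), hcn hx.2.1⟩
      rw [← inf_relIndex_left, ← hC']
      refine (relIndex_le_of_le_left h2 (S64BStep_ne _ _)).trans ?_
      rw [inf_relIndex_left]
      exact relIndex_le_of_le_right hN.QF (S64BStep_ne _ _)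
    exact (Nat.mul_le_mul_left _ h1).trans (by rw [← pow_add, Nat.sub_add_cancel hθ])
  · have h1 := relIndex_mul_index (inf_le_left : F ⊓ S ≤ F)
    have h2 := relIndex_mul_index (inf_le_right : F ⊓ S ≤ S)
    have h3 := relIndex_mul_index (inf_le_left : S ≤ K)
    rw [hX] at h1
    rw [inf_relIndex_right, ← h3, hK, ← h1] at h2
    refine Nat.eq_of_mul_eq_mul_left (Nat.two_pow_pos h) ?_
    rw [hi]
    calc 2 ^ h * (S.relIndex K * F.relIndex S) = F.relIndex S * (S.relIndex K * 2 ^ h) := by ring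
      _ = _ := by rw [h2, pow_add]; ring
  · rw [hi, ← relIndex_top_right]
    exact relIndex_le_of_le_right le_top (S64BStep_ne _ _)

end Pool.Agent.Lib.MP_2d211a_co.S64
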