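import Pool.Agent.Lib.MP_2d211a_co.S64BDef

/-!
Orthogonal matrices whose entries are signed transversals of a normal 2-subgroup.
-/

namespace Pool.Agent.Lib.MP_2d211a_co.S64

open MonoidAlgebra Finset H62 H30 Subgroup
open scoped commutatorElement

variable {E : Type} [Group E] [Finite E]

theorem S64BTile_trans (F : Subgroup E) [F.Normal] (hF : IsPGroup 2 F) (H : Subgroup E)
    (ho : Odd (Nat.card H)) : ∃ l : List E,
      l.length * Nat.card H = F.index ∧ (l.map s).sum * hat H * hat F = hat ⊤ := by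
  classical
  have := Fintype.ofFinite H
  have hd : ∀ g ∈ H, g ∈ F → g = 1 := fun g h1 h2 => by
    obtain ⟨n, hn⟩ := hF ⟨g, h2⟩
    have a1 : orderOf g ∣ 2 ^ n := orderOf_dvd_of_pow_eq_one (congrArg Subtype.val hn)
    exact orderOf_eq_one_iff.1 (Nat.eq_one_of_dvd_coprimes
      ((Nat.coprime_two_left.2 ho).pow_left n) a1 (H.orderOf_dvd_natCard h1))
  have e0 : ∑ i : H, s (i : E) * hat ⊥ = hat H :=
    sum_s_hat _ bot_le (fun i => i.2) (fun i j h => Subtype.ext (inv_mul_eq_one.1 h))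
      fun y hy => ⟨⟨y, hy⟩, by simp⟩
  have e1 : ∑ i : H, s (i : E) * hat F = hat (H ⊔ F) :=
    sum_s_hat _ le_sup_right (fun i => mem_sup_left i.2)
      (fun i j h => Subtype.ext (inv_mul_eq_one.1 (hd _ (H.mul_mem (H.inv_mem i.2) j.2) h)))
      fun y hy => by
        have hy' : y ∈ ((H ⊔ F : Subgroup E) : Set E) := hy
        rw [mul_normal] at hy'
        obtain ⟨a, ha, b, hb, rfl⟩ := hy'
        exact ⟨⟨a, ha⟩, by simpa using hb⟩
  have := Fintype.ofFinite (E ⧸ (H ⊔ F))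
  have e2 : ∑ x : E ⧸ (H ⊔ F), s x.out * hat (H ⊔ F) = hat ⊤ :=
    sum_s_hat _ le_top (by simp) (fun i j h => by simpa using QuotientGroup.eq.2 h)
      fun y _ => ⟨y, QuotientGroup.eq.1 (by simp)⟩
  refine ⟨(univ : Finset (E ⧸ (H ⊔ F))).toList.map fun x : E ⧸ (H ⊔ F) => x.out, ?_, ?_⟩
  · have a1 := card_of_sum _ e1
    have a2 := card_of_sum _ e2
    rw [← a1, Subgroup.card_top, ← F.index_mul_card, ← mul_assoc] at a2
    simpa using Nat.eq_of_mul_eq_mul_right Nat.card_pos a2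
  · simp only [hat_bot, mul_one] at e0
    rw [List.map_map, sum_map_toList, ← e2, ← e1, ← sum_mul, ← sum_mul, e0, mul_assoc]
    rfl

/-- `N` copies of `E / F` are cut into good blocks of size `m`. -/
def S64BTile_tile {D : Type} [Group D] (φ : E →* D) (T : D) (F : Subgroup E) (m K : ℕ) :
    AddSubmonoid ℕ where
  carrier := {N | ∃ l : List (MonoidAlgebra ℤ D), (∀ x ∈ l, Gk x m K) ∧
    l.length * m = F.index * N ∧
    l.sum * mapDomainRingHom ℤ φ (hat F) = I T N * mapDomainRingHom ℤ φ (hat ⊤)}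
  zero_mem' := ⟨[], by simp, by simp, by simp [I]⟩
  add_mem' := by
    rintro N N' ⟨l, a1, a2, a3⟩ ⟨l', b1, b2, b3⟩
    refine ⟨l ++ l'.map (s (T ^ N) * ·), fun x hx => ?_, ?_, ?_⟩
    · rcases List.mem_append.1 hx with h | h
      · exact a1 x h
      · obtain ⟨y, hy, rfl⟩ := List.mem_map.1 h
        simpa using (Gk.s (T ^ N)).mul (b1 y hy)
    · rw [List.length_append, List.length_map, add_mul, a2, b2, mul_add]
    · rw [List.sum_append, List.sum_map_mul_left, List.map_id', add_mul, a3, mul_assoc, b3, I_add,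
        add_mul, mul_assoc]

theorem S64BTile_mem {D : Type} [Group D] (φ : E →* D) (T : D) (F : Subgroup E) [F.Normal]
    (hF : IsPGroup 2 F) {m : ℕ} (ho : Odd m) (hm : m ∣ Nat.card E) {p e m' : ℕ}
    (hp : p.Prime) (he : p ^ e * m' = m) : m' ∈ S64BTile_tile φ T F m (Nat.log 2 (m ^ 4)) := by
  subst he
  rw [Nat.odd_mul] at ho
  obtain ⟨H, k, hH, hk, h⟩ := gk_pgroup hp e ho.1 (dvd_of_mul_right_dvd hm)
  obtain ⟨k', hk', h'⟩ := gk_interval T ho.2
  obtain ⟨l, a1, a2⟩ := S64BTile_trans F hF H (hH ▸ ho.1)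
  refine ⟨l.map fun x => I T m' * mapDomainRingHom ℤ φ (s x * hat H), fun x hx => ?_, ?_, ?_⟩
  · obtain ⟨y, -, rfl⟩ := List.mem_map.1 hx
    have := h'.mul (((Gk.s y).mul h).map φ)
    rw [one_mul, zero_add, mul_comm m'] at this
    refine this.mono (Nat.le_log_of_pow_le one_lt_two ?_)
    rw [pow_add, mul_pow, mul_comm]
    exact Nat.mul_le_mul hk hk'
  · rw [List.length_map, ← a1, hH]; ring
  · have : (l.map s).sum * hat H = (l.map fun x => s x * hat H).sum :=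
      (List.sum_map_mul_right _ _ _).symm
    rw [List.sum_map_mul_left, mul_assoc, ← a2, map_mul, this, map_list_sum, List.map_map]
    rfl

theorem S64BTile_pr {Γ : Type} [Group Γ] [Fintype Γ] (δ : Γ) (x : MonoidAlgebra ℤ (E × Γ))
    (y : MonoidAlgebra ℤ E) :
    pr δ x * y = pr δ (x * mapDomainRingHom ℤ (MonoidHom.inl E Γ) y) := by
  induction y using induction_linear with
  | zero => simp
  | add a b ha hb => rw [mul_add, map_add, mul_add, map_add, ha, hb]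
  | single g r =>
    ext c
    simp [pr_coeff]

theorem exists_trans_matrix (F : Subgroup E) [F.Normal] (hF : IsPGroup 2 F) {k : ℕ}
    (hk : 4 * F.index ^ 8 ≤ 2 ^ k) (ι : Type) [Fintype ι] [DecidableEq ι]
    (hι : Fintype.card ι = 2 ^ k) : ∃ (v : ℕ) (B : ι → ι → MonoidAlgebra ℤ E),
      (∀ a b, ∃ n, Flat n (B a b) ∧ n * hat F = hat ⊤) ∧
      ∀ a a', ∑ b, B a b * star (B a' b) = if a = a' then (v : MonoidAlgebra ℤ E) else 0 := by
  classical
  have := Fintype.ofFinite E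
  obtain ⟨a, m, ho, hv⟩ := Nat.exists_eq_two_pow_mul_odd (n := F.index) F.index_ne_zero_of_finite
  have hm : m ≠ 0 := ho.pos.ne'
  obtain ⟨f, f1, f2⟩ : ∃ f, m * m ≤ 2 ^ f ∧ 2 ^ f ≤ 2 * (m * m) :=
    ⟨Nat.log 2 (m * m) + 1, (Nat.lt_pow_succ_log_self one_lt_two _).le, by
      rw [pow_succ']; exact Nat.mul_le_mul_left _ (Nat.pow_log_le_self 2 (mul_ne_zero hm hm))⟩
  let Γ := Multiplicative (ZMod (2 ^ f))
  obtain ⟨l, a1, a2, a3⟩ := mem_of_ge m hm
    (S64BTile_tile (MonoidHom.inl E Γ) (1, .ofAdd 1) F m (Nat.log 2 (m ^ 4)))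
    (fun p e m' hp h => S64BTile_mem _ _ F hF ho
      ((Dvd.intro_left _ hv.symm).trans F.index_dvd_card) hp h) _ f1
  have hl : l.length = 2 ^ (a + f) :=
    Nat.eq_of_mul_eq_mul_right (m := m) (by omega) (by rw [a2, hv]; ring)
  have hK : Nat.log 2 (m ^ 4) + (a + f) + f ≤ k := by
    refine (Nat.pow_le_pow_iff_right one_lt_two).1 (le_trans ?_ hk)
    have b1 := Nat.pow_log_le_self 2 (pow_ne_zero 4 hm)
    have b2 : 2 ^ a ≤ (2 ^ a) ^ 8 := Nat.le_self_pow (by norm_num) _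
    calc _ = 2 ^ Nat.log 2 (m ^ 4) * 2 ^ a * 2 ^ f * 2 ^ f := by ring
      _ ≤ m ^ 4 * (2 ^ a) ^ 8 * (2 * (m * m)) * (2 * (m * m)) := by gcongr
      _ = _ := by rw [hv]; ring
  obtain ⟨k, rfl⟩ := Nat.exists_eq_add_of_le' ((Nat.le_add_left _ _).trans hK)
  obtain ⟨B, b1, b2⟩ := ((Gk.sum _ l hl a1).mono (Nat.le_of_add_le_add_right hK)).get (Fin (2 ^ k))
    (Fintype.card_fin _)
  have e : ι ≃ Fin (2 ^ k) × Γ := Fintype.equivOfCardEq (by simp [hι, Γ, pow_add])
  have a4 : l.sum * mapDomainRingHom ℤ (MonoidHom.inl E Γ) (hat F) = hat ⊤ :=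
    a3.trans (I_mul_hat _)
  refine ⟨2 ^ k * (2 ^ (a + f) * m), fun x y => pr ((e x).2⁻¹ * (e y).2) (B (e x).1 (e y).1),
    fun x y => ⟨pr ((e x).2⁻¹ * (e y).2) l.sum, ?_, ?_⟩, fun x x' => ?_⟩
  · obtain ⟨c, d, hc, hd, e1, e2⟩ := b1 (e x).1 (e y).1
    exact ⟨_, _, fun g => hc _, fun g => hd _, by rw [e1, map_add], by simp only [e2, map_sub]⟩
  · rw [S64BTile_pr, a4]
    ext c
    simp [pr_coeff, hat_coeff]
  · rw [e.sum_comp fun y => pr ((e x).2⁻¹ * y.2) (B (e x).1 y.1) *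
      star (pr ((e x').2⁻¹ * y.2) (B (e x').1 y.1)), Fintype.sum_prod_type]
    simp only [pr_mul, ← map_sum, b2]
    ext c
    simp only [pr_coeff, ← e.injective.eq_iff (a := x), Prod.ext_iff,
      ← inv_mul_eq_one (a := (e x).2)]
    generalize (2 ^ k * (2 ^ (a + f) * m)) = w
    by_cases c1 : (e x).1 = (e x').1 <;> by_cases c2 : (e x).2⁻¹ * (e x').2 = 1 <;>
      simp [c1, c2, natCast_def, Finsupp.single_apply, Prod.ext_iff]

end Pool.Agent.Lib.MP_2d211a_co.S64
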