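import Pool.Agent.Lib.MP_2d211a_co.S64CAut

/-!
Solvable extensions of small index.
-/

namespace Pool.Agent.Lib.MP_2d211a_co.S64

open Subgroup H60 CategoryTheory

/-- A proper normal subgroup of a finite solvable group lies in a normal maximal subgroup. -/
theorem S64CExt_max {G : Type} [Group G] [Finite G] [Group.IsSolvable G] (R : Subgroup G)
    [R.Normal] (hR : R ≠ ⊤) : ∃ K : Subgroup G, K.Normal ∧ R ≤ K ∧ IsCoatom K := by
  have : Nontrivial (G ⧸ R) := QuotientGroup.nontrivial_iff.2 hR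
  have h1 := Group.IsSolvable.commutator_lt_top_of_nontrivial (G := G ⧸ R)
  obtain ⟨M, hM, h2⟩ := (eq_top_or_exists_le_coatom (commutator (G ⧸ R))).resolve_left h1.ne
  have hN : M.Normal := ⟨fun y hy g => by
    have h3 : g * y * g⁻¹ * y⁻¹ ∈ M := h2 (commutator_mem_commutator (mem_top g) (mem_top y))
    simpa using mul_mem h3 hy⟩
  refine ⟨M.comap (QuotientGroup.mk' R), hN.comap _, ?_,
    isCoatom_comap_of_surjective (QuotientGroup.mk'_surjective R) hM⟩
  intro x hx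
  have h4 : QuotientGroup.mk' R x = 1 := (QuotientGroup.eq_one_iff x).2 hx
  rw [mem_comap, h4]
  exact one_mem _

/-- The data of an extension over a normal maximal subgroup. -/
theorem S64CExt_ex {G L : Type} [Group G] [Finite G] [Group L] (f : L →* G)
    (hf : Function.Injective f) (hN : f.range.Normal) (hK : IsCoatom f.range) :
    ∃ (p : ℕ) (d : MulAut L × L), p.Prime ∧ p ≤ Nat.card G ∧ Ex p d G := by
  have h1 : 1 < f.range.index := one_lt_index_of_ne_top hK.1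
  obtain ⟨p, hp, hd⟩ := Nat.exists_prime_and_dvd h1.ne'
  have := Fact.mk hp
  obtain ⟨x, hx⟩ := exists_prime_orderOf_dvd_card' (G := G ⧸ f.range) p hd
  obtain ⟨g, rfl⟩ := QuotientGroup.mk_surjective x
  have a1 : g ∉ f.range := fun h => by
    rw [(QuotientGroup.eq_one_iff g).2 h, orderOf_one] at hx
    exact hp.ne_one hx.symm
  have a2 : g ∈ normalizer (f.range : Set G) := by
    rw [normalizer_eq_top]
    exact mem_top g
  obtain ⟨a, a3⟩ : g ^ p ∈ f.range := by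
    rw [← QuotientGroup.eq_one_iff, QuotientGroup.mk_pow, ← hx, pow_orderOf_eq_one]
  refine ⟨p, (((MonoidHom.ofInjective hf).trans (f.range.normalizerMonoidHom ⟨g, a2⟩)).trans
    (MonoidHom.ofInjective hf).symm, a), hp,
    Nat.le_of_dvd Nat.card_pos (hd.trans f.range.index_dvd_card), inferInstance, f, g, hf, a1,
    fun h => ?_, a3.symm, fun E h1 h2 => ?_⟩
  · simp only [MulEquiv.trans_apply, MonoidHom.apply_ofInjective_symm]
    rfl
  · exact (hK.2 E (lt_of_le_of_ne h1 fun e => a1 (e ▸ h2))).ge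

/-- The number of extensions of prime degree. -/
theorem S64CExt_cnt (N : ℕ) (L : Type) [Group L] [Finite L] (hL : Nat.card L ≤ 2 ^ N) :
    (cl '' {G | ∃ (p : ℕ) (d : MulAut L × L), p.Prime ∧ p ≤ 2 ^ N ∧ Ex p d G}).Finite ∧
    (cl '' {G | ∃ (p : ℕ) (d : MulAut L × L), p.Prime ∧ p ≤ 2 ^ N ∧ Ex p d G}).ncard ≤
      2 ^ (N * N + 2 * N) := by
  have h0 : {p : ℕ | p.Prime ∧ p ≤ 2 ^ N} ⊆ ↑(Finset.Ioc 0 (2 ^ N)) := fun p hp => by
    simpa using ⟨hp.1.pos, hp.2⟩
  have h1 : {p : ℕ | p.Prime ∧ p ≤ 2 ^ N}.Finite := (Finset.finite_toSet _).subset h0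
  have h2 : {p : ℕ | p.Prime ∧ p ≤ 2 ^ N}.ncard ≤ 2 ^ N := by
    refine (Set.ncard_le_ncard h0 (Finset.finite_toSet _)).trans ?_
    rw [Set.ncard_coe_finset, Nat.card_Ioc, Nat.sub_zero]
  have := cover (h1.prod (Set.finite_univ (α := MulAut L × L)))
    (fun x => cl '' {G | Ex x.1 x.2 G}) 1 (fun x hx => ?_)
    (cl '' {G | ∃ (p : ℕ) (d : MulAut L × L), p.Prime ∧ p ≤ 2 ^ N ∧ Ex p d G}) ?_
  · refine ⟨this.1, this.2.trans ?_⟩
    rw [Set.ncard_prod, Set.ncard_univ, Nat.card_prod, mul_one]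
    calc _ ≤ 2 ^ N * (2 ^ (N * N) * 2 ^ N) :=
          Nat.mul_le_mul h2 (Nat.mul_le_mul (card_aut_le hL) hL)
      _ = 2 ^ (N * N + 2 * N) := by ring
  · have : (cl '' {G | Ex x.1 x.2 G}).Subsingleton := by
      rintro _ ⟨A, hA, rfl⟩ _ ⟨B, hB, rfl⟩
      exact cl_eq.2 (Ex.iso hx.1.1 hA hB)
    exact ⟨this.finite, (Set.ncard_le_one this.finite).2 fun a ha b hb => this ha hb⟩
  · rintro _ ⟨G, ⟨p, d, hp, hp', hd⟩, rfl⟩
    exact ⟨(p, d), ⟨⟨hp, hp'⟩, trivial⟩, G, hd, rfl⟩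

theorem ext_solv (N t : ℕ) (H : Type) [Group H] :
    (cl '' {G | Finite G ∧ Group.IsSolvable G ∧ Nat.card G ≤ 2 ^ N ∧ ∃ f : H →* G,
      Function.Injective f ∧ f.range.Normal ∧ f.range.index ≤ 2 ^ t}).Finite ∧
    (cl '' {G | Finite G ∧ Group.IsSolvable G ∧ Nat.card G ≤ 2 ^ N ∧ ∃ f : H →* G,
      Function.Injective f ∧ f.range.Normal ∧ f.range.index ≤ 2 ^ t}).ncard ≤
      2 ^ (t * (N * N + 2 * N + 1)) := by
  induction t with
  | zero =>
    have key : ∀ G : GrpCat.{0}, (Finite G ∧ Group.IsSolvable G ∧ Nat.card G ≤ 2 ^ N ∧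
        ∃ f : H →* G, Function.Injective f ∧ f.range.Normal ∧ f.range.index ≤ 2 ^ 0) →
        Nonempty (H ≃* G) := by
      rintro G ⟨_, -, -, f, hf, -, h⟩
      have h1 : f.range.index ≠ 0 := index_ne_zero_of_finite
      have h2 : f.range = ⊤ := index_eq_one.1 (by omega)
      exact ⟨MulEquiv.ofBijective f ⟨hf, MonoidHom.range_eq_top.1 h2⟩⟩
    have : (cl '' {G | Finite G ∧ Group.IsSolvable G ∧ Nat.card G ≤ 2 ^ N ∧ ∃ f : H →* G,
        Function.Injective f ∧ f.range.Normal ∧ f.range.index ≤ 2 ^ 0}).Subsingleton := by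
      rintro _ ⟨A, hA, rfl⟩ _ ⟨B, hB, rfl⟩
      obtain ⟨a⟩ := key A hA
      obtain ⟨b⟩ := key B hB
      exact cl_eq.2 ⟨a.symm.trans b⟩
    refine ⟨this.finite, ?_⟩
    rw [zero_mul, pow_zero 2]
    exact (Set.ncard_le_one this.finite).2 fun a ha b hb => this ha hb
  | succ t ih =>
    have := cover ih.1 (fun c => insert c (cl '' {G | ∃ (p : ℕ) (d : MulAut c.out × c.out),
      p.Prime ∧ p ≤ 2 ^ N ∧ Ex p d G})) (2 ^ (N * N + 2 * N + 1)) (fun c hc => ?_)
      (cl '' {G | Finite G ∧ Group.IsSolvable G ∧ Nat.card G ≤ 2 ^ N ∧ ∃ f : H →* G,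
        Function.Injective f ∧ f.range.Normal ∧ f.range.index ≤ 2 ^ (t + 1)}) ?_
    · refine ⟨this.1, this.2.trans ((Nat.mul_le_mul_right _ ih.2).trans_eq ?_)⟩
      rw [← pow_add]
      congr 1
      ring
    · obtain ⟨A, ⟨a1, -, a2, -⟩, h⟩ := hc
      obtain ⟨φ⟩ := cl_eq.1 (h.trans c.out_eq.symm)
      have : Finite c.out := Finite.of_equiv _ φ.toEquiv
      obtain ⟨h1, h2⟩ := S64CExt_cnt N c.out ((Nat.card_congr φ.toEquiv).symm.trans_le a2)
      refine ⟨h1.insert c, (Set.ncard_insert_le _ _).trans ?_⟩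
      have h3 : 1 ≤ 2 ^ (N * N + 2 * N) := Nat.one_le_two_pow
      rw [pow_succ]
      omega
    · rintro _ ⟨G, ⟨a1, a2, a3, f, hf, hN, hi⟩, rfl⟩
      by_cases hR : f.range = ⊤
      · refine ⟨cl G, ⟨G, ⟨a1, a2, a3, f, hf, hN, ?_⟩, rfl⟩, Set.mem_insert _ _⟩
        rw [hR, index_top]
        exact Nat.one_le_two_pow
      obtain ⟨K, hK, hle, hc⟩ := S64CExt_max f.range hR
      obtain ⟨φ⟩ := cl_eq.1 (cl (GrpCat.of K)).out_eq
      have e : (K.subtype.comp φ.toMonoidHom).range = K := by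
        rw [MonoidHom.range_comp, MonoidHom.range_eq_top.2 φ.surjective, ← MonoidHom.range_eq_map,
          range_subtype]
      obtain ⟨p, d, hp, hp', hd⟩ := S64CExt_ex (K.subtype.comp φ.toMonoidHom)
        (K.subtype_injective.comp φ.injective) (e.symm ▸ hK) (e.symm ▸ hc)
      refine ⟨cl (GrpCat.of K), ⟨GrpCat.of K, ⟨inferInstanceAs (Finite K),
        inferInstanceAs (Group.IsSolvable K), (card_le_card_group K).trans a3,
        f.codRestrict K fun x => hle ⟨x, rfl⟩, fun x y h => hf (congrArg Subtype.val h), ?_, ?_⟩,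
        rfl⟩, Set.mem_insert_of_mem _ ⟨G, ⟨p, d, hp, hp'.trans a3, hd⟩, rfl⟩⟩
      · rw [← MonoidHom.subgroupOf_range_eq_of_le f hle]
        infer_instance
      · rw [← MonoidHom.subgroupOf_range_eq_of_le f hle]
        have h1 := relIndex_mul_index hle
        have h2 : 1 < K.index := one_lt_index_of_ne_top hc.1
        have h3 : f.range.relIndex K * 2 ≤ 2 ^ t * 2 := by
          calc f.range.relIndex K * 2 ≤ f.range.relIndex K * K.index := Nat.mul_le_mul_left _ h2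
            _ ≤ 2 ^ (t + 1) := h1 ▸ hi
            _ = 2 ^ t * 2 := pow_succ 2 t
        exact Nat.le_of_mul_le_mul_right h3 two_pos

end Pool.Agent.Lib.MP_2d211a_co.S64
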