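import Pool.Agent.Lib.MP_2d211a_co.S64CDef

/-!
A p-group acting faithfully on an elementary abelian q-group.
-/

namespace Pool.Agent.Lib.MP_2d211a_co.S64

open Subgroup H60 CategoryTheory

theorem S64CGL_val_prod {p : ℕ} [Fact p.Prime] (g : ℕ → ℕ) (hg : ∀ j, g j ≠ 0) (d : ℕ) :
    padicValNat p (∏ j ∈ Finset.range d, g j) = ∑ j ∈ Finset.range d, padicValNat p (g j) := by
  induction d with
  | zero => simp
  | succ d ih =>
    rw [Finset.prod_range_succ, Finset.sum_range_succ,
      padicValNat.mul (Finset.prod_ne_zero_iff.2 fun j _ => hg j) (hg d), ih]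

theorem S64CGL_fact {p : ℕ} [hp : Fact p.Prime] (d : ℕ) :
    p ^ (∑ j ∈ Finset.range d, padicValNat p (j + 1)) ≤ 2 ^ d := by
  rw [← S64CGL_val_prod (fun j => j + 1) (fun j => Nat.succ_ne_zero j) d,
    Finset.prod_range_add_one_eq_factorial]
  have h1 : (p - 1) * padicValNat p d.factorial ≤ d := by
    rw [sub_one_mul_padicValNat_factorial]
    exact Nat.sub_le _ _
  have h2 : p ≤ 2 ^ (p - 1) := by
    have h3 : p - 1 < 2 ^ (p - 1) := Nat.lt_two_pow_self
    have := hp.out.pos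
    omega
  calc p ^ padicValNat p d.factorial ≤ (2 ^ (p - 1)) ^ padicValNat p d.factorial :=
        Nat.pow_le_pow_left h2 _
    _ = 2 ^ ((p - 1) * padicValNat p d.factorial) := by rw [← pow_mul]
    _ ≤ 2 ^ d := Nat.pow_le_pow_right (by norm_num) h1

theorem S64CGL_step {p q : ℕ} [hp : Fact p.Prime] (hq : q.Prime) (hpq : p ≠ q) :
    ∃ e c : ℕ, p ^ c ≤ q ^ (2 * e) ∧ ∀ j, j ≠ 0 →
      padicValNat p (q ^ j - 1) ≤ (if e ∣ j then c else 0) + padicValNat p j := by
  have hq2 := hq.two_le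
  have hnd : ¬ p ∣ q := fun h => hpq ((Nat.prime_dvd_prime_iff_eq hp.out hq).1 h)
  have hne : ∀ j, j ≠ 0 → q ^ j - 1 ≠ 0 := fun j hj => by
    have : 1 < q ^ j := Nat.one_lt_pow hj (by omega)
    omega
  rcases hp.out.eq_two_or_odd' with rfl | hodd
  · refine ⟨1, padicValNat 2 (q + 1) + padicValNat 2 (q - 1), ?_, fun j hj => ?_⟩
    · rw [pow_add]
      have a1 : 2 ^ padicValNat 2 (q + 1) ≤ q + 1 := Nat.le_of_dvd (by omega) pow_padicValNat_dvd
      have a2 : 2 ^ padicValNat 2 (q - 1) ≤ q - 1 := Nat.le_of_dvd (by omega) pow_padicValNat_dvd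
      refine (Nat.mul_le_mul a1 a2).trans ?_
      obtain ⟨r, rfl⟩ : ∃ r, q = r + 1 := ⟨q - 1, by omega⟩
      have a3 : (r + 1) ^ (2 * 1) = (r + 1 + 1) * r + 1 := by ring
      rw [Nat.add_sub_cancel, a3]
      exact Nat.le_succ _
    · rw [if_pos (one_dvd j)]
      have h1 := padicValNat.pow_two_sub_pow (x := q) (y := 1) (by omega) (by omega) hnd
        (n := 2 * j) (by omega) (even_two_mul j)
      rw [padicValNat.mul (by norm_num) hj, padicValNat_self, one_pow] at h1
      have h2 : q ^ j - 1 ∣ q ^ (2 * j) - 1 := by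
        rw [mul_comm, pow_mul]
        exact Nat.sub_one_dvd_pow_sub_one _ _
      have h3 : padicValNat 2 (q ^ j - 1) ≤ padicValNat 2 (q ^ (2 * j) - 1) :=
        (padicValNat_dvd_iff_le (hne _ (by omega))).1 (pow_padicValNat_dvd.trans h2)
      omega
  · have hdv : ∀ j, p ∣ q ^ j - 1 ↔ orderOf (q : ZMod p) ∣ j := fun j => by
      rw [orderOf_dvd_iff_pow_eq_one, ← Nat.modEq_iff_dvd' (Nat.one_le_pow _ _ (by omega)),
        ← ZMod.natCast_eq_natCast_iff]
      push_cast
      exact eq_comm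
    have hq0 : (q : ZMod p) ≠ 0 := fun h => hnd ((ZMod.natCast_eq_zero_iff q p).1 h)
    have he : orderOf (q : ZMod p) ≠ 0 := by
      intro h
      have h1 := ZMod.orderOf_dvd_card_sub_one hq0
      rw [h, zero_dvd_iff] at h1
      have := hp.out.two_le
      omega
    generalize orderOf (q : ZMod p) = e at hdv he
    refine ⟨e, padicValNat p (q ^ e - 1), ?_, fun j hj => ?_⟩
    · refine (Nat.le_of_dvd (Nat.pos_of_ne_zero (hne e he)) pow_padicValNat_dvd).trans ?_
      exact (Nat.sub_le _ _).trans (Nat.pow_le_pow_right (by omega) (by omega))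
    · by_cases h : e ∣ j
      · rw [if_pos h]
        obtain ⟨k, rfl⟩ := h
        have hk : k ≠ 0 := fun h => hj (by simp [h])
        have h1 := padicValNat.pow_sub_pow (p := p) hodd (x := q ^ e) (y := 1)
          (Nat.one_lt_pow he (by omega)) ((hdv e).2 dvd_rfl)
          (fun h => hnd (hp.out.dvd_of_dvd_pow h)) hk
        rw [one_pow, ← pow_mul] at h1
        rw [h1, padicValNat.mul he hk]
        omega
      · rw [padicValNat.eq_zero_of_not_dvd (fun h' => h ((hdv j).1 h'))]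
        exact Nat.zero_le _

theorem pow_le_of_dvd_GL {p q d k : ℕ} (hp : p.Prime) (hq : q.Prime) (hpq : p ≠ q)
    (h : p ^ k ∣ ∏ i : Fin d, (q ^ d - q ^ i.val)) : p ^ k ≤ q ^ (3 * d) := by
  have : Fact p.Prime := ⟨hp⟩
  have hq2 := hq.two_le
  have hne : ∀ j, q ^ (j + 1) - 1 ≠ 0 := fun j => by
    have : 1 < q ^ (j + 1) := Nat.one_lt_pow (by omega) (by omega)
    omega
  have e1 : ∏ i : Fin d, (q ^ d - q ^ i.val) =
      (∏ i ∈ Finset.range d, q ^ i) * ∏ j ∈ Finset.range d, (q ^ (j + 1) - 1) := by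
    rw [Fin.prod_univ_eq_prod_range (fun i => q ^ d - q ^ i) d,
      ← Finset.prod_range_reflect (fun j => q ^ (j + 1) - 1) d, ← Finset.prod_mul_distrib]
    refine Finset.prod_congr rfl fun i hi => ?_
    have hi' := Finset.mem_range.1 hi
    rw [Nat.mul_sub, mul_one, ← pow_add]
    congr 2
    omega
  rw [e1] at h
  have hco : Nat.Coprime (p ^ k) (∏ i ∈ Finset.range d, q ^ i) :=
    Nat.Coprime.prod_right fun i _ => Nat.Coprime.pow _ _ ((Nat.coprime_primes hp hq).2 hpq)
  have h2 := hco.dvd_of_dvd_mul_left h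
  rw [padicValNat_dvd_iff_le (Finset.prod_ne_zero_iff.2 fun j _ => hne j),
    S64CGL_val_prod _ hne] at h2
  obtain ⟨e, c, hc, hs⟩ := S64CGL_step (p := p) hq hpq
  have h3 : k ≤ c * (d / e) + ∑ j ∈ Finset.range d, padicValNat p (j + 1) := by
    refine h2.trans ((Finset.sum_le_sum fun j _ => hs (j + 1) (by omega)).trans_eq ?_)
    rw [Finset.sum_add_distrib, ← Finset.sum_filter, Finset.sum_const, Nat.card_multiples,
      smul_eq_mul, mul_comm]
  calc p ^ k ≤ p ^ (c * (d / e) + ∑ j ∈ Finset.range d, padicValNat p (j + 1)) :=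
        Nat.pow_le_pow_right hp.pos h3
    _ = (p ^ c) ^ (d / e) * p ^ (∑ j ∈ Finset.range d, padicValNat p (j + 1)) := by
        rw [pow_add, pow_mul]
    _ ≤ (q ^ (2 * e)) ^ (d / e) * 2 ^ d :=
        Nat.mul_le_mul (Nat.pow_le_pow_left hc _) (S64CGL_fact d)
    _ ≤ q ^ (2 * d) * q ^ d := by
        refine Nat.mul_le_mul ?_ (Nat.pow_le_pow_left hq2 _)
        rw [← pow_mul, mul_assoc]
        exact Nat.pow_le_pow_right (by omega) (Nat.mul_le_mul_left 2 (Nat.mul_div_le d e))
    _ = q ^ (3 * d) := by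
        rw [← pow_add]
        congr 1
        omega

/-- An automorphism of an elementary abelian group is linear. -/
def S64CGL_lin {q : ℕ} {V : Type} [CommGroup V] [Module (ZMod q) (Additive V)] :
    MulAut V →* (Additive V ≃ₗ[ZMod q] Additive V) where
  toFun σ :=
    { MulEquiv.toAdditive σ with
      map_smul' := fun c x => ZMod.map_smul (MulEquiv.toAdditive σ) c x }
  map_one' := LinearEquiv.ext fun _ => rfl
  map_mul' _ _ := LinearEquiv.ext fun _ => rfl

theorem S64CGL_dvd {q : ℕ} {V : Type} [CommGroup V] [Module (ZMod q) (Additive V)] :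
    Nat.card (MulAut V) ∣ Nat.card (Additive V ≃ₗ[ZMod q] Additive V) :=
  Subgroup.card_dvd_of_injective (S64CGL_lin (q := q) (V := V)) fun _ _ h =>
    MulEquiv.ext fun v => LinearEquiv.congr_fun h (Additive.ofMul v)

theorem S64CGL_card {p q k : ℕ} (hp : p.Prime) [hq : Fact q.Prime] (hpq : p ≠ q) {W : Type}
    [AddCommGroup W] [Finite W] [Module (ZMod q) W] (h : p ^ k ∣ Nat.card (W ≃ₗ[ZMod q] W)) :
    p ^ k ≤ Nat.card W ^ 3 := by
  have : Module.Finite (ZMod q) W := Module.Finite.of_finite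
  have h2 : Nat.card (W ≃ₗ[ZMod q] W) =
      Nat.card (GL (Fin (Module.finrank (ZMod q) W)) (ZMod q)) :=
    (Nat.card_congr ((Matrix.GeneralLinearGroup.toLin' (Module.finBasis (ZMod q) W)).trans
      (LinearMap.GeneralLinearGroup.generalLinearEquiv (ZMod q) W)).toEquiv).symm
  rw [h2, Matrix.card_GL_field, ZMod.card] at h
  have h3 : Nat.card W = q ^ Module.finrank (ZMod q) W := by
    have := Module.natCard_eq_pow_finrank (K := ZMod q) (V := W)
    rwa [Nat.card_zmod] at this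
  rw [h3, ← pow_mul, mul_comm]
  exact pow_le_of_dvd_GL hp hq.out hpq h

theorem S64CGL_comm {p q : ℕ} (hp : p.Prime) (hq : q.Prime) (hpq : p ≠ q) {V : Type}
    [CommGroup V] [Finite V] [Module (ZMod q) (Additive V)] {R : Type} [Group R]
    [Finite R] (hR : IsPGroup p R) (φ : R →* MulAut V) (hφ : Function.Injective φ) :
    Nat.card R ≤ Nat.card V ^ 3 := by
  have : Fact p.Prime := ⟨hp⟩
  have : Fact q.Prime := ⟨hq⟩
  obtain ⟨k, hk⟩ := IsPGroup.iff_card.1 hR
  have h1 : Nat.card R ∣ Nat.card (Additive V ≃ₗ[ZMod q] Additive V) :=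
    (Subgroup.card_dvd_of_injective φ hφ).trans S64CGL_dvd
  rw [hk] at h1 ⊢
  exact S64CGL_card (W := Additive V) hp hpq h1

theorem card_le_elem {p q : ℕ} (hp : p.Prime) (hq : q.Prime) (hpq : p ≠ q) {V : Type} [Group V]
    [Finite V] (hc : ∀ a b : V, a * b = b * a) (hV : ∀ v : V, v ^ q = 1) {R : Type} [Group R]
    [Finite R] (hR : IsPGroup p R) (φ : R →* MulAut V) (hφ : Function.Injective φ) :
    Nat.card R ≤ Nat.card V ^ 3 := by
  let _ : CommGroup V := { (inferInstance : Group V) with mul_comm := hc }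
  let _ : Module (ZMod q) (Additive V) :=
    AddCommGroup.zmodModule (fun x => congrArg Additive.ofMul (hV x.toMul))
  exact S64CGL_comm hp hq hpq hR φ hφ

end Pool.Agent.Lib.MP_2d211a_co.S64
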