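import Pool.Agent.Lib.MP_2d211a_co.S64CDef

/-!
The splitting theorem of Gaschuetz.
-/

namespace Pool.Agent.Lib.MP_2d211a_co.S64

open Subgroup H60 CategoryTheory

section
open scoped IsMulCommutative

variable {D : Type} [Group D] (A : Subgroup D) [A.Normal] [IsMulCommutative A]

/-- There is a crossed homomorphism that is the `k`-th power on `A`. -/
def S64CGasDer (k : ℤ) : Prop :=
  ∃ d : D → A, (∀ x y, d (x * y) = d x * MulAut.conjNormal x (d y)) ∧ ∀ a : A, d a = a ^ k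

variable {A}

lemma S64CGas_conj (a b : A) : MulAut.conjNormal (a : D) b = b := by
  apply Subtype.ext
  have h : (a : D) * b = b * a := congrArg Subtype.val (mul_comm a b)
  rw [MulAut.conjNormal_apply, h, mul_inv_cancel_right]

lemma S64CGas_comb {k l : ℤ} (hk : S64CGasDer A k) (hl : S64CGasDer A l) (u v : ℤ) :
    S64CGasDer A (k * u + l * v) := by
  obtain ⟨d, h1, h2⟩ := hk
  obtain ⟨e, h3, h4⟩ := hl
  refine ⟨fun x => d x ^ u * e x ^ v, fun x y => ?_, fun a => ?_⟩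
  · simp only [h1, h3, mul_zpow, map_mul, map_zpow]
    exact mul_mul_mul_comm _ _ _ _
  · simp only [h2, h4, zpow_add, zpow_mul]

lemma S64CGas_loc {H : Subgroup D} (hH : H ⊓ A = ⊥) : ∃ δ : D → A,
    (∀ x ∈ H ⊔ A, ∀ y ∈ H ⊔ A, δ (x * y) = δ x * MulAut.conjNormal x (δ y)) ∧
      ∀ a : A, δ a = a := by
  have hex : ∀ x : D, ∃ a : A, x ∈ H ⊔ A → (a : D)⁻¹ * x ∈ H := by
    intro x
    by_cases hx : x ∈ H ⊔ A
    · rw [sup_comm, ← SetLike.mem_coe, Subgroup.normal_mul] at hx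
      obtain ⟨a, ha, h, hh, rfl⟩ := hx
      refine ⟨⟨a, ha⟩, fun _ => ?_⟩
      simpa using hh
    · exact ⟨1, fun h => absurd h hx⟩
  choose δ hδ using hex
  have huniq : ∀ (x : D) (a b : A), (a : D)⁻¹ * x ∈ H → (b : D)⁻¹ * x ∈ H → a = b := by
    intro x a b ha hb
    have h1 : (a : D)⁻¹ * b ∈ H ⊓ A := by
      refine ⟨?_, A.mul_mem (A.inv_mem a.2) b.2⟩
      have h2 := H.mul_mem ha (H.inv_mem hb)
      have e : (a : D)⁻¹ * x * ((b : D)⁻¹ * x)⁻¹ = (a : D)⁻¹ * b := by group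
      rwa [e] at h2
    rw [hH, Subgroup.mem_bot, inv_mul_eq_one] at h1
    exact Subtype.ext h1
  refine ⟨δ, fun x hx y hy => ?_, fun a => ?_⟩
  · refine huniq (x * y) _ _ (hδ _ (Subgroup.mul_mem _ hx hy)) ?_
    have h1 := H.mul_mem (hδ x hx) (hδ y hy)
    rw [mul_comm (δ x), Subgroup.coe_mul, MulAut.conjNormal_apply]
    have e : (x * (δ y : D) * x⁻¹ * (δ x : D))⁻¹ * (x * y) =
        (δ x : D)⁻¹ * x * ((δ y : D)⁻¹ * y) := by group
    rwa [e]
  · refine huniq a _ _ (hδ _ (Subgroup.mem_sup_right a.2)) ?_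
    rw [inv_mul_cancel]
    exact H.one_mem

lemma S64CGas_cor [Finite D] {B : Subgroup D} (hB : A ≤ B) {δ : D → A}
    (h1 : ∀ x ∈ B, ∀ y ∈ B, δ (x * y) = δ x * MulAut.conjNormal x (δ y)) (h2 : ∀ a : A, δ a = a) :
    S64CGasDer A B.index := by
  classical
  have : Fintype (D ⧸ B) := Fintype.ofFinite _
  have hb : ∀ (g : D) (q : D ⧸ B), (g • q).out⁻¹ * (g * q.out) ∈ B := by
    intro g q
    rw [← QuotientGroup.eq, QuotientGroup.out_eq']
    exact (MulAction.Quotient.coe_smul_out B g q).symm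
  refine ⟨fun g => ∏ q : D ⧸ B,
    MulAut.conjNormal (g • q).out (δ ((g • q).out⁻¹ * (g * q.out))), fun g h => ?_, fun a => ?_⟩
  · beta_reduce
    rw [map_prod, ← Equiv.prod_comp (MulAction.toPerm h) fun q : D ⧸ B =>
      MulAut.conjNormal (g • q).out (δ ((g • q).out⁻¹ * (g * q.out))), ← Finset.prod_mul_distrib]
    refine Finset.prod_congr rfl fun q _ => ?_
    have e : ((g * h) • q).out⁻¹ * (g * h * q.out) =
        (g • h • q).out⁻¹ * (g * (h • q).out) * ((h • q).out⁻¹ * (h * q.out)) := by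
      rw [mul_smul]; group
    rw [e, h1 _ (hb g (h • q)) _ (hb h q), map_mul, mul_smul, MulAction.toPerm_apply]
    congr 1
    rw [← MulAut.mul_apply, ← map_mul, ← MulAut.mul_apply, ← map_mul, mul_inv_cancel_left]
  · have hq : ∀ q : D ⧸ B, q.out⁻¹ * ((a : D) * q.out) ∈ A := fun q => by
      have := (inferInstance : A.Normal).conj_mem _ a.2 q.out⁻¹
      rwa [inv_inv, mul_assoc] at this
    have hs : ∀ q : D ⧸ B, (a : D) • q = q := fun q => by
      rw [← MulAction.Quotient.coe_smul_out B (a : D) q]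
      conv_rhs => rw [← QuotientGroup.out_eq' q]
      exact (QuotientGroup.eq.2 (hB (hq q))).symm
    have ht : ∀ q : D ⧸ B, MulAut.conjNormal ((a : D) • q).out
        (δ (((a : D) • q).out⁻¹ * ((a : D) * q.out))) = a := fun q => by
      rw [hs, h2 ⟨_, hq q⟩]
      apply Subtype.ext
      rw [MulAut.conjNormal_apply]
      group
    simp only [ht]
    rw [Finset.prod_const, Finset.card_univ, zpow_natCast, Subgroup.index_eq_card,
      Nat.card_eq_fintype_card]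

lemma S64CGas_ker (h : S64CGasDer A 1) : ∃ E : Subgroup D, A.IsComplement' E := by
  obtain ⟨d, h1, h2⟩ := h
  simp only [zpow_one] at h2
  have h0 : d 1 = 1 := h2 1
  let E : Subgroup D :=
    { carrier := {x | d x = 1}
      one_mem' := h0
      mul_mem' := fun {x y} hx hy => by
        rw [Set.mem_ofPred_eq] at hx hy ⊢
        rw [h1, hx, hy, map_one, one_mul]
      inv_mem' := fun {x} hx => by
        rw [Set.mem_ofPred_eq] at hx ⊢
        have h3 := h1 x⁻¹ x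
        rwa [inv_mul_cancel, h0, hx, map_one, mul_one, eq_comm] at h3 }
  refine ⟨E, isComplement'_of_disjoint_and_mul_eq_univ ?_ ?_⟩
  · rw [Subgroup.disjoint_def]
    intro x hx hE
    have h3 : d x = 1 := hE
    rw [h2 ⟨x, hx⟩] at h3
    exact congrArg Subtype.val h3
  · refine Set.eq_univ_of_forall fun x => ⟨d x, (d x).2, ((d x)⁻¹ : A) * x, ?_, by simp⟩
    change d (((d x)⁻¹ : A) * x) = 1
    rw [h1, h2, S64CGas_conj, inv_mul_cancel]

end

theorem gaschutz {D : Type} [Group D] [Finite D] (A : Subgroup D) [A.Normal]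
    (hA : ∀ a ∈ A, ∀ b ∈ A, a * b = b * a)
    (h : ∀ p : ℕ, p.Prime → ∃ H : Subgroup D, H ⊓ A = ⊥ ∧ ¬p ∣ (H ⊔ A).index) :
    ∃ E : Subgroup D, A.IsComplement' E := by
  classical
  have : IsMulCommutative A := ⟨⟨fun a b => Subtype.ext (hA _ a.2 _ b.2)⟩⟩
  have hp : ∀ p : ℕ, p.Prime → ∃ m : ℕ, ¬p ∣ m ∧ S64CGasDer A m := by
    intro p hp
    obtain ⟨H, hH, hi⟩ := h p hp
    obtain ⟨δ, h1, h2⟩ := S64CGas_loc hH
    exact ⟨_, hi, S64CGas_cor le_sup_right h1 h2⟩
  have hex : ∃ n : ℕ, 0 < n ∧ S64CGasDer A n := by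
    obtain ⟨m, hm, hd⟩ := hp 2 Nat.prime_two
    exact ⟨m, Nat.pos_of_ne_zero fun h0 => hm (h0 ▸ dvd_zero 2), hd⟩
  obtain ⟨hn0, hn⟩ := Nat.find_spec hex
  have h1 : Nat.find hex = 1 := by
    by_contra hne
    obtain ⟨p, hpp, hpn⟩ := Nat.exists_prime_and_dvd hne
    obtain ⟨m, hm, hd⟩ := hp p hpp
    have hg : S64CGasDer A (Nat.gcd (Nat.find hex) m : ℕ) := by
      rw [Nat.gcd_eq_gcd_ab]
      exact S64CGas_comb hn hd _ _
    have hle := Nat.find_min' hex ⟨Nat.gcd_pos_of_pos_left m hn0, hg⟩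
    have he : Nat.gcd (Nat.find hex) m = Nat.find hex :=
      le_antisymm (Nat.gcd_le_left m hn0) hle
    exact hm (hpn.trans (he ▸ Nat.gcd_dvd_right _ m))
  rw [h1] at hn
  exact S64CGas_ker (by exact_mod_cast hn)

end Pool.Agent.Lib.MP_2d211a_co.S64
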