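import Pool.Agent.Lib.MP_2d211a_co.S64CRec
import Pool.Agent.Lib.MP_2d211a_co.S64CGlu
import Pool.Agent.Lib.MP_2d211a_co.S64CAdm

/-!
Solvable groups of a given order.
-/

namespace Pool.Agent.Lib.MP_2d211a_co.S64

open Subgroup H60 CategoryTheory

theorem s64COrd_fix {m N : ℕ} (hm : 0 < m) (hN : m ≤ 2 ^ N) {P : m.primeFactors → Type}
    [∀ p, Group (P p)] (hP : ∀ p, Nat.card (P p) = p.1 ^ m.factorization p.1) :
    (cl '' {G | ∃ (F : Subgroup (∀ p, P p)) (ψ : ∀ p, P p →* MulAut F),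
      Adm F ψ ∧ Glue F ψ G}).Finite ∧
    (cl '' {G | ∃ (F : Subgroup (∀ p, P p)) (ψ : ∀ p, P p →* MulAut F),
      Adm F ψ ∧ Glue F ψ G}).ncard ≤ 2 ^ (N * N * (1 + 4 * m.primeFactors.card)) := by
  have hc : Nat.card (∀ p, P p) = m := by
    rw [Nat.card_pi]
    simp only [hP]
    rw [Finset.prod_coe_sort m.primeFactors fun p => p ^ m.factorization p]
    exact Nat.prod_factorization_pow_eq_self hm.ne'
  have : Finite (∀ p, P p) := Nat.finite_of_card_ne_zero (hc.symm ▸ hm.ne')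
  have h1 := cover (Set.finite_univ (α := Subgroup (∀ p, P p)))
    (fun F => cl '' {G | ∃ ψ : ∀ p, P p →* MulAut F, Adm F ψ ∧ Glue F ψ G})
    (2 ^ (4 * N * N * m.primeFactors.card)) (fun F _ => ?_)
    (cl '' {G | ∃ (F : Subgroup (∀ p, P p)) (ψ : ∀ p, P p →* MulAut F), Adm F ψ ∧ Glue F ψ G}) ?_
  · refine ⟨h1.1, h1.2.trans ?_⟩
    rw [Set.ncard_univ]
    calc _ ≤ 2 ^ (N * N) * 2 ^ (4 * N * N * m.primeFactors.card) :=
          Nat.mul_le_mul_right _ (card_subgroup_le (hc.symm ▸ hN))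
      _ = _ := by rw [← pow_add]; congr 1; ring
  · obtain ⟨a1, a2⟩ := card_adm hm hN hP F
    have h2 := cover a1 (fun ψ => cl '' {G | Glue F ψ G}) 1 (fun ψ _ => ?_)
      (cl '' {G | ∃ ψ : ∀ p, P p →* MulAut F, Adm F ψ ∧ Glue F ψ G}) ?_
    · exact ⟨h2.1, h2.2.trans ((mul_one _).trans_le a2)⟩
    · have : (cl '' {G | Glue F ψ G}).Subsingleton := by
        rintro _ ⟨A, hA, rfl⟩ _ ⟨B, hB, rfl⟩
        exact cl_eq.2 (Glue.iso hm hP hA hB)
      exact ⟨this.finite, (Set.ncard_le_one this.finite).2 fun a ha b hb => this ha hb⟩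
    · rintro _ ⟨G, ⟨ψ, b1, b2⟩, rfl⟩
      exact ⟨ψ, b1, G, b2, rfl⟩
  · rintro _ ⟨G, ⟨F, h⟩, rfl⟩
    exact ⟨F, trivial, G, h, rfl⟩

theorem count_order {m N : ℕ} (hm : 0 < m) (hN : m ≤ 2 ^ N) :
    (cl '' {G | Group.IsSolvable G ∧ Nat.card G = m}).Finite ∧
    (cl '' {G | Group.IsSolvable G ∧ Nat.card G = m}).ncard ≤
      (∏ p ∈ m.primeFactors, gnu (p ^ m.factorization p)) *
        2 ^ (N * N * (1 + 4 * m.primeFactors.card)) := by
  have ht : (Set.pi Set.univ fun p : m.primeFactors =>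
      cl '' {G | Nat.card G = p.1 ^ m.factorization p.1}).Finite :=
    Set.Finite.pi fun p => all_fin (Nat.prime_of_mem_primeFactors p.2) _
  have hout : ∀ d ∈ (Set.pi Set.univ fun p : m.primeFactors =>
      cl '' {G | Nat.card G = p.1 ^ m.factorization p.1}), ∀ p : m.primeFactors,
      Nat.card (d p).out = p.1 ^ m.factorization p.1 := by
    intro d hd p
    obtain ⟨A, a1, h⟩ := hd p trivial
    obtain ⟨φ⟩ := cl_eq.1 (h.trans (d p).out_eq.symm)
    exact (Nat.card_congr φ.toEquiv).symm.trans a1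
  have hcard : (Set.pi Set.univ fun p : m.primeFactors =>
      cl '' {G | Nat.card G = p.1 ^ m.factorization p.1}).ncard =
      ∏ p ∈ m.primeFactors, gnu (p ^ m.factorization p) := by
    rw [← Nat.card_coe_set_eq, Nat.card_congr (Equiv.Set.univPi _), Nat.card_pi,
      ← Finset.prod_coe_sort m.primeFactors]
    exact Finset.prod_congr rfl fun p _ => Nat.card_coe_set_eq _
  rw [← hcard]
  refine cover ht (fun d => cl '' {G | ∃ (F : Subgroup (∀ p : m.primeFactors, (d p).out))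
    (ψ : ∀ p : m.primeFactors, (d p).out →* MulAut F), Adm F ψ ∧ Glue F ψ G}) _
    (fun d hd => s64COrd_fix hm hN (hout d hd)) _ ?_
  rintro _ ⟨G, ⟨hs, hG⟩, rfl⟩
  have : Finite G := Nat.finite_of_card_ne_zero (hG.symm ▸ hm.ne')
  have hS : ∀ p : m.primeFactors, ∃ S : Subgroup G, Nat.card S = p.1 ^ m.factorization p.1 := by
    intro p
    have : Fact p.1.Prime := ⟨Nat.prime_of_mem_primeFactors p.2⟩
    exact ⟨((default : Sylow p.1 G) : Subgroup G), by rw [Sylow.card_eq_multiplicity, hG]⟩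
  choose S hS using hS
  have hd : (fun p => cl (GrpCat.of (S p))) ∈ (Set.pi Set.univ fun p : m.primeFactors =>
      cl '' {G | Nat.card G = p.1 ^ m.factorization p.1}) :=
    fun p _ => ⟨GrpCat.of (S p), hS p, rfl⟩
  have hφ : ∀ p, Nonempty ((cl (GrpCat.of (S p))).out ≃* S p) := fun p =>
    cl_eq.1 (cl (GrpCat.of (S p))).out_eq
  refine ⟨fun p => cl (GrpCat.of (S p)), hd, G, ?_, rfl⟩
  exact exists_glue hm (hout _ hd) hG (fun p => (S p).subtype.comp (hφ p).some.toMonoidHom)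
    fun p => (S p).subtype_injective.comp (hφ p).some.injective

theorem solv_fin (x : ℕ) : (cl '' {G | Finite G ∧ Group.IsSolvable G ∧ Nat.card G ≤ x}).Finite := by
  refine ((Set.finite_Icc 1 x).biUnion fun m hm =>
    (count_order (N := m) hm.1 Nat.lt_two_pow_self.le).1).subset ?_
  rintro _ ⟨G, ⟨hf, hs, hx⟩, rfl⟩
  exact Set.mem_biUnion (x := Nat.card G) ⟨Nat.card_pos, hx⟩ ⟨G, ⟨hs, rfl⟩, rfl⟩

end Pool.Agent.Lib.MP_2d211a_co.S64
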