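import Pool.Agent.Lib.MP_2d211a_co.S64DUp

/-!
The number of quotients cancels.
-/

namespace Pool.Agent.Lib.MP_2d211a_co.S64

open Subgroup H60 CategoryTheory

theorem S64DCan_num {n K K₃ : ℕ} (k3 : 0 < K₃) (hK : 10 * K₃ ≤ K) (hn : 20 * K₃ ≤ n) :
    (n + 1) / K + 1 ≤ n ∧ ((n + 1) / K + 1) * ((n + 1) * (n + 1) + (n + 1)) +
      (2 * (n + 1) ^ 3 / 27 + 1) + n ^ 3 / K + 2 * (n - ((n + 1) / K + 1)) ^ 2 +
        2 * (n + 1) * (n + 1) ≤ 2 * (n - ((n + 1) / K + 1)) ^ 3 / 27 + (n + 1) ^ 3 / K₃ := by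
  have k0 : 0 < K := by omega
  have q1 : (n + 1) / K ≤ (n + 1) / 10 := Nat.div_le_div_left (by omega) (by norm_num)
  have q2 : (n + 1) / K * (n + 1) ^ 2 ≤ (n + 1) ^ 3 / K := by
    rw [Nat.le_div_iff_mul_le k0, mul_right_comm, pow_succ' _ 2]
    exact Nat.mul_le_mul_right _ (Nat.div_mul_le_self _ _)
  have q3 : (n + 1) ^ 3 / K ≤ (n + 1) ^ 3 / K₃ / 10 := by
    rw [Nat.div_div_eq_div_mul]
    exact Nat.div_le_div_left (by omega) (by omega)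
  have q4 : n ^ 3 / K ≤ (n + 1) ^ 3 / K := Nat.div_le_div_right (Nat.pow_le_pow_left (by omega) 3)
  have q5 : 20 * (n + 1) ^ 2 ≤ (n + 1) ^ 3 / K₃ := by
    rw [Nat.le_div_iff_mul_le k3, mul_right_comm, pow_succ' _ 2]
    exact Nat.mul_le_mul_right _ (by omega)
  generalize (n + 1) / K = q at *
  obtain ⟨a, rfl⟩ : ∃ a, n = a + (q + 1) := ⟨n - (q + 1), by omega⟩
  refine ⟨by omega, ?_⟩
  rw [Nat.add_sub_cancel]
  generalize hN : a + (q + 1) + 1 = N at *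
  have b1 : N ^ 3 ≤ a ^ 3 + 3 * (q * N ^ 2) + 6 * N ^ 2 := by
    subst hN
    nlinarith [Nat.zero_le (a * q ^ 2), Nat.zero_le (q ^ 3), Nat.zero_le (a * q),
      Nat.zero_le (q ^ 2), Nat.zero_le a, Nat.zero_le q]
  have b2 : a ^ 2 ≤ N ^ 2 := Nat.pow_le_pow_left (by omega) 2
  have b3 : (q + 1) * (N * N + N) ≤ 2 * (q * N ^ 2) + 2 * N ^ 2 :=
    calc (q + 1) * (N * N + N) ≤ (q + 1) * (N * N + N * N) := by
          gcongr
          exact Nat.le_mul_self N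
      _ = 2 * (q * N ^ 2) + 2 * N ^ 2 := by ring
  have b4 : 2 * N * N = 2 * N ^ 2 := by ring
  have b5 : 0 < N ^ 2 := pow_pos (by omega) 2
  omega

/-- Groups with a normal subgroup of small index in a rare family are rare among the groups with
a solvable normal subgroup of that index. -/
theorem cancel (W : ℕ → ℕ → Set GrpCat.{0}) (Z : ℕ → Set GrpCat.{0}) {K₃ N₀ L : ℕ} (hK : 0 < K₃)
    (hZ : ∀ N ≥ N₀, (cl '' Z N).Finite ∧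
      (cl '' Z N).ncard * 2 ^ (N ^ 3 / K₃) ≤ 2 ^ (2 * N ^ 3 / 27 + 1))
    (hW : ∀ N ≥ N₀, ∀ x y : ℕ, x ≤ 2 ^ N → y ^ L ≤ x → ∀ G ∈ W x y, Finite G ∧ Nat.card G ≤ x ∧
      ∃ S : Subgroup G, S.Normal ∧ S.index ≤ y ∧ GrpCat.of S ∈ Z N) :
    ∃ K x₀ : ℕ, 0 < K ∧ ∀ x ≥ x₀, ∀ y : ℕ, 0 < y → y ^ K ≤ x →
      (cl '' W x y).ncard * 2 ^ (Nat.log 2 x ^ 3 / K) ≤ (cl '' Vs x y).ncard := by
  obtain ⟨K, hK'⟩ : ∃ K, K = 10 * K₃ + L := ⟨_, rfl⟩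
  refine ⟨K, 2 ^ (N₀ + 20 * K₃), by omega, fun x hx y y0 hy => ?_⟩
  obtain ⟨n, hn⟩ : ∃ n, n = Nat.log 2 x := ⟨_, rfl⟩
  have x0 : x ≠ 0 := (lt_of_lt_of_le (pow_pos two_pos _) hx).ne'
  have n1 : N₀ + 20 * K₃ ≤ n := hn ▸ Nat.le_log_of_pow_le one_lt_two hx
  have n2 : 2 ^ n ≤ x := hn ▸ Nat.pow_log_le_self 2 x0
  have n3 : x ≤ 2 ^ (n + 1) := hn ▸ (Nat.lt_pow_succ_log_self one_lt_two x).le
  obtain ⟨t1, t2⟩ := S64DCan_num hK (K := K) (n := n) (by omega) (by omega)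
  have y1 : y ≤ 2 ^ ((n + 1) / K + 1) := by
    refine (Nat.pow_le_pow_iff_left (n := K) (by omega)).1 (hy.trans (n3.trans ?_))
    rw [← pow_mul]
    exact Nat.pow_le_pow_right two_pos (Nat.lt_mul_of_div_lt (Nat.lt_succ_self _) (by omega)).le
  generalize (n + 1) / K + 1 = t at t1 t2 y1
  obtain ⟨z1, z2⟩ := hZ (n + 1) (by omega)
  have b1 := up_count (N := n + 1) y1 (Z (n + 1)) (W x y) z1 fun G hG => by
    obtain ⟨c1, c2, c3⟩ := hW (n + 1) (by omega) x y n3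
      ((Nat.pow_le_pow_right y0 (by omega)).trans hy) G hG
    exact ⟨c1, c2.trans n3, c3⟩
  have b2 := prod_low (a := n - t) (y := y) (le_trans (Nat.mul_le_mul_left _ y1)
    (by rwa [← pow_add, Nat.sub_add_cancel t1])) n3
  have b3 := hig_low (n - t)
  rw [← hn]
  generalize (n + 1) ^ 3 / K₃ = e at *
  generalize 2 * (n + 1) * (n + 1) = u at *
  generalize 2 * (n - t) ^ 2 = v at *
  generalize t * ((n + 1) * (n + 1) + (n + 1)) = w at *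
  refine Nat.le_of_mul_le_mul_right (c := 2 ^ u * (2 ^ v * 2 ^ e)) ?_ (by positivity)
  calc (cl '' W x y).ncard * 2 ^ (n ^ 3 / K) * (2 ^ u * (2 ^ v * 2 ^ e))
      ≤ (cl '' Z (n + 1)).ncard * hnu y * 2 ^ w * 2 ^ (n ^ 3 / K) * (2 ^ u * (2 ^ v * 2 ^ e)) := by
        gcongr
    _ = hnu y * (2 ^ w * ((cl '' Z (n + 1)).ncard * 2 ^ e) * 2 ^ (n ^ 3 / K) * 2 ^ v * 2 ^ u) := by
        ring
    _ ≤ hnu y * (2 ^ w * 2 ^ (2 * (n + 1) ^ 3 / 27 + 1) * 2 ^ (n ^ 3 / K) * 2 ^ v * 2 ^ u) := by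
        gcongr
    _ ≤ hnu y * (2 ^ (2 * (n - t) ^ 3 / 27) * 2 ^ e) := by
        refine Nat.mul_le_mul_left _ ?_
        rw [← pow_add, ← pow_add, ← pow_add, ← pow_add, ← pow_add]
        exact Nat.pow_le_pow_right two_pos t2
    _ ≤ hnu y * (gnu (2 ^ (n - t)) * 2 ^ v * 2 ^ e) := by gcongr
    _ = gnu (2 ^ (n - t)) * hnu y * (2 ^ v * 2 ^ e) := by ring
    _ ≤ (cl '' Vs x y).ncard * 2 ^ u * (2 ^ v * 2 ^ e) := by gcongr
    _ = (cl '' Vs x y).ncard * (2 ^ u * (2 ^ v * 2 ^ e)) := by ring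

end Pool.Agent.Lib.MP_2d211a_co.S64
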