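import Pool.Agent.Lib.MP_2d211a_co.S64CDef

/-!
Extensions with given kernel and quotient.
-/

namespace Pool.Agent.Lib.MP_2d211a_co.S64

open Subgroup H60 CategoryTheory

/-- An extension of `S` by `H`. -/
structure Xt (S H : Type) [Group S] [Group H] where
  G : GrpCat.{0}
  f : S →* G
  π : G →* H
  inj : Function.Injective f
  sur : Function.Surjective π
  ex : f.range = π.ker

/-- Two extensions agree over the subgroup `K` of `H`. -/
def Xt.Rel {S H : Type} [Group S] [Group H] (K : Subgroup H) (x y : Xt S H) : Prop :=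
  ∃ θ : K.comap x.π ≃* K.comap y.π, (∀ g, y.π (θ g) = x.π g) ∧
    ∀ (s : S) (g : K.comap x.π), (g : x.G) = x.f s → (θ g : y.G) = y.f s

/-- `X` is covered by `n` cells in each of which `R` holds between any two members. -/
def Cells {X : Type 1} (n : ℕ) (R : X → X → Prop) : Prop :=
  ∃ c : X → Fin n, ∀ x y, c x = c y → R x y

/-- The number of classes of finite groups of order at most `y`. -/
noncomputable abbrev hnu (y : ℕ) : ℕ := (cl '' {H | Finite H ∧ Nat.card H ≤ y}).ncard

/-- Finite groups of order at most `x` with a solvable normal subgroup of index at most `y`. -/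
abbrev Vs (x y : ℕ) : Set GrpCat.{0} := {G | Finite G ∧ Nat.card G ≤ x ∧
  ∃ S : Subgroup G, S.Normal ∧ Group.IsSolvable S ∧ S.index ≤ y}

end Pool.Agent.Lib.MP_2d211a_co.S64
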