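import Pool.Agent.Lib.MP_2d211a_co.S64DCan
import Pool.Agent.Lib.MP_2d211a_co.S64CFam1
import Pool.Agent.Lib.MP_2d211a_co.S64CFam2

/-!
Almost all groups with a solvable normal subgroup of small index.
-/

namespace Pool.Agent.Lib.MP_2d211a_co.S64

open Subgroup H60 CategoryTheory

theorem S64DMain_idx {n T a b : ℕ} (hT : 0 < T) (hn : 4 * T ≤ n) (ha : a ≤ 2 ^ (n / (4 * T)))
    (hb : b ^ (16 * T) ≤ (2 ^ n * a) ^ 2) : a * b ≤ 2 ^ (n / T) := by
  have q1 : 1 ≤ n / (4 * T) := (Nat.le_div_iff_mul_le (by omega)).2 (by omega)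
  have q2 : n / (4 * T) * (4 * T) ≤ n := Nat.div_mul_le_self _ _
  have q3 : n < (n / (4 * T) + 1) * (4 * T) := Nat.lt_mul_of_div_lt (Nat.lt_succ_self _) (by omega)
  have q4 : n / (4 * T) ≤ n := Nat.div_le_self _ _
  generalize n / (4 * T) = q at *
  have q5 : 4 * q ≤ n / T := (Nat.le_div_iff_mul_le hT).2 (by nlinarith)
  have h1 : b ≤ 2 ^ (q + 1) := by
    refine (Nat.pow_le_pow_iff_left (n := 16 * T) (by omega)).1 (hb.trans ?_)
    refine le_trans (Nat.pow_le_pow_left (Nat.mul_le_mul_left _ ha) 2) ?_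
    rw [← pow_add, ← pow_mul, ← pow_mul]
    exact Nat.pow_le_pow_right two_pos (by nlinarith)
  refine le_trans (Nat.mul_le_mul ha h1) ?_
  rw [← pow_add]
  exact Nat.pow_le_pow_right two_pos (by omega)

theorem almost_all (hs : SimsLe) (B : ℕ → Set GrpCat.{0})
    (hB : ∀ n, ∀ F ∈ B n, Nat.card F = 2 ^ n)
    {K₀ n₁ : ℕ} (hK : 0 < K₀) (h : ∀ n ≥ n₁, (cl '' B n).ncard * 2 ^ (n ^ 3 / K₀) ≤ gnu (2 ^ n))
    (Y : GrpCat.{0} → Prop) {T n₂ : ℕ} (hT : 0 < T)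
    (hY : ∀ n ≥ n₂, ∀ F G : GrpCat.{0}, Finite G → Nat.card F = 2 ^ n → ∀ f : F →* G,
      Function.Injective f → f.range.Normal → f.range.index ≤ 2 ^ (n / T) → Y G → F ∈ B n) :
    ∃ K x₀ : ℕ, 0 < K ∧ ∀ x ≥ x₀, ∀ y : ℕ, 0 < y → y ^ K ≤ x →
      (cl '' {G | G ∈ Vs x y ∧ Y G}).ncard * 2 ^ (Nat.log 2 x ^ 3 / K) ≤ (cl '' Vs x y).ncard := by
  obtain ⟨Y', hY'⟩ : ∃ Y' : GrpCat.{0} → Prop, Y' = fun S' => ∃ (G : GrpCat.{0}) (S : Subgroup G),
    S' = GrpCat.of S ∧ Finite G ∧ S.Normal ∧ S.index ^ (16 * T) ≤ Nat.card S ^ 2 ∧ Y G := ⟨_, rfl⟩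
  obtain ⟨M, K2, N2, hM, k2, h2⟩ := fam_two hs B hB hK h Y' (T := 4 * T) (n₂ := n₂ + 4 * T)
    (by omega) (by
      subst hY'
      rintro n hn _ - O hO c1 c2 ⟨G, S, rfl, c3, c4, c5, c6⟩
      have e : (S.subtype.comp (O : Subgroup S).subtype).range = (O : Subgroup S).map S.subtype := by
        rw [MonoidHom.range_comp, range_subtype]
      refine hY n (by omega) (GrpCat.of O) G c3 c1 (S.subtype.comp (O : Subgroup S).subtype)
        (S.subtype_injective.comp (O : Subgroup S).subtype_injective) ?_ ?_ c6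
      · rw [e]
        exact @ConjAct.normal_of_characteristic_of_normal _ _ S c4 O hO
      · rw [e, index_map_subtype]
        refine S64DMain_idx hT (by omega) c2 ?_
        rwa [← c1, (O : Subgroup S).card_mul_index])
  obtain ⟨K1, N1, k1, h1⟩ := fam_one hs (2 * M) (by omega)
  refine cancel (fun x y => {G | G ∈ Vs x y ∧ Y G}) (fun N =>
    {G | Finite G ∧ Group.IsSolvable G ∧ Nat.card G ≤ 2 ^ N ∧
      ¬2 ^ (N - N / (2 * M)) ∣ Nat.card G} ∪
    {G | Finite G ∧ Group.IsSolvable G ∧ Nat.card G ≤ 2 ^ N ∧ 2 ^ (N - N / M) ∣ Nat.card G ∧ Y' G})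
    (K₃ := K1 + K2) (N₀ := N1 + N2) (L := 16 * T) (by omega) (fun N hN => ⟨?_, ?_⟩) ?_
  · exact (fin_le (2 ^ N)).subset (Set.image_mono fun G hG =>
      hG.elim (fun c => ⟨c.1, c.2.2.1⟩) fun c => ⟨c.1, c.2.2.1⟩)
  · rw [Set.image_union, pow_succ 2, mul_two]
    refine le_trans (Nat.mul_le_mul_right _ (Set.ncard_union_le _ _)) ?_
    rw [add_mul]
    exact add_le_add (le_trans (Nat.mul_le_mul_left _ (Nat.pow_le_pow_right two_pos
      (Nat.div_le_div_left (by omega) k1))) (h1 N (by omega)))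
      (le_trans (Nat.mul_le_mul_left _ (Nat.pow_le_pow_right two_pos
      (Nat.div_le_div_left (by omega) k2))) (h2 N (by omega)))
  · rintro N - x y hx hy G ⟨⟨c1, c2, S, c3, c4, c5⟩, c6⟩
    have c7 : Nat.card S ≤ 2 ^ N := (card_le_card_group S).trans (c2.trans hx)
    refine ⟨c1, c2, S, c3, c5, ?_⟩
    by_cases c8 : 2 ^ (N - N / (2 * M)) ∣ Nat.card S
    · have c9 : N / (2 * M) ≤ N / M := Nat.div_le_div_left (by omega) hM
      have d1 : N / (2 * M) ≤ N / 2 := Nat.div_le_div_left (by omega) two_pos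
      refine .inr ⟨inferInstanceAs (Finite S), c4, c7,
        (pow_dvd_pow 2 (by omega)).trans c8, hY' ▸ ⟨G, S, rfl, c1, c3, ?_, c6⟩⟩
      refine (Nat.pow_le_pow_left c5 _).trans (hy.trans (hx.trans (le_trans ?_
        (Nat.pow_le_pow_left (Nat.le_of_dvd Nat.card_pos c8) 2))))
      rw [← pow_mul]
      exact Nat.pow_le_pow_right two_pos (by omega)
    · exact .inl ⟨inferInstanceAs (Finite S), c4, c7, c8⟩

end Pool.Agent.Lib.MP_2d211a_co.S64
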