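import Pool.Agent.Lib.MP_2d211a_co.S64DDef
import Pool.Agent.Lib.MP_2d211a_co.S64CAut

/-!
Agreement over a subgroup of prime-power order.
-/

namespace Pool.Agent.Lib.MP_2d211a_co.S64

open Subgroup H60 CategoryTheory

theorem S64DStep_iso {p : ℕ} (hp : p.Prime) {T G G' : Type} [Group T] [Group G] [Group G']
    [Finite G] [Finite G'] {d : MulAut T × T} {f : T →* G} {f' : T →* G'} {g : G} {g' : G'}
    (a1 : Function.Injective f) (a2 : g ∉ f.range) (a3 : ∀ h, g * f h * g⁻¹ = f (d.1 h))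
    (a4 : g ^ p = f d.2) (a5 : ∀ E : Subgroup G, f.range ≤ E → g ∈ E → ⊤ ≤ E)
    (b1 : Function.Injective f') (b2 : g' ∉ f'.range) (b3 : ∀ h, g' * f' h * g'⁻¹ = f' (d.1 h))
    (b4 : g' ^ p = f' d.2) (b5 : ∀ E : Subgroup G', f'.range ≤ E → g' ∈ E → ⊤ ≤ E) :
    ∃ θ : G ≃* G', (∀ h, θ (f h) = f' h) ∧ θ g = g' := by
  have hN : (g, g') ∈ normalizer ((f.prod f').range : Set (G × G')) := by
    refine mem_normalizer_iff.2 fun z => ⟨?_, ?_⟩
    · rintro ⟨h, rfl⟩
      exact ⟨d.1 h, Prod.ext (a3 h).symm (b3 h).symm⟩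
    · rintro ⟨h, e⟩
      obtain ⟨h, rfl⟩ := d.1.surjective h
      have e' : (g, g') * f.prod f' h * (g, g')⁻¹ = f.prod f' (d.1 h) := Prod.ext (a3 h) (b3 h)
      exact ⟨h, mul_left_cancel (mul_right_cancel (e'.trans e))⟩
  have hγ : (g, g') ^ p ∈ (f.prod f').range := ⟨d.2, Prod.ext a4.symm b4.symm⟩
  have h1 := proj_bij hp _ _ (.fst G G') hN hγ a1 a2 a5
  have h2 := proj_bij hp _ _ (.snd G G') hN hγ b1 b2 b5
  have h3 : ∀ z : ((f.prod f').range ⊔ zpowers (g, g') : Subgroup (G × G')),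
      (MulEquiv.ofBijective _ h1).symm.trans (MulEquiv.ofBijective _ h2) z.1.1 = z.1.2 := fun z =>
    congrArg (MulEquiv.ofBijective _ h2) ((MulEquiv.ofBijective _ h1).symm_apply_apply z)
  exact ⟨_, fun h => h3 ⟨f.prod f' h, mem_sup_left ⟨h, rfl⟩⟩,
    h3 ⟨(g, g'), mem_sup_right (mem_zpowers _)⟩⟩

variable {S H : Type} [Group S] [Group H] [Finite S] [Finite H]

omit [Finite S] [Finite H] in
theorem S64DStep_card (x : Xt S H) : Nat.card x.G = Nat.card S * Nat.card H := by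
  rw [← x.π.ker.card_mul_index, index_ker, MonoidHom.range_eq_top.2 x.sur, card_top, ← x.ex,
    ← Nat.card_congr (MonoidHom.ofInjective x.inj).toEquiv]

theorem S64DStep_fin (x : Xt S H) : Finite x.G :=
  Nat.finite_of_card_ne_zero (S64DStep_card x ▸ (Nat.mul_pos Nat.card_pos Nat.card_pos).ne')

omit [Finite S] [Finite H] in
theorem S64DStep_dat {p : ℕ} {K K' : Subgroup H} (hK : K ≤ K')
    (hn : ∀ k ∈ K, ∀ g ∈ K', g * k * g⁻¹ ∈ K) {h : H} (h1 : h ∈ K') (h2 : h ∉ K) (h3 : h ^ p ∈ K)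
    (h4 : ∀ E : Subgroup H, K ≤ E → h ∈ E → K' ≤ E) (x : Xt S H) {T : Type} [Group T]
    (θ : T ≃* K.comap x.π) :
    ∃ (d : MulAut T × T) (f : T →* K'.comap x.π) (g : K'.comap x.π),
      (∀ t, (f t : x.G) = θ t) ∧ x.π g = h ∧ Function.Injective f ∧ g ∉ f.range ∧
      (∀ t, g * f t * g⁻¹ = f (d.1 t)) ∧ g ^ p = f d.2 ∧
      ∀ E : Subgroup (K'.comap x.π), f.range ≤ E → g ∈ E → ⊤ ≤ E := by
  obtain ⟨g, rfl⟩ := x.sur h
  obtain ⟨f, hf⟩ : ∃ f : T →* K'.comap x.π, ∀ t, (f t : x.G) = θ t :=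
    ⟨(inclusion (comap_mono hK)).comp θ.toMonoidHom, fun _ => rfl⟩
  have hi : Function.Injective f := fun a b e =>
    θ.injective (Subtype.ext ((hf a).symm.trans ((congrArg Subtype.val e).trans (hf b))))
  have hr : ∀ w : K'.comap x.π, w ∈ f.range ↔ x.π w ∈ K := fun w =>
    ⟨by rintro ⟨t, rfl⟩; rw [hf]; exact (θ t).2, fun hw =>
      ⟨θ.symm ⟨w, hw⟩, Subtype.ext (by rw [hf, MulEquiv.apply_symm_apply])⟩⟩
  have hN : f.range.Normal := ⟨fun w hw u => (hr _).2 (by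
    rw [coe_mul, coe_mul, coe_inv, map_mul, map_mul, map_inv]
    exact hn _ ((hr w).1 hw) _ u.2)⟩
  obtain ⟨a, ha⟩ := (hr (⟨g, h1⟩ ^ p)).2 (by rwa [coe_pow, map_pow])
  refine ⟨(((MonoidHom.ofInjective hi).trans (MulAut.conjNormal (⟨g, h1⟩ : K'.comap x.π))).trans
    (MonoidHom.ofInjective hi).symm, a), f, ⟨g, h1⟩, hf, rfl, hi, fun hg => h2 ((hr _).1 hg),
    fun t => ?_, ha.symm, fun E e1 e2 w _ => ?_⟩
  · simp only [MulEquiv.trans_apply, MonoidHom.apply_ofInjective_symm]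
    rfl
  · have e3 : K' ≤ E.map (x.π.comp (K'.comap x.π).subtype) := h4 _ (fun k hk => by
      obtain ⟨k, rfl⟩ := x.sur k
      exact ⟨⟨k, hK hk⟩, e1 ((hr _).2 hk), rfl⟩) ⟨_, e2, rfl⟩
    obtain ⟨u, hu, e4⟩ := e3 w.2
    have e5 : w * u⁻¹ ∈ E := e1 ((hr _).2 (by
      rw [coe_mul, coe_inv, map_mul, map_inv, ← e4]
      exact mul_inv_cancel (x.π u) ▸ K.one_mem))
    simpa using E.mul_mem e5 hu

theorem cells_step {N n p : ℕ} (hN : Nat.card S * Nat.card H ≤ 2 ^ N) (hp : p.Prime)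
    {K K' : Subgroup H} (hK : K ≤ K') (hn : ∀ k ∈ K, ∀ g ∈ K', g * k * g⁻¹ ∈ K)
    (hi : K.relIndex K' = p) (h : Cells n (Xt.Rel (S := S) K)) :
    Cells (n * 2 ^ (N * N + N)) (Xt.Rel (S := S) K') := by
  obtain ⟨c, hc⟩ := h
  obtain ⟨h, h1, h2⟩ : ∃ h ∈ K', h ∉ K := by
    by_contra! h3
    exact hp.one_lt.ne' (hi.symm.trans (relIndex_eq_one.2 h3))
  have hnor : (K.subgroupOf K').Normal := ⟨fun k hk g => hn _ hk _ g.2⟩
  have h3 : h ^ p ∈ K := by
    have := (K.subgroupOf K').pow_index_mem ⟨h, h1⟩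
    rwa [show (K.subgroupOf K').index = p from hi] at this
  have h4 : ∀ E : Subgroup H, K ≤ E → h ∈ E → K' ≤ E := fun E e1 e2 => by
    have e3 := relIndex_mul_relIndex K (E ⊓ K') K' (le_inf e1 hK) inf_le_right
    rw [hi] at e3
    rcases (Nat.dvd_prime hp).1 (Dvd.intro _ e3) with e4 | e4
    · exact absurd (relIndex_eq_one.1 e4 ⟨e2, h1⟩) h2
    · rw [e4] at e3
      exact (relIndex_eq_one.1 (Nat.eq_of_mul_eq_mul_left hp.pos (e3.trans (mul_one p).symm))).trans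
        inf_le_left
  have key : ∀ v : Fin n, ∃ e : Xt S H → Fin (2 ^ (N * N + N)),
      ∀ x y, c x = v → c y = v → e x = e y → Xt.Rel K' x y := fun v => by
    by_cases hv : ∃ b, c b = v
    swap
    · exact ⟨fun _ => ⟨0, by positivity⟩, fun x _ hx => absurd ⟨x, hx⟩ hv⟩
    obtain ⟨b, rfl⟩ := hv
    have := S64DStep_fin b
    have hT : Nat.card (K.comap b.π) ≤ 2 ^ N :=
      (card_le_card_group _).trans ((S64DStep_card b).trans_le hN)
    have hD : Nat.card (MulAut (K.comap b.π) × K.comap b.π) ≤ 2 ^ (N * N + N) := by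
      rw [Nat.card_prod, pow_add]
      exact Nat.mul_le_mul (card_aut_le hT) hT
    have hd : ∀ x : Xt S H, ∃ d : MulAut (K.comap b.π) × K.comap b.π, c x = c b →
        ∃ (f : K.comap b.π →* K'.comap x.π) (g : K'.comap x.π),
          (∀ t, x.π (f t) = b.π t) ∧
          (∀ (s : S) (t : K.comap b.π), (t : b.G) = b.f s → (f t : x.G) = x.f s) ∧
          x.π g = h ∧ Function.Injective f ∧ g ∉ f.range ∧
          (∀ t, g * f t * g⁻¹ = f (d.1 t)) ∧ g ^ p = f d.2 ∧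
          ∀ E : Subgroup (K'.comap x.π), f.range ≤ E → g ∈ E → ⊤ ≤ E := fun x => by
      by_cases hx : c x = c b
      swap
      · exact ⟨1, fun e => absurd e hx⟩
      obtain ⟨θ, t1, t2⟩ := hc b x hx.symm
      obtain ⟨d, f, g, a0, a1⟩ := S64DStep_dat hK hn h1 h2 h3 h4 x θ
      exact ⟨d, fun _ => ⟨f, g, fun t => by rw [a0, t1], fun s t e => by rw [a0, t2 s t e], a1⟩⟩
    choose d hd using hd
    refine ⟨fun x => Fin.castLE hD (Finite.equivFin _ (d x)), fun x y hx hy e => ?_⟩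
    have e' : d x = d y := (Finite.equivFin _).injective (Fin.castLE_injective hD e)
    obtain ⟨f, g, a6, a7, a0, a1, a2, a3, a4, a5⟩ := hd x hx
    obtain ⟨f', g', b6, b7, b0, b1, b2, b3, b4, b5⟩ := hd y hy
    rw [← e'] at b3 b4
    have := S64DStep_fin x
    have := S64DStep_fin y
    obtain ⟨θ, t1, t2⟩ := S64DStep_iso hp a1 a2 a3 a4 a5 b1 b2 b3 b4 b5
    refine ⟨θ, fun w => ?_, fun s w hw => ?_⟩
    · refine a5 (((y.π.comp (K'.comap y.π).subtype).comp θ.toMonoidHom).eqLocus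
        (x.π.comp (K'.comap x.π).subtype)) ?_ ?_ (mem_top w)
      · rintro _ ⟨t, rfl⟩
        show y.π (θ (f t)) = x.π (f t)
        rw [t1, a6, b6]
      · show y.π (θ g) = x.π g
        rw [t2, a0, b0]
    · have hs : b.f s ∈ K.comap b.π := by
        have : b.f s ∈ b.π.ker := b.ex ▸ ⟨s, rfl⟩
        rw [mem_comap, MonoidHom.mem_ker.1 this]
        exact K.one_mem
      obtain rfl : w = f ⟨_, hs⟩ := Subtype.ext (hw.trans (a7 s ⟨_, hs⟩ rfl).symm)
      rw [t1]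
      exact b7 s _ rfl
  choose e he using key
  refine ⟨fun x => finProdFinEquiv (c x, e (c x) x), fun x y hxy => ?_⟩
  have e1 := Prod.ext_iff.1 (finProdFinEquiv.injective hxy)
  exact he (c y) x y e1.1 rfl (by have := e1.2; rwa [show c x = c y from e1.1] at this)

omit [Finite S] [Finite H] in
theorem S64DStep_bot (x y : Xt S H) : Xt.Rel ⊥ x y := by
  have h1 : ∀ z : Xt S H, (⊥ : Subgroup H).comap z.π = z.f.range := fun z =>
    (MonoidHom.comap_bot _).trans z.ex.symm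
  have h0 : ∀ (z : Xt S H) (g : (⊥ : Subgroup H).comap z.π), z.π g = 1 := fun z g => mem_bot.1 g.2
  refine ⟨(MulEquiv.subgroupCongr (h1 x)).trans ((MonoidHom.ofInjective x.inj).symm.trans
    ((MonoidHom.ofInjective y.inj).trans (MulEquiv.subgroupCongr (h1 y).symm))),
    fun g => (h0 y _).trans (h0 x g).symm, fun s g hg => ?_⟩
  have h2 : (MonoidHom.ofInjective x.inj).symm (MulEquiv.subgroupCongr (h1 x) g) = s :=
    x.inj ((MonoidHom.apply_ofInjective_symm x.inj _).trans hg)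
  simp only [MulEquiv.trans_apply, h2]
  rfl

theorem cells_pow {N p : ℕ} (hN : Nat.card S * Nat.card H ≤ 2 ^ N) (hp : p.Prime) (k : ℕ)
    (K : Subgroup H) (hK : Nat.card K = p ^ k) :
    Cells (2 ^ (k * (N * N + N))) (Xt.Rel (S := S) K) := by
  induction k generalizing K with
  | zero =>
    obtain rfl : K = ⊥ := card_eq_one.1 hK
    exact ⟨fun _ => ⟨0, by positivity⟩, fun x y _ => S64DStep_bot x y⟩
  | succ k ih =>
    have : Fact p.Prime := ⟨hp⟩
    obtain ⟨L, hL⟩ := Sylow.exists_subgroup_card_pow_prime (G := K) p (n := k)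
      (hK ▸ pow_dvd_pow p k.le_succ)
    have h1 : L.index = p := by
      have := L.card_mul_index
      rw [hL, hK, pow_succ] at this
      exact Nat.eq_of_mul_eq_mul_left (pow_pos hp.pos k) this
    have h2 : L.Normal := normal_of_index_eq_minFac_card (by
      rw [h1, hK, hp.pow_minFac k.succ_ne_zero])
    have h3 : (L.map K.subtype).subgroupOf K = L := comap_map_eq_self_of_injective
      K.subtype_injective L
    rw [add_mul, one_mul, pow_add]
    refine cells_step hN hp (map_subtype_le L) ?_ ((congrArg index h3).trans h1)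
      (ih _ ((card_map_of_injective K.subtype_injective).trans hL))
    rintro _ ⟨l, hl, rfl⟩ g hg
    exact ⟨_, h2.conj_mem l hl ⟨g, hg⟩, rfl⟩

end Pool.Agent.Lib.MP_2d211a_co.S64
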