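import Pool.Agent.Lib.MP_2d211a_co.H60Cnt

/-!
Generic groups of order `2 ^ n`.
-/

namespace Pool.Agent.Lib.MP_2d211a_co.S64

open Subgroup
open scoped commutatorElement

variable {G : Type*} [Group G]

/-- The subgroup `[R, G] R ^ 2`. -/
def st2 (R : Subgroup G) : Subgroup G := ⁅R, ⊤⁆ ⊔ closure {x | ∃ y ∈ R, x = y * y}

/-- The lower exponent-2 central series: `L G 0 = G`, `L G 1` is the Frattini subgroup of a finite
2-group. -/
def L (G : Type*) [Group G] : ℕ → Subgroup G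
  | 0 => ⊤
  | i + 1 => st2 (L G i)

/-- Central elements of order at most 2 in `L G 1`. -/
def Z0 (G : Type*) [Group G] : Subgroup G where
  carrier := {x | x ∈ L G 1 ∧ (∀ g, g * x = x * g) ∧ x * x = 1}
  one_mem' := ⟨one_mem _, fun g => by simp, by simp⟩
  inv_mem' := fun {x} h => ⟨inv_mem h.1, fun g => (Commute.inv_right (h.2.1 g)).eq, by
    rw [← mul_inv_rev, h.2.2, inv_one]⟩
  mul_mem' := fun {x y} h k => ⟨mul_mem h.1 k.1,
    fun g => (Commute.mul_right (h.2.1 g) (k.2.1 g)).eq, by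
    rw [mul_assoc, ← mul_assoc y, h.2.1 y, mul_assoc, k.2.2, mul_one, h.2.2]⟩

/-- The common fixed points of a set of automorphisms. -/
def Fix (Γ : Finset (MulAut G)) : Subgroup G where
  carrier := {x | ∀ α ∈ Γ, α x = x}
  one_mem' := fun α _ => map_one α
  inv_mem' := fun h α hα => by rw [map_inv, h α hα]
  mul_mem' := fun h k α hα => by rw [map_mul, h α hα, k α hα]

/-- The subgroup generated by the elements `x⁻¹ α(x)`. -/
def Mov (Γ : Finset (MulAut G)) : Subgroup G := closure {y | ∃ α ∈ Γ, ∃ x, y = x⁻¹ * α x}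

/-- The elements that lie in the commutator subgroup of every subgroup of `Q` of index at most
`2 ^ θ`. -/
def Hi (Q : Subgroup G) (θ : ℕ) : Subgroup G :=
  ⨅ (T : Subgroup G) (_ : T ≤ Q ∧ T.relIndex Q ≤ 2 ^ θ), ⁅T, T⁆

theorem mem_Hi {Q : Subgroup G} {θ : ℕ} {z : G} :
    z ∈ Hi Q θ ↔ ∀ T ≤ Q, T.relIndex Q ≤ 2 ^ θ → z ∈ ⁅T, T⁆ := by
  simp [Hi, mem_iInf]

/-- The properties of a group of order `2 ^ n` that the construction uses. -/
structure Generic (n : ℕ) (F : Type) [Group F] : Prop where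
  rk : (L F 1).index ≤ 2 ^ (2 * n / 3 + n / 10 ^ 4)
  ov : ∀ (P : Type) [Group P] (f : F →* P) (j : ℕ), Function.Injective f →
    Nat.card P = 2 ^ (n + j) → j ≤ n / 10 ^ 13 → 2 ^ (2 * n / 3 - n / 10 ^ 4) ≤ (L P 1).index
  yy : (Z0 F).relIndex (L F 1) ≤ 2 ^ (n / 10 ^ 4)
  mv : ∀ Γ : Finset (MulAut F), Γ.card ≤ n / 10 ^ 13 →
    (L F 1).relIndex (L F 1 ⊔ Mov Γ) ≤ 2 ^ (n / 10 ^ 4)
  fx : ∀ Γ : Finset (MulAut F), Γ.card ≤ n / 10 ^ 13 →
    (Fix Γ).relIndex (Z0 F) ≤ 2 ^ (n / 10 ^ 4)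
  hi : ∃ Q : Subgroup F, L F 1 ≤ Q ∧ (L F 1).relIndex Q ≤ 2 ^ (n / 8) ∧
    (Hi Q (n / 400)).relIndex (Z0 F) ≤ 2 ^ (n / 10 ^ 4)

theorem st2_mono {R R' : Subgroup G} (h : R ≤ R') : st2 R ≤ st2 R' :=
  sup_le_sup (commutator_mono h le_rfl)
    (closure_mono fun _ ⟨y, hy, e⟩ => ⟨y, h hy, e⟩)

theorem sq_mem_st2 {R : Subgroup G} {y : G} (h : y ∈ R) : y * y ∈ st2 R :=
  mem_sup_right (subset_closure ⟨y, h, rfl⟩)

theorem comm_mem_st2 {R : Subgroup G} {y : G} (h : y ∈ R) (g : G) : ⁅y, g⁆ ∈ st2 R :=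
  mem_sup_left (commutator_mem_commutator h (mem_top g))

theorem st2_le_iff {R D : Subgroup G} :
    st2 R ≤ D ↔ ∀ y ∈ R, y * y ∈ D ∧ ∀ g, ⁅y, g⁆ ∈ D :=
  ⟨fun h _ hy => ⟨h (sq_mem_st2 hy), fun g => h (comm_mem_st2 hy g)⟩, fun h =>
    sup_le (commutator_le.2 fun y hy g _ => (h y hy).2 g)
      ((closure_le _).2 fun _ ⟨y, hy, e⟩ => e ▸ (h y hy).1)⟩

theorem st2_le (R : Subgroup G) [hR : R.Normal] : st2 R ≤ R :=
  st2_le_iff.2 fun y hy => ⟨mul_mem hy hy, fun g => by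
    rw [commutatorElement_def, mul_assoc, mul_assoc]
    exact mul_mem hy (by simpa [mul_assoc] using hR.conj_mem _ (inv_mem hy) g)⟩

/-- A subgroup between `st2 R` and `R` is normal. -/
theorem normal_of_st2_le {R D : Subgroup G} (h1 : st2 R ≤ D) (h2 : D ≤ R) : D.Normal :=
  ⟨fun y hy g => by
    have := mul_mem (inv_mem (h1 (comm_mem_st2 (h2 hy) g))) hy
    rw [commutatorElement_inv, commutatorElement_def] at this
    simpa [mul_assoc] using this⟩

instance st2_normal (R : Subgroup G) [R.Normal] : (st2 R).Normal :=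
  normal_of_st2_le le_rfl (st2_le R)

instance L_normal : ∀ i, (L G i).Normal
  | 0 => normal_top
  | i + 1 => by have := L_normal i; exact st2_normal _

theorem L_succ_le (i : ℕ) : L G (i + 1) ≤ L G i := st2_le _

theorem st2_map_le {H : Type*} [Group H] (f : G →* H) (R : Subgroup G) :
    (st2 R).map f ≤ st2 (R.map f) :=
  map_le_iff_le_comap.2 (st2_le_iff.2 fun y hy =>
    ⟨by rw [mem_comap, map_mul]; exact sq_mem_st2 (mem_map_of_mem f hy), fun g => by
      rw [mem_comap, map_commutatorElement]; exact comm_mem_st2 (mem_map_of_mem f hy) _⟩)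

theorem st2_map {H : Type*} [Group H] (f : G →* H) (hf : Function.Surjective f) (R : Subgroup G) :
    (st2 R).map f = st2 (R.map f) :=
  (st2_map_le f R).antisymm (st2_le_iff.2 (by
    rintro _ ⟨y, hy, rfl⟩
    refine ⟨by rw [← map_mul]; exact mem_map_of_mem f (sq_mem_st2 hy), fun g => ?_⟩
    obtain ⟨g, rfl⟩ := hf g
    rw [← map_commutatorElement]
    exact mem_map_of_mem f (comm_mem_st2 hy g)))

theorem L_map_le {H : Type*} [Group H] (f : G →* H) : ∀ i, (L G i).map f ≤ L H i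
  | 0 => le_top
  | i + 1 => (st2_map_le f _).trans (st2_mono (L_map_le f i))

theorem L_map {H : Type*} [Group H] (f : G →* H) (hf : Function.Surjective f) :
    ∀ i, (L G i).map f = L H i
  | 0 => map_top_of_surjective f hf
  | i + 1 => by rw [L, st2_map f hf, L_map f hf i]; rfl

end Pool.Agent.Lib.MP_2d211a_co.S64
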