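import Pool.Agent.Lib.MP_2d211a_co.Cases

open Finset

namespace Pool.Agent.Lib.MP_2d211a_co

section general

variable {p : ℕ} [hp : Fact p.Prime] {ι : Type*} (R : Finset ι) (α β : ι → ℤ)

theorem Bs_seg (s x y : ℤ) : Bs p R α β 1 s (x - s * y) y =
    ∑ g ∈ seg p R α β 1 x y, ch p (dg p 1 (α g - x) - s * dg p 1 (β g - y)) := by
  rw [Bs, seg, sum_filter]
  refine sum_congr rfl fun g _ => ?_
  have e1 : α g - s * β g - (x - s * y) = (α g - x) - s * (β g - y) := by ring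
  have e2 : ((β g : ZMod p) = y) ↔ (p : ℤ) ^ 1 ∣ β g - y := by
    rw [pow_one, ← ZMod.intCast_zmod_eq_zero_iff_dvd, Int.cast_sub, sub_eq_zero]
  rw [e1]
  simp only [e2]
  by_cases h2 : (p : ℤ) ^ 1 ∣ β g - y
  · by_cases h1 : (p : ℤ) ^ 1 ∣ α g - x
    · rw [if_pos h2, if_pos ⟨h1, h2⟩, kap_of_dvd (dvd_sub h1 (h2.mul_left _)), dg_line p s h1 h2]
    · rw [if_pos h2, if_neg (fun h => h1 h.1), kap, if_neg]
      intro h
      exact h1 (by simpa using dvd_add h (h2.mul_left s))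
  · rw [if_neg h2, if_neg (fun h => h2 h.2)]

theorem Bs_shift (j : ℕ) (s x0 c : ℤ) (y : ZMod p) :
    Bs p R α β j s (x0 + (p : ℤ) ^ j * c) y = Bs p R α β j s x0 y * ch p (-c) := by
  rw [Bs, Bs, sum_mul]
  refine sum_congr rfl fun g _ => ?_
  split_ifs
  · rw [show α g - s * β g - (x0 + (p : ℤ) ^ j * c) = (α g - s * β g - x0) + (p : ℤ) ^ j * (-c) by
      ring, kap_add, Int.cast_neg]
  · rw [zero_mul]

theorem Lam_Bs (j : ℕ) (s x0 r : ℤ) : Lam p R α β j (s + (p : ℤ) ^ j * r) x0 =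
    ∑ y : ZMod p, ch p (-(r * y)) * Bs p R α β j s x0 y := by
  simp only [Lam, Bs, mul_sum]
  rw [sum_comm]
  refine sum_congr rfl fun g _ => ?_
  rw [sum_eq_single (β g : ZMod p), if_pos rfl,
    show α g - (s + (p : ℤ) ^ j * r) * β g - x0 =
      (α g - s * β g - x0) + (p : ℤ) ^ j * (-(r * β g)) by ring, kap_add, mul_comm]
  · push_cast; rfl
  · intro y _ hy; rw [if_neg (Ne.symm hy), mul_zero]
  · simp

theorem Lam_shift (j : ℕ) (s x0 c : ℤ) :
    Lam p R α β j s (x0 + (p : ℤ) ^ j * c) = Lam p R α β j s x0 * ch p (-c) := by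
  rw [Lam, Lam, sum_mul]
  refine sum_congr rfl fun g _ => ?_
  rw [show α g - s * β g - (x0 + (p : ℤ) ^ j * c) = (α g - s * β g - x0) + (p : ℤ) ^ j * (-c) by
      ring, kap_add, Int.cast_neg]

theorem ch_unit (a : ZMod p) : IsUnit (ch p a) :=
  IsUnit.of_mul_eq_one (ch p (-a)) (by rw [← AddChar.map_add_eq_mul]; simp)

theorem ch_inj : Function.Injective (ch p) := fun a b h => by
  rw [← sub_eq_zero, ← ch_eq_one p, sub_eq_add_neg, AddChar.map_add_eq_mul, h,
    ← AddChar.map_add_eq_mul, add_neg_cancel, AddChar.map_zero_eq_one]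

theorem pi_ne : 1 - rt p ≠ 0 := sub_ne_zero.2 ((rt_prim p).ne_one hp.out.one_lt).symm

theorem pi_not_unit : ¬ (1 - rt p) ∣ 1 := by
  intro h
  by_cases h2 : p = 2
  · subst h2
    have h1 : rt 2 = -1 := (rt_prim 2).eq_neg_one_of_two_right
    have := coeff_dvd (p := 2) (fun a => if a = 0 then 1 else 0) 2 (by
      rw [h1] at h
      rw [sum_eq_single 0] <;> simp +contextual
      convert h using 1
      norm_num) 0 1
    simp at this
  · have := moment {(0 : ZMod p)} (fun _ => 1) id 0 1 zero_lt_one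
      (by have := hp.out.two_le; omega) (by simpa using h)
    simp at this

variable {R α β}

theorem Tr.cell {i l : ℕ} (h : Tr p R α β (i + 1) (l + 1)) (x y : ℤ) :
    Tr p (cell p R α β x y) (cc p α x) (cc p β y) i l := by
  intro x' y'
  refine (existsUnique_congr fun g => ?_).1 (h (x + p * x') (y + p * y'))
  rw [← dvd_cc, ← dvd_cc, Pool.Agent.Lib.MP_2d211a_co.cell, mem_filter]; tauto

theorem HD.cell {j M : ℕ} (h : HD p R α β (j + 1) (M + (p - 1))) (x y : ℤ) :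
    HD p (cell p R α β x y) (cc p α x) (cc p β y) j M := fun s x0 => by
  rw [Lam_cell]; exact Bs_dvd0 h _ _ _

theorem mom_cell (j e : ℕ) (s : ZMod p) (x y : ℤ) : mom p R α β (j + 1) e s x y =
    mom p (cell p R α β x y) (cc p α x) (cc p β y) j e s 0 0 := by
  rw [mom, mom, seg_cell]
  simp only [mul_zero, add_zero]
  refine sum_congr rfl fun g hg => ?_
  have h2 := (mem_filter.1 hg).2
  rw [dg_cc p _ _ _ _ (by simpa using h2.1), dg_cc p _ _ _ _ (by simpa using h2.2)]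
  simp

theorem mu_step {m e : ℕ} (hD : HD p R α β 1 (m + (p - 1))) (he : e ≤ m) (hp1 : e < p - 1)
    (s x y : ℤ) : mom p R α β 1 e s (x + s) (y + 1) = mom p R α β 1 e s x y := by
  have h1 := Bs_dvd1 hD s (x - s * y) y
  rw [Bs_eq, Bs_eq, ← sum_sub_distrib] at h1
  simp_rw [← sub_mul, ← Int.cast_sub] at h1
  have h2 := moment _ _ _ e _ (by omega) hp1 h1
  rw [← mu_eq_mom, ← mu_eq_mom, show x + s - s * (y + 1) = x - s * y by ring, Int.cast_add,
    Int.cast_one, ← sub_eq_zero, mu, mu, ← sum_sub_distrib, ← h2]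
  refine sum_congr rfl fun g _ => ?_
  push_cast; ring

theorem mu_step2 {m e : ℕ} (hD : HD p R α β 1 (m + (p - 1))) (he : e ≤ m + 1) (hp1 : e < p - 1)
    (s x y : ℤ) : mom p R α β 1 e s (x + s * 2) (y + 2) - 2 * mom p R α β 1 e s (x + s) (y + 1) +
      mom p R α β 1 e s x y = 0 := by
  have h1 := Bs_dvd2 hD s (x - s * y) y
  rw [Bs_eq, Bs_eq, Bs_eq, mul_sum, ← sum_sub_distrib, ← sum_add_distrib] at h1
  set x0 := x - s * y with hx0
  have h3 : ∀ g, (ind p α β s x0 (y + 1 + 1) g : Cy p) * ch p (dg p 1 (α g - s * β g - x0)) -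
      2 * ((ind p α β s x0 (y + 1) g : Cy p) * ch p (dg p 1 (α g - s * β g - x0))) +
      (ind p α β s x0 y g : Cy p) * ch p (dg p 1 (α g - s * β g - x0)) =
      ((ind p α β s x0 (y + 1 + 1) g - 2 * ind p α β s x0 (y + 1) g + ind p α β s x0 y g : ℤ) :
        Cy p) * ch p (dg p 1 (α g - s * β g - x0)) := fun g => by push_cast; ring
  simp_rw [h3] at h1
  have h2 := moment _ _ _ e _ (by omega) hp1 h1
  rw [← mu_eq_mom, ← mu_eq_mom, ← mu_eq_mom, show x + s - s * (y + 1) = x0 by rw [hx0]; ring,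
    show x + s * 2 - s * (y + 2) = x0 by rw [hx0]; ring, ← hx0,
    show ((y + 2 : ℤ) : ZMod p) = y + 1 + 1 by push_cast; ring, Int.cast_add, Int.cast_one,
    mu, mu, mu, mul_sum, ← sum_sub_distrib, ← sum_add_distrib, ← h2]
  refine sum_congr rfl fun g _ => ?_
  push_cast; ring

theorem const_of_step {A : Type*} (W : ℤ → ℤ → A) (h0 : ∀ x y, W x (y + 1) = W x y)
    (h1 : ∀ x y, W (x + 1) (y + 1) = W x y) (x y : ℤ) : W x y = W 0 0 := by
  have e1 : ∀ x y, W x y = W x 0 := fun x y => by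
    induction y using Int.induction_on with
    | zero => rfl
    | succ i ih => rw [h0, ih]
    | pred i ih => rw [← h0, sub_add_cancel, ih]
  have e2 : ∀ x, W (x + 1) 0 = W x 0 := fun x => by rw [← h1 x 0, e1 (x + 1) (0 + 1)]
  rw [e1]
  induction x using Int.induction_on with
  | zero => rfl
  | succ i ih => rw [e2, ih]
  | pred i ih => rw [← e2, sub_add_cancel, ih]

theorem full_dich {h : ℕ} (hh : 2 * h + 1 = p) (u : ZMod p → ZMod p)
    (hm : ∀ i, 1 ≤ i → i ≤ h → ∑ t, u t ^ i = 0) :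
    ∑ t, ch p (u t) = 0 ∨ ∑ t, ch p (u t) = p * ch p (u 0) := by
  rcases redei u h hh hm with hinj | hconst
  · left
    rw [← sum_ch]
    exact Fintype.sum_bijective u (Finite.injective_iff_bijective.1 hinj) _ _ (fun _ => rfl)
  · right
    rw [sum_congr rfl (g := fun _ => ch p (u 0)) (fun t _ => congrArg _ (hconst t 0))]
    simp

end general

section three

variable {ι : Type*} (R : Finset ι) (α β : ι → ℤ)

/-- A cell all of whose short sums have exact valuation `m`. -/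
def Un (m : ℕ) : Prop := ∃ (G : Cy 3) (κ : ZMod 3), Associated G ((1 - rt 3) ^ m) ∧
  ∀ x y : ℤ, ∃ θ : ZMod 3 → ZMod 3, (∀ s : ℤ, Bs 3 R α β 1 s (x - s * y) y = G * ch 3 (θ s)) ∧
    θ 0 + θ 1 + θ 2 = κ

/-- A cell all of whose short sums have higher valuation. -/
def Non (m : ℕ) : Prop := ∀ (s x0 : ℤ) (y y' : ZMod 3), (1 - rt 3) ^ (m + 1) ∣ Bs 3 R α β 1 s x0 y ∧
  (1 - rt 3) ^ (m + 2) ∣ Bs 3 R α β 1 s x0 y - Bs 3 R α β 1 s x0 y'

variable {R α β}

theorem three_assoc : Associated ((1 - rt 3) ^ 2) (3 : Cy 3) := by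
  simpa using assoc_p1 3

theorem Un.struct {m : ℕ} (h : Un R α β m) (hD : HD 3 R α β 1 (m + 2)) :
    ∃ r0 : ℤ → ZMod 3 → ZMod 3,
      (∀ s x0 r : ℤ, (Lam 3 R α β 1 (s + 3 * r) x0 = 0 ↔ r0 s x0 ≠ r) ∧
        ((1 - rt 3) ^ (m + 3) ∣ Lam 3 R α β 1 (s + 3 * r) x0 ↔ r0 s x0 ≠ r)) ∧
      ¬ (∑ ν, r0 1 ν = 0 ∧ ∑ ν, r0 2 ν = 0) := by
  obtain ⟨G, κ, hG, h⟩ := h
  have G0 : G ≠ 0 := hG.symm.ne_zero_iff.1 (pow_ne_zero _ pi_ne)
  have h1 : ∀ (s x0 : ℤ) (y : ZMod 3), ∃ t, Bs 3 R α β 1 s x0 y = G * ch 3 t := fun s x0 y => by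
    obtain ⟨θ, h1, -⟩ := h (x0 + s * y.val) y.val
    exact ⟨θ s, by simpa using h1 s⟩
  choose T hT using h1
  have uniq : ∀ {s x0 y t}, Bs 3 R α β 1 s x0 y = G * ch 3 t → T s x0 y = t := fun h' =>
    ch_inj (mul_left_cancel₀ G0 ((hT _ _ _).symm.trans h'))
  have tw : ∀ (s x0 c : ℤ) y, T s (x0 + 3 * c) y = T s x0 y - c := fun s x0 c y => uniq (by
    have := Bs_shift (p := 3) R α β 1 s x0 c y
    rw [pow_one, Nat.cast_ofNat] at this
    rw [this, hT, mul_assoc, ← AddChar.map_add_eq_mul, sub_eq_add_neg])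
  have aff : ∀ s x0 y, T s x0 y = T s x0 0 + (T s x0 1 - T s x0 0) * y := fun s x0 =>
    affine_of_second _ fun y => by
      have h2 := Bs_dvd2 (M := m) hD s x0 y
      rw [hT, hT, hT, mul_left_comm, ← mul_sub, ← mul_add, pow_add,
        ← (hG.mul_right _).dvd_iff_dvd_left, mul_dvd_mul_iff_left G0] at h2
      have := moment (univ : Finset (Fin 3)) ![1, -2, 1]
        ![T s x0 (y + 1 + 1), T s x0 (y + 1), T s x0 y] 1 2 (by norm_num) (by norm_num)
        (by simpa [Fin.sum_univ_three, sub_eq_add_neg] using h2)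
      simpa [Fin.sum_univ_three, sub_eq_add_neg] using this
  have per : ∀ s x0 : ℤ, T s x0 1 - T s x0 0 =
      T s ((x0 : ZMod 3).val) 1 - T s ((x0 : ZMod 3).val) 0 := fun s x0 => by
    obtain ⟨c, hc⟩ : ((3 : ℕ) : ℤ) ∣ x0 - ((x0 : ZMod 3).val : ℤ) := by
      rw [← ZMod.intCast_zmod_eq_zero_iff_dvd]; simp
    have : x0 = ((x0 : ZMod 3).val : ℤ) + 3 * c := by push_cast at hc ⊢; linarith
    conv_lhs => rw [this, tw, tw]
    ring
  refine ⟨fun s ν => T s ν.val 1 - T s ν.val 0, fun s x0 r => ?_, ?_⟩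
  · have e1 := Lam_Bs (p := 3) R α β 1 s x0 r
    rw [pow_one, Nat.cast_ofNat] at e1
    have e2 : ∀ y : ZMod 3, ch 3 (-(r * y)) * Bs 3 R α β 1 s x0 y =
        G * ch 3 (T s x0 0) * ch 3 (y * (T s x0 1 - T s x0 0 - r)) := fun y => by
      rw [hT, aff, mul_left_comm, mul_assoc, ← AddChar.map_add_eq_mul, ← AddChar.map_add_eq_mul]
      congr 2; ring
    simp_rw [e2] at e1
    rw [← mul_sum, AddChar.sum_mulShift _ (ch_prim 3), ZMod.card] at e1
    simp only [← per, e1, sub_eq_zero (b := (r : ZMod 3))]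
    split_ifs with h0
    · refine ⟨iff_of_false (mul_ne_zero (mul_ne_zero G0 (ch_unit _).ne_zero) (by norm_num))
        (not_not.2 h0), iff_of_false (fun hd => pi_not_unit (p := 3) ?_) (not_not.2 h0)⟩
      have e3 : Associated (G * ch 3 (T s x0 0) * ((3 : ℕ) : Cy 3)) ((1 - rt 3) ^ (m + 2) * 1) := by
        rw [pow_add, mul_one]
        exact ((associated_mul_unit_left _ _ (ch_unit _)).trans hG).mul_mul three_assoc.symm
      rwa [e3.dvd_iff_dvd_right, pow_succ, mul_dvd_mul_iff_left (pow_ne_zero _ pi_ne)] at hd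
    · simp [h0]
  · rintro ⟨r1, r2⟩
    have eq : ∀ x y : ℤ, T 0 x y + T 1 (x - y) y + T 2 (x - 2 * y) y = κ := fun x y => by
      obtain ⟨θ, h1, h2⟩ := h x y
      have a0 := uniq (h1 0)
      have a1 := uniq (h1 1)
      have a2 := uniq (h1 2)
      simp only [zero_mul, sub_zero, one_mul, Int.cast_zero, Int.cast_one, Int.cast_ofNat]
        at a0 a1 a2
      rw [a0, a1, a2, h2]
    have q10 := eq 1 0
    have q11 := eq 1 1
    have q12 := eq 1 2
    have q20 := eq 2 0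
    have q21 := eq 2 1
    have q22 := eq 2 2
    have t1 := fun s y => tw s 2 (-1) y
    have t2 := fun s y => tw s 1 (-1) y
    have t3 := fun s y => tw s 0 (-1) y
    have s3 : ∀ f : ZMod 3 → ZMod 3, ∑ ν, f ν = f 0 + f 1 + f 2 := fun f => Fin.sum_univ_three f
    rw [s3] at r1 r2
    have v0 : (((0 : ZMod 3).val : ℕ) : ℤ) = 0 := rfl
    have v1 : (((1 : ZMod 3).val : ℕ) : ℤ) = 1 := rfl
    have v2 : (((2 : ZMod 3).val : ℕ) : ℤ) = 2 := rfl
    simp only [v0, v1, v2] at r1 r2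
    norm_num at q10 q11 q12 q20 q21 q22 t1 t2 t3
    rw [t1] at q11 q12
    rw [t3] at q12
    rw [t2] at q22
    rw [aff 0 1 2, aff 1 2 2, aff 2 0 2] at q12
    rw [aff 0 2 2, aff 1 0 2, aff 2 1 2] at q22
    have h3 : (3 : ZMod 3) = 0 := rfl
    have : (1 : ZMod 3) = 0 := by
      linear_combination -(q10 + q11 + q12 + 2 * q20 + 2 * q21 + 2 * q22) + 2 * r1 + r2 +
        (-2 - T 0 1 0 - T 0 1 1 + T 0 1 0 - 2 * T 0 2 1 - T 1 0 1 - T 1 1 0 - T 1 2 0 - T 2 0 1 -
          T 2 1 1 - T 2 2 0 + 3 * κ) * (-h3)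
    exact absurd this (by decide)

theorem Un.top {m : ℕ} (h : Un R α β m) (hD : HD 3 R α β 1 (m + 2))
    (hn : ∀ s, ∃ x0, Lam 3 R α β 1 s x0 ≠ 0) : False := by
  obtain ⟨r0, h1, h2⟩ := h.struct hD
  have key : ∀ f : ZMod 3 → ZMod 3, (∀ r, ∃ ν, f ν = r) → ∑ ν, f ν = 0 := by decide
  have : ∀ s, ∑ ν, r0 s ν = 0 := fun s => key _ fun r => by
    obtain ⟨x0, hx⟩ := hn (s + 3 * r.val)
    exact ⟨x0, by simpa using (h1 s x0 r.val).1.not.1 hx⟩
  exact h2 ⟨this 1, this 2⟩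

theorem Non.indep {m : ℕ} (h : Non R α β m) (s x0 r : ℤ) : (1 - rt 3) ^ (m + 3) ∣
    Lam 3 R α β 1 (s + 3 * r) x0 - Lam 3 R α β 1 (s + 3 * 0) x0 := by
  have e1 := Lam_Bs (p := 3) R α β 1 s x0
  rw [pow_one, Nat.cast_ofNat] at e1
  rw [e1, e1, ← sum_sub_distrib]
  have e2 : ∀ y : ZMod 3, ch 3 (-(r * y)) * Bs 3 R α β 1 s x0 y -
      ch 3 (-(((0 : ℤ) : ZMod 3) * y)) * Bs 3 R α β 1 s x0 y =
      (Bs 3 R α β 1 s x0 y - Bs 3 R α β 1 s x0 0) * (ch 3 (y * (-r)) - 1) +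
        Bs 3 R α β 1 s x0 0 * (ch 3 (y * (-r)) - 1) := fun y => by
    rw [show -(r * y) = y * (-r) by ring]; simp; ring
  simp_rw [e2]
  rw [sum_add_distrib, ← mul_sum]
  refine dvd_add (dvd_sum fun y _ => ?_) ?_
  · rw [pow_succ]; exact mul_dvd_mul (h s x0 y 0).2 (pi_dvd_ch _)
  · rw [show m + 3 = m + 1 + 2 by ring, pow_add]
    refine mul_dvd_mul (h s x0 0 0).1 (three_assoc.dvd.trans ?_)
    rw [sum_sub_distrib, AddChar.sum_mulShift _ (ch_prim 3)]
    split_ifs <;> simp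

theorem not_un {m : ℕ} (hD : HD 3 R α β 2 (m + 2 + 2))
    (hc : ∀ x y, Un (cell 3 R α β x y) (cc 3 α x) (cc 3 β y) m ∨
      Non (cell 3 R α β x y) (cc 3 α x) (cc 3 β y) m) (x y : ℤ) :
    ¬ Un (cell 3 R α β x y) (cc 3 α x) (cc 3 β y) m := by
  intro h
  obtain ⟨r0, h1, h2⟩ := h.struct (HD.cell (p := 3) hD x y)
  have key : ∀ f : ZMod 3 → ZMod 3, (∀ d : ZMod 3, d ≠ 0 →
      (∃ f' : ZMod 3 → ZMod 3, ∀ r ν, f ν = r ↔ f' (ν + r * d) = r) ∨
      (∀ r ν, f ν = r ↔ f (ν + r * d) = 0)) → ∑ ν, f ν = 0 := by decide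
  have link : ∀ (s r ν : ℤ) (d : ℕ), (1 - rt 3) ^ (m + 3) ∣
      Lam 3 (cell 3 R α β (x + s * d) (y + d)) (cc 3 α (x + s * d)) (cc 3 β (y + d)) 1 (s + 3 * r)
        (ν + r * d) ↔ r0 s ν ≠ r := by
    intro s r ν d
    rw [← (h1 s ν r).2, Lam_cell, Lam_cell,
      show x + s * d - (s + 3 * r) * (y + d) + (3 : ℕ) * (ν + r * d) =
        x - (s + 3 * r) * y + (3 : ℕ) * ν by push_cast; ring]
    induction d with
    | zero => simp
    | succ d ih =>
      rw [← ih]
      have := Bs_dvd1 (M := m + 2) hD (s + 3 * r) (x - (s + 3 * r) * y + (3 : ℕ) * ν)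
        ((y + d : ℤ) : ZMod 3)
      rw [show ((y + (d + 1 : ℕ) : ℤ) : ZMod 3) = ((y + d : ℤ) : ZMod 3) + 1 by push_cast; ring]
      exact dvd_iff_dvd_of_dvd_sub this
  have : ∀ s, ∑ ν, r0 s ν = 0 := fun s => key _ fun d _ => by
    rcases hc (x + s * d.val) (y + d.val) with hu | hn
    · obtain ⟨r1, h3, -⟩ := hu.struct (HD.cell (p := 3) hD _ _)
      refine Or.inl ⟨r1 s, fun r ν => ?_⟩
      have := (link s r.val ν.val d.val).symm.trans (h3 s (ν.val + r.val * d.val) r.val).2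
      simpa using this.not
    · refine Or.inr fun r ν => ?_
      have a1 := link s r.val ν.val d.val
      have a2 := link s 0 (ν.val + r.val * d.val) d.val
      rw [zero_mul, add_zero] at a2
      have := (a1.symm.trans (dvd_iff_dvd_of_dvd_sub (hn.indep s _ r.val))).trans a2
      simpa using this.not
  exact h2 ⟨this 1, this 2⟩

/-- Passing from a local dichotomy to the vanishing of all moments. -/
theorem moms3 {m i l : ℕ}
    (loc : ∀ (R : Finset ι) (α β : ι → ℤ), Tr 3 R α β i l → HD 3 R α β 1 (m + 2) →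
      Un R α β m ∨ (Non R α β m ∧ ∀ e ≤ m, ∀ s x y, mom 3 R α β 1 e s x y = 0)) (j : ℕ) :
    ∀ (R : Finset ι) (α β : ι → ℤ), Tr 3 R α β (i + j + 1) (l + j + 1) →
      HD 3 R α β (j + 2) (m + 2 * (j + 2)) → ∀ e ≤ m, ∀ s x y, mom 3 R α β (j + 2) e s x y = 0 := by
  induction j with
  | zero =>
    intro R α β hT hD e he s x y
    have h1 := fun x y => loc _ _ _ (hT.cell x y) (HD.cell (p := 3) (M := m + 2) hD x y)
    rw [mom_cell]
    exact ((h1 x y).resolve_left (not_un hD (fun x y => (h1 x y).imp id And.left) x y)).2 e he _ _ _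
  | succ j ih =>
    intro R α β hT hD e he s x y
    rw [mom_cell]
    exact ih _ _ _ (hT.cell x y) (HD.cell (p := 3) (M := m + 2 * (j + 2)) hD x y) e he _ _ _

theorem moms3' {m i l : ℕ}
    (loc : ∀ (R : Finset ι) (α β : ι → ℤ), Tr 3 R α β i l → HD 3 R α β 1 (m + 2) →
      Un R α β m ∨ (Non R α β m ∧ ∀ e ≤ m, ∀ s x y, mom 3 R α β 1 e s x y = 0)) (j : ℕ)
    (hT : Tr 3 R α β (i + j) (l + j)) (hD : HD 3 R α β (j + 1) (m + 2 * (j + 1)))
    (hn : ∀ s, ∃ x0, Lam 3 R α β (j + 1) s x0 ≠ 0) :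
    ∀ e ≤ m, ∀ s x y, mom 3 R α β (j + 1) e s x y = 0 := by
  cases j with
  | zero => exact ((loc R α β hT hD).resolve_left fun h => h.top hD hn).2
  | succ j => exact moms3 loc j R α β hT hD

theorem un_single (h : ∀ x y, ∃ g, seg 3 R α β 1 x y = {g}) : Un R α β 0 := by
  refine ⟨1, 0, by simp, fun x y => ?_⟩
  obtain ⟨g, hg⟩ := h x y
  refine ⟨fun s => dg 3 1 (α g - x) - s * dg 3 1 (β g - y), fun s => ?_, ?_⟩
  · rw [Bs_seg, hg, sum_singleton, one_mul]
  · have h3 : (3 : ZMod 3) = 0 := rfl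
    linear_combination (dg 3 1 (α g - x) - dg 3 1 (β g - y)) * h3

theorem locII (R : Finset ι) (α β : ι → ℤ) (hT : Tr 3 R α β 1 1) (_ : HD 3 R α β 1 (0 + 2)) :
    Un R α β 0 ∨ (Non R α β 0 ∧ ∀ e ≤ 0, ∀ s x y, mom 3 R α β 1 e s x y = 0) :=
  Or.inl (un_single fun x y => by
    obtain ⟨g, hg, hg'⟩ := hT x y
    exact ⟨g, eq_singleton_iff_unique_mem.2 ⟨mem_filter.2 hg, fun g' h => hg' g' (mem_filter.1 h)⟩⟩)

theorem locI (R : Finset ι) (α β : ι → ℤ) (hT : Tr 3 R α β 1 2) (hD : HD 3 R α β 1 (1 + 2)) :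
    Un R α β 1 ∨ (Non R α β 1 ∧ ∀ e ≤ 1, ∀ s x y, mom 3 R α β 1 e s x y = 0) := by
  have par : ∀ x y : ℤ, ∃ a : ZMod 3 → ZMod 3,
      (∀ s : ℤ, Bs 3 R α β 1 s (x - s * y) y = ∑ t, ch 3 (a t - s * t)) ∧
      ∀ e s, mom 3 R α β 1 e s x y = ∑ t, (a t - s * t) ^ e := fun x y => by
    obtain ⟨G, g1, g2⟩ := seg_param hT x y
    refine ⟨fun t => dg 3 1 (α (G t) - x), fun s => ?_, fun e s => ?_⟩
    · rw [Bs_seg, seg_sum g1 g2]; simp_rw [fun t => (g1 t).2]
    · rw [mom, seg_sum g1 g2]; simp_rw [fun t => (g1 t).2]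
  have ind : ∀ s x y, mom 3 R α β 1 1 s x y = mom 3 R α β 1 1 0 x y := fun s x y => by
    obtain ⟨a, -, h⟩ := par x y
    have : ∀ s : ZMod 3, ∑ t : ZMod 3, s * t = 0 := by decide
    simp [h, sum_sub_distrib, this]
  have cst := const_of_step (mom 3 R α β 1 1 0)
    (fun x y => by simpa using mu_step (p := 3) hD le_rfl (by norm_num) 0 x y)
    (fun x y => by
      have := mu_step (p := 3) hD le_rfl (by norm_num) 1 x y
      rwa [ind, ind _ x] at this)
  by_cases hw : mom 3 R α β 1 1 0 0 0 = 0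
  · right
    have hm : ∀ s x y, mom 3 R α β 1 1 s x y = 0 := fun s x y => by rw [ind, cst, hw]
    have dich : ∀ (s x0 : ℤ) (y : ZMod 3), ∃ (c : ℤ) (u : ZMod 3), (c = 0 ∨ c = 1) ∧
        Bs 3 R α β 1 s x0 y = 3 * (c * ch 3 u) := fun s x0 y => by
      obtain ⟨a, h1, h2⟩ := par (x0 + s * y.val) y.val
      have h3 := h1 s
      simp only [add_sub_cancel_right, Int.cast_natCast, ZMod.natCast_zmod_val] at h3
      rcases full_dich (p := 3) (h := 1) rfl (fun t => a t - s * t) (fun i _ hi => by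
        obtain rfl : i = 1 := by omega
        rw [← h2, hm]) with h | h
      · exact ⟨0, 0, Or.inl rfl, by rw [h3, h]; simp⟩
      · exact ⟨1, _, Or.inr rfl, by rw [h3, h]; simp; rfl⟩
    refine ⟨fun s x0 y y' => ?_, fun e he s x y => ?_⟩
    · choose c u hc hB using dich s x0
      refine ⟨by rw [hB]; exact three_assoc.dvd.mul_right _, ?_⟩
      have h1 := Bs_dvd2 (M := 1) hD s x0 0
      rw [hB, hB, hB, mul_left_comm (2 : Cy 3), ← mul_sub, ← mul_add, show 1 + 2 = 2 + 1 by rfl, pow_add,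
        (three_assoc.mul_right _).dvd_iff_dvd_left, mul_dvd_mul_iff_left (by norm_num)] at h1
      have h2 := moment (univ : Finset (Fin 3)) ![c 2, -2 * c 1, c 0] ![u 2, u 1, u 0] 0 1
        (by norm_num) (by norm_num) (by
          have e : (0 : ZMod 3) + 1 + 1 = 2 := rfl
          rw [e, zero_add] at h1
          convert h1 using 1
          simp [Fin.sum_univ_three]; ring)
      simp only [Fin.sum_univ_three, pow_zero, mul_one] at h2
      have h3 : ∀ y, c y = c 0 := by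
        intro y
        have a0 := hc 0
        have a1 := hc 1
        have a2 := hc 2
        have : y = 0 ∨ y = 1 ∨ y = 2 := by revert y; decide
        rcases a0 with a0 | a0 <;> rcases a1 with a1 | a1 <;> rcases a2 with a2 | a2 <;>
          simp [a0, a1, a2] at h2 <;> first
            | exact absurd h2 (by decide)
            | rcases this with rfl | rfl | rfl <;> simp [a0, a1, a2]
      rw [hB, hB, h3 y, h3 y', ← mul_sub, ← mul_sub, show 1 + 2 = 2 + 1 by rfl, pow_add, pow_one]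
      refine mul_dvd_mul three_assoc.dvd (Dvd.dvd.mul_left ?_ _)
      simpa using dvd_sub (pi_dvd_ch (u y)) (pi_dvd_ch (u y'))
    · rcases Nat.le_one_iff_eq_zero_or_eq_one.1 he with rfl | rfl
      · obtain ⟨a, -, h⟩ := par x y
        rw [h]; simp; rfl
      · exact hm s x y
  · left
    set w := mom 3 R α β 1 1 0 0 0
    have key : ∀ (a : ZMod 3 → ZMod 3) (w : ZMod 3), w ≠ 0 → ∑ t, a t = w →
        ∃ θ : ZMod 3 → ZMod 3, (∀ s, univ.val.map (fun t => a t - s * t) =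
          {θ s, θ s - w, θ s - w}) ∧ θ 0 + θ 1 + θ 2 = -w := by decide
    refine ⟨1 + 2 * ch 3 (-w), -w, ?_, fun x y => ?_⟩
    · have h0 : ch 3 0 + ch 3 (-w) + ch 3 w = 0 := by
        have k2 : ∀ w : ZMod 3, w ≠ 0 → (univ.val : Multiset (ZMod 3)) = {0, -w, w} := by decide
        have := sum_ch (p := 3)
        rw [Finset.sum, k2 w hw] at this
        simpa [add_assoc] using this
      have h1 : 1 + 2 * ch 3 (-w) = ch 3 (-w) * (1 - ch 3 (-w)) := by
        have : ch 3 (-w) * ch 3 (-w) = ch 3 w := by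
          rw [← AddChar.map_add_eq_mul]; congr 1
          have h3 : (3 : ZMod 3) = 0 := rfl
          linear_combination -w * h3
        rw [AddChar.map_zero_eq_one] at h0
        linear_combination h0 + this
      rw [h1, pow_one]
      refine (associated_unit_mul_left _ _ (ch_unit _)).trans ?_
      have hc : (-w).val.Coprime 3 := by
        have k3 : ∀ w : ZMod 3, w ≠ 0 → (-w).val.Coprime 3 := by decide
        exact k3 w hw
      simpa [ch_apply] using
        ((rt_prim 3).associated_sub_one_pow_sub_one_of_coprime hc).symm.neg_neg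
    · obtain ⟨a, h1, h2⟩ := par x y
      obtain ⟨θ, h3, h4⟩ := key a w hw (by simpa [h2] using cst x y)
      refine ⟨θ, fun s => ?_, h4⟩
      have := congrArg (fun M => (M.map (ch 3)).sum) (h3 s)
      simp only [Multiset.map_map] at this
      rw [h1, Finset.sum]
      refine this.trans ?_
      simp [sub_eq_add_neg, AddChar.map_add_eq_mul]; ring

theorem locIII (R : Finset ι) (α β : ι → ℤ) (hT : Tr 3 R α β 0 2) (hD : HD 3 R α β 1 (0 + 2)) :
    Un R α β 0 ∨ (Non R α β 0 ∧ ∀ e ≤ 0, ∀ s x y, mom 3 R α β 1 e s x y = 0) := by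
  classical
  have row : ∀ y : ℤ, ∃ G : ZMod 3 → ι, ∀ x : ℤ, ∀ {A : Type} [AddCommMonoid A] (F : ι → ZMod 3 → A),
      ∑ g ∈ seg 3 R α β 1 x y, F g (dg 3 1 (β g - y)) =
        ∑ t with (α (G t) : ZMod 3) = x, F (G t) t := fun y => by
    choose G hG hG' using fun t : ZMod 3 => hT 0 (y + 3 * t.val)
    have h1 : ∀ t, G t ∈ R ∧ ((3 : ℕ) : ℤ) ^ 1 ∣ β (G t) - y ∧ dg 3 1 (β (G t) - y) = t := fun t => by
      obtain ⟨h1, -, c, h3⟩ := hG t
      have e : β (G t) - y = ((3 : ℕ) : ℤ) ^ 1 * (t.val + 3 * c) := by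
        push_cast at h3 ⊢; linear_combination h3
      refine ⟨h1, e ▸ Dvd.intro _ rfl, ?_⟩
      rw [e, dg_mul]; push_cast; simp; left; rfl
    have e2 : ∀ (g : ι) (x : ℤ), (α g : ZMod 3) = x ↔ ((3 : ℕ) : ℤ) ^ 1 ∣ α g - x := fun g x => by
      rw [pow_one, ← ZMod.intCast_zmod_eq_zero_iff_dvd, Int.cast_sub, sub_eq_zero]
    have h2 : ∀ x, ∀ g ∈ seg 3 R α β 1 x y, G (dg 3 1 (β g - y)) = g := fun x g hg => by
      obtain ⟨a1, a2, a3⟩ := h1 (dg 3 1 (β g - y))
      obtain ⟨b1, -, b3⟩ := mem_filter.1 hg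
      exact hT.eq a1 b1 (by simp) (by simpa using dg_inj a2 b3 a3)
    refine ⟨G, fun x A _ F => sum_bij' (fun g _ => dg 3 1 (β g - y)) (fun t _ => G t) ?_ ?_
      (fun g hg => h2 x g hg) (fun t _ => (h1 t).2.2) (fun g hg => by rw [h2 x g hg])⟩
    · intro g hg
      rw [mem_filter, h2 x g hg, e2]
      exact ⟨mem_univ _, (mem_filter.1 hg).2.1⟩
    · intro t ht
      exact mem_filter.2 ⟨(h1 t).1, (e2 _ _).1 (mem_filter.1 ht).2, (h1 t).2.1⟩
  choose G hG using row
  have m0 : ∀ s x y, mom 3 R α β 1 0 s x y =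
      ((univ.filter fun t => (α (G y t) : ZMod 3) = x).card : ZMod 3) := fun s x y => by
    have := hG y x (fun _ _ => (1 : ZMod 3))
    simpa [mom] using this
  have cst := const_of_step (mom 3 R α β 1 0 0)
    (fun x y => by simpa using mu_step (p := 3) hD le_rfl (by norm_num) 0 x y)
    (fun x y => by
      have := mu_step (p := 3) hD le_rfl (by norm_num) 1 x y
      rwa [m0, m0, ← m0 0, ← m0 0] at this)
  have key : ∀ (a : ZMod 3 → ZMod 3) (w : ZMod 3),
      (∀ x, ((univ.filter fun t => a t = x).card : ZMod 3) = w) →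
      (w ≠ 0 → ∀ x, (univ.filter fun t => a t = x).card = 1) ∧ (w = 0 → ∀ t, a t = a 0) := by
    decide
  have key2 := fun y => key (fun t => (α (G y t) : ZMod 3)) (mom 3 R α β 1 0 0 0 0) (fun x => by
    have := cst x.val y
    rw [m0] at this
    simpa using this)
  by_cases hw : mom 3 R α β 1 0 0 0 0 = 0
  · right
    have full : ∀ x y : ℤ, (univ.filter fun t => (α (G y t) : ZMod 3) = x) =
        if (α (G y 0) : ZMod 3) = x then univ else ∅ := fun x y => by
      simp_rw [(key2 y).2 hw]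
      split_ifs with h <;> simp [h]
    have m1 : ∀ e (s : ZMod 3) (x y : ℤ), mom 3 R α β 1 e s x y =
        if (α (G y 0) : ZMod 3) = x then ∑ t, (dg 3 1 (α (G y t) - x) - s * t) ^ e else 0 :=
      fun e s x y => by
        rw [mom, hG y x (fun g t => (dg 3 1 (α g - x) - s * t) ^ e), full]
        split_ifs <;> simp
    have ind : ∀ s x y, mom 3 R α β 1 1 s x y = mom 3 R α β 1 1 0 x y := fun s x y => by
      have : ∀ s : ZMod 3, ∑ t : ZMod 3, s * t = 0 := by decide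
      simp [m1, sum_sub_distrib, this]
    have hm : ∀ s x y, mom 3 R α β 1 1 s x y = 0 := fun s x y => by
      have k3 : ∀ a b x : ZMod 3, ∃ s : ZMod 3, a ≠ x + s ∧ b ≠ x + s * 2 := by decide
      obtain ⟨s', a1, a2⟩ := k3 (α (G (y + 1) 0)) (α (G (y + 2) 0)) x
      have := mu_step2 (p := 3) hD le_rfl (by norm_num) s'.val x y
      rw [m1 1 _ (x + _), m1 1 _ (x + _), if_neg (by simpa using a2), if_neg (by simpa using a1),
        ind] at this
      rw [ind]; simpa using this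
    have two : ∀ (s x0 : ℤ) (y : ZMod 3), (1 - rt 3) ^ 2 ∣ Bs 3 R α β 1 s x0 y := fun s x0 y => by
      have h3 := Bs_seg (p := 3) R α β s (x0 + s * y.val) y.val
      simp only [add_sub_cancel_right, Int.cast_natCast, ZMod.natCast_zmod_val] at h3
      rw [h3, hG y.val (x0 + s * y.val)
        (fun g t => ch 3 (dg 3 1 (α g - (x0 + s * y.val)) - s * t)), full]
      split_ifs with h
      · rcases full_dich (p := 3) (h := 1) rfl
          (fun t => dg 3 1 (α (G y.val t) - (x0 + s * y.val)) - s * t) (fun i _ hi => by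
          obtain rfl : i = 1 := by omega
          have := hm s (x0 + s * y.val) y.val
          rwa [m1, if_pos h] at this) with h | h
        · rw [h]; exact dvd_zero _
        · rw [h]; exact three_assoc.dvd.mul_right _
      · simp
    refine ⟨fun s x0 y y' => ⟨(pow_dvd_pow _ (by norm_num)).trans (two s x0 y),
      dvd_sub (two s x0 y) (two s x0 y')⟩, fun e he s x y => ?_⟩
    obtain rfl : e = 0 := by omega
    rw [m0, ← m0 0, cst, hw]
  · left
    refine un_single fun x y => card_eq_one.1 ?_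
    have := hG y x (fun _ _ => (1 : ℕ))
    simp only [sum_const, smul_eq_mul, mul_one] at this
    rw [this, (key2 y).1 hw]

end three

end Pool.Agent.Lib.MP_2d211a_co
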